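import Pool.Agent.Lib.MP_dd84fd_nt.L2G.Defs
import Pool.Agent.Lib.MP_67663b_nt.OddB.LSieve
import Pool.Agent.Lib.MP_67663b_nt.OddB.Montgomery
import Pool.Agent.Lib.MP_67663b_nt.OddB.GSum

set_option autoImplicit false

/-!
# A Brun-Titchmarsh inequality
-/

namespace Pool.MP_dd84fd_nt.L2G

open Finset Pool.MP_67663b_nt.Odd

/-- the moduli of the sieve -/
private def brunT_S (r z : ℕ) : Finset ℕ :=
  (Icc 1 z).filter (fun s => Squarefree s ∧ ∀ p ∈ r.primeFactors, ¬ p ∣ s)

private theorem brunT_coprime {r s : ℕ} (hr : 1 ≤ r) (hs : ∀ p ∈ r.primeFactors, ¬ p ∣ s) :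
    Nat.Coprime s r := by
  apply Nat.coprime_of_dvd
  intro k hk h1 h2
  exact hs k (Nat.mem_primeFactors.2 ⟨hk, h2, by omega⟩) h1

private theorem brunT_spacing {r z s b s' b' : ℕ} (hs : 1 ≤ s) (hs' : 1 ≤ s') (hsz : s ≤ z)
    (hsz' : s' ≤ z) (hsr : Nat.Coprime s r) (hsr' : Nat.Coprime s' r) (hb : Nat.Coprime s b)
    (hb' : Nat.Coprime s' b') (hbs : b < s) (hbs' : b' < s') (hne : ¬ (s = s' ∧ b = b')) (k : ℤ) :
    1 / (z : ℝ) ^ 2 ≤ |(r : ℝ) * b / s - (r : ℝ) * b' / s' - k| := by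
  have hs0 : (0 : ℝ) < s := by exact_mod_cast hs
  have hs0' : (0 : ℝ) < s' := by exact_mod_cast hs'
  have hz0 : (0 : ℝ) < z := by exact_mod_cast (by omega : 0 < z)
  set M : ℤ := (r : ℤ) * b * s' - (r : ℤ) * b' * s - k * s * s' with hM
  have hM0 : M ≠ 0 := by
    intro h0
    apply hne
    have h1 : (r : ℤ) * b * s' = (r : ℤ) * b' * s + k * s * s' := by
      rw [hM] at h0
      linarith
    have h2 : (s : ℤ) ∣ (s' : ℤ) := by
      have h3 : (s : ℤ) ∣ ((r * b : ℕ) : ℤ) * s' := by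
        refine ⟨(r : ℤ) * b' + k * s', ?_⟩
        push_cast
        rw [h1]
        ring
      have h4 : IsCoprime (s : ℤ) ((r * b : ℕ) : ℤ) :=
        Nat.isCoprime_iff_coprime.2 (Nat.Coprime.mul_right hsr hb)
      exact h4.dvd_of_dvd_mul_left h3
    have h3 : (s' : ℤ) ∣ (s : ℤ) := by
      have h3 : (s' : ℤ) ∣ ((r * b' : ℕ) : ℤ) * s := by
        refine ⟨(r : ℤ) * b - k * s, ?_⟩
        push_cast
        have : (r : ℤ) * b' * s = (r : ℤ) * b * s' - k * s * s' := by rw [h1]; ring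
        rw [this]
        ring
      have h4 : IsCoprime (s' : ℤ) ((r * b' : ℕ) : ℤ) :=
        Nat.isCoprime_iff_coprime.2 (Nat.Coprime.mul_right hsr' hb')
      exact h4.dvd_of_dvd_mul_left h3
    have h4 : s = s' := Nat.dvd_antisymm (by exact_mod_cast h2) (by exact_mod_cast h3)
    subst h4
    refine ⟨rfl, ?_⟩
    have h5 : (s : ℤ) ∣ (b : ℤ) - b' := by
      have h6 : (s : ℤ) ∣ (r : ℤ) * ((b : ℤ) - b') := by
        refine ⟨k, ?_⟩
        have hs1 : (s : ℤ) ≠ 0 := by exact_mod_cast (by omega : s ≠ 0)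
        apply mul_right_cancel₀ hs1
        linear_combination h1
      have h7 : IsCoprime (s : ℤ) (r : ℤ) := Nat.isCoprime_iff_coprime.2 hsr
      exact h7.dvd_of_dvd_mul_left h6
    obtain ⟨m, hm⟩ := h5
    have hm0 : m = 0 := by
      by_contra hne0
      rcases lt_or_gt_of_ne hne0 with h | h
      · have : m ≤ -1 := by omega
        have hs1 : (0 : ℤ) < s := by exact_mod_cast hs
        nlinarith [(by exact_mod_cast hbs' : (b' : ℤ) < s)]
      · have : 1 ≤ m := by omega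
        have hs1 : (0 : ℤ) < s := by exact_mod_cast hs
        nlinarith [(by exact_mod_cast hbs : (b : ℤ) < s)]
    rw [hm0, mul_zero] at hm
    omega
  have hM1 : (1 : ℝ) ≤ |(M : ℝ)| := by
    have : 1 ≤ |M| := Int.one_le_abs hM0
    exact_mod_cast this
  have heq : (r : ℝ) * b / s - (r : ℝ) * b' / s' - k = (M : ℝ) / ((s : ℝ) * s') := by
    rw [hM]
    push_cast
    field_simp
  rw [heq, abs_div, abs_of_pos (mul_pos hs0 hs0')]
  apply div_le_div₀ (by positivity) hM1 (mul_pos hs0 hs0')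
  have h1 : (s : ℝ) ≤ z := by exact_mod_cast hsz
  have h2 : (s' : ℝ) ≤ z := by exact_mod_cast hsz'
  rw [pow_two]
  exact mul_le_mul h1 h2 hs0'.le hz0.le

/-- the sieve part -/
private theorem brunT_sieve (r c x y z : ℕ) (hr : 1 ≤ r) (hz : 1 ≤ z) :
    (((Ioc x (x + y)).filter (fun p => (p.Prime ∧ p ≡ c [MOD r]) ∧ z < p)).card : ℝ) *
      ∑ s ∈ brunT_S r z, 1 / (Nat.totient s : ℝ) ≤
      (z : ℝ) ^ 2 + 4 * Real.pi * ((y : ℝ) / r + 1) := by
  set A := (Ioc x (x + y)).filter (fun p => (p.Prime ∧ p ≡ c [MOD r]) ∧ z < p) with hA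
  have hr0 : (0 : ℝ) < r := by exact_mod_cast hr
  have hz0 : (0 : ℝ) < z := by exact_mod_cast hz
  have hπ := Real.pi_pos
  rcases Nat.eq_zero_or_pos A.card with hA0 | hA0
  · rw [hA0, Nat.cast_zero, zero_mul]
    positivity
  have hA0' : (0 : ℝ) < A.card := by exact_mod_cast hA0
  -- the translated set
  set f : ℕ → ℕ := fun p => p / r - x / r with hf
  have hfA : ∀ p ∈ A, p = c % r + r * (x / r) + r * f p := by
    intro p hp
    rw [hA, Finset.mem_filter, Finset.mem_Ioc] at hp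
    have h1 : p % r = c % r := hp.2.1.2
    have h2 : x / r ≤ p / r := Nat.div_le_div_right hp.1.1.le
    have h3 : p % r + r * (p / r) = p := Nat.mod_add_div p r
    simp only [hf]
    rw [Nat.mul_sub, add_assoc, ← Nat.add_sub_assoc (Nat.mul_le_mul_left r h2),
      Nat.add_sub_cancel_left, ← h1, h3]
  have hinj : Set.InjOn f A := by
    intro p hp q hq hpq
    rw [hfA p hp, hfA q hq, hpq]
  set A' := A.image f with hA'
  have hcard : A'.card = A.card := Finset.card_image_of_injOn hinj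
  have hA'N : ∀ n ∈ A', (n : ℝ) ≤ (y : ℝ) / r + 1 := by
    intro n hn
    rw [hA', Finset.mem_image] at hn
    obtain ⟨p, hp, rfl⟩ := hn
    rw [hA, Finset.mem_filter, Finset.mem_Ioc] at hp
    have h1 : p / r ≤ (x + y) / r := Nat.div_le_div_right hp.1.2
    have h2 : (x + y) / r ≤ x / r + (y / r + 1) := by
      have h4 : x + y < r * (x / r + (y / r + 1) + 1) := by
        have h5 := Nat.lt_mul_div_succ x (show 0 < r by omega)
        have h6 := Nat.lt_mul_div_succ y (show 0 < r by omega)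
        calc x + y < r * (x / r + 1) + r * (y / r + 1) := by omega
          _ = r * (x / r + (y / r + 1) + 1) := by ring
      have := (Nat.div_lt_iff_lt_mul (show 0 < r by omega)).2 (by rwa [mul_comm] at h4)
      omega
    have h3 : f p ≤ y / r + 1 := by
      simp only [hf]
      exact Nat.sub_le_iff_le_add.2 (h1.trans (h2.trans (le_of_eq (Nat.add_comm _ _))))
    calc (f p : ℝ) ≤ ((y / r + 1 : ℕ) : ℝ) := by exact_mod_cast h3
      _ ≤ (y : ℝ) / r + 1 := by
        push_cast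
        have := Nat.cast_div_le (α := ℝ) (m := y) (n := r)
        linarith
  set T : Finset (Σ _ : ℕ, ℕ) := (brunT_S r z).sigma (fun s => (range s).filter (Nat.Coprime s))
    with hT
  have hLS := large_sieve_c (J := Σ _ : ℕ, ℕ) T (fun j => (r : ℝ) * j.2 / j.1)
    (δ := 1 / (z : ℝ) ^ 2) (by positivity) (by
      rw [div_le_one (by positivity)]
      have : (1 : ℝ) ≤ z := by exact_mod_cast hz
      nlinarith) (by
      intro i hi j hj hij k
      rw [hT, Finset.mem_sigma, Finset.mem_filter, Finset.mem_range, brunT_S,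
        Finset.mem_filter, Finset.mem_Icc] at hi hj
      refine brunT_spacing hi.1.1.1 hj.1.1.1 hi.1.1.2 hj.1.1.2 (brunT_coprime hr hi.1.2.2)
        (brunT_coprime hr hj.1.2.2) hi.2.2 hj.2.2 hi.2.1 hj.2.1 ?_ k
      rintro ⟨h1, h2⟩
      apply hij
      obtain ⟨i1, i2⟩ := i
      obtain ⟨j1, j2⟩ := j
      simp only at h1 h2
      rw [h1, h2]) A' (fun _ => (1 : ℂ)) (N := (y : ℝ) / r + 1) (by positivity) hA'N
  rw [one_div, inv_inv] at hLS
  have hnorm : ∀ s b : ℕ, ‖∑ n ∈ A, (1 : ℂ) * ee (n * (0 + (b : ℝ) / s))‖ =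
      ‖∑ n ∈ A', (1 : ℂ) * ee (n * ((r : ℝ) * b / s))‖ := by
    intro s b
    have h1 : ∑ n ∈ A, (1 : ℂ) * ee (n * (0 + (b : ℝ) / s)) =
        ee (((c % r + r * (x / r) : ℕ) : ℝ) * ((b : ℝ) / s)) *
          ∑ n ∈ A', (1 : ℂ) * ee (n * ((r : ℝ) * b / s)) := by
      rw [hA', Finset.sum_image hinj, Finset.mul_sum]
      refine Finset.sum_congr rfl fun p hp => ?_
      rw [one_mul, one_mul, ← ee_add]
      congr 1
      conv_lhs => rw [hfA p hp]
      push_cast
      ring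
    rw [h1, norm_mul, norm_ee, one_mul]
  have hmont : ∀ s ∈ brunT_S r z, (A.card : ℝ) ^ 2 * (1 / (Nat.totient s : ℝ)) ≤
      ∑ b ∈ (range s).filter (Nat.Coprime s), ‖∑ n ∈ A', (1 : ℂ) * ee (n * ((r : ℝ) * b / s))‖ ^ 2 := by
    intro s hs
    rw [brunT_S, Finset.mem_filter, Finset.mem_Icc] at hs
    have hφ : (0 : ℝ) < Nat.totient s := by exact_mod_cast Nat.totient_pos.2 hs.1.1
    have h1 := montgomery hs.2.1 A (by
      intro n hn
      rw [hA, Finset.mem_filter] at hn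
      rw [Nat.Prime.coprime_iff_not_dvd hn.2.1.1]
      intro h2
      have := Nat.le_of_dvd hs.1.1 h2
      omega) (fun _ => (1 : ℂ)) 0
    have h2 : ‖∑ n ∈ A, (1 : ℂ) * ee (n * 0)‖ = A.card := by
      simp only [mul_zero, ee_zero, one_mul]
      rw [Finset.sum_const, nsmul_eq_mul, mul_one, Complex.norm_natCast]
    rw [h2] at h1
    rw [mul_one_div, div_le_iff₀ hφ, mul_comm]
    refine h1.trans (le_of_eq ?_)
    congr 1
    refine Finset.sum_congr rfl fun b _ => ?_
    rw [hnorm s b]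
  have hsum : (A.card : ℝ) ^ 2 * ∑ s ∈ brunT_S r z, 1 / (Nat.totient s : ℝ) ≤
      ((z : ℝ) ^ 2 + 4 * Real.pi * ((y : ℝ) / r + 1)) * A.card := by
    rw [Finset.mul_sum]
    refine (Finset.sum_le_sum hmont).trans ?_
    rw [hT, Finset.sum_sigma] at hLS
    refine hLS.trans (le_of_eq ?_)
    congr 1
    rw [Finset.sum_congr rfl fun n _ => (by simp : ‖(1 : ℂ)‖ ^ 2 = (1 : ℝ)), Finset.sum_const,
      nsmul_eq_mul, mul_one, hcard]
  have h3 : (A.card : ℝ) * ((A.card : ℝ) * ∑ s ∈ brunT_S r z, 1 / (Nat.totient s : ℝ)) ≤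
      (A.card : ℝ) * ((z : ℝ) ^ 2 + 4 * Real.pi * ((y : ℝ) / r + 1)) := by
    calc (A.card : ℝ) * ((A.card : ℝ) * ∑ s ∈ brunT_S r z, 1 / (Nat.totient s : ℝ)) =
        (A.card : ℝ) ^ 2 * ∑ s ∈ brunT_S r z, 1 / (Nat.totient s : ℝ) := by ring
      _ ≤ ((z : ℝ) ^ 2 + 4 * Real.pi * ((y : ℝ) / r + 1)) * A.card := hsum
      _ = _ := by ring
  exact le_of_mul_le_mul_left h3 hA0'

private theorem brunT_omega (r : ℕ) (hr : 1 ≤ r) :
    1 + Real.log (1 + (r.primeFactors.card : ℝ)) ≤ 2 * (1 + Real.log (1 + Real.log r)) := by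
  have hl2 : 0 < Real.log 2 := Real.log_pos (by norm_num)
  have hlr : 0 ≤ Real.log (r : ℝ) := Real.log_natCast_nonneg r
  have h1 : (r.primeFactors.card : ℝ) * Real.log 2 ≤ Real.log r := by
    have h2 : 2 ^ r.primeFactors.card ≤ r := by
      calc 2 ^ r.primeFactors.card = ∏ _p ∈ r.primeFactors, 2 := by rw [Finset.prod_const]
        _ ≤ ∏ p ∈ r.primeFactors, p := by
          apply Finset.prod_le_prod'
          intro p hp
          exact (Nat.prime_of_mem_primeFactors hp).two_le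
        _ ≤ r := Nat.le_of_dvd hr (Nat.prod_primeFactors_dvd r)
    have h3 : ((2 : ℝ) ^ r.primeFactors.card) ≤ r := by exact_mod_cast h2
    have h4 := Real.log_le_log (by positivity) h3
    rwa [Real.log_pow] at h4
  have h2 : (1 : ℝ) + (r.primeFactors.card : ℝ) ≤ 2 * (1 + Real.log r) := by
    have h5 := Real.log_two_gt_d9
    have h6 : (r.primeFactors.card : ℝ) ≤ 2 * Real.log r := by
      have : (0 : ℝ) ≤ r.primeFactors.card := Nat.cast_nonneg _
      nlinarith
    linarith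
  have h3 : Real.log (1 + (r.primeFactors.card : ℝ)) ≤ Real.log 2 + Real.log (1 + Real.log r) := by
    rw [← Real.log_mul (by norm_num) (by linarith)]
    exact Real.log_le_log (by positivity) h2
  have h7 : 0 ≤ Real.log (1 + Real.log r) := Real.log_nonneg (by linarith)
  have h8 := Real.log_two_lt_d9
  linarith

theorem brun_titchmarsh : ∃ C : ℝ, 0 < C ∧ ∀ r c x y : ℕ, 1 ≤ r → 4 * r ≤ y →
    (((Ioc x (x + y)).filter (fun p => p.Prime ∧ p ≡ c [MOD r])).card : ℝ) ≤
      C * ((y : ℝ) / r) * (1 + Real.log (1 + Real.log r)) / Real.log ((y : ℝ) / r) := by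
  obtain ⟨c0, hc0, hG⟩ := gsum_ge
  refine ⟨(1 + 8 * Real.pi) * (8 / c0) + 2, by positivity, fun r c x y hr hy => ?_⟩
  have hr0 : (0 : ℝ) < r := by exact_mod_cast hr
  have hπ := Real.pi_pos
  set u : ℝ := (y : ℝ) / r with hu
  have hu4 : 4 ≤ u := by
    rw [hu, le_div_iff₀ hr0]
    exact_mod_cast hy
  set z : ℕ := Nat.sqrt (y / r) with hz
  have hz1 : z * z ≤ y / r := Nat.sqrt_le (y / r)
  have hz2 : y / r < (z + 1) * (z + 1) := Nat.lt_succ_sqrt (y / r)
  have hz3 : 2 ≤ z := by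
    rw [hz, Nat.le_sqrt]
    rw [Nat.le_div_iff_mul_le hr]
    exact hy
  have hz3' : (2 : ℝ) ≤ z := by exact_mod_cast hz3
  have hzu : (z : ℝ) ^ 2 ≤ u := by
    have h1 : ((z * z : ℕ) : ℝ) ≤ ((y / r : ℕ) : ℝ) := by exact_mod_cast hz1
    have h2 := Nat.cast_div_le (α := ℝ) (m := y) (n := r)
    push_cast at h1
    rw [pow_two]
    exact h1.trans h2
  have huz : u < ((z : ℝ) + 1) ^ 2 := by
    have h1 : y < r * (y / r + 1) := Nat.lt_mul_div_succ y (show 0 < r by omega)
    have h2 : y < r * ((z + 1) * (z + 1)) := h1.trans_le (Nat.mul_le_mul_left r (by omega))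
    rw [hu, div_lt_iff₀ hr0]
    have h3 : (y : ℝ) < ((r * ((z + 1) * (z + 1)) : ℕ) : ℝ) := by exact_mod_cast h2
    push_cast at h3
    linarith
  have hz4 : (z : ℝ) + 1 ≤ (z : ℝ) ^ 2 := by nlinarith
  have hlogu : Real.log u ≤ 4 * Real.log z := by
    have h1 : u ≤ (z : ℝ) ^ 4 := by
      calc u ≤ ((z : ℝ) + 1) ^ 2 := huz.le
        _ ≤ ((z : ℝ) ^ 2) ^ 2 := pow_le_pow_left₀ (by positivity) hz4 2
        _ = (z : ℝ) ^ 4 := by ring
    have h2 := Real.log_le_log (by linarith) h1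
    rwa [Real.log_pow] at h2
  have hlu : 0 < Real.log u := Real.log_pos (by linarith)
  have hL : 0 ≤ Real.log (1 + Real.log r) :=
    Real.log_nonneg (by linarith [Real.log_natCast_nonneg r])
  set Lr : ℝ := 1 + Real.log (1 + Real.log r) with hLr
  have hLr1 : 1 ≤ Lr := by linarith
  set A1 := (Ioc x (x + y)).filter (fun p => p.Prime ∧ p ≡ c [MOD r]) with hA1
  set A := (Ioc x (x + y)).filter (fun p => (p.Prime ∧ p ≡ c [MOD r]) ∧ z < p) with hA
  have hsplit : (A1.card : ℝ) ≤ A.card + z := by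
    have h1 : A1 ⊆ A ∪ Icc 1 z := by
      intro p hp
      rw [hA1, Finset.mem_filter] at hp
      rw [Finset.mem_union, hA, Finset.mem_filter, Finset.mem_Icc]
      by_cases h : z < p
      · exact Or.inl ⟨hp.1, hp.2, h⟩
      · exact Or.inr ⟨hp.2.1.one_lt.le, by omega⟩
    have h2 := (Finset.card_le_card h1).trans (Finset.card_union_le _ _)
    rw [Nat.card_Icc, Nat.add_sub_cancel] at h2
    exact_mod_cast h2
  have hsieve := brunT_sieve r c x y z hr (by omega)
  have hG1 := hG z r.primeFactors (by omega) (fun p hp => Nat.prime_of_mem_primeFactors hp)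
  have hG2 : c0 * Real.log u / (8 * Lr) ≤ ∑ s ∈ brunT_S r z, 1 / (Nat.totient s : ℝ) := by
    refine le_trans ?_ hG1
    have h1 := brunT_omega r hr
    have h2 : (0 : ℝ) < 1 + Real.log (1 + (r.primeFactors.card : ℝ)) := by
      have : 0 ≤ Real.log (1 + (r.primeFactors.card : ℝ)) :=
        Real.log_nonneg (by
          have : (0 : ℝ) ≤ r.primeFactors.card := Nat.cast_nonneg _
          linarith)
      linarith
    rw [div_le_div_iff₀ (by positivity) h2]
    calc c0 * Real.log u * (1 + Real.log (1 + (r.primeFactors.card : ℝ)))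
        ≤ c0 * (4 * Real.log z) * (2 * Lr) := by
          apply mul_le_mul _ h1 h2.le _
          · exact mul_le_mul_of_nonneg_left hlogu hc0.le
          · have : 0 ≤ Real.log (z : ℝ) := Real.log_natCast_nonneg z
            positivity
      _ = c0 * Real.log z * (8 * Lr) := by ring
  have hA2 : (A.card : ℝ) * (c0 * Real.log u / (8 * Lr)) ≤ (1 + 8 * Real.pi) * u := by
    refine (mul_le_mul_of_nonneg_left hG2 (Nat.cast_nonneg _)).trans (hsieve.trans ?_)
    rw [← hu]
    nlinarith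
  have hA3 : (A.card : ℝ) ≤ (1 + 8 * Real.pi) * (8 / c0) * u * Lr / Real.log u := by
    rw [le_div_iff₀ hlu]
    have h1 : (A.card : ℝ) * (c0 * Real.log u / (8 * Lr)) * (8 * Lr / c0) =
        (A.card : ℝ) * Real.log u := by
      field_simp
    rw [← h1]
    calc (A.card : ℝ) * (c0 * Real.log u / (8 * Lr)) * (8 * Lr / c0)
        ≤ (1 + 8 * Real.pi) * u * (8 * Lr / c0) :=
          mul_le_mul_of_nonneg_right hA2 (by positivity)
      _ = (1 + 8 * Real.pi) * (8 / c0) * u * Lr := by ring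
  have hz5 : (z : ℝ) ≤ 2 * u * Lr / Real.log u := by
    rw [le_div_iff₀ hlu]
    have h1 : Real.log u ≤ 2 * Real.sqrt u := by
      have h2 : Real.log u = 2 * Real.log (Real.sqrt u) := by
        rw [Real.log_sqrt (by linarith)]
        ring
      have h3 := Real.log_le_self (Real.sqrt_nonneg u)
      linarith
    have h4 : (z : ℝ) ≤ Real.sqrt u := Real.le_sqrt_of_sq_le hzu
    have h5 : Real.sqrt u * Real.sqrt u = u := Real.mul_self_sqrt (by linarith)
    calc (z : ℝ) * Real.log u ≤ Real.sqrt u * (2 * Real.sqrt u) :=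
          mul_le_mul h4 h1 hlu.le (Real.sqrt_nonneg u)
      _ = 2 * u * 1 := by rw [mul_one]; linarith
      _ ≤ 2 * u * Lr := mul_le_mul_of_nonneg_left hLr1 (by linarith)
  calc (A1.card : ℝ) ≤ A.card + z := hsplit
    _ ≤ (1 + 8 * Real.pi) * (8 / c0) * u * Lr / Real.log u + 2 * u * Lr / Real.log u :=
        add_le_add hA3 hz5
    _ = ((1 + 8 * Real.pi) * (8 / c0) + 2) * u * Lr / Real.log u := by ring

end Pool.MP_dd84fd_nt.L2G
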