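import Pool.Agent.Lib.MP_dd84fd_nt.L2G.ChDefs

set_option autoImplicit false

namespace Pool.MP_dd84fd_nt.L2G

open Finset Pool.MP_67663b_nt.Odd

theorem co_char_inv_unit (q : ℕ) [NeZero q] (χ : DirichletCharacter ℂ q) (b : ZMod q)
    (hb : IsUnit b) : χ b⁻¹ = (χ b)⁻¹ := by
  apply eq_inv_of_mul_eq_one_left
  rw [← map_mul, mul_comm, ZMod.mul_inv_of_unit b hb, map_one]

theorem co_char_conj (q : ℕ) [NeZero q] (χ : DirichletCharacter ℂ q) (b : ZMod q)
    (hb : IsUnit b) : (starRingEnd ℂ) (χ b) = χ b⁻¹ := by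
  rw [co_char_inv_unit q χ b hb]
  obtain ⟨u, rfl⟩ := hb
  rw [Complex.inv_eq_conj (DirichletCharacter.unit_norm_eq_one χ u)]

theorem co_parseval_zmod (q : ℕ) [NeZero q] (F : ZMod q → ℂ) :
    ∑ χ : DirichletCharacter ℂ q, ‖∑ b : ZMod q, F b * χ b‖ ^ 2 =
      (Nat.totient q : ℝ) * ∑ b ∈ univ.filter (fun b : ZMod q => IsUnit b), ‖F b‖ ^ 2 := by
  classical
  have h1 : ∀ χ : DirichletCharacter ℂ q, ((‖∑ b : ZMod q, F b * χ b‖ ^ 2 : ℝ) : ℂ) =
      ∑ b : ZMod q, ∑ c ∈ univ.filter (fun c : ZMod q => IsUnit c),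
        F b * (starRingEnd ℂ) (F c) * (χ c⁻¹ * χ b) := by
    intro χ
    have h2 : ((‖∑ b : ZMod q, F b * χ b‖ ^ 2 : ℝ) : ℂ) =
        (∑ b : ZMod q, F b * χ b) * (starRingEnd ℂ) (∑ b : ZMod q, F b * χ b) := by
      rw [Complex.mul_conj, Complex.normSq_eq_norm_sq]
    have h3 : (starRingEnd ℂ) (∑ b : ZMod q, F b * χ b) =
        ∑ c ∈ univ.filter (fun c : ZMod q => IsUnit c), (starRingEnd ℂ) (F c) * χ c⁻¹ := by
      rw [map_sum, Finset.sum_filter]
      refine Finset.sum_congr rfl fun c _ => ?_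
      split_ifs with hc
      · rw [map_mul, co_char_conj q χ c hc]
      · rw [MulChar.map_nonunit χ hc, mul_zero, map_zero]
    rw [h2, h3, Finset.sum_mul_sum]
    refine Finset.sum_congr rfl fun b _ => Finset.sum_congr rfl fun c _ => ?_
    ring
  have h4 : ((∑ χ : DirichletCharacter ℂ q, ‖∑ b : ZMod q, F b * χ b‖ ^ 2 : ℝ) : ℂ) =
      (((Nat.totient q : ℝ) * ∑ b ∈ univ.filter (fun b : ZMod q => IsUnit b),
        ‖F b‖ ^ 2 : ℝ) : ℂ) := by
    rw [Complex.ofReal_sum]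
    rw [Finset.sum_congr rfl (fun χ _ => h1 χ)]
    rw [Finset.sum_comm]
    rw [Finset.sum_congr rfl (fun b _ => Finset.sum_comm)]
    simp only [← Finset.mul_sum]
    rw [Finset.sum_comm]
    push_cast
    rw [Finset.mul_sum]
    refine Finset.sum_congr rfl fun c hc => ?_
    rw [Finset.mem_filter] at hc
    rw [Finset.sum_congr rfl (fun b _ => by
      rw [DirichletCharacter.sum_char_inv_mul_char_eq ℂ hc.2 b])]
    simp only [mul_ite, mul_zero]
    rw [Finset.sum_ite_eq univ c, if_pos (Finset.mem_univ _)]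
    rw [Complex.mul_conj, Complex.normSq_eq_norm_sq]
    push_cast
    ring
  exact_mod_cast h4

theorem co_group (q : ℕ) [NeZero q] (s : Finset ℕ) (c : ℕ → ℂ) (χ : DirichletCharacter ℂ q) :
    ∑ n ∈ s, c n * χ n =
      ∑ b : ZMod q, (∑ n ∈ s.filter (fun n : ℕ => (n : ZMod q) = b), c n) * χ b := by
  classical
  rw [← Finset.sum_fiberwise s (fun n : ℕ => (n : ZMod q))]
  refine Finset.sum_congr rfl fun b _ => ?_
  rw [Finset.sum_mul]
  refine Finset.sum_congr rfl fun n hn => ?_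
  rw [(Finset.mem_filter.mp hn).2]

theorem char_parseval (q : ℕ) [NeZero q] (s : Finset ℕ) (c : ℕ → ℂ) :
    ∑ χ : DirichletCharacter ℂ q, ‖∑ n ∈ s, c n * χ n‖ ^ 2 =
      (Nat.totient q : ℝ) * ∑ b ∈ univ.filter (fun b : ZMod q => IsUnit b),
        ‖∑ n ∈ s.filter (fun n : ℕ => (n : ZMod q) = b), c n‖ ^ 2 := by
  rw [← co_parseval_zmod]
  exact Finset.sum_congr rfl fun χ _ => by rw [co_group]

theorem co_card (q : ℕ) [NeZero q] (M N : ℕ) (b : ZMod q) :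
    (((Ioc M (M + N)).filter (fun n : ℕ => (n : ZMod q) = b)).card : ℝ) ≤ N / q + 1 := by
  have hq : 0 < q := Nat.pos_of_ne_zero (NeZero.ne q)
  have h1 : (Ioc M (M + N)).filter (fun n : ℕ => (n : ZMod q) = b) =
      (Ioc M (M + N)).filter (fun n : ℕ => n ≡ b.val [MOD q]) := by
    ext n
    rw [Finset.mem_filter, Finset.mem_filter, ← ZMod.natCast_eq_natCast_iff, ZMod.natCast_zmod_val]
  have h2 := Nat.Ioc_filter_modEq_card M (M + N) hq b.val
  rw [h1]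
  have h3 : ((((Ioc M (M + N)).filter (fun n : ℕ => n ≡ b.val [MOD q])).card : ℤ) : ℚ) ≤
      N / q + 1 := by
    rw [h2]
    push_cast
    refine max_le ?_ (by positivity)
    have h4 := Int.floor_le (((M + N : ℚ) - b.val) / (q : ℚ))
    have h5 := Int.lt_floor_add_one (((M : ℚ) - b.val) / (q : ℚ))
    have h6 : ((M + N : ℚ) - b.val) / (q : ℚ) = ((M : ℚ) - b.val) / (q : ℚ) + N / q := by ring
    rw [h6] at h4
    rw [h6]
    linarith
  have h7 : ((((Ioc M (M + N)).filter (fun n : ℕ => n ≡ b.val [MOD q])).card : ℚ) : ℝ) ≤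
      ((N / q + 1 : ℚ) : ℝ) := by
    exact_mod_cast h3
  push_cast at h7
  exact h7

theorem char_ms (q : ℕ) [NeZero q] (M N : ℕ) (c : ℕ → ℂ) :
    ∑ χ : DirichletCharacter ℂ q, ‖∑ n ∈ Ioc M (M + N), c n * χ n‖ ^ 2 ≤
      ((N : ℝ) + q) * ∑ n ∈ Ioc M (M + N), ‖c n‖ ^ 2 := by
  classical
  have hq : 0 < q := Nat.pos_of_ne_zero (NeZero.ne q)
  have hq' : (0 : ℝ) < q := by exact_mod_cast hq
  rw [char_parseval]
  have h1 : ∀ b : ZMod q,
      ‖∑ n ∈ (Ioc M (M + N)).filter (fun n : ℕ => (n : ZMod q) = b), c n‖ ^ 2 ≤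
      (N / q + 1) * ∑ n ∈ (Ioc M (M + N)).filter (fun n : ℕ => (n : ZMod q) = b), ‖c n‖ ^ 2 := by
    intro b
    have h2 : ‖∑ n ∈ (Ioc M (M + N)).filter (fun n : ℕ => (n : ZMod q) = b), c n‖ ^ 2 ≤
        (∑ n ∈ (Ioc M (M + N)).filter (fun n : ℕ => (n : ZMod q) = b), ‖c n‖) ^ 2 :=
      pow_le_pow_left₀ (norm_nonneg _) (norm_sum_le _ _) 2
    have h3 := sq_sum_le_card_mul_sum_sq
      (s := (Ioc M (M + N)).filter (fun n : ℕ => (n : ZMod q) = b)) (f := fun n => ‖c n‖)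
    refine h2.trans (h3.trans ?_)
    exact mul_le_mul_of_nonneg_right (co_card q M N b)
      (Finset.sum_nonneg fun _ _ => by positivity)
  have h4 : ∑ b ∈ univ.filter (fun b : ZMod q => IsUnit b),
      ‖∑ n ∈ (Ioc M (M + N)).filter (fun n : ℕ => (n : ZMod q) = b), c n‖ ^ 2 ≤
      (N / q + 1) * ∑ n ∈ Ioc M (M + N), ‖c n‖ ^ 2 := by
    rw [← Finset.sum_fiberwise (Ioc M (M + N)) (fun n : ℕ => (n : ZMod q)), Finset.mul_sum]
    refine (Finset.sum_le_sum fun b _ => h1 b).trans ?_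
    exact Finset.sum_le_sum_of_subset_of_nonneg (Finset.filter_subset _ _)
      (fun b _ _ => mul_nonneg (by positivity) (Finset.sum_nonneg fun _ _ => by positivity))
  have h5 : (Nat.totient q : ℝ) ≤ q := by exact_mod_cast Nat.totient_le q
  have h6 : 0 ≤ (N / q + 1) * ∑ n ∈ Ioc M (M + N), ‖c n‖ ^ 2 :=
    mul_nonneg (by positivity) (Finset.sum_nonneg fun _ _ => by positivity)
  calc (Nat.totient q : ℝ) * _ ≤ (Nat.totient q : ℝ) *
        ((N / q + 1) * ∑ n ∈ Ioc M (M + N), ‖c n‖ ^ 2) :=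
        mul_le_mul_of_nonneg_left h4 (by positivity)
    _ ≤ q * ((N / q + 1) * ∑ n ∈ Ioc M (M + N), ‖c n‖ ^ 2) :=
        mul_le_mul_of_nonneg_right h5 h6
    _ = ((N : ℝ) + q) * ∑ n ∈ Ioc M (M + N), ‖c n‖ ^ 2 := by
        field_simp

theorem co_inv_apply (q : ℕ) [NeZero q] (χ : DirichletCharacter ℂ q) (b : ZMod q)
    (hb : IsUnit b) : (χ⁻¹ : DirichletCharacter ℂ q) b = χ b⁻¹ := by
  rw [co_char_inv_unit q χ b hb, MulChar.inv_apply_eq_inv']

theorem fz_char (X q : ℕ) [NeZero q] (f : ℕ → ℝ) (θ : ℝ) (b : ZMod q) (hb : IsUnit b) :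
    fz X q f θ b = (1 / (Nat.totient q : ℂ)) * ∑ χ : DirichletCharacter ℂ q,
      (χ⁻¹ : DirichletCharacter ℂ q) b * Tc X q f θ χ := by
  classical
  have hq : 0 < q := Nat.pos_of_ne_zero (NeZero.ne q)
  have hphi : (Nat.totient q : ℂ) ≠ 0 := by
    have := Nat.totient_pos.mpr hq
    exact_mod_cast this.ne'
  have h1 : ∑ χ : DirichletCharacter ℂ q, (χ⁻¹ : DirichletCharacter ℂ q) b * Tc X q f θ χ =
      ∑ n ∈ Icc 1 X, ((f n : ℂ) * ee (n * θ)) *
        ∑ χ : DirichletCharacter ℂ q, χ b⁻¹ * χ (n : ZMod q) := by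
    unfold Tc
    simp only [Finset.mul_sum]
    rw [Finset.sum_comm]
    refine Finset.sum_congr rfl fun n _ => Finset.sum_congr rfl fun χ _ => ?_
    rw [co_inv_apply q χ b hb]
    ring
  rw [h1]
  rw [Finset.sum_congr rfl (fun n _ => by
    rw [DirichletCharacter.sum_char_inv_mul_char_eq ℂ hb (n : ZMod q)])]
  unfold fz
  rw [Finset.sum_filter, Finset.mul_sum]
  refine Finset.sum_congr rfl fun n _ => ?_
  by_cases h : (n : ZMod q) = b
  · rw [if_pos h, if_pos h.symm]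
    field_simp
  · rw [if_neg h, if_neg (fun h' => h h'.symm)]
    ring

end Pool.MP_dd84fd_nt.L2G
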