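import Pool.Agent.Lib.MP_dd84fd_nt.L2G.HBDefs

set_option autoImplicit false

namespace Pool.MP_dd84fd_nt.L2G

open Finset Pool.MP_67663b_nt.Odd

private theorem ms_nrm_nonneg (x : ℝ) : 0 ≤ nrm x := abs_nonneg _

private theorem ms_nrm_le (x : ℝ) : nrm x ≤ 1 / 2 := abs_sub_round x

private theorem ms_ee_sub_one (x : ℝ) : 4 * nrm x ≤ ‖ee x - 1‖ := by
  have h1 : ee x = ee (x - round x) := by
    have := ee_add_int (x - round x) (round x)
    rw [sub_add_cancel] at this
    exact this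
  rw [h1]
  have h2 : |x - round x| ≤ 1 / 2 := abs_sub_round x
  unfold nrm
  generalize x - (round x : ℝ) = y at h2
  unfold ee
  have h3 : (2 * Real.pi * y * Complex.I : ℂ) = Complex.I * ((2 * Real.pi * y : ℝ) : ℂ) := by
    push_cast
    ring
  rw [h3, Complex.norm_exp_I_mul_ofReal_sub_one, norm_mul, Real.norm_eq_abs, Real.norm_eq_abs,
    abs_two]
  have h4 : 2 * Real.pi * y / 2 = Real.pi * y := by ring
  rw [h4]
  have h5 : |Real.sin (Real.pi * y)| = Real.sin (Real.pi * |y|) := by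
    rcases le_total 0 y with h | h
    · rw [abs_of_nonneg h] at h2 ⊢
      rw [abs_of_nonneg]
      apply Real.sin_nonneg_of_nonneg_of_le_pi
      · positivity
      · nlinarith [Real.pi_pos]
    · rw [abs_of_nonpos h] at h2 ⊢
      have : Real.pi * -y = -(Real.pi * y) := by ring
      rw [this, Real.sin_neg, abs_of_nonpos]
      apply Real.sin_nonpos_of_nonpos_of_neg_pi_le
      · nlinarith [Real.pi_pos]
      · nlinarith [Real.pi_pos]
  rw [h5]
  have h6 := Real.mul_le_sin (x := Real.pi * |y|) (by positivity) (by nlinarith [Real.pi_pos])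
  have h7 : 2 / Real.pi * (Real.pi * |y|) = 2 * |y| := by
    have := Real.pi_ne_zero
    field_simp
  rw [h7] at h6
  linarith

theorem geo_sum (a b : ℕ) (M x : ℝ) (hM : (b : ℝ) - a ≤ M) (hM0 : 0 ≤ M) :
    ‖∑ m ∈ Ioc a b, ee (m * x)‖ ≤ mn M x := by
  unfold mn
  split_ifs with h
  · refine (norm_sum_le _ _).trans ?_
    simp only [norm_ee]
    rw [Finset.sum_const, Nat.card_Ioc, nsmul_eq_mul, mul_one]
    rcases le_total a b with hab | hab
    · rw [Nat.cast_sub hab]
      exact hM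
    · rw [Nat.sub_eq_zero_of_le hab]
      simpa using hM0
  · push Not at h
    have h1 : 0 < nrm x := by
      rcases (ms_nrm_nonneg x).eq_or_lt with h0 | h0
      · rw [← h0] at h
        simp at h
        linarith
      · exact h0
    have h2 : ∀ b : ℕ, a ≤ b → (∑ m ∈ Ioc a b, ee (m * x)) * (ee x - 1) =
        ee (((b : ℝ) + 1) * x) - ee (((a : ℝ) + 1) * x) := by
      intro b hab
      induction b, hab using Nat.le_induction with
      | base => simp
      | succ b hab ih =>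
        rw [← Finset.insert_Ioc_right_eq_Ioc_add_one hab, Finset.sum_insert (by simp), add_mul, ih]
        have e1 : ee ((((b + 1 : ℕ) : ℝ) + 1) * x) = ee (((b + 1 : ℕ) : ℝ) * x) * ee x := by
          rw [← ee_add]
          congr 1
          ring
        have e2 : ee (((b : ℝ) + 1) * x) = ee (((b + 1 : ℕ) : ℝ) * x) := by
          push_cast
          rfl
        rw [e1, e2]
        ring
    have h3 : ‖∑ m ∈ Ioc a b, ee (m * x)‖ * (4 * nrm x) ≤ 2 := by
      rcases le_total a b with hab | hab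
      · calc ‖∑ m ∈ Ioc a b, ee (m * x)‖ * (4 * nrm x)
            ≤ ‖∑ m ∈ Ioc a b, ee (m * x)‖ * ‖ee x - 1‖ :=
              mul_le_mul_of_nonneg_left (ms_ee_sub_one x) (norm_nonneg _)
          _ = ‖ee (((b : ℝ) + 1) * x) - ee (((a : ℝ) + 1) * x)‖ := by rw [← norm_mul, h2 b hab]
          _ ≤ 2 := by
              refine (norm_sub_le _ _).trans ?_
              rw [norm_ee, norm_ee]
              norm_num
      · rw [Finset.Ioc_eq_empty_of_le hab]
        simp
    rw [le_div_iff₀ (by positivity)]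
    linarith

theorem mn_nonneg (M x : ℝ) (hM : 0 ≤ M) : 0 ≤ mn M x := by
  unfold mn
  split_ifs
  · exact hM
  · have := ms_nrm_nonneg x
    positivity

theorem mn_le (M x : ℝ) (hM : 0 ≤ M) : mn M x ≤ M := by
  unfold mn
  split_ifs with h
  · exact le_rfl
  · push Not at h
    have h1 : 0 < nrm x := by
      rcases (ms_nrm_nonneg x).eq_or_lt with h0 | h0
      · rw [← h0] at h
        simp at h
        linarith
      · exact h0
    rw [div_le_iff₀ (by positivity)]
    linarith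

private theorem mn_le_inv (M x : ℝ) (hx : 0 < nrm x) : mn M x ≤ 1 / (2 * nrm x) := by
  unfold mn
  split_ifs with h
  · rw [le_div_iff₀ (by positivity)]
    linarith
  · exact le_rfl

private theorem ms_icc_card (A B : ℝ) (h : A ≤ B + 1) : ((Icc ⌈A⌉ ⌊B⌋).card : ℝ) ≤ B - A + 1 := by
  rw [Int.card_Icc]
  rcases le_total 0 (⌊B⌋ + 1 - ⌈A⌉) with h1 | h1
  · have h2 : (((⌊B⌋ + 1 - ⌈A⌉).toNat : ℕ) : ℝ) = ((⌊B⌋ + 1 - ⌈A⌉ : ℤ) : ℝ) := by
      have := Int.toNat_of_nonneg h1
      exact_mod_cast this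
    rw [h2]
    push_cast
    linarith [Int.floor_le B, Int.le_ceil A]
  · rw [Int.toNat_of_nonpos h1]
    push_cast
    linarith

/-- counting in a block of length `r` -/
private theorem ms_block (α : ℝ) (c : ℤ) (r : ℕ) (hr : 1 ≤ r) (hc : IsCoprime c (r : ℤ))
    (hα : |α - c / r| ≤ 1 / (r : ℝ) ^ 2) (l0 : ℕ) (D : ℝ) (hD : 0 ≤ D) :
    (((range r).filter (fun i => nrm (((l0 + i : ℕ) : ℝ) * α) ≤ D)).card : ℝ) ≤
      2 * r * D + 3 := by
  have hr0 : (0 : ℝ) < r := by exact_mod_cast hr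
  have h1 : ((range r).filter (fun i => nrm (((l0 + i : ℕ) : ℝ) * α) ≤ D)).card ≤
      (Icc ⌈-(r * l0 * α) - (r * D + 1)⌉ ⌊-(r * l0 * α) + (r * D + 1)⌋).card := by
    refine Finset.card_le_card_of_injOn
      (fun i : ℕ => (i : ℤ) * c - r * round (((l0 + i : ℕ) : ℝ) * α)) ?_ ?_
    · intro i hi
      rw [Finset.mem_coe, Finset.mem_filter, Finset.mem_range] at hi
      obtain ⟨hi1, hi2⟩ := hi
      rw [Finset.mem_coe, Finset.mem_Icc, Int.ceil_le, Int.le_floor]
      unfold nrm at hi2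
      have h2 : (((i : ℤ) * c - r * round (((l0 + i : ℕ) : ℝ) * α) : ℤ) : ℝ) =
          r * (((l0 + i : ℕ) : ℝ) * α - round (((l0 + i : ℕ) : ℝ) * α)) - r * l0 * α -
            r * i * (α - c / r) := by
        push_cast
        field_simp
        ring
      rw [h2]
      have h3 : |r * (((l0 + i : ℕ) : ℝ) * α - round (((l0 + i : ℕ) : ℝ) * α))| ≤ r * D := by
        rw [abs_mul, abs_of_pos hr0]
        exact mul_le_mul_of_nonneg_left hi2 hr0.le
      have h4 : |r * i * (α - c / r)| ≤ 1 := by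
        rw [abs_mul, abs_of_nonneg (by positivity)]
        have hi3 : (i : ℝ) ≤ r := by exact_mod_cast hi1.le
        calc (r : ℝ) * i * |α - c / r| ≤ r * r * (1 / (r : ℝ) ^ 2) := by gcongr
          _ = 1 := by field_simp
      rw [abs_le] at h3 h4
      constructor <;> linarith [h3.1, h3.2, h4.1, h4.2]
    · intro i hi i' hi' hii
      rw [Finset.mem_coe, Finset.mem_filter, Finset.mem_range] at hi hi'
      simp only at hii
      have h2 : (r : ℤ) ∣ ((i : ℤ) - i') * c := by
        refine ⟨round (((l0 + i : ℕ) : ℝ) * α) - round (((l0 + i' : ℕ) : ℝ) * α), ?_⟩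
        linear_combination hii
      have h3 : (r : ℤ) ∣ (i : ℤ) - i' := hc.symm.dvd_of_dvd_mul_right h2
      have h4 : (i : ℤ) - i' = 0 := by
        refine Int.eq_zero_of_abs_lt_dvd h3 ?_
        rw [abs_lt]
        constructor <;> omega
      omega
  calc (((range r).filter (fun i => nrm (((l0 + i : ℕ) : ℝ) * α) ≤ D)).card : ℝ)
      ≤ ((Icc ⌈-(r * l0 * α) - (r * D + 1)⌉ ⌊-(r * l0 * α) + (r * D + 1)⌋).card : ℝ) := by
        exact_mod_cast h1
    _ ≤ (-(r * l0 * α) + (r * D + 1)) - (-(r * l0 * α) - (r * D + 1)) + 1 := by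
        refine ms_icc_card _ _ ?_
        have : 0 ≤ r * D := by positivity
        linarith
    _ = 2 * r * D + 3 := by ring

private theorem ms_blocks (F : ℕ → ℝ) (hF : ∀ l, 0 ≤ F l) (Y r : ℕ) (hr : 1 ≤ r) (B : ℝ)
    (hB : ∀ l0, ∑ i ∈ range r, F (l0 + i) ≤ B) : ∑ l ∈ Icc 1 Y, F l ≤ ((Y : ℝ) / r + 1) * B := by
  have hB0 : 0 ≤ B := (Finset.sum_nonneg fun _ _ => hF _).trans (hB 0)
  have h1 : ∀ T : ℕ, ∑ l ∈ range (T * r), F (1 + l) ≤ T * B := by
    intro T
    induction T with
    | zero => simp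
    | succ T ih =>
      rw [Nat.succ_mul, Finset.sum_range_add]
      have h2 := hB (1 + T * r)
      have h3 : ∑ x ∈ range r, F (1 + (T * r + x)) = ∑ i ∈ range r, F (1 + T * r + i) :=
        Finset.sum_congr rfl fun i _ => by rw [add_assoc]
      rw [h3]
      push_cast
      linarith
  have h2 : Y ≤ (Y / r + 1) * r := by
    have := Nat.lt_div_mul_add (a := Y) (b := r) (by omega)
    rw [add_mul, one_mul]
    omega
  have h3 : ∑ l ∈ Icc 1 Y, F l ≤ ∑ l ∈ range ((Y / r + 1) * r), F (1 + l) := by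
    have h4 : ∑ l ∈ Icc 1 Y, F l = ∑ l ∈ range Y, F (1 + l) := by
      refine Finset.sum_nbij' (fun l => l - 1) (fun l => 1 + l) ?_ ?_ ?_ ?_ ?_
      · intro l hl
        rw [Finset.mem_Icc] at hl
        rw [Finset.mem_range]
        omega
      · intro l hl
        rw [Finset.mem_range] at hl
        rw [Finset.mem_Icc]
        omega
      · intro l hl
        rw [Finset.mem_Icc] at hl
        omega
      · intro l _
        omega
      · intro l hl
        rw [Finset.mem_Icc] at hl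
        congr 1
        omega
    rw [h4]
    exact Finset.sum_le_sum_of_subset_of_nonneg (Finset.range_mono h2) fun _ _ _ => hF _
  refine (h3.trans (h1 _)).trans (mul_le_mul_of_nonneg_right ?_ hB0)
  push_cast
  have : ((Y / r : ℕ) : ℝ) ≤ (Y : ℝ) / r := Nat.cast_div_le
  linarith

theorem min_sum : ∃ C : ℝ, 0 < C ∧ ∀ (α : ℝ) (c : ℤ) (r : ℕ), 1 ≤ r → IsCoprime c (r : ℤ) →
    |α - c / r| ≤ 1 / (r : ℝ) ^ 2 → ∀ (Y : ℕ) (M : ℝ), 1 ≤ M →
    ∑ l ∈ Icc 1 Y, mn M (l * α) ≤ C * ((Y : ℝ) / r + 1) * (M + r * (1 + Real.log r)) := by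
  refine ⟨7, by norm_num, ?_⟩
  intro α c r hr hc hα Y M hM
  have hr0 : (0 : ℝ) < r := by exact_mod_cast hr
  have hlr : 0 ≤ Real.log r := Real.log_nonneg (by exact_mod_cast hr)
  -- the pointwise bound
  have hpt : ∀ x : ℝ, mn M x ≤ M * (if nrm x ≤ 1 / r then 1 else 0) +
      ∑ k ∈ range (Nat.log 2 r + 1), ((r : ℝ) / 2 ^ (k + 1)) *
        (if nrm x ≤ 2 ^ (k + 1) / r then (1 : ℝ) else 0) := by
    intro x
    have hnn : 0 ≤ ∑ k ∈ range (Nat.log 2 r + 1), ((r : ℝ) / 2 ^ (k + 1)) *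
        (if nrm x ≤ 2 ^ (k + 1) / r then (1 : ℝ) else 0) :=
      Finset.sum_nonneg fun k _ => by split_ifs <;> positivity
    by_cases h : nrm x ≤ 1 / r
    · rw [if_pos h, mul_one]
      have := mn_le M x (by linarith)
      linarith
    · rw [if_neg h, mul_zero, zero_add]
      push Not at h
      have hx : 0 < nrm x := lt_trans (by positivity) h
      have h1 : 1 ≤ r * nrm x := by
        rw [div_lt_iff₀ hr0] at h
        linarith
      -- the dyadic index
      obtain ⟨k, hk1, hk2⟩ : ∃ k : ℕ, (2 : ℝ) ^ k ≤ r * nrm x ∧ r * nrm x < 2 ^ (k + 1) :=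
        exists_nat_pow_near h1 (by norm_num)
      have hkr : k < Nat.log 2 r + 1 := by
        have h2 : (2 : ℝ) ^ k ≤ r := by
          refine hk1.trans ?_
          have := ms_nrm_le x
          nlinarith
        have h3 : 2 ^ k ≤ r := by exact_mod_cast h2
        have := Nat.le_log_of_pow_le (by norm_num) h3
        omega
      calc mn M x ≤ 1 / (2 * nrm x) := mn_le_inv M x hx
        _ ≤ ((r : ℝ) / 2 ^ (k + 1)) * (if nrm x ≤ 2 ^ (k + 1) / r then (1 : ℝ) else 0) := by
            rw [if_pos (by rw [le_div_iff₀ hr0]; linarith), mul_one,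
              div_le_div_iff₀ (by positivity) (by positivity), pow_succ]
            nlinarith
        _ ≤ _ := Finset.single_le_sum (f := fun k => ((r : ℝ) / 2 ^ (k + 1)) *
            (if nrm x ≤ 2 ^ (k + 1) / r then (1 : ℝ) else 0))
            (fun k _ => by split_ifs <;> positivity) (Finset.mem_range.2 hkr)
  -- the block
  have hblock : ∀ l0 : ℕ, ∑ i ∈ range r, mn M (((l0 + i : ℕ) : ℝ) * α) ≤
      7 * (M + r * (1 + Real.log r)) := by
    intro l0
    have hcount : ∀ D : ℝ, 0 ≤ D → ∑ i ∈ range r,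
        (if nrm (((l0 + i : ℕ) : ℝ) * α) ≤ D then (1 : ℝ) else 0) ≤ 2 * r * D + 3 := by
      intro D hD
      have := ms_block α c r hr hc hα l0 D hD
      rw [Finset.sum_boole]
      exact this
    calc ∑ i ∈ range r, mn M (((l0 + i : ℕ) : ℝ) * α)
        ≤ ∑ i ∈ range r, (M * (if nrm (((l0 + i : ℕ) : ℝ) * α) ≤ 1 / r then 1 else 0) +
          ∑ k ∈ range (Nat.log 2 r + 1), ((r : ℝ) / 2 ^ (k + 1)) *
        (if nrm (((l0 + i : ℕ) : ℝ) * α) ≤ 2 ^ (k + 1) / r then (1 : ℝ) else 0)) :=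
          Finset.sum_le_sum fun i _ => hpt _
      _ = M * (∑ i ∈ range r, if nrm (((l0 + i : ℕ) : ℝ) * α) ≤ 1 / r then 1 else 0) +
          ∑ k ∈ range (Nat.log 2 r + 1), ((r : ℝ) / 2 ^ (k + 1)) *
          ∑ i ∈ range r,
            (if nrm (((l0 + i : ℕ) : ℝ) * α) ≤ 2 ^ (k + 1) / r then (1 : ℝ) else 0) := by
          rw [Finset.sum_add_distrib, ← Finset.mul_sum, Finset.sum_comm]
          congr 1
          refine Finset.sum_congr rfl fun k _ => ?_
          rw [Finset.mul_sum]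
      _ ≤ M * (2 * r * (1 / r) + 3) +
          ∑ k ∈ range (Nat.log 2 r + 1), ((r : ℝ) / 2 ^ (k + 1)) * (2 * r * (2 ^ (k + 1) / r) + 3) := by
          refine add_le_add (mul_le_mul_of_nonneg_left (hcount _ (by positivity)) (by linarith)) ?_
          exact Finset.sum_le_sum fun k _ =>
            mul_le_mul_of_nonneg_left (hcount _ (by positivity)) (by positivity)
      _ ≤ M * 5 + ∑ k ∈ range (Nat.log 2 r + 1), (7 / 2 * (r : ℝ)) := by
          refine add_le_add (le_of_eq ?_) (Finset.sum_le_sum fun k _ => ?_)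
          · field_simp
            norm_num
          · have h2 : (2 : ℝ) ≤ 2 ^ (k + 1) := by
              calc (2 : ℝ) = 2 ^ 1 := by norm_num
                _ ≤ 2 ^ (k + 1) := pow_le_pow_right₀ (by norm_num) (by omega)
            have h3 : (r : ℝ) / 2 ^ (k + 1) * (2 * r * (2 ^ (k + 1) / r) + 3) =
                2 * r + 3 * ((r : ℝ) / 2 ^ (k + 1)) := by
              field_simp
            rw [h3]
            have h4 : (r : ℝ) / 2 ^ (k + 1) ≤ r / 2 := by gcongr
            linarith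
      _ = M * 5 + (Nat.log 2 r + 1) * (7 / 2 * r) := by
          rw [Finset.sum_const, Finset.card_range, nsmul_eq_mul]
          push_cast
          ring
      _ ≤ 7 * (M + r * (1 + Real.log r)) := by
          have h2 : (Nat.log 2 r : ℝ) ≤ 2 * Real.log r := by
            have h3 : 2 ^ Nat.log 2 r ≤ r := Nat.pow_log_le_self 2 (by omega)
            have h4 : (2 : ℝ) ^ Nat.log 2 r ≤ r := by exact_mod_cast h3
            have h5 := Real.log_le_log (by positivity) h4
            rw [Real.log_pow] at h5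
            have h6 : (1 : ℝ) / 2 ≤ Real.log 2 := by
              have := Real.log_two_gt_d9
              linarith
            have h7 : (0 : ℝ) ≤ Nat.log 2 r := Nat.cast_nonneg _
            nlinarith
          nlinarith
  have := ms_blocks (fun l => mn M ((l : ℝ) * α)) (fun l => mn_nonneg M _ (by linarith)) Y r hr
    (7 * (M + r * (1 + Real.log r))) hblock
  calc ∑ l ∈ Icc 1 Y, mn M (l * α) ≤ ((Y : ℝ) / r + 1) * (7 * (M + r * (1 + Real.log r))) := this
    _ = 7 * ((Y : ℝ) / r + 1) * (M + r * (1 + Real.log r)) := by ring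

theorem count_near : ∃ C : ℝ, 0 < C ∧ ∀ (α : ℝ) (c : ℤ) (r : ℕ), 1 ≤ r → IsCoprime c (r : ℤ) →
    |α - c / r| ≤ 1 / (r : ℝ) ^ 2 → ∀ (Y : ℕ) (Δ : ℝ), 0 ≤ Δ →
    (((Icc 1 Y).filter (fun m : ℕ => nrm (m * α) ≤ Δ)).card : ℝ) ≤
      C * ((Y : ℝ) / r + 1) * (r * Δ + 1) := by
  refine ⟨3, by norm_num, ?_⟩
  intro α c r hr hc hα Y Δ hΔ
  have hr0 : (0 : ℝ) < r := by exact_mod_cast hr
  have h1 := ms_blocks (fun l => if nrm ((l : ℝ) * α) ≤ Δ then (1 : ℝ) else 0)
    (fun l => by split_ifs <;> norm_num) Y r hr (2 * r * Δ + 3) (fun l0 => by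
      have := ms_block α c r hr hc hα l0 Δ hΔ
      rw [Finset.sum_boole]
      exact this)
  rw [Finset.sum_boole] at h1
  refine h1.trans ?_
  have h2 : 0 ≤ (Y : ℝ) / r + 1 := by positivity
  have h3 : 0 ≤ r * Δ := by positivity
  nlinarith [mul_nonneg h2 h3]

end Pool.MP_dd84fd_nt.L2G
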