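import Pool.Agent.Lib.MP_dd84fd_nt.L2G.CharOrth
import Pool.Agent.Lib.MP_dd84fd_nt.L2G.MinSum

set_option autoImplicit false

namespace Pool.MP_dd84fd_nt.L2G

open Finset Pool.MP_67663b_nt.Odd

/-- the exponential sum over an interval -/
private theorem PV_geo (A B : ℕ) (x : ℝ) (hx0 : 0 < x) (hx1 : x < 1) :
    ‖∑ n ∈ Ico A B, ee (n * x)‖ ≤ 1 / (2 * x) + 1 / (2 * (1 - x)) := by
  have h1 : ∑ n ∈ Ioc A B, ee (n * x) = ee x * ∑ n ∈ Ico A B, ee (n * x) := by
    rw [Finset.mul_sum]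
    symm
    refine Finset.sum_bij (fun n _ => n + 1) ?_ ?_ ?_ ?_
    · intro n hn
      rw [Finset.mem_Ico] at hn
      rw [Finset.mem_Ioc]
      omega
    · intro n _ m _ h
      omega
    · intro n hn
      rw [Finset.mem_Ioc] at hn
      refine ⟨n - 1, ?_, ?_⟩
      · rw [Finset.mem_Ico]
        omega
      · omega
    · intro n _
      rw [← ee_add]
      congr 1
      push_cast
      ring
  have h2 : ‖∑ n ∈ Ico A B, ee (n * x)‖ = ‖∑ n ∈ Ioc A B, ee (n * x)‖ := by
    rw [h1, norm_mul, norm_ee, one_mul]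
  rw [h2]
  have h3 := geo_sum A B (B : ℝ) x (by
    have : (0 : ℝ) ≤ A := Nat.cast_nonneg _
    linarith) (Nat.cast_nonneg _)
  refine h3.trans ?_
  have hn : min x (1 - x) ≤ nrm x := by
    unfold nrm
    rcases le_or_gt (round x) 0 with h | h
    · have h4 : ((round x : ℤ) : ℝ) ≤ 0 := by exact_mod_cast h
      refine (min_le_left _ _).trans ?_
      exact le_trans (by linarith) (le_abs_self _)
    · have h4 : (1 : ℝ) ≤ ((round x : ℤ) : ℝ) := by exact_mod_cast h
      refine (min_le_right _ _).trans ?_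
      exact le_trans (by linarith) (neg_le_abs _)
  have hmin : 0 < min x (1 - x) := lt_min hx0 (by linarith)
  have hnp : 0 < nrm x := lt_of_lt_of_le hmin hn
  have h4 : mn (B : ℝ) x ≤ 1 / (2 * nrm x) := by
    unfold mn
    split_ifs with h
    · rw [le_div_iff₀ (by positivity)]
      linarith
    · exact le_rfl
  refine h4.trans ?_
  have h5 : 1 / (2 * nrm x) ≤ 1 / (2 * min x (1 - x)) :=
    one_div_le_one_div_of_le (by positivity) (by linarith)
  refine h5.trans ?_
  have h6 : 0 < 1 / (2 * x) := by positivity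
  have h7 : 0 < 1 / (2 * (1 - x)) := by
    have : 0 < 1 - x := by linarith
    positivity
  rcases min_choice x (1 - x) with h | h
  · rw [h]
    linarith
  · rw [h]
    linarith

/-- the norm of the Gauss sum of a primitive character -/
private theorem PV_inv (f : ℕ) [NeZero f] (χ : DirichletCharacter ℂ f) (hχ : χ.IsPrimitive)
    (j : ZMod f) : (f : ℂ) * χ j = gaussSum χ ZMod.stdAddChar *
      ∑ k : ZMod f, ZMod.stdAddChar (k * j) * χ⁻¹ (-k) := by
  have h1 := congrFun (ZMod.dft_dft (fun x : ZMod f => χ x)) (-j)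
  rw [ZMod.dft_apply] at h1
  simp only [neg_neg, smul_eq_mul] at h1
  rw [← h1, Finset.mul_sum]
  refine Finset.sum_congr rfl fun k _ => ?_
  have h2 := hχ.fourierTransform_eq_inv_mul_gaussSum k
  have h3 : (ZMod.dft (fun x : ZMod f => χ x)) k = χ⁻¹ (-k) * gaussSum χ ZMod.stdAddChar := h2
  rw [h3]
  have h4 : -(k * -j) = k * j := by ring
  rw [h4]
  ring

private theorem PV_norm (f : ℕ) [NeZero f] (χ : DirichletCharacter ℂ f) (hχ : χ.IsPrimitive) :
    ‖gaussSum χ ZMod.stdAddChar‖ = Real.sqrt f := by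
  have h1 := PV_inv f χ hχ 1
  rw [map_one, mul_one] at h1
  have h2 : ∑ k : ZMod f, ZMod.stdAddChar (k * 1) * χ⁻¹ (-k) =
      star (gaussSum χ (ZMod.stdAddChar (N := f))) := by
    rw [star_gaussSum_eq]
    unfold gaussSum
    rw [← Equiv.sum_comp (Equiv.neg (ZMod f))]
    refine Finset.sum_congr rfl fun k _ => ?_
    simp only [Equiv.neg_apply, neg_neg, mul_one, AddChar.inv_apply]
    ring
  rw [h2] at h1
  have h3 : ((f : ℝ) : ℂ) = ((‖gaussSum χ (ZMod.stdAddChar (N := f))‖ ^ 2 : ℝ) : ℂ) := by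
    have h4 : gaussSum χ (ZMod.stdAddChar (N := f)) * star (gaussSum χ (ZMod.stdAddChar (N := f))) =
        ((‖gaussSum χ (ZMod.stdAddChar (N := f))‖ ^ 2 : ℝ) : ℂ) := by
      have h5 := Complex.mul_conj (gaussSum χ (ZMod.stdAddChar (N := f)))
      rw [Complex.normSq_eq_norm_sq] at h5
      exact h5
    rw [← h4]
    exact_mod_cast h1
  have h4 : (f : ℝ) = ‖gaussSum χ (ZMod.stdAddChar (N := f))‖ ^ 2 := by exact_mod_cast h3
  rw [h4, Real.sqrt_sq (norm_nonneg _)]

private theorem PV_std (f : ℕ) [NeZero f] (k : ZMod f) (n : ℕ) :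
    ZMod.stdAddChar (k * (n : ZMod f)) = ee ((n : ℝ) * ((k.val : ℝ) / f)) := by
  have h1 : k * (n : ZMod f) = (((k.val * n : ℕ) : ℤ) : ZMod f) := by
    push_cast
    rw [ZMod.natCast_zmod_val]
  rw [h1, ZMod.stdAddChar_coe]
  unfold ee
  congr 1
  push_cast
  ring

/-- the harmonic sum -/
private theorem PV_harm (f : ℕ) (hf : 1 ≤ f) :
    ∑ a ∈ Ico 1 f, (1 / (2 * ((a : ℝ) / f)) + 1 / (2 * (1 - (a : ℝ) / f))) ≤
      f * (1 + Real.log f) := by
  have hf0 : (0 : ℝ) < f := by exact_mod_cast hf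
  have h1 : ∑ a ∈ Ico 1 f, (1 : ℝ) / a ≤ 1 + Real.log f := by
    have h := harmonic_le_one_add_log f
    rw [harmonic_eq_sum_Icc] at h
    push_cast at h
    have h2 : ∑ a ∈ Ico 1 f, (1 : ℝ) / a ≤ ∑ a ∈ Icc 1 f, (1 : ℝ) / a := by
      refine Finset.sum_le_sum_of_subset_of_nonneg ?_ fun _ _ _ => by positivity
      intro a ha
      rw [Finset.mem_Ico] at ha
      rw [Finset.mem_Icc]
      omega
    refine h2.trans ?_
    simpa only [one_div] using h
  have h2 : ∑ a ∈ Ico 1 f, 1 / (2 * ((a : ℝ) / f)) = f / 2 * ∑ a ∈ Ico 1 f, (1 : ℝ) / a := by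
    rw [Finset.mul_sum]
    refine Finset.sum_congr rfl fun a ha => ?_
    rw [Finset.mem_Ico] at ha
    have ha0 : (a : ℝ) ≠ 0 := by
      have : 0 < a := ha.1
      positivity
    field_simp
  have h3 : ∑ a ∈ Ico 1 f, 1 / (2 * (1 - (a : ℝ) / f)) = f / 2 * ∑ a ∈ Ico 1 f, (1 : ℝ) / a := by
    rw [← h2]
    refine Finset.sum_bij (fun a _ => f - a) ?_ ?_ ?_ ?_
    · intro a ha
      rw [Finset.mem_Ico] at ha ⊢
      omega
    · intro a ha b hb h
      rw [Finset.mem_Ico] at ha hb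
      omega
    · intro a ha
      rw [Finset.mem_Ico] at ha
      refine ⟨f - a, ?_, ?_⟩
      · rw [Finset.mem_Ico]
        omega
      · omega
    · intro a ha
      rw [Finset.mem_Ico] at ha
      rw [Nat.cast_sub (by omega)]
      congr 2
      field_simp
  rw [Finset.sum_add_distrib, h2, h3]
  nlinarith [mul_le_mul_of_nonneg_left h1 hf0.le]

/-- the Pólya-Vinogradov inequality for primitive characters -/
private theorem PV_prim (f : ℕ) [NeZero f] (χ : DirichletCharacter ℂ f) (hχ : χ.IsPrimitive)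
    (hf : 1 < f) (A B : ℕ) :
    ‖∑ n ∈ Ico A B, χ n‖ ≤ Real.sqrt f * (1 + Real.log f) := by
  have hf0 : (0 : ℝ) < f := by
    have : 0 < f := by omega
    exact_mod_cast this
  have h1 : (f : ℂ) * ∑ n ∈ Ico A B, χ n = gaussSum χ ZMod.stdAddChar *
      ∑ k : ZMod f, χ⁻¹ (-k) * ∑ n ∈ Ico A B, ee ((n : ℝ) * ((k.val : ℝ) / f)) := by
    rw [Finset.mul_sum, Finset.sum_congr rfl fun (n : ℕ) _ => PV_inv f χ hχ (n : ZMod f),
      ← Finset.mul_sum, Finset.sum_comm]
    congr 1
    refine Finset.sum_congr rfl fun k _ => ?_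
    rw [Finset.mul_sum]
    refine Finset.sum_congr rfl fun n _ => ?_
    rw [PV_std]
    ring
  have h2 : ‖∑ k : ZMod f, χ⁻¹ (-k) * ∑ n ∈ Ico A B, ee ((n : ℝ) * ((k.val : ℝ) / f))‖ ≤
      f * (1 + Real.log f) := by
    have h3 : ∀ k : ZMod f, ‖χ⁻¹ (-k) * ∑ n ∈ Ico A B, ee ((n : ℝ) * ((k.val : ℝ) / f))‖ ≤
        if k.val = 0 then 0 else
          (1 / (2 * ((k.val : ℝ) / f)) + 1 / (2 * (1 - (k.val : ℝ) / f))) := by
      intro k
      split_ifs with h
      · have hk : k = 0 := by rwa [ZMod.val_eq_zero] at h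
        have h4 : χ⁻¹ (-k) = 0 := by
          rw [hk, neg_zero]
          exact DirichletCharacter.map_zero' _ (by omega)
        rw [h4, zero_mul, norm_zero]
      · have hk1 : (0 : ℝ) < (k.val : ℝ) := by
          have : 0 < k.val := Nat.pos_of_ne_zero h
          exact_mod_cast this
        have hk2 : (k.val : ℝ) < f := by exact_mod_cast ZMod.val_lt k
        rw [norm_mul]
        have h4 := DirichletCharacter.norm_le_one χ⁻¹ (-k)
        have h5 := PV_geo A B ((k.val : ℝ) / f) (by positivity) ((div_lt_one hf0).mpr hk2)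
        calc ‖χ⁻¹ (-k)‖ * ‖∑ n ∈ Ico A B, ee ((n : ℝ) * ((k.val : ℝ) / f))‖
            ≤ 1 * ‖∑ n ∈ Ico A B, ee ((n : ℝ) * ((k.val : ℝ) / f))‖ :=
              mul_le_mul_of_nonneg_right h4 (norm_nonneg _)
          _ ≤ _ := by rw [one_mul]; exact h5
    refine (norm_sum_le _ _).trans ((Finset.sum_le_sum fun k _ => h3 k).trans ?_)
    have h4 : ∑ k : ZMod f, (if k.val = 0 then 0 else
          (1 / (2 * ((k.val : ℝ) / f)) + 1 / (2 * (1 - (k.val : ℝ) / f)))) =
        ∑ a ∈ Ico 1 f, (1 / (2 * ((a : ℝ) / f)) + 1 / (2 * (1 - (a : ℝ) / f))) := by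
      have h5 : ∑ k : ZMod f, (if k.val = 0 then (0 : ℝ) else
          (1 / (2 * ((k.val : ℝ) / f)) + 1 / (2 * (1 - (k.val : ℝ) / f)))) =
          ∑ k ∈ univ.filter (fun k : ZMod f => k.val ≠ 0),
            (1 / (2 * ((k.val : ℝ) / f)) + 1 / (2 * (1 - (k.val : ℝ) / f))) := by
        rw [Finset.sum_filter]
        refine Finset.sum_congr rfl fun k _ => ?_
        by_cases h : k.val = 0
        · rw [if_pos h, if_neg (not_not.mpr h)]
        · rw [if_neg h, if_pos h]
      rw [h5]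
      refine Finset.sum_bij (fun k _ => k.val) ?_ ?_ ?_ ?_
      · intro k hk
        rw [Finset.mem_filter] at hk
        rw [Finset.mem_Ico]
        exact ⟨Nat.pos_of_ne_zero hk.2, ZMod.val_lt k⟩
      · intro k _ l _ h
        exact ZMod.val_injective f h
      · intro a ha
        rw [Finset.mem_Ico] at ha
        refine ⟨(a : ZMod f), ?_, ZMod.val_natCast_of_lt ha.2⟩
        rw [Finset.mem_filter, ZMod.val_natCast_of_lt ha.2]
        exact ⟨Finset.mem_univ _, by omega⟩
      · intro k _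
        rfl
    rw [h4]
    exact PV_harm f (by omega)
  have h3 : (f : ℝ) * ‖∑ n ∈ Ico A B, χ n‖ ≤ Real.sqrt f * (f * (1 + Real.log f)) := by
    have h4 : (f : ℝ) * ‖∑ n ∈ Ico A B, χ n‖ = ‖(f : ℂ) * ∑ n ∈ Ico A B, χ n‖ := by
      rw [norm_mul, Complex.norm_natCast]
    rw [h4, h1, norm_mul, PV_norm f χ hχ]
    exact mul_le_mul_of_nonneg_left h2 (Real.sqrt_nonneg _)
  have h5 : (f : ℝ) * ‖∑ n ∈ Ico A B, χ n‖ ≤ f * (Real.sqrt f * (1 + Real.log f)) := by
    refine h3.trans (le_of_eq ?_)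
    ring
  exact le_of_mul_le_mul_left h5 hf0

/-- the Möbius indicator -/
private theorem PV_ind (q n : ℕ) (hq : q ≠ 0) :
    (∑ d ∈ q.divisors, if d ∣ n then ((ArithmeticFunction.moebius d : ℤ) : ℂ) else 0) =
      if Nat.Coprime q n then 1 else 0 := by
  rw [← Finset.sum_filter]
  have h1 : q.divisors.filter (fun d => d ∣ n) = (Nat.gcd q n).divisors := by
    ext d
    simp only [Finset.mem_filter, Nat.mem_divisors, Nat.dvd_gcd_iff]
    have : Nat.gcd q n ≠ 0 := Nat.gcd_ne_zero_left hq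
    tauto
  rw [h1]
  have h2 : ∑ d ∈ (Nat.gcd q n).divisors, (ArithmeticFunction.moebius d : ℤ) =
      if Nat.gcd q n = 1 then 1 else 0 := by
    have h3 := congrArg (fun f : ArithmeticFunction ℤ => f (Nat.gcd q n))
      ArithmeticFunction.moebius_mul_coe_zeta
    simp only [ArithmeticFunction.coe_mul_zeta_apply, ArithmeticFunction.one_apply] at h3
    exact h3
  have h4 : (∑ d ∈ (Nat.gcd q n).divisors, ((ArithmeticFunction.moebius d : ℤ) : ℂ)) =
      ((∑ d ∈ (Nat.gcd q n).divisors, (ArithmeticFunction.moebius d : ℤ) : ℤ) : ℂ) := by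
    push_cast
    rfl
  rw [h4, h2]
  by_cases h : Nat.gcd q n = 1
  · rw [if_pos h, if_pos h]
    simp
  · rw [if_neg h, if_neg h]
    simp

/-- ceiling division -/
private theorem PV_ceil (A d m : ℕ) (hd : 0 < d) : (A + d - 1) / d ≤ m ↔ A ≤ d * m := by
  rw [Nat.div_le_iff_le_mul_add_pred hd]
  omega

/-- multiples of `d` in an interval -/
private theorem PV_mult (A B d : ℕ) (hd : 0 < d) (F : ℕ → ℂ) :
    ∑ n ∈ (Ico A B).filter (fun n => d ∣ n), F n =
      ∑ m ∈ Ico ((A + d - 1) / d) ((B + d - 1) / d), F (d * m) := by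
  symm
  have hmem : ∀ m, m ∈ Ico ((A + d - 1) / d) ((B + d - 1) / d) ↔ A ≤ d * m ∧ d * m < B := by
    intro m
    rw [Finset.mem_Ico, PV_ceil A d m hd, ← not_le, PV_ceil B d m hd, not_le]
  refine Finset.sum_bij (fun m _ => d * m) ?_ ?_ ?_ ?_
  · intro m hm
    rw [hmem] at hm
    rw [Finset.mem_filter, Finset.mem_Ico]
    exact ⟨hm, dvd_mul_right d m⟩
  · intro m _ m' _ h
    exact Nat.eq_of_mul_eq_mul_left hd h
  · intro n hn
    rw [Finset.mem_filter, Finset.mem_Ico] at hn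
    obtain ⟨hn1, m, rfl⟩ := hn
    exact ⟨m, (hmem m).mpr hn1, rfl⟩
  · intro m _
    rfl

/-- the Pólya-Vinogradov inequality for all nonprincipal characters -/
theorem PV_all (q : ℕ) [NeZero q] (χ : DirichletCharacter ℂ q) (hχ : χ ≠ 1) (A B : ℕ) :
    ‖∑ n ∈ Ico A B, χ n‖ ≤ (q.divisors.card : ℝ) * Real.sqrt q * (1 + Real.log q) := by
  have hq : q ≠ 0 := NeZero.ne q
  have hq0 : 0 < q := Nat.pos_of_ne_zero hq
  have hf0 : χ.conductor ≠ 0 := DirichletCharacter.conductor_ne_zero χ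
  have : NeZero χ.conductor := ⟨hf0⟩
  have hf1 : χ.conductor ≠ 1 := fun h => hχ (DirichletCharacter.eq_one_iff_conductor_eq_one.mpr h)
  have hf : 1 < χ.conductor := by omega
  have hfq : χ.conductor ≤ q := Nat.le_of_dvd hq0 (DirichletCharacter.conductor_dvd_level χ)
  have hval : ∀ n : ℕ, χ n = ∑ d ∈ q.divisors, if d ∣ n then
      ((ArithmeticFunction.moebius d : ℤ) : ℂ) * χ.primitiveCharacter n else 0 := by
    intro n
    have h1 : ∑ d ∈ q.divisors, (if d ∣ n then
        ((ArithmeticFunction.moebius d : ℤ) : ℂ) * χ.primitiveCharacter n else 0) =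
        (∑ d ∈ q.divisors, if d ∣ n then ((ArithmeticFunction.moebius d : ℤ) : ℂ) else 0) *
          χ.primitiveCharacter n := by
      rw [Finset.sum_mul]
      refine Finset.sum_congr rfl fun d _ => ?_
      split_ifs <;> simp
    rw [h1, PV_ind q n hq]
    split_ifs with h
    · have h2 : IsCoprime ((n : ℤ)) (q : ℤ) := Nat.isCoprime_iff_coprime.mpr h.symm
      have h3 := DirichletCharacter.primitiveCharacter_apply_of_isCoprime χ h2
      rw [one_mul]
      exact_mod_cast h3.symm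
    · rw [zero_mul]
      refine MulChar.map_nonunit χ ?_
      rw [ZMod.isUnit_iff_coprime]
      exact fun h' => h h'.symm
  have hsum : ∑ n ∈ Ico A B, χ n = ∑ d ∈ q.divisors, ((ArithmeticFunction.moebius d : ℤ) : ℂ) *
      ∑ n ∈ (Ico A B).filter (fun n => d ∣ n), χ.primitiveCharacter n := by
    rw [Finset.sum_congr rfl fun n _ => hval n, Finset.sum_comm]
    refine Finset.sum_congr rfl fun d _ => ?_
    rw [Finset.mul_sum, Finset.sum_filter]
  rw [hsum]
  have hterm : ∀ d ∈ q.divisors, ‖((ArithmeticFunction.moebius d : ℤ) : ℂ) *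
      ∑ n ∈ (Ico A B).filter (fun n => d ∣ n), χ.primitiveCharacter n‖ ≤
      Real.sqrt q * (1 + Real.log q) := by
    intro d hd
    have hd0 : 0 < d := Nat.pos_of_mem_divisors hd
    rw [norm_mul, PV_mult A B d hd0 (fun n => χ.primitiveCharacter n)]
    have h1 : ‖((ArithmeticFunction.moebius d : ℤ) : ℂ)‖ ≤ 1 := by
      rw [Complex.norm_intCast]
      have := ArithmeticFunction.abs_moebius_le_one (n := d)
      exact_mod_cast this
    have h2 : ∑ m ∈ Ico ((A + d - 1) / d) ((B + d - 1) / d),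
        χ.primitiveCharacter ((d * m : ℕ) : ZMod χ.conductor) =
        χ.primitiveCharacter d * ∑ m ∈ Ico ((A + d - 1) / d) ((B + d - 1) / d),
          χ.primitiveCharacter m := by
      rw [Finset.mul_sum]
      refine Finset.sum_congr rfl fun m _ => ?_
      push_cast
      rw [map_mul]
    rw [h2, norm_mul]
    have h3 := DirichletCharacter.norm_le_one χ.primitiveCharacter (d : ZMod χ.conductor)
    have h4 := PV_prim χ.conductor χ.primitiveCharacter χ.primitiveCharacter_isPrimitive hf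
      ((A + d - 1) / d) ((B + d - 1) / d)
    have h5 : Real.sqrt (χ.conductor : ℝ) ≤ Real.sqrt q :=
      Real.sqrt_le_sqrt (by exact_mod_cast hfq)
    have h6 : Real.log (χ.conductor : ℝ) ≤ Real.log q :=
      Real.log_le_log (by exact_mod_cast (by omega : 0 < χ.conductor)) (by exact_mod_cast hfq)
    have h7 : 0 ≤ Real.log (χ.conductor : ℝ) := Real.log_nonneg (by exact_mod_cast hf.le)
    calc _ ≤ 1 * (1 * (Real.sqrt χ.conductor * (1 + Real.log χ.conductor))) := by
          refine mul_le_mul h1 (mul_le_mul h3 h4 (norm_nonneg _) zero_le_one)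
            (by positivity) zero_le_one
      _ = Real.sqrt χ.conductor * (1 + Real.log χ.conductor) := by ring
      _ ≤ Real.sqrt q * (1 + Real.log q) :=
        mul_le_mul h5 (by linarith) (by linarith) (Real.sqrt_nonneg _)
  refine (norm_sum_le _ _).trans ((Finset.sum_le_sum hterm).trans (le_of_eq ?_))
  rw [Finset.sum_const, nsmul_eq_mul]
  ring

/-- Abel summation for a nondecreasing weight -/
private theorem PV_abel (M N : ℕ) (g : ℕ → ℝ) (a : ℕ → ℂ) (K : ℝ)
    (hg : MonotoneOn g (Set.Ico M N)) (hT : ∀ k, ‖∑ n ∈ Ico k N, a n‖ ≤ K) :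
    ∀ l k : ℕ, M ≤ k → k + l + 1 = N →
      ‖∑ n ∈ Ico k N, (g n : ℂ) * a n - (g k : ℂ) * ∑ n ∈ Ico k N, a n‖ ≤
        (g (N - 1) - g k) * K := by
  intro l
  induction l with
  | zero =>
    intro k _ hk
    have h1 : Ico k N = {k} := by
      ext x
      rw [Finset.mem_Ico, Finset.mem_singleton]
      omega
    have h2 : N - 1 = k := by omega
    rw [h1, Finset.sum_singleton, Finset.sum_singleton, sub_self, norm_zero, h2, sub_self, zero_mul]
  | succ l ih =>
    intro k hMk hk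
    have h1 : Ico k N = insert k (Ico (k + 1) N) := by
      ext x
      rw [Finset.mem_Ico, Finset.mem_insert, Finset.mem_Ico]
      omega
    have h2 : k ∉ Ico (k + 1) N := by
      rw [Finset.mem_Ico]
      omega
    rw [h1, Finset.sum_insert h2, Finset.sum_insert h2]
    have h3 := ih (k + 1) (by omega) (by omega)
    have h4 : g k ≤ g (k + 1) := hg ⟨hMk, by omega⟩ ⟨by omega, by omega⟩ (by omega)
    have h5 : (g k : ℂ) * a k + ∑ n ∈ Ico (k + 1) N, (g n : ℂ) * a n -
        (g k : ℂ) * (a k + ∑ n ∈ Ico (k + 1) N, a n) =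
        (∑ n ∈ Ico (k + 1) N, (g n : ℂ) * a n - (g (k + 1) : ℂ) * ∑ n ∈ Ico (k + 1) N, a n) +
          ((g (k + 1) - g k : ℝ) : ℂ) * ∑ n ∈ Ico (k + 1) N, a n := by
      push_cast
      ring
    rw [h5]
    refine (norm_add_le _ _).trans ?_
    rw [norm_mul, Complex.norm_real, Real.norm_eq_abs, abs_of_nonneg (by linarith)]
    have h6 := mul_le_mul_of_nonneg_left (hT (k + 1)) (by linarith : 0 ≤ g (k + 1) - g k)
    linarith

/-- arithmetic progressions in an interval -/
private theorem PV_ap (r c A B : ℕ) (hr : 0 < r) (hc : c < r) (F : ℕ → ℂ) :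
    ∑ n ∈ (Ico A B).filter (fun n => n % r = c), F n =
      ∑ j ∈ Ico ((A - c + r - 1) / r) ((B - c + r - 1) / r), F (c + r * j) := by
  symm
  have hmem : ∀ j, j ∈ Ico ((A - c + r - 1) / r) ((B - c + r - 1) / r) ↔
      A ≤ c + r * j ∧ c + r * j < B := by
    intro j
    rw [Finset.mem_Ico, PV_ceil (A - c) r j hr, ← not_le, PV_ceil (B - c) r j hr, not_le]
    omega
  refine Finset.sum_bij (fun j _ => c + r * j) ?_ ?_ ?_ ?_
  · intro j hj
    rw [hmem] at hj
    rw [Finset.mem_filter, Finset.mem_Ico]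
    refine ⟨hj, ?_⟩
    rw [Nat.add_mul_mod_self_left, Nat.mod_eq_of_lt hc]
  · intro j _ j' _ h
    exact Nat.eq_of_mul_eq_mul_left hr (by omega)
  · intro n hn
    rw [Finset.mem_filter, Finset.mem_Ico] at hn
    refine ⟨n / r, ?_, ?_⟩
    · rw [hmem]
      have := Nat.mod_add_div n r
      rw [hn.2] at this
      rw [this]
      exact hn.1
    · rw [← hn.2]
      exact Nat.mod_add_div n r
  · intro j _
    rfl

theorem pv : ∃ C : ℝ, 0 < C ∧ ∀ (q : ℕ) [NeZero q] (χ : DirichletCharacter ℂ q), χ ≠ 1 →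
    ∀ (r c M N : ℕ) (g : ℕ → ℝ) (G : ℝ), Nat.Coprime r q → 1 ≤ r → 0 ≤ G →
    MonotoneOn g (Set.Ico M N) → (∀ n ∈ Ico M N, 0 ≤ g n ∧ g n ≤ G) →
    ‖∑ n ∈ (Ico M N).filter (fun n => n % r = c), (g n : ℂ) * χ n‖ ≤
      C * G * (q.divisors.card : ℝ) * Real.sqrt q * (1 + Real.log q) := by
  refine ⟨1, one_pos, ?_⟩
  intro q _ χ hχ r c M N g G hrq hr hG hg hgG
  have hq0 : 0 < q := Nat.pos_of_ne_zero (NeZero.ne q)
  have hlog : 0 ≤ Real.log q := Real.log_nonneg (by exact_mod_cast hq0)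
  set K : ℝ := (q.divisors.card : ℝ) * Real.sqrt q * (1 + Real.log q) with hK
  have hK0 : 0 ≤ K := by rw [hK]; positivity
  have hgoal : 1 * G * (q.divisors.card : ℝ) * Real.sqrt q * (1 + Real.log q) = G * K := by
    rw [hK]; ring
  rw [hgoal]
  rcases le_or_gt r c with hrc | hrc
  · -- no terms
    rw [Finset.filter_false_of_mem, Finset.sum_empty, norm_zero]
    · positivity
    · intro n _ h
      have := Nat.mod_lt n (show 0 < r from hr)
      omega
  rcases le_or_gt N M with hNM | hNM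
  · rw [Finset.Ico_eq_empty_of_le hNM, Finset.filter_empty, Finset.sum_empty, norm_zero]
    positivity
  -- a solution of the congruence
  obtain ⟨s, hs⟩ : ∃ s : ℕ, ((r * s : ℕ) : ZMod q) = (c : ZMod q) := by
    have hu : IsUnit (r : ZMod q) := (ZMod.isUnit_iff_coprime r q).mpr hrq
    obtain ⟨u, hu⟩ := hu
    refine ⟨((u⁻¹ : (ZMod q)ˣ) * (c : ZMod q) : ZMod q).val, ?_⟩
    push_cast
    rw [ZMod.natCast_zmod_val, ← hu, Units.mul_inv_cancel_left]
  have hT : ∀ k, ‖∑ n ∈ Ico k N, (if n % r = c then χ n else 0)‖ ≤ K := by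
    intro k
    rw [← Finset.sum_filter, PV_ap r c k N hr hrc (fun n => χ n)]
    have h1 : ∀ j : ℕ, χ ((c + r * j : ℕ) : ZMod q) = χ r * χ ((s + j : ℕ) : ZMod q) := by
      intro j
      rw [← map_mul]
      congr 1
      push_cast
      rw [← hs]
      push_cast
      ring
    simp only [h1]
    rw [← Finset.mul_sum, norm_mul]
    have h2 := DirichletCharacter.norm_le_one χ (r : ZMod q)
    generalize (k - c + r - 1) / r = a
    generalize (N - c + r - 1) / r = b
    have h3 : ∑ j ∈ Ico a b, χ ((s + j : ℕ) : ZMod q) = ∑ n ∈ Ico (s + a) (s + b), χ n := by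
      rw [Finset.sum_Ico_add (fun n : ℕ => χ (n : ZMod q)) a b s]
      rw [Nat.add_comm s a, Nat.add_comm s b]
    rw [h3]
    have h4 := PV_all q χ hχ (s + a) (s + b)
    calc ‖χ (r : ZMod q)‖ * ‖∑ n ∈ Ico (s + a) (s + b), χ n‖ ≤ 1 * K :=
          mul_le_mul h2 h4 (norm_nonneg _) zero_le_one
      _ = K := one_mul K
  have h1 := PV_abel M N g (fun n => if n % r = c then χ n else 0) K hg hT (N - M - 1) M le_rfl
    (by omega)
  have h2 : ∑ n ∈ (Ico M N).filter (fun n => n % r = c), (g n : ℂ) * χ n =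
      ∑ n ∈ Ico M N, (g n : ℂ) * (if n % r = c then χ n else 0) := by
    rw [Finset.sum_filter]
    refine Finset.sum_congr rfl fun n _ => ?_
    split_ifs <;> simp
  rw [h2]
  have hgM := hgG M (by rw [Finset.mem_Ico]; omega)
  have hgN := hgG (N - 1) (by rw [Finset.mem_Ico]; omega)
  have h3 : ‖(g M : ℂ) * ∑ n ∈ Ico M N, (if n % r = c then χ n else 0)‖ ≤ g M * K := by
    rw [norm_mul, Complex.norm_real, Real.norm_eq_abs, abs_of_nonneg hgM.1]
    exact mul_le_mul_of_nonneg_left (hT M) hgM.1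
  set S1 := ∑ n ∈ Ico M N, (g n : ℂ) * (if n % r = c then χ n else 0) with hS1
  set S2 := (g M : ℂ) * ∑ n ∈ Ico M N, (if n % r = c then χ n else 0) with hS2
  calc ‖S1‖ = ‖(S1 - S2) + S2‖ := by rw [sub_add_cancel]
    _ ≤ ‖S1 - S2‖ + ‖S2‖ := norm_add_le _ _
    _ ≤ (g (N - 1) - g M) * K + g M * K := add_le_add h1 h3
    _ = g (N - 1) * K := by ring
    _ ≤ G * K := mul_le_mul_of_nonneg_right hgN.2 hK0

end Pool.MP_dd84fd_nt.L2G
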