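import Pool.Agent.Lib.MP_dd84fd_nt.L2G.Defs

set_option autoImplicit false

namespace Pool.MP_dd84fd_nt.L2G

open Finset Pool.MP_67663b_nt.Odd

private theorem DivMom_swap (N : ℕ) (F : ℕ → ℕ → ℝ) :
    ∑ n ∈ Icc 1 N, ∑ d ∈ n.divisors, F d (n / d) =
      ∑ d ∈ Icc 1 N, ∑ e ∈ Icc 1 (N / d), F d e := by
  rw [Finset.sum_sigma', Finset.sum_sigma']
  refine Finset.sum_bij' (fun p _ => (⟨p.2, p.1 / p.2⟩ : Σ _ : ℕ, ℕ))
    (fun p _ => (⟨p.1 * p.2, p.1⟩ : Σ _ : ℕ, ℕ)) ?_ ?_ ?_ ?_ ?_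
  · rintro ⟨n, d⟩ h
    rw [Finset.mem_sigma, Finset.mem_Icc, Nat.mem_divisors] at h
    obtain ⟨⟨h1, h2⟩, h3, h4⟩ := h
    simp only at h1 h2 h3 h4
    rw [Finset.mem_sigma, Finset.mem_Icc, Finset.mem_Icc]
    have hd : 0 < d := Nat.pos_of_dvd_of_pos h3 (by omega)
    have hdn : d ≤ n := Nat.le_of_dvd (by omega) h3
    refine ⟨⟨hd, by simp only; omega⟩, ?_, ?_⟩
    · exact Nat.div_pos hdn hd
    · exact Nat.div_le_div_right h2
  · rintro ⟨d, e⟩ h
    rw [Finset.mem_sigma, Finset.mem_Icc, Finset.mem_Icc] at h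
    obtain ⟨⟨h1, h2⟩, h3, h4⟩ := h
    simp only at h1 h2 h3 h4
    rw [Finset.mem_sigma, Finset.mem_Icc, Nat.mem_divisors]
    have hde : d * e ≤ N := by
      calc d * e ≤ d * (N / d) := Nat.mul_le_mul_left _ h4
        _ ≤ N := Nat.mul_div_le N d
    refine ⟨⟨Nat.mul_pos h1 h3, hde⟩, Dvd.intro _ rfl, ?_⟩
    exact (Nat.mul_pos h1 h3).ne'
  · rintro ⟨n, d⟩ h
    rw [Finset.mem_sigma, Finset.mem_Icc, Nat.mem_divisors] at h
    obtain ⟨⟨h1, h2⟩, h3, h4⟩ := h
    simp only at h3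
    simp only [Nat.mul_div_cancel' h3]
  · rintro ⟨d, e⟩ h
    rw [Finset.mem_sigma, Finset.mem_Icc, Finset.mem_Icc] at h
    obtain ⟨⟨h1, h2⟩, h3, h4⟩ := h
    simp only at h1
    simp only [Nat.mul_div_cancel_left e (show 0 < d from h1)]
  · rintro ⟨n, d⟩ h
    rfl

private theorem DivMom_card (a b : ℕ) :
    ((a * b).divisors.card : ℝ) ≤ (a.divisors.card : ℝ) * (b.divisors.card : ℝ) := by
  rw [Nat.divisors_mul]
  exact_mod_cast Finset.card_mul_le

private theorem DivMom_pow (k n : ℕ) :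
    (n.divisors.card : ℝ) ^ (k + 1) ≤
      ∑ d ∈ n.divisors, (d.divisors.card : ℝ) ^ k * ((n / d).divisors.card : ℝ) ^ k := by
  rw [pow_succ', ← nsmul_eq_mul, ← Finset.sum_const]
  apply Finset.sum_le_sum
  intro d hd
  rw [← mul_pow]
  apply pow_le_pow_left₀ (Nat.cast_nonneg _)
  have h := DivMom_card d (n / d)
  rwa [Nat.mul_div_cancel' (Nat.dvd_of_mem_divisors hd)] at h

private theorem DivMom_harm (N : ℕ) : ∑ n ∈ Icc 1 N, (1 : ℝ) / n ≤ 1 + Real.log N := by
  have h := harmonic_le_one_add_log N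
  rw [harmonic_eq_sum_Icc] at h
  push_cast at h
  simpa only [one_div] using h

private theorem DivMom_inv (k : ℕ) (N : ℕ) (hN : 1 ≤ N) :
    ∑ n ∈ Icc 1 N, (n.divisors.card : ℝ) ^ k / n ≤ (1 + Real.log N) ^ (2 ^ k) := by
  induction k with
  | zero =>
    simp only [pow_zero, pow_one]
    exact DivMom_harm N
  | succ k ih =>
    have hL : 0 ≤ 1 + Real.log N := by
      have : 0 ≤ Real.log N := Real.log_nonneg (by exact_mod_cast hN)
      linarith
    have h0 : 0 ≤ ∑ n ∈ Icc 1 N, (n.divisors.card : ℝ) ^ k / n :=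
      Finset.sum_nonneg fun _ _ => by positivity
    calc ∑ n ∈ Icc 1 N, (n.divisors.card : ℝ) ^ (k + 1) / n
        ≤ ∑ n ∈ Icc 1 N, ∑ d ∈ n.divisors,
            ((d.divisors.card : ℝ) ^ k / d) * (((n / d : ℕ).divisors.card : ℝ) ^ k / (n / d : ℕ)) := by
          apply Finset.sum_le_sum
          intro n hn
          rw [Finset.mem_Icc] at hn
          have hn0 : (0 : ℝ) < n := by exact_mod_cast hn.1
          rw [div_le_iff₀ hn0, Finset.sum_mul]
          refine (DivMom_pow k n).trans (le_of_eq ?_)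
          apply Finset.sum_congr rfl
          intro d hd
          have hdn := Nat.dvd_of_mem_divisors hd
          have hd0 : (0 : ℝ) < d := by exact_mod_cast Nat.pos_of_mem_divisors hd
          rw [Nat.cast_div hdn hd0.ne']
          field_simp
      _ = ∑ d ∈ Icc 1 N, ∑ e ∈ Icc 1 (N / d),
            ((d.divisors.card : ℝ) ^ k / d) * ((e.divisors.card : ℝ) ^ k / e) := by
          exact DivMom_swap N (fun d e => ((d.divisors.card : ℝ) ^ k / d) *
            ((e.divisors.card : ℝ) ^ k / e))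
      _ ≤ ∑ d ∈ Icc 1 N, ∑ e ∈ Icc 1 N,
            ((d.divisors.card : ℝ) ^ k / d) * ((e.divisors.card : ℝ) ^ k / e) := by
          apply Finset.sum_le_sum
          intro d _
          apply Finset.sum_le_sum_of_subset_of_nonneg
          · exact Finset.Icc_subset_Icc_right (Nat.div_le_self N d)
          · intro e _ _
            positivity
      _ = (∑ n ∈ Icc 1 N, (n.divisors.card : ℝ) ^ k / n) ^ 2 := by
          rw [sq, Finset.sum_mul_sum]
      _ ≤ ((1 + Real.log N) ^ (2 ^ k)) ^ 2 := pow_le_pow_left₀ h0 ih 2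
      _ = (1 + Real.log N) ^ (2 ^ (k + 1)) := by
          rw [← pow_mul, ← pow_succ]

private theorem DivMom_sum (k : ℕ) : ∀ N : ℕ, 1 ≤ N →
    ∑ n ∈ Icc 1 N, (n.divisors.card : ℝ) ^ k ≤ N * (1 + Real.log N) ^ (2 ^ k) := by
  induction k with
  | zero =>
    intro N hN
    have : 0 ≤ Real.log N := Real.log_nonneg (by exact_mod_cast hN)
    simp only [pow_zero, Finset.sum_const, Nat.card_Icc, Nat.add_sub_cancel, nsmul_eq_mul,
      mul_one, pow_one]
    have hN' : (0 : ℝ) ≤ N := Nat.cast_nonneg _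
    nlinarith
  | succ k ih =>
    intro N hN
    have hlog : 0 ≤ Real.log N := Real.log_nonneg (by exact_mod_cast hN)
    have hN' : (0 : ℝ) ≤ N := Nat.cast_nonneg _
    calc ∑ n ∈ Icc 1 N, (n.divisors.card : ℝ) ^ (k + 1)
        ≤ ∑ n ∈ Icc 1 N, ∑ d ∈ n.divisors,
            (d.divisors.card : ℝ) ^ k * ((n / d).divisors.card : ℝ) ^ k :=
          Finset.sum_le_sum fun n _ => DivMom_pow k n
      _ = ∑ d ∈ Icc 1 N, ∑ e ∈ Icc 1 (N / d),
            (d.divisors.card : ℝ) ^ k * (e.divisors.card : ℝ) ^ k :=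
          DivMom_swap N (fun d e => (d.divisors.card : ℝ) ^ k * (e.divisors.card : ℝ) ^ k)
      _ ≤ ∑ d ∈ Icc 1 N, (N * (1 + Real.log N) ^ (2 ^ k)) * ((d.divisors.card : ℝ) ^ k / d) := by
          apply Finset.sum_le_sum
          intro d hd
          rw [Finset.mem_Icc] at hd
          have hd0 : (0 : ℝ) < d := by exact_mod_cast hd.1
          rw [← Finset.mul_sum]
          have hpos : 1 ≤ N / d := Nat.div_pos hd.2 hd.1
          have h1 := ih (N / d) hpos
          have h2 : ((N / d : ℕ) : ℝ) ≤ (N : ℝ) / d := Nat.cast_div_le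
          have h3 : Real.log ((N / d : ℕ) : ℝ) ≤ Real.log N := by
            apply Real.log_le_log (by exact_mod_cast hpos)
            exact_mod_cast Nat.div_le_self N d
          have h4 : 0 ≤ Real.log ((N / d : ℕ) : ℝ) := Real.log_nonneg (by exact_mod_cast hpos)
          have h5 : (1 + Real.log ((N / d : ℕ) : ℝ)) ^ (2 ^ k) ≤ (1 + Real.log N) ^ (2 ^ k) :=
            pow_le_pow_left₀ (by linarith) (by linarith) _
          calc (d.divisors.card : ℝ) ^ k * ∑ e ∈ Icc 1 (N / d), (e.divisors.card : ℝ) ^ k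
              ≤ (d.divisors.card : ℝ) ^ k * ((N : ℝ) / d * (1 + Real.log N) ^ (2 ^ k)) := by
                apply mul_le_mul_of_nonneg_left _ (by positivity)
                refine h1.trans ?_
                apply mul_le_mul h2 h5 (by positivity) (by positivity)
            _ = _ := by ring
      _ = (N * (1 + Real.log N) ^ (2 ^ k)) * ∑ d ∈ Icc 1 N, (d.divisors.card : ℝ) ^ k / d := by
          rw [Finset.mul_sum]
      _ ≤ (N * (1 + Real.log N) ^ (2 ^ k)) * (1 + Real.log N) ^ (2 ^ k) :=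
          mul_le_mul_of_nonneg_left (DivMom_inv k N hN) (by positivity)
      _ = N * (1 + Real.log N) ^ (2 ^ (k + 1)) := by
          rw [mul_assoc, ← pow_add]
          congr 2
          rw [pow_succ]
          ring

theorem div_mom (k : ℕ) : ∃ C : ℕ, ∀ N : ℕ, 1 ≤ N →
    ∑ n ∈ Icc 1 N, (n.divisors.card : ℝ) ^ k ≤ N * (1 + Real.log N) ^ C ∧
    ∑ n ∈ Icc 1 N, (n.divisors.card : ℝ) ^ k / n ≤ (1 + Real.log N) ^ C :=
  ⟨2 ^ k, fun N hN => ⟨DivMom_sum k N hN, DivMom_inv k N hN⟩⟩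

end Pool.MP_dd84fd_nt.L2G
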