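import Pool.Agent.Lib.MP_dd84fd_nt.L2G.Defs

set_option autoImplicit false

namespace Pool.MP_dd84fd_nt.L2G

open Finset Pool.MP_67663b_nt.Odd

theorem av_nonneg {N : ℕ} {f : ℝ → ℝ} (h : ∀ θ, 0 ≤ f θ) : 0 ≤ av N f :=
  div_nonneg (Finset.sum_nonneg fun _ _ => h _) (Nat.cast_nonneg _)

theorem av_mono {N : ℕ} {f g : ℝ → ℝ} (h : ∀ θ, f θ ≤ g θ) : av N f ≤ av N g :=
  div_le_div_of_nonneg_right (Finset.sum_le_sum fun _ _ => h _) (Nat.cast_nonneg _)

theorem av_add (N : ℕ) (f g : ℝ → ℝ) : av N (fun θ => f θ + g θ) = av N f + av N g := by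
  unfold av
  rw [Finset.sum_add_distrib, add_div]

theorem av_mul_left (N : ℕ) (c : ℝ) (f : ℝ → ℝ) : av N (fun θ => c * f θ) = c * av N f := by
  unfold av
  rw [← Finset.mul_sum, mul_div_assoc]

theorem av_sum {ι : Type*} (N : ℕ) (s : Finset ι) (f : ι → ℝ → ℝ) :
    av N (fun θ => ∑ i ∈ s, f i θ) = ∑ i ∈ s, av N (f i) := by
  unfold av
  rw [Finset.sum_comm, Finset.sum_div]

theorem av_cs (N : ℕ) (f g : ℝ → ℝ) :
    av N (fun θ => f θ * g θ) ^ 2 ≤ av N (fun θ => f θ ^ 2) * av N (fun θ => g θ ^ 2) := by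
  unfold av
  rw [div_pow, div_mul_div_comm, ← pow_two]
  exact div_le_div_of_nonneg_right (Finset.sum_mul_sq_le_sq_mul_sq _ _ _) (by positivity)

/-- sums over a period of a periodic function of an integer variable -/
theorem avg_sum_shift (N : ℕ) (h : ℤ → ℝ) (hper : ∀ k, h (k + N) = h k) (c : ℤ) :
    ∑ j ∈ range N, h ((j : ℤ) + c) = ∑ j ∈ range N, h (j : ℤ) := by
  have step : ∀ c : ℤ, ∑ j ∈ range N, h ((j : ℤ) + (c + 1)) = ∑ j ∈ range N, h ((j : ℤ) + c) := by
    intro c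
    have h1 := Finset.sum_range_succ (fun j : ℕ => h ((j : ℤ) + c)) N
    rw [Finset.sum_range_succ'] at h1
    have h2 : h ((N : ℤ) + c) = h (((0 : ℕ) : ℤ) + c) := by
      rw [add_comm (N : ℤ) c, hper]
      congr 1
      simp
    rw [h2] at h1
    have h3 := add_right_cancel h1
    rw [← h3]
    refine Finset.sum_congr rfl fun j _ => ?_
    congr 1
    push_cast
    ring
  induction c using Int.induction_on with
  | zero => simp
  | succ i ih => rw [step, ih]
  | pred i ih =>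
    have h1 := step (-(i : ℤ) - 1)
    rw [sub_add_cancel] at h1
    rw [← h1, ih]

theorem av_shift {N : ℕ} (hN : 0 < N) {f : ℝ → ℝ} (hf : ∀ θ, f (θ + 1) = f θ) {d : ℕ} (hd : 0 < d)
    (hdN : d ∣ N) (b : ℤ) : av N (fun θ => f (θ + (b : ℝ) / d)) = av N f := by
  obtain ⟨m, hm⟩ := hdN
  have hN' : (N : ℝ) ≠ 0 := by exact_mod_cast hN.ne'
  have hd' : (d : ℝ) ≠ 0 := by exact_mod_cast hd.ne'
  have hmd : (N : ℝ) = d * m := by exact_mod_cast hm
  have hm' : (m : ℝ) ≠ 0 := by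
    intro h0
    rw [h0, mul_zero] at hmd
    exact hN' hmd
  have key := avg_sum_shift N (fun k : ℤ => f ((k : ℝ) / N)) (fun k => by
    have : (((k + (N : ℤ) : ℤ) : ℝ)) / N = (k : ℝ) / N + 1 := by
      push_cast
      field_simp
    rw [this, hf]) (b * m)
  unfold av
  congr 1
  simp only [Int.cast_natCast] at key
  rw [← key]
  refine Finset.sum_congr rfl fun j _ => ?_
  push_cast
  rw [hmd]
  field_simp

/-- orthogonality of the exponentials -/
theorem avg_orth (N : ℕ) (hN : 0 < N) (k : ℤ) :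
    ∑ j ∈ range N, ee ((k : ℝ) * ((j : ℝ) / N)) = if (N : ℤ) ∣ k then (N : ℂ) else 0 := by
  have hN' : (N : ℝ) ≠ 0 := by exact_mod_cast hN.ne'
  have hpow : ∀ j : ℕ, ee ((k : ℝ) * ((j : ℝ) / N)) = ee ((k : ℝ) / N) ^ j := by
    intro j
    induction j with
    | zero => simp [ee_zero]
    | succ j ih =>
      rw [pow_succ, ← ih, ← ee_add]
      congr 1
      push_cast
      field_simp
  split_ifs with h
  · obtain ⟨m, hm⟩ := h
    have h1 : ee ((k : ℝ) / N) = 1 := by
      have : (k : ℝ) / N = (m : ℤ) := by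
        rw [hm]
        push_cast
        field_simp
      rw [this, ee_int]
    simp only [hpow, h1, one_pow]
    simp
  · have h1 : ee ((k : ℝ) / N) ≠ 1 := by
      intro h1
      unfold ee at h1
      rw [Complex.exp_eq_one_iff] at h1
      obtain ⟨m, hm⟩ := h1
      have hpi : (2 * Real.pi * Complex.I : ℂ) ≠ 0 := Complex.two_pi_I_ne_zero
      have h2 : (((k : ℝ) / N : ℝ) : ℂ) = (m : ℂ) := by
        have h3 : (((k : ℝ) / N : ℝ) : ℂ) * (2 * Real.pi * Complex.I) =
            m * (2 * Real.pi * Complex.I) := by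
          rw [← hm]
          ring
        exact mul_right_cancel₀ hpi h3
      have h3 : (k : ℝ) / N = (m : ℝ) := by exact_mod_cast h2
      rw [div_eq_iff hN'] at h3
      refine h ⟨m, ?_⟩
      have h4 : (k : ℝ) = (((N : ℤ) * m : ℤ) : ℝ) := by
        rw [h3]
        push_cast
        ring
      exact_mod_cast h4
    simp only [hpow]
    have h2 := mul_neg_geom_sum (ee ((k : ℝ) / N)) N
    have h3 : ee ((k : ℝ) / N) ^ N = 1 := by
      rw [← hpow]
      have : (k : ℝ) * ((N : ℝ) / N) = (k : ℤ) := by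
        rw [div_self hN', mul_one]
      rw [this, ee_int]
    rw [h3, sub_self] at h2
    exact (mul_eq_zero.1 h2).resolve_left (sub_ne_zero.2 (Ne.symm h1))

theorem parseval {N : ℕ} (s : Finset ℕ) (hs : ∀ n ∈ s, n < N) (a : ℕ → ℂ) :
    av N (fun θ => ‖∑ n ∈ s, a n * ee (n * θ)‖ ^ 2) = ∑ n ∈ s, ‖a n‖ ^ 2 := by
  rcases Nat.eq_zero_or_pos N with rfl | hN
  · have : s = ∅ := Finset.eq_empty_of_forall_notMem fun n hn => by
      have := hs n hn
      omega
    rw [this]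
    unfold av
    simp
  have hN' : (N : ℂ) ≠ 0 := by exact_mod_cast hN.ne'
  have key : ((∑ j ∈ range N, ‖∑ n ∈ s, a n * ee (n * ((j : ℝ) / N))‖ ^ 2 : ℝ) : ℂ) =
      N * ((∑ n ∈ s, ‖a n‖ ^ 2 : ℝ) : ℂ) := by
    push_cast
    have h1 : ∀ j : ℕ, ((‖∑ n ∈ s, a n * ee (n * ((j : ℝ) / N))‖ : ℂ)) ^ 2 =
        ∑ n ∈ s, ∑ m ∈ s, a n * (starRingEnd ℂ) (a m) *
          ee ((((n : ℤ) - (m : ℤ) : ℤ) : ℝ) * ((j : ℝ) / N)) := by
      intro j
      rw [← Complex.mul_conj', map_sum, Finset.sum_mul_sum]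
      refine Finset.sum_congr rfl fun n _ => Finset.sum_congr rfl fun m _ => ?_
      rw [map_mul, conj_ee]
      have : ee ((((n : ℤ) - (m : ℤ) : ℤ) : ℝ) * ((j : ℝ) / N)) =
          ee (n * ((j : ℝ) / N)) * ee (-(m * ((j : ℝ) / N))) := by
        rw [← ee_add]
        congr 1
        push_cast
        ring
      rw [this]
      ring
    rw [Finset.sum_congr rfl fun j _ => h1 j, Finset.sum_comm, Finset.mul_sum]
    refine Finset.sum_congr rfl fun n hn => ?_
    rw [Finset.sum_comm, Finset.sum_eq_single n]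
    · rw [← Finset.mul_sum, avg_orth N hN, if_pos (by simp), Complex.mul_conj']
      ring
    · intro m hm hmn
      rw [← Finset.mul_sum, avg_orth N hN, if_neg, mul_zero]
      rintro ⟨c, hc⟩
      have h2 := hs n hn
      have h3 := hs m hm
      have h4 : c = 0 := by
        by_contra hc0
        have h5 : (N : ℤ) ≤ |(n : ℤ) - m| := by
          rw [hc, abs_mul, Nat.abs_cast]
          have : 1 ≤ |c| := Int.one_le_abs hc0
          nlinarith [Int.natCast_nonneg N]
        have h6 : |(n : ℤ) - m| < N := by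
          rw [abs_lt]
          constructor <;> omega
        omega
      rw [h4, mul_zero] at hc
      omega
    · intro h
      exact absurd hn h
  have key2 : (∑ j ∈ range N, ‖∑ n ∈ s, a n * ee (n * ((j : ℝ) / N))‖ ^ 2 : ℝ) =
      N * (∑ n ∈ s, ‖a n‖ ^ 2 : ℝ) := by
    exact_mod_cast key
  unfold av
  rw [key2]
  have hN'' : (N : ℝ) ≠ 0 := by exact_mod_cast hN.ne'
  field_simp

theorem Se_add_int (X : ℕ) (f : ℕ → ℝ) (θ : ℝ) (z : ℤ) : Se X f (θ + z) = Se X f θ := by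
  unfold Se
  refine Finset.sum_congr rfl fun n _ => ?_
  have : (n : ℝ) * (θ + z) = n * θ + (((n : ℤ) * z : ℤ) : ℝ) := by
    push_cast
    ring
  rw [this, ee_add_int]

theorem dvd_gr {X d : ℕ} (h1 : 1 ≤ d) (h2 : d ≤ 4 * X + 4) : d ∣ gr X :=
  Nat.dvd_factorial h1 h2

theorem lt_gr (X : ℕ) : 4 * X + 3 < gr X := by
  have h := Nat.lt_factorial_self (n := 4 * X + 4) (by omega)
  unfold gr
  omega

theorem av_Se (X : ℕ) (f : ℕ → ℝ) :
    av (gr X) (fun θ => ‖Se X f θ‖ ^ 2) = ∑ n ∈ Icc 1 X, f n ^ 2 := by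
  have h := parseval (N := gr X) (Icc 1 X) (fun n hn => by
    have h1 := (Finset.mem_Icc.1 hn).2
    have h2 := lt_gr X
    omega) (fun n => (f n : ℂ))
  unfold Se
  rw [h]
  refine Finset.sum_congr rfl fun n _ => ?_
  rw [Complex.norm_real, Real.norm_eq_abs, sq_abs]

end Pool.MP_dd84fd_nt.L2G
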