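import Pool.Agent.Lib.MP_67663b_nt.OddB.ExpDefs

/-!
# The global second moment of the Goldbach problem: definitions
-/

set_option autoImplicit false

namespace Pool.MP_dd84fd_nt.L2G

open Finset Pool.MP_67663b_nt.Odd

/-- `log n` if `n` is a prime `≤ X`, and `0` otherwise. -/
noncomputable def la (X n : ℕ) : ℝ := if n.Prime ∧ n ≤ X then Real.log n else 0

/-- The model: `W / φ(W)` if `1 ≤ n ≤ X` and `n` is coprime to `W`, and `0` otherwise. -/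
noncomputable def lw (W X n : ℕ) : ℝ :=
  if 1 ≤ n ∧ n ≤ X ∧ Nat.Coprime n W then (W : ℝ) / (Nat.totient W : ℝ) else 0

/-- The exponential sum `∑_{1 ≤ n ≤ X} f(n) e(n θ)`. -/
noncomputable def Se (X : ℕ) (f : ℕ → ℝ) (θ : ℝ) : ℂ := ∑ n ∈ Icc 1 X, (f n : ℂ) * ee (n * θ)

noncomputable def LH (X : ℕ) (θ : ℝ) : ℂ := Se X (la X) θ

noncomputable def WH (W X : ℕ) (θ : ℝ) : ℂ := Se X (lw W X) θ

/-- difference of the exponential sum over primes and its model -/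
noncomputable def UH (W X : ℕ) (θ : ℝ) : ℂ := LH X θ - WH W X θ

/-- sum of the exponential sum over primes and its model -/
noncomputable def VH (W X : ℕ) (θ : ℝ) : ℂ := LH X θ + WH W X θ

/-- Average over the grid `{j / N : 0 ≤ j < N}`. -/
noncomputable def av (N : ℕ) (f : ℝ → ℝ) : ℝ := (∑ j ∈ range N, f ((j : ℝ) / N)) / N

/-- The grid: a number divisible by all integers up to `4 X + 4` and larger than `2 X`. -/
def gr (X : ℕ) : ℕ := Nat.factorial (4 * X + 4)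

/-- The arcs of half-width `δ` about the reduced fractions with denominator in `[R, 2R)`. -/
def Arc (R : ℕ) (δ : ℝ) : Set ℝ :=
  {θ | ∃ r : ℕ, 1 ≤ r ∧ R ≤ r ∧ r < 2 * R ∧ ∃ y : ℤ, IsCoprime y (r : ℤ) ∧ |θ - y / r| ≤ δ}

/-- The arcs of half-width `δ` about the reduced fractions with denominator at most `P`. -/
def Maj (P δ : ℝ) : Set ℝ :=
  {θ | ∃ r : ℕ, 1 ≤ r ∧ (r : ℝ) ≤ P ∧ ∃ y : ℤ, IsCoprime y (r : ℤ) ∧ |θ - y / r| ≤ δ}

/-- `∑_{b mod d, (b, d) = 1} |F(θ + b/d)|²` -/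
noncomputable def Vst (F : ℝ → ℂ) (d : ℕ) (θ : ℝ) : ℝ :=
  ∑ b ∈ (range d).filter (Nat.Coprime d), ‖F (θ + (b : ℝ) / d)‖ ^ 2

/-- The sum over the reduced residues `c mod r` of `e(y c / r)`. -/
noncomputable def cr (r : ℕ) (y : ℤ) : ℂ :=
  ∑ c ∈ (range r).filter (Nat.Coprime r), ee ((y : ℝ) * c / r)

/-- `∫_0^X e(t β) dt` -/
noncomputable def KI (X : ℕ) (β : ℝ) : ℂ := ∫ t in (0 : ℝ)..X, ee (t * β)

/-- Additive convolution of functions on `[1, X]`. -/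
noncomputable def cv (X : ℕ) (f g : ℕ → ℝ) (n : ℕ) : ℝ :=
  ∑ m ∈ Icc 1 X, ∑ k ∈ Icc 1 X, if m + k = n then f m * g k else 0

/-- Distance to the nearest integer. -/
noncomputable def nrm (x : ℝ) : ℝ := |x - round x|

/-- number of ordered pairs of primes with sum `n` -/
def gg (n : ℕ) : ℕ := ((Finset.range (n + 1)).filter (fun p => Nat.Prime p ∧ Nat.Prime (n - p))).card

/-- The minor arc bound (proved in `MinorL.lean`). -/
def MinorL : Prop :=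
  ∀ A : ℕ, ∃ B : ℕ, ∀ B' : ℕ, B ≤ B' → ∃ X0 : ℕ, ∀ X : ℕ, X0 ≤ X → ∀ θ : ℝ,
    θ ∉ Maj (Real.log X ^ B') (Real.log X ^ B' / X) → ‖LH X θ‖ ≤ X / Real.log X ^ A

/-- `B_q` -/
noncomputable def Bq (W X q : ℕ) : ℝ :=
  av (gr X) (fun θ => ‖UH W X θ‖ ^ 2 * ∑ k ∈ range q, ‖VH W X (θ + (k : ℝ) / q)‖ ^ 2)

/-- `I_d` -/
noncomputable def Jd (W X d : ℕ) : ℝ := av (gr X) (fun θ => ‖UH W X θ‖ ^ 2 * Vst (VH W X) d θ)

/-- the part of `I_d` on the arcs -/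
noncomputable def JM (W X B d : ℕ) : ℝ :=
  av (gr X) ((Maj (Real.log X ^ B) (Real.log X ^ B / X)).indicator
    (fun θ => ‖UH W X θ‖ ^ 2 * Vst (VH W X) d θ))

end Pool.MP_dd84fd_nt.L2G
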