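import Pool.Agent.Lib.MP_dd84fd_nt.L2G.ChDefs
import Pool.Agent.Lib.MP_dd84fd_nt.L2G.Avg

set_option autoImplicit false

namespace Pool.MP_dd84fd_nt.L2G

open Finset Pool.MP_67663b_nt.Odd

/-- splitting off the part of `n` composed of the primes of `q` -/
private theorem arcQ_split (q : ℕ) : ∀ n : ℕ, 1 ≤ n → ∃ t r : ℕ, t * r = n ∧
    (∀ p : ℕ, p.Prime → p ∣ t → p ∣ q) ∧ Nat.Coprime r q := by
  intro n
  induction n using Nat.strong_induction_on with
  | _ n ih =>
    intro hn
    by_cases h : Nat.gcd n q = 1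
    · refine ⟨1, n, one_mul n, ?_, h⟩
      intro p hp h1
      exact absurd (Nat.dvd_one.1 h1) hp.one_lt.ne'
    · have hg0 : 0 < Nat.gcd n q := Nat.gcd_pos_of_pos_left _ hn
      have hg : 1 < Nat.gcd n q := by omega
      obtain ⟨m, hm⟩ := Nat.gcd_dvd_left n q
      have hm0 : 1 ≤ m := by
        rcases Nat.eq_zero_or_pos m with h0 | h0
        · rw [h0, mul_zero] at hm
          omega
        · exact h0
      have hmn : m < n := by
        rw [hm]
        nlinarith
      obtain ⟨t, r, h1, h2, h3⟩ := ih m hmn hm0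
      refine ⟨Nat.gcd n q * t, r, ?_, ?_, h3⟩
      · rw [mul_assoc, h1, ← hm]
      · intro p hp hpt
        rcases (Nat.Prime.dvd_mul hp).1 hpt with h4 | h4
        · exact h4.trans (Nat.gcd_dvd_right n q)
        · exact h2 p hp h4

theorem major_split (X q B : ℕ) (hX : 2 ≤ X) (hq : 1 ≤ q) (θ : ℝ) (h : θ ∈ MajQ X q B) :
    ∃ (t r : ℕ) (c y : ℤ) (β : ℝ), 1 ≤ t ∧ 1 ≤ r ∧ (t : ℝ) * r ≤ Real.log X ^ B ∧
      (∀ p : ℕ, p.Prime → p ∣ t → p ∣ q) ∧ Nat.Coprime r (q * t) ∧ IsCoprime y (r : ℤ) ∧
      |β| ≤ Real.log X ^ B / X ∧ θ = (c : ℝ) / (q * t : ℕ) + (y / r + β) := by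
  obtain ⟨r0, hr0, hr0L, c0, hc0, hθ⟩ := h
  obtain ⟨t, r, htr, ht, hrq⟩ := arcQ_split q r0 hr0
  have ht0 : 1 ≤ t := by
    rcases Nat.eq_zero_or_pos t with h0 | h0
    · rw [h0, zero_mul] at htr
      omega
    · exact h0
  have hr1 : 1 ≤ r := by
    rcases Nat.eq_zero_or_pos r with h0 | h0
    · rw [h0, mul_zero] at htr
      omega
    · exact h0
  have hrt : Nat.Coprime r t := by
    rw [Nat.coprime_iff_gcd_eq_one]
    by_contra hcon
    obtain ⟨p, hp, hpg⟩ := Nat.exists_prime_and_dvd hcon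
    have h1 : p ∣ r := hpg.trans (Nat.gcd_dvd_left _ _)
    have h2 : p ∣ t := hpg.trans (Nat.gcd_dvd_right _ _)
    have h3 := Nat.dvd_gcd h1 (ht p hp h2)
    rw [Nat.coprime_iff_gcd_eq_one.1 hrq] at h3
    exact absurd (Nat.dvd_one.1 h3) hp.one_lt.ne'
  have hrqt : Nat.Coprime r (q * t) := Nat.Coprime.mul_right hrq hrt
  have hbez : IsCoprime (r : ℤ) ((q * t : ℕ) : ℤ) := Nat.isCoprime_iff_coprime.2 hrqt
  obtain ⟨u, v, huv⟩ := hbez
  have hq0 : (0 : ℝ) < q := by exact_mod_cast hq
  have ht0' : (0 : ℝ) < t := by exact_mod_cast ht0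
  have hr1' : (0 : ℝ) < r := by exact_mod_cast hr1
  have hX0 : (0 : ℝ) < X := by
    have : 0 < X := by omega
    exact_mod_cast this
  have hr0' : (1 : ℝ) ≤ r0 := by exact_mod_cast hr0
  have htr' : (t : ℝ) * r = r0 := by exact_mod_cast htr
  refine ⟨t, r, c0 * u, c0 * v, θ - c0 / (q * r0), ht0, hr1, ?_, ht, hrqt, ?_, ?_, ?_⟩
  · rw [htr']
    exact hr0L
  · refine IsCoprime.mul_left ?_ ?_
    · refine hc0.of_isCoprime_of_dvd_right ?_
      rw [← htr]
      push_cast
      exact Dvd.intro_left _ rfl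
    · refine ⟨((q * t : ℕ) : ℤ), u, ?_⟩
      rw [← huv]
      ring
  · have h1 : θ - c0 / (q * r0) = (q * θ - c0 / r0) / q := by
      field_simp
    rw [h1, abs_div, abs_of_pos hq0, div_le_iff₀ hq0]
    refine hθ.trans ?_
    have hL : 0 ≤ Real.log X ^ B := pow_nonneg (Real.log_natCast_nonneg X) _
    calc q * Real.log X ^ B / (r0 * X) ≤ q * Real.log X ^ B / (1 * X) := by
          apply div_le_div_of_nonneg_left (by positivity) (by positivity)
          exact mul_le_mul_of_nonneg_right hr0' hX0.le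
      _ = Real.log X ^ B / X * q := by
          rw [one_mul]
          ring
  · have h2 : (u : ℝ) * r + v * (q * t) = 1 := by
      have := congrArg (fun z : ℤ => (z : ℝ)) huv
      push_cast at this
      exact this
    have h3 : (c0 : ℝ) / (q * r0) = ((c0 * u : ℤ) : ℝ) / ((q * t : ℕ) : ℝ) +
        ((c0 * v : ℤ) : ℝ) / r := by
      rw [← htr']
      push_cast
      field_simp
      linear_combination (-(c0 : ℝ)) * h2
    linarith

private theorem arcQ_count (N : ℕ) (x δ : ℝ) (hδ : 0 ≤ δ) :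
    (((range N).filter (fun j : ℕ => |(j : ℝ) - x| ≤ δ)).card : ℝ) ≤ 2 * δ + 1 := by
  classical
  have h1 : ((range N).filter (fun j : ℕ => |(j : ℝ) - x| ≤ δ)).card ≤
      (Finset.Icc ⌈x - δ⌉ ⌊x + δ⌋).card := by
    apply Finset.card_le_card_of_injOn (fun j : ℕ => (j : ℤ))
    · intro j hj
      rw [Finset.mem_coe, Finset.mem_filter, abs_le] at hj
      rw [Finset.mem_coe, Finset.mem_Icc, Int.ceil_le, Int.le_floor]
      push_cast
      constructor <;> linarith [hj.2.1, hj.2.2]
    · intro a _ b _ hab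
      have h2 : (a : ℤ) = (b : ℤ) := hab
      exact_mod_cast h2
  rw [Int.card_Icc] at h1
  have h2 : (((⌊x + δ⌋ + 1 - ⌈x - δ⌉).toNat : ℕ) : ℝ) ≤ 2 * δ + 1 := by
    have h3 : (((⌊x + δ⌋ + 1 - ⌈x - δ⌉).toNat : ℤ) : ℝ) =
        ((max (⌊x + δ⌋ + 1 - ⌈x - δ⌉) 0 : ℤ) : ℝ) := by
      rw [Int.toNat_eq_max]
    have h4 : (((⌊x + δ⌋ + 1 - ⌈x - δ⌉).toNat : ℕ) : ℝ) =
        ((max (⌊x + δ⌋ + 1 - ⌈x - δ⌉) 0 : ℤ) : ℝ) := by
      rw [← h3]
      norm_cast
    rw [h4, Int.cast_max]
    apply max_le
    · push_cast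
      have h5 := Int.floor_le (x + δ)
      have h6 := Int.le_ceil (x - δ)
      linarith
    · push_cast
      linarith
  exact le_trans (by exact_mod_cast h1) h2

theorem major_measure (X q B : ℕ) (hX : 3 ≤ X) (hq : 1 ≤ q) :
    av (gr X) ((MajQ X q B).indicator (fun _ => 1)) ≤ 16 * q * Real.log X ^ (2 * B) / X := by
  classical
  have hXr : (3 : ℝ) ≤ X := by exact_mod_cast hX
  have hX0 : (0 : ℝ) < X := by linarith
  have hq1 : (1 : ℝ) ≤ q := by exact_mod_cast hq
  have hq0 : (0 : ℝ) < q := by linarith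
  have hL1 : 1 ≤ Real.log X := by
    rw [Real.le_log_iff_exp_le hX0]
    have := Real.exp_one_lt_d9
    linarith
  set P := Real.log X ^ B with hP
  have hP1 : 1 ≤ P := one_le_pow₀ hL1
  have hP0 : 0 < P := by linarith
  have hPP : Real.log X ^ (2 * B) = P * P := by
    rw [hP, two_mul, pow_add]
  rw [hPP]
  set N := gr X with hN
  have hNX : 4 * X + 3 < N := lt_gr X
  have hN0 : (0 : ℝ) < N := by
    have : 0 < N := by omega
    exact_mod_cast this
  by_cases htriv : (X : ℝ) ≤ 16 * q * (P * P)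
  · have h1 : av N ((MajQ X q B).indicator (fun _ => 1)) ≤ 1 := by
      unfold av
      rw [div_le_one hN0]
      calc ∑ j ∈ range N, (MajQ X q B).indicator (fun _ => (1 : ℝ)) ((j : ℝ) / N) ≤
          ∑ j ∈ range N, (1 : ℝ) := by
            apply Finset.sum_le_sum
            intro j _
            exact Set.indicator_le_self' (fun _ _ => zero_le_one) _
        _ = N := by rw [Finset.sum_const, Finset.card_range, nsmul_eq_mul, mul_one]
    refine h1.trans ?_
    rw [le_div_iff₀ hX0, one_mul]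
    exact htriv
  · push Not at htriv
    have hqP : q * P / X < 1 := by
      rw [div_lt_one hX0]
      nlinarith [mul_pos hq0 hP0]
    have hPX : P ≤ X := by
      have h1 : P * 1 ≤ P * P := mul_le_mul_of_nonneg_left hP1 hP0.le
      have h2 : 1 * (P * P) ≤ q * (P * P) := mul_le_mul_of_nonneg_right hq1 (by positivity)
      nlinarith [mul_pos hP0 hP0]
    set R := ⌊P⌋₊ with hR
    let S : ℕ → ℕ → Finset ℕ := fun r c => (range N).filter
      (fun j : ℕ => |(j : ℝ) - N * c / (q * r)| ≤ N * P / (r * X))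
    have hsub : (range N).filter (fun j : ℕ => (j : ℝ) / N ∈ MajQ X q B) ⊆
        (Icc 1 R).biUnion (fun r => (range (q * r + 1)).biUnion (fun c => S r c)) := by
      intro j hj
      rw [Finset.mem_filter, Finset.mem_range] at hj
      obtain ⟨hjN, r, hr, hrP, c, hc, hθ⟩ := hj
      have hr1 : (1 : ℝ) ≤ r := by exact_mod_cast hr
      have hr0 : (0 : ℝ) < r := by linarith
      have hjN' : (j : ℝ) / N < 1 := by
        rw [div_lt_one hN0]
        exact_mod_cast hjN
      have hj0 : 0 ≤ (j : ℝ) / N := by positivity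
      have hδ : q * P / (r * X) < 1 / r := by
        rw [div_lt_div_iff₀ (by positivity) hr0]
        rw [div_lt_one hX0] at hqP
        nlinarith
      rw [abs_le] at hθ
      have hc0 : 0 ≤ c := by
        by_contra hcon
        push Not at hcon
        have h1 : (c : ℝ) ≤ -1 := by
          have : c ≤ -1 := by omega
          exact_mod_cast this
        have h2 : (c : ℝ) / r ≤ -1 / r := by gcongr
        have h3 : (-1 : ℝ) / r = -(1 / r) := by ring
        have h4 : 0 ≤ q * ((j : ℝ) / N) := by positivity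
        rw [h3] at h2
        linarith [hθ.2]
      have hc1 : c ≤ q * r := by
        by_contra hcon
        push Not at hcon
        have h1 : (q : ℝ) * r + 1 ≤ c := by
          have : (q : ℤ) * r + 1 ≤ c := by omega
          exact_mod_cast this
        have h2 : q + 1 / (r : ℝ) ≤ (c : ℝ) / r := by
          rw [le_div_iff₀ hr0]
          have : (q + 1 / (r : ℝ)) * r = q * r + 1 := by
            field_simp
          linarith
        have h4 : q * ((j : ℝ) / N) ≤ q * 1 := mul_le_mul_of_nonneg_left hjN'.le hq0.le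
        linarith [hθ.1]
      lift c to ℕ using hc0
      rw [Finset.mem_biUnion]
      refine ⟨r, ?_, ?_⟩
      · rw [Finset.mem_Icc]
        exact ⟨hr, Nat.le_floor hrP⟩
      · rw [Finset.mem_biUnion]
        refine ⟨c, ?_, ?_⟩
        · rw [Finset.mem_range]
          have : c ≤ q * r := by exact_mod_cast hc1
          omega
        · change j ∈ (range N).filter
            (fun j : ℕ => |(j : ℝ) - N * c / (q * r)| ≤ N * P / (r * X))
          rw [Finset.mem_filter, Finset.mem_range]
          refine ⟨hjN, ?_⟩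
          have h1 : (j : ℝ) - N * c / (q * r) = N / q * (q * ((j : ℝ) / N) - c / r) := by
            field_simp
          have h2 : N * P / (r * X) = N / q * (q * P / (r * X)) := by
            field_simp
          rw [h1, abs_mul, abs_of_nonneg (by positivity : (0 : ℝ) ≤ N / q), h2]
          apply mul_le_mul_of_nonneg_left _ (by positivity)
          rw [abs_le]
          rw [Int.cast_natCast] at hθ
          exact hθ
    have hcard : (((range N).filter (fun j : ℕ => (j : ℝ) / N ∈ MajQ X q B)).card : ℝ) ≤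
        ∑ r ∈ Icc 1 R, ∑ c ∈ range (q * r + 1), (2 * (N * P / (r * X)) + 1) := by
      have h1 : (((range N).filter (fun j : ℕ => (j : ℝ) / N ∈ MajQ X q B)).card) ≤
          ∑ r ∈ Icc 1 R, ∑ c ∈ range (q * r + 1), (S r c).card := by
        refine (Finset.card_le_card hsub).trans ?_
        refine Finset.card_biUnion_le.trans (Finset.sum_le_sum fun r _ => ?_)
        exact Finset.card_biUnion_le
      have h2 : (((range N).filter (fun j : ℕ => (j : ℝ) / N ∈ MajQ X q B)).card : ℝ) ≤
          ∑ r ∈ Icc 1 R, ∑ c ∈ range (q * r + 1), ((S r c).card : ℝ) := by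
        exact_mod_cast h1
      refine h2.trans (Finset.sum_le_sum fun r _ => Finset.sum_le_sum fun c _ => ?_)
      exact arcQ_count N _ _ (by positivity)
    have hRP : (R : ℝ) ≤ P := Nat.floor_le hP0.le
    have hNbig : (X : ℝ) * X ≤ N := by
      have h1 : X * X ≤ N := by
        rw [hN]
        unfold gr
        have h2 : (4 * X + 4).factorial = (4 * X + 4) * (4 * X + 3).factorial :=
          Nat.factorial_succ (4 * X + 3)
        have h3 : 4 * X + 3 ≤ (4 * X + 3).factorial := Nat.self_le_factorial _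
        rw [h2]
        nlinarith
      exact_mod_cast h1
    have hterm : ∀ r ∈ Icc 1 R, ∑ c ∈ range (q * r + 1), (2 * (N * P / (r * X)) + 1) ≤
        8 * q * (N * P / X) := by
      intro r hr
      rw [Finset.mem_Icc] at hr
      have hr1 : (1 : ℝ) ≤ r := by exact_mod_cast hr.1
      have hr0 : (0 : ℝ) < r := by linarith
      have hrX : (r : ℝ) ≤ X := by
        have : (r : ℝ) ≤ R := by exact_mod_cast hr.2
        linarith
      rw [Finset.sum_const, Finset.card_range, nsmul_eq_mul]
      have h1 : ((q * r + 1 : ℕ) : ℝ) ≤ 2 * (q * r) := by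
        push_cast
        nlinarith
      have h2 : (1 : ℝ) ≤ 2 * (N * P / (r * X)) := by
        have h3 : 1 ≤ N * P / (r * X) := by
          rw [one_le_div (by positivity)]
          calc (r : ℝ) * X ≤ X * X := mul_le_mul_of_nonneg_right hrX hX0.le
            _ ≤ N := hNbig
            _ = N * 1 := (mul_one _).symm
            _ ≤ N * P := mul_le_mul_of_nonneg_left hP1 hN0.le
        linarith
      calc ((q * r + 1 : ℕ) : ℝ) * (2 * (N * P / (r * X)) + 1) ≤
          (2 * (q * r)) * (2 * (N * P / (r * X)) + 2 * (N * P / (r * X))) := by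
            apply mul_le_mul h1 (by linarith) (by positivity) (by positivity)
        _ = 8 * q * (N * P / X) := by
            field_simp
            ring
    have htot : (((range N).filter (fun j : ℕ => (j : ℝ) / N ∈ MajQ X q B)).card : ℝ) ≤
        P * (8 * q * (N * P / X)) := by
      refine hcard.trans ((Finset.sum_le_sum hterm).trans ?_)
      rw [Finset.sum_const, Nat.card_Icc, Nat.add_sub_cancel, nsmul_eq_mul]
      exact mul_le_mul_of_nonneg_right hRP (by positivity)
    unfold av
    have hsum : ∑ j ∈ range N, (MajQ X q B).indicator (fun _ => (1 : ℝ)) ((j : ℝ) / N) =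
        (((range N).filter (fun j : ℕ => (j : ℝ) / N ∈ MajQ X q B)).card : ℝ) := by
      rw [Finset.card_filter]
      push_cast
      refine Finset.sum_congr rfl fun j _ => ?_
      rw [Set.indicator_apply]
    rw [hsum, div_le_div_iff₀ hN0 hX0]
    calc _ ≤ P * (8 * q * (N * P / X)) * X := mul_le_mul_of_nonneg_right htot hX0.le
      _ = 8 * q * (P * P) * N := by
          field_simp
      _ ≤ 16 * q * (P * P) * N := by
          apply mul_le_mul_of_nonneg_right _ hN0.le
          nlinarith [mul_pos hq0 (mul_pos hP0 hP0)]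

theorem minor_hyp (X q B : ℕ) (hX : 3 ≤ X) (hq : 1 ≤ q) (hqB : (q : ℝ) * Real.log X ^ B ≤ X)
    (θ : ℝ) (h : θ ∉ MajQ X q B) : ∃ (r : ℕ) (c : ℤ), MinorHyp X q B θ r c := by
  have hXr : (3 : ℝ) ≤ X := by exact_mod_cast hX
  have hX0 : (0 : ℝ) < X := by linarith
  have hq1 : (1 : ℝ) ≤ q := by exact_mod_cast hq
  have hq0 : (0 : ℝ) < q := by linarith
  have hL1 : 1 ≤ Real.log X := by
    rw [Real.le_log_iff_exp_le hX0]
    have := Real.exp_one_lt_d9
    linarith
  set P := Real.log X ^ B with hP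
  have hP1 : 1 ≤ P := one_le_pow₀ hL1
  have hP0 : 0 < P := by linarith
  have hqP0 : 0 < q * P := by positivity
  set n := ⌊(X : ℝ) / (q * P)⌋₊ with hn
  have hn0 : 0 < n := by
    rw [hn, Nat.floor_pos, one_le_div hqP0]
    exact hqB
  obtain ⟨s, hs1, hs2⟩ := Real.exists_rat_abs_sub_le_and_den_le (q * θ) hn0
  have hden : (0 : ℝ) < s.den := by exact_mod_cast s.den_pos
  have hnX : (n : ℝ) ≤ X / (q * P) := Nat.floor_le (by positivity)
  have hnX2 : (X : ℝ) / (q * P) < n + 1 := Nat.lt_floor_add_one _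
  have hcop : IsCoprime s.num (s.den : ℤ) := by
    rw [Int.isCoprime_iff_nat_coprime, Int.natAbs_natCast]
    exact s.reduced
  have habs : |q * θ - (s.num : ℝ) / s.den| ≤ q * P / (s.den * X) := by
    have h1 : (s : ℝ) = (s.num : ℝ) / s.den := by
      conv_lhs => rw [← Rat.num_div_den s]
      push_cast
      rfl
    rw [← h1]
    refine hs1.trans ?_
    rw [div_le_div_iff₀ (by positivity) (by positivity), one_mul]
    rw [div_lt_iff₀ hqP0] at hnX2
    nlinarith
  have hden1 : 1 ≤ s.den := s.den_pos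
  refine ⟨s.den, s.num, ?_, ?_, hcop, habs⟩
  · by_contra hcon
    push Not at hcon
    exact h ⟨s.den, hden1, hcon, s.num, hcop, habs⟩
  · have : (s.den : ℝ) ≤ n := by exact_mod_cast hs2
    exact this.trans hnX

end Pool.MP_dd84fd_nt.L2G
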