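import Pool.Agent.Lib.MP_dd84fd_nt.L2G.Defs

set_option autoImplicit false

namespace Pool.MP_dd84fd_nt.L2G

open Finset Pool.MP_67663b_nt.Odd

private theorem la_nonneg (X n : ℕ) : 0 ≤ la X n := by
  unfold la
  split_ifs
  · exact Real.log_natCast_nonneg n
  · exact le_rfl

private theorem cvBasic_inner (X n : ℕ) (F : ℕ → ℝ) (m : ℕ) :
    ∑ k ∈ Icc 1 X, (if m + k = n then F k else 0) =
      if m ≤ n ∧ n - m ∈ Icc 1 X then F (n - m) else 0 := by
  by_cases hm : m ≤ n
  · have h1 : ∀ k ∈ Icc 1 X, (if m + k = n then F k else 0) = if n - m = k then F k else 0 := by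
      intro k _
      by_cases h : m + k = n
      · rw [if_pos h, if_pos (by omega)]
      · rw [if_neg h, if_neg (by omega)]
    rw [Finset.sum_congr rfl h1, Finset.sum_ite_eq]
    by_cases h2 : n - m ∈ Icc 1 X
    · rw [if_pos h2, if_pos ⟨hm, h2⟩]
    · rw [if_neg h2, if_neg (fun h => h2 h.2)]
  · rw [if_neg (fun h => hm h.1)]
    exact Finset.sum_eq_zero fun k _ => if_neg (by omega)

theorem cv_la_le (X n : ℕ) : cv X (la X) (la X) n ≤ Real.log n ^ 2 * gg n := by
  unfold cv
  have hlog : 0 ≤ Real.log n := Real.log_natCast_nonneg n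
  have h1 : ∀ m ∈ Icc 1 X, (∑ k ∈ Icc 1 X, if m + k = n then la X m * la X k else 0) ≤
      if m ∈ (Finset.range (n + 1)).filter (fun p => Nat.Prime p ∧ Nat.Prime (n - p)) then
        Real.log n ^ 2 else 0 := by
    intro m _
    rw [cvBasic_inner X n (fun k => la X m * la X k) m]
    by_cases h : m ≤ n ∧ n - m ∈ Icc 1 X
    · rw [if_pos h]
      by_cases hp : Nat.Prime m ∧ Nat.Prime (n - m)
      · have hmem : m ∈ (Finset.range (n + 1)).filter
            (fun p => Nat.Prime p ∧ Nat.Prime (n - p)) := by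
          rw [Finset.mem_filter, Finset.mem_range]
          exact ⟨by omega, hp⟩
        rw [if_pos hmem]
        have h2 : ∀ j : ℕ, j ≤ n → la X j ≤ Real.log n := by
          intro j hj
          unfold la
          split_ifs with hh
          · exact Real.log_le_log (by exact_mod_cast hh.1.pos) (by exact_mod_cast hj)
          · exact hlog
        rw [pow_two]
        exact mul_le_mul (h2 m h.1) (h2 (n - m) (Nat.sub_le _ _)) (la_nonneg _ _) hlog
      · have h0 : la X m * la X (n - m) = 0 := by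
          rcases not_and_or.mp hp with hp | hp
          · have : la X m = 0 := by unfold la; rw [if_neg (fun hh => hp hh.1)]
            rw [this, zero_mul]
          · have : la X (n - m) = 0 := by unfold la; rw [if_neg (fun hh => hp hh.1)]
            rw [this, mul_zero]
        rw [h0]
        split_ifs
        · positivity
        · exact le_rfl
    · rw [if_neg h]
      split_ifs
      · positivity
      · exact le_rfl
  refine (Finset.sum_le_sum h1).trans ?_
  rw [← Finset.sum_filter, Finset.sum_const, nsmul_eq_mul, mul_comm]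
  refine mul_le_mul_of_nonneg_left ?_ (by positivity)
  unfold gg
  have : (Finset.filter (fun m => m ∈ (Finset.range (n + 1)).filter
      (fun p => Nat.Prime p ∧ Nat.Prime (n - p))) (Icc 1 X)).card ≤
      ((Finset.range (n + 1)).filter (fun p => Nat.Prime p ∧ Nat.Prime (n - p))).card := by
    apply Finset.card_le_card
    intro m hm
    exact (Finset.mem_filter.mp hm).2
  exact_mod_cast this

theorem cv_sub_add (X : ℕ) (f g : ℕ → ℝ) (n : ℕ) :
    cv X (fun m => f m - g m) (fun m => f m + g m) n = cv X f f n - cv X g g n := by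
  unfold cv
  have hsymm : ∑ m ∈ Icc 1 X, ∑ k ∈ Icc 1 X, (if m + k = n then f m * g k else 0) =
      ∑ m ∈ Icc 1 X, ∑ k ∈ Icc 1 X, (if m + k = n then g m * f k else 0) := by
    rw [Finset.sum_comm]
    refine Finset.sum_congr rfl fun k _ => Finset.sum_congr rfl fun m _ => ?_
    by_cases h : m + k = n
    · rw [if_pos h, if_pos (by omega)]; ring
    · rw [if_neg h, if_neg (by omega)]
  have h1 : ∑ m ∈ Icc 1 X, ∑ k ∈ Icc 1 X, (if m + k = n then (f m - g m) * (f k + g k) else 0) =
      (∑ m ∈ Icc 1 X, ∑ k ∈ Icc 1 X, (if m + k = n then f m * f k else 0)) +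
      (∑ m ∈ Icc 1 X, ∑ k ∈ Icc 1 X, (if m + k = n then f m * g k else 0)) -
      (∑ m ∈ Icc 1 X, ∑ k ∈ Icc 1 X, (if m + k = n then g m * f k else 0)) -
      (∑ m ∈ Icc 1 X, ∑ k ∈ Icc 1 X, (if m + k = n then g m * g k else 0)) := by
    rw [← Finset.sum_add_distrib, ← Finset.sum_sub_distrib, ← Finset.sum_sub_distrib]
    refine Finset.sum_congr rfl fun m _ => ?_
    rw [← Finset.sum_add_distrib, ← Finset.sum_sub_distrib, ← Finset.sum_sub_distrib]
    refine Finset.sum_congr rfl fun k _ => ?_
    by_cases h : m + k = n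
    · simp only [if_pos h]; ring
    · simp only [if_neg h]; ring
  rw [h1, hsymm]
  ring

theorem UH_eq (W X : ℕ) (θ : ℝ) : UH W X θ = Se X (fun m => la X m - lw W X m) θ := by
  unfold UH LH WH Se
  rw [← Finset.sum_sub_distrib]
  refine Finset.sum_congr rfl fun n _ => ?_
  push_cast
  ring

theorem VH_eq (W X : ℕ) (θ : ℝ) : VH W X θ = Se X (fun m => la X m + lw W X m) θ := by
  unfold VH LH WH Se
  rw [← Finset.sum_add_distrib]
  refine Finset.sum_congr rfl fun n _ => ?_
  push_cast
  ring

private theorem sum_la_theta (X : ℕ) : ∑ n ∈ Icc 1 X, la X n = Chebyshev.theta X := by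
  rw [Chebyshev.theta, Nat.floor_natCast, Finset.sum_filter]
  refine Finset.sum_congr (by ext n; simp [Finset.mem_Icc, Finset.mem_Ioc, Nat.succ_le_iff]) ?_
  intro n hn
  unfold la
  by_cases h : n.Prime
  · rw [if_pos ⟨h, (Finset.mem_Ioc.mp hn).2⟩, if_pos h]
  · rw [if_neg (fun hh => h hh.1), if_neg h]

theorem sum_la_le (X : ℕ) : ∑ n ∈ Icc 1 X, la X n ≤ 2 * X := by
  rw [sum_la_theta]
  refine (Chebyshev.theta_le_log4_mul_x (Nat.cast_nonneg X)).trans ?_
  refine mul_le_mul_of_nonneg_right ?_ (Nat.cast_nonneg X)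
  have h1 : Real.log 4 = 2 * Real.log 2 := by
    rw [show (4 : ℝ) = 2 ^ 2 by norm_num, Real.log_pow]; norm_num
  rw [h1]
  have := Real.log_two_lt_d9
  linarith

theorem sum_la_sq_le (X : ℕ) : ∑ n ∈ Icc 1 X, la X n ^ 2 ≤ 2 * X * Real.log X := by
  have h1 : ∀ n ∈ Icc 1 X, la X n ^ 2 ≤ la X n * Real.log X := by
    intro n hn
    rw [pow_two]
    refine mul_le_mul_of_nonneg_left ?_ (la_nonneg X n)
    unfold la
    split_ifs with h
    · exact Real.log_le_log (by exact_mod_cast h.1.pos) (by exact_mod_cast h.2)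
    · exact Real.log_natCast_nonneg X
  refine (Finset.sum_le_sum h1).trans ?_
  rw [← Finset.sum_mul]
  exact mul_le_mul_of_nonneg_right (sum_la_le X) (Real.log_natCast_nonneg X)

theorem norm_LH_le (X : ℕ) (θ : ℝ) : ‖LH X θ‖ ≤ 2 * X := by
  unfold LH Se
  refine (norm_sum_le _ _).trans (le_trans (le_of_eq ?_) (sum_la_le X))
  refine Finset.sum_congr rfl fun n _ => ?_
  rw [norm_mul, norm_ee, mul_one, Complex.norm_real, Real.norm_eq_abs, abs_of_nonneg (la_nonneg X n)]

end Pool.MP_dd84fd_nt.L2G
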