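import Pool.Agent.Lib.MP_dd84fd_nt.L2G.ChDefs
import Pool.Agent.Lib.MP_dd84fd_nt.L2G.Avg
import Pool.Agent.Lib.MP_dd84fd_nt.L2G.CvBasic

set_option autoImplicit false

namespace Pool.MP_dd84fd_nt.L2G

open Finset Pool.MP_67663b_nt.Odd

private theorem ClassAlg_fz (X q : ℕ) (f : ℕ → ℝ) (θ : ℝ) (b : ZMod q) :
    fz X q f θ b = ∑ n ∈ Icc 1 X, if (n : ZMod q) = b then (f n : ℂ) * ee (n * θ) else 0 := by
  unfold fz
  rw [Finset.sum_filter]

theorem Fz_eq (X q : ℕ) [NeZero q] (f : ℕ → ℝ) (θ : ℝ) (a : ZMod q) :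
    Fz X q f θ a = ∑ b : ZMod q, fz X q f θ b * fz X q f θ (a - b) := by
  have hL : Fz X q f θ a = ∑ m ∈ Icc 1 X, ∑ k ∈ Icc 1 X,
      if (m : ZMod q) + (k : ZMod q) = a then
        ((f m : ℂ) * ee (m * θ)) * ((f k : ℂ) * ee (k * θ)) else 0 := by
    unfold Fz cv
    have h1 : ∀ n ∈ (range (2 * X + 1)).filter (fun n : ℕ => (n : ZMod q) = a),
        ((∑ m ∈ Icc 1 X, ∑ k ∈ Icc 1 X, if m + k = n then f m * f k else 0 : ℝ) : ℂ) *
          ee (n * θ) = ∑ m ∈ Icc 1 X, ∑ k ∈ Icc 1 X, if m + k = n then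
            ((f m : ℂ) * ee (m * θ)) * ((f k : ℂ) * ee (k * θ)) else 0 := by
      intro n _
      push_cast
      rw [Finset.sum_mul]
      refine Finset.sum_congr rfl fun m _ => ?_
      rw [Finset.sum_mul]
      refine Finset.sum_congr rfl fun k _ => ?_
      by_cases h : m + k = n
      · rw [if_pos h, if_pos h]
        have h2 : ee ((n : ℝ) * θ) = ee (m * θ) * ee (k * θ) := by
          rw [← ee_add, ← h]
          congr 1
          push_cast
          ring
        rw [h2]
        push_cast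
        ring
      · rw [if_neg h, if_neg h]
        simp
    rw [Finset.sum_congr rfl h1, Finset.sum_comm]
    refine Finset.sum_congr rfl fun m hm => ?_
    rw [Finset.sum_comm]
    refine Finset.sum_congr rfl fun k hk => ?_
    rw [Finset.sum_ite_eq]
    rw [Finset.mem_Icc] at hm hk
    have h3 : m + k ∈ (range (2 * X + 1)).filter (fun n : ℕ => (n : ZMod q) = a) ↔
        (m : ZMod q) + (k : ZMod q) = a := by
      rw [Finset.mem_filter, Finset.mem_range]
      push_cast
      constructor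
      · exact fun h => h.2
      · exact fun h => ⟨by omega, h⟩
    by_cases h : (m : ZMod q) + (k : ZMod q) = a
    · rw [if_pos h, if_pos (h3.2 h)]
    · rw [if_neg h, if_neg (fun h4 => h (h3.1 h4))]
  rw [hL]
  have hR : ∀ b : ZMod q, fz X q f θ b * fz X q f θ (a - b) =
      ∑ m ∈ Icc 1 X, ∑ k ∈ Icc 1 X, if (m : ZMod q) = b then
        (if (m : ZMod q) + (k : ZMod q) = a then
        ((f m : ℂ) * ee (m * θ)) * ((f k : ℂ) * ee (k * θ)) else 0) else 0 := by
    intro b
    rw [ClassAlg_fz, ClassAlg_fz, Finset.sum_mul_sum]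
    refine Finset.sum_congr rfl fun m _ => Finset.sum_congr rfl fun k _ => ?_
    by_cases h1 : (m : ZMod q) = b
    · rw [if_pos h1, if_pos h1]
      by_cases h2 : (m : ZMod q) + (k : ZMod q) = a
      · rw [if_pos h2, if_pos (by rw [← h1, ← h2]; ring)]
      · rw [if_neg h2, if_neg (fun h3 => h2 (by rw [h3, h1]; ring)), mul_zero]
    · rw [if_neg h1, if_neg h1, zero_mul]
  rw [Finset.sum_congr rfl fun b _ => hR b]
  symm
  rw [Finset.sum_comm]
  refine Finset.sum_congr rfl fun m _ => ?_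
  rw [Finset.sum_comm]
  refine Finset.sum_congr rfl fun k _ => ?_
  rw [Finset.sum_ite_eq]
  simp

theorem Fz_le_VA (X q : ℕ) [NeZero q] (f : ℕ → ℝ) (θ : ℝ) (a : ZMod q) :
    ‖Fz X q f θ a‖ ≤ VA X q f θ := by
  rw [Fz_eq]
  have h1 : ∑ b : ZMod q, ‖fz X q f θ (a - b)‖ ^ 2 = VA X q f θ := by
    unfold VA
    exact Fintype.sum_equiv (Equiv.subLeft a) _ _ fun b => rfl
  calc ‖∑ b : ZMod q, fz X q f θ b * fz X q f θ (a - b)‖
      ≤ ∑ b : ZMod q, ‖fz X q f θ b * fz X q f θ (a - b)‖ := norm_sum_le _ _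
    _ ≤ ∑ b : ZMod q, (‖fz X q f θ b‖ ^ 2 + ‖fz X q f θ (a - b)‖ ^ 2) / 2 := by
        refine Finset.sum_le_sum fun b _ => ?_
        rw [norm_mul]
        nlinarith [sq_nonneg (‖fz X q f θ b‖ - ‖fz X q f θ (a - b)‖)]
    _ = VA X q f θ := by
        rw [← Finset.sum_div, Finset.sum_add_distrib, h1]
        unfold VA
        ring

private theorem ClassAlg_fiber (X q : ℕ) [NeZero q] (g : ℕ → ℝ) :
    ∑ b : ZMod q, ∑ n ∈ (Icc 1 X).filter (fun n : ℕ => (n : ZMod q) = b), g n =
      ∑ n ∈ Icc 1 X, g n :=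
  Finset.sum_fiberwise (Icc 1 X) (fun n : ℕ => (n : ZMod q)) g

theorem av_VA (X q : ℕ) [NeZero q] (f : ℕ → ℝ) :
    av (gr X) (fun θ => VA X q f θ) = ∑ n ∈ Icc 1 X, f n ^ 2 := by
  unfold VA
  rw [av_sum, ← ClassAlg_fiber X q (fun n => f n ^ 2)]
  refine Finset.sum_congr rfl fun b _ => ?_
  have h := parseval (N := gr X) ((Icc 1 X).filter (fun n : ℕ => (n : ZMod q) = b)) (fun n hn => by
    have h1 := (Finset.mem_Icc.1 (Finset.mem_filter.1 hn).1).2
    have h2 := lt_gr X
    omega) (fun n => (f n : ℂ))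
  unfold fz
  rw [h]
  refine Finset.sum_congr rfl fun n _ => ?_
  rw [Complex.norm_real, Real.norm_eq_abs, sq_abs]

private theorem ClassAlg_norm_fz (X q : ℕ) (f : ℕ → ℝ) (θ : ℝ) (b : ZMod q) :
    ‖fz X q f θ b‖ ≤ ∑ n ∈ (Icc 1 X).filter (fun n : ℕ => (n : ZMod q) = b), |f n| := by
  unfold fz
  refine (norm_sum_le _ _).trans (le_of_eq (Finset.sum_congr rfl fun n _ => ?_))
  rw [norm_mul, norm_ee, mul_one, Complex.norm_real, Real.norm_eq_abs]

private theorem ClassAlg_la_nonneg (X n : ℕ) : 0 ≤ la X n := by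
  unfold la
  split_ifs
  · exact Real.log_natCast_nonneg n
  · exact le_rfl

private theorem ClassAlg_sum_log (q : ℕ) (hq : q ≠ 0) :
    ∑ p ∈ q.primeFactors, Real.log p ≤ Real.log q := by
  have h1 : ∑ p ∈ q.primeFactors, Real.log p = Real.log ((∏ p ∈ q.primeFactors, p : ℕ) : ℝ) := by
    push_cast
    rw [Real.log_prod]
    intro p hp
    exact_mod_cast (Nat.prime_of_mem_primeFactors hp).ne_zero
  rw [h1]
  refine Real.log_le_log ?_ ?_
  · exact_mod_cast Finset.prod_pos fun p hp => (Nat.prime_of_mem_primeFactors hp).pos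
  · exact_mod_cast Nat.le_of_dvd (Nat.pos_of_ne_zero hq) (Nat.prod_primeFactors_dvd q)

theorem VA_la_le (X q : ℕ) [NeZero q] (θ : ℝ) :
    VA X q (la X) θ ≤ VQ X q (la X) θ + Real.log q ^ 2 := by
  classical
  have hq : q ≠ 0 := NeZero.ne q
  have hqpos : 0 < q := Nat.pos_of_ne_zero hq
  have hsplit : VA X q (la X) θ =
      ∑ b ∈ univ.filter (fun b : ZMod q => IsUnit b), ‖fz X q (la X) θ b‖ ^ 2 +
      ∑ b ∈ univ.filter (fun b : ZMod q => ¬ IsUnit b), ‖fz X q (la X) θ b‖ ^ 2 := by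
    unfold VA
    rw [Finset.sum_filter_add_sum_filter_not]
  have hunit : ∑ b ∈ univ.filter (fun b : ZMod q => IsUnit b), ‖fz X q (la X) θ b‖ ^ 2 =
      VQ X q (la X) θ := by
    unfold VQ
    refine Finset.sum_bij (fun b _ => ZMod.val b) ?_ ?_ ?_ ?_
    · intro b hb
      rw [Finset.mem_filter] at hb
      rw [Finset.mem_filter, Finset.mem_range]
      refine ⟨ZMod.val_lt b, ?_⟩
      have h1 := hb.2
      rw [← ZMod.natCast_zmod_val b, ZMod.isUnit_iff_coprime] at h1
      exact h1.symm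
    · intro b _ c _ h
      exact ZMod.val_injective q h
    · intro k hk
      rw [Finset.mem_filter, Finset.mem_range] at hk
      refine ⟨(k : ZMod q), ?_, ZMod.val_cast_of_lt hk.1⟩
      rw [Finset.mem_filter]
      exact ⟨Finset.mem_univ _, (ZMod.isUnit_iff_coprime k q).2 hk.2.symm⟩
    · intro b _
      unfold fz
      congr 2
      refine Finset.sum_congr ?_ fun _ _ => rfl
      ext n
      rw [Finset.mem_filter, Finset.mem_filter]
      refine and_congr_right fun _ => ?_
      constructor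
      · intro h
        rw [← h, ZMod.val_natCast]
      · intro h
        rw [← ZMod.natCast_zmod_val b, ← h, ZMod.natCast_mod]
  have hnon : ∑ b ∈ univ.filter (fun b : ZMod q => ¬ IsUnit b), ‖fz X q (la X) θ b‖ ^ 2 ≤
      Real.log q ^ 2 := by
    have h1 : ∑ b ∈ univ.filter (fun b : ZMod q => ¬ IsUnit b), ‖fz X q (la X) θ b‖ ^ 2 ≤
        (∑ b ∈ univ.filter (fun b : ZMod q => ¬ IsUnit b), ‖fz X q (la X) θ b‖) ^ 2 :=
      Finset.sum_sq_le_sq_sum_of_nonneg fun _ _ => norm_nonneg _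
    have h2 : ∑ b ∈ univ.filter (fun b : ZMod q => ¬ IsUnit b), ‖fz X q (la X) θ b‖ ≤
        Real.log q := by
      calc ∑ b ∈ univ.filter (fun b : ZMod q => ¬ IsUnit b), ‖fz X q (la X) θ b‖
          ≤ ∑ b ∈ univ.filter (fun b : ZMod q => ¬ IsUnit b),
            ∑ n ∈ (Icc 1 X).filter (fun n : ℕ => (n : ZMod q) = b),
              (if n ∈ q.primeFactors then Real.log n else 0) := by
            refine Finset.sum_le_sum fun b hb => ?_
            refine (ClassAlg_norm_fz X q (la X) θ b).trans (Finset.sum_le_sum fun n hn => ?_)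
            rw [abs_of_nonneg (ClassAlg_la_nonneg X n)]
            rw [Finset.mem_filter] at hb hn
            unfold la
            by_cases hp : n.Prime ∧ n ≤ X
            · rw [if_pos hp]
              have h3 : n ∈ q.primeFactors := by
                rw [Nat.mem_primeFactors]
                refine ⟨hp.1, ?_, hq⟩
                by_contra h4
                apply hb.2
                rw [← hn.2, ZMod.isUnit_iff_coprime]
                exact (Nat.Prime.coprime_iff_not_dvd hp.1).2 h4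
              rw [if_pos h3]
            · rw [if_neg hp]
              split_ifs
              · exact Real.log_natCast_nonneg n
              · exact le_rfl
        _ ≤ ∑ b : ZMod q, ∑ n ∈ (Icc 1 X).filter (fun n : ℕ => (n : ZMod q) = b),
              (if n ∈ q.primeFactors then Real.log n else 0) := by
            refine Finset.sum_le_sum_of_subset_of_nonneg (Finset.filter_subset _ _) ?_
            intro b _ _
            refine Finset.sum_nonneg fun n _ => ?_
            split_ifs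
            · exact Real.log_natCast_nonneg n
            · exact le_rfl
        _ = ∑ n ∈ Icc 1 X, (if n ∈ q.primeFactors then Real.log n else 0) :=
            ClassAlg_fiber X q _
        _ = ∑ n ∈ (Icc 1 X).filter (fun n => n ∈ q.primeFactors), Real.log n := by
            rw [Finset.sum_filter]
        _ ≤ ∑ n ∈ q.primeFactors, Real.log n := by
            refine Finset.sum_le_sum_of_subset_of_nonneg ?_ fun n _ _ => Real.log_natCast_nonneg n
            intro n hn
            exact (Finset.mem_filter.1 hn).2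
        _ ≤ Real.log q := ClassAlg_sum_log q hq
    refine h1.trans ?_
    exact pow_le_pow_left₀ (Finset.sum_nonneg fun _ _ => norm_nonneg _) h2 2
  rw [hsplit, hunit]
  linarith

private theorem ClassAlg_card (X q : ℕ) [NeZero q] (b : ZMod q) :
    (((Icc 1 X).filter (fun n : ℕ => (n : ZMod q) = b)).card : ℝ) ≤ (X : ℝ) / q + 1 := by
  have hqpos : 0 < q := Nat.pos_of_ne_zero (NeZero.ne q)
  have h1 : ((Icc 1 X).filter (fun n : ℕ => (n : ZMod q) = b)).card ≤ (range (X / q + 1)).card := by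
    refine Finset.card_le_card_of_injOn (fun n => n / q) ?_ ?_
    · intro n hn
      rw [Finset.mem_coe, Finset.mem_filter, Finset.mem_Icc] at hn
      rw [Finset.mem_coe, Finset.mem_range]
      exact Nat.lt_succ_of_le (Nat.div_le_div_right hn.1.2)
    · intro n hn m hm h
      rw [Finset.mem_coe, Finset.mem_filter] at hn hm
      have h2 : (n : ZMod q) = (m : ZMod q) := hn.2.trans hm.2.symm
      rw [ZMod.natCast_eq_natCast_iff'] at h2
      have h3 : n / q = m / q := h
      rw [← Nat.div_add_mod n q, ← Nat.div_add_mod m q, h2, h3]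
  rw [Finset.card_range] at h1
  have h2 : ((X / q : ℕ) : ℝ) ≤ (X : ℝ) / q := Nat.cast_div_le
  have h3 : (((Icc 1 X).filter (fun n : ℕ => (n : ZMod q) = b)).card : ℝ) ≤
      ((X / q + 1 : ℕ) : ℝ) := by exact_mod_cast h1
  push_cast at h3
  linarith

theorem VA_trivial (X q : ℕ) [NeZero q] (f : ℕ → ℝ) (θ : ℝ) :
    VA X q f θ ≤ ((X : ℝ) / q + 1) * ∑ n ∈ Icc 1 X, f n ^ 2 := by
  rw [← ClassAlg_fiber X q (fun n => f n ^ 2), Finset.mul_sum]
  unfold VA
  refine Finset.sum_le_sum fun b _ => ?_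
  calc ‖fz X q f θ b‖ ^ 2 ≤
      (∑ n ∈ (Icc 1 X).filter (fun n : ℕ => (n : ZMod q) = b), |f n|) ^ 2 :=
        pow_le_pow_left₀ (norm_nonneg _) (ClassAlg_norm_fz X q f θ b) 2
    _ ≤ (((Icc 1 X).filter (fun n : ℕ => (n : ZMod q) = b)).card : ℝ) *
        ∑ n ∈ (Icc 1 X).filter (fun n : ℕ => (n : ZMod q) = b), |f n| ^ 2 :=
        sq_sum_le_card_mul_sum_sq
    _ = (((Icc 1 X).filter (fun n : ℕ => (n : ZMod q) = b)).card : ℝ) *
        ∑ n ∈ (Icc 1 X).filter (fun n : ℕ => (n : ZMod q) = b), f n ^ 2 := by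
        congr 1
        exact Finset.sum_congr rfl fun n _ => sq_abs _
    _ ≤ ((X : ℝ) / q + 1) *
        ∑ n ∈ (Icc 1 X).filter (fun n : ℕ => (n : ZMod q) = b), f n ^ 2 :=
        mul_le_mul_of_nonneg_right (ClassAlg_card X q b) (Finset.sum_nonneg fun n _ => sq_nonneg _)

end Pool.MP_dd84fd_nt.L2G
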