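import Pool.Agent.Lib.MP_dd84fd_nt.L2G.MinSum

set_option autoImplicit false

namespace Pool.MP_dd84fd_nt.L2G

open Finset Pool.MP_67663b_nt.Odd

/-- Plancherel for the residue classes -/
private theorem aii_T (q : ℕ) (hq : 1 ≤ q) (s : Finset ℕ) (w : ℕ → ℂ) :
    ((∑ c ∈ range q, ‖∑ k ∈ s, if k % q = c then w k else 0‖ ^ 2 : ℝ) : ℂ) =
      ∑ k1 ∈ s, ∑ k2 ∈ s, if k1 % q = k2 % q then w k1 * (starRingEnd ℂ) (w k2) else 0 := by
  push_cast
  have h1 : ∀ c ∈ range q, ((‖∑ k ∈ s, if k % q = c then w k else 0‖ : ℂ)) ^ 2 =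
      ∑ k1 ∈ s, ∑ k2 ∈ s, (if k1 % q = c then w k1 else 0) *
        (starRingEnd ℂ) (if k2 % q = c then w k2 else 0) := by
    intro c _
    rw [← Complex.mul_conj', map_sum, sum_mul_sum]
  rw [sum_congr rfl h1, sum_comm]
  apply sum_congr rfl
  intro k1 _
  rw [sum_comm]
  apply sum_congr rfl
  intro k2 _
  rw [sum_eq_single (k1 % q)]
  · by_cases h : k1 % q = k2 % q
    · rw [if_pos rfl, if_pos h.symm, if_pos h]
    · rw [if_neg (fun h' : k2 % q = k1 % q => h h'.symm), if_neg h, map_zero, mul_zero]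
  · intro c _ hc
    rw [if_neg (fun h' : k1 % q = c => hc h'.symm), zero_mul]
  · intro h
    exact absurd (mem_range.2 (Nat.mod_lt _ hq)) h

/-- change of the residue class -/
private theorem aii_class (q : ℕ) (hq : 1 ≤ q) (s : Finset ℕ) (m : ℕ) (w : ℕ → ℂ) :
    ∑ b ∈ (range q).filter (Nat.Coprime q), ‖∑ k ∈ s, if (m * k) % q = b then w k else 0‖ ^ 2 ≤
      ∑ c ∈ range q, ‖∑ k ∈ s, if k % q = c then w k else 0‖ ^ 2 := by
  by_cases hm : Nat.Coprime m q
  · have hinj : Set.InjOn (fun c => (m * c) % q) ((range q : Finset ℕ) : Set ℕ) := by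
      intro a ha b hb hab
      rw [mem_coe, mem_range] at ha hb
      have h1 : m * a ≡ m * b [MOD q] := hab
      have h2 : a ≡ b [MOD q] :=
        Nat.ModEq.cancel_left_of_coprime (Nat.coprime_comm.1 hm) h1
      exact Nat.ModEq.eq_of_lt_of_lt h2 ha hb
    have himg : (range q).image (fun c => (m * c) % q) = range q := by
      apply eq_of_subset_of_card_le
      · intro b hb
        rw [mem_image] at hb
        obtain ⟨c, _, rfl⟩ := hb
        exact mem_range.2 (Nat.mod_lt _ hq)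
      · rw [card_image_of_injOn hinj]
    calc ∑ b ∈ (range q).filter (Nat.Coprime q),
          ‖∑ k ∈ s, if (m * k) % q = b then w k else 0‖ ^ 2 ≤
        ∑ b ∈ range q, ‖∑ k ∈ s, if (m * k) % q = b then w k else 0‖ ^ 2 :=
          sum_le_sum_of_subset_of_nonneg (filter_subset _ _) (fun _ _ _ => by positivity)
      _ = ∑ b ∈ (range q).image (fun c => (m * c) % q),
          ‖∑ k ∈ s, if (m * k) % q = b then w k else 0‖ ^ 2 := by rw [himg]
      _ = ∑ c ∈ range q, ‖∑ k ∈ s, if (m * k) % q = (m * c) % q then w k else 0‖ ^ 2 :=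
          sum_image hinj
      _ = _ := by
          apply sum_congr rfl
          intro c hc
          rw [mem_range] at hc
          have h3 : ∀ k : ℕ, ((m * k) % q = (m * c) % q) ↔ (k % q = c) := by
            intro k
            constructor
            · intro h
              have h2 : k ≡ c [MOD q] :=
                Nat.ModEq.cancel_left_of_coprime (Nat.coprime_comm.1 hm) h
              have h4 : k % q = c % q := h2
              rwa [Nat.mod_eq_of_lt hc] at h4
            · intro h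
              have h2 : k ≡ c [MOD q] := by
                show k % q = c % q
                rw [Nat.mod_eq_of_lt hc, h]
              exact h2.mul_left m
          simp only [h3]
  · have h0 : ∑ b ∈ (range q).filter (Nat.Coprime q),
        ‖∑ k ∈ s, if (m * k) % q = b then w k else 0‖ ^ 2 = 0 := by
      apply sum_eq_zero
      intro b hb
      rw [mem_filter] at hb
      have : ∑ k ∈ s, (if (m * k) % q = b then w k else 0) = 0 := by
        apply sum_eq_zero
        intro k _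
        rw [if_neg]
        intro h
        apply hm
        have h1 : Nat.Coprime q (m * k) := by
          have h2 : Nat.gcd ((m * k) % q) q = Nat.gcd (m * k) q := (Nat.mod_modEq (m * k) q).gcd_eq
          rw [Nat.coprime_comm]
          unfold Nat.Coprime
          rw [← h2, h]
          exact Nat.coprime_comm.1 hb.2
        exact (Nat.Coprime.coprime_dvd_right (dvd_mul_right m k) h1).symm
      rw [this]
      simp
    rw [h0]
    exact sum_nonneg (fun _ _ => by positivity)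

private theorem aii_nrm_neg (x : ℝ) : nrm (-x) = nrm x := by
  unfold nrm
  have h1 : |(-x) - round (-x)| ≤ |(-x) - ((-round x : ℤ) : ℝ)| := round_le (-x) (-round x)
  have h2 : |x - round x| ≤ |x - ((-round (-x) : ℤ) : ℝ)| := round_le x (-round (-x))
  have h3 : |(-x) - ((-round x : ℤ) : ℝ)| = |x - round x| := by
    rw [← abs_neg]
    congr 1
    push_cast
    ring
  have h4 : |x - ((-round (-x) : ℤ) : ℝ)| = |(-x) - round (-x)| := by
    rw [← abs_neg]
    congr 1
    push_cast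
    ring
  rw [h3] at h1
  rw [h4] at h2
  exact le_antisymm h1 h2

private theorem aii_mn_neg (M x : ℝ) : mn M (-x) = mn M x := by
  unfold mn
  rw [aii_nrm_neg]

private theorem aii_tri (s : Finset ℕ) (k1 : ℕ) (f : ℕ → ℝ) :
    ∑ k2 ∈ s, f k2 = ∑ k2 ∈ s.filter (fun k2 => k2 < k1), f k2 +
      (∑ k2 ∈ s.filter (fun k2 => k2 = k1), f k2 +
      ∑ k2 ∈ s.filter (fun k2 => k1 < k2), f k2) := by
  rw [sum_filter, sum_filter, sum_filter, ← sum_add_distrib, ← sum_add_distrib]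
  apply sum_congr rfl
  intro k2 _
  rcases lt_trichotomy k2 k1 with h | h | h
  · rw [if_pos h, if_neg h.ne, if_neg h.not_gt]
    ring
  · rw [if_neg (by omega), if_pos h, if_neg (by omega)]
    ring
  · rw [if_neg h.not_gt, if_neg h.ne', if_pos h]
    ring

/-- the sum over one residue class -/
private theorem aii_row (q K : ℕ) (hq : 1 ≤ q) (M θ : ℝ) (hM : 0 ≤ M) (k1 : ℕ) (hK : k1 ≤ K) :
    ∑ k2 ∈ Icc 1 K, (if k1 % q = k2 % q then mn M (((k1 : ℝ) - k2) * θ) else 0) ≤
      M + 2 * ∑ l ∈ Icc 1 (K / q), mn M (l * (q * θ)) := by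
  rw [← sum_filter]
  set s := (Icc 1 K).filter (fun k2 => k1 % q = k2 % q) with hs
  -- the part to the left needs `l q < k1`, treat it directly
  have hleft : ∑ k2 ∈ s.filter (fun k2 => k2 < k1), mn M (((k1 : ℝ) - k2) * θ) ≤
      ∑ l ∈ Icc 1 (K / q), mn M (l * (q * θ)) := by
    have hmap : ∀ k2 ∈ s.filter (fun k2 => k2 < k1), (k1 - k2) / q ∈ Icc 1 (K / q) ∧
        (k1 - k2) / q * q = k1 - k2 := by
      intro k2 hk2
      rw [mem_filter, hs, mem_filter, mem_Icc] at hk2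
      obtain ⟨⟨⟨h1, h2⟩, h3⟩, h5⟩ := hk2
      have h4 : q ∣ k1 - k2 := (Nat.modEq_iff_dvd' h5.le).1 h3.symm
      refine ⟨?_, Nat.div_mul_cancel h4⟩
      rw [mem_Icc]
      refine ⟨Nat.div_pos (Nat.le_of_dvd (by omega) h4) hq, Nat.div_le_div_right (by omega)⟩
    calc ∑ k2 ∈ s.filter (fun k2 => k2 < k1), mn M (((k1 : ℝ) - k2) * θ) =
        ∑ k2 ∈ s.filter (fun k2 => k2 < k1), (fun l : ℕ => mn M (l * (q * θ))) ((k1 - k2) / q) := by
          apply sum_congr rfl
          intro k2 hk2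
          have h1 := (hmap k2 hk2).2
          rw [mem_filter] at hk2
          have h2 : (((k1 - k2) / q : ℕ) : ℝ) * q = (k1 : ℝ) - k2 := by
            rw [← Nat.cast_mul, h1, Nat.cast_sub hk2.2.le]
          simp only
          rw [← h2, mul_assoc]
      _ = ∑ l ∈ (s.filter (fun k2 => k2 < k1)).image (fun k2 => (k1 - k2) / q),
            mn M (l * (q * θ)) := by
          rw [sum_image]
          intro a ha b hb hab
          have h1 := (hmap a ha).2
          have h2 := (hmap b hb).2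
          simp only at hab
          rw [hab, h2] at h1
          rw [mem_coe, mem_filter] at ha hb
          omega
      _ ≤ _ := by
          apply sum_le_sum_of_subset_of_nonneg
          · intro l hl
            rw [mem_image] at hl
            obtain ⟨k2, hk2, rfl⟩ := hl
            exact (hmap k2 hk2).1
          · intro l _ _
            exact mn_nonneg M _ hM
  have hright : ∑ k2 ∈ s.filter (fun k2 => k1 < k2), mn M (((k1 : ℝ) - k2) * θ) ≤
      ∑ l ∈ Icc 1 (K / q), mn M (l * (q * θ)) := by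
    have hmap : ∀ k2 ∈ s.filter (fun k2 => k1 < k2), (k2 - k1) / q ∈ Icc 1 (K / q) ∧
        (k2 - k1) / q * q = k2 - k1 := by
      intro k2 hk2
      rw [mem_filter, hs, mem_filter, mem_Icc] at hk2
      obtain ⟨⟨⟨h1, h2⟩, h3⟩, h5⟩ := hk2
      have h4 : q ∣ k2 - k1 := (Nat.modEq_iff_dvd' h5.le).1 h3
      refine ⟨?_, Nat.div_mul_cancel h4⟩
      rw [mem_Icc]
      refine ⟨Nat.div_pos (Nat.le_of_dvd (by omega) h4) hq, Nat.div_le_div_right (by omega)⟩
    calc ∑ k2 ∈ s.filter (fun k2 => k1 < k2), mn M (((k1 : ℝ) - k2) * θ) =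
        ∑ k2 ∈ s.filter (fun k2 => k1 < k2), (fun l : ℕ => mn M (l * (q * θ))) ((k2 - k1) / q) := by
          apply sum_congr rfl
          intro k2 hk2
          have h1 := (hmap k2 hk2).2
          rw [mem_filter] at hk2
          have h2 : (((k2 - k1) / q : ℕ) : ℝ) * q = (k2 : ℝ) - k1 := by
            rw [← Nat.cast_mul, h1, Nat.cast_sub hk2.2.le]
          simp only
          rw [← mul_assoc, h2, ← aii_mn_neg]
          congr 1
          ring
      _ = ∑ l ∈ (s.filter (fun k2 => k1 < k2)).image (fun k2 => (k2 - k1) / q),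
            mn M (l * (q * θ)) := by
          rw [sum_image]
          intro a ha b hb hab
          have h1 := (hmap a ha).2
          have h2 := (hmap b hb).2
          simp only at hab
          rw [hab, h2] at h1
          rw [mem_coe, mem_filter] at ha hb
          omega
      _ ≤ _ := by
          apply sum_le_sum_of_subset_of_nonneg
          · intro l hl
            rw [mem_image] at hl
            obtain ⟨k2, hk2, rfl⟩ := hl
            exact (hmap k2 hk2).1
          · intro l _ _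
            exact mn_nonneg M _ hM
  have hmid : ∑ k2 ∈ s.filter (fun k2 => k2 = k1), mn M (((k1 : ℝ) - k2) * θ) ≤ M := by
    calc ∑ k2 ∈ s.filter (fun k2 => k2 = k1), mn M (((k1 : ℝ) - k2) * θ) ≤
        ∑ _k2 ∈ s.filter (fun k2 => k2 = k1), M := sum_le_sum (fun k2 _ => mn_le M _ hM)
      _ = ((s.filter (fun k2 => k2 = k1)).card : ℝ) * M := by rw [sum_const, nsmul_eq_mul]
      _ ≤ 1 * M := by
          apply mul_le_mul_of_nonneg_right _ hM
          have : (s.filter (fun k2 => k2 = k1)).card ≤ 1 := by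
            apply card_le_one.2
            intro a ha b hb
            rw [mem_filter] at ha hb
            rw [ha.2, hb.2]
          exact_mod_cast this
      _ = M := one_mul M
  rw [aii_tri s k1]
  linarith

theorem a_II : ∃ C : ℝ, 0 < C ∧ ∀ (q X M K : ℕ) (α β : ℕ → ℝ) (θ : ℝ) (c : ℤ) (r : ℕ), 1 ≤ q →
    1 ≤ M → 1 ≤ r → IsCoprime c (r : ℤ) → |q * θ - c / r| ≤ 1 / (r : ℝ) ^ 2 →
    ∑ b ∈ (range q).filter (Nat.Coprime q),
      ‖∑ m ∈ Icc 1 M, ∑ k ∈ Icc 1 K, if m * k ≤ X ∧ (m * k) % q = b then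
        ((α m * β k : ℝ) : ℂ) * ee (((m * k : ℕ) : ℝ) * θ) else 0‖ ^ 2 ≤
      C * (∑ m ∈ Icc 1 M, α m ^ 2) * (∑ k ∈ Icc 1 K, β k ^ 2) * ((K : ℝ) / (q * r) + 1) *
        (M + r * (1 + Real.log r)) := by
  obtain ⟨C, hC, hmin⟩ := min_sum
  refine ⟨1 + 2 * C, by positivity, ?_⟩
  intro q X M K α β θ c r hq hM hr hcr hap
  have hM1 : (1 : ℝ) ≤ M := by exact_mod_cast hM
  have hM0 : (0 : ℝ) ≤ M := by linarith
  have hr0 : (0 : ℝ) < r := by exact_mod_cast hr
  have hq0 : (0 : ℝ) < q := by exact_mod_cast hq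
  have hlogr : 0 ≤ Real.log r := Real.log_natCast_nonneg r
  set w : ℕ → ℕ → ℂ := fun m k =>
    if m * k ≤ X then (β k : ℂ) * ee (((m * k : ℕ) : ℝ) * θ) else 0 with hw
  set A := ∑ m ∈ Icc 1 M, α m ^ 2 with hA
  set Bs := ∑ k ∈ Icc 1 K, β k ^ 2 with hBs
  have hA0 : 0 ≤ A := sum_nonneg (fun _ _ => sq_nonneg _)
  have hBs0 : 0 ≤ Bs := sum_nonneg (fun _ _ => sq_nonneg _)
  -- Cauchy
  have h1 : ∀ b ∈ (range q).filter (Nat.Coprime q),
      ‖∑ m ∈ Icc 1 M, ∑ k ∈ Icc 1 K, (if m * k ≤ X ∧ (m * k) % q = b then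
        ((α m * β k : ℝ) : ℂ) * ee (((m * k : ℕ) : ℝ) * θ) else 0)‖ ^ 2 ≤
      A * ∑ m ∈ Icc 1 M, ‖∑ k ∈ Icc 1 K, if (m * k) % q = b then w m k else 0‖ ^ 2 := by
    intro b _
    have h2 : ∑ m ∈ Icc 1 M, ∑ k ∈ Icc 1 K, (if m * k ≤ X ∧ (m * k) % q = b then
        ((α m * β k : ℝ) : ℂ) * ee (((m * k : ℕ) : ℝ) * θ) else 0) =
        ∑ m ∈ Icc 1 M, (α m : ℂ) * ∑ k ∈ Icc 1 K, (if (m * k) % q = b then w m k else 0) := by
      apply sum_congr rfl
      intro m _
      rw [mul_sum]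
      apply sum_congr rfl
      intro k _
      simp only [hw]
      by_cases hX : m * k ≤ X
      · by_cases hb : (m * k) % q = b
        · rw [if_pos ⟨hX, hb⟩, if_pos hb, if_pos hX]
          push_cast
          ring
        · rw [if_neg (fun h : m * k ≤ X ∧ (m * k) % q = b => hb h.2), if_neg hb, mul_zero]
      · rw [if_neg (fun h : m * k ≤ X ∧ (m * k) % q = b => hX h.1), if_neg hX]
        simp
    rw [h2]
    have h3 : ‖∑ m ∈ Icc 1 M, (α m : ℂ) * ∑ k ∈ Icc 1 K,
        (if (m * k) % q = b then w m k else 0)‖ ≤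
        ∑ m ∈ Icc 1 M, |α m| * ‖∑ k ∈ Icc 1 K, (if (m * k) % q = b then w m k else 0)‖ := by
      refine (norm_sum_le _ _).trans (sum_le_sum (fun m _ => ?_))
      rw [norm_mul, Complex.norm_real, Real.norm_eq_abs]
    calc _ ≤ (∑ m ∈ Icc 1 M, |α m| *
          ‖∑ k ∈ Icc 1 K, (if (m * k) % q = b then w m k else 0)‖) ^ 2 :=
          pow_le_pow_left₀ (norm_nonneg _) h3 2
      _ ≤ (∑ m ∈ Icc 1 M, |α m| ^ 2) *
          ∑ m ∈ Icc 1 M, ‖∑ k ∈ Icc 1 K, if (m * k) % q = b then w m k else 0‖ ^ 2 :=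
          sum_mul_sq_le_sq_mul_sq _ _ _
      _ = _ := by
          simp only [sq_abs]
          rfl
  refine (sum_le_sum h1).trans ?_
  rw [← mul_sum, sum_comm]
  -- change of class
  have h2 : ∑ m ∈ Icc 1 M, ∑ b ∈ (range q).filter (Nat.Coprime q),
      ‖∑ k ∈ Icc 1 K, if (m * k) % q = b then w m k else 0‖ ^ 2 ≤
      ∑ m ∈ Icc 1 M, ∑ c ∈ range q, ‖∑ k ∈ Icc 1 K, if k % q = c then w m k else 0‖ ^ 2 :=
    sum_le_sum (fun m _ => aii_class q hq (Icc 1 K) m (w m))
  -- expansion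
  have hgeo : ∀ k1 ∈ Icc 1 K, ∀ k2 ∈ Icc 1 K,
      ‖∑ m ∈ Icc 1 M, w m k1 * (starRingEnd ℂ) (w m k2)‖ ≤
      |β k1| * |β k2| * mn M (((k1 : ℝ) - k2) * θ) := by
    intro k1 hk1 k2 hk2
    rw [mem_Icc] at hk1 hk2
    have h3 : ∑ m ∈ Icc 1 M, w m k1 * (starRingEnd ℂ) (w m k2) =
        ((β k1 * β k2 : ℝ) : ℂ) * ∑ m ∈ Ioc 0 (min M (min (X / k1) (X / k2))),
          ee ((m : ℝ) * (((k1 : ℝ) - k2) * θ)) := by
      have h4 : Ioc 0 (min M (min (X / k1) (X / k2))) =
          (Icc 1 M).filter (fun m => m * k1 ≤ X ∧ m * k2 ≤ X) := by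
        ext m
        rw [mem_Ioc, mem_filter, mem_Icc, le_min_iff, le_min_iff,
          Nat.le_div_iff_mul_le hk1.1, Nat.le_div_iff_mul_le hk2.1]
        constructor
        · rintro ⟨a, b, c, d⟩
          exact ⟨⟨a, b⟩, c, d⟩
        · rintro ⟨⟨a, b⟩, c, d⟩
          exact ⟨a, b, c, d⟩
      rw [h4, sum_filter, mul_sum]
      apply sum_congr rfl
      intro m _
      simp only [hw]
      by_cases hX1 : m * k1 ≤ X
      · by_cases hX2 : m * k2 ≤ X
        · rw [if_pos hX1, if_pos hX2, if_pos ⟨hX1, hX2⟩, map_mul, conj_ee, Complex.conj_ofReal]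
          have h5 : ee ((m : ℝ) * (((k1 : ℝ) - k2) * θ)) =
              ee (((m * k1 : ℕ) : ℝ) * θ) * ee (-(((m * k2 : ℕ) : ℝ) * θ)) := by
            rw [← ee_add]
            congr 1
            push_cast
            ring
          rw [h5]
          push_cast
          ring
        · rw [if_neg hX2, if_neg (fun h : m * k1 ≤ X ∧ m * k2 ≤ X => hX2 h.2), map_zero,
            mul_zero, mul_zero]
      · rw [if_neg hX1, if_neg (fun h : m * k1 ≤ X ∧ m * k2 ≤ X => hX1 h.1), zero_mul,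
          mul_zero]
    rw [h3, norm_mul, Complex.norm_real, Real.norm_eq_abs, abs_mul]
    apply mul_le_mul_of_nonneg_left _ (by positivity)
    apply geo_sum 0 _ (M : ℝ) _ _ hM0
    rw [Nat.cast_zero, sub_zero]
    exact_mod_cast min_le_left _ _
  have h3 : ∑ m ∈ Icc 1 M, ∑ c ∈ range q,
      ‖∑ k ∈ Icc 1 K, if k % q = c then w m k else 0‖ ^ 2 ≤
      ∑ k1 ∈ Icc 1 K, ∑ k2 ∈ Icc 1 K, if k1 % q = k2 % q then
        |β k1| * |β k2| * mn M (((k1 : ℝ) - k2) * θ) else 0 := by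
    have h4 : ((∑ m ∈ Icc 1 M, ∑ c ∈ range q,
        ‖∑ k ∈ Icc 1 K, if k % q = c then w m k else 0‖ ^ 2 : ℝ) : ℂ) =
        ∑ k1 ∈ Icc 1 K, ∑ k2 ∈ Icc 1 K, if k1 % q = k2 % q then
          ∑ m ∈ Icc 1 M, w m k1 * (starRingEnd ℂ) (w m k2) else 0 := by
      rw [Complex.ofReal_sum]
      rw [sum_congr rfl (fun m _ => aii_T q hq (Icc 1 K) (w m)), sum_comm]
      apply sum_congr rfl
      intro k1 _
      rw [sum_comm]
      apply sum_congr rfl
      intro k2 _
      split_ifs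
      · rfl
      · exact sum_const_zero
    have h5 : 0 ≤ ∑ m ∈ Icc 1 M, ∑ c ∈ range q,
        ‖∑ k ∈ Icc 1 K, if k % q = c then w m k else 0‖ ^ 2 :=
      sum_nonneg (fun _ _ => sum_nonneg (fun _ _ => by positivity))
    have h6 : ∑ m ∈ Icc 1 M, ∑ c ∈ range q,
        ‖∑ k ∈ Icc 1 K, if k % q = c then w m k else 0‖ ^ 2 =
        ‖((∑ m ∈ Icc 1 M, ∑ c ∈ range q,
        ‖∑ k ∈ Icc 1 K, if k % q = c then w m k else 0‖ ^ 2 : ℝ) : ℂ)‖ := by
      rw [Complex.norm_real, Real.norm_eq_abs, abs_of_nonneg h5]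
    rw [h6, h4]
    refine (norm_sum_le _ _).trans (sum_le_sum (fun k1 hk1 => ?_))
    refine (norm_sum_le _ _).trans (sum_le_sum (fun k2 hk2 => ?_))
    split_ifs
    · exact hgeo k1 hk1 k2 hk2
    · rw [norm_zero]
  -- symmetry
  have hsymm : ∑ k1 ∈ Icc 1 K, ∑ k2 ∈ Icc 1 K, (if k1 % q = k2 % q then
        |β k1| * |β k2| * mn M (((k1 : ℝ) - k2) * θ) else 0) ≤
      ∑ k1 ∈ Icc 1 K, β k1 ^ 2 * ∑ k2 ∈ Icc 1 K, (if k1 % q = k2 % q then
        mn M (((k1 : ℝ) - k2) * θ) else 0) := by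
    have h4 : ∑ k1 ∈ Icc 1 K, ∑ k2 ∈ Icc 1 K, (if k1 % q = k2 % q then
        |β k1| * |β k2| * mn M (((k1 : ℝ) - k2) * θ) else 0) ≤
        ∑ k1 ∈ Icc 1 K, ∑ k2 ∈ Icc 1 K, ((if k1 % q = k2 % q then
        β k1 ^ 2 * mn M (((k1 : ℝ) - k2) * θ) else 0) / 2 + (if k1 % q = k2 % q then
        β k2 ^ 2 * mn M (((k1 : ℝ) - k2) * θ) else 0) / 2) := by
      apply sum_le_sum
      intro k1 _
      apply sum_le_sum
      intro k2 _
      split_ifs
      · have h5 := mn_nonneg M (((k1 : ℝ) - k2) * θ) hM0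
        have h6 : |β k1| * |β k2| ≤ β k1 ^ 2 / 2 + β k2 ^ 2 / 2 := by
          nlinarith [sq_nonneg (|β k1| - |β k2|), sq_abs (β k1), sq_abs (β k2)]
        nlinarith [mul_le_mul_of_nonneg_right h6 h5]
      · simp
    have h5 : ∑ k1 ∈ Icc 1 K, ∑ k2 ∈ Icc 1 K, (if k1 % q = k2 % q then
        β k2 ^ 2 * mn M (((k1 : ℝ) - k2) * θ) else 0) =
        ∑ k1 ∈ Icc 1 K, ∑ k2 ∈ Icc 1 K, (if k1 % q = k2 % q then
        β k1 ^ 2 * mn M (((k1 : ℝ) - k2) * θ) else 0) := by
      rw [sum_comm]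
      apply sum_congr rfl
      intro k2 _
      apply sum_congr rfl
      intro k1 _
      have e1 : mn M (((k1 : ℝ) - k2) * θ) = mn M (((k2 : ℝ) - k1) * θ) := by
        rw [← aii_mn_neg]
        congr 1
        ring
      by_cases h : k1 % q = k2 % q
      · rw [if_pos h, if_pos h.symm, e1]
      · rw [if_neg h, if_neg (fun h' : k2 % q = k1 % q => h h'.symm)]
    have h6 : ∑ k1 ∈ Icc 1 K, β k1 ^ 2 * ∑ k2 ∈ Icc 1 K, (if k1 % q = k2 % q then
        mn M (((k1 : ℝ) - k2) * θ) else 0) = ∑ k1 ∈ Icc 1 K, ∑ k2 ∈ Icc 1 K,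
        (if k1 % q = k2 % q then β k1 ^ 2 * mn M (((k1 : ℝ) - k2) * θ) else 0) := by
      apply sum_congr rfl
      intro k1 _
      rw [mul_sum]
      apply sum_congr rfl
      intro k2 _
      split_ifs
      · rfl
      · rw [mul_zero]
    rw [h6]
    refine h4.trans (le_of_eq ?_)
    simp only [sum_add_distrib, ← sum_div]
    rw [h5]
    ring
  -- the rows
  have hY : (((K / q : ℕ) : ℝ) / r + 1) ≤ (K : ℝ) / (q * r) + 1 := by
    have h4 : ((K / q : ℕ) : ℝ) ≤ (K : ℝ) / q := Nat.cast_div_le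
    have h5 : ((K / q : ℕ) : ℝ) / r ≤ (K : ℝ) / q / r := div_le_div_of_nonneg_right h4 hr0.le
    rw [div_div] at h5
    linarith
  set F := ((K : ℝ) / (q * r) + 1) * (M + r * (1 + Real.log r)) with hF
  have hrl : 0 ≤ r * (1 + Real.log r) := by positivity
  have hrow : ∀ k1 ∈ Icc 1 K, ∑ k2 ∈ Icc 1 K, (if k1 % q = k2 % q then
        mn M (((k1 : ℝ) - k2) * θ) else 0) ≤ (1 + 2 * C) * F := by
    intro k1 hk1
    rw [mem_Icc] at hk1
    have h4 := aii_row q K hq M θ hM0 k1 hk1.2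
    have h5 := hmin (q * θ) c r hr hcr hap (K / q) M hM1
    have h6 : C * (((K / q : ℕ) : ℝ) / r + 1) * (M + r * (1 + Real.log r)) ≤ C * F := by
      rw [hF, mul_assoc]
      apply mul_le_mul_of_nonneg_left _ hC.le
      exact mul_le_mul_of_nonneg_right hY (by positivity)
    have h7 : (M : ℝ) ≤ F := by
      rw [hF]
      have h8 : 0 ≤ (K : ℝ) / (q * r) := by positivity
      nlinarith [mul_nonneg h8 (by positivity : 0 ≤ (M : ℝ) + r * (1 + Real.log r))]
    linarith
  calc A * ∑ m ∈ Icc 1 M, ∑ b ∈ (range q).filter (Nat.Coprime q),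
      ‖∑ k ∈ Icc 1 K, if (m * k) % q = b then w m k else 0‖ ^ 2 ≤
      A * ∑ k1 ∈ Icc 1 K, β k1 ^ 2 * ((1 + 2 * C) * F) := by
        apply mul_le_mul_of_nonneg_left _ hA0
        refine h2.trans (h3.trans (hsymm.trans ?_))
        exact sum_le_sum (fun k1 hk1 => mul_le_mul_of_nonneg_left (hrow k1 hk1) (sq_nonneg _))
    _ = _ := by
        rw [← sum_mul, ← hBs, hF]
        ring

end Pool.MP_dd84fd_nt.L2G
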