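import Pool.Agent.Lib.MP_dd84fd_nt.L2G.HBDefs

set_option autoImplicit false

namespace Pool.MP_dd84fd_nt.L2G

open Finset Pool.MP_67663b_nt.Odd

theorem conv_two (f g : ArithmeticFunction ℝ) (X : ℕ) (P : ℕ → Prop) [DecidablePred P]
    (F : ℕ → ℂ) : ∑ n ∈ (Icc 1 X).filter P, (((f * g) n : ℝ) : ℂ) * F n =
      ∑ m ∈ Icc 1 X, ∑ k ∈ Icc 1 X, if m * k ≤ X ∧ P (m * k) then
        ((f m * g k : ℝ) : ℂ) * F (m * k) else 0 := by
  rw [← Finset.sum_product' (Icc 1 X) (Icc 1 X) (fun m k => if m * k ≤ X ∧ P (m * k) then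
        ((f m * g k : ℝ) : ℂ) * F (m * k) else 0), ← Finset.sum_filter]
  rw [← Finset.sum_fiberwise_of_maps_to (s := (Icc 1 X ×ˢ Icc 1 X).filter
    (fun p : ℕ × ℕ => p.1 * p.2 ≤ X ∧ P (p.1 * p.2))) (t := (Icc 1 X).filter P)
    (g := fun p : ℕ × ℕ => p.1 * p.2)]
  · refine Finset.sum_congr rfl fun n hn => ?_
    simp only [Finset.mem_filter, Finset.mem_Icc] at hn
    obtain ⟨⟨h1, h2⟩, hP⟩ := hn
    rw [ArithmeticFunction.mul_apply, Complex.ofReal_sum, Finset.sum_mul]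
    have hset : ((Icc 1 X ×ˢ Icc 1 X).filter
        (fun p : ℕ × ℕ => p.1 * p.2 ≤ X ∧ P (p.1 * p.2))).filter
        (fun p : ℕ × ℕ => p.1 * p.2 = n) = n.divisorsAntidiagonal := by
      ext p
      simp only [Finset.mem_filter, Finset.mem_product, Finset.mem_Icc,
        Nat.mem_divisorsAntidiagonal]
      constructor
      · rintro ⟨_, h⟩
        exact ⟨h, by omega⟩
      · rintro ⟨h, _⟩
        have hp1 : p.1 ≠ 0 := by
          rintro h0
          rw [h0, zero_mul] at h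
          omega
        have hp2 : p.2 ≠ 0 := by
          rintro h0
          rw [h0, mul_zero] at h
          omega
        have l1 : p.1 ≤ n := by
          rw [← h]
          exact Nat.le_mul_of_pos_right _ (Nat.pos_of_ne_zero hp2)
        have l2 : p.2 ≤ n := by
          rw [← h]
          exact Nat.le_mul_of_pos_left _ (Nat.pos_of_ne_zero hp1)
        refine ⟨⟨⟨⟨by omega, by omega⟩, by omega, by omega⟩, by rw [h]; exact h2, by rw [h]; exact hP⟩, h⟩
    rw [hset]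
    refine Finset.sum_congr rfl fun p hp => ?_
    rw [Nat.mem_divisorsAntidiagonal] at hp
    rw [hp.1]
  · intro p hp
    simp only [Finset.mem_filter, Finset.mem_product, Finset.mem_Icc] at hp ⊢
    refine ⟨⟨?_, hp.2.1⟩, hp.2.2⟩
    exact Nat.mul_pos (by omega) (by omega)

theorem conv_three (f g1 g2 : ArithmeticFunction ℝ) (X : ℕ) (P : ℕ → Prop) [DecidablePred P]
    (F : ℕ → ℂ) : ∑ n ∈ (Icc 1 X).filter P, (((f * (g1 * g2)) n : ℝ) : ℂ) * F n =
      ∑ m ∈ Icc 1 X, ∑ k1 ∈ Icc 1 X, ∑ k2 ∈ Icc 1 X, if m * k1 * k2 ≤ X ∧ P (m * k1 * k2) then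
        ((f m * (g1 k1 * g2 k2) : ℝ) : ℂ) * F (m * k1 * k2) else 0 := by
  rw [conv_two]
  refine Finset.sum_congr rfl fun m hm => ?_
  rw [Finset.mem_Icc] at hm
  rw [← Finset.sum_filter]
  have h2 := conv_two g1 g2 X (fun k => m * k ≤ X ∧ P (m * k)) (fun k => (f m : ℂ) * F (m * k))
  have e1 : ∑ x ∈ (Icc 1 X).filter (fun k => m * k ≤ X ∧ P (m * k)),
      ((f m * (g1 * g2) x : ℝ) : ℂ) * F (m * x) =
      ∑ n ∈ (Icc 1 X).filter (fun k => m * k ≤ X ∧ P (m * k)), (((g1 * g2) n : ℝ) : ℂ) *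
        ((f m : ℂ) * F (m * n)) := by
    refine Finset.sum_congr rfl fun x _ => ?_
    push_cast
    ring
  rw [e1, h2]
  refine Finset.sum_congr rfl fun k1 hk1 => Finset.sum_congr rfl fun k2 hk2 => ?_
  rw [Finset.mem_Icc] at hk1 hk2
  have e2 : m * k1 * k2 = m * (k1 * k2) := mul_assoc _ _ _
  rw [e2]
  by_cases hc : m * (k1 * k2) ≤ X ∧ P (m * (k1 * k2))
  · have h3 : k1 * k2 ≤ X := le_trans (Nat.le_mul_of_pos_left _ (by omega)) hc.1
    rw [if_pos ⟨h3, hc⟩, if_pos hc]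
    push_cast
    ring
  · rw [if_neg (fun h => hc h.2), if_neg hc]

end Pool.MP_dd84fd_nt.L2G
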