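import Pool.Agent.Lib.MP_dd84fd_nt.L2G.HBDefs

set_option autoImplicit false

namespace Pool.MP_dd84fd_nt.L2G

open Finset Pool.MP_67663b_nt.Odd

private theorem hbb_restr_apply (f : ArithmeticFunction ℝ) (i n : ℕ) :
    restr f i n = if 2 ^ i ≤ n ∧ n < 2 ^ (i + 1) then f n else 0 := rfl

private theorem hbb_muz_apply (z n : ℕ) :
    muz z n = if n ≤ z then ((ArithmeticFunction.moebius n : ℤ) : ℝ) else 0 := rfl

private theorem hbb_bf_range (z : ℕ) (j : Fin 6) (i n : ℕ) (h : bf z j i n ≠ 0) :
    2 ^ i ≤ n ∧ n < 2 ^ (i + 1) := by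
  unfold bf at h
  rw [hbb_restr_apply] at h
  by_contra hc
  rw [if_neg hc] at h
  exact h rfl

private theorem hbb_muz_le (z n : ℕ) : |muz z n| ≤ 1 := by
  rw [hbb_muz_apply]
  split_ifs
  · have := ArithmeticFunction.abs_moebius_le_one (n := n)
    exact_mod_cast this
  · simp

private theorem hbb_zeta_le (n : ℕ) :
    |((ArithmeticFunction.zeta : ArithmeticFunction ℕ) : ArithmeticFunction ℝ) n| ≤ 1 := by
  rw [ArithmeticFunction.natCoe_apply, ArithmeticFunction.zeta_apply]
  split_ifs <;> simp

private theorem hbb_bf_le (z : ℕ) (j : Fin 6) (i n : ℕ) (hn : 1 ≤ n) :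
    |bf z j i n| ≤ if j = 0 then 1 + Real.log n else 1 := by
  have hl : 0 ≤ Real.log n := Real.log_natCast_nonneg n
  unfold bf
  rw [hbb_restr_apply]
  by_cases h : 2 ^ i ≤ n ∧ n < 2 ^ (i + 1)
  · rw [if_pos h]
    unfold base
    by_cases h0 : j = 0
    · rw [if_pos h0, if_pos h0, ArithmeticFunction.log_apply, abs_of_nonneg hl]
      linarith
    · rw [if_neg h0, if_neg h0]
      by_cases h1 : j = 1 ∨ j = 2
      · rw [if_pos h1]
        exact hbb_zeta_le n
      · rw [if_neg h1]
        exact hbb_muz_le z n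
  · rw [if_neg h, abs_zero]
    split_ifs
    · linarith
    · norm_num

theorem prod_support (z : ℕ) (v : Fin 6 → ℕ) (S : Finset (Fin 6)) (n : ℕ)
    (h : (∏ j ∈ S, bf z j (v j)) n ≠ 0) :
    ∏ j ∈ S, 2 ^ v j ≤ n ∧ n ≤ ∏ j ∈ S, 2 ^ (v j + 1) := by
  induction S using Finset.induction_on generalizing n with
  | empty =>
    rw [Finset.prod_empty, ArithmeticFunction.one_apply] at h
    have : n = 1 := by
      by_contra hc
      rw [if_neg hc] at h
      exact h rfl
    subst this
    simp
  | insert a S ha ih =>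
    rw [Finset.prod_insert ha, ArithmeticFunction.mul_apply] at h
    obtain ⟨x, hx, hx0⟩ := Finset.exists_ne_zero_of_sum_ne_zero h
    rw [Nat.mem_divisorsAntidiagonal] at hx
    have h1 : bf z a (v a) x.1 ≠ 0 := left_ne_zero_of_mul hx0
    have h2 := ih x.2 (right_ne_zero_of_mul hx0)
    have h3 := hbb_bf_range z a (v a) x.1 h1
    rw [Finset.prod_insert ha, Finset.prod_insert ha, ← hx.1]
    exact ⟨Nat.mul_le_mul h3.1 h2.1, Nat.mul_le_mul h3.2.le h2.2⟩

private theorem hbb_tau_le (m n : ℕ) (h : m ∣ n) (hn : n ≠ 0) :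
    (m.divisors.card : ℝ) ≤ n.divisors.card := by
  exact_mod_cast Finset.card_le_card (Nat.divisors_subset_of_dvd hn h)

private theorem hbb_prod (z : ℕ) (v : Fin 6 → ℕ) (S : Finset (Fin 6)) (n : ℕ) (hn : 1 ≤ n) :
    |(∏ j ∈ S, bf z j (v j)) n| ≤
      (if (0 : Fin 6) ∈ S then 1 + Real.log n else 1) * (n.divisors.card : ℝ) ^ (S.card - 1) := by
  induction S using Finset.induction_on generalizing n with
  | empty =>
    rw [Finset.prod_empty, ArithmeticFunction.one_apply]
    simp only [Finset.notMem_empty, if_false, Finset.card_empty]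
    split_ifs <;> simp
  | insert a S ha ih =>
    have hl : 0 ≤ Real.log n := Real.log_natCast_nonneg n
    rw [Finset.prod_insert ha, Finset.card_insert_of_notMem ha, Nat.add_sub_cancel]
    rcases S.eq_empty_or_nonempty with hS | hS
    · subst hS
      rw [Finset.prod_empty, mul_one]
      refine (hbb_bf_le z a (v a) n hn).trans (le_of_eq ?_)
      simp only [Finset.card_empty, pow_zero, mul_one]
      by_cases h0 : a = 0
      · subst h0; simp
      · have : (0 : Fin 6) ∉ insert a (∅ : Finset (Fin 6)) := by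
          rw [Finset.mem_insert]
          rintro (h | h)
          · exact h0 h.symm
          · simp at h
        rw [if_neg h0, if_neg this]
    · have hc : 1 ≤ S.card := Finset.card_pos.mpr hS
      set c : ℝ := if (0 : Fin 6) ∈ insert a S then 1 + Real.log n else 1 with hcdef
      have hc1 : 1 ≤ c := by
        rw [hcdef]
        split_ifs
        · linarith
        · exact le_refl _
      set t : ℝ := (n.divisors.card : ℝ) with ht
      have ht0 : 0 ≤ t := Nat.cast_nonneg _
      rw [ArithmeticFunction.mul_apply]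
      have key : ∀ x ∈ n.divisorsAntidiagonal,
          |bf z a (v a) x.1 * (∏ j ∈ S, bf z j (v j)) x.2| ≤ c * t ^ (S.card - 1) := by
        intro x hx
        have hx' := Nat.mem_divisorsAntidiagonal.mp hx
        have hx1 : 1 ≤ x.1 := by
          rcases Nat.eq_zero_or_pos x.1 with h | h
          · rw [h, zero_mul] at hx'; omega
          · exact h
        have hx2 : 1 ≤ x.2 := by
          rcases Nat.eq_zero_or_pos x.2 with h | h
          · rw [h, mul_zero] at hx'; omega
          · exact h
        have hd1 : x.1 ∣ n := ⟨x.2, hx'.1.symm⟩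
        have hd2 : x.2 ∣ n := ⟨x.1, by rw [mul_comm]; exact hx'.1.symm⟩
        have hle1 : Real.log x.1 ≤ Real.log n :=
          Real.log_le_log (by exact_mod_cast hx1) (by exact_mod_cast Nat.le_of_dvd (by omega) hd1)
        have hle2 : Real.log x.2 ≤ Real.log n :=
          Real.log_le_log (by exact_mod_cast hx2) (by exact_mod_cast Nat.le_of_dvd (by omega) hd2)
        have b1 := hbb_bf_le z a (v a) x.1 hx1
        have b2 := ih x.2 hx2
        have hl1 : 0 ≤ Real.log x.1 := Real.log_natCast_nonneg _
        have hl2 : 0 ≤ Real.log x.2 := Real.log_natCast_nonneg _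
        have b3 : ((x.2.divisors.card : ℕ) : ℝ) ^ (S.card - 1) ≤ t ^ (S.card - 1) :=
          pow_le_pow_left₀ (Nat.cast_nonneg _) (hbb_tau_le _ _ hd2 (by omega)) _
        have b4 : (if a = 0 then 1 + Real.log x.1 else 1) *
            (if (0 : Fin 6) ∈ S then 1 + Real.log x.2 else 1) ≤ c := by
          rw [hcdef]
          by_cases h0 : a = 0
          · have h0S : (0 : Fin 6) ∉ S := by rw [← h0]; exact ha
            rw [if_pos h0, if_neg h0S, mul_one, if_pos (by rw [h0]; exact Finset.mem_insert_self _ _)]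
            linarith
          · rw [if_neg h0, one_mul]
            by_cases h0S : (0 : Fin 6) ∈ S
            · rw [if_pos h0S, if_pos (Finset.mem_insert_of_mem h0S)]
              linarith
            · rw [if_neg h0S, if_neg]
              rw [Finset.mem_insert]
              rintro (h | h)
              · exact h0 h.symm
              · exact h0S h
        have b5 : (0:ℝ) ≤ (if a = 0 then 1 + Real.log x.1 else 1) := by
          split_ifs
          · linarith
          · norm_num
        have b6 : (0:ℝ) ≤ (if (0 : Fin 6) ∈ S then 1 + Real.log x.2 else 1) := by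
          split_ifs
          · linarith
          · norm_num
        rw [abs_mul]
        calc _ ≤ (if a = 0 then 1 + Real.log x.1 else 1) *
              ((if (0 : Fin 6) ∈ S then 1 + Real.log x.2 else 1) *
                ((x.2.divisors.card : ℕ) : ℝ) ^ (S.card - 1)) :=
              mul_le_mul b1 b2 (abs_nonneg _) b5
          _ = ((if a = 0 then 1 + Real.log x.1 else 1) *
              (if (0 : Fin 6) ∈ S then 1 + Real.log x.2 else 1)) *
                ((x.2.divisors.card : ℕ) : ℝ) ^ (S.card - 1) := by ring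
          _ ≤ c * t ^ (S.card - 1) :=
              mul_le_mul b4 b3 (by positivity) (by linarith)
      calc |∑ x ∈ n.divisorsAntidiagonal, bf z a (v a) x.1 * (∏ j ∈ S, bf z j (v j)) x.2|
          ≤ ∑ x ∈ n.divisorsAntidiagonal,
            |bf z a (v a) x.1 * (∏ j ∈ S, bf z j (v j)) x.2| := Finset.abs_sum_le_sum_abs _ _
        _ ≤ ∑ _x ∈ n.divisorsAntidiagonal, c * t ^ (S.card - 1) := Finset.sum_le_sum key
        _ = t * (c * t ^ (S.card - 1)) := by
            rw [Finset.sum_const, nsmul_eq_mul, ht]
            congr 2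
            rw [← Nat.map_div_right_divisors, Finset.card_map]
        _ = c * t ^ S.card := by
            have : S.card = (S.card - 1) + 1 := by omega
            conv_rhs => rw [this, pow_succ]
            ring

theorem prod_bound (z : ℕ) (v : Fin 6 → ℕ) (S : Finset (Fin 6)) (n : ℕ) (hn : 1 ≤ n) :
    |(∏ j ∈ S, bf z j (v j)) n| ≤ (1 + Real.log n) * (n.divisors.card : ℝ) ^ 5 := by
  have hl : 0 ≤ Real.log n := Real.log_natCast_nonneg n
  have ht : (1:ℝ) ≤ n.divisors.card := by
    have : 0 < n.divisors.card := Finset.card_pos.mpr ⟨1, Nat.one_mem_divisors.mpr (by omega)⟩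
    exact_mod_cast this
  have hS : S.card ≤ 6 := by simpa using Finset.card_le_univ S
  refine (hbb_prod z v S n hn).trans (mul_le_mul ?_ ?_ (by positivity) (by linarith))
  · split_ifs
    · exact le_refl _
    · linarith
  · exact pow_le_pow_right₀ ht (by omega)

theorem bf_zero (z : ℕ) (j : Fin 6) (i : ℕ) (hj : 3 ≤ (j : ℕ)) (h : z < 2 ^ i) : bf z j i = 0 := by
  ext n
  have h0 : j ≠ 0 := by rintro rfl; simp at hj
  have h1 : ¬(j = 1 ∨ j = 2) := by rintro (rfl | rfl) <;> simp at hj
  unfold bf
  rw [hbb_restr_apply, ArithmeticFunction.zero_apply]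
  split_ifs with hc
  · unfold base
    rw [if_neg h0, if_neg h1, hbb_muz_apply, if_neg (by omega)]
  · rfl

theorem bf_smooth (z : ℕ) (j : Fin 6) (i : ℕ) (hj : (j : ℕ) < 3) :
    (∀ n, 1 ≤ n → 0 ≤ bf z j i n ∧ bf z j i n ≤ 1 + Real.log n) ∧
      MonotoneOn (fun n => bf z j i n) (Set.Ico (2 ^ i) (2 ^ (i + 1))) := by
  have hj' : j = 0 ∨ j = 1 ∨ j = 2 := by
    fin_cases j <;> simp at hj ⊢
  have hbase : (∀ n, 1 ≤ n → 0 ≤ base z j n) ∧ (∀ m n, 1 ≤ m → m ≤ n → base z j m ≤ base z j n) := by
    rcases hj' with h | h | h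
    · subst h
      refine ⟨fun n _ => ?_, fun m n hm hmn => ?_⟩
      · exact Real.log_natCast_nonneg n
      · exact Real.log_le_log (by exact_mod_cast hm) (by exact_mod_cast hmn)
    · subst h
      refine ⟨fun n hn => ?_, fun m n hm hmn => ?_⟩
      · simp [base]
        split_ifs <;> simp
      · have e1 : base z 1 m = 1 := by simp [base, ArithmeticFunction.zeta_apply]; omega
        have e2 : base z 1 n = 1 := by simp [base, ArithmeticFunction.zeta_apply]; omega
        rw [e1, e2]
    · subst h
      refine ⟨fun n hn => ?_, fun m n hm hmn => ?_⟩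
      · simp [base]
        split_ifs <;> simp
      · have e1 : base z 2 m = 1 := by simp [base, ArithmeticFunction.zeta_apply]; omega
        have e2 : base z 2 n = 1 := by simp [base, ArithmeticFunction.zeta_apply]; omega
        rw [e1, e2]
  refine ⟨fun n hn => ⟨?_, ?_⟩, ?_⟩
  · unfold bf
    rw [hbb_restr_apply]
    split_ifs
    · exact hbase.1 n hn
    · exact le_refl _
  · have hl : 0 ≤ Real.log n := Real.log_natCast_nonneg n
    refine (le_abs_self _).trans ((hbb_bf_le z j i n hn).trans ?_)
    split_ifs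
    · exact le_refl _
    · linarith
  · intro m hm n hn hmn
    simp only [Set.mem_Ico] at hm hn
    show bf z j i m ≤ bf z j i n
    unfold bf
    rw [hbb_restr_apply, hbb_restr_apply, if_pos hm, if_pos hn]
    exact hbase.2 m n (Nat.one_le_two_pow.trans hm.1) hmn

end Pool.MP_dd84fd_nt.L2G
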