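import Pool.Agent.Lib.MP_dd84fd_nt.L2G.AII
import Pool.Agent.Lib.MP_dd84fd_nt.L2G.HBBound
import Pool.Agent.Lib.MP_dd84fd_nt.L2G.ConvSum
import Pool.Agent.Lib.MP_dd84fd_nt.L2G.DivMom

set_option autoImplicit false

namespace Pool.MP_dd84fd_nt.L2G

open Finset Pool.MP_67663b_nt.Odd

theorem boxII_ev_log (D : ℝ) (E : ℕ) (s : ℝ) (hs : 0 < s) :
    ∃ X0 : ℕ, ∀ X : ℕ, X0 ≤ X → D * Real.log X ^ E ≤ (X : ℝ) ^ s := by
  have h := (isLittleO_log_rpow_rpow_atTop (E : ℝ) hs).bound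
    (show (0 : ℝ) < 1 / (|D| + 1) by positivity)
  have h2 := tendsto_natCast_atTop_atTop (R := ℝ) |>.eventually h
  obtain ⟨N, hN⟩ := Filter.eventually_atTop.mp h2
  refine ⟨N, fun X hX => ?_⟩
  have h3 := hN X hX
  rw [Real.rpow_natCast] at h3
  have h4 : |Real.log X ^ E| ≤ 1 / (|D| + 1) * (X : ℝ) ^ s := by
    have := h3
    rw [Real.norm_eq_abs, Real.norm_eq_abs, abs_of_nonneg (Real.rpow_nonneg (Nat.cast_nonneg X) s)]
      at this
    exact this
  have hp : 0 < |D| + 1 := by positivity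
  have hX0 : (0 : ℝ) ≤ (X : ℝ) ^ s := Real.rpow_nonneg (Nat.cast_nonneg X) s
  calc D * Real.log X ^ E ≤ |D * Real.log X ^ E| := le_abs_self _
    _ = |D| * |Real.log X ^ E| := abs_mul _ _
    _ ≤ |D| * (1 / (|D| + 1) * (X : ℝ) ^ s) := mul_le_mul_of_nonneg_left h4 (abs_nonneg _)
    _ = (|D| / (|D| + 1)) * (X : ℝ) ^ s := by ring
    _ ≤ 1 * (X : ℝ) ^ s := by
        apply mul_le_mul_of_nonneg_right _ hX0
        rw [div_le_one hp]
        linarith
    _ = (X : ℝ) ^ s := one_mul _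

theorem boxII_restrict (α β : ℕ → ℝ) (X P M : ℕ) (hP : 1 ≤ P)
    (hα : ∀ n, α n ≠ 0 → P ≤ n ∧ n ≤ M) (Q : ℕ → Prop) [DecidablePred Q] (F : ℕ → ℂ) :
    ∑ m ∈ Icc 1 X, ∑ k ∈ Icc 1 X, (if m * k ≤ X ∧ Q (m * k) then
        ((α m * β k : ℝ) : ℂ) * F (m * k) else 0) =
    ∑ m ∈ Icc 1 M, ∑ k ∈ Icc 1 (X / P), (if m * k ≤ X ∧ Q (m * k) then
        ((α m * β k : ℝ) : ℂ) * F (m * k) else 0) := by
  have h1 : ∀ m : ℕ, ∑ k ∈ Icc 1 X, (if m * k ≤ X ∧ Q (m * k) then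
        ((α m * β k : ℝ) : ℂ) * F (m * k) else 0) =
      ∑ k ∈ Icc 1 (X / P), (if m * k ≤ X ∧ Q (m * k) then
        ((α m * β k : ℝ) : ℂ) * F (m * k) else 0) := by
    intro m
    symm
    refine Finset.sum_subset (Finset.Icc_subset_Icc_right (Nat.div_le_self _ _)) ?_
    intro k hk hk2
    rw [Finset.mem_Icc] at hk hk2
    by_cases hm : α m = 0
    · simp [hm]
    · rw [if_neg]
      rintro ⟨hle, _⟩
      apply hk2
      refine ⟨hk.1, ?_⟩
      rw [Nat.le_div_iff_mul_le (by omega)]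
      calc k * P ≤ k * m := Nat.mul_le_mul_left _ (hα m hm).1
        _ = m * k := mul_comm _ _
        _ ≤ X := hle
  simp_rw [h1]
  have h2 : ∀ A : ℕ, A = X ∨ A = M → ∑ m ∈ Icc 1 A, ∑ k ∈ Icc 1 (X / P),
      (if m * k ≤ X ∧ Q (m * k) then ((α m * β k : ℝ) : ℂ) * F (m * k) else 0) =
      ∑ m ∈ Icc 1 (max X M), ∑ k ∈ Icc 1 (X / P),
      (if m * k ≤ X ∧ Q (m * k) then ((α m * β k : ℝ) : ℂ) * F (m * k) else 0) := by
    intro A hA
    refine Finset.sum_subset (Finset.Icc_subset_Icc_right ?_) ?_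
    · rcases hA with h | h
      · rw [h]; exact le_max_left _ _
      · rw [h]; exact le_max_right _ _
    · intro m hm hm2
      rw [Finset.mem_Icc] at hm hm2
      refine Finset.sum_eq_zero fun k hk => ?_
      rw [Finset.mem_Icc] at hk
      rcases hA with h | h
      · rw [if_neg]
        rintro ⟨hle, _⟩
        apply hm2
        rw [h]
        exact ⟨hm.1, le_trans (Nat.le_mul_of_pos_right _ (by omega)) hle⟩
      · have h0 : α m = 0 := by
          by_contra h0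
          apply hm2
          rw [h]
          exact ⟨hm.1, (hα m h0).2⟩
        simp [h0]
  rw [h2 X (Or.inl rfl), h2 M (Or.inr rfl)]

theorem boxII_sq (f : ℕ → ℝ) (hf : ∀ n : ℕ, 1 ≤ n → |f n| ≤ (1 + Real.log n) *
    (n.divisors.card : ℝ) ^ 5) (c : ℕ) (N : ℕ) (hN : 1 ≤ N)
    (hc : ∑ n ∈ Icc 1 N, (n.divisors.card : ℝ) ^ 10 ≤ N * (1 + Real.log N) ^ c) (Y : ℝ)
    (hY : 1 + Real.log N ≤ Y) :
    ∑ n ∈ Icc 1 N, f n ^ 2 ≤ N * Y ^ (c + 2) := by
  have hlogN : 0 ≤ Real.log N := Real.log_natCast_nonneg N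
  have h1 : ∀ n ∈ Icc 1 N, f n ^ 2 ≤ (1 + Real.log N) ^ 2 * (n.divisors.card : ℝ) ^ 10 := by
    intro n hn
    rw [Finset.mem_Icc] at hn
    have hn0 : (0 : ℝ) < n := by
      have : 0 < n := by omega
      exact_mod_cast this
    have hlog : Real.log n ≤ Real.log N := Real.log_le_log hn0 (by exact_mod_cast hn.2)
    have hlog0 : 0 ≤ Real.log n := Real.log_natCast_nonneg n
    calc f n ^ 2 = |f n| ^ 2 := (sq_abs _).symm
      _ ≤ ((1 + Real.log n) * (n.divisors.card : ℝ) ^ 5) ^ 2 :=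
          pow_le_pow_left₀ (abs_nonneg _) (hf n hn.1) 2
      _ = (1 + Real.log n) ^ 2 * (n.divisors.card : ℝ) ^ 10 := by ring
      _ ≤ (1 + Real.log N) ^ 2 * (n.divisors.card : ℝ) ^ 10 := by
          apply mul_le_mul_of_nonneg_right _ (by positivity)
          exact pow_le_pow_left₀ (by linarith) (by linarith) 2
  calc ∑ n ∈ Icc 1 N, f n ^ 2 ≤ ∑ n ∈ Icc 1 N, (1 + Real.log N) ^ 2 * (n.divisors.card : ℝ) ^ 10 :=
        Finset.sum_le_sum h1
    _ = (1 + Real.log N) ^ 2 * ∑ n ∈ Icc 1 N, (n.divisors.card : ℝ) ^ 10 := by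
        rw [Finset.mul_sum]
    _ ≤ (1 + Real.log N) ^ 2 * (N * (1 + Real.log N) ^ c) :=
        mul_le_mul_of_nonneg_left hc (by positivity)
    _ = N * (1 + Real.log N) ^ (c + 2) := by ring
    _ ≤ N * Y ^ (c + 2) := by
        apply mul_le_mul_of_nonneg_left _ (by positivity)
        exact pow_le_pow_left₀ (by linarith) hY _

/-- the final arithmetic -/
theorem boxII_arith (C X q r P K L V Sa Sb W rl : ℝ) (c A : ℕ) (hC : 0 < C) (hX : 0 < X)
    (hq : 1 ≤ q) (hr : 0 < r) (hP : 0 < P) (hK : 0 ≤ K) (hL : 1 ≤ L)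
    (hSa0 : 0 ≤ Sa) (hSb0 : 0 ≤ Sb)
    (hV : V ≤ C * Sa * Sb * (K / (q * r) + 1) * (64 * P + r * rl))
    (hrl0 : 0 ≤ rl) (hrl : rl ≤ 2 * L) (hSa : Sa ≤ 64 * P * (2 * L) ^ c)
    (hSb : Sb ≤ K * (2 * L) ^ c) (hPK : P * K ≤ X)
    (hW : W = 4 * (64 ^ 2 * C * 2 ^ (2 * c)) * L ^ (2 * c + 1 + A))
    (h1 : W ≤ r) (h2 : W ≤ P) (h3 : W * (P * q) ≤ X) (h4 : W * (r * q) ≤ X) :
    V ≤ X ^ 2 / (q * L ^ A) := by
  have hq0 : 0 < q := by linarith
  have hL0 : 0 < L := by linarith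
  have hW0 : 0 < W := by rw [hW]; positivity
  have e1 : C * Sa * Sb * (K / (q * r) + 1) * (64 * P + r * rl) ≤
      C * (64 * P * (2 * L) ^ c) * (K * (2 * L) ^ c) * (K / (q * r) + 1) *
        (64 * P + r * (2 * L)) := by
    gcongr
  have e2 : C * (64 * P * (2 * L) ^ c) * (K * (2 * L) ^ c) * (K / (q * r) + 1) *
        (64 * P + r * (2 * L)) =
      64 * C * (2 * L) ^ (2 * c) * (P * K) * (64 * (P * K) / (q * r) + 2 * L * K / q + 64 * P +
        2 * L * r) := by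
    have : (2 * L) ^ (2 * c) = (2 * L) ^ c * (2 * L) ^ c := by rw [← pow_add]; congr 1; ring
    rw [this]
    field_simp
    ring
  have hKP : K ≤ X / P := by
    rw [le_div_iff₀ hP]
    linarith
  have t1 : X / (q * r) ≤ X / (q * W) := by
    gcongr
  have t2 : X / P / q ≤ X / (q * W) := by
    rw [div_div]
    rw [mul_comm P q]
    gcongr
  have t3 : P ≤ X / (q * W) := by
    rw [le_div_iff₀ (by positivity)]
    nlinarith [h3]
  have t4 : r ≤ X / (q * W) := by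
    rw [le_div_iff₀ (by positivity)]
    nlinarith [h4]
  have e3 : 64 * (P * K) / (q * r) + 2 * L * K / q + 64 * P + 2 * L * r ≤
      64 * L * (4 * (X / (q * W))) := by
    have s1 : 64 * (P * K) / (q * r) ≤ 64 * L * (X / (q * W)) := by
      calc 64 * (P * K) / (q * r) ≤ 64 * X / (q * r) := by gcongr
        _ = 64 * 1 * (X / (q * r)) := by ring
        _ ≤ 64 * L * (X / (q * W)) := by gcongr
    have s2 : 2 * L * K / q ≤ 64 * L * (X / (q * W)) := by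
      calc 2 * L * K / q ≤ 2 * L * (X / P) / q := by gcongr
        _ = 2 * L * (X / P / q) := by ring
        _ ≤ 64 * L * (X / (q * W)) := by gcongr; norm_num
    have s3 : 64 * P ≤ 64 * L * (X / (q * W)) := by
      calc 64 * P = 64 * 1 * P := by ring
        _ ≤ 64 * L * (X / (q * W)) := by gcongr
    have s4 : 2 * L * r ≤ 64 * L * (X / (q * W)) := by gcongr; norm_num
    linarith
  calc V ≤ _ := hV
    _ ≤ _ := e1
    _ = _ := e2
    _ ≤ 64 * C * (2 * L) ^ (2 * c) * X * (64 * L * (4 * (X / (q * W)))) := by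
        have : 0 ≤ P * K := by positivity
        gcongr
    _ = X ^ 2 / (q * L ^ A) := by
        rw [hW, mul_pow]
        rw [show (2 * c + 1 + A) = (2 * c) + 1 + A from rfl, pow_add, pow_add]
        field_simp
        try ring

theorem box_II (ε : ℝ) (hε : 0 < ε) (hε1 : ε < 1) (A : ℕ) : ∃ B0 : ℕ, ∀ B : ℕ, B0 ≤ B →
    ∃ X0 : ℕ, ∀ X : ℕ, X0 ≤ X → ∀ q : ℕ, 1 ≤ q → (q : ℝ) ≤ (X : ℝ) ^ (2 / 3 - ε) →
    ∀ (θ : ℝ) (r : ℕ) (c : ℤ), MinorHyp X q B θ r c →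
    ∀ (z : ℕ) (v : Fin 6 → ℕ) (S : Finset (Fin 6)),
      (X : ℝ) ^ (1 / 24 : ℝ) ≤ ((∏ j ∈ S, 2 ^ v j : ℕ) : ℝ) →
      ((∏ j ∈ S, 2 ^ v j : ℕ) : ℝ) ≤ (X : ℝ) ^ (1 / 3 + ε / 2) →
      VQ X q (fun n => TT z v n) θ ≤ X ^ 2 / (q * Real.log X ^ A) := by
  obtain ⟨C, hC, hII⟩ := a_II
  obtain ⟨c0, hc0⟩ := div_mom 10
  set c1 : ℕ := c0 + 2 with hc1
  set D : ℝ := 4 * (64 ^ 2 * C * 2 ^ (2 * c1)) with hD
  set E : ℕ := 2 * c1 + 1 + A with hE
  have hD0 : 0 < D := by rw [hD]; positivity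
  refine ⟨E + 1, fun B hB => ?_⟩
  obtain ⟨X1, hX1⟩ := boxII_ev_log D E (1 / 24) (by norm_num)
  obtain ⟨X2, hX2⟩ := boxII_ev_log D E (ε / 2) (by positivity)
  obtain ⟨X3, hX3⟩ := boxII_ev_log 64 0 (2 / 3 - ε / 2) (by linarith)
  obtain ⟨X4, hX4⟩ : ∃ X4 : ℕ, ∀ X : ℕ, X4 ≤ X → max 1 D ≤ Real.log X := by
    have h2 := (Real.tendsto_log_atTop.comp (tendsto_natCast_atTop_atTop (R := ℝ)))
      |>.eventually (Filter.eventually_ge_atTop (max 1 D))
    exact Filter.eventually_atTop.mp h2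
  refine ⟨max (max X1 X2) (max X3 (max X4 3)), ?_⟩
  intro X hX q hq hqX θ r c hmin z v S hS1 hS2
  have hXX1 : X1 ≤ X := le_trans (le_trans (le_max_left _ _) (le_max_left _ _)) hX
  have hXX2 : X2 ≤ X := le_trans (le_trans (le_max_right _ _) (le_max_left _ _)) hX
  have hXX3 : X3 ≤ X := le_trans (le_trans (le_max_left _ _) (le_max_right _ _)) hX
  have hXX4 : X4 ≤ X :=
    le_trans (le_trans (le_max_left _ _) (le_trans (le_max_right _ _) (le_max_right _ _))) hX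
  have hXX5 : 3 ≤ X :=
    le_trans (le_trans (le_max_right _ _) (le_trans (le_max_right _ _) (le_max_right _ _))) hX
  have k1 := hX1 X hXX1
  have k2 := hX2 X hXX2
  have k3 := hX3 X hXX3
  have k4 := hX4 X hXX4
  rw [pow_zero, mul_one] at k3
  have hL1 : 1 ≤ Real.log X := le_trans (le_max_left _ _) k4
  have hLD : D ≤ Real.log X := le_trans (le_max_right _ _) k4
  have hX0 : (0 : ℝ) < X := by
    have : 0 < X := by omega
    exact_mod_cast this
  have hX1' : (1 : ℝ) ≤ X := by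
    have : 1 ≤ X := by omega
    exact_mod_cast this
  set L : ℝ := Real.log X with hL
  have hL0 : 0 < L := by linarith
  set P : ℕ := ∏ j ∈ S, 2 ^ v j with hP
  have hP1 : 1 ≤ P := by
    rw [hP]
    exact Nat.succ_le_of_lt (Finset.prod_pos fun j _ => by positivity)
  obtain ⟨m1, m2, m3, m4⟩ := hmin
  have hLB : 0 < L ^ B := by positivity
  have hqR : (1 : ℝ) ≤ q := by exact_mod_cast hq
  have hq0 : (0 : ℝ) < q := by linarith
  have hr0 : (0 : ℝ) < r := lt_trans hLB m1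
  have hr1 : 1 ≤ r := by
    have : 0 < r := by exact_mod_cast hr0
    omega
  have hLBE : D * L ^ E ≤ L ^ B := by
    calc D * L ^ E ≤ L * L ^ E := mul_le_mul_of_nonneg_right hLD (by positivity)
      _ = L ^ (E + 1) := by ring
      _ ≤ L ^ B := pow_le_pow_right₀ hL1 hB
  have hrq : (r : ℝ) * (q * L ^ B) ≤ X := by
    rw [le_div_iff₀ (by positivity)] at m2
    exact m2
  have hrX : (r : ℝ) ≤ X := by
    have h1 : (1 : ℝ) ≤ q * L ^ B := by
      have : (1 : ℝ) ≤ L ^ B := one_le_pow₀ hL1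
      nlinarith
    nlinarith
  -- the approximation
  have happ : |(q : ℝ) * θ - c / r| ≤ 1 / (r : ℝ) ^ 2 := by
    refine le_trans m4 ?_
    rw [div_le_div_iff₀ (by positivity) (by positivity)]
    have : (q : ℝ) * L ^ B * (r : ℝ) ^ 2 = ((r : ℝ) * (q * L ^ B)) * r := by ring
    rw [this]
    nlinarith
  have hM : 64 * P ≤ X := by
    have h1 : (64 : ℝ) * P ≤ X := by
      calc (64 : ℝ) * P ≤ (X : ℝ) ^ (2 / 3 - ε / 2) * (X : ℝ) ^ (1 / 3 + ε / 2) := by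
            apply mul_le_mul k3 hS2 (by positivity) (by positivity)
        _ = (X : ℝ) ^ (1 : ℝ) := by
            rw [← Real.rpow_add hX0]
            congr 1
            ring
        _ = X := Real.rpow_one _
    exact_mod_cast h1
  have hPX : P ≤ X := by omega
  set K : ℕ := X / P with hK
  have hK1 : 1 ≤ K := by
    rw [hK]
    exact (Nat.one_le_div_iff (by omega)).2 hPX
  have hKX : K ≤ X := Nat.div_le_self _ _
  set α : ArithmeticFunction ℝ := ∏ j ∈ S, bf z j (v j) with hα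
  set β : ArithmeticFunction ℝ := ∏ j ∈ Sᶜ, bf z j (v j) with hβ
  have hTT : TT z v = α * β := by
    rw [TT, hα, hβ, Finset.prod_mul_prod_compl]
  have hsup : ∀ n, α n ≠ 0 → P ≤ n ∧ n ≤ 64 * P := by
    intro n hn
    obtain ⟨h1, h2⟩ := prod_support z v S n hn
    refine ⟨h1, le_trans h2 ?_⟩
    have : ∏ j ∈ S, 2 ^ (v j + 1) = 2 ^ S.card * P := by
      rw [hP]
      simp_rw [pow_succ]
      rw [Finset.prod_mul_distrib, Finset.prod_const]
      ring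
    rw [this]
    apply Nat.mul_le_mul_right
    have hcard : S.card ≤ 6 := by
      have := Finset.card_le_univ S
      simpa using this
    calc 2 ^ S.card ≤ 2 ^ 6 := Nat.pow_le_pow_right (by norm_num) hcard
      _ = 64 := by norm_num
  have hlogle : ∀ N : ℕ, 1 ≤ N → N ≤ X → 1 + Real.log N ≤ 2 * L := by
    intro N h1 h2
    have h3 : (0 : ℝ) < N := by
      have : 0 < N := by omega
      exact_mod_cast this
    have : Real.log N ≤ L := Real.log_le_log h3 (by exact_mod_cast h2)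
    linarith
  have hSa : ∑ n ∈ Icc 1 (64 * P), α n ^ 2 ≤ ((64 * P : ℕ) : ℝ) * (2 * L) ^ (c0 + 2) :=
    boxII_sq α (fun n hn => prod_bound z v S n hn) c0 (64 * P) (by omega)
      (hc0 (64 * P) (by omega)).1 (2 * L) (hlogle _ (by omega) hM)
  have hSb : ∑ n ∈ Icc 1 K, β n ^ 2 ≤ (K : ℝ) * (2 * L) ^ (c0 + 2) :=
    boxII_sq β (fun n hn => prod_bound z v Sᶜ n hn) c0 K hK1
      (hc0 K hK1).1 (2 * L) (hlogle _ hK1 hKX)
  have hVQ : VQ X q (fun n => TT z v n) θ =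
      ∑ b ∈ (range q).filter (Nat.Coprime q),
      ‖∑ m ∈ Icc 1 (64 * P), ∑ k ∈ Icc 1 K, if m * k ≤ X ∧ (m * k) % q = b then
        ((α m * β k : ℝ) : ℂ) * ee (((m * k : ℕ) : ℝ) * θ) else 0‖ ^ 2 := by
    unfold VQ
    refine Finset.sum_congr rfl fun b _ => ?_
    rw [hTT]
    rw [conv_two α β X (fun n => n % q = b) (fun n => ee ((n : ℝ) * θ))]
    rw [boxII_restrict (fun n => α n) (fun n => β n) X P (64 * P) hP1 hsup
      (fun n => n % q = b) (fun n => ee ((n : ℝ) * θ))]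
  rw [hVQ]
  have hmain := hII q X (64 * P) K α β θ c r hq (by omega) hr1 m3 happ
  have hlogr := Real.log_natCast_nonneg r
  have hPK : (P : ℝ) * (K : ℝ) ≤ X := by
    have : P * (X / P) ≤ X := Nat.mul_div_le X P
    rw [← hK] at this
    exact_mod_cast this
  have g1 : (D * L ^ E) * ((P : ℝ) * q) ≤ X := by
    calc D * L ^ E * (P * q) ≤ (X : ℝ) ^ (ε / 2) * ((X : ℝ) ^ (1 / 3 + ε / 2) *
          (X : ℝ) ^ (2 / 3 - ε)) := by
          gcongr
      _ = (X : ℝ) ^ (1 : ℝ) := by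
          rw [← Real.rpow_add hX0, ← Real.rpow_add hX0]
          congr 1
          ring
      _ = X := Real.rpow_one _
  have g2 : (D * L ^ E) * ((r : ℝ) * q) ≤ X := by
    calc D * L ^ E * (r * q) ≤ L ^ B * (r * q) := by gcongr
      _ = (r : ℝ) * (q * L ^ B) := by ring
      _ ≤ X := hrq
  have g3 : (D * L ^ E) ≤ (r : ℝ) := le_trans hLBE m1.le
  have g4 : (D * L ^ E) ≤ (P : ℝ) := le_trans k1 hS1
  have g5 : (1 : ℝ) + Real.log r ≤ 2 * L := hlogle r hr1 (by exact_mod_cast hrX)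
  have g6 : (0 : ℝ) ≤ ∑ n ∈ Icc 1 (64 * P), α n ^ 2 := Finset.sum_nonneg fun n _ => sq_nonneg _
  have g7 : (0 : ℝ) ≤ ∑ n ∈ Icc 1 K, β n ^ 2 := Finset.sum_nonneg fun n _ => sq_nonneg _
  have hP0 : (0 : ℝ) < P := by exact_mod_cast hP1
  rw [Nat.cast_mul, Nat.cast_ofNat] at hmain hSa
  exact boxII_arith C X q r P K L _ (∑ n ∈ Icc 1 (64 * P), α n ^ 2) (∑ n ∈ Icc 1 K, β n ^ 2)
    (D * L ^ E) (1 + Real.log r) (c0 + 2) A hC hX0 hqR hr0 hP0 (Nat.cast_nonneg _) hL1 g6 g7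
    hmain (by linarith) g5 hSa hSb hPK (by rw [hD, hE, hc1]) g3 g4 g1 g2

end Pool.MP_dd84fd_nt.L2G
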