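import Pool.Agent.Lib.MP_dd84fd_nt.L2G.ModelArith
import Pool.Agent.Lib.MP_dd84fd_nt.L2G.MinSum

/-!
# Common tools for the modules ModelMinor, ModelMajor, ModelConv
-/

set_option autoImplicit false

namespace Pool.MP_dd84fd_nt.L2G

open Finset Pool.MP_67663b_nt.Odd

/-- the number of `n ≤ X` in a class mod `q` -/
def ma_cnt (X q : ℕ) (b : ZMod q) : ℕ := if (b - 1).val < X % q then X / q + 1 else X / q

theorem ma_sum (X q : ℕ) [NeZero q] (b : ZMod q) {M : Type} [AddCommMonoid M] (f : ℕ → M) :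
    ∑ n ∈ (Icc 1 X).filter (fun n : ℕ => (n : ZMod q) = b), f n =
      ∑ k ∈ range (ma_cnt X q b), f (k * q + (b - 1).val + 1) := by
  have hq : 0 < q := Nat.pos_of_ne_zero (NeZero.ne q)
  have hi : (b - 1).val < q := ZMod.val_lt _
  have hXq := Nat.div_add_mod X q
  have hs : X % q < q := Nat.mod_lt X hq
  symm
  refine Finset.sum_bij (fun k _ => k * q + (b - 1).val + 1) ?_ ?_ ?_ ?_
  · intro k hk
    rw [mem_range] at hk
    rw [mem_filter, mem_Icc]
    refine ⟨⟨by omega, ?_⟩, ?_⟩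
    · unfold ma_cnt at hk
      split_ifs at hk with h
      · have h1 : k * q ≤ (X / q) * q := Nat.mul_le_mul_right q (by omega)
        rw [mul_comm (X / q) q] at h1
        omega
      · have h1 : (k + 1) * q ≤ (X / q) * q := Nat.mul_le_mul_right q (by omega)
        rw [mul_comm (X / q) q, add_mul, one_mul] at h1
        omega
    · push_cast
      rw [ZMod.natCast_self, mul_zero, zero_add, ZMod.natCast_zmod_val, sub_add_cancel]
  · intro k _ k' _ h
    have h1 : k * q = k' * q := by omega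
    exact Nat.eq_of_mul_eq_mul_right hq h1
  · intro n hn
    rw [mem_filter, mem_Icc] at hn
    have h1 : (((n - 1 : ℕ)) : ZMod q) = b - 1 := by
      rw [Nat.cast_sub hn.1.1, hn.2, Nat.cast_one]
    have h2 : (n - 1) % q = (b - 1).val := by
      rw [← h1, ZMod.val_natCast]
    have h3 := Nat.div_add_mod (n - 1) q
    refine ⟨(n - 1) / q, ?_, ?_⟩
    · rw [mem_range]
      unfold ma_cnt
      have h4 : (n - 1) / q ≤ X / q := Nat.div_le_div_right (by omega)
      split_ifs with h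
      · omega
      · rcases h4.lt_or_eq with h5 | h5
        · exact h5
        · exfalso
          rw [h5, h2] at h3
          omega
    · rw [← h2, mul_comm]
      omega
  · intro k _
    rfl

theorem ma_cnt_le (X q : ℕ) [NeZero q] (b : ZMod q) : (ma_cnt X q b : ℝ) ≤ (X : ℝ) / q + 1 := by
  have hq : 0 < q := Nat.pos_of_ne_zero (NeZero.ne q)
  have h1 : ((X / q : ℕ) : ℝ) ≤ (X : ℝ) / q := Nat.cast_div_le
  unfold ma_cnt
  split_ifs
  · push_cast
    linarith
  · linarith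

theorem ma_cnt_ge (X q : ℕ) [NeZero q] (b : ZMod q) : (X : ℝ) / q - 1 ≤ (ma_cnt X q b : ℝ) := by
  have hq : 0 < q := Nat.pos_of_ne_zero (NeZero.ne q)
  have hqr : (0 : ℝ) < q := by exact_mod_cast hq
  have h1 : (X : ℝ) / q ≤ ((X / q : ℕ) : ℝ) + 1 := by
    rw [div_le_iff₀ hqr]
    have h2 := Nat.div_add_mod X q
    have h3 := Nat.mod_lt X hq
    have h4 : X ≤ (X / q + 1) * q := by
      rw [add_mul, one_mul, mul_comm (X / q) q]
      omega
    exact_mod_cast h4
  unfold ma_cnt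
  split_ifs
  · push_cast
    linarith
  · linarith

theorem ma_card (X q : ℕ) [NeZero q] (b : ZMod q) :
    ((Icc 1 X).filter (fun n : ℕ => (n : ZMod q) = b)).card = ma_cnt X q b := by
  have h := ma_sum X q b (fun _ => 1)
  simpa using h

/-- the exponential sum over a class: geometric sum -/
theorem ma_mn (X q : ℕ) [NeZero q] (b : ZMod q) (φ : ℝ) :
    ‖∑ n ∈ (Icc 1 X).filter (fun n : ℕ => (n : ZMod q) = b), ee (n * φ)‖ ≤
      mn ((X : ℝ) / q + 1) (q * φ) := by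
  rw [ma_sum]
  have h1 : ∑ k ∈ range (ma_cnt X q b), ee (((k * q + (b - 1).val + 1 : ℕ) : ℝ) * φ) =
      ee ((((b - 1).val : ℝ) + 1) * φ - q * φ) *
        ∑ m ∈ Ioc 0 (ma_cnt X q b), ee ((m : ℝ) * (q * φ)) := by
    rw [Finset.mul_sum]
    refine Finset.sum_bij (fun k _ => k + 1) ?_ ?_ ?_ ?_
    · intro k hk
      rw [mem_range] at hk
      rw [mem_Ioc]
      omega
    · intro k _ k' _ h
      omega
    · intro m hm
      rw [mem_Ioc] at hm
      exact ⟨m - 1, by rw [mem_range]; omega, by omega⟩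
    · intro k _
      rw [← ee_add]
      congr 1
      push_cast
      ring
  rw [h1, norm_mul, norm_ee, one_mul]
  refine geo_sum 0 (ma_cnt X q b) _ _ ?_ (by positivity)
  rw [Nat.cast_zero, sub_zero]
  exact ma_cnt_le X q b

theorem ma_mn_inv (M x δ : ℝ) (hδ : 0 < δ) (h : δ ≤ nrm x) : mn M x ≤ 1 / (2 * δ) := by
  have hx : 0 < nrm x := lt_of_lt_of_le hδ h
  have h1 : mn M x ≤ 1 / (2 * nrm x) := by
    unfold mn
    split_ifs with h
    · rw [le_div_iff₀ (by positivity)]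
      linarith
    · exact le_rfl
  refine h1.trans ?_
  exact one_div_le_one_div_of_le (by positivity) (by linarith)

private theorem ma_ee_cont (β : ℝ) : Continuous (fun t : ℝ => ee (t * β)) := by
  unfold ee
  fun_prop

private theorem ma_inner (W K s i : ℕ) (hW : 1 ≤ W) (hs : s ≤ W) (hi : i < W) (β : ℝ) :
    ‖(W : ℂ) * ∑ k ∈ range (if i < s then K + 1 else K), ee (((k * W + i + 1 : ℕ) : ℝ) * β) -
      KI (K * W + s) β‖ ≤ W * (3 + 7 * (|β| * ((K * W + s : ℕ) : ℝ))) := by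
  have hpi : 2 * Real.pi ≤ 7 := by
    have := Real.pi_lt_d2
    linarith
  have hWr : (1 : ℝ) ≤ W := by exact_mod_cast hW
  have hint : ∀ a b : ℝ, IntervalIntegrable (fun t : ℝ => ee (t * β)) MeasureTheory.volume a b :=
    fun a b => (ma_ee_cont β).intervalIntegrable a b
  -- split of the integral
  have h1 : KI (K * W + s) β = (∑ k ∈ range K, ∫ t in ((k : ℝ) * W)..(((k + 1 : ℕ) : ℝ) * W),
      ee (t * β)) + ∫ t in ((K : ℝ) * W)..((K : ℝ) * W + s), ee (t * β) := by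
    unfold KI
    have h2 := intervalIntegral.sum_integral_adjacent_intervals
      (f := fun t : ℝ => ee (t * β)) (μ := MeasureTheory.volume) (a := fun k : ℕ => (k : ℝ) * W)
      (n := K) (fun k _ => hint _ _)
    rw [h2]
    simp only [Nat.cast_zero, zero_mul]
    rw [intervalIntegral.integral_add_adjacent_intervals (hint _ _) (hint _ _)]
    push_cast
    rfl
  -- split of the sum
  obtain ⟨E, hE, hE1⟩ : ∃ E : ℂ, ‖E‖ ≤ 1 ∧
      ∑ k ∈ range (if i < s then K + 1 else K), ee (((k * W + i + 1 : ℕ) : ℝ) * β) =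
        ∑ k ∈ range K, ee (((k * W + i + 1 : ℕ) : ℝ) * β) + E := by
    by_cases h : i < s
    · rw [if_pos h]
      refine ⟨ee (((K * W + i + 1 : ℕ) : ℝ) * β), (norm_ee _).le, ?_⟩
      rw [sum_range_succ]
    · rw [if_neg h]
      exact ⟨0, by simp, by rw [add_zero]⟩
  have h3 : ∀ k : ℕ, ‖(W : ℂ) * ee (((k * W + i + 1 : ℕ) : ℝ) * β) -
      ∫ t in ((k : ℝ) * W)..(((k + 1 : ℕ) : ℝ) * W), ee (t * β)‖ ≤ 7 * |β| * W * W := by
    intro k
    have h4 : (W : ℂ) * ee (((k * W + i + 1 : ℕ) : ℝ) * β) =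
        ∫ t in ((k : ℝ) * W)..(((k + 1 : ℕ) : ℝ) * W), ee (((k * W + i + 1 : ℕ) : ℝ) * β) := by
      rw [intervalIntegral.integral_const]
      have : (((k + 1 : ℕ) : ℝ) * W - (k : ℝ) * W) = W := by push_cast; ring
      rw [this, Complex.real_smul]
      push_cast
      rfl
    rw [h4, ← intervalIntegral.integral_sub (by simp) (hint _ _)]
    have h5 := intervalIntegral.norm_integral_le_of_norm_le_const (a := (k : ℝ) * W)
      (b := ((k + 1 : ℕ) : ℝ) * W) (C := 7 * |β| * W)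
      (f := fun t => ee (((k * W + i + 1 : ℕ) : ℝ) * β) - ee (t * β)) (by
        intro t ht
        rw [Set.uIoc_of_le (by push_cast; nlinarith)] at ht
        refine (norm_ee_sub_ee_le _ _).trans ?_
        have h6 : (((k * W + i + 1 : ℕ) : ℝ) * β - t * β) = (((k * W + i + 1 : ℕ) : ℝ) - t) * β := by
          ring
        rw [h6, abs_mul]
        have h7 : |((k * W + i + 1 : ℕ) : ℝ) - t| ≤ W := by
          have hi' : ((i : ℝ) + 1) ≤ W := by exact_mod_cast hi
          have h8 := ht.1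
          have h9 := ht.2
          push_cast at h9 ⊢
          rw [abs_le]
          constructor
          · have : (0 : ℝ) ≤ i := Nat.cast_nonneg i
            nlinarith
          · nlinarith
        have hb := abs_nonneg β
        calc 2 * Real.pi * (|((k * W + i + 1 : ℕ) : ℝ) - t| * |β|)
            ≤ 7 * (W * |β|) := by gcongr
          _ = 7 * |β| * W := by ring)
    refine h5.trans (le_of_eq ?_)
    have : (((k + 1 : ℕ) : ℝ) * W - (k : ℝ) * W) = W := by push_cast; ring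
    rw [this, abs_of_nonneg (by linarith : (0 : ℝ) ≤ W)]
  have h5 : ‖∫ t in ((K : ℝ) * W)..((K : ℝ) * W + s), ee (t * β)‖ ≤ W := by
    have h6 := intervalIntegral.norm_integral_le_of_norm_le_const (a := (K : ℝ) * W)
      (b := (K : ℝ) * W + s) (C := 1) (f := fun t => ee (t * β)) (fun x _ => (norm_ee _).le)
    refine h6.trans ?_
    have h7 : (s : ℝ) ≤ W := by exact_mod_cast hs
    have h8 : (0 : ℝ) ≤ s := Nat.cast_nonneg s
    rw [add_sub_cancel_left, abs_of_nonneg h8, one_mul]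
    exact h7
  rw [hE1, h1]
  have h6 : (W : ℂ) * (∑ k ∈ range K, ee (((k * W + i + 1 : ℕ) : ℝ) * β) + E) -
      ((∑ k ∈ range K, ∫ t in ((k : ℝ) * W)..(((k + 1 : ℕ) : ℝ) * W), ee (t * β)) +
        ∫ t in ((K : ℝ) * W)..((K : ℝ) * W + s), ee (t * β)) =
      (∑ k ∈ range K, ((W : ℂ) * ee (((k * W + i + 1 : ℕ) : ℝ) * β) -
        ∫ t in ((k : ℝ) * W)..(((k + 1 : ℕ) : ℝ) * W), ee (t * β))) +
      ((W : ℂ) * E - ∫ t in ((K : ℝ) * W)..((K : ℝ) * W + s), ee (t * β)) := by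
    rw [sum_sub_distrib, ← Finset.mul_sum]
    ring
  rw [h6]
  refine (norm_add_le _ _).trans ?_
  have h7 : ‖∑ k ∈ range K, ((W : ℂ) * ee (((k * W + i + 1 : ℕ) : ℝ) * β) -
        ∫ t in ((k : ℝ) * W)..(((k + 1 : ℕ) : ℝ) * W), ee (t * β))‖ ≤ K * (7 * |β| * W * W) := by
    refine (norm_sum_le _ _).trans ?_
    refine (Finset.sum_le_card_nsmul _ _ _ (fun k _ => h3 k)).trans (le_of_eq ?_)
    rw [card_range, nsmul_eq_mul]
  have h8 : ‖(W : ℂ) * E - ∫ t in ((K : ℝ) * W)..((K : ℝ) * W + s), ee (t * β)‖ ≤ W + W := by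
    refine (norm_sub_le _ _).trans ?_
    refine add_le_add ?_ h5
    rw [norm_mul, Complex.norm_natCast]
    calc (W : ℝ) * ‖E‖ ≤ W * 1 := by gcongr
      _ = W := mul_one _
  have hK : (0 : ℝ) ≤ K := Nat.cast_nonneg K
  have hs0 : (0 : ℝ) ≤ s := Nat.cast_nonneg s
  have hb := abs_nonneg β
  have h9 : (0 : ℝ) ≤ W * (7 * (|β| * s)) := by positivity
  refine (add_le_add h7 h8).trans ?_
  push_cast
  nlinarith


/-- the exponential sum over a class: main term -/
theorem ma_KI (X q : ℕ) [NeZero q] (b : ZMod q) (β : ℝ) :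
    ‖(q : ℂ) * ∑ n ∈ (Icc 1 X).filter (fun n : ℕ => (n : ZMod q) = b), ee (n * β) - KI X β‖ ≤
      q * (3 + 7 * (|β| * X)) := by
  have hq : 1 ≤ q := Nat.pos_of_ne_zero (NeZero.ne q)
  have hX : (X / q) * q + X % q = X := by
    rw [mul_comm]; exact Nat.div_add_mod X q
  have h := ma_inner q (X / q) (X % q) (b - 1).val hq (Nat.mod_lt X hq).le (ZMod.val_lt _) β
  rw [hX] at h
  rw [ma_sum]
  exact h

/-- distance of a nonintegral fraction to the integers -/
theorem ma_nrm_frac (z : ℤ) (k : ℕ) (hk : 1 ≤ k) (h : ¬ (k : ℤ) ∣ z) :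
    1 / (k : ℝ) ≤ nrm ((z : ℝ) / k) := by
  have hk0 : (0 : ℝ) < k := by exact_mod_cast hk
  unfold nrm
  set m := round ((z : ℝ) / k)
  have h1 : z - m * k ≠ 0 := by
    intro h0
    apply h
    exact ⟨m, by linarith⟩
  have h2 : (1 : ℝ) ≤ |((z - m * k : ℤ) : ℝ)| := by
    have : 1 ≤ |z - m * k| := Int.one_le_abs h1
    rw [← Int.cast_abs]
    exact_mod_cast this
  have h3 : (z : ℝ) / k - m = ((z - m * k : ℤ) : ℝ) / k := by
    push_cast
    field_simp
  rw [h3, abs_div, abs_of_pos hk0]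
  exact div_le_div_of_nonneg_right h2 hk0.le

theorem ma_nrm_add (x δ : ℝ) : nrm x - |δ| ≤ nrm (x + δ) := by
  unfold nrm
  have h1 : |x - round x| ≤ |x - ((round (x + δ) : ℤ) : ℝ)| := round_le x (round (x + δ))
  have h2 : |x - ((round (x + δ) : ℤ) : ℝ)| ≤ |x + δ - ((round (x + δ) : ℤ) : ℝ)| + |δ| := by
    have := abs_sub (x + δ - ((round (x + δ) : ℤ) : ℝ)) δ
    have e : x + δ - ((round (x + δ) : ℤ) : ℝ) - δ = x - ((round (x + δ) : ℤ) : ℝ) := by ring
    rw [e] at this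
    exact this
  linarith

theorem ma_nu_zero (X R q n : ℕ) (h : ¬ IsUnit (n : ZMod q)) : nu X R q n = 0 := by
  unfold nu
  rw [if_neg]
  rintro ⟨-, -, h3⟩
  exact h ((ZMod.isUnit_iff_coprime n q).mpr h3)

/-- the model as a combination of exponentials -/
theorem ma_nu_eq (X R q n : ℕ) (h1 : 1 ≤ n) (hX : n ≤ X) (h : IsUnit (n : ZMod q)) :
    ((nu X R q n : ℝ) : ℂ) = (((q : ℝ) / (Nat.totient q : ℝ) : ℝ) : ℂ) *
      ∑ r ∈ (Icc 1 R).filter (fun r => Nat.Coprime r q),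
        ((((ArithmeticFunction.moebius r : ℤ) : ℝ) / (Nat.totient r : ℝ) : ℝ) : ℂ) *
          ∑ t ∈ (range r).filter (Nat.Coprime r), ee ((n : ℝ) * ((t : ℝ) / r)) := by
  unfold nu
  rw [if_pos ⟨h1, hX, (ZMod.isUnit_iff_coprime n q).mp h⟩, Complex.ofReal_mul, Complex.ofReal_sum]
  congr 1
  refine Finset.sum_congr rfl fun r hr => ?_
  rw [mem_filter, mem_Icc] at hr
  rw [Complex.ofReal_mul, cn_eq_cr r n hr.1.1]
  congr 1
  unfold cr
  refine Finset.sum_congr rfl fun t _ => ?_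
  congr 1
  push_cast
  ring

/-- size of `μ(r) / φ(r)` -/
theorem ma_mu_le (r : ℕ) (hr : 1 ≤ r) :
    |((ArithmeticFunction.moebius r : ℤ) : ℝ) / (Nat.totient r : ℝ)| * (Nat.totient r : ℝ) ≤ 1 := by
  have hφ : (0 : ℝ) < Nat.totient r := by exact_mod_cast Nat.totient_pos.mpr hr
  rw [abs_div, abs_of_pos hφ, div_mul_cancel₀ _ hφ.ne']
  have := ArithmeticFunction.abs_moebius_le_one (n := r)
  exact_mod_cast this

theorem ma_card_cop (r : ℕ) : ((range r).filter (Nat.Coprime r)).card = Nat.totient r := rfl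

theorem ma_ratio (q X : ℕ) (hq : 1 ≤ q) (hX : q ≤ X) :
    (q : ℝ) / (Nat.totient q : ℝ) ≤ 2 + 2 * Real.log X := by
  have hφ : (0 : ℝ) < Nat.totient q := by exact_mod_cast Nat.totient_pos.mpr hq
  rw [div_le_iff₀ hφ, mul_comm]
  refine (totient_lower q hq).trans ?_
  have : Real.log q ≤ Real.log X := Real.log_le_log (by exact_mod_cast hq) (by exact_mod_cast hX)
  gcongr

theorem ma_q_le (X q : ℕ) (hX : 1 ≤ X) (hq : (q : ℝ) ≤ (X : ℝ) ^ (2 / 3 : ℝ)) : q ≤ X := by
  have h1 : (1 : ℝ) ≤ X := by exact_mod_cast hX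
  have h2 : (X : ℝ) ^ (2 / 3 : ℝ) ≤ (X : ℝ) ^ (1 : ℝ) :=
    Real.rpow_le_rpow_of_exponent_le h1 (by norm_num)
  rw [Real.rpow_one] at h2
  exact_mod_cast hq.trans h2

theorem ma_Rm_le (X : ℕ) : (Rm X : ℝ) ≤ (X : ℝ) ^ (1 / 50 : ℝ) :=
  Nat.floor_le (by positivity)

/-- powers of the logarithm are smaller than powers -/
theorem ma_log_pow (C : ℕ) (c : ℝ) (hc : 0 < c) (D : ℝ) : ∀ᶠ X : ℕ in Filter.atTop,
    D * Real.log X ^ C ≤ (X : ℝ) ^ c := by
  have h1 : (fun x : ℝ => Real.log x ^ C) =o[Filter.atTop] (fun x : ℝ => x ^ c) := by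
    have := isLittleO_log_rpow_rpow_atTop (r := (C : ℝ)) (s := c) hc
    refine this.congr' ?_ (Filter.EventuallyEq.refl _ _)
    filter_upwards with x
    rw [Real.rpow_natCast]
  have h2 := h1.bound (c := 1 / (|D| + 1)) (by positivity)
  have h3 := tendsto_natCast_atTop_atTop (R := ℝ) |>.eventually h2
  filter_upwards [h3, Filter.eventually_ge_atTop 1] with X hX hX1
  have hX1' : (1 : ℝ) ≤ X := by exact_mod_cast hX1
  have hlog : 0 ≤ Real.log X := Real.log_nonneg hX1'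
  rw [Real.norm_of_nonneg (by positivity), Real.norm_of_nonneg (by positivity), one_div,
    inv_mul_eq_div, le_div_iff₀ (by positivity)] at hX
  have h4 : D ≤ |D| + 1 := by linarith [le_abs_self D]
  calc D * Real.log X ^ C ≤ (|D| + 1) * Real.log X ^ C :=
        mul_le_mul_of_nonneg_right h4 (by positivity)
    _ = Real.log X ^ C * (|D| + 1) := mul_comm _ _
    _ ≤ (X : ℝ) ^ c := hX

/-- the index set of the exponentials in the model -/
def ma_P (R q : ℕ) : Finset (Σ _ : ℕ, ℕ) :=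
  ((Icc 1 R).filter (fun r => Nat.Coprime r q)).sigma (fun r => (range r).filter (Nat.Coprime r))

/-- the coefficients of the exponentials in the model -/
noncomputable def ma_w (p : Σ _ : ℕ, ℕ) : ℝ :=
  ((ArithmeticFunction.moebius p.1 : ℤ) : ℝ) / (Nat.totient p.1 : ℝ)

/-- the frequencies of the exponentials in the model -/
noncomputable def ma_f (p : Σ _ : ℕ, ℕ) : ℝ := (p.2 : ℝ) / p.1

theorem ma_mem_P (R q : ℕ) (p : Σ _ : ℕ, ℕ) : p ∈ ma_P R q ↔
    1 ≤ p.1 ∧ p.1 ≤ R ∧ Nat.Coprime p.1 q ∧ p.2 < p.1 ∧ Nat.Coprime p.1 p.2 := by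
  unfold ma_P
  rw [mem_sigma, mem_filter, mem_filter, mem_Icc, mem_range]
  tauto

theorem ma_nu_P (X R q n : ℕ) (h1 : 1 ≤ n) (hX : n ≤ X) (h : IsUnit (n : ZMod q)) :
    ((nu X R q n : ℝ) : ℂ) = (((q : ℝ) / (Nat.totient q : ℝ) : ℝ) : ℂ) *
      ∑ p ∈ ma_P R q, ((ma_w p : ℝ) : ℂ) * ee ((n : ℝ) * ma_f p) := by
  rw [ma_nu_eq X R q n h1 hX h]
  congr 1
  unfold ma_P
  rw [Finset.sum_sigma]
  refine Finset.sum_congr rfl fun r _ => ?_
  rw [Finset.mul_sum]
  rfl

theorem ma_sum_w (R q : ℕ) : ∑ p ∈ ma_P R q, |ma_w p| ≤ R := by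
  unfold ma_P
  rw [Finset.sum_sigma]
  have h1 : ∀ r ∈ (Icc 1 R).filter (fun r => Nat.Coprime r q),
      ∑ t ∈ (range r).filter (Nat.Coprime r), |ma_w ⟨r, t⟩| ≤ 1 := by
    intro r hr
    rw [mem_filter, mem_Icc] at hr
    have e : ∀ t ∈ (range r).filter (Nat.Coprime r), |ma_w ⟨r, t⟩| =
        |((ArithmeticFunction.moebius r : ℤ) : ℝ) / (Nat.totient r : ℝ)| := fun t _ => rfl
    rw [Finset.sum_congr rfl e, Finset.sum_const, ma_card_cop, nsmul_eq_mul, mul_comm]
    exact ma_mu_le r hr.1.1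
  refine (Finset.sum_le_card_nsmul _ _ _ h1).trans ?_
  rw [nsmul_eq_mul, mul_one]
  have h2 : ((Icc 1 R).filter (fun r => Nat.Coprime r q)).card ≤ R := by
    refine (Finset.card_filter_le _ _).trans (le_of_eq ?_)
    simp
  exact_mod_cast h2

theorem ma_sum_SR (R q n : ℕ) :
    ∑ p ∈ ma_P R q, ((ma_w p : ℝ) : ℂ) ^ 2 * ee ((n : ℝ) * ma_f p) = ((SR R q n : ℝ) : ℂ) := by
  unfold ma_P SR
  rw [Finset.sum_sigma, Complex.ofReal_sum]
  refine Finset.sum_congr rfl fun r hr => ?_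
  rw [mem_filter, mem_Icc] at hr
  rw [Complex.ofReal_mul, cn_eq_cr r n hr.1.1]
  unfold cr ma_w ma_f
  rw [Finset.mul_sum]
  refine Finset.sum_congr rfl fun t _ => ?_
  congr 1
  · push_cast
    ring
  · congr 1
    push_cast
    ring

/-- spacing -/
theorem ma_spacing (q r r' : ℕ) (hr : 1 ≤ r) (hr' : 1 ≤ r') (hrq : Nat.Coprime r q)
    (hrq' : Nat.Coprime r' q) (z z' : ℤ) (hz : IsCoprime z (r : ℤ)) (hz' : IsCoprime z' (r' : ℤ))
    (h : ¬ (r = r' ∧ (r : ℤ) ∣ z + z')) :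
    1 / ((r : ℝ) * r') ≤ nrm (q * ((z : ℝ) / r + (z' : ℝ) / r')) := by
  have hr0 : (0 : ℝ) < r := by exact_mod_cast hr
  have hr0' : (0 : ℝ) < r' := by exact_mod_cast hr'
  have h1 : (q : ℝ) * ((z : ℝ) / r + (z' : ℝ) / r') =
      ((q * (z * r' + z' * r) : ℤ) : ℝ) / ((r * r' : ℕ) : ℝ) := by
    push_cast
    field_simp
  rw [h1]
  have h2 := ma_nrm_frac (q * (z * r' + z' * r)) (r * r') (Nat.mul_pos hr hr') ?_
  · push_cast at h2 ⊢
    exact h2
  · intro hdvd
    apply h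
    have hcop : IsCoprime ((r * r' : ℕ) : ℤ) (q : ℤ) := by
      rw [Nat.isCoprime_iff_coprime]
      exact Nat.Coprime.mul_left hrq hrq'
    have h3 : ((r * r' : ℕ) : ℤ) ∣ z * r' + z' * r := hcop.dvd_of_dvd_mul_left hdvd
    have h4 : (r : ℤ) ∣ z * r' := by
      have : (r : ℤ) ∣ z * r' + z' * r := (Dvd.intro _ (by push_cast; rfl)).trans h3
      rwa [dvd_add_left (Dvd.intro_left _ rfl)] at this
    have h5 : (r' : ℤ) ∣ z' * r := by
      have : (r' : ℤ) ∣ z * r' + z' * r := (Dvd.intro_left _ (by push_cast; rfl)).trans h3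
      rwa [dvd_add_right (Dvd.intro_left _ rfl)] at this
    have h6 : (r : ℤ) ∣ r' := hz.symm.dvd_of_dvd_mul_left h4
    have h7 : (r' : ℤ) ∣ r := hz'.symm.dvd_of_dvd_mul_left h5
    have h8 : r = r' := Nat.dvd_antisymm (by exact_mod_cast h6) (by exact_mod_cast h7)
    refine ⟨h8, ?_⟩
    subst h8
    have h9 : (r : ℤ) * r ∣ r * (z + z') := by
      have e : (r : ℤ) * (z + z') = z * r + z' * r := by ring
      rw [e]
      exact_mod_cast h3
    exact (mul_dvd_mul_iff_left (by exact_mod_cast hr0.ne')).mp h9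

end Pool.MP_dd84fd_nt.L2G
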