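import Pool.Agent.Lib.MP_dd84fd_nt.L2G.ChDefs
import Pool.Agent.Lib.MP_dd84fd_nt.L2G.DivMom

set_option autoImplicit false

namespace Pool.MP_dd84fd_nt.L2G

open Finset Pool.MP_67663b_nt.Odd

/-- Orthogonality of additive characters. -/
private theorem ModelArith_geom (m n : ℕ) (hm : 1 ≤ m) :
    ∑ j ∈ Finset.range m, ee ((n : ℝ) * ((j : ℝ) / m)) = if m ∣ n then (m : ℂ) else 0 := by
  have hm0 : (m : ℝ) ≠ 0 := by
    have : 0 < m := hm
    positivity
  have hpow : ∀ j : ℕ, ee ((n : ℝ) * ((j : ℝ) / m)) = ee ((n : ℝ) / m) ^ j := by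
    intro j
    induction j with
    | zero => simp [ee_zero]
    | succ j ih =>
      rw [pow_succ, ← ih, ← ee_add]
      congr 1
      push_cast
      ring
  simp only [hpow]
  split_ifs with h1
  · obtain ⟨k, rfl⟩ := h1
    have h2 : ((m * k : ℕ) : ℝ) / m = ((k : ℤ) : ℝ) := by
      push_cast
      field_simp
    rw [h2, ee_int]
    simp
  · have hne : ee ((n : ℝ) / m) ≠ 1 := by
      intro he
      unfold ee at he
      rw [Complex.exp_eq_one_iff] at he
      obtain ⟨k, hk⟩ := he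
      have hpi : (2 * Real.pi * Complex.I : ℂ) ≠ 0 := Complex.two_pi_I_ne_zero
      have h2 : (((n : ℝ) / m : ℝ) : ℂ) = (k : ℂ) := by
        have h3 : (((n : ℝ) / m : ℝ) : ℂ) * (2 * Real.pi * Complex.I) =
            (k : ℂ) * (2 * Real.pi * Complex.I) := by
          rw [← hk]
          ring
        exact mul_right_cancel₀ hpi h3
      have h4 : ((n : ℝ) / m : ℝ) = (k : ℝ) := by exact_mod_cast h2
      rw [div_eq_iff hm0] at h4
      have h5 : (n : ℤ) = k * m := by exact_mod_cast h4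
      apply h1
      have h6 : (m : ℤ) ∣ (n : ℤ) := Dvd.intro_left k h5.symm
      exact_mod_cast h6
    have hone : ee ((n : ℝ) / m) ^ m = 1 := by
      rw [← hpow]
      have : (n : ℝ) * ((m : ℝ) / m) = ((n : ℤ) : ℝ) := by
        rw [div_self hm0, mul_one]
        push_cast
        rfl
      rw [this, ee_int]
    rw [geom_sum_eq hne, hone, sub_self, zero_div]

/-- Möbius indicator of coprimality. -/
private theorem ModelArith_ind (r b : ℕ) (hr : r ≠ 0) :
    (∑ d ∈ r.divisors.filter (fun d => d ∣ b), (ArithmeticFunction.moebius d : ℂ)) =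
      if Nat.Coprime r b then 1 else 0 := by
  have h1 : r.divisors.filter (fun d => d ∣ b) = (Nat.gcd r b).divisors := by
    ext d
    simp only [Finset.mem_filter, Nat.mem_divisors, Nat.dvd_gcd_iff]
    have : Nat.gcd r b ≠ 0 := Nat.gcd_ne_zero_left hr
    tauto
  rw [h1]
  have h2 : ∑ d ∈ (Nat.gcd r b).divisors, (ArithmeticFunction.moebius d : ℤ) =
      if Nat.gcd r b = 1 then 1 else 0 := by
    have h3 := congrArg (fun f : ArithmeticFunction ℤ => f (Nat.gcd r b))
      ArithmeticFunction.moebius_mul_coe_zeta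
    simp only [ArithmeticFunction.coe_mul_zeta_apply, ArithmeticFunction.one_apply] at h3
    exact h3
  have h4 : (∑ d ∈ (Nat.gcd r b).divisors, (ArithmeticFunction.moebius d : ℂ)) =
      ((∑ d ∈ (Nat.gcd r b).divisors, (ArithmeticFunction.moebius d : ℤ) : ℤ) : ℂ) := by
    push_cast
    rfl
  rw [h4, h2]
  by_cases h : Nat.gcd r b = 1
  · rw [if_pos h, if_pos h]
    simp
  · rw [if_neg h, if_neg h]
    simp

/-- the gcd form of the divisor sum -/
private theorem ModelArith_divs (r n : ℕ) (hr : r ≠ 0) :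
    (Nat.gcd r n).divisors = r.divisors.filter (fun d => d ∣ n) := by
  ext d
  simp only [Finset.mem_filter, Nat.mem_divisors, Nat.dvd_gcd_iff]
  have : Nat.gcd r n ≠ 0 := Nat.gcd_ne_zero_left hr
  tauto

theorem cn_eq_cr (r n : ℕ) (hr : 1 ≤ r) : ((cn r n : ℝ) : ℂ) = cr r (n : ℤ) := by
  have hr0 : r ≠ 0 := by omega
  have e1 : cr r (n : ℤ) =
      ∑ b ∈ Finset.range r, ∑ d ∈ r.divisors, if d ∣ b then
        (ArithmeticFunction.moebius d : ℂ) * ee ((n : ℝ) * ((b : ℝ) / r)) else 0 := by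
    unfold cr
    rw [Finset.sum_filter]
    refine Finset.sum_congr rfl fun b _ => ?_
    rw [← Finset.sum_filter, ← Finset.sum_mul, ModelArith_ind r b hr0, mul_div_assoc]
    split_ifs <;> simp
  have e2 : ∀ d ∈ r.divisors, (∑ b ∈ Finset.range r, if d ∣ b then
        (ArithmeticFunction.moebius d : ℂ) * ee ((n : ℝ) * ((b : ℝ) / r)) else 0) =
      (fun e : ℕ => (if e ∣ n then (e : ℂ) else 0) * (ArithmeticFunction.moebius (r / e) : ℂ))
        (r / d) := by
    intro d hd
    rw [Nat.mem_divisors] at hd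
    obtain ⟨m, hm⟩ := hd.1
    have hd0 : d ≠ 0 := by
      rintro rfl
      exact hr0 (by rw [hm, zero_mul])
    have hm0 : m ≠ 0 := by
      rintro rfl
      exact hr0 (by rw [hm, mul_zero])
    have hd1 : (d : ℝ) ≠ 0 := by exact_mod_cast hd0
    have hm1 : (m : ℝ) ≠ 0 := by exact_mod_cast hm0
    have e3 : (∑ b ∈ Finset.range r, if d ∣ b then
        (ArithmeticFunction.moebius d : ℂ) * ee ((n : ℝ) * ((b : ℝ) / r)) else 0) =
        ∑ j ∈ Finset.range m, (ArithmeticFunction.moebius d : ℂ) * ee ((n : ℝ) * ((j : ℝ) / m)) := by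
      rw [← Finset.sum_filter]
      symm
      refine Finset.sum_bij (fun j _ => d * j) ?_ ?_ ?_ ?_
      · intro j hj
        rw [Finset.mem_range] at hj
        rw [Finset.mem_filter, Finset.mem_range, hm]
        exact ⟨Nat.mul_lt_mul_of_pos_left hj (Nat.pos_of_ne_zero hd0), dvd_mul_right d j⟩
      · intro j _ j' _ h
        exact Nat.eq_of_mul_eq_mul_left (Nat.pos_of_ne_zero hd0) h
      · intro b hb
        rw [Finset.mem_filter, Finset.mem_range] at hb
        obtain ⟨j, rfl⟩ := hb.2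
        refine ⟨j, ?_, rfl⟩
        rw [Finset.mem_range]
        have := hb.1
        rw [hm] at this
        exact Nat.lt_of_mul_lt_mul_left this
      · intro j _
        congr 2
        rw [hm]
        push_cast
        field_simp
    have hrd : r / d = m := by rw [hm, Nat.mul_div_cancel_left m (Nat.pos_of_ne_zero hd0)]
    have hrm : r / m = d := by rw [hm, Nat.mul_div_cancel d (Nat.pos_of_ne_zero hm0)]
    rw [e3, ← Finset.mul_sum, ModelArith_geom m n (Nat.one_le_iff_ne_zero.mpr hm0)]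
    simp only [hrd, hrm]
    ring
  rw [e1, Finset.sum_comm, Finset.sum_congr rfl e2,
    Nat.sum_div_divisors r (fun e : ℕ => (if e ∣ n then (e : ℂ) else 0) *
      (ArithmeticFunction.moebius (r / e) : ℂ))]
  unfold cn
  rw [ModelArith_divs r n hr0, Finset.sum_filter]
  push_cast
  refine Finset.sum_congr rfl fun d _ => ?_
  split_ifs with h
  · push_cast
    rfl
  · simp

private theorem ModelArith_mu (n : ℕ) : |((ArithmeticFunction.moebius n : ℤ) : ℝ)| ≤ 1 := by
  have := ArithmeticFunction.abs_moebius_le_one (n := n)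
  rw [← Int.cast_abs]
  exact_mod_cast this

/-- the trivial bound of the divisor sum -/
private theorem ModelArith_cn_le (r n : ℕ) :
    |cn r n| ≤ ∑ d ∈ (Nat.gcd r n).divisors, (d : ℝ) := by
  unfold cn
  refine (Finset.abs_sum_le_sum_abs _ _).trans (Finset.sum_le_sum fun d _ => ?_)
  rw [abs_mul, Nat.abs_cast]
  have h1 := ModelArith_mu (r / d)
  have h2 : (0 : ℝ) ≤ d := Nat.cast_nonneg d
  nlinarith

theorem cn_abs_le (r n : ℕ) (hr : 1 ≤ r) (hn : 1 ≤ n) :
    |cn r n| ≤ Nat.totient r ∧ |cn r n| ≤ n * (n.divisors.card : ℝ) := by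
  constructor
  · have h1 : |cn r n| = ‖cr r (n : ℤ)‖ := by
      rw [← cn_eq_cr r n hr, Complex.norm_real, Real.norm_eq_abs]
    rw [h1]
    unfold cr
    refine (norm_sum_le _ _).trans ?_
    simp only [norm_ee]
    rw [Finset.sum_const, nsmul_eq_mul, mul_one, Nat.totient]
  · refine (ModelArith_cn_le r n).trans ?_
    have h2 : (Nat.gcd r n).divisors ⊆ n.divisors :=
      Nat.divisors_subset_of_dvd (by omega) (Nat.gcd_dvd_right r n)
    refine (Finset.sum_le_sum_of_subset_of_nonneg h2 fun _ _ _ => Nat.cast_nonneg _).trans ?_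
    have h3 : ∀ d ∈ n.divisors, (d : ℝ) ≤ n := fun d hd => by
      exact_mod_cast Nat.divisor_le hd
    refine (Finset.sum_le_card_nsmul _ _ _ h3).trans ?_
    rw [nsmul_eq_mul, mul_comm]

/-- `d 1_{d ∣ n}` -/
private noncomputable def ModelArith_f (n : ℕ) : ArithmeticFunction ℝ :=
  ⟨fun d => if d ∣ n then (d : ℝ) else 0, by simp⟩

private theorem ModelArith_f_mult (n : ℕ) : (ModelArith_f n).IsMultiplicative := by
  refine ⟨?_, ?_⟩
  · simp [ModelArith_f]
  · intro a b hab
    simp only [ModelArith_f, ArithmeticFunction.coe_mk]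
    by_cases ha : a ∣ n
    · by_cases hb : b ∣ n
      · rw [if_pos ha, if_pos hb, if_pos (hab.mul_dvd_of_dvd_of_dvd ha hb)]
        push_cast
        rfl
      · rw [if_neg hb, if_neg (fun h => hb (dvd_of_mul_left_dvd h)), mul_zero]
    · rw [if_neg ha, if_neg (fun h => ha (dvd_of_mul_right_dvd h)), zero_mul]

private theorem ModelArith_cn_eq (r n : ℕ) :
    cn r n = (ModelArith_f n * (ArithmeticFunction.moebius : ArithmeticFunction ℝ)) r := by
  rw [ArithmeticFunction.mul_apply, Nat.sum_divisorsAntidiagonal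
    (fun d e => ModelArith_f n d * (ArithmeticFunction.moebius : ArithmeticFunction ℝ) e)]
  unfold cn
  rcases Nat.eq_zero_or_pos r with rfl | hr
  · rw [Nat.gcd_zero_left]
    simp
  · rw [ModelArith_divs r n (by omega), Finset.sum_filter]
    refine Finset.sum_congr rfl fun d _ => ?_
    simp only [ModelArith_f, ArithmeticFunction.coe_mk, ArithmeticFunction.intCoe_apply]
    split_ifs <;> simp

theorem cn_mul (r s n : ℕ) (h : Nat.Coprime r s) : cn (r * s) n = cn r n * cn s n := by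
  rw [ModelArith_cn_eq, ModelArith_cn_eq, ModelArith_cn_eq]
  exact ((ModelArith_f_mult n).mul
    ArithmeticFunction.isMultiplicative_moebius.intCast).map_mul_of_coprime h

theorem cn_prime (p n : ℕ) (hp : p.Prime) : cn p n = if p ∣ n then (p : ℝ) - 1 else -1 := by
  unfold cn
  split_ifs with h
  · rw [Nat.gcd_eq_left h, hp.sum_divisors]
    rw [Nat.div_self hp.pos, Nat.div_one, ArithmeticFunction.moebius_apply_prime hp]
    simp
    ring
  · have h1 : Nat.gcd p n = 1 := (Nat.Prime.coprime_iff_not_dvd hp).mpr h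
    rw [h1, Nat.divisors_one, Finset.sum_singleton, Nat.div_one,
      ArithmeticFunction.moebius_apply_prime hp]
    simp

/-- `∏_{m ∈ S} m / (m - 1) ≤ |S| + 1` for every finite set of integers `≥ 2` -/
private theorem ModelArith_prod (S : Finset ℕ) : (∀ m ∈ S, 2 ≤ m) →
    ∏ m ∈ S, ((m : ℝ) / ((m : ℝ) - 1)) ≤ S.card + 1 := by
  induction S using Finset.induction_on_max with
  | empty => intro _; simp
  | insert a s hmax ih =>
    intro h2
    have has : a ∉ s := fun h => lt_irrefl a (hmax a h)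
    rw [Finset.prod_insert has, Finset.card_insert_of_notMem has]
    have hih := ih fun m hm => h2 m (Finset.mem_insert_of_mem hm)
    have ha2 : 2 ≤ a := h2 a (Finset.mem_insert_self a s)
    have hcard : s.card + 2 ≤ a := by
      have hsub : s ⊆ Finset.Ico 2 a := fun m hm => by
        rw [Finset.mem_Ico]
        exact ⟨h2 m (Finset.mem_insert_of_mem hm), hmax m hm⟩
      have := Finset.card_le_card hsub
      rw [Nat.card_Ico] at this
      omega
    have ha : ((s.card : ℝ) + 2) ≤ a := by exact_mod_cast hcard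
    have hc0 : (0 : ℝ) ≤ s.card := Nat.cast_nonneg _
    have h3 : (a : ℝ) / ((a : ℝ) - 1) ≤ ((s.card : ℝ) + 2) / (s.card + 1) := by
      rw [div_le_div_iff₀ (by linarith) (by linarith)]
      nlinarith
    have h4 : 0 ≤ ∏ m ∈ s, ((m : ℝ) / ((m : ℝ) - 1)) := by
      refine Finset.prod_nonneg fun m hm => ?_
      have : (2 : ℝ) ≤ m := by exact_mod_cast h2 m (Finset.mem_insert_of_mem hm)
      exact div_nonneg (by linarith) (by linarith)
    calc (a : ℝ) / ((a : ℝ) - 1) * ∏ m ∈ s, ((m : ℝ) / ((m : ℝ) - 1))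
        ≤ ((s.card : ℝ) + 2) / (s.card + 1) * (s.card + 1) :=
          mul_le_mul h3 hih h4 (by positivity)
      _ = ((s.card + 1 : ℕ) : ℝ) + 1 := by
          push_cast
          field_simp
          ring

theorem totient_lower (q : ℕ) (hq : 1 ≤ q) :
    (q : ℝ) ≤ (Nat.totient q : ℝ) * (2 + 2 * Real.log q) := by
  have hq0 : (0 : ℝ) < q := by exact_mod_cast hq
  -- the product formula
  have h1 : (Nat.totient q : ℝ) = q * ∏ p ∈ q.primeFactors, (1 - (p : ℝ)⁻¹) := by
    have h2 := Nat.totient_eq_mul_prod_factors q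
    have h3 := congrArg (fun x : ℚ => (x : ℝ)) h2
    push_cast at h3
    exact h3
  have hp2 : ∀ p ∈ q.primeFactors, 2 ≤ p := fun p hp => (Nat.prime_of_mem_primeFactors hp).two_le
  have h2 : (∏ p ∈ q.primeFactors, (1 - (p : ℝ)⁻¹)) *
      ∏ p ∈ q.primeFactors, ((p : ℝ) / ((p : ℝ) - 1)) = 1 := by
    rw [← Finset.prod_mul_distrib]
    refine Finset.prod_eq_one fun p hp => ?_
    have h4 : (2 : ℝ) ≤ p := by exact_mod_cast hp2 p hp
    have h5 : (p : ℝ) - 1 ≠ 0 := by linarith
    have h6 : (p : ℝ) ≠ 0 := by linarith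
    field_simp
  have h3 := ModelArith_prod q.primeFactors hp2
  -- the number of prime factors
  have h4 : 2 ^ q.primeFactors.card ≤ q := by
    calc 2 ^ q.primeFactors.card ≤ ∏ p ∈ q.primeFactors, p :=
          Finset.pow_card_le_prod _ _ _ hp2
      _ ≤ q := Nat.le_of_dvd hq (Nat.prod_primeFactors_dvd q)
  have h5 : (q.primeFactors.card : ℝ) * Real.log 2 ≤ Real.log q := by
    rw [← Real.log_pow]
    exact Real.log_le_log (by positivity) (by exact_mod_cast h4)
  have h6 : (1 / 2 : ℝ) ≤ Real.log 2 := by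
    have := Real.log_two_gt_d9
    linarith
  have h7 : (q.primeFactors.card : ℝ) + 1 ≤ 2 + 2 * Real.log q := by
    have h8 : (0 : ℝ) ≤ q.primeFactors.card := Nat.cast_nonneg _
    nlinarith
  have h8 : 0 ≤ ∏ p ∈ q.primeFactors, (1 - (p : ℝ)⁻¹) := by
    refine Finset.prod_nonneg fun p hp => ?_
    have h9 : (2 : ℝ) ≤ p := by exact_mod_cast hp2 p hp
    have h10 : (p : ℝ)⁻¹ ≤ 1 := inv_le_one_of_one_le₀ (by linarith)
    linarith
  calc (q : ℝ) = q * ((∏ p ∈ q.primeFactors, (1 - (p : ℝ)⁻¹)) *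
        ∏ p ∈ q.primeFactors, ((p : ℝ) / ((p : ℝ) - 1))) := by rw [h2, mul_one]
    _ ≤ q * ((∏ p ∈ q.primeFactors, (1 - (p : ℝ)⁻¹)) * (2 + 2 * Real.log q)) :=
        mul_le_mul_of_nonneg_left (mul_le_mul_of_nonneg_left (h3.trans h7) h8) hq0.le
    _ = (Nat.totient q : ℝ) * (2 + 2 * Real.log q) := by rw [h1]; ring

private theorem ModelArith_pf (q t : ℕ) (hq : 1 ≤ q) (ht : 1 ≤ t)
    (h : ∀ p : ℕ, p.Prime → p ∣ t → p ∣ q) : (q * t).primeFactors = q.primeFactors := by
  rw [Nat.primeFactors_mul (by omega) (by omega), Finset.union_eq_left]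
  intro p hp
  have hpp := Nat.prime_of_mem_primeFactors hp
  exact Nat.mem_primeFactors.mpr ⟨hpp, h p hpp (Nat.dvd_of_mem_primeFactors hp), by omega⟩

private theorem ModelArith_cop (q t n : ℕ) (h : ∀ p : ℕ, p.Prime → p ∣ t → p ∣ q) :
    Nat.Coprime n (q * t) ↔ Nat.Coprime n q := by
  constructor
  · exact fun h1 => h1.coprime_dvd_right (Dvd.intro t rfl)
  · intro h1
    refine h1.mul_right ?_
    refine Nat.Coprime.symm (Nat.coprime_of_dvd fun p hp hpt hpn => ?_)
    exact hp.one_lt.ne' (Nat.Coprime.eq_one_of_dvd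
      (Nat.Coprime.coprime_dvd_left hpn h1) (h p hp hpt))

theorem nu_congr (X R q t n : ℕ) (hq : 1 ≤ q) (ht : 1 ≤ t)
    (h : ∀ p : ℕ, p.Prime → p ∣ t → p ∣ q) : nu X R (q * t) n = nu X R q n := by
  have hq0 : (q : ℝ) ≠ 0 := by
    have : 0 < q := hq
    positivity
  have ht0 : (t : ℝ) ≠ 0 := by
    have : 0 < t := ht
    positivity
  have h1 : ∀ m : ℕ, (Nat.totient m : ℝ) = m * ∏ p ∈ m.primeFactors, (1 - (p : ℝ)⁻¹) := by
    intro m
    have h2 := Nat.totient_eq_mul_prod_factors m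
    have h3 := congrArg (fun x : ℚ => (x : ℝ)) h2
    push_cast at h3
    exact h3
  have h2 : ((q * t : ℕ) : ℝ) / (Nat.totient (q * t) : ℝ) = (q : ℝ) / (Nat.totient q : ℝ) := by
    rw [h1 (q * t), h1 q, ModelArith_pf q t hq ht h]
    push_cast
    rw [div_mul_cancel_left₀ (mul_ne_zero hq0 ht0), div_mul_cancel_left₀ hq0]
  unfold nu
  simp only [ModelArith_cop q t _ h, h2]

/-- the sum of `1 / φ` -/
theorem ModelArith_sum_inv (R : ℕ) (L : ℝ) (hL : 0 ≤ L) (hR : 1 ≤ R → Real.log R ≤ L) :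
    ∑ s ∈ Icc 1 R, (1 : ℝ) / (Nat.totient s : ℝ) ≤ (2 + 2 * L) ^ 2 := by
  have h1 : ∀ s ∈ Icc 1 R, (1 : ℝ) / (Nat.totient s : ℝ) ≤ (2 + 2 * L) * (1 / s) := by
    intro s hs
    rw [Finset.mem_Icc] at hs
    have hs0 : (0 : ℝ) < s := by exact_mod_cast hs.1
    have h2 := totient_lower s hs.1
    have h3 : (0 : ℝ) < (Nat.totient s : ℝ) := by exact_mod_cast Nat.totient_pos.mpr hs.1
    have h4 : Real.log s ≤ L :=
      (Real.log_le_log hs0 (by exact_mod_cast hs.2)).trans (hR (hs.1.trans hs.2))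
    rw [mul_one_div, div_le_div_iff₀ h3 hs0, one_mul]
    nlinarith
  refine (Finset.sum_le_sum h1).trans ?_
  rw [← Finset.mul_sum]
  have h5 : ∑ s ∈ Icc 1 R, (1 : ℝ) / s ≤ 1 + L := by
    rcases Nat.eq_zero_or_pos R with rfl | hR1
    · simp
      linarith
    · have h := harmonic_le_one_add_log R
      rw [harmonic_eq_sum_Icc] at h
      push_cast at h
      have h6 := hR hR1
      simp only [one_div]
      linarith
  nlinarith [mul_le_mul_of_nonneg_left h5 (by linarith : (0 : ℝ) ≤ 2 + 2 * L)]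

/-- the weighted sum of the divisor sums -/
theorem ModelArith_cn_sum (R n : ℕ) (hn : 1 ≤ n) (L : ℝ) (hL : 0 ≤ L)
    (hR : 1 ≤ R → Real.log R ≤ L) (hnL : Real.log n ≤ L) :
    ∑ r ∈ Icc 1 R, |cn r n| / (Nat.totient r : ℝ) ≤
      (n.divisors.card : ℝ) * (2 + 2 * L) ^ 3 := by
  have h1 : ∀ r ∈ Icc 1 R, |cn r n| / (Nat.totient r : ℝ) ≤
      ∑ d ∈ n.divisors, if d ∣ r then (d : ℝ) / (Nat.totient r : ℝ) else 0 := by
    intro r hr
    rw [Finset.mem_Icc] at hr
    rw [← Finset.sum_filter]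
    have h2 : (Nat.gcd r n).divisors = n.divisors.filter (fun d => d ∣ r) := by
      rw [Nat.gcd_comm]
      exact ModelArith_divs n r (by omega)
    rw [← h2, ← Finset.sum_div]
    exact div_le_div_of_nonneg_right (ModelArith_cn_le r n) (Nat.cast_nonneg _)
  refine (Finset.sum_le_sum h1).trans ?_
  rw [Finset.sum_comm]
  have h2 : ∀ d ∈ n.divisors,
      ∑ r ∈ Icc 1 R, (if d ∣ r then (d : ℝ) / (Nat.totient r : ℝ) else 0) ≤ (2 + 2 * L) ^ 3 := by
    intro d hd
    have hd0 : 0 < d := Nat.pos_of_mem_divisors hd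
    have hdn : d ≤ n := Nat.divisor_le hd
    have hd1 : (0 : ℝ) < d := by exact_mod_cast hd0
    have hphi : (0 : ℝ) < (Nat.totient d : ℝ) := by exact_mod_cast Nat.totient_pos.mpr hd0
    have h3 : ∑ r ∈ Icc 1 R, (if d ∣ r then (d : ℝ) / (Nat.totient r : ℝ) else 0) ≤
        ∑ s ∈ Icc 1 R, (d : ℝ) / (Nat.totient d : ℝ) * (1 / (Nat.totient s : ℝ)) := by
      rw [← Finset.sum_filter]
      refine (Finset.sum_le_sum (g := fun r => (d : ℝ) / (Nat.totient d : ℝ) *
        (1 / (Nat.totient (r / d) : ℝ))) ?_).trans ?_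
      · intro r hr
        rw [Finset.mem_filter, Finset.mem_Icc] at hr
        obtain ⟨⟨hr1, hr2⟩, s, rfl⟩ := hr
        have hs : 0 < s := Nat.pos_of_mul_pos_left hr1
        rw [Nat.mul_div_cancel_left s hd0]
        have h4 : (Nat.totient d : ℝ) * (Nat.totient s : ℝ) ≤ (Nat.totient (d * s) : ℝ) := by
          exact_mod_cast Nat.totient_super_multiplicative d s
        have hs1 : (0 : ℝ) < (Nat.totient s : ℝ) := by exact_mod_cast Nat.totient_pos.mpr hs
        rw [div_mul_div_comm, mul_one]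
        exact div_le_div_of_nonneg_left hd1.le (by positivity) h4
      · have h5 : ∑ r ∈ (Icc 1 R).filter (fun r => d ∣ r), (d : ℝ) / (Nat.totient d : ℝ) *
            (1 / (Nat.totient (r / d) : ℝ)) =
            ∑ s ∈ ((Icc 1 R).filter (fun r => d ∣ r)).image (fun r => r / d),
              (d : ℝ) / (Nat.totient d : ℝ) * (1 / (Nat.totient s : ℝ)) := by
          rw [Finset.sum_image]
          intro r hr r' hr' heq
          rw [Finset.mem_coe, Finset.mem_filter] at hr hr'
          simp only at heq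
          rw [← Nat.mul_div_cancel' hr.2, ← Nat.mul_div_cancel' hr'.2, heq]
        rw [h5]
        refine Finset.sum_le_sum_of_subset_of_nonneg ?_ fun _ _ _ => by positivity
        intro s hs
        rw [Finset.mem_image] at hs
        obtain ⟨r, hr, rfl⟩ := hs
        rw [Finset.mem_filter, Finset.mem_Icc] at hr
        rw [Finset.mem_Icc]
        exact ⟨Nat.div_pos (Nat.le_of_dvd hr.1.1 hr.2) hd0, (Nat.div_le_self r d).trans hr.1.2⟩
    refine h3.trans ?_
    rw [← Finset.mul_sum]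
    have h6 := ModelArith_sum_inv R L hL hR
    have h7 : (d : ℝ) / (Nat.totient d : ℝ) ≤ 2 + 2 * L := by
      rw [div_le_iff₀ hphi]
      have h8 := totient_lower d hd0
      have h9 : Real.log d ≤ L := (Real.log_le_log hd1 (by exact_mod_cast hdn)).trans hnL
      nlinarith
    calc (d : ℝ) / (Nat.totient d : ℝ) * ∑ s ∈ Icc 1 R, (1 : ℝ) / (Nat.totient s : ℝ)
        ≤ (2 + 2 * L) * (2 + 2 * L) ^ 2 :=
          mul_le_mul h7 h6 (Finset.sum_nonneg fun _ _ => by positivity) (by linarith)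
      _ = (2 + 2 * L) ^ 3 := by ring
  refine (Finset.sum_le_sum h2).trans (le_of_eq ?_)
  rw [Finset.sum_const, nsmul_eq_mul]

/-- the pointwise bound of the model -/
theorem ModelArith_nu_le (X R q n : ℕ) (hX : 3 ≤ X) (hR : R ≤ X) (hq : 1 ≤ q) (hqX : q ≤ X)
    (hn : 1 ≤ n) (hnX : n ≤ X) :
    |nu X R q n| ≤ (n.divisors.card : ℝ) * (2 + 2 * Real.log X) ^ 4 := by
  have hX0 : (0 : ℝ) < X := by
    have : 0 < X := by omega
    exact_mod_cast this
  have hL : 0 ≤ Real.log X := Real.log_nonneg (by exact_mod_cast (by omega : 1 ≤ X))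
  have hlog : ∀ m : ℕ, 1 ≤ m → m ≤ X → Real.log m ≤ Real.log X := fun m h1 h2 =>
    Real.log_le_log (by exact_mod_cast h1) (by exact_mod_cast h2)
  unfold nu
  split_ifs with h
  · rw [abs_mul, abs_of_nonneg (by positivity)]
    have hphi : (0 : ℝ) < (Nat.totient q : ℝ) := by exact_mod_cast Nat.totient_pos.mpr hq
    have h1 : (q : ℝ) / (Nat.totient q : ℝ) ≤ 2 + 2 * Real.log X := by
      rw [div_le_iff₀ hphi]
      have h2 := totient_lower q hq
      have h3 := hlog q hq hqX
      nlinarith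
    have h2 : |∑ r ∈ (Icc 1 R).filter (fun r => Nat.Coprime r q),
        ((ArithmeticFunction.moebius r : ℤ) : ℝ) / (Nat.totient r : ℝ) * cn r n| ≤
        (n.divisors.card : ℝ) * (2 + 2 * Real.log X) ^ 3 := by
      refine (Finset.abs_sum_le_sum_abs _ _).trans ?_
      refine le_trans ?_ (ModelArith_cn_sum R n hn (Real.log X) hL (fun h1 => hlog R h1 hR)
        (hlog n hn hnX))
      refine (Finset.sum_le_sum_of_subset_of_nonneg (Finset.filter_subset _ _)
        fun _ _ _ => abs_nonneg _).trans (Finset.sum_le_sum fun r _ => ?_)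
      rw [abs_mul, abs_div, Nat.abs_cast, div_mul_eq_mul_div]
      refine div_le_div_of_nonneg_right ?_ (Nat.cast_nonneg _)
      have := ModelArith_mu r
      have h3 := abs_nonneg (cn r n)
      nlinarith
    calc (q : ℝ) / (Nat.totient q : ℝ) * _ ≤
        (2 + 2 * Real.log X) * ((n.divisors.card : ℝ) * (2 + 2 * Real.log X) ^ 3) :=
          mul_le_mul h1 h2 (abs_nonneg _) (by linarith)
      _ = _ := by ring
  · rw [abs_zero]
    positivity

theorem nu_L2 : ∃ C : ℕ, ∀ X R q : ℕ, 3 ≤ X → R ≤ X → 1 ≤ q → q ≤ X →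
    ∑ n ∈ Icc 1 X, nu X R q n ^ 2 ≤ X * Real.log X ^ C := by
  obtain ⟨C2, hC2⟩ := div_mom 2
  have hlog3 : (1 : ℝ) < Real.log 3 := by
    rw [Real.lt_log_iff_exp_lt (by norm_num)]
    have := Real.exp_one_lt_d9
    linarith
  obtain ⟨C0, hC0⟩ := pow_unbounded_of_one_lt (4 : ℝ) hlog3
  refine ⟨(C0 + 1) * (8 + C2), ?_⟩
  intro X R q hX hR hq hqX
  have hX0 : (0 : ℝ) < X := by
    have : 0 < X := by omega
    exact_mod_cast this
  have hL3 : Real.log 3 ≤ Real.log X :=
    Real.log_le_log (by norm_num) (by exact_mod_cast hX)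
  set L : ℝ := Real.log X with hLdef
  have hL1 : 1 ≤ L := hlog3.le.trans hL3
  have h4 : 2 + 2 * L ≤ L ^ (C0 + 1) := by
    have h5 : (4 : ℝ) ≤ L ^ C0 := hC0.le.trans (pow_le_pow_left₀ (by linarith) hL3 C0)
    rw [pow_succ]
    nlinarith
  have h5 : ∀ n ∈ Icc 1 X, nu X R q n ^ 2 ≤ (2 + 2 * L) ^ 8 * (n.divisors.card : ℝ) ^ 2 := by
    intro n hn
    rw [Finset.mem_Icc] at hn
    have h6 := ModelArith_nu_le X R q n hX hR hq hqX hn.1 hn.2
    calc nu X R q n ^ 2 = |nu X R q n| ^ 2 := (sq_abs _).symm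
      _ ≤ ((n.divisors.card : ℝ) * (2 + 2 * L) ^ 4) ^ 2 :=
        pow_le_pow_left₀ (abs_nonneg _) h6 2
      _ = (2 + 2 * L) ^ 8 * (n.divisors.card : ℝ) ^ 2 := by ring
  refine (Finset.sum_le_sum h5).trans ?_
  rw [← Finset.mul_sum]
  have h6 := (hC2 X (by omega)).1
  have h7 : (1 + L) ^ C2 ≤ (2 + 2 * L) ^ C2 := pow_le_pow_left₀ (by linarith) (by linarith) _
  calc (2 + 2 * L) ^ 8 * ∑ n ∈ Icc 1 X, (n.divisors.card : ℝ) ^ 2
      ≤ (2 + 2 * L) ^ 8 * (X * (2 + 2 * L) ^ C2) :=
        mul_le_mul_of_nonneg_left (h6.trans (mul_le_mul_of_nonneg_left h7 hX0.le)) (by positivity)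
    _ = X * (2 + 2 * L) ^ (8 + C2) := by rw [pow_add]; ring
    _ ≤ X * (L ^ (C0 + 1)) ^ (8 + C2) :=
        mul_le_mul_of_nonneg_left (pow_le_pow_left₀ (by linarith) h4 _) hX0.le
    _ = X * L ^ ((C0 + 1) * (8 + C2)) := by rw [pow_mul]

end Pool.MP_dd84fd_nt.L2G
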