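import Pool.Agent.Lib.MP_dd84fd_nt.L2G.CharOrth
import Pool.Agent.Lib.MP_dd84fd_nt.L2G.DivMom

set_option autoImplicit false

namespace Pool.MP_dd84fd_nt.L2G

open Finset Pool.MP_67663b_nt.Odd

theorem cell_mono (P H : ℕ) : Monotone (cell P H) := by
  intro i j hij
  unfold cell
  refine Nat.ceil_mono ?_
  refine mul_le_mul_of_nonneg_left (pow_le_pow_right₀ ?_ hij) (Nat.cast_nonneg _)
  have : (0 : ℝ) ≤ 1 / (H : ℝ) := by positivity
  linarith

theorem cell_zero (P H : ℕ) : cell P H 0 = P := by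
  unfold cell
  rw [pow_zero, mul_one, Nat.ceil_natCast]

theorem cell_last (P H : ℕ) (hP : 1 ≤ P) (hH : 1 ≤ H) : 64 * P < cell P H (10 * H) := by
  unfold cell
  rw [Nat.lt_ceil]
  have h1 : (2 : ℝ) ≤ (1 + 1 / (H : ℝ)) ^ H := by
    have hH' : (0 : ℝ) < H := by exact_mod_cast hH
    have h0 : (0 : ℝ) ≤ 1 / (H : ℝ) := by positivity
    have h2 := one_add_mul_le_pow (a := 1 / (H : ℝ)) (by linarith) H
    rw [mul_one_div_cancel hH'.ne'] at h2
    linarith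
  have h2 : (1024 : ℝ) ≤ (1 + 1 / (H : ℝ)) ^ (10 * H) := by
    rw [mul_comm, pow_mul]
    calc (1024 : ℝ) = 2 ^ 10 := by norm_num
      _ ≤ _ := pow_le_pow_left₀ (by norm_num) h1 10
  have hP' : (1 : ℝ) ≤ P := by exact_mod_cast hP
  push_cast
  nlinarith

theorem cell_step (P H i m : ℕ) (hH : 1 ≤ H) (h1 : cell P H i ≤ m) (h2 : m < cell P H (i + 1)) :
    (m : ℝ) ≤ (1 + 1 / (H : ℝ)) * cell P H i := by
  have hH' : (0 : ℝ) < H := by exact_mod_cast hH
  have h3 : (P : ℝ) * (1 + 1 / (H : ℝ)) ^ i ≤ cell P H i := Nat.le_ceil _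
  have h4 : (m : ℝ) < (P : ℝ) * (1 + 1 / (H : ℝ)) ^ (i + 1) := by
    unfold cell at h2
    exact Nat.lt_ceil.mp h2
  have h0 : (0 : ℝ) ≤ 1 + 1 / (H : ℝ) := by positivity
  calc (m : ℝ) ≤ (P : ℝ) * (1 + 1 / (H : ℝ)) ^ (i + 1) := h4.le
    _ = (1 + 1 / (H : ℝ)) * ((P : ℝ) * (1 + 1 / (H : ℝ)) ^ i) := by
        rw [pow_succ]
        ring
    _ ≤ _ := mul_le_mul_of_nonneg_left h3 h0

private noncomputable def SepVar_ix (P H m : ℕ) : ℕ :=
  Nat.findGreatest (fun i => cell P H i ≤ m) (10 * H - 1)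

private theorem SepVar_ix_lt (P H m : ℕ) (hH : 1 ≤ H) : SepVar_ix P H m < 10 * H := by
  have h := Nat.findGreatest_le (P := fun i => cell P H i ≤ m) (10 * H - 1)
  unfold SepVar_ix
  omega

private theorem SepVar_ix_spec (P H m : ℕ) (hP : 1 ≤ P) (hH : 1 ≤ H) (h1 : P ≤ m)
    (h2 : m ≤ 64 * P) :
    cell P H (SepVar_ix P H m) ≤ m ∧ m < cell P H (SepVar_ix P H m + 1) := by
  constructor
  · exact Nat.findGreatest_spec (P := fun i => cell P H i ≤ m) (Nat.zero_le _)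
      (by rw [cell_zero]; exact h1)
  · by_contra h
    push Not at h
    by_cases h3 : SepVar_ix P H m + 1 ≤ 10 * H - 1
    · have h4 := Nat.le_findGreatest (P := fun i => cell P H i ≤ m) h3 h
      unfold SepVar_ix at h4
      omega
    · have h4 : SepVar_ix P H m + 1 = 10 * H := by
        have := SepVar_ix_lt P H m hH
        omega
      rw [h4] at h
      have := cell_last P H hP hH
      omega

private theorem SepVar_ix_iff (P H m i : ℕ) (hP : 1 ≤ P) (hH : 1 ≤ H) (h1 : P ≤ m)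
    (h2 : m ≤ 64 * P) :
    SepVar_ix P H m = i ↔ cell P H i ≤ m ∧ m < cell P H (i + 1) := by
  have h := SepVar_ix_spec P H m hP hH h1 h2
  constructor
  · rintro rfl
    exact h
  · rintro ⟨h3, h4⟩
    rcases lt_trichotomy (SepVar_ix P H m) i with h5 | h5 | h5
    · have h6 := cell_mono P H (show SepVar_ix P H m + 1 ≤ i by omega)
      omega
    · exact h5
    · have h6 := cell_mono P H (show i + 1 ≤ SepVar_ix P H m by omega)
      omega

private theorem SepVar_pairs (M N : ℕ) (hMN : M ≤ N) (G : ℕ → ℕ → ℂ) :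
    ∑ n ∈ Icc 1 M, ∑ p ∈ n.divisorsAntidiagonal, G p.1 p.2 =
      ∑ m ∈ Icc 1 N, ∑ k ∈ Icc 1 N, if m * k ≤ M then G m k else 0 := by
  classical
  rw [← Finset.sum_product' (Icc 1 N) (Icc 1 N) (fun m k => if m * k ≤ M then G m k else 0),
    ← Finset.sum_filter, Finset.sum_sigma']
  refine Finset.sum_bij' (fun (x : Σ _ : ℕ, ℕ × ℕ) _ => (x.2.1, x.2.2))
    (fun (p : ℕ × ℕ) _ => (⟨p.1 * p.2, (p.1, p.2)⟩ : Σ _ : ℕ, ℕ × ℕ)) ?_ ?_ ?_ ?_ ?_
  · rintro ⟨n, m, k⟩ h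
    rw [Finset.mem_sigma, Finset.mem_Icc, Nat.mem_divisorsAntidiagonal] at h
    obtain ⟨⟨h1, h2⟩, h3, h4⟩ := h
    simp only at h1 h2 h3 h4
    have hm : 0 < m := Nat.pos_of_ne_zero (by rintro rfl; omega)
    have hk : 0 < k := Nat.pos_of_ne_zero (by rintro rfl; omega)
    have hm2 : m ≤ m * k := Nat.le_mul_of_pos_right m hk
    have hk2 : k ≤ m * k := Nat.le_mul_of_pos_left k hm
    rw [Finset.mem_filter, Finset.mem_product, Finset.mem_Icc, Finset.mem_Icc]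
    refine ⟨⟨⟨hm, ?_⟩, ⟨hk, ?_⟩⟩, ?_⟩ <;> simp only <;> omega
  · rintro ⟨m, k⟩ h
    rw [Finset.mem_filter, Finset.mem_product, Finset.mem_Icc, Finset.mem_Icc] at h
    obtain ⟨⟨⟨h1, h2⟩, ⟨h3, h4⟩⟩, h5⟩ := h
    simp only at h1 h2 h3 h4 h5
    rw [Finset.mem_sigma, Finset.mem_Icc, Nat.mem_divisorsAntidiagonal]
    have h6 : 0 < m * k := Nat.mul_pos h1 h3
    exact ⟨⟨h6, h5⟩, rfl, h6.ne'⟩
  · rintro ⟨n, m, k⟩ h
    rw [Finset.mem_sigma, Finset.mem_Icc, Nat.mem_divisorsAntidiagonal] at h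
    obtain ⟨⟨h1, h2⟩, h3, h4⟩ := h
    simp only at h3
    subst h3
    rfl
  · rintro ⟨m, k⟩ h
    rfl
  · rintro ⟨n, m, k⟩ h
    rfl

private noncomputable def SepVar_t (P H m : ℕ) : ℕ := cell P H (SepVar_ix P H m)

private noncomputable def SepVar_w (X P H : ℕ) (β : ℝ) (m k : ℕ) : ℂ :=
  (if m * k ≤ X then ee ((m * k : ℕ) * β) else 0) -
    (if SepVar_t P H m * k ≤ X then ee ((SepVar_t P H m * k : ℕ) * β) else 0)

private noncomputable def SepVar_e (X r P H : ℕ) (a b : ArithmeticFunction ℝ) (y : ℤ) (β : ℝ)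
    (n : ℕ) : ℂ :=
  ∑ p ∈ n.divisorsAntidiagonal, (a p.1 : ℂ) * b p.2 * ee (((p.1 * p.2 : ℕ) : ℝ) * (y / r)) *
    SepVar_w X P H β p.1 p.2

private noncomputable def SepVar_bc (X r H P : ℕ) (b : ArithmeticFunction ℝ) (y : ℤ)
    (β : ℝ) (i c k : ℕ) : ℂ :=
  if cell P H i * k ≤ X then (b k : ℂ) * ee (((c * k : ℕ) : ℝ) * (y / r)) *
    ee ((cell P H i * k : ℕ) * β) else 0

private noncomputable def SepVar_B (X q r H P K : ℕ) (b : ArithmeticFunction ℝ) (y : ℤ)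
    (β : ℝ) (χ : DirichletCharacter ℂ q) (i c : ℕ) : ℂ :=
  ∑ k ∈ Ioc 0 (0 + min K X), SepVar_bc X r H P b y β i c k * χ k

private theorem SepVar_ee_mod (r m k : ℕ) (hr : 1 ≤ r) (y : ℤ) :
    ee (((m * k : ℕ) : ℝ) * (y / r)) = ee (((m % r * k : ℕ) : ℝ) * (y / r)) := by
  have hr' : (r : ℝ) ≠ 0 := by
    have : 0 < r := hr
    exact_mod_cast this.ne'
  obtain ⟨d, hd⟩ : ∃ d, d = m / r := ⟨_, rfl⟩
  obtain ⟨c, hc⟩ : ∃ c, c = m % r := ⟨_, rfl⟩
  rw [← hc]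
  have h1 : ((m * k : ℕ) : ℝ) * (y / r) =
      ((c * k : ℕ) : ℝ) * (y / r) + (((((d * k : ℕ) : ℤ) * y : ℤ)) : ℝ) := by
    have h2 : (m : ℝ) = c + (r : ℝ) * d := by
      rw [hc, hd]
      exact_mod_cast (Nat.mod_add_div m r).symm
    push_cast
    rw [h2]
    field_simp
  rw [h1, ee_add_int]

private theorem SepVar_le_two (X P H m k : ℕ) (hP : 1 ≤ P) (hH : 1 ≤ H) (h1 : P ≤ m)
    (h2 : m ≤ 64 * P) (h3 : SepVar_t P H m * k ≤ X) : (m * k) * H ≤ X * (H + 1) := by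
  have h := SepVar_ix_spec P H m hP hH h1 h2
  have h4 := cell_step P H _ m hH h.1 h.2
  have hH' : (0 : ℝ) < H := by exact_mod_cast hH
  have h5 : ((SepVar_t P H m * k : ℕ) : ℝ) ≤ X := by exact_mod_cast h3
  have h6 : (((m * k) * H : ℕ) : ℝ) ≤ ((X * (H + 1) : ℕ) : ℝ) := by
    push_cast at h5 ⊢
    unfold SepVar_t at h5
    have h7 : (m : ℝ) * H ≤ (H + 1) * cell P H (SepVar_ix P H m) := by
      calc (m : ℝ) * H ≤ ((1 + 1 / (H : ℝ)) * cell P H (SepVar_ix P H m)) * H := by gcongr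
        _ = _ := by field_simp
    calc (m : ℝ) * k * H = (m * H) * k := by ring
      _ ≤ ((H + 1) * cell P H (SepVar_ix P H m)) * k := by gcongr
      _ = (H + 1) * (cell P H (SepVar_ix P H m) * k) := by ring
      _ ≤ (H + 1) * X := by gcongr
      _ = _ := by ring
  exact_mod_cast h6

private theorem SepVar_split (X q r H P K : ℕ) [NeZero q] (hr : 1 ≤ r) (hH : 1 ≤ H)
    (hP : 1 ≤ P) (hPX : P ≤ X) (a b : ArithmeticFunction ℝ)
    (ha : ∀ n, a n ≠ 0 → P ≤ n ∧ n ≤ 64 * P)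
    (hb : ∀ k, b k ≠ 0 → P * k ≤ X → k ≤ K) (y : ℤ) (β : ℝ) (χ : DirichletCharacter ℂ q) :
    ∑ n ∈ Icc 1 X, (((a * b) n : ℝ) : ℂ) * χ n * ee (n * (y / r + β)) =
      ∑ x ∈ range (10 * H) ×ˢ range r,
        (∑ m ∈ (Ico (cell P H x.1) (cell P H (x.1 + 1))).filter (fun m => m % r = x.2),
          (a m : ℂ) * χ m) * SepVar_B X q r H P K b y β χ x.1 x.2 +
      ∑ n ∈ Ioc 0 (0 + 2 * X), SepVar_e X r P H a b y β n * χ n := by
  classical
  obtain ⟨N, hN⟩ : ∃ N, N = 64 * X := ⟨_, rfl⟩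
  obtain ⟨g, hg⟩ : ∃ g : ℕ → ℕ → ℂ, g = fun m k => (a m : ℂ) * b k * χ m * χ k *
    ee (((m * k : ℕ) : ℝ) * (y / r)) := ⟨_, rfl⟩
  have hg0 : ∀ m k, a m = 0 → g m k = 0 := by
    intro m k h
    rw [hg]
    simp [h]
  -- the sum itself
  have hT : ∑ n ∈ Icc 1 X, (((a * b) n : ℝ) : ℂ) * χ n * ee (n * (y / r + β)) =
      ∑ m ∈ Icc 1 N, ∑ k ∈ Icc 1 N, if m * k ≤ X then g m k * ee ((m * k : ℕ) * β) else 0 := by
    rw [← SepVar_pairs X N (by omega) (fun m k => g m k * ee ((m * k : ℕ) * β))]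
    refine Finset.sum_congr rfl fun n _ => ?_
    rw [ArithmeticFunction.mul_apply]
    push_cast
    rw [Finset.sum_mul, Finset.sum_mul]
    refine Finset.sum_congr rfl fun p hp => ?_
    have h1 := (Nat.mem_divisorsAntidiagonal.mp hp).1
    rw [hg, ← h1]
    simp only
    rw [mul_add, ee_add]
    push_cast
    rw [map_mul χ]
    ring
  have hE : ∑ n ∈ Ioc 0 (0 + 2 * X), SepVar_e X r P H a b y β n * χ n =
      ∑ m ∈ Icc 1 N, ∑ k ∈ Icc 1 N,
        if m * k ≤ 2 * X then g m k * SepVar_w X P H β m k else 0 := by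
    rw [← SepVar_pairs (2 * X) N (by omega) (fun m k => g m k * SepVar_w X P H β m k)]
    have h0 : Ioc 0 (0 + 2 * X) = Icc 1 (2 * X) := by
      ext n
      rw [Finset.mem_Ioc, Finset.mem_Icc]
      omega
    rw [h0]
    refine Finset.sum_congr rfl fun n _ => ?_
    unfold SepVar_e
    rw [Finset.sum_mul]
    refine Finset.sum_congr rfl fun p hp => ?_
    have h1 := (Nat.mem_divisorsAntidiagonal.mp hp).1
    rw [hg]
    simp only
    rw [← h1]
    push_cast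
    rw [map_mul χ]
    ring
  have hM : ∑ m ∈ Icc 1 N, ∑ k ∈ Icc 1 N, g m k *
        (if SepVar_t P H m * k ≤ X then ee ((SepVar_t P H m * k : ℕ) * β) else 0) =
      ∑ x ∈ range (10 * H) ×ˢ range r,
        (∑ m ∈ (Ico (cell P H x.1) (cell P H (x.1 + 1))).filter (fun m => m % r = x.2),
          (a m : ℂ) * χ m) * SepVar_B X q r H P K b y β χ x.1 x.2 := by
    have h1 : ∀ m ∈ Icc 1 N, ∑ k ∈ Icc 1 N, g m k *
        (if SepVar_t P H m * k ≤ X then ee ((SepVar_t P H m * k : ℕ) * β) else 0) =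
        (a m : ℂ) * χ m * SepVar_B X q r H P K b y β χ (SepVar_ix P H m) (m % r) := by
      intro m _
      by_cases hm : a m = 0
      · rw [hm]
        simp [hg0 m _ hm]
      · obtain ⟨hm1, hm2⟩ := ha m hm
        have hsub : Ioc 0 (0 + min K X) ⊆ Icc 1 N := by
          intro k hk
          rw [Finset.mem_Ioc] at hk
          rw [Finset.mem_Icc]
          have := min_le_right K X
          omega
        unfold SepVar_B
        rw [Finset.mul_sum]
        symm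
        rw [Finset.sum_subset hsub]
        · refine Finset.sum_congr rfl fun k _ => ?_
          unfold SepVar_bc SepVar_t
          split_ifs with h2
          · rw [hg]
            simp only
            rw [SepVar_ee_mod r m k hr y]
            ring
          · ring
        · intro k hk1 hk2
          rw [Finset.mem_Icc] at hk1
          rw [Finset.mem_Ioc] at hk2
          have h3 : SepVar_bc X r H P b y β (SepVar_ix P H m) (m % r) k = 0 := by
            unfold SepVar_bc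
            split_ifs with h4
            · by_cases hbk : b k = 0
              · rw [hbk]
                simp
              · exfalso
                have h5 : P ≤ cell P H (SepVar_ix P H m) := by
                  have := cell_mono P H (Nat.zero_le (SepVar_ix P H m))
                  rwa [cell_zero] at this
                have h6 : P * k ≤ X := (Nat.mul_le_mul_right k h5).trans h4
                have h7 := hb k hbk h6
                have h8 : k ≤ X := by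
                  calc k = 1 * k := (one_mul k).symm
                    _ ≤ P * k := Nat.mul_le_mul_right k hP
                    _ ≤ X := h6
                have h9 : k ≤ min K X := le_min h7 h8
                omega
            · rfl
          rw [h3]
          ring
    rw [Finset.sum_congr rfl h1]
    rw [← Finset.sum_fiberwise_of_maps_to (s := Icc 1 N) (t := range (10 * H) ×ˢ range r)
      (g := fun m => (SepVar_ix P H m, m % r)) (fun m _ => by
        rw [Finset.mem_product, Finset.mem_range, Finset.mem_range]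
        exact ⟨SepVar_ix_lt P H m hH, Nat.mod_lt m hr⟩)]
    refine Finset.sum_congr rfl fun x hx => ?_
    rw [Finset.mem_product, Finset.mem_range, Finset.mem_range] at hx
    have h2 : ∀ m ∈ (Icc 1 N).filter (fun m => (SepVar_ix P H m, m % r) = x),
        (a m : ℂ) * χ m * SepVar_B X q r H P K b y β χ (SepVar_ix P H m) (m % r) =
        (a m : ℂ) * χ m * SepVar_B X q r H P K b y β χ x.1 x.2 := by
      intro m hm
      have h3 := (Finset.mem_filter.mp hm).2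
      rw [← h3]
    rw [Finset.sum_congr rfl h2, ← Finset.sum_mul]
    congr 1
    have h4 : ∀ s : Finset ℕ, ∑ m ∈ s, (a m : ℂ) * χ m =
        ∑ m ∈ s.filter (fun m => a m ≠ 0), (a m : ℂ) * χ m := by
      intro s
      symm
      refine Finset.sum_filter_of_ne fun m _ hm h0 => hm ?_
      rw [h0]
      simp
    rw [h4, h4 (Finset.filter _ (Ico _ _))]
    refine Finset.sum_congr ?_ fun _ _ => rfl
    ext m
    simp only [Finset.mem_filter, Finset.mem_Icc, Finset.mem_Ico]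
    constructor
    · rintro ⟨⟨_, h5⟩, h6⟩
      obtain ⟨hm1, hm2⟩ := ha m h6
      have h7 : SepVar_ix P H m = x.1 := by rw [← h5]
      have h8 : m % r = x.2 := by rw [← h5]
      exact ⟨⟨(SepVar_ix_iff P H m x.1 hP hH hm1 hm2).mp h7, h8⟩, h6⟩
    · rintro ⟨⟨h5, h8⟩, h6⟩
      obtain ⟨hm1, hm2⟩ := ha m h6
      refine ⟨⟨⟨by omega, by omega⟩, ?_⟩, h6⟩
      rw [(SepVar_ix_iff P H m x.1 hP hH hm1 hm2).mpr h5, h8]
  rw [hT, hE, ← hM, ← Finset.sum_add_distrib]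
  refine Finset.sum_congr rfl fun m _ => ?_
  rw [← Finset.sum_add_distrib]
  refine Finset.sum_congr rfl fun k _ => ?_
  by_cases hm : a m = 0
  · simp [hg0 m k hm]
  · obtain ⟨hm1, hm2⟩ := ha m hm
    unfold SepVar_w
    by_cases h2X : m * k ≤ 2 * X
    · rw [if_pos h2X]
      split_ifs <;> ring
    · have hX : ¬ m * k ≤ X := by omega
      have ht : ¬ SepVar_t P H m * k ≤ X := by
        intro h
        have h1 := SepVar_le_two X P H m k hP hH hm1 hm2 h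
        have h3 : X * (H + 1) ≤ X * (2 * H) := Nat.mul_le_mul_left X (by omega)
        have h4 : (m * k) * H ≤ (2 * X) * H := by
          calc (m * k) * H ≤ X * (2 * H) := h1.trans h3
            _ = (2 * X) * H := by ring
        exact h2X (Nat.le_of_mul_le_mul_right h4 hH)
      rw [if_neg h2X, if_neg hX, if_neg ht]
      ring

private theorem SepVar_log (X n : ℕ) (hX : 2 ≤ X) (hn : 1 ≤ n) (hn2 : n ≤ 2 * X) :
    0 ≤ 1 + Real.log n ∧ 1 + Real.log n ≤ 2 + Real.log X := by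
  have hX0 : (0 : ℝ) < X := by
    have : 0 < X := by omega
    exact_mod_cast this
  have hn0 : (1 : ℝ) ≤ n := by exact_mod_cast hn
  have h1 : Real.log n ≤ Real.log (2 * X) := by
    refine Real.log_le_log (by linarith) ?_
    exact_mod_cast hn2
  rw [Real.log_mul (by norm_num) hX0.ne'] at h1
  have h2 := Real.log_two_lt_d9
  have h3 := Real.log_nonneg hn0
  constructor <;> linarith

private theorem SepVar_card (n : ℕ) : (n.divisorsAntidiagonal.card : ℝ) = n.divisors.card := by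
  have h := Nat.sum_divisorsAntidiagonal (n := n) (fun _ _ => (1 : ℝ))
  simpa using h

private theorem SepVar_coef (X m n : ℕ) (hX : 2 ≤ X) (hn : 1 ≤ n) (hn2 : n ≤ 2 * X) (hm : m ∣ n)
    (a : ArithmeticFunction ℝ)
    (ha1 : ∀ n, 1 ≤ n → |a n| ≤ (1 + Real.log n) * (n.divisors.card : ℝ) ^ 5) :
    |a m| ≤ (2 + Real.log X) * (n.divisors.card : ℝ) ^ 5 := by
  have hm1 : 1 ≤ m := Nat.pos_of_dvd_of_pos hm hn
  have hm2 : m ≤ 2 * X := (Nat.le_of_dvd hn hm).trans hn2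
  obtain ⟨h1, h2⟩ := SepVar_log X m hX hm1 hm2
  have h3 : (m.divisors.card : ℝ) ≤ n.divisors.card := by
    exact_mod_cast Finset.card_le_card (Nat.divisors_subset_of_dvd (by omega) hm)
  refine (ha1 m hm1).trans ?_
  gcongr

private noncomputable def SepVar_wt (X H : ℕ) (β : ℝ) (n : ℕ) : ℝ :=
  if n ≤ X then 2 * Real.pi * (|β| * X / H) else if n * H ≤ X * (H + 1) then 1 else 0

private theorem SepVar_wt_nonneg (X H : ℕ) (β : ℝ) (n : ℕ) : 0 ≤ SepVar_wt X H β n := by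
  unfold SepVar_wt
  have := Real.pi_pos
  split_ifs <;> positivity

private theorem SepVar_w_bound (X P H m k : ℕ) (β : ℝ) (hP : 1 ≤ P) (hH : 1 ≤ H) (h1 : P ≤ m)
    (h2 : m ≤ 64 * P) : ‖SepVar_w X P H β m k‖ ≤ SepVar_wt X H β (m * k) := by
  have hs := SepVar_ix_spec P H m hP hH h1 h2
  have htm : SepVar_t P H m ≤ m := hs.1
  have htk : SepVar_t P H m * k ≤ m * k := Nat.mul_le_mul_right k htm
  have hH' : (0 : ℝ) < H := by exact_mod_cast hH
  unfold SepVar_w SepVar_wt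
  by_cases hX : m * k ≤ X
  · rw [if_pos hX, if_pos (htk.trans hX), if_pos hX]
    refine (norm_ee_sub_ee_le _ _).trans ?_
    have h4 := cell_step P H _ m hH hs.1 hs.2
    have h5 : |((m * k : ℕ) : ℝ) * β - ((SepVar_t P H m * k : ℕ) : ℝ) * β| ≤ |β| * X / H := by
      rw [← sub_mul, abs_mul]
      have h6 : |((m * k : ℕ) : ℝ) - ((SepVar_t P H m * k : ℕ) : ℝ)| ≤ X / H := by
        rw [abs_of_nonneg (sub_nonneg.mpr (by exact_mod_cast htk))]
        have h7 : ((SepVar_t P H m * k : ℕ) : ℝ) ≤ X := by exact_mod_cast htk.trans hX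
        rw [le_div_iff₀ hH']
        push_cast at h7 ⊢
        have h8 : ((m : ℝ) - SepVar_t P H m) * H ≤ SepVar_t P H m := by
          have h9 : (m : ℝ) * H ≤ (H + 1) * SepVar_t P H m := by
            calc (m : ℝ) * H ≤ ((1 + 1 / (H : ℝ)) * cell P H (SepVar_ix P H m)) * H := by gcongr
              _ = (H + 1) * cell P H (SepVar_ix P H m) := by field_simp
              _ = _ := rfl
          linarith
        calc ((m : ℝ) * k - SepVar_t P H m * k) * H = (((m : ℝ) - SepVar_t P H m) * H) * k := by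
              ring
          _ ≤ (SepVar_t P H m : ℝ) * k := by gcongr
          _ ≤ X := h7
      calc |((m * k : ℕ) : ℝ) - ((SepVar_t P H m * k : ℕ) : ℝ)| * |β| ≤ X / H * |β| := by gcongr
        _ = |β| * X / H := by ring
    have := Real.pi_pos
    gcongr
  · rw [if_neg hX, if_neg hX, zero_sub, norm_neg]
    by_cases hX2 : m * k * H ≤ X * (H + 1)
    · rw [if_pos hX2]
      split_ifs
      · rw [norm_ee]
      · simp
    · rw [if_neg hX2, if_neg, norm_zero]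
      intro h
      exact hX2 (SepVar_le_two X P H m k hP hH h1 h2 h)

private theorem SepVar_e_bound (X r P H : ℕ) (a b : ArithmeticFunction ℝ) (y : ℤ) (β : ℝ)
    (hX : 2 ≤ X) (hP : 1 ≤ P) (hH : 1 ≤ H)
    (ha1 : ∀ n, 1 ≤ n → |a n| ≤ (1 + Real.log n) * (n.divisors.card : ℝ) ^ 5)
    (hb1 : ∀ n, 1 ≤ n → |b n| ≤ (1 + Real.log n) * (n.divisors.card : ℝ) ^ 5)
    (ha : ∀ n, a n ≠ 0 → P ≤ n ∧ n ≤ 64 * P) (n : ℕ) (hn : 1 ≤ n) (hn2 : n ≤ 2 * X) :
    ‖SepVar_e X r P H a b y β n‖ ≤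
      (2 + Real.log X) ^ 2 * (n.divisors.card : ℝ) ^ 11 * SepVar_wt X H β n := by
  have hL : 0 ≤ 2 + Real.log X := by
    have : (1 : ℝ) ≤ X := by exact_mod_cast (by omega : 1 ≤ X)
    have := Real.log_nonneg this
    linarith
  have hw0 := SepVar_wt_nonneg X H β n
  unfold SepVar_e
  refine (norm_sum_le _ _).trans ?_
  have h1 : ∀ p ∈ n.divisorsAntidiagonal,
      ‖(a p.1 : ℂ) * b p.2 * ee (((p.1 * p.2 : ℕ) : ℝ) * (y / r)) *
        SepVar_w X P H β p.1 p.2‖ ≤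
      (2 + Real.log X) ^ 2 * (n.divisors.card : ℝ) ^ 10 * SepVar_wt X H β n := by
    intro p hp
    obtain ⟨hp1, hp2⟩ := Nat.mem_divisorsAntidiagonal.mp hp
    by_cases ha0 : a p.1 = 0
    · rw [ha0]
      simp only [Complex.ofReal_zero, zero_mul, norm_zero]
      positivity
    · obtain ⟨hm1, hm2⟩ := ha p.1 ha0
      rw [norm_mul, norm_mul, norm_mul, norm_ee, mul_one, Complex.norm_real, Complex.norm_real,
        Real.norm_eq_abs, Real.norm_eq_abs]
      have h2 := SepVar_coef X p.1 n hX hn hn2 ⟨p.2, hp1.symm⟩ a ha1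
      have h3 := SepVar_coef X p.2 n hX hn hn2 ⟨p.1, by rw [← hp1]; ring⟩ b hb1
      have h4 := SepVar_w_bound X P H p.1 p.2 β hP hH hm1 hm2
      rw [hp1] at h4
      calc |a p.1| * |b p.2| * ‖SepVar_w X P H β p.1 p.2‖
          ≤ ((2 + Real.log X) * (n.divisors.card : ℝ) ^ 5) *
            ((2 + Real.log X) * (n.divisors.card : ℝ) ^ 5) * SepVar_wt X H β n := by gcongr
        _ = _ := by ring
  refine (Finset.sum_le_sum h1).trans ?_
  rw [Finset.sum_const, nsmul_eq_mul, SepVar_card]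
  apply le_of_eq
  ring

private theorem SepVar_short (X H : ℕ) (hX : 2 ≤ X) (hH : 1 ≤ H) (D : ℕ)
    (hD : ∀ N : ℕ, 1 ≤ N → ∑ n ∈ Icc 1 N, (n.divisors.card : ℝ) ^ 44 ≤
      N * (1 + Real.log N) ^ D) :
    ∑ n ∈ (Ioc 0 (0 + 2 * X)).filter (fun n => X < n ∧ n * H ≤ X * (H + 1)),
      (n.divisors.card : ℝ) ^ 22 ≤ 2 * X / Real.sqrt H * (2 + Real.log X) ^ D := by
  obtain ⟨S, hS⟩ : ∃ S, S = (Ioc 0 (0 + 2 * X)).filter (fun n => X < n ∧ n * H ≤ X * (H + 1)) :=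
    ⟨_, rfl⟩
  rw [← hS]
  have hH' : (0 : ℝ) < H := by exact_mod_cast hH
  have hX' : (0 : ℝ) < X := by exact_mod_cast (by omega : 0 < X)
  have hL : (1 : ℝ) ≤ 2 + Real.log X := by
    have : (1 : ℝ) ≤ X := by exact_mod_cast (by omega : 1 ≤ X)
    have := Real.log_nonneg this
    linarith
  have hcard : (S.card : ℝ) ≤ X / H := by
    have h1 : S ⊆ Ioc X (X + X / H) := by
      intro n hn
      rw [hS, Finset.mem_filter] at hn
      rw [Finset.mem_Ioc]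
      refine ⟨hn.2.1, ?_⟩
      have h2 : n ≤ (X * (H + 1)) / H := (Nat.le_div_iff_mul_le hH).mpr hn.2.2
      have h3 : (X * (H + 1)) / H = X + X / H := by
        rw [mul_add, mul_one, add_comm, Nat.add_mul_div_right X X hH, add_comm]
      omega
    have h2 := Finset.card_le_card h1
    rw [Nat.card_Ioc, Nat.add_sub_cancel_left] at h2
    have h3 : S.card ≤ X / H := h2
    calc (S.card : ℝ) ≤ ((X / H : ℕ) : ℝ) := by exact_mod_cast h3
      _ ≤ X / H := Nat.cast_div_le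
  have h44 : ∑ n ∈ S, (n.divisors.card : ℝ) ^ 44 ≤ 2 * X * (2 + Real.log X) ^ D := by
    have h1 : S ⊆ Icc 1 (2 * X) := by
      intro n hn
      rw [hS, Finset.mem_filter, Finset.mem_Ioc] at hn
      rw [Finset.mem_Icc]
      omega
    calc ∑ n ∈ S, (n.divisors.card : ℝ) ^ 44 ≤ ∑ n ∈ Icc 1 (2 * X), (n.divisors.card : ℝ) ^ 44 :=
          Finset.sum_le_sum_of_subset_of_nonneg h1 fun _ _ _ => by positivity
      _ ≤ ((2 * X : ℕ) : ℝ) * (1 + Real.log ((2 * X : ℕ) : ℝ)) ^ D := hD (2 * X) (by omega)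
      _ ≤ 2 * X * (2 + Real.log X) ^ D := by
          obtain ⟨h2, h3⟩ := SepVar_log X (2 * X) hX (by omega) le_rfl
          push_cast at h2 h3 ⊢
          gcongr
  have hC : (∑ n ∈ S, (n.divisors.card : ℝ) ^ 22) ^ 2 ≤
      (2 * X / Real.sqrt H * (2 + Real.log X) ^ D) ^ 2 := by
    calc (∑ n ∈ S, (n.divisors.card : ℝ) ^ 22) ^ 2
        ≤ (S.card : ℝ) * ∑ n ∈ S, ((n.divisors.card : ℝ) ^ 22) ^ 2 := sq_sum_le_card_mul_sum_sq
      _ = (S.card : ℝ) * ∑ n ∈ S, (n.divisors.card : ℝ) ^ 44 := by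
          congr 1
          refine Finset.sum_congr rfl fun n _ => ?_
          ring
      _ ≤ (X / H) * (2 * X * (2 + Real.log X) ^ D) := by
          have : 0 ≤ ∑ n ∈ S, (n.divisors.card : ℝ) ^ 44 :=
            Finset.sum_nonneg fun _ _ => by positivity
          gcongr
      _ = 2 * X ^ 2 / H * (2 + Real.log X) ^ D := by ring
      _ ≤ 4 * X ^ 2 / H * ((2 + Real.log X) ^ D) ^ 2 := by
          have h5 : (2 + Real.log X) ^ D ≤ ((2 + Real.log X) ^ D) ^ 2 := by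
            have h6 : (1 : ℝ) ≤ (2 + Real.log X) ^ D := one_le_pow₀ hL
            nlinarith
          gcongr
          norm_num
      _ = _ := by
          rw [mul_pow, div_pow, Real.sq_sqrt hH'.le]
          ring
  have h0 : 0 ≤ 2 * X / Real.sqrt H * (2 + Real.log X) ^ D := by positivity
  have h00 : 0 ≤ ∑ n ∈ S, (n.divisors.card : ℝ) ^ 22 := Finset.sum_nonneg fun _ _ => by positivity
  exact (pow_le_pow_iff_left₀ h00 h0 (by norm_num)).mp hC

private theorem SepVar_esum (X r P H : ℕ) (a b : ArithmeticFunction ℝ) (y : ℤ) (β : ℝ)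
    (hX : 2 ≤ X) (hP : 1 ≤ P) (hH : 1 ≤ H)
    (ha1 : ∀ n, 1 ≤ n → |a n| ≤ (1 + Real.log n) * (n.divisors.card : ℝ) ^ 5)
    (hb1 : ∀ n, 1 ≤ n → |b n| ≤ (1 + Real.log n) * (n.divisors.card : ℝ) ^ 5)
    (ha : ∀ n, a n ≠ 0 → P ≤ n ∧ n ≤ 64 * P) (D1 D2 : ℕ)
    (hD1 : ∀ N : ℕ, 1 ≤ N → ∑ n ∈ Icc 1 N, (n.divisors.card : ℝ) ^ 22 ≤
      N * (1 + Real.log N) ^ D1)
    (hD2 : ∀ N : ℕ, 1 ≤ N → ∑ n ∈ Icc 1 N, (n.divisors.card : ℝ) ^ 44 ≤
      N * (1 + Real.log N) ^ D2) :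
    ∑ n ∈ Ioc 0 (0 + 2 * X), ‖SepVar_e X r P H a b y β n‖ ^ 2 ≤
      40 * X * (2 + Real.log X) ^ (4 + D1 + D2) * ((|β| * X / H) ^ 2 + 1 / Real.sqrt H) := by
  classical
  obtain ⟨Lc, hLc⟩ : ∃ Lc, Lc = 2 + Real.log X := ⟨_, rfl⟩
  have hX' : (0 : ℝ) < X := by exact_mod_cast (by omega : 0 < X)
  have hL : (1 : ℝ) ≤ Lc := by
    have : (1 : ℝ) ≤ X := by exact_mod_cast (by omega : 1 ≤ X)
    have := Real.log_nonneg this
    linarith
  have hL0 : (0 : ℝ) ≤ Lc := by linarith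
  rw [← hLc]
  obtain ⟨W, hW⟩ : ∃ W, W = 2 * Real.pi * (|β| * X / H) := ⟨_, rfl⟩
  have hW0 : 0 ≤ W := by
    rw [hW]
    have := Real.pi_pos
    positivity
  have h1 : ∀ n ∈ Ioc 0 (0 + 2 * X), ‖SepVar_e X r P H a b y β n‖ ^ 2 ≤
      Lc ^ 4 * ((if n ≤ X then W ^ 2 * (n.divisors.card : ℝ) ^ 22 else 0) +
        (if X < n ∧ n * H ≤ X * (H + 1) then (n.divisors.card : ℝ) ^ 22 else 0)) := by
    intro n hn
    rw [Finset.mem_Ioc] at hn
    have h2 := SepVar_e_bound X r P H a b y β hX hP hH ha1 hb1 ha n (by omega) (by omega)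
    rw [← hLc] at h2
    have hw0 := SepVar_wt_nonneg X H β n
    have h3 : ‖SepVar_e X r P H a b y β n‖ ^ 2 ≤
        (Lc ^ 2 * (n.divisors.card : ℝ) ^ 11 * SepVar_wt X H β n) ^ 2 :=
      pow_le_pow_left₀ (norm_nonneg _) h2 2
    refine h3.trans ?_
    have h4 : (Lc ^ 2 * (n.divisors.card : ℝ) ^ 11 * SepVar_wt X H β n) ^ 2 =
        Lc ^ 4 * ((SepVar_wt X H β n) ^ 2 * (n.divisors.card : ℝ) ^ 22) := by ring
    rw [h4]
    refine mul_le_mul_of_nonneg_left ?_ (by positivity)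
    unfold SepVar_wt
    rw [← hW]
    by_cases hnX : n ≤ X
    · rw [if_pos hnX, if_pos hnX, if_neg (by omega), add_zero]
    · rw [if_neg hnX, if_neg hnX, zero_add]
      by_cases hn2 : n * H ≤ X * (H + 1)
      · rw [if_pos hn2, if_pos ⟨by omega, hn2⟩]
        simp
      · rw [if_neg hn2, if_neg (fun h => hn2 h.2)]
        simp
  refine (Finset.sum_le_sum h1).trans ?_
  rw [← Finset.mul_sum, Finset.sum_add_distrib, ← Finset.sum_filter, ← Finset.sum_filter,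
    ← Finset.mul_sum]
  have h5 : ∑ n ∈ (Ioc 0 (0 + 2 * X)).filter (fun n => n ≤ X), (n.divisors.card : ℝ) ^ 22 ≤
      X * Lc ^ D1 := by
    have h6 : (Ioc 0 (0 + 2 * X)).filter (fun n => n ≤ X) ⊆ Icc 1 X := by
      intro n hn
      rw [Finset.mem_filter, Finset.mem_Ioc] at hn
      rw [Finset.mem_Icc]
      omega
    calc _ ≤ ∑ n ∈ Icc 1 X, (n.divisors.card : ℝ) ^ 22 :=
          Finset.sum_le_sum_of_subset_of_nonneg h6 fun _ _ _ => by positivity
      _ ≤ X * (1 + Real.log X) ^ D1 := hD1 X (by omega)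
      _ ≤ X * Lc ^ D1 := by
          obtain ⟨h7, h8⟩ := SepVar_log X X hX (by omega) (by omega)
          rw [hLc]
          gcongr
  have h6 := SepVar_short X H hX hH D2 hD2
  rw [← hLc] at h6
  have h7 : W ^ 2 ≤ 40 * (|β| * X / H) ^ 2 := by
    rw [hW]
    have h8 := Real.pi_lt_d2
    have h9 := Real.pi_pos
    have h10 : (2 * Real.pi) ^ 2 ≤ 40 := by nlinarith
    calc (2 * Real.pi * (|β| * X / H)) ^ 2 = (2 * Real.pi) ^ 2 * (|β| * X / H) ^ 2 := by ring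
      _ ≤ 40 * (|β| * X / H) ^ 2 := by gcongr
  have h8 : (1 : ℝ) ≤ Lc ^ D1 := one_le_pow₀ hL
  have h9 : (1 : ℝ) ≤ Lc ^ D2 := one_le_pow₀ hL
  have h10 : 0 ≤ (|β| * X / H) ^ 2 := by positivity
  have h11 : 0 ≤ 1 / Real.sqrt H := by positivity
  calc Lc ^ 4 * (W ^ 2 * ∑ n ∈ (Ioc 0 (0 + 2 * X)).filter (fun n => n ≤ X),
          (n.divisors.card : ℝ) ^ 22 +
        ∑ n ∈ (Ioc 0 (0 + 2 * X)).filter (fun n => X < n ∧ n * H ≤ X * (H + 1)),
          (n.divisors.card : ℝ) ^ 22)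
      ≤ Lc ^ 4 * (40 * (|β| * X / H) ^ 2 * (X * Lc ^ D1) + 2 * X / Real.sqrt H * Lc ^ D2) := by
        gcongr
    _ ≤ Lc ^ 4 * (40 * (|β| * X / H) ^ 2 * (X * (Lc ^ D1 * Lc ^ D2)) +
          40 * X * (1 / Real.sqrt H) * (Lc ^ D1 * Lc ^ D2)) := by
        have h12 : Lc ^ D1 ≤ Lc ^ D1 * Lc ^ D2 := by nlinarith
        have h13 : 2 * X / Real.sqrt H * Lc ^ D2 ≤
            40 * X * (1 / Real.sqrt H) * (Lc ^ D1 * Lc ^ D2) := by
          calc 2 * X / Real.sqrt H * Lc ^ D2 = (X * (1 / Real.sqrt H) * Lc ^ D2) * 2 := by ring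
            _ ≤ (X * (1 / Real.sqrt H) * Lc ^ D2) * (40 * Lc ^ D1) := by
                refine mul_le_mul_of_nonneg_left ?_ (by positivity)
                linarith
            _ = _ := by ring
        gcongr
    _ = _ := by
        rw [pow_add, pow_add]
        ring

private theorem SepVar_Bsum (X q r H P K : ℕ) [NeZero q] (hX : 2 ≤ X) (hK : 1 ≤ K)
    (b : ArithmeticFunction ℝ)
    (hb1 : ∀ n, 1 ≤ n → |b n| ≤ (1 + Real.log n) * (n.divisors.card : ℝ) ^ 5) (y : ℤ) (β : ℝ)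
    (D0 : ℕ) (hD0 : ∀ N : ℕ, 1 ≤ N → ∑ n ∈ Icc 1 N, (n.divisors.card : ℝ) ^ 10 ≤
      N * (1 + Real.log N) ^ D0) (i c : ℕ) :
    ∑ χ : DirichletCharacter ℂ q, ‖SepVar_B X q r H P K b y β χ i c‖ ^ 2 ≤
      (K + q) * K * (2 + Real.log X) ^ (2 + D0) := by
  obtain ⟨Lc, hLc⟩ : ∃ Lc, Lc = 2 + Real.log X := ⟨_, rfl⟩
  have hX' : (0 : ℝ) < X := by exact_mod_cast (by omega : 0 < X)
  have hL : (1 : ℝ) ≤ Lc := by
    have : (1 : ℝ) ≤ X := by exact_mod_cast (by omega : 1 ≤ X)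
    have := Real.log_nonneg this
    linarith
  have hL0 : (0 : ℝ) ≤ Lc := by linarith
  rw [← hLc]
  unfold SepVar_B
  refine (char_ms q 0 (min K X) (SepVar_bc X r H P b y β i c)).trans ?_
  have hKm : 1 ≤ min K X := le_min hK (by omega)
  have hmX : min K X ≤ X := min_le_right _ _
  have h1 : ∑ n ∈ Ioc 0 (0 + min K X), ‖SepVar_bc X r H P b y β i c n‖ ^ 2 ≤
      K * Lc ^ (2 + D0) := by
    calc ∑ n ∈ Ioc 0 (0 + min K X), ‖SepVar_bc X r H P b y β i c n‖ ^ 2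
        ≤ ∑ n ∈ Ioc 0 (0 + min K X), Lc ^ 2 * (n.divisors.card : ℝ) ^ 10 := by
          refine Finset.sum_le_sum fun n hn => ?_
          rw [Finset.mem_Ioc] at hn
          have h2 : ‖SepVar_bc X r H P b y β i c n‖ ≤ Lc * (n.divisors.card : ℝ) ^ 5 := by
            unfold SepVar_bc
            split_ifs
            · rw [norm_mul, norm_mul, norm_ee, norm_ee, mul_one, mul_one, Complex.norm_real,
                Real.norm_eq_abs, hLc]
              exact SepVar_coef X n n hX (by omega) (by omega) dvd_rfl b hb1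
            · rw [norm_zero]
              positivity
          calc ‖SepVar_bc X r H P b y β i c n‖ ^ 2 ≤ (Lc * (n.divisors.card : ℝ) ^ 5) ^ 2 :=
                pow_le_pow_left₀ (norm_nonneg _) h2 2
            _ = _ := by ring
      _ = Lc ^ 2 * ∑ n ∈ Ioc 0 (0 + min K X), (n.divisors.card : ℝ) ^ 10 := by
          rw [Finset.mul_sum]
      _ = Lc ^ 2 * ∑ n ∈ Icc 1 (min K X), (n.divisors.card : ℝ) ^ 10 := by
          congr 2
          ext n
          rw [Finset.mem_Ioc, Finset.mem_Icc]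
          omega
      _ ≤ Lc ^ 2 * (((min K X : ℕ) : ℝ) * (1 + Real.log ((min K X : ℕ) : ℝ)) ^ D0) := by
          gcongr
          exact hD0 _ hKm
      _ ≤ Lc ^ 2 * (K * Lc ^ D0) := by
          obtain ⟨h3, h4⟩ := SepVar_log X (min K X) hX hKm (by omega)
          have h5 : ((min K X : ℕ) : ℝ) ≤ K := by exact_mod_cast min_le_left K X
          rw [hLc]
          gcongr
      _ = K * Lc ^ (2 + D0) := by
          rw [pow_add]
          ring
  have h5 : ((min K X : ℕ) : ℝ) ≤ K := by exact_mod_cast min_le_left K X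
  calc (((min K X : ℕ) : ℝ) + q) * ∑ n ∈ Ioc 0 (0 + min K X),
        ‖SepVar_bc X r H P b y β i c n‖ ^ 2
      ≤ (K + q) * (K * Lc ^ (2 + D0)) := by
        have : 0 ≤ ∑ n ∈ Ioc 0 (0 + min K X), ‖SepVar_bc X r H P b y β i c n‖ ^ 2 :=
          Finset.sum_nonneg fun _ _ => by positivity
        gcongr
    _ = _ := by ring

theorem sep_var : ∃ C : ℕ, ∀ (X q r H P K : ℕ) [NeZero q], 2 ≤ X → q ≤ X → 1 ≤ r → r ≤ X →
    1 ≤ H → H ≤ X → 1 ≤ P → P ≤ X → 1 ≤ K → ∀ a b : ArithmeticFunction ℝ,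
    (∀ n, 1 ≤ n → |a n| ≤ (1 + Real.log n) * (n.divisors.card : ℝ) ^ 5) →
    (∀ n, 1 ≤ n → |b n| ≤ (1 + Real.log n) * (n.divisors.card : ℝ) ^ 5) →
    (∀ n, a n ≠ 0 → P ≤ n ∧ n ≤ 64 * P) → (∀ k, b k ≠ 0 → P * k ≤ X → k ≤ K) →
    ∀ (y : ℤ) (β V : ℝ) (𝓖 : Finset (DirichletCharacter ℂ q)), 0 ≤ V →
    (∀ χ ∈ 𝓖, ∀ i < 10 * H, ∀ c < r,
      ‖∑ m ∈ (Ico (cell P H i) (cell P H (i + 1))).filter (fun m => m % r = c),
        (a m : ℂ) * χ m‖ ≤ V) →
    ∑ χ ∈ 𝓖, ‖∑ n ∈ Icc 1 X, (((a * b) n : ℝ) : ℂ) * χ n * ee (n * (y / r + β))‖ ^ 2 ≤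
      (2 + Real.log X) ^ C * (((r : ℝ) * H * V) ^ 2 * (K + q) * K +
        X ^ 2 * ((|β| * X / H) ^ 2 + 1 / Real.sqrt H)) := by
  classical
  obtain ⟨D0, hD0⟩ := div_mom 10
  obtain ⟨D1, hD1⟩ := div_mom 22
  obtain ⟨D2, hD2⟩ := div_mom 44
  refine ⟨8 + (4 + D0 + D1 + D2), ?_⟩
  intro X q r H P K _ hX hq hr _ hH _ hP hPX hK a b ha1 hb1 ha hb y β V 𝓖 hV hA
  obtain ⟨Lc, hLc⟩ : ∃ Lc, Lc = 2 + Real.log X := ⟨_, rfl⟩
  have hX' : (0 : ℝ) < X := by exact_mod_cast (by omega : 0 < X)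
  have hL2 : (2 : ℝ) ≤ Lc := by
    have : (1 : ℝ) ≤ X := by exact_mod_cast (by omega : 1 ≤ X)
    have := Real.log_nonneg this
    linarith
  have hL : (1 : ℝ) ≤ Lc := by linarith
  have hL0 : (0 : ℝ) ≤ Lc := by linarith
  obtain ⟨M, hM⟩ : ∃ M : DirichletCharacter ℂ q → ℂ, M = fun χ =>
      ∑ x ∈ range (10 * H) ×ˢ range r,
        (∑ m ∈ (Ico (cell P H x.1) (cell P H (x.1 + 1))).filter (fun m => m % r = x.2),
          (a m : ℂ) * χ m) * SepVar_B X q r H P K b y β χ x.1 x.2 := ⟨_, rfl⟩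
  obtain ⟨E, hE⟩ : ∃ E : DirichletCharacter ℂ q → ℂ, E = fun χ =>
      ∑ n ∈ Ioc 0 (0 + 2 * X), SepVar_e X r P H a b y β n * χ n := ⟨_, rfl⟩
  have hsplit : ∀ χ : DirichletCharacter ℂ q,
      ∑ n ∈ Icc 1 X, (((a * b) n : ℝ) : ℂ) * χ n * ee (n * (y / r + β)) = M χ + E χ := by
    intro χ
    rw [hM, hE]
    exact SepVar_split X q r H P K hr hH hP hPX a b ha hb y β χ
  -- the main part
  have hMb : ∑ χ ∈ 𝓖, ‖M χ‖ ^ 2 ≤
      100 * (((r : ℝ) * H * V) ^ 2 * (K + q) * K) * Lc ^ (2 + D0) := by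
    have h1 : ∀ χ ∈ 𝓖, ‖M χ‖ ^ 2 ≤ ((10 * H * r : ℕ) : ℝ) * (V ^ 2 *
        ∑ x ∈ range (10 * H) ×ˢ range r, ‖SepVar_B X q r H P K b y β χ x.1 x.2‖ ^ 2) := by
      intro χ hχ
      have h2 : ‖M χ‖ ≤ ∑ x ∈ range (10 * H) ×ˢ range r,
          V * ‖SepVar_B X q r H P K b y β χ x.1 x.2‖ := by
        rw [hM]
        refine (norm_sum_le _ _).trans (Finset.sum_le_sum fun x hx => ?_)
        rw [Finset.mem_product, Finset.mem_range, Finset.mem_range] at hx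
        rw [norm_mul]
        exact mul_le_mul_of_nonneg_right (hA χ hχ x.1 hx.1 x.2 hx.2) (norm_nonneg _)
      calc ‖M χ‖ ^ 2 ≤ (∑ x ∈ range (10 * H) ×ˢ range r,
          V * ‖SepVar_B X q r H P K b y β χ x.1 x.2‖) ^ 2 :=
            pow_le_pow_left₀ (norm_nonneg _) h2 2
        _ ≤ ((range (10 * H) ×ˢ range r).card : ℝ) * ∑ x ∈ range (10 * H) ×ˢ range r,
          (V * ‖SepVar_B X q r H P K b y β χ x.1 x.2‖) ^ 2 := sq_sum_le_card_mul_sum_sq
        _ = _ := by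
            rw [Finset.card_product, Finset.card_range, Finset.card_range]
            congr 1
            rw [Finset.mul_sum]
            refine Finset.sum_congr rfl fun x _ => ?_
            ring
    calc ∑ χ ∈ 𝓖, ‖M χ‖ ^ 2 ≤ ∑ χ ∈ 𝓖, ((10 * H * r : ℕ) : ℝ) * (V ^ 2 *
          ∑ x ∈ range (10 * H) ×ˢ range r, ‖SepVar_B X q r H P K b y β χ x.1 x.2‖ ^ 2) :=
          Finset.sum_le_sum h1
      _ ≤ ∑ χ : DirichletCharacter ℂ q, ((10 * H * r : ℕ) : ℝ) * (V ^ 2 *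
          ∑ x ∈ range (10 * H) ×ˢ range r, ‖SepVar_B X q r H P K b y β χ x.1 x.2‖ ^ 2) :=
          Finset.sum_le_sum_of_subset_of_nonneg (Finset.subset_univ _)
            fun χ _ _ => by positivity
      _ = ((10 * H * r : ℕ) : ℝ) * (V ^ 2 * ∑ x ∈ range (10 * H) ×ˢ range r,
          ∑ χ : DirichletCharacter ℂ q, ‖SepVar_B X q r H P K b y β χ x.1 x.2‖ ^ 2) := by
          rw [← Finset.mul_sum, ← Finset.mul_sum, Finset.sum_comm]
      _ ≤ ((10 * H * r : ℕ) : ℝ) * (V ^ 2 * ∑ x ∈ range (10 * H) ×ˢ range r,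
          ((K + q) * K * Lc ^ (2 + D0))) := by
          gcongr with x _
          rw [hLc]
          exact SepVar_Bsum X q r H P K hX hK b hb1 y β D0 (fun N hN => (hD0 N hN).1) x.1 x.2
      _ = _ := by
          rw [Finset.sum_const, Finset.card_product, Finset.card_range, Finset.card_range,
            nsmul_eq_mul]
          push_cast
          ring
  -- the error
  have hEb : ∑ χ ∈ 𝓖, ‖E χ‖ ^ 2 ≤
      120 * (X ^ 2 * ((|β| * X / H) ^ 2 + 1 / Real.sqrt H)) * Lc ^ (4 + D1 + D2) := by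
    have h0 : ∑ n ∈ Ioc 0 (0 + 2 * X), ‖SepVar_e X r P H a b y β n‖ ^ 2 ≤
        40 * X * Lc ^ (4 + D1 + D2) * ((|β| * X / H) ^ 2 + 1 / Real.sqrt H) := by
      rw [hLc]
      exact SepVar_esum X r P H a b y β hX hP hH ha1 hb1 ha D1 D2 (fun N hN => (hD1 N hN).1)
        (fun N hN => (hD2 N hN).1)
    have hq' : (q : ℝ) ≤ X := by exact_mod_cast hq
    calc ∑ χ ∈ 𝓖, ‖E χ‖ ^ 2 ≤ ∑ χ : DirichletCharacter ℂ q, ‖E χ‖ ^ 2 :=
          Finset.sum_le_sum_of_subset_of_nonneg (Finset.subset_univ _)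
            fun χ _ _ => by positivity
      _ ≤ (((2 * X : ℕ) : ℝ) + q) *
          ∑ n ∈ Ioc 0 (0 + 2 * X), ‖SepVar_e X r P H a b y β n‖ ^ 2 := by
          rw [hE]
          exact char_ms q 0 (2 * X) (SepVar_e X r P H a b y β)
      _ ≤ (3 * X) * (40 * X * Lc ^ (4 + D1 + D2) * ((|β| * X / H) ^ 2 + 1 / Real.sqrt H)) := by
          have h2 : ((2 * X : ℕ) : ℝ) + q ≤ 3 * X := by
            push_cast
            linarith
          have h3 : 0 ≤ ∑ n ∈ Ioc 0 (0 + 2 * X), ‖SepVar_e X r P H a b y β n‖ ^ 2 :=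
            Finset.sum_nonneg fun _ _ => by positivity
          gcongr
      _ = _ := by ring
  obtain ⟨U1, hU1⟩ : ∃ U, U = ((r : ℝ) * H * V) ^ 2 * (K + q) * K := ⟨_, rfl⟩
  obtain ⟨U2, hU2⟩ : ∃ U, U = (X : ℝ) ^ 2 * ((|β| * X / H) ^ 2 + 1 / Real.sqrt H) := ⟨_, rfl⟩
  have hU10 : 0 ≤ U1 := by rw [hU1]; positivity
  have hU20 : 0 ≤ U2 := by rw [hU2]; positivity
  rw [← hLc, ← hU1, ← hU2]
  rw [← hU1] at hMb
  rw [← hU2] at hEb
  have h240 : (240 : ℝ) ≤ Lc ^ 8 := by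
    calc (240 : ℝ) ≤ 2 ^ 8 := by norm_num
      _ ≤ Lc ^ 8 := pow_le_pow_left₀ (by norm_num) hL2 8
  calc ∑ χ ∈ 𝓖, ‖∑ n ∈ Icc 1 X, (((a * b) n : ℝ) : ℂ) * χ n * ee (n * (y / r + β))‖ ^ 2
      ≤ ∑ χ ∈ 𝓖, (2 * ‖M χ‖ ^ 2 + 2 * ‖E χ‖ ^ 2) := by
        refine Finset.sum_le_sum fun χ _ => ?_
        rw [hsplit χ]
        have h1 := norm_add_le (M χ) (E χ)
        have h2 := norm_nonneg (M χ + E χ)
        have h3 : ‖M χ + E χ‖ ^ 2 ≤ (‖M χ‖ + ‖E χ‖) ^ 2 := pow_le_pow_left₀ h2 h1 2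
        nlinarith [sq_nonneg (‖M χ‖ - ‖E χ‖)]
    _ = 2 * ∑ χ ∈ 𝓖, ‖M χ‖ ^ 2 + 2 * ∑ χ ∈ 𝓖, ‖E χ‖ ^ 2 := by
        rw [Finset.sum_add_distrib, Finset.mul_sum, Finset.mul_sum]
    _ ≤ 2 * (100 * U1 * Lc ^ (2 + D0)) + 2 * (120 * U2 * Lc ^ (4 + D1 + D2)) := by gcongr
    _ ≤ 240 * U1 * Lc ^ (4 + D0 + D1 + D2) + 240 * U2 * Lc ^ (4 + D0 + D1 + D2) := by
        have h1 : Lc ^ (2 + D0) ≤ Lc ^ (4 + D0 + D1 + D2) := pow_le_pow_right₀ hL (by omega)
        have h2 : Lc ^ (4 + D1 + D2) ≤ Lc ^ (4 + D0 + D1 + D2) := pow_le_pow_right₀ hL (by omega)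
        have h3 : 2 * (100 * U1 * Lc ^ (2 + D0)) ≤ 240 * U1 * Lc ^ (4 + D0 + D1 + D2) := by
          calc 2 * (100 * U1 * Lc ^ (2 + D0)) = 200 * U1 * Lc ^ (2 + D0) := by ring
            _ ≤ 240 * U1 * Lc ^ (4 + D0 + D1 + D2) := by
                gcongr
                norm_num
        have h4 : 2 * (120 * U2 * Lc ^ (4 + D1 + D2)) ≤ 240 * U2 * Lc ^ (4 + D0 + D1 + D2) := by
          calc 2 * (120 * U2 * Lc ^ (4 + D1 + D2)) = 240 * U2 * Lc ^ (4 + D1 + D2) := by ring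
            _ ≤ 240 * U2 * Lc ^ (4 + D0 + D1 + D2) := by gcongr
        linarith
    _ = 240 * (Lc ^ (4 + D0 + D1 + D2) * (U1 + U2)) := by ring
    _ ≤ Lc ^ 8 * (Lc ^ (4 + D0 + D1 + D2) * (U1 + U2)) := by gcongr
    _ = Lc ^ (8 + (4 + D0 + D1 + D2)) * (U1 + U2) := by
        rw [pow_add Lc 8]
        ring

end Pool.MP_dd84fd_nt.L2G
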