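import Pool.Agent.Lib.MP_dd84fd_nt.L2G.CharOrth
import Pool.Agent.Lib.MP_dd84fd_nt.L2G.DivMom

set_option autoImplicit false

namespace Pool.MP_dd84fd_nt.L2G

open Finset Pool.MP_67663b_nt.Odd

/-- the `j`-fold Dirichlet convolution of `a` restricted to `[1, N]` -/
private noncomputable def MomCount_cf (N : ℕ) (a : ℕ → ℝ) : ℕ → ℕ → ℝ
  | 0, n => if n = 1 then 1 else 0
  | (j + 1), n => ∑ d ∈ n.divisors, (if d ≤ N then a d else 0) * MomCount_cf N a j (n / d)

private theorem MomCount_supp (N : ℕ) (a : ℕ → ℝ) : ∀ (j n : ℕ), N ^ j < n →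
    MomCount_cf N a j n = 0 := by
  intro j
  induction j with
  | zero =>
    intro n hn
    rw [pow_zero] at hn
    unfold MomCount_cf
    rw [if_neg (by omega)]
  | succ j ih =>
    intro n hn
    unfold MomCount_cf
    refine Finset.sum_eq_zero fun d hd => ?_
    split_ifs with h
    · rw [ih (n / d), mul_zero]
      have hdn := Nat.dvd_of_mem_divisors hd
      obtain ⟨e, he⟩ := hdn
      have hd0 : 0 < d := Nat.pos_of_mem_divisors hd
      rw [he, Nat.mul_div_cancel_left e hd0]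
      by_contra hcon
      push Not at hcon
      have : n ≤ N ^ (j + 1) := by
        rw [he, pow_succ']
        exact Nat.mul_le_mul h hcon
      omega
    · rw [zero_mul]

private theorem MomCount_bound (N : ℕ) (a : ℕ → ℝ)
    (ha : ∀ m, 1 ≤ m → |a m| ≤ (1 + Real.log m) * (m.divisors.card : ℝ) ^ 5) :
    ∀ (j n : ℕ), 1 ≤ n →
      |MomCount_cf N a j n| ≤ (1 + Real.log n) ^ j * (n.divisors.card : ℝ) ^ (6 * j) := by
  intro j
  induction j with
  | zero =>
    intro n hn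
    unfold MomCount_cf
    rw [pow_zero, mul_zero, pow_zero, mul_one]
    split_ifs <;> simp
  | succ j ih =>
    intro n hn
    have hlog : 0 ≤ Real.log n := Real.log_nonneg (by exact_mod_cast hn)
    unfold MomCount_cf
    refine (Finset.abs_sum_le_sum_abs _ _).trans ?_
    have hterm : ∀ d ∈ n.divisors, |(if d ≤ N then a d else 0) * MomCount_cf N a j (n / d)| ≤
        (1 + Real.log n) ^ (j + 1) * (n.divisors.card : ℝ) ^ (6 * j + 5) := by
      intro d hd
      have hdn := Nat.dvd_of_mem_divisors hd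
      have hd0 : 0 < d := Nat.pos_of_mem_divisors hd
      have hdn' : d ≤ n := Nat.le_of_dvd hn hdn
      have he : 1 ≤ n / d := Nat.div_pos hdn' hd0
      have h1 : |if d ≤ N then a d else 0| ≤ (1 + Real.log n) * (n.divisors.card : ℝ) ^ 5 := by
        have h2 : |if d ≤ N then a d else 0| ≤ |a d| := by
          split_ifs
          · exact le_rfl
          · rw [abs_zero]
            exact abs_nonneg _
        have h3 : Real.log d ≤ Real.log n :=
          Real.log_le_log (by exact_mod_cast hd0) (by exact_mod_cast hdn')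
        have h4 : (d.divisors.card : ℝ) ≤ n.divisors.card := by
          exact_mod_cast Finset.card_le_card (Nat.divisors_subset_of_dvd (by omega) hdn)
        refine (h2.trans (ha d hd0)).trans ?_
        gcongr
      have h5 : |MomCount_cf N a j (n / d)| ≤
          (1 + Real.log n) ^ j * (n.divisors.card : ℝ) ^ (6 * j) := by
        refine (ih (n / d) he).trans ?_
        have h3 : Real.log ((n / d : ℕ) : ℝ) ≤ Real.log n :=
          Real.log_le_log (by exact_mod_cast he) (by exact_mod_cast Nat.div_le_self n d)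
        have h3' : 0 ≤ Real.log ((n / d : ℕ) : ℝ) := Real.log_nonneg (by exact_mod_cast he)
        have h4 : ((n / d).divisors.card : ℝ) ≤ n.divisors.card := by
          exact_mod_cast Finset.card_le_card
            (Nat.divisors_subset_of_dvd (by omega) (Nat.div_dvd_of_dvd hdn))
        gcongr
      rw [abs_mul]
      refine (mul_le_mul h1 h5 (abs_nonneg _) (by positivity)).trans (le_of_eq ?_)
      ring
    refine (Finset.sum_le_sum hterm).trans (le_of_eq ?_)
    rw [Finset.sum_const, nsmul_eq_mul]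
    ring

private theorem MomCount_pow (q N : ℕ) [NeZero q] (hN : 1 ≤ N) (a : ℕ → ℝ)
    (χ : DirichletCharacter ℂ q) : ∀ j : ℕ,
    (∑ m ∈ Icc 1 N, (a m : ℂ) * χ m) ^ j =
      ∑ n ∈ Icc 1 (N ^ j), (MomCount_cf N a j n : ℂ) * χ n := by
  intro j
  induction j with
  | zero =>
    rw [pow_zero, pow_zero, Finset.Icc_self, Finset.sum_singleton]
    unfold MomCount_cf
    simp
  | succ j ih =>
    rw [pow_succ', ih, Finset.sum_mul_sum]
    have hR : ∑ n ∈ Icc 1 (N ^ (j + 1)), (MomCount_cf N a (j + 1) n : ℂ) * χ n =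
        ∑ n ∈ Icc 1 (N ^ (j + 1)), ∑ d ∈ n.divisors,
          (if d ≤ N then ((a d : ℂ) * χ d) * ((MomCount_cf N a j (n / d) : ℂ) * χ (n / d : ℕ))
            else 0) := by
      refine Finset.sum_congr rfl fun n hn => ?_
      rw [MomCount_cf]
      push_cast
      rw [Finset.sum_mul]
      refine Finset.sum_congr rfl fun d hd => ?_
      have hdn := Nat.dvd_of_mem_divisors hd
      split_ifs with h
      · have h1 : χ (n : ZMod q) = χ d * χ (n / d : ℕ) := by
          rw [← map_mul, ← Nat.cast_mul, Nat.mul_div_cancel' hdn]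
        rw [h1]
        ring
      · simp
    rw [hR, ← Finset.sum_product', Finset.sum_sigma']
    symm
    refine Finset.sum_bij_ne_zero
      (fun (p : Σ _ : ℕ, ℕ) _ _ => ((p.2, p.1 / p.2) : ℕ × ℕ)) ?_ ?_ ?_ ?_
    · rintro ⟨n, d⟩ h hne
      rw [Finset.mem_sigma, Finset.mem_Icc, Nat.mem_divisors] at h
      obtain ⟨⟨h1, h2⟩, h3, h4⟩ := h
      simp only at h1 h2 h3 h4 hne ⊢
      have hd0 : 0 < d := Nat.pos_of_dvd_of_pos h3 (by omega)
      have hdn : d ≤ n := Nat.le_of_dvd (by omega) h3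
      rw [Finset.mem_product, Finset.mem_Icc, Finset.mem_Icc]
      simp only
      by_cases hdN : d ≤ N
      · refine ⟨⟨hd0, hdN⟩, Nat.div_pos hdn hd0, ?_⟩
        by_contra hcon
        push Not at hcon
        rw [if_pos hdN, MomCount_supp N a j _ hcon] at hne
        simp at hne
      · rw [if_neg hdN] at hne
        exact absurd rfl hne
    · rintro ⟨n, d⟩ h hne ⟨n', d'⟩ h' hne' heq
      rw [Finset.mem_sigma, Finset.mem_Icc, Nat.mem_divisors] at h h'
      obtain ⟨⟨h1, h2⟩, h3, h4⟩ := h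
      obtain ⟨⟨h1', h2'⟩, h3', h4'⟩ := h'
      simp only [Prod.mk.injEq] at heq h1 h2 h3 h4 h1' h2' h3' h4'
      obtain ⟨rfl, e2⟩ := heq
      have : n = n' := by
        rw [← Nat.mul_div_cancel' h3, ← Nat.mul_div_cancel' h3', e2]
      rw [this]
    · rintro ⟨m, n⟩ h hne
      rw [Finset.mem_product, Finset.mem_Icc, Finset.mem_Icc] at h
      obtain ⟨⟨h1, h2⟩, h3, h4⟩ := h
      simp only at h1 h2 h3 h4 hne
      refine ⟨⟨m * n, m⟩, ?_, ?_, ?_⟩
      · rw [Finset.mem_sigma, Finset.mem_Icc, Nat.mem_divisors]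
        refine ⟨⟨Nat.mul_pos h1 h3, ?_⟩, Dvd.intro _ rfl, (Nat.mul_pos h1 h3).ne'⟩
        rw [pow_succ']
        exact Nat.mul_le_mul h2 h4
      · simp only
        rw [if_pos h2, Nat.mul_div_cancel_left n h1]
        exact hne
      · simp only [Nat.mul_div_cancel_left n (show 0 < m from h1)]
    · rintro ⟨n, d⟩ h hne
      simp only at hne ⊢
      by_cases hdN : d ≤ N
      · rw [if_pos hdN]
      · rw [if_neg hdN] at hne
        exact absurd rfl hne

theorem mom_count (k : ℕ) (hk : 1 ≤ k) : ∃ C : ℕ, ∀ (q N : ℕ) [NeZero q], 1 ≤ N → q ≤ N ^ k →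
    ∀ a : ℕ → ℝ, (∀ m, 1 ≤ m → |a m| ≤ (1 + Real.log m) * (m.divisors.card : ℝ) ^ 5) →
    ∀ V : ℝ, 0 < V → ∀ 𝓑 : Finset (DirichletCharacter ℂ q),
    (∀ χ ∈ 𝓑, V < ‖∑ m ∈ Icc 1 N, (a m : ℂ) * χ m‖) →
    (𝓑.card : ℝ) ≤ (N / V) ^ (2 * k) * (2 + Real.log N) ^ C := by
  obtain ⟨C0, hC0⟩ := div_mom (12 * k)
  refine ⟨1 + (k + 1) * (2 * k + C0), ?_⟩
  intro q N _ hN hqN a ha V hV 𝓑 hB
  have hlogN : 0 ≤ Real.log N := Real.log_nonneg (by exact_mod_cast hN)
  have hNk : 1 ≤ N ^ k := Nat.one_le_pow _ _ hN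
  have hN0 : (0 : ℝ) < N := by exact_mod_cast hN
  have hlogNk : Real.log ((N ^ k : ℕ) : ℝ) = k * Real.log N := by
    push_cast
    rw [Real.log_pow]
  set Lk : ℝ := 1 + k * Real.log N with hLk
  have hLk1 : 1 ≤ Lk := by
    rw [hLk]
    have : 0 ≤ (k : ℝ) * Real.log N := by positivity
    linarith
  -- the mean square
  have h1 : (𝓑.card : ℝ) * V ^ (2 * k) ≤
      ∑ χ : DirichletCharacter ℂ q, ‖∑ n ∈ Ioc 0 (0 + N ^ k), (MomCount_cf N a k n : ℂ) * χ n‖ ^ 2 := by
    have h2 : ∀ χ ∈ 𝓑, V ^ (2 * k) ≤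
        ‖∑ n ∈ Ioc 0 (0 + N ^ k), (MomCount_cf N a k n : ℂ) * χ n‖ ^ 2 := by
      intro χ hχ
      have h3 : Ioc 0 (0 + N ^ k) = Icc 1 (N ^ k) := by
        ext x
        simp only [Finset.mem_Ioc, Finset.mem_Icc]
        omega
      rw [h3, ← MomCount_pow q N hN a χ k, norm_pow, ← pow_mul, mul_comm k 2]
      exact pow_le_pow_left₀ hV.le (hB χ hχ).le _
    calc (𝓑.card : ℝ) * V ^ (2 * k) = ∑ χ ∈ 𝓑, V ^ (2 * k) := by
          rw [Finset.sum_const, nsmul_eq_mul]
      _ ≤ ∑ χ ∈ 𝓑, ‖∑ n ∈ Ioc 0 (0 + N ^ k), (MomCount_cf N a k n : ℂ) * χ n‖ ^ 2 :=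
          Finset.sum_le_sum h2
      _ ≤ _ := Finset.sum_le_sum_of_subset_of_nonneg (Finset.subset_univ _)
          fun _ _ _ => by positivity
  have h2 := char_ms q 0 (N ^ k) (fun n => (MomCount_cf N a k n : ℂ))
  have h3 : ∑ n ∈ Ioc 0 (0 + N ^ k), ‖(MomCount_cf N a k n : ℂ)‖ ^ 2 ≤
      (N : ℝ) ^ k * Lk ^ (2 * k + C0) := by
    have h4 : ∀ n ∈ Ioc 0 (0 + N ^ k), ‖(MomCount_cf N a k n : ℂ)‖ ^ 2 ≤
        Lk ^ (2 * k) * (n.divisors.card : ℝ) ^ (12 * k) := by
      intro n hn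
      rw [Finset.mem_Ioc, zero_add] at hn
      have h5 := MomCount_bound N a ha k n hn.1
      have h6 : Real.log n ≤ k * Real.log N := by
        rw [← hlogNk]
        exact Real.log_le_log (by exact_mod_cast hn.1) (by exact_mod_cast hn.2)
      have h7 : 0 ≤ Real.log n := Real.log_nonneg (by exact_mod_cast hn.1)
      rw [Complex.norm_real, Real.norm_eq_abs]
      calc |MomCount_cf N a k n| ^ 2
          ≤ ((1 + Real.log n) ^ k * (n.divisors.card : ℝ) ^ (6 * k)) ^ 2 :=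
            pow_le_pow_left₀ (abs_nonneg _) h5 2
        _ ≤ (Lk ^ k * (n.divisors.card : ℝ) ^ (6 * k)) ^ 2 := by
            rw [hLk]
            gcongr
        _ = Lk ^ (2 * k) * (n.divisors.card : ℝ) ^ (12 * k) := by
            rw [mul_pow, ← pow_mul, ← pow_mul]
            congr 2 <;> ring
    have h8 : Ioc 0 (0 + N ^ k) = Icc 1 (N ^ k) := by
      ext x
      simp only [Finset.mem_Ioc, Finset.mem_Icc]
      omega
    refine (Finset.sum_le_sum h4).trans ?_
    rw [← Finset.mul_sum, h8]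
    have h9 := (hC0 (N ^ k) hNk).1
    rw [hlogNk] at h9
    push_cast at h9
    calc Lk ^ (2 * k) * ∑ n ∈ Icc 1 (N ^ k), (n.divisors.card : ℝ) ^ (12 * k)
        ≤ Lk ^ (2 * k) * ((N : ℝ) ^ k * (1 + k * Real.log N) ^ C0) :=
          mul_le_mul_of_nonneg_left h9 (by positivity)
      _ = (N : ℝ) ^ k * Lk ^ (2 * k + C0) := by
          rw [← hLk, pow_add]; ring
  have h4 : (((N ^ k : ℕ) : ℝ) + q) ≤ 2 * (N : ℝ) ^ k := by
    have : (q : ℝ) ≤ (N : ℝ) ^ k := by exact_mod_cast hqN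
    push_cast
    linarith
  have h5 : (𝓑.card : ℝ) * V ^ (2 * k) ≤ (N : ℝ) ^ (2 * k) * (2 * Lk ^ (2 * k + C0)) := by
    refine (h1.trans h2).trans ?_
    calc (((N ^ k : ℕ) : ℝ) + q) * ∑ n ∈ Ioc 0 (0 + N ^ k), ‖(MomCount_cf N a k n : ℂ)‖ ^ 2
        ≤ (2 * (N : ℝ) ^ k) * ((N : ℝ) ^ k * Lk ^ (2 * k + C0)) :=
          mul_le_mul h4 h3 (Finset.sum_nonneg fun _ _ => by positivity) (by positivity)
      _ = (N : ℝ) ^ (2 * k) * (2 * Lk ^ (2 * k + C0)) := by
          rw [two_mul k, pow_add]; ring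
  have h6 : Lk ≤ (2 + Real.log N) ^ (k + 1) := by
    have h7 : (k : ℝ) ≤ (2 + Real.log N) ^ k := by
      have h8 : (k : ℝ) ≤ 2 ^ k := by exact_mod_cast (Nat.lt_two_pow_self (n := k)).le
      exact h8.trans (pow_le_pow_left₀ (by norm_num) (by linarith) k)
    have hk1 : (1 : ℝ) ≤ k := by exact_mod_cast hk
    rw [hLk, pow_succ]
    have h9 : 0 ≤ (k : ℝ) * Real.log N := by positivity
    calc 1 + k * Real.log N ≤ k * (2 + Real.log N) := by nlinarith
      _ ≤ (2 + Real.log N) ^ k * (2 + Real.log N) :=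
        mul_le_mul_of_nonneg_right h7 (by linarith)
  have h7 : 2 * Lk ^ (2 * k + C0) ≤ (2 + Real.log N) ^ (1 + (k + 1) * (2 * k + C0)) := by
    rw [pow_add (2 + Real.log N) 1, pow_one, pow_mul (2 + Real.log N)]
    refine mul_le_mul (by linarith) (pow_le_pow_left₀ (by linarith) h6 _) (by positivity)
      (by linarith)
  rw [div_pow, div_mul_eq_mul_div, le_div_iff₀ (by positivity)]
  exact h5.trans (mul_le_mul_of_nonneg_left h7 (by positivity))

end Pool.MP_dd84fd_nt.L2G
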