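import Pool.Agent.Lib.MP_dd84fd_nt.L2G.CharOrth

set_option autoImplicit false

namespace Pool.MP_dd84fd_nt.L2G

open Finset Pool.MP_67663b_nt.Odd

private theorem GaussJac_expand (q : ℕ) [NeZero q] (f : ZMod q → ℂ) (S : Finset (ZMod q)) :
    ((∑ h ∈ S, ‖∑ b : ZMod q, f b * ZMod.stdAddChar (h * b)‖ ^ 2 : ℝ) : ℂ) =
      ∑ b : ZMod q, ∑ c : ZMod q, f b * (starRingEnd ℂ) (f c) *
        ∑ h ∈ S, (ZMod.stdAddChar (h * (b - c)) : ℂ) := by
  push_cast
  have h1 : ∀ h ∈ S, ((‖∑ b : ZMod q, f b * ZMod.stdAddChar (h * b)‖ : ℂ)) ^ 2 =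
      ∑ b : ZMod q, ∑ c : ZMod q, f b * (starRingEnd ℂ) (f c) *
        (ZMod.stdAddChar (h * (b - c)) : ℂ) := by
    intro h _
    rw [← Complex.mul_conj', map_sum, Finset.sum_mul_sum]
    refine Finset.sum_congr rfl fun b _ => Finset.sum_congr rfl fun c _ => ?_
    rw [map_mul (starRingEnd ℂ), ← AddChar.map_neg_eq_conj, mul_sub, sub_eq_add_neg,
      AddChar.map_add_eq_mul]
    ring
  rw [Finset.sum_congr rfl h1, Finset.sum_comm]
  refine Finset.sum_congr rfl fun b _ => ?_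
  rw [Finset.sum_comm]
  refine Finset.sum_congr rfl fun c _ => ?_
  rw [Finset.mul_sum]

private theorem GaussJac_parseval (q : ℕ) [NeZero q] (f : ZMod q → ℂ) :
    ∑ h : ZMod q, ‖∑ b : ZMod q, f b * ZMod.stdAddChar (h * b)‖ ^ 2 =
      (q : ℝ) * ∑ b : ZMod q, ‖f b‖ ^ 2 := by
  have h := GaussJac_expand q f univ
  have h2 : (∑ b : ZMod q, ∑ c : ZMod q, f b * (starRingEnd ℂ) (f c) *
        ∑ h : ZMod q, (ZMod.stdAddChar (h * (b - c)) : ℂ)) =
      (((q : ℝ) * ∑ b : ZMod q, ‖f b‖ ^ 2 : ℝ) : ℂ) := by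
    push_cast
    rw [Finset.mul_sum]
    refine Finset.sum_congr rfl fun b _ => ?_
    rw [Finset.sum_eq_single b]
    · rw [sub_self]
      simp only [mul_zero, AddChar.map_zero_eq_one, Finset.sum_const, Finset.card_univ,
        ZMod.card, nsmul_eq_mul, mul_one]
      rw [← Complex.mul_conj']
      ring
    · intro c _ hc
      rw [AddChar.sum_mulShift (b - c) (ZMod.isPrimitive_stdAddChar q),
        if_neg (sub_ne_zero.mpr (Ne.symm hc))]
      simp
    · intro hb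
      exact absurd (mem_univ b) hb
  rw [h2] at h
  exact_mod_cast h

private theorem GaussJac_card_units (q : ℕ) [NeZero q] :
    (univ.filter (fun b : ZMod q => IsUnit b)).card ≤ Nat.totient q := by
  classical
  have h1 : (univ.filter (fun b : ZMod q => IsUnit b)) ⊆
      Finset.image (fun u : (ZMod q)ˣ => (u : ZMod q)) (Finset.univ : Finset (ZMod q)ˣ) := by
    intro b hb
    rw [Finset.mem_filter] at hb
    obtain ⟨u, hu⟩ := hb.2
    rw [Finset.mem_image]
    exact ⟨u, mem_univ u, hu⟩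
  refine (Finset.card_le_card h1).trans (Finset.card_image_le.trans ?_)
  rw [Finset.card_univ, ZMod.card_units_eq_totient]

private theorem GaussJac_norm_sum (q : ℕ) [NeZero q] (χ : DirichletCharacter ℂ q) :
    ∑ b : ZMod q, ‖χ b‖ ≤ (Nat.totient q : ℝ) := by
  have h1 : ∑ b : ZMod q, ‖χ b‖ = ∑ b ∈ univ.filter (fun b : ZMod q => IsUnit b), ‖χ b‖ := by
    rw [Finset.sum_filter]
    refine Finset.sum_congr rfl fun b _ => ?_
    split_ifs with h
    · rfl
    · rw [χ.map_nonunit h, norm_zero]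
  rw [h1]
  calc _ ≤ ∑ b ∈ univ.filter (fun b : ZMod q => IsUnit b), (1 : ℝ) :=
        Finset.sum_le_sum fun b _ => χ.norm_le_one b
    _ = ((univ.filter (fun b : ZMod q => IsUnit b)).card : ℝ) := by simp
    _ ≤ _ := by exact_mod_cast GaussJac_card_units q

private theorem GaussJac_norm_sq_sum (q : ℕ) [NeZero q] (χ : DirichletCharacter ℂ q) :
    ∑ b : ZMod q, ‖χ b‖ ^ 2 ≤ (Nat.totient q : ℝ) := by
  refine le_trans (Finset.sum_le_sum fun b _ => ?_) (GaussJac_norm_sum q χ)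
  have h1 := χ.norm_le_one b
  have h2 := norm_nonneg (χ b)
  nlinarith

/-- the number of `x` with `x * a = 0` is at most `gcd(a, q)` -/
private theorem GaussJac_ann (q : ℕ) [NeZero q] (a : ZMod q) :
    (univ.filter (fun x : ZMod q => x * a = 0)).card ≤ Nat.gcd a.val q := by
  classical
  have hg : 0 < Nat.gcd a.val q := Nat.gcd_pos_of_pos_right _ (NeZero.pos q)
  refine le_trans (Finset.card_le_card ?_)
    (IsAddCyclic.card_nsmul_eq_zero_le (α := ZMod q) (n := Nat.gcd a.val q) hg)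
  intro x hx
  rw [Finset.mem_filter] at hx ⊢
  refine ⟨mem_univ x, ?_⟩
  have hb := Nat.gcd_eq_gcd_ab a.val q
  have hc : ((Nat.gcd a.val q : ℕ) : ZMod q) = a * ((Nat.gcdA a.val q : ℤ) : ZMod q) := by
    have h1 : ((Nat.gcd a.val q : ℤ) : ZMod q) =
        (((a.val : ℤ) * Nat.gcdA a.val q + (q : ℤ) * Nat.gcdB a.val q : ℤ) : ZMod q) := by
      rw [hb]
    push_cast at h1
    rw [ZMod.natCast_self, zero_mul, add_zero, ZMod.natCast_zmod_val] at h1
    exact h1
  rw [nsmul_eq_mul, hc]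
  calc a * ((Nat.gcdA a.val q : ℤ) : ZMod q) * x
      = ((Nat.gcdA a.val q : ℤ) : ZMod q) * (x * a) := by ring
    _ = 0 := by rw [hx.2, mul_zero]

private theorem GaussJac_fib (q : ℕ) [NeZero q] (a a' : ZMod q) :
    (univ.filter (fun u : (ZMod q)ˣ => (u : ZMod q) * a = a')).card ≤ Nat.gcd a.val q := by
  classical
  rcases (univ.filter (fun u : (ZMod q)ˣ => (u : ZMod q) * a = a')).eq_empty_or_nonempty with h | h
  · rw [h]
    simp
  · obtain ⟨u0, hu0⟩ := h
    rw [Finset.mem_filter] at hu0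
    refine le_trans (Finset.card_le_card_of_injOn (fun u => (u : ZMod q) - u0) ?_ ?_)
      (GaussJac_ann q a)
    · intro u hu
      rw [Finset.mem_coe, Finset.mem_filter] at hu
      rw [Finset.mem_coe, Finset.mem_filter]
      refine ⟨mem_univ _, ?_⟩
      simp only
      rw [sub_mul, hu.2, hu0.2, sub_self]
    · intro u _ v _ huv
      simp only at huv
      exact Units.ext (sub_left_injective huv)

/-- averaging over the units -/
private theorem GaussJac_avg (q : ℕ) [NeZero q] (F : ZMod q → ℝ) (a : ZMod q)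
    (S : Finset (ZMod q)) (hF : ∀ b, 0 ≤ F b) (hu : ∀ u : (ZMod q)ˣ, F (u * a) = F a)
    (hS : ∀ u : (ZMod q)ˣ, (u : ZMod q) * a ∈ S) :
    (Nat.totient q : ℝ) * F a ≤ (Nat.gcd a.val q : ℝ) * ∑ b ∈ S, F b := by
  classical
  have h1 : (Nat.totient q : ℝ) * F a = ∑ u : (ZMod q)ˣ, F (u * a) := by
    rw [Finset.sum_congr rfl fun u _ => hu u, Finset.sum_const, Finset.card_univ,
      ZMod.card_units_eq_totient, nsmul_eq_mul]
  rw [h1, ← Finset.sum_fiberwise_of_maps_to (s := univ) (t := S)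
    (g := fun u : (ZMod q)ˣ => (u : ZMod q) * a) (fun u _ => hS u), Finset.mul_sum]
  refine Finset.sum_le_sum fun b _ => ?_
  rw [Finset.sum_congr rfl (g := fun _ => F b)
    (fun u hu' => by rw [(Finset.mem_filter.mp hu').2]), Finset.sum_const, nsmul_eq_mul]
  exact mul_le_mul_of_nonneg_right (by exact_mod_cast GaussJac_fib q a b) (hF b)

private noncomputable def GaussJac_t (q : ℕ) [NeZero q] (χ : DirichletCharacter ℂ q) (h : ZMod q) : ℂ :=
  ∑ b : ZMod q, χ b * ZMod.stdAddChar (h * b)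

private theorem GaussJac_t_unit (q : ℕ) [NeZero q] (χ : DirichletCharacter ℂ q) (h : ZMod q)
    (u : (ZMod q)ˣ) : χ u * GaussJac_t q χ (u * h) = GaussJac_t q χ h := by
  unfold GaussJac_t
  rw [Finset.mul_sum]
  refine Fintype.sum_equiv (Units.mulLeft u) _ _ fun b => ?_
  have h1 : (u : ZMod q) * h * b = h * (Units.mulLeft u b) := by
    rw [Units.mulLeft_apply]
    ring
  rw [h1, Units.mulLeft_apply, map_mul χ]
  ring

private theorem GaussJac_norm_unit (q : ℕ) [NeZero q] (χ : DirichletCharacter ℂ q)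
    (u : (ZMod q)ˣ) : ‖χ (u : ZMod q)‖ = 1 := by
  exact χ.unit_norm_eq_one u

private theorem GaussJac_t_norm (q : ℕ) [NeZero q] (χ : DirichletCharacter ℂ q) (h : ZMod q)
    (u : (ZMod q)ˣ) : ‖GaussJac_t q χ (u * h)‖ = ‖GaussJac_t q χ h‖ := by
  rw [← GaussJac_t_unit q χ h u, norm_mul, GaussJac_norm_unit, one_mul]

private theorem GaussJac_J_norm (q : ℕ) [NeZero q] (χ ψ : DirichletCharacter ℂ q) (a : ZMod q)
    (u : (ZMod q)ˣ) : ‖Jc q (u * a) χ ψ‖ = ‖Jc q a χ ψ‖ := by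
  have h1 : Jc q (u * a) χ ψ = χ u * ψ u * Jc q a χ ψ := by
    unfold Jc
    rw [Finset.mul_sum]
    symm
    refine Fintype.sum_equiv (Units.mulLeft u) _ _ fun b => ?_
    rw [Units.mulLeft_apply, ← mul_sub, map_mul, map_mul]
    ring
  rw [h1, norm_mul, norm_mul, GaussJac_norm_unit, GaussJac_norm_unit, one_mul, one_mul]

private theorem GaussJac_conv (q : ℕ) [NeZero q] (χ ψ : DirichletCharacter ℂ q) (h : ZMod q) :
    ∑ a : ZMod q, Jc q a χ ψ * ZMod.stdAddChar (h * a) = GaussJac_t q χ h * GaussJac_t q ψ h := by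
  unfold Jc GaussJac_t
  simp only [Finset.sum_mul]
  rw [Finset.sum_comm]
  refine Finset.sum_congr rfl fun b _ => ?_
  rw [Finset.mul_sum]
  refine Fintype.sum_equiv (Equiv.subRight b) _ _ fun a => ?_
  rw [Equiv.subRight_apply]
  have h2 : h * a = h * b + h * (a - b) := by ring
  rw [h2, AddChar.map_add_eq_mul]
  ring

private theorem GaussJac_sumJ (q : ℕ) [NeZero q] (χ ψ : DirichletCharacter ℂ q) :
    (q : ℝ) * ∑ a : ZMod q, ‖Jc q a χ ψ‖ ^ 2 =
      ∑ h : ZMod q, ‖GaussJac_t q χ h‖ ^ 2 * ‖GaussJac_t q ψ h‖ ^ 2 := by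
  rw [← GaussJac_parseval q (fun a => Jc q a χ ψ)]
  refine Finset.sum_congr rfl fun h _ => ?_
  rw [GaussJac_conv, norm_mul, mul_pow]

private theorem GaussJac_sumS (q : ℕ) [NeZero q] (χ : DirichletCharacter ℂ q) (m g : ℕ)
    (hmg : g * m = q) :
    ∑ h ∈ univ.filter (fun h : ZMod q => m • h = 0), ‖GaussJac_t q χ h‖ ^ 2 ≤
      (q : ℝ) * Nat.totient q := by
  classical
  have hm : 0 < m := Nat.pos_of_ne_zero (by
    rintro rfl
    rw [mul_zero] at hmg
    exact NeZero.ne q hmg.symm)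
  have hg : 0 < g := Nat.pos_of_ne_zero (by
    rintro rfl
    rw [zero_mul] at hmg
    exact NeZero.ne q hmg.symm)
  obtain ⟨S, hSdef⟩ : ∃ S : Finset (ZMod q), S = univ.filter (fun h : ZMod q => m • h = 0) :=
    ⟨_, rfl⟩
  rw [← hSdef]
  have hScard : S.card ≤ m := by
    rw [hSdef]
    exact IsAddCyclic.card_nsmul_eq_zero_le (α := ZMod q) hm
  have hgS : m • (g : ZMod q) = 0 := by
    rw [nsmul_eq_mul, ← Nat.cast_mul, mul_comm, hmg, ZMod.natCast_self]
  have hsum : ∀ x : ZMod q, (g : ZMod q) * x ≠ 0 →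
      ∑ h ∈ S, (ZMod.stdAddChar (h * x) : ℂ) = 0 := by
    intro x hx
    have h1 : ∑ h ∈ S, (ZMod.stdAddChar (h * x) : ℂ) =
        (ZMod.stdAddChar ((g : ZMod q) * x) : ℂ) * ∑ h ∈ S, (ZMod.stdAddChar (h * x) : ℂ) := by
      rw [Finset.mul_sum]
      refine Finset.sum_bij (fun h _ => h - g) ?_ ?_ ?_ ?_
      · intro h hh
        rw [hSdef, Finset.mem_filter] at hh ⊢
        exact ⟨mem_univ _, by rw [smul_sub, hh.2, hgS, sub_zero]⟩
      · intro h1 _ h2 _ he
        exact sub_left_injective he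
      · intro h hh
        refine ⟨h + g, ?_, by ring⟩
        rw [hSdef, Finset.mem_filter] at hh ⊢
        exact ⟨mem_univ _, by rw [smul_add, hh.2, hgS, add_zero]⟩
      · intro h _
        rw [← AddChar.map_add_eq_mul]
        congr 1
        ring
    have h2 : (ZMod.stdAddChar ((g : ZMod q) * x) : ℂ) ≠ 1 := by
      intro h3
      apply hx
      rw [← (ZMod.stdAddChar (N := q)).map_zero_eq_one] at h3
      exact ZMod.injective_stdAddChar h3
    have h3 : (1 - (ZMod.stdAddChar ((g : ZMod q) * x) : ℂ)) *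
        ∑ h ∈ S, (ZMod.stdAddChar (h * x) : ℂ) = 0 := by
      rw [sub_mul, one_mul, ← h1, sub_self]
    rcases mul_eq_zero.mp h3 with h4 | h4
    · exact absurd (sub_eq_zero.mp h4).symm h2
    · exact h4
  have hE := GaussJac_expand q (fun b => χ b) S
  have hle : ∑ h ∈ S, ‖GaussJac_t q χ h‖ ^ 2 ≤
      ∑ b : ZMod q, ∑ c : ZMod q, ‖χ b‖ * (if (g : ℕ) • (b - c) = 0 then (m : ℝ) else 0) := by
    have h0 : 0 ≤ ∑ h ∈ S, ‖GaussJac_t q χ h‖ ^ 2 :=
      Finset.sum_nonneg fun h _ => by positivity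
    have h1 : ∑ h ∈ S, ‖GaussJac_t q χ h‖ ^ 2 =
        ‖((∑ h ∈ S, ‖GaussJac_t q χ h‖ ^ 2 : ℝ) : ℂ)‖ := by
      rw [Complex.norm_real, Real.norm_of_nonneg h0]
    rw [h1]
    unfold GaussJac_t
    rw [hE]
    refine (norm_sum_le _ _).trans (Finset.sum_le_sum fun b _ => ?_)
    refine (norm_sum_le _ _).trans (Finset.sum_le_sum fun c _ => ?_)
    rw [norm_mul, norm_mul, RCLike.norm_conj]
    have h5 : ‖∑ h ∈ S, (ZMod.stdAddChar (h * (b - c)) : ℂ)‖ ≤
        (if (g : ℕ) • (b - c) = 0 then (m : ℝ) else 0) := by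
      split_ifs with h6
      · refine (norm_sum_le _ _).trans ?_
        calc _ = ∑ h ∈ S, (1 : ℝ) := Finset.sum_congr rfl fun h _ => AddChar.norm_apply _ _
          _ = (S.card : ℝ) := by simp
          _ ≤ m := by exact_mod_cast hScard
      · rw [hsum (b - c) (by rwa [← nsmul_eq_mul]), norm_zero]
    have h6 := χ.norm_le_one c
    have h7 := norm_nonneg (χ c)
    have h8 := norm_nonneg (χ b)
    calc ‖χ b‖ * ‖χ c‖ * ‖∑ h ∈ S, (ZMod.stdAddChar (h * (b - c)) : ℂ)‖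
        ≤ ‖χ b‖ * 1 * (if (g : ℕ) • (b - c) = 0 then (m : ℝ) else 0) := by
          gcongr
      _ = _ := by ring
  refine hle.trans ?_
  have h9 : ∀ b : ZMod q, ∑ c : ZMod q, ‖χ b‖ * (if (g : ℕ) • (b - c) = 0 then (m : ℝ) else 0) ≤
      ‖χ b‖ * q := by
    intro b
    rw [← Finset.mul_sum]
    refine mul_le_mul_of_nonneg_left ?_ (norm_nonneg _)
    rw [← Finset.sum_filter, Finset.sum_const, nsmul_eq_mul]
    have h10 : (univ.filter (fun c : ZMod q => (g : ℕ) • (b - c) = 0)).card ≤ g := by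
      refine le_trans (Finset.card_le_card_of_injOn (fun c => b - c) ?_ ?_)
        (IsAddCyclic.card_nsmul_eq_zero_le (α := ZMod q) hg)
      · intro c hc
        rw [Finset.mem_coe, Finset.mem_filter] at hc
        rw [Finset.mem_coe, Finset.mem_filter]
        exact ⟨mem_univ _, hc.2⟩
      · intro c _ d _ hcd
        exact sub_right_injective hcd
    calc ((univ.filter (fun c : ZMod q => (g : ℕ) • (b - c) = 0)).card : ℝ) * m ≤ (g : ℝ) * m := by
          gcongr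
      _ = q := by exact_mod_cast hmg
  refine (Finset.sum_le_sum fun b _ => h9 b).trans ?_
  rw [← Finset.sum_mul, mul_comm]
  exact mul_le_mul_of_nonneg_left (GaussJac_norm_sum q χ) (Nat.cast_nonneg q)

/-- Gauss sums to a modulus through which the character does not factor -/
private theorem GaussJac_t_bound (q : ℕ) [NeZero q] (D : ℕ) (χ : DirichletCharacter ℂ q)
    (hχ : ∀ d : ℕ, d ∣ q → d ≤ D → ¬ χ.FactorsThrough d) (h : ZMod q) :
    ‖GaussJac_t q χ h‖ ^ 2 * (D : ℝ) ≤ (q : ℝ) ^ 2 := by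
  classical
  have hq : 0 < q := NeZero.pos q
  obtain ⟨g, hgdef⟩ : ∃ g, g = Nat.gcd h.val q := ⟨_, rfl⟩
  have hg : 0 < g := by
    rw [hgdef]
    exact Nat.gcd_pos_of_pos_right _ hq
  obtain ⟨m, hmg⟩ : g ∣ q := by
    rw [hgdef]
    exact Nat.gcd_dvd_right _ _
  obtain ⟨h', hh'⟩ : g ∣ h.val := by
    rw [hgdef]
    exact Nat.gcd_dvd_left _ _
  have hheq : h = (g : ZMod q) * (h' : ZMod q) := by
    rw [← Nat.cast_mul, ← hh', ZMod.natCast_zmod_val]
  have hmh : m • h = 0 := by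
    rw [nsmul_eq_mul, hheq, ← mul_assoc, ← Nat.cast_mul, mul_comm m g, ← hmg, ZMod.natCast_self,
      zero_mul]
  rcases le_or_gt m D with hmD | hmD
  · -- the sum vanishes
    have hmq : m ∣ q := ⟨g, by rw [hmg]; ring⟩
    have h1 := hχ m hmq hmD
    rw [DirichletCharacter.factorsThrough_iff_ker_unitsMap hmq] at h1
    obtain ⟨u, hu1, hu2⟩ := SetLike.not_le_iff_exists.mp h1
    rw [MonoidHom.mem_ker] at hu1 hu2
    have hu3 : χ (u : ZMod q) ≠ 1 := by
      intro hc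
      apply hu2
      refine Units.ext ?_
      rw [MulChar.coe_toUnitHom, hc, Units.val_one]
    have hu4 : (u : ZMod q) * h = h := by
      have h5 : (ZMod.castHom hmq (ZMod m)) ((u : ZMod q) - 1) = 0 := by
        rw [map_sub, map_one]
        have h6 := congrArg Units.val hu1
        rw [ZMod.unitsMap_def, Units.coe_map, Units.val_one] at h6
        exact sub_eq_zero.mpr h6
      obtain ⟨x, hx⟩ : ∃ x : ZMod q, x = (u : ZMod q) - 1 := ⟨_, rfl⟩
      rw [← hx] at h5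
      have h6 : m ∣ x.val := by
        rw [ZMod.castHom_apply, ZMod.cast_eq_val] at h5
        exact (ZMod.natCast_eq_zero_iff _ _).mp h5
      obtain ⟨k, hk⟩ := h6
      have h7 : x = (m : ZMod q) * (k : ZMod q) := by
        rw [← Nat.cast_mul, ← hk, ZMod.natCast_zmod_val]
      have h8 : x * h = 0 := by
        rw [h7]
        calc (m : ZMod q) * (k : ZMod q) * h = (k : ZMod q) * (m • h) := by
              rw [nsmul_eq_mul]
              ring
          _ = 0 := by rw [hmh, mul_zero]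
      rw [hx, sub_mul, one_mul, sub_eq_zero] at h8
      exact h8
    have h9 := GaussJac_t_unit q χ h u
    rw [hu4] at h9
    have h10 : (χ (u : ZMod q) - 1) * GaussJac_t q χ h = 0 := by
      rw [sub_mul, h9, one_mul, sub_self]
    have h11 : GaussJac_t q χ h = 0 := by
      rcases mul_eq_zero.mp h10 with h12 | h12
      · exact absurd (sub_eq_zero.mp h12) hu3
      · exact h12
    rw [h11, norm_zero]
    simp only [ne_eq, OfNat.ofNat_ne_zero, not_false_eq_true, zero_pow, zero_mul]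
    positivity
  · have h1 := GaussJac_avg q (fun x => ‖GaussJac_t q χ x‖ ^ 2) h
      (univ.filter (fun x : ZMod q => m • x = 0)) (fun b => by positivity)
      (fun u => by simp only [GaussJac_t_norm]) (fun u => by
        rw [Finset.mem_filter]
        refine ⟨mem_univ _, ?_⟩
        rw [nsmul_eq_mul, ← mul_assoc, mul_comm (m : ZMod q), mul_assoc, ← nsmul_eq_mul, hmh,
          mul_zero])
    rw [← hgdef] at h1
    have h2 := GaussJac_sumS q χ m g hmg.symm
    have hphi : (0 : ℝ) < Nat.totient q := by exact_mod_cast Nat.totient_pos.mpr hq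
    have h3 : (Nat.totient q : ℝ) * ‖GaussJac_t q χ h‖ ^ 2 ≤
        (Nat.totient q : ℝ) * ((g : ℝ) * q) := by
      calc (Nat.totient q : ℝ) * ‖GaussJac_t q χ h‖ ^ 2
          ≤ (g : ℝ) * ((q : ℝ) * Nat.totient q) := h1.trans (by gcongr)
        _ = _ := by ring
    have h4 : ‖GaussJac_t q χ h‖ ^ 2 ≤ (g : ℝ) * q := le_of_mul_le_mul_left h3 hphi
    have h5 : (g : ℝ) * D ≤ q := by
      have h6 : g * D ≤ q := by
        rw [hmg]
        exact Nat.mul_le_mul_left g hmD.le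
      exact_mod_cast h6
    calc ‖GaussJac_t q χ h‖ ^ 2 * (D : ℝ) ≤ ((g : ℝ) * q) * D := by gcongr
      _ = ((g : ℝ) * D) * q := by ring
      _ ≤ (q : ℝ) * q := by gcongr
      _ = (q : ℝ) ^ 2 := by ring

theorem Jc_bound (q : ℕ) [NeZero q] (D : ℕ) (χ ψ : DirichletCharacter ℂ q)
    (hχ : ∀ d : ℕ, d ∣ q → d ≤ D → ¬ χ.FactorsThrough d) (a : ZMod q) :
    ‖Jc q a χ ψ‖ ^ 2 * Real.sqrt D ≤ 2 * Nat.gcd a.val q * (q : ℝ) ^ 2 := by
  have hq : 0 < q := NeZero.pos q
  have hq' : (0 : ℝ) < q := by exact_mod_cast hq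
  have hphi : (0 : ℝ) < Nat.totient q := by exact_mod_cast Nat.totient_pos.mpr hq
  have hD : Real.sqrt D ≤ D := by
    rcases Nat.eq_zero_or_pos D with h | h
    · rw [h]
      simp
    · rw [Real.sqrt_le_left (by positivity)]
      have h1 : (1 : ℝ) ≤ D := by exact_mod_cast h
      nlinarith
  have h1 := GaussJac_avg q (fun x => ‖Jc q x χ ψ‖ ^ 2) a univ (fun b => by positivity)
    (fun u => by simp only [GaussJac_J_norm]) (fun u => mem_univ _)
  have h2 := GaussJac_sumJ q χ ψ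
  have h3 : (∑ h : ZMod q, ‖GaussJac_t q χ h‖ ^ 2 * ‖GaussJac_t q ψ h‖ ^ 2) * D ≤
      (q : ℝ) ^ 2 * (q * Nat.totient q) := by
    rw [Finset.sum_mul]
    calc _ ≤ ∑ h : ZMod q, (q : ℝ) ^ 2 * ‖GaussJac_t q ψ h‖ ^ 2 := by
          refine Finset.sum_le_sum fun h _ => ?_
          have h4 := GaussJac_t_bound q D χ hχ h
          calc ‖GaussJac_t q χ h‖ ^ 2 * ‖GaussJac_t q ψ h‖ ^ 2 * D
              = (‖GaussJac_t q χ h‖ ^ 2 * D) * ‖GaussJac_t q ψ h‖ ^ 2 := by ring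
            _ ≤ (q : ℝ) ^ 2 * ‖GaussJac_t q ψ h‖ ^ 2 := by gcongr
      _ = (q : ℝ) ^ 2 * ∑ h : ZMod q, ‖GaussJac_t q ψ h‖ ^ 2 := by rw [Finset.mul_sum]
      _ ≤ (q : ℝ) ^ 2 * (q * Nat.totient q) := by
          gcongr
          unfold GaussJac_t
          rw [GaussJac_parseval q (fun b => ψ b)]
          gcongr
          exact GaussJac_norm_sq_sum q ψ
  have h5 : (∑ b : ZMod q, ‖Jc q b χ ψ‖ ^ 2) * D ≤ (q : ℝ) ^ 2 * Nat.totient q := by
    rw [← h2] at h3
    have h6 : (q : ℝ) * ((∑ b : ZMod q, ‖Jc q b χ ψ‖ ^ 2) * D) ≤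
        (q : ℝ) * ((q : ℝ) ^ 2 * Nat.totient q) := by
      calc _ = (q : ℝ) * (∑ b : ZMod q, ‖Jc q b χ ψ‖ ^ 2) * D := by ring
        _ ≤ _ := h3
        _ = _ := by ring
    exact le_of_mul_le_mul_left h6 hq'
  have h7 : (Nat.totient q : ℝ) * (‖Jc q a χ ψ‖ ^ 2 * D) ≤
      (Nat.totient q : ℝ) * ((Nat.gcd a.val q : ℝ) * (q : ℝ) ^ 2) := by
    calc (Nat.totient q : ℝ) * (‖Jc q a χ ψ‖ ^ 2 * D)
        = ((Nat.totient q : ℝ) * ‖Jc q a χ ψ‖ ^ 2) * D := by ring
      _ ≤ ((Nat.gcd a.val q : ℝ) * ∑ b : ZMod q, ‖Jc q b χ ψ‖ ^ 2) * D := by gcongr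
      _ = (Nat.gcd a.val q : ℝ) * ((∑ b : ZMod q, ‖Jc q b χ ψ‖ ^ 2) * D) := by ring
      _ ≤ (Nat.gcd a.val q : ℝ) * ((q : ℝ) ^ 2 * Nat.totient q) := by gcongr
      _ = _ := by ring
  have h8 := le_of_mul_le_mul_left h7 hphi
  have h9 : (0 : ℝ) ≤ (Nat.gcd a.val q : ℝ) * (q : ℝ) ^ 2 := by positivity
  calc ‖Jc q a χ ψ‖ ^ 2 * Real.sqrt D ≤ ‖Jc q a χ ψ‖ ^ 2 * D := by gcongr
    _ ≤ (Nat.gcd a.val q : ℝ) * (q : ℝ) ^ 2 := h8
    _ ≤ 2 * Nat.gcd a.val q * (q : ℝ) ^ 2 := by linarith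

end Pool.MP_dd84fd_nt.L2G
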