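import Pool.Agent.Lib.MP_dd84fd_nt.L2G.ChDefs
import Pool.Agent.Lib.MP_dd84fd_nt.LS.SpecBound
import Pool.Agent.Lib.MP_dd84fd_nt.LS.Four

set_option autoImplicit false

namespace Pool.MP_dd84fd_nt.L2G

open Finset Pool.MP_67663b_nt.Odd

private theorem SpecSmall_count_dvd (m q : ℕ) :
    ((Icc 1 m).filter (fun y => q ∣ y)).card = m / q := by
  rw [← Nat.Ioc_filter_dvd_card_eq_div]
  congr 1

private theorem SpecSmall_count_mod (m q a : ℕ) :
    ((Icc 1 m).filter (fun y => y ≡ a [MOD q])).card ≤ m / q + 1 := by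
  rw [← card_range (m / q + 1)]
  refine card_le_card_of_injOn (fun y => y / q) ?_ ?_
  · intro y hy
    have hy' := mem_filter.mp (mem_coe.mp hy)
    rw [mem_Icc] at hy'
    rw [mem_coe, mem_range]
    exact Nat.lt_succ_of_le (Nat.div_le_div_right hy'.1.2)
  · intro y hy z hz h
    have hy' := (mem_filter.mp (mem_coe.mp hy)).2
    have hz' := (mem_filter.mp (mem_coe.mp hz)).2
    have h1 : y % q = z % q := hy'.trans hz'.symm
    have h2 : y / q = z / q := h
    rw [← Nat.div_add_mod y q, ← Nat.div_add_mod z q, h1, h2]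

open ComplexConjugate in
private theorem SpecSmall_co (N : ℕ) [NeZero N] (M n : ℕ) (hN : M + n < N) (u v : ℕ → ℝ) :
    LS.co N (fun j => LS.tr N M u j * conj (LS.tr N M v j)) n =
      ((∑ y ∈ Icc 1 (M - n), u (y + n) * v y : ℝ) : ℂ) := by
  have hN0 : (N : ℂ) ≠ 0 := by exact_mod_cast NeZero.ne N
  unfold LS.co
  have h1 : ∀ j ∈ (univ : Finset (ZMod N)), LS.tr N M u j * conj (LS.tr N M v j) *
        ZMod.stdAddChar (-((n : ZMod N) * j)) =
      ∑ b ∈ Icc 1 M, ∑ a ∈ Icc 1 M, ((u a * v b : ℝ) : ℂ) *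
        ZMod.stdAddChar (((a : ZMod N) - (b : ZMod N) - (n : ZMod N)) * j) := by
    intro j _
    unfold LS.tr
    rw [map_sum, Finset.sum_mul_sum, Finset.sum_comm, Finset.sum_mul]
    refine Finset.sum_congr rfl (fun b _ => ?_)
    rw [Finset.sum_mul]
    refine Finset.sum_congr rfl (fun a _ => ?_)
    have : ((a : ZMod N) - (b : ZMod N) - (n : ZMod N)) * j =
      (a : ZMod N) * j + (-((b : ZMod N) * j)) + (-((n : ZMod N) * j)) := by ring
    rw [this, AddChar.map_add_eq_mul, AddChar.map_add_eq_mul, RingHom.map_mul, LS.conj_chi,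
      Complex.conj_ofReal]
    push_cast
    ring
  rw [Finset.sum_congr rfl h1, Finset.sum_comm]
  have h2 : ∀ b ∈ Icc 1 M, ∑ j : ZMod N, ∑ a ∈ Icc 1 M, ((u a * v b : ℝ) : ℂ) *
        (ZMod.stdAddChar (((a : ZMod N) - (b : ZMod N) - (n : ZMod N)) * j) : ℂ) =
      if b ≤ M - n then ((u (b + n) * v b : ℝ) : ℂ) * (N : ℂ) else 0 := by
    intro b hb
    rw [Finset.mem_Icc] at hb
    rw [Finset.sum_comm]
    by_cases hbn : b ≤ M - n
    · rw [if_pos hbn]
      rw [Finset.sum_eq_single (b + n)]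
      · rw [← Finset.mul_sum, LS.sum_chi, if_pos]
        push_cast
        ring
      · intro a ha hne
        rw [Finset.mem_Icc] at ha
        rw [← Finset.mul_sum, LS.sum_chi, if_neg, mul_zero]
        intro h0
        apply hne
        have : ((a : ℕ) : ZMod N) = ((b + n : ℕ) : ZMod N) := by
          push_cast
          rw [sub_sub] at h0
          exact sub_eq_zero.1 h0
        exact LS.cast_eq_small (by omega) (by omega) this
      · intro h
        exfalso
        apply h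
        rw [Finset.mem_Icc]
        omega
    · rw [if_neg hbn]
      apply Finset.sum_eq_zero
      intro a ha
      rw [Finset.mem_Icc] at ha
      rw [← Finset.mul_sum, LS.sum_chi, if_neg, mul_zero]
      intro h0
      have : ((a : ℕ) : ZMod N) = ((b + n : ℕ) : ZMod N) := by
        push_cast
        rw [sub_sub] at h0
        exact sub_eq_zero.1 h0
      have := LS.cast_eq_small (by omega) (by omega) this
      omega
  rw [Finset.sum_congr rfl h2, ← Finset.sum_filter]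
  have h3 : (Icc 1 M).filter (fun b => b ≤ M - n) = Icc 1 (M - n) := by
    ext a
    simp only [Finset.mem_filter, Finset.mem_Icc]
    omega
  rw [h3, ← Finset.sum_mul, Complex.ofReal_sum]
  field_simp

theorem spec_small (N : ℕ) [NeZero N] (X : ℕ) (ξ : ℕ → ℝ) (hξ : ∀ n, 0 ≤ ξ n)
    (hsum : ∑ n ∈ Icc 1 X, ξ n ≤ 1) (δ : ℝ) (hδ : 0 ≤ δ) (q M : ℕ) (hq : 1 ≤ q) (hM : 8 * q ≤ M)
    (hMN : M + X < N) (a : ℕ) :
    ∑ n ∈ (Icc 1 X).filter (fun n => 2 * n ≤ M ∧ n ≡ a [MOD q]), ξ n ≤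
      256 * (δ + ((Pool.MP_dd84fd_nt.LS.spec N X ξ δ).card : ℝ) / N * (M / q)) := by
  have hqr : (0 : ℝ) < q := by exact_mod_cast hq
  have hNr : (0 : ℝ) < N := by exact_mod_cast Nat.pos_of_ne_zero (NeZero.ne N)
  have hMr : 8 * (q : ℝ) ≤ M := by exact_mod_cast hM
  set R : ℝ := (M : ℝ) / q with hR
  have hR8 : 8 ≤ R := by
    rw [hR, le_div_iff₀ hqr]
    exact hMr
  set u : ℕ → ℝ := fun n => if n ≡ a [MOD q] then 1 else 0 with hu
  set v : ℕ → ℝ := fun n => if q ∣ n then 1 else 0 with hv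
  have hdivle : ((M / q : ℕ) : ℝ) ≤ R := Nat.cast_div_le
  have hsu : ∑ n ∈ Icc 1 M, u n ^ 2 ≤ 9 / 8 * R := by
    have h1 : ∑ n ∈ Icc 1 M, u n ^ 2 = (((Icc 1 M).filter (fun y => y ≡ a [MOD q])).card : ℝ) := by
      rw [card_eq_sum_ones, sum_filter]
      push_cast
      refine sum_congr rfl fun n _ => ?_
      rw [hu]
      simp only
      split_ifs <;> norm_num
    rw [h1]
    have h2 : (((Icc 1 M).filter (fun y => y ≡ a [MOD q])).card : ℝ) ≤ ((M / q : ℕ) : ℝ) + 1 := by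
      exact_mod_cast SpecSmall_count_mod M q a
    linarith
  have hsv : ∑ n ∈ Icc 1 M, v n ^ 2 ≤ R := by
    have h1 : ∑ n ∈ Icc 1 M, v n ^ 2 = (((Icc 1 M).filter (fun y => q ∣ y)).card : ℝ) := by
      rw [card_eq_sum_ones, sum_filter]
      push_cast
      refine sum_congr rfl fun n _ => ?_
      rw [hv]
      simp only
      split_ifs <;> norm_num
    rw [h1, SpecSmall_count_dvd]
    exact hdivle
  have hv0 : ∀ j, ‖LS.tr N M v j‖ ≤ R := by
    intro j
    unfold LS.tr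
    refine (norm_sum_le _ _).trans (le_trans (le_of_eq ?_) hsv)
    refine sum_congr rfl fun n _ => ?_
    rw [norm_mul, AddChar.norm_apply, mul_one, Complex.norm_real, hv]
    simp only
    split_ifs <;> norm_num
  have hpu := LS.parseval N M (by omega) u
  have hpv := LS.parseval N M (by omega) v
  set r : ZMod N → ℂ := fun j => LS.tr N M u j * (starRingEnd ℂ) (LS.tr N M v j) with hr
  have hrn : ∀ j, ‖r j‖ = ‖LS.tr N M u j‖ * ‖LS.tr N M v j‖ := by
    intro j
    rw [hr]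
    simp only
    rw [norm_mul, RCLike.norm_conj]
  have hr1 : (1 / (N : ℝ)) * ∑ j, ‖r j‖ ≤ 9 / 8 * R := by
    have h1 : ∑ j, ‖r j‖ ≤ ∑ j, (‖LS.tr N M u j‖ ^ 2 + ‖LS.tr N M v j‖ ^ 2) / 2 := by
      refine sum_le_sum fun j _ => ?_
      rw [hrn]
      nlinarith [sq_nonneg (‖LS.tr N M u j‖ - ‖LS.tr N M v j‖)]
    have h2 : (1 / (N : ℝ)) * ∑ j, (‖LS.tr N M u j‖ ^ 2 + ‖LS.tr N M v j‖ ^ 2) / 2 =
        ((1 / (N : ℝ)) * ∑ j, ‖LS.tr N M u j‖ ^ 2 +
          (1 / (N : ℝ)) * ∑ j, ‖LS.tr N M v j‖ ^ 2) / 2 := by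
      rw [← Finset.sum_div, Finset.sum_add_distrib]
      ring
    refine (mul_le_mul_of_nonneg_left h1 (by positivity)).trans ?_
    rw [h2, hpu, hpv]
    linarith
  have hr2 : (1 / (N : ℝ)) * ∑ j, ‖r j‖ ^ 2 ≤ 9 / 8 * R ^ 3 := by
    have h1 : ∑ j, ‖r j‖ ^ 2 ≤ ∑ j, R ^ 2 * ‖LS.tr N M u j‖ ^ 2 := by
      refine sum_le_sum fun j _ => ?_
      rw [hrn, mul_pow, mul_comm]
      refine mul_le_mul_of_nonneg_right ?_ (sq_nonneg _)
      exact pow_le_pow_left₀ (norm_nonneg _) (hv0 j) 2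
    refine (mul_le_mul_of_nonneg_left h1 (by positivity)).trans ?_
    rw [← Finset.mul_sum, mul_left_comm, hpu]
    nlinarith [mul_le_mul_of_nonneg_left hsu (sq_nonneg R)]
  have hsb := LS.spec_bound N X ξ hξ hsum r δ hδ
  set K : ℝ := ((LS.spec N X ξ δ).card : ℝ) / N with hK
  have hK0 : 0 ≤ K := by positivity
  set m := ∑ n ∈ (Icc 1 X).filter (fun n => 2 * n ≤ M ∧ n ≡ a [MOD q]), ξ n with hm
  have hlow : (3 / 8 * R) ^ 2 * m ≤ ∑ n ∈ Icc 1 X, ξ n * ‖LS.co N r n‖ ^ 2 := by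
    rw [hm, Finset.mul_sum]
    refine le_trans (Finset.sum_le_sum (g := fun n => ξ n * ‖LS.co N r n‖ ^ 2) ?_)
      (Finset.sum_le_sum_of_subset_of_nonneg (Finset.filter_subset _ _)
        (fun n _ _ => mul_nonneg (hξ n) (sq_nonneg _)))
    intro n hn
    rw [mem_filter, mem_Icc] at hn
    obtain ⟨⟨hn1, hnX⟩, hnM, hna⟩ := hn
    rw [mul_comm]
    refine mul_le_mul_of_nonneg_left ?_ (hξ n)
    refine pow_le_pow_left₀ (by positivity) ?_ 2
    have h1 := SpecSmall_co N M n (by omega) u v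
    have h2 : LS.co N r n = ((((M - n) / q : ℕ) : ℝ) : ℂ) := by
      rw [hr, h1]
      congr 1
      rw [← SpecSmall_count_dvd, card_eq_sum_ones, sum_filter]
      push_cast
      refine sum_congr rfl fun y _ => ?_
      by_cases hy : q ∣ y
      · have h3 : y + n ≡ a [MOD q] := by
          have h4 : y ≡ 0 [MOD q] := (Nat.modEq_zero_iff_dvd).mpr hy
          have h5 := h4.add hna
          rwa [zero_add] at h5
        rw [hu, hv]
        simp only
        rw [if_pos h3, if_pos hy, one_mul]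
      · rw [hv]
        simp only
        rw [if_neg hy, mul_zero]
    rw [h2, Complex.norm_real, Real.norm_of_nonneg (Nat.cast_nonneg _)]
    have h3 : (M : ℝ) / 2 ≤ ((M - n : ℕ) : ℝ) := by
      rw [Nat.cast_sub (by omega)]
      have : 2 * (n : ℝ) ≤ M := by exact_mod_cast hnM
      linarith
    have h4 : ((M - n : ℕ) : ℝ) < q * (((M - n) / q : ℕ) : ℝ) + q := by
      have := Nat.lt_mul_div_succ (M - n) hq
      have h5 : ((M - n : ℕ) : ℝ) < q * ((((M - n) / q : ℕ) : ℝ) + 1) := by exact_mod_cast this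
      linarith
    have h5 : (M : ℝ) = R * q := by
      rw [hR]
      field_simp
    have h6 : q * (3 / 8 * R) ≤ q * (((M - n) / q : ℕ) : ℝ) := by
      nlinarith
    exact le_of_mul_le_mul_left h6 hqr
  have hfin : (3 / 8 * R) ^ 2 * m ≤ δ * (9 / 8 * R) ^ 2 + K * (9 / 8 * R ^ 3) := by
    refine hlow.trans (hsb.trans ?_)
    refine add_le_add ?_ ?_
    · refine mul_le_mul_of_nonneg_left ?_ hδ
      exact pow_le_pow_left₀ (mul_nonneg (by positivity)
        (Finset.sum_nonneg fun j _ => norm_nonneg _)) hr1 2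
    · exact mul_le_mul_of_nonneg_left hr2 hK0
  have hR2 : 0 < R ^ 2 := by positivity
  have h7 : R ^ 2 * (9 / 64 * m) ≤ R ^ 2 * (81 / 64 * δ + 9 / 8 * K * R) := by
    nlinarith
  have h8 := le_of_mul_le_mul_left h7 hR2
  have h9 : 0 ≤ K * R := by positivity
  linarith

end Pool.MP_dd84fd_nt.L2G
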