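import Pool.Agent.Lib.MP_dd84fd_nt.L2G.HBDefs

/-!
# Goldbach in progressions to large moduli: definitions
-/

set_option autoImplicit false

namespace Pool.MP_dd84fd_nt.L2G

open Finset Pool.MP_67663b_nt.Odd

/-- `∑_{n ≤ X, n ≡ b mod q} f(n) e(nθ)` -/
noncomputable def fz (X q : ℕ) (f : ℕ → ℝ) (θ : ℝ) (b : ZMod q) : ℂ :=
  ∑ n ∈ (Icc 1 X).filter (fun n : ℕ => (n : ZMod q) = b), (f n : ℂ) * ee (n * θ)

/-- `∑_{n ≡ a mod q} (f * f)(n) e(nθ)` (additive convolution of `f` restricted to `[1, X]`) -/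
noncomputable def Fz (X q : ℕ) (f : ℕ → ℝ) (θ : ℝ) (a : ZMod q) : ℂ :=
  ∑ n ∈ (range (2 * X + 1)).filter (fun n : ℕ => (n : ZMod q) = a), (cv X f f n : ℂ) * ee (n * θ)

/-- mean square over all the classes mod `q` -/
noncomputable def VA (X q : ℕ) [NeZero q] (f : ℕ → ℝ) (θ : ℝ) : ℝ :=
  ∑ b : ZMod q, ‖fz X q f θ b‖ ^ 2

/-- `∑_{n ≤ X} f(n) χ(n) e(nθ)` -/
noncomputable def Tc (X q : ℕ) (f : ℕ → ℝ) (θ : ℝ) (χ : DirichletCharacter ℂ q) : ℂ :=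
  ∑ n ∈ Icc 1 X, (f n : ℂ) * χ n * ee (n * θ)

/-- `∑_{b mod q} χ(b) ψ(a - b)` -/
noncomputable def Jc (q : ℕ) [NeZero q] (a : ZMod q) (χ ψ : DirichletCharacter ℂ q) : ℂ :=
  ∑ b : ZMod q, χ b * ψ (a - b)

/-- the number of `b mod q` with `b` and `a - b` coprime to `q` -/
noncomputable def Nc (q : ℕ) [NeZero q] (a : ZMod q) : ℕ :=
  (univ.filter (fun b : ZMod q => IsUnit b ∧ IsUnit (a - b))).card

/-- Ramanujan's sum `c_r(n) = ∑_{d ∣ (r, n)} d μ(r/d)` -/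
noncomputable def cn (r n : ℕ) : ℝ :=
  ∑ d ∈ (Nat.gcd r n).divisors, (d : ℝ) * ((ArithmeticFunction.moebius (r / d) : ℤ) : ℝ)

/-- the model of the primes:
`1_{(n,q)=1} (q / φ(q)) ∑_{r ≤ R, (r,q)=1} μ(r) c_r(n) / φ(r)` for `1 ≤ n ≤ X` -/
noncomputable def nu (X R q n : ℕ) : ℝ :=
  if 1 ≤ n ∧ n ≤ X ∧ Nat.Coprime n q then
    (q : ℝ) / (Nat.totient q : ℝ) * ∑ r ∈ (Icc 1 R).filter (fun r => Nat.Coprime r q),
      ((ArithmeticFunction.moebius r : ℤ) : ℝ) / (Nat.totient r : ℝ) * cn r n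
  else 0

/-- the level of the model -/
noncomputable def Rm (X : ℕ) : ℕ := ⌊(X : ℝ) ^ (1 / 50 : ℝ)⌋₊

/-- the main term on the major arcs -/
noncomputable def MT (X q r : ℕ) [NeZero q] (β : ℝ) (a : ZMod q) : ℂ :=
  KI X β ^ 2 * ((((ArithmeticFunction.moebius r : ℤ) : ℝ) / (Nat.totient r : ℝ)) ^ 2 : ℝ) *
    ((Nc q a : ℝ) / (Nat.totient q : ℝ) ^ 2 : ℝ)

/-- The major arcs for the modulus `q`. -/
def MajQ (X q B : ℕ) : Set ℝ :=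
  {θ | ∃ r : ℕ, 1 ≤ r ∧ (r : ℝ) ≤ Real.log X ^ B ∧ ∃ c : ℤ, IsCoprime c (r : ℤ) ∧
    |q * θ - c / r| ≤ q * Real.log X ^ B / (r * X)}

/-- the truncated singular series over the `r` coprime to `q` -/
noncomputable def SR (R q n : ℕ) : ℝ :=
  ∑ r ∈ (Icc 1 R).filter (fun r => Nat.Coprime r q),
    ((ArithmeticFunction.moebius r : ℤ) : ℝ) ^ 2 / (Nat.totient r : ℝ) ^ 2 * cn r n

/-- the cells of the dyadic-like decomposition -/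
noncomputable def cell (P H i : ℕ) : ℕ := ⌈(P : ℝ) * (1 + 1 / (H : ℝ)) ^ i⌉₊

end Pool.MP_dd84fd_nt.L2G
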