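import Pool.Agent.Lib.MP_dd84fd_nt.L2G.ChDefs
import Pool.Agent.Lib.MP_dd84fd_nt.L2G.CvBasic
import Pool.Agent.Lib.MP_dd84fd_nt.En.Count
import Pool.Agent.Lib.MP_dd84fd_nt.En.Sing

set_option autoImplicit false

namespace Pool.MP_dd84fd_nt.L2G

open Finset Pool.MP_67663b_nt.Odd

private theorem GHL_inner (X n : ℕ) (c : ℕ → ℝ) (m : ℕ) :
    (∑ k ∈ Icc 1 X, if m + k = n then c k else 0) =
      if m ≤ n ∧ n - m ∈ Icc 1 X then c (n - m) else 0 := by
  by_cases h : m ≤ n ∧ n - m ∈ Icc 1 X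
  · rw [if_pos h, sum_eq_single (n - m)]
    · rw [if_pos (by omega)]
    · intro k _ hk
      rw [if_neg (by omega)]
    · intro hk
      exact absurd h.2 hk
  · rw [if_neg h]
    refine sum_eq_zero fun k hk => ?_
    rw [if_neg]
    intro hmk
    apply h
    refine ⟨by omega, ?_⟩
    have : n - m = k := by omega
    rw [this]
    exact hk

theorem cv_la_rG (X n : ℕ) (h : n ≤ X) :
    cv X (la X) (la X) n = Pool.MP_dd84fd_nt.En.rG n := by
  unfold cv Pool.MP_dd84fd_nt.En.rG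
  have h1 : ∀ m ∈ Icc 1 X, (∑ k ∈ Icc 1 X, if m + k = n then la X m * la X k else 0) =
      if m ≤ n ∧ n - m ∈ Icc 1 X then la X m * la X (n - m) else 0 := fun m _ =>
    GHL_inner X n (fun k => la X m * la X k) m
  rw [sum_congr rfl h1]
  symm
  refine sum_subset_zero_on_sdiff ?_ ?_ ?_
  · intro m hm
    rw [mem_filter, mem_range] at hm
    rw [mem_Icc]
    have := hm.2.1.one_lt
    omega
  · intro m hm
    rw [mem_sdiff, mem_filter, mem_range] at hm
    by_cases h2 : m ≤ n ∧ n - m ∈ Icc 1 X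
    · rw [if_pos h2]
      have h3 : ¬ (m.Prime ∧ (n - m).Prime) := fun h4 => hm.2 ⟨by omega, h4⟩
      rcases not_and_or.1 h3 with h4 | h4
      · have : la X m = 0 := by
          unfold la
          rw [if_neg fun h5 => h4 h5.1]
        rw [this, zero_mul]
      · have : la X (n - m) = 0 := by
          unfold la
          rw [if_neg fun h5 => h4 h5.1]
        rw [this, mul_zero]
    · rw [if_neg h2]
  · intro m hm
    rw [mem_filter, mem_range] at hm
    have h2 := hm.2.2.one_lt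
    have h3 : m ≤ n ∧ n - m ∈ Icc 1 X := ⟨by omega, by rw [mem_Icc]; omega⟩
    rw [if_pos h3]
    unfold la
    rw [if_pos ⟨hm.2.1, by omega⟩, if_pos ⟨hm.2.2, by omega⟩]

theorem g_HL (ε : ℝ) (hε : 0 < ε) : ∃ η : ℝ, 0 < η ∧ ∃ n0 : ℕ, ∀ n : ℕ, n0 ≤ n → Even n →
    |Pool.MP_dd84fd_nt.En.rG n - Pool.MP_dd84fd_nt.En.SS n * n| ≤ η * n →
    |(Pool.MP_dd84fd_nt.En.g n : ℝ) - Pool.MP_dd84fd_nt.En.HL n| ≤
      ε * Pool.MP_dd84fd_nt.En.HL n := by
  have hC := Pool.MP_dd84fd_nt.En.C2_pos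
  set c : ℝ := 2 * Pool.MP_dd84fd_nt.En.C2 with hc
  have hc0 : 0 < c := by positivity
  -- `e` with `e + 2 e / c ≤ ε (1 - e)`
  set e : ℝ := min (1 / 2) (ε / (2 * (1 + 2 / c))) with he
  have he0 : 0 < e := lt_min (by norm_num) (by positivity)
  have he1 : e ≤ 1 / 2 := min_le_left _ _
  have he2 : e * (1 + 2 / c) ≤ ε / 2 := by
    have h1 : e ≤ ε / (2 * (1 + 2 / c)) := min_le_right _ _
    have h2 : 0 < 1 + 2 / c := by positivity
    calc e * (1 + 2 / c) ≤ ε / (2 * (1 + 2 / c)) * (1 + 2 / c) := by gcongr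
      _ = ε / 2 := by field_simp
  obtain ⟨n0, hn0⟩ := Pool.MP_dd84fd_nt.En.rG_g he0
  refine ⟨e, he0, max n0 2, fun n hn _ h => ?_⟩
  have h1 := hn0 n ((le_max_left _ _).trans hn)
  have hn2 : 2 ≤ n := (le_max_right _ _).trans hn
  have hn2' : (2 : ℝ) ≤ n := by exact_mod_cast hn2
  have hlog : 0 < Real.log n := Real.log_pos (by linarith)
  have hs : c ≤ Pool.MP_dd84fd_nt.En.SS n := Pool.MP_dd84fd_nt.En.SS_ge n
  set s := Pool.MP_dd84fd_nt.En.SS n with hsdef
  set G : ℝ := (Pool.MP_dd84fd_nt.En.g n : ℝ) * Real.log n ^ 2 with hG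
  have hs0 : 0 < s := lt_of_lt_of_le hc0 hs
  have hsn : (n : ℝ) ≤ s * n / c := by
    rw [le_div_iff₀ hc0]
    have hn0' : (0 : ℝ) ≤ n := Nat.cast_nonneg n
    nlinarith
  have hGs : |G - s * n| ≤ ε * (s * n) := by
    have h2 : |G - s * n| ≤ e * (G + n) + e * n := by
      have h3 : G - s * n = -(Pool.MP_dd84fd_nt.En.rG n - G) +
          (Pool.MP_dd84fd_nt.En.rG n - s * n) := by ring
      rw [h3]
      refine (abs_add_le _ _).trans ?_
      rw [abs_neg]
      exact add_le_add h1 h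
    have h4 : G ≤ |G - s * n| + s * n := by
      have := le_abs_self (G - s * n)
      linarith
    have h5 : e * G ≤ e * (|G - s * n| + s * n) := mul_le_mul_of_nonneg_left h4 he0.le
    have h6 : (1 - e) * |G - s * n| ≤ e * (s * n) + 2 * e * n := by nlinarith
    have h7 : 2 * e * n ≤ 2 * e * (s * n / c) := mul_le_mul_of_nonneg_left hsn (by positivity)
    have h8 : e * (s * n) + 2 * e * (s * n / c) = (e * (1 + 2 / c)) * (s * n) := by
      field_simp
    have h9 : (e * (1 + 2 / c)) * (s * n) ≤ ε / 2 * (s * n) :=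
      mul_le_mul_of_nonneg_right he2 (by positivity)
    have h10 : 1 / 2 * |G - s * n| ≤ (1 - e) * |G - s * n| :=
      mul_le_mul_of_nonneg_right (by linarith) (abs_nonneg _)
    linarith
  have hL2 : 0 < Real.log n ^ 2 := by positivity
  have e1 : (Pool.MP_dd84fd_nt.En.g n : ℝ) - Pool.MP_dd84fd_nt.En.HL n =
      (G - s * n) / Real.log n ^ 2 := by
    unfold Pool.MP_dd84fd_nt.En.HL
    rw [hG, ← hsdef]
    field_simp
  have e2 : ε * Pool.MP_dd84fd_nt.En.HL n = ε * (s * n) / Real.log n ^ 2 := by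
    unfold Pool.MP_dd84fd_nt.En.HL
    rw [← hsdef]
    ring
  rw [e1, e2, abs_div, abs_of_pos hL2]
  gcongr

end Pool.MP_dd84fd_nt.L2G
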