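import Pool.Agent.Lib.MP_dd84fd_nt.L2G.CharOrth
import Pool.Agent.Lib.MP_dd84fd_nt.L2G.ClassAlg

set_option autoImplicit false

namespace Pool.MP_dd84fd_nt.L2G

open Finset Pool.MP_67663b_nt.Odd

theorem ba_sum_char (q : ℕ) [NeZero q] (η : DirichletCharacter ℂ q) [Decidable (η = 1)] :
    ∑ b : ZMod q, η b = if η = 1 then (Nat.totient q : ℂ) else 0 := by
  split_ifs with h
  · rw [h, MulChar.sum_one_eq_card_units, ZMod.card_units_eq_totient]
  · exact MulChar.sum_eq_zero_of_ne_one h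

theorem ba_conj (q : ℕ) [NeZero q] (ψ : DirichletCharacter ℂ q) (b : ZMod q) :
    (starRingEnd ℂ) ((ψ⁻¹ : DirichletCharacter ℂ q) b) = ψ b := by
  by_cases hb : IsUnit b
  · rw [co_char_conj q ψ⁻¹ b hb, co_char_inv_unit q ψ⁻¹ b hb, MulChar.inv_apply_eq_inv', inv_inv]
  · rw [MulChar.map_nonunit _ hb, MulChar.map_nonunit _ hb, map_zero]

theorem ba_dual (q : ℕ) [NeZero q] (c : DirichletCharacter ℂ q → ℂ) :
    ∑ b : ZMod q, ‖∑ χ : DirichletCharacter ℂ q, (χ⁻¹ : DirichletCharacter ℂ q) b * c χ‖ ^ 2 =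
      (Nat.totient q : ℝ) * ∑ χ : DirichletCharacter ℂ q, ‖c χ‖ ^ 2 := by
  classical
  have h1 : ∀ b : ZMod q,
      ((‖∑ χ : DirichletCharacter ℂ q, (χ⁻¹ : DirichletCharacter ℂ q) b * c χ‖ ^ 2 : ℝ) : ℂ) =
      ∑ χ : DirichletCharacter ℂ q, ∑ ψ : DirichletCharacter ℂ q,
        (c χ * (starRingEnd ℂ) (c ψ)) * (χ⁻¹ * ψ : DirichletCharacter ℂ q) b := by
    intro b
    have h2 : ((‖∑ χ : DirichletCharacter ℂ q, (χ⁻¹ : DirichletCharacter ℂ q) b * c χ‖ ^ 2 : ℝ)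
        : ℂ) = (∑ χ : DirichletCharacter ℂ q, (χ⁻¹ : DirichletCharacter ℂ q) b * c χ) *
          (starRingEnd ℂ) (∑ χ : DirichletCharacter ℂ q, (χ⁻¹ : DirichletCharacter ℂ q) b * c χ) := by
      rw [Complex.mul_conj, Complex.normSq_eq_norm_sq]
    rw [h2, map_sum, Finset.sum_mul_sum]
    refine Finset.sum_congr rfl fun χ _ => Finset.sum_congr rfl fun ψ _ => ?_
    rw [map_mul, ba_conj, MulChar.mul_apply]
    ring
  have h4 : ((∑ b : ZMod q, ‖∑ χ : DirichletCharacter ℂ q,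
      (χ⁻¹ : DirichletCharacter ℂ q) b * c χ‖ ^ 2 : ℝ) : ℂ) =
      (((Nat.totient q : ℝ) * ∑ χ : DirichletCharacter ℂ q, ‖c χ‖ ^ 2 : ℝ) : ℂ) := by
    rw [Complex.ofReal_sum, Finset.sum_congr rfl (fun b _ => h1 b), Finset.sum_comm]
    rw [Finset.sum_congr rfl (fun χ _ => Finset.sum_comm)]
    simp only [← Finset.mul_sum]
    push_cast
    rw [Finset.mul_sum]
    refine Finset.sum_congr rfl fun χ _ => ?_
    rw [Finset.sum_eq_single χ]
    · rw [ba_sum_char, if_pos (inv_mul_cancel χ), Complex.mul_conj, Complex.normSq_eq_norm_sq]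
      push_cast
      ring
    · intro ψ _ hψ
      rw [ba_sum_char, if_neg, mul_zero]
      intro h
      exact hψ (inv_mul_eq_one.mp h).symm
    · intro h
      exact absurd (Finset.mem_univ _) h
  exact_mod_cast h4

/-- the part of the characters in `S` -/
noncomputable def ba_part (X q : ℕ) [NeZero q] (f : ℕ → ℝ) (θ : ℝ)
    (P : DirichletCharacter ℂ q → Prop) [DecidablePred P] (b : ZMod q) : ℂ :=
  (1 / (Nat.totient q : ℂ)) * ∑ χ : DirichletCharacter ℂ q,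
    (χ⁻¹ : DirichletCharacter ℂ q) b * (if P χ then Tc X q f θ χ else 0)

theorem ba_part_sq (X q : ℕ) [NeZero q] (f : ℕ → ℝ) (θ : ℝ)
    (P : DirichletCharacter ℂ q → Prop) [DecidablePred P] :
    ∑ b : ZMod q, ‖ba_part X q f θ P b‖ ^ 2 =
      (∑ χ ∈ univ.filter P, ‖Tc X q f θ χ‖ ^ 2) / (Nat.totient q : ℝ) := by
  have hq : 0 < q := Nat.pos_of_ne_zero (NeZero.ne q)
  have hphi : (Nat.totient q : ℝ) ≠ 0 := by
    have := Nat.totient_pos.mpr hq
    exact_mod_cast this.ne'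
  unfold ba_part
  simp only [norm_mul, mul_pow]
  rw [← Finset.mul_sum, ba_dual]
  have h1 : ∑ χ : DirichletCharacter ℂ q, ‖if P χ then Tc X q f θ χ else 0‖ ^ 2 =
      ∑ χ ∈ univ.filter P, ‖Tc X q f θ χ‖ ^ 2 := by
    rw [Finset.sum_filter]
    refine Finset.sum_congr rfl fun χ _ => ?_
    split_ifs
    · rfl
    · simp
  rw [h1]
  have h2 : ‖(1 : ℂ) / (Nat.totient q : ℂ)‖ = 1 / (Nat.totient q : ℝ) := by
    rw [norm_div, norm_one, Complex.norm_natCast]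
  rw [h2]
  field_simp

theorem ba_cs (q : ℕ) [NeZero q] (u v : ZMod q → ℂ) (a : ZMod q) :
    ‖∑ b : ZMod q, u b * v (a - b)‖ ≤
      Real.sqrt ((∑ b : ZMod q, ‖u b‖ ^ 2) * ∑ b : ZMod q, ‖v b‖ ^ 2) := by
  have h1 : ∑ b : ZMod q, ‖v (a - b)‖ ^ 2 = ∑ b : ZMod q, ‖v b‖ ^ 2 :=
    Fintype.sum_equiv (Equiv.subLeft a) _ _ (fun b => rfl)
  refine (norm_sum_le _ _).trans ?_
  rw [← h1, Real.sqrt_mul (Finset.sum_nonneg fun _ _ => by positivity)]
  simp only [norm_mul]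
  exact Real.sum_mul_le_sqrt_mul_sqrt univ (fun b => ‖u b‖) (fun b => ‖v (a - b)‖)

theorem ba_Jc_comm (q : ℕ) [NeZero q] (a : ZMod q) (χ ψ : DirichletCharacter ℂ q) :
    Jc q a χ ψ = Jc q a ψ χ := by
  unfold Jc
  refine Fintype.sum_equiv (Equiv.subLeft a) _ _ (fun b => ?_)
  rw [Equiv.subLeft_apply, sub_sub_cancel, mul_comm]

theorem ba_Jc_one (q : ℕ) [NeZero q] (a : ZMod q) :
    Jc q a 1 1 = (Nc q a : ℂ) := by
  classical
  unfold Jc Nc
  rw [Finset.card_filter]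
  push_cast
  refine Finset.sum_congr rfl fun b _ => ?_
  by_cases h1 : IsUnit b
  · by_cases h2 : IsUnit (a - b)
    · rw [MulChar.one_apply h1, MulChar.one_apply h2, if_pos ⟨h1, h2⟩, one_mul]
    · rw [MulChar.map_nonunit _ h2, if_neg (fun h => h2 h.2), mul_zero]
  · rw [MulChar.map_nonunit _ h1, if_neg (fun h => h1 h.1), zero_mul]

theorem ba_main (X q : ℕ) [NeZero q] (f : ℕ → ℝ) (θ : ℝ) (a : ZMod q)
    (P : DirichletCharacter ℂ q → Prop) [DecidablePred P] :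
    ∑ b : ZMod q, ba_part X q f θ P b * ba_part X q f θ P (a - b) =
      ∑ χ ∈ univ.filter P, ∑ ψ ∈ univ.filter P,
        Tc X q f θ χ * Tc X q f θ ψ * Jc q a χ⁻¹ ψ⁻¹ / (Nat.totient q : ℂ) ^ 2 := by
  classical
  have h1 : ∀ b : ZMod q, ba_part X q f θ P b =
      (1 / (Nat.totient q : ℂ)) * ∑ χ ∈ univ.filter P,
        (χ⁻¹ : DirichletCharacter ℂ q) b * Tc X q f θ χ := by
    intro b
    unfold ba_part
    rw [Finset.sum_filter]
    congr 1
    refine Finset.sum_congr rfl fun χ _ => ?_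
    split_ifs
    · rfl
    · rw [mul_zero]
  simp only [h1]
  have h2 : ∀ b : ZMod q, ((1 / (Nat.totient q : ℂ)) * ∑ χ ∈ univ.filter P,
        (χ⁻¹ : DirichletCharacter ℂ q) b * Tc X q f θ χ) *
      ((1 / (Nat.totient q : ℂ)) * ∑ χ ∈ univ.filter P,
        (χ⁻¹ : DirichletCharacter ℂ q) (a - b) * Tc X q f θ χ) =
      ∑ χ ∈ univ.filter P, ∑ ψ ∈ univ.filter P,
        (Tc X q f θ χ * Tc X q f θ ψ / (Nat.totient q : ℂ) ^ 2) *
        ((χ⁻¹ : DirichletCharacter ℂ q) b * (ψ⁻¹ : DirichletCharacter ℂ q) (a - b)) := by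
    intro b
    have h3 : ∀ x y : ℂ, ((1 / (Nat.totient q : ℂ)) * x) * ((1 / (Nat.totient q : ℂ)) * y) =
        (1 / (Nat.totient q : ℂ)) ^ 2 * (x * y) := fun x y => by ring
    rw [h3, Finset.sum_mul_sum, Finset.mul_sum]
    refine Finset.sum_congr rfl fun χ _ => ?_
    rw [Finset.mul_sum]
    refine Finset.sum_congr rfl fun ψ _ => ?_
    ring
  rw [Finset.sum_congr rfl (fun b _ => h2 b), Finset.sum_comm]
  refine Finset.sum_congr rfl fun χ _ => ?_
  rw [Finset.sum_comm]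
  refine Finset.sum_congr rfl fun ψ _ => ?_
  rw [← Finset.mul_sum]
  unfold Jc
  ring

theorem bad_alg (X q : ℕ) [NeZero q] (f : ℕ → ℝ) (θ : ℝ) (a : ZMod q)
    (𝓑 : Finset (DirichletCharacter ℂ q)) (h1 : (1 : DirichletCharacter ℂ q) ∉ 𝓑)
    (E J T : ℝ) (hE : 0 ≤ E) (hJ : 0 ≤ J) (hT : ∀ χ, ‖Tc X q f θ χ‖ ≤ T)
    (hg : ∑ χ ∈ univ.filter (fun χ => χ ∉ 𝓑 ∧ χ ≠ 1), ‖Tc X q f θ χ‖ ^ 2 ≤ E)
    (hb : ∀ χ ∈ 𝓑, ∀ ψ : DirichletCharacter ℂ q, ‖Jc q a χ⁻¹ ψ‖ ≤ J) :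
    ‖∑ b ∈ univ.filter (fun b : ZMod q => IsUnit b ∧ IsUnit (a - b)),
        fz X q f θ b * fz X q f θ (a - b) -
      Tc X q f θ 1 ^ 2 * ((Nc q a : ℝ) / (Nat.totient q : ℝ) ^ 2 : ℝ)‖ ≤
      (𝓑.card + 1) ^ 2 * T ^ 2 * J / (Nat.totient q : ℝ) ^ 2 +
        (2 * Real.sqrt (E * ∑ χ : DirichletCharacter ℂ q, ‖Tc X q f θ χ‖ ^ 2) + E) /
          (Nat.totient q : ℝ) := by
  classical
  have hq : 0 < q := Nat.pos_of_ne_zero (NeZero.ne q)
  have hphi : (0 : ℝ) < (Nat.totient q : ℝ) := by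
    have := Nat.totient_pos.mpr hq
    exact_mod_cast this
  have hT0 : 0 ≤ T := (norm_nonneg _).trans (hT 1)
  set Su : ℝ := ∑ χ : DirichletCharacter ℂ q, ‖Tc X q f θ χ‖ ^ 2 with hSu
  have hSu0 : 0 ≤ Su := Finset.sum_nonneg fun _ _ => by positivity
  set P : DirichletCharacter ℂ q → Prop := fun χ => χ ∈ 𝓑 ∨ χ = 1 with hP
  set u : ZMod q → ℂ := ba_part X q f θ P with hu
  set g : ZMod q → ℂ := ba_part X q f θ (fun χ => ¬ P χ) with hgd
  have hug : ∀ b : ZMod q, IsUnit b → fz X q f θ b = u b + g b := by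
    intro b hb
    rw [fz_char X q f θ b hb, hu, hgd]
    unfold ba_part
    rw [← mul_add, ← Finset.sum_add_distrib]
    congr 1
    refine Finset.sum_congr rfl fun χ _ => ?_
    by_cases h : P χ
    · rw [if_pos h, if_neg (not_not.mpr h)]; ring
    · rw [if_neg h, if_pos h]; ring
  have hu0 : ∀ b : ZMod q, ¬ IsUnit b → u b = 0 := by
    intro b hb
    rw [hu]
    unfold ba_part
    rw [Finset.sum_eq_zero, mul_zero]
    intro χ _
    rw [MulChar.map_nonunit _ hb, zero_mul]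
  have hg0 : ∀ b : ZMod q, ¬ IsUnit b → g b = 0 := by
    intro b hb
    rw [hgd]
    unfold ba_part
    rw [Finset.sum_eq_zero, mul_zero]
    intro χ _
    rw [MulChar.map_nonunit _ hb, zero_mul]
  have hsum : ∑ b ∈ univ.filter (fun b : ZMod q => IsUnit b ∧ IsUnit (a - b)),
      fz X q f θ b * fz X q f θ (a - b) =
      ∑ b : ZMod q, u b * u (a - b) + (∑ b : ZMod q, u b * g (a - b) +
        ∑ b : ZMod q, g b * u (a - b)) + ∑ b : ZMod q, g b * g (a - b) := by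
    rw [Finset.sum_filter, ← Finset.sum_add_distrib, ← Finset.sum_add_distrib,
      ← Finset.sum_add_distrib]
    refine Finset.sum_congr rfl fun b _ => ?_
    by_cases h2 : IsUnit b
    · by_cases h3 : IsUnit (a - b)
      · rw [if_pos ⟨h2, h3⟩, hug b h2, hug (a - b) h3]
        ring
      · rw [if_neg (fun h => h3 h.2), hu0 _ h3, hg0 _ h3]
        ring
    · rw [if_neg (fun h => h2 h.1), hu0 _ h2, hg0 _ h2]
      ring
  have hgsq : ∑ b : ZMod q, ‖g b‖ ^ 2 ≤ E / (Nat.totient q : ℝ) := by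
    rw [hgd, ba_part_sq]
    refine div_le_div_of_nonneg_right ?_ hphi.le
    refine le_trans (le_of_eq ?_) hg
    refine Finset.sum_congr ?_ fun _ _ => rfl
    ext χ
    simp only [Finset.mem_filter, Finset.mem_univ, true_and, hP, not_or]
  have husq : ∑ b : ZMod q, ‖u b‖ ^ 2 ≤ Su / (Nat.totient q : ℝ) := by
    rw [hu, ba_part_sq]
    refine div_le_div_of_nonneg_right ?_ hphi.le
    exact Finset.sum_le_sum_of_subset_of_nonneg (Finset.filter_subset _ _)
      (fun _ _ _ => by positivity)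
  have hg00 : 0 ≤ ∑ b : ZMod q, ‖g b‖ ^ 2 := Finset.sum_nonneg fun _ _ => by positivity
  have hu00 : 0 ≤ ∑ b : ZMod q, ‖u b‖ ^ 2 := Finset.sum_nonneg fun _ _ => by positivity
  have key : ∀ x y : ℝ, x ≤ E / (Nat.totient q : ℝ) → 0 ≤ x → y ≤ Su / (Nat.totient q : ℝ) →
      0 ≤ y → Real.sqrt (x * y) ≤ Real.sqrt (E * Su) / (Nat.totient q : ℝ) := by
    intro x y hx hx0 hy hy0
    rw [Real.sqrt_le_left (by positivity), div_pow, Real.sq_sqrt (by positivity)]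
    calc x * y ≤ E / (Nat.totient q : ℝ) * (Su / (Nat.totient q : ℝ)) := by
          gcongr
      _ = E * Su / (Nat.totient q : ℝ) ^ 2 := by ring
  have e1 : ‖∑ b : ZMod q, u b * g (a - b)‖ ≤ Real.sqrt (E * Su) / (Nat.totient q : ℝ) := by
    refine (ba_cs q u g a).trans ?_
    rw [mul_comm]
    exact key _ _ hgsq hg00 husq hu00
  have e2 : ‖∑ b : ZMod q, g b * u (a - b)‖ ≤ Real.sqrt (E * Su) / (Nat.totient q : ℝ) := by
    refine (ba_cs q g u a).trans ?_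
    exact key _ _ hgsq hg00 husq hu00
  have e3 : ‖∑ b : ZMod q, g b * g (a - b)‖ ≤ E / (Nat.totient q : ℝ) := by
    refine (ba_cs q g g a).trans ?_
    rw [Real.sqrt_mul_self hg00]
    exact hgsq
  -- the main part
  have hmain := ba_main X q f θ a P
  have hfil : univ.filter P = insert 1 𝓑 := by
    ext χ
    simp only [Finset.mem_filter, Finset.mem_univ, true_and, hP, Finset.mem_insert]
    exact or_comm
  have e4 : ‖∑ b : ZMod q, u b * u (a - b) -
      Tc X q f θ 1 ^ 2 * ((Nc q a : ℝ) / (Nat.totient q : ℝ) ^ 2 : ℝ)‖ ≤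
      (𝓑.card + 1) ^ 2 * T ^ 2 * J / (Nat.totient q : ℝ) ^ 2 := by
    rw [hu, hmain, hfil, ← Finset.sum_product']
    have h11 : ((1 : DirichletCharacter ℂ q), (1 : DirichletCharacter ℂ q)) ∈
        (insert 1 𝓑) ×ˢ (insert 1 𝓑) := by
      rw [Finset.mem_product]
      exact ⟨Finset.mem_insert_self _ _, Finset.mem_insert_self _ _⟩
    rw [← Finset.add_sum_erase _ _ h11]
    have h12 : Tc X q f θ (1 : DirichletCharacter ℂ q) * Tc X q f θ 1 *
        Jc q a (1 : DirichletCharacter ℂ q)⁻¹ (1 : DirichletCharacter ℂ q)⁻¹ /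
          (Nat.totient q : ℂ) ^ 2 =
        Tc X q f θ 1 ^ 2 * ((Nc q a : ℝ) / (Nat.totient q : ℝ) ^ 2 : ℝ) := by
      rw [inv_one, ba_Jc_one]
      push_cast
      ring
    simp only
    rw [h12, add_sub_cancel_left]
    refine (norm_sum_le _ _).trans ?_
    have h13 : ∀ x ∈ ((insert 1 𝓑) ×ˢ (insert 1 𝓑) :
        Finset (DirichletCharacter ℂ q × DirichletCharacter ℂ q)).erase (1, 1),
        ‖Tc X q f θ x.1 * Tc X q f θ x.2 * Jc q a x.1⁻¹ x.2⁻¹ / (Nat.totient q : ℂ) ^ 2‖ ≤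
        T ^ 2 * J / (Nat.totient q : ℝ) ^ 2 := by
      intro x hx
      rw [Finset.mem_erase, Finset.mem_product, Finset.mem_insert, Finset.mem_insert] at hx
      have hJx : ‖Jc q a x.1⁻¹ x.2⁻¹‖ ≤ J := by
        rcases hx.2.1 with h | h
        · rcases hx.2.2 with h' | h'
          · exact absurd (Prod.ext h h') hx.1
          · rw [ba_Jc_comm]
            exact hb _ h' _
        · exact hb _ h _
      rw [norm_div, norm_mul, norm_mul, norm_pow, Complex.norm_natCast]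
      refine div_le_div_of_nonneg_right ?_ (by positivity)
      have hx1 := hT x.1
      have hx2 := hT x.2
      calc ‖Tc X q f θ x.1‖ * ‖Tc X q f θ x.2‖ * ‖Jc q a x.1⁻¹ x.2⁻¹‖ ≤ T * T * J := by
            gcongr
        _ = T ^ 2 * J := by ring
    refine (Finset.sum_le_card_nsmul _ _ _ h13).trans ?_
    rw [nsmul_eq_mul]
    have h14 : ((((insert 1 𝓑) ×ˢ (insert 1 𝓑) :
        Finset (DirichletCharacter ℂ q × DirichletCharacter ℂ q)).erase (1, 1)).card : ℝ) ≤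
        ((𝓑.card : ℝ) + 1) ^ 2 := by
      have h15 := Finset.card_erase_le (a := ((1 : DirichletCharacter ℂ q),
        (1 : DirichletCharacter ℂ q))) (s := (insert 1 𝓑) ×ˢ (insert 1 𝓑))
      rw [Finset.card_product, Finset.card_insert_of_notMem h1] at h15
      have h16 : ((((insert 1 𝓑) ×ˢ (insert 1 𝓑) :
        Finset (DirichletCharacter ℂ q × DirichletCharacter ℂ q)).erase (1, 1)).card : ℝ) ≤
          (((𝓑.card + 1) * (𝓑.card + 1) : ℕ) : ℝ) := by exact_mod_cast h15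
      push_cast at h16
      rw [pow_two]
      exact h16
    calc _ ≤ ((𝓑.card : ℝ) + 1) ^ 2 * (T ^ 2 * J / (Nat.totient q : ℝ) ^ 2) :=
          mul_le_mul_of_nonneg_right h14 (by positivity)
      _ = _ := by ring
  rw [hsum]
  have e5 : ∀ A B C D F : ℂ, A + (B + C) + D - F = (A - F) + (B + C) + D := fun A B C D F => by ring
  rw [e5]
  refine (norm_add_le _ _).trans ?_
  refine (add_le_add ((norm_add_le _ _).trans (add_le_add e4 ((norm_add_le _ _).trans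
    (add_le_add e1 e2)))) e3).trans (le_of_eq ?_)
  ring

end Pool.MP_dd84fd_nt.L2G
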