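import Pool.Agent.Lib.MP_dd84fd_nt.L2G.ChDefs

set_option autoImplicit false

namespace Pool.MP_dd84fd_nt.L2G

open Finset Pool.MP_67663b_nt.Odd

/-- the phase `e(n c / m)` depends only on `n mod m` -/
private theorem ClassSplit_phase (m : ℕ) [NeZero m] (n : ℕ) (c : ℤ) (φ : ℝ) :
    ee ((n : ℝ) * ((c : ℝ) / (m : ℕ) + φ)) =
      ee (((n : ZMod m).val : ℝ) * ((c : ℝ) / (m : ℕ))) * ee ((n : ℝ) * φ) := by
  rw [ZMod.val_natCast]
  have hm : (m : ℝ) ≠ 0 := by exact_mod_cast NeZero.ne m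
  have h1 : (n : ℝ) = ((n % m : ℕ) : ℝ) + (m : ℝ) * ((n / m : ℕ) : ℝ) := by
    exact_mod_cast (Nat.mod_add_div n m).symm
  rw [← ee_add]
  generalize n % m = u at h1 ⊢
  generalize n / m = v at h1 ⊢
  have h2 : (n : ℝ) * ((c : ℝ) / (m : ℕ) + φ) =
      (u : ℝ) * ((c : ℝ) / (m : ℕ)) + n * φ + (((v : ℤ) * c : ℤ) : ℝ) := by
    rw [mul_add, h1]
    push_cast
    field_simp
    ring
  rw [h2, ee_add_int]

private theorem ClassSplit_val (q t n : ℕ) :
    (((n : ZMod (q * t)).val : ℕ) : ZMod q) = (n : ZMod q) := by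
  rw [ZMod.val_natCast, ZMod.natCast_eq_natCast_iff]
  exact (Nat.mod_modEq n (q * t)).of_dvd (Dvd.intro t rfl)

private theorem ClassSplit_eq (X q t : ℕ) [NeZero q] [NeZero t] (f : ℕ → ℝ) (φ : ℝ) (c : ℤ)
    (a : ZMod q) :
    Fz X q f ((c : ℝ) / (q * t : ℕ) + φ) a =
      ∑ a' ∈ univ.filter (fun a' : ZMod (q * t) => ((a'.val : ℕ) : ZMod q) = a),
        ee ((a'.val : ℝ) * ((c : ℝ) / (q * t : ℕ))) * Fz X (q * t) f φ a' := by
  have hmaps : ∀ n ∈ (range (2 * X + 1)).filter (fun n : ℕ => (n : ZMod q) = a),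
      (n : ZMod (q * t)) ∈ univ.filter (fun a' : ZMod (q * t) => ((a'.val : ℕ) : ZMod q) = a) := by
    intro n hn
    rw [Finset.mem_filter] at hn ⊢
    exact ⟨Finset.mem_univ _, (ClassSplit_val q t n).trans hn.2⟩
  unfold Fz
  rw [← Finset.sum_fiberwise_of_maps_to hmaps]
  refine Finset.sum_congr rfl fun a' ha' => ?_
  rw [Finset.mem_filter] at ha'
  have hset : ((range (2 * X + 1)).filter (fun n : ℕ => (n : ZMod q) = a)).filter
      (fun n : ℕ => (n : ZMod (q * t)) = a') =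
      (range (2 * X + 1)).filter (fun n : ℕ => (n : ZMod (q * t)) = a') := by
    ext n
    simp only [Finset.mem_filter]
    constructor
    · rintro ⟨⟨h1, _⟩, h3⟩
      exact ⟨h1, h3⟩
    · rintro ⟨h1, h3⟩
      refine ⟨⟨h1, ?_⟩, h3⟩
      rw [← ClassSplit_val q t n, h3]
      exact ha'.2
  rw [hset, Finset.mul_sum]
  refine Finset.sum_congr rfl fun n hn => ?_
  rw [Finset.mem_filter] at hn
  rw [ClassSplit_phase (q * t) n c φ, hn.2]
  ring

theorem Fz_split (X q t : ℕ) [NeZero q] [NeZero t] (f g : ℕ → ℝ) (φ : ℝ) (c : ℤ) (a : ZMod q) :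
    ‖Fz X q f ((c : ℝ) / (q * t : ℕ) + φ) a - Fz X q g ((c : ℝ) / (q * t : ℕ) + φ) a‖ ≤
      ∑ a' ∈ univ.filter (fun a' : ZMod (q * t) => ((a'.val : ℕ) : ZMod q) = a),
        ‖Fz X (q * t) f φ a' - Fz X (q * t) g φ a'‖ := by
  rw [ClassSplit_eq X q t f φ c a, ClassSplit_eq X q t g φ c a, ← Finset.sum_sub_distrib]
  refine (norm_sum_le _ _).trans (Finset.sum_le_sum fun a' _ => ?_)
  rw [← mul_sub, norm_mul, norm_ee, one_mul]

theorem split_card (q t : ℕ) [NeZero q] [NeZero t] (a : ZMod q) :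
    (univ.filter (fun a' : ZMod (q * t) => ((a'.val : ℕ) : ZMod q) = a)).card = t := by
  have hq : 0 < q := Nat.pos_of_ne_zero (NeZero.ne q)
  have hlt : ∀ i ∈ range t, a.val + q * i < q * t := by
    intro i hi
    rw [Finset.mem_range] at hi
    have h1 := ZMod.val_lt a
    calc a.val + q * i < q + q * i := by omega
      _ = q * (i + 1) := by ring
      _ ≤ q * t := Nat.mul_le_mul_left q hi
  have himg : univ.filter (fun a' : ZMod (q * t) => ((a'.val : ℕ) : ZMod q) = a) =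
      (range t).image (fun i => ((a.val + q * i : ℕ) : ZMod (q * t))) := by
    ext a'
    simp only [Finset.mem_filter, Finset.mem_univ, true_and, Finset.mem_image, Finset.mem_range]
    constructor
    · intro h
      have h1 := ZMod.val_lt a'
      have h2 : a'.val % q = a.val := by
        rw [← h, ZMod.val_natCast]
      refine ⟨a'.val / q, ?_, ?_⟩
      · exact Nat.div_lt_of_lt_mul h1
      · rw [← h2, Nat.mod_add_div]
        exact ZMod.natCast_zmod_val a'
    · rintro ⟨i, hi, rfl⟩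
      rw [ZMod.val_natCast_of_lt (hlt i (Finset.mem_range.mpr hi))]
      push_cast
      simp
  rw [himg, Finset.card_image_of_injOn, Finset.card_range]
  intro i hi j hj hij
  simp only at hij
  have h1 := congrArg ZMod.val hij
  rw [ZMod.val_natCast_of_lt (hlt i hi), ZMod.val_natCast_of_lt (hlt j hj)] at h1
  exact Nat.eq_of_mul_eq_mul_left hq (by omega)

theorem split_gcd (q t : ℕ) [NeZero q] [NeZero t] (a : ZMod q) (a' : ZMod (q * t))
    (h : ((a'.val : ℕ) : ZMod q) = a) :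
    Nat.gcd a'.val (q * t) ≤ Nat.gcd a.val q * t := by
  have hq : 0 < q := Nat.pos_of_ne_zero (NeZero.ne q)
  have ht : 0 < t := Nat.pos_of_ne_zero (NeZero.ne t)
  have h1 : Nat.gcd a'.val q = Nat.gcd a.val q := by
    rw [← h, ZMod.val_natCast, ← Nat.gcd_rec q a'.val, Nat.gcd_comm]
  have h2 : Nat.gcd a'.val (q * t) ∣ Nat.gcd a'.val q * Nat.gcd a'.val t :=
    Nat.gcd_mul_right_dvd_mul_gcd _ _ _
  have h3 : 0 < Nat.gcd a'.val q := Nat.gcd_pos_of_pos_right _ hq
  have h4 : 0 < Nat.gcd a'.val t := Nat.gcd_pos_of_pos_right _ ht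
  calc Nat.gcd a'.val (q * t) ≤ Nat.gcd a'.val q * Nat.gcd a'.val t :=
        Nat.le_of_dvd (Nat.mul_pos h3 h4) h2
    _ ≤ Nat.gcd a.val q * t := by
        rw [h1]
        exact Nat.mul_le_mul_left _ (Nat.gcd_le_right _ ht)

end Pool.MP_dd84fd_nt.L2G
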