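import Pool.Agent.Lib.MP_dd84fd_nt.L2G.Defs

/-!
# Heath-Brown's identity: definitions
-/

set_option autoImplicit false

namespace Pool.MP_dd84fd_nt.L2G

open Finset Pool.MP_67663b_nt.Odd

/-- restriction of an arithmetic function to the dyadic interval `[2^i, 2^(i+1))` -/
noncomputable def restr (f : ArithmeticFunction ℝ) (i : ℕ) : ArithmeticFunction ℝ :=
  ⟨fun n => if 2 ^ i ≤ n ∧ n < 2 ^ (i + 1) then f n else 0, by simp⟩

/-- the Möbius function cut off at `z` -/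
noncomputable def muz (z : ℕ) : ArithmeticFunction ℝ :=
  ⟨fun n => if n ≤ z then ((ArithmeticFunction.moebius n : ℤ) : ℝ) else 0, by simp⟩

/-- the six factors: `log, 1, 1, μ_z, μ_z, μ_z` -/
noncomputable def base (z : ℕ) (j : Fin 6) : ArithmeticFunction ℝ :=
  if j = 0 then ArithmeticFunction.log
  else if j = 1 ∨ j = 2 then ((ArithmeticFunction.zeta : ArithmeticFunction ℕ) : ArithmeticFunction ℝ)
  else muz z

/-- the dyadic piece `[2^i, 2^(i+1))` of the `j`-th factor -/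
noncomputable def bf (z : ℕ) (j : Fin 6) (i : ℕ) : ArithmeticFunction ℝ := restr (base z j) i

/-- the sixfold convolution belonging to the box `v` -/
noncomputable def TT (z : ℕ) (v : Fin 6 → ℕ) : ArithmeticFunction ℝ := ∏ j, bf z j (v j)

/-- the coefficient of the box `v` -/
noncomputable def cc (v : Fin 6 → ℕ) : ℝ :=
  1 - 3 * (if v 2 = 0 ∧ v 5 = 0 then 1 else 0) +
    3 * (if v 1 = 0 ∧ v 2 = 0 ∧ v 4 = 0 ∧ v 5 = 0 then 1 else 0)

/-- `min (M, 1 / (2 ‖x‖))` -/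
noncomputable def mn (M x : ℝ) : ℝ := if 2 * nrm x * M ≤ 1 then M else 1 / (2 * nrm x)

/-- The number of `(k, h, k', h')` with `k, k' ∈ [N, 2N)` coprime to `q`, `|h - α k| ≤ η`,
`|h' - α k'| ≤ η` and `q ∣ h k' - h' k`. -/
noncomputable def Cnt (q N : ℕ) (α η : ℝ) : ℕ :=
  ∑ k ∈ (Ico N (2 * N)).filter (fun k => Nat.Coprime k q),
    ∑ k' ∈ (Ico N (2 * N)).filter (fun k => Nat.Coprime k q),
      ((Icc ⌈α * k - η⌉ ⌊α * k + η⌋ ×ˢ Icc ⌈α * k' - η⌉ ⌊α * k' + η⌋).filter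
        (fun p : ℤ × ℤ => (q : ℤ) ∣ p.1 * k' - p.2 * k)).card

/-- The hypothesis on the frequency in the minor arc bounds: `q θ` has the approximation `c / r`
with `log^B X < r ≤ X / (q log^B X)`. -/
def MinorHyp (X q B : ℕ) (θ : ℝ) (r : ℕ) (c : ℤ) : Prop :=
  Real.log X ^ B < (r : ℝ) ∧ (r : ℝ) ≤ X / (q * Real.log X ^ B) ∧ IsCoprime c (r : ℤ) ∧
    |q * θ - c / r| ≤ q * Real.log X ^ B / (r * X)

/-- Mean square over the reduced residue classes `b mod q` of the exponential sum of `f` over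
`n ≤ X`, `n ≡ b mod q`. -/
noncomputable def VQ (X q : ℕ) (f : ℕ → ℝ) (θ : ℝ) : ℝ :=
  ∑ b ∈ (range q).filter (Nat.Coprime q),
    ‖∑ n ∈ (Icc 1 X).filter (fun n => n % q = b), (f n : ℂ) * ee (n * θ)‖ ^ 2

end Pool.MP_dd84fd_nt.L2G
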