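import Pool.Agent.Lib.MP_dd84fd_nt.L2G.MinSum

set_option autoImplicit false

namespace Pool.MP_dd84fd_nt.L2G

open Finset Pool.MP_67663b_nt.Odd

private lemma BadM_log_pow_le (δ : ℝ) (hδ : 0 < δ) (C : ℝ) (k : ℕ) :
    ∀ᶠ X : ℕ in Filter.atTop, C * Real.log X ^ k ≤ (X : ℝ) ^ δ := by
  have h := isLittleO_log_rpow_rpow_atTop (k : ℝ) hδ
  have h2 : (fun x : ℝ => C * Real.log x ^ (k : ℝ)) =o[Filter.atTop] (fun x : ℝ => x ^ δ) :=
    h.const_mul_left C
  have h3 := (h2.bound (one_pos)).and (Filter.eventually_ge_atTop (1 : ℝ))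
  have h4 := (tendsto_natCast_atTop_atTop (R := ℝ)).eventually h3
  filter_upwards [h4] with X hX
  obtain ⟨hX1, hX2⟩ := hX
  rw [Real.norm_eq_abs, Real.norm_eq_abs, one_mul, abs_of_nonneg (a := (X : ℝ) ^ δ) (by positivity),
    Real.rpow_natCast] at hX1
  exact le_trans (le_abs_self _) hX1

private lemma BadM_log_ge (C : ℝ) : ∀ᶠ X : ℕ in Filter.atTop, C ≤ Real.log X :=
  (Real.tendsto_log_atTop.comp (tendsto_natCast_atTop_atTop (R := ℝ))).eventually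
    (Filter.eventually_ge_atTop C)

theorem bad_m (ε : ℝ) (hε : 0 < ε) (hε1 : ε < 1) (A2 A3 : ℕ) : ∃ B0 : ℕ, ∀ B : ℕ, B0 ≤ B →
    ∃ X0 : ℕ, ∀ X : ℕ, X0 ≤ X → ∀ q : ℕ, 1 ≤ q → (q : ℝ) ≤ (X : ℝ) ^ (1 - ε) →
    ∀ (θ : ℝ) (r : ℕ) (c : ℤ), MinorHyp X q B θ r c → ∀ (Y : ℝ) (Z : ℕ), 1 ≤ Y →
    (Z : ℝ) ≤ Y → (Z : ℝ) ≤ (X : ℝ) ^ (ε / 4) → ∀ S : Finset ℕ,
    (∀ m ∈ S, 1 ≤ m ∧ m ≤ Z ∧ ∃ (k0 : ℕ) (h0 : ℤ), 1 ≤ k0 ∧ (k0 : ℝ) ≤ Real.log X ^ A2 ∧
      |m * (q * θ) - h0 / k0| ≤ q * Real.log X ^ A2 * Y / X) →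
    (S.card : ℝ) ≤ Y / Real.log X ^ A3 := by
  obtain ⟨C, hC, hcount⟩ := count_near
  set A4 : ℕ := A3 + 2 * A2 + 2 with hA4
  refine ⟨4 * A2 + A3 + A4 + 4, fun B hB => ?_⟩
  have ev1 := BadM_log_ge (max 2 (4 * C))
  have ev2 := BadM_log_pow_le (ε / 4) (by positivity) 1 A3
  have ev3 := BadM_log_pow_le ε hε 2 (A2 + A4 + B)
  have ev4 := BadM_log_pow_le (ε / 2) (by positivity) (4 * C) (4 * A2 + A3)
  obtain ⟨X0, hX0⟩ := Filter.eventually_atTop.1 (((ev1.and ev2).and (ev3.and ev4)).and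
    (Filter.eventually_ge_atTop 2))
  refine ⟨X0, fun X hX q hq hqX θ r c hmin Y Z hY hZY hZX S hS => ?_⟩
  obtain ⟨⟨⟨hLmax, e2⟩, e3, e4⟩, hX2⟩ := hX0 X hX
  obtain ⟨hr1, hr2, hcop, hap⟩ := hmin
  set L : ℝ := Real.log X with hL
  have hL2 : (2 : ℝ) ≤ L := le_trans (le_max_left _ _) hLmax
  have hL4C : 4 * C ≤ L := le_trans (le_max_right _ _) hLmax
  have hL1 : (1 : ℝ) ≤ L := by linarith
  have hL0 : (0 : ℝ) < L := by linarith
  have hXpos : (0 : ℝ) < X := by exact_mod_cast (by omega : 0 < X)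
  have hqpos : (0 : ℝ) < q := by exact_mod_cast (by omega : 0 < q)
  have hLB : (1 : ℝ) ≤ L ^ B := one_le_pow₀ hL1
  have hrpos : (0 : ℝ) < r := by linarith
  have hrnat : 1 ≤ r := by exact_mod_cast hrpos
  have hYpos : (0 : ℝ) < Y := by linarith
  -- the main consequence of `r ≤ X / (q L^B)`
  have hrq : (r : ℝ) * (q * L ^ B) ≤ X := by
    rw [le_div_iff₀ (by positivity)] at hr2
    exact hr2
  have hap2 : |q * θ - c / r| ≤ 1 / (r : ℝ) ^ 2 := by
    refine le_trans hap ?_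
    rw [div_le_div_iff₀ (by positivity) (by positivity)]
    nlinarith [mul_le_mul_of_nonneg_right hrq (le_of_lt hrpos)]
  have hqX' : (q : ℝ) * (X : ℝ) ^ ε ≤ X := by
    calc (q : ℝ) * (X : ℝ) ^ ε ≤ (X : ℝ) ^ (1 - ε) * (X : ℝ) ^ ε := by gcongr
      _ = X := by rw [← Real.rpow_add hXpos]; simp
  -- first case
  by_cases hYbig : (X : ℝ) ^ (ε / 2) ≤ Y
  · have hcard : (S.card : ℝ) ≤ Z := by
      have : S ⊆ Icc 1 Z := by
        intro m hm
        obtain ⟨h1, h2, _⟩ := hS m hm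
        exact Finset.mem_Icc.2 ⟨h1, h2⟩
      have h := Finset.card_le_card this
      rw [Nat.card_Icc] at h
      exact_mod_cast (by omega : S.card ≤ Z)
    rw [le_div_iff₀ (by positivity)]
    calc (S.card : ℝ) * L ^ A3 ≤ (X : ℝ) ^ (ε / 4) * (X : ℝ) ^ (ε / 4) := by
          gcongr
          · exact le_trans hcard hZX
          · simpa using e2
      _ = (X : ℝ) ^ (ε / 2) := by
          rw [← Real.rpow_add hXpos]; congr 1; ring
      _ ≤ Y := hYbig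
  push Not at hYbig
  set Δ : ℝ := L ^ (2 * A2) * q * Y / X with hΔ
  have hΔ0 : 0 ≤ Δ := by positivity
  -- key fact
  have key : ∀ m ∈ S, 1 ≤ m ∧ ∃ (k0 : ℕ) (h0 : ℤ), 1 ≤ k0 ∧ (k0 : ℝ) ≤ L ^ A2 ∧
      ((k0 * m : ℕ) : ℝ) ≤ L ^ A2 * Y ∧ |((k0 * m : ℕ) : ℝ) * (q * θ) - h0| ≤ Δ := by
    intro m hm
    obtain ⟨h1, h2, k0, h0, hk1, hk2, hk3⟩ := hS m hm
    have hk0pos : (0 : ℝ) < k0 := by exact_mod_cast (by omega : 0 < k0)
    have hmY : (m : ℝ) ≤ Y := le_trans (by exact_mod_cast h2) hZY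
    refine ⟨h1, k0, h0, hk1, hk2, ?_, ?_⟩
    · push_cast
      gcongr
    · have e : ((k0 * m : ℕ) : ℝ) * (q * θ) - h0 = k0 * (m * (q * θ) - h0 / k0) := by
        push_cast
        field_simp
      rw [e, abs_mul, abs_of_pos hk0pos]
      calc (k0 : ℝ) * |m * (q * θ) - h0 / k0| ≤ L ^ A2 * (q * L ^ A2 * Y / X) := by gcongr
        _ = Δ := by rw [hΔ]; ring
  by_cases hYsmall : Y < L ^ A4
  · -- no bad `m`
    have hemp : S = ∅ := by
      rw [Finset.eq_empty_iff_forall_notMem]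
      intro m hm
      obtain ⟨h1, k0, h0, hk1, hk2, hk3, hk4⟩ := key m hm
      have hm'pos : 0 < k0 * m := Nat.mul_pos (by omega) (by omega)
      have hm'pos' : (0 : ℝ) < ((k0 * m : ℕ) : ℝ) := by exact_mod_cast hm'pos
      have hm'le : ((k0 * m : ℕ) : ℝ) ≤ L ^ (A2 + A4) := by
        rw [pow_add]
        refine le_trans hk3 ?_
        gcongr
      have hm'r : ((k0 * m : ℕ) : ℝ) < r := by
        refine lt_of_le_of_lt hm'le (lt_of_le_of_lt ?_ hr1)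
        exact pow_le_pow_right₀ hL1 (by omega)
      have hm'r' : k0 * m < r := by exact_mod_cast hm'r
      have hne : ((k0 * m : ℕ) : ℤ) * c - r * h0 ≠ 0 := by
        intro h
        have hd : (r : ℤ) ∣ ((k0 * m : ℕ) : ℤ) * c := ⟨h0, by linarith⟩
        have hd2 : (r : ℤ) ∣ ((k0 * m : ℕ) : ℤ) := hcop.symm.dvd_of_dvd_mul_right hd
        have hd3 : r ∣ k0 * m := by exact_mod_cast hd2
        exact absurd (Nat.le_of_dvd hm'pos hd3) (by omega)
      have hge : (1 : ℝ) ≤ |((k0 * m : ℕ) : ℝ) * c - r * h0| := by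
        have := Int.one_le_abs hne
        have h2 : ((1 : ℤ) : ℝ) ≤ ((|((k0 * m : ℕ) : ℤ) * c - r * h0| : ℤ) : ℝ) := by
          exact_mod_cast this
        push_cast at h2 ⊢
        simpa using h2
      have hge2 : 1 / (r : ℝ) ≤ |((k0 * m : ℕ) : ℝ) * (c / r) - h0| := by
        have e : ((k0 * m : ℕ) : ℝ) * (c / r) - h0 = (((k0 * m : ℕ) : ℝ) * c - r * h0) / r := by
          field_simp
        rw [e, abs_div, abs_of_pos hrpos]
        gcongr
      have htri : |((k0 * m : ℕ) : ℝ) * (c / r) - h0| ≤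
          Δ + ((k0 * m : ℕ) : ℝ) * (q * L ^ B / (r * X)) := by
        have e : ((k0 * m : ℕ) : ℝ) * (c / r) - h0 =
            (((k0 * m : ℕ) : ℝ) * (q * θ) - h0) - ((k0 * m : ℕ) : ℝ) * (q * θ - c / r) := by ring
        rw [e]
        refine le_trans (abs_sub _ _) ?_
        rw [abs_mul, abs_of_pos hm'pos']
        gcongr
      have h5 : ((k0 * m : ℕ) : ℝ) * (q * L ^ B / (r * X)) ≤ 1 / (2 * r) := by
        have h6 : 2 * L ^ (A2 + A4 + B) * q ≤ X := by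
          calc 2 * L ^ (A2 + A4 + B) * q ≤ (X : ℝ) ^ ε * q := by gcongr
            _ = q * (X : ℝ) ^ ε := by ring
            _ ≤ X := hqX'
        calc ((k0 * m : ℕ) : ℝ) * (q * L ^ B / (r * X)) ≤
            L ^ (A2 + A4) * (q * L ^ B / (r * X)) := by gcongr
          _ = (2 * L ^ (A2 + A4 + B) * q) / X * (1 / (2 * r)) := by
              rw [pow_add L (A2 + A4) B]; field_simp
          _ ≤ 1 * (1 / (2 * r)) := by
              gcongr
              rw [div_le_one hXpos]; exact h6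
          _ = 1 / (2 * r) := by ring
      have h7 : Δ < 1 / (2 * r) := by
        have h8 : q * L ^ B / X ≤ 1 / r := by
          rw [div_le_div_iff₀ hXpos hrpos]
          linarith
        have h9 : Δ < q * L ^ B / X / 2 := by
          rw [hΔ]
          have h10 : L ^ (2 * A2) * Y < L ^ (2 * A2) * L ^ A4 := by
            gcongr
          have h11 : L ^ (2 * A2) * L ^ A4 * 2 ≤ L ^ B := by
            calc L ^ (2 * A2) * L ^ A4 * 2 ≤ L ^ (2 * A2) * L ^ A4 * L := by gcongr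
              _ = L ^ (2 * A2 + A4 + 1) := by ring
              _ ≤ L ^ B := pow_le_pow_right₀ hL1 (by omega)
          have h12 : L ^ (2 * A2) * Y * 2 < L ^ B := by linarith
          have h13 : L ^ (2 * A2) * q * Y / X = (q / X / 2) * (L ^ (2 * A2) * Y * 2) := by
            field_simp
          have h14 : q * L ^ B / X / 2 = (q / X / 2) * L ^ B := by
            field_simp
          rw [h13, h14]
          gcongr
        have h15 : (1 : ℝ) / (2 * r) = 1 / r / 2 := by field_simp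
        rw [h15]
        linarith
      have h16 : (1 : ℝ) / r = 1 / (2 * r) + 1 / (2 * r) := by field_simp; norm_num
      linarith
    rw [hemp]
    simp only [Finset.card_empty, Nat.cast_zero]
    positivity
  push Not at hYsmall
  -- the main case
  set Y' : ℕ := ⌊L ^ A2 * Y⌋₊ with hY'
  set K : ℕ := ⌊L ^ A2⌋₊ with hK
  have hsub : S ⊆ (Icc 1 K).biUnion (fun k => S.filter (fun m => k * m ≤ Y' ∧
      nrm (((k * m : ℕ) : ℝ) * (q * θ)) ≤ Δ)) := by
    intro m hm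
    obtain ⟨h1, k0, h0, hk1, hk2, hk3, hk4⟩ := key m hm
    rw [Finset.mem_biUnion]
    refine ⟨k0, Finset.mem_Icc.2 ⟨hk1, Nat.le_floor hk2⟩, ?_⟩
    rw [Finset.mem_filter]
    refine ⟨hm, Nat.le_floor hk3, ?_⟩
    exact le_trans (round_le _ h0) hk4
  have hpiece : ∀ k ∈ Icc 1 K, ((S.filter (fun m => k * m ≤ Y' ∧
      nrm (((k * m : ℕ) : ℝ) * (q * θ)) ≤ Δ)).card : ℝ) ≤
      C * (L ^ A2 * Y / r + 1) * (r * Δ + 1) := by
    intro k hk
    obtain ⟨hk1, hk2⟩ := Finset.mem_Icc.1 hk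
    have h1 : (S.filter (fun m => k * m ≤ Y' ∧
      nrm (((k * m : ℕ) : ℝ) * (q * θ)) ≤ Δ)).card ≤
      ((Icc 1 Y').filter (fun m : ℕ => nrm (m * (q * θ)) ≤ Δ)).card := by
      apply Finset.card_le_card_of_injOn (fun m => k * m)
      · intro m hm
        have hm' := Finset.mem_filter.1 hm
        obtain ⟨hmS, hmk, hmn⟩ := hm'
        obtain ⟨hm1, _⟩ := key m hmS
        rw [Finset.mem_coe, Finset.mem_filter, Finset.mem_Icc]
        exact ⟨⟨Nat.mul_pos (by omega) (by omega), hmk⟩, hmn⟩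
      · intro a _ b _ hab
        exact Nat.eq_of_mul_eq_mul_left (by omega) hab
    have h2 := hcount (q * θ) c r hrnat hcop hap2 Y' Δ hΔ0
    have h3 : (Y' : ℝ) ≤ L ^ A2 * Y := Nat.floor_le (by positivity)
    calc ((S.filter (fun m => k * m ≤ Y' ∧
      nrm (((k * m : ℕ) : ℝ) * (q * θ)) ≤ Δ)).card : ℝ) ≤
        (((Icc 1 Y').filter (fun m : ℕ => nrm (m * (q * θ)) ≤ Δ)).card : ℝ) := by
          exact_mod_cast h1
      _ ≤ C * ((Y' : ℝ) / r + 1) * (r * Δ + 1) := h2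
      _ ≤ C * (L ^ A2 * Y / r + 1) * (r * Δ + 1) := by gcongr
  have htotal : (S.card : ℝ) ≤ L ^ A2 * (C * (L ^ A2 * Y / r + 1) * (r * Δ + 1)) := by
    have h1 := Finset.card_le_card hsub
    have h2 : (S.card : ℝ) ≤ ∑ k ∈ Icc 1 K, ((S.filter (fun m => k * m ≤ Y' ∧
      nrm (((k * m : ℕ) : ℝ) * (q * θ)) ≤ Δ)).card : ℝ) := by
      have := le_trans h1 Finset.card_biUnion_le
      exact_mod_cast this
    refine le_trans h2 (le_trans (Finset.sum_le_sum hpiece) ?_)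
    rw [Finset.sum_const, Nat.card_Icc, nsmul_eq_mul]
    have h3 : ((K + 1 - 1 : ℕ) : ℝ) ≤ L ^ A2 := by
      rw [Nat.add_sub_cancel]
      exact Nat.floor_le (by positivity)
    gcongr
  refine le_trans htotal ?_
  -- numerical estimates
  have t1 : L ^ A2 * C * (L ^ A2 * Y * Δ) * L ^ A3 ≤ Y / 4 := by
    have h1 : q * Y ≤ X * (X : ℝ) ^ (-(ε / 2)) := by
      calc (q : ℝ) * Y ≤ (X : ℝ) ^ (1 - ε) * (X : ℝ) ^ (ε / 2) := by gcongr
        _ = X * (X : ℝ) ^ (-(ε / 2)) := by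
          rw [← Real.rpow_add hXpos]
          nth_rewrite 2 [← Real.rpow_one (X : ℝ)]
          rw [← Real.rpow_add hXpos]
          congr 1; ring
    have h2 : L ^ A2 * C * (L ^ A2 * Y * Δ) * L ^ A3 =
        Y / 4 * ((4 * C * L ^ (4 * A2 + A3)) * ((q * Y) / X)) := by
      rw [hΔ]
      field_simp
      ring
    rw [h2]
    have h3 : (4 * C * L ^ (4 * A2 + A3)) * ((q * Y) / X) ≤ 1 := by
      calc (4 * C * L ^ (4 * A2 + A3)) * ((q * Y) / X) ≤
          (X : ℝ) ^ (ε / 2) * ((X * (X : ℝ) ^ (-(ε / 2))) / X) := by gcongr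
        _ = (X : ℝ) ^ (ε / 2) * (X : ℝ) ^ (-(ε / 2)) := by field_simp
        _ = 1 := by rw [← Real.rpow_add hXpos]; simp
    calc Y / 4 * ((4 * C * L ^ (4 * A2 + A3)) * ((q * Y) / X)) ≤ Y / 4 * 1 := by gcongr
      _ = Y / 4 := by ring
  have t2 : L ^ A2 * C * (L ^ A2 * Y / r) * L ^ A3 ≤ Y / 4 := by
    have h1 : L ^ A2 * C * (L ^ A2 * Y / r) * L ^ A3 = Y / 4 * ((4 * C * L ^ (2 * A2 + A3)) / r) := by
      field_simp
      ring
    rw [h1]
    have h2 : (4 * C * L ^ (2 * A2 + A3)) / r ≤ 1 := by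
      rw [div_le_one hrpos]
      calc 4 * C * L ^ (2 * A2 + A3) ≤ L * L ^ (2 * A2 + A3) := by gcongr
        _ = L ^ (2 * A2 + A3 + 1) := by ring
        _ ≤ L ^ B := pow_le_pow_right₀ hL1 (by omega)
        _ ≤ r := le_of_lt hr1
    calc Y / 4 * ((4 * C * L ^ (2 * A2 + A3)) / r) ≤ Y / 4 * 1 := by gcongr
      _ = Y / 4 := by ring
  have t3 : L ^ A2 * C * (r * Δ) * L ^ A3 ≤ Y / 4 := by
    have h1 : L ^ A2 * C * (r * Δ) * L ^ A3 = Y / 4 * ((4 * C * L ^ (3 * A2 + A3)) * (r * q / X)) := by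
      rw [hΔ]
      field_simp
      ring
    rw [h1]
    have h2 : (4 * C * L ^ (3 * A2 + A3)) * (r * q / X) ≤ 1 := by
      have h3 : (r : ℝ) * q / X ≤ 1 / L ^ B := by
        rw [div_le_div_iff₀ hXpos (by positivity)]
        nlinarith [hrq]
      calc (4 * C * L ^ (3 * A2 + A3)) * (r * q / X) ≤ (L * L ^ (3 * A2 + A3)) * (1 / L ^ B) := by
            gcongr
        _ = L ^ (3 * A2 + A3 + 1) / L ^ B := by ring
        _ ≤ 1 := by
            rw [div_le_one (by positivity)]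
            exact pow_le_pow_right₀ hL1 (by omega)
    calc Y / 4 * ((4 * C * L ^ (3 * A2 + A3)) * (r * q / X)) ≤ Y / 4 * 1 := by gcongr
      _ = Y / 4 := by ring
  have t4 : L ^ A2 * C * 1 * L ^ A3 ≤ Y / 4 := by
    calc L ^ A2 * C * 1 * L ^ A3 = (4 * C) * L ^ (A2 + A3) / 4 := by ring
      _ ≤ L * L ^ (A2 + A3) / 4 := by gcongr
      _ = L ^ (A2 + A3 + 1) / 4 := by ring
      _ ≤ L ^ A4 / 4 := by
          have := pow_le_pow_right₀ hL1 (show A2 + A3 + 1 ≤ A4 by omega)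
          linarith
      _ ≤ Y / 4 := by gcongr
  rw [le_div_iff₀ (by positivity)]
  have hfin : L ^ A2 * (C * (L ^ A2 * Y / r + 1) * (r * Δ + 1)) * L ^ A3 =
      L ^ A2 * C * (L ^ A2 * Y * Δ) * L ^ A3 + L ^ A2 * C * (L ^ A2 * Y / r) * L ^ A3 +
      L ^ A2 * C * (r * Δ) * L ^ A3 + L ^ A2 * C * 1 * L ^ A3 := by
    field_simp
    ring
  rw [hfin]
  linarith

end Pool.MP_dd84fd_nt.L2G
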