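import Pool.Agent.Lib.MP_dd84fd_nt.L2G.HBDefs

set_option autoImplicit false

namespace Pool.MP_dd84fd_nt.L2G

open Finset Pool.MP_67663b_nt.Odd

private theorem cz_spacing {ι : Type*} (S : Finset ι) (f : ι → ℝ) (a L δ : ℝ) (hδ : 0 < δ)
    (h1 : ∀ i ∈ S, a ≤ f i ∧ f i ≤ a + L)
    (h2 : ∀ i ∈ S, ∀ j ∈ S, i ≠ j → δ ≤ |f i - f j|) (hL : 0 ≤ L) :
    (S.card : ℝ) ≤ L / δ + 1 := by
  have h3 : S.card ≤ (range (⌊L / δ⌋₊ + 1)).card := by
    refine Finset.card_le_card_of_injOn (fun i => ⌊(f i - a) / δ⌋₊) ?_ ?_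
    · intro i hi
      rw [Finset.mem_coe, Finset.mem_range, Nat.lt_succ_iff]
      refine Nat.floor_le_floor ?_
      have := (h1 i hi).2
      gcongr
      linarith
    · intro i hi j hj hij
      by_contra hne
      have h4 := h2 i hi j hj hne
      simp only at hij
      have e1 : 0 ≤ (f i - a) / δ := div_nonneg (by linarith [(h1 i hi).1]) hδ.le
      have e2 : 0 ≤ (f j - a) / δ := div_nonneg (by linarith [(h1 j hj).1]) hδ.le
      have i1 := Nat.floor_le e1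
      have i2 := Nat.lt_floor_add_one ((f i - a) / δ)
      have j1 := Nat.floor_le e2
      have j2 := Nat.lt_floor_add_one ((f j - a) / δ)
      rw [hij] at i1 i2
      have h5 : |(f i - a) / δ - (f j - a) / δ| < 1 := by
        rw [abs_lt]
        constructor <;> linarith
      have h6 : (f i - a) / δ - (f j - a) / δ = (f i - f j) / δ := by ring
      rw [h6, abs_div, abs_of_pos hδ, div_lt_one hδ] at h5
      linarith
  rw [Finset.card_range] at h3
  calc (S.card : ℝ) ≤ ((⌊L / δ⌋₊ + 1 : ℕ) : ℝ) := by exact_mod_cast h3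
    _ = (⌊L / δ⌋₊ : ℝ) + 1 := by push_cast; rfl
    _ ≤ L / δ + 1 := by
      have := Nat.floor_le (div_nonneg hL hδ.le)
      linarith

private theorem cz_rat_spacing (p q : ℚ) (h : p ≠ q) (A : ℝ) (hp : (p.den : ℝ) ≤ A)
    (hq : (q.den : ℝ) ≤ A) : 1 / A ^ 2 ≤ |(p : ℝ) - q| := by
  have hp0 : (0 : ℝ) < p.den := by exact_mod_cast p.den_pos
  have hq0 : (0 : ℝ) < q.den := by exact_mod_cast q.den_pos
  have hA : 0 < A := lt_of_lt_of_le hp0 hp
  have e1 : (p : ℝ) = (p.num : ℝ) / p.den := by exact_mod_cast (Rat.num_div_den p).symm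
  have e2 : (q : ℝ) = (q.num : ℝ) / q.den := by exact_mod_cast (Rat.num_div_den q).symm
  have h1 : (p : ℝ) - q = ((p.num * q.den - q.num * p.den : ℤ) : ℝ) / (p.den * q.den) := by
    rw [e1, e2]
    push_cast
    field_simp
  have h2 : p.num * q.den - q.num * p.den ≠ 0 := by
    intro h0
    apply h
    have h3 : (p : ℝ) - q = 0 := by rw [h1, h0]; simp
    have h4 : (p : ℝ) = q := by linarith
    exact_mod_cast h4
  have h3 : (1 : ℝ) ≤ |((p.num * q.den - q.num * p.den : ℤ) : ℝ)| := by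
    rw [← Int.cast_abs]
    exact_mod_cast Int.one_le_abs h2
  rw [h1, abs_div, abs_of_pos (mul_pos hp0 hq0)]
  have h4 : (p.den : ℝ) * q.den ≤ A ^ 2 := by
    rw [pow_two]
    exact mul_le_mul hp hq hq0.le hA.le
  rw [div_le_div_iff₀ (by positivity) (by positivity)]
  nlinarith [mul_pos hp0 hq0]

/-- the solutions with `h k' = h' k` -/
theorem cnt_z : ∃ C : ℝ, 0 < C ∧ ∀ (N K : ℕ) (α η : ℝ), 1 ≤ N → 1 ≤ K → 0 ≤ η →
    (∀ k0 : ℕ, 1 ≤ k0 → k0 < K → ∀ h0 : ℤ, η / N < |α - h0 / k0|) →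
    ((∑ k ∈ Ico N (2 * N), ∑ k' ∈ Ico N (2 * N),
        ((Icc ⌈α * k - η⌉ ⌊α * k + η⌋ ×ˢ Icc ⌈α * k' - η⌉ ⌊α * k' + η⌋).filter
          (fun p : ℤ × ℤ => p.1 * k' = p.2 * k)).card : ℕ) : ℝ) ≤
      C * (η * N * (1 + Real.log N) + (N : ℝ) ^ 2 / (K : ℝ) ^ 2) := by
  refine ⟨144, by norm_num, ?_⟩
  intro N K α η hN hK hη hyp
  classical
  have hN0 : (0 : ℝ) < N := by exact_mod_cast hN
  have hK0 : (0 : ℝ) < K := by exact_mod_cast hK
  obtain ⟨P, hP⟩ : ∃ P : Finset (Σ _ : ℕ, ℤ),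
    P = (Ico N (2 * N)).sigma (fun k => Icc ⌈α * k - η⌉ ⌊α * k + η⌋) := ⟨_, rfl⟩
  have memP : ∀ p : (Σ _ : ℕ, ℤ), p ∈ P → N ≤ p.1 ∧ p.1 < 2 * N ∧ |(p.2 : ℝ) - α * p.1| ≤ η := by
    intro p hp
    rw [hP, Finset.mem_sigma, Finset.mem_Ico, Finset.mem_Icc, Int.ceil_le, Int.le_floor] at hp
    refine ⟨hp.1.1, hp.1.2, ?_⟩
    rw [abs_le]
    constructor <;> linarith [hp.2.1, hp.2.2]
  obtain ⟨ρ, hρ⟩ : ∃ ρ : (Σ _ : ℕ, ℤ) → ℚ, ρ = fun p => (p.2 : ℚ) / p.1 := ⟨_, rfl⟩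
  -- the count as a sum over the fractions
  have hcount : (∑ k ∈ Ico N (2 * N), ∑ k' ∈ Ico N (2 * N),
        ((Icc ⌈α * k - η⌉ ⌊α * k + η⌋ ×ˢ Icc ⌈α * k' - η⌉ ⌊α * k' + η⌋).filter
          (fun p : ℤ × ℤ => p.1 * k' = p.2 * k)).card : ℕ) =
      ∑ r ∈ P.image ρ, (P.filter (fun p => ρ p = r)).card * (P.filter (fun p => ρ p = r)).card := by
    have h1 : (∑ k ∈ Ico N (2 * N), ∑ k' ∈ Ico N (2 * N),
        ((Icc ⌈α * k - η⌉ ⌊α * k + η⌋ ×ˢ Icc ⌈α * k' - η⌉ ⌊α * k' + η⌋).filter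
          (fun p : ℤ × ℤ => p.1 * k' = p.2 * k)).card : ℕ) =
        ∑ p ∈ P, ∑ p' ∈ P, if ρ p' = ρ p then 1 else 0 := by
      rw [hP, Finset.sum_sigma]
      refine Finset.sum_congr rfl fun k hk => ?_
      rw [Finset.mem_Ico] at hk
      simp only [Finset.card_filter, Finset.sum_product]
      rw [Finset.sum_comm]
      refine Finset.sum_congr rfl fun h hh => ?_
      rw [Finset.sum_sigma]
      refine Finset.sum_congr rfl fun k' hk' => ?_
      rw [Finset.mem_Ico] at hk'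
      refine Finset.sum_congr rfl fun h' hh' => ?_
      have hk0 : (k : ℚ) ≠ 0 := by exact_mod_cast (by omega : k ≠ 0)
      have hk0' : (k' : ℚ) ≠ 0 := by exact_mod_cast (by omega : k' ≠ 0)
      have h2 : (h * (k' : ℤ) = h' * (k : ℤ)) ↔ ρ ⟨k', h'⟩ = ρ ⟨k, h⟩ := by
        rw [hρ]
        simp only
        rw [div_eq_div_iff hk0' hk0]
        constructor
        · intro h3
          exact_mod_cast h3.symm
        · intro h3
          exact_mod_cast h3.symm
      by_cases h3 : h * (k' : ℤ) = h' * (k : ℤ)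
      · rw [if_pos h3, if_pos (h2.1 h3)]
      · rw [if_neg h3, if_neg (fun h4 => h3 (h2.2 h4))]
    rw [h1]
    have h2 : ∀ p ∈ P, (∑ p' ∈ P, if ρ p' = ρ p then 1 else 0) =
        (fun r => (P.filter (fun p' => ρ p' = r)).card) (ρ p) := by
      intro p _
      simp only [Finset.card_filter]
    rw [Finset.sum_congr rfl h2,
      Finset.sum_comp (fun r => (P.filter (fun p' => ρ p' = r)).card) ρ]
    simp only [smul_eq_mul]
  rw [hcount]
  -- properties of the fractions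
  have hR : ∀ r ∈ P.image ρ, K ≤ r.den ∧ r.den < 2 * N ∧ |(r : ℝ) - α| ≤ η / N := by
    intro r hr
    obtain ⟨p, hp, rfl⟩ := Finset.mem_image.1 hr
    obtain ⟨h1, h2, h3⟩ := memP p hp
    have hk0 : (0 : ℝ) < p.1 := by exact_mod_cast (by omega : 0 < p.1)
    have hden : (ρ p).den ∣ p.1 := by
      have h4 := Rat.den_dvd p.2 (p.1 : ℤ)
      rw [Rat.divInt_eq_div] at h4
      rw [hρ]
      exact_mod_cast h4
    have hle : (ρ p).den ≤ p.1 := Nat.le_of_dvd (by omega) hden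
    have hcast : ((ρ p : ℚ) : ℝ) = (p.2 : ℝ) / p.1 := by
      rw [hρ]
      push_cast
      rfl
    have hdist : |((ρ p : ℚ) : ℝ) - α| ≤ η / N := by
      rw [hcast]
      have h5 : (p.2 : ℝ) / p.1 - α = ((p.2 : ℝ) - α * p.1) / p.1 := by
        field_simp
      rw [h5, abs_div, abs_of_pos hk0]
      have h6 : (N : ℝ) ≤ p.1 := by exact_mod_cast h1
      gcongr
    refine ⟨?_, by omega, hdist⟩
    by_contra hlt
    push Not at hlt
    have h7 := hyp (ρ p).den (ρ p).den_pos hlt (ρ p).num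
    have h8 : (((ρ p).num : ℝ) / ((ρ p).den : ℝ)) = ((ρ p : ℚ) : ℝ) := by
      exact_mod_cast Rat.num_div_den (ρ p)
    rw [h8, abs_sub_comm] at h7
    linarith
  -- size of the fibres
  have hfib : ∀ r ∈ P.image ρ, ((P.filter (fun p => ρ p = r)).card : ℝ) ≤ 3 * N / r.den := by
    intro r hr
    obtain ⟨hr1, hr2, hr3⟩ := hR r hr
    have hd0 : (0 : ℝ) < r.den := by exact_mod_cast r.den_pos
    have h1 := cz_spacing (P.filter (fun p => ρ p = r)) (fun p => (p.1 : ℝ)) N N r.den hd0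
      (fun p hp => by
        obtain ⟨h2, h3, _⟩ := memP p (Finset.mem_filter.1 hp).1
        constructor
        · exact_mod_cast h2
        · have : (p.1 : ℝ) ≤ ((2 * N : ℕ) : ℝ) := by exact_mod_cast h3.le
          push_cast at this
          linarith)
      (fun p hp p' hp' hne => by
        obtain ⟨hp1, hp2⟩ := Finset.mem_filter.1 hp
        obtain ⟨hp1', hp2'⟩ := Finset.mem_filter.1 hp'
        obtain ⟨h2, h3, _⟩ := memP p hp1
        obtain ⟨h2', h3', _⟩ := memP p' hp1'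
        have hk0 : (p.1 : ℚ) ≠ 0 := by exact_mod_cast (by omega : p.1 ≠ 0)
        have hk0' : (p'.1 : ℚ) ≠ 0 := by exact_mod_cast (by omega : p'.1 ≠ 0)
        have hdd : ∀ s : (Σ _ : ℕ, ℤ), ρ s = r → r.den ∣ s.1 := by
          intro s hs
          have h4 := Rat.den_dvd s.2 (s.1 : ℤ)
          rw [Rat.divInt_eq_div] at h4
          rw [← hs, hρ]
          exact_mod_cast h4
        have hne2 : p.1 ≠ p'.1 := by
          intro h0
          apply hne
          have h4 : ρ p = ρ p' := by rw [hp2, hp2']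
          rw [hρ] at h4
          simp only at h4
          rw [div_eq_div_iff hk0 hk0', h0] at h4
          have h5 := mul_right_cancel₀ hk0' h4
          have h6 : p.2 = p'.2 := by exact_mod_cast h5
          obtain ⟨a, b⟩ := p
          obtain ⟨a', b'⟩ := p'
          simp only at h0 h6
          subst h0
          subst h6
          rfl
        have h4 : (r.den : ℤ) ∣ (p.1 : ℤ) - p'.1 :=
          dvd_sub (by exact_mod_cast hdd p hp2) (by exact_mod_cast hdd p' hp2')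
        have h5 : (r.den : ℤ) ≤ |(p.1 : ℤ) - p'.1| :=
          Int.le_of_dvd (abs_pos.2 (by omega)) ((dvd_abs _ _).2 h4)
        have h6 : ((r.den : ℤ) : ℝ) ≤ ((|(p.1 : ℤ) - p'.1| : ℤ) : ℝ) := by exact_mod_cast h5
        push_cast at h6
        exact h6) hN0.le
    refine h1.trans ?_
    have h2 : (r.den : ℝ) ≤ 2 * N := by exact_mod_cast hr2.le
    rw [div_add_one hd0.ne', div_le_div_iff_of_pos_right hd0]
    linarith
  -- the sum over the fractions
  have hsum1 : ((∑ r ∈ P.image ρ, (P.filter (fun p => ρ p = r)).card *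
      (P.filter (fun p => ρ p = r)).card : ℕ) : ℝ) ≤
      ∑ r ∈ P.image ρ, 9 * (N : ℝ) ^ 2 / 4 ^ (Nat.log 2 r.den) := by
    push_cast
    refine Finset.sum_le_sum fun r hr => ?_
    have h1 := hfib r hr
    have hd0 : (0 : ℝ) < r.den := by exact_mod_cast r.den_pos
    have h2 : (2 : ℝ) ^ Nat.log 2 r.den ≤ r.den := by
      have := Nat.pow_log_le_self 2 (x := r.den) r.den_pos.ne'
      exact_mod_cast this
    calc ((P.filter (fun p => ρ p = r)).card : ℝ) * (P.filter (fun p => ρ p = r)).card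
        ≤ (3 * N / r.den) * (3 * N / r.den) := by gcongr
      _ = 9 * (N : ℝ) ^ 2 / (r.den : ℝ) ^ 2 := by field_simp; norm_num
      _ ≤ 9 * (N : ℝ) ^ 2 / 4 ^ (Nat.log 2 r.den) := by
          have h3 : (4 : ℝ) ^ Nat.log 2 r.den = (2 ^ Nat.log 2 r.den) ^ 2 := by
            rw [← pow_mul, mul_comm, pow_mul]
            norm_num
          rw [h3]
          gcongr
  refine hsum1.trans ?_
  rw [← Finset.sum_fiberwise_of_maps_to (s := P.image ρ)
    (t := Icc (Nat.log 2 K) (Nat.log 2 (2 * N))) (g := fun r => Nat.log 2 r.den)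
    (fun r hr => by
      obtain ⟨h1, h2, _⟩ := hR r hr
      rw [Finset.mem_Icc]
      exact ⟨Nat.log_mono_right h1, Nat.log_mono_right h2.le⟩)]
  have hlayer : ∀ i ∈ Icc (Nat.log 2 K) (Nat.log 2 (2 * N)),
      ∑ r ∈ (P.image ρ).filter (fun r => Nat.log 2 r.den = i),
        9 * (N : ℝ) ^ 2 / 4 ^ (Nat.log 2 r.den) ≤ 72 * η * N + 9 * (N : ℝ) ^ 2 * (1 / 4) ^ i := by
    intro i _
    have h1 : ∑ r ∈ (P.image ρ).filter (fun r => Nat.log 2 r.den = i),
        9 * (N : ℝ) ^ 2 / 4 ^ (Nat.log 2 r.den) =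
        ((P.image ρ).filter (fun r => Nat.log 2 r.den = i)).card * (9 * (N : ℝ) ^ 2 / 4 ^ i) := by
      rw [← nsmul_eq_mul, ← Finset.sum_const]
      refine Finset.sum_congr rfl fun r hr => ?_
      rw [(Finset.mem_filter.1 hr).2]
    have hA : ∀ r ∈ (P.image ρ).filter (fun r => Nat.log 2 r.den = i),
        (r.den : ℝ) ≤ 2 ^ (i + 1) := by
      intro r hr
      have h2 := Nat.lt_pow_succ_log_self (b := 2) (by norm_num) r.den
      rw [(Finset.mem_filter.1 hr).2] at h2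
      exact_mod_cast h2.le
    have h2 := cz_spacing ((P.image ρ).filter (fun r => Nat.log 2 r.den = i))
      (fun r => (r : ℝ)) (α - η / N) (2 * (η / N)) (1 / (2 ^ (i + 1)) ^ 2) (by positivity)
      (fun r hr => by
        obtain ⟨_, _, h3⟩ := hR r (Finset.mem_filter.1 hr).1
        rw [abs_le] at h3
        constructor <;> linarith [h3.1, h3.2])
      (fun r hr r' hr' hne => cz_rat_spacing r r' hne _ (hA r hr) (hA r' hr')) (by positivity)
    rw [h1]
    calc (((P.image ρ).filter (fun r => Nat.log 2 r.den = i)).card : ℝ) *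
          (9 * (N : ℝ) ^ 2 / 4 ^ i)
        ≤ (2 * (η / N) / (1 / (2 ^ (i + 1)) ^ 2) + 1) * (9 * (N : ℝ) ^ 2 / 4 ^ i) := by gcongr
      _ = 72 * η * N + 9 * (N : ℝ) ^ 2 * (1 / 4) ^ i := by
          have h3 : ((2 : ℝ) ^ (i + 1)) ^ 2 = 4 * 4 ^ i := by
            rw [← pow_mul, mul_comm (i + 1) 2, pow_mul, pow_succ]
            norm_num
            ring
          rw [h3, one_div_pow]
          have h4 : (4 : ℝ) ^ i ≠ 0 := by positivity
          field_simp
          ring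
  refine (Finset.sum_le_sum hlayer).trans ?_
  rw [Finset.sum_add_distrib, Finset.sum_const, Nat.card_Icc, nsmul_eq_mul, ← Finset.mul_sum]
  -- number of layers
  have hlog2 : (1 : ℝ) / 2 ≤ Real.log 2 := by
    have := Real.log_two_gt_d9
    linarith
  have hlogN : 0 ≤ Real.log N := Real.log_nonneg (by exact_mod_cast hN)
  have hnum : ((Nat.log 2 (2 * N) + 1 - Nat.log 2 K : ℕ) : ℝ) ≤ 2 * (1 + Real.log N) := by
    have h1 : ((Nat.log 2 (2 * N) + 1 - Nat.log 2 K : ℕ) : ℝ) ≤ ((Nat.log 2 (2 * N) + 1 : ℕ) : ℝ) := by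
      exact_mod_cast Nat.sub_le _ _
    have h2 : Nat.log 2 (2 * N) = Nat.log 2 N + 1 := by
      rw [mul_comm, Nat.log_mul_base (by norm_num) (by omega)]
    have h3 : (2 : ℝ) ^ Nat.log 2 N ≤ N := by
      have := Nat.pow_log_le_self 2 (x := N) (by omega)
      exact_mod_cast this
    have h4 := Real.log_le_log (by positivity) h3
    rw [Real.log_pow] at h4
    have h5 : (0 : ℝ) ≤ Nat.log 2 N := Nat.cast_nonneg _
    rw [h2] at h1 ⊢
    push_cast at h1 ⊢
    nlinarith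
  -- geometric series
  have hgeo : ∑ i ∈ Icc (Nat.log 2 K) (Nat.log 2 (2 * N)), ((1 : ℝ) / 4) ^ i ≤
      16 / (3 * (K : ℝ) ^ 2) := by
    have h1 : ∀ m : ℕ, ∑ i ∈ Ico (Nat.log 2 K) m, ((1 : ℝ) / 4) ^ i ≤
        4 / 3 * (1 / 4) ^ Nat.log 2 K := by
      intro m
      rcases le_total (Nat.log 2 K) m with h2 | h2
      · have h3 := geom_sum_Ico (x := (1 : ℝ) / 4) (by norm_num) h2
        rw [h3]
        have h4 : (0 : ℝ) ≤ (1 / 4) ^ m := by positivity
        have h5 : (((1 : ℝ) / 4) ^ m - (1 / 4) ^ Nat.log 2 K) / (1 / 4 - 1) =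
          4 / 3 * (1 / 4) ^ Nat.log 2 K - 4 / 3 * (1 / 4) ^ m := by ring
        rw [h5]
        linarith
      · rw [Finset.Ico_eq_empty_of_le h2]
        simp
    have h2 := h1 (Nat.log 2 (2 * N) + 1)
    have h3 : Icc (Nat.log 2 K) (Nat.log 2 (2 * N)) = Ico (Nat.log 2 K) (Nat.log 2 (2 * N) + 1) := by
      ext x
      rw [Finset.mem_Icc, Finset.mem_Ico]
      omega
    rw [h3]
    refine h2.trans ?_
    have h4 : (K : ℝ) ≤ 2 ^ (Nat.log 2 K + 1) := by
      have := Nat.lt_pow_succ_log_self (b := 2) (by norm_num) K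
      exact_mod_cast this.le
    have h5 : (K : ℝ) ^ 2 ≤ 4 * 4 ^ Nat.log 2 K := by
      have h6 : (K : ℝ) ^ 2 ≤ (2 ^ (Nat.log 2 K + 1)) ^ 2 := by gcongr
      have h7 : ((2 : ℝ) ^ (Nat.log 2 K + 1)) ^ 2 = 4 * 4 ^ Nat.log 2 K := by
        rw [← pow_mul, mul_comm (Nat.log 2 K + 1) 2, pow_mul, pow_succ]
        norm_num
        ring
      rw [h7] at h6
      exact h6
    rw [one_div_pow, le_div_iff₀ (by positivity)]
    have h8 : (0 : ℝ) < 4 ^ Nat.log 2 K := by positivity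
    have h9 : 4 / 3 * (1 / (4 : ℝ) ^ Nat.log 2 K) * (3 * (K : ℝ) ^ 2) =
        4 * (K : ℝ) ^ 2 / 4 ^ Nat.log 2 K := by
      field_simp
    rw [h9, div_le_iff₀ h8]
    linarith
  have t1 : ((Nat.log 2 (2 * N) + 1 - Nat.log 2 K : ℕ) : ℝ) * (72 * η * N) ≤
      2 * (1 + Real.log N) * (72 * η * N) :=
    mul_le_mul_of_nonneg_right hnum (by positivity)
  have t2 : 9 * (N : ℝ) ^ 2 * ∑ i ∈ Icc (Nat.log 2 K) (Nat.log 2 (2 * N)), ((1 : ℝ) / 4) ^ i ≤
      9 * (N : ℝ) ^ 2 * (16 / (3 * (K : ℝ) ^ 2)) :=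
    mul_le_mul_of_nonneg_left hgeo (by positivity)
  have t3 : 9 * (N : ℝ) ^ 2 * (16 / (3 * (K : ℝ) ^ 2)) = 48 * ((N : ℝ) ^ 2 / (K : ℝ) ^ 2) := by
    field_simp
    norm_num
  have t4 : 0 ≤ (N : ℝ) ^ 2 / (K : ℝ) ^ 2 := by positivity
  nlinarith

end Pool.MP_dd84fd_nt.L2G
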