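import Pool.Agent.Lib.MP_dd84fd_nt.L2G.CntNZ
import Pool.Agent.Lib.MP_dd84fd_nt.L2G.CntZ

set_option autoImplicit false

namespace Pool.MP_dd84fd_nt.L2G

open Finset Pool.MP_67663b_nt.Odd

theorem cnt_le : ∃ C : ℝ, 0 < C ∧ ∀ (q N K : ℕ) (α η : ℝ), 1 ≤ q → 1 ≤ N → 1 ≤ K → 0 ≤ η →
    (∀ k0 : ℕ, 1 ≤ k0 → k0 < K → ∀ h0 : ℤ, η / N < |α - h0 / k0|) →
    (Cnt q N α η : ℝ) ≤ C * (η * (N : ℝ) ^ 2 * (η + 1) / q + η * N * (1 + Real.log N) +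
      (N : ℝ) ^ 2 / (K : ℝ) ^ 2) := by
  obtain ⟨C, hC, hz⟩ := cnt_z
  refine ⟨64 + C, by linarith, ?_⟩
  intro q N K α η hq hN hK hη hyp
  have h1 := cnt_nz q N α η hq hN hη
  have h2 := hz N K α η hN hK hη hyp
  have hNr : (1 : ℝ) ≤ N := by exact_mod_cast hN
  have hqr : (1 : ℝ) ≤ q := by exact_mod_cast hq
  have hKr : (1 : ℝ) ≤ K := by exact_mod_cast hK
  have hsplit : (Cnt q N α η : ℝ) ≤
      ((∑ k ∈ (Ico N (2 * N)).filter (fun k => Nat.Coprime k q),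
      ∑ k' ∈ (Ico N (2 * N)).filter (fun k => Nat.Coprime k q),
        ((Icc ⌈α * k - η⌉ ⌊α * k + η⌋ ×ˢ Icc ⌈α * k' - η⌉ ⌊α * k' + η⌋).filter
          (fun p : ℤ × ℤ => (q : ℤ) ∣ p.1 * k' - p.2 * k ∧ p.1 * k' ≠ p.2 * k)).card : ℕ) : ℝ) +
      ((∑ k ∈ Ico N (2 * N), ∑ k' ∈ Ico N (2 * N),
        ((Icc ⌈α * k - η⌉ ⌊α * k + η⌋ ×ˢ Icc ⌈α * k' - η⌉ ⌊α * k' + η⌋).filter
          (fun p : ℤ × ℤ => p.1 * k' = p.2 * k)).card : ℕ) : ℝ) := by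
    rw [← Nat.cast_add]
    apply Nat.cast_le.mpr
    unfold Cnt
    refine le_trans ?_ (Nat.add_le_add_left (le_trans (Finset.sum_le_sum fun k _ =>
      Finset.sum_le_sum_of_subset (Finset.filter_subset (fun k => Nat.Coprime k q) _))
      (Finset.sum_le_sum_of_subset (Finset.filter_subset (fun k => Nat.Coprime k q) _))) _)
    rw [← Finset.sum_add_distrib]
    apply Finset.sum_le_sum
    intro k _
    rw [← Finset.sum_add_distrib]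
    apply Finset.sum_le_sum
    intro k' _
    refine le_trans (Finset.card_le_card ?_) (Finset.card_union_le _ _)
    intro p hp
    rw [Finset.mem_filter] at hp
    rw [Finset.mem_union, Finset.mem_filter, Finset.mem_filter]
    by_cases h : p.1 * (k' : ℤ) = p.2 * k
    · exact Or.inr ⟨hp.1, h⟩
    · exact Or.inl ⟨hp.1, hp.2, h⟩
  have hlog : 0 ≤ Real.log N := Real.log_nonneg hNr
  have t1 : 0 ≤ η * (N : ℝ) ^ 2 * (η + 1) / q := by positivity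
  have t2 : 0 ≤ η * N * (1 + Real.log N) := by positivity
  have t3 : 0 ≤ (N : ℝ) ^ 2 / (K : ℝ) ^ 2 := by positivity
  have e1 : 64 * η * (N : ℝ) ^ 2 * (η + 1) / q = 64 * (η * (N : ℝ) ^ 2 * (η + 1) / q) := by ring
  rw [e1] at h1
  nlinarith [mul_nonneg hC.le t1]

end Pool.MP_dd84fd_nt.L2G
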