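import Pool.Agent.Lib.MP_dd84fd_nt.L2G.RedI2
import Pool.Agent.Lib.MP_dd84fd_nt.L2G.CntLe
import Pool.Agent.Lib.MP_dd84fd_nt.L2G.BadM

set_option autoImplicit false

namespace Pool.MP_dd84fd_nt.L2G

open Finset Pool.MP_67663b_nt.Odd

/-- the inner sum -/
private noncomputable def aI2T (q m N1 N2 X : ℕ) (g1 g2 : ℕ → ℝ) (θ : ℝ) (b : ℕ) : ℂ :=
  ∑ k1 ∈ Ico N1 (2 * N1), ∑ k2 ∈ Ico N2 (2 * N2),
    if m * k1 * k2 ≤ X ∧ (m * k1 * k2) % q = b then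
      ((g1 k1 * g2 k2 : ℝ) : ℂ) * ee (((m * k1 * k2 : ℕ) : ℝ) * θ) else 0

private noncomputable def aI2V (q m N1 N2 X : ℕ) (g1 g2 : ℕ → ℝ) (θ : ℝ) : ℝ :=
  ∑ b ∈ (range q).filter (Nat.Coprime q), ‖aI2T q m N1 N2 X g1 g2 θ b‖ ^ 2

private theorem aI2V_nonneg (q m N1 N2 X : ℕ) (g1 g2 : ℕ → ℝ) (θ : ℝ) :
    0 ≤ aI2V q m N1 N2 X g1 g2 θ := sum_nonneg fun _ _ => by positivity

private theorem aI2_cs (D : ℕ) (α : ℕ → ℝ) (T : ℕ → ℂ) :
    ‖∑ m ∈ Icc 1 D, (α m : ℂ) * T m‖ ^ 2 ≤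
      (∑ m ∈ Icc 1 D, α m ^ 2 / m) * ∑ m ∈ Icc 1 D, (m : ℝ) * ‖T m‖ ^ 2 := by
  have h1 : ‖∑ m ∈ Icc 1 D, (α m : ℂ) * T m‖ ≤
      ∑ m ∈ Icc 1 D, (|α m| / Real.sqrt m) * (Real.sqrt m * ‖T m‖) := by
    refine (norm_sum_le _ _).trans (sum_le_sum fun m hm => ?_)
    rw [mem_Icc] at hm
    have hm0 : (0 : ℝ) < m := by exact_mod_cast hm.1
    have hs : 0 < Real.sqrt m := Real.sqrt_pos.2 hm0
    rw [norm_mul, Complex.norm_real, Real.norm_eq_abs]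
    apply le_of_eq
    field_simp
  have h2 := pow_le_pow_left₀ (norm_nonneg _) h1 2
  refine h2.trans ((sum_mul_sq_le_sq_mul_sq _ _ _).trans (le_of_eq ?_))
  congr 1
  · refine sum_congr rfl fun m hm => ?_
    rw [div_pow, sq_abs, Real.sq_sqrt (Nat.cast_nonneg m)]
  · refine sum_congr rfl fun m hm => ?_
    rw [mul_pow, Real.sq_sqrt (Nat.cast_nonneg m)]

private theorem aI2_swap (q N1 N2 X D : ℕ) (α g1 g2 : ℕ → ℝ) (θ : ℝ) :
    ∑ b ∈ (range q).filter (Nat.Coprime q),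
      ‖∑ m ∈ Icc 1 D, ∑ k1 ∈ Ico N1 (2 * N1), ∑ k2 ∈ Ico N2 (2 * N2),
        if m * k1 * k2 ≤ X ∧ (m * k1 * k2) % q = b then
          ((α m * (g1 k1 * g2 k2) : ℝ) : ℂ) * ee (((m * k1 * k2 : ℕ) : ℝ) * θ) else 0‖ ^ 2 ≤
      (∑ m ∈ Icc 1 D, α m ^ 2 / m) * ∑ m ∈ Icc 1 D, (m : ℝ) * aI2V q m N1 N2 X g1 g2 θ := by
  have h1 : ∀ b : ℕ, (∑ m ∈ Icc 1 D, ∑ k1 ∈ Ico N1 (2 * N1), ∑ k2 ∈ Ico N2 (2 * N2),
        if m * k1 * k2 ≤ X ∧ (m * k1 * k2) % q = b then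
          ((α m * (g1 k1 * g2 k2) : ℝ) : ℂ) * ee (((m * k1 * k2 : ℕ) : ℝ) * θ) else 0) =
      ∑ m ∈ Icc 1 D, (α m : ℂ) * aI2T q m N1 N2 X g1 g2 θ b := by
    intro b
    refine sum_congr rfl fun m _ => ?_
    unfold aI2T
    rw [mul_sum]
    refine sum_congr rfl fun k1 _ => ?_
    rw [mul_sum]
    refine sum_congr rfl fun k2 _ => ?_
    rw [mul_ite, mul_zero]
    split_ifs
    · push_cast
      ring
    · rfl
  have h2 : ∀ b ∈ (range q).filter (Nat.Coprime q),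
      ‖∑ m ∈ Icc 1 D, ∑ k1 ∈ Ico N1 (2 * N1), ∑ k2 ∈ Ico N2 (2 * N2),
        if m * k1 * k2 ≤ X ∧ (m * k1 * k2) % q = b then
          ((α m * (g1 k1 * g2 k2) : ℝ) : ℂ) * ee (((m * k1 * k2 : ℕ) : ℝ) * θ) else 0‖ ^ 2 ≤
      (∑ m ∈ Icc 1 D, α m ^ 2 / m) * ∑ m ∈ Icc 1 D, (m : ℝ) *
        ‖aI2T q m N1 N2 X g1 g2 θ b‖ ^ 2 := by
    intro b _
    rw [h1 b]
    exact aI2_cs D α _
  refine (sum_le_sum h2).trans (le_of_eq ?_)
  rw [← mul_sum, sum_comm]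
  congr 1
  refine sum_congr rfl fun m _ => ?_
  unfold aI2V
  rw [mul_sum]

private theorem aI2V_zero (q m N1 N2 X : ℕ) (g1 g2 : ℕ → ℝ) (θ : ℝ)
    (h : ¬ (Nat.Coprime m q ∧ m * N1 * N2 ≤ X)) : aI2V q m N1 N2 X g1 g2 θ = 0 := by
  unfold aI2V
  refine sum_eq_zero fun b hb => ?_
  rw [mem_filter] at hb
  have h0 : aI2T q m N1 N2 X g1 g2 θ b = 0 := by
    unfold aI2T
    refine sum_eq_zero fun k1 hk1 => sum_eq_zero fun k2 hk2 => ?_
    rw [mem_Ico] at hk1 hk2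
    refine if_neg ?_
    rintro ⟨h1, h2⟩
    apply h
    constructor
    · have h3 : Nat.Coprime q (m * k1 * k2) := by
        have h4 := hb.2
        rw [← h2] at h4
        unfold Nat.Coprime at h4 ⊢
        rw [Nat.gcd_rec, Nat.gcd_comm]
        exact h4
      rw [mul_assoc] at h3
      exact (Nat.Coprime.coprime_mul_right_right h3).symm
    · calc m * N1 * N2 ≤ m * k1 * k2 := by
            gcongr
            · exact hk1.1
            · exact hk2.1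
        _ ≤ X := h1
  rw [h0]
  simp

/-- the bound for one `m` -/
private theorem aI2_one (C1 C2 : ℝ) (hC1 : 0 < C1) (hC2 : 0 < C2)
    (hred : ∀ (q m N1 N2 X J : ℕ) (g1 g2 : ℕ → ℝ) (G θ : ℝ), 1 ≤ q →
    Nat.Coprime m q → 1 ≤ N1 → 1 ≤ N2 → N1 ≤ 2 ^ J → (∀ k ∈ Ico N1 (2 * N1), 0 ≤ g1 k ∧ g1 k ≤ G) →
    MonotoneOn g1 (Set.Ico N1 (2 * N1)) → (∀ k ∈ Ico N2 (2 * N2), |g2 k| ≤ G) →
    ∑ b ∈ (range q).filter (Nat.Coprime q),
      ‖∑ k1 ∈ Ico N1 (2 * N1), ∑ k2 ∈ Ico N2 (2 * N2),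
        if m * k1 * k2 ≤ X ∧ (m * k1 * k2) % q = b then
          ((g1 k1 * g2 k2 : ℝ) : ℂ) * ee (((m * k1 * k2 : ℕ) : ℝ) * θ) else 0‖ ^ 2 ≤
      C1 * G ^ 4 * (J + 1) * ((N1 : ℝ) ^ 2 / q) * ∑ j ∈ range (J + 1),
        (1 / 4 : ℝ) ^ j * Cnt q N2 (q * m * θ) (q * 2 ^ j / N1))
    (hcnt : ∀ (q N K : ℕ) (α η : ℝ), 1 ≤ q → 1 ≤ N → 1 ≤ K → 0 ≤ η →
    (∀ k0 : ℕ, 1 ≤ k0 → k0 < K → ∀ h0 : ℤ, η / N < |α - h0 / k0|) →
    (Cnt q N α η : ℝ) ≤ C2 * (η * (N : ℝ) ^ 2 * (η + 1) / q + η * N * (1 + Real.log N) +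
      (N : ℝ) ^ 2 / (K : ℝ) ^ 2))
    (q m N1 N2 X J : ℕ) (g1 g2 : ℕ → ℝ) (G θ Λ : ℝ) (hq : 1 ≤ q) (hmq : Nat.Coprime m q)
    (hN1 : 1 ≤ N1) (hN2 : 1 ≤ N2) (hJ : N1 ≤ 2 ^ J) (hΛ : 1 ≤ Λ)
    (hg1 : ∀ k ∈ Ico N1 (2 * N1), 0 ≤ g1 k ∧ g1 k ≤ G)
    (hmono : MonotoneOn g1 (Set.Ico N1 (2 * N1))) (hg2 : ∀ k ∈ Ico N2 (2 * N2), |g2 k| ≤ G)
    (u : ℝ) (hu : u = 1 ∨ (u = 1 / Λ ^ 2 ∧ ∀ k0 : ℕ, 1 ≤ k0 → (k0 : ℝ) ≤ Λ → ∀ h0 : ℤ,
      q * Λ / (N1 * N2) < |m * (q * θ) - h0 / k0|)) :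
    aI2V q m N1 N2 X g1 g2 θ ≤ C1 * C2 * G ^ 4 * (J + 1) ^ 2 *
      ((N2 : ℝ) ^ 2 + N1 * N2 ^ 2 / q + N1 * N2 * (1 + Real.log N2) + (N1 * N2) ^ 2 / q * u) := by
  have hqpos : (0 : ℝ) < q := by exact_mod_cast hq
  have hq1 : (1 : ℝ) ≤ q := by exact_mod_cast hq
  have hN1pos : (0 : ℝ) < N1 := by exact_mod_cast hN1
  have hN2pos : (0 : ℝ) < N2 := by exact_mod_cast hN2
  have hlog : 0 ≤ Real.log N2 := Real.log_natCast_nonneg N2
  have hG : 0 ≤ G := by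
    have := hg1 N1 (by rw [mem_Ico]; omega)
    linarith [this.1, this.2]
  have hΛ0 : 0 < Λ := by linarith
  have h1 := hred q m N1 N2 X J g1 g2 G θ hq hmq hN1 hN2 hJ hg1 hmono hg2
  refine h1.trans ?_
  have key : ∀ j ∈ range (J + 1), ((N1 : ℝ) ^ 2 / q) * ((1 / 4 : ℝ) ^ j *
      Cnt q N2 (q * m * θ) (q * 2 ^ j / N1)) ≤
      C2 * ((N2 : ℝ) ^ 2 + N1 * N2 ^ 2 / q + N1 * N2 * (1 + Real.log N2) +
        (N1 * N2) ^ 2 / q * u) := by
    intro j _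
    set t : ℝ := 2 ^ j with ht
    have ht1 : 1 ≤ t := one_le_pow₀ (by norm_num)
    have ht0 : 0 < t := by linarith
    have h4 : (1 / 4 : ℝ) ^ j = 1 / t ^ 2 := by
      rw [ht, ← pow_mul, mul_comm j 2, pow_mul]
      rw [one_div_pow]
      norm_num
    have hη : 0 ≤ (q : ℝ) * t / N1 := by positivity
    -- the general bound with a real number `s` in place of `1 / K ^ 2`
    have main : ∀ s : ℝ, s / t ^ 2 ≤ u → (Cnt q N2 (q * m * θ) (q * t / N1) : ℝ) ≤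
        C2 * ((q * t / N1) * (N2 : ℝ) ^ 2 * ((q * t / N1) + 1) / q +
          (q * t / N1) * N2 * (1 + Real.log N2) + (N2 : ℝ) ^ 2 * s) →
        ((N1 : ℝ) ^ 2 / q) * ((1 / 4 : ℝ) ^ j * Cnt q N2 (q * m * θ) (q * t / N1)) ≤
      C2 * ((N2 : ℝ) ^ 2 + N1 * N2 ^ 2 / q + N1 * N2 * (1 + Real.log N2) +
        (N1 * N2) ^ 2 / q * u) := by
      intro s hs hb
      rw [h4]
      have h5 : ((N1 : ℝ) ^ 2 / q) * (1 / t ^ 2 * Cnt q N2 (q * m * θ) (q * t / N1)) ≤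
          ((N1 : ℝ) ^ 2 / q) * (1 / t ^ 2 * (C2 * ((q * t / N1) * (N2 : ℝ) ^ 2 *
          ((q * t / N1) + 1) / q + (q * t / N1) * N2 * (1 + Real.log N2) + (N2 : ℝ) ^ 2 * s))) := by
        gcongr
      refine h5.trans ?_
      have h6 : ((N1 : ℝ) ^ 2 / q) * (1 / t ^ 2 * (C2 * ((q * t / N1) * (N2 : ℝ) ^ 2 *
          ((q * t / N1) + 1) / q + (q * t / N1) * N2 * (1 + Real.log N2) + (N2 : ℝ) ^ 2 * s))) =
          C2 * ((N2 : ℝ) ^ 2 + N1 * N2 ^ 2 / q / t + N1 * N2 * (1 + Real.log N2) / t +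
            (N1 * N2) ^ 2 / q * (s / t ^ 2)) := by
        field_simp
      rw [h6]
      have h7 : (N1 : ℝ) * N2 ^ 2 / q / t ≤ N1 * N2 ^ 2 / q :=
        div_le_self (by positivity) ht1
      have h8 : (N1 : ℝ) * N2 * (1 + Real.log N2) / t ≤ N1 * N2 * (1 + Real.log N2) :=
        div_le_self (by positivity) ht1
      have h9 : ((N1 : ℝ) * N2) ^ 2 / q * (s / t ^ 2) ≤ (N1 * N2) ^ 2 / q * u :=
        mul_le_mul_of_nonneg_left hs (by positivity)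
      refine mul_le_mul_of_nonneg_left ?_ hC2.le
      linarith
    have hK1 := hcnt q N2 1 (q * m * θ) (q * t / N1) hq hN2 le_rfl hη
      (fun k0 h h' => by omega)
    rw [Nat.cast_one, one_pow, div_one] at hK1
    rcases hu with hu | ⟨hu, hfar⟩
    · apply main 1
      · rw [hu, div_le_one (by positivity)]
        exact one_le_pow₀ ht1
      · rw [mul_one]
        exact hK1
    · rcases le_or_gt t Λ with htΛ | htΛ
      · have hK := hcnt q N2 (⌊Λ⌋₊ + 1) (q * m * θ) (q * t / N1) hq hN2 (by omega) hη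
          (fun k0 hk0 hk0' h0 => by
            have h10 := hfar k0 hk0 (by
              have : k0 ≤ ⌊Λ⌋₊ := by omega
              exact (Nat.le_floor_iff hΛ0.le).1 this) h0
            have h11 : (m : ℝ) * (q * θ) = q * m * θ := by ring
            rw [h11] at h10
            refine lt_of_le_of_lt ?_ h10
            rw [div_div]
            gcongr)
        apply main (1 / Λ ^ 2)
        · rw [hu]
          exact div_le_self (by positivity) (one_le_pow₀ ht1)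
        · refine hK.trans (mul_le_mul_of_nonneg_left ?_ hC2.le)
          have h12 : (Λ : ℝ) ≤ ((⌊Λ⌋₊ + 1 : ℕ) : ℝ) := by
            push_cast
            exact (Nat.lt_floor_add_one Λ).le
          have h13 : (N2 : ℝ) ^ 2 / ((⌊Λ⌋₊ + 1 : ℕ) : ℝ) ^ 2 ≤ (N2 : ℝ) ^ 2 * (1 / Λ ^ 2) := by
            rw [mul_one_div]
            gcongr
          linarith
      · apply main 1
        · rw [hu]
          gcongr
        · rw [mul_one]
          exact hK1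
  have h2 : C1 * G ^ 4 * (J + 1) * ((N1 : ℝ) ^ 2 / q) * ∑ j ∈ range (J + 1),
      (1 / 4 : ℝ) ^ j * Cnt q N2 (q * m * θ) (q * 2 ^ j / N1) =
      C1 * G ^ 4 * (J + 1) * ∑ j ∈ range (J + 1), ((N1 : ℝ) ^ 2 / q) * ((1 / 4 : ℝ) ^ j *
        Cnt q N2 (q * m * θ) (q * 2 ^ j / N1)) := by
    rw [← mul_sum]
    ring
  rw [h2]
  have h3 := sum_le_card_nsmul _ _ _ key
  rw [card_range, nsmul_eq_mul] at h3
  have h4 : C1 * G ^ 4 * (J + 1) * ∑ j ∈ range (J + 1), ((N1 : ℝ) ^ 2 / q) * ((1 / 4 : ℝ) ^ j *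
        Cnt q N2 (q * m * θ) (q * 2 ^ j / N1)) ≤
      C1 * G ^ 4 * (J + 1) * (((J + 1 : ℕ) : ℝ) * (C2 * ((N2 : ℝ) ^ 2 + N1 * N2 ^ 2 / q +
        N1 * N2 * (1 + Real.log N2) + (N1 * N2) ^ 2 / q * u))) :=
    mul_le_mul_of_nonneg_left h3 (by positivity)
  refine h4.trans (le_of_eq ?_)
  push_cast
  ring

private theorem aI2_ev (ε C : ℝ) (hε : 0 < ε) (k : ℕ) : ∃ X0 : ℕ, ∀ X : ℕ, X0 ≤ X →
    C ≤ Real.log X ∧ Real.log X ^ k ≤ (X : ℝ) ^ ε := by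
  have h1 : ∀ᶠ x : ℝ in Filter.atTop, C ≤ Real.log x :=
    Real.tendsto_log_atTop.eventually_ge_atTop C
  have h2 : ∀ᶠ x : ℝ in Filter.atTop, ‖Real.log x ^ (k : ℝ)‖ ≤ 1 * ‖x ^ ε‖ :=
    (isLittleO_log_rpow_rpow_atTop (k : ℝ) hε).bound one_pos
  have h3 := ((h1.and h2).and (Filter.eventually_ge_atTop 1)).natCast_atTop
  rw [Filter.eventually_atTop] at h3
  obtain ⟨X0, hX0⟩ := h3
  refine ⟨X0, fun X hX => ?_⟩
  obtain ⟨⟨h4, h5⟩, h6⟩ := hX0 X hX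
  refine ⟨h4, ?_⟩
  have h7 : 0 ≤ Real.log X := Real.log_natCast_nonneg X
  rw [one_mul, Real.norm_of_nonneg (by positivity), Real.norm_of_nonneg (by positivity),
    Real.rpow_natCast] at h5
  exact h5

theorem a_I2 (ε : ℝ) (hε : 0 < ε) (hε1 : ε < 1) (A : ℕ) : ∃ B0 : ℕ, ∀ B : ℕ, B0 ≤ B →
    ∃ X0 : ℕ, ∀ X : ℕ, X0 ≤ X → ∀ q : ℕ, 1 ≤ q → (q : ℝ) ≤ (X : ℝ) ^ (1 - ε) →
    ∀ (θ : ℝ) (r : ℕ) (c : ℤ), MinorHyp X q B θ r c →
    ∀ (D N1 N2 : ℕ) (α g1 g2 : ℕ → ℝ), (D : ℝ) ≤ (X : ℝ) ^ (ε / 4) → 1 ≤ N2 → N2 ≤ N1 →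
    N1 * N2 ≤ X → (∀ k ∈ Ico N1 (2 * N1), 0 ≤ g1 k ∧ g1 k ≤ 2 + Real.log X) →
    MonotoneOn g1 (Set.Ico N1 (2 * N1)) → (∀ k ∈ Ico N2 (2 * N2), |g2 k| ≤ 2 + Real.log X) →
    ∑ b ∈ (range q).filter (Nat.Coprime q),
      ‖∑ m ∈ Icc 1 D, ∑ k1 ∈ Ico N1 (2 * N1), ∑ k2 ∈ Ico N2 (2 * N2),
        if m * k1 * k2 ≤ X ∧ (m * k1 * k2) % q = b then
          ((α m * (g1 k1 * g2 k2) : ℝ) : ℂ) * ee (((m * k1 * k2 : ℕ) : ℝ) * θ) else 0‖ ^ 2 ≤
      (∑ m ∈ Icc 1 D, α m ^ 2 / m) * (X ^ 2 / (q * Real.log X ^ A)) := by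
  obtain ⟨C1, hC1, hred⟩ := red_I2
  obtain ⟨C2, hC2, hcnt⟩ := cnt_le
  obtain ⟨B0, hbad⟩ := bad_m ε hε hε1 (A + 7) (A + 7)
  refine ⟨B0, fun B hB => ?_⟩
  obtain ⟨X1, hbad⟩ := hbad B hB
  obtain ⟨X2, hX2⟩ := aI2_ev (ε / 4) (1000 * (C1 * C2) + 10) (by positivity) (A + 8)
  refine ⟨max X1 (max X2 1), fun X hX => ?_⟩
  have hXX1 : X1 ≤ X := (le_max_left _ _).trans hX
  have hXX2 : X2 ≤ X := ((le_max_left _ _).trans (le_max_right _ _)).trans hX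
  have hX1' : 1 ≤ X := ((le_max_right _ _).trans (le_max_right _ _)).trans hX
  obtain ⟨hL1, hL2⟩ := hX2 X hXX2
  intro q hq hqX θ r c hmin D N1 N2 α g1 g2 hD hN2 hN21 hN hg1 hmono hg2
  set L := Real.log X with hL
  have hC12 : 0 < C1 * C2 := by positivity
  have hL10 : 10 ≤ L := by linarith
  have hL0 : 0 < L := by linarith
  have hN1 : 1 ≤ N1 := hN2.trans hN21
  have hXpos : (0 : ℝ) < X := by exact_mod_cast hX1'
  have hX1r : (1 : ℝ) ≤ X := by exact_mod_cast hX1'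
  have hqpos : (0 : ℝ) < q := by exact_mod_cast hq
  have hq1 : (1 : ℝ) ≤ q := by exact_mod_cast hq
  have hN1pos : (0 : ℝ) < N1 := by exact_mod_cast hN1
  have hN2pos : (0 : ℝ) < N2 := by exact_mod_cast hN2
  have hN21r : (N2 : ℝ) ≤ N1 := by exact_mod_cast hN21
  have hNr : (N1 : ℝ) * N2 ≤ X := by exact_mod_cast hN
  refine (aI2_swap q N1 N2 X D α g1 g2 θ).trans ?_
  have hα : 0 ≤ ∑ m ∈ Icc 1 D, α m ^ 2 / m := sum_nonneg fun _ _ => by positivity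
  refine mul_le_mul_of_nonneg_left ?_ hα
  -- parameters
  set J := Nat.log 2 N1 + 1 with hJdef
  have hJ : N1 ≤ 2 ^ J := (Nat.lt_pow_succ_log_self (by norm_num) N1).le
  have hlogN1 : Real.log N1 ≤ L := by
    apply Real.log_le_log hN1pos
    have : (1 : ℝ) ≤ N2 := by exact_mod_cast hN2
    exact (le_mul_of_one_le_right hN1pos.le this).trans hNr
  have hlogN2 : Real.log N2 ≤ L := (Real.log_le_log hN2pos hN21r).trans hlogN1
  have hlogN2' : 0 ≤ Real.log N2 := Real.log_natCast_nonneg N2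
  have hJL : (J : ℝ) + 1 ≤ 3 * L := by
    have h1 : 2 ^ (Nat.log 2 N1) ≤ N1 := Nat.pow_log_le_self 2 (by omega)
    have h2 : (2 : ℝ) ^ (Nat.log 2 N1) ≤ N1 := by exact_mod_cast h1
    have h3 := Real.log_le_log (by positivity) h2
    rw [Real.log_pow] at h3
    have h4 : (0.69 : ℝ) ≤ Real.log 2 := by linarith [Real.log_two_gt_d9]
    have h5 : (Nat.log 2 N1 : ℝ) * 0.69 ≤ L := by
      have : (Nat.log 2 N1 : ℝ) * 0.69 ≤ (Nat.log 2 N1 : ℝ) * Real.log 2 :=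
        mul_le_mul_of_nonneg_left h4 (Nat.cast_nonneg _)
      linarith
    rw [hJdef]
    push_cast
    linarith
  set Y : ℝ := X / (N1 * N2) with hY
  have hY1 : 1 ≤ Y := by
    rw [hY, le_div_iff₀ (by positivity), one_mul]
    exact hNr
  have hYN : Y * (N1 * N2) = X := by
    rw [hY]
    field_simp
  classical
  set M := (Icc 1 D).filter (fun m => Nat.Coprime m q ∧ m * N1 * N2 ≤ X) with hM
  have hMY : ∀ m ∈ M, (m : ℝ) ≤ Y := by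
    intro m hm
    rw [hM, mem_filter] at hm
    rw [hY, le_div_iff₀ (by positivity)]
    have : ((m * N1 * N2 : ℕ) : ℝ) ≤ X := by exact_mod_cast hm.2.2
    push_cast at this
    linarith
  have hsum : ∑ m ∈ Icc 1 D, (m : ℝ) * aI2V q m N1 N2 X g1 g2 θ =
      ∑ m ∈ M, (m : ℝ) * aI2V q m N1 N2 X g1 g2 θ := by
    rw [hM, sum_filter]
    refine sum_congr rfl fun m _ => ?_
    split_ifs with h
    · rfl
    · rw [aI2V_zero q m N1 N2 X g1 g2 θ h, mul_zero]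
  rw [hsum]
  -- bad m
  set Λ : ℝ := L ^ (A + 7) with hΛ
  have hΛ1 : 1 ≤ Λ := one_le_pow₀ (by linarith)
  have hΛ0 : 0 < Λ := by linarith
  set bad : ℕ → Prop := fun m => ∃ (k0 : ℕ) (h0 : ℤ), 1 ≤ k0 ∧ (k0 : ℝ) ≤ Λ ∧
      |m * (q * θ) - h0 / k0| ≤ q * Λ * Y / X with hbadd
  set S := M.filter bad with hS
  have hDY : ((min D ⌊Y⌋₊ : ℕ) : ℝ) ≤ Y := by
    refine le_trans (Nat.cast_le.2 (min_le_right _ _)) (Nat.floor_le (by linarith))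
  have hDX : ((min D ⌊Y⌋₊ : ℕ) : ℝ) ≤ (X : ℝ) ^ (ε / 4) :=
    le_trans (Nat.cast_le.2 (min_le_left _ _)) hD
  have hScard : (S.card : ℝ) ≤ Y / Λ := by
    refine hbad X hXX1 q hq hqX θ r c hmin Y (min D ⌊Y⌋₊) hY1 hDY hDX S ?_
    intro m hm
    rw [hS, mem_filter] at hm
    have hmM := hm.1
    rw [hM, mem_filter, mem_Icc] at hmM
    refine ⟨hmM.1.1, le_min hmM.1.2 (Nat.le_floor (hMY m hm.1)), ?_⟩
    exact hm.2
  set G : ℝ := 2 + L with hG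
  have hG0 : 0 ≤ G := by linarith
  set P : ℝ := (N2 : ℝ) ^ 2 + N1 * N2 ^ 2 / q + N1 * N2 * (1 + Real.log N2) with hP
  have hP0 : 0 ≤ P := by positivity
  set u : ℕ → ℝ := fun m => if bad m then 1 else 1 / Λ ^ 2 with hu
  have hone : ∀ m ∈ M, aI2V q m N1 N2 X g1 g2 θ ≤ C1 * C2 * G ^ 4 * (J + 1) ^ 2 *
      (P + (N1 * N2) ^ 2 / q * u m) := by
    intro m hm
    have hmM := hm
    rw [hM, mem_filter] at hmM
    apply aI2_one C1 C2 hC1 hC2 hred hcnt q m N1 N2 X J g1 g2 G θ Λ hq hmM.2.1 hN1 hN2 hJ hΛ1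
      hg1 hmono hg2
    rw [hu]
    by_cases hb : bad m
    · left
      exact if_pos hb
    · right
      refine ⟨if_neg hb, ?_⟩
      intro k0 hk0 hk0' h0
      by_contra hcon
      push Not at hcon
      apply hb
      refine ⟨k0, h0, hk0, hk0', hcon.trans (le_of_eq ?_)⟩
      rw [hY]
      field_simp
  have hMD : (M.card : ℝ) ≤ D := by
    have h1 : M.card ≤ (Icc 1 D).card := card_le_card (filter_subset _ _)
    rw [Nat.card_Icc] at h1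
    have : M.card ≤ D := by omega
    exact_mod_cast this
  have hMYc : (M.card : ℝ) ≤ Y := by
    have h1 : M ⊆ Icc 1 ⌊Y⌋₊ := by
      intro m hm
      have hmY := hMY m hm
      rw [hM, mem_filter, mem_Icc] at hm
      rw [mem_Icc]
      exact ⟨hm.1.1, Nat.le_floor hmY⟩
    have h2 := card_le_card h1
    rw [Nat.card_Icc] at h2
    have h3 : M.card ≤ ⌊Y⌋₊ := by omega
    exact le_trans (Nat.cast_le.2 h3) (Nat.floor_le (by linarith))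
  have hsm : ∑ m ∈ M, (m : ℝ) ≤ D * Y := by
    have h1 := sum_le_card_nsmul M (fun m : ℕ => (m : ℝ)) Y hMY
    rw [nsmul_eq_mul] at h1
    exact h1.trans (mul_le_mul_of_nonneg_right hMD (by linarith))
  have hsmY : ∑ m ∈ M, (m : ℝ) ≤ Y * Y := by
    have h1 := sum_le_card_nsmul M (fun m : ℕ => (m : ℝ)) Y hMY
    rw [nsmul_eq_mul] at h1
    exact h1.trans (mul_le_mul_of_nonneg_right hMYc (by linarith))
  have hsu : ∑ m ∈ M, (m : ℝ) * u m ≤ Y ^ 2 / Λ + Y ^ 2 / Λ ^ 2 := by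
    have h1 : ∀ m ∈ M, (m : ℝ) * u m ≤ (if bad m then (m : ℝ) else 0) + (m : ℝ) * (1 / Λ ^ 2) := by
      intro m _
      rw [hu]
      have hm0 : (0 : ℝ) ≤ m := Nat.cast_nonneg m
      have : 0 ≤ (m : ℝ) * (1 / Λ ^ 2) := by positivity
      by_cases hb : bad m
      · simp only [hb, if_true]
        linarith
      · simp only [hb, if_false]
        linarith
    refine (sum_le_sum h1).trans ?_
    rw [sum_add_distrib, ← sum_filter, ← sum_mul]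
    have h2 : ∑ m ∈ M.filter bad, (m : ℝ) ≤ S.card • Y := by
      apply sum_le_card_nsmul
      intro m hm
      rw [mem_filter] at hm
      exact hMY m hm.1
    rw [nsmul_eq_mul] at h2
    have h3 : (S.card : ℝ) * Y ≤ Y / Λ * Y := mul_le_mul_of_nonneg_right hScard (by linarith)
    have h4 : (∑ m ∈ M, (m : ℝ)) * (1 / Λ ^ 2) ≤ Y * Y * (1 / Λ ^ 2) :=
      mul_le_mul_of_nonneg_right hsmY (by positivity)
    have h5 : Y / Λ * Y + Y * Y * (1 / Λ ^ 2) = Y ^ 2 / Λ + Y ^ 2 / Λ ^ 2 := by ring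
    linarith
  -- sum up
  set K : ℝ := C1 * C2 * G ^ 4 * (J + 1) ^ 2 with hK
  have hK0 : 0 ≤ K := by positivity
  have hmain : ∑ m ∈ M, (m : ℝ) * aI2V q m N1 N2 X g1 g2 θ ≤
      K * (D * Y * P + (N1 * N2) ^ 2 / q * (Y ^ 2 / Λ + Y ^ 2 / Λ ^ 2)) := by
    have h1 : ∀ m ∈ M, (m : ℝ) * aI2V q m N1 N2 X g1 g2 θ ≤
        K * ((m : ℝ) * P + (N1 * N2) ^ 2 / q * ((m : ℝ) * u m)) := by
      intro m hm
      have := mul_le_mul_of_nonneg_left (hone m hm) (Nat.cast_nonneg m : (0 : ℝ) ≤ m)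
      refine this.trans (le_of_eq ?_)
      rw [hK]
      ring
    refine (sum_le_sum h1).trans ?_
    rw [← mul_sum, sum_add_distrib, ← sum_mul, ← mul_sum]
    refine mul_le_mul_of_nonneg_left ?_ hK0
    have h2 := mul_le_mul_of_nonneg_right hsm hP0
    have h3 : ((N1 : ℝ) * N2) ^ 2 / q * ∑ m ∈ M, (m : ℝ) * u m ≤
        (N1 * N2) ^ 2 / q * (Y ^ 2 / Λ + Y ^ 2 / Λ ^ 2) :=
      mul_le_mul_of_nonneg_left hsu (by positivity)
    linarith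
  refine hmain.trans ?_
  -- final numerics
  have hKL : K ≤ C1 * C2 * (144 * L ^ 6) := by
    have h1 : G ≤ 2 * L := by rw [hG]; linarith
    have h2 : G ^ 4 ≤ (2 * L) ^ 4 := pow_le_pow_left₀ hG0 h1 4
    have h3 : ((J : ℝ) + 1) ^ 2 ≤ (3 * L) ^ 2 := pow_le_pow_left₀ (by positivity) hJL 2
    have h4 : G ^ 4 * ((J : ℝ) + 1) ^ 2 ≤ (2 * L) ^ 4 * (3 * L) ^ 2 :=
      mul_le_mul h2 h3 (by positivity) (by positivity)
    calc K = C1 * C2 * (G ^ 4 * ((J : ℝ) + 1) ^ 2) := by rw [hK]; ring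
      _ ≤ C1 * C2 * ((2 * L) ^ 4 * (3 * L) ^ 2) := mul_le_mul_of_nonneg_left h4 hC12.le
      _ = _ := by ring
  set E : ℝ := (X : ℝ) ^ (ε / 4) with hE
  have hE0 : 0 < E := by positivity
  have hEL : L ^ (A + 8) ≤ E := hL2
  have hDE : (D : ℝ) ≤ E := hD
  have hqE : (q : ℝ) * (E * E) ≤ X := by
    have h1 : (q : ℝ) * (E * E) ≤ (X : ℝ) ^ (1 - ε) * (E * E) :=
      mul_le_mul_of_nonneg_right hqX (by positivity)
    refine h1.trans ?_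
    rw [hE, ← Real.rpow_add hXpos, ← Real.rpow_add hXpos]
    calc (X : ℝ) ^ (1 - ε + (ε / 4 + ε / 4)) ≤ (X : ℝ) ^ (1 : ℝ) :=
          Real.rpow_le_rpow_of_exponent_le hX1r (by linarith)
      _ = X := Real.rpow_one _
  have hE4 : E * E * (E * E) ≤ X := by
    rw [hE, ← Real.rpow_add hXpos, ← Real.rpow_add hXpos]
    calc (X : ℝ) ^ (ε / 4 + ε / 4 + (ε / 4 + ε / 4)) ≤ (X : ℝ) ^ (1 : ℝ) :=
          Real.rpow_le_rpow_of_exponent_le hX1r (by linarith)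
      _ = X := Real.rpow_one _
  -- D Y P ≤ X ^ 2 / q * (3 * L / E)
  have hDYP : (D : ℝ) * Y * P ≤ X ^ 2 / q * (3 * L / E) := by
    have h1 : (D : ℝ) * Y * P = D * (X * (N2 / N1) + X * N2 / q + X * (1 + Real.log N2)) := by
      rw [hP, hY]
      field_simp
    rw [h1]
    have h2 : (X : ℝ) * (N2 / N1) ≤ X := by
      have : (N2 : ℝ) / N1 ≤ 1 := by rw [div_le_one hN1pos]; exact hN21r
      exact mul_le_of_le_one_right hXpos.le this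
    -- N2 * E * E ≤ X
    have h3 : (N2 : ℝ) * (E * E) ≤ X := by
      have h4 : ((N2 : ℝ) * (E * E)) ^ 2 ≤ (X : ℝ) ^ 2 := by
        have h5 : (N2 : ℝ) ^ 2 ≤ X := by
          calc (N2 : ℝ) ^ 2 = N2 * N2 := sq _
            _ ≤ N1 * N2 := mul_le_mul_of_nonneg_right hN21r hN2pos.le
            _ ≤ X := hNr
        calc ((N2 : ℝ) * (E * E)) ^ 2 = (N2 : ℝ) ^ 2 * (E * E * (E * E)) := by ring
          _ ≤ (X : ℝ) * (X : ℝ) := mul_le_mul h5 hE4 (by positivity) (by positivity)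
          _ = (X : ℝ) ^ 2 := by ring
      exact (pow_le_pow_iff_left₀ (by positivity) (by positivity) (by norm_num)).1 h4
    have h6 : (D : ℝ) * (X * N2 / q) ≤ X ^ 2 / q * (1 / E) := by
      have h7 : (D : ℝ) * N2 * E ≤ X := by
        calc (D : ℝ) * N2 * E ≤ E * N2 * E := by gcongr
          _ = N2 * (E * E) := by ring
          _ ≤ X := h3
      have h8 : (D : ℝ) * (X * N2 / q) = X / q * (D * N2) := by ring
      have h9 : (X : ℝ) ^ 2 / q * (1 / E) = X / q * (X / E) := by ring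
      rw [h8, h9]
      refine mul_le_mul_of_nonneg_left ?_ (by positivity)
      rw [le_div_iff₀ hE0]
      exact h7
    have h10 : (D : ℝ) * (X * (2 + L)) ≤ X ^ 2 / q * ((2 + L) / E) := by
      have h11 : (D : ℝ) * E * q ≤ X := by
        calc (D : ℝ) * E * q ≤ E * E * q := by gcongr
          _ = q * (E * E) := by ring
          _ ≤ X := hqE
      have h12 : (X : ℝ) ^ 2 / q * ((2 + L) / E) = X * (2 + L) * (X / (q * E)) := by
        field_simp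
      rw [h12]
      have h13 : (D : ℝ) ≤ X / (q * E) := by
        rw [le_div_iff₀ (by positivity)]
        linarith
      calc (D : ℝ) * (X * (2 + L)) = X * (2 + L) * D := by ring
        _ ≤ _ := mul_le_mul_of_nonneg_left h13 (by positivity)
    have h14 : (D : ℝ) * (X * (N2 / N1) + X * N2 / q + X * (1 + Real.log N2)) ≤
        D * (X * N2 / q) + D * (X * (2 + L)) := by
      rw [← mul_add]
      refine mul_le_mul_of_nonneg_left ?_ (Nat.cast_nonneg D)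
      have h16 : (X : ℝ) * (1 + Real.log N2) ≤ X * (1 + L) :=
        mul_le_mul_of_nonneg_left (by linarith) hXpos.le
      have h17 : (X : ℝ) * (2 + L) = X + X * (1 + L) := by ring
      linarith
    refine h14.trans ?_
    have h15 : (X : ℝ) ^ 2 / q * (1 / E) + X ^ 2 / q * ((2 + L) / E) ≤
        X ^ 2 / q * (3 * L / E) := by
      rw [← mul_add, ← add_div]
      refine mul_le_mul_of_nonneg_left ?_ (by positivity)
      gcongr
      linarith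
    linarith
  have hfour : ((N1 : ℝ) * N2) ^ 2 / q * (Y ^ 2 / Λ + Y ^ 2 / Λ ^ 2) ≤ X ^ 2 / q * (2 / Λ) := by
    have h1 : ((N1 : ℝ) * N2) ^ 2 / q * (Y ^ 2 / Λ + Y ^ 2 / Λ ^ 2) =
        X ^ 2 / q * (1 / Λ + 1 / Λ ^ 2) := by
      rw [← hYN]
      ring
    rw [h1]
    refine mul_le_mul_of_nonneg_left ?_ (by positivity)
    have h2 : 1 / Λ ^ 2 ≤ 1 / Λ := by
      apply one_div_le_one_div_of_le hΛ0
      rw [sq]
      exact le_mul_of_one_le_left hΛ0.le hΛ1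
    have h3 : 2 / Λ = 1 / Λ + 1 / Λ := by ring
    linarith
  have hE3 : 3 * L / E ≤ 3 / Λ := by
    rw [div_le_div_iff₀ hE0 hΛ0]
    have : L * Λ ≤ E := by
      calc L * Λ = L ^ (A + 8) := by rw [hΛ]; ring
        _ ≤ E := hEL
    linarith
  have htot : D * Y * P + (N1 * N2) ^ 2 / q * (Y ^ 2 / Λ + Y ^ 2 / Λ ^ 2) ≤
      X ^ 2 / q * (5 / Λ) := by
    have h1 : (X : ℝ) ^ 2 / q * (3 * L / E) ≤ X ^ 2 / q * (3 / Λ) :=
      mul_le_mul_of_nonneg_left hE3 (by positivity)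
    have h2 : (X : ℝ) ^ 2 / q * (5 / Λ) = X ^ 2 / q * (3 / Λ) + X ^ 2 / q * (2 / Λ) := by ring
    linarith
  calc K * (D * Y * P + (N1 * N2) ^ 2 / q * (Y ^ 2 / Λ + Y ^ 2 / Λ ^ 2))
      ≤ (C1 * C2 * (144 * L ^ 6)) * (X ^ 2 / q * (5 / Λ)) :=
        mul_le_mul hKL htot (by positivity) (by positivity)
    _ = (X ^ 2 / (q * L ^ A)) * (720 * (C1 * C2) / L) := by
        rw [hΛ]
        field_simp
        ring
    _ ≤ (X ^ 2 / (q * L ^ A)) * 1 := by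
        refine mul_le_mul_of_nonneg_left ?_ (by positivity)
        rw [div_le_one hL0]
        linarith
    _ = _ := mul_one _

end Pool.MP_dd84fd_nt.L2G
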