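import Pool.Agent.Lib.MP_dd84fd_nt.L2G.Defs

set_option autoImplicit false

namespace Pool.MP_dd84fd_nt.L2G

open Finset Pool.MP_67663b_nt.Odd

theorem Maj_cover (P δ θ : ℝ) (h : θ ∈ Maj P δ) : ∃ i : ℕ, (2 : ℝ) ^ i ≤ P ∧ θ ∈ Arc (2 ^ i) δ := by
  obtain ⟨r, hr1, hrP, y, hy, hθ⟩ := h
  have h1 : 2 ^ Nat.log 2 r ≤ r := Nat.pow_log_le_self 2 (by omega)
  have h2 : r < 2 ^ (Nat.log 2 r + 1) := Nat.lt_pow_succ_log_self (by norm_num) r
  refine ⟨Nat.log 2 r, ?_, r, hr1, h1, ?_, y, hy, hθ⟩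
  · calc (2 : ℝ) ^ Nat.log 2 r = ((2 ^ Nat.log 2 r : ℕ) : ℝ) := by push_cast; rfl
      _ ≤ r := by exact_mod_cast h1
      _ ≤ P := hrP
  · rw [pow_succ] at h2
    omega

theorem Arc_shift (R : ℕ) (δ θ : ℝ) (d b : ℕ) (hR : 1 ≤ R) (hd : 1 ≤ d) (h : θ ∈ Arc R δ) :
    ∃ i : ℕ, 2 ^ i ≤ 2 * R * d ∧ θ + (b : ℝ) / d ∈ Arc (2 ^ i) δ := by
  obtain ⟨r, hr1, hRr, hr2, y, hy, hθ⟩ := h
  have hr0 : (r : ℚ) ≠ 0 := by exact_mod_cast (by omega : r ≠ 0)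
  have hd0 : (d : ℚ) ≠ 0 := by exact_mod_cast (by omega : d ≠ 0)
  have hr0' : (r : ℝ) ≠ 0 := by exact_mod_cast (by omega : r ≠ 0)
  have hd0' : (d : ℝ) ≠ 0 := by exact_mod_cast (by omega : d ≠ 0)
  obtain ⟨q, hq⟩ : ∃ q : ℚ, q = (y : ℚ) / r + (b : ℚ) / d := ⟨_, rfl⟩
  have hden : q.den ∣ r * d := by
    have h1 : q = ((y * d + b * r : ℤ) : ℚ) / ((r * d : ℤ) : ℚ) := by
      rw [hq]
      push_cast
      field_simp
    have h2 := Rat.den_dvd (y * d + b * r : ℤ) (r * d : ℤ)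
    rw [Rat.divInt_eq_div, ← h1] at h2
    exact_mod_cast h2
  have hle : q.den ≤ r * d := Nat.le_of_dvd (Nat.mul_pos (by omega) (by omega)) hden
  have hqpos : 0 < q.den := q.den_pos
  have hcop : IsCoprime q.num (q.den : ℤ) := by
    rw [Int.isCoprime_iff_nat_coprime]
    simpa using q.reduced
  have h1 : 2 ^ Nat.log 2 q.den ≤ q.den := Nat.pow_log_le_self 2 (by omega)
  have h2 : q.den < 2 ^ (Nat.log 2 q.den + 1) := Nat.lt_pow_succ_log_self (by norm_num) _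
  refine ⟨Nat.log 2 q.den, ?_, q.den, hqpos, h1, ?_, q.num, hcop, ?_⟩
  · calc 2 ^ Nat.log 2 q.den ≤ q.den := h1
      _ ≤ r * d := hle
      _ ≤ 2 * R * d := Nat.mul_le_mul_right _ (by omega)
  · rw [pow_succ] at h2
    omega
  · have h3 : ((q.num : ℝ) / (q.den : ℝ)) = (y : ℝ) / r + (b : ℝ) / d := by
      have h4 : ((q : ℚ) : ℝ) = (y : ℝ) / r + (b : ℝ) / d := by
        rw [hq]
        push_cast
        rfl
      rw [← h4]
      exact_mod_cast (Rat.num_div_den q)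
    rw [h3]
    have h5 : θ + (b : ℝ) / d - ((y : ℝ) / r + (b : ℝ) / d) = θ - y / r := by ring
    rw [h5]
    exact hθ

theorem Maj_dirichlet (X : ℕ) (B θ : ℝ) (hX : 1 ≤ X) (hB : 1 ≤ B) (hBX : B ≤ X)
    (h : θ ∉ Maj B (B / X)) : ∃ (r : ℕ) (c : ℤ), B < r ∧ (r : ℝ) ≤ X / B ∧ IsCoprime c (r : ℤ) ∧
      |θ - c / r| ≤ B / (r * X) := by
  have hB0 : 0 < B := by linarith
  have hX0 : (0 : ℝ) < X := by exact_mod_cast hX
  have hn : 0 < ⌊(X : ℝ) / B⌋₊ := Nat.floor_pos.2 (by rwa [le_div_iff₀ hB0, one_mul])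
  obtain ⟨q, hq1, hq2⟩ := Real.exists_rat_abs_sub_le_and_den_le θ hn
  have hqpos : (0 : ℝ) < q.den := by exact_mod_cast q.den_pos
  have hcop : IsCoprime q.num (q.den : ℤ) := by
    rw [Int.isCoprime_iff_nat_coprime]
    simpa using q.reduced
  have hcast : (q : ℝ) = (q.num : ℝ) / (q.den : ℝ) := by
    exact_mod_cast (Rat.num_div_den q).symm
  have h1 : (q.den : ℝ) ≤ X / B :=
    (by exact_mod_cast hq2 : (q.den : ℝ) ≤ (⌊(X : ℝ) / B⌋₊ : ℝ)).trans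
      (Nat.floor_le (by positivity))
  have h2 : |θ - q.num / q.den| ≤ B / (q.den * X) := by
    rw [← hcast]
    refine hq1.trans ?_
    rw [div_le_div_iff₀ (by positivity) (by positivity)]
    have h3 : (X : ℝ) / B < ⌊(X : ℝ) / B⌋₊ + 1 := Nat.lt_floor_add_one _
    rw [div_lt_iff₀ hB0] at h3
    nlinarith
  refine ⟨q.den, q.num, ?_, h1, hcop, h2⟩
  by_contra hle
  push Not at hle
  refine h ⟨q.den, q.den_pos, hle, q.num, hcop, h2.trans ?_⟩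
  have h4 : (1 : ℝ) ≤ q.den := by exact_mod_cast q.den_pos
  rw [div_le_div_iff₀ (by positivity) hX0]
  nlinarith [mul_le_mul_of_nonneg_right h4 hX0.le]

end Pool.MP_dd84fd_nt.L2G
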