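import Pool.Agent.Lib.MP_dd84fd_nt.L2G.Avg
import Pool.Agent.Lib.MP_dd84fd_nt.L2G.CvBasic
import Pool.Agent.Lib.MP_67663b_nt.OddB.LSieve
import Pool.Agent.Lib.MP_67663b_nt.OddB.Montgomery
import Pool.Agent.Lib.MP_67663b_nt.OddB.GSum

set_option autoImplicit false

namespace Pool.MP_dd84fd_nt.L2G

open Finset Pool.MP_67663b_nt.Odd

private lemma arcL2_frac_eq {m m' b b' : ℕ} (hb : b < m) (hb' : b' < m') (hc : Nat.Coprime m b)
    (hc' : Nat.Coprime m' b') (h : ((m : ℤ) * m') ∣ (b : ℤ) * m' - b' * m) :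
    m = m' ∧ b = b' := by
  have h1 : (m' : ℤ) ∣ (b' : ℤ) * m := by
    have h2 : (m' : ℤ) ∣ (b : ℤ) * m' - b' * m := dvd_trans (dvd_mul_left _ _) h
    have h3 : (m' : ℤ) ∣ (b : ℤ) * m' := dvd_mul_left _ _
    have h4 := dvd_sub h3 h2
    have h5 : (b : ℤ) * m' - ((b : ℤ) * m' - b' * m) = b' * m := by ring
    rwa [h5] at h4
  have h2 : (m : ℤ) ∣ (b : ℤ) * m' := by
    have h2 : (m : ℤ) ∣ (b : ℤ) * m' - b' * m := dvd_trans (dvd_mul_right _ _) h
    have h3 : (m : ℤ) ∣ (b' : ℤ) * m := dvd_mul_left _ _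
    have h4 := dvd_add h2 h3
    have h5 : (b : ℤ) * m' - b' * m + b' * m = b * m' := by ring
    rwa [h5] at h4
  have h1' : m' ∣ b' * m := by exact_mod_cast h1
  have h2' : m ∣ b * m' := by exact_mod_cast h2
  have h3 : m' ∣ m := hc'.dvd_of_dvd_mul_left h1'
  have h4 : m ∣ m' := hc.dvd_of_dvd_mul_left h2'
  have h5 : m = m' := Nat.dvd_antisymm h4 h3
  subst h5
  refine ⟨rfl, ?_⟩
  have hm : (m : ℤ) ≠ 0 := by
    have : 0 < m := by omega
    positivity
  have h6 : (m : ℤ) ∣ (b : ℤ) - b' := by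
    have h7 : (b : ℤ) * m - b' * m = m * (b - b') := by ring
    rw [h7] at h
    exact Int.dvd_of_mul_dvd_mul_left hm h
  obtain ⟨k, hk⟩ := h6
  have hk0 : k = 0 := by
    by_contra hk0
    rcases lt_or_gt_of_ne hk0 with h8 | h8
    · have : (m : ℤ) * k ≤ m * (-1) := mul_le_mul_of_nonneg_left (by omega) (by positivity)
      omega
    · have : (m : ℤ) * 1 ≤ m * k := mul_le_mul_of_nonneg_left (by omega) (by positivity)
      omega
  rw [hk0, mul_zero] at hk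
  omega

private lemma arcL2_coprime {R m r : ℕ} (hr : 1 ≤ r) (hr2 : r < 2 * R)
    (hmp : ∀ p : ℕ, p.Prime → p < 2 * R → ¬ p ∣ m) : Nat.Coprime m r := by
  by_contra hcon
  obtain ⟨p, hp, hpd⟩ := Nat.exists_prime_and_dvd hcon
  have h1 : p ∣ m := dvd_trans hpd (Nat.gcd_dvd_left m r)
  have h2 : p ∣ r := dvd_trans hpd (Nat.gcd_dvd_right m r)
  exact hmp p hp (lt_of_le_of_lt (Nat.le_of_dvd (by omega) h2) hr2) h1

private lemma arcL2_unique {R Z : ℕ} {δ t : ℝ} (hδ : 2 * δ * ((2 * R) ^ 2 * (Z : ℝ) ^ 2) < 1)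
    (hδ0 : 0 ≤ δ) {m m' b b' : ℕ} (hm : 1 ≤ m) (hmZ : m ≤ Z) (hm' : 1 ≤ m') (hmZ' : m' ≤ Z)
    (hmp : ∀ p : ℕ, p.Prime → p < 2 * R → ¬ p ∣ m) (hmp' : ∀ p : ℕ, p.Prime → p < 2 * R → ¬ p ∣ m')
    (hb : b < m) (hb' : b' < m') (hc : Nat.Coprime m b) (hc' : Nat.Coprime m' b')
    (h1 : t - (b : ℝ) / m ∈ Arc R δ) (h2 : t - (b' : ℝ) / m' ∈ Arc R δ) : m = m' ∧ b = b' := by
  obtain ⟨r, hr1, -, hr2, y, -, hy⟩ := h1
  obtain ⟨r', hr1', -, hr2', y', -, hy'⟩ := h2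
  apply arcL2_frac_eq hb hb' hc hc'
  have hmr : (0 : ℝ) < m := by exact_mod_cast hm
  have hmr' : (0 : ℝ) < m' := by exact_mod_cast hm'
  have hrr : (0 : ℝ) < r := by exact_mod_cast hr1
  have hrr' : (0 : ℝ) < r' := by exact_mod_cast hr1'
  set N : ℤ := (b * m' - b' * m) * (r * r') + (y * r' - y' * r) * (m * m') with hN
  have e1 : (t - (b' : ℝ) / m' - y' / r') - (t - (b : ℝ) / m - y / r) =
      (N : ℝ) / ((m * m') * (r * r')) := by
    rw [hN]
    push_cast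
    field_simp
    ring
  have h3 : |(N : ℝ) / ((m * m') * (r * r'))| ≤ 2 * δ := by
    rw [← e1]
    refine (abs_sub _ _).trans ?_
    linarith
  have hN0 : N = 0 := by
    by_contra hN0
    have h4 : (1 : ℝ) ≤ |(N : ℝ)| := by
      rw [← Int.cast_abs]
      exact_mod_cast Int.one_le_abs hN0
    rw [abs_div, abs_of_pos (by positivity : (0 : ℝ) < (m * m') * (r * r')),
      div_le_iff₀ (by positivity)] at h3
    have h5 : (m : ℝ) ≤ Z := by exact_mod_cast hmZ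
    have h6 : (m' : ℝ) ≤ Z := by exact_mod_cast hmZ'
    have h7 : (r : ℝ) ≤ 2 * R := by exact_mod_cast hr2.le
    have h8 : (r' : ℝ) ≤ 2 * R := by exact_mod_cast hr2'.le
    have h9 : (m : ℝ) * m' ≤ Z * Z := mul_le_mul h5 h6 hmr'.le (by positivity)
    have h10 : (r : ℝ) * r' ≤ (2 * R) * (2 * R) := mul_le_mul h7 h8 hrr'.le (by positivity)
    have h11 : ((m : ℝ) * m') * (r * r') ≤ (Z * Z) * ((2 * R) * (2 * R)) :=
      mul_le_mul h9 h10 (by positivity) (by positivity)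
    have h12 : 2 * δ * (((m : ℝ) * m') * (r * r')) ≤ 2 * δ * ((Z * Z) * ((2 * R) * (2 * R))) :=
      mul_le_mul_of_nonneg_left h11 (by linarith)
    have h13 : 2 * δ * (((Z : ℝ) * Z) * ((2 * R) * (2 * R))) =
        2 * δ * ((2 * R) ^ 2 * (Z : ℝ) ^ 2) := by ring
    linarith
  have h4 : ((b : ℤ) * m' - b' * m) * (r * r') = (m * m') * (y' * r - y * r') := by
    have : (b * m' - b' * m) * (r * r') + (y * r' - y' * r) * (m * m') = (0 : ℤ) := by
      rw [← hN, hN0]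
    linear_combination this
  have hcop : IsCoprime ((m : ℤ) * m') ((r : ℤ) * r') := by
    have k1 := arcL2_coprime hr1 hr2 hmp
    have k2 := arcL2_coprime hr1' hr2' hmp
    have k3 := arcL2_coprime hr1 hr2 hmp'
    have k4 := arcL2_coprime hr1' hr2' hmp'
    have k5 : Nat.Coprime (m * m') (r * r') :=
      Nat.Coprime.mul_left (Nat.Coprime.mul_right k1 k2) (Nat.Coprime.mul_right k3 k4)
    have := Nat.isCoprime_iff_coprime.2 k5
    push_cast at this
    exact this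
  exact hcop.dvd_of_dvd_mul_right (Dvd.intro _ h4.symm)

private lemma arcL2_period {R : ℕ} {δ : ℝ} (θ : ℝ) : θ + 1 ∈ Arc R δ ↔ θ ∈ Arc R δ := by
  constructor
  · rintro ⟨r, h1, h2, h3, y, hy, h4⟩
    have hr : (0 : ℝ) < r := by exact_mod_cast h1
    refine ⟨r, h1, h2, h3, y + r * (-1), IsCoprime.add_mul_left_left hy (-1), ?_⟩
    have : θ - ((y + r * (-1) : ℤ) : ℝ) / r = θ + 1 - y / r := by
      push_cast
      field_simp
      ring
    rw [this]
    exact h4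
  · rintro ⟨r, h1, h2, h3, y, hy, h4⟩
    have hr : (0 : ℝ) < r := by exact_mod_cast h1
    refine ⟨r, h1, h2, h3, y + r * 1, IsCoprime.add_mul_left_left hy 1, ?_⟩
    have : θ + 1 - ((y + r * 1 : ℤ) : ℝ) / r = θ - y / r := by
      push_cast
      field_simp
      ring
    rw [this]
    exact h4

private lemma arcL2_growth (B : ℕ) : ∃ X0 : ℕ, ∀ X : ℕ, X0 ≤ X →
    8 * Real.log X ^ B < (X : ℝ) ^ (1 / 2 : ℝ) ∧ Real.log X ^ 2 ≤ (X : ℝ) ^ (1 / 2 : ℝ) ∧
      14 ≤ Real.log X ∧ (1 : ℝ) ≤ X := by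
  have h1 : (fun x : ℝ => Real.log x ^ (B : ℝ)) =o[Filter.atTop] fun x => x ^ (1 / 2 : ℝ) :=
    isLittleO_log_rpow_rpow_atTop _ (by norm_num)
  have h2 : (fun x : ℝ => Real.log x ^ ((2 : ℕ) : ℝ)) =o[Filter.atTop] fun x => x ^ (1 / 2 : ℝ) :=
    isLittleO_log_rpow_rpow_atTop _ (by norm_num)
  have h3 := (tendsto_natCast_atTop_atTop (R := ℝ)).eventually
    (((h1.bound (c := 1 / 16) (by norm_num)).and (h2.bound (c := 1) (by norm_num))).and
      ((Real.tendsto_log_atTop.eventually_ge_atTop 14).and (Filter.eventually_ge_atTop (1 : ℝ))))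
  obtain ⟨X0, hX0⟩ := Filter.eventually_atTop.1 h3
  refine ⟨X0, fun X hX => ?_⟩
  obtain ⟨⟨h4, h5⟩, h6, h7⟩ := hX0 X hX
  have hX1 : (0 : ℝ) < X := by linarith
  have hp : 0 < (X : ℝ) ^ (1 / 2 : ℝ) := Real.rpow_pos_of_pos hX1 _
  rw [Real.norm_of_nonneg hp.le, Real.rpow_natCast] at h4 h5
  have h8 := (Real.le_norm_self _).trans h4
  have h9 := (Real.le_norm_self _).trans h5
  exact ⟨by linarith, by linarith, h6, h7⟩

theorem arc_L2 : ∃ C : ℝ, 0 < C ∧ ∀ B0 : ℕ, ∃ X0 : ℕ, ∀ X : ℕ, X0 ≤ X →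
    ∀ (R : ℕ) (δ : ℝ), 1 ≤ R → (R : ℝ) ≤ Real.log X ^ B0 → 0 ≤ δ → δ ≤ Real.log X ^ B0 / X →
    av (gr X) ((Arc R δ).indicator (fun θ => ‖LH X θ‖ ^ 2)) ≤ C * X * (1 + Real.log R) := by
  classical
  obtain ⟨c, hc, hgs⟩ := gsum_ge
  refine ⟨60 / c + 2, by positivity, fun B0 => ?_⟩
  obtain ⟨X0, hX0⟩ := arcL2_growth (3 * B0)
  refine ⟨X0, fun X hX R δ hR hRL hδ0 hδ => ?_⟩
  obtain ⟨hg1, hg2, hlog, hX1⟩ := hX0 X hX
  have hXpos : (0 : ℝ) < X := by linarith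
  have hRr : (1 : ℝ) ≤ R := by exact_mod_cast hR
  set L := Real.log X with hL
  have hLpos : 0 < L := by linarith
  set Z : ℕ := ⌊(X : ℝ) ^ (1 / 4 : ℝ)⌋₊ with hZ
  have hx4 : (1 : ℝ) ≤ (X : ℝ) ^ (1 / 4 : ℝ) := Real.one_le_rpow hX1 (by norm_num)
  have hZle : (Z : ℝ) ≤ (X : ℝ) ^ (1 / 4 : ℝ) := Nat.floor_le (by linarith)
  have hZ1 : 1 ≤ Z := Nat.le_floor (by simpa using hx4)
  have hZ1r : (1 : ℝ) ≤ Z := by exact_mod_cast hZ1
  have hZge : (X : ℝ) ^ (1 / 4 : ℝ) / 2 ≤ Z := by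
    have := Nat.lt_floor_add_one ((X : ℝ) ^ (1 / 4 : ℝ))
    rw [← hZ] at this
    linarith
  have hx42 : ((X : ℝ) ^ (1 / 4 : ℝ)) ^ 2 = (X : ℝ) ^ (1 / 2 : ℝ) := by
    rw [← Real.rpow_natCast, ← Real.rpow_mul hXpos.le]
    norm_num
  have hx22 : (X : ℝ) ^ (1 / 2 : ℝ) * (X : ℝ) ^ (1 / 2 : ℝ) = X := by
    rw [← Real.rpow_add hXpos]
    norm_num
  have hx2 : 0 < (X : ℝ) ^ (1 / 2 : ℝ) := by positivity
  have hx12 : (1 : ℝ) ≤ (X : ℝ) ^ (1 / 2 : ℝ) := Real.one_le_rpow hX1 (by norm_num)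
  have hZ2 : (Z : ℝ) ^ 2 ≤ (X : ℝ) ^ (1 / 2 : ℝ) := by
    rw [← hx42]
    exact pow_le_pow_left₀ (by positivity) hZle 2
  have hZX : Z ≤ X := by
    have h1 : (Z : ℝ) ≤ X := by
      calc (Z : ℝ) ≤ (Z : ℝ) ^ 2 := by nlinarith
        _ ≤ (X : ℝ) ^ (1 / 2 : ℝ) := hZ2
        _ ≤ (X : ℝ) ^ (1 / 2 : ℝ) * (X : ℝ) ^ (1 / 2 : ℝ) := by nlinarith
        _ = X := hx22
    exact_mod_cast h1
  have hlogZ : L / 5 ≤ Real.log Z := by
    have h1 : Real.log ((X : ℝ) ^ (1 / 4 : ℝ) / 2) ≤ Real.log Z :=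
      Real.log_le_log (by positivity) hZge
    rw [Real.log_div (by positivity) (by norm_num), Real.log_rpow hXpos] at h1
    have h2 : Real.log 2 ≤ 0.7 := by
      have := Real.log_two_lt_d9
      linarith
    linarith
  have hsmall : 2 * δ * ((2 * R) ^ 2 * (Z : ℝ) ^ 2) < 1 := by
    have h1 : (R : ℝ) ^ 2 ≤ (L ^ B0) ^ 2 := pow_le_pow_left₀ (by positivity) hRL 2
    have h2 : 2 * δ * ((2 * R) ^ 2 * (Z : ℝ) ^ 2) ≤
        2 * (L ^ B0 / X) * ((4 * (L ^ B0) ^ 2) * (X : ℝ) ^ (1 / 2 : ℝ)) := by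
      apply mul_le_mul (by linarith) _ (by positivity) (by positivity)
      apply mul_le_mul _ hZ2 (by positivity) (by positivity)
      rw [mul_pow]
      norm_num
      linarith
    have h3 : 2 * (L ^ B0 / X) * ((4 * (L ^ B0) ^ 2) * (X : ℝ) ^ (1 / 2 : ℝ)) =
        (8 * L ^ (3 * B0)) / (X : ℝ) ^ (1 / 2 : ℝ) := by
      rw [eq_div_iff hx2.ne']
      have h4 : L ^ (3 * B0) = L ^ B0 * (L ^ B0) ^ 2 := by
        rw [← pow_mul, ← pow_add]
        congr 1
        ring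
      rw [h4]
      have h5 : 2 * (L ^ B0 / X) * ((4 * (L ^ B0) ^ 2) * (X : ℝ) ^ (1 / 2 : ℝ)) *
          (X : ℝ) ^ (1 / 2 : ℝ) = 8 * (L ^ B0 * (L ^ B0) ^ 2) *
          (((X : ℝ) ^ (1 / 2 : ℝ) * (X : ℝ) ^ (1 / 2 : ℝ)) / X) := by ring
      rw [h5, hx22, div_self hXpos.ne', mul_one]
    rw [h3] at h2
    refine lt_of_le_of_lt h2 ?_
    rw [div_lt_one hx2]
    exact hg1
  -- the truncated function
  set la' : ℕ → ℝ := fun n => if Z < n then la X n else 0 with hla'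
  set L' : ℝ → ℂ := Se X la' with hL'
  set A : Finset ℕ := (Icc 1 X).filter (fun n => n.Prime ∧ Z < n) with hA
  have hL'eq : ∀ θ, L' θ = ∑ n ∈ A, (la X n : ℂ) * ee (n * θ) := by
    intro θ
    rw [hL', Se, hA, Finset.sum_filter]
    refine Finset.sum_congr rfl fun n _ => ?_
    rw [hla']
    by_cases h1 : Z < n
    · by_cases h2 : n.Prime
      · simp [h1, h2]
      · simp [h1, h2, la]
    · simp [h1]
  set P : Finset ℕ := (range (2 * R)).filter Nat.Prime with hP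
  set M : Finset ℕ := (Icc 1 Z).filter (fun r => Squarefree r ∧ ∀ p ∈ P, ¬ p ∣ r) with hM
  set G : ℝ := ∑ r ∈ M, 1 / (Nat.totient r : ℝ) with hG
  have hGge : c * Real.log Z / (1 + Real.log (1 + (P.card : ℝ))) ≤ G :=
    hgs Z P hZ1 fun p hp => (Finset.mem_filter.1 hp).2
  have hPcard : (P.card : ℝ) ≤ 2 * R := by
    have h1 : P.card ≤ 2 * R := by
      refine (Finset.card_filter_le _ _).trans ?_
      rw [Finset.card_range]
    exact_mod_cast h1
  have hlogR : 0 ≤ Real.log R := Real.log_nonneg hRr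
  have hden : 1 + Real.log (1 + (P.card : ℝ)) ≤ 3 * (1 + Real.log R) := by
    have h1 : Real.log (1 + (P.card : ℝ)) ≤ Real.log (3 * R) :=
      Real.log_le_log (by positivity) (by linarith)
    rw [Real.log_mul (by norm_num) (by linarith)] at h1
    have h2 : Real.log 3 ≤ 2 := by
      have h3 : Real.log 3 ≤ 3 - 1 := Real.log_le_sub_one_of_pos (by norm_num)
      linarith
    linarith
  have hden0 : 0 < 1 + Real.log (1 + (P.card : ℝ)) := by
    have : 0 ≤ Real.log (1 + (P.card : ℝ)) := Real.log_nonneg (by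
      have : (0 : ℝ) ≤ P.card := by positivity
      linarith)
    linarith
  have hGlow : c * L / (15 * (1 + Real.log R)) ≤ G := by
    refine le_trans ?_ hGge
    rw [div_le_div_iff₀ (by positivity) hden0]
    have h1 : c * L * (1 + Real.log (1 + (P.card : ℝ))) ≤ c * L * (3 * (1 + Real.log R)) :=
      mul_le_mul_of_nonneg_left hden (by positivity)
    have h2 : c * (L / 5) * (15 * (1 + Real.log R)) ≤ c * Real.log Z * (15 * (1 + Real.log R)) := by
      apply mul_le_mul_of_nonneg_right _ (by positivity)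
      exact mul_le_mul_of_nonneg_left hlogZ hc.le
    nlinarith
  have hGpos : 0 < G := lt_of_lt_of_le (by positivity) hGlow
  have hMfacts : ∀ m ∈ M, 1 ≤ m ∧ m ≤ Z ∧ Squarefree m ∧
      ∀ p : ℕ, p.Prime → p < 2 * R → ¬ p ∣ m := by
    intro m hm
    obtain ⟨h1, h2, h3⟩ := Finset.mem_filter.1 hm
    obtain ⟨h4, h5⟩ := Finset.mem_Icc.1 h1
    exact ⟨h4, h5, h2, fun p hp hpR => h3 p (Finset.mem_filter.2 ⟨Finset.mem_range.2 hpR, hp⟩)⟩
  -- Montgomery
  have hmont : ∀ m ∈ M, ∀ θ, 1 / (Nat.totient m : ℝ) * ‖L' θ‖ ^ 2 ≤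
      ∑ b ∈ (range m).filter (Nat.Coprime m), ‖L' (θ + (b : ℝ) / m)‖ ^ 2 := by
    intro m hm θ
    obtain ⟨h1, h2, h3, h4⟩ := hMfacts m hm
    have hφ : (0 : ℝ) < Nat.totient m := by exact_mod_cast Nat.totient_pos.2 (by omega)
    have h5 := montgomery h3 A (by
      intro n hn
      obtain ⟨hn1, hn2, hn3⟩ := Finset.mem_filter.1 hn
      refine (Nat.Prime.coprime_iff_not_dvd hn2).2 fun hdvd => ?_
      have := Nat.le_of_dvd (by omega) hdvd
      omega) (fun n => (la X n : ℂ)) θ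
    rw [← hL'eq] at h5
    have h6 : ∀ b ∈ (range m).filter (Nat.Coprime m),
        ‖∑ n ∈ A, (la X n : ℂ) * ee (n * (θ + (b : ℝ) / m))‖ ^ 2 = ‖L' (θ + (b : ℝ) / m)‖ ^ 2 :=
      fun b _ => by rw [hL'eq]
    rw [Finset.sum_congr rfl h6] at h5
    rw [one_div, inv_mul_le_iff₀ hφ]
    exact h5
  set ind : ℝ → ℝ := (Arc R δ).indicator (fun _ => (1 : ℝ)) with hind
  have hind0 : ∀ θ, 0 ≤ ind θ := fun θ => Set.indicator_nonneg (fun _ _ => zero_le_one) θ
  have hindper : ∀ θ, ind (θ + 1) = ind θ := by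
    intro θ
    rw [hind]
    by_cases h : θ ∈ Arc R δ
    · rw [Set.indicator_of_mem h, Set.indicator_of_mem ((arcL2_period θ).2 h)]
    · rw [Set.indicator_of_notMem h, Set.indicator_of_notMem fun h' => h ((arcL2_period θ).1 h')]
  have hL'per : ∀ θ, L' (θ + 1) = L' θ := by
    intro θ
    have := Se_add_int X la' θ 1
    simpa using this
  have hgr : 0 < gr X := by
    have := lt_gr X
    omega
  -- the count
  have hcount : ∀ θ, ∑ x ∈ M.sigma (fun m => (range m).filter (Nat.Coprime m)),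
      ind (θ - (x.2 : ℝ) / x.1) ≤ 1 := by
    intro θ
    have h1 : ∑ x ∈ M.sigma (fun m => (range m).filter (Nat.Coprime m)),
        ind (θ - (x.2 : ℝ) / x.1) =
        (((M.sigma (fun m => (range m).filter (Nat.Coprime m))).filter
          (fun x => θ - (x.2 : ℝ) / x.1 ∈ Arc R δ)).card : ℝ) := by
      rw [Finset.card_filter]
      push_cast
      refine Finset.sum_congr rfl fun x _ => ?_
      rw [hind, Set.indicator_apply]
    rw [h1]
    have h2 : ((M.sigma (fun m => (range m).filter (Nat.Coprime m))).filter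
        (fun x => θ - (x.2 : ℝ) / x.1 ∈ Arc R δ)).card ≤ 1 := by
      rw [Finset.card_le_one]
      rintro ⟨m, b⟩ hx ⟨m', b'⟩ hy
      obtain ⟨hx1, hx2⟩ := Finset.mem_filter.1 hx
      obtain ⟨hy1, hy2⟩ := Finset.mem_filter.1 hy
      obtain ⟨hxm, hxb⟩ := Finset.mem_sigma.1 hx1
      obtain ⟨hym, hyb⟩ := Finset.mem_sigma.1 hy1
      obtain ⟨k1, k2, -, k4⟩ := hMfacts m hxm
      obtain ⟨k1', k2', -, k4'⟩ := hMfacts m' hym
      obtain ⟨l1, l2⟩ := Finset.mem_filter.1 hxb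
      obtain ⟨l1', l2'⟩ := Finset.mem_filter.1 hyb
      have := arcL2_unique hsmall hδ0 k1 k2 k1' k2' k4 k4' (Finset.mem_range.1 l1)
        (Finset.mem_range.1 l1') l2 l2' hx2 hy2
      obtain ⟨rfl, rfl⟩ := this
      rfl
    exact_mod_cast h2
  -- main inequality
  have hmain : G * av (gr X) (fun θ => ind θ * ‖L' θ‖ ^ 2) ≤ av (gr X) (fun θ => ‖L' θ‖ ^ 2) := by
    rw [← av_mul_left]
    have h1 : av (gr X) (fun θ => G * (ind θ * ‖L' θ‖ ^ 2)) ≤
        av (gr X) (fun θ => ∑ x ∈ M.sigma (fun m => (range m).filter (Nat.Coprime m)),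
          ind θ * ‖L' (θ + (x.2 : ℝ) / x.1)‖ ^ 2) := by
      apply av_mono
      intro θ
      have h2 : G * ‖L' θ‖ ^ 2 ≤ ∑ x ∈ M.sigma (fun m => (range m).filter (Nat.Coprime m)),
          ‖L' (θ + (x.2 : ℝ) / x.1)‖ ^ 2 := by
        rw [hG, Finset.sum_mul, Finset.sum_sigma]
        exact Finset.sum_le_sum fun m hm => hmont m hm θ
      rw [← Finset.mul_sum]
      calc G * (ind θ * ‖L' θ‖ ^ 2) = ind θ * (G * ‖L' θ‖ ^ 2) := by ring
        _ ≤ _ := mul_le_mul_of_nonneg_left h2 (hind0 θ)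
    refine h1.trans ?_
    rw [av_sum]
    have h3 : ∀ x ∈ M.sigma (fun m => (range m).filter (Nat.Coprime m)),
        av (gr X) (fun θ => ind θ * ‖L' (θ + (x.2 : ℝ) / x.1)‖ ^ 2) =
        av (gr X) (fun θ => ind (θ - (x.2 : ℝ) / x.1) * ‖L' θ‖ ^ 2) := by
      rintro ⟨m, b⟩ hx
      obtain ⟨hxm, hxb⟩ := Finset.mem_sigma.1 hx
      obtain ⟨k1, k2, -, -⟩ := hMfacts m hxm
      have h4 := av_shift hgr (f := fun θ => ind (θ - (b : ℝ) / m) * ‖L' θ‖ ^ 2) (by
        intro θ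
        have e1 : θ + 1 - (b : ℝ) / m = θ - (b : ℝ) / m + 1 := by ring
        rw [e1, hindper, hL'per]) (d := m) (by omega) (dvd_gr k1 (by omega)) (b : ℤ)
      rw [← h4]
      congr 1
      funext θ
      have e1 : θ + ((b : ℤ) : ℝ) / m - (b : ℝ) / m = θ := by
        push_cast
        ring
      have e2 : ((b : ℤ) : ℝ) = (b : ℝ) := by push_cast; ring
      rw [e1, e2]
    rw [Finset.sum_congr rfl h3, ← av_sum]
    apply av_mono
    intro θ
    rw [← Finset.sum_mul]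
    have := mul_le_mul_of_nonneg_right (hcount θ) (by positivity : (0 : ℝ) ≤ ‖L' θ‖ ^ 2)
    rwa [one_mul] at this
  have hL'L2 : av (gr X) (fun θ => ‖L' θ‖ ^ 2) ≤ 2 * X * L := by
    rw [hL', av_Se]
    refine le_trans ?_ (sum_la_sq_le X)
    apply Finset.sum_le_sum
    intro n _
    rw [hla']
    simp only
    split_ifs
    · exact le_rfl
    · rw [zero_pow two_ne_zero]
      positivity
  have hdiffL2 : av (gr X) (fun θ => ‖LH X θ - L' θ‖ ^ 2) ≤ X := by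
    have h1 : ∀ θ, LH X θ - L' θ = Se X (fun n => la X n - la' n) θ := by
      intro θ
      rw [LH, hL', Se, Se, Se, ← Finset.sum_sub_distrib]
      refine Finset.sum_congr rfl fun n _ => ?_
      push_cast
      ring
    have h2 : (fun θ => ‖LH X θ - L' θ‖ ^ 2) =
        fun θ => ‖Se X (fun n => la X n - la' n) θ‖ ^ 2 := by
      funext θ
      rw [h1]
    rw [h2, av_Se]
    have h3 : ∑ n ∈ Icc 1 X, (la X n - la' n) ^ 2 ≤ ∑ n ∈ Icc 1 Z, L ^ 2 := by
      have h4 : ∑ n ∈ Icc 1 X, (la X n - la' n) ^ 2 = ∑ n ∈ Icc 1 Z, (la X n - la' n) ^ 2 := by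
        symm
        apply Finset.sum_subset
        · exact Finset.Icc_subset_Icc_right hZX
        · intro n hn hn'
          have h5 : Z < n := by
            by_contra hcon
            push Not at hcon
            exact hn' (Finset.mem_Icc.2 ⟨(Finset.mem_Icc.1 hn).1, hcon⟩)
          rw [hla']
          simp only
          rw [if_pos h5]
          ring
      rw [h4]
      apply Finset.sum_le_sum
      intro n hn
      obtain ⟨hn1, hn2⟩ := Finset.mem_Icc.1 hn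
      rw [hla']
      simp only
      rw [if_neg (by omega), sub_zero]
      rw [la]
      split_ifs with h5
      · have h6 : (1 : ℝ) ≤ n := by exact_mod_cast hn1
        have h7 : Real.log n ≤ L := Real.log_le_log (by linarith) (by exact_mod_cast h5.2)
        exact pow_le_pow_left₀ (Real.log_nonneg h6) h7 2
      · rw [zero_pow two_ne_zero]
        positivity
    refine h3.trans ?_
    rw [Finset.sum_const, Nat.card_Icc, nsmul_eq_mul]
    have h4 : (Z : ℝ) ≤ (X : ℝ) ^ (1 / 2 : ℝ) := by nlinarith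
    calc (((Z + 1 - 1 : ℕ)) : ℝ) * L ^ 2 ≤ (X : ℝ) ^ (1 / 2 : ℝ) * (X : ℝ) ^ (1 / 2 : ℝ) := by
          apply mul_le_mul _ hg2 (by positivity) hx2.le
          rw [Nat.add_sub_cancel]
          exact h4
      _ = X := hx22
  have hav1 : av (gr X) (fun θ => ind θ * ‖L' θ‖ ^ 2) ≤ 30 / c * X * (1 + Real.log R) := by
    have h1 : G * av (gr X) (fun θ => ind θ * ‖L' θ‖ ^ 2) ≤ 2 * X * L := hmain.trans hL'L2
    have h2 : 0 ≤ av (gr X) (fun θ => ind θ * ‖L' θ‖ ^ 2) :=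
      av_nonneg fun θ => mul_nonneg (hind0 θ) (by positivity)
    have h3 : c * L / (15 * (1 + Real.log R)) *
        av (gr X) (fun θ => ind θ * ‖L' θ‖ ^ 2) ≤ 2 * X * L :=
      (mul_le_mul_of_nonneg_right hGlow h2).trans h1
    have h4 : 0 < c * L / (15 * (1 + Real.log R)) := by positivity
    rw [← le_div_iff₀' h4] at h3
    refine h3.trans (le_of_eq ?_)
    field_simp
    ring
  have hfin : av (gr X) ((Arc R δ).indicator (fun θ => ‖LH X θ‖ ^ 2)) ≤
      av (gr X) (fun θ => 2 * (ind θ * ‖L' θ‖ ^ 2) + 2 * ‖LH X θ - L' θ‖ ^ 2) := by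
    apply av_mono
    intro θ
    by_cases h : θ ∈ Arc R δ
    · rw [Set.indicator_of_mem h]
      have h1 : ind θ = 1 := Set.indicator_of_mem h _
      rw [h1, one_mul]
      have h2 : ‖LH X θ‖ ≤ ‖L' θ‖ + ‖LH X θ - L' θ‖ := by
        calc ‖LH X θ‖ = ‖L' θ + (LH X θ - L' θ)‖ := by congr 1; ring
          _ ≤ _ := norm_add_le _ _
      have h3 : ‖LH X θ‖ ^ 2 ≤ (‖L' θ‖ + ‖LH X θ - L' θ‖) ^ 2 :=
        pow_le_pow_left₀ (norm_nonneg _) h2 2
      have h4 := add_sq_le (a := ‖L' θ‖) (b := ‖LH X θ - L' θ‖)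
      linarith
    · rw [Set.indicator_of_notMem h]
      have := hind0 θ
      positivity
  refine hfin.trans ?_
  rw [av_add, av_mul_left, av_mul_left]
  have h1 : 60 / c * X * (1 + Real.log R) = 2 * (30 / c * X * (1 + Real.log R)) := by ring
  have h2 : (60 / c + 2) * X * (1 + Real.log R) =
      60 / c * X * (1 + Real.log R) + 2 * X * (1 + Real.log R) := by ring
  rw [h2, h1]
  have h3 : (X : ℝ) ≤ X * (1 + Real.log R) := by nlinarith
  linarith

end Pool.MP_dd84fd_nt.L2G
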