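import Pool.Agent.Lib.MP_dd84fd_nt.L2G.Avg

set_option autoImplicit false

namespace Pool.MP_dd84fd_nt.L2G

open Finset Pool.MP_67663b_nt.Odd

theorem Se_mul (X : ℕ) (f g : ℕ → ℝ) (θ : ℝ) :
    Se X f θ * Se X g θ = ∑ n ∈ range (2 * X + 1), (cv X f g n : ℂ) * ee (n * θ) := by
  unfold Se cv
  rw [Finset.sum_mul_sum]
  have h1 : ∀ n : ℕ, ((∑ m ∈ Icc 1 X, ∑ k ∈ Icc 1 X, if m + k = n then f m * g k else 0 : ℝ) : ℂ) *
      ee (n * θ) = ∑ m ∈ Icc 1 X, ∑ k ∈ Icc 1 X,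
        if n = m + k then (f m : ℂ) * (g k : ℂ) * ee (n * θ) else 0 := by
    intro n
    push_cast
    rw [Finset.sum_mul]
    refine Finset.sum_congr rfl fun m _ => ?_
    rw [Finset.sum_mul]
    refine Finset.sum_congr rfl fun k _ => ?_
    by_cases h : m + k = n
    · rw [if_pos h, if_pos h.symm]
      push_cast
      ring
    · rw [if_neg h, if_neg (Ne.symm h)]
      simp
  rw [Finset.sum_congr rfl fun n _ => h1 n]
  symm
  rw [Finset.sum_comm]
  refine Finset.sum_congr rfl fun m hm => ?_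
  rw [Finset.sum_comm]
  refine Finset.sum_congr rfl fun k hk => ?_
  rw [Finset.sum_ite_eq' , if_pos]
  · have : ((m + k : ℕ) : ℝ) * θ = m * θ + k * θ := by
      push_cast
      ring
    rw [this, ee_add]
    ring
  · rw [Finset.mem_Icc] at hm hk
    rw [Finset.mem_range]
    omega

/-- periodicity of the sum over the translates -/
private theorem ci_period (X q : ℕ) (hq : 1 ≤ q) (g : ℕ → ℝ) (θ : ℝ) (h : ℤ) :
    ∑ k ∈ range q, ‖Se X g (θ + (h : ℝ) / q + (k : ℝ) / q)‖ ^ 2 =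
      ∑ k ∈ range q, ‖Se X g (θ + (k : ℝ) / q)‖ ^ 2 := by
  have hq' : (q : ℝ) ≠ 0 := by exact_mod_cast (by omega : q ≠ 0)
  have key := avg_sum_shift q (fun k : ℤ => ‖Se X g (θ + (k : ℝ) / q)‖ ^ 2) (fun k => by
    have : θ + (((k + (q : ℤ) : ℤ) : ℝ)) / q = θ + (k : ℝ) / q + ((1 : ℤ) : ℝ) := by
      push_cast
      field_simp
      ring
    rw [this, Se_add_int]) h
  simp only [Int.cast_natCast] at key
  rw [← key]
  refine Finset.sum_congr rfl fun k _ => ?_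
  congr 3
  push_cast
  ring

theorem class_ineq (X q a : ℕ) (hq : 1 ≤ q) (hqX : q ≤ 4 * X + 4) (f g : ℕ → ℝ) :
    ∑ n ∈ (range (2 * X + 1)).filter (fun n => n % q = a % q), cv X f g n ^ 2 ≤
      (1 / (q : ℝ)) * av (gr X) (fun θ => ‖Se X f θ‖ ^ 2 *
        ∑ k ∈ range q, ‖Se X g (θ + (k : ℝ) / q)‖ ^ 2) := by
  have hq0 : (0 : ℝ) < q := by exact_mod_cast hq
  have hq' : (q : ℝ) ≠ 0 := hq0.ne'
  have hqc : (q : ℂ) ≠ 0 := by exact_mod_cast (by omega : q ≠ 0)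
  have hgr := lt_gr X
  -- Parseval
  have h1 : ∑ n ∈ (range (2 * X + 1)).filter (fun n => n % q = a % q), cv X f g n ^ 2 =
      av (gr X) (fun θ => ‖∑ n ∈ (range (2 * X + 1)).filter (fun n => n % q = a % q),
        (cv X f g n : ℂ) * ee (n * θ)‖ ^ 2) := by
    rw [parseval (N := gr X) _ (fun n hn => by
      have := Finset.mem_range.1 (Finset.mem_filter.1 hn).1
      omega) (fun n => (cv X f g n : ℂ))]
    refine Finset.sum_congr rfl fun n _ => ?_
    rw [Complex.norm_real, Real.norm_eq_abs, sq_abs]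
  -- detection of the class
  have h2 : ∀ θ : ℝ, ∑ n ∈ (range (2 * X + 1)).filter (fun n => n % q = a % q),
      (cv X f g n : ℂ) * ee (n * θ) =
      (1 / (q : ℂ)) * ∑ h ∈ range q, ee (-((a : ℝ) * ((h : ℝ) / q))) *
        (Se X f (θ + (h : ℝ) / q) * Se X g (θ + (h : ℝ) / q)) := by
    intro θ
    have h3 : ∀ h : ℕ, ee (-((a : ℝ) * ((h : ℝ) / q))) *
        (Se X f (θ + (h : ℝ) / q) * Se X g (θ + (h : ℝ) / q)) =
        ∑ n ∈ range (2 * X + 1), (cv X f g n : ℂ) * ee (n * θ) *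
          ee ((((n : ℤ) - a : ℤ) : ℝ) * ((h : ℝ) / q)) := by
      intro h
      rw [Se_mul, Finset.mul_sum]
      refine Finset.sum_congr rfl fun n _ => ?_
      have h4 : ee (n * (θ + (h : ℝ) / q)) = ee (n * θ) * ee (n * ((h : ℝ) / q)) := by
        rw [← ee_add]
        congr 1
        ring
      have h5 : ee ((((n : ℤ) - a : ℤ) : ℝ) * ((h : ℝ) / q)) =
          ee (n * ((h : ℝ) / q)) * ee (-((a : ℝ) * ((h : ℝ) / q))) := by
        rw [← ee_add]
        congr 1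
        push_cast
        ring
      rw [h4, h5]
      ring
    rw [Finset.sum_congr rfl fun h _ => h3 h, Finset.sum_comm, Finset.sum_filter, Finset.mul_sum]
    refine Finset.sum_congr rfl fun n _ => ?_
    rw [← Finset.mul_sum, avg_orth q (by omega)]
    have h6 : (q : ℤ) ∣ (n : ℤ) - a ↔ n % q = a % q := by
      constructor
      · intro h7
        have h8 : (a : ℤ) ≡ n [ZMOD q] := (Int.modEq_iff_dvd).2 h7
        have h9 : a ≡ n [MOD q] := (Int.natCast_modEq_iff).1 h8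
        exact h9.symm
      · intro h7
        have h9 : a ≡ n [MOD q] := h7.symm
        exact (Int.modEq_iff_dvd).1 ((Int.natCast_modEq_iff).2 h9)
    by_cases hn : n % q = a % q
    · rw [if_pos hn, if_pos (h6.2 hn)]
      field_simp
    · rw [if_neg hn, if_neg (fun h7 => hn (h6.1 h7))]
      ring
  -- pointwise bound
  have h3 : ∀ θ : ℝ, ‖∑ n ∈ (range (2 * X + 1)).filter (fun n => n % q = a % q),
      (cv X f g n : ℂ) * ee (n * θ)‖ ^ 2 ≤
      (1 / (q : ℝ) ^ 2) * ∑ h ∈ range q, (‖Se X f (θ + (h : ℝ) / q)‖ ^ 2 *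
        ∑ k ∈ range q, ‖Se X g (θ + (k : ℝ) / q)‖ ^ 2) := by
    intro θ
    rw [h2, norm_mul, mul_pow, norm_div, norm_one, Complex.norm_natCast, div_pow, one_pow]
    refine mul_le_mul_of_nonneg_left ?_ (by positivity)
    rw [← Finset.sum_mul]
    have h4 : ‖∑ h ∈ range q, ee (-((a : ℝ) * ((h : ℝ) / q))) *
        (Se X f (θ + (h : ℝ) / q) * Se X g (θ + (h : ℝ) / q))‖ ≤
        ∑ h ∈ range q, ‖Se X f (θ + (h : ℝ) / q)‖ * ‖Se X g (θ + (h : ℝ) / q)‖ := by
      refine (norm_sum_le _ _).trans (le_of_eq (Finset.sum_congr rfl fun h _ => ?_))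
      rw [norm_mul, norm_ee, one_mul, norm_mul]
    calc ‖∑ h ∈ range q, ee (-((a : ℝ) * ((h : ℝ) / q))) *
        (Se X f (θ + (h : ℝ) / q) * Se X g (θ + (h : ℝ) / q))‖ ^ 2
        ≤ (∑ h ∈ range q, ‖Se X f (θ + (h : ℝ) / q)‖ * ‖Se X g (θ + (h : ℝ) / q)‖) ^ 2 :=
          pow_le_pow_left₀ (norm_nonneg _) h4 2
      _ ≤ (∑ h ∈ range q, ‖Se X f (θ + (h : ℝ) / q)‖ ^ 2) *
          ∑ k ∈ range q, ‖Se X g (θ + (k : ℝ) / q)‖ ^ 2 := Finset.sum_mul_sq_le_sq_mul_sq _ _ _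
  rw [h1]
  refine (av_mono h3).trans ?_
  rw [av_mul_left, av_sum]
  have h4 : ∀ h ∈ range q, av (gr X) (fun θ => ‖Se X f (θ + (h : ℝ) / q)‖ ^ 2 *
        ∑ k ∈ range q, ‖Se X g (θ + (k : ℝ) / q)‖ ^ 2) =
      av (gr X) (fun θ => ‖Se X f θ‖ ^ 2 * ∑ k ∈ range q, ‖Se X g (θ + (k : ℝ) / q)‖ ^ 2) := by
    intro h _
    have h5 := av_shift (N := gr X) (by omega)
      (f := fun θ => ‖Se X f θ‖ ^ 2 * ∑ k ∈ range q, ‖Se X g (θ + (k : ℝ) / q)‖ ^ 2)
      (fun θ => by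
        have h6 : Se X f (θ + 1) = Se X f θ := by
          have := Se_add_int X f θ 1
          rwa [Int.cast_one] at this
        have h7 : ∀ k : ℕ, Se X g (θ + 1 + (k : ℝ) / q) = Se X g (θ + (k : ℝ) / q) := by
          intro k
          have h8 : θ + 1 + (k : ℝ) / q = θ + (k : ℝ) / q + ((1 : ℤ) : ℝ) := by
            push_cast
            ring
          rw [h8, Se_add_int]
        simp only [h6, h7]) (d := q) (by omega) (dvd_gr hq hqX) (h : ℤ)
    rw [← h5]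
    simp only [Int.cast_natCast]
    congr 1
    funext θ
    have h9 := ci_period X q hq g θ (h : ℤ)
    rw [Int.cast_natCast] at h9
    rw [h9]
  rw [Finset.sum_congr rfl h4, Finset.sum_const, Finset.card_range, nsmul_eq_mul, ← mul_assoc]
  have h5 : 1 / (q : ℝ) ^ 2 * (q : ℝ) = 1 / (q : ℝ) := by
    field_simp
  rw [h5]

theorem sum_range_div (q : ℕ) (hq : 1 ≤ q) (F : ℝ → ℝ) :
    ∑ k ∈ range q, F ((k : ℝ) / q) =
      ∑ d ∈ q.divisors, ∑ b ∈ (range d).filter (Nat.Coprime d), F ((b : ℝ) / d) := by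
  have hq0 : q ≠ 0 := by omega
  rw [← Nat.sum_div_divisors q (fun d => ∑ b ∈ (range d).filter (Nat.Coprime d), F ((b : ℝ) / d))]
  rw [← Finset.sum_fiberwise_of_maps_to (s := range q) (t := q.divisors) (g := fun k => q.gcd k)
    (fun k _ => Nat.mem_divisors.2 ⟨Nat.gcd_dvd_left _ _, hq0⟩)]
  refine Finset.sum_congr rfl fun g hg => ?_
  have hgq : g ∣ q := Nat.dvd_of_mem_divisors hg
  have hg0 : 0 < g := Nat.pos_of_mem_divisors hg
  obtain ⟨m, rfl⟩ := hgq
  have hm0 : 0 < m := Nat.pos_of_ne_zero fun h => hq0 (by rw [h, mul_zero])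
  rw [Nat.mul_div_cancel_left m hg0]
  have hgr : (g : ℝ) ≠ 0 := by exact_mod_cast hg0.ne'
  refine Finset.sum_nbij' (fun k => k / g) (fun b => g * b) ?_ ?_ ?_ ?_ ?_
  · intro k hk
    rw [Finset.mem_filter, Finset.mem_range] at hk
    obtain ⟨hk1, hk2⟩ := hk
    have hgk : g ∣ k := hk2 ▸ Nat.gcd_dvd_right _ _
    obtain ⟨b, rfl⟩ := hgk
    rw [Nat.gcd_mul_left] at hk2
    have h1 : Nat.gcd m b = 1 := by
      have : g * Nat.gcd m b = g * 1 := by rw [hk2, mul_one]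
      exact Nat.eq_of_mul_eq_mul_left hg0 this
    rw [Finset.mem_filter, Finset.mem_range, Nat.mul_div_cancel_left b hg0]
    exact ⟨Nat.lt_of_mul_lt_mul_left hk1, h1⟩
  · intro b hb
    rw [Finset.mem_filter, Finset.mem_range] at hb
    rw [Finset.mem_filter, Finset.mem_range]
    refine ⟨Nat.mul_lt_mul_of_pos_left hb.1 hg0, ?_⟩
    rw [Nat.gcd_mul_left]
    have h1 : Nat.gcd m b = 1 := hb.2
    rw [h1, mul_one]
  · intro k hk
    rw [Finset.mem_filter, Finset.mem_range] at hk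
    exact Nat.mul_div_cancel' (hk.2 ▸ Nat.gcd_dvd_right _ _)
  · intro b _
    exact Nat.mul_div_cancel_left b hg0
  · intro k hk
    rw [Finset.mem_filter, Finset.mem_range] at hk
    have hgk : g ∣ k := hk.2 ▸ Nat.gcd_dvd_right _ _
    obtain ⟨b, rfl⟩ := hgk
    rw [Nat.mul_div_cancel_left b hg0]
    congr 1
    push_cast
    rw [mul_div_mul_left _ _ hgr]

end Pool.MP_dd84fd_nt.L2G
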