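import Pool.Agent.Lib.MP_dd84fd_nt.L2G.Defs
import Pool.Agent.Lib.MP_67663b_nt.OddB.LSieve

set_option autoImplicit false

namespace Pool.MP_dd84fd_nt.L2G

open Finset Pool.MP_67663b_nt.Odd

private lemma farC_frac_eq {m m' b b' : ℕ} (hb : b < m) (hb' : b' < m') (hc : Nat.Coprime m b)
    (hc' : Nat.Coprime m' b') (h : ((m : ℤ) * m') ∣ (b : ℤ) * m' - b' * m) :
    m = m' ∧ b = b' := by
  have h1 : (m' : ℤ) ∣ (b' : ℤ) * m := by
    have h2 : (m' : ℤ) ∣ (b : ℤ) * m' - b' * m := dvd_trans (dvd_mul_left _ _) h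
    have h3 : (m' : ℤ) ∣ (b : ℤ) * m' := dvd_mul_left _ _
    have h4 := dvd_sub h3 h2
    have h5 : (b : ℤ) * m' - ((b : ℤ) * m' - b' * m) = b' * m := by ring
    rwa [h5] at h4
  have h2 : (m : ℤ) ∣ (b : ℤ) * m' := by
    have h2 : (m : ℤ) ∣ (b : ℤ) * m' - b' * m := dvd_trans (dvd_mul_right _ _) h
    have h3 : (m : ℤ) ∣ (b' : ℤ) * m := dvd_mul_left _ _
    have h4 := dvd_add h2 h3
    have h5 : (b : ℤ) * m' - b' * m + b' * m = b * m' := by ring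
    rwa [h5] at h4
  have h1' : m' ∣ b' * m := by exact_mod_cast h1
  have h2' : m ∣ b * m' := by exact_mod_cast h2
  have h3 : m' ∣ m := hc'.dvd_of_dvd_mul_left h1'
  have h4 : m ∣ m' := hc.dvd_of_dvd_mul_left h2'
  have h5 : m = m' := Nat.dvd_antisymm h4 h3
  subst h5
  refine ⟨rfl, ?_⟩
  have hm : (m : ℤ) ≠ 0 := by
    have : 0 < m := by omega
    positivity
  have h6 : (m : ℤ) ∣ (b : ℤ) - b' := by
    have h7 : (b : ℤ) * m - b' * m = m * (b - b') := by ring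
    rw [h7] at h
    exact Int.dvd_of_mul_dvd_mul_left hm h
  obtain ⟨k, hk⟩ := h6
  have hk0 : k = 0 := by
    by_contra hk0
    rcases lt_or_gt_of_ne hk0 with h8 | h8
    · have : (m : ℤ) * k ≤ m * (-1) := mul_le_mul_of_nonneg_left (by omega) (by positivity)
      omega
    · have : (m : ℤ) * 1 ≤ m * k := mul_le_mul_of_nonneg_left (by omega) (by positivity)
      omega
  rw [hk0, mul_zero] at hk
  omega

theorem far_C (X R : ℕ) (hX : 1 ≤ X) (hR : 1 ≤ R) (f : ℕ → ℝ) (θ : ℝ) :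
    ∑ d ∈ Ico R (2 * R), Vst (Se X f) d θ ≤
      (4 * (R : ℝ) ^ 2 + 4 * Real.pi * X) * ∑ n ∈ Icc 1 X, f n ^ 2 := by
  classical
  have hRr : (1 : ℝ) ≤ R := by exact_mod_cast hR
  have hXr : (1 : ℝ) ≤ X := by exact_mod_cast hX
  have e1 : ∑ d ∈ Ico R (2 * R), Vst (Se X f) d θ =
      ∑ x ∈ (Ico R (2 * R)).sigma (fun d => (range d).filter (Nat.Coprime d)),
        ‖∑ n ∈ Icc 1 X, (f n : ℂ) * ee (n * (θ + (x.2 : ℝ) / x.1))‖ ^ 2 := by
    rw [Finset.sum_sigma]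
    rfl
  rw [e1]
  have h1 := large_sieve_c ((Ico R (2 * R)).sigma (fun d => (range d).filter (Nat.Coprime d)))
    (fun x : (_ : ℕ) × ℕ => θ + (x.2 : ℝ) / x.1) (δ := 1 / (4 * (R : ℝ) ^ 2)) (by positivity)
    (by
      rw [div_le_one (by positivity)]
      nlinarith) ?_ (Icc 1 X) (fun n => (f n : ℂ)) (N := X) (by linarith)
      (fun n hn => by exact_mod_cast (Finset.mem_Icc.1 hn).2)
  · have h2 : ∑ n ∈ Icc 1 X, ‖((f n : ℝ) : ℂ)‖ ^ 2 = ∑ n ∈ Icc 1 X, f n ^ 2 := by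
      refine Finset.sum_congr rfl fun n _ => ?_
      rw [Complex.norm_real, Real.norm_eq_abs, sq_abs]
    rw [h2, one_div, inv_inv] at h1
    exact h1
  · rintro ⟨d, b⟩ hx ⟨d', b'⟩ hy hne z
    obtain ⟨hd, hb⟩ := Finset.mem_sigma.1 hx
    obtain ⟨hd', hb'⟩ := Finset.mem_sigma.1 hy
    obtain ⟨hd1, hd2⟩ := Finset.mem_Ico.1 hd
    obtain ⟨hd1', hd2'⟩ := Finset.mem_Ico.1 hd'
    obtain ⟨hb1, hb2⟩ := Finset.mem_filter.1 hb
    obtain ⟨hb1', hb2'⟩ := Finset.mem_filter.1 hb'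
    rw [Finset.mem_range] at hb1 hb1'
    simp only at hd1 hd2 hd1' hd2' hb1 hb2 hb1' hb2' ⊢
    have hdpos : (0 : ℝ) < d := by exact_mod_cast (by omega : 0 < d)
    have hdpos' : (0 : ℝ) < d' := by exact_mod_cast (by omega : 0 < d')
    have e2 : θ + (b : ℝ) / d - (θ + (b' : ℝ) / d') - z =
        (((b : ℤ) * d' - b' * d - z * (d * d') : ℤ) : ℝ) / (d * d') := by
      push_cast
      field_simp
      ring
    have h3 : (b : ℤ) * d' - b' * d - z * (d * d') ≠ 0 := by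
      intro h0
      have h4 := farC_frac_eq hb1 hb1' hb2 hb2' (Dvd.intro_left z (by linarith))
      apply hne
      obtain ⟨rfl, rfl⟩ := h4
      rfl
    have h4 : (1 : ℝ) ≤ |(((b : ℤ) * d' - b' * d - z * (d * d') : ℤ) : ℝ)| := by
      rw [← Int.cast_abs]
      exact_mod_cast Int.one_le_abs h3
    rw [e2, abs_div, abs_of_pos (by positivity : (0 : ℝ) < d * d')]
    rw [div_le_div_iff₀ (by positivity) (by positivity)]
    have h5 : (d : ℝ) ≤ 2 * R := by exact_mod_cast hd2.le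
    have h6 : (d' : ℝ) ≤ 2 * R := by exact_mod_cast hd2'.le
    have h7 : (d : ℝ) * d' ≤ (2 * R) * (2 * R) := mul_le_mul h5 h6 hdpos'.le (by positivity)
    have h8 : (1 : ℝ) * (4 * (R : ℝ) ^ 2) ≤
        |(((b : ℤ) * d' - b' * d - z * (d * d') : ℤ) : ℝ)| * (4 * (R : ℝ) ^ 2) :=
      mul_le_mul_of_nonneg_right h4 (by positivity)
    linarith

end Pool.MP_dd84fd_nt.L2G
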