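import Pool.Agent.Lib.MP_dd84fd_nt.L2G.ChDefs
import Pool.Agent.Lib.MP_dd84fd_nt.L2G.Avg
import Pool.Agent.Lib.MP_dd84fd_nt.L2G.ClassIneq
import Pool.Agent.Lib.MP_dd84fd_nt.L2G.FarC

set_option autoImplicit false

namespace Pool.MP_dd84fd_nt.L2G

open Finset Pool.MP_67663b_nt.Odd

private noncomputable def BgSums_J (X : ℕ) (u v : ℕ → ℝ) (d : ℕ) : ℝ :=
  av (gr X) (fun θ => ‖Se X u θ‖ ^ 2 * Vst (Se X v) d θ)

private lemma BgSums_J_nonneg (X : ℕ) (u v : ℕ → ℝ) (d : ℕ) : 0 ≤ BgSums_J X u v d := by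
  unfold BgSums_J Vst
  exact av_nonneg fun θ => by positivity

private lemma BgSums_eq (X q : ℕ) (u v : ℕ → ℝ) (hq : 1 ≤ q) :
    av (gr X) (fun θ => ‖Se X u θ‖ ^ 2 *
      ∑ k ∈ range q, ‖Se X v (θ + (k : ℝ) / q)‖ ^ 2) = ∑ d ∈ q.divisors, BgSums_J X u v d := by
  unfold BgSums_J
  rw [← av_sum]
  congr 1
  funext θ
  rw [sum_range_div q hq (fun x => ‖Se X v (θ + x)‖ ^ 2), mul_sum]
  rfl

theorem sum_Bg (X Q : ℕ) (u v : ℕ → ℝ) :
    ∑ q ∈ Icc 1 Q, av (gr X) (fun θ => ‖Se X u θ‖ ^ 2 *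
      ∑ k ∈ range q, ‖Se X v (θ + (k : ℝ) / q)‖ ^ 2) ≤
    Q * ∑ d ∈ Icc 1 Q, av (gr X) (fun θ => ‖Se X u θ‖ ^ 2 * Vst (Se X v) d θ) / d := by
  classical
  have h1 : ∀ q ∈ Icc 1 Q, av (gr X) (fun θ => ‖Se X u θ‖ ^ 2 *
      ∑ k ∈ range q, ‖Se X v (θ + (k : ℝ) / q)‖ ^ 2) =
      ∑ d ∈ Icc 1 Q, if d ∣ q then BgSums_J X u v d else 0 := by
    intro q hq
    rw [mem_Icc] at hq
    rw [BgSums_eq X q u v hq.1, ← sum_filter]
    refine sum_congr ?_ fun _ _ => rfl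
    ext d
    rw [Nat.mem_divisors, mem_filter, mem_Icc]
    constructor
    · rintro ⟨h1, h2⟩
      exact ⟨⟨Nat.pos_of_dvd_of_pos h1 hq.1, (Nat.le_of_dvd hq.1 h1).trans hq.2⟩, h1⟩
    · rintro ⟨_, h2⟩
      exact ⟨h2, by omega⟩
  rw [sum_congr rfl h1, sum_comm, mul_sum]
  refine sum_le_sum fun d hd => ?_
  rw [mem_Icc] at hd
  rw [← sum_filter, sum_const, nsmul_eq_mul]
  have hcard : ((Icc 1 Q).filter (fun q => d ∣ q)).card = Q / d := by
    have := Nat.Ioc_filter_dvd_card_eq_div Q d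
    rw [← this]
    congr 1
  rw [hcard]
  have h2 : ((Q / d : ℕ) : ℝ) ≤ (Q : ℝ) / d := Nat.cast_div_le
  calc ((Q / d : ℕ) : ℝ) * BgSums_J X u v d ≤ (Q : ℝ) / d * BgSums_J X u v d :=
        mul_le_mul_of_nonneg_right h2 (BgSums_J_nonneg _ _ _ _)
    _ = (Q : ℝ) * (BgSums_J X u v d / d) := by ring

private lemma BgSums_block (X R : ℕ) (hX : 1 ≤ X) (hR : 1 ≤ R) (u v : ℕ → ℝ) :
    ∑ d ∈ Ico R (2 * R), BgSums_J X u v d / d ≤
      (4 * (R : ℝ) + 4 * Real.pi * X / R) *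
        ((∑ n ∈ Icc 1 X, u n ^ 2) * ∑ n ∈ Icc 1 X, v n ^ 2) := by
  have hR' : (0 : ℝ) < R := by exact_mod_cast hR
  have h1 : ∑ d ∈ Ico R (2 * R), BgSums_J X u v d ≤
      (4 * (R : ℝ) ^ 2 + 4 * Real.pi * X) *
        ((∑ n ∈ Icc 1 X, u n ^ 2) * ∑ n ∈ Icc 1 X, v n ^ 2) := by
    unfold BgSums_J
    rw [← av_sum]
    calc av (gr X) (fun θ => ∑ d ∈ Ico R (2 * R), ‖Se X u θ‖ ^ 2 * Vst (Se X v) d θ)
        ≤ av (gr X) (fun θ => ((4 * (R : ℝ) ^ 2 + 4 * Real.pi * X) *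
            ∑ n ∈ Icc 1 X, v n ^ 2) * ‖Se X u θ‖ ^ 2) := by
          refine av_mono fun θ => ?_
          rw [← mul_sum, mul_comm]
          exact mul_le_mul_of_nonneg_right (far_C X R hX hR v θ) (by positivity)
      _ = _ := by
          rw [av_mul_left, av_Se]
          ring
  calc ∑ d ∈ Ico R (2 * R), BgSums_J X u v d / d
      ≤ ∑ d ∈ Ico R (2 * R), BgSums_J X u v d / R := by
        refine sum_le_sum fun d hd => ?_
        rw [mem_Ico] at hd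
        have hd' : (R : ℝ) ≤ d := by exact_mod_cast hd.1
        exact div_le_div_of_nonneg_left (BgSums_J_nonneg _ _ _ _) hR' hd'
    _ = (∑ d ∈ Ico R (2 * R), BgSums_J X u v d) / R := by rw [sum_div]
    _ ≤ ((4 * (R : ℝ) ^ 2 + 4 * Real.pi * X) *
        ((∑ n ∈ Icc 1 X, u n ^ 2) * ∑ n ∈ Icc 1 X, v n ^ 2)) / R := by gcongr
    _ = _ := by field_simp

private lemma BgSums_dyadic (X D : ℕ) (hX : 1 ≤ X) (hD : 1 ≤ D) (u v : ℕ → ℝ) (k : ℕ) :
    ∑ d ∈ Ico D (2 ^ k * D), BgSums_J X u v d / d ≤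
      (4 * (2 ^ k - 1) * (D : ℝ) + 4 * Real.pi * X / D * (2 - 2 * (1 / 2) ^ k)) *
        ((∑ n ∈ Icc 1 X, u n ^ 2) * ∑ n ∈ Icc 1 X, v n ^ 2) := by
  induction k with
  | zero =>
    simp
  | succ k ih =>
    have hD' : (0 : ℝ) < D := by exact_mod_cast hD
    have h1 : D ≤ 2 ^ k * D := Nat.le_mul_of_pos_left D (by positivity)
    have h2 : 2 ^ (k + 1) * D = 2 * (2 ^ k * D) := by ring
    have h3 : 2 ^ k * D ≤ 2 ^ (k + 1) * D := by omega
    rw [← Finset.sum_Ico_consecutive _ h1 h3]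
    have h4 := BgSums_block X (2 ^ k * D) hX (h1.trans' hD) u v
    rw [← h2] at h4
    refine (add_le_add ih h4).trans (le_of_eq ?_)
    rw [← add_mul]
    congr 1
    push_cast
    have h5 : 4 * Real.pi * X / (2 ^ k * (D : ℝ)) = 4 * Real.pi * X / D * (1 / 2) ^ k := by
      rw [one_div, inv_pow]
      field_simp
    rw [h5]
    ring

theorem big_Bg : ∃ C : ℝ, 0 < C ∧ ∀ (X Q D : ℕ) (u v : ℕ → ℝ), 1 ≤ X → 1 ≤ D →
    ∑ d ∈ Icc D Q, av (gr X) (fun θ => ‖Se X u θ‖ ^ 2 * Vst (Se X v) d θ) / d ≤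
      C * (Q + X / D) * ((∑ n ∈ Icc 1 X, u n ^ 2) * ∑ n ∈ Icc 1 X, v n ^ 2) := by
  refine ⟨30, by norm_num, ?_⟩
  intro X Q D u v hX hD
  obtain ⟨P, hP⟩ : ∃ P, P = (∑ n ∈ Icc 1 X, u n ^ 2) * ∑ n ∈ Icc 1 X, v n ^ 2 := ⟨_, rfl⟩
  have hP0 : 0 ≤ P := by
    rw [hP]
    exact mul_nonneg (sum_nonneg fun _ _ => by positivity) (sum_nonneg fun _ _ => by positivity)
  have hD' : (0 : ℝ) < D := by exact_mod_cast hD
  rw [← hP]
  have hgoal : ∑ d ∈ Icc D Q, BgSums_J X u v d / d ≤ 30 * (Q + X / D) * P := by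
    rcases Nat.lt_or_ge Q D with h | h
    · rw [Finset.Icc_eq_empty (by omega), Finset.sum_empty]
      positivity
    · have hex : ∃ k : ℕ, Q < 2 ^ k * D := by
        refine ⟨Q, ?_⟩
        calc Q < 2 ^ Q := Nat.lt_two_pow_self
          _ ≤ 2 ^ Q * D := Nat.le_mul_of_pos_right _ hD
      obtain ⟨k, hk1, hk2⟩ : ∃ k : ℕ, Q < 2 ^ k * D ∧ 2 ^ k * D ≤ 2 * Q := by
        refine ⟨Nat.find hex, Nat.find_spec hex, ?_⟩
        have hk0 : Nat.find hex ≠ 0 := by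
          intro h0
          have h1 := Nat.find_spec hex
          rw [h0] at h1
          simp only [pow_zero, one_mul] at h1
          omega
        obtain ⟨j, hj⟩ := Nat.exists_eq_succ_of_ne_zero hk0
        have h1 := Nat.find_min hex (m := j) (by omega)
        rw [hj]
        have h2 : 2 ^ (j + 1) * D = 2 * (2 ^ j * D) := by ring
        rw [Nat.succ_eq_add_one, h2]
        omega
      have h1 := BgSums_dyadic X D hX hD u v k
      rw [← hP] at h1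
      have h2 : ∑ d ∈ Icc D Q, BgSums_J X u v d / d ≤
          ∑ d ∈ Ico D (2 ^ k * D), BgSums_J X u v d / d := by
        refine Finset.sum_le_sum_of_subset_of_nonneg ?_ fun d _ _ => ?_
        · intro d hd
          rw [mem_Icc] at hd
          rw [mem_Ico]
          omega
        · exact div_nonneg (BgSums_J_nonneg _ _ _ _) (Nat.cast_nonneg _)
      refine h2.trans (h1.trans (mul_le_mul_of_nonneg_right ?_ hP0))
      have h3 : (2 : ℝ) ^ k * D ≤ 2 * Q := by exact_mod_cast hk2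
      have h4 : (0 : ℝ) ≤ (1 / 2) ^ k := by positivity
      have h5 : (0 : ℝ) ≤ (X : ℝ) / D := by positivity
      have h6 := Real.pi_lt_d2
      have h7 := Real.pi_pos
      have h8 : 4 * Real.pi * X / D * (2 - 2 * (1 / 2) ^ k) ≤ 30 * ((X : ℝ) / D) := by
        have h9 : 4 * Real.pi * X / D * (2 - 2 * (1 / 2) ^ k) =
            (8 * Real.pi) * ((X : ℝ) / D) - 8 * Real.pi * ((X : ℝ) / D) * (1 / 2) ^ k := by ring
        have h10 : 0 ≤ 8 * Real.pi * ((X : ℝ) / D) * (1 / 2) ^ k := by positivity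
        have h11 : (8 * Real.pi) * ((X : ℝ) / D) ≤ 30 * ((X : ℝ) / D) :=
          mul_le_mul_of_nonneg_right (by linarith) h5
        linarith
      have h12 : 4 * (2 ^ k - 1) * (D : ℝ) ≤ 30 * Q := by
        have h13 : (0 : ℝ) ≤ Q := Nat.cast_nonneg _
        nlinarith
      linarith
  exact hgoal

theorem small_Bg (X d : ℕ) (u v : ℕ → ℝ) (S : ℝ) (hd : 1 ≤ d) (hdX : d ≤ 4 * X + 4)
    (hS : ∀ θ : ℝ, ‖Se X u θ‖ ≤ S) :
    av (gr X) (fun θ => ‖Se X u θ‖ ^ 2 * Vst (Se X v) d θ) ≤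
      d * S ^ 2 * ∑ n ∈ Icc 1 X, v n ^ 2 := by
  have hgr := lt_gr X
  have h1 : av (gr X) (fun θ => ‖Se X u θ‖ ^ 2 * Vst (Se X v) d θ) ≤
      av (gr X) (fun θ => S ^ 2 * Vst (Se X v) d θ) := by
    refine av_mono fun θ => ?_
    refine mul_le_mul_of_nonneg_right (pow_le_pow_left₀ (norm_nonneg _) (hS θ) 2) ?_
    unfold Vst
    positivity
  rw [av_mul_left] at h1
  refine h1.trans ?_
  have h2 : av (gr X) (fun θ => Vst (Se X v) d θ) ≤ d * ∑ n ∈ Icc 1 X, v n ^ 2 := by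
    unfold Vst
    rw [av_sum]
    have h3 : ∀ b ∈ (range d).filter (Nat.Coprime d),
        av (gr X) (fun θ => ‖Se X v (θ + (b : ℝ) / d)‖ ^ 2) = ∑ n ∈ Icc 1 X, v n ^ 2 := by
      intro b _
      have h4 := av_shift (N := gr X) (by omega) (f := fun θ => ‖Se X v θ‖ ^ 2)
        (fun θ => by
          have h6 := Se_add_int X v θ 1
          rw [Int.cast_one] at h6
          simp only [h6]) (d := d) (by omega) (dvd_gr hd hdX) (b : ℤ)
      rw [av_Se] at h4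
      simp only [Int.cast_natCast] at h4
      exact h4
    rw [Finset.sum_congr rfl h3, Finset.sum_const, nsmul_eq_mul]
    have h5 : (((range d).filter (Nat.Coprime d)).card : ℝ) ≤ d := by
      have := Finset.card_filter_le (range d) (Nat.Coprime d)
      rw [card_range] at this
      exact_mod_cast this
    exact mul_le_mul_of_nonneg_right h5 (sum_nonneg fun _ _ => by positivity)
  calc S ^ 2 * av (gr X) (fun θ => Vst (Se X v) d θ) ≤
      S ^ 2 * (d * ∑ n ∈ Icc 1 X, v n ^ 2) := by gcongr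
    _ = _ := by ring

end Pool.MP_dd84fd_nt.L2G
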