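import Pool.Agent.Lib.MP_dd84fd_nt.L2G.Defs

set_option autoImplicit false

namespace Pool.MP_dd84fd_nt.L2G

open Finset Pool.MP_67663b_nt.Odd

private theorem bilin_pow (t : ℝ) (n : ℕ) : ee (n * t) = ee t ^ n := by
  induction n with
  | zero => simp [ee_zero]
  | succ n ih =>
    rw [pow_succ, ← ih, ← ee_add]
    congr 1
    push_cast
    ring

private theorem bilin_eq_one (t : ℝ) (h : ee t = 1) : ∃ m : ℤ, t = m := by
  unfold ee at h
  rw [Complex.exp_eq_one_iff] at h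
  obtain ⟨m, hm⟩ := h
  refine ⟨m, ?_⟩
  have h2 : ((2 : ℂ) * Real.pi * Complex.I) ≠ 0 := Complex.two_pi_I_ne_zero
  have h3 : ((t : ℝ) : ℂ) = ((m : ℤ) : ℂ) := by
    apply mul_right_cancel₀ h2
    linear_combination hm
  have h4 : ((t : ℝ) : ℂ) = (((m : ℤ) : ℝ) : ℂ) := by
    rw [h3]
    push_cast
    rfl
  exact_mod_cast h4

private theorem bilin_orth (r : ℕ) (hr : 1 ≤ r) (y : ℤ) (hy : IsCoprime y (r : ℤ)) (z z' : ℕ)
    (hz : z < r) (hz' : z' < r) :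
    ∑ x ∈ range r, ee ((x : ℝ) * (((z : ℝ) - z') * y / r)) = if z = z' then (r : ℂ) else 0 := by
  have hr0 : (r : ℝ) ≠ 0 := by exact_mod_cast (by omega : r ≠ 0)
  by_cases h : z = z'
  · subst h
    rw [if_pos rfl]
    simp [ee_zero]
  · rw [if_neg h]
    set w : ℂ := ee (((z : ℝ) - z') * y / r) with hw
    have h1 : ∀ x ∈ range r, ee ((x : ℝ) * (((z : ℝ) - z') * y / r)) = w ^ x := fun x _ =>
      bilin_pow _ x
    rw [Finset.sum_congr rfl h1]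
    have hwr : w ^ r = 1 := by
      rw [hw, ← bilin_pow]
      have : (r : ℝ) * (((z : ℝ) - z') * y / r) = ((((z : ℤ) - z') * y : ℤ) : ℝ) := by
        push_cast
        field_simp
      rw [this, ee_int]
    have hw1 : w ≠ 1 := by
      intro h2
      obtain ⟨m, hm⟩ := bilin_eq_one _ h2
      have h3 : ((z : ℤ) - z') * y = r * m := by
        have h4 : ((z : ℝ) - z') * y = r * m := by
          field_simp at hm
          linarith
        exact_mod_cast h4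
      have h4 : (r : ℤ) ∣ ((z : ℤ) - z') * y := ⟨m, h3⟩
      have h5 : (r : ℤ) ∣ (z : ℤ) - z' := hy.symm.dvd_of_dvd_mul_right h4
      have h6 : (z : ℤ) - z' = 0 := by
        refine Int.eq_zero_of_abs_lt_dvd h5 ?_
        rw [abs_lt]
        constructor <;> omega
      exact h (by omega)
    have h3 := geom_sum_mul w r
    rw [hwr, sub_self] at h3
    exact (mul_eq_zero.mp h3).resolve_right (sub_ne_zero.mpr hw1)

private theorem bilin_parseval (r : ℕ) (hr : 1 ≤ r) (y : ℤ) (hy : IsCoprime y (r : ℤ))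
    (a : ℕ → ℂ) : ∑ x ∈ range r, ‖∑ z ∈ range r, a z * ee ((x : ℝ) * z * y / r)‖ ^ 2 =
      r * ∑ z ∈ range r, ‖a z‖ ^ 2 := by
  have h1 : ∀ x : ℕ, ((‖∑ z ∈ range r, a z * ee ((x : ℝ) * z * y / r)‖ ^ 2 : ℝ) : ℂ) =
      ∑ z ∈ range r, ∑ z' ∈ range r, a z * (starRingEnd ℂ) (a z') *
        ee ((x : ℝ) * (((z : ℝ) - z') * y / r)) := by
    intro x
    push_cast
    rw [← Complex.mul_conj', map_sum, Finset.sum_mul_sum]
    refine Finset.sum_congr rfl fun z _ => Finset.sum_congr rfl fun z' _ => ?_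
    rw [map_mul, conj_ee]
    have e : (x : ℝ) * (((z : ℝ) - z') * y / r) = (x : ℝ) * z * y / r + -((x : ℝ) * z' * y / r) := by
      ring
    rw [e, ee_add]
    ring
  have h2 : ((∑ x ∈ range r, ‖∑ z ∈ range r, a z * ee ((x : ℝ) * z * y / r)‖ ^ 2 : ℝ) : ℂ) =
      ((r * ∑ z ∈ range r, ‖a z‖ ^ 2 : ℝ) : ℂ) := by
    rw [Complex.ofReal_sum, Finset.sum_congr rfl fun x _ => h1 x, Finset.sum_comm]
    have h3 : ∀ z ∈ range r, ∑ x ∈ range r, ∑ z' ∈ range r, a z * (starRingEnd ℂ) (a z') *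
        ee ((x : ℝ) * (((z : ℝ) - z') * y / r)) = r * ((‖a z‖ ^ 2 : ℝ) : ℂ) := by
      intro z hz
      rw [Finset.sum_comm]
      have h4 : ∀ z' ∈ range r, ∑ x ∈ range r, a z * (starRingEnd ℂ) (a z') *
        ee ((x : ℝ) * (((z : ℝ) - z') * y / r)) = a z * (starRingEnd ℂ) (a z') *
          if z = z' then (r : ℂ) else 0 := by
        intro z' hz'
        rw [← Finset.mul_sum, bilin_orth r hr y hy z z' (mem_range.mp hz) (mem_range.mp hz')]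
      rw [Finset.sum_congr rfl h4, Finset.sum_eq_single z]
      · rw [if_pos rfl, Complex.mul_conj']
        push_cast
        ring
      · intro z' _ hne
        rw [if_neg (Ne.symm hne), mul_zero]
      · intro h
        exact absurd hz h
    rw [Finset.sum_congr rfl h3, ← Finset.mul_sum]
    push_cast
    rfl
  exact_mod_cast h2

/-- the quadratic form with Gram matrix bounded by `Δ` -/
private theorem bilin_quad (I J : Finset ℕ) (g : ℕ → ℝ) (K : ℕ → ℕ → ℂ) (Δ : ℝ)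
    (h : ∀ j ∈ J, ∑ j' ∈ J, ‖∑ i ∈ I, K i j * (starRingEnd ℂ) (K i j')‖ ≤ Δ) :
    ∑ i ∈ I, ‖∑ j ∈ J, (g j : ℂ) * K i j‖ ^ 2 ≤ Δ * ∑ j ∈ J, g j ^ 2 := by
  set k : ℕ → ℕ → ℂ := fun j j' => ∑ i ∈ I, K i j * (starRingEnd ℂ) (K i j') with hk
  have hsymm : ∀ j j', ‖k j j'‖ = ‖k j' j‖ := by
    intro j j'
    have : k j j' = (starRingEnd ℂ) (k j' j) := by
      simp only [hk, map_sum, map_mul, Complex.conj_conj]
      exact Finset.sum_congr rfl fun i _ => by ring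
    rw [this, Complex.norm_conj]
  have h1 : ((∑ i ∈ I, ‖∑ j ∈ J, (g j : ℂ) * K i j‖ ^ 2 : ℝ) : ℂ) =
      ∑ j ∈ J, ∑ j' ∈ J, ((g j * g j' : ℝ) : ℂ) * k j j' := by
    push_cast
    have h2 : ∀ i ∈ I, ((‖∑ j ∈ J, (g j : ℂ) * K i j‖ : ℂ)) ^ 2 =
        ∑ j ∈ J, ∑ j' ∈ J, ((g j : ℂ) * g j') * (K i j * (starRingEnd ℂ) (K i j')) := by
      intro i _
      rw [← Complex.mul_conj', map_sum, Finset.sum_mul_sum]
      refine Finset.sum_congr rfl fun j _ => Finset.sum_congr rfl fun j' _ => ?_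
      rw [map_mul, Complex.conj_ofReal]
      ring
    rw [Finset.sum_congr rfl h2, Finset.sum_comm]
    refine Finset.sum_congr rfl fun j _ => ?_
    rw [Finset.sum_comm]
    refine Finset.sum_congr rfl fun j' _ => ?_
    rw [hk, Finset.mul_sum]
  have h2 : ∑ i ∈ I, ‖∑ j ∈ J, (g j : ℂ) * K i j‖ ^ 2 ≤
      ∑ j ∈ J, ∑ j' ∈ J, |g j| * |g j'| * ‖k j j'‖ := by
    have h3 : ∑ i ∈ I, ‖∑ j ∈ J, (g j : ℂ) * K i j‖ ^ 2 =
        ‖∑ j ∈ J, ∑ j' ∈ J, ((g j * g j' : ℝ) : ℂ) * k j j'‖ := by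
      rw [← h1, Complex.norm_real, Real.norm_of_nonneg]
      exact Finset.sum_nonneg fun _ _ => by positivity
    rw [h3]
    refine (norm_sum_le _ _).trans (Finset.sum_le_sum fun j _ => ?_)
    refine (norm_sum_le _ _).trans (Finset.sum_le_sum fun j' _ => ?_)
    rw [norm_mul, Complex.norm_real, Real.norm_eq_abs, abs_mul]
  refine h2.trans ?_
  have h3 : ∑ j ∈ J, ∑ j' ∈ J, |g j| * |g j'| * ‖k j j'‖ ≤
      ∑ j ∈ J, ∑ j' ∈ J, (g j ^ 2 / 2 * ‖k j j'‖ + g j' ^ 2 / 2 * ‖k j j'‖) := by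
    refine Finset.sum_le_sum fun j _ => Finset.sum_le_sum fun j' _ => ?_
    rw [← add_mul]
    refine mul_le_mul_of_nonneg_right ?_ (norm_nonneg _)
    nlinarith [sq_nonneg (|g j| - |g j'|), sq_abs (g j), sq_abs (g j')]
  refine h3.trans ?_
  have h4 : ∑ j ∈ J, ∑ j' ∈ J, g j' ^ 2 / 2 * ‖k j j'‖ = ∑ j ∈ J, ∑ j' ∈ J, g j ^ 2 / 2 * ‖k j j'‖ := by
    rw [Finset.sum_comm]
    refine Finset.sum_congr rfl fun j _ => Finset.sum_congr rfl fun j' _ => ?_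
    rw [hsymm]
  simp only [Finset.sum_add_distrib]
  rw [h4, ← two_mul, Finset.mul_sum, Finset.mul_sum]
  refine Finset.sum_le_sum fun j hj => ?_
  rw [← Finset.mul_sum]
  have h5 := mul_le_mul_of_nonneg_left (h j hj) (by positivity : 0 ≤ g j ^ 2)
  simp only [hk]
  linarith

theorem bilin (r : ℕ) (hr : 1 ≤ r) (y : ℤ) (hy : IsCoprime y (r : ℤ)) (I J : Finset ℕ)
    (F G : ℕ → ℕ → ℝ) (K : ℕ → ℕ → ℂ) (Δ : ℝ)
    (h : ∀ j ∈ J, ∑ j' ∈ J, ‖∑ i ∈ I, K i j * (starRingEnd ℂ) (K i j')‖ ≤ Δ) :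
    ‖∑ i ∈ I, ∑ j ∈ J, ∑ x ∈ range r, ∑ z ∈ range r,
      ((F i x * G j z : ℝ) : ℂ) * ee ((x : ℝ) * z * y / r) * K i j‖ ^ 2 ≤
      r * Δ * (∑ i ∈ I, ∑ x ∈ range r, F i x ^ 2) * (∑ j ∈ J, ∑ z ∈ range r, G j z ^ 2) := by
  set H : ℕ → ℕ → ℂ := fun i x => ∑ z ∈ range r, (∑ j ∈ J, (G j z : ℂ) * K i j) *
    ee ((x : ℝ) * z * y / r) with hH
  have h1 : ∑ i ∈ I, ∑ j ∈ J, ∑ x ∈ range r, ∑ z ∈ range r,
      ((F i x * G j z : ℝ) : ℂ) * ee ((x : ℝ) * z * y / r) * K i j =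
      ∑ i ∈ I, ∑ x ∈ range r, (F i x : ℂ) * H i x := by
    refine Finset.sum_congr rfl fun i _ => ?_
    rw [Finset.sum_comm]
    refine Finset.sum_congr rfl fun x _ => ?_
    rw [Finset.sum_comm, hH, Finset.mul_sum]
    refine Finset.sum_congr rfl fun z _ => ?_
    rw [Finset.sum_mul, Finset.mul_sum]
    refine Finset.sum_congr rfl fun j _ => ?_
    push_cast
    ring
  have hcs : ‖∑ i ∈ I, ∑ x ∈ range r, (F i x : ℂ) * H i x‖ ^ 2 ≤
      (∑ i ∈ I, ∑ x ∈ range r, F i x ^ 2) * ∑ i ∈ I, ∑ x ∈ range r, ‖H i x‖ ^ 2 := by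
    have e1 : ∑ i ∈ I, ∑ x ∈ range r, (F i x : ℂ) * H i x =
        ∑ p ∈ I ×ˢ range r, (F p.1 p.2 : ℂ) * H p.1 p.2 := by
      rw [Finset.sum_product]
    have e2 : ‖∑ p ∈ I ×ˢ range r, (F p.1 p.2 : ℂ) * H p.1 p.2‖ ≤
        ∑ p ∈ I ×ˢ range r, |F p.1 p.2| * ‖H p.1 p.2‖ := by
      refine (norm_sum_le _ _).trans (le_of_eq (Finset.sum_congr rfl fun p _ => ?_))
      rw [norm_mul, Complex.norm_real, Real.norm_eq_abs]
    have e3 := Finset.sum_mul_sq_le_sq_mul_sq (I ×ˢ range r) (fun p => |F p.1 p.2|)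
      (fun p => ‖H p.1 p.2‖)
    simp only [sq_abs] at e3
    rw [e1]
    refine (pow_le_pow_left₀ (norm_nonneg _) e2 2).trans (e3.trans (le_of_eq ?_))
    rw [Finset.sum_product, Finset.sum_product]
  have hpar : ∀ i ∈ I, ∑ x ∈ range r, ‖H i x‖ ^ 2 =
      r * ∑ z ∈ range r, ‖∑ j ∈ J, (G j z : ℂ) * K i j‖ ^ 2 := fun i _ =>
    bilin_parseval r hr y hy fun z => ∑ j ∈ J, (G j z : ℂ) * K i j
  have hq : ∑ i ∈ I, ∑ x ∈ range r, ‖H i x‖ ^ 2 ≤
      r * (Δ * ∑ j ∈ J, ∑ z ∈ range r, G j z ^ 2) := by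
    rw [Finset.sum_congr rfl hpar, ← Finset.mul_sum, Finset.sum_comm]
    refine mul_le_mul_of_nonneg_left ?_ (by positivity)
    rw [Finset.sum_comm (s := J), Finset.mul_sum]
    exact Finset.sum_le_sum fun z _ => bilin_quad I J (fun j => G j z) K Δ h
  rw [h1]
  refine hcs.trans ?_
  have hF : 0 ≤ ∑ i ∈ I, ∑ x ∈ range r, F i x ^ 2 :=
    Finset.sum_nonneg fun _ _ => Finset.sum_nonneg fun _ _ => sq_nonneg _
  refine (mul_le_mul_of_nonneg_left hq hF).trans (le_of_eq ?_)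
  ring

end Pool.MP_dd84fd_nt.L2G
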