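import Pool.Agent.Lib.MP_dd84fd_nt.L2G.Defs

set_option autoImplicit false

namespace Pool.MP_dd84fd_nt.L2G

open Finset Pool.MP_67663b_nt.Odd

private theorem gram_pow (t : ℝ) (n : ℕ) : ee (n * t) = ee t ^ n := by
  induction n with
  | zero => simp [ee_zero]
  | succ n ih =>
    rw [pow_succ, ← ih, ← ee_add]
    congr 1
    push_cast
    ring

private theorem gram_norm_ge (t : ℝ) (ht : |t| ≤ 1 / 2) : 4 * |t| ≤ ‖ee t - 1‖ := by
  have h1 : ‖ee t - 1‖ = 2 * |Real.sin (Real.pi * t)| := by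
    unfold ee
    have h2 : (2 * Real.pi * t * Complex.I : ℂ) = Complex.I * ((2 * Real.pi * t : ℝ) : ℂ) := by
      push_cast
      ring
    rw [h2, Complex.norm_exp_I_mul_ofReal_sub_one, Real.norm_eq_abs, abs_mul,
      abs_of_pos (by norm_num : (0 : ℝ) < 2)]
    congr 3
    ring
  rw [h1]
  have h3 : |Real.sin (Real.pi * t)| = Real.sin (Real.pi * |t|) := by
    have hpi := Real.pi_pos
    have h4 : 0 ≤ Real.sin (Real.pi * |t|) :=
      Real.sin_nonneg_of_nonneg_of_le_pi (by positivity) (by nlinarith)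
    rcases abs_cases t with ⟨h, _⟩ | ⟨h, _⟩
    · rw [h] at h4 ⊢
      exact abs_of_nonneg h4
    · rw [h] at h4 ⊢
      rw [mul_neg, Real.sin_neg] at h4 ⊢
      rw [abs_of_nonpos (by linarith)]
  rw [h3]
  have hpi := Real.pi_pos
  have h5 := Real.mul_le_sin (x := Real.pi * |t|) (by positivity) (by nlinarith)
  have h6 : 2 / Real.pi * (Real.pi * |t|) = 2 * |t| := by field_simp
  linarith

/-- a sum over an initial segment -/
private theorem gram_initial (cond : ℕ → Prop) [DecidablePred cond]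
    (hc : ∀ i i', i ≤ i' → cond i' → cond i) (g : ℕ → ℂ) (N : ℕ) :
    ∃ M ≤ N, ∑ i ∈ range N, (if cond i then g i else 0) = ∑ i ∈ range M, g i := by
  induction N with
  | zero => exact ⟨0, le_rfl, by simp⟩
  | succ N ih =>
    by_cases h : cond N
    · refine ⟨N + 1, le_rfl, Finset.sum_congr rfl fun i hi => ?_⟩
      rw [if_pos (hc i N (by have := mem_range.mp hi; omega) h)]
    · obtain ⟨M, hM, hs⟩ := ih
      refine ⟨M, by omega, ?_⟩
      rw [Finset.sum_range_succ, if_neg h, add_zero, hs]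

private theorem gram_geom (c t : ℝ) (ht : |t| ≤ 1 / 2) (M : ℕ) :
    ‖∑ i ∈ range M, ee (c + i * t)‖ * (4 * |t|) ≤ 2 := by
  have h1 : ∑ i ∈ range M, ee (c + i * t) = ee c * ∑ i ∈ range M, ee t ^ i := by
    rw [Finset.mul_sum]
    refine Finset.sum_congr rfl fun i _ => ?_
    rw [ee_add, gram_pow]
  have h2 : ‖∑ i ∈ range M, ee (c + i * t)‖ * ‖ee t - 1‖ ≤ 2 := by
    rw [h1, ← norm_mul, mul_assoc, geom_sum_mul, norm_mul, norm_ee, one_mul]
    refine (norm_sub_le _ _).trans ?_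
    rw [norm_pow, norm_ee, one_pow, norm_one]
    norm_num
  exact (mul_le_mul_of_nonneg_left (gram_norm_ge t ht) (norm_nonneg _)).trans h2

/-- logarithmic sum -/
private theorem gram_log (N T : ℝ) (hN : 0 < N) (hT : 0 ≤ T) (m : ℕ) :
    ∑ l ∈ range m, 2 * T / (N + 2 * T * (l + 1)) ≤ Real.log ((N + 2 * T * m) / N) := by
  induction m with
  | zero => simp [hN.ne']
  | succ m ih =>
    rw [Finset.sum_range_succ]
    have ha : 0 < N + 2 * T * m := by positivity
    have hb : 0 < N + 2 * T * (m + 1) := by positivity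
    have h1 : (N + 2 * T * ((m + 1 : ℕ) : ℝ)) / N =
        (N + 2 * T * m) / N * ((N + 2 * T * (m + 1)) / (N + 2 * T * m)) := by
      push_cast
      field_simp
    rw [h1, Real.log_mul (by positivity) (by positivity)]
    have h2 := Real.one_sub_inv_le_log_of_pos (x := (N + 2 * T * (m + 1)) / (N + 2 * T * m))
      (by positivity)
    rw [inv_div] at h2
    have h3 : 1 - (N + 2 * T * m) / (N + 2 * T * (m + 1)) = 2 * T / (N + 2 * T * (m + 1)) := by
      field_simp
      ring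
    rw [h3] at h2
    linarith

private theorem gram_split (f : ℕ → ℕ → ℝ) (φ : ℕ → ℝ) (hφ : ∀ l, 0 ≤ φ l) (N j : ℕ) (hj : j < N)
    (h1 : ∀ j' ≤ j, f j j' ≤ φ (j - j')) (h2 : ∀ j', j < j' → f j j' ≤ φ (j' - j)) :
    ∑ j' ∈ range N, f j j' ≤ 2 * ∑ l ∈ range N, φ l := by
  have e : ∑ j' ∈ range N, f j j' = ∑ j' ∈ range (j + 1), f j j' + ∑ j' ∈ Ico (j + 1) N, f j j' :=
    (Finset.sum_range_add_sum_Ico _ (by omega)).symm
  rw [e]
  have k1 : ∑ j' ∈ range (j + 1), f j j' ≤ ∑ l ∈ range N, φ l := by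
    calc ∑ j' ∈ range (j + 1), f j j' ≤ ∑ j' ∈ range (j + 1), φ (j + 1 - 1 - j') := by
          refine Finset.sum_le_sum fun j' hj' => ?_
          have : j' ≤ j := by have := mem_range.mp hj'; omega
          exact h1 j' this
      _ = ∑ l ∈ range (j + 1), φ l := Finset.sum_range_reflect φ (j + 1)
      _ ≤ ∑ l ∈ range N, φ l :=
          Finset.sum_le_sum_of_subset_of_nonneg (Finset.range_subset_range.mpr (by omega))
            fun l _ _ => hφ l
  have k2 : ∑ j' ∈ Ico (j + 1) N, f j j' ≤ ∑ l ∈ range N, φ l := by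
    calc ∑ j' ∈ Ico (j + 1) N, f j j' ≤ ∑ j' ∈ Ico (j + 1) N, φ (j' - j) :=
          Finset.sum_le_sum fun j' hj' => h2 j' (by have := Finset.mem_Ico.mp hj'; omega)
      _ = ∑ l ∈ range (N - (j + 1)), φ (j + 1 + l - j) := Finset.sum_Ico_eq_sum_range _ _ _
      _ = ∑ l ∈ range (N - (j + 1)), φ (l + 1) := by
          refine Finset.sum_congr rfl fun l _ => ?_
          congr 1
          omega
      _ ≤ ∑ l ∈ range N, φ l := by
          have h3 : ∑ l ∈ range (N - (j + 1)), φ (l + 1) ≤ ∑ l ∈ range (N - (j + 1) + 1), φ l := by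
            rw [Finset.sum_range_succ']
            linarith [hφ 0]
          exact h3.trans (Finset.sum_le_sum_of_subset_of_nonneg
            (Finset.range_subset_range.mpr (by omega)) fun l _ _ => hφ l)
  linarith

theorem gram : ∃ C : ℝ, 0 < C ∧ ∀ (N : ℕ) (A B X β : ℝ), 1 ≤ N → 0 < A → 0 < B →
    8 * (A * B * |β|) ≤ N → ∀ j < N,
    ∑ j' ∈ range N, ‖∑ i ∈ range N,
      (if A * (1 + (i : ℝ) / N) * (B * (1 + (j : ℝ) / N)) ≤ X then
        ee (A * (1 + (i : ℝ) / N) * (B * (1 + (j : ℝ) / N)) * β) else 0) *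
      (starRingEnd ℂ) (if A * (1 + (i : ℝ) / N) * (B * (1 + (j' : ℝ) / N)) ≤ X then
        ee (A * (1 + (i : ℝ) / N) * (B * (1 + (j' : ℝ) / N)) * β) else 0)‖ ≤
      C * N ^ 2 * (1 + Real.log (1 + A * B * |β|)) / (1 + A * B * |β|) := by
  refine ⟨20, by norm_num, fun N A B X β hN hA hB hT j hj => ?_⟩
  have hN1 : (1 : ℝ) ≤ N := by exact_mod_cast hN
  have hN0 : (0 : ℝ) < N := by linarith
  obtain ⟨T, hTdef⟩ : ∃ T : ℝ, T = A * B * |β| := ⟨_, rfl⟩
  rw [← hTdef] at hT ⊢
  have hT0 : 0 ≤ T := by rw [hTdef]; positivity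
  set s : ℕ → ℂ := fun j' => ∑ i ∈ range N,
      (if A * (1 + (i : ℝ) / N) * (B * (1 + (j : ℝ) / N)) ≤ X then
        ee (A * (1 + (i : ℝ) / N) * (B * (1 + (j : ℝ) / N)) * β) else 0) *
      (starRingEnd ℂ) (if A * (1 + (i : ℝ) / N) * (B * (1 + (j' : ℝ) / N)) ≤ X then
        ee (A * (1 + (i : ℝ) / N) * (B * (1 + (j' : ℝ) / N)) * β) else 0) with hs
  -- the sum as a geometric sum
  have hgeo : ∀ j' : ℕ, ∃ M ≤ N, s j' = ∑ i ∈ range M,
      ee (A * B * (((j : ℝ) - j') / N) * β + i * (A * B * (((j : ℝ) - j') / N) * β / N)) := by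
    intro j'
    classical
    obtain ⟨M, hM, hsum⟩ := gram_initial
      (fun i => A * (1 + (i : ℝ) / N) * (B * (1 + (j : ℝ) / N)) ≤ X ∧
        A * (1 + (i : ℝ) / N) * (B * (1 + (j' : ℝ) / N)) ≤ X) (by
        intro i i' hii' hi'
        have h1 : (i : ℝ) / N ≤ (i' : ℝ) / N := by
          have : (i : ℝ) ≤ i' := by exact_mod_cast hii'
          gcongr
        have h2 : A * (1 + (i : ℝ) / N) ≤ A * (1 + (i' : ℝ) / N) := by gcongr
        exact ⟨(mul_le_mul_of_nonneg_right h2 (by positivity)).trans hi'.1,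
          (mul_le_mul_of_nonneg_right h2 (by positivity)).trans hi'.2⟩)
      (fun i => ee (A * B * (((j : ℝ) - j') / N) * β +
        i * (A * B * (((j : ℝ) - j') / N) * β / N))) N
    refine ⟨M, hM, ?_⟩
    rw [← hsum, hs]
    refine Finset.sum_congr rfl fun i _ => ?_
    by_cases h1 : A * (1 + (i : ℝ) / N) * (B * (1 + (j : ℝ) / N)) ≤ X
    · by_cases h2 : A * (1 + (i : ℝ) / N) * (B * (1 + (j' : ℝ) / N)) ≤ X
      · rw [if_pos h1, if_pos h2, if_pos ⟨h1, h2⟩, conj_ee, ← ee_add]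
        congr 1
        field_simp
        ring
      · rw [if_neg h2, map_zero, mul_zero, if_neg (fun h => h2 h.2)]
    · rw [if_neg h1, zero_mul, if_neg (fun h => h1 h.1)]
  -- bounds for one sum
  have hb1 : ∀ j', ‖s j'‖ ≤ N := by
    intro j'
    obtain ⟨M, hM, he⟩ := hgeo j'
    rw [he]
    refine (norm_sum_le _ _).trans ?_
    simp only [norm_ee, Finset.sum_const, Finset.card_range, nsmul_eq_mul, mul_one]
    exact_mod_cast hM
  have hb2 : ∀ j' : ℕ, j' < N → ‖s j'‖ * (2 * T * |(j : ℝ) - j'|) ≤ N ^ 2 := by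
    intro j' hj'
    obtain ⟨M, hM, he⟩ := hgeo j'
    have habs : |A * B * (((j : ℝ) - j') / N) * β / N| = T * |(j : ℝ) - j'| / N ^ 2 := by
      rw [abs_div, abs_mul, abs_mul, abs_div, abs_of_pos (mul_pos hA hB), abs_of_pos hN0, hTdef]
      field_simp
    have hjj : |(j : ℝ) - j'| ≤ N := by
      have e1 : (j : ℝ) ≤ N := by exact_mod_cast hj.le
      have e2 : (j' : ℝ) ≤ N := by exact_mod_cast hj'.le
      have e3 : (0 : ℝ) ≤ j := by positivity
      have e4 : (0 : ℝ) ≤ j' := by positivity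
      rw [abs_le]
      constructor <;> linarith
    have ht : |A * B * (((j : ℝ) - j') / N) * β / N| ≤ 1 / 2 := by
      rw [habs, div_le_iff₀ (by positivity)]
      have h1 : T * |(j : ℝ) - j'| ≤ T * N := mul_le_mul_of_nonneg_left hjj hT0
      nlinarith
    have h1 := gram_geom (A * B * (((j : ℝ) - j') / N) * β) _ ht M
    rw [← he, habs] at h1
    have h2 : ‖s j'‖ * (4 * (T * |(j : ℝ) - j'| / N ^ 2)) =
        ‖s j'‖ * (2 * T * |(j : ℝ) - j'|) * 2 / N ^ 2 := by
      field_simp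
      ring
    rw [h2, div_le_iff₀ (by positivity)] at h1
    linarith
  set φ : ℕ → ℝ := fun l => 2 * N ^ 2 / (N + 2 * T * l) with hφ
  have hφ0 : ∀ l, 0 ≤ φ l := fun l => by simp only [hφ]; positivity
  have hφ1 : ∀ l, φ l ≤ 2 * N := by
    intro l
    simp only [hφ]
    rw [div_le_iff₀ (by positivity)]
    have : 0 ≤ 2 * T * (l : ℝ) := by positivity
    nlinarith
  have hbd : ∀ (j' l : ℕ), j' < N → |(j : ℝ) - j'| = l → ‖s j'‖ ≤ φ l := by
    intro j' l hj' hl
    simp only [hφ]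
    rw [le_div_iff₀ (by positivity)]
    have h1 := hb2 j' hj'
    rw [hl] at h1
    have h2 := mul_le_mul_of_nonneg_right (hb1 j') hN0.le
    nlinarith
  have hmain : ∑ j' ∈ range N, ‖s j'‖ ≤ 2 * ∑ l ∈ range N, φ l := by
    have := gram_split (fun _ j' => if j' < N then ‖s j'‖ else 0) φ hφ0 N j hj
      (fun j' hj' => by
        rw [if_pos (by omega)]
        refine hbd j' (j - j') (by omega) ?_
        rw [Nat.cast_sub hj', abs_of_nonneg]
        have : (j' : ℝ) ≤ j := by exact_mod_cast hj'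
        linarith)
      (fun j' hj' => by
        by_cases h : j' < N
        · rw [if_pos h]
          refine hbd j' (j' - j) h ?_
          rw [Nat.cast_sub hj'.le, abs_of_nonpos]
          · ring
          · have : (j : ℝ) ≤ j' := by exact_mod_cast hj'.le
            linarith
        · rw [if_neg h]
          exact hφ0 _)
    refine le_trans (le_of_eq (Finset.sum_congr rfl fun j' hj' => ?_)) this
    rw [if_pos (mem_range.mp hj')]
  refine hmain.trans ?_
  have hlog0 : 0 ≤ Real.log (1 + T) := Real.log_nonneg (by linarith)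
  rw [le_div_iff₀ (by positivity)]
  rcases le_or_gt T 1 with h1 | h1
  · have h2 : ∑ l ∈ range N, φ l ≤ 2 * N ^ 2 := by
      have := Finset.sum_le_card_nsmul (range N) φ (2 * N) fun l _ => hφ1 l
      rw [Finset.card_range, nsmul_eq_mul] at this
      linarith
    have h3 : 2 * ∑ l ∈ range N, φ l * (1 + T) = 2 * (∑ l ∈ range N, φ l) * (1 + T) := by
      rw [← Finset.sum_mul]; ring
    have h4 : 0 ≤ (N : ℝ) ^ 2 := by positivity
    have h5 : (2 * ∑ l ∈ range N, φ l) * (1 + T) ≤ (2 * (2 * N ^ 2)) * 2 := by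
      refine mul_le_mul (by linarith) (by linarith) (by linarith) (by positivity)
    nlinarith
  · have hTpos : 0 < T := by linarith
    have h2 : ∑ l ∈ range N, φ l ≤ 2 * N + N ^ 2 / T * Real.log (1 + 2 * T) := by
      have h3 : ∑ l ∈ range N, φ l ≤ φ 0 + ∑ l ∈ range N, φ (l + 1) := by
        have h4 : ∑ l ∈ range (N + 1), φ l = ∑ l ∈ range N, φ (l + 1) + φ 0 :=
          Finset.sum_range_succ' φ N
        rw [Finset.sum_range_succ] at h4
        linarith [hφ0 N]
      have h5 := gram_log N T hN0 hT0 N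
      have h6 : ((N : ℝ) + 2 * T * N) / N = 1 + 2 * T := by field_simp
      rw [h6] at h5
      have h7 : ∑ l ∈ range N, φ (l + 1) = N ^ 2 / T * ∑ l ∈ range N, 2 * T / (N + 2 * T * (l + 1)) := by
        rw [Finset.mul_sum]
        refine Finset.sum_congr rfl fun l _ => ?_
        simp only [hφ]
        push_cast
        field_simp
      have h8 : ∑ l ∈ range N, φ (l + 1) ≤ N ^ 2 / T * Real.log (1 + 2 * T) := by
        rw [h7]
        exact mul_le_mul_of_nonneg_left h5 (by positivity)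
      linarith [hφ1 0]
    have h3 : Real.log (1 + 2 * T) ≤ 1 + Real.log (1 + T) := by
      have h4 : Real.log (1 + 2 * T) ≤ Real.log (2 * (1 + T)) :=
        Real.log_le_log (by positivity) (by linarith)
      rw [Real.log_mul (by norm_num) (by positivity)] at h4
      have h5 : Real.log 2 ≤ 1 := by
        have := Real.log_two_lt_d9
        linarith
      linarith
    have h4 : (N : ℝ) ^ 2 / T * Real.log (1 + 2 * T) * (1 + T) ≤ 2 * N ^ 2 * (1 + Real.log (1 + T)) := by
      have h5 : (N : ℝ) ^ 2 / T * (1 + T) ≤ 2 * N ^ 2 := by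
        rw [div_mul_eq_mul_div, div_le_iff₀ hTpos]
        have : 0 ≤ (N : ℝ) ^ 2 := by positivity
        nlinarith
      have h6 : 0 ≤ Real.log (1 + 2 * T) := Real.log_nonneg (by linarith)
      calc (N : ℝ) ^ 2 / T * Real.log (1 + 2 * T) * (1 + T) =
          ((N : ℝ) ^ 2 / T * (1 + T)) * Real.log (1 + 2 * T) := by ring
        _ ≤ (2 * N ^ 2) * (1 + Real.log (1 + T)) :=
            mul_le_mul h5 h3 h6 (by positivity)
        _ = _ := by ring
    have h5 : 2 * (N : ℝ) * (1 + T) ≤ N ^ 2 := by nlinarith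
    have h6 : (∑ l ∈ range N, φ l) * (1 + T) ≤
        (2 * N + N ^ 2 / T * Real.log (1 + 2 * T)) * (1 + T) :=
      mul_le_mul_of_nonneg_right h2 (by linarith)
    have h7 : (0 : ℝ) ≤ N ^ 2 * Real.log (1 + T) := by positivity
    have h8 : (0 : ℝ) ≤ (N : ℝ) ^ 2 := by positivity
    nlinarith

end Pool.MP_dd84fd_nt.L2G
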