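import Pool.Agent.Lib.MP_dd84fd_nt.L2G.BrunT
import Pool.Agent.Lib.MP_dd84fd_nt.L2G.Bilin
import Pool.Agent.Lib.MP_dd84fd_nt.L2G.Gram
import Pool.Agent.Lib.MP_dd84fd_nt.L2G.CvBasic

set_option autoImplicit false

namespace Pool.MP_dd84fd_nt.L2G

open Finset Pool.MP_67663b_nt.Odd

/-- the prime numbers of the dyadic block -/
private def blockP (A : ℕ) : Finset ℕ := (Ico A (2 * A)).filter Nat.Prime

/-- the index of the cell -/
private def blockC (A N a : ℕ) : ℕ := (a - A) * N / A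

private theorem block_mem {A a : ℕ} (ha : a ∈ blockP A) : A ≤ a ∧ a < 2 * A ∧ a.Prime := by
  unfold blockP at ha
  rw [Finset.mem_filter, Finset.mem_Ico] at ha
  exact ⟨ha.1.1, ha.1.2, ha.2⟩

private theorem blockC_lt {A N a : ℕ} (hN : 1 ≤ N) (ha : a ∈ blockP A) : blockC A N a < N := by
  obtain ⟨h1, h2, -⟩ := block_mem ha
  unfold blockC
  rw [Nat.div_lt_iff_lt_mul (by omega)]
  calc (a - A) * N < A * N := Nat.mul_lt_mul_of_pos_right (by omega) hN
    _ = N * A := Nat.mul_comm _ _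

private theorem blockC_bounds {A N a : ℕ} (hN : 1 ≤ N) (ha : a ∈ blockP A) :
    (A : ℝ) * (1 + (blockC A N a : ℝ) / N) ≤ a ∧
      (a : ℝ) < A * (1 + (blockC A N a : ℝ) / N) + A / N := by
  obtain ⟨h1, h2, -⟩ := block_mem ha
  have hA : 0 < A := by omega
  have hN0 : (0 : ℝ) < N := by exact_mod_cast hN
  have h3 : A * blockC A N a ≤ (a - A) * N := Nat.mul_div_le _ _
  have h4 : (a - A) * N < A * (blockC A N a + 1) := by
    unfold blockC
    exact Nat.lt_mul_div_succ _ hA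
  have h5 : (A : ℝ) * blockC A N a ≤ ((a : ℝ) - A) * N := by
    have : ((A * blockC A N a : ℕ) : ℝ) ≤ (((a - A) * N : ℕ) : ℝ) := by exact_mod_cast h3
    push_cast [Nat.cast_sub h1] at this
    exact this
  have h6 : ((a : ℝ) - A) * N < A * (blockC A N a + 1) := by
    have : (((a - A) * N : ℕ) : ℝ) < ((A * (blockC A N a + 1) : ℕ) : ℝ) := by exact_mod_cast h4
    push_cast [Nat.cast_sub h1] at this
    exact this
  constructor
  · have : (A : ℝ) * (1 + (blockC A N a : ℝ) / N) = A + A * blockC A N a / N := by ring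
    rw [this]
    have h7 : (A : ℝ) * blockC A N a / N ≤ a - A := by
      rw [div_le_iff₀ hN0]; exact h5
    linarith
  · have : (A : ℝ) * (1 + (blockC A N a : ℝ) / N) + A / N = A + A * (blockC A N a + 1) / N := by
      ring
    rw [this]
    have h7 : (a : ℝ) - A < A * (blockC A N a + 1) / N := by
      rw [lt_div_iff₀ hN0]; exact h6
    linarith

/-- weights of a cell and a residue class -/
private noncomputable def blockF (A N r i x : ℕ) : ℝ :=
  ∑ a ∈ (blockP A).filter (fun a => (blockC A N a, a % r) = (i, x)), Real.log a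

private theorem block_log_nonneg {A a : ℕ} (ha : a ∈ blockP A) : 0 ≤ Real.log a :=
  Real.log_nonneg (by exact_mod_cast (block_mem ha).2.2.one_lt.le)

private theorem blockF_nonneg (A N r i x : ℕ) : 0 ≤ blockF A N r i x :=
  Finset.sum_nonneg fun _ ha => block_log_nonneg (Finset.mem_filter.mp ha).1

/-- bound for the weights -/
private theorem blockF_le (C : ℝ) (hC : 0 < C)
    (hbt : ∀ r c x y : ℕ, 1 ≤ r → 4 * r ≤ y →
      (((Ioc x (x + y)).filter (fun p => p.Prime ∧ p ≡ c [MOD r])).card : ℝ) ≤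
        C * ((y : ℝ) / r) * (1 + Real.log (1 + Real.log r)) / Real.log ((y : ℝ) / r))
    (A N r i x : ℕ) (hN : 1 ≤ N) (hr : 1 ≤ r) (h1 : 4 * r * N ≤ A) (h2 : (N * r) ^ 4 ≤ A) :
    blockF A N r i x ≤ 6 * C * (1 + Real.log (1 + Real.log r)) * A / (N * r) := by
  have hN0 : (0 : ℝ) < N := by exact_mod_cast hN
  have hr0 : (0 : ℝ) < r := by exact_mod_cast hr
  have hA4 : 4 ≤ A := by
    calc 4 = 4 * 1 * 1 := by norm_num
      _ ≤ 4 * r * N := Nat.mul_le_mul (Nat.mul_le_mul_left 4 hr) hN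
      _ ≤ A := h1
  have hA0 : (0 : ℝ) < A := by exact_mod_cast (by omega : 0 < A)
  have hA1 : (4 : ℝ) ≤ A := by exact_mod_cast hA4
  set y' := A / N + 1 with hy'
  have hy1 : (A : ℝ) / N ≤ y' := by
    rw [div_le_iff₀ hN0]
    have : A < N * (A / N + 1) := Nat.lt_mul_div_succ A (by omega)
    have h3 : (A : ℝ) < N * (A / N + 1 : ℕ) := by exact_mod_cast this
    rw [hy']
    linarith
  have hy2 : (y' : ℝ) ≤ 2 * (A / N) := by
    have h3 : (((A / N : ℕ) : ℝ)) ≤ (A : ℝ) / N := Nat.cast_div_le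
    have h4 : (1 : ℝ) ≤ A / N := by
      rw [le_div_iff₀ hN0, one_mul]
      have : N ≤ A := by
        calc N = 1 * 1 * N := by ring
          _ ≤ 4 * r * N := Nat.mul_le_mul_right N (Nat.mul_le_mul (by norm_num) hr)
          _ ≤ A := h1
      exact_mod_cast this
    rw [hy']
    push_cast
    linarith
  have hy4 : 4 * r ≤ y' := by
    have : 4 * r ≤ A / N := (Nat.le_div_iff_mul_le (by omega)).mpr h1
    omega
  -- the interval containing the cell
  set x0 : ℕ := ⌈(A : ℝ) * (1 + (i : ℝ) / N)⌉₊ - 1 with hx0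
  have hsub : (blockP A).filter (fun a => (blockC A N a, a % r) = (i, x)) ⊆
      (Ioc x0 (x0 + y')).filter (fun p => p.Prime ∧ p ≡ x [MOD r]) := by
    intro a ha
    rw [Finset.mem_filter] at ha
    obtain ⟨haP, hax⟩ := ha
    rw [Prod.mk.injEq] at hax
    obtain ⟨hb1, hb2⟩ := blockC_bounds hN haP
    rw [hax.1] at hb1 hb2
    have hceil : ⌈(A : ℝ) * (1 + (i : ℝ) / N)⌉₊ ≤ a := Nat.ceil_le.mpr hb1
    have hcpos : 0 < ⌈(A : ℝ) * (1 + (i : ℝ) / N)⌉₊ := Nat.ceil_pos.mpr (by positivity)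
    have hx1 : x0 < a := by omega
    have hx2 : (a : ℝ) < x0 + 1 + A / N := by
      have h3 : (A : ℝ) * (1 + (i : ℝ) / N) ≤ ⌈(A : ℝ) * (1 + (i : ℝ) / N)⌉₊ := Nat.le_ceil _
      have h4 : ((⌈(A : ℝ) * (1 + (i : ℝ) / N)⌉₊ : ℕ) : ℝ) = x0 + 1 := by
        rw [hx0, Nat.cast_sub hcpos]
        push_cast
        ring
      linarith
    have hx3 : a ≤ x0 + y' := by
      by_contra hcon
      push Not at hcon
      have h5 : ((x0 + y' + 1 : ℕ) : ℝ) ≤ a := by exact_mod_cast hcon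
      push_cast at h5
      linarith
    rw [Finset.mem_filter, Finset.mem_Ioc]
    refine ⟨⟨hx1, hx3⟩, (block_mem haP).2.2, ?_⟩
    have hxr : x < r := by rw [← hax.2]; exact Nat.mod_lt _ hr
    show a % r = x % r
    rw [hax.2, Nat.mod_eq_of_lt hxr]
  have hcard := Finset.card_le_card hsub
  have hcard2 : (((blockP A).filter (fun a => (blockC A N a, a % r) = (i, x))).card : ℝ) ≤
      C * ((y' : ℝ) / r) * (1 + Real.log (1 + Real.log r)) / Real.log ((y' : ℝ) / r) :=
    le_trans (by exact_mod_cast hcard) (hbt r x x0 y' hr hy4)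
  -- logarithms
  have hlogA : 0 < Real.log A := Real.log_pos (by linarith)
  have hNr : (0 : ℝ) < N * r := by positivity
  have hlogNr : 4 * Real.log (N * r) ≤ Real.log A := by
    have h3 : ((N : ℝ) * r) ^ 4 ≤ A := by exact_mod_cast h2
    have h4 := Real.log_le_log (by positivity) h3
    rw [Real.log_pow] at h4
    push_cast at h4
    exact h4
  have hlog1 : 3 / 4 * Real.log A ≤ Real.log ((y' : ℝ) / r) := by
    have h3 : Real.log (A / (N * r)) ≤ Real.log ((y' : ℝ) / r) := by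
      refine Real.log_le_log (by positivity) ?_
      rw [← div_div]
      gcongr
    rw [Real.log_div hA0.ne' hNr.ne'] at h3
    linarith
  have hlog2 : Real.log (2 * A) ≤ 2 * Real.log A := by
    have h3 : Real.log (2 * A) ≤ Real.log ((A : ℝ) ^ 2) :=
      Real.log_le_log (by positivity) (by nlinarith)
    rw [Real.log_pow] at h3
    push_cast at h3
    exact h3
  have hrho : 0 ≤ 1 + Real.log (1 + Real.log r) := by
    have h3 : 0 ≤ Real.log r := Real.log_nonneg (by exact_mod_cast hr)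
    have h4 : 0 ≤ Real.log (1 + Real.log r) := Real.log_nonneg (by linarith)
    linarith
  have hF : blockF A N r i x ≤
      (((blockP A).filter (fun a => (blockC A N a, a % r) = (i, x))).card : ℝ) *
        Real.log (2 * A) := by
    unfold blockF
    have := Finset.sum_le_card_nsmul
      ((blockP A).filter (fun a => (blockC A N a, a % r) = (i, x)))
      (fun a : ℕ => Real.log a) (Real.log (2 * A)) (fun a ha => by
        obtain ⟨h3, h4, h5⟩ := block_mem (Finset.mem_filter.mp ha).1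
        refine Real.log_le_log (by exact_mod_cast h5.pos) ?_
        exact_mod_cast h4.le)
    rwa [nsmul_eq_mul] at this
  have hlog2A : 0 ≤ Real.log (2 * A) := Real.log_nonneg (by linarith)
  have hlogy : 0 < Real.log ((y' : ℝ) / r) := by linarith
  refine hF.trans ((mul_le_mul_of_nonneg_right hcard2 hlog2A).trans ?_)
  have h3 : Real.log (2 * A) / Real.log ((y' : ℝ) / r) ≤ 3 := by
    rw [div_le_iff₀ hlogy]
    linarith
  have h4 : C * ((y' : ℝ) / r) * (1 + Real.log (1 + Real.log r)) / Real.log ((y' : ℝ) / r) *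
      Real.log (2 * A) = C * (1 + Real.log (1 + Real.log r)) * ((y' : ℝ) / r) *
        (Real.log (2 * A) / Real.log ((y' : ℝ) / r)) := by ring
  rw [h4]
  have h5 : (y' : ℝ) / r ≤ 2 * A / (N * r) := by
    rw [div_le_div_iff₀ hr0 hNr]
    have h6 : (y' : ℝ) * N ≤ 2 * A := by
      have := mul_le_mul_of_nonneg_right hy2 hN0.le
      have h7 : 2 * ((A : ℝ) / N) * N = 2 * A := by field_simp
      linarith
    calc (y' : ℝ) * (N * r) = (y' * N) * r := by ring
      _ ≤ 2 * A * r := mul_le_mul_of_nonneg_right h6 hr0.le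
  calc C * (1 + Real.log (1 + Real.log r)) * ((y' : ℝ) / r) *
        (Real.log (2 * A) / Real.log ((y' : ℝ) / r)) ≤
      C * (1 + Real.log (1 + Real.log r)) * (2 * A / (N * r)) * 3 := by
        gcongr
    _ = 6 * C * (1 + Real.log (1 + Real.log r)) * A / (N * r) := by ring

private theorem block_mod (r : ℕ) (hr : 1 ≤ r) (y : ℤ) (a b : ℕ) :
    ee (((a * b : ℕ) : ℝ) * (y / r)) = ee (((a % r : ℕ) : ℝ) * ((b % r : ℕ) : ℝ) * y / r) := by
  have hr0 : (r : ℝ) ≠ 0 := by exact_mod_cast (by omega : r ≠ 0)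
  obtain ⟨a1, a2, ha⟩ : ∃ a1 a2 : ℕ, a1 = a % r ∧ a = a1 + r * a2 :=
    ⟨a % r, a / r, rfl, (Nat.mod_add_div a r).symm⟩
  obtain ⟨b1, b2, hb⟩ : ∃ b1 b2 : ℕ, b1 = b % r ∧ b = b1 + r * b2 :=
    ⟨b % r, b / r, rfl, (Nat.mod_add_div b r).symm⟩
  rw [← ha.1, ← hb.1]
  have h1' : (a : ℝ) = a1 + r * a2 := by exact_mod_cast ha.2
  have h2' : (b : ℝ) = b1 + r * b2 := by exact_mod_cast hb.2
  have h3 : ((a * b : ℕ) : ℝ) * (y / r) = (a1 : ℝ) * (b1 : ℝ) * y / r +
      ((((a1 : ℤ) * b2 + a2 * b1 + r * a2 * b2) * y : ℤ) : ℝ) := by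
    push_cast
    rw [h1', h2']
    field_simp
    ring
  rw [h3, ee_add_int]

/-- the kernel -/
private noncomputable def blockK (N : ℕ) (A B X β : ℝ) (i j : ℕ) : ℂ :=
  if A * (1 + (i : ℝ) / N) * (B * (1 + (j : ℝ) / N)) ≤ X then
    ee (A * (1 + (i : ℝ) / N) * (B * (1 + (j : ℝ) / N)) * β) else 0

/-- regrouping by cells and residue classes -/
private theorem block_regroup (A B N r : ℕ) (hN : 1 ≤ N) (hr : 1 ≤ r) (y : ℤ) (K : ℕ → ℕ → ℂ) :
    ∑ a ∈ blockP A, ∑ b ∈ blockP B, ((Real.log a * Real.log b : ℝ) : ℂ) *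
      ee (((a * b : ℕ) : ℝ) * (y / r)) * K (blockC A N a) (blockC B N b) =
    ∑ i ∈ range N, ∑ j ∈ range N, ∑ x ∈ range r, ∑ z ∈ range r,
      ((blockF A N r i x * blockF B N r j z : ℝ) : ℂ) * ee ((x : ℝ) * z * y / r) * K i j := by
  have hmA : ∀ a ∈ blockP A, (blockC A N a, a % r) ∈ range N ×ˢ range r := fun a ha =>
    Finset.mem_product.mpr ⟨mem_range.mpr (blockC_lt hN ha), mem_range.mpr (Nat.mod_lt _ hr)⟩
  have hmB : ∀ a ∈ blockP B, (blockC B N a, a % r) ∈ range N ×ˢ range r := fun a ha =>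
    Finset.mem_product.mpr ⟨mem_range.mpr (blockC_lt hN ha), mem_range.mpr (Nat.mod_lt _ hr)⟩
  have h1 : ∑ a ∈ blockP A, ∑ b ∈ blockP B, ((Real.log a * Real.log b : ℝ) : ℂ) *
      ee (((a * b : ℕ) : ℝ) * (y / r)) * K (blockC A N a) (blockC B N b) =
      ∑ p ∈ range N ×ˢ range r, ∑ q ∈ range N ×ˢ range r,
        ((blockF A N r p.1 p.2 * blockF B N r q.1 q.2 : ℝ) : ℂ) *
          ee ((p.2 : ℝ) * q.2 * y / r) * K p.1 q.1 := by
    rw [← Finset.sum_fiberwise_of_maps_to hmA]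
    refine Finset.sum_congr rfl fun p _ => ?_
    have h2 : ∀ a ∈ (blockP A).filter (fun a => (blockC A N a, a % r) = p),
        ∑ b ∈ blockP B, ((Real.log a * Real.log b : ℝ) : ℂ) *
          ee (((a * b : ℕ) : ℝ) * (y / r)) * K (blockC A N a) (blockC B N b) =
        ∑ q ∈ range N ×ˢ range r, ((Real.log a * blockF B N r q.1 q.2 : ℝ) : ℂ) *
          ee ((p.2 : ℝ) * q.2 * y / r) * K p.1 q.1 := by
      intro a ha
      have hap := (Finset.mem_filter.mp ha).2
      rw [← Finset.sum_fiberwise_of_maps_to hmB]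
      refine Finset.sum_congr rfl fun q _ => ?_
      unfold blockF
      push_cast
      rw [Finset.mul_sum, Finset.sum_mul, Finset.sum_mul]
      refine Finset.sum_congr rfl fun b hb => ?_
      have hbq := (Finset.mem_filter.mp hb).2
      have := block_mod r hr y a b
      push_cast at this
      rw [this]
      rw [← hap]
      have e1 : q.1 = blockC B N b := (congrArg Prod.fst hbq).symm
      have e2 : q.2 = b % r := (congrArg Prod.snd hbq).symm
      rw [e1, e2]
    rw [Finset.sum_congr rfl h2, Finset.sum_comm]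
    refine Finset.sum_congr rfl fun q _ => ?_
    rw [← Finset.sum_mul, ← Finset.sum_mul]
    congr 2
    rw [← Complex.ofReal_sum]
    congr 1
    rw [← Finset.sum_mul]
    rfl
  rw [h1, Finset.sum_product]
  refine Finset.sum_congr rfl fun i _ => ?_
  have h3 : ∀ x ∈ range r, ∑ q ∈ range N ×ˢ range r,
        ((blockF A N r i x * blockF B N r q.1 q.2 : ℝ) : ℂ) *
          ee ((x : ℝ) * q.2 * y / r) * K i q.1 =
      ∑ j ∈ range N, ∑ z ∈ range r, ((blockF A N r i x * blockF B N r j z : ℝ) : ℂ) *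
          ee ((x : ℝ) * z * y / r) * K i j := by
    intro x _
    rw [Finset.sum_product]
  rw [Finset.sum_congr rfl h3, Finset.sum_comm]

/-- the regrouped sum is small -/
private theorem block_main (C Cg : ℝ) (hC : 0 < C)
    (hbt : ∀ r c x y : ℕ, 1 ≤ r → 4 * r ≤ y →
      (((Ioc x (x + y)).filter (fun p => p.Prime ∧ p ≡ c [MOD r])).card : ℝ) ≤
        C * ((y : ℝ) / r) * (1 + Real.log (1 + Real.log r)) / Real.log ((y : ℝ) / r))
    (hCg : 0 < Cg)
    (hg : ∀ (N : ℕ) (A B X β : ℝ), 1 ≤ N → 0 < A → 0 < B →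
    8 * (A * B * |β|) ≤ N → ∀ j < N,
    ∑ j' ∈ range N, ‖∑ i ∈ range N,
      (if A * (1 + (i : ℝ) / N) * (B * (1 + (j : ℝ) / N)) ≤ X then
        ee (A * (1 + (i : ℝ) / N) * (B * (1 + (j : ℝ) / N)) * β) else 0) *
      (starRingEnd ℂ) (if A * (1 + (i : ℝ) / N) * (B * (1 + (j' : ℝ) / N)) ≤ X then
        ee (A * (1 + (i : ℝ) / N) * (B * (1 + (j' : ℝ) / N)) * β) else 0)‖ ≤
      Cg * N ^ 2 * (1 + Real.log (1 + A * B * |β|)) / (1 + A * B * |β|))
    (A B N r : ℕ) (X β : ℝ) (y : ℤ) (hN : 1 ≤ N) (hr : 1 ≤ r) (hy : IsCoprime y (r : ℤ))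
    (hA1 : 4 * r * N ≤ A) (hA2 : (N * r) ^ 4 ≤ A) (hB1 : 4 * r * N ≤ B) (hB2 : (N * r) ^ 4 ≤ B)
    (hT : 8 * ((A : ℝ) * B * |β|) ≤ N) :
    ‖∑ a ∈ blockP A, ∑ b ∈ blockP B, ((Real.log a * Real.log b : ℝ) : ℂ) *
      ee (((a * b : ℕ) : ℝ) * (y / r)) * blockK N A B X β (blockC A N a) (blockC B N b)‖ ≤
      36 * C ^ 2 * Real.sqrt Cg * (A * B) * ((1 + Real.log (1 + Real.log r)) ^ 2 / Real.sqrt r *
        Real.sqrt ((1 + Real.log (1 + A * B * |β|)) / (1 + A * B * |β|))) := by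
  have hN0 : (0 : ℝ) < N := by exact_mod_cast hN
  have hr0 : (0 : ℝ) < r := by exact_mod_cast hr
  have hNr1 : 1 ≤ r * N := Nat.mul_pos hr hN
  have hApos : 0 < A := lt_of_lt_of_le (by positivity) hA1
  have hBpos : 0 < B := lt_of_lt_of_le (by positivity) hB1
  have hA0 : (0 : ℝ) < A := by exact_mod_cast hApos
  have hB0 : (0 : ℝ) < B := by exact_mod_cast hBpos
  set ρ : ℝ := 1 + Real.log (1 + Real.log r) with hρ
  have hρ0 : 0 ≤ ρ := by
    have h3 : 0 ≤ Real.log r := Real.log_nonneg (by exact_mod_cast hr)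
    have h4 : 0 ≤ Real.log (1 + Real.log r) := Real.log_nonneg (by linarith)
    linarith
  set T : ℝ := A * B * |β| with hTdef
  have hT0 : 0 ≤ T := by positivity
  set Δ : ℝ := Cg * N ^ 2 * (1 + Real.log (1 + T)) / (1 + T) with hΔ
  have hlogT : 0 ≤ Real.log (1 + T) := Real.log_nonneg (by linarith)
  have hΔ0 : 0 ≤ Δ := by positivity
  rw [block_regroup A B N r hN hr y]
  have hb := bilin r hr y hy (range N) (range N) (blockF A N r) (blockF B N r)
    (blockK N A B X β) Δ (fun j hj => hg N A B X β hN hA0 hB0 hT j (mem_range.mp hj))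
  have hsum : ∀ A : ℕ, 4 * r * N ≤ A → (N * r) ^ 4 ≤ A →
      ∑ i ∈ range N, ∑ x ∈ range r, blockF A N r i x ^ 2 ≤ (6 * C * ρ * A) ^ 2 / (N * r) := by
    intro A hA1 hA2
    have h1 : ∀ i ∈ range N, ∑ x ∈ range r, blockF A N r i x ^ 2 ≤
        r * (6 * C * ρ * A / (N * r)) ^ 2 := by
      intro i _
      have := Finset.sum_le_card_nsmul (range r) (fun x => blockF A N r i x ^ 2)
        ((6 * C * ρ * A / (N * r)) ^ 2) (fun x _ =>
          pow_le_pow_left₀ (blockF_nonneg A N r i x)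
            (blockF_le C hC hbt A N r i x hN hr hA1 hA2) 2)
      rwa [Finset.card_range, nsmul_eq_mul] at this
    have h2 := Finset.sum_le_card_nsmul (range N) (fun i => ∑ x ∈ range r, blockF A N r i x ^ 2)
      _ h1
    rw [Finset.card_range, nsmul_eq_mul] at h2
    refine h2.trans (le_of_eq ?_)
    field_simp
  have hFA := hsum A hA1 hA2
  have hFB := hsum B hB1 hB2
  have hF0 : 0 ≤ ∑ j ∈ range N, ∑ z ∈ range r, blockF B N r j z ^ 2 :=
    Finset.sum_nonneg fun _ _ => Finset.sum_nonneg fun _ _ => sq_nonneg _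
  have hb2 : ‖∑ i ∈ range N, ∑ j ∈ range N, ∑ x ∈ range r, ∑ z ∈ range r,
      ((blockF A N r i x * blockF B N r j z : ℝ) : ℂ) * ee ((x : ℝ) * z * y / r) *
        blockK N A B X β i j‖ ^ 2 ≤
      r * Δ * ((6 * C * ρ * A) ^ 2 / (N * r)) * ((6 * C * ρ * B) ^ 2 / (N * r)) := by
    refine hb.trans ?_
    gcongr
  have hval : r * Δ * ((6 * C * ρ * A) ^ 2 / (N * r)) * ((6 * C * ρ * B) ^ 2 / (N * r)) =
      (36 * C ^ 2 * Real.sqrt Cg * (A * B) * (ρ ^ 2 / Real.sqrt r *
        Real.sqrt ((1 + Real.log (1 + T)) / (1 + T)))) ^ 2 := by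
    have e1 : Real.sqrt Cg ^ 2 = Cg := Real.sq_sqrt hCg.le
    have e2 : Real.sqrt r ^ 2 = r := Real.sq_sqrt hr0.le
    have e3 : Real.sqrt ((1 + Real.log (1 + T)) / (1 + T)) ^ 2 =
        (1 + Real.log (1 + T)) / (1 + T) := Real.sq_sqrt (by positivity)
    have h1T : (0 : ℝ) < 1 + T := by linarith
    simp only [mul_pow, div_pow]
    rw [e1, e2, e3, hΔ]
    field_simp
    ring
  rw [hval] at hb2
  exact le_of_sq_le_sq hb2 (by positivity)

/-- number of integers `b` with `X < a b ≤ X + D` -/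
private theorem block_count (a X : ℕ) (ha : 1 ≤ a) (D : ℝ) (hD : 0 ≤ D) (S : Finset ℕ) :
    ((S.filter fun b => X < a * b ∧ ((a * b : ℕ) : ℝ) ≤ X + D).card : ℝ) ≤ D / a + 1 := by
  have ha0 : (0 : ℝ) < a := by exact_mod_cast ha
  have hsub : (S.filter fun b => X < a * b ∧ ((a * b : ℕ) : ℝ) ≤ X + D) ⊆
      Ioc (X / a) ⌊((X : ℝ) + D) / a⌋₊ := by
    intro b hb
    rw [Finset.mem_filter] at hb
    obtain ⟨-, h1, h2⟩ := hb
    rw [Finset.mem_Ioc]
    constructor
    · rw [Nat.div_lt_iff_lt_mul (by omega)]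
      rw [Nat.mul_comm]
      exact h1
    · refine Nat.le_floor ?_
      rw [le_div_iff₀ ha0]
      push_cast at h2
      linarith
  have h1 := Finset.card_le_card hsub
  rw [Nat.card_Ioc] at h1
  have h2 : ((⌊((X : ℝ) + D) / a⌋₊ - X / a : ℕ) : ℝ) ≤ D / a + 1 := by
    have h3 : ((⌊((X : ℝ) + D) / a⌋₊ : ℕ) : ℝ) ≤ ((X : ℝ) + D) / a := Nat.floor_le (by positivity)
    have h4 : (X : ℝ) < a * ((X / a : ℕ) + 1) := by
      exact_mod_cast Nat.lt_mul_div_succ X (by omega : 0 < a)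
    have h5 : (X : ℝ) / a ≤ ((X / a : ℕ) : ℝ) + 1 := by
      rw [div_le_iff₀ ha0]
      linarith
    rcases le_total (X / a) ⌊((X : ℝ) + D) / a⌋₊ with h6 | h6
    · rw [Nat.cast_sub h6]
      have h7 : ((X : ℝ) + D) / a = X / a + D / a := add_div _ _ _
      linarith
    · rw [Nat.sub_eq_zero_of_le h6]
      push_cast
      positivity
  exact le_trans (by exact_mod_cast h1) h2

private theorem block_sum_log (A : ℕ) : ∑ a ∈ blockP A, Real.log a ≤ 4 * A := by
  have h1 := sum_la_le (2 * A)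
  have h2 : ∑ a ∈ blockP A, Real.log a ≤ ∑ n ∈ Icc 1 (2 * A), la (2 * A) n := by
    have h3 : ∑ a ∈ blockP A, Real.log a = ∑ a ∈ blockP A, la (2 * A) a := by
      refine Finset.sum_congr rfl fun a ha => ?_
      obtain ⟨h4, h5, h6⟩ := block_mem ha
      unfold la
      rw [if_pos ⟨h6, h5.le⟩]
    rw [h3]
    refine Finset.sum_le_sum_of_subset_of_nonneg ?_ ?_
    · intro a ha
      obtain ⟨h4, h5, h6⟩ := block_mem ha
      rw [Finset.mem_Icc]
      exact ⟨h6.pos, h5.le⟩
    · intro n hn _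
      unfold la
      split_ifs
      · exact Real.log_nonneg (by exact_mod_cast (Finset.mem_Icc.mp hn).1)
      · exact le_rfl
  push_cast at h1
  linarith

/-- replacing the smooth factor by its value at the corner of the cell -/
private theorem block_diff (A B N X : ℕ) (β : ℝ) (hN : 1 ≤ N) {a b : ℕ} (ha : a ∈ blockP A)
    (hb : b ∈ blockP B) :
    ‖(if a * b ≤ X then ee (((a * b : ℕ) : ℝ) * β) else 0) -
      blockK N A B X β (blockC A N a) (blockC B N b)‖ ≤
      10 * Real.pi * (A * B * |β|) / N +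
        (if X < a * b ∧ ((a * b : ℕ) : ℝ) ≤ X + 5 * (A * B) / N then 1 else 0) := by
  have hN0 : (0 : ℝ) < N := by exact_mod_cast hN
  have hN1 : (1 : ℝ) ≤ N := by exact_mod_cast hN
  obtain ⟨a1, a2⟩ := blockC_bounds hN ha
  obtain ⟨b1, b2⟩ := blockC_bounds hN hb
  obtain ⟨a3, a4, a5⟩ := block_mem ha
  obtain ⟨b3, b4, b5⟩ := block_mem hb
  set u : ℝ := A * (1 + (blockC A N a : ℝ) / N) with hu
  set v : ℝ := B * (1 + (blockC B N b : ℝ) / N) with hv
  have hA0 : (0 : ℝ) ≤ A := by positivity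
  have hB0 : (0 : ℝ) ≤ B := by positivity
  have hu0 : 0 ≤ u := by positivity
  have hv0 : 0 ≤ v := by positivity
  have ha2 : (a : ℝ) ≤ 2 * A := by exact_mod_cast a4.le
  have hb2 : (b : ℝ) ≤ 2 * B := by exact_mod_cast b4.le
  have ha0 : (0 : ℝ) ≤ a := by positivity
  have hb0 : (0 : ℝ) ≤ b := by positivity
  have hlow : u * v ≤ ((a * b : ℕ) : ℝ) := by
    push_cast
    exact mul_le_mul a1 b1 hv0 ha0
  have hup : ((a * b : ℕ) : ℝ) - u * v ≤ 5 * (A * B) / N := by
    push_cast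
    have e1 : (a : ℝ) * b - u * v = (a - u) * b + u * (b - v) := by ring
    have e2 : (a - u) * b ≤ A / N * (2 * B) :=
      mul_le_mul (by linarith) hb2 hb0 (by positivity)
    have e3 : u * (b - v) ≤ (2 * A) * (B / N) :=
      mul_le_mul (by linarith) (by linarith) (by linarith) (by positivity)
    have e4 : A / N * (2 * (B : ℝ)) + (2 * A) * (B / N) = 4 * (A * B) / N := by ring
    have e5 : 4 * ((A : ℝ) * B) / N ≤ 5 * (A * B) / N := by
      gcongr
      norm_num
    rw [e1]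
    linarith
  have hee : ‖ee (((a * b : ℕ) : ℝ) * β) - ee (u * v * β)‖ ≤ 10 * Real.pi * (A * B * |β|) / N := by
    refine (norm_ee_sub_ee_le _ _).trans ?_
    rw [← sub_mul, abs_mul, abs_of_nonneg (by linarith : 0 ≤ ((a * b : ℕ) : ℝ) - u * v)]
    calc 2 * Real.pi * ((((a * b : ℕ) : ℝ) - u * v) * |β|) ≤
        2 * Real.pi * (5 * (A * B) / N * |β|) := by gcongr
      _ = 10 * Real.pi * (A * B * |β|) / N := by ring
  have hpos : 0 ≤ 10 * Real.pi * (A * B * |β|) / N := by positivity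
  unfold blockK
  rw [← hu, ← hv]
  by_cases h1 : a * b ≤ X
  · have h1' : ((a * b : ℕ) : ℝ) ≤ X := by exact_mod_cast h1
    rw [if_pos h1, if_pos (hlow.trans h1')]
    refine hee.trans (le_add_of_nonneg_right ?_)
    split_ifs <;> norm_num
  · rw [if_neg h1]
    by_cases h2 : u * v ≤ X
    · rw [if_pos h2, zero_sub, norm_neg, norm_ee, if_pos ⟨by omega, by linarith⟩]
      linarith
    · rw [if_neg h2, sub_zero, norm_zero]
      refine add_nonneg hpos ?_
      split_ifs <;> norm_num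

theorem block : ∃ C : ℝ, 0 < C ∧ ∀ B0 : ℕ, ∃ C1 X0 : ℕ, ∀ X : ℕ, X0 ≤ X →
    ∀ (r : ℕ) (y : ℤ) (β : ℝ) (A B : ℕ), 1 ≤ r → (r : ℝ) ≤ Real.log X ^ B0 →
    IsCoprime y (r : ℤ) → |β| ≤ Real.log X ^ B0 / X → Real.log X ^ C1 ≤ A → Real.log X ^ C1 ≤ B →
    A * B ≤ X →
    ‖∑ a ∈ (Ico A (2 * A)).filter Nat.Prime, ∑ b ∈ (Ico B (2 * B)).filter Nat.Prime,
      if a * b ≤ X then ((Real.log a * Real.log b : ℝ) : ℂ) * ee (((a * b : ℕ) : ℝ) * (y / r + β))
        else 0‖ ≤
      C * (A * B) * ((1 + Real.log (1 + Real.log r)) ^ 2 / Real.sqrt r *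
        Real.sqrt ((1 + Real.log (1 + A * B * |β|)) / (1 + A * B * |β|))) +
      C * (A * B) / Real.log X ^ 2 := by
  obtain ⟨C, hC, hbt⟩ := brun_titchmarsh
  obtain ⟨Cg, hCg, hg⟩ := gram
  refine ⟨max (36 * C ^ 2 * Real.sqrt Cg) 1000, lt_of_lt_of_le (by norm_num) (le_max_right _ _),
    fun B0 => ⟨16 * (B0 + 5), ⌈Real.exp 16⌉₊, fun X hX r y β A B hr hrL hy hβ hA hB hAB => ?_⟩⟩
  set L := Real.log X with hL
  have hXe : Real.exp 16 ≤ X := (Nat.le_ceil _).trans (by exact_mod_cast hX)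
  have hXpos : (0 : ℝ) < X := lt_of_lt_of_le (Real.exp_pos _) hXe
  have hL16 : 16 ≤ L := by
    rw [hL, Real.le_log_iff_exp_le hXpos]
    exact hXe
  have hL1 : 1 ≤ L := by linarith
  have hL0 : 0 < L := by linarith
  set N : ℕ := ⌈L ^ (B0 + 4)⌉₊ with hNdef
  have hNlow : L ^ (B0 + 4) ≤ N := Nat.le_ceil _
  have hpow1 : 1 ≤ L ^ (B0 + 4) := one_le_pow₀ hL1
  have hNup : (N : ℝ) ≤ 2 * L ^ (B0 + 4) := by
    have := (Nat.ceil_lt_add_one (by positivity : 0 ≤ L ^ (B0 + 4))).le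
    rw [← hNdef] at this
    linarith
  have hN : 1 ≤ N := by
    have : (1 : ℝ) ≤ N := hpow1.trans hNlow
    exact_mod_cast this
  have hN0 : (0 : ℝ) < N := by exact_mod_cast hN
  have hr0 : (0 : ℝ) < r := by exact_mod_cast hr
  have hLB : 0 < L ^ B0 := by positivity
  -- size conditions
  have hNr : (N : ℝ) * r ≤ 2 * L ^ (2 * B0 + 4) := by
    calc (N : ℝ) * r ≤ (2 * L ^ (B0 + 4)) * L ^ B0 := by gcongr
      _ = 2 * L ^ (2 * B0 + 4) := by rw [mul_assoc, ← pow_add]; ring_nf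
  have hc2 : ((N : ℝ) * r) ^ 4 ≤ L ^ (16 * (B0 + 5)) := by
    calc ((N : ℝ) * r) ^ 4 ≤ (2 * L ^ (2 * B0 + 4)) ^ 4 := by gcongr
      _ = 16 * L ^ (8 * B0 + 16) := by rw [mul_pow, ← pow_mul]; ring_nf
      _ ≤ L * L ^ (8 * B0 + 16) := by gcongr
      _ = L ^ (8 * B0 + 17) := by rw [← pow_succ']
      _ ≤ L ^ (16 * (B0 + 5)) := pow_le_pow_right₀ hL1 (by omega)
  have hc1 : 4 * (r : ℝ) * N ≤ L ^ (16 * (B0 + 5)) := by
    calc 4 * (r : ℝ) * N = 4 * (N * r) := by ring
      _ ≤ 4 * (2 * L ^ (2 * B0 + 4)) := by gcongr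
      _ = 8 * L ^ (2 * B0 + 4) := by ring
      _ ≤ L * L ^ (2 * B0 + 4) := by
          have : (8 : ℝ) ≤ L := by linarith
          gcongr
      _ = L ^ (2 * B0 + 5) := by rw [← pow_succ']
      _ ≤ L ^ (16 * (B0 + 5)) := pow_le_pow_right₀ hL1 (by omega)
  have hA1 : 4 * r * N ≤ A := by exact_mod_cast hc1.trans hA
  have hA2 : (N * r) ^ 4 ≤ A := by exact_mod_cast hc2.trans hA
  have hB1 : 4 * r * N ≤ B := by exact_mod_cast hc1.trans hB
  have hB2 : (N * r) ^ 4 ≤ B := by exact_mod_cast hc2.trans hB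
  have hA4 : 4 ≤ A := by
    calc 4 = 4 * 1 * 1 := by norm_num
      _ ≤ 4 * r * N := Nat.mul_le_mul (Nat.mul_le_mul_left 4 hr) hN
      _ ≤ A := hA1
  have hB4 : 4 ≤ B := by
    calc 4 = 4 * 1 * 1 := by norm_num
      _ ≤ 4 * r * N := Nat.mul_le_mul (Nat.mul_le_mul_left 4 hr) hN
      _ ≤ B := hB1
  have hA0 : (0 : ℝ) < A := by exact_mod_cast (by omega : 0 < A)
  have hB0' : (0 : ℝ) < B := by exact_mod_cast (by omega : 0 < B)
  have hABr : (A : ℝ) * B ≤ X := by exact_mod_cast hAB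
  set T : ℝ := A * B * |β| with hTdef
  have hT0 : 0 ≤ T := by positivity
  have hTL : T ≤ L ^ B0 := by
    calc T ≤ X * (L ^ B0 / X) := by rw [hTdef]; gcongr
      _ = L ^ B0 := by field_simp
  have hT8 : 8 * T ≤ N := by
    refine le_trans ?_ hNlow
    calc 8 * T ≤ 8 * L ^ B0 := by gcongr
      _ ≤ L ^ 4 * L ^ B0 := by
          have h1 : (8 : ℝ) ≤ L ^ 4 := by
            calc (8 : ℝ) ≤ L := by linarith
              _ = L ^ 1 := (pow_one L).symm
              _ ≤ L ^ 4 := pow_le_pow_right₀ hL1 (by norm_num)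
          gcongr
      _ = L ^ (B0 + 4) := by rw [← pow_add]; ring_nf
  have hmain := block_main C Cg hC hbt hCg hg A B N r X β y hN hr hy hA1 hA2 hB1 hB2 hT8
  rw [← hTdef] at hmain
  -- the difference
  set S1 : ℂ := ∑ a ∈ blockP A, ∑ b ∈ blockP B,
      (if a * b ≤ X then ((Real.log a * Real.log b : ℝ) : ℂ) *
        ee (((a * b : ℕ) : ℝ) * (y / r + β)) else 0) with hS1
  set S2 : ℂ := ∑ a ∈ blockP A, ∑ b ∈ blockP B, ((Real.log a * Real.log b : ℝ) : ℂ) *
      ee (((a * b : ℕ) : ℝ) * (y / r)) * blockK N A B X β (blockC A N a) (blockC B N b) with hS2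
  have hdiff : ‖S1 - S2‖ ≤ 1000 * (A * B) / L ^ 2 := by
    have h1 : ‖S1 - S2‖ ≤ ∑ a ∈ blockP A, ∑ b ∈ blockP B, Real.log a * Real.log b *
        (10 * Real.pi * T / N +
          (if X < a * b ∧ ((a * b : ℕ) : ℝ) ≤ X + 5 * (A * B) / N then 1 else 0)) := by
      rw [hS1, hS2, ← Finset.sum_sub_distrib]
      refine (norm_sum_le _ _).trans (Finset.sum_le_sum fun a ha => ?_)
      rw [← Finset.sum_sub_distrib]
      refine (norm_sum_le _ _).trans (Finset.sum_le_sum fun b hb => ?_)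
      have e1 : (if a * b ≤ X then ((Real.log a * Real.log b : ℝ) : ℂ) *
          ee (((a * b : ℕ) : ℝ) * (y / r + β)) else 0) -
          ((Real.log a * Real.log b : ℝ) : ℂ) * ee (((a * b : ℕ) : ℝ) * (y / r)) *
            blockK N A B X β (blockC A N a) (blockC B N b) =
          ((Real.log a * Real.log b : ℝ) : ℂ) * ee (((a * b : ℕ) : ℝ) * (y / r)) *
            ((if a * b ≤ X then ee (((a * b : ℕ) : ℝ) * β) else 0) -
              blockK N A B X β (blockC A N a) (blockC B N b)) := by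
        rw [mul_sub]
        congr 1
        split_ifs
        · rw [mul_assoc, ← ee_add, mul_add]
        · rw [mul_zero]
      rw [e1, norm_mul, norm_mul, norm_ee, mul_one, Complex.norm_real, Real.norm_of_nonneg
        (mul_nonneg (block_log_nonneg ha) (block_log_nonneg hb))]
      exact mul_le_mul_of_nonneg_left (block_diff A B N X β hN ha hb)
        (mul_nonneg (block_log_nonneg ha) (block_log_nonneg hb))
    refine h1.trans ?_
    have h2 : ∑ a ∈ blockP A, ∑ b ∈ blockP B, Real.log a * Real.log b *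
        (10 * Real.pi * T / N +
          (if X < a * b ∧ ((a * b : ℕ) : ℝ) ≤ X + 5 * (A * B) / N then 1 else 0)) =
        (∑ a ∈ blockP A, Real.log a) * (∑ b ∈ blockP B, Real.log b) * (10 * Real.pi * T / N) +
        ∑ a ∈ blockP A, Real.log a * ∑ b ∈ (blockP B).filter
          (fun b => X < a * b ∧ ((a * b : ℕ) : ℝ) ≤ X + 5 * (A * B) / N), Real.log b := by
      simp only [mul_add, Finset.sum_add_distrib]
      congr 1
      · rw [Finset.sum_mul_sum, Finset.sum_mul]
        refine Finset.sum_congr rfl fun a _ => ?_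
        rw [Finset.sum_mul]
      · refine Finset.sum_congr rfl fun a _ => ?_
        rw [Finset.mul_sum, Finset.sum_filter]
        refine Finset.sum_congr rfl fun b _ => ?_
        split_ifs
        · ring
        · ring
    rw [h2]
    have hsA := block_sum_log A
    have hsB := block_sum_log B
    have hsA0 : 0 ≤ ∑ a ∈ blockP A, Real.log a := Finset.sum_nonneg fun a ha => block_log_nonneg ha
    have hsB0 : 0 ≤ ∑ a ∈ blockP B, Real.log a := Finset.sum_nonneg fun a ha => block_log_nonneg ha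
    have hNL : L ^ B0 / N ≤ 1 / L ^ 2 := by
      rw [div_le_div_iff₀ hN0 (by positivity), one_mul]
      calc L ^ B0 * L ^ 2 = L ^ (B0 + 2) := by rw [← pow_add]
        _ ≤ L ^ (B0 + 4) := pow_le_pow_right₀ hL1 (by omega)
        _ ≤ N := hNlow
    have hfirst : (∑ a ∈ blockP A, Real.log a) * (∑ b ∈ blockP B, Real.log b) *
        (10 * Real.pi * T / N) ≤ 640 * (A * B) / L ^ 2 := by
      have e1 : 10 * Real.pi * T / N ≤ 40 / L ^ 2 := by
        have h3 : T / N ≤ 1 / L ^ 2 := (div_le_div_of_nonneg_right hTL hN0.le).trans hNL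
        have h4 := Real.pi_le_four
        have h5 : 10 * Real.pi * T / N = 10 * Real.pi * (T / N) := by ring
        have h6 : (40 : ℝ) / L ^ 2 = 40 * (1 / L ^ 2) := by ring
        rw [h5, h6]
        refine mul_le_mul (by linarith) h3 (by positivity) (by norm_num)
      calc (∑ a ∈ blockP A, Real.log a) * (∑ b ∈ blockP B, Real.log b) *
          (10 * Real.pi * T / N) ≤ (4 * A) * (4 * B) * (40 / L ^ 2) := by
            refine mul_le_mul (mul_le_mul hsA hsB hsB0 (by positivity)) e1 (by positivity)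
              (by positivity)
        _ = 640 * (A * B) / L ^ 2 := by ring
    have hlogB : Real.log (2 * B) ≤ 2 * L := by
      have h3 : (2 * B : ℝ) ≤ (X : ℝ) ^ 2 := by
        have h4 : (B : ℝ) ≤ X := by
          have : (1 : ℝ) * B ≤ A * B := by
            have : (1 : ℝ) ≤ A := by exact_mod_cast (by omega : 1 ≤ A)
            gcongr
          linarith
        have h5 : (2 : ℝ) ≤ X := by
          have : (2 : ℝ) ≤ Real.exp 16 := by
            have := Real.add_one_le_exp (16 : ℝ)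
            linarith
          linarith
        nlinarith
      have h4 := Real.log_le_log (by positivity) h3
      rw [Real.log_pow] at h4
      push_cast at h4
      exact h4
    have hinner : ∀ a ∈ blockP A, ∑ b ∈ (blockP B).filter
          (fun b => X < a * b ∧ ((a * b : ℕ) : ℝ) ≤ X + 5 * (A * B) / N), Real.log b ≤
          12 * B / L ^ 2 := by
      intro a ha
      obtain ⟨a3, a4, a5⟩ := block_mem ha
      have haA : (A : ℝ) ≤ a := by exact_mod_cast a3
      have haR : (0 : ℝ) < a := by exact_mod_cast a5.pos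
      have h3 := block_count a X a5.pos (5 * (A * B) / N) (by positivity) (blockP B)
      have h4 : ∑ b ∈ (blockP B).filter
          (fun b => X < a * b ∧ ((a * b : ℕ) : ℝ) ≤ X + 5 * (A * B) / N), Real.log b ≤
          (((blockP B).filter (fun b => X < a * b ∧
            ((a * b : ℕ) : ℝ) ≤ X + 5 * (A * B) / N)).card : ℝ) * Real.log (2 * B) := by
        have := Finset.sum_le_card_nsmul ((blockP B).filter (fun b => X < a * b ∧
            ((a * b : ℕ) : ℝ) ≤ X + 5 * (A * B) / N)) (fun b : ℕ => Real.log b)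
            (Real.log (2 * B)) (fun b hb => by
          obtain ⟨h3, h4, h5⟩ := block_mem (Finset.mem_filter.mp hb).1
          refine Real.log_le_log (by exact_mod_cast h5.pos) ?_
          exact_mod_cast h4.le)
        rwa [nsmul_eq_mul] at this
      refine h4.trans ?_
      have h5 : 5 * ((A : ℝ) * B) / N / a ≤ 5 * B / N := by
        rw [div_div, div_le_div_iff₀ (by positivity) hN0]
        have : 5 * ((A : ℝ) * B) * N ≤ 5 * B * (N * a) := by
          have : 5 * ((A : ℝ) * B) * N = 5 * B * (N * A) := by ring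
          rw [this]
          gcongr
        exact this
      have h6 : (5 : ℝ) * B / N ≤ 5 * B / L ^ 3 := by
        have : L ^ 3 ≤ N := (pow_le_pow_right₀ hL1 (by omega)).trans hNlow
        gcongr
      have h7 : (1 : ℝ) ≤ B / L ^ 3 := by
        rw [le_div_iff₀ (by positivity), one_mul]
        exact (pow_le_pow_right₀ hL1 (by omega)).trans hB
      have h8 : (((blockP B).filter (fun b => X < a * b ∧
            ((a * b : ℕ) : ℝ) ≤ X + 5 * (A * B) / N)).card : ℝ) ≤ 6 * (B / L ^ 3) := by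
        have : (5 : ℝ) * B / L ^ 3 = 5 * (B / L ^ 3) := by ring
        linarith
      have h9 : 0 ≤ Real.log (2 * B) := Real.log_nonneg (by
        have : (4 : ℝ) ≤ B := by exact_mod_cast hB4
        linarith)
      calc (((blockP B).filter (fun b => X < a * b ∧
            ((a * b : ℕ) : ℝ) ≤ X + 5 * (A * B) / N)).card : ℝ) * Real.log (2 * B) ≤
          (6 * (B / L ^ 3)) * (2 * L) := mul_le_mul h8 hlogB h9 (by positivity)
        _ = 12 * B / L ^ 2 := by field_simp; ring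
    have hsecond : ∑ a ∈ blockP A, Real.log a * ∑ b ∈ (blockP B).filter
          (fun b => X < a * b ∧ ((a * b : ℕ) : ℝ) ≤ X + 5 * (A * B) / N), Real.log b ≤
          48 * (A * B) / L ^ 2 := by
      calc ∑ a ∈ blockP A, Real.log a * ∑ b ∈ (blockP B).filter
              (fun b => X < a * b ∧ ((a * b : ℕ) : ℝ) ≤ X + 5 * (A * B) / N), Real.log b ≤
            ∑ a ∈ blockP A, Real.log a * (12 * B / L ^ 2) :=
            Finset.sum_le_sum fun a ha =>
              mul_le_mul_of_nonneg_left (hinner a ha) (block_log_nonneg ha)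
        _ = (∑ a ∈ blockP A, Real.log a) * (12 * B / L ^ 2) := by rw [Finset.sum_mul]
        _ ≤ (4 * A) * (12 * B / L ^ 2) := mul_le_mul_of_nonneg_right hsA (by positivity)
        _ = 48 * (A * B) / L ^ 2 := by ring
    have hfin : 640 * ((A : ℝ) * B) / L ^ 2 + 48 * (A * B) / L ^ 2 ≤ 1000 * (A * B) / L ^ 2 := by
      rw [← add_div]
      gcongr
      nlinarith [mul_pos hA0 hB0']
    linarith
  have hS : ‖S1‖ ≤ ‖S1 - S2‖ + ‖S2‖ := by
    have := norm_add_le (S1 - S2) S2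
    rwa [sub_add_cancel] at this
  have hgoal : ‖S1‖ ≤ max (36 * C ^ 2 * Real.sqrt Cg) 1000 * (A * B) *
      ((1 + Real.log (1 + Real.log r)) ^ 2 / Real.sqrt r *
        Real.sqrt ((1 + Real.log (1 + T)) / (1 + T))) +
      max (36 * C ^ 2 * Real.sqrt Cg) 1000 * (A * B) / L ^ 2 := by
    have k1 : ‖S2‖ ≤ max (36 * C ^ 2 * Real.sqrt Cg) 1000 * (A * B) *
      ((1 + Real.log (1 + Real.log r)) ^ 2 / Real.sqrt r *
        Real.sqrt ((1 + Real.log (1 + T)) / (1 + T))) := by
      refine hmain.trans ?_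
      gcongr
      exact le_max_left _ _
    have k2 : 1000 * ((A : ℝ) * B) / L ^ 2 ≤
        max (36 * C ^ 2 * Real.sqrt Cg) 1000 * (A * B) / L ^ 2 := by
      gcongr
      exact le_max_right _ _
    linarith
  exact hgoal

end Pool.MP_dd84fd_nt.L2G
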