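import Pool.Agent.Lib.MP_dd84fd_nt.L2G.SepVar
import Pool.Agent.Lib.MP_dd84fd_nt.L2G.PV
import Pool.Agent.Lib.MP_dd84fd_nt.L2G.HBBound
import Pool.Agent.Lib.MP_dd84fd_nt.DivBound

set_option autoImplicit false

namespace Pool.MP_dd84fd_nt.L2G

open Finset Pool.MP_67663b_nt.Odd

private theorem bci_ev_log (D : ℝ) (E : ℕ) (s : ℝ) (hs : 0 < s) :
    ∃ X0 : ℕ, ∀ X : ℕ, X0 ≤ X → D * Real.log X ^ E ≤ (X : ℝ) ^ s := by
  have h := (isLittleO_log_rpow_rpow_atTop (E : ℝ) hs).bound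
    (show (0 : ℝ) < 1 / (|D| + 1) by positivity)
  have h2 := tendsto_natCast_atTop_atTop (R := ℝ) |>.eventually h
  obtain ⟨N, hN⟩ := Filter.eventually_atTop.mp h2
  refine ⟨N, fun X hX => ?_⟩
  have h3 := hN X hX
  rw [Real.rpow_natCast] at h3
  have h4 : |Real.log X ^ E| ≤ 1 / (|D| + 1) * (X : ℝ) ^ s := by
    have := h3
    rw [Real.norm_eq_abs, Real.norm_eq_abs, abs_of_nonneg (Real.rpow_nonneg (Nat.cast_nonneg X) s)]
      at this
    exact this
  have hp : 0 < |D| + 1 := by positivity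
  have hX0 : (0 : ℝ) ≤ (X : ℝ) ^ s := Real.rpow_nonneg (Nat.cast_nonneg X) s
  calc D * Real.log X ^ E ≤ |D * Real.log X ^ E| := le_abs_self _
    _ = |D| * |Real.log X ^ E| := abs_mul _ _
    _ ≤ |D| * (1 / (|D| + 1) * (X : ℝ) ^ s) := mul_le_mul_of_nonneg_left h4 (abs_nonneg _)
    _ = (|D| / (|D| + 1)) * (X : ℝ) ^ s := by ring
    _ ≤ 1 * (X : ℝ) ^ s := by
        apply mul_le_mul_of_nonneg_right _ hX0
        rw [div_le_one hp]
        linarith
    _ = (X : ℝ) ^ s := one_mul _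

private theorem bci_range (z : ℕ) (j : Fin 6) (i n : ℕ) (h : bf z j i n ≠ 0) :
    2 ^ i ≤ n ∧ n < 2 ^ (i + 1) := by
  by_contra hc
  apply h
  unfold bf restr
  rw [ArithmeticFunction.coe_mk, if_neg hc]

/-- the size of the first factor -/
private theorem bci_size (X z : ℕ) (a : Fin 6) (i : ℕ) (ha : (a : ℕ) < 3) (hX : 1 ≤ X)
    (hP : 2 ^ i ≤ X) (n : ℕ) : 0 ≤ bf z a i n ∧ bf z a i n ≤ 2 + Real.log X := by
  have hL : 0 ≤ Real.log X := Real.log_nonneg (by exact_mod_cast hX)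
  by_cases h0 : bf z a i n = 0
  · rw [h0]
    exact ⟨le_rfl, by linarith⟩
  obtain ⟨h1, h2⟩ := bci_range z a i n h0
  have hn : 1 ≤ n := le_trans (Nat.one_le_two_pow) h1
  obtain ⟨h3, h4⟩ := (bf_smooth z a i ha).1 n hn
  refine ⟨h3, h4.trans ?_⟩
  have h5 : n ≤ 2 * X := by
    rw [pow_succ] at h2
    omega
  have h6 : Real.log n ≤ Real.log (2 * X) :=
    Real.log_le_log (by exact_mod_cast hn) (by exact_mod_cast h5)
  have hX0 : (X : ℝ) ≠ 0 := by
    have : X ≠ 0 := by omega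
    exact_mod_cast this
  rw [Real.log_mul (by norm_num) hX0] at h6
  have h7 : Real.log 2 ≤ 1 := by
    have := Real.log_two_lt_d9
    linarith
  linarith

/-- trivial bound on a cell -/
private theorem bci_triv (X z : ℕ) (a : Fin 6) (i : ℕ) (ha : (a : ℕ) < 3) (hX : 1 ≤ X)
    (hP : 2 ^ i ≤ X) (q : ℕ) (χ : DirichletCharacter ℂ q) (T : Finset ℕ) :
    ‖∑ m ∈ T, ((bf z a i m : ℝ) : ℂ) * χ m‖ ≤ (2 ^ i : ℕ) * (2 + Real.log X) := by
  classical
  have h1 : ∑ m ∈ T, ((bf z a i m : ℝ) : ℂ) * χ m =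
      ∑ m ∈ T.filter (fun m => m ∈ Ico (2 ^ i) (2 ^ (i + 1))), ((bf z a i m : ℝ) : ℂ) * χ m := by
    symm
    apply Finset.sum_filter_of_ne
    intro m _ hm
    have h2 : bf z a i m ≠ 0 := by
      intro h0
      rw [h0] at hm
      simp at hm
    rw [Finset.mem_Ico]
    exact bci_range z a i m h2
  rw [h1]
  have hL : 0 ≤ Real.log X := Real.log_nonneg (by exact_mod_cast hX)
  calc _ ≤ ∑ m ∈ T.filter (fun m => m ∈ Ico (2 ^ i) (2 ^ (i + 1))),
        ‖((bf z a i m : ℝ) : ℂ) * χ m‖ := norm_sum_le _ _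
    _ ≤ ∑ m ∈ T.filter (fun m => m ∈ Ico (2 ^ i) (2 ^ (i + 1))), (2 + Real.log X) := by
        refine Finset.sum_le_sum fun m _ => ?_
        obtain ⟨h2, h3⟩ := bci_size X z a i ha hX hP m
        rw [norm_mul, Complex.norm_real, Real.norm_eq_abs, abs_of_nonneg h2]
        calc bf z a i m * ‖χ m‖ ≤ (2 + Real.log X) * 1 :=
              mul_le_mul h3 (DirichletCharacter.norm_le_one χ _) (norm_nonneg _) (by linarith)
          _ = 2 + Real.log X := mul_one _
    _ = ((T.filter (fun m => m ∈ Ico (2 ^ i) (2 ^ (i + 1)))).card : ℝ) * (2 + Real.log X) := by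
        rw [Finset.sum_const, nsmul_eq_mul]
    _ ≤ (2 ^ i : ℕ) * (2 + Real.log X) := by
        apply mul_le_mul_of_nonneg_right _ (by linarith)
        have h2 : (T.filter (fun m => m ∈ Ico (2 ^ i) (2 ^ (i + 1)))).card ≤ 2 ^ i := by
          calc _ ≤ (Ico (2 ^ i) (2 ^ (i + 1))).card := by
                apply Finset.card_le_card
                intro m hm
                exact (Finset.mem_filter.1 hm).2
            _ = 2 ^ i := by
                rw [Nat.card_Ico, pow_succ]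
                omega
        exact_mod_cast h2

/-- Pólya-Vinogradov on a cell -/
private theorem bci_pv {C : ℝ} (q : ℕ) [NeZero q] (χ : DirichletCharacter ℂ q)
    (hpv : ∀ (r c M N : ℕ) (g : ℕ → ℝ) (G : ℝ), Nat.Coprime r q → 1 ≤ r → 0 ≤ G →
    MonotoneOn g (Set.Ico M N) → (∀ n ∈ Ico M N, 0 ≤ g n ∧ g n ≤ G) →
    ‖∑ n ∈ (Ico M N).filter (fun n => n % r = c), (g n : ℂ) * χ n‖ ≤
      C * G * (q.divisors.card : ℝ) * Real.sqrt q * (1 + Real.log q))
    (X z : ℕ) (a : Fin 6) (i : ℕ) (ha : (a : ℕ) < 3) (hX : 1 ≤ X)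
    (hP : 2 ^ i ≤ X) (r c M N : ℕ) (hrq : Nat.Coprime r q) (hr : 1 ≤ r) (hM : 2 ^ i ≤ M) :
    ‖∑ m ∈ (Ico M N).filter (fun m => m % r = c), ((bf z a i m : ℝ) : ℂ) * χ m‖ ≤
      C * (2 + Real.log X) * (q.divisors.card : ℝ) * Real.sqrt q * (1 + Real.log q) := by
  classical
  have hL : 0 ≤ Real.log X := Real.log_nonneg (by exact_mod_cast hX)
  have h1 : ∑ m ∈ (Ico M N).filter (fun m => m % r = c), ((bf z a i m : ℝ) : ℂ) * χ m =
      ∑ m ∈ (Ico M (min N (2 ^ (i + 1)))).filter (fun m => m % r = c),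
        ((bf z a i m : ℝ) : ℂ) * χ m := by
    symm
    apply Finset.sum_subset
    · intro m hm
      rw [Finset.mem_filter, Finset.mem_Ico] at hm ⊢
      exact ⟨⟨hm.1.1, hm.1.2.trans_le (min_le_left _ _)⟩, hm.2⟩
    · intro m hm hm'
      rw [Finset.mem_filter, Finset.mem_Ico] at hm hm'
      have h2 : bf z a i m = 0 := by
        by_contra h0
        obtain ⟨-, h3⟩ := bci_range z a i m h0
        exact hm' ⟨⟨hm.1.1, lt_min hm.1.2 h3⟩, hm.2⟩
      rw [h2]
      simp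
  rw [h1]
  refine hpv r c M (min N (2 ^ (i + 1))) (fun m => bf z a i m) (2 + Real.log X) hrq hr
    (by linarith) ?_ ?_
  · refine ((bf_smooth z a i ha).2).mono ?_
    intro m hm
    exact ⟨hM.trans hm.1, hm.2.trans_le (min_le_right _ _)⟩
  · intro m _
    exact bci_size X z a i ha hX hP m

/-- the final inequality -/
private theorem bci_arith (C1 A B A2 : ℕ) (L t Y r H V K q : ℝ) (hL : 2 ≤ L) (ht : 0 < t)
    (hr0 : 0 ≤ r) (hr : r ≤ L ^ B) (hH0 : 0 ≤ H) (hH : H ≤ 2 * L ^ A2)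
    (hV : V ^ 2 * (K + q) * K ≤ Y * L ^ 8 * t ^ 234) (hY : 0 ≤ Y) (hK : 0 ≤ K) (hq : 0 ≤ q)
    (hbig : 8 * Y * L ^ (2 * C1 + 2 * B + 2 * A2 + 8 + A) ≤ t ^ 6) :
    (2 + L) ^ C1 * ((r * H * V) ^ 2 * (K + q) * K) ≤ (t ^ 120) ^ 2 / (2 * L ^ A) := by
  have hL0 : 0 < L := by linarith
  have h1 : (2 + L) ^ C1 ≤ L ^ (2 * C1) := by
    rw [pow_mul]
    apply pow_le_pow_left₀ (by linarith)
    nlinarith only [hL]
  have h2 : (r * H) ^ 2 ≤ 4 * L ^ (2 * B + 2 * A2) := by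
    have h3 : r * H ≤ L ^ B * (2 * L ^ A2) := mul_le_mul hr hH hH0 (by positivity)
    calc (r * H) ^ 2 ≤ (L ^ B * (2 * L ^ A2)) ^ 2 := pow_le_pow_left₀ (by positivity) h3 2
      _ = 4 * L ^ (2 * B + 2 * A2) := by ring
  have h4 : (r * H * V) ^ 2 * (K + q) * K = (r * H) ^ 2 * (V ^ 2 * (K + q) * K) := by ring
  rw [h4]
  have h5 : 0 ≤ V ^ 2 * (K + q) * K := by positivity
  rw [le_div_iff₀ (by positivity)]
  calc (2 + L) ^ C1 * ((r * H) ^ 2 * (V ^ 2 * (K + q) * K)) * (2 * L ^ A) ≤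
      L ^ (2 * C1) * ((4 * L ^ (2 * B + 2 * A2)) * (Y * L ^ 8 * t ^ 234)) * (2 * L ^ A) := by
        apply mul_le_mul_of_nonneg_right _ (by positivity)
        apply mul_le_mul h1 _ (by positivity) (by positivity)
        exact mul_le_mul h2 hV h5 (by positivity)
    _ = (8 * Y * L ^ (2 * C1 + 2 * B + 2 * A2 + 8 + A)) * t ^ 234 := by ring
    _ ≤ t ^ 6 * t ^ 234 := mul_le_mul_of_nonneg_right hbig (by positivity)
    _ = (t ^ 120) ^ 2 := by ring

theorem box_char_I2 (ε : ℝ) (hε : 0 < ε) (hε1 : ε < 1) (A B : ℕ) : ∃ X0 : ℕ, ∀ X : ℕ, X0 ≤ X →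
    ∀ (q : ℕ) [NeZero q], (q : ℝ) ≤ (X : ℝ) ^ (2 / 3 - ε) → ∀ (r : ℕ) (y : ℤ) (β : ℝ), 1 ≤ r →
    (r : ℝ) ≤ Real.log X ^ B → Nat.Coprime r q → |β| ≤ Real.log X ^ B / X →
    ∀ (z : ℕ) (v : Fin 6 → ℕ) (a b : Fin 6), a ≠ b → (a : ℕ) < 3 → (b : ℕ) < 3 → v b ≤ v a →
      ∏ j, 2 ^ v j ≤ X →
      ((∏ j ∈ (univ.erase a).erase b, 2 ^ v j : ℕ) : ℝ) ≤ (X : ℝ) ^ (1 / 24 : ℝ) →
      ∀ 𝓖 : Finset (DirichletCharacter ℂ q), (1 : DirichletCharacter ℂ q) ∉ 𝓖 →
        ∑ χ ∈ 𝓖, ‖Tc X q (fun n => TT z v n) (y / r + β) χ‖ ^ 2 ≤ X ^ 2 / Real.log X ^ A := by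
  classical
  obtain ⟨C1, hC1⟩ := sep_var
  obtain ⟨Cp, hCp, hpv⟩ := pv
  obtain ⟨Cd, hCd1, hCd⟩ := Pool.Agent.Lib.MP_dd84fd_nt.DivBound.div_bound 240
  set E : ℕ := 2 * C1 + A + 2 + B with hE
  set A2 : ℕ := 2 * E with hA2
  set Y : ℝ := 1056 + 2 * Cp ^ 2 * Cd with hY
  have hCd0 : (1 : ℝ) ≤ Cd := by exact_mod_cast hCd1
  have hY0 : 0 ≤ Y := by positivity
  obtain ⟨X1, hX1⟩ := bci_ev_log (8 * Y) (2 * C1 + 2 * B + 2 * A2 + 8 + A) (1 / 20) (by norm_num)
  obtain ⟨X2, hX2⟩ := bci_ev_log 1 B 1 one_pos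
  obtain ⟨X3, hX3⟩ := bci_ev_log 2 A2 1 one_pos
  refine ⟨max (max X1 X2) (max X3 8), ?_⟩
  intro X hX q _ hq r y β hr hrB hrq hβ z v a b hab ha3 hb3 hvab hprod hrest 𝓖 h𝓖
  have hXX1 : X1 ≤ X := le_trans (le_trans (le_max_left _ _) (le_max_left _ _)) hX
  have hXX2 : X2 ≤ X := le_trans (le_trans (le_max_right _ _) (le_max_left _ _)) hX
  have hXX3 : X3 ≤ X := le_trans (le_trans (le_max_left _ _) (le_max_right _ _)) hX
  have hX8 : 8 ≤ X := le_trans (le_trans (le_max_right _ _) (le_max_right _ _)) hX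
  have e1 := hX1 X hXX1
  have e2 := hX2 X hXX2
  have e3 := hX3 X hXX3
  rw [Real.rpow_one] at e2 e3
  rw [one_mul] at e2
  have hX8' : (8 : ℝ) ≤ X := by exact_mod_cast hX8
  have hX0 : (0 : ℝ) < X := by linarith only [hε, hε1, hX8']
  set L : ℝ := Real.log X with hL
  have hL2 : 2 ≤ L := by
    rw [hL, Real.le_log_iff_exp_le hX0]
    have h1 : Real.exp 2 = Real.exp 1 * Real.exp 1 := by
      rw [← Real.exp_add]
      norm_num
    have h2 := Real.exp_one_lt_d9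
    have h3 := Real.exp_pos 1
    rw [h1]
    nlinarith only [hX8', hε, hε1, h2, h3]
  have hL0 : 0 < L := by linarith only [hε, hε1, hL2]
  -- the root
  set t : ℝ := (X : ℝ) ^ (1 / 120 : ℝ) with ht
  have ht0 : 0 < t := Real.rpow_pos_of_pos hX0 _
  have ht1 : 1 ≤ t := Real.one_le_rpow (by linarith only [hε, hε1, hX8']) (by norm_num)
  have htp : ∀ k : ℕ, t ^ k = (X : ℝ) ^ ((k : ℝ) / 120) := by
    intro k
    rw [ht, ← Real.rpow_natCast, ← Real.rpow_mul hX0.le]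
    congr 1
    ring
  have htX : t ^ 120 = X := by
    rw [htp]
    norm_num
  have ht6 : (X : ℝ) ^ (1 / 20 : ℝ) = t ^ 6 := by
    rw [htp]
    norm_num
  have ht5 : (X : ℝ) ^ (1 / 24 : ℝ) = t ^ 5 := by
    rw [htp]
    norm_num
  have hqt : (q : ℝ) ≤ t ^ 80 := by
    refine hq.trans ?_
    rw [htp]
    apply Real.rpow_le_rpow_of_exponent_le (by linarith only [hε, hε1, hX8'])
    norm_num
    linarith only [hε]
  rw [ht6] at e1
  rw [ht5] at hrest
  have hq0 : (0 : ℝ) ≤ q := Nat.cast_nonneg q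
  have hq1 : 1 ≤ q := Nat.one_le_iff_ne_zero.2 (NeZero.ne q)
  have hqX : (q : ℝ) ≤ X := by
    rw [← htX]
    exact hqt.trans (pow_le_pow_right₀ ht1 (by norm_num))
  -- the parameters
  set P : ℕ := 2 ^ v a with hP
  have hP1 : 1 ≤ P := Nat.one_le_two_pow
  have hPX : P ≤ X := by
    refine le_trans ?_ hprod
    exact Nat.le_of_dvd (Finset.prod_pos fun j _ => by positivity)
      (Finset.dvd_prod_of_mem (fun j => 2 ^ v j) (Finset.mem_univ a))
  set H : ℕ := ⌈L ^ A2⌉₊ with hH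
  have hLA2 : 1 ≤ L ^ A2 := one_le_pow₀ (by linarith only [hε, hε1, hL2])
  have hH1 : 1 ≤ H := by
    rw [hH, Nat.one_le_ceil_iff]
    linarith only [hε, hε1, hLA2]
  have hHle : (H : ℝ) ≤ 2 * L ^ A2 := by
    have := Nat.ceil_lt_add_one (show 0 ≤ L ^ A2 by positivity)
    rw [hH]
    linarith only [hLA2, this]
  have hHge : L ^ A2 ≤ (H : ℝ) := Nat.le_ceil _
  have hHX : H ≤ X := by
    have h1 : (H : ℝ) ≤ X := hHle.trans e3
    exact_mod_cast h1
  have hrX : r ≤ X := by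
    have h1 : (r : ℝ) ≤ X := hrB.trans e2
    exact_mod_cast h1
  -- the two factors
  set af : ArithmeticFunction ℝ := bf z a (v a) with haf
  set bfn : ArithmeticFunction ℝ := ∏ j ∈ univ.erase a, bf z j (v j) with hbfn
  have hTT : TT z v = af * bfn := by
    unfold TT
    rw [hbfn, haf, Finset.mul_prod_erase univ (fun j => bf z j (v j)) (Finset.mem_univ a)]
  have hafb : ∀ n, 1 ≤ n → |af n| ≤ (1 + Real.log n) * (n.divisors.card : ℝ) ^ 5 := by
    intro n hn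
    have := prod_bound z v {a} n hn
    rwa [Finset.prod_singleton] at this
  have hbfb : ∀ n, 1 ≤ n → |bfn n| ≤ (1 + Real.log n) * (n.divisors.card : ℝ) ^ 5 :=
    fun n hn => prod_bound z v (univ.erase a) n hn
  have hafs : ∀ n, af n ≠ 0 → P ≤ n ∧ n ≤ 64 * P := by
    intro n hn
    obtain ⟨h1, h2⟩ := bci_range z a (v a) n hn
    refine ⟨h1, ?_⟩
    rw [pow_succ] at h2
    omega
  have hbfs : ∀ k, bfn k ≠ 0 → (k : ℝ) ≤ 32 * P * t ^ 5 := by
    intro k hk
    obtain ⟨-, h2⟩ := prod_support z v (univ.erase a) k hk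
    have h3 : ∏ j ∈ univ.erase a, 2 ^ (v j + 1) = 32 * ∏ j ∈ univ.erase a, 2 ^ v j := by
      have h4 : ∀ j ∈ univ.erase a, 2 ^ (v j + 1) = 2 * 2 ^ v j := fun j _ => by
        rw [pow_succ, mul_comm]
      rw [Finset.prod_congr rfl h4, Finset.prod_mul_distrib, Finset.prod_const,
        Finset.card_erase_of_mem (Finset.mem_univ a), Finset.card_univ, Fintype.card_fin]
      norm_num
    have hbmem : b ∈ univ.erase a := Finset.mem_erase.2 ⟨hab.symm, Finset.mem_univ b⟩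
    have h5 : ∏ j ∈ univ.erase a, 2 ^ v j = 2 ^ v b * ∏ j ∈ (univ.erase a).erase b, 2 ^ v j :=
      (Finset.mul_prod_erase _ (fun j => 2 ^ v j) hbmem).symm
    have h6 : 2 ^ v b ≤ P := Nat.pow_le_pow_right (by norm_num) hvab
    rw [h3, h5] at h2
    have h7 : (k : ℝ) ≤ 32 * ((2 ^ v b : ℕ) *
        ((∏ j ∈ (univ.erase a).erase b, 2 ^ v j : ℕ) : ℝ)) := by exact_mod_cast h2
    refine h7.trans ?_
    have h8 : ((2 ^ v b : ℕ) : ℝ) ≤ P := by exact_mod_cast h6
    calc 32 * (((2 ^ v b : ℕ) : ℝ) * ((∏ j ∈ (univ.erase a).erase b, 2 ^ v j : ℕ) : ℝ)) ≤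
        32 * ((P : ℝ) * t ^ 5) := by
          apply mul_le_mul_of_nonneg_left _ (by norm_num)
          exact mul_le_mul h8 hrest (Nat.cast_nonneg _) (Nat.cast_nonneg _)
      _ = 32 * P * t ^ 5 := by ring
  have hP0 : (0 : ℝ) < P := by exact_mod_cast hP1
  -- the choice of `K` and `V`
  have hKV : ∃ (K : ℕ) (V : ℝ), 1 ≤ K ∧ 0 ≤ V ∧ (∀ k, bfn k ≠ 0 → P * k ≤ X → k ≤ K) ∧
      (∀ χ ∈ 𝓖, ∀ i < 10 * H, ∀ c < r,
      ‖∑ m ∈ (Ico (cell P H i) (cell P H (i + 1))).filter (fun m => m % r = c),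
        (af m : ℂ) * χ m‖ ≤ V) ∧ V ^ 2 * (K + q) * K ≤ Y * L ^ 8 * t ^ 234 := by
    have hL8 : (2 + L) ^ 2 ≤ L ^ 8 := by
      have h1 : 2 + L ≤ L ^ 2 := by nlinarith only [hL2]
      calc (2 + L) ^ 2 ≤ (L ^ 2) ^ 2 := pow_le_pow_left₀ (by linarith only [hε, hε1, hL2]) h1 2
        _ = L ^ 4 := by ring
        _ ≤ L ^ 8 := pow_le_pow_right₀ (by linarith only [hε, hε1, hL2]) (by norm_num)
    rcases le_or_gt (P : ℝ) (t ^ 48) with hPt | hPt
    · refine ⟨⌊32 * P * t ^ 5⌋₊, P * (2 + L), ?_, by positivity, ?_, ?_, ?_⟩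
      · rw [Nat.one_le_floor_iff]
        have h1 : (1 : ℝ) ≤ P := by exact_mod_cast hP1
        have h2 : (1 : ℝ) ≤ t ^ 5 := one_le_pow₀ ht1
        nlinarith only [hε, hε1, h1, h2]
      · intro k hk _
        exact Nat.le_floor (hbfs k hk)
      · intro χ _ i _ c _
        exact bci_triv X z a (v a) ha3 (by omega) hPX q χ _
      · set K : ℝ := (⌊32 * P * t ^ 5⌋₊ : ℝ) with hK
        have hK0 : 0 ≤ K := Nat.cast_nonneg _
        have hK1 : K ≤ 32 * t ^ 53 := by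
          calc K ≤ 32 * P * t ^ 5 := Nat.floor_le (by positivity)
            _ ≤ 32 * t ^ 48 * t ^ 5 := by gcongr
            _ = 32 * t ^ 53 := by ring
        have h1 : ((P : ℝ) * (2 + L)) ^ 2 * (K + q) * K =
            (2 + L) ^ 2 * ((P : ℝ) ^ 2 * K ^ 2 + (P : ℝ) ^ 2 * q * K) := by ring
        rw [h1]
        have h2 : (P : ℝ) ^ 2 * K ^ 2 ≤ 1024 * t ^ 234 := by
          calc (P : ℝ) ^ 2 * K ^ 2 ≤ (t ^ 48) ^ 2 * (32 * t ^ 53) ^ 2 := by gcongr
            _ = 1024 * t ^ 202 := by ring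
            _ ≤ 1024 * t ^ 234 := by
                apply mul_le_mul_of_nonneg_left _ (by norm_num)
                exact pow_le_pow_right₀ ht1 (by norm_num)
        have h3 : (P : ℝ) ^ 2 * q * K ≤ 32 * t ^ 234 := by
          calc (P : ℝ) ^ 2 * q * K ≤ (t ^ 48) ^ 2 * t ^ 80 * (32 * t ^ 53) := by gcongr
            _ = 32 * t ^ 229 := by ring
            _ ≤ 32 * t ^ 234 := by
                apply mul_le_mul_of_nonneg_left _ (by norm_num)
                exact pow_le_pow_right₀ ht1 (by norm_num)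
        calc (2 + L) ^ 2 * ((P : ℝ) ^ 2 * K ^ 2 + (P : ℝ) ^ 2 * q * K) ≤
            L ^ 8 * (1056 * t ^ 234) := by
              apply mul_le_mul hL8 (by linarith only [h2, h3]) (by (clear * - hq1; positivity)) (by positivity)
          _ = 1056 * L ^ 8 * t ^ 234 := by ring
          _ ≤ Y * L ^ 8 * t ^ 234 := by
              have h4 : 1056 ≤ Y := by
                rw [hY]
                have : 0 ≤ 2 * Cp ^ 2 * Cd := by positivity
                linarith only [this]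
              gcongr
    · refine ⟨X / P, Cp * (2 + L) * (q.divisors.card : ℝ) * Real.sqrt q * (1 + Real.log q), ?_, ?_,
        ?_, ?_, ?_⟩
      · exact (Nat.one_le_div_iff (by omega)).2 hPX
      · have h1 : 0 ≤ Real.log q := Real.log_natCast_nonneg q
        (clear * - hCp hL2 hq1; positivity)
      · intro k _ hk
        rw [Nat.le_div_iff_mul_le (by omega), mul_comm]
        exact hk
      · intro χ hχ i _ c _
        have hχ1 : χ ≠ 1 := by
          rintro rfl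
          exact h𝓖 hχ
        have hcell : 2 ^ v a ≤ cell P H i := by
          have h1 := cell_mono P H (Nat.zero_le i)
          rw [cell_zero] at h1
          exact h1
        exact bci_pv q χ (fun r c M N g G h1 h2 h3 h4 h5 =>
          hpv q χ hχ1 r c M N g G h1 h2 h3 h4 h5) X z a (v a) ha3 (by omega) hPX r c _ _ hrq hr
          hcell
      · set K : ℝ := ((X / P : ℕ) : ℝ) with hK
        have hK0 : 0 ≤ K := Nat.cast_nonneg _
        have hK1 : K ≤ t ^ 72 := by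
          have h1 : K ≤ (X : ℝ) / P := Nat.cast_div_le
          refine h1.trans ?_
          rw [div_le_iff₀ hP0, ← htX]
          calc t ^ 120 = t ^ 72 * t ^ 48 := by ring
            _ ≤ t ^ 72 * P := mul_le_mul_of_nonneg_left hPt.le (by positivity)
        have hlq : 1 + Real.log q ≤ L ^ 2 := by
          have h1 : Real.log q ≤ L := Real.log_le_log (by exact_mod_cast hq1) hqX
          nlinarith only [h1, hL2, hε, hε1]
        have hlq0 : 0 ≤ Real.log q := Real.log_natCast_nonneg q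
        -- the divisor function
        have hτ : (q.divisors.card : ℝ) ^ 2 ≤ Cd * t := by
          have h1 : ((q.divisors.card : ℝ)) ^ 240 ≤ (Cd : ℝ) * (q : ℝ) := by
            exact_mod_cast hCd q (by omega)
          have h2 : ((q.divisors.card : ℝ) ^ 2) ^ 120 ≤ ((Cd : ℝ) * t) ^ 120 := by
            calc ((q.divisors.card : ℝ) ^ 2) ^ 120 = (q.divisors.card : ℝ) ^ 240 := by ring
              _ ≤ (Cd : ℝ) * (q : ℝ) := h1
              _ ≤ (Cd : ℝ) * (X : ℝ) := mul_le_mul_of_nonneg_left hqX (by linarith only [hε, hε1, hCd0])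
              _ = (Cd : ℝ) * t ^ 120 := by rw [htX]
              _ ≤ (Cd : ℝ) ^ 120 * t ^ 120 := by
                  apply mul_le_mul_of_nonneg_right _ (by positivity)
                  exact le_self_pow₀ hCd0 (by norm_num)
              _ = (Cd * t) ^ 120 := by ring
          exact le_of_pow_le_pow_left₀ (by norm_num) (by positivity) h2
        have h1 : (Cp * (2 + L) * (q.divisors.card : ℝ) * Real.sqrt q * (1 + Real.log q)) ^ 2 *
            (K + q) * K = Cp ^ 2 * ((2 + L) ^ 2 * (1 + Real.log q) ^ 2) *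
              (q.divisors.card : ℝ) ^ 2 * (q * K ^ 2 + q ^ 2 * K) := by
          have h2 : (Real.sqrt q) ^ 2 = q := Real.sq_sqrt hq0
          calc _ = Cp ^ 2 * ((2 + L) ^ 2 * (1 + Real.log q) ^ 2) *
              (q.divisors.card : ℝ) ^ 2 * ((Real.sqrt q) ^ 2 * K ^ 2 +
                (Real.sqrt q) ^ 2 * q * K) := by ring
            _ = _ := by
                rw [h2]
                ring
        rw [h1]
        have h2 : (2 + L) ^ 2 * (1 + Real.log q) ^ 2 ≤ L ^ 8 := by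
          have h3 : 2 + L ≤ L ^ 2 := by nlinarith only [hL2]
          calc (2 + L) ^ 2 * (1 + Real.log q) ^ 2 ≤ (L ^ 2) ^ 2 * (L ^ 2) ^ 2 := by gcongr
            _ = L ^ 8 := by ring
        have h3 : q * K ^ 2 + q ^ 2 * K ≤ 2 * t ^ 233 := by
          have h4 : (q : ℝ) * K ^ 2 ≤ t ^ 233 := by
            calc (q : ℝ) * K ^ 2 ≤ t ^ 80 * (t ^ 72) ^ 2 := by gcongr
              _ = t ^ 224 := by ring
              _ ≤ t ^ 233 := pow_le_pow_right₀ ht1 (by norm_num)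
          have h5 : (q : ℝ) ^ 2 * K ≤ t ^ 233 := by
            calc (q : ℝ) ^ 2 * K ≤ (t ^ 80) ^ 2 * t ^ 72 := by gcongr
              _ = t ^ 232 := by ring
              _ ≤ t ^ 233 := pow_le_pow_right₀ ht1 (by norm_num)
          linarith only [h4, h5]
        calc Cp ^ 2 * ((2 + L) ^ 2 * (1 + Real.log q) ^ 2) *
              (q.divisors.card : ℝ) ^ 2 * (q * K ^ 2 + q ^ 2 * K) ≤
            Cp ^ 2 * L ^ 8 * (Cd * t) * (2 * t ^ 233) := by gcongr
          _ = (2 * Cp ^ 2 * Cd) * L ^ 8 * t ^ 234 := by ring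
          _ ≤ Y * L ^ 8 * t ^ 234 := by
              have h4 : 2 * Cp ^ 2 * Cd ≤ Y := by
                rw [hY]
                linarith only [hε, hε1]
              gcongr
  obtain ⟨K, V, hK1, hV0, hKb, hVb, hKV⟩ := hKV
  have hsep := hC1 X q r H P K (by omega) (by exact_mod_cast hqX) hr hrX hH1 hHX hP1 hPX hK1 af bfn
    hafb hbfb hafs hKb y β V 𝓖 hV0 hVb
  have hTc : ∀ χ : DirichletCharacter ℂ q, Tc X q (fun n => TT z v n) (y / r + β) χ =
      ∑ n ∈ Icc 1 X, (((af * bfn) n : ℝ) : ℂ) * χ n * ee (n * (y / r + β)) := by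
    intro χ
    unfold Tc
    rw [hTT]
  rw [Finset.sum_congr rfl fun χ _ => by rw [hTc χ]]
  refine hsep.trans ?_
  have hfirst := bci_arith C1 A B A2 L t Y r H V K q hL2 ht0 (Nat.cast_nonneg r) hrB
    (Nat.cast_nonneg H) hHle hKV hY0 (Nat.cast_nonneg K) hq0 e1
  rw [htX] at hfirst
  -- the second part
  have hH0 : (0 : ℝ) < H := by linarith only [hε, hε1, hLA2, hHge]
  have h1 : |β| * X / H ≤ L ^ B / L ^ A2 := by
    have h2 : |β| * X ≤ L ^ B := by
      rw [le_div_iff₀ hX0] at hβ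
      exact hβ
    exact div_le_div₀ (by positivity) h2 (by positivity) hHge
  have h2 : (|β| * X / H) ^ 2 ≤ 1 / L ^ E := by
    have h3 : L ^ B / L ^ A2 ≤ 1 / L ^ E := by
      rw [div_le_div_iff₀ (by positivity) (by positivity), one_mul, ← pow_add]
      apply pow_le_pow_right₀ (by linarith only [hε, hε1, hL2])
      omega
    have h4 : 1 / L ^ E ≤ 1 := by
      rw [div_le_one (by positivity)]
      exact one_le_pow₀ (by linarith only [hε, hε1, hL2])
    calc (|β| * X / H) ^ 2 ≤ (1 / L ^ E) ^ 2 := pow_le_pow_left₀ (by (clear * - hX8 hL2; positivity)) (h1.trans h3) 2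
      _ = (1 / L ^ E) * (1 / L ^ E) := by ring
      _ ≤ (1 / L ^ E) * 1 := mul_le_mul_of_nonneg_left h4 (by positivity)
      _ = 1 / L ^ E := mul_one _
  have h3 : 1 / Real.sqrt H ≤ 1 / L ^ E := by
    apply one_div_le_one_div_of_le (by positivity)
    rw [Real.le_sqrt (by positivity) (by positivity), ← pow_mul]
    have h4 : E * 2 = A2 := by omega
    rw [h4]
    exact hHge
  have hsecond : (2 + L) ^ C1 * ((X : ℝ) ^ 2 * ((|β| * X / H) ^ 2 + 1 / Real.sqrt H)) ≤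
      (X : ℝ) ^ 2 / (2 * L ^ A) := by
    have h4 : (2 + L) ^ C1 ≤ L ^ (2 * C1) := by
      rw [pow_mul]
      apply pow_le_pow_left₀ (by linarith only [hε, hε1, hL2])
      nlinarith only [hL2]
    calc (2 + L) ^ C1 * ((X : ℝ) ^ 2 * ((|β| * X / H) ^ 2 + 1 / Real.sqrt H)) ≤
        L ^ (2 * C1) * ((X : ℝ) ^ 2 * (1 / L ^ E + 1 / L ^ E)) := by gcongr
      _ = (X : ℝ) ^ 2 * (2 * L ^ (2 * C1) / L ^ E) := by ring
      _ ≤ (X : ℝ) ^ 2 * (1 / (2 * L ^ A)) := by
          apply mul_le_mul_of_nonneg_left _ (by positivity)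
          rw [div_le_div_iff₀ (by positivity) (by positivity), one_mul]
          calc 2 * L ^ (2 * C1) * (2 * L ^ A) = 4 * L ^ (2 * C1 + A) := by ring
            _ ≤ L ^ 2 * L ^ (2 * C1 + A) := by
                apply mul_le_mul_of_nonneg_right _ (by positivity)
                nlinarith only [hL2]
            _ = L ^ (2 * C1 + A + 2) := by ring
            _ ≤ L ^ E := pow_le_pow_right₀ (by linarith only [hε, hε1, hL2]) (by omega)
      _ = (X : ℝ) ^ 2 / (2 * L ^ A) := by ring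
  calc (2 + L) ^ C1 * (((r : ℝ) * H * V) ^ 2 * (K + q) * K +
        X ^ 2 * ((|β| * X / H) ^ 2 + 1 / Real.sqrt H)) =
      (2 + L) ^ C1 * (((r : ℝ) * H * V) ^ 2 * (K + q) * K) +
        (2 + L) ^ C1 * (X ^ 2 * ((|β| * X / H) ^ 2 + 1 / Real.sqrt H)) := by ring
    _ ≤ (X : ℝ) ^ 2 / (2 * L ^ A) + (X : ℝ) ^ 2 / (2 * L ^ A) := add_le_add hfirst hsecond
    _ = X ^ 2 / L ^ A := by
        field_simp
        ring

end Pool.MP_dd84fd_nt.L2G
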