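import Pool.Agent.Lib.MP_dd84fd_nt.L2G.SepVar
import Pool.Agent.Lib.MP_dd84fd_nt.L2G.MomCount
import Pool.Agent.Lib.MP_dd84fd_nt.L2G.HBBound

/-!
# Type II boxes: mean square over characters (module G2-76)
-/

set_option autoImplicit false

namespace Pool.MP_dd84fd_nt.L2G

open Finset Pool.MP_67663b_nt.Odd

private lemma bc_large (k : ℕ) : ∃ X0 : ℕ, ∀ X : ℕ, X0 ≤ X →
    64 ≤ Real.log X ∧ Real.log X ^ k ≤ X := by
  have h1 : ∀ᶠ x : ℝ in Filter.atTop, 64 ≤ Real.log x :=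
    Real.tendsto_log_atTop.eventually_ge_atTop 64
  have h2 : ∀ᶠ x : ℝ in Filter.atTop, ‖Real.log x ^ k‖ ≤ 1 * ‖x‖ :=
    (Real.isLittleO_pow_log_id_atTop (n := k)).bound one_pos
  have h3 : ∀ᶠ X : ℕ in Filter.atTop, 64 ≤ Real.log X ∧ Real.log X ^ k ≤ X := by
    filter_upwards [tendsto_natCast_atTop_atTop.eventually h1,
      tendsto_natCast_atTop_atTop.eventually h2] with X ha hb
    refine ⟨ha, ?_⟩
    rw [Real.norm_eq_abs, Real.norm_eq_abs, one_mul, abs_of_nonneg (a := (X : ℝ)) (by positivity)]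
      at hb
    exact (le_abs_self _).trans hb
  exact Filter.eventually_atTop.1 h3

/-- the sum over one cell and one residue class -/
private noncomputable def bcA {q : ℕ} (a : ℕ → ℝ) (P H r i c : ℕ)
    (χ : DirichletCharacter ℂ q) : ℂ :=
  ∑ m ∈ (Ico (cell P H i) (cell P H (i + 1))).filter (fun m => m % r = c), (a m : ℂ) * χ m

/-- the number of bad characters for one cell and one residue class -/
private lemma bc_count {k C q : ℕ} [NeZero q]
    (hC : ∀ (q N : ℕ) [NeZero q], 1 ≤ N → q ≤ N ^ k →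
      ∀ a : ℕ → ℝ, (∀ m, 1 ≤ m → |a m| ≤ (1 + Real.log m) * (m.divisors.card : ℝ) ^ 5) →
      ∀ V : ℝ, 0 < V → ∀ 𝓑 : Finset (DirichletCharacter ℂ q),
      (∀ χ ∈ 𝓑, V < ‖∑ m ∈ Icc 1 N, (a m : ℂ) * χ m‖) →
      (𝓑.card : ℝ) ≤ (N / V) ^ (2 * k) * (2 + Real.log N) ^ C)
    (P H r i c : ℕ) (hP : 1 ≤ P) (hq : q ≤ (64 * P) ^ k) (a : ℕ → ℝ)
    (ha : ∀ m, 1 ≤ m → |a m| ≤ (1 + Real.log m) * (m.divisors.card : ℝ) ^ 5)
    (hsupp : ∀ n, a n ≠ 0 → P ≤ n ∧ n ≤ 64 * P) (V : ℝ) (hV : 0 < V)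
    (𝓑 : Finset (DirichletCharacter ℂ q)) (h𝓑 : ∀ χ ∈ 𝓑, V < ‖bcA a P H r i c χ‖) :
    (𝓑.card : ℝ) ≤ (((64 * P : ℕ) : ℝ) / V) ^ (2 * k) * (2 + Real.log ((64 * P : ℕ) : ℝ)) ^ C := by
  classical
  let a' : ℕ → ℝ := fun m =>
    if m ∈ (Ico (cell P H i) (cell P H (i + 1))).filter (fun m => m % r = c) then a m else 0
  refine hC q (64 * P) (by omega) hq a' (fun m hm => ?_) V hV 𝓑 (fun χ hχ => ?_)
  · by_cases h : m ∈ (Ico (cell P H i) (cell P H (i + 1))).filter (fun m => m % r = c)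
    · simp only [a', if_pos h]
      exact ha m hm
    · simp only [a', if_neg h, abs_zero]
      have : 0 ≤ Real.log m := Real.log_natCast_nonneg m
      positivity
  · have h1 := h𝓑 χ hχ
    have h2 : bcA a P H r i c χ = ∑ m ∈ Icc 1 (64 * P), (a' m : ℂ) * χ m := by
      unfold bcA
      have e1 : ∑ m ∈ Icc 1 (64 * P), (a' m : ℂ) * χ m =
          ∑ m ∈ (Icc 1 (64 * P)).filter (fun m => m ∈ (Ico (cell P H i)
            (cell P H (i + 1))).filter (fun m => m % r = c)), (a m : ℂ) * χ m := by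
        rw [Finset.sum_filter]
        refine Finset.sum_congr rfl fun m _ => ?_
        simp only [a']
        split_ifs
        · rfl
        · rw [Complex.ofReal_zero, zero_mul]
      rw [e1]
      symm
      apply Finset.sum_subset
      · intro m hm
        exact (mem_filter.1 hm).2
      · intro m hm hm'
        have h3 : a m = 0 := by
          by_contra h0
          obtain ⟨h4, h5⟩ := hsupp m h0
          apply hm'
          rw [mem_filter, mem_Icc]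
          exact ⟨⟨by omega, h5⟩, hm⟩
        rw [h3, Complex.ofReal_zero, zero_mul]
    rw [← h2]
    exact h1

theorem box_char_II (ε : ℝ) (hε : 0 < ε) (hε1 : ε < 1) (A B : ℕ) : ∃ C X0 : ℕ, ∀ X : ℕ, X0 ≤ X →
    ∀ (q : ℕ) [NeZero q], (q : ℝ) ≤ (X : ℝ) ^ (2 / 3 - ε) → ∀ (r : ℕ) (y : ℤ) (β : ℝ), 1 ≤ r →
    (r : ℝ) ≤ Real.log X ^ B → |β| ≤ Real.log X ^ B / X →
    ∀ (z : ℕ) (v : Fin 6 → ℕ) (S : Finset (Fin 6)),
      (X : ℝ) ^ (1 / 24 : ℝ) ≤ ((∏ j ∈ S, 2 ^ v j : ℕ) : ℝ) →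
      ((∏ j ∈ S, 2 ^ v j : ℕ) : ℝ) ≤ (X : ℝ) ^ (1 / 3 + ε / 2) →
      ∃ 𝓑 : Finset (DirichletCharacter ℂ q), (𝓑.card : ℝ) ≤ Real.log X ^ C ∧
        ∀ 𝓖 : Finset (DirichletCharacter ℂ q), Disjoint 𝓖 𝓑 →
          ∑ χ ∈ 𝓖, ‖Tc X q (fun n => TT z v n) (y / r + β) χ‖ ^ 2 ≤ X ^ 2 / Real.log X ^ A := by
  classical
  obtain ⟨C1, hC1⟩ := sep_var
  obtain ⟨C2, hC2⟩ := mom_count 16 (by norm_num)
  obtain ⟨M, hM⟩ : ∃ M : ℕ, M = A + 2 * C1 + 2 := ⟨_, rfl⟩
  obtain ⟨A2, hA2⟩ : ∃ A2 : ℕ, A2 = 2 * (M + B) := ⟨_, rfl⟩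
  obtain ⟨A1, hA1⟩ : ∃ A1 : ℕ, A1 = B + A2 + 1 + M := ⟨_, rfl⟩
  obtain ⟨X0, hX0⟩ := bc_large (A2 + 1 + B)
  refine ⟨1 + (A2 + 1) + B + 32 * (A1 + 1) + 2 * C2, X0 + 2, ?_⟩
  intro X hX q _ hq r y β hr1 hr hβ z v S hP1 hP2
  obtain ⟨hL64, hLX⟩ := hX0 X (by omega)
  obtain ⟨L, hL⟩ : ∃ L : ℝ, L = Real.log X := ⟨_, rfl⟩
  rw [← hL] at hL64 hLX hr hβ ⊢
  have hX2 : 2 ≤ X := by omega
  have hXR : (2 : ℝ) ≤ X := by exact_mod_cast hX2
  have hXp : (0 : ℝ) < X := by linarith only [hXR, hε, hε1]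
  have hX1 : (1 : ℝ) ≤ X := by linarith
  have hL1 : 1 ≤ L := by linarith
  have hLp : 0 < L := by linarith
  have hpw : ∀ {i j : ℕ}, i ≤ j → L ^ i ≤ L ^ j := fun h => pow_le_pow_right₀ hL1 h
  -- the parameters
  obtain ⟨P, hP⟩ : ∃ P : ℕ, P = ∏ j ∈ S, 2 ^ v j := ⟨_, rfl⟩
  rw [← hP] at hP1 hP2
  have hPpos : 1 ≤ P := by
    rw [hP]
    exact Nat.one_le_iff_ne_zero.2 (Finset.prod_ne_zero_iff.2 fun j _ => by positivity)
  have hPR : (1 : ℝ) ≤ P := by exact_mod_cast hPpos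
  have hPX : (P : ℝ) ≤ X := by
    refine hP2.trans ?_
    calc (X : ℝ) ^ (1 / 3 + ε / 2) ≤ (X : ℝ) ^ (1 : ℝ) :=
          Real.rpow_le_rpow_of_exponent_le hX1 (by linarith)
      _ = X := Real.rpow_one _
  have hqX : (q : ℝ) ≤ X := by
    refine hq.trans ?_
    calc (X : ℝ) ^ (2 / 3 - ε) ≤ (X : ℝ) ^ (1 : ℝ) :=
          Real.rpow_le_rpow_of_exponent_le hX1 (by linarith)
      _ = X := Real.rpow_one _
  have hqP : (q : ℝ) * P ≤ X := by
    calc (q : ℝ) * P ≤ (X : ℝ) ^ (2 / 3 - ε) * (X : ℝ) ^ (1 / 3 + ε / 2) :=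
          mul_le_mul hq hP2 (by positivity) (by positivity)
      _ = (X : ℝ) ^ ((2 / 3 - ε) + (1 / 3 + ε / 2)) := (Real.rpow_add hXp _ _).symm
      _ ≤ (X : ℝ) ^ (1 : ℝ) := Real.rpow_le_rpow_of_exponent_le hX1 (by linarith)
      _ = X := Real.rpow_one _
  have hqN : q ≤ (64 * P) ^ 16 := by
    have h1 : (q : ℝ) ≤ ((64 * P : ℕ) : ℝ) ^ 16 := by
      refine hq.trans ?_
      calc (X : ℝ) ^ (2 / 3 - ε) ≤ (X : ℝ) ^ (2 / 3 : ℝ) :=
            Real.rpow_le_rpow_of_exponent_le hX1 (by linarith)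
        _ = ((X : ℝ) ^ (1 / 24 : ℝ)) ^ 16 := by
            rw [← Real.rpow_natCast, ← Real.rpow_mul hXp.le]
            norm_num
        _ ≤ ((64 * P : ℕ) : ℝ) ^ 16 := by
            refine pow_le_pow_left₀ (by positivity) (hP1.trans ?_) 16
            push_cast
            linarith
    exact_mod_cast h1
  obtain ⟨H, hH⟩ : ∃ H : ℕ, H = ⌈L ^ A2⌉₊ := ⟨_, rfl⟩
  have hLA2 : 1 ≤ L ^ A2 := one_le_pow₀ hL1
  have hHlow : L ^ A2 ≤ H := by rw [hH]; exact Nat.le_ceil _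
  have hH1 : 1 ≤ H := by
    have : (1 : ℝ) ≤ H := hLA2.trans hHlow
    exact_mod_cast this
  have hHup : (H : ℝ) ≤ L ^ (A2 + 1) := by
    rw [hH]
    have h1 := (Nat.ceil_lt_add_one (by positivity : 0 ≤ L ^ A2)).le
    rw [pow_succ]
    nlinarith only [h1, hL64, hLA2, hε, hε1]
  have hHX : H ≤ X := by
    have h1 : (H : ℝ) ≤ X := hHup.trans ((hpw (by omega)).trans hLX)
    exact_mod_cast h1
  have hrX : r ≤ X := by
    have h1 : (r : ℝ) ≤ X := hr.trans ((hpw (by omega)).trans hLX)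
    exact_mod_cast h1
  obtain ⟨V, hV⟩ : ∃ V : ℝ, V = P / L ^ A1 := ⟨_, rfl⟩
  have hVp : 0 < V := by rw [hV]; positivity
  obtain ⟨K, hK⟩ : ∃ K : ℕ, K = max 1 (X / P) := ⟨_, rfl⟩
  have hK1 : 1 ≤ K := by rw [hK]; exact le_max_left _ _
  have hPKX : (P : ℝ) * K ≤ X := by
    rw [hK]
    rcases le_total 1 (X / P) with h | h
    · rw [max_eq_right h]
      have := Nat.mul_div_le X P
      exact_mod_cast this
    · rw [max_eq_left h]
      push_cast
      linarith only [hPX]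
  -- the arithmetic functions
  obtain ⟨a, ha⟩ : ∃ a : ArithmeticFunction ℝ, a = ∏ j ∈ S, bf z j (v j) := ⟨_, rfl⟩
  obtain ⟨b, hb⟩ : ∃ b : ArithmeticFunction ℝ, b = ∏ j ∈ Sᶜ, bf z j (v j) := ⟨_, rfl⟩
  have hab : TT z v = a * b := by
    rw [ha, hb]
    exact (Finset.prod_mul_prod_compl S _).symm
  have hab1 : ∀ n, 1 ≤ n → |a n| ≤ (1 + Real.log n) * (n.divisors.card : ℝ) ^ 5 := by
    intro n hn
    rw [ha]
    exact prod_bound z v S n hn
  have hbb1 : ∀ n, 1 ≤ n → |b n| ≤ (1 + Real.log n) * (n.divisors.card : ℝ) ^ 5 := by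
    intro n hn
    rw [hb]
    exact prod_bound z v Sᶜ n hn
  have hasupp : ∀ n, a n ≠ 0 → P ≤ n ∧ n ≤ 64 * P := by
    intro n hn
    rw [ha] at hn
    obtain ⟨h1, h2⟩ := prod_support z v S n hn
    rw [hP]
    refine ⟨h1, h2.trans ?_⟩
    have h3 : ∏ j ∈ S, 2 ^ (v j + 1) = 2 ^ S.card * ∏ j ∈ S, 2 ^ v j := by
      rw [← Finset.prod_const, ← Finset.prod_mul_distrib]
      exact Finset.prod_congr rfl fun j _ => by rw [pow_succ, mul_comm]
    rw [h3]
    refine Nat.mul_le_mul_right _ ?_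
    have h4 : S.card ≤ 6 := by simpa using Finset.card_le_univ S
    calc 2 ^ S.card ≤ 2 ^ 6 := Nat.pow_le_pow_right (by norm_num) h4
      _ = 64 := by norm_num
  -- the bad set
  obtain ⟨𝓑, h𝓑⟩ : ∃ 𝓑 : Finset (DirichletCharacter ℂ q), 𝓑 =
      (range (10 * H) ×ˢ range r).biUnion (fun ic =>
        univ.filter (fun χ => V < ‖bcA a P H r ic.1 ic.2 χ‖)) := ⟨_, rfl⟩
  refine ⟨𝓑, ?_, fun 𝓖 h𝓖 => ?_⟩
  · have h1 : (𝓑.card : ℝ) ≤ ∑ ic ∈ range (10 * H) ×ˢ range r,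
        ((univ.filter (fun χ : DirichletCharacter ℂ q => V < ‖bcA a P H r ic.1 ic.2 χ‖)).card
          : ℝ) := by
      rw [h𝓑]
      exact_mod_cast Finset.card_biUnion_le
    have hlog : 2 + Real.log ((64 * P : ℕ) : ℝ) ≤ L ^ 2 := by
      have h2 : Real.log ((64 * P : ℕ) : ℝ) ≤ Real.log 64 + L := by
        push_cast
        rw [Real.log_mul (by norm_num) (by linarith only [hPR, hε, hε1]), hL]
        exact add_le_add le_rfl (Real.log_le_log (by linarith) hPX)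
      have h3 : Real.log 64 ≤ 63 := by
        have := Real.log_le_sub_one_of_pos (by norm_num : (0 : ℝ) < 64)
        linarith only [this]
      nlinarith only [h2, h3, hL64, hε, hε1]
    have hlog0 : 0 ≤ 2 + Real.log ((64 * P : ℕ) : ℝ) := by
      have := Real.log_natCast_nonneg (64 * P)
      linarith only [hε, hε1, this]
    have hNV : ((64 * P : ℕ) : ℝ) / V ≤ L ^ (A1 + 1) := by
      rw [hV]
      push_cast
      have h2 : (64 : ℝ) * P / (P / L ^ A1) = 64 * L ^ A1 := by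
        field_simp
      rw [h2, pow_succ, mul_comm]
      exact mul_le_mul_of_nonneg_left hL64 (by positivity)
    have h2 : ∀ ic ∈ range (10 * H) ×ˢ range r,
        ((univ.filter (fun χ : DirichletCharacter ℂ q => V < ‖bcA a P H r ic.1 ic.2 χ‖)).card
          : ℝ) ≤ L ^ (32 * (A1 + 1) + 2 * C2) := by
      intro ic _
      refine (bc_count (k := 16) (C := C2) hC2 P H r ic.1 ic.2 hPpos hqN (fun n => a n) hab1
        hasupp V hVp _ (fun χ hχ => (mem_filter.1 hχ).2)).trans ?_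
      have e1 : L ^ (32 * (A1 + 1) + 2 * C2) = (L ^ (A1 + 1)) ^ (2 * 16) * (L ^ 2) ^ C2 := by
        rw [pow_add, ← pow_mul, ← pow_mul]
        congr 2
        ring
      rw [e1]
      exact mul_le_mul (pow_le_pow_left₀ (by positivity) hNV _)
        (pow_le_pow_left₀ hlog0 hlog _) (by positivity) (by positivity)
    have h3 := h1.trans (Finset.sum_le_sum h2)
    rw [Finset.sum_const, Finset.card_product, Finset.card_range, Finset.card_range,
      nsmul_eq_mul] at h3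
    push_cast at h3
    refine h3.trans ?_
    have h4 : 10 * (H : ℝ) * r ≤ L * L ^ (A2 + 1) * L ^ B :=
      mul_le_mul (mul_le_mul (by linarith only [hL64, hε, hε1]) hHup (by positivity) (by positivity)) hr
        (by positivity) (by positivity)
    refine (mul_le_mul_of_nonneg_right h4 (by positivity)).trans (le_of_eq ?_)
    ring
  · have hbad : ∀ χ ∈ 𝓖, ∀ i < 10 * H, ∀ c < r,
        ‖∑ m ∈ (Ico (cell P H i) (cell P H (i + 1))).filter (fun m => m % r = c),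
          (a m : ℂ) * χ m‖ ≤ V := by
      intro χ hχ i hi c hc
      by_contra hlt
      push Not at hlt
      refine (Finset.disjoint_left.1 h𝓖) hχ ?_
      rw [h𝓑]
      refine Finset.mem_biUnion.2 ⟨(i, c), Finset.mem_product.2 ⟨mem_range.2 hi, mem_range.2 hc⟩, ?_⟩
      exact mem_filter.2 ⟨mem_univ _, hlt⟩
    have hmain := hC1 X q r H P K hX2 (by exact_mod_cast hqX) hr1 hrX hH1 hHX hPpos
      (by exact_mod_cast hPX) hK1 a b hab1 hbb1 hasupp (fun k _ hPk => by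
        rw [hK]
        refine le_trans ?_ (le_max_right _ _)
        rw [Nat.le_div_iff_mul_le (by omega), mul_comm]
        exact hPk) y β V 𝓖 hVp.le hbad
    have hTc : ∑ χ ∈ 𝓖, ‖Tc X q (fun n => TT z v n) (y / r + β) χ‖ ^ 2 =
        ∑ χ ∈ 𝓖, ‖∑ n ∈ Icc 1 X, (((a * b) n : ℝ) : ℂ) * χ n * ee (n * (y / r + β))‖ ^ 2 := by
      unfold Tc
      rw [hab]
    rw [hTc]
    refine hmain.trans ?_
    rw [← hL]
    -- the three terms
    have hL2 : 2 + L ≤ L ^ 2 := by nlinarith only [hL64, hε, hε1]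
    have hCb : (2 + L) ^ C1 ≤ L ^ (2 * C1) := by
      rw [pow_mul]
      exact pow_le_pow_left₀ (by positivity) hL2 _
    have hrHV : (r : ℝ) * H * V ≤ P / L ^ M := by
      rw [hV, hA1]
      calc (r : ℝ) * H * (P / L ^ (B + A2 + 1 + M)) ≤
            L ^ B * L ^ (A2 + 1) * (P / L ^ (B + A2 + 1 + M)) :=
            mul_le_mul_of_nonneg_right (mul_le_mul hr hHup (by positivity) (by positivity))
              (by positivity)
        _ = P / L ^ M := by
            have e2 : L ^ (B + A2 + 1 + M) = L ^ B * L ^ (A2 + 1) * L ^ M := by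
              rw [← pow_add, ← pow_add]
              congr 1
            rw [e2]
            field_simp
    have hT1 : ((r : ℝ) * H * V) ^ 2 * (K + q) * K ≤ 2 * X ^ 2 / L ^ M := by
      have h1 : ((r : ℝ) * H * V) ^ 2 ≤ (P / L ^ M) ^ 2 :=
        pow_le_pow_left₀ (by positivity) hrHV 2
      have h2 : ((r : ℝ) * H * V) ^ 2 * (K + q) * K ≤ (P / L ^ M) ^ 2 * (K + q) * K := by
        gcongr
      refine h2.trans ?_
      have h3 : (P / L ^ M : ℝ) ^ 2 * (K + q) * K =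
          ((P * K) * (P * K) + (q * P) * (P * K)) / (L ^ M) ^ 2 := by
        field_simp
      rw [h3]
      have h4 : ((P : ℝ) * K) * (P * K) + (q * P) * (P * K) ≤ 2 * X ^ 2 := by
        have h5 : ((P : ℝ) * K) * (P * K) ≤ X * X :=
          mul_le_mul hPKX hPKX (by positivity) hXp.le
        have h6 : ((q : ℝ) * P) * (P * K) ≤ X * X :=
          mul_le_mul hqP hPKX (by positivity) hXp.le
        nlinarith only [h5, h6]
      have hLM : 1 ≤ L ^ M := one_le_pow₀ hL1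
      exact div_le_div₀ (by positivity) h4 (by positivity) (by nlinarith only [hLM])
    have hT2 : (|β| * X / H) ^ 2 ≤ 1 / L ^ M := by
      have h1 : |β| * X ≤ L ^ B := by
        rw [le_div_iff₀ hXp] at hβ
        exact hβ
      have h2 : |β| * X / H ≤ 1 / L ^ M := by
        have hHp : (0 : ℝ) < H := by linarith only [hHlow, hLA2, hε, hε1]
        rw [div_le_div_iff₀ hHp (by positivity), one_mul]
        calc |β| * X * L ^ M ≤ L ^ B * L ^ M := mul_le_mul_of_nonneg_right h1 (by positivity)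
          _ = L ^ (B + M) := (pow_add _ _ _).symm
          _ ≤ L ^ A2 := hpw (by omega)
          _ ≤ H := hHlow
      have h3 : 0 ≤ |β| * X / H := by positivity
      have h4 : (1 : ℝ) / L ^ M ≤ 1 := by
        rw [div_le_one (by positivity)]
        exact one_le_pow₀ hL1
      nlinarith only [h2, h3, h4, hε, hε1]
    have hT3 : 1 / Real.sqrt H ≤ 1 / L ^ M := by
      refine one_div_le_one_div_of_le (by positivity) ?_
      apply Real.le_sqrt_of_sq_le
      calc (L ^ M) ^ 2 = L ^ (M * 2) := (pow_mul _ _ _).symm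
        _ ≤ L ^ A2 := hpw (by omega)
        _ ≤ H := hHlow
    have hsum : ((r : ℝ) * H * V) ^ 2 * (K + q) * K +
        X ^ 2 * ((|β| * X / H) ^ 2 + 1 / Real.sqrt H) ≤ 4 * X ^ 2 / L ^ M := by
      have h1 : X ^ 2 * ((|β| * X / H) ^ 2 + 1 / Real.sqrt H) ≤
          (X : ℝ) ^ 2 * (1 / L ^ M + 1 / L ^ M) :=
        mul_le_mul_of_nonneg_left (add_le_add hT2 hT3) (by positivity)
      have h2 : 2 * (X : ℝ) ^ 2 / L ^ M + (X : ℝ) ^ 2 * (1 / L ^ M + 1 / L ^ M) =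
          4 * X ^ 2 / L ^ M := by ring
      linarith only [h1, h2, hT1]
    calc (2 + L) ^ C1 * (((r : ℝ) * H * V) ^ 2 * (K + q) * K +
          X ^ 2 * ((|β| * X / H) ^ 2 + 1 / Real.sqrt H))
        ≤ L ^ (2 * C1) * (4 * X ^ 2 / L ^ M) :=
          mul_le_mul hCb hsum (by (clear * - hH1 hK1 hVp hX2 hr1; positivity)) (by positivity)
      _ ≤ X ^ 2 / L ^ A := by
          rw [hM, show A + 2 * C1 + 2 = A + (2 * C1) + 2 by ring, pow_add, pow_add]
          rw [mul_div_assoc', div_le_div_iff₀ (by positivity) (by positivity)]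
          have h1 : (4 : ℝ) ≤ L ^ 2 := by nlinarith only [hL2, hL64, hε, hε1]
          calc L ^ (2 * C1) * (4 * X ^ 2) * L ^ A = 4 * (X ^ 2 * (L ^ A * L ^ (2 * C1))) := by ring
            _ ≤ L ^ 2 * (X ^ 2 * (L ^ A * L ^ (2 * C1))) :=
                mul_le_mul_of_nonneg_right h1 (by positivity)
            _ = X ^ 2 * (L ^ A * L ^ (2 * C1) * L ^ 2) := by ring

end Pool.MP_dd84fd_nt.L2G
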