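import Pool.Agent.Lib.MP_dd84fd_nt.L2G.AI2
import Pool.Agent.Lib.MP_dd84fd_nt.L2G.HBBound
import Pool.Agent.Lib.MP_dd84fd_nt.L2G.ConvSum
import Pool.Agent.Lib.MP_dd84fd_nt.L2G.DivMom

set_option autoImplicit false

namespace Pool.MP_dd84fd_nt.L2G

open Finset Pool.MP_67663b_nt.Odd

theorem boxI2_ev_log (D : ℝ) (E : ℕ) (s : ℝ) (hs : 0 < s) :
    ∃ X0 : ℕ, ∀ X : ℕ, X0 ≤ X → D * Real.log X ^ E ≤ (X : ℝ) ^ s := by
  have h := (isLittleO_log_rpow_rpow_atTop (E : ℝ) hs).bound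
    (show (0 : ℝ) < 1 / (|D| + 1) by positivity)
  have h2 := tendsto_natCast_atTop_atTop (R := ℝ) |>.eventually h
  obtain ⟨N, hN⟩ := Filter.eventually_atTop.mp h2
  refine ⟨N, fun X hX => ?_⟩
  have h3 := hN X hX
  rw [Real.rpow_natCast] at h3
  have h4 : |Real.log X ^ E| ≤ 1 / (|D| + 1) * (X : ℝ) ^ s := by
    have := h3
    rw [Real.norm_eq_abs, Real.norm_eq_abs, abs_of_nonneg (Real.rpow_nonneg (Nat.cast_nonneg X) s)]
      at this
    exact this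
  have hp : 0 < |D| + 1 := by positivity
  have hX0 : (0 : ℝ) ≤ (X : ℝ) ^ s := Real.rpow_nonneg (Nat.cast_nonneg X) s
  calc D * Real.log X ^ E ≤ |D * Real.log X ^ E| := le_abs_self _
    _ = |D| * |Real.log X ^ E| := abs_mul _ _
    _ ≤ |D| * (1 / (|D| + 1) * (X : ℝ) ^ s) := mul_le_mul_of_nonneg_left h4 (abs_nonneg _)
    _ = (|D| / (|D| + 1)) * (X : ℝ) ^ s := by ring
    _ ≤ 1 * (X : ℝ) ^ s := by
        apply mul_le_mul_of_nonneg_right _ hX0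
        rw [div_le_one hp]
        linarith
    _ = (X : ℝ) ^ s := one_mul _

/-- restricting the summation of one variable -/
theorem boxI2_one (X : ℕ) (T : Finset ℕ) (G : ℕ → ℂ)
    (h1 : ∀ k, k ∈ Icc 1 X → k ∉ T → G k = 0) (h2 : ∀ k ∈ T, k ∉ Icc 1 X → G k = 0) :
    ∑ k ∈ Icc 1 X, G k = ∑ k ∈ T, G k := by
  rw [← Finset.sum_filter_of_ne (s := Icc 1 X) (p := fun k => k ∈ T),
    ← Finset.sum_filter_of_ne (s := T) (p := fun k => k ∈ Icc 1 X)]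
  · congr 1
    ext k
    simp only [Finset.mem_filter]
    tauto
  · intro k hk hne
    by_contra hc
    exact hne (h2 k hk hc)
  · intro k hk hne
    by_contra hc
    exact hne (h1 k hk hc)

theorem boxI2_restrict (f g1 g2 : ℕ → ℝ) (X D N1 N2 : ℕ) (hN1 : 1 ≤ N1) (hN2 : 1 ≤ N2)
    (hf : ∀ n, f n ≠ 0 → n ≤ D)
    (hg1 : ∀ n, g1 n ≠ 0 → n ∈ Ico N1 (2 * N1)) (hg2 : ∀ n, g2 n ≠ 0 → n ∈ Ico N2 (2 * N2))
    (Q : ℕ → Prop) [DecidablePred Q] (F : ℕ → ℂ) :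
    ∑ m ∈ Icc 1 X, ∑ k1 ∈ Icc 1 X, ∑ k2 ∈ Icc 1 X, (if m * k1 * k2 ≤ X ∧ Q (m * k1 * k2) then
        ((f m * (g1 k1 * g2 k2) : ℝ) : ℂ) * F (m * k1 * k2) else 0) =
    ∑ m ∈ Icc 1 D, ∑ k1 ∈ Ico N1 (2 * N1), ∑ k2 ∈ Ico N2 (2 * N2),
      (if m * k1 * k2 ≤ X ∧ Q (m * k1 * k2) then
        ((f m * (g1 k1 * g2 k2) : ℝ) : ℂ) * F (m * k1 * k2) else 0) := by
  have e2 : ∀ m k1 : ℕ, 1 ≤ m → 1 ≤ k1 → ∑ k2 ∈ Icc 1 X,
      (if m * k1 * k2 ≤ X ∧ Q (m * k1 * k2) then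
        ((f m * (g1 k1 * g2 k2) : ℝ) : ℂ) * F (m * k1 * k2) else 0) =
      ∑ k2 ∈ Ico N2 (2 * N2), (if m * k1 * k2 ≤ X ∧ Q (m * k1 * k2) then
        ((f m * (g1 k1 * g2 k2) : ℝ) : ℂ) * F (m * k1 * k2) else 0) := by
    intro m k1 hm hk1
    refine boxI2_one X _ _ ?_ ?_
    · intro k _ hk2
      have : g2 k = 0 := by
        by_contra h0
        exact hk2 (hg2 k h0)
      simp [this]
    · intro k hk hk2
      rw [Finset.mem_Ico] at hk
      rw [Finset.mem_Icc] at hk2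
      rw [if_neg]
      rintro ⟨hle, _⟩
      apply hk2
      refine ⟨by omega, le_trans ?_ hle⟩
      exact Nat.le_mul_of_pos_left _ (Nat.mul_pos (by omega) (by omega))
  have e1 : ∀ m : ℕ, 1 ≤ m → ∑ k1 ∈ Icc 1 X, ∑ k2 ∈ Icc 1 X,
      (if m * k1 * k2 ≤ X ∧ Q (m * k1 * k2) then
        ((f m * (g1 k1 * g2 k2) : ℝ) : ℂ) * F (m * k1 * k2) else 0) =
      ∑ k1 ∈ Ico N1 (2 * N1), ∑ k2 ∈ Ico N2 (2 * N2), (if m * k1 * k2 ≤ X ∧ Q (m * k1 * k2) then
        ((f m * (g1 k1 * g2 k2) : ℝ) : ℂ) * F (m * k1 * k2) else 0) := by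
    intro m hm
    have s1 : ∑ k1 ∈ Icc 1 X, ∑ k2 ∈ Icc 1 X,
      (if m * k1 * k2 ≤ X ∧ Q (m * k1 * k2) then
        ((f m * (g1 k1 * g2 k2) : ℝ) : ℂ) * F (m * k1 * k2) else 0) =
      ∑ k1 ∈ Icc 1 X, ∑ k2 ∈ Ico N2 (2 * N2), (if m * k1 * k2 ≤ X ∧ Q (m * k1 * k2) then
        ((f m * (g1 k1 * g2 k2) : ℝ) : ℂ) * F (m * k1 * k2) else 0) := by
      refine Finset.sum_congr rfl fun k1 hk1 => ?_
      rw [Finset.mem_Icc] at hk1
      exact e2 m k1 hm hk1.1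
    rw [s1]
    refine boxI2_one X _ _ ?_ ?_
    · intro k _ hk2
      have : g1 k = 0 := by
        by_contra h0
        exact hk2 (hg1 k h0)
      simp [this]
    · intro k hk hk2
      rw [Finset.mem_Ico] at hk
      rw [Finset.mem_Icc] at hk2
      refine Finset.sum_eq_zero fun k2 hk2' => ?_
      rw [Finset.mem_Ico] at hk2'
      rw [if_neg]
      rintro ⟨hle, _⟩
      apply hk2
      refine ⟨by omega, le_trans ?_ hle⟩
      calc k ≤ m * k := Nat.le_mul_of_pos_left _ (by omega)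
        _ ≤ m * k * k2 := Nat.le_mul_of_pos_right _ (by omega)
  have s0 : ∑ m ∈ Icc 1 X, ∑ k1 ∈ Icc 1 X, ∑ k2 ∈ Icc 1 X,
      (if m * k1 * k2 ≤ X ∧ Q (m * k1 * k2) then
        ((f m * (g1 k1 * g2 k2) : ℝ) : ℂ) * F (m * k1 * k2) else 0) =
      ∑ m ∈ Icc 1 X, ∑ k1 ∈ Ico N1 (2 * N1), ∑ k2 ∈ Ico N2 (2 * N2),
      (if m * k1 * k2 ≤ X ∧ Q (m * k1 * k2) then
        ((f m * (g1 k1 * g2 k2) : ℝ) : ℂ) * F (m * k1 * k2) else 0) := by
    refine Finset.sum_congr rfl fun m hm => ?_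
    rw [Finset.mem_Icc] at hm
    exact e1 m hm.1
  rw [s0]
  refine boxI2_one X _ _ ?_ ?_
  · intro m hm hm2
    rw [Finset.mem_Icc] at hm hm2
    have : f m = 0 := by
      by_contra h0
      exact hm2 ⟨hm.1, hf m h0⟩
    simp [this]
  · intro m hm hm2
    rw [Finset.mem_Icc] at hm hm2
    refine Finset.sum_eq_zero fun k1 hk1 => Finset.sum_eq_zero fun k2 hk2 => ?_
    rw [Finset.mem_Ico] at hk1 hk2
    rw [if_neg]
    rintro ⟨hle, _⟩
    apply hm2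
    refine ⟨hm.1, le_trans ?_ hle⟩
    calc m ≤ m * k1 := Nat.le_mul_of_pos_right _ (by omega)
      _ ≤ m * k1 * k2 := Nat.le_mul_of_pos_right _ (by omega)

theorem boxI2_sq (f : ℕ → ℝ) (hf : ∀ n : ℕ, 1 ≤ n → |f n| ≤ (1 + Real.log n) *
    (n.divisors.card : ℝ) ^ 5) (c : ℕ) (N : ℕ)
    (hc : ∑ n ∈ Icc 1 N, (n.divisors.card : ℝ) ^ 10 / n ≤ (1 + Real.log N) ^ c) (Y : ℝ)
    (hY : 1 + Real.log N ≤ Y) :
    ∑ n ∈ Icc 1 N, f n ^ 2 / n ≤ Y ^ (c + 2) := by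
  have hlogN : 0 ≤ Real.log N := Real.log_natCast_nonneg N
  have h1 : ∀ n ∈ Icc 1 N, f n ^ 2 / n ≤
      (1 + Real.log N) ^ 2 * ((n.divisors.card : ℝ) ^ 10 / n) := by
    intro n hn
    rw [Finset.mem_Icc] at hn
    have hn0 : (0 : ℝ) < n := by
      have : 0 < n := by omega
      exact_mod_cast this
    have hlog : Real.log n ≤ Real.log N := Real.log_le_log hn0 (by exact_mod_cast hn.2)
    have hlog0 : 0 ≤ Real.log n := Real.log_natCast_nonneg n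
    have h2 : f n ^ 2 ≤ (1 + Real.log N) ^ 2 * (n.divisors.card : ℝ) ^ 10 := by
      calc f n ^ 2 = |f n| ^ 2 := (sq_abs _).symm
        _ ≤ ((1 + Real.log n) * (n.divisors.card : ℝ) ^ 5) ^ 2 :=
            pow_le_pow_left₀ (abs_nonneg _) (hf n hn.1) 2
        _ = (1 + Real.log n) ^ 2 * (n.divisors.card : ℝ) ^ 10 := by ring
        _ ≤ (1 + Real.log N) ^ 2 * (n.divisors.card : ℝ) ^ 10 := by
            apply mul_le_mul_of_nonneg_right _ (by positivity)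
            exact pow_le_pow_left₀ (by linarith) (by linarith) 2
    calc f n ^ 2 / n ≤ (1 + Real.log N) ^ 2 * (n.divisors.card : ℝ) ^ 10 / n := by gcongr
      _ = _ := by ring
  calc ∑ n ∈ Icc 1 N, f n ^ 2 / n
      ≤ ∑ n ∈ Icc 1 N, (1 + Real.log N) ^ 2 * ((n.divisors.card : ℝ) ^ 10 / n) :=
        Finset.sum_le_sum h1
    _ = (1 + Real.log N) ^ 2 * ∑ n ∈ Icc 1 N, (n.divisors.card : ℝ) ^ 10 / n := by
        rw [Finset.mul_sum]
    _ ≤ (1 + Real.log N) ^ 2 * ((1 + Real.log N) ^ c) :=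
        mul_le_mul_of_nonneg_left hc (by positivity)
    _ = (1 + Real.log N) ^ (c + 2) := by ring
    _ ≤ Y ^ (c + 2) := pow_le_pow_left₀ (by linarith) hY _

theorem box_I2 (A : ℕ) : ∃ B0 : ℕ, ∀ B : ℕ, B0 ≤ B →
    ∃ X0 : ℕ, ∀ X : ℕ, X0 ≤ X → ∀ q : ℕ, 1 ≤ q → (q : ℝ) ≤ (X : ℝ) ^ (2 / 3 : ℝ) →
    ∀ (θ : ℝ) (r : ℕ) (c : ℤ), MinorHyp X q B θ r c →
    ∀ (z : ℕ) (v : Fin 6 → ℕ) (a b : Fin 6), a ≠ b → (a : ℕ) < 3 → (b : ℕ) < 3 → v b ≤ v a →
      ∏ j, 2 ^ v j ≤ X →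
      ((∏ j ∈ (univ.erase a).erase b, 2 ^ v j : ℕ) : ℝ) ≤ (X : ℝ) ^ (1 / 24 : ℝ) →
      VQ X q (fun n => TT z v n) θ ≤ X ^ 2 / (q * Real.log X ^ A) := by
  obtain ⟨c0, hc0⟩ := div_mom 10
  obtain ⟨B0, hB0⟩ := a_I2 (1 / 3) (by norm_num) (by norm_num) (A + (c0 + 2) + 1)
  refine ⟨B0, fun B hB => ?_⟩
  obtain ⟨X1, hX1⟩ := hB0 B hB
  obtain ⟨X3, hX3⟩ := boxI2_ev_log 16 0 (1 / 24) (by norm_num)
  obtain ⟨X4, hX4⟩ : ∃ X4 : ℕ, ∀ X : ℕ, X4 ≤ X → max 1 ((2 : ℝ) ^ (c0 + 2)) ≤ Real.log X := by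
    have h2 := (Real.tendsto_log_atTop.comp (tendsto_natCast_atTop_atTop (R := ℝ)))
      |>.eventually (Filter.eventually_ge_atTop (max 1 ((2 : ℝ) ^ (c0 + 2))))
    exact Filter.eventually_atTop.mp h2
  refine ⟨max X1 (max X3 (max X4 3)), ?_⟩
  intro X hX q hq hqX θ r c hmin z v a b hab ha hb hvab hprod hothers
  have hXX1 : X1 ≤ X := le_trans (le_max_left _ _) hX
  have hXX3 : X3 ≤ X := le_trans (le_trans (le_max_left _ _) (le_max_right _ _)) hX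
  have hXX4 : X4 ≤ X :=
    le_trans (le_trans (le_max_left _ _) (le_trans (le_max_right _ _) (le_max_right _ _))) hX
  have hXX5 : 3 ≤ X :=
    le_trans (le_trans (le_max_right _ _) (le_trans (le_max_right _ _) (le_max_right _ _))) hX
  have k1 := hX1 X hXX1
  have k3 := hX3 X hXX3
  have k4 := hX4 X hXX4
  rw [pow_zero, mul_one] at k3
  have hL1 : 1 ≤ Real.log X := le_trans (le_max_left _ _) k4
  have hLD : (2 : ℝ) ^ (c0 + 2) ≤ Real.log X := le_trans (le_max_right _ _) k4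
  have hX0 : (0 : ℝ) < X := by
    have : 0 < X := by omega
    exact_mod_cast this
  set L : ℝ := Real.log X with hL
  have hL0 : 0 < L := by linarith
  have hqR : (1 : ℝ) ≤ q := by exact_mod_cast hq
  have hq0 : (0 : ℝ) < q := by linarith
  set N1 : ℕ := 2 ^ v a with hN1
  set N2 : ℕ := 2 ^ v b with hN2
  set R : ℕ := ∏ j ∈ (univ.erase a).erase b, 2 ^ v j with hR
  set D : ℕ := 16 * R with hD
  have hN1p : 1 ≤ N1 := Nat.one_le_two_pow
  have hN2p : 1 ≤ N2 := Nat.one_le_two_pow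
  have hR1 : 1 ≤ R := by
    rw [hR]
    exact Nat.succ_le_of_lt (Finset.prod_pos fun j _ => by positivity)
  have hbmem : b ∈ univ.erase a := Finset.mem_erase.2 ⟨hab.symm, Finset.mem_univ _⟩
  have hprod2 : N1 * (N2 * R) = ∏ j, 2 ^ v j := by
    rw [hN1, hN2, hR, Finset.mul_prod_erase (univ.erase a) (fun j => 2 ^ v j) hbmem,
      Finset.mul_prod_erase univ (fun j => 2 ^ v j) (Finset.mem_univ a)]
  have hN12 : N1 * N2 ≤ X := by
    calc N1 * N2 ≤ N1 * N2 * R := Nat.le_mul_of_pos_right _ hR1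
      _ = N1 * (N2 * R) := mul_assoc _ _ _
      _ ≤ X := by rw [hprod2]; exact hprod
  have hN1X : N1 ≤ X := le_trans (Nat.le_mul_of_pos_right _ hN2p) hN12
  have hN2X : N2 ≤ X := le_trans (Nat.le_mul_of_pos_left _ hN1p) hN12
  have hN21 : N2 ≤ N1 := Nat.pow_le_pow_right (by norm_num) hvab
  have hDX : (D : ℝ) ≤ (X : ℝ) ^ ((1 / 3 : ℝ) / 4) := by
    rw [hD, Nat.cast_mul, Nat.cast_ofNat]
    calc (16 : ℝ) * R ≤ (X : ℝ) ^ (1 / 24 : ℝ) * (X : ℝ) ^ (1 / 24 : ℝ) := by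
          apply mul_le_mul k3 hothers (by positivity) (by positivity)
      _ = (X : ℝ) ^ ((1 / 3 : ℝ) / 4) := by
          rw [← Real.rpow_add hX0]
          congr 1
          norm_num
  have hDX' : D ≤ X := by
    have h1 : (D : ℝ) ≤ X := by
      refine le_trans hDX ?_
      calc (X : ℝ) ^ ((1 / 3 : ℝ) / 4) ≤ (X : ℝ) ^ (1 : ℝ) := by
            apply Real.rpow_le_rpow_of_exponent_le _ (by norm_num)
            have : 1 ≤ X := by omega
            exact_mod_cast this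
        _ = X := Real.rpow_one _
    exact_mod_cast h1
  set f : ArithmeticFunction ℝ := ∏ j ∈ (univ.erase a).erase b, bf z j (v j) with hf
  have hTT : TT z v = f * (bf z a (v a) * bf z b (v b)) := by
    rw [TT, ← Finset.mul_prod_erase univ _ (Finset.mem_univ a),
      ← Finset.mul_prod_erase _ _ hbmem, hf]
    ring
  have hfD : ∀ n, f n ≠ 0 → n ≤ D := by
    intro n hn
    obtain ⟨_, h2⟩ := prod_support z v _ n hn
    refine le_trans h2 ?_
    have : ∏ j ∈ (univ.erase a).erase b, 2 ^ (v j + 1) = 2 ^ ((univ.erase a).erase b).card * R := by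
      rw [hR]
      simp_rw [pow_succ]
      rw [Finset.prod_mul_distrib, Finset.prod_const]
      ring
    rw [this, hD]
    apply Nat.mul_le_mul_right
    have hcard : ((univ.erase a).erase b).card = 4 := by
      rw [Finset.card_erase_of_mem hbmem, Finset.card_erase_of_mem (Finset.mem_univ a)]
      simp
    rw [hcard]
    norm_num
  have hgsup : ∀ (j : Fin 6) (i n : ℕ), bf z j i n ≠ 0 → n ∈ Ico (2 ^ i) (2 * 2 ^ i) := by
    intro j i n hn
    have : ¬ ¬ (2 ^ i ≤ n ∧ n < 2 ^ (i + 1)) := by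
      intro hc
      apply hn
      unfold bf restr
      simp only [ArithmeticFunction.coe_mk]
      rw [if_neg hc]
    rw [not_not] at this
    rw [Finset.mem_Ico]
    rw [pow_succ] at this
    omega
  have hlogk : ∀ N k : ℕ, 1 ≤ N → N ≤ X → k ∈ Ico N (2 * N) → 1 ≤ k ∧ 1 + Real.log k ≤ 2 + L := by
    intro N k h1 h2 h3
    rw [Finset.mem_Ico] at h3
    have hk1 : 1 ≤ k := le_trans h1 h3.1
    refine ⟨hk1, ?_⟩
    have hk0 : (0 : ℝ) < k := by exact_mod_cast hk1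
    have h4 : (k : ℝ) ≤ 2 * X := by
      have : k ≤ 2 * X := by omega
      exact_mod_cast this
    have h5 : Real.log k ≤ Real.log (2 * X) := Real.log_le_log hk0 h4
    rw [Real.log_mul (by norm_num) hX0.ne'] at h5
    have h6 : Real.log 2 < 1 := by
      have := Real.log_two_lt_d9
      linarith
    linarith
  have hmain := k1 q hq (by
      have : (1 - 1 / 3 : ℝ) = 2 / 3 := by norm_num
      rw [this]; exact hqX) θ r c hmin D N1 N2 (fun n => f n) (fun n => bf z a (v a) n)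
    (fun n => bf z b (v b) n) hDX hN2p hN21 hN12
    (by
      intro k hk
      obtain ⟨h1, h2⟩ := hlogk N1 k hN1p hN1X hk
      obtain ⟨h3, h4⟩ := (bf_smooth z a (v a) ha).1 k h1
      exact ⟨h3, le_trans h4 h2⟩)
    (by
      have := (bf_smooth z a (v a) ha).2
      rw [pow_succ, mul_comm (2 ^ v a) 2] at this
      exact this)
    (by
      intro k hk
      obtain ⟨h1, h2⟩ := hlogk N2 k hN2p hN2X hk
      obtain ⟨h3, h4⟩ := (bf_smooth z b (v b) hb).1 k h1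
      rw [abs_of_nonneg h3]
      exact le_trans h4 h2)
  have hVQ : VQ X q (fun n => TT z v n) θ =
      ∑ b' ∈ (range q).filter (Nat.Coprime q),
      ‖∑ m ∈ Icc 1 D, ∑ k1 ∈ Ico N1 (2 * N1), ∑ k2 ∈ Ico N2 (2 * N2),
        if m * k1 * k2 ≤ X ∧ (m * k1 * k2) % q = b' then
          ((f m * (bf z a (v a) k1 * bf z b (v b) k2) : ℝ) : ℂ) *
            ee (((m * k1 * k2 : ℕ) : ℝ) * θ) else 0‖ ^ 2 := by
    unfold VQ
    refine Finset.sum_congr rfl fun b' _ => ?_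
    rw [hTT]
    rw [conv_three f (bf z a (v a)) (bf z b (v b)) X (fun n => n % q = b')
      (fun n => ee ((n : ℝ) * θ))]
    rw [boxI2_restrict (fun n => f n) (fun n => bf z a (v a) n) (fun n => bf z b (v b) n) X D N1 N2
      hN1p hN2p hfD (fun n hn => hgsup a (v a) n hn) (fun n hn => hgsup b (v b) n hn)
      (fun n => n % q = b') (fun n => ee ((n : ℝ) * θ))]
  rw [hVQ]
  refine le_trans hmain ?_
  have hD1 : 1 ≤ D := by omega
  have hlogD : 1 + Real.log D ≤ 2 * L := by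
    have h3 : (0 : ℝ) < D := by exact_mod_cast hD1
    have : Real.log D ≤ L := Real.log_le_log h3 (by exact_mod_cast hDX')
    linarith
  have hS : ∑ n ∈ Icc 1 D, f n ^ 2 / n ≤ (2 * L) ^ (c0 + 2) :=
    boxI2_sq (fun n => f n) (fun n hn => prod_bound z v _ n hn) c0 D (hc0 D hD1).2 (2 * L) hlogD
  have hpos : (0 : ℝ) < (q : ℝ) * L ^ (A + (c0 + 2) + 1) := by positivity
  calc (∑ m ∈ Icc 1 D, (fun n => f n) m ^ 2 / (m : ℝ)) *
        ((X : ℝ) ^ 2 / (q * L ^ (A + (c0 + 2) + 1)))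
      ≤ (2 * L) ^ (c0 + 2) * ((X : ℝ) ^ 2 / (q * L ^ (A + (c0 + 2) + 1))) := by
        apply mul_le_mul_of_nonneg_right hS
        positivity
    _ = (2 ^ (c0 + 2) / L) * ((X : ℝ) ^ 2 / (q * L ^ A)) := by
        rw [mul_pow, pow_succ L (A + (c0 + 2)), pow_add L A (c0 + 2)]
        field_simp
    _ ≤ 1 * ((X : ℝ) ^ 2 / (q * L ^ A)) := by
        apply mul_le_mul_of_nonneg_right _ (by positivity)
        rw [div_le_one hL0]
        exact hLD
    _ = (X : ℝ) ^ 2 / (q * L ^ A) := one_mul _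

end Pool.MP_dd84fd_nt.L2G
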