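import Pool.Agent.Lib.MP_dd84fd_nt.L2G.HBDefs

set_option autoImplicit false

namespace Pool.MP_dd84fd_nt.L2G

open Finset Pool.MP_67663b_nt.Odd

private theorem Classify_sub (v : Fin 6 → ℕ) (Y : ℝ) (hY : 1 ≤ Y) (T : Finset (Fin 6)) :
    (∀ j ∈ T, ((2 ^ v j : ℕ) : ℝ) < Y) → Y ≤ ((∏ j ∈ T, 2 ^ v j : ℕ) : ℝ) →
    ∃ S : Finset (Fin 6), Y ≤ ((∏ j ∈ S, 2 ^ v j : ℕ) : ℝ) ∧
      ((∏ j ∈ S, 2 ^ v j : ℕ) : ℝ) ≤ Y * Y := by
  induction T using Finset.induction_on with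
  | empty =>
    intro _ h
    refine ⟨∅, h, ?_⟩
    rw [Finset.prod_empty]
    push_cast
    nlinarith
  | insert j T hj ih =>
    intro h1 h2
    by_cases h : Y ≤ ((∏ j ∈ T, 2 ^ v j : ℕ) : ℝ)
    · exact ih (fun i hi => h1 i (Finset.mem_insert_of_mem hi)) h
    · refine ⟨insert j T, h2, ?_⟩
      rw [Finset.prod_insert hj, Nat.cast_mul]
      have h3 := h1 j (Finset.mem_insert_self j T)
      rw [not_le] at h
      exact mul_le_mul h3.le h.le (Nat.cast_nonneg _) (by linarith)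

theorem classify (X z : ℕ) (ε : ℝ) (hε : 0 < ε) (hX : 2 ≤ X) (hz : (z : ℝ) ≤ (X : ℝ) ^ (1 / 3 : ℝ))
    (v : Fin 6 → ℕ) (hv : ∏ j, 2 ^ v j ≤ X) (hv2 : ∀ j : Fin 6, 3 ≤ (j : ℕ) → 2 ^ v j ≤ z) :
    (∃ S : Finset (Fin 6), (X : ℝ) ^ (1 / 24 : ℝ) ≤ ((∏ j ∈ S, 2 ^ v j : ℕ) : ℝ) ∧
      ((∏ j ∈ S, 2 ^ v j : ℕ) : ℝ) ≤ (X : ℝ) ^ (1 / 3 + ε)) ∨
    (∃ a b : Fin 6, a ≠ b ∧ (a : ℕ) < 3 ∧ (b : ℕ) < 3 ∧ v b ≤ v a ∧
      ((∏ j ∈ (univ.erase a).erase b, 2 ^ v j : ℕ) : ℝ) ≤ (X : ℝ) ^ (1 / 24 : ℝ)) := by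
  classical
  have hX1 : (1 : ℝ) ≤ X := by exact_mod_cast (by omega : 1 ≤ X)
  have hX1' : (1 : ℝ) < X := by exact_mod_cast (by omega : 1 < X)
  have hX0 : (0 : ℝ) < X := by linarith
  set Y : ℝ := (X : ℝ) ^ (1 / 24 : ℝ) with hYdef
  have hY1 : 1 ≤ Y := Real.one_le_rpow hX1 (by norm_num)
  have hYY : Y * Y ≤ (X : ℝ) ^ (1 / 3 + ε) := by
    rw [hYdef, ← Real.rpow_add hX0]
    exact Real.rpow_le_rpow_of_exponent_le hX1 (by linarith)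
  set T : Finset (Fin 6) := univ.filter (fun j => ((2 ^ v j : ℕ) : ℝ) < Y) with hT
  by_cases hA : Y ≤ ((∏ j ∈ T, 2 ^ v j : ℕ) : ℝ)
  · left
    obtain ⟨S, h1, h2⟩ := Classify_sub v Y hY1 T
      (fun j hj => (Finset.mem_filter.mp hj).2) hA
    exact ⟨S, h1, h2.trans hYY⟩
  rw [not_le] at hA
  by_cases hB : ∃ j : Fin 6, Y ≤ ((2 ^ v j : ℕ) : ℝ) ∧ ((2 ^ v j : ℕ) : ℝ) ≤ (X : ℝ) ^ (1 / 3 + ε)
  · left
    obtain ⟨j, h1, h2⟩ := hB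
    refine ⟨{j}, ?_, ?_⟩
    · rw [Finset.prod_singleton]; exact h1
    · rw [Finset.prod_singleton]; exact h2
  right
  have hB' : ∀ j : Fin 6, j ∈ T ∨ (X : ℝ) ^ (1 / 3 + ε) < ((2 ^ v j : ℕ) : ℝ) := by
    intro j
    by_cases hj : j ∈ T
    · exact Or.inl hj
    · right
      by_contra h
      rw [not_lt] at h
      apply hB
      refine ⟨j, ?_, h⟩
      rw [hT, Finset.mem_filter, not_and, not_lt] at hj
      exact hj (Finset.mem_univ j)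
  have h3 : ∀ j : Fin 6, 3 ≤ (j : ℕ) → j ∈ T := by
    intro j hj
    rcases hB' j with h | h
    · exact h
    · exfalso
      have h4 : ((2 ^ v j : ℕ) : ℝ) ≤ z := by exact_mod_cast hv2 j hj
      have h5 : (X : ℝ) ^ (1 / 3 : ℝ) ≤ (X : ℝ) ^ (1 / 3 + ε) :=
        Real.rpow_le_rpow_of_exponent_le hX1 (by linarith)
      linarith
  have key : ∀ a b c : Fin 6, a ≠ b → (a : ℕ) < 3 → (b : ℕ) < 3 →
      (∀ j : Fin 6, j ≠ a → j ≠ b → j = c ∨ 3 ≤ (j : ℕ)) → c ∈ T →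
      (∃ a b : Fin 6, a ≠ b ∧ (a : ℕ) < 3 ∧ (b : ℕ) < 3 ∧ v b ≤ v a ∧
      ((∏ j ∈ (univ.erase a).erase b, 2 ^ v j : ℕ) : ℝ) ≤ Y) := by
    intro a b c hab ha hb hc hcT
    have hprod : ∀ a b : Fin 6, (∀ j : Fin 6, j ≠ a → j ≠ b → j ∈ T) →
        ((∏ j ∈ (univ.erase a).erase b, 2 ^ v j : ℕ) : ℝ) ≤ Y := by
      intro a b h
      have hsub : (univ.erase a).erase b ⊆ T := by
        intro j hj
        rw [Finset.mem_erase, Finset.mem_erase] at hj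
        exact h j hj.2.1 hj.1
      have : (∏ j ∈ (univ.erase a).erase b, 2 ^ v j : ℕ) ≤ ∏ j ∈ T, 2 ^ v j :=
        Finset.prod_le_prod_of_subset_of_one_le' hsub
          (fun i _ _ => Nat.one_le_two_pow)
      have h' : ((∏ j ∈ (univ.erase a).erase b, 2 ^ v j : ℕ) : ℝ) ≤
          ((∏ j ∈ T, 2 ^ v j : ℕ) : ℝ) := by exact_mod_cast this
      exact h'.trans hA.le
    have hall : ∀ j : Fin 6, j ≠ a → j ≠ b → j ∈ T := by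
      intro j h1 h2
      rcases hc j h1 h2 with h | h
      · rw [h]; exact hcT
      · exact h3 j h
    rcases le_total (v b) (v a) with h | h
    · exact ⟨a, b, hab, ha, hb, h, hprod a b hall⟩
    · exact ⟨b, a, hab.symm, hb, ha, h, hprod b a (fun j h1 h2 => hall j h2 h1)⟩
  by_cases h0T : (0 : Fin 6) ∈ T
  · exact key 1 2 0 (by decide) (by decide) (by decide) (by decide) h0T
  by_cases h1T : (1 : Fin 6) ∈ T
  · exact key 0 2 1 (by decide) (by decide) (by decide) (by decide) h1T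
  by_cases h2T : (2 : Fin 6) ∈ T
  · exact key 0 1 2 (by decide) (by decide) (by decide) (by decide) h2T
  exfalso
  have g0 := (hB' 0).resolve_left h0T
  have g1 := (hB' 1).resolve_left h1T
  have g2 := (hB' 2).resolve_left h2T
  have hZ : (0 : ℝ) < (X : ℝ) ^ (1 / 3 + ε) := Real.rpow_pos_of_pos hX0 _
  have hprod3 : ((2 ^ v 0 : ℕ) : ℝ) * ((2 ^ v 1 : ℕ) : ℝ) * ((2 ^ v 2 : ℕ) : ℝ) ≤ X := by
    have : (2 ^ v 0) * (2 ^ v 1) * (2 ^ v 2) ≤ X := by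
      refine le_trans ?_ hv
      rw [Fin.prod_univ_six]
      have e : 2 ^ v 0 * 2 ^ v 1 * 2 ^ v 2 * 2 ^ v 3 * 2 ^ v 4 * 2 ^ v 5 =
        2 ^ v 0 * 2 ^ v 1 * 2 ^ v 2 * (2 ^ v 3 * 2 ^ v 4 * 2 ^ v 5) := by ring
      rw [e]
      exact Nat.le_mul_of_pos_right _ (by positivity)
    exact_mod_cast this
  have hlt : (X : ℝ) ^ (1 / 3 + ε) * (X : ℝ) ^ (1 / 3 + ε) * (X : ℝ) ^ (1 / 3 + ε) <
      ((2 ^ v 0 : ℕ) : ℝ) * ((2 ^ v 1 : ℕ) : ℝ) * ((2 ^ v 2 : ℕ) : ℝ) := by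
    apply mul_lt_mul'' _ g2 (by positivity) hZ.le
    exact mul_lt_mul'' g0 g1 hZ.le hZ.le
  rw [← Real.rpow_add hX0, ← Real.rpow_add hX0] at hlt
  have hXX : (X : ℝ) < (X : ℝ) ^ (1 / 3 + ε + (1 / 3 + ε) + (1 / 3 + ε)) := by
    conv_lhs => rw [← Real.rpow_one (X : ℝ)]
    exact Real.rpow_lt_rpow_of_exponent_lt hX1' (by linarith)
  linarith

end Pool.MP_dd84fd_nt.L2G
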