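import Pool.Agent.Lib.MP_dd84fd_nt.L2G.HBDefs

set_option autoImplicit false

namespace Pool.MP_dd84fd_nt.L2G

open Finset Pool.MP_67663b_nt.Odd

private lemma cntNZ_modcount (N m v : ℕ) (hm : 0 < m) :
    ((Ico N (2 * N)).filter (fun x => x ≡ v [MOD m])).card ≤ N / m + 1 := by
  have h := Nat.Ico_filter_modEq_card N (2 * N) hm v
  have hm' : (0 : ℚ) < (m : ℚ) := by exact_mod_cast hm
  have h3' : N < (N / m + 1) * m := by
    have := Nat.lt_div_mul_add (a := N) hm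
    rw [Nat.add_mul, one_mul]; exact this
  generalize N / m = d at h3' ⊢
  have e1 : (((2 * N : ℕ) : ℚ) - v) / m = ((N : ℚ) - v) / m + (N : ℚ) / m := by
    push_cast; ring
  have e2 : (N : ℚ) / m < (d : ℚ) + 1 := by
    rw [div_lt_iff₀ hm']
    exact_mod_cast h3'
  have e3 : ((N : ℚ) - v) / m ≤ (⌈((N : ℕ) - v : ℚ) / m⌉ : ℤ) := Int.le_ceil _
  have e4 : ⌈(((2 * N : ℕ) : ℚ) - v) / m⌉ ≤ ⌈((N : ℕ) - v : ℚ) / m⌉ + ((d : ℤ) + 1) := by
    apply Int.ceil_le.mpr
    rw [e1]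
    push_cast
    linarith
  have h3 : ((((Ico N (2 * N)).filter (fun x => x ≡ v [MOD m])).card : ℕ) : ℤ) ≤
      ((d + 1 : ℕ) : ℤ) := by
    rw [h]
    apply max_le
    · rw [Nat.cast_add, Nat.cast_one]
      linarith
    · positivity
  exact_mod_cast h3

private lemma cntNZ_core (q N k : ℕ) (h : ℤ) (η : ℝ) (hq : 1 ≤ q) (hη : 0 ≤ η) (hN : 1 ≤ N)
    (hk : N ≤ k) (hkq : Nat.Coprime k q) (S : Finset (ℕ × ℤ))
    (hS : ∀ p ∈ S, N ≤ p.1 ∧ p.1 < 2 * N ∧ (q : ℤ) ∣ h * p.1 - p.2 * k ∧ h * p.1 ≠ p.2 * k ∧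
      |((h * p.1 - p.2 * k : ℤ) : ℝ)| ≤ 4 * η * N) :
    (S.card : ℝ) ≤ 16 * η * N / q := by
  have hk0 : 0 < k := by omega
  have hqR : (0 : ℝ) < (q : ℝ) := by exact_mod_cast hq
  set g : ℕ := Int.gcd h k with hg
  have hg0 : 0 < g := Int.gcd_pos_of_ne_zero_right h (by exact_mod_cast hk0.ne')
  have hgR : (0 : ℝ) < (g : ℝ) := by exact_mod_cast hg0
  have hgk : g ∣ k := by
    have := Int.gcd_dvd_right h (k : ℤ)
    exact_mod_cast this
  have hgh : (g : ℤ) ∣ h := Int.gcd_dvd_left h (k : ℤ)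
  obtain ⟨m, hm⟩ := hgk
  have hm0 : 0 < m := by
    rcases Nat.eq_zero_or_pos m with h0 | h0
    · subst h0; omega
    · exact h0
  obtain ⟨h1, hh1⟩ := hgh
  have hcop : IsCoprime h1 (m : ℤ) := by
    have e : Int.gcd ((g : ℤ) * h1) ((g : ℤ) * m) = g := by
      rw [← hh1]
      have : ((g : ℤ) * m) = (k : ℤ) := by rw [hm]; push_cast; ring
      rw [this]
    rw [Int.gcd_mul_left] at e
    simp only [Int.natAbs_natCast] at e
    have : Int.gcd h1 (m : ℤ) = 1 := by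
      have := Nat.eq_of_mul_eq_mul_left hg0 (e.trans (mul_one g).symm)
      exact this
    exact Int.isCoprime_iff_gcd_eq_one.mpr this
  have hqg : IsCoprime (q : ℤ) (g : ℤ) := by
    have : Nat.Coprime g q := Nat.Coprime.coprime_dvd_left (Dvd.intro m hm.symm) hkq
    exact Nat.isCoprime_iff_coprime.mpr this.symm
  have hdiv : ∀ p ∈ S, ((q : ℤ) * g) ∣ h * p.1 - p.2 * k := by
    intro p hp
    obtain ⟨-, -, hd, -, -⟩ := hS p hp
    apply hqg.mul_dvd hd
    rw [hh1, hm]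
    refine ⟨h1 * p.1 - p.2 * m, ?_⟩
    push_cast; ring
  set M : ℤ := ⌊4 * η * N / (q * g)⌋ with hM
  have hM0 : 0 ≤ M := by
    rw [hM]; apply Int.floor_nonneg.mpr; positivity
  set f : ℕ × ℤ → ℤ := fun p => (h * p.1 - p.2 * k) / ((q : ℤ) * g) with hf
  have hqgpos : (0 : ℤ) < (q : ℤ) * g := by positivity
  have hfe : ∀ p ∈ S, ((q : ℤ) * g) * f p = h * p.1 - p.2 * k := by
    intro p hp
    exact Int.mul_ediv_cancel' (hdiv p hp)
  have hmaps : ∀ p ∈ S, f p ∈ (Icc (-M) M).erase 0 := by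
    intro p hp
    obtain ⟨-, -, hd, hne, habs⟩ := hS p hp
    have he := hfe p hp
    rw [Finset.mem_erase, Finset.mem_Icc]
    have hne0 : f p ≠ 0 := by
      intro h0
      rw [h0, mul_zero] at he
      apply hne; linarith
    refine ⟨hne0, ?_⟩
    have hab : |f p| ≤ M := by
      rw [hM]
      apply Int.le_floor.mpr
      rw [le_div_iff₀ (by positivity)]
      rw [← he] at habs
      push_cast at habs ⊢
      rw [abs_mul, abs_of_pos (show (0 : ℝ) < (q : ℝ) * g by positivity)] at habs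
      linarith
    exact abs_le.mp hab
  have hfib : ∀ b ∈ (Icc (-M) M).erase 0, (S.filter (fun a => f a = b)).card ≤ 2 * g := by
    intro b _
    rcases (S.filter (fun a => f a = b)).eq_empty_or_nonempty with h0 | ⟨p0, hp0⟩
    · rw [h0]; simp
    rw [Finset.mem_filter] at hp0
    have hinj : Set.InjOn (fun p : ℕ × ℤ => p.1) (S.filter (fun a => f a = b) : Set (ℕ × ℤ)) := by
      intro p hp p' hp' hpp
      rw [Finset.mem_coe, Finset.mem_filter] at hp hp'
      have e1 := hfe p hp.1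
      have e2 := hfe p' hp'.1
      rw [hp.2] at e1
      rw [hp'.2] at e2
      simp only at hpp
      rw [hpp] at e1
      have e3 : p.2 * (k : ℤ) = p'.2 * k := by linarith
      have e4 : p.2 = p'.2 := mul_right_cancel₀ (by exact_mod_cast hk0.ne') e3
      exact Prod.ext hpp e4
    rw [← Finset.card_image_of_injOn hinj]
    have hsub : (S.filter (fun a => f a = b)).image (fun p : ℕ × ℤ => p.1) ⊆
        (Ico N (2 * N)).filter (fun x => x ≡ p0.1 [MOD m]) := by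
      intro x hx
      rw [Finset.mem_image] at hx
      obtain ⟨p, hp, rfl⟩ := hx
      rw [Finset.mem_filter] at hp
      obtain ⟨hp1, hp2, -, -, -⟩ := hS p hp.1
      rw [Finset.mem_filter, Finset.mem_Ico]
      refine ⟨⟨hp1, hp2⟩, ?_⟩
      have e1 := hfe p hp.1
      have e2 := hfe p0 hp0.1
      rw [hp.2] at e1
      rw [hp0.2] at e2
      have e3 : h * ((p.1 : ℤ) - p0.1) = (p.2 - p0.2) * k := by linarith
      have e4 : h1 * ((p.1 : ℤ) - p0.1) = (p.2 - p0.2) * m := by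
        have hg' : (g : ℤ) ≠ 0 := by exact_mod_cast hg0.ne'
        apply mul_left_cancel₀ hg'
        rw [← mul_assoc, ← hh1, e3, hm]
        push_cast; ring
      have e5 : (m : ℤ) ∣ ((p.1 : ℤ) - p0.1) := by
        apply hcop.symm.dvd_of_dvd_mul_left
        rw [e4]
        exact Dvd.intro_left _ rfl
      have e6 : ((p.1 : ℕ) : ℤ) ≡ (p0.1 : ℕ) [ZMOD (m : ℤ)] := by
        apply Int.ModEq.symm
        exact (Int.modEq_iff_dvd).mpr e5
      exact (Int.natCast_modEq_iff).mp e6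
    refine (Finset.card_le_card hsub).trans ((cntNZ_modcount N m p0.1 hm0).trans ?_)
    have : N / m ≤ g := by
      apply Nat.div_le_of_le_mul
      rw [mul_comm, ← hm]; exact hk
    omega
  have hcard := Finset.card_le_mul_card_image_of_maps_to hmaps (2 * g) hfib
  have hcardt : (((Icc (-M) M).erase 0).card : ℤ) = 2 * M := by
    rw [Finset.card_erase_of_mem (by rw [Finset.mem_Icc]; constructor <;> linarith), Int.card_Icc]
    have : (M + 1 - -M).toNat = (2 * M + 1).toNat := by congr 1; ring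
    rw [this]
    have h2 : (((2 * M + 1).toNat : ℕ) : ℤ) = 2 * M + 1 := Int.toNat_of_nonneg (by linarith)
    omega
  have hMle : (M : ℝ) ≤ 4 * η * N / (q * g) := by rw [hM]; exact Int.floor_le _
  have hcardtR : ((((Icc (-M) M).erase 0).card : ℕ) : ℝ) = 2 * (M : ℝ) := by exact_mod_cast hcardt
  calc (S.card : ℝ) ≤ ((2 * g * ((Icc (-M) M).erase 0).card : ℕ) : ℝ) := by exact_mod_cast hcard
    _ = 2 * g * (2 * (M : ℝ)) := by push_cast; rw [hcardtR]
    _ ≤ 2 * g * (2 * (4 * η * N / (q * g))) := by gcongr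
    _ = 16 * η * N / q := by field_simp; ring

private lemma cntNZ_Icc (x η : ℝ) (hη : 0 ≤ η) : ((Icc ⌈x - η⌉ ⌊x + η⌋).card : ℝ) ≤ 2 * η + 1 := by
  rw [Int.card_Icc]
  rcases le_or_gt 0 (⌊x + η⌋ + 1 - ⌈x - η⌉) with h | h
  · have e : (((⌊x + η⌋ + 1 - ⌈x - η⌉).toNat : ℕ) : ℤ) = ⌊x + η⌋ + 1 - ⌈x - η⌉ :=
      Int.toNat_of_nonneg h
    have e2 : (((⌊x + η⌋ + 1 - ⌈x - η⌉).toNat : ℕ) : ℝ) =
        ((⌊x + η⌋ + 1 - ⌈x - η⌉ : ℤ) : ℝ) := by exact_mod_cast e
    rw [e2]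
    push_cast
    have h1 := Int.floor_le (x + η)
    have h2 := Int.le_ceil (x - η)
    linarith
  · rw [Int.toNat_of_nonpos h.le]
    simp only [Nat.cast_zero]
    positivity

/-- the solutions with `h k' ≠ h' k` -/
theorem cnt_nz (q N : ℕ) (α η : ℝ) (hq : 1 ≤ q) (hN : 1 ≤ N) (hη : 0 ≤ η) :
    ((∑ k ∈ (Ico N (2 * N)).filter (fun k => Nat.Coprime k q),
      ∑ k' ∈ (Ico N (2 * N)).filter (fun k => Nat.Coprime k q),
        ((Icc ⌈α * k - η⌉ ⌊α * k + η⌋ ×ˢ Icc ⌈α * k' - η⌉ ⌊α * k' + η⌋).filter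
          (fun p : ℤ × ℤ => (q : ℤ) ∣ p.1 * k' - p.2 * k ∧ p.1 * k' ≠ p.2 * k)).card : ℕ) : ℝ) ≤
      64 * η * (N : ℝ) ^ 2 * (η + 1) / q := by
  have hqR : (0 : ℝ) < (q : ℝ) := by exact_mod_cast hq
  have hNR : (1 : ℝ) ≤ (N : ℝ) := by exact_mod_cast hN
  have hone : ∀ k ∈ (Ico N (2 * N)).filter (fun k => Nat.Coprime k q),
      ((∑ k' ∈ (Ico N (2 * N)).filter (fun k => Nat.Coprime k q),
        ((Icc ⌈α * k - η⌉ ⌊α * k + η⌋ ×ˢ Icc ⌈α * k' - η⌉ ⌊α * k' + η⌋).filter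
          (fun p : ℤ × ℤ => (q : ℤ) ∣ p.1 * k' - p.2 * k ∧ p.1 * k' ≠ p.2 * k)).card : ℕ) : ℝ) ≤
      (2 * η + 1) * (16 * η * N / q) := by
    intro k hk
    rw [Finset.mem_filter, Finset.mem_Ico] at hk
    set K := (Ico N (2 * N)).filter (fun k => Nat.Coprime k q) with hK
    set F : ℕ → Finset (ℤ × ℤ) := fun k' =>
      (Icc ⌈α * k - η⌉ ⌊α * k + η⌋ ×ˢ Icc ⌈α * k' - η⌉ ⌊α * k' + η⌋).filter
          (fun p : ℤ × ℤ => (q : ℤ) ∣ p.1 * k' - p.2 * k ∧ p.1 * k' ≠ p.2 * k) with hF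
    have e1 : (∑ k' ∈ K, (F k').card) = (K.sigma F).card := by rw [Finset.card_sigma]
    rw [e1]
    have hmaps : ∀ u ∈ K.sigma F, u.2.1 ∈ Icc ⌈α * k - η⌉ ⌊α * k + η⌋ := by
      intro u hu
      rw [Finset.mem_sigma, hF] at hu
      simp only [Finset.mem_filter, Finset.mem_product] at hu
      exact hu.2.1.1
    rw [Finset.card_eq_sum_card_fiberwise (f := fun u : (Σ _ : ℕ, ℤ × ℤ) => u.2.1) hmaps]
    push_cast
    have hb : ∀ h ∈ Icc ⌈α * k - η⌉ ⌊α * k + η⌋,
        ((((K.sigma F).filter (fun u => u.2.1 = h)).card : ℕ) : ℝ) ≤ 16 * η * N / q := by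
      intro h hh
      rw [Finset.mem_Icc] at hh
      have hh1 : α * k - η ≤ h := Int.ceil_le.mp hh.1
      have hh2 : (h : ℝ) ≤ α * k + η := Int.le_floor.mp hh.2
      have hinj : Set.InjOn (fun u : (Σ _ : ℕ, ℤ × ℤ) => (u.1, u.2.2))
          ((K.sigma F).filter (fun u => u.2.1 = h) : Set (Σ _ : ℕ, ℤ × ℤ)) := by
        rintro ⟨a, b, c⟩ hu ⟨a', b', c'⟩ hu' huu
        rw [Finset.mem_coe, Finset.mem_filter] at hu hu'
        simp only [Prod.mk.injEq] at huu
        obtain ⟨h1, h2⟩ := huu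
        have h3 := hu.2
        have h4 := hu'.2
        simp only at h3 h4
        subst h1 h2 h3
        rw [h4]
      rw [← Finset.card_image_of_injOn hinj]
      apply cntNZ_core q N k h η hq hη hN hk.1.1 hk.2
      intro p hp
      rw [Finset.mem_image] at hp
      obtain ⟨⟨a, b, c⟩, hu, rfl⟩ := hp
      rw [Finset.mem_filter, Finset.mem_sigma] at hu
      obtain ⟨⟨ha, hbc⟩, hbh⟩ := hu
      simp only at ha hbc hbh
      rw [hK, Finset.mem_filter, Finset.mem_Ico] at ha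
      rw [hF] at hbc
      simp only [Finset.mem_filter, Finset.mem_product, Finset.mem_Icc] at hbc
      subst hbh
      obtain ⟨⟨-, hc1, hc2⟩, hd, hne⟩ := hbc
      refine ⟨ha.1.1, ha.1.2, hd, hne, ?_⟩
      have hc1' : α * a - η ≤ c := Int.ceil_le.mp hc1
      have hc2' : (c : ℝ) ≤ α * a + η := Int.le_floor.mp hc2
      simp only
      have haR : (a : ℝ) ≤ 2 * N := by exact_mod_cast ha.1.2.le
      have hkR : (k : ℝ) ≤ 2 * N := by exact_mod_cast hk.1.2.le
      have e : (((b : ℤ) * (a : ℕ) - c * (k : ℕ) : ℤ) : ℝ) =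
          ((b : ℝ) - α * k) * a - ((c : ℝ) - α * a) * k := by
        push_cast; ring
      rw [e]
      have t1 : |(b : ℝ) - α * k| ≤ η := by rw [abs_le]; constructor <;> linarith
      have t2 : |(c : ℝ) - α * a| ≤ η := by rw [abs_le]; constructor <;> linarith
      calc |((b : ℝ) - α * k) * a - ((c : ℝ) - α * a) * k|
          ≤ |((b : ℝ) - α * k) * a| + |((c : ℝ) - α * a) * k| := abs_sub _ _
        _ = |(b : ℝ) - α * k| * a + |(c : ℝ) - α * a| * k := by
            rw [abs_mul, abs_mul, Nat.abs_cast, Nat.abs_cast]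
        _ ≤ η * (2 * N) + η * (2 * N) := by gcongr
        _ = 4 * η * N := by ring
    calc ∑ h ∈ Icc ⌈α * k - η⌉ ⌊α * k + η⌋,
          ((((K.sigma F).filter (fun u => u.2.1 = h)).card : ℕ) : ℝ)
        ≤ ∑ _h ∈ Icc ⌈α * k - η⌉ ⌊α * k + η⌋, 16 * η * N / q := Finset.sum_le_sum hb
      _ = ((Icc ⌈α * k - η⌉ ⌊α * k + η⌋).card : ℝ) * (16 * η * N / q) := by
          rw [Finset.sum_const, nsmul_eq_mul]
      _ ≤ (2 * η + 1) * (16 * η * N / q) := by
          have := cntNZ_Icc (α * k) η hη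
          gcongr
  push_cast
  have hcK : (((Ico N (2 * N)).filter (fun k => Nat.Coprime k q)).card : ℝ) ≤ N := by
    have h1 := Finset.card_filter_le (Ico N (2 * N)) (fun k => Nat.Coprime k q)
    rw [Nat.card_Ico] at h1
    have h2 : 2 * N - N = N := by omega
    rw [h2] at h1
    exact_mod_cast h1
  calc _ ≤ ∑ _k ∈ (Ico N (2 * N)).filter (fun k => Nat.Coprime k q),
        (2 * η + 1) * (16 * η * N / q) := by
        apply Finset.sum_le_sum
        intro k hk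
        have := hone k hk
        push_cast at this
        exact this
    _ = (((Ico N (2 * N)).filter (fun k => Nat.Coprime k q)).card : ℝ) *
        ((2 * η + 1) * (16 * η * N / q)) := by rw [Finset.sum_const, nsmul_eq_mul]
    _ ≤ N * ((2 * η + 1) * (16 * η * N / q)) := by gcongr
    _ = 16 * η * (N : ℝ) ^ 2 * (2 * η + 1) / q := by ring
    _ ≤ 64 * η * (N : ℝ) ^ 2 * (η + 1) / q := by
        apply div_le_div_of_nonneg_right _ hqR.le
        have : 0 ≤ η * (N : ℝ) ^ 2 := by positivity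
        nlinarith [mul_nonneg this hη]

end Pool.MP_dd84fd_nt.L2G
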