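import Pool.Agent.Lib.MP_dd84fd_nt.L2G.Defs

set_option autoImplicit false

/-!
# Selberg's identity `Λ log + Λ * Λ = μ * log²`
-/

namespace Pool.MP_dd84fd_nt.L2G

open Finset Pool.MP_67663b_nt.Odd

private theorem selberg_aux (n : ℕ) :
    ((ArithmeticFunction.pmul ArithmeticFunction.vonMangoldt ArithmeticFunction.log +
      ArithmeticFunction.vonMangoldt * ArithmeticFunction.vonMangoldt) *
        (ArithmeticFunction.zeta : ArithmeticFunction ℝ)) n =
      (ArithmeticFunction.pmul ArithmeticFunction.log ArithmeticFunction.log) n := by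
  rw [add_mul, mul_assoc, ArithmeticFunction.vonMangoldt_mul_zeta, ArithmeticFunction.add_apply,
    ArithmeticFunction.mul_apply, ArithmeticFunction.mul_apply, ← Finset.sum_add_distrib]
  have h1 : ∀ x ∈ n.divisorsAntidiagonal,
      (ArithmeticFunction.pmul ArithmeticFunction.vonMangoldt ArithmeticFunction.log) x.1 *
        (ArithmeticFunction.zeta : ArithmeticFunction ℝ) x.2 +
        ArithmeticFunction.vonMangoldt x.1 * ArithmeticFunction.log x.2 =
      ArithmeticFunction.vonMangoldt x.1 * (ArithmeticFunction.zeta : ArithmeticFunction ℝ) x.2 *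
        Real.log n := by
    intro x hx
    rw [Nat.mem_divisorsAntidiagonal] at hx
    obtain ⟨hx1, hx2⟩ := hx
    have ha : x.1 ≠ 0 := by rintro h; apply hx2; rw [← hx1, h, zero_mul]
    have hb : x.2 ≠ 0 := by rintro h; apply hx2; rw [← hx1, h, mul_zero]
    have hlog : Real.log n = Real.log x.1 + Real.log x.2 := by
      rw [← hx1, Nat.cast_mul, Real.log_mul (by exact_mod_cast ha) (by exact_mod_cast hb)]
    have hz : (ArithmeticFunction.zeta : ArithmeticFunction ℝ) x.2 = 1 := by
      rw [ArithmeticFunction.natCoe_apply, ArithmeticFunction.zeta_apply_ne hb, Nat.cast_one]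
    rw [ArithmeticFunction.pmul_apply, hz, hlog, ArithmeticFunction.log_apply,
      ArithmeticFunction.log_apply]
    ring
  rw [Finset.sum_congr rfl h1, ← Finset.sum_mul, ← ArithmeticFunction.mul_apply,
    ArithmeticFunction.vonMangoldt_mul_zeta, ArithmeticFunction.pmul_apply,
    ArithmeticFunction.log_apply]

theorem selberg_identity (n : ℕ) (hn : 1 ≤ n) :
    ArithmeticFunction.vonMangoldt n * Real.log n +
      (ArithmeticFunction.vonMangoldt * ArithmeticFunction.vonMangoldt) n =
      ∑ x ∈ n.divisorsAntidiagonal, (ArithmeticFunction.moebius x.1 : ℝ) * Real.log x.2 ^ 2 := by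
  have _ := hn
  have h1 : (ArithmeticFunction.pmul ArithmeticFunction.vonMangoldt ArithmeticFunction.log +
      ArithmeticFunction.vonMangoldt * ArithmeticFunction.vonMangoldt) *
        (ArithmeticFunction.zeta : ArithmeticFunction ℝ) =
      ArithmeticFunction.pmul ArithmeticFunction.log ArithmeticFunction.log := by
    ext m
    exact selberg_aux m
  have h2 : ArithmeticFunction.pmul ArithmeticFunction.vonMangoldt ArithmeticFunction.log +
      ArithmeticFunction.vonMangoldt * ArithmeticFunction.vonMangoldt =
      (ArithmeticFunction.moebius : ArithmeticFunction ℝ) *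
        ArithmeticFunction.pmul ArithmeticFunction.log ArithmeticFunction.log := by
    rw [← h1, mul_comm (ArithmeticFunction.moebius : ArithmeticFunction ℝ), mul_assoc,
      ArithmeticFunction.coe_zeta_mul_coe_moebius, mul_one]
  have h3 := congrArg (fun f : ArithmeticFunction ℝ => f n) h2
  simp only [ArithmeticFunction.add_apply, ArithmeticFunction.pmul_apply,
    ArithmeticFunction.log_apply] at h3
  rw [h3, ArithmeticFunction.mul_apply]
  refine Finset.sum_congr rfl fun x _ => ?_
  rw [ArithmeticFunction.pmul_apply, ArithmeticFunction.log_apply, ArithmeticFunction.intCoe_apply]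
  ring

end Pool.MP_dd84fd_nt.L2G
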