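import Pool.Agent.Lib.MP_dd84fd_nt.L2G.MuInt
import Pool.Agent.Lib.MP_dd84fd_nt.DivBound

set_option autoImplicit false

namespace Pool.MP_dd84fd_nt.L2G

open Finset Pool.MP_67663b_nt.Odd

/-! ### Geometric sums -/

theorem tThree_norm_ee_sub_one_ge (θ : ℝ) : 4 * nrm θ ≤ ‖ee θ - 1‖ := by
  have h0 : ee θ = ee (θ - round θ) := by
    have h := ee_add_int (θ - round θ) (round θ)
    rw [sub_add_cancel] at h
    exact h
  have habs : |θ - round θ| ≤ 1 / 2 := abs_sub_round θ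
  unfold nrm
  rw [h0]
  set x : ℝ := θ - round θ with hx
  have h1 : (2 * Real.pi * x * Complex.I : ℂ) = Complex.I * ((2 * Real.pi * x : ℝ) : ℂ) := by
    push_cast
    ring
  unfold ee
  rw [h1, Complex.norm_exp_I_mul_ofReal_sub_one]
  have h2 : 2 * Real.pi * x / 2 = Real.pi * x := by ring
  rw [h2, norm_mul, Real.norm_eq_abs, Real.norm_eq_abs, abs_of_pos (by norm_num : (0 : ℝ) < 2)]
  have hpi := Real.pi_pos
  have key : ∀ z : ℝ, 0 ≤ z → z ≤ 1 / 2 → 2 * z ≤ |Real.sin (Real.pi * z)| := by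
    intro z hz0 hz1
    have h3 := Real.mul_le_sin (x := Real.pi * z) (by positivity) (by nlinarith)
    have h4 : 2 / Real.pi * (Real.pi * z) = 2 * z := by field_simp
    rw [h4] at h3
    exact h3.trans (le_abs_self _)
  rcases le_total 0 x with hx0 | hx0
  · rw [abs_of_nonneg hx0] at habs ⊢
    have := key x hx0 habs
    linarith
  · rw [abs_of_nonpos hx0] at habs ⊢
    have h5 := key (-x) (by linarith) habs
    rw [mul_neg Real.pi x, Real.sin_neg, abs_neg] at h5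
    linarith

theorem tThree_geom (θ δ : ℝ) (hδ : 0 < δ) (h : δ ≤ nrm θ) (a b : ℕ) :
    ‖∑ k ∈ Ioc a b, ee (k * θ)‖ ≤ 1 / (2 * δ) := by
  have htel : ∀ n : ℕ, a ≤ n → (ee θ - 1) * ∑ k ∈ Ioc a n, ee (k * θ) =
      ee ((n + 1 : ℕ) * θ) - ee ((a + 1 : ℕ) * θ) := by
    intro n hn
    induction n, hn using Nat.le_induction with
    | base => simp
    | succ n hn ih =>
      rw [Finset.sum_Ioc_succ_top hn, mul_add, ih]
      have h1 : ee ((n + 1 + 1 : ℕ) * θ) = ee θ * ee ((n + 1 : ℕ) * θ) := by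
        rw [← ee_add]
        congr 1
        push_cast
        ring
      rw [h1]
      ring
  rcases Nat.lt_or_ge b a with hab | hab
  · rw [Finset.Ioc_eq_empty (by omega), Finset.sum_empty, norm_zero]
    positivity
  · have h1 := congrArg norm (htel b hab)
    rw [norm_mul] at h1
    have h2 : ‖ee ((b + 1 : ℕ) * θ) - ee ((a + 1 : ℕ) * θ)‖ ≤ 2 := by
      refine (norm_sub_le _ _).trans ?_
      rw [norm_ee, norm_ee]
      norm_num
    have h3 : 4 * δ ≤ ‖ee θ - 1‖ := by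
      have := tThree_norm_ee_sub_one_ge θ
      linarith
    rw [le_div_iff₀ (by positivity)]
    have h4 : 0 ≤ ‖∑ k ∈ Ioc a b, ee (k * θ)‖ := norm_nonneg _
    have h5 : 4 * δ * ‖∑ k ∈ Ioc a b, ee (k * θ)‖ ≤ 2 := by
      calc 4 * δ * ‖∑ k ∈ Ioc a b, ee (k * θ)‖ ≤ ‖ee θ - 1‖ * ‖∑ k ∈ Ioc a b, ee (k * θ)‖ :=
            mul_le_mul_of_nonneg_right h3 h4
        _ ≤ 2 := by rw [h1]; exact h2
    linarith

/-- partial summation -/
theorem tThree_abel (w : ℕ → ℝ) (z : ℕ → ℂ) (M : ℝ) (a : ℕ) (hw0 : 0 ≤ w a)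
    (hw : ∀ k, a ≤ k → w k ≤ w (k + 1)) (hM : ∀ n, ‖∑ k ∈ Ioc a n, z k‖ ≤ M) (b : ℕ) (hb : a ≤ b) :
    ‖∑ k ∈ Ioc a b, (w k : ℂ) * z k‖ ≤ 2 * w b * M := by
  have hM0 : 0 ≤ M := (norm_nonneg _).trans (hM a)
  have h1 : ∀ n : ℕ, a ≤ n → ∑ k ∈ Ioc a n, (w k : ℂ) * z k =
      (w n : ℂ) * ∑ k ∈ Ioc a n, z k -
        ∑ k ∈ Ico a n, ((w (k + 1) - w k : ℝ) : ℂ) * ∑ j ∈ Ioc a k, z j := by
    intro n hn
    induction n, hn using Nat.le_induction with
    | base => simp
    | succ n hn ih =>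
      rw [Finset.sum_Ioc_succ_top hn, Finset.sum_Ioc_succ_top hn, Finset.sum_Ico_succ_top hn, ih]
      push_cast
      ring
  rw [h1 b hb]
  have h2 : ‖∑ k ∈ Ico a b, ((w (k + 1) - w k : ℝ) : ℂ) * ∑ j ∈ Ioc a k, z j‖ ≤
      (w b - w a) * M := by
    refine (norm_sum_le _ _).trans ?_
    rw [← Finset.sum_Ico_sub w hb, Finset.sum_mul]
    refine Finset.sum_le_sum fun k hk => ?_
    have hka := (Finset.mem_Ico.1 hk).1
    rw [norm_mul, Complex.norm_real, Real.norm_eq_abs, abs_of_nonneg (by linarith [hw k hka])]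
    exact mul_le_mul_of_nonneg_left (hM k) (by linarith [hw k hka])
  have hmono : w a ≤ w b := by
    clear h1 h2
    induction b, hb using Nat.le_induction with
    | base => exact le_rfl
    | succ n hn ih => exact ih.trans (hw n hn)
  have h3 : ‖(w b : ℂ) * ∑ k ∈ Ioc a b, z k‖ ≤ w b * M := by
    rw [norm_mul, Complex.norm_real, Real.norm_eq_abs, abs_of_nonneg (hw0.trans hmono)]
    exact mul_le_mul_of_nonneg_left (hM b) (hw0.trans hmono)
  refine (norm_sub_le _ _).trans ((add_le_add h3 h2).trans ?_)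
  have : 0 ≤ w a * M := mul_nonneg hw0 hM0
  nlinarith

/-- a sum against an integral -/
theorem tThree_sum_integral (f f' : ℝ → ℂ) (M : ℝ) (a b : ℕ) (hab : a ≤ b)
    (hf : ∀ x : ℝ, (a : ℝ) ≤ x → x ≤ b → HasDerivAt f (f' x) x)
    (hM : ∀ x : ℝ, (a : ℝ) ≤ x → x ≤ b → ‖f' x‖ ≤ M) :
    ‖∑ k ∈ Ioc a b, f k - ∫ u in (a : ℝ)..b, f u‖ ≤ M * (b - a) := by
  induction b, hab using Nat.le_induction with
  | base => simp
  | succ n hn ih =>
    have han : (a : ℝ) ≤ n := by exact_mod_cast hn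
    have hih := ih (fun x h1 h2 => hf x h1 (h2.trans (by push_cast; linarith)))
      (fun x h1 h2 => hM x h1 (h2.trans (by push_cast; linarith)))
    have hcont : ContinuousOn f (Set.Icc (a : ℝ) ((n + 1 : ℕ) : ℝ)) := fun x hx =>
      (hf x hx.1 hx.2).continuousAt.continuousWithinAt
    have hi1 : IntervalIntegrable f MeasureTheory.volume (a : ℝ) n := by
      refine ContinuousOn.intervalIntegrable (hcont.mono ?_)
      rw [Set.uIcc_of_le han]
      exact Set.Icc_subset_Icc le_rfl (by push_cast; linarith)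
    have hi2 : IntervalIntegrable f MeasureTheory.volume (n : ℝ) ((n + 1 : ℕ) : ℝ) := by
      refine ContinuousOn.intervalIntegrable (hcont.mono ?_)
      rw [Set.uIcc_of_le (by push_cast; linarith)]
      exact Set.Icc_subset_Icc han le_rfl
    rw [Finset.sum_Ioc_succ_top hn, ← intervalIntegral.integral_add_adjacent_intervals hi1 hi2]
    have hone : ‖f ((n + 1 : ℕ) : ℝ) - ∫ u in (n : ℝ)..((n + 1 : ℕ) : ℝ), f u‖ ≤ M := by
      have h1 : f ((n + 1 : ℕ) : ℝ) - ∫ u in (n : ℝ)..((n + 1 : ℕ) : ℝ), f u =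
          ∫ u in (n : ℝ)..((n + 1 : ℕ) : ℝ), (f ((n + 1 : ℕ) : ℝ) - f u) := by
        rw [intervalIntegral.integral_sub (by simp) hi2]
        simp
      rw [h1]
      have h2 : ‖∫ u in (n : ℝ)..((n + 1 : ℕ) : ℝ), (f ((n + 1 : ℕ) : ℝ) - f u)‖ ≤
          M * |((n + 1 : ℕ) : ℝ) - n| := by
        refine intervalIntegral.norm_integral_le_of_norm_le_const fun u hu => ?_
        rw [Set.uIoc_of_le (by push_cast; linarith)] at hu
        have hconv : Convex ℝ (Set.Icc (n : ℝ) ((n + 1 : ℕ) : ℝ)) := convex_Icc _ _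
        have h3 := hconv.norm_image_sub_le_of_norm_hasDerivWithin_le (f := f) (f' := f') (C := M)
          (fun x hx => (hf x (han.trans hx.1) hx.2).hasDerivWithinAt)
          (fun x hx => hM x (han.trans hx.1) hx.2)
          (x := u) (y := ((n + 1 : ℕ) : ℝ)) ⟨hu.1.le, hu.2⟩ ⟨by push_cast; linarith, le_rfl⟩
        refine h3.trans ?_
        have hM0 : 0 ≤ M := (norm_nonneg _).trans (hM u (han.trans hu.1.le) hu.2)
        have h4 : ‖((n + 1 : ℕ) : ℝ) - u‖ ≤ 1 := by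
          rw [Real.norm_eq_abs, abs_of_nonneg (by linarith [hu.2])]
          have := hu.1
          push_cast
          linarith
        calc M * ‖((n + 1 : ℕ) : ℝ) - u‖ ≤ M * 1 := mul_le_mul_of_nonneg_left h4 hM0
          _ = M := mul_one M
      refine h2.trans (le_of_eq ?_)
      push_cast
      rw [add_sub_cancel_left, abs_one, mul_one]
    have hsplit : ∑ k ∈ Ioc a n, f k + f ((n + 1 : ℕ) : ℝ) -
        ((∫ u in (a : ℝ)..n, f u) + ∫ u in (n : ℝ)..((n + 1 : ℕ) : ℝ), f u) =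
        (∑ k ∈ Ioc a n, f k - ∫ u in (a : ℝ)..n, f u) +
        (f ((n + 1 : ℕ) : ℝ) - ∫ u in (n : ℝ)..((n + 1 : ℕ) : ℝ), f u) := by ring
    rw [hsplit]
    refine (norm_add_le _ _).trans ((add_le_add hih hone).trans (le_of_eq ?_))
    push_cast
    ring

/-- harmonic sums over a range -/
theorem tThree_harm (A B : ℕ) (hA : 1 ≤ A) (hAB : A ≤ B) :
    ∑ d ∈ Ioc A B, (1 / (d : ℝ)) ≤ Real.log B - Real.log A := by
  induction B, hAB using Nat.le_induction with
  | base => simp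
  | succ n hn ih =>
    rw [Finset.sum_Ioc_succ_top hn]
    have hn0 : (0 : ℝ) < n := by exact_mod_cast (by omega : 0 < n)
    have h1 := Real.one_sub_inv_le_log_of_pos (x := ((n + 1 : ℕ) : ℝ) / n) (by positivity)
    rw [Real.log_div (by positivity) hn0.ne', inv_div] at h1
    have h2 : 1 - (n : ℝ) / ((n + 1 : ℕ) : ℝ) = 1 / ((n + 1 : ℕ) : ℝ) := by
      push_cast
      field_simp
      ring
    rw [h2] at h1
    linarith

theorem tThree_harm_one (B : ℕ) (hB : 1 ≤ B) :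
    ∑ d ∈ Icc 1 B, (1 / (d : ℝ)) ≤ 1 + Real.log B := by
  have h1 : Icc 1 B = insert 1 (Ioc 1 B) := by
    ext x
    simp only [Finset.mem_Icc, Finset.mem_insert, Finset.mem_Ioc]
    omega
  rw [h1, Finset.sum_insert (by simp)]
  have := tThree_harm 1 B le_rfl hB
  simp only [Nat.cast_one, Real.log_one, sub_zero] at this
  simpa using this

/-! ### The pairs -/

theorem tThree_pairs (X : ℕ) (F : ℕ → ℕ → ℂ) :
    ∑ p ∈ (Icc 1 X ×ˢ Icc 1 X).filter (fun p => p.1 * p.2 ≤ X), F p.1 p.2 =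
      ∑ d ∈ Icc 1 X, ∑ k ∈ Icc 1 (X / d), F d k := by
  rw [Finset.sum_filter, Finset.sum_product]
  refine Finset.sum_congr rfl fun d hd => ?_
  have hd1 := (Finset.mem_Icc.1 hd).1
  rw [← Finset.sum_filter]
  refine Finset.sum_congr ?_ fun _ _ => rfl
  ext k
  simp only [Finset.mem_filter, Finset.mem_Icc]
  rw [Nat.le_div_iff_mul_le (by omega)]
  constructor
  · rintro ⟨⟨h1, _⟩, h3⟩
    exact ⟨h1, by rwa [mul_comm]⟩
  · rintro ⟨h1, h2⟩
    refine ⟨⟨h1, ?_⟩, by rwa [mul_comm]⟩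
    exact (Nat.le_mul_of_pos_right k (by omega)).trans h2

theorem tThree_abs_moebius (n : ℕ) : |(ArithmeticFunction.moebius n : ℝ)| ≤ 1 := by
  have h := ArithmeticFunction.abs_moebius_le_one (n := n)
  exact_mod_cast h

theorem tThree_small (X K0 : ℕ) (hK0 : 1 ≤ K0) (z : ℕ → ℕ → ℝ) :
    ‖∑ p ∈ (Icc 1 X ×ˢ Icc 1 X).filter (fun p => p.1 * p.2 ≤ X),
      (if p.2 ≤ K0 then (((ArithmeticFunction.moebius p.1 : ℝ) * Real.log p.2 ^ 2 : ℝ) : ℂ) *
        ee (z p.1 p.2) else 0)‖ ≤ X * (1 + Real.log K0) * Real.log K0 ^ 2 := by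
  have hlogK : 0 ≤ Real.log K0 := Real.log_natCast_nonneg _
  refine (norm_sum_le _ _).trans ?_
  have h1 : ∀ p ∈ (Icc 1 X ×ˢ Icc 1 X).filter (fun p => p.1 * p.2 ≤ X),
      ‖(if p.2 ≤ K0 then (((ArithmeticFunction.moebius p.1 : ℝ) * Real.log p.2 ^ 2 : ℝ) : ℂ) *
        ee (z p.1 p.2) else 0)‖ ≤ if p.2 ≤ K0 then Real.log K0 ^ 2 else 0 := by
    intro p hp
    have hp2 : 1 ≤ p.2 := by
      have h2 := (Finset.mem_filter.1 hp).1
      exact (Finset.mem_Icc.1 (Finset.mem_product.1 h2).2).1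
    split_ifs with h
    · rw [norm_mul, norm_ee, mul_one, Complex.norm_real, Real.norm_eq_abs, abs_mul,
        abs_of_nonneg (by positivity : (0 : ℝ) ≤ Real.log p.2 ^ 2)]
      have h2 : Real.log p.2 ^ 2 ≤ Real.log K0 ^ 2 := by
        refine pow_le_pow_left₀ (Real.log_natCast_nonneg _) ?_ 2
        exact Real.log_le_log (by exact_mod_cast hp2) (by exact_mod_cast h)
      calc |(ArithmeticFunction.moebius p.1 : ℝ)| * Real.log p.2 ^ 2 ≤ 1 * Real.log K0 ^ 2 :=
            mul_le_mul (tThree_abs_moebius _) h2 (by positivity) zero_le_one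
        _ = Real.log K0 ^ 2 := one_mul _
    · rw [norm_zero]
  refine (Finset.sum_le_sum h1).trans ?_
  rw [Finset.sum_filter, Finset.sum_product_right]
  have h2 : ∀ k ∈ Icc 1 X, ∑ d ∈ Icc 1 X,
      (if (d, k).1 * (d, k).2 ≤ X then (if (d, k).2 ≤ K0 then Real.log K0 ^ 2 else 0) else 0) ≤
      if k ∈ Icc 1 K0 then (X / k : ℝ) * Real.log K0 ^ 2 else 0 := by
    intro k hk
    have hk1 := (Finset.mem_Icc.1 hk).1
    by_cases hkK : k ≤ K0
    · rw [if_pos (Finset.mem_Icc.2 ⟨hk1, hkK⟩)]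
      simp only [if_pos hkK]
      rw [← Finset.sum_filter, Finset.sum_const, nsmul_eq_mul]
      refine mul_le_mul_of_nonneg_right ?_ (by positivity)
      have h3 : ((Icc 1 X).filter (fun d => d * k ≤ X)).card ≤ X / k := by
        calc ((Icc 1 X).filter (fun d => d * k ≤ X)).card ≤ (Icc 1 (X / k)).card := by
              refine Finset.card_le_card fun d hd => ?_
              rw [Finset.mem_filter, Finset.mem_Icc] at hd
              rw [Finset.mem_Icc, Nat.le_div_iff_mul_le (by omega)]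
              exact ⟨hd.1.1, hd.2⟩
          _ = X / k := by simp
      calc (((Icc 1 X).filter (fun d => d * k ≤ X)).card : ℝ) ≤ ((X / k : ℕ) : ℝ) := by
            exact_mod_cast h3
        _ ≤ (X : ℝ) / k := Nat.cast_div_le
    · have h3 : k ∉ Icc 1 K0 := fun h => hkK (Finset.mem_Icc.1 h).2
      rw [if_neg h3]
      simp only [if_neg hkK, ite_self, Finset.sum_const_zero, le_refl]
  refine (Finset.sum_le_sum h2).trans ?_
  rw [← Finset.sum_filter]
  have h4 : ∑ k ∈ (Icc 1 X).filter (fun k => k ∈ Icc 1 K0), (X / k : ℝ) * Real.log K0 ^ 2 ≤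
      ∑ k ∈ Icc 1 K0, (X / k : ℝ) * Real.log K0 ^ 2 := by
    refine Finset.sum_le_sum_of_subset_of_nonneg (fun k hk => (Finset.mem_filter.1 hk).2) ?_
    intro k _ _
    positivity
  refine h4.trans ?_
  have h5 : ∑ k ∈ Icc 1 K0, (X / k : ℝ) * Real.log K0 ^ 2 =
      X * Real.log K0 ^ 2 * ∑ k ∈ Icc 1 K0, (1 / (k : ℝ)) := by
    rw [Finset.mul_sum]
    refine Finset.sum_congr rfl fun k _ => ?_
    ring
  rw [h5]
  have h6 := tThree_harm_one K0 hK0
  calc X * Real.log K0 ^ 2 * ∑ k ∈ Icc 1 K0, (1 / (k : ℝ)) ≤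
        X * Real.log K0 ^ 2 * (1 + Real.log K0) := mul_le_mul_of_nonneg_left h6 (by positivity)
    _ = X * (1 + Real.log K0) * Real.log K0 ^ 2 := by ring

/-- the inner sums over large `k` -/
noncomputable def tThreeI (X K0 : ℕ) (t : ℝ) (d : ℕ) : ℂ :=
  ∑ k ∈ Ioc K0 (X / d), ((Real.log k ^ 2 : ℝ) : ℂ) * ee (((d * k : ℕ) : ℝ) * t)

theorem tThree_large (X K0 : ℕ) (hK0 : 1 ≤ K0) (t : ℝ) :
    ∑ p ∈ (Icc 1 X ×ˢ Icc 1 X).filter (fun p => p.1 * p.2 ≤ X),
      (if p.2 ≤ K0 then 0 else (((ArithmeticFunction.moebius p.1 : ℝ) * Real.log p.2 ^ 2 : ℝ) : ℂ) *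
        ee (((p.1 * p.2 : ℕ) : ℝ) * t)) =
      ∑ d ∈ Icc 1 (X / K0), (ArithmeticFunction.moebius d : ℂ) * tThreeI X K0 t d := by
  rw [tThree_pairs X (fun d k => if k ≤ K0 then 0 else
    (((ArithmeticFunction.moebius d : ℝ) * Real.log k ^ 2 : ℝ) : ℂ) * ee (((d * k : ℕ) : ℝ) * t))]
  have hsub : Icc 1 (X / K0) ⊆ Icc 1 X := Finset.Icc_subset_Icc le_rfl (Nat.div_le_self _ _)
  have h1 : ∀ d : ℕ, ∑ k ∈ Icc 1 (X / d), (if k ≤ K0 then 0 else
      (((ArithmeticFunction.moebius d : ℝ) * Real.log k ^ 2 : ℝ) : ℂ) * ee (((d * k : ℕ) : ℝ) * t)) =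
      (ArithmeticFunction.moebius d : ℂ) * tThreeI X K0 t d := by
    intro d
    unfold tThreeI
    rw [Finset.mul_sum]
    have h2 : Ioc K0 (X / d) = (Icc 1 (X / d)).filter (fun k => ¬ k ≤ K0) := by
      ext k
      simp only [Finset.mem_Ioc, Finset.mem_filter, Finset.mem_Icc]
      omega
    rw [h2, Finset.sum_filter]
    refine Finset.sum_congr rfl fun k _ => ?_
    by_cases hk : k ≤ K0
    · simp [hk]
    · simp only [hk, if_false, not_false_eq_true, if_true]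
      push_cast
      ring
  simp only [h1]
  refine (Finset.sum_subset hsub fun d hd hd' => ?_).symm
  have hd1 := (Finset.mem_Icc.1 hd).1
  have h2 : X / K0 < d := by
    by_contra hcon
    push Not at hcon
    exact hd' (Finset.mem_Icc.2 ⟨hd1, hcon⟩)
  have h3 : X < d * K0 := (Nat.div_lt_iff_lt_mul (by omega)).1 h2
  have h4 : X / d < K0 := by
    rw [Nat.div_lt_iff_lt_mul (by omega)]
    rwa [mul_comm]
  unfold tThreeI
  rw [Finset.Ioc_eq_empty (by omega), Finset.sum_empty, mul_zero]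

/-- `r` does not divide `d` -/
theorem tThree_minor (X K0 r : ℕ) (hK0 : 1 ≤ K0) (hr : 1 ≤ r) (y : ℤ) (β : ℝ)
    (hy : IsCoprime y (r : ℤ)) (hT : 2 * r * (|β| * X) ≤ K0) (d : ℕ) (hd : d ∈ Icc 1 (X / K0))
    (hrd : ¬ r ∣ d) : ‖tThreeI X K0 (y / r + β) d‖ ≤ 2 * Real.log X ^ 2 * r := by
  have hr0 : (0 : ℝ) < r := by exact_mod_cast hr
  have hK00 : (0 : ℝ) < K0 := by exact_mod_cast hK0
  obtain ⟨hd1, hd2⟩ := Finset.mem_Icc.1 hd
  have hd0 : (0 : ℝ) < d := by exact_mod_cast hd1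
  have hdK : d * K0 ≤ X := (Nat.le_div_iff_mul_le (by omega)).1 hd2
  have hdKr : (d : ℝ) * K0 ≤ X := by exact_mod_cast hdK
  have hdX : d ≤ X := le_trans (Nat.le_mul_of_pos_right d (by omega)) hdK
  have hX0 : (0 : ℝ) < X := by exact_mod_cast (by omega : 0 < X)
  set t : ℝ := y / r + β with ht
  -- the distance
  have hnrm : 1 / (2 * (r : ℝ)) ≤ nrm (d * t) := by
    unfold nrm
    set m : ℤ := round (d * t) with hm
    have h1 : (d : ℤ) * y - m * r ≠ 0 := by
      intro h0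
      apply hrd
      have h2 : (r : ℤ) ∣ y * d := ⟨m, by linarith⟩
      have h3 : (r : ℤ) ∣ d := hy.symm.dvd_of_dvd_mul_left h2
      exact_mod_cast h3
    have h2 : (1 : ℝ) ≤ |((d : ℤ) * y - m * r : ℤ)| := by
      exact_mod_cast Int.one_le_abs h1
    have h3 : (d : ℝ) * t - m = (((d : ℤ) * y - m * r : ℤ) : ℝ) / r + d * β := by
      rw [ht]
      push_cast
      field_simp
      ring
    have h4 : |(d : ℝ) * β| ≤ 1 / (2 * r) := by
      rw [abs_mul, abs_of_pos hd0, le_div_iff₀ (by positivity)]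
      have h5 : (d : ℝ) * |β| * (2 * r) * K0 ≤ 1 * K0 := by
        calc (d : ℝ) * |β| * (2 * r) * K0 = (d * K0) * (2 * r * |β|) := by ring
          _ ≤ X * (2 * r * |β|) := mul_le_mul_of_nonneg_right hdKr (by positivity)
          _ = 2 * r * (|β| * X) := by ring
          _ ≤ 1 * K0 := by rw [one_mul]; exact hT
      exact le_of_mul_le_mul_right h5 hK00
    rw [h3]
    have h5 : |(((d : ℤ) * y - m * r : ℤ) : ℝ) / r| ≤
        |(((d : ℤ) * y - m * r : ℤ) : ℝ) / r + d * β| + |(d : ℝ) * β| := by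
      have := abs_sub ((((d : ℤ) * y - m * r : ℤ) : ℝ) / r + d * β) (d * β)
      rwa [add_sub_cancel_right] at this
    have h6 : 1 / (r : ℝ) ≤ |(((d : ℤ) * y - m * r : ℤ) : ℝ) / r| := by
      rw [abs_div, abs_of_pos hr0]
      refine div_le_div_of_nonneg_right ?_ hr0.le
      exact_mod_cast h2
    have h7 : 1 / (r : ℝ) = 1 / (2 * r) + 1 / (2 * r) := by
      field_simp
      norm_num
    linarith
  unfold tThreeI
  rcases Nat.lt_or_ge (X / d) K0 with hlt | hge
  · rw [Finset.Ioc_eq_empty (by omega), Finset.sum_empty, norm_zero]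
    positivity
  have h1 : ∀ n, ‖∑ k ∈ Ioc K0 n, ee (((d * k : ℕ) : ℝ) * t)‖ ≤ r := by
    intro n
    have h2 := tThree_geom (d * t) (1 / (2 * r)) (by positivity) hnrm K0 n
    have h3 : 1 / (2 * (1 / (2 * (r : ℝ)))) = r := by field_simp
    rw [h3] at h2
    refine le_trans (le_of_eq ?_) h2
    congr 1
    refine Finset.sum_congr rfl fun k _ => ?_
    congr 1
    push_cast
    ring
  have h2 := tThree_abel (fun k => Real.log k ^ 2) (fun k => ee (((d * k : ℕ) : ℝ) * t)) r K0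
    (by positivity) (fun k hk => by
      have hk0 : (0 : ℝ) < k := by exact_mod_cast (by omega : 0 < k)
      refine pow_le_pow_left₀ (Real.log_natCast_nonneg _) ?_ 2
      exact Real.log_le_log hk0 (by push_cast; linarith)) h1 (X / d) hge
  refine h2.trans ?_
  refine mul_le_mul_of_nonneg_right ?_ hr0.le
  refine mul_le_mul_of_nonneg_left ?_ (by norm_num)
  refine pow_le_pow_left₀ (Real.log_natCast_nonneg _) ?_ 2
  refine Real.log_le_log ?_ (by exact_mod_cast Nat.div_le_self _ _)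
  exact_mod_cast (by omega : 0 < X / d)

/-! ### The case `r ∣ d` -/

theorem tThree_deriv (c : ℝ) (x : ℝ) (hx : 0 < x) :
    HasDerivAt (fun u : ℝ => ((Real.log u ^ 2 : ℝ) : ℂ) * ee (c * u))
      (((2 * Real.log x / x : ℝ) : ℂ) * ee (c * x) +
        ((Real.log x ^ 2 : ℝ) : ℂ) * (ee (c * x) * (2 * Real.pi * c * Complex.I))) x := by
  have h1 : HasDerivAt (fun u : ℝ => ee (c * u)) (ee (c * x) * (2 * Real.pi * c * Complex.I)) x := by
    unfold ee
    have h2 : HasDerivAt (fun u : ℝ => (2 * Real.pi * ((c * u : ℝ) : ℂ) * Complex.I))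
        (2 * Real.pi * c * Complex.I) x := by
      have h3 : HasDerivAt (fun u : ℝ => ((c * u : ℝ) : ℂ)) (c : ℂ) x := by
        have h4 := ((hasDerivAt_id x).const_mul c).ofReal_comp
        simpa using h4
      exact (h3.const_mul (2 * Real.pi : ℂ)).mul_const Complex.I
    exact h2.cexp
  have h2 : HasDerivAt (fun u : ℝ => Real.log u ^ 2) (2 * Real.log x / x) x := by
    have h3 := (Real.hasDerivAt_log hx.ne').pow 2
    refine h3.congr_deriv ?_
    simp only [Nat.add_one_sub_one, pow_one, Nat.cast_ofNat]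
    rw [div_eq_mul_inv]
  exact h2.ofReal_comp.mul h1

theorem tThree_deriv_norm (c x : ℝ) (K0 X : ℕ) (hK0 : 1 ≤ K0) (h1 : (K0 : ℝ) ≤ x) (h2 : x ≤ X) :
    ‖((2 * Real.log x / x : ℝ) : ℂ) * ee (c * x) +
        ((Real.log x ^ 2 : ℝ) : ℂ) * (ee (c * x) * (2 * Real.pi * c * Complex.I))‖ ≤
      2 * Real.log X / K0 + 2 * Real.pi * |c| * Real.log X ^ 2 := by
  have hK00 : (1 : ℝ) ≤ K0 := by exact_mod_cast hK0
  have hx0 : 0 < x := by linarith
  have hlx : 0 ≤ Real.log x := Real.log_nonneg (by linarith)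
  have hlX : Real.log x ≤ Real.log X := Real.log_le_log hx0 h2
  have hnormI : ‖(2 * Real.pi * c * Complex.I : ℂ)‖ = 2 * Real.pi * |c| := by
    rw [norm_mul, norm_mul, norm_mul, Complex.norm_I, mul_one, Complex.norm_real,
      Complex.norm_real, Real.norm_eq_abs, Real.norm_eq_abs, abs_of_pos Real.pi_pos]
    norm_num
  refine (norm_add_le _ _).trans (add_le_add ?_ ?_)
  · rw [norm_mul, norm_ee, mul_one, Complex.norm_real, Real.norm_eq_abs, abs_of_nonneg (by positivity)]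
    exact div_le_div₀ (by linarith) (by linarith) (by linarith) h1
  · rw [norm_mul, norm_mul, norm_ee, one_mul, hnormI, Complex.norm_real, Real.norm_eq_abs,
      abs_of_nonneg (by positivity), mul_comm]
    refine mul_le_mul_of_nonneg_left (pow_le_pow_left₀ hlx hlX 2) ?_
    have := Real.pi_pos
    positivity

theorem tThree_ee_major (r d k : ℕ) (hr : 1 ≤ r) (y : ℤ) (β : ℝ) :
    ee (((r * d * k : ℕ) : ℝ) * (y / r + β)) = ee ((r * d * β) * k) := by
  have hr0 : (r : ℝ) ≠ 0 := by exact_mod_cast (by omega : r ≠ 0)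
  have h1 : ((r * d * k : ℕ) : ℝ) * (y / r + β) = (r * d * β) * k + ((d * k * y : ℤ) : ℝ) := by
    push_cast
    field_simp
    ring
  rw [h1, ee_add_int]

theorem tThree_major (X K0 r : ℕ) (hK0 : 1 ≤ K0) (hr : 1 ≤ r) (y : ℤ) (β : ℝ)
    (d : ℕ) (hd : 1 ≤ d) (hdX : r * d * K0 ≤ X) :
    ‖tThreeI X K0 (y / r + β) (r * d) - ((1 / ((r : ℝ) * d) : ℝ) : ℂ) *
      ∫ s in ((r : ℝ) * d)..X, ((Real.log (s / (r * d)) ^ 2 : ℝ) : ℂ) * ee (s * β)‖ ≤
      2 * Real.log X * X / K0 * (1 / d) + (7 * (|β| * X) + 1) * Real.log X ^ 2 +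
        K0 * Real.log K0 ^ 2 := by
  have hr0 : (0 : ℝ) < r := by exact_mod_cast hr
  have hr1 : (1 : ℝ) ≤ r := by exact_mod_cast hr
  have hd0 : (0 : ℝ) < d := by exact_mod_cast hd
  have hd1 : (1 : ℝ) ≤ d := by exact_mod_cast hd
  have hK00 : (0 : ℝ) < K0 := by exact_mod_cast hK0
  have hK01 : (1 : ℝ) ≤ K0 := by exact_mod_cast hK0
  have hrd0 : (0 : ℝ) < r * d := by positivity
  have hrd1 : (1 : ℝ) ≤ r * d := by nlinarith
  have hdXr : (r : ℝ) * d * K0 ≤ X := by exact_mod_cast hdX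
  have hX0 : (0 : ℝ) < X := lt_of_lt_of_le (by positivity) hdXr
  have hX1 : (1 : ℝ) ≤ X := by
    have hX1' : 1 ≤ X := by exact_mod_cast hX0
    exact_mod_cast hX1'
  have hL0 : 0 ≤ Real.log X := Real.log_nonneg hX1
  have hrdn : 0 < r * d := by positivity
  set N : ℕ := X / (r * d) with hN
  have hK0N : K0 ≤ N := by
    rw [hN, Nat.le_div_iff_mul_le hrdn]
    rwa [mul_comm]
  have hK0Nr : (K0 : ℝ) ≤ N := by exact_mod_cast hK0N
  set Y : ℝ := (X : ℝ) / (r * d) with hY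
  have hNY : (N : ℝ) ≤ Y := by
    rw [hN, hY]
    have := Nat.cast_div_le (α := ℝ) (m := X) (n := r * d)
    push_cast at this
    exact this
  have hYN : Y ≤ N + 1 := by
    rw [hY, div_le_iff₀ hrd0]
    have h1 : X < (N + 1) * (r * d) := by
      rw [hN]
      exact Nat.lt_mul_of_div_lt (Nat.lt_succ_self _) hrdn
    have h2 : (X : ℝ) < (N + 1) * (r * d) := by exact_mod_cast h1
    exact h2.le
  have hYX : Y ≤ X := by
    rw [hY, div_le_iff₀ hrd0]
    nlinarith
  set c : ℝ := r * d * β with hc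
  set f : ℝ → ℂ := fun u => ((Real.log u ^ 2 : ℝ) : ℂ) * ee (c * u) with hf
  have hI : tThreeI X K0 (y / r + β) (r * d) = ∑ k ∈ Ioc K0 N, f k := by
    unfold tThreeI
    refine Finset.sum_congr rfl fun k _ => ?_
    rw [tThree_ee_major r d k hr y β]
  have hfc : ∀ a b : ℝ, (0 : ℝ) < a → a ≤ b → IntervalIntegrable f MeasureTheory.volume a b := by
    intro a b ha hab
    refine ContinuousOn.intervalIntegrable fun x hx => ?_
    rw [Set.uIcc_of_le hab] at hx
    exact (tThree_deriv c x (ha.trans_le hx.1)).continuousAt.continuousWithinAt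
  -- first comparison
  have hS1 : ‖∑ k ∈ Ioc K0 N, f k - ∫ u in (K0 : ℝ)..N, f u‖ ≤
      (2 * Real.log X / K0 + 2 * Real.pi * |c| * Real.log X ^ 2) * (N - K0) :=
    tThree_sum_integral f _ _ K0 N hK0N
      (fun x h1 _ => tThree_deriv c x (hK00.trans_le h1))
      (fun x h1 h2 => tThree_deriv_norm c x K0 X hK0 h1 (h2.trans (hNY.trans hYX)))
  have hS1' : ‖∑ k ∈ Ioc K0 N, f k - ∫ u in (K0 : ℝ)..N, f u‖ ≤
      2 * Real.log X * X / K0 * (1 / d) + 7 * (|β| * X) * Real.log X ^ 2 := by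
    refine hS1.trans ?_
    have hpi4 : 2 * Real.pi ≤ 7 := by
      have := Real.pi_lt_d2
      linarith
    have hpi := Real.pi_pos
    have habsc : |c| = r * d * |β| := by
      rw [hc, abs_mul, abs_of_pos hrd0]
    have h1 : (N : ℝ) - K0 ≤ Y := by linarith
    have h2 : (2 * Real.log X / K0 + 2 * Real.pi * |c| * Real.log X ^ 2) * (N - K0) ≤
        (2 * Real.log X / K0 + 2 * Real.pi * |c| * Real.log X ^ 2) * Y :=
      mul_le_mul_of_nonneg_left h1 (by positivity)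
    refine h2.trans ?_
    rw [add_mul]
    refine add_le_add ?_ ?_
    · rw [hY]
      have h3 : 2 * Real.log X / K0 * ((X : ℝ) / (r * d)) =
          2 * Real.log X * X / K0 * (1 / (r * d)) := by ring
      rw [h3]
      refine mul_le_mul_of_nonneg_left ?_ (by positivity)
      refine one_div_le_one_div_of_le hd0 ?_
      nlinarith
    · rw [habsc, hY]
      have h3 : 2 * Real.pi * (r * d * |β|) * Real.log X ^ 2 * ((X : ℝ) / (r * d)) =
          2 * Real.pi * ((|β| * X) * Real.log X ^ 2) := by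
        field_simp
      rw [h3]
      calc 2 * Real.pi * ((|β| * X) * Real.log X ^ 2) ≤ 7 * ((|β| * X) * Real.log X ^ 2) :=
            mul_le_mul_of_nonneg_right hpi4 (by positivity)
        _ = 7 * (|β| * X) * Real.log X ^ 2 := by ring
  -- end piece
  have hS2 : ‖∫ u in (N : ℝ)..Y, f u‖ ≤ Real.log X ^ 2 := by
    have h1 : ‖∫ u in (N : ℝ)..Y, f u‖ ≤ Real.log X ^ 2 * |Y - N| := by
      refine intervalIntegral.norm_integral_le_of_norm_le_const fun u hu => ?_
      rw [Set.uIoc_of_le hNY] at hu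
      have hu1 : 1 ≤ u := by linarith [hu.1]
      simp only [hf]
      rw [norm_mul, norm_ee, mul_one, Complex.norm_real, Real.norm_eq_abs,
        abs_of_nonneg (by positivity)]
      exact pow_le_pow_left₀ (Real.log_nonneg hu1)
        (Real.log_le_log (by linarith) (hu.2.trans hYX)) 2
    refine h1.trans ?_
    rw [abs_of_nonneg (by linarith)]
    calc Real.log X ^ 2 * (Y - N) ≤ Real.log X ^ 2 * 1 :=
          mul_le_mul_of_nonneg_left (by linarith) (by positivity)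
      _ = Real.log X ^ 2 := mul_one _
  -- substitution
  set g : ℝ → ℂ := fun s => ((Real.log (s / (r * d)) ^ 2 : ℝ) : ℂ) * ee (s * β) with hg
  have hsubst : ∫ u in (K0 : ℝ)..Y, f u = ((1 / ((r : ℝ) * d) : ℝ) : ℂ) *
      ∫ s in ((r : ℝ) * d * K0)..X, g s := by
    have h1 := intervalIntegral.integral_comp_mul_left (a := (K0 : ℝ)) (b := Y) g hrd0.ne'
    have h2 : (fun u : ℝ => g (r * d * u)) = f := by
      funext u
      simp only [hg, hf, hc]
      rw [mul_div_cancel_left₀ _ hrd0.ne']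
      congr 2
      ring
    rw [h2] at h1
    rw [h1]
    have h3 : (r : ℝ) * d * Y = X := by
      rw [hY]
      field_simp
    rw [h3, one_div, Complex.real_smul]
  have hgc : ∀ a b : ℝ, (0 : ℝ) < a → a ≤ b → IntervalIntegrable g MeasureTheory.volume a b := by
    intro a b ha hab
    refine ContinuousOn.intervalIntegrable ?_
    rw [Set.uIcc_of_le hab]
    refine ContinuousOn.mul ?_ (muInt_continuous_ee β).continuousOn
    refine Complex.continuous_ofReal.comp_continuousOn (ContinuousOn.pow ?_ 2)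
    refine ContinuousOn.log (continuousOn_id.div_const _) fun x hx => ?_
    have hx0 : (0 : ℝ) < x := ha.trans_le hx.1
    exact (div_pos hx0 hrd0).ne'
  have hrdK : (r : ℝ) * d ≤ r * d * K0 := le_mul_of_one_le_right hrd0.le hK01
  have hS3 : ‖((1 / ((r : ℝ) * d) : ℝ) : ℂ) * ∫ s in ((r : ℝ) * d)..((r : ℝ) * d * K0), g s‖ ≤
      K0 * Real.log K0 ^ 2 := by
    have h1 : ‖∫ s in ((r : ℝ) * d)..((r : ℝ) * d * K0), g s‖ ≤
        Real.log K0 ^ 2 * |(r : ℝ) * d * K0 - r * d| := by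
      refine intervalIntegral.norm_integral_le_of_norm_le_const fun u hu => ?_
      rw [Set.uIoc_of_le hrdK] at hu
      simp only [hg]
      rw [norm_mul, norm_ee, mul_one, Complex.norm_real, Real.norm_eq_abs,
        abs_of_nonneg (by positivity)]
      have h2 : 1 ≤ u / (r * d) := by
        rw [le_div_iff₀ hrd0, one_mul]
        exact hu.1.le
      have h3 : u / (r * d) ≤ K0 := by
        rw [div_le_iff₀ hrd0, mul_comm]
        exact hu.2
      exact pow_le_pow_left₀ (Real.log_nonneg h2) (Real.log_le_log (by linarith) h3) 2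
    rw [norm_mul, Complex.norm_real, Real.norm_eq_abs, abs_of_pos (by positivity)]
    rw [abs_of_nonneg (by linarith)] at h1
    calc 1 / ((r : ℝ) * d) * ‖∫ s in ((r : ℝ) * d)..((r : ℝ) * d * K0), g s‖
        ≤ 1 / ((r : ℝ) * d) * (Real.log K0 ^ 2 * ((r : ℝ) * d * K0)) := by
          refine mul_le_mul_of_nonneg_left (h1.trans ?_) (by positivity)
          exact mul_le_mul_of_nonneg_left (by linarith) (by positivity)
      _ = K0 * Real.log K0 ^ 2 := by
          field_simp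
  have hsplit1 := intervalIntegral.integral_add_adjacent_intervals
    (hgc ((r : ℝ) * d) (r * d * K0) hrd0 hrdK) (hgc ((r : ℝ) * d * K0) X (by positivity) hdXr)
  have hsplit2 := intervalIntegral.integral_add_adjacent_intervals
    (hfc (K0 : ℝ) N hK00 hK0Nr) (hfc (N : ℝ) Y (hK00.trans_le hK0Nr) hNY)
  rw [hI, ← hsplit1, mul_add, ← hsubst, ← hsplit2]
  have hfin : ∑ k ∈ Ioc K0 N, f k - (((1 / ((r : ℝ) * d) : ℝ) : ℂ) *
      (∫ s in ((r : ℝ) * d)..((r : ℝ) * d * K0), g s) +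
        ((∫ u in (K0 : ℝ)..N, f u) + ∫ u in (N : ℝ)..Y, f u)) =
      (∑ k ∈ Ioc K0 N, f k - ∫ u in (K0 : ℝ)..N, f u) - (∫ u in (N : ℝ)..Y, f u) -
        ((1 / ((r : ℝ) * d) : ℝ) : ℂ) * (∫ s in ((r : ℝ) * d)..((r : ℝ) * d * K0), g s) := by
    ring
  rw [hfin]
  refine (norm_sub_le _ _).trans ((add_le_add ((norm_sub_le _ _).trans (add_le_add hS1' hS2)) hS3).trans
    (le_of_eq ?_))
  ring

theorem tThree_reindex (D r : ℕ) (hr : 1 ≤ r) (F : ℕ → ℂ) :
    ∑ d ∈ (Icc 1 D).filter (fun d => r ∣ d), F d = ∑ d ∈ Icc 1 (D / r), F (r * d) := by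
  have h1 : (Icc 1 D).filter (fun d => r ∣ d) = (Icc 1 (D / r)).image (fun d => r * d) := by
    ext x
    simp only [Finset.mem_filter, Finset.mem_Icc, Finset.mem_image]
    constructor
    · rintro ⟨⟨h1, h2⟩, k, rfl⟩
      refine ⟨k, ⟨Nat.pos_of_mul_pos_left h1, ?_⟩, rfl⟩
      rw [Nat.le_div_iff_mul_le (by omega)]
      rwa [mul_comm]
    · rintro ⟨k, ⟨h1, h2⟩, rfl⟩
      rw [Nat.le_div_iff_mul_le (by omega)] at h2
      refine ⟨⟨Nat.mul_pos (by omega) (by omega), by rwa [mul_comm]⟩, dvd_mul_right _ _⟩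
  rw [h1, Finset.sum_image]
  intro a _ b _ hab
  exact Nat.eq_of_mul_eq_mul_left (by omega) hab

theorem tThree_moebius_mul (r d : ℕ) : (ArithmeticFunction.moebius (r * d) : ℂ) =
    if Nat.Coprime d r then (ArithmeticFunction.moebius r : ℂ) * (ArithmeticFunction.moebius d : ℂ)
      else 0 := by
  split_ifs with h
  · rw [ArithmeticFunction.isMultiplicative_moebius.map_mul_of_coprime h.symm]
    push_cast
    rfl
  · have h1 : ¬ Squarefree (r * d) := by
      intro h2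
      exact h (Nat.squarefree_mul_iff.1 h2).1.symm
    rw [ArithmeticFunction.moebius_eq_zero_of_not_squarefree h1]
    simp

/-- the normalised integral -/
noncomputable def tThreeJ (X r : ℕ) (β : ℝ) (d : ℕ) : ℂ :=
  ((1 / ((r : ℝ) * d) : ℝ) : ℂ) *
    ∫ s in ((r : ℝ) * d)..X, ((Real.log (s / (r * d)) ^ 2 : ℝ) : ℂ) * ee (s * β)

theorem tThree_norm_J (X K0 r : ℕ) (hr : 1 ≤ r) (β : ℝ) (d : ℕ) (hd : 1 ≤ d)
    (hdX : r * d ≤ X) (hK : X ≤ r * d * K0) :
    ‖tThreeJ X r β d‖ ≤ X * Real.log K0 ^ 2 * (1 / d) := by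
  have hr0 : (0 : ℝ) < r := by exact_mod_cast hr
  have hr1 : (1 : ℝ) ≤ r := by exact_mod_cast hr
  have hd0 : (0 : ℝ) < d := by exact_mod_cast hd
  have hrd0 : (0 : ℝ) < r * d := by positivity
  have hdXr : (r : ℝ) * d ≤ X := by exact_mod_cast hdX
  have hKr : (X : ℝ) ≤ r * d * K0 := by exact_mod_cast hK
  have hX0 : (0 : ℝ) < X := by linarith
  unfold tThreeJ
  have h1 : ‖∫ s in ((r : ℝ) * d)..X, ((Real.log (s / (r * d)) ^ 2 : ℝ) : ℂ) * ee (s * β)‖ ≤
      Real.log K0 ^ 2 * |(X : ℝ) - r * d| := by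
    refine intervalIntegral.norm_integral_le_of_norm_le_const fun u hu => ?_
    rw [Set.uIoc_of_le hdXr] at hu
    rw [norm_mul, norm_ee, mul_one, Complex.norm_real, Real.norm_eq_abs,
      abs_of_nonneg (by positivity)]
    have h2 : 1 ≤ u / (r * d) := by
      rw [le_div_iff₀ hrd0, one_mul]
      exact hu.1.le
    have h3 : u / (r * d) ≤ K0 := by
      rw [div_le_iff₀ hrd0, mul_comm]
      exact hu.2.trans hKr
    exact pow_le_pow_left₀ (Real.log_nonneg h2) (Real.log_le_log (by linarith) h3) 2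
  rw [abs_of_nonneg (by linarith)] at h1
  rw [norm_mul, Complex.norm_real, Real.norm_eq_abs, abs_of_pos (by positivity)]
  calc 1 / ((r : ℝ) * d) *
        ‖∫ s in ((r : ℝ) * d)..X, ((Real.log (s / (r * d)) ^ 2 : ℝ) : ℂ) * ee (s * β)‖
      ≤ 1 / (d : ℝ) * (Real.log K0 ^ 2 * X) := by
        refine mul_le_mul ?_ (h1.trans ?_) (norm_nonneg _) (by positivity)
        · exact one_div_le_one_div_of_le hd0 (by nlinarith)
        · exact mul_le_mul_of_nonneg_left (by linarith) (by positivity)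
    _ = X * Real.log K0 ^ 2 * (1 / d) := by ring

theorem tThree_norm_moebius (n : ℕ) : ‖(ArithmeticFunction.moebius n : ℂ)‖ ≤ 1 := by
  have h1 : (ArithmeticFunction.moebius n : ℂ) = (((ArithmeticFunction.moebius n : ℤ) : ℝ) : ℂ) := by
    push_cast
    rfl
  rw [h1, Complex.norm_real, Real.norm_eq_abs]
  exact tThree_abs_moebius n

/-- the terms with `r ∣ d` -/
theorem tThree_main (C : ℝ) (hmu : ∀ (r : ℕ), 1 ≤ r → ∀ (X β : ℝ), (r : ℝ) ≤ X →
    ‖∑ d ∈ (Icc 1 ⌊X / r⌋₊).filter (fun d => Nat.Coprime d r),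
      ((ArithmeticFunction.moebius d : ℝ) / d : ℂ) *
        ∫ s in ((r : ℝ) * d)..X, ((Real.log (s / (r * d)) ^ 2 : ℝ) : ℂ) * ee (s * β)‖ ≤
      C * (r.divisors.card : ℝ) ^ 4 * (1 + Real.log (X / r)) * X / (1 + |β| * X))
    (hC : 0 < C) (X K0 r : ℕ) (hK0 : 2 ≤ K0) (hr : 1 ≤ r) (hL1 : 1 ≤ Real.log X) (y : ℤ) (β : ℝ)
    (hX : 4 * r * K0 ≤ X) :
    ‖∑ d ∈ (Icc 1 (X / K0)).filter (fun d => r ∣ d), (ArithmeticFunction.moebius d : ℂ) *
        tThreeI X K0 (y / r + β) d‖ ≤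
      2 * C * X * Real.log X * ((r.divisors.card : ℝ) ^ 4 / r / (1 + |β| * X)) +
        X / K0 * Real.log X ^ 2 * (5 + 7 * (|β| * X)) + X * Real.log K0 ^ 2 +
        2 * X * Real.log K0 ^ 3 := by
  have hr0 : (0 : ℝ) < r := by exact_mod_cast hr
  have hr1 : (1 : ℝ) ≤ r := by exact_mod_cast hr
  have hK00 : (0 : ℝ) < K0 := by exact_mod_cast (by omega : 0 < K0)
  have hK02 : (2 : ℝ) ≤ K0 := by exact_mod_cast hK0
  have hlogK : 0 ≤ Real.log K0 := Real.log_natCast_nonneg _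
  have hXpos : 0 < X := lt_of_lt_of_le (by positivity) hX
  have hX0 : (0 : ℝ) < X := by exact_mod_cast hXpos
  have hXr : (4 : ℝ) * r * K0 ≤ X := by exact_mod_cast hX
  rw [tThree_reindex _ r hr]
  set N : ℕ := X / K0 / r with hN
  have hNdef : N = X / (K0 * r) := by rw [hN, Nat.div_div_eq_div_mul]
  have hKr : 0 < K0 * r := Nat.mul_pos (by omega) (by omega)
  have hN4 : 4 ≤ N := by
    rw [hNdef, Nat.le_div_iff_mul_le hKr]
    nlinarith
  have hNmul : N * (K0 * r) ≤ X := by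
    rw [hNdef]
    exact Nat.div_mul_le_self _ _
  have hNlt : X < (N + 1) * (K0 * r) := by
    rw [hNdef]
    exact Nat.lt_mul_of_div_lt (Nat.lt_succ_self _) hKr
  set M : ℕ := X / r with hM
  have hMmul : M * r ≤ X := Nat.div_mul_le_self _ _
  have hNM : N ≤ M := by
    rw [hM, Nat.le_div_iff_mul_le (by omega)]
    calc N * r ≤ N * (K0 * r) := Nat.mul_le_mul_left _ (Nat.le_mul_of_pos_left _ (by omega))
      _ ≤ X := hNmul
  set A : Finset ℕ := (Icc 1 N).filter (fun d => Nat.Coprime d r) with hA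
  set B : Finset ℕ := (Icc 1 M).filter (fun d => Nat.Coprime d r) with hB
  have hAB : A ⊆ B := Finset.filter_subset_filter _ (Finset.Icc_subset_Icc le_rfl hNM)
  have hstep1 : ∑ d ∈ Icc 1 N, (ArithmeticFunction.moebius (r * d) : ℂ) *
      tThreeI X K0 (y / r + β) (r * d) =
      ∑ d ∈ A, (ArithmeticFunction.moebius r : ℂ) * (ArithmeticFunction.moebius d : ℂ) *
        tThreeI X K0 (y / r + β) (r * d) := by
    rw [hA, Finset.sum_filter]
    refine Finset.sum_congr rfl fun d _ => ?_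
    rw [tThree_moebius_mul]
    split_ifs <;> simp
  rw [hstep1]
  -- replacing `I` by `J`
  have hmm : ∀ d : ℕ, ‖(ArithmeticFunction.moebius r : ℂ) * (ArithmeticFunction.moebius d : ℂ)‖ ≤ 1 := by
    intro d
    rw [norm_mul]
    exact mul_le_one₀ (tThree_norm_moebius r) (norm_nonneg _) (tThree_norm_moebius d)
  have hE1 : ‖∑ d ∈ A, (ArithmeticFunction.moebius r : ℂ) * (ArithmeticFunction.moebius d : ℂ) *
        tThreeI X K0 (y / r + β) (r * d) -
      ∑ d ∈ A, (ArithmeticFunction.moebius r : ℂ) * (ArithmeticFunction.moebius d : ℂ) *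
        tThreeJ X r β d‖ ≤
      X / K0 * Real.log X ^ 2 * (5 + 7 * (|β| * X)) + X * Real.log K0 ^ 2 := by
    rw [← Finset.sum_sub_distrib]
    refine (norm_sum_le _ _).trans ?_
    have h1 : ∀ d ∈ A, ‖(ArithmeticFunction.moebius r : ℂ) * (ArithmeticFunction.moebius d : ℂ) *
        tThreeI X K0 (y / r + β) (r * d) -
        (ArithmeticFunction.moebius r : ℂ) * (ArithmeticFunction.moebius d : ℂ) *
        tThreeJ X r β d‖ ≤ 2 * Real.log X * X / K0 * (1 / d) +
          (7 * (|β| * X) + 1) * Real.log X ^ 2 + K0 * Real.log K0 ^ 2 := by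
      intro d hd
      obtain ⟨hd1, hd2⟩ := Finset.mem_Icc.1 (Finset.mem_filter.1 hd).1
      rw [← mul_sub, norm_mul]
      have h2 := tThree_major X K0 r (by omega) hr y β d hd1 (by
        calc r * d * K0 = d * (K0 * r) := by ring
          _ ≤ N * (K0 * r) := Nat.mul_le_mul_right _ hd2
          _ ≤ X := hNmul)
      calc _ ≤ 1 * ‖tThreeI X K0 (y / r + β) (r * d) - tThreeJ X r β d‖ :=
            mul_le_mul_of_nonneg_right (hmm d) (norm_nonneg _)
        _ ≤ _ := by rw [one_mul]; exact h2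
    refine (Finset.sum_le_sum h1).trans ?_
    have h2 : ∑ d ∈ A, (2 * Real.log X * X / K0 * (1 / (d : ℝ)) +
          (7 * (|β| * X) + 1) * Real.log X ^ 2 + K0 * Real.log K0 ^ 2) ≤
        ∑ d ∈ Icc 1 N, (2 * Real.log X * X / K0 * (1 / (d : ℝ)) +
          (7 * (|β| * X) + 1) * Real.log X ^ 2 + K0 * Real.log K0 ^ 2) := by
      refine Finset.sum_le_sum_of_subset_of_nonneg (Finset.filter_subset _ _) fun d _ _ => ?_
      positivity
    refine h2.trans ?_
    rw [Finset.sum_add_distrib, Finset.sum_add_distrib, ← Finset.mul_sum, Finset.sum_const,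
      Finset.sum_const, Nat.card_Icc, Nat.add_sub_cancel, nsmul_eq_mul, nsmul_eq_mul]
    have hNX : (N : ℝ) * K0 ≤ X := by
      have h3 : N * K0 ≤ X := by
        calc N * K0 ≤ N * (K0 * r) := Nat.mul_le_mul_left _ (Nat.le_mul_of_pos_right _ (by omega))
          _ ≤ X := hNmul
      exact_mod_cast h3
    have hNX' : (N : ℝ) ≤ X / K0 := by rwa [le_div_iff₀ hK00]
    have hNX1 : (N : ℝ) ≤ X := by
      have h4 : (0 : ℝ) ≤ N := Nat.cast_nonneg _
      nlinarith
    have hh := tThree_harm_one N (by omega)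
    have hlogN : Real.log N ≤ Real.log X :=
      Real.log_le_log (by exact_mod_cast (by omega : 0 < N)) hNX1
    have hh2 : ∑ d ∈ Icc 1 N, (1 / (d : ℝ)) ≤ 2 * Real.log X := by linarith
    have e1 : 2 * Real.log X * X / K0 * ∑ d ∈ Icc 1 N, (1 / (d : ℝ)) ≤
        X / K0 * Real.log X ^ 2 * 4 := by
      calc 2 * Real.log X * X / K0 * ∑ d ∈ Icc 1 N, (1 / (d : ℝ)) ≤
            2 * Real.log X * X / K0 * (2 * Real.log X) :=
            mul_le_mul_of_nonneg_left hh2 (by positivity)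
        _ = X / K0 * Real.log X ^ 2 * 4 := by ring
    have e2 : (N : ℝ) * ((7 * (|β| * X) + 1) * Real.log X ^ 2) ≤
        X / K0 * ((7 * (|β| * X) + 1) * Real.log X ^ 2) :=
      mul_le_mul_of_nonneg_right hNX' (by positivity)
    have e3 : (N : ℝ) * (K0 * Real.log K0 ^ 2) ≤ X * Real.log K0 ^ 2 := by
      rw [← mul_assoc]
      exact mul_le_mul_of_nonneg_right hNX (by positivity)
    calc _ ≤ X / K0 * Real.log X ^ 2 * 4 + X / K0 * ((7 * (|β| * X) + 1) * Real.log X ^ 2) +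
          X * Real.log K0 ^ 2 := add_le_add (add_le_add e1 e2) e3
      _ = _ := by ring
  -- extending the range
  have hE2 : ‖∑ d ∈ B, (ArithmeticFunction.moebius r : ℂ) * (ArithmeticFunction.moebius d : ℂ) *
        tThreeJ X r β d -
      ∑ d ∈ A, (ArithmeticFunction.moebius r : ℂ) * (ArithmeticFunction.moebius d : ℂ) *
        tThreeJ X r β d‖ ≤ 2 * X * Real.log K0 ^ 3 := by
    rw [← Finset.sum_sdiff hAB, add_sub_cancel_right]
    refine (norm_sum_le _ _).trans ?_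
    have h1 : ∀ d ∈ B \ A, ‖(ArithmeticFunction.moebius r : ℂ) * (ArithmeticFunction.moebius d : ℂ) *
        tThreeJ X r β d‖ ≤ X * Real.log K0 ^ 2 * (1 / d) := by
      intro d hd
      rw [Finset.mem_sdiff, hA, hB, Finset.mem_filter, Finset.mem_filter, Finset.mem_Icc,
        Finset.mem_Icc] at hd
      obtain ⟨⟨⟨hd1, hd2⟩, hd3⟩, hd4⟩ := hd
      have hd5 : N < d := by
        by_contra hcon
        exact hd4 ⟨⟨hd1, by omega⟩, hd3⟩
      rw [norm_mul]
      have h2 := tThree_norm_J X K0 r hr β d hd1 (by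
        calc r * d = d * r := mul_comm _ _
          _ ≤ M * r := Nat.mul_le_mul_right _ hd2
          _ ≤ X := hMmul) (by
        calc X ≤ (N + 1) * (K0 * r) := hNlt.le
          _ ≤ d * (K0 * r) := Nat.mul_le_mul_right _ hd5
          _ = r * d * K0 := by ring)
      calc _ ≤ 1 * ‖tThreeJ X r β d‖ := mul_le_mul_of_nonneg_right (hmm d) (norm_nonneg _)
        _ ≤ _ := by rw [one_mul]; exact h2
    refine (Finset.sum_le_sum h1).trans ?_
    have h2 : B \ A ⊆ Ioc N M := by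
      intro d hd
      rw [Finset.mem_sdiff, hA, hB, Finset.mem_filter, Finset.mem_filter, Finset.mem_Icc,
        Finset.mem_Icc] at hd
      obtain ⟨⟨⟨hd1, hd2⟩, hd3⟩, hd4⟩ := hd
      rw [Finset.mem_Ioc]
      refine ⟨?_, hd2⟩
      by_contra hcon
      exact hd4 ⟨⟨hd1, by omega⟩, hd3⟩
    have h3 : ∑ d ∈ B \ A, (X : ℝ) * Real.log K0 ^ 2 * (1 / (d : ℝ)) ≤
        ∑ d ∈ Ioc N M, (X : ℝ) * Real.log K0 ^ 2 * (1 / (d : ℝ)) := by
      refine Finset.sum_le_sum_of_subset_of_nonneg h2 fun d _ _ => ?_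
      positivity
    refine h3.trans ?_
    rw [← Finset.mul_sum]
    have h4 := tThree_harm N M (by omega) hNM
    have hN0 : (0 : ℝ) < N := by exact_mod_cast (by omega : 0 < N)
    have hM0 : (0 : ℝ) < M := by exact_mod_cast (by omega : 0 < M)
    have h5 : (M : ℝ) ≤ N * (K0 * K0) := by
      have h6 : (M : ℝ) * r ≤ X := by exact_mod_cast hMmul
      have h7 : (X : ℝ) ≤ (N + 1) * (K0 * r) := by exact_mod_cast hNlt.le
      have h8 : (M : ℝ) ≤ (N + 1) * K0 := by
        have h9 : (M : ℝ) * r ≤ ((N + 1) * K0) * r := by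
          calc (M : ℝ) * r ≤ (N + 1) * (K0 * r) := h6.trans h7
            _ = ((N + 1) * K0) * r := by ring
        exact le_of_mul_le_mul_right h9 hr0
      have h10 : (1 : ℝ) ≤ N := by exact_mod_cast (by omega : 1 ≤ N)
      have h11 : ((N : ℝ) + 1) ≤ N * K0 := by nlinarith
      calc (M : ℝ) ≤ (N + 1) * K0 := h8
        _ ≤ (N * K0) * K0 := mul_le_mul_of_nonneg_right h11 hK00.le
        _ = N * (K0 * K0) := by ring
    have h6 : Real.log M ≤ Real.log N + 2 * Real.log K0 := by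
      calc Real.log M ≤ Real.log (N * (K0 * K0)) := Real.log_le_log hM0 h5
        _ = Real.log N + 2 * Real.log K0 := by
          rw [Real.log_mul hN0.ne' (by positivity), Real.log_mul hK00.ne' hK00.ne']
          ring
    calc (X : ℝ) * Real.log K0 ^ 2 * ∑ d ∈ Ioc N M, (1 / (d : ℝ)) ≤
          X * Real.log K0 ^ 2 * (2 * Real.log K0) :=
          mul_le_mul_of_nonneg_left (by linarith) (by positivity)
      _ = 2 * X * Real.log K0 ^ 3 := by ring
  -- the main term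
  have hfloor : ⌊(X : ℝ) / r⌋₊ = M := by
    rw [hM, Nat.floor_div_eq_div]
  have hMain : ‖∑ d ∈ B, (ArithmeticFunction.moebius r : ℂ) * (ArithmeticFunction.moebius d : ℂ) *
        tThreeJ X r β d‖ ≤
      2 * C * X * Real.log X * ((r.divisors.card : ℝ) ^ 4 / r / (1 + |β| * X)) := by
    have hrX : (r : ℝ) ≤ X := by nlinarith
    have h1 := hmu r hr X β hrX
    rw [hfloor] at h1
    have h2 : ∑ d ∈ B, (ArithmeticFunction.moebius r : ℂ) * (ArithmeticFunction.moebius d : ℂ) *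
        tThreeJ X r β d = (ArithmeticFunction.moebius r : ℂ) * ((1 / (r : ℝ) : ℝ) : ℂ) *
        ∑ d ∈ B, ((ArithmeticFunction.moebius d : ℝ) / d : ℂ) *
        ∫ s in ((r : ℝ) * d)..X, ((Real.log (s / (r * d)) ^ 2 : ℝ) : ℂ) * ee (s * β) := by
      rw [Finset.mul_sum]
      refine Finset.sum_congr rfl fun d hd => ?_
      have hd1 := (Finset.mem_Icc.1 (Finset.mem_filter.1 hd).1).1
      have hd0 : (d : ℂ) ≠ 0 := by exact_mod_cast (by omega : d ≠ 0)
      have hr0' : (r : ℂ) ≠ 0 := by exact_mod_cast (by omega : r ≠ 0)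
      have key : ∀ I : ℂ, (ArithmeticFunction.moebius r : ℂ) * (ArithmeticFunction.moebius d : ℂ) *
          (((1 / ((r : ℝ) * d) : ℝ) : ℂ) * I) = (ArithmeticFunction.moebius r : ℂ) *
          ((1 / (r : ℝ) : ℝ) : ℂ) * (((ArithmeticFunction.moebius d : ℝ) / d : ℂ) * I) := by
        intro I
        push_cast
        field_simp
      exact key _
    rw [h2, norm_mul, norm_mul, Complex.norm_real, Real.norm_eq_abs,
      abs_of_pos (by positivity : (0 : ℝ) < 1 / r)]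
    have hlogr : 1 + Real.log ((X : ℝ) / r) ≤ 2 * Real.log X := by
      have h3 : Real.log ((X : ℝ) / r) ≤ Real.log X := by
        refine Real.log_le_log (by positivity) ?_
        exact div_le_self hX0.le hr1
      linarith
    have hT0 : 0 < 1 + |β| * X := by positivity
    calc ‖(ArithmeticFunction.moebius r : ℂ)‖ * (1 / (r : ℝ)) * _ ≤ 1 * (1 / (r : ℝ)) *
          (C * (r.divisors.card : ℝ) ^ 4 * (1 + Real.log (X / r)) * X / (1 + |β| * X)) := by
          refine mul_le_mul ?_ h1 (norm_nonneg _) (by positivity)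
          exact mul_le_mul_of_nonneg_right (tThree_norm_moebius r) (by positivity)
      _ ≤ 1 * (1 / (r : ℝ)) *
          (C * (r.divisors.card : ℝ) ^ 4 * (2 * Real.log X) * X / (1 + |β| * X)) := by
          refine mul_le_mul_of_nonneg_left ?_ (by positivity)
          refine div_le_div_of_nonneg_right ?_ hT0.le
          refine mul_le_mul_of_nonneg_right ?_ hX0.le
          exact mul_le_mul_of_nonneg_left hlogr (by positivity)
      _ = 2 * C * X * Real.log X * ((r.divisors.card : ℝ) ^ 4 / r / (1 + |β| * X)) := by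
          field_simp
  set SI : ℂ := ∑ d ∈ A, (ArithmeticFunction.moebius r : ℂ) * (ArithmeticFunction.moebius d : ℂ) *
        tThreeI X K0 (y / r + β) (r * d)
  set SJA : ℂ := ∑ d ∈ A, (ArithmeticFunction.moebius r : ℂ) * (ArithmeticFunction.moebius d : ℂ) *
        tThreeJ X r β d
  set SJB : ℂ := ∑ d ∈ B, (ArithmeticFunction.moebius r : ℂ) * (ArithmeticFunction.moebius d : ℂ) *
        tThreeJ X r β d
  have hdec : SI = SJB + (SI - SJA) - (SJB - SJA) := by ring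
  rw [hdec]
  refine (norm_sub_le _ _).trans ((add_le_add ((norm_add_le _ _).trans (add_le_add hMain hE1)) hE2).trans
    (le_of_eq ?_))
  ring

/-- everything for a fixed cut -/
theorem tThree_core (C : ℝ) (hmu : ∀ (r : ℕ), 1 ≤ r → ∀ (X β : ℝ), (r : ℝ) ≤ X →
    ‖∑ d ∈ (Icc 1 ⌊X / r⌋₊).filter (fun d => Nat.Coprime d r),
      ((ArithmeticFunction.moebius d : ℝ) / d : ℂ) *
        ∫ s in ((r : ℝ) * d)..X, ((Real.log (s / (r * d)) ^ 2 : ℝ) : ℂ) * ee (s * β)‖ ≤
      C * (r.divisors.card : ℝ) ^ 4 * (1 + Real.log (X / r)) * X / (1 + |β| * X))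
    (hC : 0 < C) (X K0 r : ℕ) (hK0 : 2 ≤ K0) (hr : 1 ≤ r) (hL1 : 1 ≤ Real.log X) (y : ℤ) (β : ℝ)
    (hy : IsCoprime y (r : ℤ)) (hT : 2 * r * (|β| * X) ≤ K0) (hX : 4 * r * K0 ≤ X) :
    ‖∑ p ∈ (Icc 1 X ×ˢ Icc 1 X).filter (fun p => p.1 * p.2 ≤ X),
      (((ArithmeticFunction.moebius p.1 : ℝ) * Real.log p.2 ^ 2 : ℝ) : ℂ) *
        ee (((p.1 * p.2 : ℕ) : ℝ) * (y / r + β))‖ ≤
      2 * C * X * Real.log X * ((r.divisors.card : ℝ) ^ 4 / r / (1 + |β| * X)) +
      X * (X / K0 * Real.log X ^ 2 * (5 + 7 * (|β| * X)) / X + 2 * Real.log X ^ 2 * r / K0 +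
        ((1 + Real.log K0) * Real.log K0 ^ 2 + Real.log K0 ^ 2 + 2 * Real.log K0 ^ 3)) := by
  have hK00 : (0 : ℝ) < K0 := by exact_mod_cast (by omega : 0 < K0)
  have hXpos : 0 < X := lt_of_lt_of_le (by positivity) hX
  have hX0 : (0 : ℝ) < X := by exact_mod_cast hXpos
  set t : ℝ := y / r + β with ht
  have hsplit : ∑ p ∈ (Icc 1 X ×ˢ Icc 1 X).filter (fun p => p.1 * p.2 ≤ X),
      (((ArithmeticFunction.moebius p.1 : ℝ) * Real.log p.2 ^ 2 : ℝ) : ℂ) *
        ee (((p.1 * p.2 : ℕ) : ℝ) * t) =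
      ∑ p ∈ (Icc 1 X ×ˢ Icc 1 X).filter (fun p => p.1 * p.2 ≤ X),
        (if p.2 ≤ K0 then (((ArithmeticFunction.moebius p.1 : ℝ) * Real.log p.2 ^ 2 : ℝ) : ℂ) *
        ee (((p.1 * p.2 : ℕ) : ℝ) * t) else 0) +
      ∑ p ∈ (Icc 1 X ×ˢ Icc 1 X).filter (fun p => p.1 * p.2 ≤ X),
        (if p.2 ≤ K0 then 0 else (((ArithmeticFunction.moebius p.1 : ℝ) * Real.log p.2 ^ 2 : ℝ) : ℂ) *
        ee (((p.1 * p.2 : ℕ) : ℝ) * t)) := by
    rw [← Finset.sum_add_distrib]
    refine Finset.sum_congr rfl fun p _ => ?_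
    split_ifs <;> simp
  rw [hsplit, tThree_large X K0 (by omega) t]
  have h1 := tThree_small X K0 (by omega) (fun a b => ((a * b : ℕ) : ℝ) * t)
  have h2 : ∑ d ∈ Icc 1 (X / K0), (ArithmeticFunction.moebius d : ℂ) * tThreeI X K0 t d =
      ∑ d ∈ (Icc 1 (X / K0)).filter (fun d => r ∣ d), (ArithmeticFunction.moebius d : ℂ) *
        tThreeI X K0 t d +
      ∑ d ∈ (Icc 1 (X / K0)).filter (fun d => ¬ r ∣ d), (ArithmeticFunction.moebius d : ℂ) *
        tThreeI X K0 t d := (Finset.sum_filter_add_sum_filter_not _ _ _).symm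
  have h3 := tThree_main C hmu hC X K0 r hK0 hr hL1 y β hX
  have h4 : ‖∑ d ∈ (Icc 1 (X / K0)).filter (fun d => ¬ r ∣ d), (ArithmeticFunction.moebius d : ℂ) *
        tThreeI X K0 t d‖ ≤ X / K0 * (2 * Real.log X ^ 2 * r) := by
    refine (norm_sum_le _ _).trans ?_
    have h5 : ∀ d ∈ (Icc 1 (X / K0)).filter (fun d => ¬ r ∣ d),
        ‖(ArithmeticFunction.moebius d : ℂ) * tThreeI X K0 t d‖ ≤ 2 * Real.log X ^ 2 * r := by
      intro d hd
      rw [Finset.mem_filter] at hd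
      rw [norm_mul]
      calc _ ≤ 1 * ‖tThreeI X K0 t d‖ :=
            mul_le_mul_of_nonneg_right (tThree_norm_moebius d) (norm_nonneg _)
        _ ≤ _ := by
            rw [one_mul]
            exact tThree_minor X K0 r (by omega) hr y β hy hT d hd.1 hd.2
    refine (Finset.sum_le_sum h5).trans ?_
    rw [Finset.sum_const, nsmul_eq_mul]
    refine mul_le_mul_of_nonneg_right ?_ (by positivity)
    calc (((Icc 1 (X / K0)).filter (fun d => ¬ r ∣ d)).card : ℝ) ≤ ((Icc 1 (X / K0)).card : ℝ) := by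
          exact_mod_cast Finset.card_filter_le _ _
      _ = ((X / K0 : ℕ) : ℝ) := by simp
      _ ≤ (X : ℝ) / K0 := Nat.cast_div_le
  rw [h2]
  refine (norm_add_le _ _).trans ((add_le_add h1 ((norm_add_le _ _).trans (add_le_add h3 h4))).trans
    (le_of_eq ?_))
  have e1 : X * (X / K0 * Real.log X ^ 2 * (5 + 7 * (|β| * X)) / X) =
      X / K0 * Real.log X ^ 2 * (5 + 7 * (|β| * X)) := by
    field_simp
  have e2 : ∀ a b c : ℝ, (X : ℝ) * (a + b + c) = X * a + X * b + X * c := fun a b c => by ring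
  rw [e2, e1]
  ring

theorem t_three : ∃ C : ℝ, 0 < C ∧ ∀ B0 : ℕ, ∃ X0 : ℕ, ∀ X : ℕ, X0 ≤ X →
    ∀ (r : ℕ) (y : ℤ) (β : ℝ), 1 ≤ r → (r : ℝ) ≤ Real.log X ^ B0 →
    IsCoprime y (r : ℤ) → |β| ≤ Real.log X ^ B0 / X →
    ‖∑ p ∈ (Icc 1 X ×ˢ Icc 1 X).filter (fun p => p.1 * p.2 ≤ X),
      (((ArithmeticFunction.moebius p.1 : ℝ) * Real.log p.2 ^ 2 : ℝ) : ℂ) *
        ee (((p.1 * p.2 : ℕ) : ℝ) * (y / r + β))‖ ≤
      C * X * Real.log X * ((r.divisors.card : ℝ) ^ 4 / r / (1 + |β| * X)) +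
      C * X * Real.log (Real.log X) ^ 4 := by
  obtain ⟨C, hC, hmu⟩ := mu_int_bound
  refine ⟨2 * C + 1, by positivity, fun B0 => ?_⟩
  -- asymptotics
  have hlogT : Filter.Tendsto (fun X : ℕ => Real.log X) Filter.atTop Filter.atTop :=
    Real.tendsto_log_atTop.comp tendsto_natCast_atTop_atTop
  have hllT : Filter.Tendsto (fun X : ℕ => Real.log (Real.log X)) Filter.atTop Filter.atTop :=
    Real.tendsto_log_atTop.comp hlogT
  have hE1 : ∀ᶠ X : ℕ in Filter.atTop, (2 : ℝ) ≤ Real.log X :=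
    hlogT.eventually (Filter.eventually_ge_atTop 2)
  have hE2 : ∀ᶠ X : ℕ in Filter.atTop,
      (1 : ℝ) + 26 * ((2 * (B0 : ℝ) + 12) ^ 3) ≤ Real.log (Real.log X) :=
    hllT.eventually (Filter.eventually_ge_atTop _)
  have hE3 : ∀ᶠ X : ℕ in Filter.atTop, (8 : ℝ) * Real.log X ^ (3 * B0 + 10) ≤ X := by
    have h1 : (fun x : ℝ => Real.log x ^ (3 * B0 + 10)) =o[Filter.atTop] (id : ℝ → ℝ) :=
      Real.isLittleO_pow_log_id_atTop
    have h2 := (h1.def (c := 1 / 8) (by norm_num))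
    have h3 := tendsto_natCast_atTop_atTop (R := ℝ) |>.eventually h2
    filter_upwards [h3, hE1] with X h4 h5
    rw [Real.norm_eq_abs, Real.norm_eq_abs, abs_of_nonneg (by positivity)] at h4
    simp only [id] at h4
    rw [abs_of_nonneg (Nat.cast_nonneg X)] at h4
    linarith
  obtain ⟨X0, hX0⟩ := Filter.eventually_atTop.1 (hE1.and (hE2.and hE3))
  refine ⟨X0, fun X hX r y β hr hrL hy hβ => ?_⟩
  obtain ⟨hL2, hLL, hXbig⟩ := hX0 X hX
  set L : ℝ := Real.log X with hL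
  set LL : ℝ := Real.log L with hLLdef
  have hL0 : 0 < L := by linarith
  have hXpos : (0 : ℝ) < X := by
    rcases Nat.eq_zero_or_pos X with h | h
    · subst h
      simp at hL
      linarith
    · exact_mod_cast h
  have hr0 : (0 : ℝ) < r := by exact_mod_cast hr
  have hLB : 1 ≤ L ^ B0 := one_le_pow₀ (by linarith)
  have hP1 : (1 : ℝ) ≤ L ^ (2 * B0 + 10) := one_le_pow₀ (by linarith)
  set K0 : ℕ := ⌈L ^ (2 * B0 + 10)⌉₊ with hK0
  have hK0lo : L ^ (2 * B0 + 10) ≤ K0 := Nat.le_ceil _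
  have hK0hi : (K0 : ℝ) ≤ 2 * L ^ (2 * B0 + 10) := by
    have := Nat.ceil_lt_add_one (by positivity : (0 : ℝ) ≤ L ^ (2 * B0 + 10))
    linarith
  have h1024 : (1024 : ℝ) ≤ L ^ (2 * B0 + 10) := by
    calc (1024 : ℝ) = 2 ^ 10 * 1 := by norm_num
      _ ≤ L ^ 10 * L ^ (2 * B0) := by
          refine mul_le_mul (pow_le_pow_left₀ (by norm_num) hL2 10) (one_le_pow₀ (by linarith))
            (by norm_num) (by positivity)
      _ = L ^ (2 * B0 + 10) := by rw [← pow_add]; ring_nf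
  have hK02 : 2 ≤ K0 := by
    have h1 : (2 : ℝ) ≤ K0 := by linarith
    exact_mod_cast h1
  have hK0pos : (0 : ℝ) < K0 := by linarith
  have hT : |β| * X ≤ L ^ B0 := by
    rw [le_div_iff₀ hXpos] at hβ
    exact hβ
  have hT0 : 0 ≤ |β| * X := by positivity
  have hcond1 : 2 * r * (|β| * X) ≤ K0 := by
    calc 2 * r * (|β| * X) ≤ 2 * L ^ B0 * L ^ B0 := by
          refine mul_le_mul (by linarith) hT hT0 (by positivity)
      _ = 2 * L ^ (2 * B0) := by rw [mul_assoc, ← pow_add]; ring_nf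
      _ ≤ L ^ 10 * L ^ (2 * B0) := by
          refine mul_le_mul_of_nonneg_right ?_ (by positivity)
          calc (2 : ℝ) ≤ 2 ^ 10 := by norm_num
            _ ≤ L ^ 10 := pow_le_pow_left₀ (by norm_num) hL2 10
      _ = L ^ (2 * B0 + 10) := by rw [← pow_add]; ring_nf
      _ ≤ K0 := hK0lo
  have hcond2 : 4 * r * K0 ≤ X := by
    have h1 : (4 : ℝ) * r * K0 ≤ X := by
      calc (4 : ℝ) * r * K0 ≤ 4 * L ^ B0 * (2 * L ^ (2 * B0 + 10)) := by
            refine mul_le_mul (by linarith) hK0hi hK0pos.le (by positivity)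
        _ = 8 * L ^ (3 * B0 + 10) := by
            have : L ^ (3 * B0 + 10) = L ^ B0 * L ^ (2 * B0 + 10) := by
              rw [← pow_add]
              ring_nf
            rw [this]
            ring
        _ ≤ X := hXbig
    exact_mod_cast h1
  have hcore := tThree_core C hmu hC X K0 r hK02 hr (by linarith) y β hy hcond1 hcond2
  refine hcore.trans ?_
  have hLL1 : 1 ≤ LL := by
    have : 0 ≤ 26 * ((2 * (B0 : ℝ) + 12) ^ 3) := by positivity
    linarith
  -- logarithm of the cut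
  set l : ℝ := Real.log K0 with hl
  have hl0 : 0 ≤ l := Real.log_natCast_nonneg _
  have hlhi : l ≤ (2 * (B0 : ℝ) + 11) * LL := by
    calc l ≤ Real.log (2 * L ^ (2 * B0 + 10)) := Real.log_le_log hK0pos hK0hi
      _ = Real.log 2 + (2 * (B0 : ℝ) + 10) * LL := by
          rw [Real.log_mul (by norm_num) (by positivity), Real.log_pow]
          push_cast
          rfl
      _ ≤ LL + (2 * (B0 : ℝ) + 10) * LL := by
          have := Real.log_two_lt_d9
          linarith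
      _ = (2 * (B0 : ℝ) + 11) * LL := by ring
  have hl1 : 1 + l ≤ (2 * (B0 : ℝ) + 12) * LL := by
    calc 1 + l ≤ LL + (2 * (B0 : ℝ) + 11) * LL := add_le_add hLL1 hlhi
      _ = (2 * (B0 : ℝ) + 12) * LL := by ring
  have hA : (1 + l) * l ^ 2 + l ^ 2 + 2 * l ^ 3 ≤ 4 * (1 + l) ^ 3 := by
    have h1 : 0 ≤ l ^ 2 := by positivity
    have h2 : 0 ≤ l ^ 3 := by positivity
    nlinarith
  have hone3 : (1 : ℝ) ≤ (1 + l) ^ 3 := one_le_pow₀ (by linarith)
  have hB : 2 * L ^ 2 * r / K0 ≤ 2 := by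
    rw [div_le_iff₀ hK0pos]
    calc 2 * L ^ 2 * r ≤ 2 * L ^ 2 * L ^ B0 := mul_le_mul_of_nonneg_left hrL (by positivity)
      _ = 2 * L ^ (B0 + 2) := by rw [mul_assoc, ← pow_add]; ring_nf
      _ ≤ 2 * L ^ (2 * B0 + 10) :=
          mul_le_mul_of_nonneg_left (pow_le_pow_right₀ (by linarith) (by omega)) (by norm_num)
      _ ≤ 2 * K0 := by linarith
  have hD : (X : ℝ) / K0 * L ^ 2 * (5 + 7 * (|β| * X)) / X ≤ 12 := by
    have e : (X : ℝ) / K0 * L ^ 2 * (5 + 7 * (|β| * X)) / X = L ^ 2 * (5 + 7 * (|β| * X)) / K0 := by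
      field_simp
    rw [e, div_le_iff₀ hK0pos]
    calc L ^ 2 * (5 + 7 * (|β| * X)) ≤ L ^ 2 * (12 * L ^ B0) :=
          mul_le_mul_of_nonneg_left (by linarith) (by positivity)
      _ = 12 * L ^ (B0 + 2) := by
          have : L ^ (B0 + 2) = L ^ 2 * L ^ B0 := by rw [← pow_add]; ring_nf
          rw [this]
          ring
      _ ≤ 12 * L ^ (2 * B0 + 10) :=
          mul_le_mul_of_nonneg_left (pow_le_pow_right₀ (by linarith) (by omega)) (by norm_num)
      _ ≤ 12 * K0 := by linarith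
  have hE : (X : ℝ) / K0 * L ^ 2 * (5 + 7 * (|β| * X)) / X + 2 * L ^ 2 * r / K0 +
        ((1 + l) * l ^ 2 + l ^ 2 + 2 * l ^ 3) ≤ LL ^ 4 := by
    calc _ ≤ 12 + 2 + 4 * (1 + l) ^ 3 := add_le_add (add_le_add hD hB) hA
      _ ≤ 26 * (1 + l) ^ 3 := by linarith
      _ ≤ 26 * ((2 * (B0 : ℝ) + 12) * LL) ^ 3 :=
          mul_le_mul_of_nonneg_left (pow_le_pow_left₀ (by linarith) hl1 3) (by norm_num)
      _ = (26 * (2 * (B0 : ℝ) + 12) ^ 3) * LL ^ 3 := by ring
      _ ≤ LL * LL ^ 3 := mul_le_mul_of_nonneg_right (by linarith) (by positivity)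
      _ = LL ^ 4 := by ring
  have hmain0 : 0 ≤ (X : ℝ) * L * ((r.divisors.card : ℝ) ^ 4 / r / (1 + |β| * X)) := by positivity
  have hX4 : 0 ≤ C * X * LL ^ 4 := by positivity
  have hfin : X * ((X : ℝ) / K0 * L ^ 2 * (5 + 7 * (|β| * X)) / X + 2 * L ^ 2 * r / K0 +
        ((1 + l) * l ^ 2 + l ^ 2 + 2 * l ^ 3)) ≤ X * LL ^ 4 :=
    mul_le_mul_of_nonneg_left hE hXpos.le
  nlinarith

end Pool.MP_dd84fd_nt.L2G
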