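import Pool.Agent.Lib.MP_dd84fd_nt.L2G.TTwo
import Pool.Agent.Lib.MP_dd84fd_nt.L2G.TThree
import Pool.Agent.Lib.MP_dd84fd_nt.L2G.Selberg
import Pool.Agent.Lib.MP_dd84fd_nt.L2G.CvBasic
import Pool.Agent.Lib.MP_dd84fd_nt.DivBound

set_option autoImplicit false

namespace Pool.MP_dd84fd_nt.L2G

open Finset Pool.MP_67663b_nt.Odd

private theorem decay_psi (X : ℕ) :
    ∑ n ∈ Icc 1 X, ArithmeticFunction.vonMangoldt n = Chebyshev.psi X := by
  rw [Chebyshev.psi, Nat.floor_natCast]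
  rfl

private theorem decay_log_sum (X : ℕ) :
    ∑ n ∈ Icc 1 X, ArithmeticFunction.vonMangoldt n * (Real.log X - Real.log n) ≤
      (Real.log 4 + 4) * X := by
  induction X with
  | zero => simp
  | succ X ih =>
    rw [Finset.sum_Icc_succ_top (by omega)]
    rw [sub_self, mul_zero, add_zero]
    rcases Nat.eq_zero_or_pos X with h0 | h0
    · subst h0
      simp only [zero_add]
      rw [Finset.Icc_eq_empty (by omega), Finset.sum_empty]
      have : 0 ≤ Real.log 4 := Real.log_nonneg (by norm_num)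
      push_cast
      linarith
    · have hX : (0:ℝ) < X := by exact_mod_cast h0
      have h1 : ∀ n ∈ Icc 1 X, ArithmeticFunction.vonMangoldt n *
          (Real.log ((X + 1 : ℕ) : ℝ) - Real.log n) =
          ArithmeticFunction.vonMangoldt n * (Real.log X - Real.log n) +
          ArithmeticFunction.vonMangoldt n * (Real.log ((X + 1 : ℕ) : ℝ) - Real.log X) := by
        intro n _
        ring
      rw [Finset.sum_congr rfl h1, Finset.sum_add_distrib, ← Finset.sum_mul, decay_psi]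
      have h2 : Real.log ((X + 1 : ℕ) : ℝ) - Real.log X ≤ 1 / X := by
        rw [← Real.log_div (by positivity) hX.ne']
        refine (Real.log_le_sub_one_of_pos (by positivity)).trans ?_
        push_cast
        rw [add_div, div_self hX.ne']
        linarith
      have h3 : Chebyshev.psi X ≤ (Real.log 4 + 4) * X :=
        Chebyshev.psi_le_const_mul_self hX.le
      have h4 : 0 ≤ Real.log ((X + 1 : ℕ) : ℝ) - Real.log X := by
        rw [sub_nonneg]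
        exact Real.log_le_log hX (by push_cast; linarith)
      have h5 : Chebyshev.psi X * (Real.log ((X + 1 : ℕ) : ℝ) - Real.log X) ≤
          ((Real.log 4 + 4) * X) * (1 / X) :=
        mul_le_mul h3 h2 h4 (by
          have : 0 ≤ Real.log 4 := Real.log_nonneg (by norm_num)
          positivity)
      have h6 : ((Real.log 4 + 4) * X) * (1 / X) = Real.log 4 + 4 := by
        field_simp
      push_cast at h5 h6 ih ⊢
      linarith

private theorem decay_S (X : ℕ) (hX : 2 ≤ X) (θ : ℝ) :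
    ‖(∑ n ∈ Icc 1 X, ((ArithmeticFunction.vonMangoldt n : ℝ) : ℂ) * ee (n * θ)) -
      (∑ n ∈ Icc 1 X, ((ArithmeticFunction.vonMangoldt n * Real.log n : ℝ) : ℂ) * ee (n * θ)) /
        (Real.log X : ℂ)‖ ≤ (Real.log 4 + 4) * X / Real.log X := by
  have hL : 0 < Real.log X := Real.log_pos (by exact_mod_cast (by omega : 1 < X))
  have hLc : (Real.log X : ℂ) ≠ 0 := by exact_mod_cast hL.ne'
  have h1 : (∑ n ∈ Icc 1 X, ((ArithmeticFunction.vonMangoldt n : ℝ) : ℂ) * ee (n * θ)) -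
      (∑ n ∈ Icc 1 X, ((ArithmeticFunction.vonMangoldt n * Real.log n : ℝ) : ℂ) * ee (n * θ)) /
        (Real.log X : ℂ) = (∑ n ∈ Icc 1 X,
          ((ArithmeticFunction.vonMangoldt n * (Real.log X - Real.log n) : ℝ) : ℂ) *
            ee (n * θ)) / (Real.log X : ℂ) := by
    rw [eq_div_iff hLc, sub_mul, div_mul_cancel₀ _ hLc, Finset.sum_mul, ← Finset.sum_sub_distrib]
    refine Finset.sum_congr rfl fun n _ => ?_
    push_cast
    ring
  rw [h1, norm_div, Complex.norm_real, Real.norm_eq_abs, abs_of_pos hL]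
  refine div_le_div_of_nonneg_right ?_ hL.le
  refine (norm_sum_le _ _).trans ((Finset.sum_le_sum fun n hn => ?_).trans (decay_log_sum X))
  rw [norm_mul, norm_ee, mul_one, Complex.norm_real, Real.norm_eq_abs]
  refine le_of_eq (abs_of_nonneg (mul_nonneg ArithmeticFunction.vonMangoldt_nonneg ?_))
  rw [Finset.mem_Icc] at hn
  rw [sub_nonneg]
  exact Real.log_le_log (by exact_mod_cast hn.1) (by exact_mod_cast hn.2)

private theorem decay_LH (X : ℕ) (hX : 2 ≤ X) (θ : ℝ) :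
    ‖LH X θ - ∑ n ∈ Icc 1 X, ((ArithmeticFunction.vonMangoldt n : ℝ) : ℂ) * ee (n * θ)‖ ≤
      2 * Real.sqrt X * Real.log X := by
  have hX1 : (1:ℝ) ≤ X := by exact_mod_cast (by omega : 1 ≤ X)
  refine le_trans ?_ (Chebyshev.psi_sub_theta_le hX1)
  rw [Chebyshev.psi_sub_theta_eq_sum_not_prime, Nat.floor_natCast]
  unfold LH Se
  rw [← Finset.sum_sub_distrib, Finset.sum_filter]
  refine (norm_sum_le _ _).trans (Finset.sum_le_sum_of_subset_of_nonneg ?_ ?_ |>.trans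
    (Finset.sum_le_sum (s := Ioc 0 X) (f := fun n => ‖((la X n : ℝ) : ℂ) * ee (n * θ) -
      ((ArithmeticFunction.vonMangoldt n : ℝ) : ℂ) * ee (n * θ)‖) ?_))
  · intro n hn
    rw [Finset.mem_Icc] at hn
    rw [Finset.mem_Ioc]
    omega
  · intro n _ _
    exact norm_nonneg _
  · intro n hn
    rw [Finset.mem_Ioc] at hn
    rw [← sub_mul, norm_mul, norm_ee, mul_one]
    unfold la
    by_cases hp : n.Prime
    · rw [if_pos ⟨hp, hn.2⟩, ArithmeticFunction.vonMangoldt_apply_prime hp, if_neg (by simp [hp])]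
      simp
    · rw [if_neg (by tauto), if_pos hp]
      rw [Complex.ofReal_zero, zero_sub, norm_neg, Complex.norm_real, Real.norm_eq_abs,
        abs_of_nonneg ArithmeticFunction.vonMangoldt_nonneg]

private theorem decay_pairs (X : ℕ) (F : ℕ → ℕ → ℂ) :
    ∑ n ∈ Icc 1 X, ∑ x ∈ n.divisorsAntidiagonal, F x.1 x.2 =
      ∑ p ∈ (Icc 1 X ×ˢ Icc 1 X).filter (fun p => p.1 * p.2 ≤ X), F p.1 p.2 := by
  rw [Finset.sum_sigma']
  refine Finset.sum_bij' (fun a _ => a.2) (fun p _ => ⟨p.1 * p.2, p⟩) ?_ ?_ ?_ ?_ ?_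
  · rintro ⟨n, a, b⟩ h
    simp only [Finset.mem_sigma, Finset.mem_Icc, Nat.mem_divisorsAntidiagonal] at h
    simp only [Finset.mem_filter, Finset.mem_product, Finset.mem_Icc]
    obtain ⟨⟨h1, h2⟩, h3, h4⟩ := h
    have ha : 1 ≤ a := by
      rcases Nat.eq_zero_or_pos a with h | h
      · subst h; simp at h3; omega
      · exact h
    have hb : 1 ≤ b := by
      rcases Nat.eq_zero_or_pos b with h | h
      · subst h; simp at h3; omega
      · exact h
    refine ⟨⟨⟨ha, ?_⟩, hb, ?_⟩, by omega⟩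
    · calc a = a * 1 := (mul_one a).symm
        _ ≤ a * b := Nat.mul_le_mul_left _ hb
        _ ≤ X := by omega
    · calc b = 1 * b := (one_mul b).symm
        _ ≤ a * b := Nat.mul_le_mul_right _ ha
        _ ≤ X := by omega
  · rintro ⟨a, b⟩ h
    simp only [Finset.mem_filter, Finset.mem_product, Finset.mem_Icc] at h
    simp only [Finset.mem_sigma, Finset.mem_Icc, Nat.mem_divisorsAntidiagonal]
    obtain ⟨⟨⟨h1, h2⟩, h3, h4⟩, h5⟩ := h
    have : 1 ≤ a * b := Nat.mul_pos h1 h3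
    exact ⟨⟨this, h5⟩, trivial, by omega⟩
  · rintro ⟨n, a, b⟩ h
    simp only [Finset.mem_sigma, Finset.mem_Icc, Nat.mem_divisorsAntidiagonal] at h
    obtain ⟨_, h3, _⟩ := h
    subst h3
    rfl
  · rintro ⟨a, b⟩ h
    rfl
  · rintro ⟨n, a, b⟩ h
    rfl

private theorem decay_A (X : ℕ) (θ : ℝ) :
    ∑ n ∈ Icc 1 X, ((ArithmeticFunction.vonMangoldt n * Real.log n : ℝ) : ℂ) * ee (n * θ) =
      ∑ p ∈ (Icc 1 X ×ˢ Icc 1 X).filter (fun p => p.1 * p.2 ≤ X),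
      (((ArithmeticFunction.moebius p.1 : ℝ) * Real.log p.2 ^ 2 : ℝ) : ℂ) *
        ee (((p.1 * p.2 : ℕ) : ℝ) * θ) -
      ∑ n ∈ Icc 1 X, (((ArithmeticFunction.vonMangoldt * ArithmeticFunction.vonMangoldt) n : ℝ) :
        ℂ) * ee (n * θ) := by
  rw [eq_sub_iff_add_eq, ← Finset.sum_add_distrib, ← decay_pairs X (fun a b =>
    (((ArithmeticFunction.moebius a : ℝ) * Real.log b ^ 2 : ℝ) : ℂ) *
        ee (((a * b : ℕ) : ℝ) * θ))]
  refine Finset.sum_congr rfl fun n hn => ?_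
  rw [Finset.mem_Icc] at hn
  rw [← add_mul, ← Complex.ofReal_add, selberg_identity n hn.1, Complex.ofReal_sum, Finset.sum_mul]
  refine Finset.sum_congr rfl fun x hx => ?_
  rw [Nat.mem_divisorsAntidiagonal] at hx
  rw [hx.1]

private theorem decay_num1 (r : ℝ) (hr : 1 ≤ r) :
    (1 + Real.log (1 + Real.log r)) ^ 2 / Real.sqrt r ≤ 169 * r ^ (-(1 / 3 : ℝ)) := by
  have hr0 : 0 < r := by linarith
  have hl : 0 ≤ Real.log r := Real.log_nonneg hr
  have h1 : Real.log (1 + Real.log r) ≤ Real.log r := by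
    have := Real.log_le_sub_one_of_pos (show 0 < 1 + Real.log r by linarith)
    linarith
  have h0 : 0 ≤ Real.log (1 + Real.log r) := Real.log_nonneg (by linarith)
  have h2 : Real.log r ≤ 12 * r ^ (1 / 12 : ℝ) := by
    have := Real.log_le_rpow_div hr0.le (show (0:ℝ) < 1 / 12 by norm_num)
    linarith
  have h3 : 1 ≤ r ^ (1 / 12 : ℝ) := Real.one_le_rpow hr (by norm_num)
  have h4 : 1 + Real.log (1 + Real.log r) ≤ 13 * r ^ (1 / 12 : ℝ) := by linarith
  have h5 : (1 + Real.log (1 + Real.log r)) ^ 2 ≤ (13 * r ^ (1 / 12 : ℝ)) ^ 2 :=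
    pow_le_pow_left₀ (by linarith) h4 2
  have h6 : (13 * r ^ (1 / 12 : ℝ)) ^ 2 = 169 * r ^ (1 / 6 : ℝ) := by
    rw [mul_pow, ← Real.rpow_natCast (r ^ (1 / 12 : ℝ)) 2, ← Real.rpow_mul hr0.le]
    norm_num
  rw [div_le_iff₀ (Real.sqrt_pos.mpr hr0), Real.sqrt_eq_rpow, mul_assoc, ← Real.rpow_add hr0]
  calc _ ≤ _ := h5
    _ = 169 * r ^ (1 / 6 : ℝ) := h6
    _ = 169 * r ^ (-(1 / 3) + 1 / 2 : ℝ) := by norm_num

private theorem decay_num2 (u : ℝ) (hu : 1 ≤ u) :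
    Real.sqrt ((1 + Real.log u) / u) ≤ 2 * u ^ (-(1 / 3 : ℝ)) := by
  have hu0 : 0 < u := by linarith
  have h2 : Real.log u ≤ 3 * u ^ (1 / 3 : ℝ) := by
    have := Real.log_le_rpow_div hu0.le (show (0:ℝ) < 1 / 3 by norm_num)
    linarith
  have h3 : 1 ≤ u ^ (1 / 3 : ℝ) := Real.one_le_rpow hu (by norm_num)
  refine Real.sqrt_le_iff.mpr ⟨by positivity, ?_⟩
  rw [div_le_iff₀ hu0, mul_pow, ← Real.rpow_natCast (u ^ (-(1 / 3 : ℝ))) 2, ← Real.rpow_mul hu0.le,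
    mul_assoc]
  nth_rewrite 3 [← Real.rpow_one u]
  rw [← Real.rpow_add hu0]
  have : (-(1 / 3) * ((2 : ℕ) : ℝ) + 1 : ℝ) = 1 / 3 := by norm_num
  rw [this]
  linarith

private theorem decay_num3 (C : ℕ) (hC : 1 ≤ C) (r : ℕ) (hr : 1 ≤ r)
    (h : r.divisors.card ^ 8 ≤ C * r) (u : ℝ) (hu : 1 ≤ u) :
    (r.divisors.card : ℝ) ^ 4 / r / u ≤ C * ((r : ℝ) * u) ^ (-(1 / 3 : ℝ)) := by
  have hr0 : (0:ℝ) < r := by exact_mod_cast hr
  have hr1 : (1:ℝ) ≤ r := by exact_mod_cast hr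
  have hu0 : 0 < u := by linarith
  have hC1 : (1:ℝ) ≤ C := by exact_mod_cast hC
  have h1 : (r.divisors.card : ℝ) ^ 4 ≤ C * Real.sqrt r := by
    have h2 : ((r.divisors.card : ℝ) ^ 4) ^ 2 ≤ (C * Real.sqrt r) ^ 2 := by
      rw [mul_pow, Real.sq_sqrt hr0.le, ← pow_mul]
      have h3 : (r.divisors.card : ℝ) ^ 8 ≤ C * r := by exact_mod_cast h
      have h7 : (C:ℝ) * r ≤ (C:ℝ) ^ 2 * r := by
        refine mul_le_mul_of_nonneg_right ?_ hr0.le
        nlinarith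
      exact h3.trans h7
    exact le_of_sq_le_sq h2 (by positivity)
  rw [Real.mul_rpow hr0.le hu0.le, div_div]
  rw [div_le_iff₀ (by positivity)]
  refine h1.trans ?_
  have h4 : (C:ℝ) * ((r:ℝ) ^ (-(1 / 3 : ℝ)) * u ^ (-(1 / 3 : ℝ))) * (r * u) =
      C * (r:ℝ) ^ (2 / 3 : ℝ) * u ^ (2 / 3 : ℝ) := by
    have e1 : (r:ℝ) ^ (-(1 / 3 : ℝ)) * r = (r:ℝ) ^ (2 / 3 : ℝ) := by
      nth_rewrite 2 [← Real.rpow_one (r:ℝ)]
      rw [← Real.rpow_add hr0]
      norm_num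
    have e2 : u ^ (-(1 / 3 : ℝ)) * u = u ^ (2 / 3 : ℝ) := by
      nth_rewrite 2 [← Real.rpow_one u]
      rw [← Real.rpow_add hu0]
      norm_num
    calc _ = C * ((r:ℝ) ^ (-(1 / 3 : ℝ)) * r) * (u ^ (-(1 / 3 : ℝ)) * u) := by ring
      _ = _ := by rw [e1, e2]
  rw [h4, Real.sqrt_eq_rpow]
  have h5 : (r:ℝ) ^ (1 / 2 : ℝ) ≤ (r:ℝ) ^ (2 / 3 : ℝ) :=
    Real.rpow_le_rpow_of_exponent_le hr1 (by norm_num)
  have h6 : 1 ≤ u ^ (2 / 3 : ℝ) := Real.one_le_rpow hu (by norm_num)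
  calc (C:ℝ) * (r:ℝ) ^ (1 / 2 : ℝ) ≤ C * (r:ℝ) ^ (2 / 3 : ℝ) :=
        mul_le_mul_of_nonneg_left h5 (by positivity)
    _ = C * (r:ℝ) ^ (2 / 3 : ℝ) * 1 := (mul_one _).symm
    _ ≤ _ := mul_le_mul_of_nonneg_left h6 (by positivity)

private theorem decay_num4 (x : ℝ) (hx : 1 < x) :
    2 * Real.sqrt x * Real.log x ≤ 32 * x / Real.log x := by
  have hx0 : 0 < x := by linarith
  have hL : 0 < Real.log x := Real.log_pos hx
  rw [le_div_iff₀ hL]
  have h2 : Real.log x ≤ 4 * x ^ (1 / 4 : ℝ) := by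
    have := Real.log_le_rpow_div hx0.le (show (0:ℝ) < 1 / 4 by norm_num)
    linarith
  have h3 : Real.log x ^ 2 ≤ (4 * x ^ (1 / 4 : ℝ)) ^ 2 := pow_le_pow_left₀ hL.le h2 2
  have h4 : (4 * x ^ (1 / 4 : ℝ)) ^ 2 = 16 * Real.sqrt x := by
    rw [mul_pow, ← Real.rpow_natCast (x ^ (1 / 4 : ℝ)) 2, ← Real.rpow_mul hx0.le,
      Real.sqrt_eq_rpow]
    norm_num
  calc 2 * Real.sqrt x * Real.log x * Real.log x = 2 * Real.sqrt x * Real.log x ^ 2 := by ring
    _ ≤ 2 * Real.sqrt x * (16 * Real.sqrt x) := by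
        refine mul_le_mul_of_nonneg_left (h3.trans h4.le) (by positivity)
    _ = 32 * (Real.sqrt x * Real.sqrt x) := by ring
    _ = 32 * x := by rw [Real.mul_self_sqrt hx0.le]

theorem decay : ∃ C : ℝ, 0 < C ∧ ∀ B0 : ℕ, ∃ X0 : ℕ, ∀ X : ℕ, X0 ≤ X →
    ∀ (r : ℕ) (y : ℤ) (β : ℝ), 1 ≤ r → (r : ℝ) ≤ Real.log X ^ B0 →
    IsCoprime y (r : ℤ) → |β| ≤ Real.log X ^ B0 / X →
    ‖LH X (y / r + β)‖ ≤ C * X * ((r : ℝ) * (1 + |β| * X)) ^ (-(1 / 3 : ℝ)) +
      C * X * Real.log (Real.log X) ^ 4 / Real.log X := by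
  obtain ⟨C2, hC2, h2⟩ := t_two
  obtain ⟨C3, hC3, h3⟩ := t_three
  obtain ⟨Cd, hCd, hd⟩ := Pool.Agent.Lib.MP_dd84fd_nt.DivBound.div_bound 8
  have hl4 : 0 ≤ Real.log 4 := Real.log_nonneg (by norm_num)
  have hCd0 : (0:ℝ) < Cd := by exact_mod_cast hCd
  refine ⟨C2 * 338 + C3 * Cd + C2 + C3 + Real.log 4 + 4 + 32, by positivity, fun B0 => ?_⟩
  obtain ⟨X2, h2⟩ := h2 B0
  obtain ⟨X3, h3⟩ := h3 B0
  have hev : ∀ᶠ X : ℕ in Filter.atTop, 1 ≤ Real.log (Real.log X) :=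
    ((Real.tendsto_log_atTop.comp Real.tendsto_log_atTop).comp
      tendsto_natCast_atTop_atTop).eventually_ge_atTop 1
  obtain ⟨X4, h4⟩ := Filter.eventually_atTop.mp hev
  refine ⟨max (max X2 X3) (max X4 2), fun X hX r y β hr hrL hy hβ => ?_⟩
  have hX2 : X2 ≤ X := by omega
  have hX3 : X3 ≤ X := by omega
  have hX4 : X4 ≤ X := by omega
  have hX5 : 2 ≤ X := by omega
  have hLL := h4 X hX4
  have hXr : (1:ℝ) < X := by exact_mod_cast (by omega : 1 < X)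
  have hX0 : (0:ℝ) < X := by linarith
  have hL : 0 < Real.log X := Real.log_pos hXr
  have b2 := h2 X hX2 r y β hr hrL hy hβ
  have b3 := h3 X hX3 r y β hr hrL hy hβ
  set θ : ℝ := y / r + β with hθ
  set L := Real.log X with hLdef
  set T : ℝ := |β| * X with hT
  have hT0 : 0 ≤ T := by positivity
  have hr0 : (0:ℝ) < r := by exact_mod_cast hr
  have hr1 : (1:ℝ) ≤ r := by exact_mod_cast hr
  set M : ℝ := ((r : ℝ) * (1 + T)) ^ (-(1 / 3 : ℝ)) with hM
  have hM0 : 0 ≤ M := by positivity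
  -- main bound for A(X)
  have hA := decay_A X θ
  set S : ℂ := ∑ n ∈ Icc 1 X, ((ArithmeticFunction.vonMangoldt n : ℝ) : ℂ) * ee (n * θ) with hS
  set A : ℂ := ∑ n ∈ Icc 1 X, ((ArithmeticFunction.vonMangoldt n * Real.log n : ℝ) : ℂ) *
    ee (n * θ) with hAdef
  have hAn : ‖A‖ ≤ (C3 * X * L * ((r.divisors.card : ℝ) ^ 4 / r / (1 + T)) +
      C3 * X * Real.log L ^ 4) + (C2 * X * L * ((1 + Real.log (1 + Real.log r)) ^ 2 /
        Real.sqrt r * Real.sqrt ((1 + Real.log (1 + T)) / (1 + T))) +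
      C2 * X * Real.log L ^ 2) := by
    rw [hA]
    exact (norm_sub_le _ _).trans (add_le_add b3 b2)
  have n1 := decay_num1 r hr1
  have n2 := decay_num2 (1 + T) (by linarith)
  have n3 := decay_num3 Cd hCd r hr (hd r (by omega)) (1 + T) (by linarith)
  have hprod : (1 + Real.log (1 + Real.log r)) ^ 2 /
        Real.sqrt r * Real.sqrt ((1 + Real.log (1 + T)) / (1 + T)) ≤ 338 * M := by
    have e : 338 * M = (169 * (r:ℝ) ^ (-(1 / 3 : ℝ))) * (2 * (1 + T) ^ (-(1 / 3 : ℝ))) := by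
      rw [hM, Real.mul_rpow hr0.le (by linarith)]
      ring
    rw [e]
    exact mul_le_mul n1 n2 (Real.sqrt_nonneg _) (by positivity)
  have hLL4 : Real.log L ^ 2 ≤ Real.log L ^ 4 := pow_le_pow_right₀ hLL (by norm_num)
  have h1LL4 : 1 ≤ Real.log L ^ 4 := one_le_pow₀ hLL
  have hAn2 : ‖A‖ / L ≤ (C3 * Cd + C2 * 338) * X * M + (C2 + C3) * X * Real.log L ^ 4 / L := by
    rw [div_le_iff₀ hL, add_mul, div_mul_cancel₀ _ hL.ne']
    refine hAn.trans ?_
    have a1 : C3 * X * L * ((r.divisors.card : ℝ) ^ 4 / r / (1 + T)) ≤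
        C3 * X * L * (Cd * M) := mul_le_mul_of_nonneg_left n3 (by positivity)
    have a2 : C2 * X * L * ((1 + Real.log (1 + Real.log r)) ^ 2 /
        Real.sqrt r * Real.sqrt ((1 + Real.log (1 + T)) / (1 + T))) ≤
        C2 * X * L * (338 * M) := mul_le_mul_of_nonneg_left hprod (by positivity)
    have a3 : C2 * X * Real.log L ^ 2 ≤ C2 * X * Real.log L ^ 4 :=
      mul_le_mul_of_nonneg_left hLL4 (by positivity)
    nlinarith [a1, a2, a3]
  have k1 := decay_S X hX5 θ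
  have k2 := decay_LH X hX5 θ
  rw [← hS, ← hAdef] at k1
  rw [← hS] at k2
  have k3 : ‖LH X θ‖ ≤ ‖LH X θ - S‖ + ‖S - A / (Real.log X : ℂ)‖ + ‖A / (Real.log X : ℂ)‖ := by
    have : LH X θ = (LH X θ - S) + (S - A / (Real.log X : ℂ)) + A / (Real.log X : ℂ) := by ring
    calc ‖LH X θ‖ = ‖(LH X θ - S) + (S - A / (Real.log X : ℂ)) + A / (Real.log X : ℂ)‖ := by
          rw [← this]
      _ ≤ _ := norm_add₃_le
  have k4 : ‖A / (Real.log X : ℂ)‖ = ‖A‖ / L := by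
    rw [norm_div, Complex.norm_real, Real.norm_eq_abs, abs_of_pos hL]
  have k5 := decay_num4 X hXr
  rw [k4] at k3
  have k6 : (X:ℝ) / L ≤ X * Real.log L ^ 4 / L := by
    refine div_le_div_of_nonneg_right ?_ hL.le
    nlinarith
  have k7 : (Real.log 4 + 4) * X / L ≤ (Real.log 4 + 4) * (X * Real.log L ^ 4 / L) := by
    rw [mul_div_assoc]
    exact mul_le_mul_of_nonneg_left k6 (by positivity)
  have k8 : 32 * X / L ≤ 32 * (X * Real.log L ^ 4 / L) := by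
    rw [mul_div_assoc]
    exact mul_le_mul_of_nonneg_left k6 (by positivity)
  have k9 : (C2 + C3) * X * Real.log L ^ 4 / L = (C2 + C3) * (X * Real.log L ^ 4 / L) := by
    ring
  have k10 : 0 ≤ X * Real.log L ^ 4 / L := by positivity
  have k11 : (C2 * 338 + C3 * Cd + C2 + C3 + Real.log 4 + 4 + 32) * X * Real.log L ^ 4 / L =
    (C2 * 338 + C3 * Cd + C2 + C3 + Real.log 4 + 4 + 32) * (X * Real.log L ^ 4 / L) := by ring
  rw [k11]
  rw [k9] at hAn2
  have k12 : 0 ≤ X * M := by positivity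
  have k13 : (0:ℝ) ≤ (C2 + C3 + Real.log 4 + 4 + 32) * (X * M) := by positivity
  have k14 : (0:ℝ) ≤ (C2 * 338 + C3 * Cd) * (X * Real.log L ^ 4 / L) := by positivity
  have e1 : (C3 * Cd + C2 * 338) * X * M = (C3 * Cd + C2 * 338) * (X * M) := by ring
  have e2 : (C2 * 338 + C3 * Cd + C2 + C3 + Real.log 4 + 4 + 32) * X * M =
    (C2 * 338 + C3 * Cd + C2 + C3 + Real.log 4 + 4 + 32) * (X * M) := by ring
  rw [e1] at hAn2
  rw [e2]
  calc ‖LH X θ‖ ≤ ‖LH X θ - S‖ + ‖S - A / (Real.log X : ℂ)‖ + ‖A‖ / L := k3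
    _ ≤ 32 * (X * Real.log L ^ 4 / L) + (Real.log 4 + 4) * (X * Real.log L ^ 4 / L) +
        ((C3 * Cd + C2 * 338) * (X * M) + (C2 + C3) * (X * Real.log L ^ 4 / L)) := by
        refine add_le_add (add_le_add ?_ ?_) hAn2
        · exact (k2.trans k5).trans k8
        · exact k1.trans k7
    _ ≤ _ := by linarith

end Pool.MP_dd84fd_nt.L2G
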