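import Pool.Agent.Lib.MP_dd84fd_nt.L2G.CvBasic
import Pool.Agent.Lib.MP_67663b_nt.OddB.LSieve
import Pool.Agent.Lib.MP_67663b_nt.OddB.Montgomery
import Pool.Agent.Lib.MP_67663b_nt.OddB.GSum

set_option autoImplicit false

namespace Pool.MP_dd84fd_nt.L2G

open Finset Pool.MP_67663b_nt.Odd

private lemma farL_frac_eq {m m' b b' : ℕ} (hb : b < m) (hb' : b' < m') (hc : Nat.Coprime m b)
    (hc' : Nat.Coprime m' b') (h : ((m : ℤ) * m') ∣ (b : ℤ) * m' - b' * m) :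
    m = m' ∧ b = b' := by
  have h1 : (m' : ℤ) ∣ (b' : ℤ) * m := by
    have h2 : (m' : ℤ) ∣ (b : ℤ) * m' - b' * m := dvd_trans (dvd_mul_left _ _) h
    have h3 : (m' : ℤ) ∣ (b : ℤ) * m' := dvd_mul_left _ _
    have h4 := dvd_sub h3 h2
    have h5 : (b : ℤ) * m' - ((b : ℤ) * m' - b' * m) = b' * m := by ring
    rwa [h5] at h4
  have h2 : (m : ℤ) ∣ (b : ℤ) * m' := by
    have h2 : (m : ℤ) ∣ (b : ℤ) * m' - b' * m := dvd_trans (dvd_mul_right _ _) h
    have h3 : (m : ℤ) ∣ (b' : ℤ) * m := dvd_mul_left _ _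
    have h4 := dvd_add h2 h3
    have h5 : (b : ℤ) * m' - b' * m + b' * m = b * m' := by ring
    rwa [h5] at h4
  have h1' : m' ∣ b' * m := by exact_mod_cast h1
  have h2' : m ∣ b * m' := by exact_mod_cast h2
  have h3 : m' ∣ m := hc'.dvd_of_dvd_mul_left h1'
  have h4 : m ∣ m' := hc.dvd_of_dvd_mul_left h2'
  have h5 : m = m' := Nat.dvd_antisymm h4 h3
  subst h5
  refine ⟨rfl, ?_⟩
  have hm : (m : ℤ) ≠ 0 := by
    have : 0 < m := by omega
    positivity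
  have h6 : (m : ℤ) ∣ (b : ℤ) - b' := by
    have h7 : (b : ℤ) * m - b' * m = m * (b - b') := by ring
    rw [h7] at h
    exact Int.dvd_of_mul_dvd_mul_left hm h
  obtain ⟨k, hk⟩ := h6
  have hk0 : k = 0 := by
    by_contra hk0
    rcases lt_or_gt_of_ne hk0 with h8 | h8
    · have : (m : ℤ) * k ≤ m * (-1) := mul_le_mul_of_nonneg_left (by omega) (by positivity)
      omega
    · have : (m : ℤ) * 1 ≤ m * k := mul_le_mul_of_nonneg_left (by omega) (by positivity)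
      omega
  rw [hk0, mul_zero] at hk
  omega

private lemma farL_coprime {R m r : ℕ} (hr : 1 ≤ r) (hr2 : r < 2 * R)
    (hmp : ∀ p : ℕ, p.Prime → p < 2 * R → ¬ p ∣ m) : Nat.Coprime m r := by
  by_contra hcon
  obtain ⟨p, hp, hpd⟩ := Nat.exists_prime_and_dvd hcon
  have h1 : p ∣ m := dvd_trans hpd (Nat.gcd_dvd_left m r)
  have h2 : p ∣ r := dvd_trans hpd (Nat.gcd_dvd_right m r)
  exact hmp p hp (lt_of_le_of_lt (Nat.le_of_dvd (by omega) h2) hr2) h1

private lemma farL_sep {R Z : ℕ} {m m' c c' d d' b b' : ℕ} (hm : 1 ≤ m) (hmZ : m ≤ Z)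
    (hm' : 1 ≤ m') (hmZ' : m' ≤ Z)
    (hmp : ∀ p : ℕ, p.Prime → p < 2 * R → ¬ p ∣ m) (hmp' : ∀ p : ℕ, p.Prime → p < 2 * R → ¬ p ∣ m')
    (hd : 1 ≤ d) (hdR : d < 2 * R) (hd' : 1 ≤ d') (hdR' : d' < 2 * R)
    (hc : c < m) (hc' : c' < m') (hcop : Nat.Coprime m c) (hcop' : Nat.Coprime m' c')
    (hb : b < d) (hb' : b' < d') (hbop : Nat.Coprime d b) (hbop' : Nat.Coprime d' b')
    (hne : ¬ (d = d' ∧ b = b' ∧ m = m' ∧ c = c')) (θ : ℝ) (z : ℤ) :
    1 / ((2 * (R : ℝ)) ^ 2 * (Z : ℝ) ^ 2) ≤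
      |(θ + (b : ℝ) / d + (c : ℝ) / m) - (θ + (b' : ℝ) / d' + (c' : ℝ) / m') - z| := by
  have hmr : (0 : ℝ) < m := by exact_mod_cast hm
  have hmr' : (0 : ℝ) < m' := by exact_mod_cast hm'
  have hdr : (0 : ℝ) < d := by exact_mod_cast hd
  have hdr' : (0 : ℝ) < d' := by exact_mod_cast hd'
  set N : ℤ := (b * d' - b' * d - z * (d * d')) * (m * m') + (c * m' - c' * m) * (d * d') with hN
  have e1 : (θ + (b : ℝ) / d + (c : ℝ) / m) - (θ + (b' : ℝ) / d' + (c' : ℝ) / m') - z =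
      (N : ℝ) / ((d * d') * (m * m')) := by
    rw [hN]
    push_cast
    field_simp
    ring
  have hcoprime : IsCoprime ((m : ℤ) * m') ((d : ℤ) * d') := by
    have k1 := farL_coprime hd hdR hmp
    have k2 := farL_coprime hd' hdR' hmp
    have k3 := farL_coprime hd hdR hmp'
    have k4 := farL_coprime hd' hdR' hmp'
    have k5 : Nat.Coprime (m * m') (d * d') :=
      Nat.Coprime.mul_left (Nat.Coprime.mul_right k1 k2) (Nat.Coprime.mul_right k3 k4)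
    have := Nat.isCoprime_iff_coprime.2 k5
    push_cast at this
    exact this
  have hN0 : N ≠ 0 := by
    intro hN0
    have h4 : ((c : ℤ) * m' - c' * m) * (d * d') =
        (m * m') * (-(b * d' - b' * d - z * (d * d'))) := by
      have : (b * d' - b' * d - z * (d * d')) * (m * m') + (c * m' - c' * m) * (d * d') =
        (0 : ℤ) := by rw [← hN, hN0]
      linear_combination this
    have h5 : ((b : ℤ) * d' - b' * d - z * (d * d')) * (m * m') =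
        (d * d') * (-(c * m' - c' * m)) := by
      linear_combination h4
    have h6 : ((m : ℤ) * m') ∣ (c : ℤ) * m' - c' * m :=
      hcoprime.dvd_of_dvd_mul_right (Dvd.intro _ h4.symm)
    have h7 : ((d : ℤ) * d') ∣ (b : ℤ) * d' - b' * d - z * (d * d') :=
      hcoprime.symm.dvd_of_dvd_mul_right (Dvd.intro _ h5.symm)
    have h8 : ((d : ℤ) * d') ∣ (b : ℤ) * d' - b' * d := by
      have h9 : ((d : ℤ) * d') ∣ z * (d * d') := dvd_mul_left _ _
      have h10 := dvd_add h7 h9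
      have h11 : (b : ℤ) * d' - b' * d - z * (d * d') + z * (d * d') = b * d' - b' * d := by ring
      rwa [h11] at h10
    obtain ⟨h12, h13⟩ := farL_frac_eq hc hc' hcop hcop' h6
    obtain ⟨h14, h15⟩ := farL_frac_eq hb hb' hbop hbop' h8
    exact hne ⟨h14, h15, h12, h13⟩
  have h4 : (1 : ℝ) ≤ |(N : ℝ)| := by
    rw [← Int.cast_abs]
    exact_mod_cast Int.one_le_abs hN0
  have hpos : (0 : ℝ) < (d * d') * (m * m') := by positivity
  have hRZ : (0 : ℝ) < (2 * (R : ℝ)) ^ 2 * (Z : ℝ) ^ 2 := by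
    have h1 : (0 : ℝ) < R := by exact_mod_cast (by omega : 0 < R)
    have h2 : (0 : ℝ) < Z := by exact_mod_cast (by omega : 0 < Z)
    positivity
  rw [e1, abs_div, abs_of_pos hpos, div_le_div_iff₀ hRZ hpos]
  have h5 : (m : ℝ) ≤ Z := by exact_mod_cast hmZ
  have h6 : (m' : ℝ) ≤ Z := by exact_mod_cast hmZ'
  have h7 : (d : ℝ) ≤ 2 * R := by exact_mod_cast hdR.le
  have h8 : (d' : ℝ) ≤ 2 * R := by exact_mod_cast hdR'.le
  have h9 : (m : ℝ) * m' ≤ Z * Z := mul_le_mul h5 h6 hmr'.le (by positivity)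
  have h10 : (d : ℝ) * d' ≤ (2 * R) * (2 * R) := mul_le_mul h7 h8 hdr'.le (by positivity)
  have h11 : ((d : ℝ) * d') * (m * m') ≤ ((2 * R) * (2 * R)) * (Z * Z) :=
    mul_le_mul h10 h9 (by positivity) (by positivity)
  have h12 : (1 : ℝ) * ((2 * (R : ℝ)) ^ 2 * (Z : ℝ) ^ 2) ≤
      |(N : ℝ)| * ((2 * (R : ℝ)) ^ 2 * (Z : ℝ) ^ 2) := mul_le_mul_of_nonneg_right h4 hRZ.le
  have h13 : ((2 * (R : ℝ)) * (2 * R)) * ((Z : ℝ) * Z) = (2 * (R : ℝ)) ^ 2 * (Z : ℝ) ^ 2 := by ring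
  linarith

private lemma farL_growth (B : ℕ) : ∃ X0 : ℕ, ∀ X : ℕ, X0 ≤ X →
    8 * Real.log X ^ B < (X : ℝ) ^ (1 / 2 : ℝ) ∧ Real.log X ^ 2 ≤ (X : ℝ) ^ (1 / 2 : ℝ) ∧
      14 ≤ Real.log X ∧ (1 : ℝ) ≤ X := by
  have h1 : (fun x : ℝ => Real.log x ^ (B : ℝ)) =o[Filter.atTop] fun x => x ^ (1 / 2 : ℝ) :=
    isLittleO_log_rpow_rpow_atTop _ (by norm_num)
  have h2 : (fun x : ℝ => Real.log x ^ ((2 : ℕ) : ℝ)) =o[Filter.atTop] fun x => x ^ (1 / 2 : ℝ) :=
    isLittleO_log_rpow_rpow_atTop _ (by norm_num)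
  have h3 := (tendsto_natCast_atTop_atTop (R := ℝ)).eventually
    (((h1.bound (c := 1 / 16) (by norm_num)).and (h2.bound (c := 1) (by norm_num))).and
      ((Real.tendsto_log_atTop.eventually_ge_atTop 14).and (Filter.eventually_ge_atTop (1 : ℝ))))
  obtain ⟨X0, hX0⟩ := Filter.eventually_atTop.1 h3
  refine ⟨X0, fun X hX => ?_⟩
  obtain ⟨⟨h4, h5⟩, h6, h7⟩ := hX0 X hX
  have hX1 : (0 : ℝ) < X := by linarith
  have hp : 0 < (X : ℝ) ^ (1 / 2 : ℝ) := Real.rpow_pos_of_pos hX1 _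
  rw [Real.norm_of_nonneg hp.le, Real.rpow_natCast] at h4 h5
  have h8 := (Real.le_norm_self _).trans h4
  have h9 := (Real.le_norm_self _).trans h5
  exact ⟨by linarith, by linarith, h6, h7⟩

theorem far_L : ∃ C : ℝ, 0 < C ∧ ∀ B0 : ℕ, ∃ X0 : ℕ, ∀ X : ℕ, X0 ≤ X →
    ∀ R : ℕ, 1 ≤ R → (R : ℝ) ≤ Real.log X ^ B0 → ∀ θ : ℝ,
    ∑ d ∈ Ico R (2 * R), Vst (LH X) d θ ≤ C * X ^ 2 * (1 + Real.log R) := by
  classical
  obtain ⟨c, hc, hgs⟩ := gsum_ge
  refine ⟨60 * (1 + 4 * Real.pi) / c + 16, by positivity, fun B0 => ?_⟩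
  obtain ⟨X0, hX0⟩ := farL_growth (2 * B0)
  refine ⟨X0, fun X hX R hR hRL θ => ?_⟩
  obtain ⟨hg1, hg2, hlog, hX1⟩ := hX0 X hX
  have hXpos : (0 : ℝ) < X := by linarith
  have hRr : (1 : ℝ) ≤ R := by exact_mod_cast hR
  set L := Real.log X with hL
  have hLpos : 0 < L := by linarith
  set Z : ℕ := ⌊(X : ℝ) ^ (1 / 4 : ℝ)⌋₊ with hZ
  have hx4 : (1 : ℝ) ≤ (X : ℝ) ^ (1 / 4 : ℝ) := Real.one_le_rpow hX1 (by norm_num)
  have hZle : (Z : ℝ) ≤ (X : ℝ) ^ (1 / 4 : ℝ) := Nat.floor_le (by linarith)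
  have hZ1 : 1 ≤ Z := Nat.le_floor (by simpa using hx4)
  have hZ1r : (1 : ℝ) ≤ Z := by exact_mod_cast hZ1
  have hZge : (X : ℝ) ^ (1 / 4 : ℝ) / 2 ≤ Z := by
    have := Nat.lt_floor_add_one ((X : ℝ) ^ (1 / 4 : ℝ))
    rw [← hZ] at this
    linarith
  have hx42 : ((X : ℝ) ^ (1 / 4 : ℝ)) ^ 2 = (X : ℝ) ^ (1 / 2 : ℝ) := by
    rw [← Real.rpow_natCast, ← Real.rpow_mul hXpos.le]
    norm_num
  have hx22 : (X : ℝ) ^ (1 / 2 : ℝ) * (X : ℝ) ^ (1 / 2 : ℝ) = X := by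
    rw [← Real.rpow_add hXpos]
    norm_num
  have hx2 : 0 < (X : ℝ) ^ (1 / 2 : ℝ) := by positivity
  have hx12 : (1 : ℝ) ≤ (X : ℝ) ^ (1 / 2 : ℝ) := Real.one_le_rpow hX1 (by norm_num)
  have hZ2 : (Z : ℝ) ^ 2 ≤ (X : ℝ) ^ (1 / 2 : ℝ) := by
    rw [← hx42]
    exact pow_le_pow_left₀ (by positivity) hZle 2
  have hZZ : (Z : ℝ) ≤ (Z : ℝ) ^ 2 := by nlinarith
  have hZX : Z ≤ X := by
    have h1 : (Z : ℝ) ≤ X := by
      calc (Z : ℝ) ≤ (Z : ℝ) ^ 2 := hZZ
        _ ≤ (X : ℝ) ^ (1 / 2 : ℝ) := hZ2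
        _ ≤ (X : ℝ) ^ (1 / 2 : ℝ) * (X : ℝ) ^ (1 / 2 : ℝ) := le_mul_of_one_le_left hx2.le hx12
        _ = X := hx22
    exact_mod_cast h1
  have hlogZ : L / 5 ≤ Real.log Z := by
    have h1 : Real.log ((X : ℝ) ^ (1 / 4 : ℝ) / 2) ≤ Real.log Z :=
      Real.log_le_log (by positivity) hZge
    rw [Real.log_div (by positivity) (by norm_num), Real.log_rpow hXpos] at h1
    have h2 : Real.log 2 ≤ 0.7 := by
      have := Real.log_two_lt_d9
      linarith
    linarith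
  have hR2 : 8 * (R : ℝ) ^ 2 ≤ (X : ℝ) ^ (1 / 2 : ℝ) := by
    have h1 : (R : ℝ) ^ 2 ≤ (L ^ B0) ^ 2 := pow_le_pow_left₀ (by positivity) hRL 2
    have h2 : (L ^ B0) ^ 2 = L ^ (2 * B0) := by rw [← pow_mul, mul_comm]
    rw [h2] at h1
    linarith
  have hRZ : (2 * (R : ℝ)) ^ 2 * (Z : ℝ) ^ 2 ≤ X := by
    calc (2 * (R : ℝ)) ^ 2 * (Z : ℝ) ^ 2 = (4 * (R : ℝ) ^ 2) * (Z : ℝ) ^ 2 := by ring
      _ ≤ (X : ℝ) ^ (1 / 2 : ℝ) * (X : ℝ) ^ (1 / 2 : ℝ) := by
          apply mul_le_mul _ hZ2 (by positivity) hx2.le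
          have : (0 : ℝ) ≤ (R : ℝ) ^ 2 := by positivity
          linarith
      _ = X := hx22
  -- the truncated function
  set la' : ℕ → ℝ := fun n => if Z < n then la X n else 0 with hla'
  set L' : ℝ → ℂ := Se X la' with hL'
  set A : Finset ℕ := (Icc 1 X).filter (fun n => n.Prime ∧ Z < n) with hA
  have hL'eq : ∀ θ, L' θ = ∑ n ∈ A, (la X n : ℂ) * ee (n * θ) := by
    intro θ
    rw [hL', Se, hA, Finset.sum_filter]
    refine Finset.sum_congr rfl fun n _ => ?_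
    rw [hla']
    by_cases h1 : Z < n
    · by_cases h2 : n.Prime
      · simp [h1, h2]
      · simp [h1, h2, la]
    · simp [h1]
  set P : Finset ℕ := (range (2 * R)).filter Nat.Prime with hP
  set M : Finset ℕ := (Icc 1 Z).filter (fun r => Squarefree r ∧ ∀ p ∈ P, ¬ p ∣ r) with hM
  set G : ℝ := ∑ r ∈ M, 1 / (Nat.totient r : ℝ) with hG
  have hGge : c * Real.log Z / (1 + Real.log (1 + (P.card : ℝ))) ≤ G :=
    hgs Z P hZ1 fun p hp => (Finset.mem_filter.1 hp).2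
  have hPcard : (P.card : ℝ) ≤ 2 * R := by
    have h1 : P.card ≤ 2 * R := by
      refine (Finset.card_filter_le _ _).trans ?_
      rw [Finset.card_range]
    exact_mod_cast h1
  have hlogR : 0 ≤ Real.log R := Real.log_nonneg hRr
  have hden : 1 + Real.log (1 + (P.card : ℝ)) ≤ 3 * (1 + Real.log R) := by
    have h1 : Real.log (1 + (P.card : ℝ)) ≤ Real.log (3 * R) :=
      Real.log_le_log (by positivity) (by linarith)
    rw [Real.log_mul (by norm_num) (by linarith)] at h1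
    have h2 : Real.log 3 ≤ 2 := by
      have h3 : Real.log 3 ≤ 3 - 1 := Real.log_le_sub_one_of_pos (by norm_num)
      linarith
    linarith
  have hden0 : 0 < 1 + Real.log (1 + (P.card : ℝ)) := by
    have : 0 ≤ Real.log (1 + (P.card : ℝ)) := Real.log_nonneg (by
      have : (0 : ℝ) ≤ P.card := by positivity
      linarith)
    linarith
  have hGlow : c * L / (15 * (1 + Real.log R)) ≤ G := by
    refine le_trans ?_ hGge
    rw [div_le_div_iff₀ (by positivity) hden0]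
    have h1 : c * L * (1 + Real.log (1 + (P.card : ℝ))) ≤ c * L * (3 * (1 + Real.log R)) :=
      mul_le_mul_of_nonneg_left hden (by positivity)
    have h2 : c * (L / 5) * (15 * (1 + Real.log R)) ≤ c * Real.log Z * (15 * (1 + Real.log R)) := by
      apply mul_le_mul_of_nonneg_right _ (by positivity)
      exact mul_le_mul_of_nonneg_left hlogZ hc.le
    have h3 : c * L * (3 * (1 + Real.log R)) = c * (L / 5) * (15 * (1 + Real.log R)) := by ring
    linarith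
  have hGpos : 0 < G := lt_of_lt_of_le (by positivity) hGlow
  have hMfacts : ∀ m ∈ M, 1 ≤ m ∧ m ≤ Z ∧ Squarefree m ∧
      ∀ p : ℕ, p.Prime → p < 2 * R → ¬ p ∣ m := by
    intro m hm
    obtain ⟨h1, h2, h3⟩ := Finset.mem_filter.1 hm
    obtain ⟨h4, h5⟩ := Finset.mem_Icc.1 h1
    exact ⟨h4, h5, h2, fun p hp hpR => h3 p (Finset.mem_filter.2 ⟨Finset.mem_range.2 hpR, hp⟩)⟩
  -- Montgomery
  have hmont : ∀ m ∈ M, ∀ θ, 1 / (Nat.totient m : ℝ) * ‖L' θ‖ ^ 2 ≤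
      ∑ b ∈ (range m).filter (Nat.Coprime m), ‖L' (θ + (b : ℝ) / m)‖ ^ 2 := by
    intro m hm θ
    obtain ⟨h1, h2, h3, h4⟩ := hMfacts m hm
    have hφ : (0 : ℝ) < Nat.totient m := by exact_mod_cast Nat.totient_pos.2 (by omega)
    have h5 := montgomery h3 A (by
      intro n hn
      obtain ⟨hn1, hn2, hn3⟩ := Finset.mem_filter.1 hn
      refine (Nat.Prime.coprime_iff_not_dvd hn2).2 fun hdvd => ?_
      have := Nat.le_of_dvd (by omega) hdvd
      omega) (fun n => (la X n : ℂ)) θ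
    rw [← hL'eq] at h5
    have h6 : ∀ b ∈ (range m).filter (Nat.Coprime m),
        ‖∑ n ∈ A, (la X n : ℂ) * ee (n * (θ + (b : ℝ) / m))‖ ^ 2 = ‖L' (θ + (b : ℝ) / m)‖ ^ 2 :=
      fun b _ => by rw [hL'eq]
    rw [Finset.sum_congr rfl h6] at h5
    rw [one_div, inv_mul_le_iff₀ hφ]
    exact h5
  -- the index set
  set I : Finset (Σ _ : (Σ _ : ℕ, ℕ), (Σ _ : ℕ, ℕ)) :=
    ((Ico R (2 * R)).sigma (fun d => (range d).filter (Nat.Coprime d))).sigma
      (fun _ => M.sigma (fun m => (range m).filter (Nat.Coprime m))) with hI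
  have hstep : G * ∑ d ∈ Ico R (2 * R), Vst L' d θ ≤
      ∑ x ∈ I, ‖L' (θ + (x.1.2 : ℝ) / x.1.1 + (x.2.2 : ℝ) / x.2.1)‖ ^ 2 := by
    rw [hI, Finset.sum_sigma, Finset.sum_sigma, Finset.mul_sum]
    apply Finset.sum_le_sum
    intro d _
    rw [Vst, Finset.mul_sum]
    apply Finset.sum_le_sum
    intro b _
    rw [Finset.sum_sigma, hG, Finset.sum_mul]
    exact Finset.sum_le_sum fun m hm => hmont m hm _
  have hsieve : ∑ x ∈ I, ‖L' (θ + (x.1.2 : ℝ) / x.1.1 + (x.2.2 : ℝ) / x.2.1)‖ ^ 2 ≤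
      (1 + 4 * Real.pi) * X * (2 * X * L) := by
    have hRZ0 : (1 : ℝ) ≤ (2 * (R : ℝ)) ^ 2 * (Z : ℝ) ^ 2 := by
      have h1 : (1 : ℝ) ≤ (2 * (R : ℝ)) ^ 2 := one_le_pow₀ (by linarith)
      have h2 : (1 : ℝ) ≤ (Z : ℝ) ^ 2 := one_le_pow₀ hZ1r
      calc (1 : ℝ) = 1 * 1 := by ring
        _ ≤ _ := mul_le_mul h1 h2 (by norm_num) (by positivity)
    have h1 := large_sieve_c I
      (fun x => θ + (x.1.2 : ℝ) / x.1.1 + (x.2.2 : ℝ) / x.2.1)
      (δ := 1 / ((2 * (R : ℝ)) ^ 2 * (Z : ℝ) ^ 2)) (by positivity)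
      (by rw [div_le_one (by linarith)]; exact hRZ0) ?_ (Icc 1 X) (fun n => (la' n : ℂ))
      (N := X) hXpos (fun n hn => by exact_mod_cast (Finset.mem_Icc.1 hn).2)
    · refine h1.trans ?_
      rw [one_div, inv_inv]
      have h2 : ∑ n ∈ Icc 1 X, ‖((la' n : ℝ) : ℂ)‖ ^ 2 ≤ 2 * X * L := by
        refine le_trans ?_ (sum_la_sq_le X)
        apply Finset.sum_le_sum
        intro n _
        rw [Complex.norm_real, Real.norm_eq_abs, sq_abs, hla']
        simp only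
        split_ifs
        · exact le_rfl
        · rw [zero_pow two_ne_zero]
          positivity
      apply mul_le_mul _ h2 (Finset.sum_nonneg fun _ _ => by positivity) (by positivity)
      have := Real.pi_pos
      linarith
    · rintro ⟨⟨d, b⟩, ⟨m, e⟩⟩ hx ⟨⟨d', b'⟩, ⟨m', e'⟩⟩ hy hne z
      obtain ⟨hx1, hx2⟩ := Finset.mem_sigma.1 hx
      obtain ⟨hy1, hy2⟩ := Finset.mem_sigma.1 hy
      obtain ⟨hx3, hx4⟩ := Finset.mem_sigma.1 hx1
      obtain ⟨hy3, hy4⟩ := Finset.mem_sigma.1 hy1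
      obtain ⟨hx5, hx6⟩ := Finset.mem_sigma.1 hx2
      obtain ⟨hy5, hy6⟩ := Finset.mem_sigma.1 hy2
      obtain ⟨k1, k2, -, k4⟩ := hMfacts m hx5
      obtain ⟨k1', k2', -, k4'⟩ := hMfacts m' hy5
      obtain ⟨l1, l2⟩ := Finset.mem_filter.1 hx4
      obtain ⟨l1', l2'⟩ := Finset.mem_filter.1 hy4
      obtain ⟨n1, n2⟩ := Finset.mem_filter.1 hx6
      obtain ⟨n1', n2'⟩ := Finset.mem_filter.1 hy6
      have o1 := Finset.mem_Ico.1 hx3
      have o1' := Finset.mem_Ico.1 hy3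
      have hd1 : R ≤ d := o1.1
      have hd2 : d < 2 * R := o1.2
      have hd1' : R ≤ d' := o1'.1
      have hd2' : d' < 2 * R := o1'.2
      refine farL_sep k1 k2 k1' k2' k4 k4' (by omega) hd2 (by omega) hd2'
        (Finset.mem_range.1 n1) (Finset.mem_range.1 n1') n2 n2'
        (Finset.mem_range.1 l1) (Finset.mem_range.1 l1') l2 l2' ?_ θ z
      rintro ⟨rfl, rfl, rfl, rfl⟩
      exact hne rfl
  have hV' : ∑ d ∈ Ico R (2 * R), Vst L' d θ ≤
      30 * (1 + 4 * Real.pi) / c * X ^ 2 * (1 + Real.log R) := by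
    have h1 := hstep.trans hsieve
    have h2 : 0 ≤ ∑ d ∈ Ico R (2 * R), Vst L' d θ :=
      Finset.sum_nonneg fun d _ => Finset.sum_nonneg fun _ _ => by positivity
    have h3 : c * L / (15 * (1 + Real.log R)) * ∑ d ∈ Ico R (2 * R), Vst L' d θ ≤
        (1 + 4 * Real.pi) * X * (2 * X * L) := (mul_le_mul_of_nonneg_right hGlow h2).trans h1
    have h4 : 0 < c * L / (15 * (1 + Real.log R)) := by positivity
    rw [← le_div_iff₀' h4] at h3
    refine h3.trans (le_of_eq ?_)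
    field_simp
    ring
  -- small primes
  have hdiff : ∀ θ, ‖LH X θ - L' θ‖ ≤ 2 * Z := by
    intro θ
    have h1 : LH X θ - L' θ = ∑ n ∈ Icc 1 X, ((la X n - la' n : ℝ) : ℂ) * ee (n * θ) := by
      rw [LH, hL', Se, Se, ← Finset.sum_sub_distrib]
      refine Finset.sum_congr rfl fun n _ => ?_
      push_cast
      ring
    rw [h1]
    refine le_trans ?_ (sum_la_le Z)
    refine (norm_sum_le _ _).trans ?_
    have h4 : ∑ n ∈ Icc 1 X, ‖((la X n - la' n : ℝ) : ℂ) * ee (n * θ)‖ =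
        ∑ n ∈ Icc 1 Z, ‖((la X n - la' n : ℝ) : ℂ) * ee (n * θ)‖ := by
      symm
      apply Finset.sum_subset
      · exact Finset.Icc_subset_Icc_right hZX
      · intro n hn hn'
        have h5 : Z < n := by
          by_contra hcon
          push Not at hcon
          exact hn' (Finset.mem_Icc.2 ⟨(Finset.mem_Icc.1 hn).1, hcon⟩)
        have h6 : la X n - la' n = 0 := by
          rw [hla']
          simp only
          rw [if_pos h5, sub_self]
        rw [h6]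
        simp
    rw [h4]
    apply Finset.sum_le_sum
    intro n hn
    obtain ⟨hn1, hn2⟩ := Finset.mem_Icc.1 hn
    have h6 : la X n - la' n = la Z n := by
      rw [hla']
      simp only
      rw [if_neg (by omega), sub_zero, la, la]
      by_cases h7 : n.Prime
      · rw [if_pos ⟨h7, by omega⟩, if_pos ⟨h7, hn2⟩]
      · rw [if_neg fun h => h7 h.1, if_neg fun h => h7 h.1]
    have h7 : 0 ≤ la Z n := by
      rw [la]
      split_ifs
      · exact Real.log_nonneg (by exact_mod_cast hn1)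
      · exact le_rfl
    rw [h6, norm_mul, norm_ee, mul_one, Complex.norm_real, Real.norm_of_nonneg h7]
  have hVd : ∑ d ∈ Ico R (2 * R), Vst (fun θ => LH X θ - L' θ) d θ ≤ 8 * (X : ℝ) ^ 2 := by
    have h1 : ∀ d ∈ Ico R (2 * R), Vst (fun θ => LH X θ - L' θ) d θ ≤ 2 * R * (2 * (Z : ℝ)) ^ 2 := by
      intro d hd
      rw [Vst]
      have h2 : ∀ b ∈ (range d).filter (Nat.Coprime d),
          ‖LH X (θ + (b : ℝ) / d) - L' (θ + (b : ℝ) / d)‖ ^ 2 ≤ (2 * (Z : ℝ)) ^ 2 := fun b _ =>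
        pow_le_pow_left₀ (norm_nonneg _) (hdiff _) 2
      refine (Finset.sum_le_sum h2).trans ?_
      rw [Finset.sum_const, nsmul_eq_mul]
      apply mul_le_mul_of_nonneg_right _ (by positivity)
      have h3 : ((range d).filter (Nat.Coprime d)).card ≤ 2 * R := by
        refine (Finset.card_filter_le _ _).trans ?_
        rw [Finset.card_range]
        exact (Finset.mem_Ico.1 hd).2.le
      exact_mod_cast h3
    refine (Finset.sum_le_sum h1).trans ?_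
    rw [Finset.sum_const, Nat.card_Ico, nsmul_eq_mul]
    have h2 : 2 * R - R = R := by omega
    rw [h2]
    have h3 : (R : ℝ) * (2 * R * (2 * (Z : ℝ)) ^ 2) = 2 * ((2 * (R : ℝ)) ^ 2 * (Z : ℝ) ^ 2) := by
      ring
    rw [h3]
    have h4 : (X : ℝ) ≤ X ^ 2 := by nlinarith
    linarith
  have hsplit : ∀ d ∈ Ico R (2 * R), Vst (LH X) d θ ≤
      2 * Vst L' d θ + 2 * Vst (fun θ => LH X θ - L' θ) d θ := by
    intro d _
    rw [Vst, Vst, Vst, Finset.mul_sum, Finset.mul_sum, ← Finset.sum_add_distrib]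
    apply Finset.sum_le_sum
    intro b _
    set t : ℝ := θ + (b : ℝ) / d with ht
    have h2 : ‖LH X t‖ ≤ ‖L' t‖ + ‖LH X t - L' t‖ := by
      calc ‖LH X t‖ = ‖L' t + (LH X t - L' t)‖ := by congr 1; ring
        _ ≤ _ := norm_add_le _ _
    have h3 : ‖LH X t‖ ^ 2 ≤ (‖L' t‖ + ‖LH X t - L' t‖) ^ 2 :=
      pow_le_pow_left₀ (norm_nonneg _) h2 2
    have h4 := add_sq_le (a := ‖L' t‖) (b := ‖LH X t - L' t‖)
    linarith
  refine (Finset.sum_le_sum hsplit).trans ?_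
  rw [Finset.sum_add_distrib, ← Finset.mul_sum, ← Finset.mul_sum]
  have h1 : (60 * (1 + 4 * Real.pi) / c + 16) * (X : ℝ) ^ 2 * (1 + Real.log R) =
      2 * (30 * (1 + 4 * Real.pi) / c * X ^ 2 * (1 + Real.log R)) +
        16 * (X : ℝ) ^ 2 * (1 + Real.log R) := by ring
  rw [h1]
  have h2 : 16 * (X : ℝ) ^ 2 ≤ 16 * (X : ℝ) ^ 2 * (1 + Real.log R) :=
    le_mul_of_one_le_right (by positivity) (by linarith)
  linarith

end Pool.MP_dd84fd_nt.L2G
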