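import Pool.Agent.Lib.MP_dd84fd_nt.L2G.ChDefs

set_option autoImplicit false

namespace Pool.MP_dd84fd_nt.L2G

open Finset Pool.MP_67663b_nt.Odd

private theorem lc_card_units (q : ℕ) [NeZero q] :
    (univ.filter (fun b : ZMod q => IsUnit b)).card = Nat.totient q := by
  classical
  rw [← ZMod.card_units_eq_totient q, ← Finset.card_univ,
    ← Finset.card_map ⟨Units.val, Units.val_injective⟩]
  congr 1
  ext b
  simp only [mem_filter, mem_univ, true_and, mem_map, Function.Embedding.coeFn_mk]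
  rfl

private theorem lc_card_units' (q : ℕ) [NeZero q] (a : ZMod q) :
    (univ.filter (fun b : ZMod q => IsUnit (a - b))).card = Nat.totient q := by
  classical
  rw [← lc_card_units q]
  refine Finset.card_bij (fun b _ => a - b) ?_ ?_ ?_
  · intro b hb
    simpa using hb
  · intro b _ c _ h
    exact sub_right_injective h
  · intro c hc
    refine ⟨a - c, ?_, ?_⟩
    · simpa using hc
    · ring

private theorem lc_isUnit_iff (p k : ℕ) (hp : p.Prime) (hk : 0 < k) [NeZero (p ^ k)]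
    (b : ZMod (p ^ k)) :
    IsUnit b ↔ ZMod.castHom (dvd_pow_self p hk.ne') (ZMod p) b ≠ 0 := by
  have : Fact p.Prime := ⟨hp⟩
  constructor
  · intro h
    exact (h.map (ZMod.castHom (dvd_pow_self p hk.ne') (ZMod p))).ne_zero
  · intro h
    have hb : ((b.val : ℕ) : ZMod (p ^ k)) = b := ZMod.natCast_zmod_val b
    rw [← hb] at h ⊢
    rw [map_natCast, Ne, ZMod.natCast_eq_zero_iff] at h
    rw [ZMod.isUnit_iff_coprime]
    exact Nat.Coprime.pow_right k ((Nat.Prime.coprime_iff_not_dvd hp).mpr h).symm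

private theorem lc_prime_pow (p k : ℕ) (hp : p.Prime) (hk : 0 < k) [NeZero (p ^ k)] (n : ℕ) :
    ((p ^ k : ℕ) : ℝ) * (Nc (p ^ k) (n : ZMod (p ^ k)) : ℝ) / (Nat.totient (p ^ k) : ℝ) ^ 2 =
      if p ∣ n then (p : ℝ) / (p - 1) else 1 - 1 / ((p : ℝ) - 1) ^ 2 := by
  classical
  have hp1 : (1 : ℝ) < p := by exact_mod_cast hp.one_lt
  have hp0 : (0 : ℝ) < p := by linarith
  have hpm : (p : ℝ) - 1 ≠ 0 := by linarith
  set f := ZMod.castHom (dvd_pow_self p hk.ne') (ZMod p) with hf
  have htot : (Nat.totient (p ^ k) : ℝ) = (p : ℝ) ^ (k - 1) * (p - 1) := by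
    rw [Nat.totient_prime_pow hp hk]
    push_cast [Nat.cast_sub hp.one_lt.le]
    ring
  have hq : ((p ^ k : ℕ) : ℝ) = (p : ℝ) ^ (k - 1) * p := by
    push_cast
    rw [← pow_succ]
    congr 1
    omega
  have hpk : (p : ℝ) ^ (k - 1) ≠ 0 := pow_ne_zero _ hp0.ne'
  set U := univ.filter (fun b : ZMod (p ^ k) => IsUnit b) with hU
  set V := univ.filter (fun b : ZMod (p ^ k) => IsUnit ((n : ZMod (p ^ k)) - b)) with hV
  have hN : Nc (p ^ k) (n : ZMod (p ^ k)) = (U ∩ V).card := by
    unfold Nc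
    rw [hU, hV, ← Finset.filter_and]
  have hUc : U.card = Nat.totient (p ^ k) := lc_card_units _
  have hVc : V.card = Nat.totient (p ^ k) := lc_card_units' _ _
  have hfn : f (n : ZMod (p ^ k)) = (n : ZMod p) := map_natCast f n
  split_ifs with h
  · have hn0 : (n : ZMod p) = 0 := (ZMod.natCast_eq_zero_iff n p).mpr h
    have hUV : U ∩ V = U := by
      rw [Finset.inter_eq_left]
      intro b hb
      rw [hU, mem_filter, lc_isUnit_iff p k hp hk] at hb
      rw [hV, mem_filter, lc_isUnit_iff p k hp hk]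
      refine ⟨mem_univ _, ?_⟩
      rw [map_sub, ← hf, hfn, hn0, zero_sub, neg_ne_zero]
      exact hb.2
    rw [hN, hUV, hUc, htot, hq]
    field_simp
  · have hn0 : (n : ZMod p) ≠ 0 := fun h0 => h ((ZMod.natCast_eq_zero_iff n p).mp h0)
    have hUV : U ∪ V = univ := by
      rw [Finset.eq_univ_iff_forall]
      intro b
      rw [mem_union]
      by_contra hb
      push Not at hb
      obtain ⟨h1, h2⟩ := hb
      rw [hU, mem_filter, lc_isUnit_iff p k hp hk] at h1
      rw [hV, mem_filter, lc_isUnit_iff p k hp hk] at h2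
      simp only [mem_univ, true_and, not_not] at h1 h2
      rw [map_sub, ← hf, hfn] at h2
      rw [← hf] at h1
      rw [h1, sub_zero] at h2
      exact hn0 h2
    have hc := Finset.card_union_add_card_inter U V
    rw [hUV, Finset.card_univ, ZMod.card, hUc, hVc] at hc
    have hc' : ((U ∩ V).card : ℝ) = 2 * (Nat.totient (p ^ k) : ℝ) - ((p ^ k : ℕ) : ℝ) := by
      have : ((p ^ k : ℕ) : ℝ) + ((U ∩ V).card : ℝ) =
          (Nat.totient (p ^ k) : ℝ) + (Nat.totient (p ^ k) : ℝ) := by exact_mod_cast hc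
      linarith
    rw [hN, hc', htot, hq]
    field_simp
    ring

private theorem lc_mul (a b : ℕ) [NeZero a] [NeZero b] [NeZero (a * b)] (hab : Nat.Coprime a b)
    (n : ℕ) : Nc (a * b) (n : ZMod (a * b)) = Nc a (n : ZMod a) * Nc b (n : ZMod b) := by
  classical
  unfold Nc
  rw [← Finset.card_product]
  refine Finset.card_bij (fun c _ => (ZMod.chineseRemainder hab) c) ?_ ?_ ?_
  · intro c hc
    rw [mem_filter] at hc
    obtain ⟨-, h1, h2⟩ := hc
    rw [mem_product, mem_filter, mem_filter]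
    have h3 : IsUnit (ZMod.chineseRemainder hab c) := h1.map (ZMod.chineseRemainder hab)
    have h4 : IsUnit (ZMod.chineseRemainder hab ((n : ZMod (a * b)) - c)) :=
      h2.map (ZMod.chineseRemainder hab)
    rw [map_sub, map_natCast] at h4
    rw [Prod.isUnit_iff] at h3 h4
    exact ⟨⟨mem_univ _, h3.1, h4.1⟩, ⟨mem_univ _, h3.2, h4.2⟩⟩
  · intro c _ c' _ h
    exact (ZMod.chineseRemainder hab).injective h
  · rintro ⟨x, y⟩ hxy
    rw [mem_product, mem_filter, mem_filter] at hxy
    obtain ⟨⟨-, h1, h2⟩, ⟨-, h3, h4⟩⟩ := hxy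
    obtain ⟨c, hc⟩ := (ZMod.chineseRemainder hab).surjective (x, y)
    refine ⟨c, ?_, hc⟩
    rw [mem_filter]
    refine ⟨mem_univ _, ?_, ?_⟩
    · rw [← MulEquiv.isUnit_map (ZMod.chineseRemainder hab), hc, Prod.isUnit_iff]
      exact ⟨h1, h3⟩
    · rw [← MulEquiv.isUnit_map (ZMod.chineseRemainder hab), map_sub, map_natCast, hc,
        Prod.isUnit_iff]
      exact ⟨h2, h4⟩

theorem Nc_prod (q : ℕ) [NeZero q] (n : ℕ) :
    (q : ℝ) * (Nc q (n : ZMod q) : ℝ) / (Nat.totient q : ℝ) ^ 2 =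
      ∏ p ∈ q.primeFactors, (if p ∣ n then (p : ℝ) / (p - 1) else 1 - 1 / ((p : ℝ) - 1) ^ 2) := by
  suffices h : ∀ q : ℕ, ∀ [NeZero q], (q : ℝ) * (Nc q (n : ZMod q) : ℝ) / (Nat.totient q : ℝ) ^ 2 =
      ∏ p ∈ q.primeFactors, (if p ∣ n then (p : ℝ) / (p - 1) else 1 - 1 / ((p : ℝ) - 1) ^ 2) from h q
  intro q
  induction q using Nat.recOnPosPrimePosCoprime with
  | prime_pow p k hp hk =>
    intro _
    rw [lc_prime_pow p k hp hk n, Nat.primeFactors_prime_pow hk.ne' hp, Finset.prod_singleton]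
  | zero =>
    intro h
    exact absurd rfl (NeZero.ne 0)
  | one =>
    intro _
    have h1 : Nc 1 (n : ZMod 1) = 1 := by
      unfold Nc
      rw [Finset.card_eq_one]
      refine ⟨0, ?_⟩
      ext b
      simp only [mem_filter, mem_univ, true_and, mem_singleton]
      constructor
      · intro _
        exact Subsingleton.elim _ _
      · intro _
        exact ⟨isUnit_of_subsingleton _, isUnit_of_subsingleton _⟩
    rw [h1]
    simp
  | coprime a b ha hb hab iha ihb =>
    intro _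
    have : NeZero a := ⟨by omega⟩
    have : NeZero b := ⟨by omega⟩
    rw [lc_mul a b hab n, Nat.totient_mul hab, hab.primeFactors_mul,
      Finset.prod_union hab.disjoint_primeFactors, ← iha, ← ihb]
    push_cast
    rw [div_mul_div_comm]
    congr 1 <;> ring

end Pool.MP_dd84fd_nt.L2G
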