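import Pool.Agent.Lib.MP_dd84fd_nt.L2G.ModelConv
import Pool.Agent.Lib.MP_dd84fd_nt.L2G.SingSer

set_option autoImplicit false

namespace Pool.MP_dd84fd_nt.L2G

open Finset Pool.MP_67663b_nt.Odd

theorem nu_nn : ∃ X0 : ℕ, ∀ X : ℕ, X0 ≤ X → ∀ (q : ℕ) [NeZero q],
    (q : ℝ) ≤ (X : ℝ) ^ (2 / 3 : ℝ) → ∀ n : ℕ, 1 ≤ n → n ≤ X → Even n →
    |cv X (nu X (Rm X) q) (nu X (Rm X) q) n - Pool.MP_dd84fd_nt.En.SS n * n| ≤
      (X : ℝ) ^ (1 - 1 / 300 : ℝ) := by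
  obtain ⟨X1, h1⟩ := nu_conv
  obtain ⟨X2, h2⟩ := sing_ser
  refine ⟨max (max X1 X2) (2 ^ 600), ?_⟩
  intro X hX q _ hq n hn hnX heven
  have hX1 : X1 ≤ X := ((le_max_left _ _).trans (le_max_left _ _)).trans hX
  have hX2 : X2 ≤ X := ((le_max_right _ _).trans (le_max_left _ _)).trans hX
  have hX3 : 2 ^ 600 ≤ X := (le_max_right _ _).trans hX
  have hXone : (1 : ℝ) ≤ X := by
    have : 1 ≤ X := (Nat.one_le_two_pow).trans hX3
    exact_mod_cast this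
  have hX0 : (0 : ℝ) < X := by linarith
  have hqX : q ≤ X := by
    have h3 : (q : ℝ) ≤ X := by
      refine hq.trans ?_
      calc (X : ℝ) ^ (2 / 3 : ℝ) ≤ (X : ℝ) ^ (1 : ℝ) :=
            Real.rpow_le_rpow_of_exponent_le hXone (by norm_num)
        _ = X := Real.rpow_one _
    exact_mod_cast h3
  have h3 := h1 X hX1 q hq n hnX
  have h4 := h2 X hX2 q hqX n hn hnX heven
  set P : ℝ := (q : ℝ) * (Nc q (n : ZMod q) : ℝ) / (Nat.totient q : ℝ) ^ 2 * SR (Rm X) q n with hP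
  have h5 : |P * n - Pool.MP_dd84fd_nt.En.SS n * n| ≤ (X : ℝ) ^ (199 / 200 : ℝ) := by
    have h6 : P * n - Pool.MP_dd84fd_nt.En.SS n * n = (P - Pool.MP_dd84fd_nt.En.SS n) * n := by ring
    rw [h6, abs_mul, Nat.abs_cast]
    have hnX' : (n : ℝ) ≤ X := by exact_mod_cast hnX
    calc |P - Pool.MP_dd84fd_nt.En.SS n| * n ≤ (X : ℝ) ^ (-(1 / 200) : ℝ) * X :=
          mul_le_mul h4 hnX' (Nat.cast_nonneg _) (by positivity)
      _ = (X : ℝ) ^ (-(1 / 200) : ℝ) * (X : ℝ) ^ (1 : ℝ) := by rw [Real.rpow_one]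
      _ = (X : ℝ) ^ (199 / 200 : ℝ) := by
          rw [← Real.rpow_add hX0]
          norm_num
  have h6 : (X : ℝ) ^ (9 / 10 : ℝ) ≤ (X : ℝ) ^ (199 / 200 : ℝ) :=
    Real.rpow_le_rpow_of_exponent_le hXone (by norm_num)
  have h7 : (2 : ℝ) ≤ (X : ℝ) ^ (1 / 600 : ℝ) := by
    have h8 : ((2 : ℝ) ^ (600 : ℕ)) ≤ X := by exact_mod_cast hX3
    calc (2 : ℝ) = ((2 : ℝ) ^ (600 : ℕ)) ^ (1 / 600 : ℝ) := by
          rw [← Real.rpow_natCast, ← Real.rpow_mul (by norm_num)]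
          norm_num
      _ ≤ (X : ℝ) ^ (1 / 600 : ℝ) := Real.rpow_le_rpow (by positivity) h8 (by norm_num)
  have h8 : (X : ℝ) ^ (1 - 1 / 300 : ℝ) = (X : ℝ) ^ (1 / 600 : ℝ) * (X : ℝ) ^ (199 / 200 : ℝ) := by
    rw [← Real.rpow_add hX0]
    norm_num
  have h9 : 0 ≤ (X : ℝ) ^ (199 / 200 : ℝ) := by positivity
  have h10 : cv X (nu X (Rm X) q) (nu X (Rm X) q) n - Pool.MP_dd84fd_nt.En.SS n * n =
      (cv X (nu X (Rm X) q) (nu X (Rm X) q) n - P * n) +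
        (P * n - Pool.MP_dd84fd_nt.En.SS n * n) := by ring
  rw [h10, h8]
  refine (abs_add_le _ _).trans ?_
  have h3' : |cv X (nu X (Rm X) q) (nu X (Rm X) q) n - P * n| ≤ (X : ℝ) ^ (9 / 10 : ℝ) := h3
  nlinarith

end Pool.MP_dd84fd_nt.L2G
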