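import Pool.Agent.Lib.MP_dd84fd_nt.L2G.ChDefs
import Pool.Agent.Lib.MP_dd84fd_nt.L2G.Avg
import Pool.Agent.Lib.MP_dd84fd_nt.L2G.ClassIneq

set_option autoImplicit false

namespace Pool.MP_dd84fd_nt.L2G

open Finset Pool.MP_67663b_nt.Odd

private theorem transfer_orth (N : ℕ) (hN : 0 < N) (k : ℤ) (hk : |k| < N) :
    ∑ j ∈ range N, ee ((k : ℝ) * ((j : ℝ) / N)) = if k = 0 then (N : ℂ) else 0 := by
  rw [avg_orth N hN k]
  by_cases h : k = 0
  · rw [if_pos h, if_pos (by rw [h]; exact dvd_zero _)]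
  · rw [if_neg h, if_neg (fun hd => h (Int.eq_zero_of_abs_lt_dvd hd hk))]

private theorem transfer_parseval (N Y : ℕ) (hN : Y < N) (u : ℕ → ℝ) :
    av N (fun θ => ‖Se Y u θ‖ ^ 2) = ∑ n ∈ Icc 1 Y, u n ^ 2 := by
  have h := parseval (N := N) (Icc 1 Y) (fun n hn => by
    have h1 := (Finset.mem_Icc.1 hn).2
    omega) (fun n => (u n : ℂ))
  unfold Se
  rw [h]
  refine Finset.sum_congr rfl fun n _ => ?_
  rw [Complex.norm_real, Real.norm_eq_abs, sq_abs]

private theorem transfer_cv (N Y n : ℕ) (hN : 2 * Y + n < N) (u v : ℕ → ℝ) :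
    (N : ℂ) * (cv Y u v n : ℂ) = ∑ j ∈ range N, (Se Y u ((j : ℝ) / N) * Se Y v ((j : ℝ) / N)) *
      ee (n * (-((j : ℝ) / N))) := by
  have hN0 : 0 < N := by omega
  have h1 : ∀ j : ℕ, (Se Y u ((j : ℝ) / N) * Se Y v ((j : ℝ) / N)) * ee (n * (-((j : ℝ) / N))) =
      ∑ m ∈ Icc 1 Y, ∑ k ∈ Icc 1 Y, (u m : ℂ) * (v k : ℂ) *
        ee ((((m : ℤ) + (k : ℤ) - (n : ℤ) : ℤ) : ℝ) * ((j : ℝ) / N)) := by
    intro j
    unfold Se
    rw [Finset.sum_mul_sum, Finset.sum_mul]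
    refine Finset.sum_congr rfl fun m _ => ?_
    rw [Finset.sum_mul]
    refine Finset.sum_congr rfl fun k _ => ?_
    have h2 : ee ((((m : ℤ) + (k : ℤ) - (n : ℤ) : ℤ) : ℝ) * ((j : ℝ) / N)) =
        ee (m * ((j : ℝ) / N)) * ee (k * ((j : ℝ) / N)) * ee (n * (-((j : ℝ) / N))) := by
      rw [← ee_add, ← ee_add]
      congr 1
      push_cast
      ring
    rw [h2]
    ring
  rw [Finset.sum_congr rfl fun j _ => h1 j, Finset.sum_comm]
  unfold cv
  rw [Complex.ofReal_sum, Finset.mul_sum]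
  refine Finset.sum_congr rfl fun m hm => ?_
  rw [Finset.sum_comm, Complex.ofReal_sum, Finset.mul_sum]
  refine Finset.sum_congr rfl fun k hk => ?_
  rw [Finset.mem_Icc] at hm hk
  rw [← Finset.mul_sum, transfer_orth N hN0 _ (by
    rw [abs_lt]
    constructor <;> omega)]
  by_cases h : m + k = n
  · rw [if_pos h, if_pos (by omega)]
    push_cast
    ring
  · rw [if_neg h, if_neg (by omega)]
    push_cast
    ring

theorem transfer (X Y : ℕ) (u v D : ℕ → ℝ) (δ : ℝ)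
    (h : ∀ θ : ℝ, ‖∑ n ∈ Icc 1 X, (D n : ℂ) * ee (n * θ)‖ ≤ δ) :
    |∑ n ∈ Icc 1 X, D n * cv Y u v n ^ 2| ≤
      δ * ((∑ n ∈ Icc 1 Y, u n ^ 2) * ∑ n ∈ Icc 1 Y, v n ^ 2) := by
  have hδ : 0 ≤ δ := (norm_nonneg _).trans (h 0)
  set N := 2 * Y + X + 1 with hN
  have hN0 : 0 < N := by omega
  have hNr : (0 : ℝ) < N := by exact_mod_cast hN0
  set c : ℕ → ℂ := fun j => Se Y u ((j : ℝ) / N) * Se Y v ((j : ℝ) / N) with hc
  have hcv : ∀ n ∈ Icc 1 X, (N : ℂ) * (cv Y u v n : ℂ) = ∑ j ∈ range N, c j *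
      ee (n * (-((j : ℝ) / N))) := by
    intro n hn
    rw [Finset.mem_Icc] at hn
    exact transfer_cv N Y n (by omega) u v
  have key : (N : ℂ) ^ 2 * ((∑ n ∈ Icc 1 X, D n * cv Y u v n ^ 2 : ℝ) : ℂ) =
      ∑ i ∈ range N, ∑ j ∈ range N, c i * c j *
        ∑ n ∈ Icc 1 X, (D n : ℂ) * ee (n * (-((i : ℝ) / N) + -((j : ℝ) / N))) := by
    push_cast
    rw [Finset.mul_sum]
    have h1 : ∀ n ∈ Icc 1 X, (N : ℂ) ^ 2 * ((D n : ℂ) * (cv Y u v n : ℂ) ^ 2) =
        ∑ i ∈ range N, ∑ j ∈ range N, c i * c j *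
          ((D n : ℂ) * ee (n * (-((i : ℝ) / N) + -((j : ℝ) / N)))) := by
      intro n hn
      have h2 : (N : ℂ) ^ 2 * ((D n : ℂ) * (cv Y u v n : ℂ) ^ 2) =
          (D n : ℂ) * (((N : ℂ) * (cv Y u v n : ℂ)) * ((N : ℂ) * (cv Y u v n : ℂ))) := by ring
      rw [h2, hcv n hn, Finset.sum_mul_sum, Finset.mul_sum]
      refine Finset.sum_congr rfl fun i _ => ?_
      rw [Finset.mul_sum]
      refine Finset.sum_congr rfl fun j _ => ?_
      rw [mul_add (n : ℝ), ee_add]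
      ring
    rw [Finset.sum_congr rfl h1, Finset.sum_comm]
    refine Finset.sum_congr rfl fun i _ => ?_
    rw [Finset.sum_comm]
    refine Finset.sum_congr rfl fun j _ => ?_
    rw [Finset.mul_sum]
  have hnorm : (N : ℝ) ^ 2 * |∑ n ∈ Icc 1 X, D n * cv Y u v n ^ 2| ≤
      δ * (∑ j ∈ range N, ‖c j‖) ^ 2 := by
    have h1 : (N : ℝ) ^ 2 * |∑ n ∈ Icc 1 X, D n * cv Y u v n ^ 2| =
        ‖(N : ℂ) ^ 2 * ((∑ n ∈ Icc 1 X, D n * cv Y u v n ^ 2 : ℝ) : ℂ)‖ := by
      rw [norm_mul, norm_pow, Complex.norm_natCast, Complex.norm_real, Real.norm_eq_abs]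
    rw [h1, key, pow_two, Finset.sum_mul_sum, Finset.mul_sum]
    refine (norm_sum_le _ _).trans (Finset.sum_le_sum fun i _ => ?_)
    rw [Finset.mul_sum]
    refine (norm_sum_le _ _).trans (Finset.sum_le_sum fun j _ => ?_)
    rw [norm_mul, norm_mul, mul_comm δ]
    exact mul_le_mul_of_nonneg_left (h _) (by positivity)
  have hcs : (∑ j ∈ range N, ‖c j‖) ^ 2 ≤ (N : ℝ) ^ 2 *
      ((∑ n ∈ Icc 1 Y, u n ^ 2) * ∑ n ∈ Icc 1 Y, v n ^ 2) := by
    have h1 := av_cs N (fun θ => ‖Se Y u θ‖) (fun θ => ‖Se Y v θ‖)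
    rw [transfer_parseval N Y (by omega) u, transfer_parseval N Y (by omega) v] at h1
    have h2 : av N (fun θ => ‖Se Y u θ‖ * ‖Se Y v θ‖) = (∑ j ∈ range N, ‖c j‖) / N := by
      unfold av
      congr 1
      refine Finset.sum_congr rfl fun j _ => ?_
      rw [hc]
      simp only
      rw [norm_mul]
    rw [h2, div_pow, div_le_iff₀ (by positivity)] at h1
    linarith
  have h3 : (N : ℝ) ^ 2 * |∑ n ∈ Icc 1 X, D n * cv Y u v n ^ 2| ≤
      (N : ℝ) ^ 2 * (δ * ((∑ n ∈ Icc 1 Y, u n ^ 2) * ∑ n ∈ Icc 1 Y, v n ^ 2)) := by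
    refine hnorm.trans ((mul_le_mul_of_nonneg_left hcs hδ).trans (le_of_eq ?_))
    ring
  exact le_of_mul_le_mul_left h3 (by positivity)

/-- the Fejer weight `#{j < 2Z : j + n < 2Z}` -/
private noncomputable def transferF (Z n : ℕ) : ℝ :=
  ∑ j ∈ range (2 * Z), ∑ k ∈ range (2 * Z), if n + j = k then (1 : ℝ) else 0

private theorem transferF_eq (Z n : ℕ) : transferF Z n = ((2 * Z - n : ℕ) : ℝ) := by
  unfold transferF
  have h1 : ∀ j ∈ range (2 * Z), (∑ k ∈ range (2 * Z), if n + j = k then (1 : ℝ) else 0) =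
      if n + j < 2 * Z then 1 else 0 := by
    intro j _
    rw [Finset.sum_ite_eq]
    by_cases h : n + j < 2 * Z
    · rw [if_pos h, if_pos (Finset.mem_range.2 h)]
    · rw [if_neg h, if_neg (fun h' => h (Finset.mem_range.1 h'))]
  rw [Finset.sum_congr rfl h1, ← Finset.sum_filter, Finset.sum_const, nsmul_eq_mul, mul_one]
  congr 1
  have h2 : (range (2 * Z)).filter (fun j => n + j < 2 * Z) = range (2 * Z - n) := by
    ext j
    rw [Finset.mem_filter, Finset.mem_range, Finset.mem_range]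
    omega
  rw [h2, Finset.card_range]

private theorem transfer_fejer (X Z : ℕ) (D : ℕ → ℝ) (δ : ℝ)
    (h : ∀ θ : ℝ, ‖∑ n ∈ Icc 1 X, (D n : ℂ) * ee (n * θ)‖ ≤ δ) :
    |∑ n ∈ Icc 1 X, D n * transferF Z n| ≤ δ * (2 * Z) := by
  set N := 2 * Z + X + 1 with hN
  have hN0 : 0 < N := by omega
  have hNr : (0 : ℝ) < N := by exact_mod_cast hN0
  have key : (N : ℂ) * ((∑ n ∈ Icc 1 X, D n * transferF Z n : ℝ) : ℂ) =
      ∑ i ∈ range N, (∑ n ∈ Icc 1 X, (D n : ℂ) * ee (n * ((i : ℝ) / N))) *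
        ((∑ j ∈ range (2 * Z), (1 : ℂ) * ee (j * ((i : ℝ) / N))) *
          (starRingEnd ℂ) (∑ j ∈ range (2 * Z), (1 : ℂ) * ee (j * ((i : ℝ) / N)))) := by
    have h1 : ∀ i ∈ range N, (∑ n ∈ Icc 1 X, (D n : ℂ) * ee (n * ((i : ℝ) / N))) *
        ((∑ j ∈ range (2 * Z), (1 : ℂ) * ee (j * ((i : ℝ) / N))) *
          (starRingEnd ℂ) (∑ j ∈ range (2 * Z), (1 : ℂ) * ee (j * ((i : ℝ) / N)))) =
        ∑ n ∈ Icc 1 X, ∑ j ∈ range (2 * Z), ∑ k ∈ range (2 * Z), (D n : ℂ) *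
          ee ((((n : ℤ) + (j : ℤ) - (k : ℤ) : ℤ) : ℝ) * ((i : ℝ) / N)) := by
      intro i _
      rw [map_sum, Finset.sum_mul_sum, Finset.sum_mul]
      refine Finset.sum_congr rfl fun n _ => ?_
      rw [Finset.mul_sum]
      refine Finset.sum_congr rfl fun j _ => ?_
      rw [Finset.mul_sum]
      refine Finset.sum_congr rfl fun k _ => ?_
      rw [one_mul, one_mul, conj_ee]
      have h2 : ee ((((n : ℤ) + (j : ℤ) - (k : ℤ) : ℤ) : ℝ) * ((i : ℝ) / N)) =
          ee (n * ((i : ℝ) / N)) * ee (j * ((i : ℝ) / N)) * ee (-(k * ((i : ℝ) / N))) := by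
        rw [← ee_add, ← ee_add]
        congr 1
        push_cast
        ring
      rw [h2]
      ring
    rw [Finset.sum_congr rfl h1, Finset.sum_comm, Complex.ofReal_sum, Finset.mul_sum]
    refine Finset.sum_congr rfl fun n hn => ?_
    rw [Finset.mem_Icc] at hn
    unfold transferF
    conv_rhs => rw [Finset.sum_comm]
    rw [Complex.ofReal_mul, Complex.ofReal_sum, Finset.mul_sum, Finset.mul_sum]
    refine Finset.sum_congr rfl fun j hj => ?_
    rw [Finset.mem_range] at hj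
    conv_rhs => rw [Finset.sum_comm]
    rw [Complex.ofReal_sum, Finset.mul_sum, Finset.mul_sum]
    refine Finset.sum_congr rfl fun k hk => ?_
    rw [Finset.mem_range] at hk
    rw [← Finset.mul_sum, transfer_orth N hN0 _ (by
      rw [abs_lt]
      constructor <;> omega)]
    by_cases h : n + j = k
    · rw [if_pos h, if_pos (by omega)]
      push_cast
      ring
    · rw [if_neg h, if_neg (by omega)]
      push_cast
      ring
  have hpar := parseval (N := N) (range (2 * Z)) (fun n hn => by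
    have := Finset.mem_range.1 hn
    omega) (fun _ => (1 : ℂ))
  have hsum : ∑ i ∈ range N, ‖∑ j ∈ range (2 * Z), (1 : ℂ) * ee (j * ((i : ℝ) / N))‖ ^ 2 =
      N * (2 * Z) := by
    unfold av at hpar
    rw [div_eq_iff hNr.ne'] at hpar
    rw [hpar]
    simp
    ring
  have hnorm : (N : ℝ) * |∑ n ∈ Icc 1 X, D n * transferF Z n| ≤ N * (δ * (2 * Z)) := by
    have h1 : (N : ℝ) * |∑ n ∈ Icc 1 X, D n * transferF Z n| =
        ‖(N : ℂ) * ((∑ n ∈ Icc 1 X, D n * transferF Z n : ℝ) : ℂ)‖ := by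
      rw [norm_mul, Complex.norm_natCast, Complex.norm_real, Real.norm_eq_abs]
    rw [h1, key]
    calc _ ≤ ∑ i ∈ range N, δ *
          ‖∑ j ∈ range (2 * Z), (1 : ℂ) * ee (j * ((i : ℝ) / N))‖ ^ 2 := by
          refine (norm_sum_le _ _).trans (Finset.sum_le_sum fun i _ => ?_)
          rw [norm_mul, norm_mul, Complex.norm_conj, ← pow_two]
          exact mul_le_mul_of_nonneg_right (h _) (by positivity)
      _ = N * (δ * (2 * Z)) := by
          rw [← Finset.mul_sum, hsum]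
          ring
  exact le_of_mul_le_mul_left hnorm hNr

theorem small_mass (X Z : ℕ) (ξ μ : ℕ → ℝ) (δ M : ℝ) (hξ : ∀ n, 0 ≤ ξ n)
    (hμ : ∀ n ∈ Icc 1 X, |μ n| ≤ M) (hM : 0 ≤ M) (hZ : 1 ≤ Z) (hZX : Z ≤ X)
    (h : ∀ θ : ℝ, ‖∑ n ∈ Icc 1 X, ((ξ n - μ n : ℝ) : ℂ) * ee (n * θ)‖ ≤ δ) :
    ∑ n ∈ Icc 1 Z, ξ n ≤ 2 * δ + 4 * Z * M := by
  have hZr : (0 : ℝ) < Z := by exact_mod_cast hZ
  have hF := transfer_fejer X Z (fun n => ξ n - μ n) δ h
  have hF0 : ∀ n, 0 ≤ transferF Z n := by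
    intro n
    rw [transferF_eq]
    exact Nat.cast_nonneg _
  have hF1 : ∀ n, transferF Z n ≤ 2 * Z := by
    intro n
    rw [transferF_eq]
    have : 2 * Z - n ≤ 2 * Z := Nat.sub_le _ _
    exact_mod_cast this
  -- lower bound
  have h1 : (Z : ℝ) * ∑ n ∈ Icc 1 Z, ξ n ≤ ∑ n ∈ Icc 1 X, ξ n * transferF Z n := by
    rw [Finset.mul_sum]
    refine le_trans (Finset.sum_le_sum (g := fun n => ξ n * transferF Z n) fun n hn => ?_)
      (Finset.sum_le_sum_of_subset_of_nonneg (Finset.Icc_subset_Icc_right hZX)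
        fun n _ _ => mul_nonneg (hξ n) (hF0 n))
    rw [Finset.mem_Icc] at hn
    rw [mul_comm]
    apply mul_le_mul_of_nonneg_left _ (hξ n)
    rw [transferF_eq]
    have : Z ≤ 2 * Z - n := by omega
    exact_mod_cast this
  have h2 : ∑ n ∈ Icc 1 X, ξ n * transferF Z n = ∑ n ∈ Icc 1 X, (ξ n - μ n) * transferF Z n +
      ∑ n ∈ Icc 1 X, μ n * transferF Z n := by
    rw [← Finset.sum_add_distrib]
    refine Finset.sum_congr rfl fun n _ => ?_
    ring
  have h3 : ∑ n ∈ Icc 1 X, μ n * transferF Z n ≤ 2 * Z * (2 * Z * M) := by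
    calc ∑ n ∈ Icc 1 X, μ n * transferF Z n ≤
        ∑ n ∈ Icc 1 X, (if n ≤ 2 * Z then M * (2 * Z) else 0) := by
          refine Finset.sum_le_sum fun n hn => ?_
          split_ifs with hc
          · calc μ n * transferF Z n ≤ |μ n| * transferF Z n :=
                  mul_le_mul_of_nonneg_right (le_abs_self _) (hF0 n)
              _ ≤ M * (2 * Z) := mul_le_mul (hμ n hn) (hF1 n) (hF0 n) hM
          · rw [transferF_eq]
            have : 2 * Z - n = 0 := by omega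
            rw [this, Nat.cast_zero, mul_zero]
      _ = (((Icc 1 X).filter (fun n => n ≤ 2 * Z)).card : ℝ) * (M * (2 * Z)) := by
          rw [← Finset.sum_filter, Finset.sum_const, nsmul_eq_mul]
      _ ≤ 2 * Z * (M * (2 * Z)) := by
          apply mul_le_mul_of_nonneg_right _ (by positivity)
          have h4 : ((Icc 1 X).filter (fun n => n ≤ 2 * Z)).card ≤ 2 * Z := by
            have h5 : (Icc 1 X).filter (fun n => n ≤ 2 * Z) ⊆ Icc 1 (2 * Z) := by
              intro n hn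
              rw [Finset.mem_filter, Finset.mem_Icc] at hn
              rw [Finset.mem_Icc]
              exact ⟨hn.1.1, hn.2⟩
            have h6 := Finset.card_le_card h5
            rwa [Nat.card_Icc, Nat.add_sub_cancel] at h6
          exact_mod_cast h4
      _ = 2 * Z * (2 * Z * M) := by ring
  have h4 : ∑ n ∈ Icc 1 X, (ξ n - μ n) * transferF Z n ≤ δ * (2 * Z) := (le_abs_self _).trans hF
  have h5 : (Z : ℝ) * ∑ n ∈ Icc 1 Z, ξ n ≤ Z * (2 * δ + 4 * Z * M) := by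
    refine h1.trans ?_
    rw [h2]
    refine (add_le_add h4 h3).trans (le_of_eq ?_)
    ring
  exact le_of_mul_le_mul_left h5 hZr

theorem L2_all (Y : ℕ) (u v : ℕ → ℝ) (S : ℝ) (hS : ∀ θ : ℝ, ‖Se Y u θ‖ ≤ S) :
    ∑ n ∈ range (2 * Y + 1), cv Y u v n ^ 2 ≤ S ^ 2 * ∑ n ∈ Icc 1 Y, v n ^ 2 := by
  set N := 2 * Y + 1 with hN
  have hprod : ∀ θ : ℝ, ∑ n ∈ range (2 * Y + 1), (cv Y u v n : ℂ) * ee (n * θ) =
      Se Y u θ * Se Y v θ := by
    intro θ
    unfold Se cv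
    rw [Finset.sum_mul_sum]
    simp only [Complex.ofReal_sum, Finset.sum_mul]
    rw [Finset.sum_comm]
    refine Finset.sum_congr rfl fun m hm => ?_
    rw [Finset.sum_comm]
    refine Finset.sum_congr rfl fun k hk => ?_
    rw [Finset.mem_Icc] at hm hk
    have h1 : ∀ n ∈ range (2 * Y + 1), (((if m + k = n then u m * v k else 0 : ℝ)) : ℂ) *
        ee (n * θ) = if m + k = n then (u m : ℂ) * (v k : ℂ) * ee ((m + k : ℕ) * θ) else 0 := by
      intro n _
      by_cases h : m + k = n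
      · rw [if_pos h, if_pos h, h, Complex.ofReal_mul]
      · rw [if_neg h, if_neg h, Complex.ofReal_zero, zero_mul]
    rw [Finset.sum_congr rfl h1, Finset.sum_ite_eq, if_pos (Finset.mem_range.2 (by omega))]
    have h2 : ((m + k : ℕ) : ℝ) * θ = m * θ + k * θ := by
      push_cast
      ring
    rw [h2, ee_add]
    ring
  have hpar := parseval (N := N) (range (2 * Y + 1)) (fun n hn => Finset.mem_range.1 hn)
    (fun n => (cv Y u v n : ℂ))
  have h1 : ∑ n ∈ range (2 * Y + 1), ‖((cv Y u v n : ℝ) : ℂ)‖ ^ 2 =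
      ∑ n ∈ range (2 * Y + 1), cv Y u v n ^ 2 := by
    refine Finset.sum_congr rfl fun n _ => ?_
    rw [Complex.norm_real, Real.norm_eq_abs, sq_abs]
  rw [h1] at hpar
  rw [hN, ← hpar, ← transfer_parseval N Y (by omega) v, ← av_mul_left]
  apply av_mono
  intro θ
  rw [hprod, norm_mul, mul_pow]
  apply mul_le_mul_of_nonneg_right _ (by positivity)
  exact pow_le_pow_left₀ (norm_nonneg _) (hS θ) 2

end Pool.MP_dd84fd_nt.L2G
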