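import Pool.Agent.Lib.MP_dd84fd_nt.L2G.SupNu
import Pool.Agent.Lib.MP_dd84fd_nt.L2G.Transfer
import Pool.Agent.Lib.MP_dd84fd_nt.L2G.GHL
import Pool.Agent.Lib.MP_dd84fd_nt.L2G.NuNN
import Pool.Agent.Lib.MP_dd84fd_nt.L2G.ModelArith
import Pool.Agent.Lib.MP_dd84fd_nt.L2G.CvBasic

set_option autoImplicit false

namespace Pool.MP_dd84fd_nt.L2G

open Finset Pool.MP_67663b_nt.Odd

private theorem fcl_sq (X R : ℕ) (C1 : ℕ) (hX : 3 ≤ X) (h6 : 8 ≤ Real.log X)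
    (h : ∑ n ∈ Icc 1 X, nu X R 1 n ^ 2 ≤ X * Real.log X ^ C1) (s : ℝ) (hs : s ^ 2 = 1) :
    ∑ n ∈ Icc 1 X, (la X n + s * nu X R 1 n) ^ 2 ≤ X * Real.log X ^ (C1 + 2) := by
  have hX0 : (0 : ℝ) < X := by
    have : 0 < X := by omega
    exact_mod_cast this
  set L := Real.log X with hL
  have hL0 : 0 < L := by linarith
  have h1 : ∑ n ∈ Icc 1 X, (la X n + s * nu X R 1 n) ^ 2 ≤
      ∑ n ∈ Icc 1 X, (2 * la X n ^ 2 + 2 * nu X R 1 n ^ 2) := by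
    refine Finset.sum_le_sum fun n _ => ?_
    have h2 : (s * nu X R 1 n) ^ 2 = nu X R 1 n ^ 2 := by rw [mul_pow, hs, one_mul]
    nlinarith [sq_nonneg (la X n - s * nu X R 1 n)]
  refine h1.trans ?_
  rw [Finset.sum_add_distrib, ← Finset.mul_sum, ← Finset.mul_sum]
  have h2 := sum_la_sq_le X
  have hp : 1 ≤ L ^ C1 := one_le_pow₀ (by linarith)
  have h3 : L ≤ L ^ (C1 + 1) := by
    rw [pow_succ]
    nlinarith
  have h4 : L ^ C1 ≤ L ^ (C1 + 1) := pow_le_pow_right₀ (by linarith) (by omega)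
  have h5 : L ^ (C1 + 2) = L * L ^ (C1 + 1) := by ring
  have h7 : 0 < L ^ (C1 + 1) := by positivity
  calc 2 * ∑ n ∈ Icc 1 X, la X n ^ 2 + 2 * ∑ n ∈ Icc 1 X, nu X R 1 n ^ 2 ≤
      2 * (2 * X * L) + 2 * (X * L ^ C1) := by linarith
    _ ≤ 2 * (2 * X * L ^ (C1 + 1)) + 2 * (X * L ^ (C1 + 1)) := by gcongr
    _ = 6 * (X * L ^ (C1 + 1)) := by ring
    _ ≤ L * (X * L ^ (C1 + 1)) := by
        apply mul_le_mul_of_nonneg_right _ (by positivity)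
        linarith
    _ = X * L ^ (C1 + 2) := by rw [h5]; ring

private theorem fcl_Rm (Y : ℕ) (hY : 1 ≤ Y) : Rm Y ≤ Y := by
  unfold Rm
  have hY1 : (1 : ℝ) ≤ Y := by exact_mod_cast hY
  apply Nat.floor_le_of_le
  calc (Y : ℝ) ^ (1 / 50 : ℝ) ≤ (Y : ℝ) ^ (1 : ℝ) :=
        Real.rpow_le_rpow_of_exponent_le hY1 (by norm_num)
    _ = Y := Real.rpow_one _

private theorem fcl_cv_zero (Y n : ℕ) (u v : ℕ → ℝ) (h : 2 * Y < n) : cv Y u v n = 0 := by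
  unfold cv
  refine Finset.sum_eq_zero fun m hm => Finset.sum_eq_zero fun k hk => ?_
  rw [Finset.mem_Icc] at hm hk
  rw [if_neg (by omega)]

/-- one dyadic block -/
private theorem fcl_block (C1 : ℕ) (hC1 : ∀ X R q : ℕ, 3 ≤ X → R ≤ X → 1 ≤ q → q ≤ X →
    ∑ n ∈ Icc 1 X, nu X R q n ^ 2 ≤ X * Real.log X ^ C1) (ε : ℝ) (hε : 0 < ε) :
    ∃ η : ℝ, 0 < η ∧ ∀ A' : ℕ, ∃ Y0 : ℕ,
    ∀ Y : ℕ, Y0 ≤ Y → ∀ (X a : ℕ) (ξ μ : ℕ → ℝ) (δ M : ℝ), (∀ n, 0 ≤ ξ n) → 0 ≤ M →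
    (∀ n ∈ Icc 1 X, |μ n| ≤ M) → Y ≤ X → Y < 2 * (a + 1) →
    (∀ θ : ℝ, ‖∑ n ∈ Icc 1 X, ((ξ n - μ n : ℝ) : ℂ) * ee (n * θ)‖ ≤ δ) →
    ∑ n ∈ Ioc a Y, (if Even n ∧
      ε * Pool.MP_dd84fd_nt.En.HL n < |(Pool.MP_dd84fd_nt.En.g n : ℝ) -
        Pool.MP_dd84fd_nt.En.HL n| then ξ n else 0) ≤
      16 / η ^ 2 * (δ * Real.log Y ^ (2 * (C1 + 2)) +
        M * Y * Real.log Y ^ (C1 + 2) / Real.log Y ^ (2 * A')) := by
  obtain ⟨η, hη, n0, hn0⟩ := g_HL ε hε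
  refine ⟨η, hη, ?_⟩
  intro A'
  obtain ⟨X1, hX1⟩ := sup_nu A'
  obtain ⟨X2, hX2⟩ := nu_nn
  have hev1 : ∀ᶠ X : ℕ in Filter.atTop, (8 : ℝ) ≤ Real.log X :=
    (Real.tendsto_log_atTop.comp tendsto_natCast_atTop_atTop).eventually_ge_atTop _
  have hev2 : ∀ᶠ X : ℕ in Filter.atTop, (X : ℝ) ^ (-(1 / 300) : ℝ) ≤ η / 4 :=
    tendsto_natCast_atTop_atTop.eventually
      ((tendsto_rpow_neg_atTop (by norm_num : (0 : ℝ) < 1 / 300)).eventually_le_const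
        (by positivity))
  obtain ⟨X3, hX3⟩ := Filter.eventually_atTop.1 (hev1.and hev2)
  refine ⟨max (max X1 X2) (max X3 (max (2 * n0) 3)), ?_⟩
  intro Y hY X a ξ μ δ M hξ hM hμ hYX hYa h
  have hY1 : X1 ≤ Y := ((le_max_left _ _).trans (le_max_left _ _)).trans hY
  have hY2 : X2 ≤ Y := ((le_max_right _ _).trans (le_max_left _ _)).trans hY
  have hY3 : X3 ≤ Y := ((le_max_left _ _).trans (le_max_right _ _)).trans hY
  have hY4 : 2 * n0 ≤ Y :=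
    (((le_max_left _ _).trans (le_max_right _ _)).trans (le_max_right _ _)).trans hY
  have hY5 : 3 ≤ Y :=
    (((le_max_right _ _).trans (le_max_right _ _)).trans (le_max_right _ _)).trans hY
  obtain ⟨hL8, hpow⟩ := hX3 Y hY3
  have hY0 : (0 : ℝ) < Y := by
    have : 0 < Y := by omega
    exact_mod_cast this
  have hYone : (1 : ℝ) ≤ Y := by
    have : 1 ≤ Y := by omega
    exact_mod_cast this
  have hpow' : (Y : ℝ) ^ (1 - 1 / 300 : ℝ) ≤ η / 4 * Y := by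
    have h1 : (Y : ℝ) ^ (1 - 1 / 300 : ℝ) = (Y : ℝ) ^ (-(1 / 300) : ℝ) * Y := by
      have h2 : (1 - 1 / 300 : ℝ) = -(1 / 300) + 1 := by ring
      rw [h2, Real.rpow_add hY0, Real.rpow_one]
    rw [h1]
    exact mul_le_mul_of_nonneg_right hpow hY0.le
  set u : ℕ → ℝ := fun n => la Y n - nu Y (Rm Y) 1 n with hu
  set v : ℕ → ℝ := fun n => la Y n + nu Y (Rm Y) 1 n with hv
  have hδ : 0 ≤ δ := (norm_nonneg _).trans (h 0)
  have hnuL2 := hC1 Y (Rm Y) 1 hY5 (fcl_Rm Y (by omega)) le_rfl (by omega)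
  have hu2 : ∑ n ∈ Icc 1 Y, u n ^ 2 ≤ Y * Real.log Y ^ (C1 + 2) := by
    have h1 := fcl_sq Y (Rm Y) C1 hY5 hL8 hnuL2 (-1) (by norm_num)
    refine le_trans (le_of_eq ?_) h1
    refine Finset.sum_congr rfl fun n _ => ?_
    rw [hu]
    ring
  have hv2 : ∑ n ∈ Icc 1 Y, v n ^ 2 ≤ Y * Real.log Y ^ (C1 + 2) := by
    have h1 := fcl_sq Y (Rm Y) C1 hY5 hL8 hnuL2 1 (by norm_num)
    refine le_trans (le_of_eq ?_) h1
    refine Finset.sum_congr rfl fun n _ => ?_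
    rw [hv]
    ring
  set ℓ := Real.log Y with hℓ
  have hℓ0 : 0 < ℓ := by linarith
  have hS : ∀ θ : ℝ, ‖Se Y u θ‖ ≤ Y / ℓ ^ A' := by
    intro θ
    refine le_trans (le_of_eq ?_) (hX1 Y hY1 θ)
    congr 1
    unfold Se
    rw [← Finset.sum_sub_distrib]
    refine Finset.sum_congr rfl fun n _ => ?_
    rw [hu]
    push_cast
    ring
  have htr := transfer X Y u v (fun n => ξ n - μ n) δ h
  have hall := L2_all Y u v (Y / ℓ ^ A') hS
  have hu0 : 0 ≤ ∑ n ∈ Icc 1 Y, u n ^ 2 := Finset.sum_nonneg fun n _ => sq_nonneg _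
  have hv0 : 0 ≤ ∑ n ∈ Icc 1 Y, v n ^ 2 := Finset.sum_nonneg fun n _ => sq_nonneg _
  -- the second moment with respect to `ξ`
  have hmom : ∑ n ∈ Icc 1 X, ξ n * cv Y u v n ^ 2 ≤
      Y ^ 2 * (δ * ℓ ^ (2 * (C1 + 2)) + M * Y * ℓ ^ (C1 + 2) / ℓ ^ (2 * A')) := by
    have h1 : ∑ n ∈ Icc 1 X, ξ n * cv Y u v n ^ 2 =
        ∑ n ∈ Icc 1 X, (ξ n - μ n) * cv Y u v n ^ 2 + ∑ n ∈ Icc 1 X, μ n * cv Y u v n ^ 2 := by
      rw [← Finset.sum_add_distrib]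
      refine Finset.sum_congr rfl fun n _ => ?_
      ring
    have h2 : ∑ n ∈ Icc 1 X, (ξ n - μ n) * cv Y u v n ^ 2 ≤
        δ * ((Y * ℓ ^ (C1 + 2)) * (Y * ℓ ^ (C1 + 2))) := by
      refine (le_abs_self _).trans (htr.trans ?_)
      apply mul_le_mul_of_nonneg_left _ hδ
      exact mul_le_mul hu2 hv2 hv0 (by positivity)
    have h3 : ∑ n ∈ Icc 1 X, μ n * cv Y u v n ^ 2 ≤
        M * ((Y / ℓ ^ A') ^ 2 * (Y * ℓ ^ (C1 + 2))) := by
      calc ∑ n ∈ Icc 1 X, μ n * cv Y u v n ^ 2 ≤ ∑ n ∈ Icc 1 X, M * cv Y u v n ^ 2 := by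
            refine Finset.sum_le_sum fun n hn => ?_
            exact mul_le_mul_of_nonneg_right ((le_abs_self _).trans (hμ n hn)) (sq_nonneg _)
        _ = M * ∑ n ∈ Icc 1 X, cv Y u v n ^ 2 := by rw [Finset.mul_sum]
        _ ≤ M * ∑ n ∈ range (2 * Y + 1), cv Y u v n ^ 2 := by
            apply mul_le_mul_of_nonneg_left _ hM
            rw [← Finset.sum_filter_add_sum_filter_not (Icc 1 X) (fun n => n ≤ 2 * Y)]
            have h4 : ∑ n ∈ (Icc 1 X).filter (fun n => ¬ n ≤ 2 * Y), cv Y u v n ^ 2 = 0 := by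
              refine Finset.sum_eq_zero fun n hn => ?_
              rw [Finset.mem_filter] at hn
              rw [fcl_cv_zero Y n u v (by omega)]
              norm_num
            rw [h4, add_zero]
            refine Finset.sum_le_sum_of_subset_of_nonneg ?_ fun n _ _ => sq_nonneg _
            intro n hn
            rw [Finset.mem_filter] at hn
            rw [Finset.mem_range]
            omega
        _ ≤ M * ((Y / ℓ ^ A') ^ 2 * (Y * ℓ ^ (C1 + 2))) := by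
            apply mul_le_mul_of_nonneg_left _ hM
            refine hall.trans ?_
            exact mul_le_mul_of_nonneg_left hv2 (by positivity)
    rw [h1]
    refine (add_le_add h2 h3).trans (le_of_eq ?_)
    rw [mul_comm 2 (C1 + 2), pow_mul, mul_comm 2 A', pow_mul]
    field_simp
  -- Chebyshev
  have hcheb : ∑ n ∈ Ioc a Y, (if Even n ∧
      ε * Pool.MP_dd84fd_nt.En.HL n < |(Pool.MP_dd84fd_nt.En.g n : ℝ) -
        Pool.MP_dd84fd_nt.En.HL n| then ξ n else 0) ≤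
      ∑ n ∈ Ioc a Y, 16 / (η ^ 2 * Y ^ 2) * (ξ n * cv Y u v n ^ 2) := by
    refine Finset.sum_le_sum fun n hn => ?_
    rw [Finset.mem_Ioc] at hn
    have hnn : 0 ≤ 16 / (η ^ 2 * (Y : ℝ) ^ 2) * (ξ n * cv Y u v n ^ 2) :=
      mul_nonneg (by positivity) (mul_nonneg (hξ n) (sq_nonneg _))
    split_ifs with hbad
    · obtain ⟨heven, hb⟩ := hbad
      have hn1 : 1 ≤ n := by omega
      have hn2 : n0 ≤ n := by omega
      have hn3 : (Y : ℝ) / 2 ≤ n := by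
        have h1 : Y ≤ 2 * n := by omega
        have h2 : (Y : ℝ) ≤ 2 * n := by exact_mod_cast h1
        linarith
      have h1 : η * n < |Pool.MP_dd84fd_nt.En.rG n - Pool.MP_dd84fd_nt.En.SS n * n| := by
        by_contra hcon
        push Not at hcon
        exact absurd (hn0 n hn2 heven hcon) (not_le.2 hb)
      have h2 := hX2 Y hY2 1 (by
        rw [Nat.cast_one]
        exact Real.one_le_rpow hYone (by norm_num)) n hn1 hn.2 heven
      have h3 : cv Y u v n = Pool.MP_dd84fd_nt.En.rG n - cv Y (nu Y (Rm Y) 1) (nu Y (Rm Y) 1) n := by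
        rw [hu, hv, cv_sub_add, cv_la_rG Y n hn.2]
      have h4 : η * Y / 4 ≤ |cv Y u v n| := by
        rw [h3]
        have h5 : Pool.MP_dd84fd_nt.En.rG n - Pool.MP_dd84fd_nt.En.SS n * n =
            (Pool.MP_dd84fd_nt.En.rG n - cv Y (nu Y (Rm Y) 1) (nu Y (Rm Y) 1) n) +
            (cv Y (nu Y (Rm Y) 1) (nu Y (Rm Y) 1) n - Pool.MP_dd84fd_nt.En.SS n * n) := by ring
        have h6 := abs_add_le
          (Pool.MP_dd84fd_nt.En.rG n - cv Y (nu Y (Rm Y) 1) (nu Y (Rm Y) 1) n)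
          (cv Y (nu Y (Rm Y) 1) (nu Y (Rm Y) 1) n - Pool.MP_dd84fd_nt.En.SS n * n)
        rw [← h5] at h6
        have h7 : η * (Y / 2) ≤ η * n := mul_le_mul_of_nonneg_left hn3 hη.le
        linarith
      have h5 : (η * Y / 4) ^ 2 ≤ cv Y u v n ^ 2 := by
        rw [← sq_abs (cv Y u v n)]
        exact pow_le_pow_left₀ (by positivity) h4 2
      have h6 : 1 ≤ 16 / (η ^ 2 * (Y : ℝ) ^ 2) * cv Y u v n ^ 2 := by
        rw [div_mul_eq_mul_div, one_le_div (by positivity)]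
        nlinarith
      calc ξ n = ξ n * 1 := (mul_one _).symm
        _ ≤ ξ n * (16 / (η ^ 2 * (Y : ℝ) ^ 2) * cv Y u v n ^ 2) :=
            mul_le_mul_of_nonneg_left h6 (hξ n)
        _ = _ := by ring
    · exact hnn
  refine hcheb.trans ?_
  rw [← Finset.mul_sum]
  have h1 : ∑ n ∈ Ioc a Y, ξ n * cv Y u v n ^ 2 ≤ ∑ n ∈ Icc 1 X, ξ n * cv Y u v n ^ 2 := by
    refine Finset.sum_le_sum_of_subset_of_nonneg ?_ fun n _ _ => mul_nonneg (hξ n) (sq_nonneg _)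
    intro n hn
    rw [Finset.mem_Ioc] at hn
    rw [Finset.mem_Icc]
    omega
  calc 16 / (η ^ 2 * (Y : ℝ) ^ 2) * ∑ n ∈ Ioc a Y, ξ n * cv Y u v n ^ 2 ≤
      16 / (η ^ 2 * (Y : ℝ) ^ 2) *
        (Y ^ 2 * (δ * ℓ ^ (2 * (C1 + 2)) + M * Y * ℓ ^ (C1 + 2) / ℓ ^ (2 * A'))) :=
        mul_le_mul_of_nonneg_left (h1.trans hmom) (by positivity)
    _ = _ := by
        field_simp

private theorem fcl_split (F : ℕ → ℝ) (X : ℕ) : ∀ I : ℕ,
    ∑ n ∈ Ioc 0 X, F n = ∑ n ∈ Ioc 0 (X / 2 ^ I), F n +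
      ∑ i ∈ range I, ∑ n ∈ Ioc (X / 2 ^ (i + 1)) (X / 2 ^ i), F n := by
  intro I
  induction I with
  | zero => simp
  | succ I ih =>
    rw [Finset.sum_range_succ, ih]
    have h1 : X / 2 ^ (I + 1) ≤ X / 2 ^ I :=
      Nat.div_le_div_left (Nat.pow_le_pow_right (by norm_num) (by omega)) (by positivity)
    rw [← Finset.sum_Ioc_consecutive F (Nat.zero_le _) h1]
    ring

theorem fourier_close (A : ℕ) : ∃ C : ℕ, ∀ (K : ℕ) (ε : ℝ), 0 < ε → ∃ X0 : ℕ, ∀ X : ℕ, X0 ≤ X →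
    ∀ ξ μ : ℕ → ℝ, (∀ n, 0 ≤ ξ n) → ∑ n ∈ Icc 1 X, ξ n = 1 →
    (∀ n ∈ Icc 1 X, |μ n| ≤ Real.log X ^ K / X) →
    (∀ θ : ℝ, ‖∑ n ∈ Icc 1 X, ((ξ n - μ n : ℝ) : ℂ) * ee (n * θ)‖ ≤ 1 / Real.log X ^ C) →
    ∑ n ∈ (Icc 1 X).filter (fun n => Even n ∧
      ε * Pool.MP_dd84fd_nt.En.HL n < |(Pool.MP_dd84fd_nt.En.g n : ℝ) -
        Pool.MP_dd84fd_nt.En.HL n|), ξ n ≤ 1 / Real.log X ^ A := by
  obtain ⟨C1, hC1⟩ := nu_L2
  refine ⟨A + 2 * (C1 + 2) + 3, ?_⟩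
  intro K ε hε
  obtain ⟨η, hη, hblock⟩ := fcl_block C1 hC1 ε hε
  set A' := K + (C1 + 2) + A + 3 with hA'
  obtain ⟨Y0, hY0⟩ := hblock A'
  have hlog2 : 0 < Real.log 2 := Real.log_pos (by norm_num)
  have hev1 : ∀ᶠ X : ℕ in Filter.atTop, max (8 : ℝ) (32 / η ^ 2 + 6) ≤ Real.log X :=
    (Real.tendsto_log_atTop.comp tendsto_natCast_atTop_atTop).eventually_ge_atTop _
  have hev2 : ∀ᶠ X : ℕ in Filter.atTop, ‖Real.log X ^ ((K + A + 2 : ℕ) : ℝ)‖ ≤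
      1 / 2 * ‖(X : ℝ) ^ (Real.log 2 / 4)‖ :=
    tendsto_natCast_atTop_atTop.eventually
      ((isLittleO_log_rpow_rpow_atTop ((K + A + 2 : ℕ) : ℝ)
        (by positivity : (0 : ℝ) < Real.log 2 / 4)).bound (by positivity))
  have hev3 : ∀ᶠ X : ℕ in Filter.atTop, max 2 (Y0 : ℝ) + 1 ≤ (X : ℝ) ^ (1 / 4 : ℝ) :=
    ((tendsto_rpow_atTop (by norm_num : (0 : ℝ) < 1 / 4)).comp
      tendsto_natCast_atTop_atTop).eventually_ge_atTop _
  obtain ⟨X3, hX3⟩ := Filter.eventually_atTop.1 (hev1.and (hev2.and hev3))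
  refine ⟨max X3 1, ?_⟩
  intro X hX ξ μ hξ hsum hμ h
  have hXX3 : X3 ≤ X := (le_max_left _ _).trans hX
  have hXone : 1 ≤ X := (le_max_right _ _).trans hX
  obtain ⟨hLbig, hL2, hX4⟩ := hX3 X hXX3
  have hX0 : (0 : ℝ) < X := by exact_mod_cast hXone
  have hX1 : (1 : ℝ) ≤ X := by exact_mod_cast hXone
  set L := Real.log X with hL
  have hL8 : 8 ≤ L := (le_max_left _ _).trans hLbig
  have hLη : 32 / η ^ 2 + 6 ≤ L := (le_max_right _ _).trans hLbig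
  have hL0 : 0 < L := by linarith
  rw [Real.rpow_natCast, Real.norm_of_nonneg (pow_nonneg hL0.le _),
    Real.norm_of_nonneg (by positivity)] at hL2
  -- the number of blocks
  set I := ⌊L / 4⌋₊ with hI
  have hI1 : (I : ℝ) ≤ L / 4 := Nat.floor_le (by positivity)
  have hI2 : L / 4 < I + 1 := Nat.lt_floor_add_one _
  have h2I : ((2 : ℝ) ^ I) ≤ (X : ℝ) ^ (1 / 4 : ℝ) := by
    calc ((2 : ℝ) ^ I) ≤ (Real.exp 1) ^ I := by
          apply pow_le_pow_left₀ (by norm_num)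
          have := Real.exp_one_gt_d9
          linarith
      _ = Real.exp I := by rw [← Real.exp_nat_mul, mul_one]
      _ ≤ Real.exp (L / 4) := Real.exp_le_exp.2 hI1
      _ = (X : ℝ) ^ (1 / 4 : ℝ) := by
          rw [Real.rpow_def_of_pos hX0, ← hL]
          congr 1
          ring
  have h2I' : L ^ (K + A + 2) ≤ (2 : ℝ) ^ I := by
    refine hL2.trans ?_
    have h1 : (X : ℝ) ^ (Real.log 2 / 4) = (2 : ℝ) ^ (L / 4) := by
      rw [Real.rpow_def_of_pos hX0, Real.rpow_def_of_pos (by norm_num : (0 : ℝ) < 2), ← hL]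
      congr 1
      ring
    have h2 : (2 : ℝ) ^ (L / 4) ≤ (2 : ℝ) ^ ((I : ℝ) + 1) :=
      Real.rpow_le_rpow_of_exponent_le (by norm_num) hI2.le
    rw [Real.rpow_add (by norm_num), Real.rpow_one, Real.rpow_natCast] at h2
    rw [h1]
    linarith
  have hdiv : ∀ i ≤ I, (X : ℝ) ^ (1 / 4 : ℝ) * (X : ℝ) ^ (1 / 2 : ℝ) ≤ (X : ℝ) / 2 ^ i := by
    intro i hi
    rw [le_div_iff₀ (by positivity)]
    have h1 : (2 : ℝ) ^ i ≤ (X : ℝ) ^ (1 / 4 : ℝ) :=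
      (pow_le_pow_right₀ (by norm_num) hi).trans h2I
    calc (X : ℝ) ^ (1 / 4 : ℝ) * (X : ℝ) ^ (1 / 2 : ℝ) * 2 ^ i ≤
        (X : ℝ) ^ (1 / 4 : ℝ) * (X : ℝ) ^ (1 / 2 : ℝ) * (X : ℝ) ^ (1 / 4 : ℝ) := by gcongr
      _ = X := by
          rw [← Real.rpow_add hX0, ← Real.rpow_add hX0]
          norm_num
  have hhalf : (1 : ℝ) ≤ (X : ℝ) ^ (1 / 2 : ℝ) := Real.one_le_rpow hX1 (by norm_num)
  have hnat : ∀ i ≤ I, (X : ℝ) ^ (1 / 2 : ℝ) ≤ ((X / 2 ^ i : ℕ) : ℝ) ∧ (Y0 ≤ X / 2 ^ i) := by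
    intro i hi
    have h1 : (X : ℝ) / 2 ^ i < ((X / 2 ^ i : ℕ) : ℝ) + 1 := by
      have h2 := Nat.lt_floor_add_one ((X : ℝ) / ((2 ^ i : ℕ) : ℝ))
      rw [Nat.floor_div_eq_div] at h2
      push_cast at h2
      exact_mod_cast h2
    have h3 := hdiv i hi
    have h4 : (2 : ℝ) + 1 ≤ (X : ℝ) ^ (1 / 4 : ℝ) := by
      have := le_max_left (2 : ℝ) Y0
      linarith
    have h5 : (Y0 : ℝ) + 1 ≤ (X : ℝ) ^ (1 / 4 : ℝ) := by
      have := le_max_right (2 : ℝ) Y0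
      linarith
    constructor
    · nlinarith
    · have h6 : (Y0 : ℝ) < ((X / 2 ^ i : ℕ) : ℝ) := by
        have h7 : (X : ℝ) ^ (1 / 4 : ℝ) * 1 ≤ (X : ℝ) ^ (1 / 4 : ℝ) * (X : ℝ) ^ (1 / 2 : ℝ) :=
          mul_le_mul_of_nonneg_left hhalf (by positivity)
        linarith
      exact_mod_cast h6.le
  set M := L ^ K / X with hM
  have hM0 : 0 ≤ M := by positivity
  have hLA : 0 < L ^ (A + 3) := by positivity
  -- one block
  have hone : ∀ i ∈ range I, ∑ n ∈ Ioc (X / 2 ^ (i + 1)) (X / 2 ^ i), (if Even n ∧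
      ε * Pool.MP_dd84fd_nt.En.HL n < |(Pool.MP_dd84fd_nt.En.g n : ℝ) -
        Pool.MP_dd84fd_nt.En.HL n| then ξ n else 0) ≤ 16 / η ^ 2 * (2 / L ^ (A + 3)) := by
    intro i hi
    rw [Finset.mem_range] at hi
    obtain ⟨h1, h2⟩ := hnat i hi.le
    have hYX : X / 2 ^ i ≤ X := Nat.div_le_self _ _
    have hYa : X / 2 ^ i < 2 * (X / 2 ^ (i + 1) + 1) := by
      rw [pow_succ, ← Nat.div_div_eq_div_mul]
      omega
    have h3 := hY0 (X / 2 ^ i) h2 X (X / 2 ^ (i + 1)) ξ μ (1 / L ^ (A + 2 * (C1 + 2) + 3)) M hξ hM0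
      hμ hYX hYa h
    refine h3.trans ?_
    apply mul_le_mul_of_nonneg_left _ (by positivity)
    set Y := X / 2 ^ i with hYdef
    have hYr : (Y : ℝ) ≤ X := by exact_mod_cast hYX
    have hYpos : (0 : ℝ) < Y := by linarith
    have hY1' : (1 : ℝ) ≤ Y := hhalf.trans h1
    have hℓL : Real.log Y ≤ L := Real.log_le_log hYpos hYr
    have hLℓ : L / 2 ≤ Real.log Y := by
      have h4 : Real.log ((X : ℝ) ^ (1 / 2 : ℝ)) ≤ Real.log Y := Real.log_le_log (by positivity) h1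
      rw [Real.log_rpow hX0] at h4
      linarith
    set ℓ := Real.log Y with hℓ
    have hℓ0 : 0 < ℓ := by linarith
    have hMY : M * Y ≤ L ^ K := by
      rw [hM, div_mul_eq_mul_div, div_le_iff₀ hX0]
      exact mul_le_mul_of_nonneg_left hYr (by positivity)
    have h4 : 1 / L ^ (A + 2 * (C1 + 2) + 3) * ℓ ^ (2 * (C1 + 2)) ≤ 1 / L ^ (A + 3) := by
      rw [one_div_mul_eq_div, div_le_div_iff₀ (by positivity) hLA, one_mul]
      calc ℓ ^ (2 * (C1 + 2)) * L ^ (A + 3) ≤ L ^ (2 * (C1 + 2)) * L ^ (A + 3) := by gcongr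
        _ = L ^ (A + 2 * (C1 + 2) + 3) := by
            rw [← pow_add]
            congr 1
            ring
    have h5 : M * Y * ℓ ^ (C1 + 2) / ℓ ^ (2 * A') ≤ 1 / L ^ (A + 3) := by
      have h6 : L ^ A' ≤ ℓ ^ (2 * A') := by
        rw [pow_mul]
        apply pow_le_pow_left₀ hL0.le
        nlinarith
      rw [div_le_div_iff₀ (by positivity) hLA, one_mul]
      calc M * Y * ℓ ^ (C1 + 2) * L ^ (A + 3) ≤ L ^ K * L ^ (C1 + 2) * L ^ (A + 3) := by gcongr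
        _ = L ^ A' := by
            rw [← pow_add, ← pow_add, hA']
            congr 1
        _ ≤ ℓ ^ (2 * A') := h6
    have h6 : (2 : ℝ) / L ^ (A + 3) = 1 / L ^ (A + 3) + 1 / L ^ (A + 3) := by ring
    rw [h6]
    exact add_le_add h4 h5
  -- the small numbers
  have hZ : 1 ≤ X / 2 ^ I := by
    obtain ⟨h1, _⟩ := hnat I le_rfl
    have h2 : (1 : ℝ) ≤ ((X / 2 ^ I : ℕ) : ℝ) := hhalf.trans h1
    exact_mod_cast h2
  have hsmall := small_mass X (X / 2 ^ I) ξ μ (1 / L ^ (A + 2 * (C1 + 2) + 3)) M hξ hμ hM0 hZ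
    (Nat.div_le_self _ _) h
  have hsmall2 : 2 * (1 / L ^ (A + 2 * (C1 + 2) + 3)) + 4 * ((X / 2 ^ I : ℕ) : ℝ) * M ≤
      6 / L ^ (A + 2) := by
    have h1 : 1 / L ^ (A + 2 * (C1 + 2) + 3) ≤ 1 / L ^ (A + 2) := by
      apply one_div_le_one_div_of_le (by positivity)
      exact pow_le_pow_right₀ (by linarith) (by omega)
    have h2 : ((X / 2 ^ I : ℕ) : ℝ) * M ≤ 1 / L ^ (A + 2) := by
      have h3 : ((X / 2 ^ I : ℕ) : ℝ) ≤ X / 2 ^ I := by
        have := Nat.cast_div_le (α := ℝ) (m := X) (n := 2 ^ I)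
        push_cast at this
        exact this
      calc ((X / 2 ^ I : ℕ) : ℝ) * M ≤ X / 2 ^ I * M := mul_le_mul_of_nonneg_right h3 hM0
        _ = L ^ K / 2 ^ I := by
            rw [hM]
            field_simp
        _ ≤ L ^ K / L ^ (K + A + 2) := by
            apply div_le_div_of_nonneg_left (by positivity) (by positivity) h2I'
        _ = 1 / L ^ (A + 2) := by
            rw [add_assoc, pow_add]
            field_simp
    have h3 : (6 : ℝ) / L ^ (A + 2) = 2 * (1 / L ^ (A + 2)) + 4 * (1 / L ^ (A + 2)) := by ring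
    rw [h3]
    have h4 : 4 * ((X / 2 ^ I : ℕ) : ℝ) * M = 4 * (((X / 2 ^ I : ℕ) : ℝ) * M) := by ring
    rw [h4]
    linarith
  -- assembling
  have hIcc : Icc 1 X = Ioc 0 X := by
    ext n
    rw [Finset.mem_Icc, Finset.mem_Ioc]
    omega
  have hIccZ : Icc 1 (X / 2 ^ I) = Ioc 0 (X / 2 ^ I) := by
    ext n
    rw [Finset.mem_Icc, Finset.mem_Ioc]
    omega
  rw [Finset.sum_filter, hIcc, fcl_split _ X I]
  have hfirst : ∑ n ∈ Ioc 0 (X / 2 ^ I), (if Even n ∧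
      ε * Pool.MP_dd84fd_nt.En.HL n < |(Pool.MP_dd84fd_nt.En.g n : ℝ) -
        Pool.MP_dd84fd_nt.En.HL n| then ξ n else 0) ≤ 6 / L ^ (A + 2) := by
    rw [hIccZ] at hsmall
    refine le_trans (Finset.sum_le_sum fun n _ => ?_) (hsmall.trans hsmall2)
    split_ifs
    · exact le_rfl
    · exact hξ n
  have hsecond := Finset.sum_le_sum hone
  rw [Finset.sum_const, Finset.card_range, nsmul_eq_mul] at hsecond
  refine (add_le_add hfirst hsecond).trans ?_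
  have h1 : (I : ℝ) * (16 / η ^ 2 * (2 / L ^ (A + 3))) ≤ 32 / η ^ 2 / L ^ (A + 2) := by
    calc (I : ℝ) * (16 / η ^ 2 * (2 / L ^ (A + 3))) ≤ L * (16 / η ^ 2 * (2 / L ^ (A + 3))) := by
          apply mul_le_mul_of_nonneg_right _ (by positivity)
          linarith
      _ = 32 / η ^ 2 / L ^ (A + 2) := by
          have h2 : L ^ (A + 3) = L * L ^ (A + 2) := by ring
          rw [h2]
          field_simp
          ring
  refine (add_le_add le_rfl h1).trans ?_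
  rw [← add_div, div_le_div_iff₀ (by positivity) (by positivity), one_mul]
  have h2 : L ^ (A + 2) = L ^ A * (L * L) := by ring
  rw [h2, mul_comm]
  apply mul_le_mul_of_nonneg_left _ (by positivity)
  nlinarith

end Pool.MP_dd84fd_nt.L2G
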