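import Pool.Agent.Lib.MP_dd84fd_nt.L2G.Defs
import Pool.Agent.Lib.MP_67663b_nt.OddB.Mert

set_option autoImplicit false

namespace Pool.MP_dd84fd_nt.L2G

open Finset Pool.MP_67663b_nt.Odd

private theorem ml2_ratio (W : ℕ) (hW : 1 ≤ W) :
    (W : ℝ) / (Nat.totient W : ℝ) = ∏ p ∈ W.primeFactors, (1 - (p : ℝ)⁻¹)⁻¹ := by
  have h1 : ((Nat.totient W : ℚ) : ℝ) = (((W : ℚ) * ∏ p ∈ W.primeFactors, (1 - (p : ℚ)⁻¹) : ℚ) : ℝ) := by
    rw [Nat.totient_eq_mul_prod_factors]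
  push_cast at h1
  have hW' : (W : ℝ) ≠ 0 := by
    have : 0 < W := hW
    positivity
  have hpos : ∀ p ∈ W.primeFactors, 0 < 1 - (p : ℝ)⁻¹ := by
    intro p hp
    have h2 : (2 : ℝ) ≤ p := by exact_mod_cast (Nat.prime_of_mem_primeFactors hp).two_le
    have h3 : (p : ℝ)⁻¹ < 1 := inv_lt_one_of_one_lt₀ (by linarith)
    linarith
  have hP : 0 < ∏ p ∈ W.primeFactors, (1 - (p : ℝ)⁻¹) := prod_pos hpos
  rw [h1, prod_inv_distrib]
  field_simp

theorem lw_rad (W X n : ℕ) (hW : 1 ≤ W) : lw W X n = lw (∏ p ∈ W.primeFactors, p) X n := by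
  have h1 : (1 : ℕ) ≤ ∏ p ∈ W.primeFactors, p :=
    Nat.one_le_iff_ne_zero.mpr (prod_ne_zero_iff.mpr fun p hp => (Nat.prime_of_mem_primeFactors hp).ne_zero)
  have h2 : (∏ p ∈ W.primeFactors, p).primeFactors = W.primeFactors :=
    Nat.primeFactors_prod_primeFactors W
  have h3 : Nat.Coprime n W ↔ Nat.Coprime n (∏ p ∈ W.primeFactors, p) := by
    rw [Nat.coprime_prod_right_iff]
    constructor
    · intro h p hp
      exact Nat.Coprime.coprime_dvd_right (Nat.dvd_of_mem_primeFactors hp) h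
    · intro h
      rw [Nat.coprime_iff_gcd_eq_one]
      by_contra hne
      obtain ⟨p, hp, hd⟩ := Nat.exists_prime_and_dvd hne
      have hpn := hd.trans (Nat.gcd_dvd_left _ _)
      have hpW := hd.trans (Nat.gcd_dvd_right _ _)
      have hmem : p ∈ W.primeFactors := Nat.mem_primeFactors.mpr ⟨hp, hpW, by omega⟩
      have := h p hmem
      rw [Nat.Prime.coprime_iff_not_dvd hp |> fun q => (Nat.coprime_comm.trans q)] at this
      exact this hpn
  unfold lw
  rw [ml2_ratio W hW, ml2_ratio _ h1, h2]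
  exact if_congr (and_congr_right fun _ => and_congr_right fun _ => h3) rfl rfl

private theorem ml2_primeFactors (w : ℕ) : w.factorial.primeFactors = Nat.primesLE w := by
  ext p
  rw [Nat.mem_primeFactors, Nat.mem_primesLE]
  constructor
  · rintro ⟨hp, hd, -⟩
    exact ⟨(hp.dvd_factorial).1 hd, hp⟩
  · rintro ⟨h1, hp⟩
    exact ⟨hp, (hp.dvd_factorial).2 h1, Nat.factorial_ne_zero w⟩

private theorem ml2_sum_pp (w : ℕ) :
    ∑ p ∈ Nat.primesLE w, (1 : ℝ) / (p * (p - 1)) ≤ 1 := by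
  have h6 : ∑ p ∈ Nat.primesLE w, (1 : ℝ) / (p * (p - 1)) ≤
      ∑ k ∈ Ico 2 (w + 2), (1 : ℝ) / (k * (k - 1)) := by
    refine sum_le_sum_of_subset_of_nonneg ?_ ?_
    · intro p hp
      rw [Nat.mem_primesLE] at hp
      rw [mem_Ico]
      exact ⟨hp.2.two_le, by omega⟩
    · intro k hk _
      have h7 : (2 : ℝ) ≤ k := by exact_mod_cast (mem_Ico.1 hk).1
      have h8 : (0 : ℝ) ≤ k - 1 := by linarith
      positivity
  refine h6.trans ((Pool.MP_67663b_nt.Mert.sum_tail w).trans ?_)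
  have : (0 : ℝ) ≤ 1 / ((w : ℝ) + 1) := by positivity
  linarith

theorem ratio_le : ∃ C : ℝ, 0 < C ∧ ∀ w : ℕ, 2 ≤ w →
    (w.factorial : ℝ) / (Nat.totient w.factorial : ℝ) ≤ C * Real.log w := by
  refine ⟨Real.exp 7 * (2 / Real.log 2), by
    have : 0 < Real.log 2 := Real.log_pos (by norm_num)
    positivity, ?_⟩
  intro w hw
  have hl2 : 0 < Real.log 2 := Real.log_pos (by norm_num)
  have hwr : (2 : ℝ) ≤ w := by exact_mod_cast hw
  have hlw : Real.log 2 ≤ Real.log w := Real.log_le_log (by norm_num) hwr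
  rw [ml2_ratio _ (Nat.one_le_iff_ne_zero.mpr (Nat.factorial_ne_zero w)), ml2_primeFactors]
  set J := Nat.clog 2 w with hJ
  have hJ1 : 1 ≤ J := Nat.clog_pos (by norm_num) hw
  have hwJ : w ≤ 2 ^ J := Nat.le_pow_clog (by norm_num) w
  have hJw : 2 ^ (J - 1) < w := Nat.pow_pred_clog_lt_self (by norm_num) hw
  have hJr : (J : ℝ) ≤ 2 / Real.log 2 * Real.log w := by
    have h1 : ((2 : ℝ) ^ (J - 1)) ≤ w := by exact_mod_cast hJw.le
    have h2 : Real.log ((2 : ℝ) ^ (J - 1)) ≤ Real.log w := Real.log_le_log (by positivity) h1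
    rw [Real.log_pow] at h2
    have h3 : ((J - 1 : ℕ) : ℝ) = J - 1 := by
      rw [Nat.cast_sub hJ1]; simp
    rw [h3] at h2
    have h4 : (J : ℝ) * Real.log 2 ≤ 2 * Real.log w := by nlinarith
    rw [div_mul_eq_mul_div, le_div_iff₀ hl2]
    exact h4
  have hJr' : (1 : ℝ) ≤ J := by exact_mod_cast hJ1
  have hpos : ∀ p ∈ Nat.primesLE w, 0 < 1 - (p : ℝ)⁻¹ := by
    intro p hp
    rw [Nat.mem_primesLE] at hp
    have h2 : (2 : ℝ) ≤ p := by exact_mod_cast hp.2.two_le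
    have h3 : (p : ℝ)⁻¹ < 1 := inv_lt_one_of_one_lt₀ (by linarith)
    linarith
  have h3 : ∀ p ∈ Nat.primesLE w, (1 - (p : ℝ)⁻¹)⁻¹ ≤
      Real.exp ((1 : ℝ) / p + 1 / (p * (p - 1))) := by
    intro p hp
    have hp' := hp
    rw [Nat.mem_primesLE] at hp'
    have h4 : (2 : ℝ) ≤ p := by exact_mod_cast hp'.2.two_le
    have h6 : (p : ℝ) ≠ 0 := by linarith
    have h7 : (p : ℝ) - 1 ≠ 0 := by
      have : (0 : ℝ) < p - 1 := by linarith
      exact this.ne'
    have h8 : (1 - (p : ℝ)⁻¹)⁻¹ = ((1 : ℝ) / p + 1 / (p * (p - 1))) + 1 := by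
      have h9 : (1 - (p : ℝ)⁻¹) = (p - 1) / p := by field_simp
      rw [h9, inv_div]
      field_simp
      ring
    rw [h8]
    exact Real.add_one_le_exp _
  calc ∏ p ∈ Nat.primesLE w, (1 - (p : ℝ)⁻¹)⁻¹
      ≤ ∏ p ∈ Nat.primesLE w, Real.exp ((1 : ℝ) / p + 1 / (p * (p - 1))) :=
        prod_le_prod (fun p hp => (inv_pos.2 (hpos p hp)).le) h3
    _ = Real.exp (∑ p ∈ Nat.primesLE w, ((1 : ℝ) / p + 1 / (p * (p - 1)))) := by
        rw [Real.exp_sum]
    _ ≤ Real.exp (Real.log J + 7) := by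
        apply Real.exp_le_exp.mpr
        rw [sum_add_distrib]
        have h5 := ml2_sum_pp w
        have h6 : ∑ p ∈ Nat.primesLE w, (1 : ℝ) / p ≤ Pool.MP_67663b_nt.Mert.R J := by
          unfold Pool.MP_67663b_nt.Mert.R
          refine sum_le_sum_of_subset_of_nonneg ?_ (fun p _ _ => by positivity)
          intro p hp
          rw [Nat.mem_primesLE] at hp ⊢
          exact ⟨hp.1.trans hwJ, hp.2⟩
        have h7 := Pool.MP_67663b_nt.Mert.R_le J hJ1
        linarith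
    _ = Real.exp 7 * J := by
        rw [Real.exp_add, Real.exp_log (by linarith)]
        ring
    _ ≤ Real.exp 7 * (2 / Real.log 2 * Real.log w) := by
        gcongr
    _ = _ := by ring

theorem lw_L2 : ∃ C : ℝ, 0 < C ∧ ∀ w : ℕ, 2 ≤ w → ∃ X0 : ℕ, ∀ X : ℕ, X0 ≤ X →
    ∑ n ∈ Icc 1 X, lw w.factorial X n ^ 2 ≤ C * Real.log w * X := by
  obtain ⟨C, hC, h⟩ := ratio_le
  refine ⟨2 * C, by positivity, ?_⟩
  intro w hw
  refine ⟨w.factorial, ?_⟩
  intro X hX
  set W := w.factorial with hWdef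
  have hW : 1 ≤ W := Nat.one_le_iff_ne_zero.mpr (Nat.factorial_ne_zero w)
  have hWr : (0 : ℝ) < W := by exact_mod_cast hW
  have hφ : (0 : ℝ) < Nat.totient W := by exact_mod_cast Nat.totient_pos.mpr hW
  have hXr : (W : ℝ) ≤ X := by exact_mod_cast hX
  have hratio := h w hw
  have h1 : ∑ n ∈ Icc 1 X, lw W X n ^ 2 =
      ((Icc 1 X).filter (fun n => Nat.Coprime W n)).card * ((W : ℝ) / Nat.totient W) ^ 2 := by
    rw [card_filter, Nat.cast_sum, sum_mul]
    refine sum_congr rfl fun n hn => ?_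
    rw [mem_Icc] at hn
    unfold lw
    by_cases hc : Nat.Coprime n W
    · rw [if_pos ⟨hn.1, hn.2, hc⟩, if_pos (Nat.coprime_comm.mp hc)]
      simp
    · rw [if_neg (fun hh => hc hh.2.2), if_neg (fun hh => hc (Nat.coprime_comm.mp hh))]
      simp
  have h2 : (((Icc 1 X).filter (fun n => Nat.Coprime W n)).card : ℝ) ≤ Nat.totient W * (X / W + 1) := by
    have h3 := Nat.Ico_filter_coprime_le (a := W) 1 X (by omega)
    have h4 : Icc 1 X = Ico 1 (1 + X) := by
      ext n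
      simp only [mem_Icc, mem_Ico]
      omega
    rw [h4]
    have h5 : ((#{x ∈ Ico 1 (1 + X) | W.Coprime x} : ℕ) : ℝ) ≤
        ((Nat.totient W * (X / W + 1) : ℕ) : ℝ) := by exact_mod_cast h3
    refine h5.trans ?_
    push_cast
    gcongr
    exact Nat.cast_div_le
  rw [h1]
  have hX0 : (0 : ℝ) ≤ X := by positivity
  calc (((Icc 1 X).filter (fun n => Nat.Coprime W n)).card : ℝ) * ((W : ℝ) / Nat.totient W) ^ 2
      ≤ Nat.totient W * (X / W + 1) * ((W : ℝ) / Nat.totient W) ^ 2 := by gcongr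
    _ = ((W : ℝ) / Nat.totient W) * (X + W) := by
        field_simp
    _ ≤ ((W : ℝ) / Nat.totient W) * (2 * X) := by
        gcongr
        linarith
    _ ≤ (C * Real.log w) * (2 * X) := by gcongr
    _ = _ := by ring

end Pool.MP_dd84fd_nt.L2G
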