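import Pool.Agent.Lib.MP_dd84fd_nt.L2G.Avg
import Pool.Agent.Lib.MP_dd84fd_nt.L2G.CvBasic
import Pool.Agent.Lib.MP_dd84fd_nt.L2G.ModelL2
import Pool.Agent.Lib.MP_dd84fd_nt.L2G.ArcL2
import Pool.Agent.Lib.MP_dd84fd_nt.L2G.FarL
import Pool.Agent.Lib.MP_dd84fd_nt.L2G.FarC

set_option autoImplicit false

namespace Pool.MP_dd84fd_nt.L2G

open Finset Pool.MP_67663b_nt.Odd

private theorem uvsums_add (a b : ℂ) : ‖a + b‖ ^ 2 ≤ 2 * ‖a‖ ^ 2 + 2 * ‖b‖ ^ 2 := by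
  have h1 : ‖a + b‖ ≤ ‖a‖ + ‖b‖ := norm_add_le a b
  have h2 : ‖a + b‖ ^ 2 ≤ (‖a‖ + ‖b‖) ^ 2 := pow_le_pow_left₀ (norm_nonneg _) h1 2
  nlinarith [sq_nonneg (‖a‖ - ‖b‖)]

private theorem uvsums_sub (a b : ℂ) : ‖a - b‖ ^ 2 ≤ 2 * ‖a‖ ^ 2 + 2 * ‖b‖ ^ 2 := by
  have := uvsums_add a (-b)
  rwa [norm_neg, ← sub_eq_add_neg] at this

private theorem uvsums_U (W X : ℕ) (θ : ℝ) :
    ‖UH W X θ‖ ^ 2 ≤ 2 * ‖LH X θ‖ ^ 2 + 2 * ‖WH W X θ‖ ^ 2 := uvsums_sub _ _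

private theorem uvsums_V (W X : ℕ) (θ : ℝ) :
    ‖VH W X θ‖ ^ 2 ≤ 2 * ‖LH X θ‖ ^ 2 + 2 * ‖WH W X θ‖ ^ 2 := uvsums_add _ _

private theorem uvsums_avL (X : ℕ) :
    av (gr X) (fun θ => ‖LH X θ‖ ^ 2) ≤ 2 * X * Real.log X := by
  have := av_Se X (la X)
  unfold LH
  rw [this]
  exact sum_la_sq_le X

private theorem uvsums_avW (W X : ℕ) :
    av (gr X) (fun θ => ‖WH W X θ‖ ^ 2) = ∑ n ∈ Icc 1 X, lw W X n ^ 2 := av_Se X (lw W X)

private theorem uvsums_comb {N : ℕ} {f g h : ℝ → ℝ}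
    (H : ∀ θ, f θ ≤ 2 * g θ + 2 * h θ) : av N f ≤ 2 * av N g + 2 * av N h := by
  refine (av_mono H).trans (le_of_eq ?_)
  rw [av_add N (fun θ => 2 * g θ) (fun θ => 2 * h θ), av_mul_left, av_mul_left]

theorem uv_L2 : ∃ C : ℝ, 0 < C ∧ ∀ w : ℕ, 2 ≤ w → ∃ X0 : ℕ, ∀ X : ℕ, X0 ≤ X →
    av (gr X) (fun θ => ‖UH w.factorial X θ‖ ^ 2) ≤ C * X * Real.log X ∧
    av (gr X) (fun θ => ‖VH w.factorial X θ‖ ^ 2) ≤ C * X * Real.log X := by
  obtain ⟨C1, hC1, h1⟩ := lw_L2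
  refine ⟨4 + 2 * C1, by positivity, fun w hw => ?_⟩
  obtain ⟨X0, hX0⟩ := h1 w hw
  refine ⟨max X0 w, fun X hX => ?_⟩
  have hw0 : (0 : ℝ) < w := by exact_mod_cast (by omega : 0 < w)
  have hwX : Real.log w ≤ Real.log X :=
    Real.log_le_log hw0 (by exact_mod_cast (le_max_right _ _).trans hX)
  have hL := uvsums_avL X
  have hW : av (gr X) (fun θ => ‖WH w.factorial X θ‖ ^ 2) ≤ C1 * X * Real.log X := by
    rw [uvsums_avW]
    refine (hX0 X ((le_max_left _ _).trans hX)).trans ?_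
    calc C1 * Real.log w * X ≤ C1 * Real.log X * X :=
          mul_le_mul_of_nonneg_right (mul_le_mul_of_nonneg_left hwX hC1.le) (Nat.cast_nonneg X)
      _ = C1 * X * Real.log X := by ring
  have key : 2 * av (gr X) (fun θ => ‖LH X θ‖ ^ 2) +
      2 * av (gr X) (fun θ => ‖WH w.factorial X θ‖ ^ 2) ≤ (4 + 2 * C1) * X * Real.log X := by
    calc _ ≤ 2 * (2 * X * Real.log X) + 2 * (C1 * X * Real.log X) := by linarith
      _ = (4 + 2 * C1) * X * Real.log X := by ring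
  exact ⟨(uvsums_comb (uvsums_U _ X)).trans key, (uvsums_comb (uvsums_V _ X)).trans key⟩

theorem uv_arc : ∃ C : ℝ, 0 < C ∧ ∀ w : ℕ, 2 ≤ w → ∀ B0 : ℕ, ∃ X0 : ℕ, ∀ X : ℕ, X0 ≤ X →
    ∀ (R : ℕ) (δ : ℝ), 1 ≤ R → (R : ℝ) ≤ Real.log X ^ B0 → 0 ≤ δ → δ ≤ Real.log X ^ B0 / X →
    av (gr X) ((Arc R δ).indicator (fun θ => ‖UH w.factorial X θ‖ ^ 2)) ≤
      C * X * (1 + Real.log R + Real.log w) ∧
    av (gr X) ((Arc R δ).indicator (fun θ => ‖VH w.factorial X θ‖ ^ 2)) ≤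
      C * X * (1 + Real.log R + Real.log w) := by
  obtain ⟨C1, hC1, h1⟩ := lw_L2
  obtain ⟨C2, hC2, h2⟩ := arc_L2
  refine ⟨2 * C2 + 2 * C1, by positivity, fun w hw B0 => ?_⟩
  obtain ⟨X0, hX0⟩ := h1 w hw
  obtain ⟨X1, hX1⟩ := h2 B0
  refine ⟨max X0 X1, fun X hX R δ hR hRB hδ hδB => ?_⟩
  have hlw : 0 ≤ Real.log w := Real.log_natCast_nonneg w
  have hlR : 0 ≤ Real.log R := Real.log_natCast_nonneg R
  have hX0' : (0 : ℝ) ≤ X := Nat.cast_nonneg X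
  have hL := hX1 X ((le_max_right _ _).trans hX) R δ hR hRB hδ hδB
  have hW : av (gr X) ((Arc R δ).indicator (fun θ => ‖WH w.factorial X θ‖ ^ 2)) ≤
      C1 * Real.log w * X := by
    refine le_trans (av_mono fun θ => ?_) ((uvsums_avW _ X).le.trans
      (hX0 X ((le_max_left _ _).trans hX)))
    exact Set.indicator_le_self' (fun _ _ => by positivity) θ
  have key : 2 * av (gr X) ((Arc R δ).indicator (fun θ => ‖LH X θ‖ ^ 2)) +
      2 * av (gr X) ((Arc R δ).indicator (fun θ => ‖WH w.factorial X θ‖ ^ 2)) ≤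
      (2 * C2 + 2 * C1) * X * (1 + Real.log R + Real.log w) := by
    have e1 : C2 * X * (1 + Real.log R) ≤ C2 * X * (1 + Real.log R + Real.log w) :=
      mul_le_mul_of_nonneg_left (by linarith) (by positivity)
    have e2 : C1 * Real.log w * X ≤ C1 * X * (1 + Real.log R + Real.log w) := by
      calc C1 * Real.log w * X = C1 * X * Real.log w := by ring
        _ ≤ C1 * X * (1 + Real.log R + Real.log w) :=
          mul_le_mul_of_nonneg_left (by linarith) (by positivity)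
    calc _ ≤ 2 * (C2 * X * (1 + Real.log R + Real.log w)) +
          2 * (C1 * X * (1 + Real.log R + Real.log w)) := by linarith
      _ = _ := by ring
  have comb : ∀ f : ℝ → ℝ, (∀ θ, f θ ≤ 2 * ‖LH X θ‖ ^ 2 + 2 * ‖WH w.factorial X θ‖ ^ 2) →
      av (gr X) ((Arc R δ).indicator f) ≤
      2 * av (gr X) ((Arc R δ).indicator (fun θ => ‖LH X θ‖ ^ 2)) +
      2 * av (gr X) ((Arc R δ).indicator (fun θ => ‖WH w.factorial X θ‖ ^ 2)) := by
    intro f hf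
    apply uvsums_comb
    intro θ
    by_cases hθ : θ ∈ Arc R δ
    · simp only [Set.indicator_of_mem hθ]; exact hf θ
    · simp only [Set.indicator_of_notMem hθ]; norm_num
  exact ⟨(comb _ (uvsums_U _ X)).trans key, (comb _ (uvsums_V _ X)).trans key⟩

private theorem uvsums_Vst (W X : ℕ) (d : ℕ) (θ : ℝ) :
    Vst (VH W X) d θ ≤ 2 * Vst (LH X) d θ + 2 * Vst (WH W X) d θ := by
  unfold Vst
  rw [Finset.mul_sum, Finset.mul_sum, ← Finset.sum_add_distrib]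
  exact Finset.sum_le_sum fun b _ => uvsums_V W X _

private theorem uvsums_logpow (B0 : ℕ) : ∃ X0 : ℕ, 1 ≤ X0 ∧ ∀ X : ℕ, X0 ≤ X →
    4 * (Real.log X ^ B0) ^ 2 ≤ X := by
  have h := (Real.isLittleO_pow_log_id_atTop (n := B0 * 2)).bound (by norm_num : (0 : ℝ) < 1 / 4)
  obtain ⟨x0, hx0⟩ := Filter.eventually_atTop.mp h
  refine ⟨max ⌈x0⌉₊ 1, le_max_right _ _, fun X hX => ?_⟩
  have hX1 : x0 ≤ X := (Nat.le_ceil x0).trans (by exact_mod_cast (le_max_left _ _).trans hX)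
  have h2 := hx0 X hX1
  rw [Real.norm_eq_abs, abs_pow, id, Real.norm_eq_abs, Nat.abs_cast,
    abs_of_nonneg (Real.log_natCast_nonneg X), pow_mul] at h2
  linarith

theorem v_far : ∃ C : ℝ, 0 < C ∧ ∀ w : ℕ, 2 ≤ w → ∀ B0 : ℕ, ∃ X0 : ℕ, ∀ X : ℕ, X0 ≤ X →
    ∀ R : ℕ, 1 ≤ R → (R : ℝ) ≤ Real.log X ^ B0 → ∀ θ : ℝ,
    ∑ d ∈ Ico R (2 * R), Vst (VH w.factorial X) d θ ≤
      C * X ^ 2 * (1 + Real.log R + Real.log w) := by
  obtain ⟨C1, hC1, h1⟩ := lw_L2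
  obtain ⟨C2, hC2, h2⟩ := far_L
  refine ⟨2 * C2 + 2 * (1 + 4 * Real.pi) * C1, by positivity, fun w hw B0 => ?_⟩
  obtain ⟨X0, hX0⟩ := h1 w hw
  obtain ⟨X1, hX1⟩ := h2 B0
  obtain ⟨X2, hX21, hX2⟩ := uvsums_logpow B0
  refine ⟨max X0 (max X1 X2), fun X hX R hR hRB θ => ?_⟩
  have hXX0 : X0 ≤ X := (le_max_left _ _).trans hX
  have hXX1 : X1 ≤ X := (le_max_left _ _).trans ((le_max_right _ _).trans hX)
  have hXX2 : X2 ≤ X := (le_max_right _ _).trans ((le_max_right _ _).trans hX)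
  have hXge1 : 1 ≤ X := hX21.trans hXX2
  have hlw : 0 ≤ Real.log w := Real.log_natCast_nonneg w
  have hlR : 0 ≤ Real.log R := Real.log_natCast_nonneg R
  have hL := hX1 X hXX1 R hR hRB θ
  have hW := far_C X R hXge1 hR (lw w.factorial X) θ
  have hsum := hX0 X hXX0
  have hR2 : 4 * (R : ℝ) ^ 2 ≤ X := by
    refine le_trans ?_ (hX2 X hXX2)
    have : (R : ℝ) ^ 2 ≤ (Real.log X ^ B0) ^ 2 := pow_le_pow_left₀ (Nat.cast_nonneg R) hRB 2
    linarith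
  have hpi : 0 < Real.pi := Real.pi_pos
  have hXnn : (0 : ℝ) ≤ X := Nat.cast_nonneg X
  have hW' : ∑ d ∈ Ico R (2 * R), Vst (WH w.factorial X) d θ ≤
      (1 + 4 * Real.pi) * C1 * X ^ 2 * Real.log w := by
    refine hW.trans ?_
    calc (4 * (R : ℝ) ^ 2 + 4 * Real.pi * X) * ∑ n ∈ Icc 1 X, lw w.factorial X n ^ 2
        ≤ (X + 4 * Real.pi * X) * (C1 * Real.log w * X) := by
          apply mul_le_mul (by linarith) hsum (Finset.sum_nonneg fun _ _ => sq_nonneg _)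
            (by positivity)
      _ = (1 + 4 * Real.pi) * C1 * X ^ 2 * Real.log w := by ring
  calc ∑ d ∈ Ico R (2 * R), Vst (VH w.factorial X) d θ
      ≤ ∑ d ∈ Ico R (2 * R), (2 * Vst (LH X) d θ + 2 * Vst (WH w.factorial X) d θ) :=
        Finset.sum_le_sum fun d _ => uvsums_Vst _ X d θ
    _ = 2 * ∑ d ∈ Ico R (2 * R), Vst (LH X) d θ +
        2 * ∑ d ∈ Ico R (2 * R), Vst (WH w.factorial X) d θ := by
        rw [Finset.sum_add_distrib, ← Finset.mul_sum, ← Finset.mul_sum]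
    _ ≤ 2 * (C2 * X ^ 2 * (1 + Real.log R)) +
        2 * ((1 + 4 * Real.pi) * C1 * X ^ 2 * Real.log w) := by linarith
    _ ≤ (2 * C2 + 2 * (1 + 4 * Real.pi) * C1) * X ^ 2 * (1 + Real.log R + Real.log w) := by
        have e1 : 0 ≤ C2 * X ^ 2 * Real.log w := by positivity
        have e2 : 0 ≤ (1 + 4 * Real.pi) * C1 * X ^ 2 * (1 + Real.log R) := by positivity
        linarith

theorem v_far_big : ∃ C : ℝ, 0 < C ∧ ∀ w : ℕ, 2 ≤ w → ∃ X0 : ℕ, ∀ X : ℕ, X0 ≤ X →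
    ∀ R : ℕ, 1 ≤ R → ∀ θ : ℝ,
    ∑ d ∈ Ico R (2 * R), Vst (VH w.factorial X) d θ ≤
      C * (R ^ 2 + X) * (X * Real.log X) := by
  obtain ⟨C1, hC1, h1⟩ := lw_L2
  refine ⟨(4 + 4 * Real.pi) * (4 + 2 * C1), by positivity, fun w hw => ?_⟩
  obtain ⟨X0, hX0⟩ := h1 w hw
  refine ⟨max X0 w, fun X hX R hR θ => ?_⟩
  have hw0 : (0 : ℝ) < w := by exact_mod_cast (by omega : 0 < w)
  have hwX' : w ≤ X := (le_max_right _ _).trans hX
  have hwX : Real.log w ≤ Real.log X := Real.log_le_log hw0 (by exact_mod_cast hwX')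
  have hpi : 0 < Real.pi := Real.pi_pos
  have hXnn : (0 : ℝ) ≤ X := Nat.cast_nonneg X
  have hfun : VH w.factorial X = Se X (fun m => la X m + lw w.factorial X m) := by
    funext θ; exact VH_eq _ X θ
  rw [hfun]
  refine (far_C X R (by omega) hR _ θ).trans ?_
  have hs : ∑ n ∈ Icc 1 X, (la X n + lw w.factorial X n) ^ 2 ≤
      (4 + 2 * C1) * (X * Real.log X) := by
    calc ∑ n ∈ Icc 1 X, (la X n + lw w.factorial X n) ^ 2
        ≤ ∑ n ∈ Icc 1 X, (2 * la X n ^ 2 + 2 * lw w.factorial X n ^ 2) := by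
          refine Finset.sum_le_sum fun n _ => ?_
          nlinarith [sq_nonneg (la X n - lw w.factorial X n)]
      _ = 2 * ∑ n ∈ Icc 1 X, la X n ^ 2 + 2 * ∑ n ∈ Icc 1 X, lw w.factorial X n ^ 2 := by
          rw [Finset.sum_add_distrib, ← Finset.mul_sum, ← Finset.mul_sum]
      _ ≤ 2 * (2 * X * Real.log X) + 2 * (C1 * Real.log X * X) := by
          have e1 := sum_la_sq_le X
          have e2 := hX0 X ((le_max_left _ _).trans hX)
          have e3 : C1 * Real.log w * X ≤ C1 * Real.log X * X :=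
            mul_le_mul_of_nonneg_right (mul_le_mul_of_nonneg_left hwX hC1.le) hXnn
          linarith
      _ = (4 + 2 * C1) * (X * Real.log X) := by ring
  have hcoef : 4 * (R : ℝ) ^ 2 + 4 * Real.pi * X ≤ (4 + 4 * Real.pi) * ((R : ℝ) ^ 2 + X) := by
    have e1 : 0 ≤ 4 * Real.pi * (R : ℝ) ^ 2 := by positivity
    nlinarith
  have hlX : 0 ≤ Real.log X := Real.log_natCast_nonneg X
  calc (4 * (R : ℝ) ^ 2 + 4 * Real.pi * X) * ∑ n ∈ Icc 1 X, (la X n + lw w.factorial X n) ^ 2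
      ≤ ((4 + 4 * Real.pi) * ((R : ℝ) ^ 2 + X)) * ((4 + 2 * C1) * (X * Real.log X)) :=
        mul_le_mul hcoef hs (Finset.sum_nonneg fun _ _ => sq_nonneg _) (by positivity)
    _ = (4 + 4 * Real.pi) * (4 + 2 * C1) * ((R : ℝ) ^ 2 + X) * (X * Real.log X) := by ring

end Pool.MP_dd84fd_nt.L2G
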