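import Pool.Agent.Lib.MP_dd84fd_nt.L2G.SupU
import Pool.Agent.Lib.MP_dd84fd_nt.L2G.UVsums
import Pool.Agent.Lib.MP_dd84fd_nt.L2G.ArcGeom
import Pool.Agent.Lib.MP_dd84fd_nt.L2G.Avg

set_option autoImplicit false

namespace Pool.MP_dd84fd_nt.L2G

open Finset Pool.MP_67663b_nt.Odd Filter Topology

/-- covering the major arcs by dyadic arcs -/
private lemma fourth_cover (F : ℝ → ℂ) (X : ℕ) (P δ : ℝ) (N : ℕ)
    (hN : ∀ i : ℕ, (2 : ℝ) ^ i ≤ P → i < N) (s a : ℕ → ℝ) (hs0 : ∀ i, 0 ≤ s i)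
    (ha0 : ∀ i, 0 ≤ a i)
    (hs : ∀ i : ℕ, (2 : ℝ) ^ i ≤ P → ∀ θ, θ ∈ Arc (2 ^ i) δ → ‖F θ‖ ^ 2 ≤ s i)
    (ha : ∀ i : ℕ, (2 : ℝ) ^ i ≤ P →
      av (gr X) ((Arc (2 ^ i) δ).indicator (fun θ => ‖F θ‖ ^ 2)) ≤ a i) :
    av (gr X) ((Maj P δ).indicator (fun θ => ‖F θ‖ ^ 4)) ≤ ∑ i ∈ range N, s i * a i := by
  classical
  set S := (range N).filter (fun i => (2 : ℝ) ^ i ≤ P) with hS
  have h1 : ∀ θ, (Maj P δ).indicator (fun θ => ‖F θ‖ ^ 4) θ ≤
      ∑ i ∈ S, s i * (Arc (2 ^ i) δ).indicator (fun θ => ‖F θ‖ ^ 2) θ := by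
    intro θ
    have hnn : ∀ i ∈ S, 0 ≤ s i * (Arc (2 ^ i) δ).indicator (fun θ => ‖F θ‖ ^ 2) θ := by
      intro i _
      exact mul_nonneg (hs0 i) (Set.indicator_nonneg (fun _ _ => by positivity) _)
    by_cases hθ : θ ∈ Maj P δ
    · obtain ⟨i, hi, hθi⟩ := Maj_cover P δ θ hθ
      have hiS : i ∈ S := by
        rw [hS, mem_filter, mem_range]
        exact ⟨hN i hi, hi⟩
      refine le_trans ?_ (single_le_sum hnn hiS)
      rw [Set.indicator_of_mem hθ, Set.indicator_of_mem hθi]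
      have := hs i hi θ hθi
      calc ‖F θ‖ ^ 4 = ‖F θ‖ ^ 2 * ‖F θ‖ ^ 2 := by ring
        _ ≤ s i * ‖F θ‖ ^ 2 := mul_le_mul_of_nonneg_right this (by positivity)
    · rw [Set.indicator_of_notMem hθ]
      exact sum_nonneg hnn
  calc av (gr X) ((Maj P δ).indicator (fun θ => ‖F θ‖ ^ 4))
      ≤ av (gr X) (fun θ => ∑ i ∈ S, s i * (Arc (2 ^ i) δ).indicator (fun θ => ‖F θ‖ ^ 2) θ) :=
        av_mono h1
    _ = ∑ i ∈ S, av (gr X) (fun θ => s i * (Arc (2 ^ i) δ).indicator (fun θ => ‖F θ‖ ^ 2) θ) :=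
        av_sum (gr X) S (fun i θ => s i * (Arc (2 ^ i) δ).indicator (fun θ => ‖F θ‖ ^ 2) θ)
    _ = ∑ i ∈ S, s i * av (gr X) ((Arc (2 ^ i) δ).indicator (fun θ => ‖F θ‖ ^ 2)) := by
        refine sum_congr rfl fun i _ => ?_
        exact av_mul_left (gr X) (s i) _
    _ ≤ ∑ i ∈ S, s i * a i := by
        refine sum_le_sum fun i hi => ?_
        rw [hS, mem_filter] at hi
        exact mul_le_mul_of_nonneg_left (ha i hi.2) (hs0 i)
    _ ≤ _ := sum_le_sum_of_subset_of_nonneg (filter_subset _ _)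
        (fun i _ _ => mul_nonneg (hs0 i) (ha0 i))

private lemma fourth_geo : ∃ C : ℝ, 0 < C ∧ ∀ N : ℕ,
    ∑ j ∈ range N, ((2 : ℝ) ^ j) ^ (-(2 / 3 : ℝ)) * (1 + j) ≤ C := by
  set r : ℝ := (2 : ℝ) ^ (-(2 / 3 : ℝ)) with hr
  have hr0 : 0 < r := by positivity
  have hr1 : r < 1 := by
    rw [hr]
    exact Real.rpow_lt_one_of_one_lt_of_neg (by norm_num) (by norm_num)
  have hpow : ∀ j : ℕ, ((2 : ℝ) ^ j) ^ (-(2 / 3 : ℝ)) = r ^ j := by
    intro j
    rw [hr, ← Real.rpow_natCast, ← Real.rpow_mul (by norm_num), ← Real.rpow_natCast,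
      ← Real.rpow_mul (by norm_num)]
    congr 1
    ring
  have hsum : Summable (fun j : ℕ => r ^ j * (1 + (j : ℝ))) := by
    have h1 : Summable (fun j : ℕ => r ^ j) := summable_geometric_of_lt_one hr0.le hr1
    have h2 : Summable (fun j : ℕ => (j : ℝ) ^ 1 * r ^ j) :=
      summable_pow_mul_geometric_of_norm_lt_one 1 (by rwa [Real.norm_of_nonneg hr0.le])
    have h3 := h1.add h2
    refine h3.congr fun j => ?_
    ring
  refine ⟨∑' j : ℕ, r ^ j * (1 + (j : ℝ)) + 1, ?_, fun N => ?_⟩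
  · have : 0 ≤ ∑' j : ℕ, r ^ j * (1 + (j : ℝ)) := tsum_nonneg fun j => by positivity
    linarith
  · have h4 : ∑ j ∈ range N, ((2 : ℝ) ^ j) ^ (-(2 / 3 : ℝ)) * (1 + j) =
        ∑ j ∈ range N, r ^ j * (1 + (j : ℝ)) := sum_congr rfl fun j _ => by rw [hpow]
    rw [h4]
    have h5 := hsum.sum_le_tsum (range N) (fun j _ => by positivity)
    linarith

private lemma fourth_numV : ∃ C : ℝ, 0 < C ∧ ∀ (w : ℝ), 1 ≤ w → ∀ N : ℕ,
    ∑ i ∈ range N, ((2 : ℝ) ^ i) ^ (-(2 / 3 : ℝ)) * (1 + Real.log (2 ^ i) + Real.log w) ≤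
      C * (1 + Real.log w) := by
  obtain ⟨C, hC, h⟩ := fourth_geo
  refine ⟨C, hC, fun w hw N => ?_⟩
  have hlw : 0 ≤ Real.log w := Real.log_nonneg hw
  calc _ ≤ ∑ i ∈ range N, (1 + Real.log w) * (((2 : ℝ) ^ i) ^ (-(2 / 3 : ℝ)) * (1 + i)) := by
        refine sum_le_sum fun i _ => ?_
        have h1 : Real.log (2 ^ i) ≤ i := by
          rw [Real.log_pow]
          have : Real.log 2 ≤ 1 := by
            have := Real.log_two_lt_d9
            linarith
          nlinarith [Nat.cast_nonneg (α := ℝ) i]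
        have h2 : 1 + Real.log (2 ^ i) + Real.log w ≤ (1 + Real.log w) * (1 + i) := by
          nlinarith [Nat.cast_nonneg (α := ℝ) i, mul_nonneg hlw (Nat.cast_nonneg (α := ℝ) i)]
        calc ((2 : ℝ) ^ i) ^ (-(2 / 3 : ℝ)) * (1 + Real.log (2 ^ i) + Real.log w)
            ≤ ((2 : ℝ) ^ i) ^ (-(2 / 3 : ℝ)) * ((1 + Real.log w) * (1 + i)) :=
              mul_le_mul_of_nonneg_left h2 (by positivity)
          _ = _ := by ring
    _ = (1 + Real.log w) * ∑ i ∈ range N, ((2 : ℝ) ^ i) ^ (-(2 / 3 : ℝ)) * (1 + i) := by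
        rw [mul_sum]
    _ ≤ (1 + Real.log w) * C := mul_le_mul_of_nonneg_left (h N) (by linarith)
    _ = _ := by ring

private lemma fourth_numU : ∃ C : ℝ, 0 < C ∧ ∀ (w : ℕ), 1 ≤ w → ∀ N : ℕ,
    ∑ i ∈ range N, (max ((2 : ℝ) ^ i) w) ^ (-(2 / 3 : ℝ)) *
      (1 + Real.log (2 ^ i) + Real.log w) ≤
      C * (1 + Real.log w) ^ 2 * (w : ℝ) ^ (-(2 / 3 : ℝ)) := by
  obtain ⟨C, hC, h⟩ := fourth_geo
  refine ⟨2 * C + 4, by linarith, fun w hw N => ?_⟩
  have hw1 : (1 : ℝ) ≤ w := by exact_mod_cast hw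
  have hw0 : (0 : ℝ) < w := by linarith
  have hlw : 0 ≤ Real.log w := Real.log_nonneg hw1
  set n := Nat.log 2 w with hn
  have hn1 : 2 ^ n ≤ w := Nat.pow_log_le_self 2 (by omega)
  have hn2 : w < 2 ^ (n + 1) := Nat.lt_pow_succ_log_self (by norm_num) w
  have hn1' : (2 : ℝ) ^ n ≤ w := by exact_mod_cast hn1
  have hn2' : (w : ℝ) ≤ 2 ^ (n + 1) := by exact_mod_cast hn2.le
  have hlog2 : (1 / 2 : ℝ) ≤ Real.log 2 := by
    have := Real.log_two_gt_d9
    linarith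
  have hlog2' : Real.log 2 ≤ 1 := by
    have := Real.log_two_lt_d9
    linarith
  have hnlog : (n : ℝ) * Real.log 2 ≤ Real.log w := by
    rw [← Real.log_pow]
    exact Real.log_le_log (by positivity) hn1'
  have hn3 : (n : ℝ) ≤ 2 * Real.log w := by nlinarith [Nat.cast_nonneg (α := ℝ) n]
  set wt : ℝ := (w : ℝ) ^ (-(2 / 3 : ℝ)) with hwt
  have hwt0 : 0 < wt := by positivity
  -- split the range
  have hterm0 : ∀ i : ℕ, 0 ≤ (max ((2 : ℝ) ^ i) w) ^ (-(2 / 3 : ℝ)) *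
      (1 + Real.log (2 ^ i) + Real.log w) := by
    intro i
    have : 0 ≤ Real.log ((2 : ℝ) ^ i) := Real.log_nonneg (one_le_pow₀ (by norm_num))
    positivity
  have hsplit : ∑ i ∈ range N, (max ((2 : ℝ) ^ i) w) ^ (-(2 / 3 : ℝ)) *
      (1 + Real.log (2 ^ i) + Real.log w) ≤
      ∑ i ∈ range (n + 1), (max ((2 : ℝ) ^ i) w) ^ (-(2 / 3 : ℝ)) *
      (1 + Real.log (2 ^ i) + Real.log w) +
      ∑ j ∈ range N, (max ((2 : ℝ) ^ (n + 1 + j)) w) ^ (-(2 / 3 : ℝ)) *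
      (1 + Real.log (2 ^ (n + 1 + j)) + Real.log w) := by
    rw [← sum_range_add (fun i => (max ((2 : ℝ) ^ i) (w : ℝ)) ^ (-(2 / 3 : ℝ)) *
      (1 + Real.log (2 ^ i) + Real.log w)) (n + 1) N]
    refine sum_le_sum_of_subset_of_nonneg ?_ (fun i _ _ => hterm0 i)
    intro i hi
    rw [mem_range] at hi ⊢
    omega
  have hA : ∑ i ∈ range (n + 1), (max ((2 : ℝ) ^ i) w) ^ (-(2 / 3 : ℝ)) *
      (1 + Real.log (2 ^ i) + Real.log w) ≤ 4 * (1 + Real.log w) ^ 2 * wt := by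
    calc _ ≤ ∑ _i ∈ range (n + 1), wt * (1 + 2 * Real.log w) := by
          refine sum_le_sum fun i hi => ?_
          rw [mem_range] at hi
          have h1 : (max ((2 : ℝ) ^ i) w) ^ (-(2 / 3 : ℝ)) ≤ wt := by
            rw [hwt]
            exact Real.rpow_le_rpow_of_nonpos hw0 (le_max_right _ _) (by norm_num)
          have h2 : Real.log ((2 : ℝ) ^ i) ≤ Real.log w := by
            refine Real.log_le_log (by positivity) (le_trans ?_ hn1')
            exact pow_le_pow_right₀ (by norm_num) (by omega)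
          have h3 : 0 ≤ Real.log ((2 : ℝ) ^ i) := Real.log_nonneg (one_le_pow₀ (by norm_num))
          exact mul_le_mul h1 (by linarith) (by linarith) hwt0.le
      _ = ((n : ℝ) + 1) * (wt * (1 + 2 * Real.log w)) := by
          rw [sum_const, card_range, nsmul_eq_mul]
          push_cast
          ring
      _ ≤ (2 * Real.log w + 1) * (wt * (1 + 2 * Real.log w)) := by
          refine mul_le_mul_of_nonneg_right (by linarith) ?_
          positivity
      _ ≤ _ := by nlinarith [mul_nonneg hwt0.le hlw, mul_nonneg (mul_nonneg hwt0.le hlw) hlw]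
  have hB : ∑ j ∈ range N, (max ((2 : ℝ) ^ (n + 1 + j)) w) ^ (-(2 / 3 : ℝ)) *
      (1 + Real.log (2 ^ (n + 1 + j)) + Real.log w) ≤
      2 * C * (1 + Real.log w) ^ 2 * wt := by
    calc _ ≤ ∑ j ∈ range N, (2 * (1 + Real.log w) * wt) *
          (((2 : ℝ) ^ j) ^ (-(2 / 3 : ℝ)) * (1 + j)) := by
          refine sum_le_sum fun j _ => ?_
          have hbase : (w : ℝ) * 2 ^ j ≤ max ((2 : ℝ) ^ (n + 1 + j)) w := by
            refine le_trans ?_ (le_max_left _ _)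
            rw [pow_add]
            exact mul_le_mul_of_nonneg_right hn2' (by positivity)
          have h1 : (max ((2 : ℝ) ^ (n + 1 + j)) w) ^ (-(2 / 3 : ℝ)) ≤
              wt * ((2 : ℝ) ^ j) ^ (-(2 / 3 : ℝ)) := by
            rw [hwt, ← Real.mul_rpow hw0.le (by positivity)]
            exact Real.rpow_le_rpow_of_nonpos (by positivity) hbase (by norm_num)
          have h2 : Real.log ((2 : ℝ) ^ (n + 1 + j)) ≤ Real.log w + 1 + j := by
            rw [Real.log_pow]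
            push_cast
            nlinarith [Nat.cast_nonneg (α := ℝ) j]
          have h3 : 0 ≤ Real.log ((2 : ℝ) ^ (n + 1 + j)) :=
            Real.log_nonneg (one_le_pow₀ (by norm_num))
          have h4 : 1 + Real.log ((2 : ℝ) ^ (n + 1 + j)) + Real.log w ≤
              2 * (1 + Real.log w) * (1 + j) := by
            nlinarith [Nat.cast_nonneg (α := ℝ) j, mul_nonneg hlw (Nat.cast_nonneg (α := ℝ) j)]
          calc _ ≤ (wt * ((2 : ℝ) ^ j) ^ (-(2 / 3 : ℝ))) * (2 * (1 + Real.log w) * (1 + j)) :=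
                mul_le_mul h1 h4 (by linarith) (by positivity)
            _ = _ := by ring
      _ = (2 * (1 + Real.log w) * wt) *
          ∑ j ∈ range N, ((2 : ℝ) ^ j) ^ (-(2 / 3 : ℝ)) * (1 + j) := by rw [mul_sum]
      _ ≤ (2 * (1 + Real.log w) * wt) * C := mul_le_mul_of_nonneg_left (h N) (by positivity)
      _ ≤ _ := by
          have : (1 + Real.log w) ≤ (1 + Real.log w) ^ 2 := by nlinarith
          nlinarith [mul_pos hC hwt0, mul_le_mul_of_nonneg_left this (mul_pos hC hwt0).le]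
  calc _ ≤ _ := hsplit
    _ ≤ 4 * (1 + Real.log w) ^ 2 * wt + 2 * C * (1 + Real.log w) ^ 2 * wt := add_le_add hA hB
    _ = _ := by ring

/-- the tiny part -/
private lemma fourth_tiny (w : ℕ) (hw : 1 ≤ w) (B0 : ℕ) : ∃ X0 : ℕ, ∀ X : ℕ, X0 ≤ X →
    ∀ N : ℕ, (N : ℝ) ≤ 2 * B0 * Real.log (Real.log X) + 1 →
    (Real.log (Real.log X) ^ 4 / Real.log X) ^ 2 *
      ∑ i ∈ range N, (1 + Real.log (2 ^ i) + Real.log w) ≤ (w : ℝ) ^ (-(2 / 3 : ℝ)) := by
  have hw1 : (1 : ℝ) ≤ w := by exact_mod_cast hw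
  have hw0 : (0 : ℝ) < w := by linarith
  have hlw : 0 ≤ Real.log w := Real.log_nonneg hw1
  set K : ℝ := 2 * B0 + 1 with hK
  set M : ℝ := K * (K + 1 + Real.log w) with hM
  have hK1 : 1 ≤ K := by
    rw [hK]
    have : (0 : ℝ) ≤ B0 := Nat.cast_nonneg _
    linarith
  have hM0 : 0 < M := by
    rw [hM]
    positivity
  have hlim : Tendsto (fun y : ℝ => M * ((1 + y) ^ 10 * Real.exp (-(2 * y)))) atTop (𝓝 0) := by
    have h1 : Tendsto (fun x : ℝ => x ^ 10 * Real.exp (-x)) atTop (𝓝 0) :=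
      Real.tendsto_pow_mul_exp_neg_atTop_nhds_zero 10
    have h2 : Tendsto (fun y : ℝ => 1 + y) atTop atTop := tendsto_atTop_add_const_left _ _ tendsto_id
    have h3 := h1.comp h2
    have h4 : Tendsto (fun y : ℝ => Real.exp (1 - y)) atTop (𝓝 0) := by
      have : Tendsto (fun y : ℝ => 1 - y) atTop atBot := by
        simpa [sub_eq_add_neg] using
          tendsto_atBot_add_const_left atTop (1 : ℝ) tendsto_neg_atTop_atBot
      exact Real.tendsto_exp_atBot.comp this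
    have h5 := (h3.mul h4).const_mul M
    simp only [mul_zero] at h5
    refine h5.congr fun y => ?_
    simp only [Function.comp]
    have : Real.exp (-(2 * y)) = Real.exp (-(1 + y)) * Real.exp (1 - y) := by
      rw [← Real.exp_add]
      congr 1
      ring
    rw [this]
    ring
  have hLL : Tendsto (fun X : ℕ => Real.log (Real.log X)) atTop atTop :=
    Real.tendsto_log_atTop.comp (Real.tendsto_log_atTop.comp tendsto_natCast_atTop_atTop)
  have hev := (hlim.comp hLL).eventually (gt_mem_nhds (show (0 : ℝ) < (w : ℝ) ^ (-(2 / 3 : ℝ)) by positivity))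
  have hev2 := hLL.eventually_ge_atTop 0
  have hev3 : ∀ᶠ X : ℕ in atTop, 0 < Real.log X :=
    (Real.tendsto_log_atTop.comp tendsto_natCast_atTop_atTop).eventually_gt_atTop 0
  obtain ⟨X0, hX0⟩ := eventually_atTop.mp (hev.and (hev2.and hev3))
  refine ⟨X0, fun X hX N hN => ?_⟩
  obtain ⟨h1, h2, h3⟩ := hX0 X hX
  simp only [Function.comp] at h1
  set y := Real.log (Real.log X) with hy
  have hL : Real.log X = Real.exp y := by rw [hy, Real.exp_log h3]
  have hN2 : (N : ℝ) ≤ K * (1 + y) := by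
    have : (0 : ℝ) ≤ B0 := Nat.cast_nonneg _
    rw [hK]
    nlinarith
  have hsum : ∑ i ∈ range N, (1 + Real.log (2 ^ i) + Real.log w) ≤ M * (1 + y) ^ 2 := by
    calc _ ≤ ∑ _i ∈ range N, (1 + K * (1 + y) + Real.log w) := by
          refine sum_le_sum fun i hi => ?_
          rw [mem_range] at hi
          have h4 : Real.log ((2 : ℝ) ^ i) ≤ i := by
            rw [Real.log_pow]
            have : Real.log 2 ≤ 1 := by
              have := Real.log_two_lt_d9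
              linarith
            nlinarith [Nat.cast_nonneg (α := ℝ) i]
          have h5 : (i : ℝ) ≤ N := by exact_mod_cast hi.le
          linarith
      _ = N * (1 + K * (1 + y) + Real.log w) := by
          rw [sum_const, card_range, nsmul_eq_mul]
      _ ≤ (K * (1 + y)) * ((K + 1 + Real.log w) * (1 + y)) := by
          refine mul_le_mul hN2 ?_ ?_ ?_
          · nlinarith [mul_nonneg hlw h2]
          · positivity
          · positivity
      _ = _ := by rw [hM]; ring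
  calc (y ^ 4 / Real.log X) ^ 2 * ∑ i ∈ range N, (1 + Real.log (2 ^ i) + Real.log w)
      ≤ (y ^ 4 / Real.log X) ^ 2 * (M * (1 + y) ^ 2) :=
        mul_le_mul_of_nonneg_left hsum (by positivity)
    _ ≤ M * ((1 + y) ^ 10 * Real.exp (-(2 * y))) := by
        rw [hL]
        have h6 : (y ^ 4 / Real.exp y) ^ 2 = y ^ 8 * Real.exp (-(2 * y)) := by
          rw [div_pow, div_eq_mul_inv, ← Real.exp_nat_mul, ← Real.exp_neg]
          push_cast
          ring
        rw [h6]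
        have h7 : y ^ 8 ≤ (1 + y) ^ 8 := pow_le_pow_left₀ h2 (by linarith) 8
        calc y ^ 8 * Real.exp (-(2 * y)) * (M * (1 + y) ^ 2)
            ≤ (1 + y) ^ 8 * Real.exp (-(2 * y)) * (M * (1 + y) ^ 2) := by
              refine mul_le_mul_of_nonneg_right ?_ (by positivity)
              exact mul_le_mul_of_nonneg_right h7 (by positivity)
          _ = _ := by ring
    _ ≤ _ := h1.le

theorem fourth_UV : ∃ C : ℝ, 0 < C ∧ ∀ w : ℕ, 2 ≤ w → ∀ B0 : ℕ, ∃ X0 : ℕ, ∀ X : ℕ, X0 ≤ X →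
    ∀ B1 : ℕ, B1 ≤ B0 →
    av (gr X) ((Maj (Real.log X ^ B1) (Real.log X ^ B1 / X)).indicator
      (fun θ => ‖UH w.factorial X θ‖ ^ 4)) ≤
      C * (1 + Real.log w) ^ 2 * (w : ℝ) ^ (-(2 / 3 : ℝ)) * X ^ 3 ∧
    av (gr X) ((Maj (Real.log X ^ B1) (Real.log X ^ B1 / X)).indicator
      (fun θ => ‖VH w.factorial X θ‖ ^ 4)) ≤
      C * (1 + Real.log w) * X ^ 3 := by
  obtain ⟨C1, hC1, hsup⟩ := sup_U
  obtain ⟨C2, hC2, harc⟩ := uv_arc
  obtain ⟨C3, hC3, hnU⟩ := fourth_numU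
  obtain ⟨C4, hC4, hnV⟩ := fourth_numV
  refine ⟨2 * C1 ^ 2 * C2 * (C3 + C4 + 1), by positivity, fun w hw B0 => ?_⟩
  obtain ⟨X1, h1⟩ := hsup w hw (B0 + 1)
  obtain ⟨X2, h2⟩ := harc w hw B0
  obtain ⟨X3, h3⟩ := fourth_tiny w (by omega) B0
  have hlogt : Tendsto (fun X : ℕ => Real.log X) atTop atTop :=
    Real.tendsto_log_atTop.comp tendsto_natCast_atTop_atTop
  obtain ⟨X4, h4⟩ := eventually_atTop.mp (hlogt.eventually_ge_atTop 3)
  refine ⟨max (max X1 X2) (max X3 (max X4 1)), fun X hX B1 hB1 => ?_⟩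
  have hX1 : X1 ≤ X := le_trans (le_trans (le_max_left _ _) (le_max_left _ _)) hX
  have hX2 : X2 ≤ X := le_trans (le_trans (le_max_right _ _) (le_max_left _ _)) hX
  have hX3 : X3 ≤ X := le_trans (le_trans (le_max_left _ _) (le_max_right _ _)) hX
  have hX4 : X4 ≤ X := le_trans (le_trans (le_trans (le_max_left _ _) (le_max_right _ _))
    (le_max_right _ _)) hX
  have hX5 : 1 ≤ X := le_trans (le_trans (le_trans (le_max_right _ _) (le_max_right _ _))
    (le_max_right _ _)) hX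
  have hXpos : (0 : ℝ) < X := by exact_mod_cast hX5
  have hL3 : 3 ≤ Real.log X := h4 X hX4
  set L := Real.log X with hL
  set t := Real.log L ^ 4 / L with ht
  have ht0 : 0 ≤ t := by positivity
  set P := L ^ B1 with hP
  set δ := P / X with hδ
  have hLL : 0 ≤ Real.log L := Real.log_nonneg (by linarith)
  have hw1 : (1 : ℝ) ≤ w := by exact_mod_cast (by omega : 1 ≤ w)
  have hlw : 0 ≤ Real.log w := Real.log_nonneg hw1
  have hPB0 : P ≤ L ^ B0 := pow_le_pow_right₀ (by linarith) hB1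
  have hP0 : 0 < P := by positivity
  -- number of dyadic arcs
  set N : ℕ := ⌊2 * (B0 : ℝ) * Real.log L⌋₊ + 1 with hNdef
  have hNle : (N : ℝ) ≤ 2 * B0 * Real.log L + 1 := by
    rw [hNdef]
    push_cast
    have := Nat.floor_le (show 0 ≤ 2 * (B0 : ℝ) * Real.log L by positivity)
    linarith
  have hN : ∀ i : ℕ, (2 : ℝ) ^ i ≤ P → i < N := by
    intro i hi
    have h5 : (i : ℝ) * Real.log 2 ≤ B1 * Real.log L := by
      rw [← Real.log_pow, ← Real.log_pow]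
      exact Real.log_le_log (by positivity) hi
    have h6 : (1 / 2 : ℝ) ≤ Real.log 2 := by
      have := Real.log_two_gt_d9
      linarith
    have h7 : (B1 : ℝ) ≤ B0 := by exact_mod_cast hB1
    have h8 : (i : ℝ) ≤ 2 * (B0 : ℝ) * Real.log L := by
      nlinarith [Nat.cast_nonneg (α := ℝ) i, mul_le_mul_of_nonneg_right h7 hLL]
    rw [hNdef, Nat.lt_succ_iff]
    exact Nat.le_floor h8
  -- pointwise bounds on the arcs
  have hpt : ∀ i : ℕ, (2 : ℝ) ^ i ≤ P → ∀ θ, θ ∈ Arc (2 ^ i) δ →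
      ‖UH w.factorial X θ‖ ^ 2 ≤
        2 * C1 ^ 2 * X ^ 2 * ((max ((2 : ℝ) ^ i) w) ^ (-(2 / 3 : ℝ)) + t ^ 2) ∧
      ‖VH w.factorial X θ‖ ^ 2 ≤
        2 * C1 ^ 2 * X ^ 2 * (((2 : ℝ) ^ i) ^ (-(2 / 3 : ℝ)) + t ^ 2) := by
    intro i hi θ hθ
    obtain ⟨r, hr1, hr2, hr3, y, hy, hθy⟩ := hθ
    have hr2' : (2 : ℝ) ^ i ≤ r := by exact_mod_cast hr2
    have hr3' : (r : ℝ) ≤ 2 * 2 ^ i := by exact_mod_cast hr3.le
    have hrL : (r : ℝ) ≤ L ^ (B0 + 1) := by
      calc (r : ℝ) ≤ 2 * P := by linarith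
        _ ≤ L * L ^ B0 := mul_le_mul (by linarith) hPB0 hP0.le (by linarith)
        _ = L ^ (B0 + 1) := by ring
    have hβ : |θ - y / r| ≤ L ^ (B0 + 1) / X := by
      refine hθy.trans ?_
      rw [hδ]
      refine div_le_div_of_nonneg_right ?_ hXpos.le
      exact hPB0.trans (pow_le_pow_right₀ (by linarith) (by omega))
    have h := h1 X hX1 r y (θ - y / r) hr1 hrL hy hβ
    have hθ' : (y : ℝ) / r + (θ - y / r) = θ := by ring
    rw [hθ'] at h
    have hsq : ∀ (m b : ℝ) (v : ℝ), 0 ≤ v → 0 < b → b ≤ m →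
        v ≤ C1 * X * m ^ (-(1 / 3 : ℝ)) + C1 * X * Real.log L ^ 4 / L →
        v ^ 2 ≤ 2 * C1 ^ 2 * X ^ 2 * (b ^ (-(2 / 3 : ℝ)) + t ^ 2) := by
      intro m b v hv hb hbm hvm
      have e1 : m ^ (-(1 / 3 : ℝ)) ≤ b ^ (-(1 / 3 : ℝ)) :=
        Real.rpow_le_rpow_of_nonpos hb hbm (by norm_num)
      have e2 : b ^ (-(2 / 3 : ℝ)) = (b ^ (-(1 / 3 : ℝ))) ^ 2 := by
        rw [← Real.rpow_natCast, ← Real.rpow_mul hb.le]
        norm_num
      have e3 : v ≤ C1 * X * (b ^ (-(1 / 3 : ℝ)) + t) := by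
        calc v ≤ C1 * X * m ^ (-(1 / 3 : ℝ)) + C1 * X * Real.log L ^ 4 / L := hvm
          _ ≤ C1 * X * b ^ (-(1 / 3 : ℝ)) + C1 * X * Real.log L ^ 4 / L := by
              have := mul_le_mul_of_nonneg_left e1 (show 0 ≤ C1 * X by positivity)
              linarith
          _ = _ := by rw [ht]; ring
      have e4 : v ^ 2 ≤ (C1 * X * (b ^ (-(1 / 3 : ℝ)) + t)) ^ 2 := pow_le_pow_left₀ hv e3 2
      rw [e2]
      set z := b ^ (-(1 / 3 : ℝ)) with hz
      have e5 : (z + t) ^ 2 ≤ 2 * (z ^ 2 + t ^ 2) := by nlinarith [sq_nonneg (z - t)]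
      calc v ^ 2 ≤ (C1 * X * (z + t)) ^ 2 := e4
        _ = (C1 ^ 2 * X ^ 2) * (z + t) ^ 2 := by ring
        _ ≤ (C1 ^ 2 * X ^ 2) * (2 * (z ^ 2 + t ^ 2)) :=
            mul_le_mul_of_nonneg_left e5 (by positivity)
        _ = _ := by ring
    constructor
    · refine hsq (max (r : ℝ) w) (max ((2 : ℝ) ^ i) w) _ (norm_nonneg _) (by positivity)
        (max_le_max hr2' le_rfl) h.1
    · exact hsq (r : ℝ) ((2 : ℝ) ^ i) _ (norm_nonneg _) (by positivity) hr2' h.2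
  have hav : ∀ i : ℕ, (2 : ℝ) ^ i ≤ P →
      av (gr X) ((Arc (2 ^ i) δ).indicator (fun θ => ‖UH w.factorial X θ‖ ^ 2)) ≤
        C2 * X * (1 + Real.log (2 ^ i) + Real.log w) ∧
      av (gr X) ((Arc (2 ^ i) δ).indicator (fun θ => ‖VH w.factorial X θ‖ ^ 2)) ≤
        C2 * X * (1 + Real.log (2 ^ i) + Real.log w) := by
    intro i hi
    have h := h2 X hX2 (2 ^ i) δ (Nat.one_le_two_pow) (by push_cast; exact hi.trans hPB0)
      (by positivity) (by rw [hδ]; exact div_le_div_of_nonneg_right hPB0 hXpos.le)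
    push_cast at h
    exact h
  have hlog0 : ∀ i : ℕ, 0 ≤ Real.log ((2 : ℝ) ^ i) := fun i =>
    Real.log_nonneg (one_le_pow₀ (by norm_num))
  have htiny := h3 X hX3 N hNle
  have hwt1 : (w : ℝ) ^ (-(2 / 3 : ℝ)) ≤ 1 :=
    Real.rpow_le_one_of_one_le_of_nonpos hw1 (by norm_num)
  have hwt0 : 0 < (w : ℝ) ^ (-(2 / 3 : ℝ)) := by positivity
  constructor
  · have h := fourth_cover (UH w.factorial X) X P δ N hN
      (fun i => 2 * C1 ^ 2 * X ^ 2 * ((max ((2 : ℝ) ^ i) w) ^ (-(2 / 3 : ℝ)) + t ^ 2))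
      (fun i => C2 * X * (1 + Real.log (2 ^ i) + Real.log w))
      (fun i => by positivity) (fun i => by have := hlog0 i; positivity)
      (fun i hi θ hθ => (hpt i hi θ hθ).1) (fun i hi => (hav i hi).1)
    refine h.trans ?_
    have hsumeq : ∑ i ∈ range N,
        2 * C1 ^ 2 * X ^ 2 * ((max ((2 : ℝ) ^ i) w) ^ (-(2 / 3 : ℝ)) + t ^ 2) *
          (C2 * X * (1 + Real.log (2 ^ i) + Real.log w)) =
        (2 * C1 ^ 2 * C2 * X ^ 3) * (∑ i ∈ range N, (max ((2 : ℝ) ^ i) w) ^ (-(2 / 3 : ℝ)) *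
          (1 + Real.log (2 ^ i) + Real.log w) +
          t ^ 2 * ∑ i ∈ range N, (1 + Real.log (2 ^ i) + Real.log w)) := by
      rw [mul_sum, ← sum_add_distrib, mul_sum]
      refine sum_congr rfl fun i _ => ?_
      ring
    rw [hsumeq]
    have h5 := hnU w (by omega) N
    set wt := (w : ℝ) ^ (-(2 / 3 : ℝ)) with hwt
    have h6 : ∑ i ∈ range N, (max ((2 : ℝ) ^ i) w) ^ (-(2 / 3 : ℝ)) *
          (1 + Real.log (2 ^ i) + Real.log w) +
          t ^ 2 * ∑ i ∈ range N, (1 + Real.log (2 ^ i) + Real.log w) ≤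
        (C3 + C4 + 1) * (1 + Real.log w) ^ 2 * wt := by
      have e1 : (1 : ℝ) ≤ (1 + Real.log w) ^ 2 := by nlinarith
      have e2 : wt ≤ (1 + Real.log w) ^ 2 * wt := by nlinarith
      have e3 : 0 ≤ C4 * ((1 + Real.log w) ^ 2 * wt) := by positivity
      nlinarith
    calc (2 * C1 ^ 2 * C2 * X ^ 3) * _ ≤
        (2 * C1 ^ 2 * C2 * X ^ 3) * ((C3 + C4 + 1) * (1 + Real.log w) ^ 2 * wt) :=
          mul_le_mul_of_nonneg_left h6 (by positivity)
      _ = _ := by ring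
  · have h := fourth_cover (VH w.factorial X) X P δ N hN
      (fun i => 2 * C1 ^ 2 * X ^ 2 * (((2 : ℝ) ^ i) ^ (-(2 / 3 : ℝ)) + t ^ 2))
      (fun i => C2 * X * (1 + Real.log (2 ^ i) + Real.log w))
      (fun i => by positivity) (fun i => by have := hlog0 i; positivity)
      (fun i hi θ hθ => (hpt i hi θ hθ).2) (fun i hi => (hav i hi).2)
    refine h.trans ?_
    have hsumeq : ∑ i ∈ range N,
        2 * C1 ^ 2 * X ^ 2 * (((2 : ℝ) ^ i) ^ (-(2 / 3 : ℝ)) + t ^ 2) *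
          (C2 * X * (1 + Real.log (2 ^ i) + Real.log w)) =
        (2 * C1 ^ 2 * C2 * X ^ 3) * (∑ i ∈ range N, ((2 : ℝ) ^ i) ^ (-(2 / 3 : ℝ)) *
          (1 + Real.log (2 ^ i) + Real.log w) +
          t ^ 2 * ∑ i ∈ range N, (1 + Real.log (2 ^ i) + Real.log w)) := by
      rw [mul_sum, ← sum_add_distrib, mul_sum]
      refine sum_congr rfl fun i _ => ?_
      ring
    rw [hsumeq]
    have h5 := hnV w hw1 N
    have h6 : ∑ i ∈ range N, ((2 : ℝ) ^ i) ^ (-(2 / 3 : ℝ)) *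
          (1 + Real.log (2 ^ i) + Real.log w) +
          t ^ 2 * ∑ i ∈ range N, (1 + Real.log (2 ^ i) + Real.log w) ≤
        (C3 + C4 + 1) * (1 + Real.log w) := by
      have e3 : 0 ≤ C3 * (1 + Real.log w) := by positivity
      nlinarith
    calc (2 * C1 ^ 2 * C2 * X ^ 3) * _ ≤
        (2 * C1 ^ 2 * C2 * X ^ 3) * ((C3 + C4 + 1) * (1 + Real.log w)) :=
          mul_le_mul_of_nonneg_left h6 (by positivity)
      _ = _ := by ring

end Pool.MP_dd84fd_nt.L2G
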