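import Pool.Agent.Lib.MP_dd84fd_nt.L2G.Defs

set_option autoImplicit false

namespace Pool.MP_dd84fd_nt.L2G

open Finset Pool.MP_67663b_nt.Odd

/-- the predicate: `m` and `n - m` are coprime to `P` -/
private def gwlQ (n P m : ℕ) : Prop := Nat.Coprime m P ∧ Int.gcd ((n : ℤ) - m) P = 1

private instance (n P : ℕ) : DecidablePred (gwlQ n P) := fun m => by
  unfold gwlQ; infer_instance

private def gwlN (n P : ℕ) : ℕ := ((range P).filter (gwlQ n P)).card

private theorem gwlQ_mod_dvd {n P A m : ℕ} (h : A ∣ P) : gwlQ n A (m % P) ↔ gwlQ n A m := by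
  unfold gwlQ
  have h1 : (m % P) + P * (m / P) = m := Nat.mod_add_div m P
  obtain ⟨c, rfl⟩ := h
  have h2 : Nat.Coprime (m % (A * c)) A ↔ Nat.Coprime m A := by
    conv_rhs => rw [← h1, mul_assoc]
    rw [Nat.coprime_add_mul_left_left]
  have h3 : Int.gcd ((n : ℤ) - ((m % (A * c) : ℕ) : ℤ)) A = Int.gcd ((n : ℤ) - m) A := by
    have h4 : (n : ℤ) - ((m % (A * c) : ℕ) : ℤ) = ((n : ℤ) - m) + (A : ℤ) * (c * (m / (A * c) : ℕ)) := by
      have : ((m % (A * c) : ℕ) : ℤ) + ((A * c : ℕ) : ℤ) * ((m / (A * c) : ℕ) : ℤ) = m := by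
        exact_mod_cast h1
      push_cast at this ⊢
      linear_combination -this
    rw [h4, Int.gcd_add_mul_left_left]
  rw [h2, h3]

private theorem gwlQ_mul {n A B m : ℕ} :
    gwlQ n (A * B) m ↔ gwlQ n A m ∧ gwlQ n B m := by
  unfold gwlQ
  have h1 : Int.gcd ((n : ℤ) - m) ((A * B : ℕ) : ℤ) = 1 ↔
      Int.gcd ((n : ℤ) - m) A = 1 ∧ Int.gcd ((n : ℤ) - m) B = 1 := by
    rw [← Int.isCoprime_iff_gcd_eq_one, ← Int.isCoprime_iff_gcd_eq_one,
      ← Int.isCoprime_iff_gcd_eq_one]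
    push_cast
    exact IsCoprime.mul_right_iff
  rw [h1, Nat.coprime_mul_iff_right]
  tauto

private theorem gwlN_mul {n A B : ℕ} (hA : 0 < A) (hB : 0 < B) (h : Nat.Coprime A B) :
    gwlN n (A * B) = gwlN n A * gwlN n B := by
  unfold gwlN
  rw [← Finset.card_product]
  have hAB : 0 < A * B := Nat.mul_pos hA hB
  set f : ℕ → ℕ × ℕ := fun m => (m % A, m % B) with hf
  have hinj : Set.InjOn f (↑(range (A * B)) : Set ℕ) := by
    intro x hx y hy hxy
    simp only [Finset.mem_coe, Finset.mem_range] at hx hy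
    simp only [hf, Prod.mk.injEq] at hxy
    have h1 : x ≡ y [MOD A] := hxy.1
    have h2 : x ≡ y [MOD B] := hxy.2
    exact Nat.ModEq.eq_of_lt_of_lt ((Nat.modEq_and_modEq_iff_modEq_mul h).1 ⟨h1, h2⟩) hx hy
  have hmaps : Set.MapsTo f (↑(range (A * B)) : Set ℕ) (↑(range A ×ˢ range B) : Set (ℕ × ℕ)) := by
    intro x _
    simp only [hf, Finset.coe_product, Set.mem_prod, Finset.mem_coe, Finset.mem_range]
    exact ⟨Nat.mod_lt _ hA, Nat.mod_lt _ hB⟩
  have hsurj := Finset.surjOn_of_injOn_of_card_le f hmaps hinj (by simp)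
  refine Finset.card_bij (fun m _ => f m) ?_ ?_ ?_
  · intro m hm
    rw [Finset.mem_filter, Finset.mem_range] at hm
    rw [gwlQ_mul] at hm
    simp only [hf, Finset.mem_product, Finset.mem_filter, Finset.mem_range]
    exact ⟨⟨Nat.mod_lt _ hA, (gwlQ_mod_dvd (dvd_refl A)).2 hm.2.1⟩,
      ⟨Nat.mod_lt _ hB, (gwlQ_mod_dvd (dvd_refl B)).2 hm.2.2⟩⟩
  · intro x hx y hy hxy
    rw [Finset.mem_filter] at hx hy
    exact hinj hx.1 hy.1 hxy
  · rintro ⟨a, b⟩ hab
    simp only [Finset.mem_product, Finset.mem_filter, Finset.mem_range] at hab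
    obtain ⟨m, hm, hmf⟩ := hsurj (show (a, b) ∈ (↑(range A ×ˢ range B) : Set (ℕ × ℕ)) by
      simp only [Finset.coe_product, Set.mem_prod, Finset.mem_coe, Finset.mem_range]
      exact ⟨hab.1.1, hab.2.1⟩)
    refine ⟨m, ?_, hmf⟩
    simp only [hf, Prod.mk.injEq] at hmf
    rw [Finset.mem_filter]
    refine ⟨hm, gwlQ_mul.2 ⟨?_, ?_⟩⟩
    · rw [← gwlQ_mod_dvd (dvd_refl A), hmf.1]
      exact hab.1.2
    · rw [← gwlQ_mod_dvd (dvd_refl B), hmf.2]
      exact hab.2.2

private theorem gwlQ_prime {n p m : ℕ} (hp : p.Prime) :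
    gwlQ n p m ↔ ¬ p ∣ m ∧ ¬ (p : ℤ) ∣ ((n : ℤ) - m) := by
  unfold gwlQ
  have h1 : Nat.Coprime m p ↔ ¬ p ∣ m := by
    rw [Nat.coprime_comm]
    exact Nat.Prime.coprime_iff_not_dvd hp
  have h2 : Int.gcd ((n : ℤ) - m) p = 1 ↔ ¬ (p : ℤ) ∣ ((n : ℤ) - m) := by
    rw [Int.gcd_comm, ← Int.isCoprime_iff_gcd_eq_one]
    exact Int.isCoprime_iff_gcd_eq_one.trans
      (Int.isCoprime_iff_gcd_eq_one.symm.trans
        (Prime.coprime_iff_not_dvd (Nat.prime_iff_prime_int.1 hp)))
  rw [h1, h2]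

private theorem gwlN_two {n : ℕ} (hn : Even n) : 1 ≤ gwlN n 2 := by
  unfold gwlN
  rw [Nat.one_le_iff_ne_zero, Finset.card_ne_zero]
  refine ⟨1, ?_⟩
  rw [Finset.mem_filter, Finset.mem_range, gwlQ_prime Nat.prime_two]
  refine ⟨by norm_num, by norm_num, ?_⟩
  obtain ⟨k, rfl⟩ := hn
  push_cast
  omega

private theorem gwlN_prime {n p : ℕ} (hp : p.Prime) : p - 2 ≤ gwlN n p := by
  unfold gwlN
  have hsub : (range p) \ {0, n % p} ⊆ (range p).filter (gwlQ n p) := by
    intro m hm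
    simp only [Finset.mem_sdiff, Finset.mem_range, Finset.mem_insert, Finset.mem_singleton,
      not_or] at hm
    rw [Finset.mem_filter, Finset.mem_range, gwlQ_prime hp]
    refine ⟨hm.1, ?_, ?_⟩
    · intro hd
      exact absurd (Nat.le_of_dvd (Nat.pos_of_ne_zero hm.2.1) hd) (by omega)
    · intro hd
      apply hm.2.2
      have h1 : (m : ℤ) ≡ n [ZMOD p] := by
        rw [Int.modEq_iff_dvd]
        exact hd
      have h2 : m ≡ n [MOD p] := by
        rwa [Int.natCast_modEq_iff] at h1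
      have h3 : m % p = n % p := h2
      rwa [Nat.mod_eq_of_lt hm.1] at h3
  have h1 := Finset.card_le_card hsub
  have h2 := Finset.le_card_sdiff ({0, n % p} : Finset ℕ) (range p)
  rw [Finset.card_range] at h2
  have h3 : ({0, n % p} : Finset ℕ).card ≤ 2 := Finset.card_le_two
  omega

/-- `∏_{1 ≤ i ≤ j} (1 - 1/(4 i²))` -/
private noncomputable def gwlT (j : ℕ) : ℝ := ∏ i ∈ range j, (1 - 1 / (4 * ((i : ℝ) + 1) ^ 2))

private theorem gwlT_succ (j : ℕ) : gwlT (j + 1) = gwlT j * (1 - 1 / (4 * ((j : ℝ) + 1) ^ 2)) := by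
  unfold gwlT
  rw [Finset.prod_range_succ]

private theorem gwlT_fac (j : ℕ) : (0 : ℝ) ≤ 1 - 1 / (4 * ((j : ℝ) + 1) ^ 2) ∧
    (1 - 1 / (4 * ((j : ℝ) + 1) ^ 2) : ℝ) ≤ 1 := by
  have h : (0 : ℝ) ≤ j := Nat.cast_nonneg j
  constructor
  · rw [sub_nonneg, div_le_one (by positivity)]
    nlinarith
  · have : (0 : ℝ) ≤ 1 / (4 * ((j : ℝ) + 1) ^ 2) := by positivity
    linarith

private theorem gwlT_ge' (j : ℕ) : (3 / 5 : ℝ) + 3 / 20 / ((j : ℝ) + 1) ≤ gwlT (j + 1) := by
  induction j with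
  | zero => unfold gwlT; norm_num
  | succ j ih =>
    rw [gwlT_succ]
    have h : (0 : ℝ) ≤ j := Nat.cast_nonneg j
    refine le_trans ?_ (mul_le_mul_of_nonneg_right ih (gwlT_fac _).1)
    push_cast
    rw [← sub_nonneg]
    have e : ((3 / 5 : ℝ) + 3 / 20 / ((j : ℝ) + 1)) * (1 - 1 / (4 * ((j : ℝ) + 1 + 1) ^ 2)) -
        (3 / 5 + 3 / 20 / ((j : ℝ) + 1 + 1)) = (9 / 80) / (((j : ℝ) + 1) * ((j : ℝ) + 2) ^ 2) := by
      field_simp
      ring
    rw [e]
    positivity

private theorem gwlT_ge (j : ℕ) : (3 / 5 : ℝ) ≤ gwlT j := by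
  rcases j with _ | j
  · unfold gwlT; norm_num
  · have h := gwlT_ge' j
    have : (0 : ℝ) ≤ 3 / 20 / ((j : ℝ) + 1) := by positivity
    linarith

private theorem gwlT_anti (j : ℕ) : gwlT (j + 1) ≤ gwlT j := by
  rw [gwlT_succ]
  have h := gwlT_ge j
  nlinarith [(gwlT_fac j).2]

private theorem gwl_primorial_prime {w : ℕ} (hp : (w + 1).Prime) :
    primorial (w + 1) = (w + 1) * primorial w ∧ Nat.Coprime (w + 1) (primorial w) := by
  constructor
  · unfold primorial
    rw [Finset.range_add_one, Finset.filter_insert, if_pos hp, Finset.prod_insert]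
    simp
  · unfold primorial
    refine Nat.Coprime.prod_right fun q hq => ?_
    rw [Finset.mem_filter, Finset.mem_range] at hq
    exact (Nat.coprime_primes hp hq.2).2 (by omega)

private theorem gwl_primorial_not {w : ℕ} (hp : ¬ (w + 1).Prime) :
    primorial (w + 1) = primorial w := by
  unfold primorial
  rw [Finset.range_add_one, Finset.filter_insert, if_neg hp]

private theorem gwl_two : primorial 2 = 2 := by
  have h0 : primorial 0 = 1 := by simp [primorial, Nat.not_prime_zero]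
  have h1 : primorial (0 + 1) = primorial 0 := gwl_primorial_not (by norm_num)
  have h2 : primorial (1 + 1) = (1 + 1) * primorial 1 :=
    (gwl_primorial_prime (w := 1) (by norm_num)).1
  rw [show (2 : ℕ) = 1 + 1 from rfl, h2, show (1 : ℕ) = 0 + 1 from rfl, h1, h0]

private theorem gwl_R {n : ℕ} (hn : Even n) (w : ℕ) (hw : 2 ≤ w) :
    2 * gwlT ((w - 1) / 2) ≤ ((primorial w : ℝ) / (Nat.totient (primorial w) : ℝ)) ^ 2 *
      (gwlN n (primorial w) : ℝ) / (primorial w : ℝ) := by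
  induction w, hw using Nat.le_induction with
  | base =>
    rw [gwl_two]
    have h1 : (1 : ℝ) ≤ gwlN n 2 := by exact_mod_cast gwlN_two hn
    have h2 : gwlT ((2 - 1) / 2) = 1 := by simp [gwlT]
    rw [h2, Nat.totient_two]
    push_cast
    linarith
  | succ w hw ih =>
    by_cases hp : (w + 1).Prime
    · obtain ⟨h1, h2⟩ := gwl_primorial_prime hp
      have hodd : ¬ 2 ∣ (w + 1) := by
        intro h
        have := (Nat.prime_dvd_prime_iff_eq Nat.prime_two hp).1 h
        omega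
      obtain ⟨j, hj⟩ : ∃ j, w = 2 * (j + 1) := ⟨w / 2 - 1, by omega⟩
      have e1 : (w - 1) / 2 = j := by omega
      have e2 : (w + 1 - 1) / 2 = j + 1 := by omega
      rw [e1] at ih
      rw [e2, gwlT_succ, h1, gwlN_mul hp.pos (primorial_pos w) h2, Nat.totient_mul h2,
        Nat.totient_prime hp]
      have h3 : ((w + 1 - 2 : ℕ) : ℝ) ≤ gwlN n (w + 1) := by exact_mod_cast gwlN_prime hp
      have h4 : ((w + 1 - 2 : ℕ) : ℝ) = 2 * j + 1 := by
        have : w + 1 - 2 = 2 * j + 1 := by omega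
        rw [this]; push_cast; ring
      rw [h4] at h3
      have hwr : (w : ℝ) = 2 * (j + 1) := by rw [hj]; push_cast; ring
      have h5 : ((w + 1 - 1 : ℕ) : ℝ) = 2 * (j + 1) := by rw [Nat.add_sub_cancel, hwr]
      have hP : (0 : ℝ) < primorial w := by exact_mod_cast primorial_pos w
      have hphi : (0 : ℝ) < Nat.totient (primorial w) := by
        exact_mod_cast Nat.totient_pos.2 (primorial_pos w)
      have hj0 : (0 : ℝ) ≤ j := Nat.cast_nonneg j
      set P : ℝ := (primorial w : ℝ) with hPdef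
      set F : ℝ := (Nat.totient (primorial w) : ℝ) with hFdef
      set M : ℝ := (gwlN n (primorial w) : ℝ) with hMdef
      set K : ℝ := (gwlN n (w + 1) : ℝ) with hKdef
      have hM0 : 0 ≤ (P / F) ^ 2 * M / P := by positivity
      have hgoal : ((((w + 1) * primorial w : ℕ) : ℝ) /
          (((w + 1 - 1) * Nat.totient (primorial w) : ℕ) : ℝ)) ^ 2 *
          ((gwlN n (w + 1) * gwlN n (primorial w) : ℕ) : ℝ) /
          (((w + 1) * primorial w : ℕ) : ℝ) =
          ((P / F) ^ 2 * M / P) * ((2 * j + 3) * K / (2 * (j + 1)) ^ 2) := by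
        rw [Nat.cast_mul, Nat.cast_mul, Nat.cast_mul, h5, ← hPdef, ← hFdef, ← hMdef, ← hKdef]
        push_cast
        rw [hwr]
        field_simp
        ring
      rw [hgoal]
      have h6 : (1 - 1 / (4 * ((j : ℝ) + 1) ^ 2)) ≤ (2 * j + 3) * K / (2 * (j + 1)) ^ 2 := by
        have e : (1 - 1 / (4 * ((j : ℝ) + 1) ^ 2)) = (2 * j + 3) * (2 * j + 1) / (2 * (j + 1)) ^ 2 := by
          field_simp
          ring
        rw [e]
        gcongr
      calc 2 * (gwlT j * (1 - 1 / (4 * ((j : ℝ) + 1) ^ 2))) =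
            (2 * gwlT j) * (1 - 1 / (4 * ((j : ℝ) + 1) ^ 2)) := by ring
        _ ≤ ((P / F) ^ 2 * M / P) * (1 - 1 / (4 * ((j : ℝ) + 1) ^ 2)) :=
            mul_le_mul_of_nonneg_right ih (gwlT_fac j).1
        _ ≤ _ := mul_le_mul_of_nonneg_left h6 hM0
    · rw [gwl_primorial_not hp]
      refine le_trans ?_ ih
      rcases Nat.even_or_odd w with he | ho
      · obtain ⟨j, hj⟩ : ∃ j, w = 2 * (j + 1) := ⟨w / 2 - 1, by
          obtain ⟨k, hk⟩ := he; omega⟩
        have e1 : (w - 1) / 2 = j := by omega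
        have e2 : (w + 1 - 1) / 2 = j + 1 := by omega
        rw [e1, e2]
        linarith [gwlT_anti j]
      · have e : (w + 1 - 1) / 2 = (w - 1) / 2 := by
          obtain ⟨k, hk⟩ := ho; omega
        rw [e]

private theorem gwl_primeFactors (w : ℕ) :
    w.factorial.primeFactors = (primorial w).primeFactors := by
  ext p
  rw [Nat.mem_primeFactors, Nat.mem_primeFactors]
  constructor
  · rintro ⟨hp, hd, _⟩
    refine ⟨hp, ?_, (primorial_pos w).ne'⟩
    unfold primorial
    refine Finset.dvd_prod_of_mem (fun p => p) ?_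
    rw [Finset.mem_filter, Finset.mem_range]
    exact ⟨by have := (hp.dvd_factorial).1 hd; omega, hp⟩
  · rintro ⟨hp, hd, _⟩
    refine ⟨hp, ?_, Nat.factorial_ne_zero w⟩
    unfold primorial at hd
    rw [Prime.dvd_finsetProd_iff hp.prime] at hd
    obtain ⟨q, hq, hpq⟩ := hd
    rw [Finset.mem_filter, Finset.mem_range] at hq
    have := (Nat.prime_dvd_prime_iff_eq hp hq.2).1 hpq
    exact (hp.dvd_factorial).2 (by omega)

private theorem gwl_ratio (w : ℕ) : ((w.factorial : ℕ) : ℝ) / (Nat.totient w.factorial : ℝ) =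
    (primorial w : ℝ) / (Nat.totient (primorial w) : ℝ) := by
  have key : ∀ q : ℕ, 0 < q → (q : ℝ) / (Nat.totient q : ℝ) =
      (∏ p ∈ q.primeFactors, (1 - (p : ℝ)⁻¹))⁻¹ := by
    intro q hq
    have h2 := Nat.totient_eq_mul_prod_factors q
    have h3 : (Nat.totient q : ℝ) = q * ∏ p ∈ q.primeFactors, (1 - (p : ℝ)⁻¹) := by
      have h4 := congrArg (fun x : ℚ => (x : ℝ)) h2
      push_cast at h4
      exact h4
    have hq' : (q : ℝ) ≠ 0 := by exact_mod_cast hq.ne'
    rw [h3, div_mul_eq_div_div, div_self hq', one_div]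
  rw [key _ (Nat.factorial_pos w), key _ (primorial_pos w), gwl_primeFactors]

private theorem gwl_coprime (w m : ℕ) :
    Nat.Coprime m w.factorial ↔ Nat.Coprime m (primorial w) := by
  have key : ∀ q : ℕ, 0 < q → (Nat.Coprime m q ↔ ∀ p ∈ q.primeFactors, ¬ p ∣ m) := by
    intro q hq
    constructor
    · intro h p hp hpm
      have h1 := Nat.prime_of_mem_primeFactors hp
      have h2 := Nat.dvd_gcd hpm (Nat.dvd_of_mem_primeFactors hp)
      rw [Nat.Coprime] at h
      rw [h] at h2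
      exact h1.one_lt.ne' (Nat.dvd_one.1 h2)
    · intro h
      refine Nat.coprime_of_dvd fun p hp hpm hpq => ?_
      exact h p (Nat.mem_primeFactors.2 ⟨hp, hpq, hq.ne'⟩) hpm
  rw [key _ (Nat.factorial_pos w), key _ (primorial_pos w), gwl_primeFactors]

private theorem gwl_periods (n P j : ℕ) :
    ((Ico 1 (1 + j * P)).filter (gwlQ n P)).card = j * gwlN n P := by
  have hper : Function.Periodic (gwlQ n P) P := by
    intro m
    have h1 := gwlQ_mod_dvd (n := n) (m := m + P) (dvd_refl P)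
    have h2 := gwlQ_mod_dvd (n := n) (m := m) (dvd_refl P)
    rw [Nat.add_mod_right] at h1
    exact propext (h1.symm.trans h2)
  have hc : Nat.count (gwlQ n P) P = gwlN n P := by
    rw [Nat.count_eq_card_filter_range]
    rfl
  induction j with
  | zero => simp
  | succ j ih =>
    have hsplit : Ico 1 (1 + (j + 1) * P) = Ico 1 (1 + j * P) ∪ Ico (1 + j * P) (1 + j * P + P) := by
      rw [Finset.Ico_union_Ico_eq_Ico (by omega) (by omega)]
      congr 1
      ring
    rw [hsplit, Finset.filter_union, Finset.card_union_of_disjoint, ih,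
      Nat.filter_Ico_card_eq_of_periodic _ _ _ hper, hc]
    · ring
    · refine Finset.disjoint_filter_filter ?_
      exact Finset.Ico_disjoint_Ico_consecutive _ _ _

theorem gw_lower (w : ℕ) (hw : 2 ≤ w) : ∃ C : ℝ, ∀ X n : ℕ, n ≤ X → Even n →
    (6 / 5 : ℝ) * n - C ≤ cv X (lw w.factorial X) (lw w.factorial X) n := by
  set a : ℝ := ((w.factorial : ℕ) : ℝ) / (Nat.totient w.factorial : ℝ) with ha
  set P : ℕ := primorial w with hP
  have hPpos : 0 < P := primorial_pos w
  have hPr : (0 : ℝ) < P := by exact_mod_cast hPpos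
  refine ⟨a ^ 2 * P, fun X n hnX hn => ?_⟩
  have ha0 : 0 ≤ a := by positivity
  have hlw0 : ∀ m, 0 ≤ lw w.factorial X m := by
    intro m
    unfold lw
    split_ifs
    · exact ha0
    · exact le_refl 0
  set j : ℕ := (n - 1) / P with hj
  have hjP : n ≤ (j + 1) * P := by
    have h1 := Nat.div_add_mod (n - 1) P
    have h2 := Nat.mod_lt (n - 1) hPpos
    rw [← hj] at h1
    rw [Nat.add_mul, one_mul, mul_comm j P]
    omega
  have hj1 : j * P ≤ n - 1 := Nat.div_mul_le_self _ _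
  set S := (Ico 1 (1 + j * P)).filter (gwlQ n P) with hS
  have hScard : S.card = j * gwlN n P := gwl_periods n P j
  have hmem : ∀ m ∈ S, 1 ≤ m ∧ m < n ∧ Nat.Coprime m w.factorial ∧
      Nat.Coprime (n - m) w.factorial := by
    intro m hm
    rw [hS, Finset.mem_filter, Finset.mem_Ico] at hm
    obtain ⟨⟨hm1, hm2⟩, hm3, hm4⟩ := hm
    have hmn : m < n := by omega
    refine ⟨hm1, hmn, (gwl_coprime w m).2 hm3, (gwl_coprime w _).2 ?_⟩
    have : ((n : ℤ) - m) = ((n - m : ℕ) : ℤ) := by push_cast [hmn.le]; ring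
    rw [this, Int.gcd_natCast_natCast] at hm4
    exact hm4
  have hcv : a ^ 2 * S.card ≤ cv X (lw w.factorial X) (lw w.factorial X) n := by
    unfold cv
    have hsub : S ⊆ Icc 1 X := by
      intro m hm
      have := hmem m hm
      rw [Finset.mem_Icc]
      omega
    have hnn : ∀ m ∈ Icc 1 X, 0 ≤ ∑ k ∈ Icc 1 X,
        if m + k = n then lw w.factorial X m * lw w.factorial X k else 0 := by
      intro m _
      refine Finset.sum_nonneg fun k _ => ?_
      split_ifs
      · exact mul_nonneg (hlw0 m) (hlw0 k)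
      · exact le_refl 0
    refine le_trans ?_ (Finset.sum_le_sum_of_subset_of_nonneg hsub (fun m hm _ => hnn m hm))
    have hterm : ∀ m ∈ S, a ^ 2 ≤ ∑ k ∈ Icc 1 X,
        if m + k = n then lw w.factorial X m * lw w.factorial X k else 0 := by
      intro m hm
      obtain ⟨h1, h2, h3, h4⟩ := hmem m hm
      have hk : n - m ∈ Icc 1 X := by
        rw [Finset.mem_Icc]; omega
      refine le_trans (le_of_eq ?_) (Finset.single_le_sum (f := fun k =>
        if m + k = n then lw w.factorial X m * lw w.factorial X k else 0) ?_ hk)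
      · rw [if_pos (by omega)]
        unfold lw
        rw [if_pos ⟨h1, by omega, h3⟩, if_pos ⟨by omega, by omega, h4⟩]
        ring
      · intro k _
        split_ifs
        · exact mul_nonneg (hlw0 m) (hlw0 k)
        · exact le_refl 0
    calc a ^ 2 * S.card = ∑ _m ∈ S, a ^ 2 := by rw [Finset.sum_const, nsmul_eq_mul]; ring
      _ ≤ _ := Finset.sum_le_sum hterm
  refine le_trans ?_ hcv
  rw [hScard]
  have hR := gwl_R hn w hw
  rw [← gwl_ratio w, ← ha, ← hP] at hR
  have hT := gwlT_ge ((w - 1) / 2)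
  have hN : (gwlN n P : ℝ) ≤ P := by
    have : gwlN n P ≤ P := by
      unfold gwlN
      exact (Finset.card_filter_le _ _).trans (by simp)
    exact_mod_cast this
  have hjr : (n : ℝ) ≤ ((j : ℝ) + 1) * P := by exact_mod_cast hjP
  have h65 : (6 / 5 : ℝ) * P ≤ a ^ 2 * (gwlN n P : ℝ) := by
    have : (6 / 5 : ℝ) ≤ a ^ 2 * (gwlN n P : ℝ) / P := by linarith
    rwa [le_div_iff₀ hPr] at this
  have hN0 : (0 : ℝ) ≤ gwlN n P := Nat.cast_nonneg _
  push_cast
  have h7 : (6 / 5 : ℝ) * n ≤ a ^ 2 * (gwlN n P : ℝ) * ((j : ℝ) + 1) := by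
    have h8 : (6 / 5 : ℝ) * n ≤ (6 / 5 : ℝ) * P * ((j : ℝ) + 1) := by nlinarith
    refine h8.trans ?_
    exact mul_le_mul_of_nonneg_right h65 (by positivity)
  have h9 : a ^ 2 * (gwlN n P : ℝ) ≤ a ^ 2 * P := mul_le_mul_of_nonneg_left hN (by positivity)
  nlinarith

end Pool.MP_dd84fd_nt.L2G
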