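import Pool.Agent.Lib.MP_dd84fd_nt.L2G.HBId
import Pool.Agent.Lib.MP_dd84fd_nt.L2G.Classify
import Pool.Agent.Lib.MP_dd84fd_nt.L2G.BoxCharII
import Pool.Agent.Lib.MP_dd84fd_nt.L2G.BoxCharI2
import Pool.Agent.Lib.MP_dd84fd_nt.L2G.HBBound
import Pool.Agent.Lib.MP_dd84fd_nt.L2G.CharOrth

set_option autoImplicit false

namespace Pool.MP_dd84fd_nt.L2G

open Finset Pool.MP_67663b_nt.Odd

private lemma GoodBad_log_pow_le (δ : ℝ) (hδ : 0 < δ) (C : ℝ) (k : ℕ) :
    ∀ᶠ X : ℕ in Filter.atTop, C * Real.log X ^ k ≤ (X : ℝ) ^ δ := by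
  have h := isLittleO_log_rpow_rpow_atTop (k : ℝ) hδ
  have h2 : (fun x : ℝ => C * Real.log x ^ (k : ℝ)) =o[Filter.atTop] (fun x : ℝ => x ^ δ) :=
    h.const_mul_left C
  have h3 := (h2.bound (one_pos)).and (Filter.eventually_ge_atTop (1 : ℝ))
  have h4 := (tendsto_natCast_atTop_atTop (R := ℝ)).eventually h3
  filter_upwards [h4] with X hX
  obtain ⟨hX1, hX2⟩ := hX
  rw [Real.norm_eq_abs, Real.norm_eq_abs, one_mul, abs_of_nonneg (a := (X : ℝ) ^ δ) (by positivity),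
    Real.rpow_natCast] at hX1
  exact le_trans (le_abs_self _) hX1

private lemma GoodBad_log_ge (C : ℝ) : ∀ᶠ X : ℕ in Filter.atTop, C ≤ Real.log X :=
  (Real.tendsto_log_atTop.comp (tendsto_natCast_atTop_atTop (R := ℝ))).eventually
    (Filter.eventually_ge_atTop C)

private lemma GoodBad_Tc_congr (X q : ℕ) (f g : ℕ → ℝ) (θ : ℝ) (χ : DirichletCharacter ℂ q)
    (h : ∀ n, 1 ≤ n → n ≤ X → f n = g n) : Tc X q f θ χ = Tc X q g θ χ := by
  unfold Tc
  refine Finset.sum_congr rfl fun n hn => ?_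
  obtain ⟨h1, h2⟩ := Finset.mem_Icc.1 hn
  rw [h n h1 h2]

private lemma GoodBad_Tc_sum {ι : Type*} (X q : ℕ) (V : Finset ι) (a : ι → ℝ) (F : ι → ℕ → ℝ)
    (θ : ℝ) (χ : DirichletCharacter ℂ q) :
    ‖Tc X q (fun n => ∑ v ∈ V, a v * F v n) θ χ‖ ^ 2 ≤
      (V.card : ℝ) * ∑ v ∈ V, a v ^ 2 * ‖Tc X q (F v) θ χ‖ ^ 2 := by
  have e2 : Tc X q (fun n => ∑ v ∈ V, a v * F v n) θ χ = ∑ v ∈ V, (a v : ℂ) * Tc X q (F v) θ χ := by
    unfold Tc
    simp_rw [Finset.mul_sum]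
    rw [Finset.sum_comm]
    refine Finset.sum_congr rfl fun n _ => ?_
    push_cast
    rw [Finset.sum_mul, Finset.sum_mul]
    refine Finset.sum_congr rfl fun v _ => ?_
    ring
  rw [e2]
  have h1 : ‖∑ v ∈ V, (a v : ℂ) * Tc X q (F v) θ χ‖ ≤ ∑ v ∈ V, |a v| * ‖Tc X q (F v) θ χ‖ := by
    refine le_trans (norm_sum_le _ _) (Finset.sum_le_sum fun v _ => ?_)
    rw [norm_mul, Complex.norm_real, Real.norm_eq_abs]
  calc ‖∑ v ∈ V, (a v : ℂ) * Tc X q (F v) θ χ‖ ^ 2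
      ≤ (∑ v ∈ V, |a v| * ‖Tc X q (F v) θ χ‖) ^ 2 := by gcongr
    _ ≤ (V.card : ℝ) * ∑ v ∈ V, (|a v| * ‖Tc X q (F v) θ χ‖) ^ 2 := sq_sum_le_card_mul_sum_sq
    _ = _ := by
        congr 1
        refine Finset.sum_congr rfl fun v _ => ?_
        rw [mul_pow, sq_abs]

private lemma GoodBad_Tc_ms (X q : ℕ) [NeZero q] (f : ℕ → ℝ) (θ : ℝ)
    (𝓖 : Finset (DirichletCharacter ℂ q)) :
    ∑ χ ∈ 𝓖, ‖Tc X q f θ χ‖ ^ 2 ≤ ((X : ℝ) + q) * ∑ n ∈ Icc 1 X, f n ^ 2 := by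
  have h := char_ms q 0 X (fun n => (f n : ℂ) * ee (n * θ))
  have hI : Ioc 0 (0 + X) = Icc 1 X := by
    ext n
    simp only [Finset.mem_Ioc, Finset.mem_Icc]
    omega
  rw [hI] at h
  have e1 : ∀ χ : DirichletCharacter ℂ q,
      ∑ n ∈ Icc 1 X, (f n : ℂ) * ee (n * θ) * χ n = Tc X q f θ χ := by
    intro χ
    unfold Tc
    refine Finset.sum_congr rfl fun n _ => ?_
    ring
  simp only [e1] at h
  have e2 : ∀ n : ℕ, ‖(f n : ℂ) * ee (n * θ)‖ ^ 2 = f n ^ 2 := by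
    intro n
    have : ‖ee ((n : ℝ) * θ)‖ = 1 := by
      unfold ee
      rw [Complex.norm_exp]
      simp
    rw [norm_mul, this, mul_one, Complex.norm_real, Real.norm_eq_abs, sq_abs]
  simp only [e2] at h
  refine le_trans ?_ h
  exact Finset.sum_le_univ_sum_of_nonneg fun χ => sq_nonneg _

private lemma GoodBad_cc_abs (v : Fin 6 → ℕ) : cc v ^ 2 ≤ 49 := by
  unfold cc
  split_ifs <;> norm_num

theorem good_bad (ε : ℝ) (hε : 0 < ε) (hε1 : ε < 1) (A B : ℕ) : ∃ C X0 : ℕ, ∀ X : ℕ, X0 ≤ X →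
    ∀ (q : ℕ) [NeZero q], (q : ℝ) ≤ (X : ℝ) ^ (2 / 3 - ε) → ∀ (r : ℕ) (y : ℤ) (β : ℝ), 1 ≤ r →
    (r : ℝ) ≤ Real.log X ^ B → Nat.Coprime r q → |β| ≤ Real.log X ^ B / X →
      ∃ 𝓑 : Finset (DirichletCharacter ℂ q), (𝓑.card : ℝ) ≤ Real.log X ^ C ∧
        ∀ 𝓖 : Finset (DirichletCharacter ℂ q), Disjoint 𝓖 𝓑 → (1 : DirichletCharacter ℂ q) ∉ 𝓖 →
          ∑ χ ∈ 𝓖, ‖Tc X q (la X) (y / r + β) χ‖ ^ 2 ≤ X ^ 2 / Real.log X ^ A := by
  classical
  obtain ⟨C1, X1, hB1⟩ := box_char_II ε hε hε1 (A + 13) B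
  obtain ⟨X2, hB2⟩ := box_char_I2 ε hε hε1 (A + 13) B
  obtain ⟨X3, hX3⟩ := Filter.eventually_atTop.1 (((GoodBad_log_ge (4 * (2 ^ 12 * 49))).and
    (GoodBad_log_pow_le (1 / 2) (by norm_num) 16 (A + 2))).and (Filter.eventually_ge_atTop 2))
  refine ⟨C1 + 7, max X1 (max X2 X3), fun X hX q _ hqX r y β hr hrB hcop hβ => ?_⟩
  obtain ⟨⟨hL, hLX⟩, hXge⟩ := hX3 X (le_trans (le_trans (le_max_right _ _) (le_max_right _ _)) hX)
  have hbox1 := hB1 X (le_trans (le_max_left _ _) hX) q hqX r y β hr hrB hβ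
  have hbox2 := hB2 X (le_trans (le_trans (le_max_left _ _) (le_max_right _ _)) hX) q hqX r y β hr
    hrB hcop hβ
  have hXpos : (0 : ℝ) < X := by exact_mod_cast (by omega : 0 < X)
  have hX1' : (1 : ℝ) ≤ X := by exact_mod_cast (by omega : 1 ≤ X)
  have hq1 : 1 ≤ q := Nat.one_le_iff_ne_zero.2 (NeZero.ne q)
  have hqpos : (0 : ℝ) < q := by exact_mod_cast (by omega : 0 < q)
  have hqX3 : (q : ℝ) ≤ X := by
    refine hqX.trans ?_
    calc (X : ℝ) ^ (2 / 3 - ε) ≤ (X : ℝ) ^ (1 : ℝ) :=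
          Real.rpow_le_rpow_of_exponent_le hX1' (by linarith)
      _ = X := Real.rpow_one _
  set L : ℝ := Real.log X with hLdef
  have hL0 : (0 : ℝ) < L := by linarith
  set z : ℕ := ⌊(X : ℝ) ^ (1 / 3 : ℝ)⌋₊ with hz
  set J : ℕ := Nat.log 2 X + 1 with hJ
  have hzle : (z : ℝ) ≤ (X : ℝ) ^ (1 / 3 : ℝ) := Nat.floor_le (by positivity)
  have hz3 : X < (z + 1) ^ 3 := by
    have h1 : (X : ℝ) ^ (1 / 3 : ℝ) < z + 1 := Nat.lt_floor_add_one _
    have h2 : (X : ℝ) < ((z : ℝ) + 1) ^ 3 := by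
      calc (X : ℝ) = ((X : ℝ) ^ (1 / 3 : ℝ)) ^ 3 := by
            rw [← Real.rpow_natCast, ← Real.rpow_mul hXpos.le]; norm_num
        _ < ((z : ℝ) + 1) ^ 3 := by gcongr
    exact_mod_cast h2
  have hJ2 : X < 2 ^ J := Nat.lt_pow_succ_log_self (by norm_num) X
  have hJL : (J : ℝ) ≤ 2 * L := by
    have h1 : ((Nat.log 2 X : ℕ) : ℝ) * Real.log 2 ≤ L := by
      rw [← Real.log_pow]
      apply Real.log_le_log (by positivity)
      exact_mod_cast Nat.pow_log_le_self 2 (by omega)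
    have h2 : (0.69 : ℝ) < Real.log 2 := by
      have := Real.log_two_gt_d9; linarith
    have h3 : (0 : ℝ) ≤ ((Nat.log 2 X : ℕ) : ℝ) := by positivity
    rw [hJ]
    push_cast
    nlinarith
  set V : Finset (Fin 6 → ℕ) := Fintype.piFinset (fun _ : Fin 6 => range J) with hV
  have hVcard : (V.card : ℝ) ≤ (2 * L) ^ 6 := by
    rw [hV, Fintype.card_piFinset]
    simp only [card_range, prod_const, card_univ, Fintype.card_fin]
    push_cast
    gcongr
  -- the bad set of one box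
  have hone : ∀ v : Fin 6 → ℕ, ∃ 𝓑 : Finset (DirichletCharacter ℂ q), (𝓑.card : ℝ) ≤ L ^ C1 ∧
      ∀ 𝓖 : Finset (DirichletCharacter ℂ q), Disjoint 𝓖 𝓑 → (1 : DirichletCharacter ℂ q) ∉ 𝓖 →
        ∑ χ ∈ 𝓖, ‖Tc X q (fun n => TT z v n) (y / r + β) χ‖ ^ 2 ≤ X ^ 2 / L ^ (A + 13) := by
    intro v
    by_cases hgood : (∏ j, 2 ^ v j ≤ X) ∧ ∀ j : Fin 6, 3 ≤ (j : ℕ) → 2 ^ v j ≤ z
    · obtain ⟨hg1, hg2⟩ := hgood
      rcases classify X z (ε / 2) (by positivity) hXge hzle v hg1 hg2 with ⟨S, hS1, hS2⟩ |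
        ⟨a, b, hab, ha, hb', hvab, hsmall⟩
      · obtain ⟨𝓑, h1, h2⟩ := hbox1 z v S hS1 hS2
        exact ⟨𝓑, h1, fun 𝓖 hd _ => h2 𝓖 hd⟩
      · refine ⟨∅, ?_, fun 𝓖 _ h1 => hbox2 z v a b hab ha hb' hvab hg1 hsmall 𝓖 h1⟩
        rw [Finset.card_empty, Nat.cast_zero]
        positivity
    · have hzero : ∀ n, 1 ≤ n → n ≤ X → TT z v n = 0 := by
        intro n hn1 hn2
        by_contra hne
        apply hgood
        constructor
        · exact le_trans (prod_support z v univ n hne).1 hn2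
        · intro j hj
          by_contra hlt
          push Not at hlt
          apply hne
          have h0 : TT z v = 0 := by
            unfold TT
            exact Finset.prod_eq_zero (Finset.mem_univ j) (bf_zero z j (v j) hj hlt)
          rw [h0]; simp
      refine ⟨∅, ?_, fun 𝓖 _ _ => ?_⟩
      · rw [Finset.card_empty, Nat.cast_zero]
        positivity
      · have h0 : ∀ χ ∈ 𝓖, ‖Tc X q (fun n => TT z v n) (y / r + β) χ‖ ^ 2 = 0 := by
          intro χ _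
          rw [GoodBad_Tc_congr X q _ (fun _ => 0) _ χ hzero]
          unfold Tc
          simp
        rw [Finset.sum_eq_zero h0]
        positivity
  choose bad hbad1 hbad2 using hone
  refine ⟨V.biUnion bad, ?_, fun 𝓖 hdisj h1G => ?_⟩
  · have e1 : ((V.biUnion bad).card : ℝ) ≤ ∑ v ∈ V, ((bad v).card : ℝ) := by
      exact_mod_cast Finset.card_biUnion_le
    refine e1.trans ((Finset.sum_le_sum fun v _ => hbad1 v).trans ?_)
    rw [Finset.sum_const, nsmul_eq_mul]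
    calc (V.card : ℝ) * L ^ C1 ≤ (2 * L) ^ 6 * L ^ C1 := by gcongr
      _ = 64 * (L ^ 6 * L ^ C1) := by ring
      _ ≤ L * (L ^ 6 * L ^ C1) := by
          refine mul_le_mul_of_nonneg_right ?_ (by positivity)
          linarith
      _ = L ^ (C1 + 7) := by rw [pow_add]; ring
  -- the sum over the good characters
  have hLam : ∑ χ ∈ 𝓖, ‖Tc X q (fun n => ArithmeticFunction.vonMangoldt n) (y / r + β) χ‖ ^ 2
      ≤ X ^ 2 / L ^ A / 4 := by
    have hs : ∀ χ ∈ 𝓖, ‖Tc X q (fun n => ArithmeticFunction.vonMangoldt n) (y / r + β) χ‖ ^ 2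
        ≤ (V.card : ℝ) * ∑ v ∈ V, cc v ^ 2 * ‖Tc X q (fun n => TT z v n) (y / r + β) χ‖ ^ 2 := by
      intro χ _
      rw [GoodBad_Tc_congr X q _ (fun n => ∑ v ∈ V, cc v * TT z v n) _ χ
        (fun n h1 h2 => hb z X J hz3 hJ2 n h1 h2)]
      exact GoodBad_Tc_sum X q V cc (fun v n => TT z v n) _ χ
    refine (Finset.sum_le_sum hs).trans ?_
    rw [← Finset.mul_sum, Finset.sum_comm]
    have hv : ∀ v ∈ V, ∑ χ ∈ 𝓖, cc v ^ 2 * ‖Tc X q (fun n => TT z v n) (y / r + β) χ‖ ^ 2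
        ≤ 49 * (X ^ 2 / L ^ (A + 13)) := by
      intro v hv
      rw [← Finset.mul_sum]
      have hd : Disjoint 𝓖 (bad v) :=
        Finset.disjoint_of_subset_right (Finset.subset_biUnion_of_mem bad hv) hdisj
      have := hbad2 v 𝓖 hd h1G
      exact mul_le_mul (GoodBad_cc_abs v) this (Finset.sum_nonneg fun χ _ => sq_nonneg _)
        (by norm_num)
    calc (V.card : ℝ) * ∑ v ∈ V, ∑ χ ∈ 𝓖, cc v ^ 2 *
          ‖Tc X q (fun n => TT z v n) (y / r + β) χ‖ ^ 2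
        ≤ (V.card : ℝ) * ((V.card : ℝ) * (49 * (X ^ 2 / L ^ (A + 13)))) := by
          refine mul_le_mul_of_nonneg_left ?_ (by positivity)
          rw [← nsmul_eq_mul, ← Finset.sum_const]
          exact Finset.sum_le_sum hv
      _ ≤ (2 * L) ^ 6 * ((2 * L) ^ 6 * (49 * (X ^ 2 / L ^ (A + 13)))) := by gcongr
      _ = (4 * (2 ^ 12 * 49) / L) * (X ^ 2 / L ^ A / 4) := by
          rw [pow_add L A 13]; field_simp
      _ ≤ 1 * (X ^ 2 / L ^ A / 4) := by
          refine mul_le_mul_of_nonneg_right ?_ (by positivity)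
          rw [div_le_one hL0]
          exact hL
      _ = _ := one_mul _
  -- prime powers
  set g : ℕ → ℝ := fun n => la X n - ArithmeticFunction.vonMangoldt n with hg
  have hgabs : ∀ n ∈ Icc 1 X, |g n| = ArithmeticFunction.vonMangoldt n -
      (if n.Prime then Real.log n else 0) := by
    intro n hn
    obtain ⟨hn1, hn2⟩ := Finset.mem_Icc.1 hn
    simp only [hg, la]
    by_cases hp : n.Prime
    · simp [hp, hn2, ArithmeticFunction.vonMangoldt_apply_prime hp]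
    · simp [hp]
  have hgsum : ∑ n ∈ Icc 1 X, |g n| ≤ 2 * √X * L := by
    rw [Finset.sum_congr rfl hgabs, Finset.sum_sub_distrib]
    have h2 := Chebyshev.psi_sub_theta_le (x := (X : ℝ)) hX1'
    have h3 : Chebyshev.psi (X : ℝ) = ∑ n ∈ Icc 1 X, ArithmeticFunction.vonMangoldt n := by
      unfold Chebyshev.psi
      rw [Nat.floor_natCast]
      rfl
    have h4 : Chebyshev.theta (X : ℝ) = ∑ n ∈ Icc 1 X, (if n.Prime then Real.log n else 0) := by
      unfold Chebyshev.theta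
      rw [Nat.floor_natCast, Finset.sum_filter]
      rfl
    rw [h3, h4] at h2
    exact h2
  have hgL : ∀ n ∈ Icc 1 X, |g n| ≤ L := by
    intro n hn
    obtain ⟨hn1, hn2⟩ := Finset.mem_Icc.1 hn
    rw [hgabs n hn]
    have e1 : ArithmeticFunction.vonMangoldt n ≤ Real.log n :=
      ArithmeticFunction.vonMangoldt_le_log
    have e2 : Real.log n ≤ L :=
      Real.log_le_log (by exact_mod_cast hn1) (by exact_mod_cast hn2)
    have e3 : (0 : ℝ) ≤ (if n.Prime then Real.log n else 0) := by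
      split_ifs
      · exact Real.log_natCast_nonneg n
      · exact le_rfl
    linarith
  have hgsq : ∑ n ∈ Icc 1 X, g n ^ 2 ≤ L * (2 * √X * L) := by
    calc ∑ n ∈ Icc 1 X, g n ^ 2 ≤ ∑ n ∈ Icc 1 X, L * |g n| := by
          refine Finset.sum_le_sum fun n hn => ?_
          rw [← sq_abs, sq]
          exact mul_le_mul_of_nonneg_right (hgL n hn) (abs_nonneg _)
      _ = L * ∑ n ∈ Icc 1 X, |g n| := by rw [Finset.mul_sum]
      _ ≤ _ := mul_le_mul_of_nonneg_left hgsum hL0.le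
  have hG2 : ∑ χ ∈ 𝓖, ‖Tc X q g (y / r + β) χ‖ ^ 2 ≤ X ^ 2 / L ^ A / 4 := by
    refine (GoodBad_Tc_ms X q g _ 𝓖).trans ?_
    calc ((X : ℝ) + q) * ∑ n ∈ Icc 1 X, g n ^ 2 ≤ (X + X) * (L * (2 * √X * L)) := by
          refine mul_le_mul (by linarith) hgsq (Finset.sum_nonneg fun n _ => sq_nonneg _)
            (by positivity)
      _ = (16 * L ^ (A + 2)) * (X * √X) / L ^ A / 4 := by
          rw [pow_add]
          field_simp
          ring
      _ ≤ ((X : ℝ) ^ (1 / 2 : ℝ)) * (X * √X) / L ^ A / 4 := by gcongr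
      _ = X ^ 2 / L ^ A / 4 := by
          rw [← Real.sqrt_eq_rpow]
          have : √(X : ℝ) * (X * √X) = X ^ 2 := by
            have h := Real.mul_self_sqrt hXpos.le
            calc √(X : ℝ) * (X * √X) = X * (√X * √X) := by ring
              _ = X ^ 2 := by rw [h]; ring
          rw [this]
  have hfin : ∀ χ ∈ 𝓖, ‖Tc X q (la X) (y / r + β) χ‖ ^ 2 ≤
      2 * ‖Tc X q (fun n => ArithmeticFunction.vonMangoldt n) (y / r + β) χ‖ ^ 2
        + 2 * ‖Tc X q g (y / r + β) χ‖ ^ 2 := by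
    intro χ _
    have e1 : Tc X q (la X) (y / r + β) χ
        = Tc X q (fun n => ArithmeticFunction.vonMangoldt n) (y / r + β) χ
          + Tc X q g (y / r + β) χ := by
      unfold Tc
      rw [← Finset.sum_add_distrib]
      refine Finset.sum_congr rfl fun n _ => ?_
      rw [hg]
      push_cast
      ring
    rw [e1]
    have e2 := norm_add_le (Tc X q (fun n => ArithmeticFunction.vonMangoldt n) (y / r + β) χ)
      (Tc X q g (y / r + β) χ)
    have e3 := pow_le_pow_left₀ (norm_nonneg _) e2 2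
    refine e3.trans ?_
    have e4 := sq_nonneg (‖Tc X q (fun n => ArithmeticFunction.vonMangoldt n) (y / r + β) χ‖
      - ‖Tc X q g (y / r + β) χ‖)
    linarith [e4, sq_nonneg (‖Tc X q g (y / r + β) χ‖), add_sq
      ‖Tc X q (fun n => ArithmeticFunction.vonMangoldt n) (y / r + β) χ‖
      ‖Tc X q g (y / r + β) χ‖, sub_sq
      ‖Tc X q (fun n => ArithmeticFunction.vonMangoldt n) (y / r + β) χ‖
      ‖Tc X q g (y / r + β) χ‖]
  refine (Finset.sum_le_sum hfin).trans ?_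
  rw [Finset.sum_add_distrib, ← Finset.mul_sum, ← Finset.mul_sum]
  linarith

end Pool.MP_dd84fd_nt.L2G
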