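import Pool.Agent.Lib.MP_dd84fd_nt.L2G.HBDefs

set_option autoImplicit false
set_option linter.unusedSimpArgs false

namespace Pool.MP_dd84fd_nt.L2G

open Finset Pool.MP_67663b_nt.Odd

/-- agreement up to `n` -/
private def Agr (n : ℕ) (f g : ArithmeticFunction ℝ) : Prop := ∀ m, m ≤ n → f m = g m

private theorem Agr.mul {n : ℕ} {f f' g g' : ArithmeticFunction ℝ} (hf : Agr n f f')
    (hg : Agr n g g') : Agr n (f * g) (f' * g') := by
  intro m hm
  rw [ArithmeticFunction.mul_apply, ArithmeticFunction.mul_apply]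
  refine Finset.sum_congr rfl fun p hp => ?_
  obtain ⟨h1, h2⟩ := Nat.mem_divisorsAntidiagonal.1 hp
  have h3 : p.1 ≤ m := Nat.divisor_le (Nat.mem_divisors.2 ⟨⟨p.2, h1.symm⟩, h2⟩)
  have h4 : p.2 ≤ m := Nat.divisor_le (Nat.mem_divisors.2 ⟨⟨p.1, by rw [mul_comm]; exact h1.symm⟩, h2⟩)
  rw [hf _ (h3.trans hm), hg _ (h4.trans hm)]

private theorem Agr.refl {n : ℕ} (f : ArithmeticFunction ℝ) : Agr n f f := fun _ _ => rfl

private theorem mul_supp {f g : ArithmeticFunction ℝ} {A B : ℕ} (hf : ∀ m, m < A → f m = 0)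
    (hg : ∀ m, m < B → g m = 0) : ∀ m, m < A * B → (f * g) m = 0 := by
  intro m hm
  rw [ArithmeticFunction.mul_apply]
  refine Finset.sum_eq_zero fun p hp => ?_
  obtain ⟨h1, h2⟩ := Nat.mem_divisorsAntidiagonal.1 hp
  by_cases h3 : p.1 < A
  · rw [hf _ h3, zero_mul]
  · by_cases h4 : p.2 < B
    · rw [hg _ h4, mul_zero]
    · exfalso
      push Not at h3 h4
      have := Nat.mul_le_mul h3 h4
      omega

/-- weighted sums over the boxes -/
private theorem box_sum (z J : ℕ) (w : Fin 6 → ℕ → ℝ) (n : ℕ) :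
    ∑ v ∈ Fintype.piFinset (fun _ : Fin 6 => range J), (∏ j, w j (v j)) * TT z v n =
      (∏ j, ∑ i ∈ range J, w j i • bf z j i) n := by
  rw [Finset.prod_univ_sum]
  have h0 : ∀ (s : Finset (Fin 6 → ℕ)) (f : (Fin 6 → ℕ) → ArithmeticFunction ℝ),
      (∑ v ∈ s, f v) n = ∑ v ∈ s, f v n := by
    intro s f
    classical
    induction s using Finset.induction_on with
    | empty => simp
    | insert a s ha ih => rw [Finset.sum_insert ha, Finset.sum_insert ha,
        ArithmeticFunction.add_apply, ih]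
  rw [h0]
  refine Finset.sum_congr rfl fun v _ => ?_
  have h1 : ∏ j, w j (v j) • bf z j (v j) = (∏ j, w j (v j)) • ∏ j, bf z j (v j) := by
    rw [Finset.prod_smul]
  rw [h1]
  rfl

private theorem restr_sum (f : ArithmeticFunction ℝ) (J n : ℕ) (hn : n < 2 ^ J) :
    Agr n (∑ i ∈ range J, (1 : ℝ) • restr f i) f := by
  intro m hm
  have h0 : ∀ (s : Finset ℕ) (f : ℕ → ArithmeticFunction ℝ),
      (∑ v ∈ s, f v) m = ∑ v ∈ s, f v m := by
    intro s f
    classical
    induction s using Finset.induction_on with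
    | empty => simp
    | insert a s ha ih => rw [Finset.sum_insert ha, Finset.sum_insert ha,
        ArithmeticFunction.add_apply, ih]
  rw [h0]
  rcases Nat.eq_zero_or_pos m with rfl | hm0
  · simp
  · rw [Finset.sum_eq_single (Nat.log 2 m)]
    · rw [one_smul]
      have h1 : 2 ^ Nat.log 2 m ≤ m := Nat.pow_log_le_self 2 (by omega)
      have h2 : m < 2 ^ (Nat.log 2 m + 1) := Nat.lt_pow_succ_log_self (by norm_num) m
      exact if_pos ⟨h1, h2⟩
    · intro i _ hi
      rw [one_smul]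
      refine if_neg ?_
      rintro ⟨h1, h2⟩
      apply hi
      symm
      rw [Nat.log_eq_iff (Or.inr ⟨by norm_num, by omega⟩)]
      exact ⟨h1, h2⟩
    · intro h
      exfalso
      apply h
      rw [Finset.mem_range]
      exact Nat.log_lt_of_lt_pow (by omega) (by omega)

private theorem restr_unit (f : ArithmeticFunction ℝ) (J : ℕ) (hJ : 1 ≤ J) (hf : f 1 = 1) :
    ∑ i ∈ range J, (if i = 0 then (1 : ℝ) else 0) • restr f i = 1 := by
  rw [Finset.sum_eq_single 0]
  · rw [if_pos rfl, one_smul]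
    ext m
    by_cases hm : m = 1
    · subst hm
      have h1 : restr f 0 1 = f 1 := by
        change (if 2 ^ 0 ≤ 1 ∧ 1 < 2 ^ (0 + 1) then f 1 else 0) = f 1
        exact if_pos ⟨by norm_num, by norm_num⟩
      rw [h1, hf, ArithmeticFunction.one_one]
    · have h1 : restr f 0 m = 0 := by
        refine if_neg ?_
        rintro ⟨h2, h3⟩
        norm_num at h2 h3
        omega
      rw [h1, ArithmeticFunction.one_apply_ne hm]
  · intro i _ hi
    rw [if_neg hi, zero_smul]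
  · intro h
    exact absurd (Finset.mem_range.2 (by omega)) h

theorem hb (z X J : ℕ) (hz : X < (z + 1) ^ 3) (hJ : X < 2 ^ J) (n : ℕ) (hn : 1 ≤ n) (hnX : n ≤ X) :
    ArithmeticFunction.vonMangoldt n =
      ∑ v ∈ Fintype.piFinset (fun _ : Fin 6 => range J), cc v * TT z v n := by
  have hz1 : 1 ≤ z := by
    by_contra h
    have : z = 0 := by omega
    rw [this] at hz
    norm_num at hz
    omega
  have hJ1 : 1 ≤ J := by
    by_contra h
    have : J = 0 := by omega
    rw [this] at hJ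
    norm_num at hJ
    omega
  have hnJ : n < 2 ^ J := by omega
  -- the weights
  obtain ⟨w1, hw1⟩ : ∃ w1 : Fin 6 → ℕ → ℝ, w1 = fun _ _ => 1 := ⟨_, rfl⟩
  obtain ⟨w2, hw2⟩ : ∃ w2 : Fin 6 → ℕ → ℝ, w2 = fun j i =>
    if j = 2 ∨ j = 5 then (if i = 0 then 1 else 0) else 1 := ⟨_, rfl⟩
  obtain ⟨w3, hw3⟩ : ∃ w3 : Fin 6 → ℕ → ℝ, w3 = fun j i =>
    if j = 1 ∨ j = 2 ∨ j = 4 ∨ j = 5 then (if i = 0 then 1 else 0) else 1 := ⟨_, rfl⟩
  have hcc : ∀ v : Fin 6 → ℕ, cc v = (∏ j, w1 j (v j)) - 3 * (∏ j, w2 j (v j)) +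
      3 * ∏ j, w3 j (v j) := by
    intro v
    have e1 : ∏ j, w1 j (v j) = 1 := by rw [hw1]; simp
    have e2 : ∏ j, w2 j (v j) = if v 2 = 0 ∧ v 5 = 0 then 1 else 0 := by
      rw [hw2, Fin.prod_univ_six]
      simp only [show ((0 : Fin 6) = 2 ∨ (0 : Fin 6) = 5) ↔ False from by decide,
        show ((1 : Fin 6) = 2 ∨ (1 : Fin 6) = 5) ↔ False from by decide,
        show ((2 : Fin 6) = 2 ∨ (2 : Fin 6) = 5) ↔ True from by decide,
        show ((3 : Fin 6) = 2 ∨ (3 : Fin 6) = 5) ↔ False from by decide,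
        show ((4 : Fin 6) = 2 ∨ (4 : Fin 6) = 5) ↔ False from by decide,
        show ((5 : Fin 6) = 2 ∨ (5 : Fin 6) = 5) ↔ True from by decide, if_true, if_false]
      by_cases h2 : v 2 = 0 <;> by_cases h5 : v 5 = 0 <;> simp [h2, h5]
    have e3 : ∏ j, w3 j (v j) = if v 1 = 0 ∧ v 2 = 0 ∧ v 4 = 0 ∧ v 5 = 0 then 1 else 0 := by
      rw [hw3, Fin.prod_univ_six]
      simp only [
        show ((0 : Fin 6) = 1 ∨ (0 : Fin 6) = 2 ∨ (0 : Fin 6) = 4 ∨ (0 : Fin 6) = 5) ↔ False
          from by decide,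
        show ((1 : Fin 6) = 1 ∨ (1 : Fin 6) = 2 ∨ (1 : Fin 6) = 4 ∨ (1 : Fin 6) = 5) ↔ True
          from by decide,
        show ((2 : Fin 6) = 1 ∨ (2 : Fin 6) = 2 ∨ (2 : Fin 6) = 4 ∨ (2 : Fin 6) = 5) ↔ True
          from by decide,
        show ((3 : Fin 6) = 1 ∨ (3 : Fin 6) = 2 ∨ (3 : Fin 6) = 4 ∨ (3 : Fin 6) = 5) ↔ False
          from by decide,
        show ((4 : Fin 6) = 1 ∨ (4 : Fin 6) = 2 ∨ (4 : Fin 6) = 4 ∨ (4 : Fin 6) = 5) ↔ True
          from by decide,
        show ((5 : Fin 6) = 1 ∨ (5 : Fin 6) = 2 ∨ (5 : Fin 6) = 4 ∨ (5 : Fin 6) = 5) ↔ True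
          from by decide, if_true, if_false]
      by_cases h1 : v 1 = 0 <;> by_cases h2 : v 2 = 0 <;> by_cases h4 : v 4 = 0 <;>
        by_cases h5 : v 5 = 0 <;> simp [h1, h2, h4, h5]
    rw [e1, e2, e3, cc]
  have hsum : ∑ v ∈ Fintype.piFinset (fun _ : Fin 6 => range J), cc v * TT z v n =
      (∏ j, ∑ i ∈ range J, w1 j i • bf z j i) n - 3 * (∏ j, ∑ i ∈ range J, w2 j i • bf z j i) n +
      3 * (∏ j, ∑ i ∈ range J, w3 j i • bf z j i) n := by
    rw [← box_sum, ← box_sum, ← box_sum, Finset.mul_sum, Finset.mul_sum, ← Finset.sum_sub_distrib,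
      ← Finset.sum_add_distrib]
    refine Finset.sum_congr rfl fun v _ => ?_
    rw [hcc]
    ring
  rw [hsum]
  -- names of the functions
  obtain ⟨L, hL⟩ : ∃ L : ArithmeticFunction ℝ, L = ArithmeticFunction.log := ⟨_, rfl⟩
  obtain ⟨Z, hZ⟩ : ∃ Z : ArithmeticFunction ℝ,
    Z = ((ArithmeticFunction.zeta : ArithmeticFunction ℕ) : ArithmeticFunction ℝ) := ⟨_, rfl⟩
  obtain ⟨M, hM⟩ : ∃ M : ArithmeticFunction ℝ, M = muz z := ⟨_, rfl⟩
  have hb0 : base z 0 = L := by rw [hL]; exact if_pos rfl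
  have hb1 : base z 1 = Z := by
    rw [hZ, base, if_neg (by decide), if_pos (by decide)]
  have hb2 : base z 2 = Z := by
    rw [hZ, base, if_neg (by decide), if_pos (by decide)]
  have hb3 : base z 3 = M := by
    rw [hM, base, if_neg (by decide), if_neg (by decide)]
  have hb4 : base z 4 = M := by
    rw [hM, base, if_neg (by decide), if_neg (by decide)]
  have hb5 : base z 5 = M := by
    rw [hM, base, if_neg (by decide), if_neg (by decide)]
  have hZ1 : Z 1 = 1 := by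
    rw [hZ]
    simp
  have hM1 : M 1 = 1 := by
    rw [hM]
    have : muz z 1 = ((ArithmeticFunction.moebius 1 : ℤ) : ℝ) := if_pos hz1
    rw [this]
    simp
  -- full sums and unit sums
  have full : ∀ j, Agr n (∑ i ∈ range J, (1 : ℝ) • bf z j i) (base z j) := fun j =>
    restr_sum (base z j) J n hnJ
  have unit : ∀ j, base z j 1 = 1 →
      Agr n (∑ i ∈ range J, (if i = 0 then (1 : ℝ) else 0) • bf z j i) 1 := by
    intro j hj m _
    have := restr_unit (base z j) J hJ1 hj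
    unfold bf
    rw [this]
  have p1 : (∏ j, ∑ i ∈ range J, w1 j i • bf z j i) n = (L * Z * Z * M * M * M) n := by
    rw [Fin.prod_univ_six, hw1]
    have := (((((full 0).mul (full 1)).mul (full 2)).mul (full 3)).mul (full 4)).mul (full 5)
    rw [hb0, hb1, hb2, hb3, hb4, hb5] at this
    exact this n le_rfl
  have p2 : (∏ j, ∑ i ∈ range J, w2 j i • bf z j i) n = (L * Z * 1 * M * M * 1) n := by
    rw [Fin.prod_univ_six, hw2]
    have := (((((full 0).mul (full 1)).mul (unit 2 (by rw [hb2, hZ1]))).mul (full 3)).mul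
      (full 4)).mul (unit 5 (by rw [hb5, hM1]))
    rw [hb0, hb1, hb3, hb4] at this
    simp only [show ((0 : Fin 6) = 2 ∨ (0 : Fin 6) = 5) ↔ False from by decide,
        show ((1 : Fin 6) = 2 ∨ (1 : Fin 6) = 5) ↔ False from by decide,
        show ((2 : Fin 6) = 2 ∨ (2 : Fin 6) = 5) ↔ True from by decide,
        show ((3 : Fin 6) = 2 ∨ (3 : Fin 6) = 5) ↔ False from by decide,
        show ((4 : Fin 6) = 2 ∨ (4 : Fin 6) = 5) ↔ False from by decide,
        show ((5 : Fin 6) = 2 ∨ (5 : Fin 6) = 5) ↔ True from by decide, if_true, if_false]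
    exact this n le_rfl
  have p3 : (∏ j, ∑ i ∈ range J, w3 j i • bf z j i) n = (L * 1 * 1 * M * 1 * 1) n := by
    rw [Fin.prod_univ_six, hw3]
    have := (((((full 0).mul (unit 1 (by rw [hb1, hZ1]))).mul (unit 2 (by rw [hb2, hZ1]))).mul
      (full 3)).mul (unit 4 (by rw [hb4, hM1]))).mul (unit 5 (by rw [hb5, hM1]))
    rw [hb0, hb3] at this
    simp only [
        show ((0 : Fin 6) = 1 ∨ (0 : Fin 6) = 2 ∨ (0 : Fin 6) = 4 ∨ (0 : Fin 6) = 5) ↔ False
          from by decide,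
        show ((1 : Fin 6) = 1 ∨ (1 : Fin 6) = 2 ∨ (1 : Fin 6) = 4 ∨ (1 : Fin 6) = 5) ↔ True
          from by decide,
        show ((2 : Fin 6) = 1 ∨ (2 : Fin 6) = 2 ∨ (2 : Fin 6) = 4 ∨ (2 : Fin 6) = 5) ↔ True
          from by decide,
        show ((3 : Fin 6) = 1 ∨ (3 : Fin 6) = 2 ∨ (3 : Fin 6) = 4 ∨ (3 : Fin 6) = 5) ↔ False
          from by decide,
        show ((4 : Fin 6) = 1 ∨ (4 : Fin 6) = 2 ∨ (4 : Fin 6) = 4 ∨ (4 : Fin 6) = 5) ↔ True
          from by decide,
        show ((5 : Fin 6) = 1 ∨ (5 : Fin 6) = 2 ∨ (5 : Fin 6) = 4 ∨ (5 : Fin 6) = 5) ↔ True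
          from by decide, if_true, if_false]
    exact this n le_rfl
  rw [p1, p2, p3]
  -- the identity
  obtain ⟨V, hV⟩ : ∃ V : ArithmeticFunction ℝ, V = ArithmeticFunction.vonMangoldt := ⟨_, rfl⟩
  have hVZ : V * Z = L := by
    rw [hV, hZ, hL]
    exact ArithmeticFunction.vonMangoldt_mul_zeta
  have hring : V * (1 - Z * M) ^ 3 = V - 3 * (L * 1 * 1 * M * 1 * 1) +
      3 * (L * Z * 1 * M * M * 1) - L * Z * Z * M * M * M := by
    rw [← hVZ]
    ring
  have hE : ∀ m, m < z + 1 → (1 - Z * M : ArithmeticFunction ℝ) m = 0 := by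
    intro m hm
    have h1 : Agr z M ((ArithmeticFunction.moebius : ArithmeticFunction ℤ) :
        ArithmeticFunction ℝ) := by
      intro l hl
      rw [hM]
      exact if_pos hl
    have h2 : Agr z (Z * M) (Z * ((ArithmeticFunction.moebius : ArithmeticFunction ℤ) :
        ArithmeticFunction ℝ)) := (Agr.refl Z).mul h1
    have h3 : Z * ((ArithmeticFunction.moebius : ArithmeticFunction ℤ) :
        ArithmeticFunction ℝ) = 1 := by
      rw [hZ]
      exact ArithmeticFunction.coe_zeta_mul_coe_moebius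
    have h4 : (1 - Z * M : ArithmeticFunction ℝ) m =
        (1 : ArithmeticFunction ℝ) m - (Z * M) m := rfl
    rw [h4, h2 m (by omega), h3, sub_self]
  have hE3 : ∀ m, m < 1 * ((z + 1) * ((z + 1) * (z + 1))) →
      (V * ((1 - Z * M) * ((1 - Z * M) * (1 - Z * M)))) m = 0 := by
    refine mul_supp (fun m hm => ?_) (mul_supp hE (mul_supp hE hE))
    have : m = 0 := by omega
    rw [this]
    simp
  have h0 : (V * (1 - Z * M) ^ 3 : ArithmeticFunction ℝ) n = 0 := by
    have h1 : (1 - Z * M : ArithmeticFunction ℝ) ^ 3 =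
      (1 - Z * M) * ((1 - Z * M) * (1 - Z * M)) := by ring
    rw [h1]
    refine hE3 n ?_
    have : (z + 1) ^ 3 = 1 * ((z + 1) * ((z + 1) * (z + 1))) := by ring
    omega
  rw [hring] at h0
  have h1 : (V - 3 * (L * 1 * 1 * M * 1 * 1) + 3 * (L * Z * 1 * M * M * 1) -
      L * Z * Z * M * M * M : ArithmeticFunction ℝ) n =
      V n - 3 * (L * 1 * 1 * M * 1 * 1) n + 3 * (L * Z * 1 * M * M * 1) n -
        (L * Z * Z * M * M * M) n := by
    have h3 : ∀ f : ArithmeticFunction ℝ, (3 * f) n = 3 * f n := by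
      intro f
      have : (3 : ArithmeticFunction ℝ) * f = f + f + f := by ring
      rw [this, ArithmeticFunction.add_apply, ArithmeticFunction.add_apply]
      ring
    rw [← h3, ← h3]
    rfl
  rw [h1, hV] at h0
  linarith

end Pool.MP_dd84fd_nt.L2G
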