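import Pool.Agent.Lib.MP_dd84fd_nt.L2G.SWExp
import Pool.Agent.Lib.MP_dd84fd_nt.L2G.ModelArith

set_option autoImplicit false

namespace Pool.MP_dd84fd_nt.L2G

open Finset Pool.MP_67663b_nt.Odd

private theorem tcSmall_la_nonneg (X n : ℕ) : 0 ≤ la X n := by
  unfold la
  split_ifs
  · exact Real.log_natCast_nonneg n
  · exact le_rfl

/-- the primes which divide `m` -/
private theorem tcSmall_noncop (X m : ℕ) (hm : 1 ≤ m) :
    ∑ n ∈ (Icc 1 X).filter (fun n => ¬ Nat.Coprime n m), la X n ≤ Real.log m := by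
  classical
  have h1 : ∑ n ∈ (Icc 1 X).filter (fun n => ¬ Nat.Coprime n m), la X n ≤
      ∑ p ∈ m.primeFactors, Real.log p := by
    rw [← Finset.sum_filter_add_sum_filter_not
      ((Icc 1 X).filter (fun n => ¬ Nat.Coprime n m)) (fun n => n.Prime)]
    have h2 : ∑ n ∈ ((Icc 1 X).filter (fun n => ¬ Nat.Coprime n m)).filter (fun n => ¬ n.Prime),
        la X n = 0 := by
      refine Finset.sum_eq_zero fun n hn => ?_
      rw [Finset.mem_filter] at hn
      rw [la, if_neg (fun h => hn.2 h.1)]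
    rw [h2, add_zero]
    have h3 : ((Icc 1 X).filter (fun n => ¬ Nat.Coprime n m)).filter (fun n => n.Prime) ⊆
        m.primeFactors := by
      intro n hn
      rw [Finset.mem_filter, Finset.mem_filter] at hn
      rw [Nat.mem_primeFactors]
      refine ⟨hn.2, ?_, by omega⟩
      by_contra hcon
      exact hn.1.2 ((Nat.Prime.coprime_iff_not_dvd hn.2).2 hcon)
    refine le_trans (Finset.sum_le_sum (g := fun n : ℕ => Real.log (n : ℝ)) ?_)
      (Finset.sum_le_sum_of_subset_of_nonneg h3 fun n _ _ => Real.log_natCast_nonneg n)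
    intro n _
    rw [la]
    split_ifs
    · exact le_rfl
    · exact Real.log_natCast_nonneg n
  refine h1.trans ?_
  rw [← Real.log_prod (fun p hp => by
    have := (Nat.prime_of_mem_primeFactors hp).pos
    positivity)]
  have h4 : ∏ p ∈ m.primeFactors, p ≤ m := Nat.le_of_dvd hm (Nat.prod_primeFactors_dvd m)
  have h5 : 0 < ∏ p ∈ m.primeFactors, p :=
    Finset.prod_pos fun p hp => (Nat.prime_of_mem_primeFactors hp).pos
  rw [← Nat.cast_prod]
  apply Real.log_le_log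
  · exact_mod_cast h5
  · exact_mod_cast h4

/-- the primes twisted by a periodic function -/
private theorem tcSmall_per (A B : ℕ) : ∃ X0 : ℕ, ∀ X : ℕ, X0 ≤ X → ∀ (m : ℕ) (β : ℝ)
    (ψ : ℕ → ℂ), 1 ≤ m → (m : ℝ) ≤ Real.log X ^ B → |β| ≤ Real.log X ^ B / X →
    (∀ n, ‖ψ n‖ ≤ 1) → (∀ n, ψ n = ψ (n % m)) →
    ‖∑ n ∈ Icc 1 X, (la X n : ℂ) * ψ n * ee (n * β) -
      (∑ c ∈ (range m).filter (Nat.Coprime m), ψ c) / (Nat.totient m : ℂ) * KI X β‖ ≤
      X / Real.log X ^ A := by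
  classical
  obtain ⟨X1, hX1⟩ := sw_exp (A + B + 1) B
  have hev1 : ∀ᶠ X : ℕ in Filter.atTop, (2 : ℝ) ≤ Real.log X :=
    (Real.tendsto_log_atTop.comp tendsto_natCast_atTop_atTop).eventually_ge_atTop _
  have hev2 : ∀ᶠ X : ℕ in Filter.atTop, ‖Real.log X ^ (A + B + 1)‖ ≤ 1 / 2 * ‖(id (X : ℝ))‖ :=
    tendsto_natCast_atTop_atTop.eventually
      ((Real.isLittleO_pow_log_id_atTop (n := A + B + 1)).bound (by norm_num))
  obtain ⟨X2, hX2⟩ := Filter.eventually_atTop.1 (hev1.and hev2)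
  refine ⟨max X1 (max X2 1), ?_⟩
  intro X hX m β ψ hm hmL hβ hψ hper
  have hXX1 : X1 ≤ X := (le_max_left _ _).trans hX
  have hXX2 : X2 ≤ X := ((le_max_left _ _).trans (le_max_right _ _)).trans hX
  have hXone : 1 ≤ X := ((le_max_right _ _).trans (le_max_right _ _)).trans hX
  obtain ⟨hL1, hL2⟩ := hX2 X hXX2
  have hX0 : (0 : ℝ) < X := by exact_mod_cast hXone
  have hsw := hX1 X hXX1
  rw [id, Real.norm_of_nonneg hX0.le, Real.norm_of_nonneg (pow_nonneg (by linarith) _)] at hL2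
  set L := Real.log X with hL
  have hL0 : 0 < L := by linarith
  have hm0 : (0 : ℝ) < m := by exact_mod_cast hm
  -- the part not coprime to `m`
  have hnc : ‖∑ n ∈ (Icc 1 X).filter (fun n => ¬ Nat.Coprime n m),
      (la X n : ℂ) * ψ n * ee (n * β)‖ ≤ Real.log m := by
    refine (norm_sum_le _ _).trans (le_trans (Finset.sum_le_sum fun n _ => ?_)
      (tcSmall_noncop X m hm))
    rw [norm_mul, norm_mul, norm_ee, mul_one, Complex.norm_real, Real.norm_eq_abs,
      abs_of_nonneg (tcSmall_la_nonneg X n)]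
    calc la X n * ‖ψ n‖ ≤ la X n * 1 :=
          mul_le_mul_of_nonneg_left (hψ n) (tcSmall_la_nonneg X n)
      _ = la X n := mul_one _
  -- the part coprime to `m`
  have hco : ∑ n ∈ (Icc 1 X).filter (fun n => Nat.Coprime n m), (la X n : ℂ) * ψ n * ee (n * β) =
      ∑ c ∈ (range m).filter (Nat.Coprime m), ψ c *
        ∑ n ∈ (Icc 1 X).filter (fun n => n ≡ c [MOD m]), (la X n : ℂ) * ee (n * β) := by
    rw [← Finset.sum_fiberwise_of_maps_to (s := (Icc 1 X).filter (fun n => Nat.Coprime n m))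
      (t := (range m).filter (Nat.Coprime m)) (g := fun n => n % m)]
    · refine Finset.sum_congr rfl fun c hc => ?_
      have hcm : c < m := Finset.mem_range.1 (Finset.mem_filter.1 hc).1
      have hcc : Nat.Coprime m c := (Finset.mem_filter.1 hc).2
      rw [Finset.mul_sum]
      refine Finset.sum_congr ?_ fun n hn => ?_
      · ext n
        rw [Finset.mem_filter, Finset.mem_filter, Finset.mem_filter, Nat.ModEq,
          Nat.mod_eq_of_lt hcm]
        constructor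
        · rintro ⟨⟨h1, _⟩, h3⟩
          exact ⟨h1, h3⟩
        · rintro ⟨h1, h3⟩
          refine ⟨⟨h1, ?_⟩, h3⟩
          rw [← h3, Nat.Coprime, Nat.gcd_comm, ← Nat.gcd_rec] at hcc
          exact Nat.coprime_comm.1 hcc
      · rw [Finset.mem_filter, Nat.ModEq, Nat.mod_eq_of_lt hcm] at hn
        rw [hper n, hn.2]
        ring
    · intro n hn
      rw [Finset.mem_filter] at hn
      rw [Finset.mem_filter, Finset.mem_range]
      refine ⟨Nat.mod_lt _ hm, ?_⟩
      rw [Nat.Coprime, Nat.gcd_comm, ← Nat.gcd_rec]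
      exact Nat.coprime_comm.1 hn.2
  have hcard : (((range m).filter (Nat.Coprime m)).card : ℝ) ≤ m := by
    have h1 : ((range m).filter (Nat.Coprime m)).card ≤ m := by
      calc ((range m).filter (Nat.Coprime m)).card ≤ (range m).card := card_filter_le _ _
        _ = m := card_range m
    exact_mod_cast h1
  have hmain : ‖∑ n ∈ (Icc 1 X).filter (fun n => Nat.Coprime n m),
      (la X n : ℂ) * ψ n * ee (n * β) -
      (∑ c ∈ (range m).filter (Nat.Coprime m), ψ c) / (Nat.totient m : ℂ) * KI X β‖ ≤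
      m * (X / L ^ (A + B + 1)) := by
    rw [hco, div_mul_eq_mul_div, mul_div_assoc, Finset.sum_mul, ← Finset.sum_sub_distrib]
    refine (norm_sum_le _ _).trans ?_
    calc ∑ c ∈ (range m).filter (Nat.Coprime m), ‖ψ c *
          ∑ n ∈ (Icc 1 X).filter (fun n => n ≡ c [MOD m]), (la X n : ℂ) * ee (n * β) -
          ψ c * (KI X β / (Nat.totient m : ℂ))‖ ≤
          ∑ c ∈ (range m).filter (Nat.Coprime m), X / L ^ (A + B + 1) := by
            refine Finset.sum_le_sum fun c hc => ?_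
            rw [← mul_sub, norm_mul]
            have h1 := hsw m c β hm hmL (Nat.coprime_comm.1 (Finset.mem_filter.1 hc).2) hβ
            calc _ ≤ 1 * (X / L ^ (A + B + 1)) :=
                  mul_le_mul (hψ c) h1 (norm_nonneg _) zero_le_one
              _ = _ := one_mul _
      _ = (((range m).filter (Nat.Coprime m)).card : ℝ) * (X / L ^ (A + B + 1)) := by
            rw [Finset.sum_const, nsmul_eq_mul]
      _ ≤ m * (X / L ^ (A + B + 1)) :=
            mul_le_mul_of_nonneg_right hcard (by positivity)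
  rw [← Finset.sum_filter_add_sum_filter_not (Icc 1 X) (fun n => Nat.Coprime n m)]
  have hre : ∀ a b c : ℂ, a + b - c = (a - c) + b := fun a b c => by ring
  rw [hre]
  refine (norm_add_le _ _).trans ((add_le_add hmain hnc).trans ?_)
  have h1 : m * (X / L ^ (A + B + 1)) ≤ 1 / 2 * (X / L ^ A) := by
    calc m * (X / L ^ (A + B + 1)) ≤ L ^ B * (X / L ^ (A + B + 1)) :=
          mul_le_mul_of_nonneg_right hmL (by positivity)
      _ = 1 / L * (X / L ^ A) := by
          rw [pow_succ, pow_add]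
          field_simp
      _ ≤ 1 / 2 * (X / L ^ A) := by
          apply mul_le_mul_of_nonneg_right _ (by positivity)
          exact one_div_le_one_div_of_le (by norm_num) hL1
  have h2 : Real.log m ≤ 1 / 2 * (X / L ^ A) := by
    have h3 : Real.log m ≤ m := by
      have := Real.log_le_sub_one_of_pos hm0
      linarith
    refine (h3.trans hmL).trans ?_
    rw [← mul_div_assoc, le_div_iff₀ (by positivity)]
    calc L ^ B * L ^ A = L ^ (A + B) * 1 := by rw [pow_add]; ring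
      _ ≤ L ^ (A + B) * L := mul_le_mul_of_nonneg_left (by linarith) (by positivity)
      _ = L ^ (A + B + 1) := by rw [pow_succ]
      _ ≤ 1 / 2 * X := hL2
  linarith

/-- removing the primes dividing `q` -/
private theorem tcSmall_rem (X q : ℕ) [NeZero q] (χ : DirichletCharacter ℂ q) (θ : ℝ)
    (ψ : ℕ → ℂ) (hψ : ∀ n, ‖ψ n‖ ≤ 1) (h : ∀ n, Nat.Coprime n q → χ n = ψ n) :
    ‖Tc X q (la X) θ χ - ∑ n ∈ Icc 1 X, (la X n : ℂ) * ψ n * ee (n * θ)‖ ≤ Real.log q := by
  classical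
  unfold Tc
  rw [← Finset.sum_sub_distrib,
    ← Finset.sum_filter_add_sum_filter_not (Icc 1 X) (fun n => Nat.Coprime n q)]
  have h1 : ∑ n ∈ (Icc 1 X).filter (fun n => Nat.Coprime n q), ((la X n : ℂ) * χ n * ee (n * θ) -
      (la X n : ℂ) * ψ n * ee (n * θ)) = 0 := by
    refine Finset.sum_eq_zero fun n hn => ?_
    rw [h n (Finset.mem_filter.1 hn).2, sub_self]
  rw [h1, zero_add]
  refine (norm_sum_le _ _).trans (le_trans (Finset.sum_le_sum fun n hn => ?_)
    (tcSmall_noncop X q (Nat.pos_of_ne_zero (NeZero.ne q))))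
  have h2 : χ n = 0 :=
    MulChar.map_nonunit _ (fun h' => (Finset.mem_filter.1 hn).2 ((ZMod.isUnit_iff_coprime n q).1 h'))
  rw [h2, mul_zero, zero_mul, zero_sub, norm_neg, norm_mul, norm_mul, norm_ee, mul_one,
    Complex.norm_real, Real.norm_eq_abs, abs_of_nonneg (tcSmall_la_nonneg X n)]
  calc la X n * ‖ψ n‖ ≤ la X n * 1 :=
        mul_le_mul_of_nonneg_left (hψ n) (tcSmall_la_nonneg X n)
    _ = la X n := mul_one _

private theorem tcSmall_ee_mod (r m n : ℕ) (hr : 1 ≤ r) (h : r ∣ m) (y : ℤ) :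
    ee (n * ((y : ℝ) / r)) = ee ((n % m : ℕ) * ((y : ℝ) / r)) := by
  have hr0 : (r : ℝ) ≠ 0 := by positivity
  obtain ⟨k, hk⟩ := h
  obtain ⟨s, hs⟩ : ∃ s : ℕ, n = n % m + m * s := ⟨n / m, (Nat.mod_add_div n m).symm⟩
  have h1 : (n : ℝ) = (n % m : ℕ) + (m : ℝ) * s := by
    exact_mod_cast hs
  have h2 : (n : ℝ) * ((y : ℝ) / r) = (n % m : ℕ) * ((y : ℝ) / r) +
      (((k : ℤ) * (s : ℤ) * y : ℤ) : ℝ) := by
    conv_lhs => rw [h1]
    have hm : (m : ℝ) = r * k := by exact_mod_cast hk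
    rw [hm]
    push_cast
    field_simp
  rw [h2, ee_add_int]

private theorem tcSmall_cr (r : ℕ) (hr : 1 ≤ r) (y : ℤ) (hy : IsCoprime y (r : ℤ)) :
    ∑ c ∈ (range r).filter (Nat.Coprime r), ee (c * ((y : ℝ) / r)) =
      ((((ArithmeticFunction.moebius r : ℤ) : ℝ) : ℝ) : ℂ) := by
  have hr0 : (r : ℝ) ≠ 0 := by positivity
  have hrz : (r : ℤ) ≠ 0 := by exact_mod_cast (by omega : r ≠ 0)
  obtain ⟨n, hn⟩ : ∃ n : ℕ, (n : ℤ) = y % r := ⟨(y % r).toNat, by
    rw [Int.toNat_of_nonneg (Int.emod_nonneg _ hrz)]⟩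
  have hyn : y = n + r * (y / r) := by
    rw [hn]
    exact (Int.emod_add_mul_ediv y r).symm
  have hcop : Nat.gcd r n = 1 := by
    have h1 : IsCoprime ((n : ℤ) + r * (y / r)) (r : ℤ) := by rwa [← hyn]
    have h2 : IsCoprime (n : ℤ) (r : ℤ) := by
      have h3 := h1.add_mul_left_left (-(y / r))
      have h4 : (n : ℤ) + r * (y / r) + r * (-(y / r)) = n := by ring
      rwa [h4] at h3
    exact Nat.coprime_comm.1 (Nat.isCoprime_iff_coprime.1 h2)
  have h1 : cn r n = ((ArithmeticFunction.moebius r : ℤ) : ℝ) := by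
    unfold cn
    rw [hcop]
    simp
  rw [← h1, cn_eq_cr r n hr]
  unfold cr
  refine Finset.sum_congr rfl fun c _ => ?_
  have h2 : (c : ℝ) * ((y : ℝ) / r) = (((n : ℕ) : ℤ) : ℝ) * c / r + (((c : ℤ) * (y / r) : ℤ) : ℝ) := by
    have h3 : (y : ℝ) = n + r * ((y / r : ℤ) : ℝ) := by exact_mod_cast congrArg (fun z : ℤ => (z : ℝ)) hyn
    conv_lhs => rw [h3]
    push_cast
    field_simp
  rw [h2, ee_add_int]

theorem Tc_one (A B : ℕ) : ∃ X0 : ℕ, ∀ X : ℕ, X0 ≤ X → ∀ (q : ℕ) [NeZero q], q ≤ X →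
    ∀ (r : ℕ) (y : ℤ) (β : ℝ), 1 ≤ r → (r : ℝ) ≤ Real.log X ^ B → Nat.Coprime r q →
    IsCoprime y (r : ℤ) → |β| ≤ Real.log X ^ B / X →
    ‖Tc X q (la X) (y / r + β) 1 -
      ((((ArithmeticFunction.moebius r : ℤ) : ℝ) / (Nat.totient r : ℝ) : ℝ) : ℂ) * KI X β‖ ≤
      X / Real.log X ^ A := by
  obtain ⟨X1, hX1⟩ := tcSmall_per (A + 1) B
  have hev1 : ∀ᶠ X : ℕ in Filter.atTop, (2 : ℝ) ≤ Real.log X :=
    (Real.tendsto_log_atTop.comp tendsto_natCast_atTop_atTop).eventually_ge_atTop _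
  have hev2 : ∀ᶠ X : ℕ in Filter.atTop, ‖Real.log X ^ (A + 1)‖ ≤ 1 / 2 * ‖(id (X : ℝ))‖ :=
    tendsto_natCast_atTop_atTop.eventually
      ((Real.isLittleO_pow_log_id_atTop (n := A + 1)).bound (by norm_num))
  obtain ⟨X2, hX2⟩ := Filter.eventually_atTop.1 (hev1.and hev2)
  refine ⟨max X1 (max X2 1), ?_⟩
  intro X hX q _ hqX r y β hr hrL hrq hy hβ
  have hXX1 : X1 ≤ X := (le_max_left _ _).trans hX
  have hXX2 : X2 ≤ X := ((le_max_left _ _).trans (le_max_right _ _)).trans hX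
  have hXone : 1 ≤ X := ((le_max_right _ _).trans (le_max_right _ _)).trans hX
  obtain ⟨hL1, hL2⟩ := hX2 X hXX2
  have hX0 : (0 : ℝ) < X := by exact_mod_cast hXone
  have hq0 : (0 : ℝ) < q := by exact_mod_cast Nat.pos_of_ne_zero (NeZero.ne q)
  have hr0 : (r : ℝ) ≠ 0 := by positivity
  rw [id, Real.norm_of_nonneg hX0.le, Real.norm_of_nonneg (pow_nonneg (by linarith) _)] at hL2
  have h1 := hX1 X hXX1 r β (fun n => ee (n * ((y : ℝ) / r))) hr hrL hβ (fun n => (norm_ee _).le)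
    (fun n => tcSmall_ee_mod r r n hr dvd_rfl y)
  rw [tcSmall_cr r hr y hy] at h1
  have h2 := tcSmall_rem X q 1 (y / r + β) (fun _ => 1) (fun _ => by simp) (fun n hn =>
    MulChar.one_apply ((ZMod.isUnit_iff_coprime n q).2 hn))
  have h3 : ∑ n ∈ Icc 1 X, (la X n : ℂ) * (fun _ : ℕ => (1 : ℂ)) n * ee (n * (y / r + β)) =
      ∑ n ∈ Icc 1 X, (la X n : ℂ) * ee (n * ((y : ℝ) / r)) * ee (n * β) := by
    refine Finset.sum_congr rfl fun n _ => ?_
    rw [mul_one, mul_assoc, ← ee_add]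
    congr 2
    ring
  rw [h3] at h2
  set L := Real.log X with hL
  have hL0 : 0 < L := by linarith
  have hlogq : Real.log q ≤ L := Real.log_le_log hq0 (by exact_mod_cast hqX)
  have h4 : ((((ArithmeticFunction.moebius r : ℤ) : ℝ) / (Nat.totient r : ℝ) : ℝ) : ℂ) * KI X β =
      ((((ArithmeticFunction.moebius r : ℤ) : ℝ) : ℝ) : ℂ) / (Nat.totient r : ℂ) * KI X β := by
    push_cast
    ring
  rw [h4]
  have h5 := norm_sub_le_norm_sub_add_norm_sub (Tc X q (la X) (y / r + β) 1)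
    (∑ n ∈ Icc 1 X, (la X n : ℂ) * ee (n * ((y : ℝ) / r)) * ee (n * β))
    (((((ArithmeticFunction.moebius r : ℤ) : ℝ) : ℝ) : ℂ) / (Nat.totient r : ℂ) * KI X β)
  refine h5.trans ((add_le_add (h2.trans hlogq) h1).trans ?_)
  have h6 : X / L ^ (A + 1) ≤ 1 / 2 * (X / L ^ A) := by
    rw [pow_succ, ← div_div]
    have h2 : 0 ≤ X / L ^ A := by positivity
    have h3 : X / L ^ A / L ≤ X / L ^ A / 2 := div_le_div_of_nonneg_left h2 (by norm_num) hL1
    linarith
  have h7 : L ≤ 1 / 2 * (X / L ^ A) := by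
    rw [← mul_div_assoc, le_div_iff₀ (by positivity)]
    calc L * L ^ A = L ^ (A + 1) := by ring
      _ ≤ _ := hL2
  linarith

private theorem tcSmall_units (m : ℕ) [NeZero m] (f : ℕ → ℂ) :
    ∑ u : (ZMod m)ˣ, f ((u : ZMod m).val) = ∑ c ∈ (range m).filter (Nat.Coprime m), f c := by
  refine Finset.sum_bij (fun u _ => (u : ZMod m).val) ?_ ?_ ?_ ?_
  · intro u _
    rw [Finset.mem_filter, Finset.mem_range]
    exact ⟨ZMod.val_lt _, Nat.coprime_comm.1 (ZMod.val_coe_unit_coprime u)⟩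
  · intro u _ v _ h
    exact Units.ext (ZMod.val_injective m h)
  · intro c hc
    rw [Finset.mem_filter, Finset.mem_range] at hc
    refine ⟨ZMod.unitOfCoprime c (Nat.coprime_comm.1 hc.2), Finset.mem_univ _, ?_⟩
    rw [ZMod.coe_unitOfCoprime, ZMod.val_cast_of_lt hc.1]
  · intro u _
    rfl

/-- the sum over the reduced classes vanishes -/
private theorem tcSmall_zero (d r : ℕ) [NeZero d] [NeZero r] (hdr : Nat.Coprime d r)
    (χ : DirichletCharacter ℂ d) (hχ : χ ≠ 1) (y : ℤ) :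
    ∑ c ∈ (range (d * r)).filter (Nat.Coprime (d * r)), χ c * ee (c * ((y : ℝ) / r)) = 0 := by
  have hr : 1 ≤ r := Nat.pos_of_ne_zero (NeZero.ne r)
  obtain ⟨u, hu⟩ := MulChar.ne_one_iff.1 hχ
  -- lift
  have huc := ZMod.val_coe_unit_coprime u
  obtain ⟨v, hv1, hv2⟩ := Nat.chineseRemainder hdr (u : ZMod d).val 1
  have hvd : Nat.Coprime v d := by
    have h1 : Nat.gcd v d = Nat.gcd (u : ZMod d).val d := hv1.gcd_eq
    rw [Nat.Coprime, h1]
    exact huc
  have hvr : Nat.Coprime v r := by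
    have h1 : Nat.gcd v r = Nat.gcd 1 r := hv2.gcd_eq
    rw [Nat.Coprime, h1, Nat.gcd_one_left]
  have hvm : Nat.Coprime v (d * r) := Nat.Coprime.mul_right hvd hvr
  let w : (ZMod (d * r))ˣ := ZMod.unitOfCoprime v hvm
  have hχv : χ ((v : ℕ) : ZMod d) = χ u := by
    congr 1
    have h1 : ((v : ℕ) : ZMod d) = (((u : ZMod d).val : ℕ) : ZMod d) :=
      (ZMod.natCast_eq_natCast_iff _ _ _).2 hv1
    rw [h1, ZMod.natCast_zmod_val]
  have hper : ∀ a b : ℕ, a ≡ b [MOD (d * r)] → χ a * ee (a * ((y : ℝ) / r)) =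
      χ b * ee (b * ((y : ℝ) / r)) := by
    intro a b hab
    have h1 : ((a : ℕ) : ZMod d) = ((b : ℕ) : ZMod d) :=
      (ZMod.natCast_eq_natCast_iff _ _ _).2 (Nat.ModEq.of_mul_right r hab)
    rw [h1, tcSmall_ee_mod r (d * r) a hr (dvd_mul_left r d) y,
      tcSmall_ee_mod r (d * r) b hr (dvd_mul_left r d) y, hab]
  have hmul : ∀ c : ℕ, χ ((v * c : ℕ) : ZMod d) * ee ((v * c : ℕ) * ((y : ℝ) / r)) =
      χ u * (χ c * ee (c * ((y : ℝ) / r))) := by
    intro c
    have h1 : ee ((v * c : ℕ) * ((y : ℝ) / r)) = ee (c * ((y : ℝ) / r)) := by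
      rw [tcSmall_ee_mod r r (v * c) hr dvd_rfl y, tcSmall_ee_mod r r c hr dvd_rfl y]
      have h2 : v * c ≡ 1 * c [MOD r] := hv2.mul_right c
      rw [one_mul] at h2
      rw [h2]
    rw [h1, Nat.cast_mul, map_mul, hχv, mul_assoc]
  rw [← tcSmall_units (d * r) (fun c => χ c * ee (c * ((y : ℝ) / r)))]
  set S := ∑ u : (ZMod (d * r))ˣ, (fun c : ℕ => χ c * ee (c * ((y : ℝ) / r)))
    ((u : ZMod (d * r)).val) with hS
  have hshift : S = χ u * S := by
    rw [hS, Finset.mul_sum]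
    have h1 : ∑ x : (ZMod (d * r))ˣ, (fun c : ℕ => χ c * ee (c * ((y : ℝ) / r)))
        ((x : ZMod (d * r)).val) =
        ∑ x : (ZMod (d * r))ˣ, (fun c : ℕ => χ c * ee (c * ((y : ℝ) / r)))
        (((w * x : (ZMod (d * r))ˣ) : ZMod (d * r)).val) :=
      (Equiv.sum_comp (Equiv.mulLeft w) (fun x : (ZMod (d * r))ˣ =>
        (fun c : ℕ => χ c * ee (c * ((y : ℝ) / r))) ((x : ZMod (d * r)).val))).symm
    refine h1.trans (Finset.sum_congr rfl fun x _ => ?_)
    have h2 : ((w * x : (ZMod (d * r))ˣ) : ZMod (d * r)).val ≡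
        v * (x : ZMod (d * r)).val [MOD (d * r)] := by
      rw [← ZMod.natCast_eq_natCast_iff, ZMod.natCast_zmod_val, Units.val_mul]
      push_cast
      rw [ZMod.natCast_zmod_val, ZMod.coe_unitOfCoprime]
    exact (hper _ _ h2).trans (hmul _)
  have h3 : (1 - χ u) * S = 0 := by linear_combination hshift
  exact (mul_eq_zero.1 h3).resolve_left (sub_ne_zero.2 (Ne.symm hu))

theorem Tc_small (A B : ℕ) : ∃ X0 : ℕ, ∀ X : ℕ, X0 ≤ X → ∀ (q : ℕ) [NeZero q], q ≤ X →
    ∀ (r d : ℕ) (y : ℤ) (β : ℝ) (χ : DirichletCharacter ℂ q), 1 ≤ r → (r : ℝ) ≤ Real.log X ^ B →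
    Nat.Coprime r q → |β| ≤ Real.log X ^ B / X → χ ≠ 1 → d ∣ q → (d : ℝ) ≤ Real.log X ^ B →
    χ.FactorsThrough d → ‖Tc X q (la X) (y / r + β) χ‖ ≤ X / Real.log X ^ A := by
  obtain ⟨X1, hX1⟩ := tcSmall_per (A + 1) (B + B)
  have hev1 : ∀ᶠ X : ℕ in Filter.atTop, (2 : ℝ) ≤ Real.log X :=
    (Real.tendsto_log_atTop.comp tendsto_natCast_atTop_atTop).eventually_ge_atTop _
  have hev2 : ∀ᶠ X : ℕ in Filter.atTop, ‖Real.log X ^ (A + 1)‖ ≤ 1 / 2 * ‖(id (X : ℝ))‖ :=
    tendsto_natCast_atTop_atTop.eventually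
      ((Real.isLittleO_pow_log_id_atTop (n := A + 1)).bound (by norm_num))
  obtain ⟨X2, hX2⟩ := Filter.eventually_atTop.1 (hev1.and hev2)
  refine ⟨max X1 (max X2 1), ?_⟩
  intro X hX q _ hqX r d y β χ hr hrL hrq hβ hχ hdq hdL hfac
  have hXX1 : X1 ≤ X := (le_max_left _ _).trans hX
  have hXX2 : X2 ≤ X := ((le_max_left _ _).trans (le_max_right _ _)).trans hX
  have hXone : 1 ≤ X := ((le_max_right _ _).trans (le_max_right _ _)).trans hX
  obtain ⟨hL1, hL2⟩ := hX2 X hXX2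
  have hX0 : (0 : ℝ) < X := by exact_mod_cast hXone
  have hq00 : 0 < q := Nat.pos_of_ne_zero (NeZero.ne q)
  have hq0 : (0 : ℝ) < q := by exact_mod_cast hq00
  have hd00 : 0 < d := Nat.pos_of_dvd_of_pos hdq hq00
  have : NeZero d := ⟨hd00.ne'⟩
  have : NeZero r := ⟨by omega⟩
  rw [id, Real.norm_of_nonneg hX0.le, Real.norm_of_nonneg (pow_nonneg (by linarith) _)] at hL2
  obtain ⟨hdq', χ0, hχ0⟩ := hfac
  have hχ01 : χ0 ≠ 1 := by
    rintro rfl
    apply hχ
    rw [hχ0, map_one]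
  have hdr : Nat.Coprime d r := (Nat.Coprime.coprime_dvd_left hdq (Nat.coprime_comm.1 hrq))
  set ψ : ℕ → ℂ := fun n => χ0 n * ee (n * ((y : ℝ) / r)) with hψ
  have hψ1 : ∀ n, ‖ψ n‖ ≤ 1 := by
    intro n
    rw [hψ]
    simp only
    rw [norm_mul, norm_ee, mul_one]
    exact DirichletCharacter.norm_le_one χ0 _
  have hψper : ∀ n, ψ n = ψ (n % (d * r)) := by
    intro n
    rw [hψ]
    simp only
    rw [tcSmall_ee_mod r (d * r) n hr (dvd_mul_left r d) y]
    congr 2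
    rw [ZMod.natCast_eq_natCast_iff]
    exact Nat.ModEq.of_mul_right r (Nat.mod_modEq n (d * r)).symm
  set L := Real.log X with hL
  have hL0 : 0 < L := by linarith
  have hm1 : 1 ≤ d * r := Nat.mul_pos hd00 hr
  have hmL : ((d * r : ℕ) : ℝ) ≤ L ^ (B + B) := by
    push_cast
    rw [pow_add]
    exact mul_le_mul hdL hrL (by positivity) (by positivity)
  have hβ' : |β| ≤ L ^ (B + B) / X := by
    refine hβ.trans ?_
    apply div_le_div_of_nonneg_right _ hX0.le
    exact pow_le_pow_right₀ (by linarith) (by omega)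
  have h1 := hX1 X hXX1 (d * r) β ψ hm1 hmL hβ' hψ1 hψper
  rw [hψ, tcSmall_zero d r hdr χ0 hχ01 y, zero_div, zero_mul, sub_zero] at h1
  have h2 := tcSmall_rem X q χ (y / r + β) (fun n => χ0 n)
    (fun n => DirichletCharacter.norm_le_one χ0 _) (fun n hn => by
      rw [hχ0]
      have hu : IsUnit ((n : ℕ) : ZMod q) := (ZMod.isUnit_iff_coprime n q).2 hn
      have hcl := DirichletCharacter.changeLevel_eq_cast_of_dvd χ0 hdq' hu.unit
      rw [IsUnit.unit_spec] at hcl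
      rw [hcl]
      congr 1
      exact ZMod.cast_natCast hdq' n)
  have h3 : ∑ n ∈ Icc 1 X, (la X n : ℂ) * (fun n : ℕ => χ0 n) n * ee (n * (y / r + β)) =
      ∑ n ∈ Icc 1 X, (la X n : ℂ) * (χ0 n * ee (n * ((y : ℝ) / r))) * ee (n * β) := by
    refine Finset.sum_congr rfl fun n _ => ?_
    have h4 : ee (n * ((y : ℝ) / r + β)) = ee (n * ((y : ℝ) / r)) * ee (n * β) := by
      rw [← ee_add]
      congr 1
      ring
    rw [h4]
    ring
  rw [h3] at h2
  have hlogq : Real.log q ≤ L := Real.log_le_log hq0 (by exact_mod_cast hqX)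
  have h5 : ‖Tc X q (la X) (y / r + β) χ‖ ≤ Real.log q + X / L ^ (A + 1) := by
    have h6 := norm_sub_norm_le (Tc X q (la X) (y / r + β) χ)
      (∑ n ∈ Icc 1 X, (la X n : ℂ) * (χ0 n * ee (n * ((y : ℝ) / r))) * ee (n * β))
    linarith
  refine h5.trans ?_
  have h6 : X / L ^ (A + 1) ≤ 1 / 2 * (X / L ^ A) := by
    rw [pow_succ, ← div_div]
    have h2 : 0 ≤ X / L ^ A := by positivity
    have h3 : X / L ^ A / L ≤ X / L ^ A / 2 := div_le_div_of_nonneg_left h2 (by norm_num) hL1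
    linarith
  have h7 : L ≤ 1 / 2 * (X / L ^ A) := by
    rw [← mul_div_assoc, le_div_iff₀ (by positivity)]
    calc L * L ^ A = L ^ (A + 1) := by ring
      _ ≤ _ := hL2
  linarith

end Pool.MP_dd84fd_nt.L2G
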