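import Pool.Agent.Lib.MP_dd84fd_nt.L2G.ClassAlg
import Pool.Agent.Lib.MP_dd84fd_nt.L2G.CharOrth
import Pool.Agent.Lib.MP_dd84fd_nt.L2G.GaussJac
import Pool.Agent.Lib.MP_dd84fd_nt.L2G.BadAlg
import Pool.Agent.Lib.MP_dd84fd_nt.L2G.CvBasic
import Pool.Agent.Lib.MP_dd84fd_nt.L2G.ModelArith

/-!
# The major arcs for the primes in a class to a large modulus (module G2-82)
-/

set_option autoImplicit false

namespace Pool.MP_dd84fd_nt.L2G

open Finset Pool.MP_67663b_nt.Odd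

private lemma lm_norm_ee (x : ℝ) : ‖ee x‖ = 1 := by
  unfold ee
  rw [Complex.norm_exp]
  simp

private lemma lm_la_nonneg (X n : ℕ) : 0 ≤ la X n := by
  unfold la
  split_ifs
  · exact Real.log_natCast_nonneg n
  · exact le_rfl

private lemma lm_la_le (X n : ℕ) : la X n ≤ Real.log X := by
  unfold la
  split_ifs with h
  · exact Real.log_le_log (by exact_mod_cast h.1.pos) (by exact_mod_cast h.2)
  · exact Real.log_natCast_nonneg X

private lemma lm_norm_fz (X q : ℕ) (θ : ℝ) (b : ZMod q) :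
    ‖fz X q (la X) θ b‖ ≤ ∑ n ∈ (Icc 1 X).filter (fun n : ℕ => (n : ZMod q) = b), la X n := by
  unfold fz
  refine (norm_sum_le _ _).trans (le_of_eq (Finset.sum_congr rfl fun n _ => ?_))
  rw [norm_mul, lm_norm_ee, mul_one, Complex.norm_real, Real.norm_eq_abs,
    abs_of_nonneg (lm_la_nonneg X n)]

private lemma lm_fz_le (X q : ℕ) [NeZero q] (θ : ℝ) (b : ZMod q) :
    ‖fz X q (la X) θ b‖ ≤ ((X : ℝ) / q + 1) * Real.log X := by
  refine (lm_norm_fz X q θ b).trans ?_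
  refine (Finset.sum_le_sum fun n _ => lm_la_le X n).trans ?_
  rw [Finset.sum_const, nsmul_eq_mul]
  refine mul_le_mul_of_nonneg_right ?_ (Real.log_natCast_nonneg X)
  have h := co_card q 0 X b
  rw [zero_add] at h
  exact h

private lemma lm_sum_log (q : ℕ) (hq : q ≠ 0) :
    ∑ p ∈ q.primeFactors, Real.log p ≤ Real.log q := by
  have h1 : ∑ p ∈ q.primeFactors, Real.log p = Real.log ((∏ p ∈ q.primeFactors, p : ℕ) : ℝ) := by
    push_cast
    rw [Real.log_prod]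
    intro p hp
    exact_mod_cast (Nat.prime_of_mem_primeFactors hp).ne_zero
  rw [h1]
  refine Real.log_le_log ?_ ?_
  · exact_mod_cast Finset.prod_pos fun p hp => (Nat.prime_of_mem_primeFactors hp).pos
  · exact_mod_cast Nat.le_of_dvd (Nat.pos_of_ne_zero hq) (Nat.prod_primeFactors_dvd q)

private lemma lm_nonunit (X q : ℕ) [NeZero q] (θ : ℝ) :
    ∑ b ∈ univ.filter (fun b : ZMod q => ¬ IsUnit b), ‖fz X q (la X) θ b‖ ≤ Real.log q := by
  classical
  have hq : q ≠ 0 := NeZero.ne q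
  calc ∑ b ∈ univ.filter (fun b : ZMod q => ¬ IsUnit b), ‖fz X q (la X) θ b‖
      ≤ ∑ b ∈ univ.filter (fun b : ZMod q => ¬ IsUnit b),
        ∑ n ∈ (Icc 1 X).filter (fun n : ℕ => (n : ZMod q) = b),
          (if n ∈ q.primeFactors then Real.log n else 0) := by
        refine Finset.sum_le_sum fun b hb => ?_
        refine (lm_norm_fz X q θ b).trans (Finset.sum_le_sum fun n hn => ?_)
        rw [Finset.mem_filter] at hb hn
        unfold la
        by_cases hp : n.Prime ∧ n ≤ X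
        · rw [if_pos hp]
          have h3 : n ∈ q.primeFactors := by
            rw [Nat.mem_primeFactors]
            refine ⟨hp.1, ?_, hq⟩
            by_contra h4
            apply hb.2
            rw [← hn.2, ZMod.isUnit_iff_coprime]
            exact (Nat.Prime.coprime_iff_not_dvd hp.1).2 h4
          rw [if_pos h3]
        · rw [if_neg hp]
          split_ifs
          · exact Real.log_natCast_nonneg n
          · exact le_rfl
    _ ≤ ∑ b : ZMod q, ∑ n ∈ (Icc 1 X).filter (fun n : ℕ => (n : ZMod q) = b),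
          (if n ∈ q.primeFactors then Real.log n else 0) := by
        refine Finset.sum_le_sum_of_subset_of_nonneg (Finset.filter_subset _ _) ?_
        intro b _ _
        refine Finset.sum_nonneg fun n _ => ?_
        split_ifs
        · exact Real.log_natCast_nonneg n
        · exact le_rfl
    _ = ∑ n ∈ Icc 1 X, (if n ∈ q.primeFactors then Real.log n else 0) :=
        Finset.sum_fiberwise (Icc 1 X) (fun n : ℕ => (n : ZMod q)) _
    _ = ∑ n ∈ (Icc 1 X).filter (fun n => n ∈ q.primeFactors), Real.log n := by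
        rw [Finset.sum_filter]
    _ ≤ ∑ n ∈ q.primeFactors, Real.log n := by
        refine Finset.sum_le_sum_of_subset_of_nonneg ?_ fun n _ _ => Real.log_natCast_nonneg n
        intro n hn
        exact (Finset.mem_filter.1 hn).2
    _ ≤ Real.log q := lm_sum_log q hq

/-- restriction to pairs of units -/
private lemma lm_units (X q : ℕ) [NeZero q] (θ : ℝ) (a : ZMod q) :
    ‖Fz X q (la X) θ a - ∑ b ∈ univ.filter (fun b : ZMod q => IsUnit b ∧ IsUnit (a - b)),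
      fz X q (la X) θ b * fz X q (la X) θ (a - b)‖ ≤
      2 * (Real.log q * (((X : ℝ) / q + 1) * Real.log X)) := by
  classical
  rw [Fz_eq, ← Finset.sum_filter_add_sum_filter_not univ
    (fun b : ZMod q => IsUnit b ∧ IsUnit (a - b)), add_sub_cancel_left]
  obtain ⟨M, hM⟩ : ∃ M : ℝ, M = ((X : ℝ) / q + 1) * Real.log X := ⟨_, rfl⟩
  have hM0 : 0 ≤ M := by
    rw [hM]
    have := Real.log_natCast_nonneg X
    positivity
  rw [← hM]
  refine (norm_sum_le _ _).trans ?_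
  have h1 : ∑ b ∈ univ.filter (fun b : ZMod q => ¬ (IsUnit b ∧ IsUnit (a - b))),
      ‖fz X q (la X) θ b * fz X q (la X) θ (a - b)‖ ≤
      ∑ b ∈ univ.filter (fun b : ZMod q => ¬ IsUnit b),
        ‖fz X q (la X) θ b * fz X q (la X) θ (a - b)‖ +
      ∑ b ∈ univ.filter (fun b : ZMod q => ¬ IsUnit (a - b)),
        ‖fz X q (la X) θ b * fz X q (la X) θ (a - b)‖ := by
    rw [Finset.sum_filter, Finset.sum_filter, Finset.sum_filter, ← Finset.sum_add_distrib]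
    refine Finset.sum_le_sum fun b _ => ?_
    have h0 : 0 ≤ ‖fz X q (la X) θ b * fz X q (la X) θ (a - b)‖ := norm_nonneg _
    by_cases h2 : IsUnit b <;> by_cases h3 : IsUnit (a - b) <;> simp [h2, h3] <;> positivity
  refine h1.trans ?_
  have h2 : ∑ b ∈ univ.filter (fun b : ZMod q => ¬ IsUnit b),
      ‖fz X q (la X) θ b * fz X q (la X) θ (a - b)‖ ≤ Real.log q * M := by
    calc ∑ b ∈ univ.filter (fun b : ZMod q => ¬ IsUnit b),
          ‖fz X q (la X) θ b * fz X q (la X) θ (a - b)‖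
        ≤ ∑ b ∈ univ.filter (fun b : ZMod q => ¬ IsUnit b), ‖fz X q (la X) θ b‖ * M := by
          refine Finset.sum_le_sum fun b _ => ?_
          rw [norm_mul, hM]
          exact mul_le_mul_of_nonneg_left (lm_fz_le X q θ _) (norm_nonneg _)
      _ = (∑ b ∈ univ.filter (fun b : ZMod q => ¬ IsUnit b), ‖fz X q (la X) θ b‖) * M := by
          rw [Finset.sum_mul]
      _ ≤ Real.log q * M := mul_le_mul_of_nonneg_right (lm_nonunit X q θ) hM0
  have h3 : ∑ b ∈ univ.filter (fun b : ZMod q => ¬ IsUnit (a - b)),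
      ‖fz X q (la X) θ b * fz X q (la X) θ (a - b)‖ =
      ∑ b ∈ univ.filter (fun b : ZMod q => ¬ IsUnit b),
      ‖fz X q (la X) θ b * fz X q (la X) θ (a - b)‖ := by
    rw [Finset.sum_filter, Finset.sum_filter]
    refine Fintype.sum_equiv (Equiv.subLeft a) _ _ fun b => ?_
    rw [Equiv.subLeft_apply, sub_sub_cancel, mul_comm]
  rw [h3]
  linarith

private lemma lm_Nc_le (q : ℕ) [NeZero q] (a : ZMod q) : Nc q a ≤ Nat.totient q := by
  classical
  unfold Nc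
  have h1 : univ.filter (fun b : ZMod q => IsUnit b ∧ IsUnit (a - b)) ⊆
      (univ : Finset (ZMod q)ˣ).image Units.val := by
    intro b hb
    rw [mem_filter] at hb
    obtain ⟨u, hu⟩ := hb.2.1
    exact Finset.mem_image.2 ⟨u, mem_univ _, hu⟩
  refine (Finset.card_le_card h1).trans ?_
  refine Finset.card_image_le.trans ?_
  rw [Finset.card_univ, ZMod.card_units_eq_totient]

private lemma lm_KI (X : ℕ) (β : ℝ) : ‖KI X β‖ ≤ X := by
  unfold KI
  have h := intervalIntegral.norm_integral_le_of_norm_le_const (a := (0 : ℝ)) (b := X) (C := 1)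
    (f := fun t : ℝ => ee (t * β)) (fun t _ => (lm_norm_ee _).le)
  rw [sub_zero, one_mul, abs_of_nonneg (Nat.cast_nonneg X)] at h
  exact h

private lemma lm_Tc_le (X q : ℕ) [NeZero q] (θ : ℝ) (χ : DirichletCharacter ℂ q) :
    ‖Tc X q (la X) θ χ‖ ≤ 2 * X := by
  unfold Tc
  refine (norm_sum_le _ _).trans (le_trans (Finset.sum_le_sum fun n _ => ?_) (sum_la_le X))
  rw [norm_mul, norm_mul, lm_norm_ee, mul_one, Complex.norm_real, Real.norm_eq_abs,
    abs_of_nonneg (lm_la_nonneg X n)]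
  exact mul_le_of_le_one_right (lm_la_nonneg X n) (DirichletCharacter.norm_le_one χ _)

private lemma lm_Tc_sq (X q : ℕ) [NeZero q] (hq : q ≤ X) (θ : ℝ) :
    ∑ χ : DirichletCharacter ℂ q, ‖Tc X q (la X) θ χ‖ ^ 2 ≤ 4 * X ^ 2 * Real.log X := by
  have h1 := char_ms q 0 X (fun n => (la X n : ℂ) * ee (n * θ))
  rw [zero_add] at h1
  have h2 : ∀ χ : DirichletCharacter ℂ q, Tc X q (la X) θ χ =
      ∑ n ∈ Ioc 0 X, ((la X n : ℂ) * ee (n * θ)) * χ n := by
    intro χ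
    unfold Tc
    have e : Icc 1 X = Ioc 0 X := by
      ext n
      simp only [mem_Icc, mem_Ioc]
      omega
    rw [e]
    exact Finset.sum_congr rfl fun n _ => by ring
  have h3 : ∑ n ∈ Ioc 0 X, ‖(la X n : ℂ) * ee (n * θ)‖ ^ 2 = ∑ n ∈ Icc 1 X, la X n ^ 2 := by
    have e : Icc 1 X = Ioc 0 X := by
      ext n
      simp only [mem_Icc, mem_Ioc]
      omega
    rw [e]
    refine Finset.sum_congr rfl fun n _ => ?_
    rw [norm_mul, lm_norm_ee, mul_one, Complex.norm_real, Real.norm_eq_abs, sq_abs]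
  rw [h3] at h1
  simp only [h2]
  refine h1.trans ?_
  have h4 := sum_la_sq_le X
  have h5 : (X : ℝ) + q ≤ 2 * X := by
    have : (q : ℝ) ≤ X := by exact_mod_cast hq
    linarith
  have h6 : 0 ≤ ∑ n ∈ Icc 1 X, la X n ^ 2 := Finset.sum_nonneg fun n _ => sq_nonneg _
  calc ((X : ℝ) + q) * ∑ n ∈ Icc 1 X, la X n ^ 2 ≤ (2 * X) * (2 * X * Real.log X) :=
        mul_le_mul h5 h4 h6 (by positivity)
    _ = 4 * X ^ 2 * Real.log X := by ring

private lemma lm_large (k : ℕ) : ∃ X0 : ℕ, ∀ X : ℕ, X0 ≤ X →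
    64 ≤ Real.log X ∧ Real.log X ^ k ≤ X := by
  have h1 : ∀ᶠ x : ℝ in Filter.atTop, 64 ≤ Real.log x :=
    Real.tendsto_log_atTop.eventually_ge_atTop 64
  have h2 : ∀ᶠ x : ℝ in Filter.atTop, ‖Real.log x ^ k‖ ≤ 1 * ‖x‖ :=
    (Real.isLittleO_pow_log_id_atTop (n := k)).bound one_pos
  have h3 : ∀ᶠ X : ℕ in Filter.atTop, 64 ≤ Real.log X ∧ Real.log X ^ k ≤ X := by
    filter_upwards [tendsto_natCast_atTop_atTop.eventually h1,
      tendsto_natCast_atTop_atTop.eventually h2] with X ha hb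
    refine ⟨ha, ?_⟩
    rw [Real.norm_eq_abs, Real.norm_eq_abs, one_mul, abs_of_nonneg (a := (X : ℝ)) (by positivity)]
      at hb
    exact (le_abs_self _).trans hb
  exact Filter.eventually_atTop.1 h3

private theorem lm_r1 (x L : ℝ) (h : x ≤ L) (hL : 64 ≤ L) : 2 + 2 * x ≤ L ^ 2 := by nlinarith

private theorem lm_r2 (g L d f : ℝ) (h2 : d < f + 1) (h3 : g * L = d) (h4 : 1 ≤ g)
    (hL : 64 ≤ L) : g ≤ f := by nlinarith

private theorem lm_r3 (x p L : ℝ) (h : x ≤ p) (hp : 0 ≤ p) (hL : 64 ≤ L) : 2 * x ≤ p * L := by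
  nlinarith

private theorem lm_r4 (x p L : ℝ) (h : x ≤ p) (hp : 1 ≤ p) (hL : 64 ≤ L) : x + 1 ≤ p * L := by
  nlinarith

private theorem lm_r5 (L : ℝ) (hL : 1 ≤ L) : L ≤ L ^ 2 := by nlinarith

private theorem lm_r6 (n p : ℝ) (h : n ≤ p) (hp : 0 < p) : n * p ≤ 1 * p ^ 2 := by nlinarith

theorem la_major_core
    (h_gb : ∀ (ε : ℝ) (hε : 0 < ε) (hε1 : ε < 1) (A B : ℕ), ∃ C X0 : ℕ, ∀ X : ℕ, X0 ≤ X →
    ∀ (q : ℕ) [NeZero q], (q : ℝ) ≤ (X : ℝ) ^ (2 / 3 - ε) → ∀ (r : ℕ) (y : ℤ) (β : ℝ), 1 ≤ r →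
    (r : ℝ) ≤ Real.log X ^ B → Nat.Coprime r q → |β| ≤ Real.log X ^ B / X →
      ∃ 𝓑 : Finset (DirichletCharacter ℂ q), (𝓑.card : ℝ) ≤ Real.log X ^ C ∧
        ∀ 𝓖 : Finset (DirichletCharacter ℂ q), Disjoint 𝓖 𝓑 → (1 : DirichletCharacter ℂ q) ∉ 𝓖 →
          ∑ χ ∈ 𝓖, ‖Tc X q (la X) (y / r + β) χ‖ ^ 2 ≤ X ^ 2 / Real.log X ^ A)
    (h_small : ∀ (A B : ℕ), ∃ X0 : ℕ, ∀ X : ℕ, X0 ≤ X → ∀ (q : ℕ) [NeZero q], q ≤ X →
    ∀ (r d : ℕ) (y : ℤ) (β : ℝ) (χ : DirichletCharacter ℂ q), 1 ≤ r → (r : ℝ) ≤ Real.log X ^ B →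
    Nat.Coprime r q → |β| ≤ Real.log X ^ B / X → χ ≠ 1 → d ∣ q → (d : ℝ) ≤ Real.log X ^ B →
    χ.FactorsThrough d → ‖Tc X q (la X) (y / r + β) χ‖ ≤ X / Real.log X ^ A)
    (h_one : ∀ (A B : ℕ), ∃ X0 : ℕ, ∀ X : ℕ, X0 ≤ X → ∀ (q : ℕ) [NeZero q], q ≤ X →
    ∀ (r : ℕ) (y : ℤ) (β : ℝ), 1 ≤ r → (r : ℝ) ≤ Real.log X ^ B → Nat.Coprime r q →
    IsCoprime y (r : ℤ) → |β| ≤ Real.log X ^ B / X →
    ‖Tc X q (la X) (y / r + β) 1 -
      ((((ArithmeticFunction.moebius r : ℤ) : ℝ) / (Nat.totient r : ℝ) : ℝ) : ℂ) * KI X β‖ ≤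
      X / Real.log X ^ A)
    (ε : ℝ) (hε : 0 < ε) (hε1 : ε < 1) (A B K : ℕ) : ∃ X0 : ℕ, ∀ X : ℕ, X0 ≤ X →
    ∀ (q : ℕ) [NeZero q], (q : ℝ) ≤ (X : ℝ) ^ (2 / 3 - ε) → ∀ (r : ℕ) (y : ℤ) (β : ℝ) (a : ZMod q),
    1 ≤ r → (r : ℝ) ≤ Real.log X ^ B → Nat.Coprime r q → IsCoprime y (r : ℤ) →
    |β| ≤ Real.log X ^ B / X → (Nat.gcd a.val q : ℝ) ≤ Real.log X ^ K →
    ‖Fz X q (la X) (y / r + β) a - MT X q r β a‖ ≤ X ^ 2 / (q * Real.log X ^ A) := by
  classical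
  obtain ⟨C, X1, hgb⟩ := h_gb ε hε hε1 (2 * (A + 7)) B
  obtain ⟨M, hM⟩ : ∃ M : ℕ, M = 2 * C + 9 + A := ⟨_, rfl⟩
  obtain ⟨G, hG⟩ : ∃ G : ℕ, G = K + 1 + 2 * M := ⟨_, rfl⟩
  obtain ⟨D1, hD1⟩ : ∃ D1 : ℕ, D1 = 2 * G + 1 := ⟨_, rfl⟩
  obtain ⟨X2, hTs⟩ := h_small (C + 2 * (A + 7)) (B + D1)
  obtain ⟨X3, hT1⟩ := h_one (A + 5) B
  obtain ⟨X4, hlarge⟩ := lm_large (A + 4)
  refine ⟨X1 + X2 + X3 + X4 + 2, fun X hX q _ hq r y β a hr1 hr hrq hy hβ hgcd => ?_⟩
  obtain ⟨hL64, hLX⟩ := hlarge X (by omega)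
  have hgb' := hgb X (by omega) q hq r y β hr1 hr hrq hβ
  have hX2 : 2 ≤ X := by omega
  have hXR : (2 : ℝ) ≤ X := by exact_mod_cast hX2
  have hXp : (0 : ℝ) < X := by linarith
  have hX1 : (1 : ℝ) ≤ X := by linarith
  have hqX' : (q : ℝ) ≤ X := by
    refine hq.trans ?_
    calc (X : ℝ) ^ (2 / 3 - ε) ≤ (X : ℝ) ^ (1 : ℝ) :=
          Real.rpow_le_rpow_of_exponent_le hX1 (by linarith)
      _ = X := Real.rpow_one _
  have hqX : q ≤ X := by exact_mod_cast hqX'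
  have hq1 : 1 ≤ q := Nat.one_le_iff_ne_zero.2 (NeZero.ne q)
  have hqp : (0 : ℝ) < q := by exact_mod_cast hq1
  have hT1' := hT1 X (by omega) q hqX r y β hr1 hr hrq hy hβ
  have hTs' := hTs X (by omega) q hqX r
  have hlogq : Real.log q ≤ Real.log X :=
    Real.log_le_log hqp hqX'
  have hlogq0 : 0 ≤ Real.log q := Real.log_natCast_nonneg q
  have hφ : (0 : ℝ) < Nat.totient q := by exact_mod_cast Nat.totient_pos.2 hq1
  have htot := totient_lower q hq1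
  have hTsq := lm_Tc_sq X q hqX (y / r + β)
  have hunits := lm_units X q (y / r + β) a
  have hTle := fun χ => lm_Tc_le X q (y / r + β) χ
  have hKI := lm_KI X β
  obtain ⟨L, hL⟩ : ∃ L : ℝ, L = Real.log X := ⟨_, rfl⟩
  obtain ⟨θ, hθ⟩ : ∃ θ : ℝ, θ = y / r + β := ⟨_, rfl⟩
  rw [← hL] at hL64 hLX hr hβ hgcd hgb' hT1' hTs' hlogq hTsq hunits ⊢
  rw [← hθ] at hgb' hT1' hTsq hunits hTle ⊢
  have hL1 : 1 ≤ L := by linarith
  have hLp : 0 < L := by linarith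
  have hpw : ∀ {i j : ℕ}, i ≤ j → L ^ i ≤ L ^ j := fun h => pow_le_pow_right₀ hL1 h
  -- the totient
  have hφq : (q : ℝ) ≤ Nat.totient q * L ^ 2 := by
    refine htot.trans (mul_le_mul_of_nonneg_left ?_ hφ.le)
    exact lm_r1 _ _ hlogq hL64
  have hφi : 1 / (Nat.totient q : ℝ) ≤ L ^ 2 / q := by
    rw [div_le_div_iff₀ hφ hqp]
    linarith
  have hφi0 : 0 ≤ 1 / (Nat.totient q : ℝ) := by positivity
  -- the target
  obtain ⟨Y, hY⟩ : ∃ Y : ℝ, Y = X ^ 2 / (q * L ^ (A + 1)) := ⟨_, rfl⟩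
  have hY0 : 0 ≤ Y := by rw [hY]; positivity
  have hYfin : 4 * Y ≤ X ^ 2 / (q * L ^ A) := by
    rw [hY, mul_div_assoc', div_le_div_iff₀ (by positivity) (by positivity), pow_succ]
    have h1 : (4 : ℝ) ≤ L := by linarith
    calc 4 * (X : ℝ) ^ 2 * (q * L ^ A) = 4 * (X ^ 2 * (q * L ^ A)) := by ring
      _ ≤ L * (X ^ 2 * (q * L ^ A)) := mul_le_mul_of_nonneg_right h1 (by positivity)
      _ = X ^ 2 * (q * (L ^ A * L)) := by ring
  -- a bound of the form `c X² L^i / (q L^j)` is at most `Y`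
  have hYb : ∀ (c : ℝ) (i : ℕ), 0 ≤ c → c ≤ 64 → c * X ^ 2 / (q * L ^ (A + 2 + i)) ≤ Y := by
    intro c i hc0 hc
    rw [hY, div_le_div_iff₀ (by positivity) (by positivity)]
    have h1 : c * L ^ (A + 1) ≤ L ^ (A + 2 + i) := by
      calc c * L ^ (A + 1) ≤ L * L ^ (A + 1) :=
            mul_le_mul_of_nonneg_right (by linarith) (by positivity)
        _ = L ^ (A + 2) := by ring
        _ ≤ L ^ (A + 2 + i) := hpw (by omega)
    calc c * (X : ℝ) ^ 2 * (q * L ^ (A + 1)) = (X ^ 2 * q) * (c * L ^ (A + 1)) := by ring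
      _ ≤ (X ^ 2 * q) * L ^ (A + 2 + i) := mul_le_mul_of_nonneg_left h1 (by positivity)
      _ = X ^ 2 * (q * L ^ (A + 2 + i)) := by ring
  -- the bad characters
  obtain ⟨B0, hB0, hB0'⟩ := hgb'
  obtain ⟨B1, hB1⟩ : ∃ B1 : Finset (DirichletCharacter ℂ q), B1 = B0.filter (fun χ => χ ≠ 1 ∧
    ∀ d : ℕ, d ∣ q → (d : ℝ) ≤ L ^ D1 → ¬ χ.FactorsThrough d) := ⟨_, rfl⟩
  have hB1card : (B1.card : ℝ) ≤ L ^ C := by
    refine le_trans ?_ hB0
    rw [hB1]
    exact_mod_cast Finset.card_filter_le _ _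
  have h1B1 : (1 : DirichletCharacter ℂ q) ∉ B1 := by
    rw [hB1, mem_filter]
    rintro ⟨_, h, _⟩
    exact h rfl
  obtain ⟨E, hE⟩ : ∃ E : ℝ, E = 2 * X ^ 2 / L ^ (2 * (A + 7)) := ⟨_, rfl⟩
  have hE0 : 0 ≤ E := by rw [hE]; positivity
  have hg : ∑ χ ∈ univ.filter (fun χ => χ ∉ B1 ∧ χ ≠ 1), ‖Tc X q (la X) θ χ‖ ^ 2 ≤ E := by
    have h1 : univ.filter (fun χ : DirichletCharacter ℂ q => χ ∉ B1 ∧ χ ≠ 1) ⊆
        univ.filter (fun χ : DirichletCharacter ℂ q => χ ∉ B0 ∧ χ ≠ 1) ∪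
        B0.filter (fun χ => χ ∉ B1 ∧ χ ≠ 1) := by
      intro χ hχ
      rw [mem_filter] at hχ
      rw [mem_union, mem_filter, mem_filter]
      by_cases h : χ ∈ B0
      · exact Or.inr ⟨h, hχ.2⟩
      · exact Or.inl ⟨mem_univ _, h, hχ.2.2⟩
    have h2 : ∑ χ ∈ univ.filter (fun χ : DirichletCharacter ℂ q => χ ∉ B0 ∧ χ ≠ 1),
        ‖Tc X q (la X) θ χ‖ ^ 2 ≤ X ^ 2 / L ^ (2 * (A + 7)) := by
      refine hB0' _ ?_ ?_
      · rw [Finset.disjoint_left]
        intro χ hχ hχ'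
        exact (mem_filter.1 hχ).2.1 hχ'
      · intro h
        exact (mem_filter.1 h).2.2 rfl
    have h3 : ∑ χ ∈ B0.filter (fun χ => χ ∉ B1 ∧ χ ≠ 1), ‖Tc X q (la X) θ χ‖ ^ 2 ≤
        X ^ 2 / L ^ (2 * (A + 7)) := by
      have h4 : ∀ χ ∈ B0.filter (fun χ => χ ∉ B1 ∧ χ ≠ 1), ‖Tc X q (la X) θ χ‖ ^ 2 ≤
          (X / L ^ (C + 2 * (A + 7))) ^ 2 := by
        intro χ hχ
        rw [mem_filter] at hχ
        obtain ⟨hχ0, hχ1, hχ2⟩ := hχ
        have h5 : ¬ ∀ d : ℕ, d ∣ q → (d : ℝ) ≤ L ^ D1 → ¬ χ.FactorsThrough d := by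
          intro h
          apply hχ1
          rw [hB1, mem_filter]
          exact ⟨hχ0, hχ2, h⟩
        push Not at h5
        obtain ⟨d, hdq, hdL, hdf⟩ := h5
        have h6 := hTs' d y β χ hr1 (hr.trans (hpw (by omega))) hrq
          (hβ.trans (div_le_div_of_nonneg_right (hpw (by omega)) hXp.le)) hχ2 hdq
          (hdL.trans (hpw (by omega))) hdf
        rw [← hθ] at h6
        exact pow_le_pow_left₀ (norm_nonneg _) h6 2
      refine (Finset.sum_le_sum h4).trans ?_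
      rw [Finset.sum_const, nsmul_eq_mul]
      have h5 : ((B0.filter (fun χ => χ ∉ B1 ∧ χ ≠ 1)).card : ℝ) ≤ L ^ C := by
        refine le_trans ?_ hB0
        exact_mod_cast Finset.card_filter_le _ _
      refine (mul_le_mul_of_nonneg_right h5 (by positivity)).trans ?_
      rw [div_pow, mul_div_assoc', div_le_div_iff₀ (by positivity) (by positivity)]
      have h6 : L ^ C * L ^ (2 * (A + 7)) ≤ (L ^ (C + 2 * (A + 7))) ^ 2 := by
        rw [← pow_add, ← pow_mul]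
        exact hpw (by omega)
      calc L ^ C * (X : ℝ) ^ 2 * L ^ (2 * (A + 7)) = X ^ 2 * (L ^ C * L ^ (2 * (A + 7))) := by ring
        _ ≤ X ^ 2 * (L ^ (C + 2 * (A + 7))) ^ 2 := mul_le_mul_of_nonneg_left h6 (by positivity)
    refine (Finset.sum_le_sum_of_subset_of_nonneg h1 fun _ _ _ => by positivity).trans ?_
    have h6 := Finset.sum_union_inter
      (s₁ := univ.filter (fun χ : DirichletCharacter ℂ q => χ ∉ B0 ∧ χ ≠ 1))
      (s₂ := B0.filter (fun χ => χ ∉ B1 ∧ χ ≠ 1)) (f := fun χ => ‖Tc X q (la X) θ χ‖ ^ 2)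
    have h7 : 0 ≤ ∑ χ ∈ univ.filter (fun χ : DirichletCharacter ℂ q => χ ∉ B0 ∧ χ ≠ 1) ∩
      B0.filter (fun χ => χ ∉ B1 ∧ χ ≠ 1), ‖Tc X q (la X) θ χ‖ ^ 2 :=
      Finset.sum_nonneg fun _ _ => by positivity
    rw [hE]
    have h5 : (X : ℝ) ^ 2 / L ^ (2 * (A + 7)) + X ^ 2 / L ^ (2 * (A + 7)) =
      2 * X ^ 2 / L ^ (2 * (A + 7)) := by ring
    linarith
  obtain ⟨J, hJ⟩ : ∃ J : ℝ, J = q / L ^ M := ⟨_, rfl⟩
  have hJ0 : 0 ≤ J := by rw [hJ]; positivity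
  have hbJ : ∀ χ ∈ B1, ∀ ψ : DirichletCharacter ℂ q, ‖Jc q a χ⁻¹ ψ‖ ≤ J := by
    intro χ hχ ψ
    rw [hB1, mem_filter] at hχ
    obtain ⟨_, _, hχf⟩ := hχ
    obtain ⟨D, hD⟩ : ∃ D : ℕ, D = ⌊L ^ D1⌋₊ := ⟨_, rfl⟩
    have hDle : (D : ℝ) ≤ L ^ D1 := by rw [hD]; exact Nat.floor_le (by positivity)
    have h1 := Jc_bound q D χ⁻¹ ψ (fun d hdq hdD hf => by
      refine hχf d hdq ?_ ?_
      · exact le_trans (by exact_mod_cast hdD) hDle
      · obtain ⟨h, χ0, h0⟩ := hf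
        refine ⟨h, χ0⁻¹, ?_⟩
        rw [map_inv, ← h0, inv_inv]) a
    have hDge : L ^ G ≤ Real.sqrt D := by
      apply Real.le_sqrt_of_sq_le
      have h2 : L ^ D1 < (D : ℝ) + 1 := by rw [hD]; exact Nat.lt_floor_add_one _
      have h3 : (L ^ G) ^ 2 * L = L ^ D1 := by
        rw [hD1, ← pow_mul, ← pow_succ, mul_comm G 2]
      have h4 : 1 ≤ (L ^ G) ^ 2 := one_le_pow₀ (one_le_pow₀ hL1)
      exact lm_r2 _ _ _ _ h2 h3 h4 hL64
    have h2 : 2 * (Nat.gcd a.val q : ℝ) * (q : ℝ) ^ 2 ≤ J ^ 2 * Real.sqrt D := by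
      have h3 : J ^ 2 * L ^ G = L ^ (K + 1) * (q : ℝ) ^ 2 := by
        rw [hJ, hG, pow_add L (K + 1) (2 * M), div_pow, ← pow_mul, mul_comm M 2]
        field_simp
      have h4 : J ^ 2 * L ^ G ≤ J ^ 2 * Real.sqrt D := mul_le_mul_of_nonneg_left hDge (by positivity)
      have h5 : 2 * (Nat.gcd a.val q : ℝ) ≤ L ^ (K + 1) := by
        rw [pow_succ]
        have : 0 ≤ L ^ K := by positivity
        exact lm_r3 _ _ _ hgcd this hL64
      have h6 := mul_le_mul_of_nonneg_right h5 (by positivity : (0 : ℝ) ≤ (q : ℝ) ^ 2)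
      linarith
    have hsD : 0 < Real.sqrt D := lt_of_lt_of_le (by positivity) hDge
    have h3 : ‖Jc q a χ⁻¹ ψ‖ ^ 2 ≤ J ^ 2 := le_of_mul_le_mul_right (h1.trans h2) hsD
    exact le_of_pow_le_pow_left₀ (by norm_num) hJ0 h3
  -- the main estimate
  have hbad := bad_alg X q (la X) θ a B1 h1B1 E J (2 * X) hE0 hJ0 hTle hg hbJ
  have hterm1 : ((B1.card : ℝ) + 1) ^ 2 * (2 * X) ^ 2 * J / (Nat.totient q : ℝ) ^ 2 ≤ Y := by
    have h1 : ((B1.card : ℝ) + 1) ^ 2 ≤ L ^ (2 * C + 2) := by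
      have h2 : (B1.card : ℝ) + 1 ≤ L ^ (C + 1) := by
        have h3 : 1 ≤ L ^ C := one_le_pow₀ hL1
        rw [pow_succ]
        exact lm_r4 _ _ _ hB1card h3 hL64
      have e1 : L ^ (2 * C + 2) = (L ^ (C + 1)) ^ 2 := by
        rw [← pow_mul]
        congr 1
        ring
      rw [e1]
      exact pow_le_pow_left₀ (by positivity) h2 2
    have h2 : J / (Nat.totient q : ℝ) ^ 2 ≤ L ^ 4 / (q * L ^ M) := by
      have h3 : J / (Nat.totient q : ℝ) ^ 2 = J * (1 / (Nat.totient q : ℝ)) ^ 2 := by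
        field_simp
      rw [h3]
      refine (mul_le_mul_of_nonneg_left (pow_le_pow_left₀ hφi0 hφi 2) hJ0).trans (le_of_eq ?_)
      rw [hJ]
      field_simp
    calc ((B1.card : ℝ) + 1) ^ 2 * (2 * X) ^ 2 * J / (Nat.totient q : ℝ) ^ 2
        = (((B1.card : ℝ) + 1) ^ 2 * (2 * X) ^ 2) * (J / (Nat.totient q : ℝ) ^ 2) := by ring
      _ ≤ (L ^ (2 * C + 2) * (2 * X) ^ 2) * (L ^ 4 / (q * L ^ M)) :=
          mul_le_mul (mul_le_mul_of_nonneg_right h1 (by positivity)) h2 (by positivity)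
            (by positivity)
      _ = 4 * X ^ 2 / (q * L ^ (A + 2 + 1)) := by
          have e1 : L ^ M = L ^ (2 * C + 2) * L ^ 4 * L ^ (A + 2 + 1) := by
            rw [hM, ← pow_add, ← pow_add]
            congr 1
            ring
          rw [e1, mul_div_assoc', div_eq_div_iff (by positivity) (by positivity)]
          ring
      _ ≤ Y := hYb 4 1 (by norm_num) (by norm_num)
  have hterm2 : (2 * Real.sqrt (E * ∑ χ : DirichletCharacter ℂ q, ‖Tc X q (la X) θ χ‖ ^ 2) + E) /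
      (Nat.totient q : ℝ) ≤ Y := by
    have h1 : Real.sqrt (E * ∑ χ : DirichletCharacter ℂ q, ‖Tc X q (la X) θ χ‖ ^ 2) ≤
        3 * X ^ 2 * L / L ^ (A + 7) := by
      rw [Real.sqrt_le_left (by positivity)]
      refine (mul_le_mul_of_nonneg_left hTsq hE0).trans ?_
      rw [hE, div_pow, ← pow_mul, mul_comm (A + 7) 2, div_mul_eq_mul_div]
      refine div_le_div_of_nonneg_right ?_ (by positivity)
      have h2 : L ≤ L ^ 2 := lm_r5 _ hL1
      have h3 : (0 : ℝ) ≤ (X : ℝ) ^ 4 := by positivity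
      have h4 := mul_le_mul_of_nonneg_left h2 h3
      have h5 : 0 ≤ (X : ℝ) ^ 4 * L ^ 2 := by positivity
      calc 2 * (X : ℝ) ^ 2 * (4 * X ^ 2 * L) = 8 * (X ^ 4 * L) := by ring
        _ ≤ 9 * (X ^ 4 * L ^ 2) := by linarith
        _ = (3 * X ^ 2 * L) ^ 2 := by ring
    have h2 : E ≤ 2 * X ^ 2 * L / L ^ (A + 7) := by
      rw [hE, div_le_div_iff₀ (by positivity) (by positivity)]
      have h3 : L ^ (A + 7) ≤ L * L ^ (2 * (A + 7)) := by
        rw [← pow_succ']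
        exact hpw (by omega)
      calc 2 * (X : ℝ) ^ 2 * L ^ (A + 7) ≤ 2 * X ^ 2 * (L * L ^ (2 * (A + 7))) :=
            mul_le_mul_of_nonneg_left h3 (by positivity)
        _ = 2 * X ^ 2 * L * L ^ (2 * (A + 7)) := by ring
    have h3 : 2 * Real.sqrt (E * ∑ χ : DirichletCharacter ℂ q, ‖Tc X q (la X) θ χ‖ ^ 2) + E ≤
        8 * X ^ 2 / L ^ (A + 6) := by
      have e1 : 3 * (X : ℝ) ^ 2 * L / L ^ (A + 7) = 3 * (X ^ 2 / L ^ (A + 6)) := by
        rw [show A + 7 = (A + 6) + 1 by ring, pow_succ]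
        field_simp
        ring
      have e2 : 2 * (X : ℝ) ^ 2 * L / L ^ (A + 7) = 2 * (X ^ 2 / L ^ (A + 6)) := by
        rw [show A + 7 = (A + 6) + 1 by ring, pow_succ]
        field_simp
        ring
      rw [e1] at h1
      rw [e2] at h2
      have e3 : 8 * (X : ℝ) ^ 2 / L ^ (A + 6) = 8 * (X ^ 2 / L ^ (A + 6)) := by ring
      rw [e3]
      linarith
    calc (2 * Real.sqrt (E * ∑ χ : DirichletCharacter ℂ q, ‖Tc X q (la X) θ χ‖ ^ 2) + E) /
          (Nat.totient q : ℝ)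
        = (2 * Real.sqrt (E * ∑ χ : DirichletCharacter ℂ q, ‖Tc X q (la X) θ χ‖ ^ 2) + E) *
          (1 / (Nat.totient q : ℝ)) := by ring
      _ ≤ (8 * X ^ 2 / L ^ (A + 6)) * (L ^ 2 / q) :=
          mul_le_mul h3 hφi hφi0 (by positivity)
      _ = 8 * X ^ 2 / (q * L ^ (A + 2 + 2)) := by
          have e1 : L ^ (A + 6) = L ^ 2 * L ^ (A + 2 + 2) := by
            rw [← pow_add]
            congr 1
            ring
          rw [e1]
          field_simp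
      _ ≤ Y := hYb 8 2 (by norm_num) (by norm_num)
  -- the principal character
  obtain ⟨U, hU⟩ : ∃ U : ℂ, U = Tc X q (la X) θ 1 := ⟨_, rfl⟩
  obtain ⟨m, hm⟩ : ∃ m : ℝ, m = ((ArithmeticFunction.moebius r : ℤ) : ℝ) / (Nat.totient r : ℝ) :=
    ⟨_, rfl⟩
  rw [← hU, ← hm] at hT1'
  have hm1 : |m| ≤ 1 := by
    rw [hm, abs_div]
    have hr0 : (1 : ℝ) ≤ Nat.totient r := by
      have : 1 ≤ Nat.totient r := Nat.totient_pos.2 hr1
      exact_mod_cast this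
    rw [div_le_one (by rw [abs_of_nonneg (by positivity)]; linarith),
      abs_of_nonneg (by positivity : (0 : ℝ) ≤ Nat.totient r)]
    have h1 : |((ArithmeticFunction.moebius r : ℤ) : ℝ)| ≤ 1 := by
      have := ArithmeticFunction.abs_moebius_le_one (n := r)
      exact_mod_cast this
    linarith
  have hUle : ‖U‖ ≤ 2 * X := by rw [hU]; exact hTle 1
  obtain ⟨W, hW⟩ : ∃ W : ℂ, W = (m : ℂ) * KI X β := ⟨_, rfl⟩
  have hWle : ‖W‖ ≤ X := by
    rw [hW, norm_mul, Complex.norm_real, Real.norm_eq_abs]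
    calc |m| * ‖KI X β‖ ≤ 1 * X := mul_le_mul hm1 hKI (norm_nonneg _) zero_le_one
      _ = X := one_mul _
  rw [← hW] at hT1'
  obtain ⟨nc, hnc⟩ : ∃ nc : ℝ, nc = (Nc q a : ℝ) / (Nat.totient q : ℝ) ^ 2 := ⟨_, rfl⟩
  have hnc0 : 0 ≤ nc := by rw [hnc]; positivity
  have hnc1 : nc ≤ L ^ 2 / q := by
    refine le_trans ?_ hφi
    rw [hnc, div_le_div_iff₀ (by positivity) hφ]
    have h1 : (Nc q a : ℝ) ≤ Nat.totient q := by exact_mod_cast lm_Nc_le q a
    exact lm_r6 _ _ h1 hφ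
  have hMT : MT X q r β a = W ^ 2 * (nc : ℂ) := by
    unfold MT
    rw [hW, ← hm, ← hnc]
    push_cast
    ring
  have hterm3 : ‖U ^ 2 * (nc : ℂ) - MT X q r β a‖ ≤ Y := by
    rw [hMT]
    have e1 : U ^ 2 * (nc : ℂ) - W ^ 2 * (nc : ℂ) = ((U - W) * (U + W)) * (nc : ℂ) := by ring
    rw [e1, norm_mul, norm_mul, Complex.norm_real, Real.norm_eq_abs, abs_of_nonneg hnc0]
    have h1 : ‖U + W‖ ≤ 3 * X := (norm_add_le _ _).trans (by linarith)
    calc ‖U - W‖ * ‖U + W‖ * nc ≤ (X / L ^ (A + 5)) * (3 * X) * (L ^ 2 / q) :=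
          mul_le_mul (mul_le_mul hT1' h1 (norm_nonneg _) (by positivity)) hnc1 hnc0
            (by positivity)
      _ = 3 * X ^ 2 / (q * L ^ (A + 2 + 1)) := by
          have e1 : L ^ (A + 5) = L ^ 2 * L ^ (A + 2 + 1) := by
            rw [← pow_add]
            congr 1
            ring
          rw [e1]
          field_simp
      _ ≤ Y := hYb 3 1 (by norm_num) (by norm_num)
  -- the non-units
  have hterm4 : 2 * (Real.log q * (((X : ℝ) / q + 1) * L)) ≤ Y := by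
    have h1 : (X : ℝ) / q + 1 ≤ 2 * X / q := by
      have : 1 ≤ (X : ℝ) / q := by rw [le_div_iff₀ hqp]; linarith
      have e : 2 * (X : ℝ) / q = X / q + X / q := by ring
      linarith
    calc 2 * (Real.log q * (((X : ℝ) / q + 1) * L)) ≤ 2 * (L * ((2 * X / q) * L)) := by
          refine mul_le_mul_of_nonneg_left ?_ (by norm_num)
          refine mul_le_mul hlogq ?_ (by positivity) hLp.le
          exact mul_le_mul_of_nonneg_right h1 hLp.le
      _ = 4 * (X * L ^ 2) / q := by ring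
      _ ≤ Y := by
          rw [hY, div_le_div_iff₀ hqp (by positivity)]
          have h2 : 4 * L ^ (A + 3) ≤ X := by
            refine le_trans ?_ hLX
            rw [show A + 4 = (A + 3) + 1 by ring, pow_succ, mul_comm]
            exact mul_le_mul_of_nonneg_left (by linarith) (by positivity)
          calc 4 * ((X : ℝ) * L ^ 2) * (q * L ^ (A + 1)) = (X * q) * (4 * L ^ (A + 3)) := by ring
            _ ≤ (X * q) * X := mul_le_mul_of_nonneg_left h2 (by positivity)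
            _ = X ^ 2 * q := by ring
  -- conclusion
  rw [← hU] at hbad
  obtain ⟨S, hS⟩ : ∃ S : ℂ, S = ∑ b ∈ univ.filter (fun b : ZMod q => IsUnit b ∧ IsUnit (a - b)),
    fz X q (la X) θ b * fz X q (la X) θ (a - b) := ⟨_, rfl⟩
  rw [← hS] at hunits hbad
  rw [← hnc] at hbad
  have e1 : Fz X q (la X) θ a - MT X q r β a = (Fz X q (la X) θ a - S) + (S - U ^ 2 * (nc : ℂ)) +
      (U ^ 2 * (nc : ℂ) - MT X q r β a) := by ring
  rw [e1]
  have h1 := norm_add_le ((Fz X q (la X) θ a - S) + (S - U ^ 2 * (nc : ℂ)))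
    (U ^ 2 * (nc : ℂ) - MT X q r β a)
  have h2 := norm_add_le (Fz X q (la X) θ a - S) (S - U ^ 2 * (nc : ℂ))
  linarith

end Pool.MP_dd84fd_nt.L2G
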