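import Pool.Agent.Lib.MP_dd84fd_nt.L2G.Defs
import Pool.Agent.Lib.MP_67663b_nt.OddB.Montgomery

set_option autoImplicit false

namespace Pool.MP_dd84fd_nt.L2G

open Finset Pool.MP_67663b_nt.Odd

private theorem mf_block (g : ℕ → ℂ) (W K s : ℕ) :
    ∑ n ∈ range (K * W + s), g n =
      ∑ k ∈ range K, ∑ i ∈ range W, g (k * W + i) + ∑ i ∈ range s, g (K * W + i) := by
  rw [Finset.sum_range_add]
  congr 1
  induction K with
  | zero => simp
  | succ K ih => rw [Nat.succ_mul, sum_range_add, ih, sum_range_succ]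

private theorem mf_block' (g : ℕ → ℂ) (W K s : ℕ) (hs : s ≤ W) :
    ∑ n ∈ range (K * W + s), g n =
      ∑ i ∈ range W, ∑ k ∈ range (if i < s then K + 1 else K), g (k * W + i) := by
  rw [mf_block, sum_comm]
  have h1 : ∑ i ∈ range s, g (K * W + i) = ∑ i ∈ range W, if i < s then g (K * W + i) else 0 := by
    rw [← sum_filter]
    congr 1
    ext i
    simp only [mem_range, mem_filter]
    omega
  rw [h1, ← sum_add_distrib]
  refine sum_congr rfl fun i _ => ?_
  split_ifs with h
  · rw [sum_range_succ]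
  · rw [add_zero]

private theorem mf_WH (W K s : ℕ) (hs : s ≤ W) (θ : ℝ) :
    WH W (K * W + s) θ = ((W : ℂ) / (Nat.totient W : ℂ)) *
      ∑ i ∈ (range W).filter (fun i => Nat.Coprime (i + 1) W),
        ∑ k ∈ range (if i < s then K + 1 else K), ee (((k * W + i + 1 : ℕ) : ℝ) * θ) := by
  set X := K * W + s with hX
  have h1 : WH W X θ = ∑ n ∈ range X, if Nat.Coprime (n + 1) W then
      ((W : ℂ) / (Nat.totient W : ℂ)) * ee (((n + 1 : ℕ) : ℝ) * θ) else 0 := by
    unfold WH Se
    have h2 : Icc 1 X = Ico (0 + 1) (X + 1) := by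
      ext n
      simp only [mem_Icc, mem_Ico]
      omega
    rw [h2, ← Finset.sum_Ico_add' (fun n => (lw W X n : ℂ) * ee ((n : ℝ) * θ)) 0 X 1,
      ← Finset.range_eq_Ico]
    refine sum_congr rfl fun n hn => ?_
    rw [mem_range] at hn
    unfold lw
    by_cases hc : Nat.Coprime (n + 1) W
    · rw [if_pos ⟨by omega, by omega, hc⟩, if_pos hc]
      push_cast
      rfl
    · rw [if_neg (fun hh => hc hh.2.2), if_neg hc]
      simp
  rw [h1, hX, mf_block' _ W K s hs, Finset.mul_sum, sum_filter]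
  refine sum_congr rfl fun i _ => ?_
  have hcop : ∀ k : ℕ, Nat.Coprime (k * W + i + 1) W ↔ Nat.Coprime (i + 1) W := by
    intro k
    rw [add_assoc, Nat.coprime_comm, Nat.add_comm, Nat.coprime_add_mul_right_right, Nat.coprime_comm]
  by_cases hc : Nat.Coprime (i + 1) W
  · rw [if_pos hc, Finset.mul_sum]
    exact sum_congr rfl fun k _ => if_pos ((hcop k).mpr hc)
  · rw [if_neg hc]
    exact sum_eq_zero fun k _ => if_neg (fun h => hc ((hcop k).mp h))

private theorem mf_card (W : ℕ) (hW : 1 ≤ W) :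
    ((range W).filter (fun i => Nat.Coprime (i + 1) W)).card = Nat.totient W := by
  rw [← Nat.filter_coprime_Ico_eq_totient W 1]
  refine Finset.card_bij (fun i _ => i + 1) ?_ ?_ ?_
  · intro i hi
    rw [mem_filter, mem_range] at hi
    rw [mem_filter, mem_Ico]
    exact ⟨⟨by omega, by omega⟩, Nat.coprime_comm.mp hi.2⟩
  · intro a _ b _ h
    omega
  · intro b hb
    rw [mem_filter, mem_Ico] at hb
    refine ⟨b - 1, ?_, by omega⟩
    rw [mem_filter, mem_range]
    have hb1 : b - 1 + 1 = b := by omega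
    rw [hb1]
    exact ⟨by omega, Nat.coprime_comm.mp hb.2⟩

private theorem mf_norm_ratio (W : ℕ) : ‖((W : ℂ) / (Nat.totient W : ℂ))‖ = (W : ℝ) / Nat.totient W := by
  rw [norm_div, Complex.norm_natCast, Complex.norm_natCast]

theorem WH_trivial (W X : ℕ) (hW : 1 ≤ W) (θ : ℝ) : ‖WH W X θ‖ ≤ X + W := by
  have hX : X = (X / W) * W + X % W := by
    rw [mul_comm]; exact (Nat.div_add_mod X W).symm
  have hφ : (0 : ℝ) < Nat.totient W := by exact_mod_cast Nat.totient_pos.mpr hW
  have hWr : (0 : ℝ) < W := by exact_mod_cast hW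
  have hs : X % W ≤ W := (Nat.mod_lt X hW).le
  have h1 : ‖WH W X θ‖ ≤ (W : ℝ) / Nat.totient W * (Nat.totient W * ((X : ℝ) / W + 1)) := by
    conv_lhs => rw [hX]
    rw [mf_WH W (X / W) (X % W) hs, norm_mul, mf_norm_ratio]
    gcongr
    refine (norm_sum_le _ _).trans ?_
    rw [← mf_card W hW]
    rw [← nsmul_eq_mul]
    refine Finset.sum_le_card_nsmul _ _ _ ?_
    intro i _
    refine (norm_sum_le _ _).trans ?_
    simp only [norm_ee, sum_const, card_range, nsmul_eq_mul, mul_one]
    have h2 : ((if i < X % W then X / W + 1 else X / W : ℕ) : ℝ) ≤ ((X / W : ℕ) : ℝ) + 1 := by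
      split_ifs
      · push_cast; exact le_refl _
      · linarith
    refine h2.trans ?_
    gcongr
    exact Nat.cast_div_le
  refine h1.trans (le_of_eq ?_)
  field_simp

private theorem mf_norm_sub_one (x : ℝ) : 2 * nrm x ≤ ‖ee x - 1‖ := by
  have h1 : ee x = ee (x - round x) := by
    have : x = (x - round x) + ((round x : ℤ) : ℝ) := by ring
    conv_lhs => rw [this]
    rw [ee_add_int]
  have h2 : |x - round x| ≤ 1 / 2 := abs_sub_round x
  rw [h1]
  unfold nrm ee
  set z := x - round x with hz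
  have h3 : (2 * Real.pi * z * Complex.I : ℂ) = Complex.I * ((2 * Real.pi * z : ℝ) : ℂ) := by
    push_cast
    ring
  rw [h3, Complex.norm_exp_I_mul_ofReal_sub_one, Real.norm_eq_abs, abs_mul, abs_two]
  have h4 : 2 * Real.pi * z / 2 = Real.pi * z := by ring
  rw [h4]
  have h5 : |z| ≤ |Real.sin (Real.pi * z)| := by
    have hpi := Real.pi_pos
    have key : ∀ w : ℝ, 0 ≤ w → w ≤ 1 / 2 → w ≤ Real.sin (Real.pi * w) := by
      intro w hw0 hw1
      have := Real.mul_le_sin (x := Real.pi * w) (by positivity) (by nlinarith)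
      have h6 : 2 / Real.pi * (Real.pi * w) = 2 * w := by field_simp
      rw [h6] at this
      linarith
    rcases le_total 0 z with h | h
    · rw [abs_of_nonneg h] at h2 ⊢
      exact (key z h h2).trans (le_abs_self _)
    · rw [abs_of_nonpos h] at h2 ⊢
      have h7 := key (-z) (by linarith) h2
      have h8 : Real.pi * (-z) = -(Real.pi * z) := by ring
      rw [h8, Real.sin_neg] at h7
      exact h7.trans (neg_le_abs _)
  linarith

private theorem mf_geom_norm (φ : ℝ) (M : ℕ) (h : 0 < nrm φ) :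
    ‖∑ k ∈ range M, ee ((k : ℝ) * φ)‖ ≤ 1 / nrm φ := by
  have hpow : ∀ k : ℕ, ee ((k : ℝ) * φ) = ee φ ^ k := by
    intro k
    induction k with
    | zero => simp [ee_zero]
    | succ k ih =>
      rw [pow_succ, ← ih, ← ee_add]
      congr 1
      push_cast
      ring
  have h1 := mf_norm_sub_one φ
  have h2 : 0 < ‖ee φ - 1‖ := by linarith
  have hne : ee φ ≠ 1 := by
    intro h3
    rw [h3, sub_self, norm_zero] at h2
    exact lt_irrefl _ h2
  simp only [hpow]
  rw [geom_sum_eq hne, norm_div]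
  have h3 : ‖ee φ ^ M - 1‖ ≤ 2 := by
    refine (norm_sub_le _ _).trans ?_
    rw [norm_pow, norm_ee, one_pow, norm_one]
    norm_num
  calc ‖ee φ ^ M - 1‖ / ‖ee φ - 1‖ ≤ 2 / (2 * nrm φ) := by gcongr
    _ = 1 / nrm φ := by
      field_simp

theorem WH_nrm (W X : ℕ) (hW : 1 ≤ W) (θ : ℝ) (h : 0 < nrm (W * θ)) :
    ‖WH W X θ‖ ≤ W / nrm (W * θ) := by
  have hX : X = (X / W) * W + X % W := by
    rw [mul_comm]; exact (Nat.div_add_mod X W).symm
  have hφ : (0 : ℝ) < Nat.totient W := by exact_mod_cast Nat.totient_pos.mpr hW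
  have hWr : (0 : ℝ) < W := by exact_mod_cast hW
  have hs : X % W ≤ W := (Nat.mod_lt X hW).le
  have h1 : ‖WH W X θ‖ ≤ (W : ℝ) / Nat.totient W * (Nat.totient W * (1 / nrm (W * θ))) := by
    conv_lhs => rw [hX]
    rw [mf_WH W (X / W) (X % W) hs, norm_mul, mf_norm_ratio]
    gcongr
    refine (norm_sum_le _ _).trans ?_
    rw [← mf_card W hW]
    rw [← nsmul_eq_mul]
    refine Finset.sum_le_card_nsmul _ _ _ ?_
    intro i _
    have h2 : ∑ k ∈ range (if i < X % W then X / W + 1 else X / W),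
        ee (((k * W + i + 1 : ℕ) : ℝ) * θ) = ee (((i + 1 : ℕ) : ℝ) * θ) *
        ∑ k ∈ range (if i < X % W then X / W + 1 else X / W), ee ((k : ℝ) * (W * θ)) := by
      rw [Finset.mul_sum]
      refine sum_congr rfl fun k _ => ?_
      rw [← ee_add]
      congr 1
      push_cast
      ring
    rw [h2, norm_mul, norm_ee, one_mul]
    exact mf_geom_norm _ _ h
  refine h1.trans (le_of_eq ?_)
  field_simp

private theorem mf_units_sum (n : ℕ) (hn : 1 ≤ n) (F : ℕ → ℂ) :
    haveI : NeZero n := ⟨by omega⟩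
    ∑ u : (ZMod n)ˣ, F (u : ZMod n).val = ∑ c ∈ (range n).filter (Nat.Coprime n), F c := by
  have : NeZero n := ⟨by omega⟩
  refine Finset.sum_bij (fun (u : (ZMod n)ˣ) _ => (u : ZMod n).val) ?_ ?_ ?_ ?_
  · intro u _
    rw [mem_filter, mem_range]
    exact ⟨ZMod.val_lt _, Nat.coprime_comm.mp (ZMod.val_coe_unit_coprime u)⟩
  · intro a _ b _ h
    exact Units.ext (ZMod.val_injective n h)
  · intro c hc
    rw [mem_filter, mem_range] at hc
    refine ⟨ZMod.unitOfCoprime c (Nat.coprime_comm.mp hc.2), mem_univ _, ?_⟩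
    rw [ZMod.coe_unitOfCoprime, ZMod.val_natCast, Nat.mod_eq_of_lt hc.1]
  · intro a _
    rfl

private theorem mf_lift (W r : ℕ) (hW : 1 ≤ W) (hr : r ∣ W) (F : ℕ → ℂ)
    (hF : ∀ a : ℕ, F (a % r) = F a) :
    ∑ c ∈ (range W).filter (Nat.Coprime W), F c =
      ((Nat.totient W : ℂ) / (Nat.totient r : ℂ)) *
        ∑ c ∈ (range r).filter (Nat.Coprime r), F c := by
  have hr1 : 1 ≤ r := Nat.pos_of_dvd_of_pos hr hW
  have : NeZero W := ⟨by omega⟩
  have : NeZero r := ⟨by omega⟩
  rw [← mf_units_sum W hW F, ← mf_units_sum r hr1 F]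
  set π := ZMod.unitsMap hr with hπ
  have hsurj : Function.Surjective π := ZMod.unitsMap_surjective hr
  have hval : ∀ u : (ZMod W)ˣ, F (u : ZMod W).val = F (π u : ZMod r).val := by
    intro u
    have : ((π u : (ZMod r)ˣ) : ZMod r).val = (u : ZMod W).val % r := by
      rw [hπ, ZMod.unitsMap_val, ZMod.cast_eq_val, ZMod.val_natCast]
    rw [this, hF]
  classical
  have hfib : ∀ v : (ZMod r)ˣ, (univ.filter (fun u : (ZMod W)ˣ => π u = v)).card =
      (univ.filter (fun u : (ZMod W)ˣ => π u = 1)).card := by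
    intro v
    exact MonoidHom.card_fiber_eq_of_mem_range π (hsurj v) (hsurj 1)
  set N := (univ.filter (fun u : (ZMod W)ˣ => π u = 1)).card with hN
  have hcard : Nat.totient W = Nat.totient r * N := by
    rw [← ZMod.card_units_eq_totient W, ← ZMod.card_units_eq_totient r]
    rw [← Finset.card_univ, Finset.card_eq_sum_card_fiberwise (f := fun u => π u) (t := univ)
      (fun _ _ => by simp)]
    rw [Finset.sum_congr rfl (fun v _ => hfib v)]
    simp [Finset.card_univ]
  have hφr : (Nat.totient r : ℂ) ≠ 0 := by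
    have := Nat.totient_pos.mpr hr1
    exact_mod_cast this.ne'
  have h1 : ∑ u : (ZMod W)ˣ, F (u : ZMod W).val =
      ∑ v : (ZMod r)ˣ, ∑ u ∈ univ.filter (fun u : (ZMod W)ˣ => π u = v), F (u : ZMod W).val := by
    rw [Finset.sum_fiberwise]
  rw [h1]
  have h2 : ∀ v : (ZMod r)ˣ, ∑ u ∈ univ.filter (fun u : (ZMod W)ˣ => π u = v), F (u : ZMod W).val =
      (N : ℂ) * F (v : ZMod r).val := by
    intro v
    rw [← hfib v, ← nsmul_eq_mul]
    rw [← Finset.sum_const]
    refine sum_congr rfl fun u hu => ?_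
    rw [mem_filter] at hu
    rw [hval, hu.2]
  rw [Finset.sum_congr rfl (fun v _ => h2 v), ← Finset.mul_sum, hcard]
  push_cast
  field_simp

theorem KI_le (X : ℕ) (β : ℝ) : ‖KI X β‖ ≤ X ∧ ‖KI X β‖ * |β| ≤ 1 := by
  constructor
  · unfold KI
    have h := intervalIntegral.norm_integral_le_of_norm_le_const (a := (0:ℝ)) (b := X) (C := 1)
      (f := fun t => ee (t * β)) (fun x _ => (norm_ee _).le)
    simpa using h
  · by_cases hβ : β = 0
    · rw [hβ]; simp
    · have hpi := Real.pi_pos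
      have hc : (2 * Real.pi * β * Complex.I : ℂ) ≠ 0 := by
        have h1 : (β : ℂ) ≠ 0 := by exact_mod_cast hβ
        have h2 : (Real.pi : ℂ) ≠ 0 := by exact_mod_cast hpi.ne'
        simp [h1, h2]
      have h1 : KI X β = (ee (X * β) - 1) / (2 * Real.pi * β * Complex.I : ℂ) := by
        unfold KI
        have h2 : (fun t : ℝ => ee (t * β)) =
            fun t : ℝ => Complex.exp ((2 * Real.pi * β * Complex.I : ℂ) * t) := by
          funext t
          unfold ee
          congr 1
          push_cast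
          ring
        rw [h2, integral_exp_mul_complex hc]
        congr 1
        unfold ee
        simp only [Complex.ofReal_zero, mul_zero, Complex.exp_zero]
        congr 2
        push_cast
        ring
      rw [h1, norm_div]
      have h3 : ‖(2 * Real.pi * β * Complex.I : ℂ)‖ = 2 * Real.pi * |β| := by
        rw [norm_mul, norm_mul, norm_mul, Complex.norm_I, Complex.norm_real, Complex.norm_real,
          Real.norm_eq_abs, Real.norm_eq_abs, abs_of_pos hpi]
        simp
      rw [h3]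
      have h4 : ‖ee (X * β) - 1‖ ≤ 2 := by
        refine (norm_sub_le _ _).trans ?_
        rw [norm_ee, norm_one]
        norm_num
      have hβ' : 0 < |β| := abs_pos.mpr hβ
      rw [div_mul_eq_mul_div, div_le_one (by positivity)]
      have h5 : (3 : ℝ) < Real.pi := Real.pi_gt_three
      nlinarith [norm_nonneg (ee (X * β) - 1)]

private theorem mf_ee_cont (β : ℝ) : Continuous (fun t : ℝ => ee (t * β)) := by
  unfold ee
  fun_prop

private theorem mf_inner (W K s i : ℕ) (hW : 1 ≤ W) (hs : s ≤ W) (hi : i < W) (β : ℝ) :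
    ‖(W : ℂ) * ∑ k ∈ range (if i < s then K + 1 else K), ee (((k * W + i + 1 : ℕ) : ℝ) * β) -
      KI (K * W + s) β‖ ≤ W * (3 + 7 * (|β| * ((K * W + s : ℕ) : ℝ))) := by
  have hpi : 2 * Real.pi ≤ 7 := by
    have := Real.pi_lt_d2
    linarith
  have hWr : (1 : ℝ) ≤ W := by exact_mod_cast hW
  have hint : ∀ a b : ℝ, IntervalIntegrable (fun t : ℝ => ee (t * β)) MeasureTheory.volume a b :=
    fun a b => (mf_ee_cont β).intervalIntegrable a b
  -- split of the integral
  have h1 : KI (K * W + s) β = (∑ k ∈ range K, ∫ t in ((k : ℝ) * W)..(((k + 1 : ℕ) : ℝ) * W),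
      ee (t * β)) + ∫ t in ((K : ℝ) * W)..((K : ℝ) * W + s), ee (t * β) := by
    unfold KI
    have h2 := intervalIntegral.sum_integral_adjacent_intervals
      (f := fun t : ℝ => ee (t * β)) (μ := MeasureTheory.volume) (a := fun k : ℕ => (k : ℝ) * W)
      (n := K) (fun k _ => hint _ _)
    rw [h2]
    simp only [Nat.cast_zero, zero_mul]
    rw [intervalIntegral.integral_add_adjacent_intervals (hint _ _) (hint _ _)]
    push_cast
    rfl
  -- split of the sum
  obtain ⟨E, hE, hE1⟩ : ∃ E : ℂ, ‖E‖ ≤ 1 ∧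
      ∑ k ∈ range (if i < s then K + 1 else K), ee (((k * W + i + 1 : ℕ) : ℝ) * β) =
        ∑ k ∈ range K, ee (((k * W + i + 1 : ℕ) : ℝ) * β) + E := by
    by_cases h : i < s
    · rw [if_pos h]
      refine ⟨ee (((K * W + i + 1 : ℕ) : ℝ) * β), (norm_ee _).le, ?_⟩
      rw [sum_range_succ]
    · rw [if_neg h]
      exact ⟨0, by simp, by rw [add_zero]⟩
  have h3 : ∀ k : ℕ, ‖(W : ℂ) * ee (((k * W + i + 1 : ℕ) : ℝ) * β) -
      ∫ t in ((k : ℝ) * W)..(((k + 1 : ℕ) : ℝ) * W), ee (t * β)‖ ≤ 7 * |β| * W * W := by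
    intro k
    have h4 : (W : ℂ) * ee (((k * W + i + 1 : ℕ) : ℝ) * β) =
        ∫ t in ((k : ℝ) * W)..(((k + 1 : ℕ) : ℝ) * W), ee (((k * W + i + 1 : ℕ) : ℝ) * β) := by
      rw [intervalIntegral.integral_const]
      have : (((k + 1 : ℕ) : ℝ) * W - (k : ℝ) * W) = W := by push_cast; ring
      rw [this, Complex.real_smul]
      push_cast
      rfl
    rw [h4, ← intervalIntegral.integral_sub (by simp) (hint _ _)]
    have h5 := intervalIntegral.norm_integral_le_of_norm_le_const (a := (k : ℝ) * W)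
      (b := ((k + 1 : ℕ) : ℝ) * W) (C := 7 * |β| * W)
      (f := fun t => ee (((k * W + i + 1 : ℕ) : ℝ) * β) - ee (t * β)) (by
        intro t ht
        rw [Set.uIoc_of_le (by push_cast; nlinarith)] at ht
        refine (norm_ee_sub_ee_le _ _).trans ?_
        have h6 : (((k * W + i + 1 : ℕ) : ℝ) * β - t * β) = (((k * W + i + 1 : ℕ) : ℝ) - t) * β := by
          ring
        rw [h6, abs_mul]
        have h7 : |((k * W + i + 1 : ℕ) : ℝ) - t| ≤ W := by
          have hi' : ((i : ℝ) + 1) ≤ W := by exact_mod_cast hi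
          have h8 := ht.1
          have h9 := ht.2
          push_cast at h9 ⊢
          rw [abs_le]
          constructor
          · have : (0 : ℝ) ≤ i := Nat.cast_nonneg i
            nlinarith
          · nlinarith
        have hb := abs_nonneg β
        calc 2 * Real.pi * (|((k * W + i + 1 : ℕ) : ℝ) - t| * |β|)
            ≤ 7 * (W * |β|) := by gcongr
          _ = 7 * |β| * W := by ring)
    refine h5.trans (le_of_eq ?_)
    have : (((k + 1 : ℕ) : ℝ) * W - (k : ℝ) * W) = W := by push_cast; ring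
    rw [this, abs_of_nonneg (by linarith : (0 : ℝ) ≤ W)]
  have h5 : ‖∫ t in ((K : ℝ) * W)..((K : ℝ) * W + s), ee (t * β)‖ ≤ W := by
    have h6 := intervalIntegral.norm_integral_le_of_norm_le_const (a := (K : ℝ) * W)
      (b := (K : ℝ) * W + s) (C := 1) (f := fun t => ee (t * β)) (fun x _ => (norm_ee _).le)
    refine h6.trans ?_
    have h7 : (s : ℝ) ≤ W := by exact_mod_cast hs
    have h8 : (0 : ℝ) ≤ s := Nat.cast_nonneg s
    rw [add_sub_cancel_left, abs_of_nonneg h8, one_mul]
    exact h7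
  rw [hE1, h1]
  have h6 : (W : ℂ) * (∑ k ∈ range K, ee (((k * W + i + 1 : ℕ) : ℝ) * β) + E) -
      ((∑ k ∈ range K, ∫ t in ((k : ℝ) * W)..(((k + 1 : ℕ) : ℝ) * W), ee (t * β)) +
        ∫ t in ((K : ℝ) * W)..((K : ℝ) * W + s), ee (t * β)) =
      (∑ k ∈ range K, ((W : ℂ) * ee (((k * W + i + 1 : ℕ) : ℝ) * β) -
        ∫ t in ((k : ℝ) * W)..(((k + 1 : ℕ) : ℝ) * W), ee (t * β))) +
      ((W : ℂ) * E - ∫ t in ((K : ℝ) * W)..((K : ℝ) * W + s), ee (t * β)) := by
    rw [sum_sub_distrib, ← Finset.mul_sum]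
    ring
  rw [h6]
  refine (norm_add_le _ _).trans ?_
  have h7 : ‖∑ k ∈ range K, ((W : ℂ) * ee (((k * W + i + 1 : ℕ) : ℝ) * β) -
        ∫ t in ((k : ℝ) * W)..(((k + 1 : ℕ) : ℝ) * W), ee (t * β))‖ ≤ K * (7 * |β| * W * W) := by
    refine (norm_sum_le _ _).trans ?_
    refine (Finset.sum_le_card_nsmul _ _ _ (fun k _ => h3 k)).trans (le_of_eq ?_)
    rw [card_range, nsmul_eq_mul]
  have h8 : ‖(W : ℂ) * E - ∫ t in ((K : ℝ) * W)..((K : ℝ) * W + s), ee (t * β)‖ ≤ W + W := by
    refine (norm_sub_le _ _).trans ?_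
    refine add_le_add ?_ h5
    rw [norm_mul, Complex.norm_natCast]
    calc (W : ℝ) * ‖E‖ ≤ W * 1 := by gcongr
      _ = W := mul_one _
  have hK : (0 : ℝ) ≤ K := Nat.cast_nonneg K
  have hs0 : (0 : ℝ) ≤ s := Nat.cast_nonneg s
  have hb := abs_nonneg β
  have h9 : (0 : ℝ) ≤ W * (7 * (|β| * s)) := by positivity
  refine (add_le_add h7 h8).trans ?_
  push_cast
  nlinarith

theorem WH_main (W X : ℕ) (hW : 1 ≤ W) (r : ℕ) (hr : r ∣ W) (y : ℤ) (β : ℝ) :
    ‖WH W X (y / r + β) - cr r y / (Nat.totient r : ℂ) * KI X β‖ ≤ W * (3 + 7 * (|β| * X)) := by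
  have hr1 : 1 ≤ r := Nat.pos_of_dvd_of_pos hr hW
  have hX : X = (X / W) * W + X % W := by
    rw [mul_comm]; exact (Nat.div_add_mod X W).symm
  set K := X / W with hK
  set s := X % W with hs
  have hsW : s ≤ W := (Nat.mod_lt X hW).le
  have hφ : (0 : ℝ) < Nat.totient W := by exact_mod_cast Nat.totient_pos.mpr hW
  have hWr : (0 : ℝ) < W := by exact_mod_cast hW
  have hφc : (Nat.totient W : ℂ) ≠ 0 := by exact_mod_cast hφ.ne'
  have hrc : (r : ℝ) ≠ 0 := by
    have : 0 < r := hr1
    positivity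
  have hφr : (Nat.totient r : ℂ) ≠ 0 := by
    have := Nat.totient_pos.mpr hr1
    exact_mod_cast this.ne'
  clear_value K s
  subst hX
  set F : ℕ → ℂ := fun c => ee ((y : ℝ) * c / r) with hF
  have hFr : ∀ a : ℕ, F (a % r) = F a := by
    intro a
    have h1 : (a : ℝ) = r * ((a / r : ℕ) : ℝ) + ((a % r : ℕ) : ℝ) := by
      exact_mod_cast (Nat.div_add_mod a r).symm
    have h2 : (y : ℝ) * a / r = (y : ℝ) * ((a % r : ℕ) : ℝ) / r + ((y * ((a / r : ℕ) : ℤ) : ℤ) : ℝ) := by
      rw [Int.cast_mul, Int.cast_natCast]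
      conv_lhs => rw [h1]
      field_simp
      ring
    simp only [hF]
    rw [h2, ee_add_int]
  have hsum : ∑ i ∈ (range W).filter (fun i => Nat.Coprime (i + 1) W), F (i + 1) =
      ((Nat.totient W : ℂ) / (Nat.totient r : ℂ)) * cr r y := by
    have h1 := mf_lift W r hW hr F hFr
    have h2 : ∑ c ∈ (range r).filter (Nat.Coprime r), F c = cr r y := rfl
    rw [← h2, ← h1, sum_filter, sum_filter]
    set G : ℕ → ℂ := fun c => if Nat.Coprime W c then F c else 0 with hG
    have h3 : ∑ i ∈ range W, (if Nat.Coprime (i + 1) W then F (i + 1) else 0) =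
        ∑ i ∈ range W, G (i + 1) := by
      refine sum_congr rfl fun i _ => ?_
      simp only [hG]
      exact if_congr Nat.coprime_comm rfl rfl
    rw [h3]
    have h4 : ∑ i ∈ range W, G (i + 1) + G 0 = ∑ i ∈ range W, G i + G W := by
      rw [← sum_range_succ', ← sum_range_succ]
    have h5 : G 0 = G W := by
      simp only [hG]
      refine if_congr ?_ ?_ rfl
      · rw [Nat.coprime_zero_right, Nat.coprime_self]
      · rw [← hFr 0, ← hFr W, Nat.zero_mod, Nat.mod_eq_zero_of_dvd hr]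
    rw [h5] at h4
    exact add_right_cancel h4
  rw [mf_WH W K s hsW]
  have h1 : ((W : ℂ) / (Nat.totient W : ℂ)) *
      ∑ i ∈ (range W).filter (fun i => Nat.Coprime (i + 1) W),
        ∑ k ∈ range (if i < s then K + 1 else K), ee (((k * W + i + 1 : ℕ) : ℝ) * (y / r + β)) -
      cr r y / (Nat.totient r : ℂ) * KI (K * W + s) β =
      (1 / (Nat.totient W : ℂ)) * ∑ i ∈ (range W).filter (fun i => Nat.Coprime (i + 1) W),
        F (i + 1) * ((W : ℂ) * ∑ k ∈ range (if i < s then K + 1 else K),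
          ee (((k * W + i + 1 : ℕ) : ℝ) * β) - KI (K * W + s) β) := by
    have h2 : cr r y / (Nat.totient r : ℂ) * KI (K * W + s) β = (1 / (Nat.totient W : ℂ)) *
        ((∑ i ∈ (range W).filter (fun i => Nat.Coprime (i + 1) W), F (i + 1)) *
          KI (K * W + s) β) := by
      rw [hsum]
      field_simp
    have h3 : ∀ i : ℕ, ∑ k ∈ range (if i < s then K + 1 else K),
        ee (((k * W + i + 1 : ℕ) : ℝ) * (y / r + β)) = F (i + 1) *
        ∑ k ∈ range (if i < s then K + 1 else K), ee (((k * W + i + 1 : ℕ) : ℝ) * β) := by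
      intro i
      rw [Finset.mul_sum]
      refine sum_congr rfl fun k _ => ?_
      have h4 : F (i + 1) = F (k * W + i + 1) := by
        rw [← hFr (i + 1), ← hFr (k * W + i + 1)]
        congr 1
        obtain ⟨m, rfl⟩ := hr
        have h6 : k * (r * m) + i + 1 = (i + 1) + r * (k * m) := by ring
        rw [h6, Nat.add_mul_mod_self_left]
      rw [h4]
      simp only [hF]
      rw [← ee_add]
      congr 1
      push_cast
      field_simp
    simp only [h3]
    rw [h2, Finset.sum_mul, Finset.mul_sum, Finset.mul_sum, Finset.mul_sum, ← sum_sub_distrib]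
    refine sum_congr rfl fun i _ => ?_
    ring
  rw [h1, norm_mul]
  have h4 : ‖(1 / (Nat.totient W : ℂ))‖ = 1 / (Nat.totient W : ℝ) := by
    rw [norm_div, norm_one, Complex.norm_natCast]
  rw [h4]
  have h5 : ‖∑ i ∈ (range W).filter (fun i => Nat.Coprime (i + 1) W),
        F (i + 1) * ((W : ℂ) * ∑ k ∈ range (if i < s then K + 1 else K),
          ee (((k * W + i + 1 : ℕ) : ℝ) * β) - KI (K * W + s) β)‖ ≤
      Nat.totient W * (W * (3 + 7 * (|β| * ((K * W + s : ℕ) : ℝ)))) := by
    refine (norm_sum_le _ _).trans ?_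
    rw [← mf_card W hW, ← nsmul_eq_mul]
    refine Finset.sum_le_card_nsmul _ _ _ ?_
    intro i hi
    rw [mem_filter, mem_range] at hi
    rw [norm_mul]
    have h6 : ‖F (i + 1)‖ = 1 := norm_ee _
    rw [h6, one_mul]
    exact mf_inner W K s i hW hsW hi.1 β
  calc 1 / (Nat.totient W : ℝ) * _ ≤ 1 / (Nat.totient W : ℝ) *
        (Nat.totient W * (W * (3 + 7 * (|β| * ((K * W + s : ℕ) : ℝ))))) := by gcongr
    _ = _ := by field_simp

/-- Orthogonality of additive characters. -/
private theorem mf_geom (m : ℕ) (y : ℤ) (hm : 1 ≤ m) (hy : IsCoprime y (m : ℤ)) :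
    ∑ j ∈ Finset.range m, ee ((y : ℝ) * ((j : ℝ) / m)) = if m = 1 then 1 else 0 := by
  have hm0 : (m : ℝ) ≠ 0 := by
    have : 0 < m := hm
    positivity
  have hpow : ∀ j : ℕ, ee ((y : ℝ) * ((j : ℝ) / m)) = ee ((y : ℝ) / m) ^ j := by
    intro j
    induction j with
    | zero => simp [ee_zero]
    | succ j ih =>
      rw [pow_succ, ← ih, ← ee_add]
      congr 1
      push_cast
      ring
  simp only [hpow]
  split_ifs with h1
  · subst h1
    simp
  · have hne : ee ((y : ℝ) / m) ≠ 1 := by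
      intro he
      unfold ee at he
      rw [Complex.exp_eq_one_iff] at he
      obtain ⟨k, hk⟩ := he
      have hpi : (2 * Real.pi * Complex.I : ℂ) ≠ 0 := Complex.two_pi_I_ne_zero
      have h2 : (((y : ℝ) / m : ℝ) : ℂ) = (k : ℂ) := by
        have h3 : (((y : ℝ) / m : ℝ) : ℂ) * (2 * Real.pi * Complex.I) =
            (k : ℂ) * (2 * Real.pi * Complex.I) := by
          rw [← hk]
          ring
        exact mul_right_cancel₀ hpi h3
      have h4 : ((y : ℝ) / m : ℝ) = (k : ℝ) := by exact_mod_cast h2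
      rw [div_eq_iff hm0] at h4
      have h5 : (y : ℤ) = k * m := by exact_mod_cast h4
      rw [h5] at hy
      have h7 : IsUnit (m : ℤ) := by
        have := hy.of_mul_left_right
        rwa [isCoprime_self] at this
      have h8 := Int.isUnit_iff_natAbs_eq.mp h7
      exact h1 (by simpa using h8)
    have hone : ee ((y : ℝ) / m) ^ m = 1 := by
      rw [← hpow]
      have : (y : ℝ) * ((m : ℝ) / m) = ((y : ℤ) : ℝ) := by
        rw [div_self hm0, mul_one]
      rw [this, ee_int]
    rw [geom_sum_eq hne, hone, sub_self, zero_div]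

/-- Möbius indicator of coprimality. -/
private theorem mf_ind (r b : ℕ) (hr : r ≠ 0) :
    (∑ d ∈ r.divisors.filter (fun d => d ∣ b), (ArithmeticFunction.moebius d : ℂ)) =
      if Nat.Coprime r b then 1 else 0 := by
  have h1 : r.divisors.filter (fun d => d ∣ b) = (Nat.gcd r b).divisors := by
    ext d
    simp only [Finset.mem_filter, Nat.mem_divisors, Nat.dvd_gcd_iff]
    have : Nat.gcd r b ≠ 0 := Nat.gcd_ne_zero_left hr
    tauto
  rw [h1]
  have h2 : ∑ d ∈ (Nat.gcd r b).divisors, (ArithmeticFunction.moebius d : ℤ) =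
      if Nat.gcd r b = 1 then 1 else 0 := by
    have h3 := congrArg (fun f : ArithmeticFunction ℤ => f (Nat.gcd r b))
      ArithmeticFunction.moebius_mul_coe_zeta
    simp only [ArithmeticFunction.coe_mul_zeta_apply, ArithmeticFunction.one_apply] at h3
    exact h3
  have h4 : (∑ d ∈ (Nat.gcd r b).divisors, (ArithmeticFunction.moebius d : ℂ)) =
      ((∑ d ∈ (Nat.gcd r b).divisors, (ArithmeticFunction.moebius d : ℤ) : ℤ) : ℂ) := by
    push_cast
    rfl
  rw [h4, h2]
  by_cases h : Nat.gcd r b = 1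
  · rw [if_pos h, if_pos h]
    simp
  · rw [if_neg h, if_neg h]
    simp

private theorem mf_cr_eq (r : ℕ) (hr : 1 ≤ r) (y : ℤ) (hy : IsCoprime y (r : ℤ)) :
    cr r y = (ArithmeticFunction.moebius r : ℂ) := by
  have hr0 : r ≠ 0 := by omega
  have hr1 : (r : ℝ) ≠ 0 := by exact_mod_cast hr0
  have e1 : cr r y =
      ∑ b ∈ Finset.range r, ∑ d ∈ r.divisors, if d ∣ b then
        (ArithmeticFunction.moebius d : ℂ) * ee ((y : ℝ) * ((b : ℝ) / r)) else 0 := by
    unfold cr
    rw [Finset.sum_filter]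
    refine Finset.sum_congr rfl fun b _ => ?_
    rw [← Finset.sum_filter, ← Finset.sum_mul, mf_ind r b hr0, mul_div_assoc]
    split_ifs <;> simp
  have e2 : ∀ d ∈ r.divisors, (∑ b ∈ Finset.range r, if d ∣ b then
        (ArithmeticFunction.moebius d : ℂ) * ee ((y : ℝ) * ((b : ℝ) / r)) else 0) =
      if d = r then (ArithmeticFunction.moebius d : ℂ) else 0 := by
    intro d hd
    rw [Nat.mem_divisors] at hd
    obtain ⟨m, hm⟩ := hd.1
    have hd0 : d ≠ 0 := by
      rintro rfl
      exact hr0 (by rw [hm, zero_mul])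
    have hm0 : m ≠ 0 := by
      rintro rfl
      exact hr0 (by rw [hm, mul_zero])
    have hd1 : (d : ℝ) ≠ 0 := by exact_mod_cast hd0
    have hm1 : (m : ℝ) ≠ 0 := by exact_mod_cast hm0
    have e3 : (∑ b ∈ Finset.range r, if d ∣ b then
        (ArithmeticFunction.moebius d : ℂ) * ee ((y : ℝ) * ((b : ℝ) / r)) else 0) =
        ∑ j ∈ Finset.range m, (ArithmeticFunction.moebius d : ℂ) * ee ((y : ℝ) * ((j : ℝ) / m)) := by
      rw [← Finset.sum_filter]
      symm
      refine Finset.sum_bij (fun j _ => d * j) ?_ ?_ ?_ ?_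
      · intro j hj
        rw [Finset.mem_range] at hj
        rw [Finset.mem_filter, Finset.mem_range, hm]
        exact ⟨Nat.mul_lt_mul_of_pos_left hj (Nat.pos_of_ne_zero hd0), dvd_mul_right d j⟩
      · intro j _ j' _ h
        exact Nat.eq_of_mul_eq_mul_left (Nat.pos_of_ne_zero hd0) h
      · intro b hb
        rw [Finset.mem_filter, Finset.mem_range] at hb
        obtain ⟨j, rfl⟩ := hb.2
        refine ⟨j, ?_, rfl⟩
        rw [Finset.mem_range]
        have := hb.1
        rw [hm] at this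
        exact Nat.lt_of_mul_lt_mul_left this
      · intro j _
        congr 2
        rw [hm]
        push_cast
        field_simp
    have hym : IsCoprime y (m : ℤ) := by
      have : (r : ℤ) = d * m := by exact_mod_cast hm
      rw [this] at hy
      exact hy.of_mul_right_right
    rw [e3, ← Finset.mul_sum, mf_geom m y (Nat.one_le_iff_ne_zero.mpr hm0) hym]
    by_cases h : m = 1
    · have : d = r := by rw [hm, h, mul_one]
      rw [if_pos h, if_pos this, mul_one]
    · have : d ≠ r := by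
        intro hdr
        apply h
        have h8 : d * m = d * 1 := by rw [mul_one, ← hm, hdr]
        exact Nat.eq_of_mul_eq_mul_left (Nat.pos_of_ne_zero hd0) h8
      rw [if_neg h, if_neg this, mul_zero]
  rw [e1, Finset.sum_comm, Finset.sum_congr rfl e2, Finset.sum_ite_eq', if_pos]
  exact Nat.mem_divisors_self r hr0

theorem cr_norm_le (r : ℕ) (hr : 1 ≤ r) (y : ℤ) (hy : IsCoprime y (r : ℤ)) : ‖cr r y‖ ≤ 1 := by
  rw [mf_cr_eq r hr y hy, Complex.norm_intCast]
  have := ArithmeticFunction.abs_moebius_le_one (n := r)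
  exact_mod_cast this

end Pool.MP_dd84fd_nt.L2G
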