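import Pool.Agent.Lib.MP_dd84fd_nt.L2G.ModelArith
import Pool.Agent.Lib.MP_dd84fd_nt.L2G.ModelAux
import Pool.Agent.Lib.MP_dd84fd_nt.L2G.ClassAlg
import Pool.Agent.Lib.MP_dd84fd_nt.L2G.ModelF

set_option autoImplicit false

namespace Pool.MP_dd84fd_nt.L2G

open Finset Pool.MP_67663b_nt.Odd

/-- classes that are not units -/
private theorem mj_zero (X R q : ℕ) [NeZero q] (b : ZMod q) (hb : ¬ IsUnit b) (θ : ℝ) :
    fz X q (nu X R q) θ b = 0 := by
  unfold fz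
  refine Finset.sum_eq_zero fun n hn => ?_
  rw [mem_filter] at hn
  rw [ma_nu_zero X R q n (by rw [hn.2]; exact hb)]
  simp

/-- one class -/
private theorem mj_class (X R q : ℕ) [NeZero q] (b : ZMod q) (hb : IsUnit b) (r : ℕ) (y : ℤ)
    (β : ℝ) (hr : 1 ≤ r) (hrR : r ≤ R) (hrq : Nat.Coprime r q) (hy : IsCoprime y (r : ℤ))
    (hβ : 2 * (r * R) * (q * |β|) ≤ 1) :
    ‖fz X q (nu X R q) (y / r + β) b -
      ((((ArithmeticFunction.moebius r : ℤ) : ℝ) / (Nat.totient r : ℝ) / (Nat.totient q : ℝ) : ℝ) : ℂ)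
        * KI X β‖ ≤
      (q : ℝ) / (Nat.totient q : ℝ) * ((3 + 7 * (|β| * X)) + (r : ℝ) * R ^ 2) := by
  obtain ⟨κ, hκ⟩ : ∃ κ : ℝ, κ = (q : ℝ) / (Nat.totient q : ℝ) := ⟨_, rfl⟩
  rw [← hκ]
  have hq1 : 0 < q := Nat.pos_of_ne_zero (NeZero.ne q)
  have hq0 : (0 : ℝ) < q := by exact_mod_cast hq1
  have hφ : (0 : ℝ) < Nat.totient q := by exact_mod_cast Nat.totient_pos.mpr hq1
  have hφr : (0 : ℝ) < Nat.totient r := by exact_mod_cast Nat.totient_pos.mpr hr
  have hr0 : (0 : ℝ) < r := by exact_mod_cast hr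
  have hR0 : (0 : ℝ) < R := by exact_mod_cast (by omega : 0 < R)
  have hκ0 : 0 ≤ κ := by rw [hκ]; positivity
  obtain ⟨G, hG⟩ : ∃ G : ℝ → ℂ, G = fun x => ∑ n ∈ (Icc 1 X).filter
    (fun n : ℕ => (n : ZMod q) = b), ee ((n : ℝ) * x) := ⟨_, rfl⟩
  have h1 : fz X q (nu X R q) (y / r + β) b =
      (κ : ℂ) * ∑ p ∈ ma_P R q, (ma_w p : ℂ) * G (ma_f p + (y / r + β)) := by
    unfold fz
    have h2 : ∀ n ∈ (Icc 1 X).filter (fun n : ℕ => (n : ZMod q) = b),
        ((nu X R q n : ℝ) : ℂ) * ee ((n : ℝ) * (y / r + β)) =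
        (κ : ℂ) * ∑ p ∈ ma_P R q, (ma_w p : ℂ) * ee ((n : ℝ) * (ma_f p + (y / r + β))) := by
      intro n hn
      rw [mem_filter, mem_Icc] at hn
      rw [ma_nu_P X R q n hn.1.1 hn.1.2 (by rw [hn.2]; exact hb), ← hκ, mul_assoc,
        Finset.sum_mul]
      congr 1
      refine Finset.sum_congr rfl fun p _ => ?_
      rw [mul_assoc, ← ee_add]
      congr 2
      ring
    rw [Finset.sum_congr rfl h2, ← Finset.mul_sum, Finset.sum_comm]
    congr 1
    refine Finset.sum_congr rfl fun p _ => ?_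
    rw [hG, Finset.mul_sum]
  -- the special element
  obtain ⟨t0, ht0, ht0r⟩ : ∃ t0 : ℕ, (r : ℤ) ∣ t0 + y ∧ t0 < r := by
    refine ⟨((-y) % (r : ℤ)).toNat, ?_, ?_⟩
    · have h2 : (0 : ℤ) ≤ (-y) % (r : ℤ) := Int.emod_nonneg _ (by omega)
      rw [Int.toNat_of_nonneg h2]
      have h3 := Int.emod_add_mul_ediv (-y) (r : ℤ)
      exact ⟨-((-y) / (r : ℤ)), by linarith⟩
    · have h2 : (-y) % (r : ℤ) < r := Int.emod_lt_of_pos _ (by omega)
      have h3 : (0 : ℤ) ≤ (-y) % (r : ℤ) := Int.emod_nonneg _ (by omega)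
      omega
  have ht0c : Nat.Coprime r t0 := by
    rw [← Nat.isCoprime_iff_coprime]
    obtain ⟨k, hk⟩ := ht0
    have h2 : (t0 : ℤ) = -y + r * k := by linarith
    rw [h2]
    exact (hy.symm.neg_right).add_mul_left_right k
  have hp0 : (⟨r, t0⟩ : Σ _ : ℕ, ℕ) ∈ ma_P R q := by
    rw [ma_mem_P]
    exact ⟨hr, hrR, hrq, ht0r, ht0c⟩
  have hG0 : G (ma_f ⟨r, t0⟩ + (y / r + β)) = G β := by
    obtain ⟨k, hk⟩ := ht0
    have h2 : ma_f ⟨r, t0⟩ + (y / r + β) = β + k := by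
      unfold ma_f
      have h3 : (t0 : ℝ) + y = r * k := by exact_mod_cast hk
      have h4 : (t0 : ℝ) / r + y / r = k := by
        rw [← add_div, h3]
        field_simp
      change (t0 : ℝ) / r + (y / r + β) = β + k
      linarith
    rw [h2, hG]
    refine Finset.sum_congr rfl fun n _ => ?_
    have h3 : (n : ℝ) * (β + k) = (n : ℝ) * β + (((n : ℤ) * k : ℤ) : ℝ) := by
      push_cast
      ring
    rw [h3, ee_add_int]
  -- the others
  have hoff : ∀ p ∈ ma_P R q, p ≠ ⟨r, t0⟩ →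
      ‖G (ma_f p + (y / r + β))‖ ≤ (r : ℝ) * R := by
    intro p hp hne
    rw [ma_mem_P] at hp
    rw [hG]
    refine (ma_mn X q b _).trans ?_
    have hp1 : (0 : ℝ) < p.1 := by exact_mod_cast hp.1
    have hp1' : (p.1 : ℝ) ≤ R := by exact_mod_cast hp.2.1
    have hsp := ma_spacing q p.1 r hp.1 hr hp.2.2.1 hrq (p.2 : ℤ) y
      ((Nat.isCoprime_iff_coprime.mpr hp.2.2.2.2).symm) hy (by
        rintro ⟨h3, h4⟩
        apply hne
        have h5 : ((p.2 : ℤ) - (t0 : ℤ)) = 0 := by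
          refine Int.eq_zero_of_abs_lt_dvd (m := (r : ℤ)) ?_ ?_
          · have e : (p.2 : ℤ) - t0 = (p.2 + y) - (t0 + y) := by ring
            rw [e]
            refine dvd_sub ?_ ht0
            rw [← h3]
            exact h4
          · rw [abs_lt]
            have h6 := hp.2.2.2.1
            rw [h3] at h6
            constructor <;> omega
        have h6 : p.2 = t0 := by omega
        exact Sigma.ext h3 (heq_of_eq h6))
    have e : (q : ℝ) * (ma_f p + (y / r + β)) =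
        (q : ℝ) * ((((p.2 : ℕ) : ℤ) : ℝ) / p.1 + (y : ℝ) / r) + q * β := by
      unfold ma_f
      push_cast
      ring
    have h3 : 1 / (2 * ((p.1 : ℝ) * r)) ≤ nrm (q * (ma_f p + (y / r + β))) := by
      rw [e]
      have h4 := ma_nrm_add ((q : ℝ) * ((((p.2 : ℕ) : ℤ) : ℝ) / p.1 + (y : ℝ) / r)) (q * β)
      have h5 : |(q : ℝ) * β| ≤ 1 / (2 * ((p.1 : ℝ) * r)) := by
        rw [abs_mul, abs_of_pos hq0, le_div_iff₀ (by positivity)]
        refine le_trans ?_ hβ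
        have h6 : 2 * ((p.1 : ℝ) * r) ≤ 2 * (r * R) := by nlinarith
        calc (q : ℝ) * |β| * (2 * ((p.1 : ℝ) * r)) ≤ (q : ℝ) * |β| * (2 * (r * R)) :=
              mul_le_mul_of_nonneg_left h6 (by positivity)
          _ = 2 * (r * R) * (q * |β|) := by ring
      have h6 : 1 / ((p.1 : ℝ) * r) = 1 / (2 * ((p.1 : ℝ) * r)) + 1 / (2 * ((p.1 : ℝ) * r)) := by
        field_simp
        norm_num
      linarith
    refine (ma_mn_inv _ _ _ (by positivity) h3).trans ?_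
    have h6 : 1 / (2 * (1 / (2 * ((p.1 : ℝ) * r)))) = (p.1 : ℝ) * r := by
      field_simp
    rw [h6, mul_comm]
    exact mul_le_mul_of_nonneg_left hp1' hr0.le
  have hsplit : ∑ p ∈ ma_P R q, (ma_w p : ℂ) * G (ma_f p + (y / r + β)) =
      (ma_w ⟨r, t0⟩ : ℂ) * G β + ∑ p ∈ (ma_P R q).erase ⟨r, t0⟩,
        (ma_w p : ℂ) * G (ma_f p + (y / r + β)) := by
    rw [← Finset.add_sum_erase _ _ hp0, hG0]
  have hw0 : ma_w ⟨r, t0⟩ = ((ArithmeticFunction.moebius r : ℤ) : ℝ) / (Nat.totient r : ℝ) := rfl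
  have hKI := ma_KI X q b β
  have hκq : κ / q = 1 / (Nat.totient q : ℝ) := by
    rw [hκ]
    field_simp
  have e3 : (κ : ℂ) * ((ma_w ⟨r, t0⟩ : ℂ) * G β + ∑ p ∈ (ma_P R q).erase ⟨r, t0⟩,
        (ma_w p : ℂ) * G (ma_f p + (y / r + β))) -
      ((((ArithmeticFunction.moebius r : ℤ) : ℝ) / (Nat.totient r : ℝ) / (Nat.totient q : ℝ) : ℝ) : ℂ)
        * KI X β = (κ : ℂ) * ((ma_w ⟨r, t0⟩ : ℂ) * (((1 / q : ℝ) : ℂ) * ((q : ℂ) * G β - KI X β)) +
          ∑ p ∈ (ma_P R q).erase ⟨r, t0⟩, (ma_w p : ℂ) * G (ma_f p + (y / r + β))) := by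
    have h5 : ((((ArithmeticFunction.moebius r : ℤ) : ℝ) / (Nat.totient r : ℝ) /
        (Nat.totient q : ℝ) : ℝ) : ℂ) = (κ : ℂ) * ((ma_w ⟨r, t0⟩ : ℂ) * ((1 / q : ℝ) : ℂ)) := by
      rw [hw0, ← Complex.ofReal_mul, ← Complex.ofReal_mul]
      congr 1
      rw [hκ]
      field_simp
    have h6 : ((1 / q : ℝ) : ℂ) * (q : ℂ) = 1 := by
      have : (q : ℂ) ≠ 0 := by exact_mod_cast hq1.ne'
      push_cast
      field_simp
    rw [h5]
    linear_combination (-(κ : ℂ) * (ma_w ⟨r, t0⟩ : ℂ) * G β) * h6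
  rw [h1, hsplit, e3, norm_mul, Complex.norm_real, Real.norm_eq_abs, abs_of_nonneg hκ0]
  refine mul_le_mul_of_nonneg_left ?_ hκ0
  refine (norm_add_le _ _).trans (add_le_add ?_ ?_)
  · rw [norm_mul, norm_mul, Complex.norm_real, Complex.norm_real, Real.norm_eq_abs,
      Real.norm_eq_abs, abs_of_nonneg (by positivity : (0 : ℝ) ≤ 1 / q)]
    have hw1 : |ma_w ⟨r, t0⟩| ≤ 1 := by
      have h3 := ma_mu_le r hr
      have h4 : (1 : ℝ) ≤ Nat.totient r := by exact_mod_cast Nat.totient_pos.mpr hr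
      rw [← hw0] at h3
      have h6 := abs_nonneg (ma_w ⟨r, t0⟩)
      nlinarith
    have h2 : (1 / q : ℝ) * ‖(q : ℂ) * G β - KI X β‖ ≤ 3 + 7 * (|β| * X) := by
      rw [one_div, inv_mul_eq_div, div_le_iff₀ hq0, mul_comm (3 + 7 * (|β| * (X : ℝ))) (q : ℝ), hG]
      exact hKI
    calc |ma_w ⟨r, t0⟩| * ((1 / q : ℝ) * ‖(q : ℂ) * G β - KI X β‖)
        ≤ 1 * (3 + 7 * (|β| * X)) :=
          mul_le_mul hw1 h2 (by positivity) (by norm_num)
      _ = _ := one_mul _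
  · refine (norm_sum_le _ _).trans ?_
    have h3 : ∀ p ∈ (ma_P R q).erase ⟨r, t0⟩, ‖(ma_w p : ℂ) * G (ma_f p + (y / r + β))‖ ≤
        |ma_w p| * ((r : ℝ) * R) := by
      intro p hp
      rw [mem_erase] at hp
      rw [norm_mul, Complex.norm_real, Real.norm_eq_abs]
      exact mul_le_mul_of_nonneg_left (hoff p hp.2 hp.1) (abs_nonneg _)
    refine (Finset.sum_le_sum h3).trans ?_
    rw [← Finset.sum_mul]
    have h4 : ∑ p ∈ (ma_P R q).erase ⟨r, t0⟩, |ma_w p| ≤ R :=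
      le_trans (Finset.sum_le_sum_of_subset_of_nonneg (Finset.erase_subset _ _)
        fun _ _ _ => abs_nonneg _) (ma_sum_w R q)
    calc (∑ p ∈ (ma_P R q).erase ⟨r, t0⟩, |ma_w p|) * ((r : ℝ) * R) ≤ R * ((r : ℝ) * R) :=
          mul_le_mul_of_nonneg_right h4 (by positivity)
      _ = (r : ℝ) * R ^ 2 := by ring

private theorem mj_final (x Xr q L LA κ E N : ℝ) (hx : 2 ≤ x) (hxX : x ^ 100 = Xr) (hL : 1 ≤ L)
    (hLA0 : 0 ≤ LA) (hLA : 10000 * L ^ 2 * LA ≤ x) (hq0 : 0 < q) (hqx : q ≤ x ^ 67) (hqX : q ≤ Xr)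
    (hκ0 : 0 ≤ κ) (hκ : κ ≤ 4 * L) (hE0 : 0 ≤ E) (hE : E ≤ 4 * L * (13 * x ^ 5)) (hN : N ≤ q) :
    N * (2 * (κ * Xr / q) * E + E ^ 2) * (q * LA) ≤ Xr ^ 2 := by
  have hx0 : 0 < x := by linarith
  have hX0 : 0 < Xr := by rw [← hxX]; positivity
  have hqx33 : q * x ^ 33 ≤ Xr := by
    calc q * x ^ 33 ≤ x ^ 67 * x ^ 33 := mul_le_mul_of_nonneg_right hqx (by positivity)
      _ = x ^ 100 := by ring
      _ = Xr := hxX
  have hE2 : κ * E ≤ 208 * L ^ 2 * x ^ 5 := by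
    have h7 := mul_le_mul hκ hE hE0 (by linarith)
    calc κ * E ≤ 4 * L * (4 * L * (13 * x ^ 5)) := h7
      _ = 208 * L ^ 2 * x ^ 5 := by ring
  have hE3 : E ^ 2 ≤ 2704 * L ^ 2 * x ^ 10 := by
    calc E ^ 2 ≤ (4 * L * (13 * x ^ 5)) ^ 2 := pow_le_pow_left₀ hE0 hE 2
      _ = 2704 * L ^ 2 * x ^ 10 := by ring
  have h7 : x * x ^ 5 * q ≤ Xr := by
    calc x * x ^ 5 * q = q * x ^ 6 := by ring
      _ ≤ q * x ^ 33 := mul_le_mul_of_nonneg_left
          (pow_le_pow_right₀ (by linarith) (by norm_num)) hq0.le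
      _ ≤ Xr := hqx33
  have h8 : x * x ^ 10 * q ≤ Xr := by
    calc x * x ^ 10 * q = q * x ^ 11 := by ring
      _ ≤ q * x ^ 33 := mul_le_mul_of_nonneg_left
          (pow_le_pow_right₀ (by linarith) (by norm_num)) hq0.le
      _ ≤ Xr := hqx33
  have h10 : (x * x ^ 10 * q) * q ≤ Xr * Xr := mul_le_mul h8 hqX hq0.le hX0.le
  have h11 : (x * x ^ 5 * q) * Xr ≤ Xr * Xr := mul_le_mul_of_nonneg_right h7 hX0.le
  calc N * (2 * (κ * Xr / q) * E + E ^ 2) * (q * LA)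
      ≤ q * (2 * (κ * Xr / q) * E + E ^ 2) * (q * LA) := by
        refine mul_le_mul_of_nonneg_right ?_ (by positivity)
        exact mul_le_mul_of_nonneg_right hN (by positivity)
    _ = (2 * (κ * E) * (Xr * q) + E ^ 2 * (q * q)) * LA := by
        field_simp
    _ ≤ (2 * (208 * L ^ 2 * x ^ 5) * (Xr * q) + 2704 * L ^ 2 * x ^ 10 * (q * q)) * LA := by
        refine mul_le_mul_of_nonneg_right ?_ hLA0
        refine add_le_add ?_ ?_
        · exact mul_le_mul_of_nonneg_right (by linarith) (by positivity)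
        · exact mul_le_mul_of_nonneg_right hE3 (by positivity)
    _ = (10000 * L ^ 2 * LA) *
          ((416 / 10000) * x ^ 5 * (Xr * q) + (2704 / 10000) * x ^ 10 * (q * q)) := by ring
    _ ≤ x * ((416 / 10000) * x ^ 5 * (Xr * q) + (2704 / 10000) * x ^ 10 * (q * q)) :=
        mul_le_mul_of_nonneg_right hLA (by positivity)
    _ = (416 / 10000) * ((x * x ^ 5 * q) * Xr) + (2704 / 10000) * ((x * x ^ 10 * q) * q) := by
        ring
    _ ≤ Xr ^ 2 := by
        have : 0 ≤ Xr * Xr := by positivity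
        nlinarith

theorem nu_major (A B : ℕ) : ∃ X0 : ℕ, ∀ X : ℕ, X0 ≤ X →
    ∀ (q : ℕ) [NeZero q], (q : ℝ) ≤ (X : ℝ) ^ (2 / 3 : ℝ) → ∀ (r : ℕ) (y : ℤ) (β : ℝ) (a : ZMod q),
    1 ≤ r → (r : ℝ) ≤ Real.log X ^ B → Nat.Coprime r q → IsCoprime y (r : ℤ) →
    |β| ≤ Real.log X ^ B / X →
    ‖Fz X q (nu X (Rm X) q) (y / r + β) a - MT X q r β a‖ ≤ X ^ 2 / (q * Real.log X ^ A) := by
  obtain ⟨X1, hX1⟩ := Filter.eventually_atTop.mp (ma_log_pow B (1 / 100 : ℝ) (by norm_num) 1)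
  obtain ⟨X2, hX2⟩ := Filter.eventually_atTop.mp
    (ma_log_pow (A + 2) (1 / 100 : ℝ) (by norm_num) 10000)
  obtain ⟨X3, hX3⟩ := Filter.eventually_atTop.mp
    ((tendsto_rpow_atTop (by norm_num : (0 : ℝ) < 1 / 100)).comp
      tendsto_natCast_atTop_atTop |>.eventually_ge_atTop (2 : ℝ))
  refine ⟨max (max X1 X2) (max X3 3), fun X hX q _ hq r y β a hr hrB hrq hy hβ => ?_⟩
  have hX1' : X1 ≤ X := (le_max_left _ _).trans ((le_max_left _ _).trans hX)
  have hX2' : X2 ≤ X := (le_max_right _ _).trans ((le_max_left _ _).trans hX)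
  have hX3' : X3 ≤ X := (le_max_left _ _).trans ((le_max_right _ _).trans hX)
  have hX4 : 3 ≤ X := (le_max_right _ _).trans ((le_max_right _ _).trans hX)
  have hXr : (1 : ℝ) ≤ X := by exact_mod_cast (by omega : 1 ≤ X)
  have hX0 : (0 : ℝ) < X := by linarith
  have hq0 : 0 < q := Nat.pos_of_ne_zero (NeZero.ne q)
  have hq0' : (0 : ℝ) < q := by exact_mod_cast hq0
  have hqX : q ≤ X := ma_q_le X q (by omega) hq
  have hlog1 : 1 ≤ Real.log X := by
    rw [Real.le_log_iff_exp_le hX0]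
    have : (3 : ℝ) ≤ X := by exact_mod_cast hX4
    linarith [Real.exp_one_lt_d9]
  -- notation: x = X^(1/100)
  obtain ⟨x, hx⟩ : ∃ x : ℝ, x = (X : ℝ) ^ (1 / 100 : ℝ) := ⟨_, rfl⟩
  have hx2 : 2 ≤ x := by rw [hx]; exact hX3 X hX3'
  have hx0 : 0 < x := by linarith
  have hxX : x ^ 100 = X := by
    rw [hx, ← Real.rpow_natCast, ← Real.rpow_mul hX0.le]
    norm_num
  have hLB : Real.log X ^ B ≤ x := by
    have := hX1 X hX1'
    rw [one_mul, ← hx] at this
    exact this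
  have hLA : 10000 * Real.log X ^ (A + 2) ≤ x := by
    have := hX2 X hX2'
    rw [← hx] at this
    exact this
  have hqx : (q : ℝ) ≤ x ^ 67 := by
    refine hq.trans ?_
    rw [hx, ← Real.rpow_natCast, ← Real.rpow_mul hX0.le]
    exact Real.rpow_le_rpow_of_exponent_le hXr (by norm_num)
  obtain ⟨R, hR⟩ : ∃ R, R = Rm X := ⟨_, rfl⟩
  have hRx : (R : ℝ) ≤ x ^ 2 := by
    rw [hR]
    refine (ma_Rm_le X).trans (le_of_eq ?_)
    rw [hx, ← Real.rpow_natCast, ← Real.rpow_mul hX0.le]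
    norm_num
  have hrx : (r : ℝ) ≤ x := hrB.trans hLB
  have hrR : r ≤ R := by
    rw [hR]
    unfold Rm
    rw [Nat.le_floor_iff (by positivity)]
    have h1 : (X : ℝ) ^ (1 / 50 : ℝ) = x ^ 2 := by
      rw [hx, ← Real.rpow_natCast, ← Real.rpow_mul hX0.le]
      norm_num
    rw [h1]
    nlinarith
  have hr0 : (0 : ℝ) < r := by exact_mod_cast hr
  have hβx : |β| * X ≤ x := by
    rw [le_div_iff₀ hX0] at hβ
    exact hβ.trans hLB
  have hβ' : 2 * (r * R) * (q * |β|) ≤ 1 := by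
    have h1 : |β| ≤ x / x ^ 100 := by
      rw [hxX, le_div_iff₀ hX0]
      exact hβx
    have h2 : (r : ℝ) * R ≤ x * x ^ 2 := mul_le_mul hrx hRx (by positivity) hx0.le
    have h3 : (q : ℝ) * |β| ≤ x ^ 67 * (x / x ^ 100) :=
      mul_le_mul hqx h1 (abs_nonneg _) (by positivity)
    calc 2 * (r * R) * (q * |β|) ≤ 2 * (x * x ^ 2) * (x ^ 67 * (x / x ^ 100)) :=
          mul_le_mul (by linarith) h3 (by positivity) (by positivity)
      _ = 2 / x ^ 29 := by field_simp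
      _ ≤ 1 := by
        rw [div_le_one (by positivity)]
        calc (2 : ℝ) ≤ x ^ 1 := by linarith
          _ ≤ x ^ 29 := pow_le_pow_right₀ (by linarith) (by norm_num)
  rw [← hR]
  obtain ⟨κ, hκ⟩ : ∃ κ : ℝ, κ = (q : ℝ) / (Nat.totient q : ℝ) := ⟨_, rfl⟩
  have hφ : (0 : ℝ) < Nat.totient q := by exact_mod_cast Nat.totient_pos.mpr hq0
  have hκ0 : 0 ≤ κ := by rw [hκ]; positivity
  have hκ1 : κ ≤ 4 * Real.log X := by
    rw [hκ]
    refine (ma_ratio q X hq0 hqX).trans ?_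
    linarith
  obtain ⟨E, hE⟩ : ∃ E : ℝ, E = κ * ((3 + 7 * (|β| * X)) + (r : ℝ) * R ^ 2) := ⟨_, rfl⟩
  have hE0 : 0 ≤ E := by rw [hE]; positivity
  obtain ⟨m, hm⟩ : ∃ m : ℂ, m = ((((ArithmeticFunction.moebius r : ℤ) : ℝ) /
    (Nat.totient r : ℝ) / (Nat.totient q : ℝ) : ℝ) : ℂ) * KI X β := ⟨_, rfl⟩
  have hcl : ∀ b : ZMod q, IsUnit b → ‖fz X q (nu X R q) (y / r + β) b - m‖ ≤ E := by
    intro b hb
    rw [hm, hE, hκ]
    exact mj_class X R q b hb r y β hr hrR hrq hy hβ'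
  have hmn : ‖m‖ ≤ κ * X / q := by
    rw [hm, norm_mul, Complex.norm_real, Real.norm_eq_abs, abs_div, abs_of_pos hφ]
    have h1 : |((ArithmeticFunction.moebius r : ℤ) : ℝ) / (Nat.totient r : ℝ)| ≤ 1 := by
      have h3 := ma_mu_le r hr
      have h4 : (1 : ℝ) ≤ Nat.totient r := by exact_mod_cast Nat.totient_pos.mpr hr
      have h6 := abs_nonneg (((ArithmeticFunction.moebius r : ℤ) : ℝ) / (Nat.totient r : ℝ))
      nlinarith
    have h2 := (KI_le X β).1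
    calc |((ArithmeticFunction.moebius r : ℤ) : ℝ) / (Nat.totient r : ℝ)| / Nat.totient q * ‖KI X β‖
        ≤ 1 / Nat.totient q * X :=
          mul_le_mul (div_le_div_of_nonneg_right h1 hφ.le) h2 (norm_nonneg _) (by positivity)
      _ = κ * X / q := by rw [hκ]; field_simp
  -- the convolution
  have h1 : Fz X q (nu X R q) (y / r + β) a =
      ∑ b ∈ univ.filter (fun b : ZMod q => IsUnit b ∧ IsUnit (a - b)),
        fz X q (nu X R q) (y / r + β) b * fz X q (nu X R q) (y / r + β) (a - b) := by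
    rw [Fz_eq, Finset.sum_filter]
    refine Finset.sum_congr rfl fun b _ => ?_
    split_ifs with h
    · rfl
    · rcases not_and_or.mp h with h | h
      · rw [mj_zero X R q b h, zero_mul]
      · rw [mj_zero X R q (a - b) h, mul_zero]
  have h2 : MT X q r β a =
      ∑ _b ∈ univ.filter (fun b : ZMod q => IsUnit b ∧ IsUnit (a - b)), m * m := by
    rw [Finset.sum_const, nsmul_eq_mul]
    unfold MT
    have h5 : ((univ.filter (fun b : ZMod q => IsUnit b ∧ IsUnit (a - b))).card : ℂ) =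
        ((Nc q a : ℝ) : ℂ) := by
      push_cast
      rfl
    rw [h5, hm]
    push_cast
    ring
  rw [h1, h2, ← Finset.sum_sub_distrib]
  refine (norm_sum_le _ _).trans ?_
  have h5 : ∀ b ∈ univ.filter (fun b : ZMod q => IsUnit b ∧ IsUnit (a - b)),
      ‖fz X q (nu X R q) (y / r + β) b * fz X q (nu X R q) (y / r + β) (a - b) - m * m‖ ≤
        2 * (κ * X / q) * E + E ^ 2 := by
    intro b hb
    rw [mem_filter] at hb
    have h6 := hcl b hb.2.1
    have h7 := hcl (a - b) hb.2.2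
    have e : fz X q (nu X R q) (y / r + β) b * fz X q (nu X R q) (y / r + β) (a - b) - m * m =
        (fz X q (nu X R q) (y / r + β) b - m) * (fz X q (nu X R q) (y / r + β) (a - b) - m) +
        m * (fz X q (nu X R q) (y / r + β) (a - b) - m) +
        (fz X q (nu X R q) (y / r + β) b - m) * m := by ring
    rw [e]
    refine (norm_add₃_le).trans ?_
    rw [norm_mul, norm_mul, norm_mul]
    have h8 := mul_le_mul h6 h7 (norm_nonneg _) hE0
    have hM0 : 0 ≤ κ * X / q := by positivity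
    have h9 := mul_le_mul hmn h7 (norm_nonneg _) hM0
    have h10 := mul_le_mul h6 hmn (norm_nonneg _) hE0
    nlinarith
  refine (Finset.sum_le_card_nsmul _ _ _ h5).trans ?_
  rw [nsmul_eq_mul]
  have h6 : ((univ.filter (fun b : ZMod q => IsUnit b ∧ IsUnit (a - b))).card : ℝ) ≤ q := by
    have := Finset.card_filter_le (univ : Finset (ZMod q))
      (fun b : ZMod q => IsUnit b ∧ IsUnit (a - b))
    rw [Finset.card_univ, ZMod.card] at this
    exact_mod_cast this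
  have hEx : E ≤ 4 * Real.log X * (13 * x ^ 5) := by
    rw [hE]
    refine mul_le_mul hκ1 ?_ (by positivity) (by linarith)
    have h7 : (r : ℝ) * R ^ 2 ≤ x * (x ^ 2) ^ 2 :=
      mul_le_mul hrx (pow_le_pow_left₀ (by positivity) hRx 2) (by positivity) hx0.le
    have h8 : x ≤ x ^ 5 := by
      have : x ^ 1 ≤ x ^ 5 := pow_le_pow_right₀ (by linarith) (by norm_num)
      simpa using this
    have h9 : (1 : ℝ) ≤ x ^ 5 := one_le_pow₀ (by linarith)
    have h10 : x * (x ^ 2) ^ 2 = x ^ 5 := by ring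
    rw [h10] at h7
    nlinarith
  have hL0 : 0 < Real.log X := by linarith
  rw [le_div_iff₀ (by positivity)]
  refine mj_final x X q (Real.log X) (Real.log X ^ A) κ E _ hx2 hxX hlog1 (by positivity) ?_
    hq0' hqx (by exact_mod_cast hqX) hκ0 hκ1 hE0 hEx h6
  calc 10000 * Real.log X ^ 2 * Real.log X ^ A = 10000 * Real.log X ^ (A + 2) := by
          rw [pow_add]; ring
      _ ≤ x := hLA

end Pool.MP_dd84fd_nt.L2G
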