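import Pool.Agent.Lib.MP_dd84fd_nt.L2G.ArcQ
import Pool.Agent.Lib.MP_dd84fd_nt.L2G.ClassSplit
import Pool.Agent.Lib.MP_dd84fd_nt.L2G.LaMajor
import Pool.Agent.Lib.MP_dd84fd_nt.L2G.ModelMajor
import Pool.Agent.Lib.MP_dd84fd_nt.L2G.ModelArith

set_option autoImplicit false

namespace Pool.MP_dd84fd_nt.L2G

open Finset Pool.MP_67663b_nt.Odd

private lemma MajorAll_log_pow_le (δ : ℝ) (hδ : 0 < δ) (C : ℝ) (k : ℕ) :
    ∀ᶠ X : ℕ in Filter.atTop, C * Real.log X ^ k ≤ (X : ℝ) ^ δ := by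
  have h := isLittleO_log_rpow_rpow_atTop (k : ℝ) hδ
  have h2 : (fun x : ℝ => C * Real.log x ^ (k : ℝ)) =o[Filter.atTop] (fun x : ℝ => x ^ δ) :=
    h.const_mul_left C
  have h3 := (h2.bound (one_pos)).and (Filter.eventually_ge_atTop (1 : ℝ))
  have h4 := (tendsto_natCast_atTop_atTop (R := ℝ)).eventually h3
  filter_upwards [h4] with X hX
  obtain ⟨hX1, hX2⟩ := hX
  rw [Real.norm_eq_abs, Real.norm_eq_abs, one_mul, abs_of_nonneg (a := (X : ℝ) ^ δ) (by positivity),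
    Real.rpow_natCast] at hX1
  exact le_trans (le_abs_self _) hX1

private lemma MajorAll_log_ge (C : ℝ) : ∀ᶠ X : ℕ in Filter.atTop, C ≤ Real.log X :=
  (Real.tendsto_log_atTop.comp (tendsto_natCast_atTop_atTop (R := ℝ))).eventually
    (Filter.eventually_ge_atTop C)

theorem major_all (ε : ℝ) (hε : 0 < ε) (hε1 : ε < 1) (A B K : ℕ) : ∃ X0 : ℕ, ∀ X : ℕ, X0 ≤ X →
    ∀ (q : ℕ) [NeZero q], (q : ℝ) ≤ (X : ℝ) ^ (2 / 3 - ε) → ∀ (θ : ℝ) (a : ZMod q),
    θ ∈ MajQ X q B → (Nat.gcd a.val q : ℝ) ≤ Real.log X ^ K →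
    ‖Fz X q (la X) θ a - Fz X q (nu X (Rm X) q) θ a‖ ≤ X ^ 2 / (q * Real.log X ^ A) := by
  obtain ⟨X1, h1⟩ := la_major (ε / 2) (by linarith) (by linarith) (A + 2) B (K + B)
  obtain ⟨X2, h2⟩ := nu_major (A + 2) B
  obtain ⟨X3, hX3⟩ := Filter.eventually_atTop.1 (((MajorAll_log_ge 2).and
    (MajorAll_log_pow_le (ε / 2) (by linarith) 1 B)).and (Filter.eventually_ge_atTop 3))
  refine ⟨max X1 (max X2 X3), fun X hX q _ hqX θ a hθ hgcd => ?_⟩
  obtain ⟨⟨hL, hLB⟩, hX3'⟩ := hX3 X (le_trans (le_trans (le_max_right _ _)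
    (le_max_right _ _)) hX)
  have hX1 := le_trans (le_max_left _ _) hX
  have hX2 := le_trans (le_trans (le_max_left _ _) (le_max_right _ _)) hX
  have hq1 : 1 ≤ q := Nat.one_le_iff_ne_zero.2 (NeZero.ne q)
  have hXpos : (0 : ℝ) < X := by exact_mod_cast (by omega : 0 < X)
  have hX1' : (1 : ℝ) ≤ X := by exact_mod_cast (by omega : 1 ≤ X)
  have hqpos : (0 : ℝ) < q := by exact_mod_cast (by omega : 0 < q)
  set L : ℝ := Real.log X with hLdef
  have hL0 : (0 : ℝ) < L := by linarith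
  obtain ⟨t, r, c, y, β, ht, hr, htr, hpt, hcop, hy, hβ, hθe⟩ :=
    major_split X q B (by omega) hq1 θ hθ
  have ht0 : (0 : ℝ) < t := by exact_mod_cast (by omega : 0 < t)
  have hr0 : (0 : ℝ) < r := by exact_mod_cast (by omega : 0 < r)
  have ht1' : (1 : ℝ) ≤ t := by exact_mod_cast ht
  have hr1' : (1 : ℝ) ≤ r := by exact_mod_cast hr
  haveI : NeZero t := ⟨by omega⟩
  have htL : (t : ℝ) ≤ L ^ B := le_trans (le_mul_of_one_le_right ht0.le hr1') htr
  have hrL : (r : ℝ) ≤ L ^ B := le_trans (le_mul_of_one_le_left hr0.le ht1') htr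
  have hqt : ((q * t : ℕ) : ℝ) ≤ (X : ℝ) ^ (2 / 3 - ε / 2) := by
    push_cast
    rw [one_mul] at hLB
    calc (q : ℝ) * t ≤ (X : ℝ) ^ (2 / 3 - ε) * (X : ℝ) ^ (ε / 2) :=
          mul_le_mul hqX (htL.trans hLB) ht0.le (by positivity)
      _ = (X : ℝ) ^ (2 / 3 - ε / 2) := by
          rw [← Real.rpow_add hXpos]
          congr 1
          ring
  have hqt2 : ((q * t : ℕ) : ℝ) ≤ (X : ℝ) ^ (2 / 3 : ℝ) :=
    hqt.trans (Real.rpow_le_rpow_of_exponent_le hX1' (by linarith))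
  have hnu : nu X (Rm X) q = nu X (Rm X) (q * t) := by
    funext n
    exact (nu_congr X (Rm X) q t n hq1 ht hpt).symm
  rw [hθe]
  refine (Fz_split X q t (la X) (nu X (Rm X) q) (y / r + β) c a).trans ?_
  rw [hnu]
  have hterm : ∀ a' ∈ univ.filter (fun a' : ZMod (q * t) => ((a'.val : ℕ) : ZMod q) = a),
      ‖Fz X (q * t) (la X) (y / r + β) a' - Fz X (q * t) (nu X (Rm X) (q * t)) (y / r + β) a'‖
        ≤ 2 * (X ^ 2 / ((q * t : ℕ) * L ^ (A + 2))) := by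
    intro a' ha'
    have hmem := (Finset.mem_filter.1 ha').2
    have hg : (Nat.gcd a'.val (q * t) : ℝ) ≤ L ^ (K + B) := by
      have e1 := split_gcd q t a a' hmem
      have e2 : (Nat.gcd a'.val (q * t) : ℝ) ≤ (Nat.gcd a.val q : ℝ) * t := by exact_mod_cast e1
      refine e2.trans ?_
      rw [pow_add]
      exact mul_le_mul hgcd htL ht0.le (by positivity)
    have k1 := h1 X hX1 (q * t) hqt r y β a' hr hrL hcop hy hβ hg
    have k2 := h2 X hX2 (q * t) hqt2 r y β a' hr hrL hcop hy hβ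
    have e : Fz X (q * t) (la X) (y / r + β) a' - Fz X (q * t) (nu X (Rm X) (q * t)) (y / r + β) a'
        = (Fz X (q * t) (la X) (y / r + β) a' - MT X (q * t) r β a')
          - (Fz X (q * t) (nu X (Rm X) (q * t)) (y / r + β) a' - MT X (q * t) r β a') := by ring
    rw [e]
    refine (norm_sub_le _ _).trans ?_
    linarith
  refine (Finset.sum_le_sum hterm).trans ?_
  rw [Finset.sum_const, split_card q t a, nsmul_eq_mul]
  push_cast
  have e1 : (t : ℝ) * (2 * (X ^ 2 / (q * t * L ^ (A + 2)))) = X ^ 2 / (q * L ^ A) * (2 / L ^ 2) := by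
    rw [pow_add]
    field_simp
  rw [e1]
  have e2 : 2 / L ^ 2 ≤ 1 := by
    rw [div_le_one (by positivity)]
    nlinarith
  exact mul_le_of_le_one_right (by positivity) e2

end Pool.MP_dd84fd_nt.L2G
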