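import Pool.Agent.Lib.MP_dd84fd_nt.L2G.Defs
import Pool.Agent.Lib.MP_67663b_nt.OddB.APMajor

set_option autoImplicit false

/-!
# The exponential sum over primes on the major arcs with bounded denominator
-/

namespace Pool.MP_dd84fd_nt.L2G

open Finset Pool.MP_67663b_nt.Odd

private theorem majorPNT_ee {r q : ℕ} (hr : 1 ≤ r) (y : ℤ) (β : ℝ) :
    ee (q * (y / r + β)) = ee ((y : ℝ) * ((q % r : ℕ) : ℝ) / r) * ee (q * β) := by
  have hr0 : (r : ℝ) ≠ 0 := by positivity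
  obtain ⟨m, hm⟩ : ∃ m : ℕ, q = q % r + r * m := ⟨q / r, (Nat.mod_add_div q r).symm⟩
  generalize q % r = c at hm ⊢
  subst hm
  have h2 : ((c + r * m : ℕ) : ℝ) * (y / r + β) = ((y : ℝ) * (c : ℝ) / r +
      ((c + r * m : ℕ) : ℝ) * β) + (((m : ℤ) * y : ℤ) : ℝ) := by
    push_cast
    field_simp
    ring
  rw [h2, ee_add_int, ee_add]

private theorem majorPNT_step (K r : ℕ) (hr : 1 ≤ r) (hrK : r ≤ K) {ε : ℝ} (hε : 0 < ε) {X1 : ℝ}
    (hX1 : 0 < X1)
    (h : ∀ X ≥ X1, ∀ c : ℕ, Nat.Coprime c r → ∀ u v : ℝ, 1 ≤ u → u ≤ v → v ≤ 2 →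
      ∀ β : ℝ, |β| ≤ (2 * K : ℝ) / X →
      ‖(1 / (X : ℂ)) * ∑ q ∈ (pr (u * X) (v * X)).filter (fun q => q ≡ c [MOD r]),
          (Real.log q : ℂ) * ee (q * β) -
        (1 / (Nat.totient r : ℂ)) * ∫ t in u..v, ee (X * β * t)‖ ≤ ε)
    (y : ℤ) (β Y : ℝ) (hY : X1 ≤ Y) (hYK : (K : ℝ) < Y) (hβ : |β| ≤ (2 * K : ℝ) / Y) :
    ‖∑ q ∈ pr Y (2 * Y), (Real.log q : ℂ) * ee (q * (y / r + β)) -
      cr r y / (Nat.totient r : ℂ) * ∫ t in Y..(2 * Y), ee (t * β)‖ ≤ r * ε * Y := by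
  have hY0 : 0 < Y := hX1.trans_le hY
  have hYc : (Y : ℂ) ≠ 0 := by exact_mod_cast hY0.ne'
  have hfib : ∑ q ∈ pr Y (2 * Y), (Real.log q : ℂ) * ee (q * (y / r + β)) =
      ∑ c ∈ (range r).filter (Nat.Coprime r), ee ((y : ℝ) * c / r) *
        ∑ q ∈ (pr Y (2 * Y)).filter (fun q => q ≡ c [MOD r]), (Real.log q : ℂ) * ee (q * β) := by
    rw [← Finset.sum_fiberwise_of_maps_to (s := pr Y (2 * Y))
      (t := (range r).filter (Nat.Coprime r)) (g := fun q => q % r)]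
    · refine Finset.sum_congr rfl fun c hc => ?_
      rw [Finset.mul_sum]
      have hcr : c < r := Finset.mem_range.1 (Finset.mem_filter.1 hc).1
      refine Finset.sum_congr ?_ fun q hq => ?_
      · ext q
        rw [Finset.mem_filter, Finset.mem_filter, Nat.ModEq, Nat.mod_eq_of_lt hcr]
      · rw [Finset.mem_filter, Nat.ModEq, Nat.mod_eq_of_lt hcr] at hq
        rw [majorPNT_ee hr, hq.2]
        ring
    · intro q hq
      rw [mem_pr] at hq
      rw [Finset.mem_filter, Finset.mem_range]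
      refine ⟨Nat.mod_lt _ hr, ?_⟩
      have h1 : K < q := by exact_mod_cast hYK.trans_le hq.2.1
      have h2 : Nat.Coprime q r := by
        rw [Nat.Prime.coprime_iff_not_dvd hq.1]
        intro h3
        have := Nat.le_of_dvd hr h3
        omega
      rw [Nat.Coprime, Nat.gcd_comm, ← Nat.gcd_rec]
      exact Nat.coprime_comm.1 h2
  have hI : (Y : ℂ) * ∫ t in (1 : ℝ)..2, ee (Y * β * t) = ∫ t in Y..(2 * Y), ee (t * β) := by
    have h1 := intervalIntegral.smul_integral_comp_mul_left (a := 1) (b := 2)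
      (fun t : ℝ => ee (t * β)) Y
    rw [mul_one, mul_comm Y 2] at h1
    rw [← h1, Complex.real_smul]
    congr 2
    ext t
    congr 1
    ring
  have hc : ∀ c ∈ (range r).filter (Nat.Coprime r),
      ‖∑ q ∈ (pr Y (2 * Y)).filter (fun q => q ≡ c [MOD r]), (Real.log q : ℂ) * ee (q * β) -
        (1 / (Nat.totient r : ℂ)) * ∫ t in Y..(2 * Y), ee (t * β)‖ ≤ ε * Y := by
    intro c hc
    have h1 := h Y hY c (Nat.coprime_comm.1 (Finset.mem_filter.1 hc).2) 1 2 le_rfl (by norm_num)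
      le_rfl β hβ
    rw [one_mul] at h1
    rw [← hI]
    have h2 : ∑ q ∈ (pr Y (2 * Y)).filter (fun q => q ≡ c [MOD r]), (Real.log q : ℂ) * ee (q * β) -
        (1 / (Nat.totient r : ℂ)) * (Y * ∫ t in (1 : ℝ)..2, ee (Y * β * t)) =
        (Y : ℂ) * ((1 / (Y : ℂ)) * ∑ q ∈ (pr Y (2 * Y)).filter (fun q => q ≡ c [MOD r]),
          (Real.log q : ℂ) * ee (q * β) -
        (1 / (Nat.totient r : ℂ)) * ∫ t in (1 : ℝ)..2, ee (Y * β * t)) := by
      generalize (∑ q ∈ (pr Y (2 * Y)).filter (fun q => q ≡ c [MOD r]),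
          (Real.log q : ℂ) * ee (q * β)) = s1
      generalize (∫ t in (1 : ℝ)..2, ee (Y * β * t)) = s2
      have hYi : (Y : ℂ) * (1 / (Y : ℂ)) = 1 := mul_one_div_cancel hYc
      linear_combination (-s1) * hYi
    rw [h2, norm_mul, Complex.norm_real, Real.norm_eq_abs, abs_of_pos hY0, mul_comm]
    exact mul_le_mul_of_nonneg_right h1 hY0.le
  have hfin : ∑ q ∈ pr Y (2 * Y), (Real.log q : ℂ) * ee (q * (y / r + β)) -
      cr r y / (Nat.totient r : ℂ) * ∫ t in Y..(2 * Y), ee (t * β) =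
      ∑ c ∈ (range r).filter (Nat.Coprime r), ee ((y : ℝ) * c / r) *
        (∑ q ∈ (pr Y (2 * Y)).filter (fun q => q ≡ c [MOD r]), (Real.log q : ℂ) * ee (q * β) -
        (1 / (Nat.totient r : ℂ)) * ∫ t in Y..(2 * Y), ee (t * β)) := by
    rw [hfib, cr, div_eq_mul_inv, mul_assoc, Finset.sum_mul, ← Finset.sum_sub_distrib]
    refine Finset.sum_congr rfl fun c _ => ?_
    rw [one_div]
    ring
  rw [hfin]
  refine (norm_sum_le _ _).trans ?_
  calc ∑ c ∈ (range r).filter (Nat.Coprime r), ‖ee ((y : ℝ) * c / r) *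
        (∑ q ∈ (pr Y (2 * Y)).filter (fun q => q ≡ c [MOD r]), (Real.log q : ℂ) * ee (q * β) -
        (1 / (Nat.totient r : ℂ)) * ∫ t in Y..(2 * Y), ee (t * β))‖
      ≤ ∑ c ∈ (range r).filter (Nat.Coprime r), ε * Y := by
        refine Finset.sum_le_sum fun c hc' => ?_
        rw [norm_mul, norm_ee, one_mul]
        exact hc c hc'
    _ = (((range r).filter (Nat.Coprime r)).card : ℝ) * (ε * Y) := by
        rw [Finset.sum_const, nsmul_eq_mul]
    _ ≤ r * (ε * Y) := by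
        apply mul_le_mul_of_nonneg_right _ (by positivity)
        have : ((range r).filter (Nat.Coprime r)).card ≤ r := by
          calc ((range r).filter (Nat.Coprime r)).card ≤ (range r).card := card_filter_le _ _
            _ = r := card_range r
        exact_mod_cast this
    _ = r * ε * Y := by ring

private theorem majorPNT_theta (Y : ℝ) (hY : 0 ≤ Y) :
    ∑ q ∈ pr 0 Y, Real.log q ≤ 2 * Y := by
  have h1 : ∑ q ∈ pr 0 Y, Real.log q ≤ Chebyshev.theta Y := by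
    rw [Chebyshev.theta]
    refine Finset.sum_le_sum_of_subset_of_nonneg ?_ ?_
    · intro q hq
      rw [mem_pr] at hq
      rw [Finset.mem_filter, Finset.mem_Ioc]
      exact ⟨⟨hq.1.pos, Nat.le_floor hq.2.2.le⟩, hq.1⟩
    · intro q _ _
      exact Real.log_natCast_nonneg q
  have h2 := Chebyshev.theta_le_log4_mul_x hY
  have h3 : Real.log 4 ≤ 2 := by
    have h4 : Real.log 4 = 2 * Real.log 2 := by
      rw [show (4 : ℝ) = 2 ^ 2 by norm_num, Real.log_pow]
      norm_num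
    have := Real.log_two_lt_d9
    linarith
  nlinarith

private theorem majorPNT_cr (r : ℕ) (y : ℤ) : ‖cr r y / (Nat.totient r : ℂ)‖ ≤ 1 := by
  rw [norm_div, Complex.norm_natCast]
  apply div_le_one_of_le₀ _ (Nat.cast_nonneg _)
  rw [cr]
  refine (norm_sum_le _ _).trans ?_
  rw [Finset.sum_congr rfl fun c _ => norm_ee _, Finset.sum_const, nsmul_eq_mul, mul_one,
    Nat.totient_eq_card_coprime]

private theorem majorPNT_int (a b β : ℝ) (hab : a ≤ b) : ‖∫ t in a..b, ee (t * β)‖ ≤ b - a := by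
  have := intervalIntegral.norm_integral_le_of_norm_le_const (a := a) (b := b) (C := 1)
    (f := fun t : ℝ => ee (t * β)) (fun t _ => (norm_ee _).le)
  rwa [one_mul, abs_of_nonneg (by linarith)] at this

private theorem majorPNT_cont (β : ℝ) : Continuous (fun t : ℝ => ee (t * β)) := by
  unfold ee
  fun_prop

private theorem majorPNT_pr_split {x y z : ℝ} (hxy : x ≤ y) (hyz : y ≤ z) (F : ℕ → ℂ) :
    ∑ q ∈ pr x z, F q = ∑ q ∈ pr x y, F q + ∑ q ∈ pr y z, F q := by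
  rw [← Finset.sum_union]
  · apply Finset.sum_congr _ (fun _ _ => rfl)
    ext q
    rw [Finset.mem_union, mem_pr, mem_pr, mem_pr]
    constructor
    · rintro ⟨h1, h2, h3⟩
      rcases lt_or_ge (q : ℝ) y with h | h
      · exact Or.inl ⟨h1, h2, h⟩
      · exact Or.inr ⟨h1, h, h3⟩
    · rintro (⟨h1, h2, h3⟩ | ⟨h1, h2, h3⟩)
      · exact ⟨h1, h2, h3.trans_le hyz⟩
      · exact ⟨h1, hxy.trans h2, h3⟩
  · rw [Finset.disjoint_left]
    intro q h1 h2
    rw [mem_pr] at h1 h2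
    linarith [h1.2.2, h2.2.1]

theorem major_pnt (K : ℕ) (η : ℝ) (hη : 0 < η) : ∃ X0 : ℕ, ∀ X : ℕ, X0 ≤ X →
    ∀ (r : ℕ) (y : ℤ) (β : ℝ), 1 ≤ r → r ≤ K → |β| ≤ K / X →
    ‖LH X (y / r + β) - cr r y / (Nat.totient r : ℂ) * KI X β‖ ≤ η * X := by
  obtain ⟨k0, hk0⟩ := exists_nat_gt (24 / η)
  set ε : ℝ := η / (8 * (K + 1)) with hε_def
  have hK1 : (0 : ℝ) < K + 1 := by positivity
  have hε : 0 < ε := by positivity
  have hex : ∀ r : ℕ, ∃ X1 : ℝ, 0 < X1 ∧ (1 ≤ r → ∀ X ≥ X1, ∀ c : ℕ, Nat.Coprime c r →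
      ∀ u v : ℝ, 1 ≤ u → u ≤ v → v ≤ 2 → ∀ β : ℝ, |β| ≤ (2 * K : ℝ) / X →
      ‖(1 / (X : ℂ)) * ∑ q ∈ (pr (u * X) (v * X)).filter (fun q => q ≡ c [MOD r]),
          (Real.log q : ℂ) * ee (q * β) -
        (1 / (Nat.totient r : ℂ)) * ∫ t in u..v, ee (X * β * t)‖ ≤ ε) := by
    intro r
    by_cases hr : 1 ≤ r
    · obtain ⟨X1, h1, h2⟩ := ap_major (r := r) hr (2 * K : ℝ) hε
      exact ⟨X1, h1, fun _ => h2⟩
    · exact ⟨1, one_pos, fun h => absurd h hr⟩
  choose X1 hX1 hmain using hex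
  set M : ℝ := ∑ r ∈ range (K + 1), X1 r + K + 1 with hM
  have hM1 : ∀ r ≤ K, X1 r ≤ M := by
    intro r hr
    have := Finset.single_le_sum (f := X1) (s := range (K + 1)) (fun i _ => (hX1 i).le)
      (Finset.mem_range.2 (by omega : r < K + 1))
    have hK0 : (0 : ℝ) ≤ K := Nat.cast_nonneg K
    linarith
  have hM2 : (K : ℝ) < M := by
    have : 0 ≤ ∑ r ∈ range (K + 1), X1 r := Finset.sum_nonneg fun i _ => (hX1 i).le
    linarith
  obtain ⟨N0, hN0⟩ := exists_nat_gt (max (M * 2 ^ k0) (max 1 (4 / η)))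
  refine ⟨N0, fun X hX r y β hr hrK hβ => ?_⟩
  have hXR : max (M * 2 ^ k0) (max 1 (4 / η)) < (X : ℝ) := hN0.trans_le (by exact_mod_cast hX)
  have hXa : M * 2 ^ k0 < X := (le_max_left _ _).trans_lt hXR
  have hXb : 1 < (X : ℝ) := ((le_max_left _ _).trans (le_max_right _ _)).trans_lt hXR
  have hXc : 4 / η < X := ((le_max_right _ _).trans (le_max_right _ _)).trans_lt hXR
  have hX0 : (0 : ℝ) < X := by linarith
  set Y : ℝ := (X + 1) / 2 ^ k0 with hYdef
  have h2k : (0 : ℝ) < 2 ^ k0 := by positivity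
  have hYM : M ≤ Y := by
    rw [hYdef, le_div_iff₀ h2k]
    linarith
  have hY0 : 0 < Y := by
    have hK0 : (0 : ℝ) ≤ K := Nat.cast_nonneg K
    linarith
  have hYX : 2 ^ k0 * Y = X + 1 := by
    rw [hYdef]
    field_simp
  set A : ℂ := cr r y / (Nat.totient r : ℂ) with hA
  set D : ℝ → ℂ := fun Z => ∑ q ∈ pr 0 Z, (Real.log q : ℂ) * ee (q * (y / r + β)) -
    A * ∫ t in (0 : ℝ)..Z, ee (t * β) with hD
  have hstep : ∀ Z : ℝ, Y ≤ Z → 2 * Z ≤ X + 1 → ‖D (2 * Z)‖ ≤ ‖D Z‖ + r * ε * Z := by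
    intro Z hZ1 hZ2
    have hZ0 : 0 < Z := hY0.trans_le hZ1
    have hZX : Z ≤ 2 * X := by linarith
    have h1 : D (2 * Z) = D Z + (∑ q ∈ pr Z (2 * Z), (Real.log q : ℂ) * ee (q * (y / r + β)) -
        A * ∫ t in Z..(2 * Z), ee (t * β)) := by
      simp only [hD]
      rw [majorPNT_pr_split (x := 0) (y := Z) (z := 2 * Z) hZ0.le (by linarith),
        ← intervalIntegral.integral_add_adjacent_intervals
          ((majorPNT_cont β).intervalIntegrable 0 Z) ((majorPNT_cont β).intervalIntegrable Z (2 * Z))]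
      ring
    have h2 := majorPNT_step K r hr hrK hε (hX1 r) (hmain r hr) y β Z
      ((hM1 r hrK).trans (hYM.trans hZ1)) (hM2.trans_le (hYM.trans hZ1)) (by
        refine hβ.trans ?_
        rw [div_le_div_iff₀ hX0 hZ0]
        have hK0 : (0 : ℝ) ≤ K := Nat.cast_nonneg K
        nlinarith)
    rw [h1]
    exact (norm_add_le _ _).trans (add_le_add le_rfl h2)
  have hind : ∀ k : ℕ, k ≤ k0 → ‖D (2 ^ k * Y)‖ ≤ ‖D Y‖ + r * ε * (2 ^ k * Y) := by
    intro k
    induction k with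
    | zero =>
      intro _
      rw [pow_zero, one_mul]
      have : 0 ≤ r * ε * Y := by positivity
      linarith
    | succ k ih =>
      intro hk
      have h1 := ih (by omega)
      have h3 : (2 : ℝ) ^ (k + 1) * Y = 2 * (2 ^ k * Y) := by ring
      have h4 : (2 : ℝ) ^ (k + 1) ≤ 2 ^ k0 := pow_le_pow_right₀ (by norm_num) hk
      have h5 : (1 : ℝ) ≤ 2 ^ k := one_le_pow₀ (by norm_num)
      have h2 := hstep (2 ^ k * Y) (by nlinarith) (by
        rw [← h3, ← hYX]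
        exact mul_le_mul_of_nonneg_right h4 hY0.le)
      rw [h3]
      nlinarith
  have hDY : ‖D Y‖ ≤ 3 * Y := by
    simp only [hD]
    refine (norm_sub_le _ _).trans ?_
    have h1 : ‖∑ q ∈ pr 0 Y, (Real.log q : ℂ) * ee (q * (y / r + β))‖ ≤ 2 * Y := by
      refine (norm_sum_le _ _).trans (le_trans (le_of_eq ?_) (majorPNT_theta Y hY0.le))
      refine Finset.sum_congr rfl fun q _ => ?_
      rw [norm_mul, norm_ee, mul_one, Complex.norm_real, Real.norm_eq_abs,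
        abs_of_nonneg (Real.log_natCast_nonneg q)]
    have h2 : ‖A * ∫ t in (0 : ℝ)..Y, ee (t * β)‖ ≤ Y := by
      rw [norm_mul]
      have h3 := majorPNT_int 0 Y β hY0.le
      rw [sub_zero] at h3
      calc ‖A‖ * ‖∫ t in (0 : ℝ)..Y, ee (t * β)‖ ≤ 1 * Y :=
            mul_le_mul (majorPNT_cr r y) h3 (norm_nonneg _) zero_le_one
        _ = Y := one_mul Y
    linarith
  have hlast := hind k0 le_rfl
  rw [hYX] at hlast
  have hLH : LH X (y / r + β) = ∑ q ∈ pr 0 ((X : ℝ) + 1), (Real.log q : ℂ) *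
      ee (q * (y / r + β)) := by
    rw [LH, Se]
    have h1 : pr 0 ((X : ℝ) + 1) = (Icc 1 X).filter (fun n => n.Prime) := by
      ext q
      rw [mem_pr, Finset.mem_filter, Finset.mem_Icc]
      constructor
      · rintro ⟨h1, _, h3⟩
        have h4 : q < X + 1 := by exact_mod_cast h3
        exact ⟨⟨h1.one_lt.le, by omega⟩, h1⟩
      · rintro ⟨⟨_, h2⟩, h3⟩
        refine ⟨h3, Nat.cast_nonneg _, ?_⟩
        exact_mod_cast Nat.lt_succ_of_le h2
    rw [h1, Finset.sum_filter]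
    refine Finset.sum_congr rfl fun n hn => ?_
    rw [la]
    have hnX : n ≤ X := (Finset.mem_Icc.1 hn).2
    by_cases hp : n.Prime
    · rw [if_pos ⟨hp, hnX⟩, if_pos hp]
    · rw [if_neg (fun h => hp h.1), if_neg hp]
      simp
  have hKI : KI X β = (∫ t in (0 : ℝ)..((X : ℝ) + 1), ee (t * β)) -
      ∫ t in (X : ℝ)..((X : ℝ) + 1), ee (t * β) := by
    rw [KI, ← intervalIntegral.integral_add_adjacent_intervals
      ((majorPNT_cont β).intervalIntegrable 0 (X : ℝ))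
      ((majorPNT_cont β).intervalIntegrable (X : ℝ) ((X : ℝ) + 1))]
    ring
  have hfin : LH X (y / r + β) - A * KI X β = D ((X : ℝ) + 1) +
      A * ∫ t in (X : ℝ)..((X : ℝ) + 1), ee (t * β) := by
    rw [hLH, hKI]
    simp only [hD]
    ring
  rw [hfin]
  refine (norm_add_le _ _).trans ?_
  have h1 : ‖A * ∫ t in (X : ℝ)..((X : ℝ) + 1), ee (t * β)‖ ≤ 1 := by
    rw [norm_mul]
    have h3 := majorPNT_int (X : ℝ) ((X : ℝ) + 1) β (by linarith)
    calc ‖A‖ * ‖∫ t in (X : ℝ)..((X : ℝ) + 1), ee (t * β)‖ ≤ 1 * 1 :=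
          mul_le_mul (majorPNT_cr r y) (by linarith) (norm_nonneg _) zero_le_one
      _ = 1 := one_mul 1
  have h2 : r * ε * (X + 1) ≤ η * X / 4 := by
    have h3 : (r : ℝ) ≤ K + 1 := by
      have : (r : ℝ) ≤ K := by exact_mod_cast hrK
      linarith
    have h4 : r * ε ≤ η / 8 := by
      calc r * ε ≤ (K + 1) * ε := mul_le_mul_of_nonneg_right h3 hε.le
        _ = η / 8 := by rw [hε_def]; field_simp
    have h5 : (X : ℝ) + 1 ≤ 2 * X := by linarith
    calc r * ε * (X + 1) ≤ η / 8 * (2 * X) := by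
          apply mul_le_mul h4 h5 (by positivity) (by positivity)
      _ = η * X / 4 := by ring
  have h6 : 3 * Y ≤ η * X / 4 := by
    have h7 : (k0 : ℝ) ≤ 2 ^ k0 := by exact_mod_cast Nat.lt_two_pow_self.le
    have h8 : 24 / η < 2 ^ k0 := hk0.trans_le h7
    rw [div_lt_iff₀ hη] at h8
    have h9 : 2 ^ k0 * Y ≤ 2 * X := by rw [hYX]; linarith
    have h10 : 24 * Y ≤ η * (2 * X) := by
      calc 24 * Y ≤ (2 ^ k0 * η) * Y := mul_le_mul_of_nonneg_right h8.le hY0.le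
        _ = η * (2 ^ k0 * Y) := by ring
        _ ≤ η * (2 * X) := mul_le_mul_of_nonneg_left h9 hη.le
    linarith
  have h11 : 1 ≤ η * X / 4 := by
    rw [div_lt_iff₀ hη] at hXc
    linarith
  have h12 : 0 < η * X := by positivity
  linarith

end Pool.MP_dd84fd_nt.L2G
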