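import Pool.Agent.Lib.MP_dd84fd_nt.L2G.HBId
import Pool.Agent.Lib.MP_dd84fd_nt.L2G.Classify
import Pool.Agent.Lib.MP_dd84fd_nt.L2G.BoxII
import Pool.Agent.Lib.MP_dd84fd_nt.L2G.BoxI2
import Pool.Agent.Lib.MP_dd84fd_nt.L2G.HBBound

set_option autoImplicit false

namespace Pool.MP_dd84fd_nt.L2G

open Finset Pool.MP_67663b_nt.Odd

private lemma MinorA_log_pow_le (δ : ℝ) (hδ : 0 < δ) (C : ℝ) (k : ℕ) :
    ∀ᶠ X : ℕ in Filter.atTop, C * Real.log X ^ k ≤ (X : ℝ) ^ δ := by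
  have h := isLittleO_log_rpow_rpow_atTop (k : ℝ) hδ
  have h2 : (fun x : ℝ => C * Real.log x ^ (k : ℝ)) =o[Filter.atTop] (fun x : ℝ => x ^ δ) :=
    h.const_mul_left C
  have h3 := (h2.bound (one_pos)).and (Filter.eventually_ge_atTop (1 : ℝ))
  have h4 := (tendsto_natCast_atTop_atTop (R := ℝ)).eventually h3
  filter_upwards [h4] with X hX
  obtain ⟨hX1, hX2⟩ := hX
  rw [Real.norm_eq_abs, Real.norm_eq_abs, one_mul, abs_of_nonneg (a := (X : ℝ) ^ δ) (by positivity),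
    Real.rpow_natCast] at hX1
  exact le_trans (le_abs_self _) hX1

private lemma MinorA_log_ge (C : ℝ) : ∀ᶠ X : ℕ in Filter.atTop, C ≤ Real.log X :=
  (Real.tendsto_log_atTop.comp (tendsto_natCast_atTop_atTop (R := ℝ))).eventually
    (Filter.eventually_ge_atTop C)

private lemma MinorA_VQ_congr (X q : ℕ) (f g : ℕ → ℝ) (θ : ℝ)
    (h : ∀ n, 1 ≤ n → n ≤ X → f n = g n) : VQ X q f θ = VQ X q g θ := by
  unfold VQ
  refine Finset.sum_congr rfl fun b _ => ?_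
  congr 2
  refine Finset.sum_congr rfl fun n hn => ?_
  obtain ⟨h1, h2⟩ := Finset.mem_Icc.1 (Finset.mem_filter.1 hn).1
  rw [h n h1 h2]

private lemma MinorA_VQ_sum {ι : Type*} (X q : ℕ) (V : Finset ι) (a : ι → ℝ) (F : ι → ℕ → ℝ)
    (θ : ℝ) : VQ X q (fun n => ∑ v ∈ V, a v * F v n) θ ≤
      (V.card : ℝ) * ∑ v ∈ V, a v ^ 2 * VQ X q (F v) θ := by
  unfold VQ
  have e : (V.card : ℝ) * ∑ v ∈ V, a v ^ 2 * (∑ b ∈ (range q).filter (Nat.Coprime q),
      ‖∑ n ∈ (Icc 1 X).filter (fun n => n % q = b), (F v n : ℂ) * ee (n * θ)‖ ^ 2) =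
      ∑ b ∈ (range q).filter (Nat.Coprime q), (V.card : ℝ) * ∑ v ∈ V, (a v *
      ‖∑ n ∈ (Icc 1 X).filter (fun n => n % q = b), (F v n : ℂ) * ee (n * θ)‖) ^ 2 := by
    rw [← Finset.mul_sum, Finset.sum_comm]
    congr 1
    refine Finset.sum_congr rfl fun v _ => ?_
    rw [Finset.mul_sum]
    refine Finset.sum_congr rfl fun b _ => ?_
    rw [mul_pow]
  rw [e]
  refine Finset.sum_le_sum fun b _ => ?_
  have e2 : (∑ n ∈ (Icc 1 X).filter (fun n => n % q = b),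
      (((∑ v ∈ V, a v * F v n : ℝ)) : ℂ) * ee (n * θ)) =
      ∑ v ∈ V, (a v : ℂ) * ∑ n ∈ (Icc 1 X).filter (fun n => n % q = b),
        (F v n : ℂ) * ee (n * θ) := by
    simp_rw [Finset.mul_sum]
    rw [Finset.sum_comm]
    refine Finset.sum_congr rfl fun n _ => ?_
    push_cast
    rw [Finset.sum_mul]
    refine Finset.sum_congr rfl fun v _ => ?_
    ring
  rw [e2]
  have h1 : ‖∑ v ∈ V, (a v : ℂ) * ∑ n ∈ (Icc 1 X).filter (fun n => n % q = b),
        (F v n : ℂ) * ee (n * θ)‖ ≤ ∑ v ∈ V, |a v| *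
        ‖∑ n ∈ (Icc 1 X).filter (fun n => n % q = b), (F v n : ℂ) * ee (n * θ)‖ := by
    refine le_trans (norm_sum_le _ _) (Finset.sum_le_sum fun v _ => ?_)
    rw [norm_mul, Complex.norm_real, Real.norm_eq_abs]
  calc ‖∑ v ∈ V, (a v : ℂ) * ∑ n ∈ (Icc 1 X).filter (fun n => n % q = b),
        (F v n : ℂ) * ee (n * θ)‖ ^ 2 ≤ (∑ v ∈ V, |a v| *
        ‖∑ n ∈ (Icc 1 X).filter (fun n => n % q = b), (F v n : ℂ) * ee (n * θ)‖) ^ 2 := by
        gcongr
    _ ≤ (V.card : ℝ) * ∑ v ∈ V, (|a v| *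
        ‖∑ n ∈ (Icc 1 X).filter (fun n => n % q = b), (F v n : ℂ) * ee (n * θ)‖) ^ 2 :=
        sq_sum_le_card_mul_sum_sq
    _ = _ := by
        congr 1
        refine Finset.sum_congr rfl fun v _ => ?_
        rw [mul_pow, mul_pow, sq_abs]

private lemma MinorA_VQ_trivial (X q : ℕ) (f : ℕ → ℝ) (θ : ℝ) :
    VQ X q f θ ≤ (∑ n ∈ Icc 1 X, |f n|) ^ 2 := by
  unfold VQ
  have h1 : ∀ b ∈ (range q).filter (Nat.Coprime q),
      ‖∑ n ∈ (Icc 1 X).filter (fun n => n % q = b), (f n : ℂ) * ee (n * θ)‖ ≤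
      ∑ n ∈ (Icc 1 X).filter (fun n => n % q = b), |f n| := by
    intro b _
    refine le_trans (norm_sum_le _ _) (Finset.sum_le_sum fun n _ => ?_)
    rw [norm_mul, Complex.norm_real, Real.norm_eq_abs]
    have : ‖ee (n * θ)‖ = 1 := by
      unfold ee
      rw [Complex.norm_exp]
      simp
    rw [this, mul_one]
  have h2 : ∑ b ∈ (range q).filter (Nat.Coprime q),
      ∑ n ∈ (Icc 1 X).filter (fun n => n % q = b), |f n| ≤ ∑ n ∈ Icc 1 X, |f n| := by
    rw [← Finset.sum_biUnion]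
    · apply Finset.sum_le_sum_of_subset_of_nonneg
      · intro n hn
        rw [Finset.mem_biUnion] at hn
        obtain ⟨b, _, hn⟩ := hn
        exact (Finset.mem_filter.1 hn).1
      · intro i _ _
        exact abs_nonneg _
    · intro a _ b _ hab
      rw [Function.onFun, Finset.disjoint_left]
      intro n hn hn'
      exact hab ((Finset.mem_filter.1 hn).2.symm.trans (Finset.mem_filter.1 hn').2)
  calc ∑ b ∈ (range q).filter (Nat.Coprime q),
        ‖∑ n ∈ (Icc 1 X).filter (fun n => n % q = b), (f n : ℂ) * ee (n * θ)‖ ^ 2 ≤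
      ∑ b ∈ (range q).filter (Nat.Coprime q),
        (∑ n ∈ (Icc 1 X).filter (fun n => n % q = b), |f n|) ^ 2 := by
        refine Finset.sum_le_sum fun b hb => ?_
        gcongr
        exact h1 b hb
    _ ≤ (∑ b ∈ (range q).filter (Nat.Coprime q),
        ∑ n ∈ (Icc 1 X).filter (fun n => n % q = b), |f n|) ^ 2 := by
        apply Finset.sum_sq_le_sq_sum_of_nonneg
        intro b _
        exact Finset.sum_nonneg fun n _ => abs_nonneg _
    _ ≤ _ := by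
        gcongr

private lemma MinorA_VQ_nonneg (X q : ℕ) (f : ℕ → ℝ) (θ : ℝ) : 0 ≤ VQ X q f θ := by
  unfold VQ
  positivity

private lemma MinorA_cc_abs (v : Fin 6 → ℕ) : cc v ^ 2 ≤ 49 := by
  unfold cc
  split_ifs <;> norm_num

theorem minor_Lambda (ε : ℝ) (hε : 0 < ε) (hε1 : ε < 1) (A : ℕ) : ∃ B0 : ℕ, ∀ B : ℕ, B0 ≤ B →
    ∃ X0 : ℕ, ∀ X : ℕ, X0 ≤ X → ∀ q : ℕ, 1 ≤ q → (q : ℝ) ≤ (X : ℝ) ^ (2 / 3 - ε) →
    ∀ (θ : ℝ) (r : ℕ) (c : ℤ), MinorHyp X q B θ r c →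
      VQ X q (fun n => ArithmeticFunction.vonMangoldt n) θ ≤ X ^ 2 / (q * Real.log X ^ A) := by
  obtain ⟨B1, hB1⟩ := box_II ε hε hε1 (A + 13)
  obtain ⟨B2, hB2⟩ := box_I2 (A + 13)
  refine ⟨max B1 B2, fun B hB => ?_⟩
  obtain ⟨X1, hX1⟩ := hB1 B (le_trans (le_max_left _ _) hB)
  obtain ⟨X2, hX2⟩ := hB2 B (le_trans (le_max_right _ _) hB)
  obtain ⟨X3, hX3⟩ := Filter.eventually_atTop.1 ((MinorA_log_ge (2 ^ 12 * 49)).and
    (Filter.eventually_ge_atTop 2))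
  refine ⟨max X1 (max X2 X3), fun X hX q hq hqX θ r c hmin => ?_⟩
  obtain ⟨hL, hXge⟩ := hX3 X (le_trans (le_trans (le_max_right _ _) (le_max_right _ _)) hX)
  have hbox1 := hX1 X (le_trans (le_max_left _ _) hX) q hq hqX θ r c hmin
  have hXpos : (0 : ℝ) < X := by exact_mod_cast (by omega : 0 < X)
  have hX1' : (1 : ℝ) ≤ X := by exact_mod_cast (by omega : 1 ≤ X)
  have hqpos : (0 : ℝ) < q := by exact_mod_cast (by omega : 0 < q)
  have hqX2 : (q : ℝ) ≤ (X : ℝ) ^ (2 / 3 : ℝ) := by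
    refine le_trans hqX (Real.rpow_le_rpow_of_exponent_le hX1' (by linarith))
  have hbox2 := hX2 X (le_trans (le_trans (le_max_left _ _) (le_max_right _ _)) hX) q hq hqX2
    θ r c hmin
  set L : ℝ := Real.log X with hLdef
  have hL0 : (0 : ℝ) < L := by linarith
  set z : ℕ := ⌊(X : ℝ) ^ (1 / 3 : ℝ)⌋₊ with hz
  set J : ℕ := Nat.log 2 X + 1 with hJ
  have hzle : (z : ℝ) ≤ (X : ℝ) ^ (1 / 3 : ℝ) := Nat.floor_le (by positivity)
  have hz3 : X < (z + 1) ^ 3 := by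
    have h1 : (X : ℝ) ^ (1 / 3 : ℝ) < z + 1 := Nat.lt_floor_add_one _
    have h2 : (X : ℝ) < ((z : ℝ) + 1) ^ 3 := by
      calc (X : ℝ) = ((X : ℝ) ^ (1 / 3 : ℝ)) ^ 3 := by
            rw [← Real.rpow_natCast, ← Real.rpow_mul hXpos.le]; norm_num
        _ < ((z : ℝ) + 1) ^ 3 := by gcongr
    exact_mod_cast h2
  have hJ2 : X < 2 ^ J := Nat.lt_pow_succ_log_self (by norm_num) X
  have hJL : (J : ℝ) ≤ 2 * L := by
    have h1 : ((Nat.log 2 X : ℕ) : ℝ) * Real.log 2 ≤ L := by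
      rw [← Real.log_pow]
      apply Real.log_le_log (by positivity)
      exact_mod_cast Nat.pow_log_le_self 2 (by omega)
    have h2 : (0.69 : ℝ) < Real.log 2 := by
      have := Real.log_two_gt_d9; linarith
    have h3 : (0 : ℝ) ≤ ((Nat.log 2 X : ℕ) : ℝ) := by positivity
    rw [hJ]
    push_cast
    nlinarith
  set V : Finset (Fin 6 → ℕ) := Fintype.piFinset (fun _ : Fin 6 => range J) with hV
  have hVcard : (V.card : ℝ) ≤ (2 * L) ^ 6 := by
    rw [hV, Fintype.card_piFinset]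
    simp only [card_range, prod_const, card_univ, Fintype.card_fin]
    push_cast
    gcongr
  rw [MinorA_VQ_congr X q _ (fun n => ∑ v ∈ V, cc v * TT z v n) θ
    (fun n h1 h2 => hb z X J hz3 hJ2 n h1 h2)]
  have hbound : ∀ v ∈ V, VQ X q (fun n => TT z v n) θ ≤ X ^ 2 / (q * L ^ (A + 13)) := by
    intro v _
    by_cases hgood : (∏ j, 2 ^ v j ≤ X) ∧ ∀ j : Fin 6, 3 ≤ (j : ℕ) → 2 ^ v j ≤ z
    · obtain ⟨hg1, hg2⟩ := hgood
      rcases classify X z (ε / 2) (by positivity) hXge hzle v hg1 hg2 with ⟨S, hS1, hS2⟩ |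
        ⟨a, b, hab, ha, hb', hvab, hsmall⟩
      · exact hbox1 z v S hS1 hS2
      · exact hbox2 z v a b hab ha hb' hvab hg1 hsmall
    · have hzero : ∀ n, 1 ≤ n → n ≤ X → TT z v n = 0 := by
        intro n hn1 hn2
        by_contra hne
        apply hgood
        constructor
        · exact le_trans (prod_support z v univ n hne).1 hn2
        · intro j hj
          by_contra hlt
          push Not at hlt
          apply hne
          have h0 : TT z v = 0 := by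
            unfold TT
            exact Finset.prod_eq_zero (Finset.mem_univ j) (bf_zero z j (v j) hj hlt)
          rw [h0]; simp
      rw [MinorA_VQ_congr X q _ (fun _ => 0) θ hzero]
      have : VQ X q (fun _ => (0 : ℝ)) θ = 0 := by
        unfold VQ
        simp
      rw [this]
      positivity
  refine le_trans (MinorA_VQ_sum X q V cc (fun v n => TT z v n) θ) ?_
  have h1 : ∑ v ∈ V, cc v ^ 2 * VQ X q (fun n => TT z v n) θ ≤
      (V.card : ℝ) * (49 * (X ^ 2 / (q * L ^ (A + 13)))) := by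
    rw [← nsmul_eq_mul, ← Finset.sum_const]
    refine Finset.sum_le_sum fun v hv => ?_
    have := hbound v hv
    have h2 := MinorA_cc_abs v
    have h3 := MinorA_VQ_nonneg X q (fun n => TT z v n) θ
    gcongr
  calc (V.card : ℝ) * ∑ v ∈ V, cc v ^ 2 * VQ X q (fun n => TT z v n) θ ≤
      (2 * L) ^ 6 * ((2 * L) ^ 6 * (49 * (X ^ 2 / (q * L ^ (A + 13))))) := by
        refine mul_le_mul hVcard (le_trans h1 ?_) ?_ (by positivity)
        · gcongr
        · refine Finset.sum_nonneg fun v _ => mul_nonneg (sq_nonneg _) (MinorA_VQ_nonneg _ _ _ _)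
    _ = ((2 ^ 12 * 49) / L) * (X ^ 2 / (q * L ^ A)) := by
        rw [pow_add L A 13]; field_simp
    _ ≤ 1 * (X ^ 2 / (q * L ^ A)) := by
        gcongr
        rw [div_le_one hL0]
        exact hL
    _ = _ := one_mul _

theorem minor_la (ε : ℝ) (hε : 0 < ε) (hε1 : ε < 1) (A : ℕ) : ∃ B0 : ℕ, ∀ B : ℕ, B0 ≤ B →
    ∃ X0 : ℕ, ∀ X : ℕ, X0 ≤ X → ∀ q : ℕ, 1 ≤ q → (q : ℝ) ≤ (X : ℝ) ^ (2 / 3 - ε) →
    ∀ (θ : ℝ) (r : ℕ) (c : ℤ), MinorHyp X q B θ r c →
      VQ X q (la X) θ ≤ X ^ 2 / (q * Real.log X ^ A) := by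
  obtain ⟨B0, hB0⟩ := minor_Lambda ε hε hε1 (A + 1)
  refine ⟨B0, fun B hB => ?_⟩
  obtain ⟨X1, hX1⟩ := hB0 B hB
  obtain ⟨X2, hX2⟩ := Filter.eventually_atTop.1 (((MinorA_log_ge 4).and
    (MinorA_log_pow_le (1 / 3) (by norm_num) 16 (A + 2))).and (Filter.eventually_ge_atTop 2))
  refine ⟨max X1 X2, fun X hX q hq hqX θ r c hmin => ?_⟩
  obtain ⟨⟨hL, hLX⟩, hXge⟩ := hX2 X (le_trans (le_max_right _ _) hX)
  have hLam := hX1 X (le_trans (le_max_left _ _) hX) q hq hqX θ r c hmin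
  have hXpos : (0 : ℝ) < X := by exact_mod_cast (by omega : 0 < X)
  have hX1' : (1 : ℝ) ≤ X := by exact_mod_cast (by omega : 1 ≤ X)
  have hqpos : (0 : ℝ) < q := by exact_mod_cast (by omega : 0 < q)
  have hqX2 : (q : ℝ) ≤ (X : ℝ) ^ (2 / 3 : ℝ) := by
    refine le_trans hqX (Real.rpow_le_rpow_of_exponent_le hX1' (by linarith))
  set L : ℝ := Real.log X with hLdef
  have hL0 : (0 : ℝ) < L := by linarith
  -- decomposition
  set g : ℕ → ℝ := fun n => la X n - ArithmeticFunction.vonMangoldt n with hg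
  set F : Fin 2 → ℕ → ℝ := ![fun n => ArithmeticFunction.vonMangoldt n, g] with hF
  have hdec : VQ X q (la X) θ ≤ 2 * (VQ X q (fun n => ArithmeticFunction.vonMangoldt n) θ +
      VQ X q g θ) := by
    have h := MinorA_VQ_sum X q (univ : Finset (Fin 2)) (fun _ => 1) F θ
    rw [MinorA_VQ_congr X q (la X) (fun n => ∑ v ∈ (univ : Finset (Fin 2)), (1 : ℝ) * F v n) θ ?_]
    · refine le_trans h (le_of_eq ?_)
      rw [Fin.sum_univ_two]
      simp [hF]
    · intro n _ _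
      rw [Fin.sum_univ_two]
      simp [hF, hg]
  have hgsum : ∑ n ∈ Icc 1 X, |g n| ≤ 2 * √X * L := by
    have h1 : ∀ n ∈ Icc 1 X, |g n| = ArithmeticFunction.vonMangoldt n -
        (if n.Prime then Real.log n else 0) := by
      intro n hn
      obtain ⟨hn1, hn2⟩ := Finset.mem_Icc.1 hn
      simp only [hg, la]
      by_cases hp : n.Prime
      · simp [hp, hn2, ArithmeticFunction.vonMangoldt_apply_prime hp]
      · simp [hp]
    rw [Finset.sum_congr rfl h1, Finset.sum_sub_distrib]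
    have h2 := Chebyshev.psi_sub_theta_le (x := (X : ℝ)) hX1'
    have h3 : Chebyshev.psi (X : ℝ) = ∑ n ∈ Icc 1 X, ArithmeticFunction.vonMangoldt n := by
      unfold Chebyshev.psi
      rw [Nat.floor_natCast]
      rfl
    have h4 : Chebyshev.theta (X : ℝ) = ∑ n ∈ Icc 1 X, (if n.Prime then Real.log n else 0) := by
      unfold Chebyshev.theta
      rw [Nat.floor_natCast, Finset.sum_filter]
      rfl
    rw [h3, h4] at h2
    exact h2
  have hgV : VQ X q g θ ≤ 4 * X * L ^ 2 := by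
    refine le_trans (MinorA_VQ_trivial X q g θ) ?_
    calc (∑ n ∈ Icc 1 X, |g n|) ^ 2 ≤ (2 * √X * L) ^ 2 := by
          gcongr
      _ = 4 * (√X) ^ 2 * L ^ 2 := by ring
      _ = 4 * X * L ^ 2 := by rw [Real.sq_sqrt hXpos.le]
  have hgV2 : 2 * (4 * X * L ^ 2) ≤ (X ^ 2 / (q * L ^ A)) / 2 := by
    have h1 : (X : ℝ) ^ 2 / ((X : ℝ) ^ (2 / 3 : ℝ) * L ^ A) ≤ X ^ 2 / (q * L ^ A) := by gcongr
    have h2 : (X : ℝ) ^ 2 / ((X : ℝ) ^ (2 / 3 : ℝ) * L ^ A) = X * (X : ℝ) ^ (1 / 3 : ℝ) / L ^ A := by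
      rw [div_eq_div_iff (by positivity) (by positivity)]
      have h3 : (X : ℝ) ^ 2 = X * ((X : ℝ) ^ (1 / 3 : ℝ) * (X : ℝ) ^ (2 / 3 : ℝ)) := by
        rw [← Real.rpow_add hXpos]; norm_num; ring
      rw [h3]; ring
    have h4 : X * (16 * L ^ (A + 2)) / L ^ A ≤ X * (X : ℝ) ^ (1 / 3 : ℝ) / L ^ A := by
      gcongr
    have h5 : X * (16 * L ^ (A + 2)) / L ^ A = 16 * X * L ^ 2 := by
      rw [pow_add]; field_simp
    rw [h5] at h4
    rw [h2] at h1
    linarith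
  have hLam2 : 2 * (X ^ 2 / (q * L ^ (A + 1))) ≤ (X ^ 2 / (q * L ^ A)) / 2 := by
    have h1 : (2 : ℝ) * (X ^ 2 / (q * L ^ (A + 1))) = (X ^ 2 / (q * L ^ A)) / 2 * (4 / L) := by
      rw [pow_succ]; field_simp; ring
    rw [h1]
    have h2 : 4 / L ≤ 1 := by rw [div_le_one hL0]; exact hL
    have h3 : (0 : ℝ) ≤ (X ^ 2 / (q * L ^ A)) / 2 := by positivity
    nlinarith
  linarith

end Pool.MP_dd84fd_nt.L2G
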