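import Pool.Agent.Lib.MP_dd84fd_nt.L2G.ModelArith
import Pool.Agent.Lib.MP_dd84fd_nt.L2G.ModelAux
import Pool.Agent.Lib.MP_dd84fd_nt.L2G.MinSum
import Pool.Agent.Lib.MP_dd84fd_nt.L2G.ClassAlg

set_option autoImplicit false

namespace Pool.MP_dd84fd_nt.L2G

open Finset Pool.MP_67663b_nt.Odd

private theorem mi_mn_mono (M M' x : ℝ) (hM : 0 ≤ M) (h : M ≤ M') : mn M x ≤ mn M' x := by
  unfold mn
  have hx : 0 ≤ nrm x := abs_nonneg _
  split_ifs with h1 h2 h2
  · exact h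
  · push Not at h2
    have h3 : 0 < nrm x := by
      rcases hx.eq_or_lt with h0 | h0
      · rw [← h0] at h2
        simp at h2
        linarith
      · exact h0
    rw [le_div_iff₀ (by positivity)]
    linarith
  · push Not at h1
    exfalso
    have : 2 * nrm x * M ≤ 2 * nrm x * M' := mul_le_mul_of_nonneg_left h (by positivity)
    linarith
  · exact le_rfl

/-- the coefficients of the divisor expansion of the model -/
private noncomputable def rho (R q d : ℕ) : ℝ :=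
  (d : ℝ) * ∑ r ∈ ((Icc 1 R).filter (fun r => Nat.Coprime r q)).filter (fun r => d ∣ r),
    ((ArithmeticFunction.moebius r : ℤ) : ℝ) / (Nat.totient r : ℝ) *
      ((ArithmeticFunction.moebius (r / d) : ℤ) : ℝ)

private theorem mi_nu (X R q n : ℕ) (h1 : 1 ≤ n) (hX : n ≤ X) (hq : Nat.Coprime n q) :
    nu X R q n = (q : ℝ) / (Nat.totient q : ℝ) *
      ∑ d ∈ (Icc 1 R).filter (fun d => Nat.Coprime d q), if d ∣ n then rho R q d else 0 := by
  unfold nu
  rw [if_pos ⟨h1, hX, hq⟩]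
  congr 1
  have h2 : ∀ r ∈ (Icc 1 R).filter (fun r => Nat.Coprime r q),
      ((ArithmeticFunction.moebius r : ℤ) : ℝ) / (Nat.totient r : ℝ) * cn r n =
      ∑ d ∈ (Icc 1 R).filter (fun d => Nat.Coprime d q), if d ∣ r ∧ d ∣ n then
        (d : ℝ) * (((ArithmeticFunction.moebius r : ℤ) : ℝ) / (Nat.totient r : ℝ) *
          ((ArithmeticFunction.moebius (r / d) : ℤ) : ℝ)) else 0 := by
    intro r hr
    rw [mem_filter, mem_Icc] at hr
    rw [← Finset.sum_filter]
    unfold cn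
    rw [Finset.mul_sum]
    have h3 : (Nat.gcd r n).divisors = ((Icc 1 R).filter (fun d => Nat.Coprime d q)).filter
        (fun d => d ∣ r ∧ d ∣ n) := by
      ext d
      rw [Nat.mem_divisors, mem_filter, mem_filter, mem_Icc, Nat.dvd_gcd_iff]
      constructor
      · rintro ⟨⟨h4, h5⟩, -⟩
        have h6 : d ≤ r := Nat.le_of_dvd hr.1.1 h4
        have h7 : 0 < d := Nat.pos_of_dvd_of_pos h4 hr.1.1
        exact ⟨⟨⟨h7, h6.trans hr.1.2⟩, Nat.Coprime.coprime_dvd_left h4 hr.2⟩, h4, h5⟩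
      · rintro ⟨-, h4, h5⟩
        exact ⟨⟨h4, h5⟩, Nat.gcd_ne_zero_right (by omega)⟩
    rw [h3]
    refine Finset.sum_congr rfl fun d _ => ?_
    ring
  rw [Finset.sum_congr rfl h2, Finset.sum_comm]
  refine Finset.sum_congr rfl fun d _ => ?_
  by_cases hd : d ∣ n
  · rw [if_pos hd]
    unfold rho
    rw [Finset.mul_sum, Finset.sum_filter (s := (Icc 1 R).filter (fun r => Nat.Coprime r q))
      (p := fun r => d ∣ r)]
    refine Finset.sum_congr rfl fun r _ => ?_
    by_cases h3 : d ∣ r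
    · rw [if_pos ⟨h3, hd⟩, if_pos h3]
    · rw [if_neg (fun h => h3 h.1), if_neg h3]
  · rw [if_neg hd]
    refine Finset.sum_eq_zero fun r _ => ?_
    rw [if_neg (fun h => hd h.2)]

private theorem mi_inv_tot (s : ℕ) (hs : 1 ≤ s) (L : ℝ) (hL : Real.log s ≤ L) :
    1 / (Nat.totient s : ℝ) ≤ (2 + 2 * L) / s := by
  have hφ : (0 : ℝ) < Nat.totient s := by exact_mod_cast Nat.totient_pos.mpr hs
  have hs0 : (0 : ℝ) < s := by exact_mod_cast hs
  rw [div_le_div_iff₀ hφ hs0, one_mul, mul_comm]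
  refine (totient_lower s hs).trans ?_
  exact mul_le_mul_of_nonneg_left (by linarith) hφ.le

private theorem mi_sum_tot (R : ℕ) (L : ℝ) (hL0 : 0 ≤ L) (hL : ∀ s ∈ Icc 1 R, Real.log (s : ℕ) ≤ L) :
    ∑ s ∈ Icc 1 R, 1 / (Nat.totient s : ℝ) ≤ (2 + 2 * L) * (1 + L) := by
  have h1 : ∑ s ∈ Icc 1 R, 1 / (Nat.totient s : ℝ) ≤ ∑ s ∈ Icc 1 R, (2 + 2 * L) * (s : ℝ)⁻¹ := by
    refine Finset.sum_le_sum fun s hs => ?_
    have := mi_inv_tot s (mem_Icc.mp hs).1 L (hL s hs)
    rwa [div_eq_mul_inv (2 + 2 * L)] at this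
  refine h1.trans ?_
  rw [← Finset.mul_sum]
  refine mul_le_mul_of_nonneg_left ?_ (by linarith)
  by_cases hR : R = 0
  · subst hR
    simp
    linarith
  have h2 := harmonic_le_one_add_log R
  have h3 : ((harmonic R : ℚ) : ℝ) = ∑ s ∈ Icc 1 R, (s : ℝ)⁻¹ := by
    rw [harmonic_eq_sum_Icc]
    push_cast
    rfl
  rw [h3] at h2
  have h4 := hL R (mem_Icc.mpr ⟨by omega, le_rfl⟩)
  linarith

private theorem mi_rho (R q d : ℕ) (hd : 1 ≤ d) (hdR : d ≤ R) (L : ℝ) (hL0 : 0 ≤ L)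
    (hL : ∀ s ∈ Icc 1 R, Real.log (s : ℕ) ≤ L) : |rho R q d| ≤ (2 + 2 * L) ^ 2 * (1 + L) := by
  have hd0 : (0 : ℝ) < d := by exact_mod_cast hd
  have hφd : (0 : ℝ) < Nat.totient d := by exact_mod_cast Nat.totient_pos.mpr hd
  unfold rho
  rw [abs_mul, abs_of_pos hd0]
  have h1 : |∑ r ∈ ((Icc 1 R).filter (fun r => Nat.Coprime r q)).filter (fun r => d ∣ r),
      ((ArithmeticFunction.moebius r : ℤ) : ℝ) / (Nat.totient r : ℝ) *
      ((ArithmeticFunction.moebius (r / d) : ℤ) : ℝ)| ≤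
      1 / (Nat.totient d : ℝ) * ((2 + 2 * L) * (1 + L)) := by
    refine (Finset.abs_sum_le_sum_abs _ _).trans ?_
    have h2 : ∀ r ∈ ((Icc 1 R).filter (fun r => Nat.Coprime r q)).filter (fun r => d ∣ r),
        |((ArithmeticFunction.moebius r : ℤ) : ℝ) / (Nat.totient r : ℝ) *
        ((ArithmeticFunction.moebius (r / d) : ℤ) : ℝ)| ≤
        1 / (Nat.totient d : ℝ) * (1 / (Nat.totient (r / d) : ℝ)) := by
      intro r hr
      rw [mem_filter, mem_filter, mem_Icc] at hr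
      obtain ⟨s, rfl⟩ := hr.2
      rw [Nat.mul_div_cancel_left _ hd]
      have hs : 0 < s := Nat.pos_of_ne_zero (by rintro rfl; simp at hr)
      have hφs : (0 : ℝ) < Nat.totient s := by exact_mod_cast Nat.totient_pos.mpr hs
      by_cases hsq : Squarefree (d * s)
      · have hcop : Nat.Coprime d s := Nat.coprime_of_squarefree_mul hsq
        rw [Nat.totient_mul hcop]
        have h3 : |((ArithmeticFunction.moebius (d * s) : ℤ) : ℝ)| ≤ 1 := by
          have := ArithmeticFunction.abs_moebius_le_one (n := d * s)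
          exact_mod_cast this
        have h4 : |((ArithmeticFunction.moebius s : ℤ) : ℝ)| ≤ 1 := by
          have := ArithmeticFunction.abs_moebius_le_one (n := s)
          exact_mod_cast this
        push_cast
        rw [abs_mul, abs_div, abs_of_pos (mul_pos hφd hφs)]
        calc |((ArithmeticFunction.moebius (d * s) : ℤ) : ℝ)| / ((Nat.totient d : ℝ) * Nat.totient s) *
              |((ArithmeticFunction.moebius s : ℤ) : ℝ)|
            ≤ 1 / ((Nat.totient d : ℝ) * Nat.totient s) * 1 :=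
              mul_le_mul (div_le_div_of_nonneg_right h3 (by positivity)) h4 (abs_nonneg _)
                (by positivity)
          _ = _ := by field_simp
      · rw [ArithmeticFunction.moebius_eq_zero_of_not_squarefree hsq]
        simp only [Int.cast_zero, zero_div, zero_mul, abs_zero]
        positivity
    refine (Finset.sum_le_sum h2).trans ?_
    rw [← Finset.mul_sum]
    refine mul_le_mul_of_nonneg_left ?_ (by positivity)
    have h3 : ∑ r ∈ ((Icc 1 R).filter (fun r => Nat.Coprime r q)).filter (fun r => d ∣ r),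
        1 / (Nat.totient (r / d) : ℝ) =
        ∑ s ∈ (((Icc 1 R).filter (fun r => Nat.Coprime r q)).filter (fun r => d ∣ r)).image
          (fun r => r / d), 1 / (Nat.totient s : ℝ) := by
      rw [Finset.sum_image]
      intro r hr r' hr' h
      rw [Finset.mem_coe, mem_filter] at hr hr'
      obtain ⟨s, rfl⟩ := hr.2
      obtain ⟨s', rfl⟩ := hr'.2
      simp only [Nat.mul_div_cancel_left _ hd] at h
      rw [h]
    rw [h3]
    refine le_trans ?_ (mi_sum_tot R L hL0 hL)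
    refine Finset.sum_le_sum_of_subset_of_nonneg ?_ fun _ _ _ => by positivity
    intro s hs
    rw [mem_image] at hs
    obtain ⟨r, hr, rfl⟩ := hs
    rw [mem_filter, mem_filter, mem_Icc] at hr
    rw [mem_Icc]
    exact ⟨Nat.div_pos (Nat.le_of_dvd hr.1.1.1 hr.2) hd, (Nat.div_le_self r d).trans hr.1.1.2⟩
  have h2 := mi_inv_tot d hd L (hL d (mem_Icc.mpr ⟨hd, hdR⟩))
  have h3 : (d : ℝ) * (1 / (Nat.totient d : ℝ)) ≤ 2 + 2 * L := by
    calc (d : ℝ) * (1 / (Nat.totient d : ℝ)) ≤ d * ((2 + 2 * L) / d) :=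
          mul_le_mul_of_nonneg_left h2 hd0.le
      _ = 2 + 2 * L := by field_simp
  calc (d : ℝ) * |∑ r ∈ ((Icc 1 R).filter (fun r => Nat.Coprime r q)).filter (fun r => d ∣ r),
      ((ArithmeticFunction.moebius r : ℤ) : ℝ) / (Nat.totient r : ℝ) *
      ((ArithmeticFunction.moebius (r / d) : ℤ) : ℝ)|
      ≤ d * (1 / (Nat.totient d : ℝ) * ((2 + 2 * L) * (1 + L))) :=
        mul_le_mul_of_nonneg_left h1 hd0.le
    _ = (d * (1 / (Nat.totient d : ℝ))) * ((2 + 2 * L) * (1 + L)) := by ring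
    _ ≤ (2 + 2 * L) * ((2 + 2 * L) * (1 + L)) :=
        mul_le_mul_of_nonneg_right h3 (by positivity)
    _ = (2 + 2 * L) ^ 2 * (1 + L) := by ring

/-- multiples of `d` in a class -/
private theorem mi_inner (X q d : ℕ) [NeZero q] (hd : 1 ≤ d) (hdq : Nat.Coprime d q) (b : ZMod q)
    (θ : ℝ) : ‖∑ n ∈ ((Icc 1 X).filter (fun n : ℕ => (n : ZMod q) = b)).filter (fun n => d ∣ n),
      ee ((n : ℝ) * θ)‖ ≤ mn ((X : ℝ) / (d * q) + 1) (d * (q * θ)) := by
  have hq0 : (0 : ℝ) < q := by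
    have : 0 < q := Nat.pos_of_ne_zero (NeZero.ne q)
    exact_mod_cast this
  have hd0 : (0 : ℝ) < d := by exact_mod_cast hd
  let u : (ZMod q)ˣ := ZMod.unitOfCoprime d hdq
  have hu : (u : ZMod q) = (d : ZMod q) := ZMod.coe_unitOfCoprime d hdq
  have h1 : ∑ n ∈ ((Icc 1 X).filter (fun n : ℕ => (n : ZMod q) = b)).filter (fun n => d ∣ n),
      ee ((n : ℝ) * θ) = ∑ k ∈ (Icc 1 (X / d)).filter
        (fun k : ℕ => (k : ZMod q) = ((u⁻¹ : (ZMod q)ˣ) : ZMod q) * b),
      ee ((k : ℝ) * (d * θ)) := by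
    symm
    refine Finset.sum_bij (fun k _ => d * k) ?_ ?_ ?_ ?_
    · intro k hk
      rw [mem_filter, mem_Icc] at hk
      rw [mem_filter, mem_filter, mem_Icc]
      refine ⟨⟨⟨Nat.mul_pos hd hk.1.1, ?_⟩, ?_⟩, dvd_mul_right d k⟩
      · have := (Nat.le_div_iff_mul_le hd).mp hk.1.2
        rwa [mul_comm] at this
      · push_cast
        rw [hk.2, ← hu, ← mul_assoc, Units.mul_inv, one_mul]
    · intro k _ k' _ h
      exact Nat.eq_of_mul_eq_mul_left hd h
    · intro n hn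
      rw [mem_filter, mem_filter, mem_Icc] at hn
      obtain ⟨k, rfl⟩ := hn.2
      refine ⟨k, ?_, rfl⟩
      rw [mem_filter, mem_Icc]
      refine ⟨⟨?_, ?_⟩, ?_⟩
      · rcases Nat.eq_zero_or_pos k with h | h
        · subst h
          simp at hn
        · exact h
      · rw [Nat.le_div_iff_mul_le hd, mul_comm]
        exact hn.1.1.2
      · have h3 := hn.1.2
        push_cast at h3
        rw [← h3, ← hu, ← mul_assoc, Units.inv_mul, one_mul]
    · intro k _
      congr 1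
      push_cast
      ring
  rw [h1]
  refine (ma_mn (X / d) q _ (d * θ)).trans ?_
  have h2 : (q : ℝ) * (d * θ) = d * (q * θ) := by ring
  rw [h2]
  refine mi_mn_mono _ _ _ (by positivity) ?_
  have h3 : ((X / d : ℕ) : ℝ) ≤ (X : ℝ) / d := Nat.cast_div_le
  have h4 : ((X / d : ℕ) : ℝ) / q ≤ (X : ℝ) / d / q := div_le_div_of_nonneg_right h3 hq0.le
  rw [div_div] at h4
  linarith

/-- one class -/
private theorem mi_class (X R q : ℕ) [NeZero q] (b : ZMod q) (θ L : ℝ) (hL0 : 0 ≤ L)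
    (hL : ∀ s ∈ Icc 1 R, Real.log (s : ℕ) ≤ L) :
    ‖fz X q (nu X R q) θ b‖ ≤ (q : ℝ) / (Nat.totient q : ℝ) * ((2 + 2 * L) ^ 2 * (1 + L)) *
      ∑ d ∈ Icc 1 R, mn ((X : ℝ) / (d * q) + 1) (d * (q * θ)) := by
  have hq1 : 0 < q := Nat.pos_of_ne_zero (NeZero.ne q)
  have hφ : (0 : ℝ) < Nat.totient q := by exact_mod_cast Nat.totient_pos.mpr hq1
  have hmn : ∀ d ∈ Icc 1 R, 0 ≤ mn ((X : ℝ) / (d * q) + 1) (d * (q * θ)) := fun d _ =>
    mn_nonneg _ _ (by positivity)
  by_cases hb : IsUnit b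
  · obtain ⟨κ, hκ⟩ : ∃ κ : ℝ, κ = (q : ℝ) / (Nat.totient q : ℝ) := ⟨_, rfl⟩
    have hκ0 : 0 ≤ κ := by rw [hκ]; positivity
    rw [← hκ]
    have h1 : fz X q (nu X R q) θ b = (κ : ℂ) *
        ∑ d ∈ (Icc 1 R).filter (fun d => Nat.Coprime d q), ((rho R q d : ℝ) : ℂ) *
          ∑ n ∈ ((Icc 1 X).filter (fun n : ℕ => (n : ZMod q) = b)).filter (fun n => d ∣ n),
            ee ((n : ℝ) * θ) := by
      unfold fz
      have h2 : ∀ n ∈ (Icc 1 X).filter (fun n : ℕ => (n : ZMod q) = b),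
          ((nu X R q n : ℝ) : ℂ) * ee ((n : ℝ) * θ) =
          (κ : ℂ) * ∑ d ∈ (Icc 1 R).filter (fun d => Nat.Coprime d q),
            if d ∣ n then ((rho R q d : ℝ) : ℂ) * ee ((n : ℝ) * θ) else 0 := by
        intro n hn
        rw [mem_filter, mem_Icc] at hn
        have hcop : Nat.Coprime n q := (ZMod.isUnit_iff_coprime n q).mp (by rw [hn.2]; exact hb)
        rw [mi_nu X R q n hn.1.1 hn.1.2 hcop, ← hκ, Complex.ofReal_mul, Complex.ofReal_sum,
          mul_assoc, Finset.sum_mul]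
        congr 1
        refine Finset.sum_congr rfl fun d _ => ?_
        split_ifs
        · rfl
        · simp
      rw [Finset.sum_congr rfl h2, ← Finset.mul_sum, Finset.sum_comm]
      congr 1
      refine Finset.sum_congr rfl fun d _ => ?_
      rw [Finset.mul_sum, Finset.sum_filter (s := (Icc 1 X).filter (fun n : ℕ => (n : ZMod q) = b))
        (p := fun n => d ∣ n)]
    rw [h1, norm_mul, Complex.norm_real, Real.norm_eq_abs, abs_of_nonneg hκ0, mul_assoc]
    refine mul_le_mul_of_nonneg_left ?_ hκ0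
    refine (norm_sum_le _ _).trans ?_
    rw [Finset.mul_sum]
    refine le_trans (Finset.sum_le_sum fun d hd => ?_)
      (Finset.sum_le_sum_of_subset_of_nonneg (Finset.filter_subset
        (fun d => Nat.Coprime d q) (Icc 1 R)) fun d hd _ =>
          mul_nonneg (by positivity) (hmn d hd))
    rw [mem_filter, mem_Icc] at hd
    rw [norm_mul, Complex.norm_real, Real.norm_eq_abs]
    exact mul_le_mul (mi_rho R q d hd.1.1 hd.1.2 L hL0 hL) (mi_inner X q d hd.1.1 hd.2 b θ)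
      (norm_nonneg _) (by positivity)
  · have h1 : fz X q (nu X R q) θ b = 0 := by
      unfold fz
      refine Finset.sum_eq_zero fun n hn => ?_
      rw [mem_filter] at hn
      rw [ma_nu_zero X R q n (by rw [hn.2]; exact hb)]
      simp
    rw [h1, norm_zero]
    exact mul_nonneg (by positivity) (Finset.sum_nonneg hmn)

/-- the sum over `d` -/
private theorem mi_sum : ∃ C : ℝ, 1 ≤ C ∧ ∀ (X q R r : ℕ) (L P α : ℝ) (c : ℤ), 1 ≤ q → 2 ≤ r →
    1 ≤ L → Real.log r ≤ L → (Nat.log 2 R : ℝ) + 1 ≤ 3 * L → 0 < P → (1 : ℝ) ≤ X →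
    P ≤ r → (r : ℝ) ≤ X / (q * P) → IsCoprime c (r : ℤ) →
    |α - c / r| ≤ q * P / (r * X) →
    ∑ d ∈ Icc 1 R, mn ((X : ℝ) / (d * q) + 1) (d * α) ≤ C * L ^ 2 * (X / (q * P) + R) := by
  obtain ⟨C, hC, hms⟩ := min_sum
  refine ⟨60 * C + 1, by linarith, ?_⟩
  intro X q R r L P α c hq hr hL hrL hRL hP hX1 hPr hrX hc hα
  have hq0 : (0 : ℝ) < q := by exact_mod_cast hq
  have hr0 : (0 : ℝ) < r := by exact_mod_cast (by omega : 0 < r)
  have hr1 : (2 : ℝ) ≤ r := by exact_mod_cast hr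
  have hX0 : (0 : ℝ) < X := by linarith
  have hrX' : (r : ℝ) * (q * P) ≤ X := by rwa [le_div_iff₀ (by positivity)] at hrX
  obtain ⟨Z, hZ⟩ : ∃ Z : ℝ, Z = X / (q * P) := ⟨_, rfl⟩
  have hZ0 : 0 < Z := by rw [hZ]; positivity
  rw [← hZ] at hrX ⊢
  have hα2 : |α - c / r| ≤ 1 / (r : ℝ) ^ 2 := by
    refine hα.trans ?_
    rw [div_le_div_iff₀ (by positivity) (by positivity)]
    nlinarith
  have hlogr : 0 ≤ Real.log r := Real.log_nonneg (by linarith)
  -- splitting
  rw [← Finset.sum_filter_add_sum_filter_not (Icc 1 R) (fun d => d ≤ r / 2)]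
  -- small d
  have hsmall : ∑ d ∈ (Icc 1 R).filter (fun d => d ≤ r / 2),
      mn ((X : ℝ) / (d * q) + 1) (d * α) ≤ 10 * C * L * Z := by
    have h1 : ∀ d ∈ (Icc 1 R).filter (fun d => d ≤ r / 2),
        mn ((X : ℝ) / (d * q) + 1) (d * α) ≤ mn ((r : ℝ) + 1) (d * α) := by
      intro d hd
      rw [mem_filter, mem_Icc] at hd
      have hd0 : (0 : ℝ) < d := by exact_mod_cast hd.1.1
      have h2d : 2 * d ≤ r := by omega
      have h2 : 1 / (2 * (r : ℝ)) ≤ nrm (d * α) := by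
        have h3 : ¬ (r : ℤ) ∣ (d : ℤ) * c := by
          intro h4
          have h5 : (r : ℤ) ∣ d := hc.symm.dvd_of_dvd_mul_right h4
          have h6 : r ∣ d := by exact_mod_cast h5
          have := Nat.le_of_dvd hd.1.1 h6
          omega
        have h4 := ma_nrm_frac ((d : ℤ) * c) r (by omega) h3
        have h5 := ma_nrm_add ((((d : ℤ) * c : ℤ) : ℝ) / r) (d * (α - c / r))
        have h6 : (((d : ℤ) * c : ℤ) : ℝ) / r + d * (α - c / r) = d * α := by
          push_cast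
          ring
        rw [h6] at h5
        have h7 : |(d : ℝ) * (α - c / r)| ≤ 1 / (2 * (r : ℝ)) := by
          rw [abs_mul, abs_of_pos hd0]
          have h8 : (d : ℝ) ≤ r / 2 := by
            rw [le_div_iff₀ (by norm_num)]
            have : ((2 * d : ℕ) : ℝ) ≤ r := by exact_mod_cast h2d
            push_cast at this
            linarith
          calc (d : ℝ) * |α - c / r| ≤ (r / 2) * (q * P / (r * X)) :=
                mul_le_mul h8 hα (abs_nonneg _) (by positivity)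
            _ = (q * P) / (2 * X) := by field_simp
            _ ≤ 1 / (2 * (r : ℝ)) := by
                rw [div_le_div_iff₀ (by positivity) (by positivity)]
                nlinarith
        have h8 : 1 / (r : ℝ) = 1 / (2 * (r : ℝ)) + 1 / (2 * (r : ℝ)) := by
          field_simp
          norm_num
        linarith
      have h3 : 0 < nrm (d * α) := lt_of_lt_of_le (by positivity) h2
      have h4 : mn ((X : ℝ) / (d * q) + 1) (d * α) ≤ 1 / (2 * nrm (d * α)) :=
        ma_mn_inv _ _ _ h3 le_rfl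
      have h5 : mn ((r : ℝ) + 1) (d * α) = 1 / (2 * nrm (d * α)) := by
        unfold mn
        rw [if_neg]
        push Not
        rw [div_le_iff₀ (by positivity)] at h2
        nlinarith
      rw [h5]
      exact h4
    refine (Finset.sum_le_sum h1).trans ?_
    have h2 : ∑ d ∈ (Icc 1 R).filter (fun d => d ≤ r / 2), mn ((r : ℝ) + 1) (d * α) ≤
        ∑ d ∈ Icc 1 (r / 2), mn ((r : ℝ) + 1) (d * α) := by
      refine Finset.sum_le_sum_of_subset_of_nonneg ?_ fun _ _ _ => mn_nonneg _ _ (by positivity)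
      intro d hd
      rw [mem_filter, mem_Icc] at hd
      exact mem_Icc.mpr ⟨hd.1.1, hd.2⟩
    refine h2.trans ((hms α c r (by omega) hc hα2 (r / 2) ((r : ℝ) + 1) (by linarith)).trans ?_)
    have h3 : ((r / 2 : ℕ) : ℝ) / r + 1 ≤ 2 := by
      have : ((r / 2 : ℕ) : ℝ) ≤ r := by exact_mod_cast Nat.div_le_self r 2
      have : ((r / 2 : ℕ) : ℝ) / r ≤ 1 := by rwa [div_le_one hr0]
      linarith
    have h4 : (r : ℝ) + 1 + r * (1 + Real.log r) ≤ 5 * L * Z := by
      have h5 : (r : ℝ) + 1 + r * (1 + Real.log r) ≤ r * (3 + L) := by nlinarith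
      have h6 : (r : ℝ) * (3 + L) ≤ Z * (4 * L) := by
        refine mul_le_mul hrX ?_ (by linarith) hZ0.le
        linarith
      nlinarith
    calc C * (((r / 2 : ℕ) : ℝ) / r + 1) * ((r : ℝ) + 1 + r * (1 + Real.log r))
        ≤ C * 2 * (5 * L * Z) := by
          refine mul_le_mul ?_ h4 (by positivity) (by positivity)
          exact mul_le_mul_of_nonneg_left h3 hC.le
      _ = 10 * C * L * Z := by ring
  -- large d
  have hlarge : ∑ d ∈ (Icc 1 R).filter (fun d => ¬ d ≤ r / 2),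
      mn ((X : ℝ) / (d * q) + 1) (d * α) ≤ (3 * L) * (6 * C * (Z + 3 * L * R)) := by
    have h1 : ∀ d ∈ (Icc 1 R).filter (fun d => ¬ d ≤ r / 2), Nat.log 2 d ∈
        (range (Nat.log 2 R + 1)).filter (fun j => r < 4 * 2 ^ j) := by
      intro d hd
      rw [mem_filter, mem_Icc] at hd
      rw [mem_filter, mem_range]
      have h2 : Nat.log 2 d ≤ Nat.log 2 R := Nat.log_mono_right hd.1.2
      have h3 : d < 2 ^ (Nat.log 2 d + 1) := Nat.lt_pow_succ_log_self (by norm_num) d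
      rw [pow_succ] at h3
      refine ⟨by omega, by omega⟩
    rw [← Finset.sum_fiberwise_of_maps_to h1]
    have h2 : ∀ j ∈ (range (Nat.log 2 R + 1)).filter (fun j => r < 4 * 2 ^ j),
        ∑ d ∈ ((Icc 1 R).filter (fun d => ¬ d ≤ r / 2)).filter (fun d => Nat.log 2 d = j),
          mn ((X : ℝ) / (d * q) + 1) (d * α) ≤ 6 * C * (Z + 3 * L * R) := by
      intro j hj
      rw [mem_filter, mem_range] at hj
      have hj0 : (0 : ℝ) < 2 ^ j := by positivity
      have hjr : (r : ℝ) ≤ 4 * 2 ^ j := by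
        have : r ≤ 4 * 2 ^ j := hj.2.le
        exact_mod_cast this
      rcases Nat.eq_zero_or_pos R with hR0 | hRpos
      · subst hR0
        simp
        positivity
      have hjR : (2 : ℝ) ^ j ≤ R := by
        have h3 : 2 ^ j ≤ R := by
          calc 2 ^ j ≤ 2 ^ Nat.log 2 R := Nat.pow_le_pow_right (by norm_num) (by omega)
            _ ≤ R := Nat.pow_log_le_self 2 (by omega)
        exact_mod_cast h3
      have h3 : ∑ d ∈ ((Icc 1 R).filter (fun d => ¬ d ≤ r / 2)).filter (fun d => Nat.log 2 d = j),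
          mn ((X : ℝ) / (d * q) + 1) (d * α) ≤
          ∑ d ∈ (Icc 1 (2 ^ (j + 1)) : Finset ℕ), mn ((X : ℝ) / (2 ^ j * q) + 1) ((d : ℝ) * α) := by
        have h4 : ∀ d ∈ ((Icc 1 R).filter (fun d => ¬ d ≤ r / 2)).filter
            (fun d => Nat.log 2 d = j), mn ((X : ℝ) / (d * q) + 1) (d * α) ≤
            mn ((X : ℝ) / (2 ^ j * q) + 1) (d * α) := by
          intro d hd
          rw [mem_filter, mem_filter, mem_Icc] at hd
          refine mi_mn_mono _ _ _ (by positivity) ?_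
          have h5 : 2 ^ j ≤ d := by
            rw [← hd.2]
            exact Nat.pow_log_le_self 2 (by omega)
          have h6 : (2 : ℝ) ^ j ≤ d := by exact_mod_cast h5
          have h7 : (X : ℝ) / (d * q) ≤ (X : ℝ) / (2 ^ j * q) :=
            div_le_div_of_nonneg_left hX0.le (by positivity)
              (mul_le_mul_of_nonneg_right h6 hq0.le)
          linarith
        refine (Finset.sum_le_sum h4).trans ?_
        refine Finset.sum_le_sum_of_subset_of_nonneg ?_ fun _ _ _ => mn_nonneg _ _ (by positivity)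
        intro d hd
        rw [mem_filter, mem_filter, mem_Icc] at hd
        rw [mem_Icc]
        refine ⟨hd.1.1.1, ?_⟩
        rw [← hd.2]
        exact (Nat.lt_pow_succ_log_self (by norm_num) d).le
      refine h3.trans ((hms α c r (by omega) hc hα2 (2 ^ (j + 1)) _ (by
        have : 0 ≤ (X : ℝ) / (2 ^ j * q) := by positivity
        linarith)).trans ?_)
      have h5 : (((2 ^ (j + 1) : ℕ) : ℝ)) / r + 1 ≤ 6 * (2 ^ j / r) := by
        push_cast
        rw [pow_succ]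
        have h6 : 1 ≤ 4 * ((2 : ℝ) ^ j / r) := by
          rw [← mul_div_assoc, le_div_iff₀ hr0]
          linarith
        have h7 : (2 : ℝ) ^ j * 2 / r = 2 * (2 ^ j / r) := by ring
        linarith
      have h6 : (2 : ℝ) ^ j / r * ((X : ℝ) / (2 ^ j * q) + 1 + r * (1 + Real.log r)) ≤
          Z + 3 * L * R := by
        have h7 : (2 : ℝ) ^ j / r * ((X : ℝ) / (2 ^ j * q) + 1 + r * (1 + Real.log r)) =
            X / (r * q) + 2 ^ j / r + 2 ^ j * (1 + Real.log r) := by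
          field_simp
        rw [h7]
        have h8 : (X : ℝ) / (r * q) ≤ Z := by
          rw [hZ, mul_comm (r : ℝ) q]
          exact div_le_div_of_nonneg_left hX0.le (by positivity)
            (mul_le_mul_of_nonneg_left hPr hq0.le)
        have h9 : (2 : ℝ) ^ j / r ≤ 2 ^ j := div_le_self hj0.le (by linarith)
        have h10 : (2 : ℝ) ^ j * (1 + Real.log r) ≤ R * (1 + L) :=
          mul_le_mul hjR (by linarith) (by linarith) (by positivity)
        have h11 : (0 : ℝ) ≤ R := by positivity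
        nlinarith
      calc C * ((((2 ^ (j + 1) : ℕ) : ℝ)) / r + 1) *
            ((X : ℝ) / (2 ^ j * q) + 1 + r * (1 + Real.log r))
          ≤ C * (6 * (2 ^ j / r)) * ((X : ℝ) / (2 ^ j * q) + 1 + r * (1 + Real.log r)) := by
            refine mul_le_mul_of_nonneg_right ?_ (by positivity)
            exact mul_le_mul_of_nonneg_left h5 hC.le
        _ = 6 * C * ((2 : ℝ) ^ j / r * ((X : ℝ) / (2 ^ j * q) + 1 + r * (1 + Real.log r))) := by
            ring
        _ ≤ 6 * C * (Z + 3 * L * R) := mul_le_mul_of_nonneg_left h6 (by positivity)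
    refine (Finset.sum_le_card_nsmul _ _ _ h2).trans ?_
    rw [nsmul_eq_mul]
    refine mul_le_mul_of_nonneg_right ?_ (by positivity)
    refine le_trans ?_ hRL
    have h3 := Finset.card_filter_le (range (Nat.log 2 R + 1)) (fun j => r < 4 * 2 ^ j)
    rw [card_range] at h3
    exact_mod_cast h3
  refine (add_le_add hsmall hlarge).trans ?_
  have hL2 : L ≤ L ^ 2 := by nlinarith
  have hR0 : (0 : ℝ) ≤ R := by positivity
  have h1 : 10 * C * L * Z ≤ 10 * C * L ^ 2 * Z := by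
    refine mul_le_mul_of_nonneg_right ?_ hZ0.le
    exact mul_le_mul_of_nonneg_left hL2 (by positivity)
  have h2 : (3 * L) * (6 * C * (Z + 3 * L * R)) = 18 * C * L * Z + 54 * C * L ^ 2 * R := by ring
  have h3 : 18 * C * L * Z ≤ 18 * C * L ^ 2 * Z := by
    refine mul_le_mul_of_nonneg_right ?_ hZ0.le
    exact mul_le_mul_of_nonneg_left hL2 (by positivity)
  have h4 : 0 ≤ C * L ^ 2 * Z := by positivity
  have h5 : 0 ≤ C * L ^ 2 * R := by positivity
  have h6 : 0 ≤ L ^ 2 * (Z + R) := by positivity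
  rw [h2]
  nlinarith

private theorem mi_final (C L P q Z R Xr LA V : ℝ) (hC : 1 ≤ C) (hL : 1 ≤ L) (hq : 0 < q)
    (hP : 0 < P) (hX : 0 < Xr) (hLA : 0 < LA) (hZ : Z = Xr / (q * P)) (hR : 0 ≤ R)
    (hV : V ≤ q * ((128 * L ^ 4) * (C * L ^ 2 * (Z + R))) ^ 2)
    (h1 : 4 * (128 * C) ^ 2 * L ^ 12 * LA ≤ P ^ 2)
    (h2 : 4 * (128 * C) ^ 2 * L ^ 12 * LA * (q ^ 2 * R ^ 2) ≤ Xr ^ 2) :
    V ≤ Xr ^ 2 / (q * LA) := by
  rw [le_div_iff₀ (by positivity)]
  have hZ0 : 0 < Z := by rw [hZ]; positivity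
  have h3 : (Z + R) ^ 2 ≤ 2 * (Z ^ 2 + R ^ 2) := by nlinarith [sq_nonneg (Z - R)]
  have h4 : q * ((128 * L ^ 4) * (C * L ^ 2 * (Z + R))) ^ 2 * (q * LA) =
      (128 * C) ^ 2 * L ^ 12 * LA * q ^ 2 * (Z + R) ^ 2 := by ring
  calc V * (q * LA) ≤ q * ((128 * L ^ 4) * (C * L ^ 2 * (Z + R))) ^ 2 * (q * LA) :=
        mul_le_mul_of_nonneg_right hV (by positivity)
    _ = (128 * C) ^ 2 * L ^ 12 * LA * q ^ 2 * (Z + R) ^ 2 := h4
    _ ≤ (128 * C) ^ 2 * L ^ 12 * LA * q ^ 2 * (2 * (Z ^ 2 + R ^ 2)) :=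
        mul_le_mul_of_nonneg_left h3 (by positivity)
    _ = (4 * (128 * C) ^ 2 * L ^ 12 * LA) * (q * Z) ^ 2 / 2 +
        (4 * (128 * C) ^ 2 * L ^ 12 * LA * (q ^ 2 * R ^ 2)) / 2 := by ring
    _ ≤ P ^ 2 * (q * Z) ^ 2 / 2 + Xr ^ 2 / 2 := by
        have h5 := mul_le_mul_of_nonneg_right h1 (sq_nonneg (q * Z))
        linarith
    _ = Xr ^ 2 := by
        have h6 : P * (q * Z) = Xr := by rw [hZ]; field_simp
        rw [← mul_pow, h6]
        ring

theorem nu_minor (A : ℕ) : ∃ B0 : ℕ, ∀ B : ℕ, B0 ≤ B → ∃ X0 : ℕ, ∀ X : ℕ, X0 ≤ X →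
    ∀ (q : ℕ) [NeZero q], (q : ℝ) ≤ (X : ℝ) ^ (2 / 3 : ℝ) → ∀ (θ : ℝ) (r : ℕ) (c : ℤ),
    MinorHyp X q B θ r c → VA X q (nu X (Rm X) q) θ ≤ X ^ 2 / (q * Real.log X ^ A) := by
  obtain ⟨C, hC, hsum⟩ := mi_sum
  refine ⟨A + 13, fun B hB => ?_⟩
  obtain ⟨X1, hX1⟩ := Filter.eventually_atTop.mp
    (ma_log_pow (12 + A) (1 / 2 : ℝ) (by norm_num) (4 * (128 * C) ^ 2))
  obtain ⟨X2, hX2⟩ := Filter.eventually_atTop.mp
    ((Real.tendsto_log_atTop.comp tendsto_natCast_atTop_atTop).eventually_ge_atTop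
      (max 2 (4 * (128 * C) ^ 2)))
  refine ⟨max (max X1 X2) 3, fun X hX q _ hq θ r c hmin => ?_⟩
  have hX1' : X1 ≤ X := (le_max_left _ _).trans ((le_max_left _ _).trans hX)
  have hX2' : X2 ≤ X := (le_max_right _ _).trans ((le_max_left _ _).trans hX)
  have hX3' : 3 ≤ X := (le_max_right _ _).trans hX
  have hXr : (1 : ℝ) ≤ X := by exact_mod_cast (by omega : 1 ≤ X)
  have hX0 : (0 : ℝ) < X := by linarith
  have hq0 : 0 < q := Nat.pos_of_ne_zero (NeZero.ne q)
  have hq0' : (0 : ℝ) < q := by exact_mod_cast hq0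
  have hqX : q ≤ X := ma_q_le X q (by omega) hq
  obtain ⟨L, hL⟩ : ∃ L : ℝ, L = Real.log X := ⟨_, rfl⟩
  have hLbig : max 2 (4 * (128 * C) ^ 2) ≤ L := by rw [hL]; exact hX2 X hX2'
  have hL2 : 2 ≤ L := (le_max_left _ _).trans hLbig
  have hL3 : 4 * (128 * C) ^ 2 ≤ L := (le_max_right _ _).trans hLbig
  have hL1 : 1 ≤ L := by linarith
  obtain ⟨R, hR⟩ : ∃ R, R = Rm X := ⟨_, rfl⟩
  have hRX : (R : ℝ) ≤ (X : ℝ) ^ (1 / 50 : ℝ) := by rw [hR]; exact ma_Rm_le X
  have hRX' : R ≤ X := by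
    have h2 : (X : ℝ) ^ (1 / 50 : ℝ) ≤ (X : ℝ) ^ (1 : ℝ) :=
      Real.rpow_le_rpow_of_exponent_le hXr (by norm_num)
    rw [Real.rpow_one] at h2
    exact_mod_cast hRX.trans h2
  rw [← hR, ← hL]
  obtain ⟨hm1, hm2, hm3, hm4⟩ := hmin
  rw [← hL] at hm1 hm2 hm4
  have hP0 : 0 < L ^ B := by positivity
  have hP1 : 1 ≤ L ^ B := one_le_pow₀ hL1
  have hr2 : 2 ≤ r := by
    have : (1 : ℝ) < r := by linarith
    exact_mod_cast this
  have hr0 : (0 : ℝ) < r := by exact_mod_cast (by omega : 0 < r)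
  have hrX : (r : ℝ) ≤ X := by
    refine hm2.trans (div_le_self hX0.le ?_)
    have : (1 : ℝ) ≤ q := by exact_mod_cast hq0
    nlinarith
  have hlogr : Real.log r ≤ L := by rw [hL]; exact Real.log_le_log hr0 hrX
  have hlogs : ∀ s ∈ Icc 1 R, Real.log (s : ℕ) ≤ L := by
    intro s hs
    rw [mem_Icc] at hs
    rw [hL]
    refine Real.log_le_log (by exact_mod_cast hs.1) ?_
    exact_mod_cast hs.2.trans hRX'
  have hlogR : (Nat.log 2 R : ℝ) + 1 ≤ 3 * L := by
    rcases Nat.eq_zero_or_pos R with h | h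
    · rw [h]
      simp
      linarith
    have h1 : (2 : ℝ) ^ Nat.log 2 R ≤ X := by
      have : 2 ^ Nat.log 2 R ≤ X := (Nat.pow_log_le_self 2 (by omega)).trans hRX'
      exact_mod_cast this
    have h2 := Real.log_le_log (by positivity) h1
    rw [Real.log_pow, ← hL] at h2
    have h3 : (0.69 : ℝ) < Real.log 2 := by
      have := Real.log_two_gt_d9
      linarith
    have h4 : (0 : ℝ) ≤ Nat.log 2 R := by positivity
    nlinarith
  have hκ1 : (q : ℝ) / (Nat.totient q : ℝ) ≤ 4 * L := by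
    refine (ma_ratio q X hq0 hqX).trans ?_
    rw [← hL]
    linarith
  have hTs := hsum X q R r L (L ^ B) (q * θ) c hq0 hr2 hL1 hlogr hlogR hP0 hXr hm1.le hm2 hm3 hm4
  obtain ⟨T, hT⟩ : ∃ T : ℝ, T = ∑ d ∈ Icc 1 R, mn ((X : ℝ) / (d * q) + 1) (d * (q * θ)) :=
    ⟨_, rfl⟩
  rw [← hT] at hTs
  have hT0 : 0 ≤ T := by
    rw [hT]
    exact Finset.sum_nonneg fun _ _ => mn_nonneg _ _ (by positivity)
  have hcl : ∀ b : ZMod q, ‖fz X q (nu X R q) θ b‖ ≤ (128 * L ^ 4) * T := by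
    intro b
    refine (mi_class X R q b θ L (by linarith) hlogs).trans ?_
    rw [← hT]
    refine mul_le_mul_of_nonneg_right ?_ hT0
    have h1 : (2 + 2 * L) ^ 2 * (1 + L) ≤ 32 * L ^ 3 := by
      have h2 : (2 + 2 * L) ^ 2 ≤ (4 * L) ^ 2 := pow_le_pow_left₀ (by linarith) (by linarith) 2
      calc (2 + 2 * L) ^ 2 * (1 + L) ≤ (4 * L) ^ 2 * (2 * L) :=
            mul_le_mul h2 (by linarith) (by linarith) (by positivity)
        _ = 32 * L ^ 3 := by ring
    calc (q : ℝ) / (Nat.totient q : ℝ) * ((2 + 2 * L) ^ 2 * (1 + L)) ≤ (4 * L) * (32 * L ^ 3) :=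
          mul_le_mul hκ1 h1 (by positivity) (by linarith)
      _ = 128 * L ^ 4 := by ring
  refine mi_final C L (L ^ B) q (X / (q * L ^ B)) R X (L ^ A) _ hC hL1 hq0' hP0 hX0 (by positivity)
    rfl (by positivity) ?_ ?_ ?_
  · unfold VA
    have h1 : ∀ b ∈ (univ : Finset (ZMod q)), ‖fz X q (nu X R q) θ b‖ ^ 2 ≤
        ((128 * L ^ 4) * (C * L ^ 2 * (X / (q * L ^ B) + R))) ^ 2 := by
      intro b _
      refine pow_le_pow_left₀ (norm_nonneg _) ((hcl b).trans ?_) 2
      exact mul_le_mul_of_nonneg_left hTs (by positivity)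
    refine (Finset.sum_le_card_nsmul _ _ _ h1).trans (le_of_eq ?_)
    rw [Finset.card_univ, ZMod.card, nsmul_eq_mul]
  · calc 4 * (128 * C) ^ 2 * L ^ 12 * L ^ A ≤ L * L ^ 12 * L ^ A := by
          refine mul_le_mul_of_nonneg_right ?_ (by positivity)
          exact mul_le_mul_of_nonneg_right hL3 (by positivity)
      _ = L ^ (13 + A) := by rw [pow_add]; ring
      _ ≤ L ^ (2 * B) := pow_le_pow_right₀ hL1 (by omega)
      _ = (L ^ B) ^ 2 := by rw [← pow_mul, mul_comm]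
  · have h1 := hX1 X hX1'
    rw [← hL] at h1
    have h2 : (q : ℝ) ^ 2 * (R : ℝ) ^ 2 ≤ (X : ℝ) ^ (3 / 2 : ℝ) := by
      have h3 : (q : ℝ) * R ≤ (X : ℝ) ^ (2 / 3 : ℝ) * (X : ℝ) ^ (1 / 50 : ℝ) :=
        mul_le_mul hq hRX (by positivity) (by positivity)
      rw [← Real.rpow_add hX0] at h3
      calc (q : ℝ) ^ 2 * (R : ℝ) ^ 2 = ((q : ℝ) * R) ^ 2 := by ring
        _ ≤ ((X : ℝ) ^ (2 / 3 + 1 / 50 : ℝ)) ^ 2 := pow_le_pow_left₀ (by positivity) h3 2
        _ = (X : ℝ) ^ ((2 / 3 + 1 / 50) * 2 : ℝ) := by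
            rw [← Real.rpow_natCast, ← Real.rpow_mul hX0.le]
            norm_num
        _ ≤ (X : ℝ) ^ (3 / 2 : ℝ) := Real.rpow_le_rpow_of_exponent_le hXr (by norm_num)
    calc 4 * (128 * C) ^ 2 * L ^ 12 * L ^ A * ((q : ℝ) ^ 2 * (R : ℝ) ^ 2)
        = (4 * (128 * C) ^ 2 * L ^ (12 + A)) * ((q : ℝ) ^ 2 * (R : ℝ) ^ 2) := by
          rw [pow_add]; ring
      _ ≤ (X : ℝ) ^ (1 / 2 : ℝ) * (X : ℝ) ^ (3 / 2 : ℝ) :=
          mul_le_mul h1 h2 (by positivity) (by positivity)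
      _ = (X : ℝ) ^ 2 := by
          rw [← Real.rpow_add hX0, ← Real.rpow_natCast]
          norm_num

end Pool.MP_dd84fd_nt.L2G
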