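import Pool.Agent.Lib.MP_dd84fd_nt.L2G.ArcQ
import Pool.Agent.Lib.MP_dd84fd_nt.L2G.ClassAlg
import Pool.Agent.Lib.MP_dd84fd_nt.L2G.MinorA
import Pool.Agent.Lib.MP_dd84fd_nt.L2G.ModelMinor

set_option autoImplicit false

namespace Pool.MP_dd84fd_nt.L2G

open Finset Pool.MP_67663b_nt.Odd

private lemma MinorAll_log_pow_le (δ : ℝ) (hδ : 0 < δ) (C : ℝ) (k : ℕ) :
    ∀ᶠ X : ℕ in Filter.atTop, C * Real.log X ^ k ≤ (X : ℝ) ^ δ := by
  have h := isLittleO_log_rpow_rpow_atTop (k : ℝ) hδ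
  have h2 : (fun x : ℝ => C * Real.log x ^ (k : ℝ)) =o[Filter.atTop] (fun x : ℝ => x ^ δ) :=
    h.const_mul_left C
  have h3 := (h2.bound (one_pos)).and (Filter.eventually_ge_atTop (1 : ℝ))
  have h4 := (tendsto_natCast_atTop_atTop (R := ℝ)).eventually h3
  filter_upwards [h4] with X hX
  obtain ⟨hX1, hX2⟩ := hX
  rw [Real.norm_eq_abs, Real.norm_eq_abs, one_mul, abs_of_nonneg (a := (X : ℝ) ^ δ) (by positivity),
    Real.rpow_natCast] at hX1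
  exact le_trans (le_abs_self _) hX1

private lemma MinorAll_log_ge (C : ℝ) : ∀ᶠ X : ℕ in Filter.atTop, C ≤ Real.log X :=
  (Real.tendsto_log_atTop.comp (tendsto_natCast_atTop_atTop (R := ℝ))).eventually
    (Filter.eventually_ge_atTop C)

theorem minor_all (ε : ℝ) (hε : 0 < ε) (hε1 : ε < 1) (A : ℕ) : ∃ B : ℕ, ∃ X0 : ℕ, ∀ X : ℕ,
    X0 ≤ X → ∀ (q : ℕ) [NeZero q], (q : ℝ) ≤ (X : ℝ) ^ (2 / 3 - ε) → ∀ θ : ℝ, θ ∉ MajQ X q B →
    VA X q (la X) θ ≤ X ^ 2 / (q * Real.log X ^ A) ∧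
    VA X q (nu X (Rm X) q) θ ≤ X ^ 2 / (q * Real.log X ^ A) := by
  obtain ⟨B1, h1⟩ := minor_la ε hε hε1 (A + 1)
  obtain ⟨B2, h2⟩ := nu_minor A
  set B : ℕ := max B1 B2 with hB
  obtain ⟨X1, h1'⟩ := h1 B (le_max_left _ _)
  obtain ⟨X2, h2'⟩ := h2 B (le_max_right _ _)
  obtain ⟨X3, hX3⟩ := Filter.eventually_atTop.1 (((MinorAll_log_ge 2).and
    (MinorAll_log_pow_le (1 / 3) (by norm_num) 1 B)).and
    ((MinorAll_log_pow_le 1 (by norm_num) 2 (A + 2)).and (Filter.eventually_ge_atTop 3)))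
  refine ⟨B, max X1 (max X2 X3), fun X hX q _ hqX θ hθ => ?_⟩
  obtain ⟨⟨hL, hLB⟩, ⟨hLA, hX3'⟩⟩ := hX3 X (le_trans (le_trans (le_max_right _ _)
    (le_max_right _ _)) hX)
  have hq1 : 1 ≤ q := Nat.one_le_iff_ne_zero.2 (NeZero.ne q)
  have hXpos : (0 : ℝ) < X := by exact_mod_cast (by omega : 0 < X)
  have hX1' : (1 : ℝ) ≤ X := by exact_mod_cast (by omega : 1 ≤ X)
  have hqpos : (0 : ℝ) < q := by exact_mod_cast (by omega : 0 < q)
  have hqX2 : (q : ℝ) ≤ (X : ℝ) ^ (2 / 3 : ℝ) :=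
    le_trans hqX (Real.rpow_le_rpow_of_exponent_le hX1' (by linarith))
  have hqX3 : (q : ℝ) ≤ X := by
    refine hqX2.trans ?_
    calc (X : ℝ) ^ (2 / 3 : ℝ) ≤ (X : ℝ) ^ (1 : ℝ) :=
          Real.rpow_le_rpow_of_exponent_le hX1' (by norm_num)
      _ = X := Real.rpow_one _
  have hqB : (q : ℝ) * Real.log X ^ B ≤ X := by
    rw [one_mul] at hLB
    calc (q : ℝ) * Real.log X ^ B ≤ (X : ℝ) ^ (2 / 3 : ℝ) * (X : ℝ) ^ (1 / 3 : ℝ) :=
          mul_le_mul hqX2 hLB (pow_nonneg (by linarith) _) (by positivity)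
      _ = X := by
          rw [← Real.rpow_add hXpos]
          norm_num
  obtain ⟨r, c, hmin⟩ := minor_hyp X q B hX3' hq1 hqB θ hθ
  have g1 := h1' X (le_trans (le_max_left _ _) hX) q hq1 hqX θ r c hmin
  have g2 := h2' X (le_trans (le_trans (le_max_left _ _) (le_max_right _ _)) hX) q hqX2 θ r c hmin
  refine ⟨?_, g2⟩
  have g3 := VA_la_le X q θ
  set L : ℝ := Real.log X with hLdef
  have hL0 : (0 : ℝ) < L := by linarith
  have hlq0 : 0 ≤ Real.log q := Real.log_natCast_nonneg q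
  have hlq : Real.log q ≤ L := Real.log_le_log hqpos hqX3
  have hlq2 : Real.log q ^ 2 ≤ L ^ 2 := pow_le_pow_left₀ hlq0 hlq 2
  rw [Real.rpow_one] at hLA
  have e1 : L ^ 2 ≤ X ^ 2 / (q * L ^ A) / 2 := by
    rw [div_div, le_div_iff₀ (by positivity)]
    calc L ^ 2 * (q * L ^ A * 2) = q * (2 * L ^ (A + 2)) := by rw [pow_add]; ring
      _ ≤ X * X := mul_le_mul hqX3 hLA (by positivity) hXpos.le
      _ = (X : ℝ) ^ 2 := by ring
  have e2 : (X : ℝ) ^ 2 / (q * L ^ (A + 1)) ≤ X ^ 2 / (q * L ^ A) / 2 := by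
    rw [div_div]
    refine div_le_div_of_nonneg_left (by positivity) (by positivity) ?_
    rw [pow_succ, ← mul_assoc]
    exact mul_le_mul_of_nonneg_left hL (by positivity)
  linarith

end Pool.MP_dd84fd_nt.L2G
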