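import Pool.Agent.Lib.MP_dd84fd_nt.L2G.MinorA
import Pool.Agent.Lib.MP_dd84fd_nt.L2G.ArcGeom

set_option autoImplicit false

/-!
# The minor arc bound for the exponential sum over primes
-/

namespace Pool.MP_dd84fd_nt.L2G

open Finset Pool.MP_67663b_nt.Odd

private theorem minorL_VQ (X : ℕ) (θ : ℝ) : VQ X 1 (la X) θ = ‖LH X θ‖ ^ 2 := by
  have h1 : (range 1).filter (Nat.Coprime 1) = {0} := by
    ext b
    simp
  have h2 : (Icc 1 X).filter (fun n => n % 1 = 0) = Icc 1 X := by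
    apply Finset.filter_true_of_mem
    intro n _
    exact Nat.mod_one n
  rw [VQ, h1, Finset.sum_singleton, h2, LH, Se]

private theorem minorL_grow (B : ℕ) : ∃ X0 : ℕ, ∀ X : ℕ, X0 ≤ X →
    1 ≤ Real.log X ∧ Real.log X ^ B ≤ X := by
  have h1 : ∀ᶠ x : ℝ in Filter.atTop, 1 ≤ Real.log x ∧ Real.log x ^ B ≤ x := by
    have h2 : (fun x : ℝ => Real.log x ^ B) =o[Filter.atTop] (id : ℝ → ℝ) :=
      Real.isLittleO_pow_log_id_atTop
    have h3 := h2.bound (c := 1) one_pos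
    have h4 := Real.tendsto_log_atTop.eventually_ge_atTop 1
    filter_upwards [h3, h4, Filter.eventually_ge_atTop (0 : ℝ)] with x hx hx2 hx3
    refine ⟨hx2, ?_⟩
    rw [one_mul, Real.norm_eq_abs, Real.norm_eq_abs, id, abs_of_nonneg hx3,
      abs_of_nonneg (by positivity)] at hx
    exact hx
  obtain ⟨x0, hx0⟩ := h1.exists_forall_of_atTop
  obtain ⟨N, hN⟩ := exists_nat_ge x0
  exact ⟨N, fun X hX => hx0 X (hN.trans (by exact_mod_cast hX))⟩

theorem minor_L : MinorL := by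
  intro A
  obtain ⟨B0, hB0⟩ := minor_la (1 / 3) (by norm_num) (by norm_num) (2 * A)
  refine ⟨B0, fun B' hB' => ?_⟩
  obtain ⟨X1, hX1⟩ := hB0 B' hB'
  obtain ⟨X2, hX2⟩ := minorL_grow B'
  refine ⟨max (max X1 X2) 1, fun X hX θ hθ => ?_⟩
  have hXa : X1 ≤ X := (le_max_left _ _).trans ((le_max_left _ _).trans hX)
  have hXb : X2 ≤ X := (le_max_right _ _).trans ((le_max_left _ _).trans hX)
  have hXc : 1 ≤ X := (le_max_right _ _).trans hX
  obtain ⟨hL1, hLB⟩ := hX2 X hXb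
  have hXR : (1 : ℝ) ≤ X := by exact_mod_cast hXc
  have hX0 : (0 : ℝ) < X := by linarith
  have hL0 : 0 < Real.log X := by linarith
  obtain ⟨r, c, h1, h2, h3, h4⟩ := Maj_dirichlet X (Real.log X ^ B') θ hXc (one_le_pow₀ hL1) hLB hθ
  have hyp : MinorHyp X 1 B' θ r c := by
    refine ⟨h1, ?_, h3, ?_⟩
    · rw [Nat.cast_one, one_mul]
      exact h2
    · rw [Nat.cast_one, one_mul, one_mul]
      exact h4
  have h5 := hX1 X hXa 1 le_rfl (by
    rw [Nat.cast_one]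
    exact Real.one_le_rpow hXR (by norm_num)) θ r c hyp
  rw [minorL_VQ, Nat.cast_one, one_mul] at h5
  have h6 : (X : ℝ) ^ 2 / Real.log X ^ (2 * A) = (X / Real.log X ^ A) ^ 2 := by
    rw [div_pow, ← pow_mul, mul_comm A 2]
  rw [h6] at h5
  exact le_of_sq_le_sq h5 (by positivity)

end Pool.MP_dd84fd_nt.L2G
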