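import Pool.Agent.Lib.MP_dd84fd_nt.L2G.ModelF

set_option autoImplicit false

namespace Pool.MP_dd84fd_nt.L2G

open Finset Pool.MP_67663b_nt.Odd

private theorem minorU_nrm {W : ℕ} (hW : 1 ≤ W) {P δ θ : ℝ} (hWP : (W : ℝ) ≤ P)
    (h : θ ∉ Maj P δ) : W * δ < nrm (W * θ) := by
  by_contra hcon
  push Not at hcon
  apply h
  unfold nrm at hcon
  set z : ℤ := round ((W : ℝ) * θ) with hz
  have hW0 : (0 : ℝ) < W := by exact_mod_cast hW
  set q : ℚ := (z : ℚ) / ((W : ℤ) : ℚ) with hq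
  have hqr : (q : ℝ) = (z : ℝ) / W := by rw [hq]; push_cast; ring
  have hden : (q.den : ℤ) ∣ (W : ℤ) := by
    have := Rat.den_dvd z (W : ℤ)
    rwa [Rat.divInt_eq_div] at this
  have hden' : q.den ∣ W := by exact_mod_cast hden
  have hle : q.den ≤ W := Nat.le_of_dvd hW hden'
  refine ⟨q.den, q.pos, le_trans (by exact_mod_cast hle) hWP, q.num, ?_, ?_⟩
  · exact Int.isCoprime_iff_gcd_eq_one.mpr q.reduced
  · have h1 : ((q.num : ℝ)) / (q.den : ℝ) = (z : ℝ) / W := by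
      rw [← hqr]
      exact (Rat.cast_def q).symm
    rw [h1]
    have h2 : θ - (z : ℝ) / W = ((W : ℝ) * θ - z) / W := by field_simp
    rw [h2, abs_div, abs_of_pos hW0, div_le_iff₀ hW0]
    linarith

theorem minor_U (hL : MinorL) : ∀ A : ℕ, ∃ B : ℕ, ∀ B' : ℕ, B ≤ B' → ∀ W : ℕ, 1 ≤ W → ∃ X0 : ℕ,
    ∀ X : ℕ, X0 ≤ X → ∀ θ : ℝ, θ ∉ Maj (Real.log X ^ B') (Real.log X ^ B' / X) →
    ‖UH W X θ‖ ≤ X / Real.log X ^ A ∧ ‖VH W X θ‖ ≤ X / Real.log X ^ A := by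
  intro A
  obtain ⟨B, hB⟩ := hL (A + 1)
  refine ⟨max B (A + 1), fun B' hB' W hW => ?_⟩
  obtain ⟨X0, hX0⟩ := hB B' ((le_max_left _ _).trans hB')
  have hAB : A + 1 ≤ B' := (le_max_right _ _).trans hB'
  refine ⟨max X0 ⌈Real.exp ((W : ℝ) + 2)⌉₊, fun X hX θ hθ => ?_⟩
  have hXexp : Real.exp ((W : ℝ) + 2) ≤ X :=
    (Nat.le_ceil _).trans (by exact_mod_cast (le_max_right _ _).trans hX)
  have hXpos : (0 : ℝ) < X := lt_of_lt_of_le (Real.exp_pos _) hXexp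
  have hlog : (W : ℝ) + 2 ≤ Real.log X := by
    rw [Real.le_log_iff_exp_le hXpos]; exact hXexp
  set L : ℝ := Real.log X with hLdef
  have hW0 : (0 : ℝ) < W := by exact_mod_cast hW
  have hL2 : 2 ≤ L := by linarith
  have hL1 : 1 ≤ L := by linarith
  have hL0 : 0 < L := by linarith
  have hWL : (W : ℝ) ≤ L ^ B' := by
    calc (W : ℝ) ≤ L := by linarith
      _ = L ^ 1 := (pow_one L).symm
      _ ≤ L ^ B' := pow_le_pow_right₀ hL1 (by omega)
  have h1 := hX0 X ((le_max_left _ _).trans hX) θ hθ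
  have h2 := minorU_nrm hW hWL hθ
  have hpos : 0 < (W : ℝ) * (L ^ B' / X) := by positivity
  have h3 := WH_nrm W X hW θ (hpos.trans h2)
  have h4 : (W : ℝ) / nrm (W * θ) ≤ X / L ^ (A + 1) := by
    calc (W : ℝ) / nrm (W * θ) ≤ W / (W * (L ^ B' / X)) :=
          div_le_div_of_nonneg_left hW0.le hpos h2.le
      _ = X / L ^ B' := by field_simp
      _ ≤ X / L ^ (A + 1) := by
          apply div_le_div_of_nonneg_left hXpos.le (by positivity)
          exact pow_le_pow_right₀ hL1 hAB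
  have h5 : ‖LH X θ‖ + ‖WH W X θ‖ ≤ X / L ^ A := by
    calc ‖LH X θ‖ + ‖WH W X θ‖ ≤ X / L ^ (A + 1) + X / L ^ (A + 1) :=
          add_le_add h1 (h3.trans h4)
      _ = (X / L ^ A) * (2 / L) := by rw [pow_succ]; field_simp; ring
      _ ≤ (X / L ^ A) * 1 := by
          apply mul_le_mul_of_nonneg_left _ (by positivity)
          rw [div_le_one hL0]; exact hL2
      _ = X / L ^ A := mul_one _
  exact ⟨(norm_sub_le _ _).trans h5, (norm_add_le _ _).trans h5⟩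

end Pool.MP_dd84fd_nt.L2G
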