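import Pool.Agent.Lib.MP_dd84fd_nt.L2G.MuSum

set_option autoImplicit false

namespace Pool.MP_dd84fd_nt.L2G

open Finset Pool.MP_67663b_nt.Odd

/-- derivative of the square of the positive part -/
theorem muInt_hasDerivAt_max_sq (x : ℝ) :
    HasDerivAt (fun t : ℝ => (max t 0) ^ 2) (2 * max x 0) x := by
  rcases lt_trichotomy x 0 with h | h | h
  · have h1 : (fun t : ℝ => (max t 0) ^ 2) =ᶠ[nhds x] fun _ => 0 := by
      filter_upwards [Iio_mem_nhds h] with t ht
      rw [max_eq_right (le_of_lt ht)]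
      norm_num
    rw [max_eq_right h.le, mul_zero]
    exact (hasDerivAt_const x (0 : ℝ)).congr_of_eventuallyEq h1
  · subst h
    rw [max_self, mul_zero, hasDerivAt_iff_isLittleO]
    have h2 : (fun t : ℝ => t ^ 2) =o[nhds 0] fun t => t :=
      Asymptotics.isLittleO_pow_id (by norm_num)
    have h3 : (fun t : ℝ => (max t 0) ^ 2 - (max (0 : ℝ) 0) ^ 2 - (t - 0) • (0 : ℝ)) =O[nhds 0]
        fun t : ℝ => t ^ 2 := by
      refine Asymptotics.IsBigO.of_bound 1 (Filter.Eventually.of_forall fun t => ?_)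
      rw [max_self]
      simp only [ne_eq, OfNat.ofNat_ne_zero, not_false_eq_true, zero_pow, sub_zero, smul_zero,
        norm_pow, Real.norm_eq_abs, one_mul]
      have h4 : |max t 0| ≤ |t| := by
        rcases le_total t 0 with h5 | h5
        · rw [max_eq_right h5, abs_zero]
          exact abs_nonneg _
        · rw [max_eq_left h5]
      exact pow_le_pow_left₀ (abs_nonneg _) h4 2
    have h5 := h3.trans_isLittleO h2
    simpa using h5
  · have h1 : (fun t : ℝ => (max t 0) ^ 2) =ᶠ[nhds x] fun t => t ^ 2 := by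
      filter_upwards [Ioi_mem_nhds h] with t ht
      rw [max_eq_left (le_of_lt ht)]
    rw [max_eq_left h.le]
    have h2 := (hasDerivAt_pow 2 x).congr_of_eventuallyEq h1
    simpa using h2

/-- positive part of `log (s / (r d))` -/
noncomputable def muIntPhi (r d : ℕ) (s : ℝ) : ℝ := max (Real.log (s / (r * d))) 0

/-- the weighted sum of the squares -/
noncomputable def muIntG (r : ℕ) (D : Finset ℕ) (s : ℝ) : ℝ :=
  ∑ d ∈ D, (ArithmeticFunction.moebius d : ℝ) / d * muIntPhi r d s ^ 2

/-- its derivative -/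
noncomputable def muIntG' (r : ℕ) (D : Finset ℕ) (s : ℝ) : ℝ :=
  2 / s * ∑ d ∈ D, (ArithmeticFunction.moebius d : ℝ) / d * muIntPhi r d s

theorem muInt_hasDerivAt_G (r : ℕ) (hr : 1 ≤ r) (D : Finset ℕ) (hD : ∀ d ∈ D, 1 ≤ d) (s : ℝ)
    (hs : 0 < s) : HasDerivAt (muIntG r D) (muIntG' r D s) s := by
  unfold muIntG muIntG'
  rw [Finset.mul_sum]
  refine HasDerivAt.fun_sum fun d hd => ?_
  have hr0 : (0 : ℝ) < r := by exact_mod_cast hr
  have hd0 : (0 : ℝ) < d := by exact_mod_cast hD d hd
  have hrd : (0 : ℝ) < r * d := mul_pos hr0 hd0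
  have h1 : HasDerivAt (fun t : ℝ => Real.log (t / (r * d))) (1 / s) s := by
    have h2 : HasDerivAt (fun t : ℝ => t / ((r : ℝ) * d)) (1 / ((r : ℝ) * d)) s :=
      (hasDerivAt_id s).div_const _
    have h3 := h2.log (by positivity)
    convert h3 using 1
    field_simp
  have h2 := (muInt_hasDerivAt_max_sq (Real.log (s / (r * d)))).comp s h1
  have h3 := h2.const_mul ((ArithmeticFunction.moebius d : ℝ) / d)
  unfold muIntPhi
  refine h3.congr_deriv ?_
  ring

theorem muInt_continuousOn_phi (r d : ℕ) (hr : 1 ≤ r) (hd : 1 ≤ d) :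
    ContinuousOn (muIntPhi r d) (Set.Ioi 0) := by
  have hr0 : (0 : ℝ) < r := by exact_mod_cast hr
  have hd0 : (0 : ℝ) < d := by exact_mod_cast hd
  have hrd : (0 : ℝ) < r * d := mul_pos hr0 hd0
  unfold muIntPhi
  refine ContinuousOn.sup ?_ continuousOn_const
  refine ContinuousOn.log (continuousOn_id.div_const _) fun x hx => ?_
  have hx0 : (0 : ℝ) < x := hx
  positivity

theorem muInt_continuousOn_G' (r : ℕ) (hr : 1 ≤ r) (D : Finset ℕ) (hD : ∀ d ∈ D, 1 ≤ d) :
    ContinuousOn (muIntG' r D) (Set.Ioi 0) := by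
  unfold muIntG'
  refine ContinuousOn.mul ?_ ?_
  · refine ContinuousOn.div continuousOn_const continuousOn_id fun x hx => ?_
    have hx0 : (0 : ℝ) < x := hx
    exact hx0.ne'
  · exact continuousOn_finsetSum _ fun d hd =>
      continuousOn_const.mul (muInt_continuousOn_phi r d hr (hD d hd))

/-- the sum of the positive parts is the sum of `mu_sum_bound` -/
theorem muInt_sum_phi (r : ℕ) (hr : 1 ≤ r) (X s : ℝ) (hs : (r : ℝ) ≤ s) (hsX : s ≤ X) :
    ∑ d ∈ (Icc 1 ⌊X / r⌋₊).filter (fun d => Nat.Coprime d r),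
      (ArithmeticFunction.moebius d : ℝ) / d * muIntPhi r d s =
    ∑ d ∈ (Icc 1 ⌊s / r⌋₊).filter (fun d => Nat.Coprime d r),
      (ArithmeticFunction.moebius d : ℝ) / d * Real.log (s / r / d) := by
  have hr0 : (0 : ℝ) < r := by exact_mod_cast hr
  have hs0 : 0 < s := hr0.trans_le hs
  have hsub : (Icc 1 ⌊s / r⌋₊).filter (fun d => Nat.Coprime d r) ⊆
      (Icc 1 ⌊X / r⌋₊).filter (fun d => Nat.Coprime d r) := by
    refine Finset.filter_subset_filter _ (Finset.Icc_subset_Icc le_rfl ?_)
    exact Nat.floor_le_floor (div_le_div_of_nonneg_right hsX hr0.le)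
  rw [← Finset.sum_subset hsub]
  · refine Finset.sum_congr rfl fun d hd => ?_
    rw [Finset.mem_filter, Finset.mem_Icc] at hd
    have hd0 : (0 : ℝ) < d := by exact_mod_cast hd.1.1
    have h1 : (d : ℝ) ≤ s / r := by
      have := hd.1.2
      rw [Nat.le_floor_iff (by positivity)] at this
      exact this
    unfold muIntPhi
    rw [max_eq_left, div_div]
    refine Real.log_nonneg ?_
    rw [le_div_iff₀ hr0] at h1
    rw [le_div_iff₀ (by positivity)]
    linarith
  · intro d hd hd'
    rw [Finset.mem_filter, Finset.mem_Icc] at hd hd'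
    have hd0 : (0 : ℝ) < d := by exact_mod_cast hd.1.1
    have h1 : s / r < d := by
      by_contra hcon
      push Not at hcon
      exact hd' ⟨⟨hd.1.1, (Nat.le_floor_iff (by positivity)).2 hcon⟩, hd.2⟩
    unfold muIntPhi
    rw [max_eq_right, mul_zero]
    refine Real.log_nonpos (by positivity) ?_
    rw [div_lt_iff₀ hr0] at h1
    rw [div_le_one (by positivity)]
    linarith

theorem muInt_continuous_ee (β : ℝ) : Continuous fun s : ℝ => ee (s * β) := by
  unfold ee
  fun_prop

theorem muInt_hasDerivAt_ee (β : ℝ) (hβ : β ≠ 0) (s : ℝ) :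
    HasDerivAt (fun s : ℝ => ee (s * β) / (2 * Real.pi * β * Complex.I)) (ee (s * β)) s := by
  have h1 : HasDerivAt (fun s : ℝ => ee (s * β)) (ee (s * β) * (2 * Real.pi * β * Complex.I)) s := by
    unfold ee
    have h2 : HasDerivAt (fun s : ℝ => (2 * Real.pi * ((s * β : ℝ) : ℂ) * Complex.I))
        (2 * Real.pi * β * Complex.I) s := by
      have h3 : HasDerivAt (fun s : ℝ => ((s * β : ℝ) : ℂ)) (β : ℂ) s := by
        have h4 := ((hasDerivAt_id s).mul_const β).ofReal_comp
        simpa using h4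
      have h5 := (h3.const_mul (2 * Real.pi : ℂ)).mul_const Complex.I
      exact h5
    exact h2.cexp
  have hne : (2 * Real.pi * β * Complex.I : ℂ) ≠ 0 := by
    have : (Real.pi : ℂ) ≠ 0 := by exact_mod_cast Real.pi_ne_zero
    have hb : (β : ℂ) ≠ 0 := by exact_mod_cast hβ
    simp [this, hb, Complex.I_ne_zero]
  have h2 := h1.div_const (2 * Real.pi * β * Complex.I : ℂ)
  refine h2.congr_deriv ?_
  exact mul_div_cancel_right₀ _ hne

theorem muInt_core (r : ℕ) (hr : 1 ≤ r) (X β K : ℝ) (hX : (r : ℝ) ≤ X) (D : Finset ℕ)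
    (hD : ∀ d ∈ D, 1 ≤ d)
    (hK : ∀ s : ℝ, (r : ℝ) ≤ s → s ≤ X →
      |∑ d ∈ D, (ArithmeticFunction.moebius d : ℝ) / d * muIntPhi r d s| ≤ K) :
    ‖∫ s in (r : ℝ)..X, (muIntG r D s : ℂ) * ee (s * β)‖ ≤
      4 * K * Real.log (X / r) * X / (1 + |β| * X) := by
  have hr0 : (0 : ℝ) < r := by exact_mod_cast hr
  have hX0 : 0 < X := hr0.trans_le hX
  have hK0 : 0 ≤ K := (abs_nonneg _).trans (hK r le_rfl hX)
  have hlog : 0 ≤ Real.log (X / r) := Real.log_nonneg (by rwa [one_le_div hr0])
  have hG0 : muIntG r D r = 0 := by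
    unfold muIntG
    refine Finset.sum_eq_zero fun d hd => ?_
    have hd0 : (0 : ℝ) < d := by exact_mod_cast hD d hd
    have hd1 : (1 : ℝ) ≤ d := by exact_mod_cast hD d hd
    unfold muIntPhi
    rw [max_eq_right]
    · norm_num
    · refine Real.log_nonpos (by positivity) ?_
      rw [div_le_one (by positivity)]
      nlinarith
  have hG' : ∀ s : ℝ, (r : ℝ) ≤ s → s ≤ X → |muIntG' r D s| ≤ 2 * K / s := by
    intro s hs hsX
    have hs0 : 0 < s := hr0.trans_le hs
    unfold muIntG'
    rw [abs_mul, abs_of_pos (by positivity : (0 : ℝ) < 2 / s)]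
    calc 2 / s * |∑ d ∈ D, (ArithmeticFunction.moebius d : ℝ) / d * muIntPhi r d s|
        ≤ 2 / s * K := mul_le_mul_of_nonneg_left (hK s hs hsX) (by positivity)
      _ = 2 * K / s := by ring
  have hsubI : ∀ a b : ℝ, (r : ℝ) ≤ a → a ≤ b → Set.uIcc a b ⊆ Set.Ioi 0 := by
    intro a b ha hab x hx
    rw [Set.uIcc_of_le hab] at hx
    exact hr0.trans_le (ha.trans hx.1)
  have hintInv : ∀ s : ℝ, (r : ℝ) ≤ s →
      IntervalIntegrable (fun u : ℝ => 2 * K / u) MeasureTheory.volume (r : ℝ) s := by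
    intro s hs
    refine ContinuousOn.intervalIntegrable ?_
    refine ContinuousOn.div continuousOn_const continuousOn_id fun x hx => ?_
    exact (hsubI r s le_rfl hs hx).ne'
  have hvalInv : ∀ s : ℝ, (r : ℝ) ≤ s → ∫ u in (r : ℝ)..s, 2 * K / u = 2 * K * Real.log (s / r) := by
    intro s hs
    have h1 : (fun u : ℝ => 2 * K / u) = fun u : ℝ => 2 * K * u⁻¹ := by
      funext u
      rw [div_eq_mul_inv]
    rw [h1, intervalIntegral.integral_const_mul, integral_inv_of_pos hr0 (hr0.trans_le hs)]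
  -- bound of `G`
  have hG : ∀ s : ℝ, (r : ℝ) ≤ s → s ≤ X → |muIntG r D s| ≤ 2 * K * Real.log (s / r) := by
    intro s hs hsX
    have h1 : ∫ u in (r : ℝ)..s, muIntG' r D u = muIntG r D s - muIntG r D r := by
      refine intervalIntegral.integral_eq_sub_of_hasDerivAt (fun u hu => ?_) ?_
      · exact muInt_hasDerivAt_G r hr D hD u (hsubI r s le_rfl hs hu)
      · exact ((muInt_continuousOn_G' r hr D hD).mono (hsubI r s le_rfl hs)).intervalIntegrable
    rw [hG0, sub_zero] at h1
    rw [← h1, ← hvalInv s hs, ← Real.norm_eq_abs]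
    refine intervalIntegral.norm_integral_le_of_norm_le hs ?_ (hintInv s hs)
    refine Filter.Eventually.of_forall fun u hu => ?_
    exact hG' u hu.1.le (hu.2.trans hsX)
  have hGc : ContinuousOn (muIntG r D) (Set.Ioi 0) := fun x hx =>
    (muInt_hasDerivAt_G r hr D hD x hx).continuousAt.continuousWithinAt
  -- first bound
  have hA : ‖∫ s in (r : ℝ)..X, (muIntG r D s : ℂ) * ee (s * β)‖ ≤
      2 * K * Real.log (X / r) * X := by
    have h1 : ‖∫ s in (r : ℝ)..X, (muIntG r D s : ℂ) * ee (s * β)‖ ≤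
        (2 * K * Real.log (X / r)) * |X - r| := by
      refine intervalIntegral.norm_integral_le_of_norm_le_const fun s hs => ?_
      rw [Set.uIoc_of_le hX] at hs
      rw [norm_mul, norm_ee, mul_one, Complex.norm_real, Real.norm_eq_abs]
      refine (hG s hs.1.le hs.2).trans ?_
      refine mul_le_mul_of_nonneg_left ?_ (by positivity)
      refine Real.log_le_log (by have := hr0.trans hs.1; positivity) ?_
      exact div_le_div_of_nonneg_right hs.2 hr0.le
    refine h1.trans (mul_le_mul_of_nonneg_left ?_ (by positivity))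
    rw [abs_of_nonneg (by linarith)]
    linarith
  by_cases hβ : |β| * X ≤ 1
  · have h1 : 1 + |β| * X ≤ 2 := by linarith
    have h2 : 0 < 1 + |β| * X := by positivity
    rw [le_div_iff₀ h2]
    calc ‖∫ s in (r : ℝ)..X, (muIntG r D s : ℂ) * ee (s * β)‖ * (1 + |β| * X)
        ≤ (2 * K * Real.log (X / r) * X) * 2 := mul_le_mul hA h1 h2.le (by positivity)
      _ = 4 * K * Real.log (X / r) * X := by ring
  · push Not at hβ
    have hβ0 : β ≠ 0 := by
      rintro rfl
      simp at hβ
      linarith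
    have hβpos : 0 < |β| := abs_pos.2 hβ0
    -- second bound
    have hparts : ∫ s in (r : ℝ)..X, (muIntG r D s : ℂ) * ee (s * β) =
        (muIntG r D X : ℂ) * (ee (X * β) / (2 * Real.pi * β * Complex.I)) -
        (muIntG r D r : ℂ) * (ee (r * β) / (2 * Real.pi * β * Complex.I)) -
        ∫ s in (r : ℝ)..X, (muIntG' r D s : ℂ) * (ee (s * β) / (2 * Real.pi * β * Complex.I)) := by
      refine intervalIntegral.integral_mul_deriv_eq_deriv_mul
        (u := fun s => (muIntG r D s : ℂ)) (v := fun s : ℝ => ee (s * β) / (2 * Real.pi * β * Complex.I))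
        (u' := fun s => (muIntG' r D s : ℂ)) (v' := fun s => ee (s * β)) ?_ ?_ ?_ ?_
      · intro x hx
        exact (muInt_hasDerivAt_G r hr D hD x (hsubI r X le_rfl hX hx)).ofReal_comp
      · intro x _
        exact muInt_hasDerivAt_ee β hβ0 x
      · refine ContinuousOn.intervalIntegrable ?_
        exact Complex.continuous_ofReal.comp_continuousOn
          ((muInt_continuousOn_G' r hr D hD).mono (hsubI r X le_rfl hX))
      · exact (muInt_continuous_ee β).intervalIntegrable _ _
    have hnormI : ‖(2 * Real.pi * β * Complex.I : ℂ)‖ = 2 * Real.pi * |β| := by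
      rw [norm_mul, norm_mul, norm_mul, Complex.norm_I, mul_one, Complex.norm_real,
        Complex.norm_real, Real.norm_eq_abs, Real.norm_eq_abs, abs_of_pos Real.pi_pos]
      norm_num
    have hpi := Real.pi_pos
    have hB1 : ‖(muIntG r D X : ℂ) * (ee (X * β) / (2 * Real.pi * β * Complex.I))‖ ≤
        2 * K * Real.log (X / r) / (2 * Real.pi * |β|) := by
      rw [norm_mul, norm_div, norm_ee, hnormI, Complex.norm_real, Real.norm_eq_abs, mul_one_div]
      exact div_le_div_of_nonneg_right (hG X hX le_rfl) (by positivity)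
    have hB2 : ‖∫ s in (r : ℝ)..X, (muIntG' r D s : ℂ) * (ee (s * β) / (2 * Real.pi * β * Complex.I))‖
        ≤ 2 * K * Real.log (X / r) / (2 * Real.pi * |β|) := by
      have h1 : ∫ s in (r : ℝ)..X, 2 * K / s / (2 * Real.pi * |β|) =
          2 * K * Real.log (X / r) / (2 * Real.pi * |β|) := by
        rw [intervalIntegral.integral_div, hvalInv X hX]
      rw [← h1]
      refine intervalIntegral.norm_integral_le_of_norm_le hX ?_ ((hintInv X hX).div_const _)
      refine Filter.Eventually.of_forall fun u hu => ?_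
      rw [norm_mul, norm_div, norm_ee, hnormI, Complex.norm_real, Real.norm_eq_abs, mul_one_div]
      exact div_le_div_of_nonneg_right (hG' u hu.1.le hu.2) (by positivity)
    have hB : ‖∫ s in (r : ℝ)..X, (muIntG r D s : ℂ) * ee (s * β)‖ ≤
        2 * K * Real.log (X / r) / |β| := by
      rw [hparts, hG0, Complex.ofReal_zero, zero_mul, sub_zero]
      refine (norm_sub_le _ _).trans ((add_le_add hB1 hB2).trans ?_)
      rw [← add_div, div_le_div_iff₀ (by positivity) hβpos]
      have h3 : (3 : ℝ) < Real.pi := Real.pi_gt_three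
      have h4 : 0 ≤ K * Real.log (X / r) * |β| := by positivity
      nlinarith
    have h2 : 0 < 1 + |β| * X := by positivity
    rw [le_div_iff₀ h2]
    have h3 : 1 + |β| * X ≤ 2 * (|β| * X) := by linarith
    calc ‖∫ s in (r : ℝ)..X, (muIntG r D s : ℂ) * ee (s * β)‖ * (1 + |β| * X)
        ≤ (2 * K * Real.log (X / r) / |β|) * (2 * (|β| * X)) :=
          mul_le_mul hB h3 h2.le (by positivity)
      _ = 4 * K * Real.log (X / r) * X := by
          field_simp
          ring

theorem mu_int_bound : ∃ C : ℝ, 0 < C ∧ ∀ (r : ℕ), 1 ≤ r → ∀ (X β : ℝ), (r : ℝ) ≤ X →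
    ‖∑ d ∈ (Icc 1 ⌊X / r⌋₊).filter (fun d => Nat.Coprime d r),
      ((ArithmeticFunction.moebius d : ℝ) / d : ℂ) *
        ∫ s in ((r : ℝ) * d)..X, ((Real.log (s / (r * d)) ^ 2 : ℝ) : ℂ) * ee (s * β)‖ ≤
      C * (r.divisors.card : ℝ) ^ 4 * (1 + Real.log (X / r)) * X / (1 + |β| * X) := by
  obtain ⟨C, hC, hmu⟩ := mu_sum_bound
  refine ⟨4 * C, by positivity, fun r hr X β hX => ?_⟩
  have hr0 : (0 : ℝ) < r := by exact_mod_cast hr
  have hX0 : 0 < X := hr0.trans_le hX
  have hlog : 0 ≤ Real.log (X / r) := Real.log_nonneg (by rwa [one_le_div hr0])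
  set D : Finset ℕ := (Icc 1 ⌊X / r⌋₊).filter (fun d => Nat.Coprime d r) with hDdef
  have hD : ∀ d ∈ D, 1 ≤ d := fun d hd => (Finset.mem_Icc.1 (Finset.mem_filter.1 hd).1).1
  have hDX : ∀ d ∈ D, (r : ℝ) * d ≤ X := by
    intro d hd
    have h1 := (Finset.mem_Icc.1 (Finset.mem_filter.1 hd).1).2
    rw [Nat.le_floor_iff (by positivity), le_div_iff₀ hr0] at h1
    linarith
  have hcore := muInt_core r hr X β (C * (r.divisors.card : ℝ) ^ 4) hX D hD (fun s hs hsX => by
    rw [hDdef, muInt_sum_phi r hr X s hs hsX]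
    exact hmu r hr (s / r) (by rwa [one_le_div hr0]))
  have hsum : ∑ d ∈ D, ((ArithmeticFunction.moebius d : ℝ) / d : ℂ) *
        ∫ s in ((r : ℝ) * d)..X, ((Real.log (s / (r * d)) ^ 2 : ℝ) : ℂ) * ee (s * β) =
      ∫ s in (r : ℝ)..X, (muIntG r D s : ℂ) * ee (s * β) := by
    have hcont : ∀ d ∈ D, ContinuousOn (fun s : ℝ => ((muIntPhi r d s ^ 2 : ℝ) : ℂ) * ee (s * β))
        (Set.Ioi 0) := by
      intro d hd
      refine ContinuousOn.mul ?_ (muInt_continuous_ee β).continuousOn
      exact Complex.continuous_ofReal.comp_continuousOn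
        ((muInt_continuousOn_phi r d hr (hD d hd)).pow 2)
    have hsub : ∀ a b : ℝ, (r : ℝ) ≤ a → a ≤ b → Set.uIcc a b ⊆ Set.Ioi 0 := by
      intro a b ha hab x hx
      rw [Set.uIcc_of_le hab] at hx
      exact hr0.trans_le (ha.trans hx.1)
    have h1 : ∀ d ∈ D, ∫ s in ((r : ℝ) * d)..X, ((Real.log (s / (r * d)) ^ 2 : ℝ) : ℂ) * ee (s * β) =
        ∫ s in (r : ℝ)..X, ((muIntPhi r d s ^ 2 : ℝ) : ℂ) * ee (s * β) := by
      intro d hd
      have hd0 : (0 : ℝ) < d := by exact_mod_cast hD d hd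
      have hd1 : (1 : ℝ) ≤ d := by exact_mod_cast hD d hd
      have hrd : (r : ℝ) ≤ r * d := by nlinarith
      have hi1 : IntervalIntegrable (fun s : ℝ => ((muIntPhi r d s ^ 2 : ℝ) : ℂ) * ee (s * β))
          MeasureTheory.volume (r : ℝ) (r * d) :=
        ((hcont d hd).mono (hsub r (r * d) le_rfl hrd)).intervalIntegrable
      have hi2 : IntervalIntegrable (fun s : ℝ => ((muIntPhi r d s ^ 2 : ℝ) : ℂ) * ee (s * β))
          MeasureTheory.volume ((r : ℝ) * d) X :=
        ((hcont d hd).mono (hsub (r * d) X hrd (hDX d hd))).intervalIntegrable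
      rw [← intervalIntegral.integral_add_adjacent_intervals hi1 hi2]
      have hz : ∫ s in (r : ℝ)..((r : ℝ) * d), ((muIntPhi r d s ^ 2 : ℝ) : ℂ) * ee (s * β) = 0 := by
        have h2 : ∫ s in (r : ℝ)..((r : ℝ) * d), ((muIntPhi r d s ^ 2 : ℝ) : ℂ) * ee (s * β) =
            ∫ s in (r : ℝ)..((r : ℝ) * d), (0 : ℂ) := by
          refine intervalIntegral.integral_congr fun s hs => ?_
          rw [Set.uIcc_of_le hrd] at hs
          have hs0 : 0 < s := hr0.trans_le hs.1
          have h3 : muIntPhi r d s = 0 := by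
            unfold muIntPhi
            refine max_eq_right (Real.log_nonpos (by positivity) ?_)
            rw [div_le_one (by positivity)]
            exact hs.2
          simp only [h3]
          norm_num
        rw [h2]
        simp
      rw [hz, zero_add]
      refine intervalIntegral.integral_congr fun s hs => ?_
      rw [Set.uIcc_of_le (hDX d hd)] at hs
      have h3 : muIntPhi r d s = Real.log (s / (r * d)) := by
        unfold muIntPhi
        refine max_eq_left (Real.log_nonneg ?_)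
        rw [le_div_iff₀ (by positivity), one_mul]
        exact hs.1
      simp only [h3]
    rw [Finset.sum_congr rfl fun d hd => by rw [h1 d hd]]
    have h2 : ∀ d ∈ D, ((ArithmeticFunction.moebius d : ℝ) / d : ℂ) *
        ∫ s in (r : ℝ)..X, ((muIntPhi r d s ^ 2 : ℝ) : ℂ) * ee (s * β) =
        ∫ s in (r : ℝ)..X, ((ArithmeticFunction.moebius d : ℝ) / d : ℂ) *
          (((muIntPhi r d s ^ 2 : ℝ) : ℂ) * ee (s * β)) := by
      intro d _
      rw [intervalIntegral.integral_const_mul]
    rw [Finset.sum_congr rfl h2, ← intervalIntegral.integral_finsetSum]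
    · refine intervalIntegral.integral_congr fun s _ => ?_
      simp only [muIntG]
      push_cast
      rw [Finset.sum_mul]
      refine Finset.sum_congr rfl fun d _ => ?_
      ring
    · intro d hd
      exact (((hcont d hd).mono (hsub r X le_rfl hX)).intervalIntegrable).const_mul _
  rw [hsum]
  refine hcore.trans ?_
  refine div_le_div_of_nonneg_right ?_ (by positivity)
  refine mul_le_mul_of_nonneg_right ?_ hX0.le
  have h5 : 0 ≤ C * (r.divisors.card : ℝ) ^ 4 := by positivity
  nlinarith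

end Pool.MP_dd84fd_nt.L2G
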