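import Pool.Agent.Lib.MP_dd84fd_nt.L2G.Defs

set_option autoImplicit false

namespace Pool.MP_dd84fd_nt.L2G

open Finset Pool.MP_67663b_nt.Odd

private lemma muSum_mult (M l : ℕ) (hl : 1 ≤ l) (g : ℕ → ℝ) :
    ∑ n ∈ (Icc 1 M).filter (fun n => l ∣ n), g n = ∑ j ∈ Icc 1 (M / l), g (l * j) := by
  symm
  refine Finset.sum_nbij (fun j => l * j) ?_ ?_ ?_ ?_
  · intro j hj
    simp only [mem_Icc] at hj
    simp only [mem_filter, mem_Icc, dvd_mul_right, and_true]
    refine ⟨?_, ?_⟩
    · exact Nat.mul_pos hl hj.1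
    · calc l * j ≤ l * (M / l) := Nat.mul_le_mul_left _ hj.2
        _ ≤ M := Nat.mul_div_le M l
  · intro a _ b _ hab
    exact Nat.eq_of_mul_eq_mul_left hl hab
  · intro n hn
    simp only [coe_filter, mem_Icc, Set.mem_ofPred_eq] at hn
    obtain ⟨⟨h1, h2⟩, j, rfl⟩ := hn
    refine ⟨j, ?_, rfl⟩
    simp only [coe_Icc, Set.mem_Icc]
    refine ⟨?_, ?_⟩
    · rcases Nat.eq_zero_or_pos j with h | h
      · subst h; simp at h1
      · exact h
    · exact (Nat.le_div_iff_mul_le hl).2 (by rw [mul_comm]; exact h2)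
  · intro j _; rfl

private lemma muSum_mobius (k : ℕ) (hk : 1 ≤ k) :
    ∑ d ∈ k.divisors, (ArithmeticFunction.moebius d : ℝ) = if k = 1 then 1 else 0 := by
  have h := congrArg (fun f => f k) ArithmeticFunction.moebius_mul_coe_zeta
  simp only [ArithmeticFunction.coe_mul_zeta_apply, ArithmeticFunction.one_apply] at h
  have h2 : ((∑ d ∈ k.divisors, ArithmeticFunction.moebius d : ℤ) : ℝ) = ((if k = 1 then 1 else 0 : ℤ) : ℝ) := by
    rw [h]
  push_cast at h2
  exact h2

private lemma muSum_B (r M : ℕ) (hr : 1 ≤ r) (g : ℕ → ℝ) :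
    ∑ n ∈ (Icc 1 M).filter (fun n => Nat.Coprime n r), g n =
      ∑ l ∈ r.divisors, (ArithmeticFunction.moebius l : ℝ) * ∑ j ∈ Icc 1 (M / l), g (l * j) := by
  have h1 : ∀ l ∈ r.divisors, (ArithmeticFunction.moebius l : ℝ) * ∑ j ∈ Icc 1 (M / l), g (l * j) =
      ∑ n ∈ Icc 1 M, if l ∣ n then (ArithmeticFunction.moebius l : ℝ) * g n else 0 := by
    intro l hl
    have hl1 : 1 ≤ l := Nat.pos_of_mem_divisors hl
    rw [← muSum_mult M l hl1 g, Finset.mul_sum, Finset.sum_filter]
  rw [Finset.sum_congr rfl h1, Finset.sum_comm, Finset.sum_filter]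
  refine Finset.sum_congr rfl ?_
  intro n hn
  rw [mem_Icc] at hn
  rw [← Finset.sum_filter]
  have h2 : r.divisors.filter (fun l => l ∣ n) = (Nat.gcd n r).divisors := by
    ext l
    simp only [mem_filter, Nat.mem_divisors, Nat.dvd_gcd_iff]
    constructor
    · rintro ⟨⟨h3, h4⟩, h5⟩
      exact ⟨⟨h5, h3⟩, Nat.gcd_ne_zero_right h4⟩
    · rintro ⟨⟨h3, h4⟩, h5⟩
      exact ⟨⟨h4, by omega⟩, h3⟩
  rw [h2, ← Finset.sum_mul, muSum_mobius _ (Nat.gcd_pos_of_pos_right n hr)]
  by_cases h : Nat.Coprime n r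
  · rw [if_pos h, if_pos h, one_mul]
  · rw [if_neg h, if_neg h, zero_mul]

private lemma muSum_A (r N : ℕ) (hN : 1 ≤ N) (g : ℕ → ℝ) :
    ∑ d ∈ (Icc 1 N).filter (fun d => Nat.Coprime d r), (ArithmeticFunction.moebius d : ℝ) *
      ∑ n ∈ (Icc 1 (N / d)).filter (fun n => Nat.Coprime n r), g (d * n) = g 1 := by
  set f : ℕ → ℝ := fun k => if Nat.Coprime k r then g k else 0 with hf
  have h1 : ∀ d ∈ (Icc 1 N).filter (fun d => Nat.Coprime d r), (ArithmeticFunction.moebius d : ℝ) *
      ∑ n ∈ (Icc 1 (N / d)).filter (fun n => Nat.Coprime n r), g (d * n) =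
      ∑ k ∈ Icc 1 N, if d ∣ k then (ArithmeticFunction.moebius d : ℝ) * f k else 0 := by
    intro d hd
    rw [mem_filter, mem_Icc] at hd
    rw [← Finset.sum_filter, ← Finset.mul_sum, muSum_mult N d hd.1.1 f, Finset.sum_filter]
    congr 1
    refine Finset.sum_congr rfl ?_
    intro n _
    simp only [hf]
    have h2 : Nat.Coprime (d * n) r ↔ Nat.Coprime n r := by
      rw [Nat.coprime_mul_iff_left]
      exact ⟨fun h => h.2, fun h => ⟨hd.2, h⟩⟩
    by_cases h : Nat.Coprime n r
    · rw [if_pos h, if_pos (h2.2 h)]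
    · rw [if_neg h, if_neg (fun h3 => h (h2.1 h3))]
  rw [Finset.sum_congr rfl h1, Finset.sum_comm]
  have h3 : ∀ k ∈ Icc 1 N, (∑ d ∈ (Icc 1 N).filter (fun d => Nat.Coprime d r),
      if d ∣ k then (ArithmeticFunction.moebius d : ℝ) * f k else 0) = if k = 1 then g 1 else 0 := by
    intro k hk
    rw [mem_Icc] at hk
    rw [← Finset.sum_filter, Finset.filter_filter]
    by_cases hc : Nat.Coprime k r
    · have h4 : (Icc 1 N).filter (fun d => Nat.Coprime d r ∧ d ∣ k) = k.divisors := by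
        ext d
        simp only [mem_filter, mem_Icc, Nat.mem_divisors]
        constructor
        · rintro ⟨_, _, h⟩
          exact ⟨h, by omega⟩
        · rintro ⟨h5, _⟩
          refine ⟨⟨Nat.pos_of_dvd_of_pos h5 (by omega), (Nat.le_of_dvd (by omega) h5).trans hk.2⟩, ?_, h5⟩
          exact Nat.Coprime.coprime_dvd_left h5 hc
      rw [h4, ← Finset.sum_mul, muSum_mobius k hk.1]
      by_cases h6 : k = 1
      · subst h6
        simp [hf]
      · rw [if_neg h6, if_neg h6, zero_mul]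
    · have h6 : k ≠ 1 := by
        rintro rfl
        exact hc (Nat.coprime_one_left r)
      rw [if_neg h6]
      refine Finset.sum_eq_zero ?_
      intro d _
      simp [hf, hc]
  rw [Finset.sum_congr rfl h3, Finset.sum_ite_eq' (Icc 1 N) 1 (fun _ => g 1)]
  simp [hN]

private lemma muSum_P (r : ℕ) (hr : 1 ≤ r) :
    ∑ l ∈ r.divisors, (ArithmeticFunction.moebius l : ℝ) / l = (Nat.totient r : ℝ) / r := by
  have h := muSum_B r r hr (fun _ => 1)
  simp only [Finset.sum_const, Nat.card_Icc, add_tsub_cancel_right, nsmul_eq_mul, mul_one] at h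
  have h2 : (Icc 1 r).filter (fun n => Nat.Coprime n r) = (Ico 1 (1 + r)).filter (fun n => r.Coprime n) := by
    ext n
    simp only [mem_filter, mem_Icc, mem_Ico, Nat.coprime_comm (n := n)]
    constructor
    · rintro ⟨⟨a, b⟩, c⟩; exact ⟨⟨a, by omega⟩, c⟩
    · rintro ⟨⟨a, b⟩, c⟩; exact ⟨⟨a, by omega⟩, c⟩
  rw [h2, Nat.filter_coprime_Ico_eq_totient] at h
  have hr0 : (r : ℝ) ≠ 0 := by positivity
  rw [eq_div_iff hr0, h, Finset.sum_mul]
  refine Finset.sum_congr rfl ?_
  intro l hl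
  have hl1 : 1 ≤ l := Nat.pos_of_mem_divisors hl
  have hl0 : (l : ℝ) ≠ 0 := by positivity
  rw [Nat.cast_div (Nat.dvd_of_mem_divisors hl) hl0]
  ring

private lemma muSum_tau (r : ℕ) : r ≤ r.divisors.card * Nat.totient r := by
  rcases Nat.eq_zero_or_pos r with h | h
  · subst h; simp
  calc r = ∑ d ∈ r.divisors, Nat.totient d := (Nat.sum_totient r).symm
    _ ≤ ∑ d ∈ r.divisors, Nat.totient r := by
        refine Finset.sum_le_sum ?_
        intro d hd
        exact Nat.le_of_dvd (Nat.totient_pos.2 h) (Nat.totient_dvd_of_dvd (Nat.dvd_of_mem_divisors hd))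
    _ = r.divisors.card * Nat.totient r := by rw [Finset.sum_const, smul_eq_mul]

private lemma muSum_E (y : ℝ) (hy : 0 < y) :
    |∑ j ∈ Icc 1 ⌊y⌋₊, (1 : ℝ) / j - Real.log y - Real.eulerMascheroniConstant| ≤ 2 / y := by
  have hH : ∀ k : ℕ, ∑ j ∈ Icc 1 k, (1 : ℝ) / j = ((harmonic k : ℚ) : ℝ) := by
    intro k
    rw [harmonic_eq_sum_Icc]
    push_cast
    refine Finset.sum_congr rfl ?_
    intro j _
    rw [one_div]
  have hg1 := Real.one_half_lt_eulerMascheroniConstant
  have hg2 := Real.eulerMascheroniConstant_lt_two_thirds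
  rcases lt_or_ge y 1 with h | h
  · have h0 : ⌊y⌋₊ = 0 := Nat.floor_eq_zero.2 h
    rw [h0]
    simp only [zero_lt_one, Icc_eq_empty_of_lt, sum_empty, zero_sub]
    have h1 : Real.log y ≤ 0 := Real.log_nonpos hy.le h.le
    have h2 : Real.log y⁻¹ ≤ y⁻¹ - 1 := Real.log_le_sub_one_of_pos (by positivity)
    rw [Real.log_inv] at h2
    have h3 : (1 : ℝ) ≤ y⁻¹ := (one_le_inv₀ hy).2 h.le
    rw [abs_le]
    have h4 : 2 / y = 2 * y⁻¹ := by rw [div_eq_mul_inv]
    rw [h4]
    constructor <;> linarith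
  · set k := ⌊y⌋₊ with hk
    have hk1 : 1 ≤ k := (Nat.one_le_floor_iff y).2 h
    have hky : (k : ℝ) ≤ y := Nat.floor_le hy.le
    have hyk : y < k + 1 := Nat.lt_floor_add_one y
    have hk0 : (0 : ℝ) < k := by exact_mod_cast hk1
    have hk1' : (1 : ℝ) ≤ k := by exact_mod_cast hk1
    rw [hH]
    have ha := Real.eulerMascheroniSeq_lt_eulerMascheroniConstant k
    have hb := Real.eulerMascheroniConstant_lt_eulerMascheroniSeq' k
    rw [Real.eulerMascheroniSeq] at ha
    rw [Real.eulerMascheroniSeq', if_neg (by omega)] at hb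
    have h1 : Real.log ((k + 1) / y) ≤ (k + 1) / y - 1 := Real.log_le_sub_one_of_pos (by positivity)
    rw [Real.log_div (by positivity) (by positivity)] at h1
    have h2 : Real.log (y / k) ≤ y / k - 1 := Real.log_le_sub_one_of_pos (by positivity)
    rw [Real.log_div (by positivity) (by positivity)] at h2
    have h3 : ((k : ℝ) + 1) / y - 1 ≤ 2 / y := by
      rw [div_sub_one hy.ne', div_le_div_iff_of_pos_right hy]
      linarith
    have h4 : y / k - 1 ≤ 2 / y := by
      rw [div_sub_one hk0.ne', div_le_div_iff₀ hk0 hy]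
      nlinarith
    rw [abs_le]
    constructor <;> linarith

theorem mu_sum_bound : ∃ C : ℝ, 0 < C ∧ ∀ (r : ℕ), 1 ≤ r → ∀ z : ℝ, 1 ≤ z →
    |∑ d ∈ (Icc 1 ⌊z⌋₊).filter (fun d => Nat.Coprime d r),
      (ArithmeticFunction.moebius d : ℝ) / d * Real.log (z / d)| ≤
        C * (r.divisors.card : ℝ) ^ 4 := by
  refine ⟨7, by norm_num, ?_⟩
  intro r hr z hz
  set N := ⌊z⌋₊ with hN
  have hz0 : 0 < z := by linarith
  have hN1 : 1 ≤ N := (Nat.one_le_floor_iff z).2 hz
  have hNz : (N : ℝ) ≤ z := Nat.floor_le hz0.le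
  set S := (Icc 1 N).filter (fun d => Nat.Coprime d r) with hS
  set τ : ℝ := (r.divisors.card : ℝ) with hτ
  have hτ1 : 1 ≤ τ := by
    have : 1 ≤ r.divisors.card := Finset.card_pos.2 ⟨1, Nat.one_mem_divisors.2 (by omega)⟩
    rw [hτ]; exact_mod_cast this
  have hr0 : (0 : ℝ) < r := by exact_mod_cast hr
  set P : ℝ := (Nat.totient r : ℝ) / r with hP
  have hPτ : 1 ≤ τ * P := by
    have h := muSum_tau r
    have h2 : (r : ℝ) ≤ τ * (Nat.totient r : ℝ) := by rw [hτ]; exact_mod_cast h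
    rw [hP, ← mul_div_assoc, le_div_iff₀ hr0]
    linarith
  have hP0 : 0 ≤ P := by positivity
  have hPsum := muSum_P r hr
  have hSmem : ∀ d ∈ S, 1 ≤ d ∧ d ≤ N := by
    intro d hd
    rw [hS, mem_filter, mem_Icc] at hd
    exact hd.1
  have hScard : (S.card : ℝ) ≤ z := by
    have : S.card ≤ N := by
      calc S.card ≤ (Icc 1 N).card := Finset.card_filter_le _ _
        _ = N := by simp
    calc (S.card : ℝ) ≤ N := by exact_mod_cast this
      _ ≤ z := hNz
  have hmu : ∀ d : ℕ, |(ArithmeticFunction.moebius d : ℝ)| ≤ 1 := by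
    intro d
    have := ArithmeticFunction.abs_moebius_le_one (n := d)
    exact_mod_cast this
  have hfl : ∀ d l : ℕ, N / d / l = ⌊z / ((d : ℝ) * l)⌋₊ := by
    intro d l
    rw [hN, ← Nat.floor_div_natCast, ← Nat.floor_div_natCast, div_div]
  -- the sum of μ(d)/d
  set m : ℝ := ∑ d ∈ S, (ArithmeticFunction.moebius d : ℝ) / d with hm
  have hm1 : |m| * P ≤ 2 * τ := by
    have hA := muSum_A r N hN1 (fun _ => 1)
    have h1 : ∀ d ∈ S, (ArithmeticFunction.moebius d : ℝ) *
        ∑ n ∈ (Icc 1 (N / d)).filter (fun n => Nat.Coprime n r), (1 : ℝ) =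
        (ArithmeticFunction.moebius d : ℝ) / d * (z * P) +
        (ArithmeticFunction.moebius d : ℝ) * ∑ l ∈ r.divisors, (ArithmeticFunction.moebius l : ℝ) *
          ((⌊z / ((d : ℝ) * l)⌋₊ : ℝ) - z / ((d : ℝ) * l)) := by
      intro d hd
      have hd1 := (hSmem d hd).1
      have hd0 : (0 : ℝ) < d := by exact_mod_cast hd1
      rw [muSum_B r (N / d) hr]
      have h2 : ∀ l ∈ r.divisors, (ArithmeticFunction.moebius l : ℝ) * ∑ j ∈ Icc 1 (N / d / l), (1 : ℝ) =
          (ArithmeticFunction.moebius l : ℝ) / l * (z / d) + (ArithmeticFunction.moebius l : ℝ) *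
          ((⌊z / ((d : ℝ) * l)⌋₊ : ℝ) - z / ((d : ℝ) * l)) := by
        intro l hl
        have hl1 : 1 ≤ l := Nat.pos_of_mem_divisors hl
        have hl0 : (0 : ℝ) < l := by exact_mod_cast hl1
        rw [hfl, Finset.sum_const, Nat.card_Icc, nsmul_eq_mul, mul_one, Nat.add_sub_cancel]
        field_simp
        ring
      rw [Finset.sum_congr rfl h2, Finset.sum_add_distrib, ← Finset.sum_mul, hPsum]
      ring
    rw [← hS] at hA
    rw [Finset.sum_congr rfl h1, Finset.sum_add_distrib, ← Finset.sum_mul, ← hm] at hA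
    have h3 : |∑ d ∈ S, (ArithmeticFunction.moebius d : ℝ) * ∑ l ∈ r.divisors, (ArithmeticFunction.moebius l : ℝ) *
          ((⌊z / ((d : ℝ) * l)⌋₊ : ℝ) - z / ((d : ℝ) * l))| ≤ z * τ := by
      calc |∑ d ∈ S, (ArithmeticFunction.moebius d : ℝ) * ∑ l ∈ r.divisors, (ArithmeticFunction.moebius l : ℝ) *
          ((⌊z / ((d : ℝ) * l)⌋₊ : ℝ) - z / ((d : ℝ) * l))| ≤ ∑ d ∈ S, τ := by
            refine (Finset.abs_sum_le_sum_abs _ _).trans (Finset.sum_le_sum ?_)
            intro d hd
            have hd1 := (hSmem d hd).1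
            have hd0 : (0 : ℝ) < d := by exact_mod_cast hd1
            rw [abs_mul]
            have h4 : |∑ l ∈ r.divisors, (ArithmeticFunction.moebius l : ℝ) *
              ((⌊z / ((d : ℝ) * l)⌋₊ : ℝ) - z / ((d : ℝ) * l))| ≤ τ := by
              calc _ ≤ ∑ l ∈ r.divisors, (1 : ℝ) := by
                    refine (Finset.abs_sum_le_sum_abs _ _).trans (Finset.sum_le_sum ?_)
                    intro l hl
                    rw [abs_mul]
                    have h5 : |(⌊z / ((d : ℝ) * l)⌋₊ : ℝ) - z / ((d : ℝ) * l)| ≤ 1 := by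
                      have h6 := Nat.floor_le (a := z / ((d : ℝ) * l)) (by positivity)
                      have h7 := Nat.lt_floor_add_one (z / ((d : ℝ) * l))
                      rw [abs_le]; constructor <;> linarith
                    calc _ ≤ (1 : ℝ) * 1 := mul_le_mul (hmu l) h5 (abs_nonneg _) (by norm_num)
                      _ = 1 := by norm_num
                _ = τ := by simp [hτ]
            calc _ ≤ 1 * τ := mul_le_mul (hmu d) h4 (abs_nonneg _) (by norm_num)
              _ = τ := one_mul _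
        _ = S.card * τ := by rw [Finset.sum_const, nsmul_eq_mul]
        _ ≤ z * τ := by gcongr
    have h4 : |m * (z * P)| ≤ 2 * τ * z := by
      have h5 : m * (z * P) = 1 - ∑ d ∈ S, (ArithmeticFunction.moebius d : ℝ) * ∑ l ∈ r.divisors, (ArithmeticFunction.moebius l : ℝ) *
          ((⌊z / ((d : ℝ) * l)⌋₊ : ℝ) - z / ((d : ℝ) * l)) := by linarith
      rw [h5]
      calc _ ≤ |(1 : ℝ)| + |∑ d ∈ S, (ArithmeticFunction.moebius d : ℝ) * ∑ l ∈ r.divisors, (ArithmeticFunction.moebius l : ℝ) *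
          ((⌊z / ((d : ℝ) * l)⌋₊ : ℝ) - z / ((d : ℝ) * l))| := abs_sub _ _
        _ ≤ 1 + z * τ := by rw [abs_one]; gcongr
        _ ≤ 2 * τ * z := by nlinarith
    rw [abs_mul, abs_mul, abs_of_pos hz0, abs_of_nonneg hP0] at h4
    have h5 : |m| * P * z ≤ 2 * τ * z := by linarith
    exact le_of_mul_le_mul_right h5 hz0
  have hm2 : |m| ≤ 2 * τ ^ 2 := by
    calc |m| = |m| * 1 := (mul_one _).symm
      _ ≤ |m| * (τ * P) := by gcongr
      _ = τ * (|m| * P) := by ring
      _ ≤ τ * (2 * τ) := by gcongr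
      _ = 2 * τ ^ 2 := by ring
  -- the sum of μ(d)/d log(z/d)
  set γ := Real.eulerMascheroniConstant with hγ
  have hγ0 : 0 < γ := by have := Real.one_half_lt_eulerMascheroniConstant; linarith
  have hγ1 : γ < 1 := by have := Real.eulerMascheroniConstant_lt_two_thirds; linarith
  set h : ℝ := ∑ d ∈ S, (ArithmeticFunction.moebius d : ℝ) / d * Real.log (z / d) with hh
  set κ : ℝ := ∑ l ∈ r.divisors, (ArithmeticFunction.moebius l : ℝ) / l * (γ - Real.log l) with hκ
  set E : ℝ → ℝ := fun y => ∑ j ∈ Icc 1 ⌊y⌋₊, (1 : ℝ) / j - Real.log y - γ with hE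
  have hκ1 : |κ| ≤ τ := by
    calc |κ| ≤ ∑ l ∈ r.divisors, (1 : ℝ) := by
          refine (Finset.abs_sum_le_sum_abs _ _).trans (Finset.sum_le_sum ?_)
          intro l hl
          have hl1 : 1 ≤ l := Nat.pos_of_mem_divisors hl
          have hl0 : (0 : ℝ) < l := by exact_mod_cast hl1
          have hl1' : (1 : ℝ) ≤ l := by exact_mod_cast hl1
          rw [abs_mul, abs_div, abs_of_pos hl0]
          have h1 : |γ - Real.log l| ≤ l := by
            have h2 : Real.log l ≤ l - 1 := Real.log_le_sub_one_of_pos hl0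
            have h3 : 0 ≤ Real.log l := Real.log_nonneg hl1'
            rw [abs_le]; constructor <;> linarith
          calc |(ArithmeticFunction.moebius l : ℝ)| / l * |γ - Real.log l| ≤ 1 / l * l := by
                gcongr
                exact hmu l
            _ = 1 := by field_simp
      _ = τ := by simp [hτ]
  have hA := muSum_A r N hN1 (fun k => 1 / (k : ℝ))
  have h1 : ∀ d ∈ S, (ArithmeticFunction.moebius d : ℝ) *
      ∑ n ∈ (Icc 1 (N / d)).filter (fun n => Nat.Coprime n r), (1 : ℝ) / ((d * n : ℕ) : ℝ) =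
      (ArithmeticFunction.moebius d : ℝ) / d * Real.log (z / d) * P +
      (ArithmeticFunction.moebius d : ℝ) / d * κ +
      (ArithmeticFunction.moebius d : ℝ) / d * ∑ l ∈ r.divisors, (ArithmeticFunction.moebius l : ℝ) / l *
        E (z / ((d : ℝ) * l)) := by
    intro d hd
    have hd1 := (hSmem d hd).1
    have hd0 : (0 : ℝ) < d := by exact_mod_cast hd1
    rw [muSum_B r (N / d) hr]
    have h2 : ∀ l ∈ r.divisors, (ArithmeticFunction.moebius l : ℝ) *
        ∑ j ∈ Icc 1 (N / d / l), (1 : ℝ) / ((d * (l * j) : ℕ) : ℝ) =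
        1 / (d : ℝ) * ((ArithmeticFunction.moebius l : ℝ) / l * Real.log (z / d) +
        (ArithmeticFunction.moebius l : ℝ) / l * (γ - Real.log l) +
        (ArithmeticFunction.moebius l : ℝ) / l * E (z / ((d : ℝ) * l))) := by
      intro l hl
      have hl1 : 1 ≤ l := Nat.pos_of_mem_divisors hl
      have hl0 : (0 : ℝ) < l := by exact_mod_cast hl1
      rw [hfl]
      have h3 : ∑ j ∈ Icc 1 ⌊z / ((d : ℝ) * l)⌋₊, (1 : ℝ) / ((d * (l * j) : ℕ) : ℝ) =
          1 / (d : ℝ) * (1 / l) * ∑ j ∈ Icc 1 ⌊z / ((d : ℝ) * l)⌋₊, (1 : ℝ) / j := by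
        rw [Finset.mul_sum]
        refine Finset.sum_congr rfl ?_
        intro j hj
        rw [mem_Icc] at hj
        have hj0 : (0 : ℝ) < j := by exact_mod_cast hj.1
        push_cast
        field_simp
      rw [h3]
      have h4 : ∑ j ∈ Icc 1 ⌊z / ((d : ℝ) * l)⌋₊, (1 : ℝ) / j =
          Real.log (z / d) - Real.log l + γ + E (z / ((d : ℝ) * l)) := by
        simp only [hE]
        rw [← div_div, Real.log_div (x := z / d) (by positivity) (by positivity)]
        ring
      rw [h4]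
      ring
    rw [Finset.sum_congr rfl h2, ← Finset.mul_sum, Finset.sum_add_distrib, Finset.sum_add_distrib,
      ← Finset.sum_mul, hPsum, ← hκ]
    ring
  rw [← hS] at hA
  have h1' : ∑ d ∈ S, (ArithmeticFunction.moebius d : ℝ) *
      ∑ n ∈ (Icc 1 (N / d)).filter (fun n => Nat.Coprime n r), (1 : ℝ) / ((d * n : ℕ) : ℝ) = 1 := by
    rw [hA]; norm_num
  rw [Finset.sum_congr rfl h1, Finset.sum_add_distrib, Finset.sum_add_distrib, ← Finset.sum_mul,
    ← Finset.sum_mul, ← hm, ← hh] at h1'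
  set R : ℝ := ∑ d ∈ S, (ArithmeticFunction.moebius d : ℝ) / d * ∑ l ∈ r.divisors,
    (ArithmeticFunction.moebius l : ℝ) / l * E (z / ((d : ℝ) * l)) with hR
  have hR1 : |R| ≤ 2 * τ := by
    calc |R| ≤ ∑ d ∈ S, 2 * τ / z := by
          refine (Finset.abs_sum_le_sum_abs _ _).trans (Finset.sum_le_sum ?_)
          intro d hd
          have hd1 := (hSmem d hd).1
          have hd0 : (0 : ℝ) < d := by exact_mod_cast hd1
          rw [abs_mul, abs_div, abs_of_pos hd0]
          have h4 : |∑ l ∈ r.divisors, (ArithmeticFunction.moebius l : ℝ) / l * E (z / ((d : ℝ) * l))| ≤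
              τ * (2 * d / z) := by
            calc _ ≤ ∑ l ∈ r.divisors, 2 * (d : ℝ) / z := by
                  refine (Finset.abs_sum_le_sum_abs _ _).trans (Finset.sum_le_sum ?_)
                  intro l hl
                  have hl1 : 1 ≤ l := Nat.pos_of_mem_divisors hl
                  have hl0 : (0 : ℝ) < l := by exact_mod_cast hl1
                  rw [abs_mul, abs_div, abs_of_pos hl0]
                  have h5 : |E (z / ((d : ℝ) * l))| ≤ 2 / (z / ((d : ℝ) * l)) :=
                    muSum_E _ (by positivity)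
                  calc |(ArithmeticFunction.moebius l : ℝ)| / l * |E (z / ((d : ℝ) * l))| ≤
                      1 / l * (2 / (z / ((d : ℝ) * l))) := by
                        gcongr
                        exact hmu l
                    _ = 2 * (d : ℝ) / z := by field_simp
              _ = τ * (2 * d / z) := by rw [Finset.sum_const, nsmul_eq_mul]
          calc |(ArithmeticFunction.moebius d : ℝ)| / d * _ ≤ 1 / d * (τ * (2 * d / z)) := by
                gcongr
                exact hmu d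
            _ = 2 * τ / z := by field_simp
      _ = S.card * (2 * τ / z) := by rw [Finset.sum_const, nsmul_eq_mul]
      _ ≤ z * (2 * τ / z) := by gcongr
      _ = 2 * τ := by field_simp
  have hmκ : |m * κ| ≤ 2 * τ ^ 3 := by
    rw [abs_mul]
    calc |m| * |κ| ≤ (2 * τ ^ 2) * τ := by gcongr
      _ = 2 * τ ^ 3 := by ring
  have hhP : |h * P| ≤ 1 + 2 * τ ^ 3 + 2 * τ := by
    have h2 : h * P = 1 - m * κ - R := by linarith
    rw [h2]
    have h3 := abs_le.1 hmκ
    have h4 := abs_le.1 hR1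
    rw [abs_le]; constructor <;> linarith
  rw [abs_mul, abs_of_nonneg hP0] at hhP
  have hτ3 : τ ≤ τ ^ 3 := by nlinarith [sq_nonneg (τ - 1), mul_pos (by linarith : (0:ℝ) < τ) (by linarith : (0:ℝ) < τ)]
  have hτ31 : 1 ≤ τ ^ 3 := one_le_pow₀ hτ1
  calc |h| = |h| * 1 := (mul_one _).symm
    _ ≤ |h| * (τ * P) := by gcongr
    _ = τ * (|h| * P) := by ring
    _ ≤ τ * (1 + 2 * τ ^ 3 + 2 * τ) := by gcongr
    _ ≤ τ * (7 * τ ^ 3) := by gcongr; linarith
    _ = 7 * τ ^ 4 := by ring

end Pool.MP_dd84fd_nt.L2G
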