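import Pool.Agent.Lib.MP_dd84fd_nt.L2G.MinSum
import Pool.Agent.Lib.MP_dd84fd_nt.L2G.Avg

set_option autoImplicit false

namespace Pool.MP_dd84fd_nt.L2G

open Finset Pool.MP_67663b_nt.Odd

/-- Abel summation with a nonnegative nondecreasing weight. -/
private theorem redI2_abel (n : ℕ) : ∀ (g : ℕ → ℝ) (z : ℕ → ℂ) (B : ℝ), 0 ≤ g 0 →
    (∀ k, k < n → g k ≤ g (k + 1)) → (∀ j ≤ n, ‖∑ k ∈ Ico j (n + 1), z k‖ ≤ B) →
    ‖∑ k ∈ range (n + 1), (g k : ℂ) * z k‖ ≤ g n * B := by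
  induction n with
  | zero =>
    intro g z B h0 _ hB
    have h := hB 0 le_rfl
    simp only [Nat.Ico_zero_eq_range] at h
    simp only [zero_add, sum_range_one] at h ⊢
    rw [norm_mul, Complex.norm_real, Real.norm_of_nonneg h0]
    exact mul_le_mul_of_nonneg_left h h0
  | succ n ih =>
    intro g z B h0 hmono hB
    have hsplit : ∑ k ∈ range (n + 1 + 1), (g k : ℂ) * z k =
        (g 0 : ℂ) * ∑ k ∈ range (n + 1 + 1), z k +
          ∑ k ∈ range (n + 1), ((g (k + 1) - g 0 : ℝ) : ℂ) * z (k + 1) := by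
      rw [sum_range_succ' (fun k => (g k : ℂ) * z k), sum_range_succ' z, mul_add, mul_sum]
      have : ∑ k ∈ range (n + 1), ((g (k + 1) - g 0 : ℝ) : ℂ) * z (k + 1) =
          ∑ k ∈ range (n + 1), (g (k + 1) : ℂ) * z (k + 1) -
            ∑ k ∈ range (n + 1), (g 0 : ℂ) * z (k + 1) := by
        rw [← sum_sub_distrib]
        refine sum_congr rfl fun k _ => ?_
        push_cast
        ring
      rw [this]
      ring
    have h1 : ‖(g 0 : ℂ) * ∑ k ∈ range (n + 1 + 1), z k‖ ≤ g 0 * B := by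
      rw [norm_mul, Complex.norm_real, Real.norm_of_nonneg h0]
      refine mul_le_mul_of_nonneg_left ?_ h0
      have := hB 0 (Nat.zero_le _)
      rwa [Nat.Ico_zero_eq_range] at this
    have hmono0 : ∀ k ≤ n + 1, g 0 ≤ g k := by
      intro k
      induction k with
      | zero => intro _; exact le_rfl
      | succ k ihk => intro hk; exact (ihk (by omega)).trans (hmono k (by omega))
    have h2 := ih (fun k => g (k + 1) - g 0) (fun k => z (k + 1)) B
      (by simpa using hmono0 1 (by omega))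
      (fun k hk => by simpa using hmono (k + 1) (by omega))
      (fun j hj => by
        have := hB (j + 1) (by omega)
        rw [← Finset.sum_Ico_add' z j (n + 1) 1] at this
        exact this)
    rw [hsplit]
    refine (norm_add_le _ _).trans ?_
    have h3 : (g (n + 1) - g 0) * B + g 0 * B = g (n + 1) * B := by ring
    have h2' : ‖∑ k ∈ range (n + 1), ((g (k + 1) - g 0 : ℝ) : ℂ) * z (k + 1)‖ ≤
        (g (n + 1) - g 0) * B := h2
    linarith

/-- A downward closed condition cuts out an initial segment. -/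
private theorem redI2_seg {M : Type*} [AddCommMonoid M] (a n : ℕ) (P : ℕ → Prop) [DecidablePred P]
    (hP : ∀ k, P (k + 1) → P k) (f : ℕ → M) :
    ∃ c ≤ n, ∑ k ∈ Ico a (a + n), (if P k then f k else 0) = ∑ k ∈ Ico a (a + c), f k := by
  induction n with
  | zero => exact ⟨0, le_rfl, by simp⟩
  | succ n ih =>
    obtain ⟨c, hc, h⟩ := ih
    by_cases hPn : P (a + n)
    · refine ⟨n + 1, le_rfl, ?_⟩
      have hall : ∀ j ≤ n, P (a + n - j) := by
        intro j
        induction j with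
        | zero => intro _; simpa using hPn
        | succ j ihj =>
          intro hj
          apply hP
          have : a + n - (j + 1) + 1 = a + n - j := by omega
          rw [this]
          exact ihj (by omega)
      refine sum_congr rfl fun k hk => ?_
      rw [mem_Ico] at hk
      have := hall (a + n - k) (by omega)
      rw [show a + n - (a + n - k) = k by omega] at this
      rw [if_pos this]
    · refine ⟨c, hc.trans (Nat.le_succ _), ?_⟩
      rw [← add_assoc, sum_Ico_succ_top (by omega), if_neg hPn, add_zero, h]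

private theorem redI2_E (N1 : ℕ) (g : ℕ → ℝ) (G x : ℝ) (hN : 1 ≤ N1)
    (hg : ∀ k ∈ Ico N1 (2 * N1), 0 ≤ g k ∧ g k ≤ G) (hmono : MonotoneOn g (Set.Ico N1 (2 * N1)))
    (P : ℕ → Prop) [DecidablePred P] (hP : ∀ k, P (k + 1) → P k) :
    ‖∑ k ∈ Ico N1 (2 * N1), (if P k then (g k : ℂ) * ee (k * x) else 0)‖ ≤ G * mn N1 x := by
  have hG : 0 ≤ G := by
    have := hg N1 (by rw [mem_Ico]; omega)
    linarith [this.1, this.2]
  have hmn : 0 ≤ mn N1 x := mn_nonneg _ _ (by positivity)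
  obtain ⟨c, hc, h⟩ := redI2_seg N1 N1 P hP (fun k => (g k : ℂ) * ee (k * x))
  rw [two_mul, h]
  rcases Nat.eq_zero_or_pos c with hc0 | hc0
  · subst hc0
    simp only [add_zero, Ico_self, sum_empty, norm_zero]
    positivity
  obtain ⟨n, rfl⟩ : ∃ n, c = n + 1 := ⟨c - 1, by omega⟩
  have e1 : ∑ k ∈ Ico N1 (N1 + (n + 1)), (g k : ℂ) * ee (k * x) =
      ∑ k ∈ range (n + 1), (g (N1 + k) : ℂ) * ee ((N1 + k : ℕ) * x) := by
    rw [sum_Ico_eq_sum_range]
    have : N1 + (n + 1) - N1 = n + 1 := by omega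
    rw [this]
  rw [e1]
  have hB := redI2_abel n (fun k => g (N1 + k)) (fun k => ee ((N1 + k : ℕ) * x)) (mn N1 x)
    (hg (N1 + 0) (by rw [mem_Ico]; omega)).1
    (fun k hk => by
      apply hmono
      · rw [Set.mem_Ico]; omega
      · rw [Set.mem_Ico]; omega
      · omega)
    (fun j hj => by
      have e2 : ∑ k ∈ Ico j (n + 1), ee ((N1 + k : ℕ) * x) =
          ∑ k ∈ Ioc (N1 + j - 1) (N1 + n), ee ((k : ℝ) * x) := by
        have e3 : Ioc (N1 + j - 1) (N1 + n) = Ico (j + N1) (n + 1 + N1) := by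
          ext t
          rw [mem_Ioc, mem_Ico]
          omega
        rw [e3, ← Finset.sum_Ico_add' (fun k : ℕ => ee ((k : ℝ) * x)) j (n + 1) N1]
        refine sum_congr rfl fun k _ => ?_
        rw [add_comm]
      rw [e2]
      apply geo_sum
      · have : ((N1 + j - 1 : ℕ) : ℝ) = (N1 : ℝ) + j - 1 := by
          rw [Nat.cast_sub (by omega)]
          push_cast
          ring
        rw [this]
        push_cast
        have hn : (n : ℝ) + 1 ≤ N1 := by exact_mod_cast hc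
        have hj0 : (0 : ℝ) ≤ j := Nat.cast_nonneg j
        linarith
      · positivity)
  refine hB.trans ?_
  refine mul_le_mul_of_nonneg_right ?_ hmn
  exact (hg (N1 + n) (by rw [mem_Ico]; omega)).2

/-- decomposition of `mn` into levels -/
private theorem redI2_level (N1 J : ℕ) (x : ℝ) (hN : 1 ≤ N1) (hJ : N1 ≤ 2 ^ J) :
    mn N1 x ≤ N1 * ∑ i ∈ range (J + 1), (1 / 2 : ℝ) ^ i *
      (if nrm x ≤ 2 ^ i / N1 then 1 else 0) := by
  have hNpos : (0 : ℝ) < N1 := by exact_mod_cast hN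
  have hnn : ∀ i ∈ range (J + 1), 0 ≤ (1 / 2 : ℝ) ^ i * (if nrm x ≤ 2 ^ i / N1 then 1 else 0) := by
    intro i _
    split_ifs <;> positivity
  have hex : ∃ i, nrm x ≤ 2 ^ i / N1 := by
    refine ⟨J, ?_⟩
    have h1 : nrm x ≤ 1 / 2 := abs_sub_round x
    have h2 : (1 : ℝ) ≤ 2 ^ J / N1 := by
      rw [le_div_iff₀ hNpos, one_mul]
      exact_mod_cast hJ
    linarith
  classical
  set i0 := Nat.find hex with hi0
  have hi1 : nrm x ≤ 2 ^ i0 / N1 := Nat.find_spec hex
  have hi2 : i0 ≤ J := by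
    apply Nat.find_min' hex
    have h1 : nrm x ≤ 1 / 2 := abs_sub_round x
    have h2 : (1 : ℝ) ≤ 2 ^ J / N1 := by
      rw [le_div_iff₀ hNpos, one_mul]
      exact_mod_cast hJ
    linarith
  have hsum : (1 / 2 : ℝ) ^ i0 ≤ ∑ i ∈ range (J + 1), (1 / 2 : ℝ) ^ i *
      (if nrm x ≤ 2 ^ i / N1 then 1 else 0) := by
    refine le_trans ?_ (single_le_sum hnn (mem_range.2 (Nat.lt_succ_of_le hi2)))
    rw [if_pos hi1, mul_one]
  rcases Nat.eq_zero_or_pos i0 with h0 | h0
  · have : mn N1 x ≤ N1 := mn_le _ _ hNpos.le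
    rw [h0, pow_zero] at hsum
    nlinarith
  · have hnot : ¬ (nrm x ≤ 2 ^ (i0 - 1) / N1) := Nat.find_min hex (by omega)
    push Not at hnot
    have h2 : mn N1 x ≤ N1 * (1 / 2 : ℝ) ^ i0 := by
      have hpos : 0 < nrm x := lt_trans (by positivity) hnot
      have e : (2 : ℝ) ^ i0 = 2 * 2 ^ (i0 - 1) := by
        rw [← pow_succ']
        congr 1
        omega
      have hb : (2 : ℝ) ^ i0 < 2 * nrm x * N1 := by
        rw [e]
        rw [div_lt_iff₀ hNpos] at hnot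
        linarith
      unfold mn
      have h1 : (1 : ℝ) ≤ 2 ^ i0 := one_le_pow₀ (by norm_num)
      rw [if_neg (by linarith)]
      rw [div_le_iff₀ (by positivity)]
      have h3 : (1 / 2 : ℝ) ^ i0 * 2 ^ i0 = 1 := by
        rw [← mul_pow]
        norm_num
      have h4 : (0 : ℝ) < (1 / 2 : ℝ) ^ i0 := by positivity
      nlinarith
    refine h2.trans ?_
    exact mul_le_mul_of_nonneg_left hsum hNpos.le

/-- number of `k` at level `η` for the shift `c / q` -/
private noncomputable def redI2_n (q m N2 : ℕ) (θ η : ℝ) (c : ℕ) : ℕ :=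
  (((Ico N2 (2 * N2)).filter (fun k => Nat.Coprime k q)).filter
    (fun k : ℕ => nrm ((m : ℝ) * (k : ℝ) * (θ + (c : ℝ) / q)) ≤ η)).card

private theorem redI2_count (q m N2 : ℕ) (θ η : ℝ) (hq : 1 ≤ q) (hmq : Nat.Coprime m q) :
    ∑ c ∈ range q, (redI2_n q m N2 θ η c) ^ 2 ≤ Cnt q N2 (q * m * θ) (q * η) := by
  have hqpos : (0 : ℝ) < q := by exact_mod_cast hq
  unfold Cnt
  have h1 : ∀ c ∈ range q, (redI2_n q m N2 θ η c) ^ 2 =
      ∑ k ∈ (Ico N2 (2 * N2)).filter (fun k => Nat.Coprime k q),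
        ∑ k' ∈ (Ico N2 (2 * N2)).filter (fun k => Nat.Coprime k q),
          (if nrm (m * k * (θ + (c : ℝ) / q)) ≤ η ∧ nrm (m * k' * (θ + (c : ℝ) / q)) ≤ η
            then 1 else 0) := by
    intro c _
    unfold redI2_n
    rw [card_filter, sq, sum_mul_sum]
    refine sum_congr rfl fun k _ => sum_congr rfl fun k' _ => ?_
    split_ifs <;> simp_all
  rw [sum_congr rfl h1, sum_comm]
  refine sum_le_sum fun k hk => ?_
  rw [sum_comm]
  refine sum_le_sum fun k' hk' => ?_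
  rw [← card_filter]
  simp only [mem_filter, mem_Ico] at hk hk'
  set n : ℕ → ℕ → ℤ := fun k c => round (m * k * (θ + (c : ℝ) / q)) with hn
  refine card_le_card_of_injOn (fun c : ℕ => ((q : ℤ) * n k c - (m * k * c : ℕ),
    (q : ℤ) * n k' c - (m * k' * c : ℕ))) ?_ ?_
  · intro c hc
    simp only [coe_filter, mem_range, Set.mem_ofPred_eq] at hc
    obtain ⟨hcq, hc1, hc2⟩ := hc
    have key : ∀ k : ℕ, nrm (m * k * (θ + (c : ℝ) / q)) ≤ η →
        (q : ℤ) * n k c - (m * k * c : ℕ) ∈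
          Icc ⌈(q * m * θ : ℝ) * k - q * η⌉ ⌊(q * m * θ : ℝ) * k + q * η⌋ := by
      intro k hk1
      have h2 : |(m * k * (θ + (c : ℝ) / q) : ℝ) - n k c| ≤ η := hk1
      rw [abs_le] at h2
      have e1 : (q : ℝ) * (m * k * (θ + (c : ℝ) / q) - n k c) =
          q * m * θ * k - (q * n k c - m * k * c) := by
        field_simp
        ring
      have h3 : (q : ℝ) * (m * k * (θ + (c : ℝ) / q) - n k c) ≤ q * η :=
        mul_le_mul_of_nonneg_left h2.2 hqpos.le
      have h4 : (q : ℝ) * (-η) ≤ (q : ℝ) * (m * k * (θ + (c : ℝ) / q) - n k c) :=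
        mul_le_mul_of_nonneg_left h2.1 hqpos.le
      rw [e1] at h3 h4
      rw [mem_Icc]
      constructor
      · rw [Int.ceil_le]
        push_cast
        linarith
      · rw [Int.le_floor]
        push_cast
        linarith
    simp only [coe_filter, Set.mem_ofPred_eq, mem_product]
    refine ⟨⟨key k hc1, key k' hc2⟩, ?_⟩
    refine ⟨n k c * k' - n k' c * k, ?_⟩
    push_cast
    ring
  · intro c hc c' hc' heq
    simp only [coe_filter, mem_range, Set.mem_ofPred_eq] at hc hc'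
    simp only [Prod.mk.injEq] at heq
    have h2 := heq.1
    have h3 : ((q : ℕ) : ℤ) ∣ (m * k * c : ℕ) - ((m * k * c' : ℕ) : ℤ) := by
      refine ⟨n k c - n k c', ?_⟩
      linarith
    have h4 : m * k * c' ≡ m * k * c [MOD q] := (Nat.modEq_iff_dvd).2 h3
    have h5 : c' ≡ c [MOD q] := by
      apply Nat.ModEq.cancel_left_of_coprime _ h4
      exact (Nat.Coprime.mul_left hmq hk.2).symm
    have h6 := Nat.mod_eq_of_lt hc.1
    have h7 := Nat.mod_eq_of_lt hc'.1
    have h8 : c' % q = c % q := h5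
    omega

theorem red_I2 : ∃ C : ℝ, 0 < C ∧ ∀ (q m N1 N2 X J : ℕ) (g1 g2 : ℕ → ℝ) (G θ : ℝ), 1 ≤ q →
    Nat.Coprime m q → 1 ≤ N1 → 1 ≤ N2 → N1 ≤ 2 ^ J → (∀ k ∈ Ico N1 (2 * N1), 0 ≤ g1 k ∧ g1 k ≤ G) →
    MonotoneOn g1 (Set.Ico N1 (2 * N1)) → (∀ k ∈ Ico N2 (2 * N2), |g2 k| ≤ G) →
    ∑ b ∈ (range q).filter (Nat.Coprime q),
      ‖∑ k1 ∈ Ico N1 (2 * N1), ∑ k2 ∈ Ico N2 (2 * N2),
        if m * k1 * k2 ≤ X ∧ (m * k1 * k2) % q = b then
          ((g1 k1 * g2 k2 : ℝ) : ℂ) * ee (((m * k1 * k2 : ℕ) : ℝ) * θ) else 0‖ ^ 2 ≤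
      C * G ^ 4 * (J + 1) * ((N1 : ℝ) ^ 2 / q) * ∑ j ∈ range (J + 1),
        (1 / 4 : ℝ) ^ j * Cnt q N2 (q * m * θ) (q * 2 ^ j / N1) := by
  refine ⟨1, one_pos, ?_⟩
  intro q m N1 N2 X J g1 g2 G θ hq hmq hN1 hN2 hJ hg1 hmono hg2
  have hqpos : (0 : ℝ) < q := by exact_mod_cast hq
  have hN1pos : (0 : ℝ) < N1 := by exact_mod_cast hN1
  have hG : 0 ≤ G := by
    have := hg1 N1 (by rw [mem_Ico]; omega)
    linarith [this.1, this.2]
  set S2 := (Ico N2 (2 * N2)).filter (fun k => Nat.Coprime k q) with hS2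
  set a : ℕ → ℕ → ℂ := fun k1 k2 => if m * k1 * k2 ≤ X then
    ((g1 k1 * g2 k2 : ℝ) : ℂ) * ee (((m * k1 * k2 : ℕ) : ℝ) * θ) else 0 with ha
  set D : ℕ → ℂ := fun b => ∑ k1 ∈ Ico N1 (2 * N1), ∑ k2 ∈ S2,
    if (m * k1 * k2) % q = b then a k1 k2 else 0 with hD
  -- Step 1
  have step1 : ∀ b ∈ (range q).filter (Nat.Coprime q),
      (∑ k1 ∈ Ico N1 (2 * N1), ∑ k2 ∈ Ico N2 (2 * N2),
        if m * k1 * k2 ≤ X ∧ (m * k1 * k2) % q = b then
          ((g1 k1 * g2 k2 : ℝ) : ℂ) * ee (((m * k1 * k2 : ℕ) : ℝ) * θ) else 0) = D b := by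
    intro b hb
    rw [mem_filter] at hb
    rw [hD]
    refine sum_congr rfl fun k1 _ => ?_
    rw [hS2, sum_filter]
    refine sum_congr rfl fun k2 _ => ?_
    by_cases h2 : (m * k1 * k2) % q = b
    · have hcop : Nat.Coprime k2 q := by
        have h3 : Nat.Coprime q (m * k1 * k2) := by
          have h4 := hb.2
          rw [← h2] at h4
          unfold Nat.Coprime at h4 ⊢
          rw [Nat.gcd_rec, Nat.gcd_comm]
          exact h4
        exact (Nat.Coprime.coprime_mul_left_right h3).symm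
      rw [if_pos hcop, if_pos h2, ha]
      by_cases h5 : m * k1 * k2 ≤ X
      · simp only [h5, h2, and_self, if_true]
      · simp only [h5, false_and, if_false]
    · simp only [h2, and_false, if_false]
      split_ifs <;> rfl
  have step2 : ∑ b ∈ (range q).filter (Nat.Coprime q),
      ‖∑ k1 ∈ Ico N1 (2 * N1), ∑ k2 ∈ Ico N2 (2 * N2),
        if m * k1 * k2 ≤ X ∧ (m * k1 * k2) % q = b then
          ((g1 k1 * g2 k2 : ℝ) : ℂ) * ee (((m * k1 * k2 : ℕ) : ℝ) * θ) else 0‖ ^ 2 ≤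
      (∑ j ∈ range q, ‖∑ b ∈ range q, D b * ee (b * ((j : ℝ) / q))‖ ^ 2) / q := by
    rw [sum_congr rfl (fun b hb => by rw [step1 b hb])]
    refine (sum_le_sum_of_subset_of_nonneg (filter_subset _ _)
      (fun _ _ _ => by positivity)).trans ?_
    have := parseval (range q) (fun n hn => mem_range.1 hn) D
    rw [← this]
    exact le_rfl
  -- Step 3
  have step3 : ∀ j : ℕ, ∑ b ∈ range q, D b * ee (b * ((j : ℝ) / q)) =
      ∑ k2 ∈ S2, (g2 k2 : ℂ) * ∑ k1 ∈ Ico N1 (2 * N1), (if m * k1 * k2 ≤ X then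
        (g1 k1 : ℂ) * ee (k1 * (m * k2 * (θ + (j : ℝ) / q))) else 0) := by
    intro j
    have e1 : ∀ b ∈ range q, D b * ee (b * ((j : ℝ) / q)) =
        ∑ k2 ∈ S2, ∑ k1 ∈ Ico N1 (2 * N1), if (m * k1 * k2) % q = b then
          a k1 k2 * ee (b * ((j : ℝ) / q)) else 0 := by
      intro b _
      rw [hD, sum_mul, sum_comm]
      refine (sum_congr rfl fun k1 _ => sum_mul _ _ _).trans ?_
      rw [sum_comm]
      rw [sum_comm]
      refine sum_congr rfl fun k2 _ => sum_congr rfl fun k1 _ => ?_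
      rw [ite_mul, zero_mul]
    rw [sum_congr rfl e1, sum_comm]
    refine sum_congr rfl fun k2 _ => ?_
    rw [sum_comm, mul_sum]
    refine sum_congr rfl fun k1 _ => ?_
    rw [sum_ite_eq (range q) ((m * k1 * k2) % q), if_pos (mem_range.2 (Nat.mod_lt _ hq)), ha]
    by_cases h5 : m * k1 * k2 ≤ X
    · simp only [h5, if_true]
      have e2 : ee ((((m * k1 * k2) % q : ℕ) : ℝ) * ((j : ℝ) / q)) =
          ee (((m * k1 * k2 : ℕ) : ℝ) * ((j : ℝ) / q)) := by
        have e4 : ((m * k1 * k2 : ℕ) : ℝ) =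
            (q : ℝ) * (((m * k1 * k2) / q : ℕ) : ℝ) + (((m * k1 * k2) % q : ℕ) : ℝ) := by
          exact_mod_cast (Nat.div_add_mod (m * k1 * k2) q).symm
        generalize (m * k1 * k2) / q = t at e4
        have e3 : (((m * k1 * k2 : ℕ) : ℝ) * ((j : ℝ) / q)) =
            (((m * k1 * k2) % q : ℕ) : ℝ) * ((j : ℝ) / q) + ((t * j : ℤ) : ℝ) := by
          rw [e4]
          push_cast
          field_simp
          ring
        rw [e3, ee_add_int]
      rw [e2, mul_assoc, ← ee_add]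
      have e5 : ((m * k1 * k2 : ℕ) : ℝ) * θ + ((m * k1 * k2 : ℕ) : ℝ) * ((j : ℝ) / q) =
          k1 * (m * k2 * (θ + (j : ℝ) / q)) := by
        push_cast
        ring
      rw [e5]
      push_cast
      ring
    · simp only [h5, if_false, zero_mul, mul_zero]
  -- Step 4
  have step4 : ∀ j : ℕ, ‖∑ b ∈ range q, D b * ee (b * ((j : ℝ) / q))‖ ≤
      G ^ 2 * N1 * ∑ i ∈ range (J + 1), (1 / 2 : ℝ) ^ i * redI2_n q m N2 θ (2 ^ i / N1) j := by
    intro j
    rw [step3 j]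
    have h1 : ∀ k2 ∈ S2, ‖(g2 k2 : ℂ) * ∑ k1 ∈ Ico N1 (2 * N1), (if m * k1 * k2 ≤ X then
        (g1 k1 : ℂ) * ee (k1 * (m * k2 * (θ + (j : ℝ) / q))) else 0)‖ ≤
        G ^ 2 * N1 * ∑ i ∈ range (J + 1), (1 / 2 : ℝ) ^ i *
          (if nrm (m * k2 * (θ + (j : ℝ) / q)) ≤ 2 ^ i / N1 then 1 else 0) := by
      intro k2 hk2
      rw [hS2, mem_filter] at hk2
      rw [norm_mul, Complex.norm_real, Real.norm_eq_abs]
      have h2 := redI2_E N1 g1 G (m * k2 * (θ + (j : ℝ) / q)) hN1 hg1 hmono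
        (fun k1 => m * k1 * k2 ≤ X) (fun k hk => by
          refine le_trans ?_ hk
          gcongr
          omega)
      have h3 := redI2_level N1 J (m * k2 * (θ + (j : ℝ) / q)) hN1 hJ
      have h4 := hg2 k2 hk2.1
      have h5 := mul_le_mul_of_nonneg_left h3 hG
      calc |g2 k2| * _ ≤ G * (G * mn N1 (m * k2 * (θ + (j : ℝ) / q))) :=
            mul_le_mul h4 h2 (norm_nonneg _) hG
        _ ≤ G * (G * (N1 * ∑ i ∈ range (J + 1), (1 / 2 : ℝ) ^ i *
              (if nrm (m * k2 * (θ + (j : ℝ) / q)) ≤ 2 ^ i / N1 then 1 else 0))) :=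
            mul_le_mul_of_nonneg_left h5 hG
        _ = _ := by ring
    refine (norm_sum_le _ _).trans ((sum_le_sum h1).trans (le_of_eq ?_))
    rw [← mul_sum, sum_comm]
    congr 1
    refine sum_congr rfl fun i _ => ?_
    rw [← mul_sum]
    congr 1
    unfold redI2_n
    rw [card_filter]
    push_cast
    rfl
  have step5 : ∀ j : ℕ, ‖∑ b ∈ range q, D b * ee (b * ((j : ℝ) / q))‖ ^ 2 ≤
      G ^ 4 * N1 ^ 2 * ((J + 1) * ∑ i ∈ range (J + 1), (1 / 4 : ℝ) ^ i *
        (redI2_n q m N2 θ (2 ^ i / N1) j : ℝ) ^ 2) := by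
    intro j
    have h1 : ‖∑ b ∈ range q, D b * ee (b * ((j : ℝ) / q))‖ ^ 2 ≤
        (G ^ 2 * N1 * ∑ i ∈ range (J + 1), (1 / 2 : ℝ) ^ i *
          redI2_n q m N2 θ (2 ^ i / N1) j) ^ 2 :=
      pow_le_pow_left₀ (norm_nonneg _) (step4 j) 2
    refine h1.trans ?_
    rw [mul_pow]
    have h2 : (∑ i ∈ range (J + 1), (1 / 2 : ℝ) ^ i *
        (redI2_n q m N2 θ (2 ^ i / N1) j : ℝ)) ^ 2 ≤
        ((J : ℝ) + 1) * ∑ i ∈ range (J + 1), (1 / 4 : ℝ) ^ i *
          (redI2_n q m N2 θ (2 ^ i / N1) j : ℝ) ^ 2 := by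
      have h3 := sq_sum_le_card_mul_sum_sq (s := range (J + 1))
        (f := fun i => (1 / 2 : ℝ) ^ i * (redI2_n q m N2 θ (2 ^ i / N1) j : ℝ))
      rw [card_range] at h3
      push_cast at h3
      refine h3.trans (le_of_eq ?_)
      congr 1
      refine sum_congr rfl fun i _ => ?_
      rw [mul_pow, ← pow_mul, mul_comm i 2, pow_mul]
      norm_num
    calc (G ^ 2 * N1) ^ 2 * _ ≤ (G ^ 2 * (N1 : ℝ)) ^ 2 * (((J : ℝ) + 1) *
          ∑ i ∈ range (J + 1), (1 / 4 : ℝ) ^ i *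
          (redI2_n q m N2 θ (2 ^ i / N1) j : ℝ) ^ 2) :=
          mul_le_mul_of_nonneg_left h2 (by positivity)
      _ = _ := by ring
  refine step2.trans ?_
  have step6 : ∑ j ∈ range q, ‖∑ b ∈ range q, D b * ee (b * ((j : ℝ) / q))‖ ^ 2 ≤
      G ^ 4 * N1 ^ 2 * ((J + 1) * ∑ i ∈ range (J + 1), (1 / 4 : ℝ) ^ i *
        (Cnt q N2 (q * m * θ) (q * 2 ^ i / N1) : ℝ)) := by
    refine (sum_le_sum fun j _ => step5 j).trans ?_
    rw [← mul_sum, ← mul_sum, sum_comm]
    refine mul_le_mul_of_nonneg_left (mul_le_mul_of_nonneg_left ?_ (by positivity)) (by positivity)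
    refine sum_le_sum fun i _ => ?_
    rw [← mul_sum]
    refine mul_le_mul_of_nonneg_left ?_ (by positivity)
    have h1 := redI2_count q m N2 θ (2 ^ i / N1) hq hmq
    have h2 : (q : ℝ) * (2 ^ i / N1) = q * 2 ^ i / N1 := by ring
    rw [h2] at h1
    exact_mod_cast h1
  rw [div_le_iff₀ hqpos]
  refine step6.trans (le_of_eq ?_)
  field_simp

end Pool.MP_dd84fd_nt.L2G
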