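import Pool.Agent.Lib.MP_dd84fd_nt.L2G.ChDefs
import Pool.Agent.Lib.MP_dd84fd_nt.L2G.CvBasic
import Pool.Agent.Lib.MP_dd84fd_nt.SW.SWPsi

set_option autoImplicit false

namespace Pool.MP_dd84fd_nt.L2G

open Finset Pool.MP_67663b_nt.Odd

private theorem swExp_two_pi : 2 * Real.pi ≤ 7 := by
  have := Real.pi_lt_d2
  linarith

private theorem swExp_abel_id (a : ℕ → ℝ) (β : ℝ) (N : ℕ) :
    ∑ n ∈ Icc 1 N, (a n : ℂ) * ee (n * β) =
      ((∑ n ∈ Icc 1 N, a n : ℝ) : ℂ) * ee (N * β) -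
        ∑ n ∈ range N, ((∑ m ∈ Icc 1 n, a m : ℝ) : ℂ) * (ee ((n + 1 : ℕ) * β) - ee (n * β)) := by
  induction N with
  | zero => simp
  | succ N ih =>
    rw [Finset.sum_Icc_succ_top (by omega), ih, Finset.sum_range_succ,
      Finset.sum_Icc_succ_top (by omega)]
    push_cast
    ring

/-- Abel summation against `ee (n β)` -/
private theorem swExp_abel (a : ℕ → ℝ) (β : ℝ) (X : ℕ) (Δ : ℝ) (hΔ : 0 ≤ Δ)
    (h : ∀ N ≤ X, |∑ n ∈ Icc 1 N, a n| ≤ Δ) :
    ‖∑ n ∈ Icc 1 X, (a n : ℂ) * ee (n * β)‖ ≤ Δ * (1 + 7 * (|β| * X)) := by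
  rw [swExp_abel_id]
  refine (norm_sub_le _ _).trans ?_
  have h1 : ‖((∑ n ∈ Icc 1 X, a n : ℝ) : ℂ) * ee (X * β)‖ ≤ Δ := by
    rw [norm_mul, norm_ee, mul_one, Complex.norm_real, Real.norm_eq_abs]
    exact h X le_rfl
  have h2 : ‖∑ n ∈ range X, ((∑ m ∈ Icc 1 n, a m : ℝ) : ℂ) *
      (ee ((n + 1 : ℕ) * β) - ee (n * β))‖ ≤ ∑ n ∈ range X, Δ * (7 * |β|) := by
    refine (norm_sum_le _ _).trans (Finset.sum_le_sum fun n hn => ?_)
    rw [norm_mul, Complex.norm_real, Real.norm_eq_abs]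
    refine mul_le_mul (h n (Finset.mem_range.1 hn).le) ?_ (norm_nonneg _) hΔ
    refine (norm_ee_sub_ee_le _ _).trans ?_
    have h3 : ((n + 1 : ℕ) : ℝ) * β - n * β = β := by push_cast; ring
    rw [h3]
    exact mul_le_mul_of_nonneg_right swExp_two_pi (abs_nonneg _)
  rw [Finset.sum_const, Finset.card_range, nsmul_eq_mul] at h2
  calc _ ≤ Δ + X * (Δ * (7 * |β|)) := add_le_add h1 h2
    _ = _ := by ring

private theorem swExp_cont (β : ℝ) : Continuous (fun t : ℝ => ee (t * β)) := by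
  unfold ee
  fun_prop

private theorem swExp_KI (β : ℝ) (X : ℕ) :
    ‖∑ n ∈ Icc 1 X, ee (n * β) - KI X β‖ ≤ 7 * (|β| * X) := by
  induction X with
  | zero => simp [KI]
  | succ X ih =>
    have hint : ∀ a b : ℝ, IntervalIntegrable (fun t : ℝ => ee (t * β)) MeasureTheory.volume a b :=
      fun a b => (swExp_cont β).intervalIntegrable a b
    have h1 : KI (X + 1) β = KI X β + ∫ t in (X : ℝ)..((X + 1 : ℕ) : ℝ), ee (t * β) := by
      unfold KI
      rw [intervalIntegral.integral_add_adjacent_intervals (hint _ _) (hint _ _)]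
    have h2 : ‖ee ((X + 1 : ℕ) * β) - ∫ t in (X : ℝ)..((X + 1 : ℕ) : ℝ), ee (t * β)‖ ≤ 7 * |β| := by
      have h4 : ee ((X + 1 : ℕ) * β) =
          ∫ t in (X : ℝ)..((X + 1 : ℕ) : ℝ), ee ((X + 1 : ℕ) * β) := by
        rw [intervalIntegral.integral_const]
        have : (((X + 1 : ℕ) : ℝ) - X) = 1 := by push_cast; ring
        rw [this, one_smul]
      rw [h4, ← intervalIntegral.integral_sub (by simp) (hint _ _)]
      have h5 := intervalIntegral.norm_integral_le_of_norm_le_const (a := (X : ℝ))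
        (b := ((X + 1 : ℕ) : ℝ)) (C := 7 * |β|)
        (f := fun t => ee (((X + 1 : ℕ) : ℝ) * β) - ee (t * β)) (by
          intro t ht
          rw [Set.uIoc_of_le (by push_cast; linarith)] at ht
          refine (norm_ee_sub_ee_le _ _).trans ?_
          have h6 : ((X + 1 : ℕ) : ℝ) * β - t * β = (((X + 1 : ℕ) : ℝ) - t) * β := by ring
          rw [h6, abs_mul]
          have h7 : |((X + 1 : ℕ) : ℝ) - t| ≤ 1 := by
            have h8 := ht.1
            have h9 := ht.2
            push_cast at h9 ⊢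
            rw [abs_le]
            constructor <;> linarith
          have hb := abs_nonneg β
          calc 2 * Real.pi * (|((X + 1 : ℕ) : ℝ) - t| * |β|)
              ≤ 7 * (1 * |β|) := by
                refine mul_le_mul swExp_two_pi ?_ (by positivity) (by norm_num)
                exact mul_le_mul_of_nonneg_right h7 hb
            _ = 7 * |β| := by ring)
      refine h5.trans (le_of_eq ?_)
      have : (((X + 1 : ℕ) : ℝ) - X) = 1 := by push_cast; ring
      rw [this, abs_one, mul_one]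
    rw [Finset.sum_Icc_succ_top (by omega), h1]
    have h3 : ∑ n ∈ Icc 1 X, ee (n * β) + ee ((X + 1 : ℕ) * β) -
        (KI X β + ∫ t in (X : ℝ)..((X + 1 : ℕ) : ℝ), ee (t * β)) =
        (∑ n ∈ Icc 1 X, ee (n * β) - KI X β) +
        (ee ((X + 1 : ℕ) * β) - ∫ t in (X : ℝ)..((X + 1 : ℕ) : ℝ), ee (t * β)) := by ring
    rw [h3]
    refine (norm_add_le _ _).trans ((add_le_add ih h2).trans (le_of_eq ?_))
    push_cast
    ring

/-- counting function of the primes in the class -/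
private theorem swExp_theta (A B : ℕ) : ∃ X0 : ℕ, ∀ X : ℕ, X0 ≤ X → ∀ r c : ℕ, 1 ≤ r →
    (r : ℝ) ≤ Real.log X ^ B → Nat.Coprime c r → ∀ N ≤ X,
    |∑ n ∈ Icc 1 N, ((if n ≡ c [MOD r] then la X n else 0) - 1 / (Nat.totient r : ℝ))| ≤
      X / Real.log X ^ A := by
  classical
  obtain ⟨T0, hT0⟩ := SW.sw_theta (A + 1) (B + 1)
  have hev1 : ∀ᶠ X : ℕ in Filter.atTop, (2 : ℝ) ^ (A + B + 1) ≤ Real.log X :=
    (Real.tendsto_log_atTop.comp tendsto_natCast_atTop_atTop).eventually_ge_atTop _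
  have hev2 : ∀ᶠ X : ℕ in Filter.atTop, ‖Real.log X ^ (A : ℝ)‖ ≤
      1 / 3 * ‖(X : ℝ) ^ (1 / 2 : ℝ)‖ :=
    tendsto_natCast_atTop_atTop.eventually
      ((isLittleO_log_rpow_rpow_atTop (A : ℝ) (by norm_num : (0 : ℝ) < 1 / 2)).bound
        (by positivity))
  obtain ⟨X1, hX1⟩ := Filter.eventually_atTop.1 (hev1.and hev2)
  refine ⟨max X1 (T0 * T0 + 1), ?_⟩
  intro X hX r c hr hrL hc N hN
  have hXX1 : X1 ≤ X := (le_max_left _ _).trans hX
  have hXT : T0 * T0 + 1 ≤ X := (le_max_right _ _).trans hX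
  obtain ⟨hL1, hL2⟩ := hX1 X hXX1
  have hXone : 1 ≤ X := by omega
  have hX0 : (0 : ℝ) < X := by exact_mod_cast hXone
  set L := Real.log X with hL
  have hp1 : (1 : ℝ) ≤ 2 ^ (A + B + 1) := one_le_pow₀ (by norm_num)
  have hL0 : 0 < L := by linarith
  have hLone : 1 ≤ L := by linarith
  rw [Real.rpow_natCast, Real.norm_of_nonneg (pow_nonneg hL0.le _),
    Real.norm_of_nonneg (by positivity), ← Real.sqrt_eq_rpow] at hL2
  have hphi1 : 1 ≤ Nat.totient r := Nat.totient_pos.2 hr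
  have hphi : (1 : ℝ) ≤ Nat.totient r := by exact_mod_cast hphi1
  have hrew : ∑ n ∈ Icc 1 N, ((if n ≡ c [MOD r] then la X n else 0) - 1 / (Nat.totient r : ℝ)) =
      ∑ p ∈ (Icc 1 N).filter (fun n => n.Prime ∧ n ≡ c [MOD r]), Real.log p -
        N / (Nat.totient r : ℝ) := by
    rw [Finset.sum_sub_distrib, Finset.sum_const, Nat.card_Icc, Nat.add_sub_cancel, nsmul_eq_mul,
      mul_one_div]
    congr 1
    rw [Finset.sum_filter]
    refine Finset.sum_congr rfl fun n hn => ?_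
    have hnX : n ≤ X := (Finset.mem_Icc.1 hn).2.trans hN
    by_cases h1 : n ≡ c [MOD r]
    · by_cases h2 : n.Prime
      · rw [if_pos h1, if_pos ⟨h2, h1⟩, la, if_pos ⟨h2, hnX⟩]
      · rw [if_pos h1, if_neg (fun h => h2 h.1), la, if_neg (fun h => h2 h.1)]
    · rw [if_neg h1, if_neg (fun h => h1 h.2)]
  rw [hrew]
  by_cases hcase : N * N < X
  · -- small `N`
    have h1 : ∑ p ∈ (Icc 1 N).filter (fun n => n.Prime ∧ n ≡ c [MOD r]), Real.log p ≤
        2 * (N : ℝ) := by
      refine le_trans ?_ (sum_la_le N)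
      have h2 : ∑ n ∈ Icc 1 N, la N n = ∑ p ∈ (Icc 1 N).filter (fun n => n.Prime), Real.log p := by
        rw [Finset.sum_filter]
        refine Finset.sum_congr rfl fun n hn => ?_
        by_cases h3 : n.Prime
        · rw [if_pos h3, la, if_pos ⟨h3, (Finset.mem_Icc.1 hn).2⟩]
        · rw [if_neg h3, la, if_neg (fun h => h3 h.1)]
      rw [h2]
      refine Finset.sum_le_sum_of_subset_of_nonneg ?_ fun n _ _ => Real.log_natCast_nonneg n
      intro n hn
      rw [Finset.mem_filter] at hn ⊢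
      exact ⟨hn.1, hn.2.1⟩
    have h2 : 0 ≤ ∑ p ∈ (Icc 1 N).filter (fun n => n.Prime ∧ n ≡ c [MOD r]), Real.log p :=
      Finset.sum_nonneg fun n _ => Real.log_natCast_nonneg n
    have hNr : (N : ℝ) ≤ Real.sqrt X := by
      apply Real.le_sqrt_of_sq_le
      rw [pow_two]
      exact_mod_cast hcase.le
    have h3 : (N : ℝ) / (Nat.totient r : ℝ) ≤ N := div_le_self (Nat.cast_nonneg _) hphi
    have h4 : 0 ≤ (N : ℝ) / (Nat.totient r : ℝ) := by positivity
    have hN0 : (0 : ℝ) ≤ N := Nat.cast_nonneg _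
    have h5 : 3 * Real.sqrt X ≤ X / L ^ A := by
      rw [le_div_iff₀ (by positivity)]
      have h6 : Real.sqrt X * Real.sqrt X = X := Real.mul_self_sqrt hX0.le
      nlinarith [Real.sqrt_nonneg X]
    rw [abs_le]
    constructor <;> linarith
  · -- large `N`
    push Not at hcase
    have hNT : T0 ≤ N := by
      by_contra hcon
      push Not at hcon
      have : N * N ≤ T0 * T0 := Nat.mul_le_mul hcon.le hcon.le
      omega
    have hN1 : 1 ≤ N := by
      rcases Nat.eq_zero_or_pos N with h | h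
      · rw [h] at hcase
        omega
      · exact h
    have hN0 : (0 : ℝ) < N := by exact_mod_cast hN1
    have hlogN : L / 2 ≤ Real.log N := by
      have h1 : Real.log X ≤ Real.log ((N : ℝ) * N) := by
        apply Real.log_le_log hX0
        exact_mod_cast hcase
      rw [Real.log_mul hN0.ne' hN0.ne'] at h1
      linarith
    have hL2' : 0 < L / 2 := by linarith
    have hrN : (r : ℝ) ≤ Real.log N ^ (B + 1) := by
      refine hrL.trans (le_trans ?_ (pow_le_pow_left₀ hL2'.le hlogN _))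
      rw [div_pow, le_div_iff₀ (by positivity), pow_succ (L) B]
      apply mul_le_mul_of_nonneg_left _ (by positivity)
      refine le_trans ?_ hL1
      exact pow_le_pow_right₀ (by norm_num) (by omega)
    refine (hT0 N hNT r c hr hrN hc).trans ?_
    have h1 : (N : ℝ) / Real.log N ^ (A + 1) ≤ X / (L / 2) ^ (A + 1) := by
      apply div_le_div₀ hX0.le (by exact_mod_cast hN) (by positivity)
      exact pow_le_pow_left₀ hL2'.le hlogN _
    refine h1.trans ?_
    apply div_le_div_of_nonneg_left hX0.le (by positivity)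
    rw [div_pow, le_div_iff₀ (by positivity), pow_succ L A]
    apply mul_le_mul_of_nonneg_left _ (by positivity)
    refine le_trans ?_ hL1
    exact pow_le_pow_right₀ (by norm_num) (by omega)

theorem sw_exp (A B : ℕ) : ∃ X0 : ℕ, ∀ X : ℕ, X0 ≤ X → ∀ (r c : ℕ) (β : ℝ), 1 ≤ r →
    (r : ℝ) ≤ Real.log X ^ B → Nat.Coprime c r → |β| ≤ Real.log X ^ B / X →
    ‖∑ n ∈ (Icc 1 X).filter (fun n => n ≡ c [MOD r]), (la X n : ℂ) * ee (n * β) -
      KI X β / (Nat.totient r : ℂ)‖ ≤ X / Real.log X ^ A := by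
  classical
  obtain ⟨X1, hX1⟩ := swExp_theta (A + B + 1) B
  have hev1 : ∀ᶠ X : ℕ in Filter.atTop, (16 : ℝ) ≤ Real.log X :=
    (Real.tendsto_log_atTop.comp tendsto_natCast_atTop_atTop).eventually_ge_atTop _
  have hev2 : ∀ᶠ X : ℕ in Filter.atTop, ‖Real.log X ^ (A + B)‖ ≤ 1 / 14 * ‖(id (X : ℝ))‖ :=
    tendsto_natCast_atTop_atTop.eventually
      ((Real.isLittleO_pow_log_id_atTop (n := A + B)).bound (by norm_num))
  obtain ⟨X2, hX2⟩ := Filter.eventually_atTop.1 (hev1.and hev2)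
  refine ⟨max X1 (max X2 1), ?_⟩
  intro X hX r c β hr hrL hc hβ
  have hXX1 : X1 ≤ X := (le_max_left _ _).trans hX
  have hXX2 : X2 ≤ X := ((le_max_left _ _).trans (le_max_right _ _)).trans hX
  have hXone : 1 ≤ X := ((le_max_right _ _).trans (le_max_right _ _)).trans hX
  obtain ⟨hL1, hL2⟩ := hX2 X hXX2
  have hX0 : (0 : ℝ) < X := by exact_mod_cast hXone
  have hth := hX1 X hXX1 r c hr hrL hc
  rw [id, Real.norm_of_nonneg hX0.le, Real.norm_of_nonneg (pow_nonneg (by linarith) _)] at hL2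
  set L := Real.log X with hL
  have hL0 : 0 < L := by linarith
  have hphi1 : 1 ≤ Nat.totient r := Nat.totient_pos.2 hr
  have hphi : (1 : ℝ) ≤ Nat.totient r := by exact_mod_cast hphi1
  have hβX : |β| * X ≤ L ^ B := by
    rwa [le_div_iff₀ hX0] at hβ
  have hβX0 : 0 ≤ |β| * X := by positivity
  have h1 := swExp_abel (fun n => (if n ≡ c [MOD r] then la X n else 0) -
    1 / (Nat.totient r : ℝ)) β X (X / L ^ (A + B + 1)) (by positivity) hth
  have h2 := swExp_KI β X
  have hsplit : ∑ n ∈ (Icc 1 X).filter (fun n => n ≡ c [MOD r]), (la X n : ℂ) * ee (n * β) -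
      KI X β / (Nat.totient r : ℂ) =
      ∑ n ∈ Icc 1 X, (((if n ≡ c [MOD r] then la X n else 0) - 1 / (Nat.totient r : ℝ) : ℝ) : ℂ) *
        ee (n * β) +
      (1 / (Nat.totient r : ℂ)) * (∑ n ∈ Icc 1 X, ee (n * β) - KI X β) := by
    rw [Finset.sum_filter, mul_sub, Finset.mul_sum]
    have h3 : ∑ n ∈ Icc 1 X, (((if n ≡ c [MOD r] then la X n else 0) -
        1 / (Nat.totient r : ℝ) : ℝ) : ℂ) * ee (n * β) =
        ∑ n ∈ Icc 1 X, (if n ≡ c [MOD r] then (la X n : ℂ) * ee (n * β) else 0) -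
        ∑ n ∈ Icc 1 X, (1 / (Nat.totient r : ℂ)) * ee (n * β) := by
      rw [← Finset.sum_sub_distrib]
      refine Finset.sum_congr rfl fun n _ => ?_
      split_ifs
      · push_cast
        ring
      · push_cast
        ring
    rw [h3]
    ring
  rw [hsplit]
  refine (norm_add_le _ _).trans ?_
  have h4 : ‖(1 / (Nat.totient r : ℂ)) * (∑ n ∈ Icc 1 X, ee (n * β) - KI X β)‖ ≤
      7 * (|β| * X) := by
    rw [norm_mul, norm_div, norm_one, Complex.norm_natCast]
    calc 1 / (Nat.totient r : ℝ) * ‖∑ n ∈ Icc 1 X, ee (n * β) - KI X β‖ ≤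
        1 * ‖∑ n ∈ Icc 1 X, ee (n * β) - KI X β‖ := by
          apply mul_le_mul_of_nonneg_right _ (norm_nonneg _)
          rw [div_le_one (by linarith)]
          exact hphi
      _ ≤ _ := by rw [one_mul]; exact h2
  refine (add_le_add h1 h4).trans ?_
  have hLB1 : 1 ≤ L ^ B := one_le_pow₀ (by linarith)
  have h5 : X / L ^ (A + B + 1) * (1 + 7 * (|β| * X)) ≤ 1 / 2 * (X / L ^ A) := by
    calc X / L ^ (A + B + 1) * (1 + 7 * (|β| * X)) ≤ X / L ^ (A + B + 1) * (8 * L ^ B) := by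
          apply mul_le_mul_of_nonneg_left _ (by positivity)
          linarith
      _ = 8 / L * (X / L ^ A) := by
          rw [pow_succ, pow_add]
          field_simp
      _ ≤ 1 / 2 * (X / L ^ A) := by
          apply mul_le_mul_of_nonneg_right _ (by positivity)
          rw [div_le_iff₀ hL0]
          linarith
  have h6 : 7 * (|β| * X) ≤ 1 / 2 * (X / L ^ A) := by
    rw [← mul_div_assoc, le_div_iff₀ (by positivity)]
    calc 7 * (|β| * X) * L ^ A ≤ 7 * L ^ B * L ^ A := by gcongr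
      _ = 7 * L ^ (A + B) := by rw [pow_add]; ring
      _ ≤ 1 / 2 * X := by linarith
  linarith

end Pool.MP_dd84fd_nt.L2G
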