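import Pool.Agent.Lib.MP_dd84fd_nt.L2G.MajorAll
import Pool.Agent.Lib.MP_dd84fd_nt.L2G.MinorAll
import Pool.Agent.Lib.MP_dd84fd_nt.L2G.ClassAlg
import Pool.Agent.Lib.MP_dd84fd_nt.L2G.ArcQ
import Pool.Agent.Lib.MP_dd84fd_nt.L2G.ModelArith
import Pool.Agent.Lib.MP_dd84fd_nt.L2G.CvBasic
import Pool.Agent.Lib.MP_dd84fd_nt.L2G.Avg

set_option autoImplicit false

namespace Pool.MP_dd84fd_nt.L2G

open Finset Pool.MP_67663b_nt.Odd

private theorem T2L2_VA_nonneg (X q : ℕ) [NeZero q] (f : ℕ → ℝ) (θ : ℝ) : 0 ≤ VA X q f θ :=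
  sum_nonneg fun b _ => by positivity

private theorem T2L2_arith {L : ℝ} (hL : 8 ≤ L) (A B C : ℕ) {X q : ℝ} (hX : 0 < X) (hq : 0 < q) :
    (X ^ 2 / (q * L ^ (A + B + 3))) ^ 2 * (16 * q * L ^ (2 * B) / X) +
      2 * (X ^ 2 / (q * L ^ (A + C + 3))) * (2 * X * L + X * L ^ C) ≤ X ^ 3 / (q * L ^ A) := by
  have hL0 : 0 < L := by linarith
  have e1 : (X ^ 2 / (q * L ^ (A + B + 3))) ^ 2 * (16 * q * L ^ (2 * B) / X) =
      X ^ 3 / (q * L ^ A) * (16 / L ^ (A + 6)) := by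
    have : L ^ (A + B + 3) * L ^ (A + B + 3) = L ^ A * L ^ (A + 6) * L ^ (2 * B) := by
      rw [← pow_add, ← pow_add, ← pow_add]
      congr 1
      ring
    rw [div_pow, mul_pow, sq (L ^ (A + B + 3)), this]
    field_simp
  have e2 : 2 * (X ^ 2 / (q * L ^ (A + C + 3))) * (2 * X * L + X * L ^ C) =
      X ^ 3 / (q * L ^ A) * ((4 * L + 2 * L ^ C) / L ^ (C + 3)) := by
    have : L ^ (A + C + 3) = L ^ A * L ^ (C + 3) := by
      rw [← pow_add]
      congr 1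
    rw [this]
    field_simp
    ring
  rw [e1, e2, ← mul_add]
  have h1 : 16 / L ^ (A + 6) ≤ 1 / 2 := by
    rw [div_le_iff₀ (by positivity)]
    have : (2 : ℝ) ^ 6 ≤ L ^ (A + 6) := by
      calc (2 : ℝ) ^ 6 ≤ L ^ 6 := by gcongr; linarith
        _ ≤ L ^ (A + 6) := pow_le_pow_right₀ (by linarith) (by omega)
    linarith
  have h2 : (4 * L + 2 * L ^ C) / L ^ (C + 3) ≤ 1 / 2 := by
    rw [div_le_iff₀ (by positivity)]
    have h3 : L ^ (C + 3) = L ^ C * L ^ 3 := pow_add _ _ _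
    have h4 : (1 : ℝ) ≤ L ^ C := one_le_pow₀ (by linarith)
    rw [h3]
    have hLL : 64 ≤ L * L := by nlinarith
    have h5 : 64 * L ≤ L ^ 3 := by
      calc 64 * L ≤ (L * L) * L := mul_le_mul_of_nonneg_right hLL hL0.le
        _ = L ^ 3 := by ring
    have h6 : (512 : ℝ) ≤ L ^ 3 := by linarith
    have h7 : 1 * (64 * L) ≤ L ^ C * L ^ 3 := mul_le_mul h4 h5 (by positivity) (by positivity)
    have h8 : L ^ C * 512 ≤ L ^ C * L ^ 3 := mul_le_mul_of_nonneg_left h6 (by positivity)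
    linarith
  calc X ^ 3 / (q * L ^ A) * (16 / L ^ (A + 6) + (4 * L + 2 * L ^ C) / L ^ (C + 3))
      ≤ X ^ 3 / (q * L ^ A) * 1 := by
        gcongr
        linarith
    _ = _ := mul_one _

theorem t2_L2 (ε : ℝ) (hε : 0 < ε) (hε1 : ε < 1) (A K : ℕ) : ∃ X0 : ℕ, ∀ X : ℕ, X0 ≤ X →
    ∀ (q : ℕ) [NeZero q], (q : ℝ) ≤ (X : ℝ) ^ (2 / 3 - ε) → ∀ a : ZMod q,
    (Nat.gcd a.val q : ℝ) ≤ Real.log X ^ K →
    ∑ n ∈ (range (2 * X + 1)).filter (fun n : ℕ => (n : ZMod q) = a),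
      (cv X (la X) (la X) n - cv X (nu X (Rm X) q) (nu X (Rm X) q) n) ^ 2 ≤
      X ^ 3 / (q * Real.log X ^ A) := by
  obtain ⟨C, hC⟩ := nu_L2
  obtain ⟨B, X1, hmin⟩ := minor_all ε hε hε1 (A + C + 3)
  obtain ⟨X2, hmaj⟩ := major_all ε hε hε1 (A + B + 3) B K
  have hev : ∀ᶠ X : ℕ in Filter.atTop, 8 ≤ Real.log X :=
    (Real.tendsto_log_atTop.comp tendsto_natCast_atTop_atTop).eventually_ge_atTop 8
  obtain ⟨X3, hX3⟩ := Filter.eventually_atTop.1 hev
  refine ⟨max (max X1 X2) (max X3 3), ?_⟩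
  intro X hX q _ hq a ha
  have hXa : X1 ≤ X := (le_max_left _ _).trans ((le_max_left _ _).trans hX)
  have hXb : X2 ≤ X := (le_max_right _ _).trans ((le_max_left _ _).trans hX)
  have hXc : X3 ≤ X := (le_max_left _ _).trans ((le_max_right _ _).trans hX)
  have hXd : 3 ≤ X := (le_max_right _ _).trans ((le_max_right _ _).trans hX)
  have hL8 := hX3 X hXc
  have hq1 : 1 ≤ q := NeZero.one_le
  have hX1 : (1 : ℝ) ≤ X := by
    have : 1 ≤ X := by omega
    exact_mod_cast this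
  have hX0 : (0 : ℝ) < X := by linarith
  have hq0 : (0 : ℝ) < q := by exact_mod_cast hq1
  have hqX : q ≤ X := by
    have h1 : (q : ℝ) ≤ X := by
      refine hq.trans ?_
      calc (X : ℝ) ^ (2 / 3 - ε) ≤ (X : ℝ) ^ (1 : ℝ) :=
            Real.rpow_le_rpow_of_exponent_le hX1 (by linarith)
        _ = X := Real.rpow_one _
    exact_mod_cast h1
  have hRX : Rm X ≤ X := by
    unfold Rm
    have h1 : ((⌊(X : ℝ) ^ (1 / 50 : ℝ)⌋₊ : ℕ) : ℝ) ≤ X := by
      refine (Nat.floor_le (by positivity)).trans ?_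
      calc (X : ℝ) ^ (1 / 50 : ℝ) ≤ (X : ℝ) ^ (1 : ℝ) :=
            Real.rpow_le_rpow_of_exponent_le hX1 (by norm_num)
        _ = X := Real.rpow_one _
    exact_mod_cast h1
  have hnu := hC X (Rm X) q hXd hRX hq1 hqX
  have hla := sum_la_sq_le X
  have hmeas := major_measure X q B hXd hq1
  set L : ℝ := Real.log X with hL
  set fl : ℕ → ℝ := la X with hfl
  set fn : ℕ → ℝ := nu X (Rm X) q with hfn
  set M1 : ℝ := (X ^ 2 / (q * L ^ (A + B + 3))) ^ 2 with hM1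
  set M2 : ℝ := 2 * (X ^ 2 / (q * L ^ (A + C + 3))) with hM2
  have hM20 : 0 ≤ M2 := by
    rw [hM2]
    have : 0 ≤ L := by linarith
    positivity
  -- Parseval
  have hpars := parseval (N := gr X)
    ((range (2 * X + 1)).filter (fun n : ℕ => (n : ZMod q) = a))
    (fun n hn => by
      have h1 := mem_range.1 (mem_filter.1 hn).1
      have h2 := lt_gr X
      omega)
    (fun n => ((cv X fl fl n - cv X fn fn n : ℝ) : ℂ))
  have e1 : ∀ θ : ℝ, (∑ n ∈ (range (2 * X + 1)).filter (fun n : ℕ => (n : ZMod q) = a),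
      ((cv X fl fl n - cv X fn fn n : ℝ) : ℂ) * ee (n * θ)) = Fz X q fl θ a - Fz X q fn θ a := by
    intro θ
    unfold Fz
    rw [← sum_sub_distrib]
    refine sum_congr rfl fun n _ => ?_
    push_cast
    ring
  have e2 : ∀ n ∈ (range (2 * X + 1)).filter (fun n : ℕ => (n : ZMod q) = a),
      ‖((cv X fl fl n - cv X fn fn n : ℝ) : ℂ)‖ ^ 2 = (cv X fl fl n - cv X fn fn n) ^ 2 := by
    intro n _
    rw [Complex.norm_real, Real.norm_eq_abs, sq_abs]
  rw [sum_congr rfl e2] at hpars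
  rw [← hpars]
  -- pointwise bound
  have hpt : ∀ θ : ℝ, ‖∑ n ∈ (range (2 * X + 1)).filter (fun n : ℕ => (n : ZMod q) = a),
      ((cv X fl fl n - cv X fn fn n : ℝ) : ℂ) * ee (n * θ)‖ ^ 2 ≤
      M1 * (MajQ X q B).indicator (fun _ => 1) θ + M2 * (VA X q fl θ + VA X q fn θ) := by
    intro θ
    rw [e1]
    have hv1 := T2L2_VA_nonneg X q fl θ
    have hv2 := T2L2_VA_nonneg X q fn θ
    by_cases h : θ ∈ MajQ X q B
    · rw [Set.indicator_of_mem h, mul_one]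
      have h1 := hmaj X hXb q hq θ a h ha
      have h2 : ‖Fz X q fl θ a - Fz X q fn θ a‖ ^ 2 ≤ M1 := by
        rw [hM1]
        exact pow_le_pow_left₀ (norm_nonneg _) h1 2
      have h3 : 0 ≤ M2 * (VA X q fl θ + VA X q fn θ) := mul_nonneg hM20 (by linarith)
      linarith
    · rw [Set.indicator_of_notMem h, mul_zero, zero_add]
      obtain ⟨h1, h2⟩ := hmin X hXa q hq θ h
      have h3 := Fz_le_VA X q fl θ a
      have h4 := Fz_le_VA X q fn θ a
      have h5 : ‖Fz X q fl θ a - Fz X q fn θ a‖ ≤ VA X q fl θ + VA X q fn θ :=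
        (norm_sub_le _ _).trans (add_le_add h3 h4)
      have h6 : VA X q fl θ + VA X q fn θ ≤ M2 := by
        rw [hM2]
        linarith
      calc ‖Fz X q fl θ a - Fz X q fn θ a‖ ^ 2 ≤ (VA X q fl θ + VA X q fn θ) ^ 2 :=
            pow_le_pow_left₀ (norm_nonneg _) h5 2
        _ = (VA X q fl θ + VA X q fn θ) * (VA X q fl θ + VA X q fn θ) := sq _
        _ ≤ M2 * (VA X q fl θ + VA X q fn θ) :=
            mul_le_mul_of_nonneg_right h6 (by linarith)
  refine (av_mono hpt).trans ?_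
  rw [av_add, av_mul_left, av_mul_left, av_add, av_VA, av_VA]
  have hM10 : 0 ≤ M1 := by rw [hM1]; positivity
  calc M1 * av (gr X) ((MajQ X q B).indicator fun _ => 1) +
        M2 * (∑ n ∈ Icc 1 X, fl n ^ 2 + ∑ n ∈ Icc 1 X, fn n ^ 2)
      ≤ M1 * (16 * q * L ^ (2 * B) / X) + M2 * (2 * X * L + X * L ^ C) := by
        gcongr
    _ ≤ X ^ 3 / (q * L ^ A) := T2L2_arith hL8 A B C hX0 hq0

end Pool.MP_dd84fd_nt.L2G
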