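import Pool.Agent.Lib.MP_dd84fd_nt.L2G.SpecSmall
import Pool.Agent.Lib.MP_dd84fd_nt.L2G.GHL
import Pool.Agent.Lib.MP_dd84fd_nt.L2G.NuNN
import Pool.Agent.Lib.MP_dd84fd_nt.L2G.CvBasic
import Pool.Agent.Lib.MP_dd84fd_nt.L2G.ChDefs

set_option autoImplicit false

namespace Pool.MP_dd84fd_nt.L2G

open Finset Pool.MP_67663b_nt.Odd

/-- the exceptional integers -/
private def SpecFinal_Bd (ε : ℝ) (n : ℕ) : Prop := Even n ∧
  ε * Pool.MP_dd84fd_nt.En.HL n < |(Pool.MP_dd84fd_nt.En.g n : ℝ) - Pool.MP_dd84fd_nt.En.HL n|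

private theorem SpecFinal_split (X n : ℕ) (hn : n ≤ X) (k : ℕ) :
    n ≤ X / 2 ^ k ∨ ∃ i, i < k ∧ n ≤ X / 2 ^ i ∧ X / 2 ^ i < 2 * n := by
  induction k with
  | zero => left; simpa using hn
  | succ k ih =>
    rcases ih with h | ⟨i, hi, h⟩
    · by_cases h2 : X / 2 ^ k < 2 * n
      · exact Or.inr ⟨k, Nat.lt_succ_self k, h, h2⟩
      · left
        rw [pow_succ, ← Nat.div_div_eq_div_mul, Nat.le_div_iff_mul_le (by norm_num)]
        omega
    · exact Or.inr ⟨i, hi.trans (Nat.lt_succ_self k), h⟩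

open Classical in
/-- Chebyshev on one dyadic block -/
private theorem SpecFinal_block (ε : ℝ) (hε : 0 < ε) : ∃ η : ℝ, 0 < η ∧ ∃ Y0 : ℕ, ∀ Y : ℕ,
    Y0 ≤ Y → ∀ (q : ℕ) [NeZero q], (q : ℝ) ≤ (Y : ℝ) ^ (2 / 3 : ℝ) → ∀ a : ZMod q,
    ∀ ξ : ℕ → ℝ, (∀ n, 0 ≤ ξ n) →
    ∑ n ∈ (Icc 1 Y).filter (fun n : ℕ => SpecFinal_Bd ε n ∧ Y < 2 * n ∧ (n : ZMod q) = a), ξ n ≤
      16 / (η ^ 2 * (Y : ℝ) ^ 2) * ∑ n ∈ (Icc 1 Y).filter (fun n : ℕ => (n : ZMod q) = a),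
        ξ n * (cv Y (la Y) (la Y) n - cv Y (nu Y (Rm Y) q) (nu Y (Rm Y) q) n) ^ 2 := by
  obtain ⟨η, hη, n0, hn0⟩ := g_HL ε hε
  obtain ⟨X2, hX2⟩ := nu_nn
  have hev2 : ∀ᶠ X : ℕ in Filter.atTop, (X : ℝ) ^ (-(1 / 300) : ℝ) ≤ η / 4 :=
    tendsto_natCast_atTop_atTop.eventually
      ((tendsto_rpow_neg_atTop (by norm_num : (0 : ℝ) < 1 / 300)).eventually_le_const
        (by positivity))
  obtain ⟨X3, hX3⟩ := Filter.eventually_atTop.1 hev2
  refine ⟨η, hη, max X2 (max X3 (max (2 * n0) 3)), ?_⟩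
  intro Y hY q _ hq a ξ hξ
  simp only [max_le_iff] at hY
  obtain ⟨hY2, hY3, hY4, hY5⟩ := hY
  have hpow := hX3 Y hY3
  have hY0 : (0 : ℝ) < Y := by
    have : 0 < Y := by omega
    exact_mod_cast this
  have hpow' : (Y : ℝ) ^ (1 - 1 / 300 : ℝ) ≤ η / 4 * Y := by
    have h1 : (Y : ℝ) ^ (1 - 1 / 300 : ℝ) = (Y : ℝ) ^ (-(1 / 300) : ℝ) * Y := by
      have h2 : (1 - 1 / 300 : ℝ) = -(1 / 300) + 1 := by ring
      rw [h2, Real.rpow_add hY0, Real.rpow_one]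
    rw [h1]
    exact mul_le_mul_of_nonneg_right hpow hY0.le
  rw [Finset.mul_sum]
  refine le_trans (Finset.sum_le_sum (g := fun n => 16 / (η ^ 2 * (Y : ℝ) ^ 2) * (ξ n *
    (cv Y (la Y) (la Y) n - cv Y (nu Y (Rm Y) q) (nu Y (Rm Y) q) n) ^ 2)) ?_)
    (Finset.sum_le_sum_of_subset_of_nonneg ?_ ?_)
  · intro n hn
    rw [mem_filter, mem_Icc] at hn
    obtain ⟨⟨hn1, hnY⟩, ⟨heven, hb⟩, h2n, -⟩ := hn
    have hn2 : n0 ≤ n := by omega
    have hn3 : (Y : ℝ) / 2 ≤ n := by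
      have h2 : (Y : ℝ) ≤ 2 * n := by exact_mod_cast h2n.le
      linarith
    have h1 : η * n < |Pool.MP_dd84fd_nt.En.rG n - Pool.MP_dd84fd_nt.En.SS n * n| := by
      by_contra hcon
      push Not at hcon
      exact absurd (hn0 n hn2 heven hcon) (not_le.2 hb)
    have h2 := hX2 Y hY2 q hq n hn1 hnY heven
    rw [cv_la_rG Y n hnY]
    set e := Pool.MP_dd84fd_nt.En.rG n - cv Y (nu Y (Rm Y) q) (nu Y (Rm Y) q) n with he
    have h4 : η * Y / 4 ≤ |e| := by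
      have h5 : Pool.MP_dd84fd_nt.En.rG n - Pool.MP_dd84fd_nt.En.SS n * n =
          e + (cv Y (nu Y (Rm Y) q) (nu Y (Rm Y) q) n - Pool.MP_dd84fd_nt.En.SS n * n) := by
        rw [he]
        ring
      have h6 := abs_add_le e
        (cv Y (nu Y (Rm Y) q) (nu Y (Rm Y) q) n - Pool.MP_dd84fd_nt.En.SS n * n)
      rw [← h5] at h6
      have h7 : η * (Y / 2) ≤ η * n := mul_le_mul_of_nonneg_left hn3 hη.le
      linarith
    have h5 : (η * Y / 4) ^ 2 ≤ e ^ 2 := by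
      rw [← sq_abs e]
      exact pow_le_pow_left₀ (by positivity) h4 2
    have h6 : 1 ≤ 16 / (η ^ 2 * (Y : ℝ) ^ 2) * e ^ 2 := by
      rw [div_mul_eq_mul_div, one_le_div (by positivity)]
      nlinarith
    calc ξ n = ξ n * 1 := (mul_one _).symm
      _ ≤ ξ n * (16 / (η ^ 2 * (Y : ℝ) ^ 2) * e ^ 2) :=
          mul_le_mul_of_nonneg_left h6 (hξ n)
      _ = _ := by ring
  · intro n hn
    rw [mem_filter] at hn ⊢
    exact ⟨hn.1, hn.2.2.2⟩
  · intro n _ _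
    exact mul_nonneg (by positivity) (mul_nonneg (hξ n) (sq_nonneg _))

private theorem SpecFinal_r1 (m e L : ℝ) (h : m ≤ e / 2 * L) (he : e ≤ 1 / 4) (hL : 0 ≤ L) :
    m ≤ L := by nlinarith

private theorem SpecFinal_r2 (e L x : ℝ) (h : (1 - e) * L ≤ x) (he : e ≤ 1 / 4) (hL : 0 ≤ L) :
    L / 2 ≤ x := by nlinarith

private theorem SpecFinal_r3 (e ε₀ : ℝ) (h0 : 0 < e) (h : 2 * e ≤ ε₀) :
    2 / 3 - ε₀ ≤ (1 - e) * (2 / 3 - e) := by nlinarith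

theorem spec_final_core
    (h_scale : ∀ (ε : ℝ) (hε : 0 < ε) (hε1 : ε < 1), ∃ C : ℕ, ∀ A K : ℕ, ∃ Y0 : ℕ,
    ∀ Y : ℕ, Y0 ≤ Y → ∀ (X N : ℕ) [NeZero N], Y ≤ X → X < N → 2 * Y < N →
    ∀ ξ : ℕ → ℝ, (∀ n, 0 ≤ ξ n) → ∑ n ∈ Icc 1 X, ξ n ≤ 1 → ∀ δ : ℝ, 0 ≤ δ →
    ∀ (q : ℕ) [NeZero q], (q : ℝ) ≤ (Y : ℝ) ^ (2 / 3 - ε) → ∀ a : ZMod q,
    (Nat.gcd a.val q : ℝ) ≤ Real.log Y ^ K →
    ∑ n ∈ (Icc 1 Y).filter (fun n : ℕ => (n : ZMod q) = a),
      ξ n * (cv Y (la Y) (la Y) n - cv Y (nu Y (Rm Y) q) (nu Y (Rm Y) q) n) ^ 2 ≤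
      δ * (Y * Real.log Y ^ C) ^ 2 +
        ((Pool.MP_dd84fd_nt.LS.spec N X ξ δ).card : ℝ) / N * (Y ^ 3 / (q * Real.log Y ^ A)))
    (ε₀ : ℝ) (hε₀ : 0 < ε₀) (ε : ℝ) (hε : 0 < ε) (A : ℕ) : ∃ B : ℕ, ∀ K : ℕ,
    ∃ X0 : ℕ, ∀ X : ℕ, X0 ≤ X → ∀ (N : ℕ) [NeZero N], N = 3 * X →
    ∀ q : ℕ, 1 ≤ q → (q : ℝ) ≤ (X : ℝ) ^ (2 / 3 - ε₀) → ∀ a : ℕ,
    (Nat.gcd a q : ℝ) ≤ Real.log X ^ K → ∀ ξ : ℕ → ℝ, (∀ n, 0 ≤ ξ n) →
    (∀ n, ξ n ≠ 0 → n ≡ a [MOD q]) → ∑ n ∈ Icc 1 X, ξ n ≤ 1 →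
    ((Pool.MP_dd84fd_nt.LS.spec N X ξ (1 / (Real.log X) ^ B)).card : ℝ) ≤
      q * (Real.log X) ^ K →
    ∑ n ∈ (Icc 1 X).filter (fun n => Even n ∧
      ε * Pool.MP_dd84fd_nt.En.HL n < |(Pool.MP_dd84fd_nt.En.g n : ℝ) -
        Pool.MP_dd84fd_nt.En.HL n|), ξ n ≤ 1 / Real.log X ^ A := by
  classical
  obtain ⟨e, he0, he1, he2⟩ : ∃ e : ℝ, 0 < e ∧ e ≤ 1 / 4 ∧ 2 * e ≤ ε₀ :=
    ⟨min (ε₀ / 2) (1 / 4), lt_min (by linarith) (by norm_num), min_le_right _ _, by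
      have := min_le_left (ε₀ / 2) (1 / 4)
      linarith⟩
  obtain ⟨C, hC⟩ := h_scale e he0 (by linarith)
  obtain ⟨η, hη, Y1, hblock⟩ := SpecFinal_block ε hε
  refine ⟨2 * C + A + 3, fun K => ?_⟩
  obtain ⟨Y2, hscale⟩ := hC (K + A + 3) (K + 1)
  have hlog2 : 0 < Real.log 2 := Real.log_pos (by norm_num)
  set T : ℝ := 32 / η ^ 2 * (1 + 2 ^ (K + A + 3)) with hT
  have hev1 : ∀ᶠ X : ℕ in Filter.atTop, max (2048 : ℝ) (max T (2 ^ (K + 1))) ≤ Real.log X :=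
    (Real.tendsto_log_atTop.comp tendsto_natCast_atTop_atTop).eventually_ge_atTop _
  have hev2 : ∀ᶠ X : ℕ in Filter.atTop, ‖Real.log X ^ ((K + A + 2 : ℕ) : ℝ)‖ ≤
      1 / 2048 * ‖(X : ℝ) ^ (Real.log 2 * (e / 2))‖ :=
    tendsto_natCast_atTop_atTop.eventually
      ((isLittleO_log_rpow_rpow_atTop ((K + A + 2 : ℕ) : ℝ)
        (by positivity : (0 : ℝ) < Real.log 2 * (e / 2))).bound (by positivity))
  have hev3 : ∀ᶠ X : ℕ in Filter.atTop, max 4 (max (Y1 : ℝ) (Y2 : ℝ)) ≤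
      (X : ℝ) ^ (1 / 12 : ℝ) :=
    ((tendsto_rpow_atTop (by norm_num : (0 : ℝ) < 1 / 12)).comp
      tendsto_natCast_atTop_atTop).eventually_ge_atTop _
  have hev4 : ∀ᶠ X : ℕ in Filter.atTop, 2 ≤ (X : ℝ) ^ (e / 2) :=
    ((tendsto_rpow_atTop (by positivity : (0 : ℝ) < e / 2)).comp
      tendsto_natCast_atTop_atTop).eventually_ge_atTop _
  obtain ⟨X3, hX3⟩ := Filter.eventually_atTop.1 (hev1.and (hev2.and (hev3.and hev4)))
  refine ⟨max X3 1, ?_⟩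
  intro X hX N _ hN q hq1 hq a ha ξ hξ hξa hsum hcard
  have hXX3 : X3 ≤ X := (le_max_left _ _).trans hX
  have hXone : 1 ≤ X := (le_max_right _ _).trans hX
  obtain ⟨hLbig, hL2, hX4, hX5⟩ := hX3 X hXX3
  simp only [max_le_iff] at hLbig hX4
  obtain ⟨hL8, hLT, hLK⟩ := hLbig
  obtain ⟨hX4a, hX4b, hX4c⟩ := hX4
  have hX0 : (0 : ℝ) < X := by exact_mod_cast hXone
  have hX1 : (1 : ℝ) ≤ X := by exact_mod_cast hXone
  have hq0 : (0 : ℝ) < q := by exact_mod_cast hq1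
  have : NeZero q := ⟨by omega⟩
  set L := Real.log X with hL
  have hL0 : 0 < L := by linarith
  have hL1 : 1 ≤ L := by linarith
  rw [Real.rpow_natCast, Real.norm_of_nonneg (pow_nonneg hL0.le _),
    Real.norm_of_nonneg (by positivity)] at hL2
  obtain ⟨δ, hδ⟩ : ∃ δ : ℝ, δ = 1 / L ^ (2 * C + A + 3) := ⟨_, rfl⟩
  rw [← hδ] at hcard
  have hδ0 : 0 ≤ δ := by rw [hδ]; positivity
  obtain ⟨s, hs⟩ : ∃ s : ℝ, s = ((LS.spec N X ξ δ).card : ℝ) := ⟨_, rfl⟩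
  rw [← hs] at hcard
  have hs0 : 0 ≤ s := by rw [hs]; positivity
  have hNX : (N : ℝ) = 3 * X := by rw [hN]; push_cast; ring
  have hN0 : (0 : ℝ) < N := by rw [hNX]; positivity
  -- the number of blocks
  obtain ⟨m, hm⟩ : ∃ m : ℕ, m = ⌊e / 2 * L⌋₊ := ⟨_, rfl⟩
  have hm1 : (m : ℝ) ≤ e / 2 * L := by rw [hm]; exact Nat.floor_le (by positivity)
  have hm2 : e / 2 * L < m + 1 := by rw [hm]; exact Nat.lt_floor_add_one _
  have hmL : (m : ℝ) ≤ L := SpecFinal_r1 m e L hm1 he1 hL0.le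
  have h2m : ((2 : ℝ) ^ m) ≤ (X : ℝ) ^ (e / 2) := by
    calc ((2 : ℝ) ^ m) ≤ (Real.exp 1) ^ m := by
          apply pow_le_pow_left₀ (by norm_num)
          have := Real.exp_one_gt_d9
          linarith
      _ = Real.exp m := by rw [← Real.exp_nat_mul, mul_one]
      _ ≤ Real.exp (e / 2 * L) := Real.exp_le_exp.2 hm1
      _ = (X : ℝ) ^ (e / 2) := by
          rw [Real.rpow_def_of_pos hX0, ← hL]
          congr 1
          ring
  have h2m' : 1024 * L ^ (K + A + 2) ≤ (2 : ℝ) ^ m := by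
    have h1 : (X : ℝ) ^ (Real.log 2 * (e / 2)) = (2 : ℝ) ^ (e / 2 * L) := by
      rw [Real.rpow_def_of_pos hX0, Real.rpow_def_of_pos (by norm_num : (0 : ℝ) < 2), ← hL]
      congr 1
      ring
    have h2 : (2 : ℝ) ^ (e / 2 * L) ≤ (2 : ℝ) ^ ((m : ℝ) + 1) :=
      Real.rpow_le_rpow_of_exponent_le (by norm_num) hm2.le
    rw [Real.rpow_add (by norm_num), Real.rpow_one, Real.rpow_natCast] at h2
    rw [h1] at hL2
    linarith
  have hmpos : 1 ≤ m := by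
    by_contra hcon
    have hm0 : m = 0 := by omega
    rw [hm0, pow_zero] at h2m'
    have : 1 ≤ L ^ (K + A + 2) := one_le_pow₀ hL1
    linarith
  have he3 : (X : ℝ) ^ (3 / 4 : ℝ) ≤ (X : ℝ) ^ (1 - e) :=
    Real.rpow_le_rpow_of_exponent_le hX1 (by linarith)
  have h34 : (X : ℝ) ^ (1 / 12 : ℝ) ≤ (X : ℝ) ^ (3 / 4 : ℝ) :=
    Real.rpow_le_rpow_of_exponent_le hX1 (by norm_num)
  -- the scales
  have hYlow : ∀ i ≤ m, (X : ℝ) ^ (1 - e) ≤ ((X / 2 ^ i : ℕ) : ℝ) := by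
    intro i hi
    have h1 : (X : ℝ) / 2 ^ i < ((X / 2 ^ i : ℕ) : ℝ) + 1 := by
      have h2 := Nat.lt_floor_add_one ((X : ℝ) / ((2 ^ i : ℕ) : ℝ))
      rw [Nat.floor_div_eq_div] at h2
      push_cast at h2
      exact_mod_cast h2
    have h2 : (X : ℝ) ^ (1 - e) * 2 ≤ (X : ℝ) / 2 ^ i := by
      rw [le_div_iff₀ (by positivity)]
      have h3 : (2 : ℝ) ^ i ≤ (X : ℝ) ^ (e / 2) :=
        (pow_le_pow_right₀ (by norm_num) hi).trans h2m
      calc (X : ℝ) ^ (1 - e) * 2 * 2 ^ i ≤ (X : ℝ) ^ (1 - e) * (X : ℝ) ^ (e / 2) *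
            (X : ℝ) ^ (e / 2) := by gcongr
        _ = X := by
            rw [← Real.rpow_add hX0, ← Real.rpow_add hX0]
            have : 1 - e + e / 2 + e / 2 = 1 := by ring
            rw [this, Real.rpow_one]
    have h3 : (1 : ℝ) ≤ (X : ℝ) ^ (1 - e) := by linarith
    linarith
  have hYX : ∀ i : ℕ, X / 2 ^ i ≤ X := fun i => Nat.div_le_self _ _
  obtain ⟨M, hM⟩ : ∃ M : ℕ, M = 2 * (X / 2 ^ m) := ⟨_, rfl⟩
  have h2mN : 2 ≤ 2 ^ m := by
    calc 2 = 2 ^ 1 := by norm_num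
      _ ≤ 2 ^ m := Nat.pow_le_pow_right (by norm_num) hmpos
  have hMX : M ≤ X := by
    rw [hM]
    calc 2 * (X / 2 ^ m) ≤ 2 ^ m * (X / 2 ^ m) := Nat.mul_le_mul_right _ h2mN
      _ ≤ X := Nat.mul_div_le _ _
  have hqM : 8 * q ≤ M := by
    have h1 := hYlow m le_rfl
    have h2 : (X : ℝ) ^ (2 / 3 - ε₀) ≤ (X : ℝ) ^ (2 / 3 : ℝ) :=
      Real.rpow_le_rpow_of_exponent_le hX1 (by linarith)
    have h3 : (X : ℝ) ^ (3 / 4 : ℝ) = (X : ℝ) ^ (2 / 3 : ℝ) * (X : ℝ) ^ (1 / 12 : ℝ) := by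
      rw [← Real.rpow_add hX0]
      norm_num
    have h4 : (X : ℝ) ^ (2 / 3 : ℝ) * 4 ≤ (X : ℝ) ^ (3 / 4 : ℝ) := by
      rw [h3]
      exact mul_le_mul_of_nonneg_left hX4a (by positivity)
    have h5 : (4 : ℝ) * q ≤ ((X / 2 ^ m : ℕ) : ℝ) := by linarith
    have h6 : 4 * q ≤ X / 2 ^ m := by exact_mod_cast h5
    omega
  have hsmall := spec_small N X ξ hξ hsum δ hδ0 q M hq1 hqM (by omega) a
  rw [← hs] at hsmall
  -- decomposition
  have hdec : ∑ n ∈ (Icc 1 X).filter (fun n => Even n ∧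
      ε * Pool.MP_dd84fd_nt.En.HL n < |(Pool.MP_dd84fd_nt.En.g n : ℝ) -
        Pool.MP_dd84fd_nt.En.HL n|), ξ n ≤
      ∑ i ∈ range m, ∑ n ∈ (Icc 1 (X / 2 ^ i)).filter
        (fun n : ℕ => SpecFinal_Bd ε n ∧ X / 2 ^ i < 2 * n ∧ (n : ZMod q) = (a : ZMod q)), ξ n +
      ∑ n ∈ (Icc 1 X).filter (fun n => 2 * n ≤ M ∧ n ≡ a [MOD q]), ξ n := by
    have h1 : ∀ i ∈ range m, ∑ n ∈ (Icc 1 (X / 2 ^ i)).filter
        (fun n : ℕ => SpecFinal_Bd ε n ∧ X / 2 ^ i < 2 * n ∧ (n : ZMod q) = (a : ZMod q)), ξ n =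
        ∑ n ∈ Icc 1 X, if n ≤ X / 2 ^ i ∧ SpecFinal_Bd ε n ∧ X / 2 ^ i < 2 * n ∧
          (n : ZMod q) = (a : ZMod q) then ξ n else 0 := by
      intro i _
      rw [← Finset.sum_filter]
      refine Finset.sum_congr ?_ fun _ _ => rfl
      ext n
      have := hYX i
      simp only [Finset.mem_filter, Finset.mem_Icc]
      constructor
      · rintro ⟨⟨h1, h2⟩, h3⟩
        exact ⟨⟨h1, h2.trans this⟩, h2, h3⟩
      · rintro ⟨⟨h1, _⟩, h2, h3⟩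
        exact ⟨⟨h1, h2⟩, h3⟩
    rw [Finset.sum_congr rfl h1, Finset.sum_comm, Finset.sum_filter, Finset.sum_filter,
      ← Finset.sum_add_distrib]
    refine Finset.sum_le_sum fun n hn => ?_
    obtain ⟨hn1, hnX⟩ := Finset.mem_Icc.1 hn
    have hnn : ∀ i ∈ range m, 0 ≤ (if n ≤ X / 2 ^ i ∧ SpecFinal_Bd ε n ∧ X / 2 ^ i < 2 * n ∧
          (n : ZMod q) = (a : ZMod q) then ξ n else 0) := by
      intro i _
      split_ifs
      · exact hξ n
      · exact le_rfl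
    have hnn2 : 0 ≤ (if 2 * n ≤ M ∧ n ≡ a [MOD q] then ξ n else 0) := by
      split_ifs
      · exact hξ n
      · exact le_rfl
    by_cases hb : Even n ∧ ε * Pool.MP_dd84fd_nt.En.HL n <
        |(Pool.MP_dd84fd_nt.En.g n : ℝ) - Pool.MP_dd84fd_nt.En.HL n|
    · rw [if_pos hb]
      by_cases hz : ξ n = 0
      · rw [hz] at hnn hnn2 ⊢
        have := Finset.sum_nonneg hnn
        linarith
      · have hmod := hξa n hz
        have hmod' : (n : ZMod q) = (a : ZMod q) := (ZMod.natCast_eq_natCast_iff _ _ _).mpr hmod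
        rcases SpecFinal_split X n hnX m with h2 | ⟨i, hi, h2, h3⟩
        · have h4 : 2 * n ≤ M := by omega
          rw [if_pos ⟨h4, hmod⟩]
          have := Finset.sum_nonneg hnn
          linarith
        · have h4 := Finset.single_le_sum hnn (Finset.mem_range.2 hi)
          rw [if_pos ⟨h2, hb, h3, hmod'⟩] at h4
          linarith
    · rw [if_neg hb]
      have := Finset.sum_nonneg hnn
      linarith
  refine hdec.trans ?_
  -- one block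
  have hone : ∀ i ∈ range m, ∑ n ∈ (Icc 1 (X / 2 ^ i)).filter
        (fun n : ℕ => SpecFinal_Bd ε n ∧ X / 2 ^ i < 2 * n ∧ (n : ZMod q) = (a : ZMod q)), ξ n ≤
        T / 2 / L ^ (A + 3) := by
    intro i hi
    rw [mem_range] at hi
    have hlow := hYlow i hi.le
    have hYXi := hYX i
    obtain ⟨Y, hYdef⟩ : ∃ Y : ℕ, Y = X / 2 ^ i := ⟨_, rfl⟩
    rw [← hYdef] at hlow hYXi ⊢
    have hYr : (Y : ℝ) ≤ X := by exact_mod_cast hYXi
    have hY4 : (4 : ℝ) ≤ Y := by linarith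
    have hYpos : (0 : ℝ) < Y := by linarith
    have hYY1 : Y1 ≤ Y := by
      have : (Y1 : ℝ) ≤ Y := by linarith
      exact_mod_cast this
    have hYY2 : Y2 ≤ Y := by
      have : (Y2 : ℝ) ≤ Y := by linarith
      exact_mod_cast this
    have hℓL : Real.log Y ≤ L := Real.log_le_log hYpos hYr
    have hLℓ : L / 2 ≤ Real.log Y := by
      have h4 : Real.log ((X : ℝ) ^ (1 - e)) ≤ Real.log Y := Real.log_le_log (by positivity) hlow
      rw [Real.log_rpow hX0, ← hL] at h4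
      exact SpecFinal_r2 e L _ h4 he1 hL0.le
    obtain ⟨ℓ, hℓ⟩ : ∃ ℓ : ℝ, ℓ = Real.log Y := ⟨_, rfl⟩
    rw [← hℓ] at hℓL hLℓ
    have hℓ0 : 0 < ℓ := by linarith
    have hqY : (q : ℝ) ≤ (Y : ℝ) ^ (2 / 3 - e) := by
      have h5 : (X : ℝ) ^ (2 / 3 - ε₀) ≤ ((X : ℝ) ^ (1 - e)) ^ (2 / 3 - e) := by
        rw [← Real.rpow_mul hX0.le]
        apply Real.rpow_le_rpow_of_exponent_le hX1
        exact SpecFinal_r3 e ε₀ he0 he2
      refine (hq.trans h5).trans ?_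
      exact Real.rpow_le_rpow (by positivity) hlow (by linarith)
    have hqY' : (q : ℝ) ≤ (Y : ℝ) ^ (2 / 3 : ℝ) :=
      hqY.trans (Real.rpow_le_rpow_of_exponent_le (by linarith) (by linarith))
    have hgcd : (Nat.gcd (a : ZMod q).val q : ℝ) ≤ Real.log Y ^ (K + 1) := by
      rw [← hℓ, ZMod.val_natCast, ← Nat.gcd_rec, Nat.gcd_comm]
      refine ha.trans ?_
      calc L ^ K ≤ (2 * ℓ) ^ K := pow_le_pow_left₀ hL0.le (by linarith) K
        _ = 2 ^ K * ℓ ^ K := mul_pow _ _ _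
        _ ≤ ℓ * ℓ ^ K := by
            refine mul_le_mul_of_nonneg_right ?_ (by positivity)
            rw [pow_succ] at hLK
            linarith
        _ = ℓ ^ (K + 1) := by ring
    have hb := hblock Y hYY1 q hqY' (a : ZMod q) ξ hξ
    have hsc := hscale Y hYY2 X N hYXi (by omega) (by omega) ξ hξ hsum δ hδ0 q hqY
      (a : ZMod q) hgcd
    rw [← hs, ← hℓ] at hsc
    refine hb.trans ((mul_le_mul_of_nonneg_left hsc (by positivity)).trans ?_)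
    have e1 : δ * (Y * ℓ ^ C) ^ 2 ≤ (Y : ℝ) ^ 2 * (1 / L ^ (A + 3)) := by
      have h6 : δ * ℓ ^ (2 * C) ≤ 1 / L ^ (A + 3) := by
        rw [hδ, one_div_mul_eq_div, div_le_div_iff₀ (by positivity) (by positivity), one_mul]
        calc ℓ ^ (2 * C) * L ^ (A + 3) ≤ L ^ (2 * C) * L ^ (A + 3) := by gcongr
          _ = L ^ (2 * C + A + 3) := by
              rw [← pow_add]
              congr 1
      calc δ * (Y * ℓ ^ C) ^ 2 = (Y : ℝ) ^ 2 * (δ * ℓ ^ (2 * C)) := by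
            rw [mul_pow, ← pow_mul, mul_comm C 2]
            ring
        _ ≤ _ := mul_le_mul_of_nonneg_left h6 (by positivity)
    have e2 : s / N * (Y ^ 3 / (q * ℓ ^ (K + A + 3))) ≤
        (Y : ℝ) ^ 2 * (2 ^ (K + A + 3) / L ^ (A + 3)) := by
      have h7 : s / N * (Y ^ 3 / (q * ℓ ^ (K + A + 3))) ≤
          (q * L ^ K) / (3 * X) * (Y ^ 3 / (q * ℓ ^ (K + A + 3))) := by
        rw [hNX]
        refine mul_le_mul_of_nonneg_right ?_ (by positivity)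
        exact div_le_div_of_nonneg_right hcard (by positivity)
      have h8 : (q * L ^ K) / (3 * X) * ((Y : ℝ) ^ 3 / (q * ℓ ^ (K + A + 3))) =
          (Y : ℝ) ^ 2 * ((Y / X) / 3 * (L ^ K / ℓ ^ (K + A + 3))) := by
        field_simp
      have h9 : (Y : ℝ) / X ≤ 1 := (div_le_one hX0).mpr hYr
      have h10 : L ^ K / ℓ ^ (K + A + 3) ≤ 2 ^ (K + A + 3) / L ^ (A + 3) := by
        rw [div_le_div_iff₀ (by positivity) (by positivity)]
        calc L ^ K * L ^ (A + 3) = L ^ (K + A + 3) := by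
              rw [← pow_add]
              congr 1
          _ ≤ (2 * ℓ) ^ (K + A + 3) := pow_le_pow_left₀ hL0.le (by linarith) _
          _ = 2 ^ (K + A + 3) * ℓ ^ (K + A + 3) := mul_pow _ _ _
      have h11 : (Y : ℝ) / X / 3 * (L ^ K / ℓ ^ (K + A + 3)) ≤ 1 * (L ^ K / ℓ ^ (K + A + 3)) := by
        refine mul_le_mul_of_nonneg_right ?_ (by positivity)
        linarith
      refine h7.trans (h8.le.trans (mul_le_mul_of_nonneg_left ?_ (by positivity)))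
      linarith
    calc 16 / (η ^ 2 * (Y : ℝ) ^ 2) * (δ * (Y * ℓ ^ C) ^ 2 +
          s / N * (Y ^ 3 / (q * ℓ ^ (K + A + 3))))
        ≤ 16 / (η ^ 2 * (Y : ℝ) ^ 2) * ((Y : ℝ) ^ 2 * (1 / L ^ (A + 3)) +
          (Y : ℝ) ^ 2 * (2 ^ (K + A + 3) / L ^ (A + 3))) :=
          mul_le_mul_of_nonneg_left (add_le_add e1 e2) (by positivity)
      _ = T / 2 / L ^ (A + 3) := by
          rw [hT]
          field_simp
          ring
  have hsecond : ∑ i ∈ range m, ∑ n ∈ (Icc 1 (X / 2 ^ i)).filter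
        (fun n : ℕ => SpecFinal_Bd ε n ∧ X / 2 ^ i < 2 * n ∧ (n : ZMod q) = (a : ZMod q)), ξ n ≤
        1 / 2 * (1 / L ^ A) := by
    refine (Finset.sum_le_sum hone).trans ?_
    rw [sum_const, card_range, nsmul_eq_mul]
    have h1 : (m : ℝ) * (T / 2 / L ^ (A + 3)) ≤ L * (L / 2 / L ^ (A + 3)) := by
      have hT0 : 0 ≤ T := by rw [hT]; positivity
      refine mul_le_mul hmL ?_ (by positivity) hL0.le
      refine div_le_div_of_nonneg_right ?_ (by positivity)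
      linarith
    refine h1.trans ?_
    have h2 : L * (L / 2 / L ^ (A + 3)) = 1 / 2 * (1 / L ^ A) * (1 / L) := by
      rw [pow_add]
      field_simp
    rw [h2]
    have h3 : 1 / L ≤ 1 := (div_le_one hL0).mpr hL1
    have h4 : 0 ≤ 1 / 2 * (1 / L ^ A) := by positivity
    exact mul_le_of_le_one_right h4 h3
  have hfirst : ∑ n ∈ (Icc 1 X).filter (fun n => 2 * n ≤ M ∧ n ≡ a [MOD q]), ξ n ≤
      1 / 2 * (1 / L ^ A) := by
    refine hsmall.trans ?_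
    have h1 : 256 * δ ≤ 1 / 8 * (1 / L ^ A) := by
      rw [hδ]
      have h2 : L ^ (2 * C + A + 3) = L ^ A * L ^ (2 * C + 3) := by
        rw [← pow_add]
        congr 1
        ring
      have h3 : (2048 : ℝ) ≤ L ^ (2 * C + 3) := by
        calc (2048 : ℝ) ≤ L := hL8
          _ = L ^ 1 := (pow_one L).symm
          _ ≤ L ^ (2 * C + 3) := pow_le_pow_right₀ hL1 (by omega)
      have h4 : 1 / 8 * (1 / L ^ A) = 1 / (8 * L ^ A) := by
        field_simp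
      rw [h2, h4, mul_one_div, div_le_div_iff₀ (by positivity) (by positivity)]
      have h5 := mul_le_mul_of_nonneg_left h3 (pow_pos hL0 A).le
      linarith
    have h2 : 256 * (s / N * (M / q)) ≤ 1 / 4 * (1 / L ^ A) := by
      have hMle : (M : ℝ) ≤ 2 * (X / 2 ^ m) := by
        have h5 : ((X / 2 ^ m : ℕ) : ℝ) ≤ X / ((2 ^ m : ℕ) : ℝ) := Nat.cast_div_le
        rw [hM]
        push_cast at h5 ⊢
        linarith
      calc 256 * (s / N * (M / q))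
          ≤ 256 * ((q * L ^ K) / (3 * X) * (2 * (X / 2 ^ m) / q)) := by
            rw [hNX]
            refine mul_le_mul_of_nonneg_left (mul_le_mul ?_ ?_ (by positivity) (by positivity))
              (by norm_num)
            · exact div_le_div_of_nonneg_right hcard (by positivity)
            · exact div_le_div_of_nonneg_right hMle (by positivity)
        _ = 512 / 3 * L ^ K / 2 ^ m := by
            field_simp
            ring
        _ ≤ 512 / 3 * L ^ K / (1024 * L ^ (K + A + 2)) := by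
            exact div_le_div_of_nonneg_left (by positivity) (by positivity) h2m'
        _ = 1 / 6 * (1 / L ^ A) * (1 / L ^ 2) := by
            have h6 : L ^ (K + A + 2) = L ^ K * L ^ A * L ^ 2 := by
              rw [← pow_add, ← pow_add]
            rw [h6]
            field_simp
            norm_num
        _ ≤ 1 / 6 * (1 / L ^ A) := by
            have h3 : 1 / L ^ 2 ≤ 1 := (div_le_one (by positivity)).mpr (one_le_pow₀ hL1)
            exact mul_le_of_le_one_right (by positivity) h3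
        _ ≤ 1 / 4 * (1 / L ^ A) := by
            have : 0 ≤ 1 / L ^ A := by positivity
            linarith
    have h3 : 0 ≤ 1 / L ^ A := by positivity
    linarith
  linarith

end Pool.MP_dd84fd_nt.L2G
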