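import Pool.Agent.Lib.MP_dd84fd_nt.L2G.Avg
import Pool.Agent.Lib.MP_dd84fd_nt.L2G.ClassIneq

set_option autoImplicit false

namespace Pool.MP_dd84fd_nt.L2G

open Finset Pool.MP_67663b_nt.Odd

private lemma Bq_eq (W X q : ℕ) (hq : 1 ≤ q) : Bq W X q = ∑ d ∈ q.divisors, Jd W X d := by
  unfold Bq Jd
  rw [← av_sum]
  congr 1
  funext θ
  rw [sum_range_div q hq (fun x => ‖VH W X (θ + x)‖ ^ 2), mul_sum]
  rfl

private lemma Jd_nonneg (W X d : ℕ) : 0 ≤ Jd W X d := by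
  unfold Jd Vst
  exact av_nonneg fun θ => by positivity

theorem sum_Bq (W X Q : ℕ) : ∑ q ∈ Icc 1 Q, Bq W X q ≤ Q * ∑ d ∈ Icc 1 Q, Jd W X d / d := by
  classical
  have h1 : ∀ q ∈ Icc 1 Q, Bq W X q = ∑ d ∈ Icc 1 Q, if d ∣ q then Jd W X d else 0 := by
    intro q hq
    rw [mem_Icc] at hq
    rw [Bq_eq W X q hq.1, ← sum_filter]
    refine sum_congr ?_ fun _ _ => rfl
    ext d
    rw [Nat.mem_divisors, mem_filter, mem_Icc]
    constructor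
    · rintro ⟨h1, h2⟩
      exact ⟨⟨Nat.pos_of_dvd_of_pos h1 hq.1, (Nat.le_of_dvd hq.1 h1).trans hq.2⟩, h1⟩
    · rintro ⟨_, h2⟩
      exact ⟨h2, by omega⟩
  rw [sum_congr rfl h1, sum_comm, mul_sum]
  refine sum_le_sum fun d hd => ?_
  rw [mem_Icc] at hd
  rw [← sum_filter, sum_const, nsmul_eq_mul]
  have hcard : ((Icc 1 Q).filter (fun q => d ∣ q)).card = Q / d := by
    have := Nat.Ioc_filter_dvd_card_eq_div Q d
    rw [← this]
    congr 1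
  rw [hcard]
  have h2 : ((Q / d : ℕ) : ℝ) ≤ (Q : ℝ) / d := Nat.cast_div_le
  calc ((Q / d : ℕ) : ℝ) * Jd W X d ≤ (Q : ℝ) / d * Jd W X d :=
        mul_le_mul_of_nonneg_right h2 (Jd_nonneg _ _ _)
    _ = (Q : ℝ) * (Jd W X d / d) := by ring

end Pool.MP_dd84fd_nt.L2G
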