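import Pool.Agent.Lib.MP_dd84fd_nt.L2G.ArcQ
import Pool.Agent.Lib.MP_dd84fd_nt.L2G.MinorAll
import Pool.Agent.Lib.MP_dd84fd_nt.L2G.TcSmall
import Pool.Agent.Lib.MP_dd84fd_nt.L2G.ModelMajor
import Pool.Agent.Lib.MP_dd84fd_nt.L2G.ClassAlg

set_option autoImplicit false

namespace Pool.MP_dd84fd_nt.L2G

open Finset Pool.MP_67663b_nt.Odd

/-- one class -/
private theorem SupNu_class (X R q : ℕ) [NeZero q] (b : ZMod q) (hb : IsUnit b) (r : ℕ) (y : ℤ)
    (β : ℝ) (hr : 1 ≤ r) (hrR : r ≤ R) (hrq : Nat.Coprime r q) (hy : IsCoprime y (r : ℤ))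
    (hβ : 2 * (r * R) * (q * |β|) ≤ 1) :
    ‖fz X q (nu X R q) (y / r + β) b -
      ((((ArithmeticFunction.moebius r : ℤ) : ℝ) / (Nat.totient r : ℝ) / (Nat.totient q : ℝ) : ℝ) : ℂ)
        * KI X β‖ ≤
      (q : ℝ) / (Nat.totient q : ℝ) * ((3 + 7 * (|β| * X)) + (r : ℝ) * R ^ 2) := by
  obtain ⟨κ, hκ⟩ : ∃ κ : ℝ, κ = (q : ℝ) / (Nat.totient q : ℝ) := ⟨_, rfl⟩
  rw [← hκ]
  have hq1 : 0 < q := Nat.pos_of_ne_zero (NeZero.ne q)
  have hq0 : (0 : ℝ) < q := by exact_mod_cast hq1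
  have hφ : (0 : ℝ) < Nat.totient q := by exact_mod_cast Nat.totient_pos.mpr hq1
  have hφr : (0 : ℝ) < Nat.totient r := by exact_mod_cast Nat.totient_pos.mpr hr
  have hr0 : (0 : ℝ) < r := by exact_mod_cast hr
  have hR0 : (0 : ℝ) < R := by exact_mod_cast (by omega : 0 < R)
  have hκ0 : 0 ≤ κ := by rw [hκ]; positivity
  obtain ⟨G, hG⟩ : ∃ G : ℝ → ℂ, G = fun x => ∑ n ∈ (Icc 1 X).filter
    (fun n : ℕ => (n : ZMod q) = b), ee ((n : ℝ) * x) := ⟨_, rfl⟩
  have h1 : fz X q (nu X R q) (y / r + β) b =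
      (κ : ℂ) * ∑ p ∈ ma_P R q, (ma_w p : ℂ) * G (ma_f p + (y / r + β)) := by
    unfold fz
    have h2 : ∀ n ∈ (Icc 1 X).filter (fun n : ℕ => (n : ZMod q) = b),
        ((nu X R q n : ℝ) : ℂ) * ee ((n : ℝ) * (y / r + β)) =
        (κ : ℂ) * ∑ p ∈ ma_P R q, (ma_w p : ℂ) * ee ((n : ℝ) * (ma_f p + (y / r + β))) := by
      intro n hn
      rw [mem_filter, mem_Icc] at hn
      rw [ma_nu_P X R q n hn.1.1 hn.1.2 (by rw [hn.2]; exact hb), ← hκ, mul_assoc,
        Finset.sum_mul]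
      congr 1
      refine Finset.sum_congr rfl fun p _ => ?_
      rw [mul_assoc, ← ee_add]
      congr 2
      ring
    rw [Finset.sum_congr rfl h2, ← Finset.mul_sum, Finset.sum_comm]
    congr 1
    refine Finset.sum_congr rfl fun p _ => ?_
    rw [hG, Finset.mul_sum]
  -- the special element
  obtain ⟨t0, ht0, ht0r⟩ : ∃ t0 : ℕ, (r : ℤ) ∣ t0 + y ∧ t0 < r := by
    refine ⟨((-y) % (r : ℤ)).toNat, ?_, ?_⟩
    · have h2 : (0 : ℤ) ≤ (-y) % (r : ℤ) := Int.emod_nonneg _ (by omega)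
      rw [Int.toNat_of_nonneg h2]
      have h3 := Int.emod_add_mul_ediv (-y) (r : ℤ)
      exact ⟨-((-y) / (r : ℤ)), by linarith⟩
    · have h2 : (-y) % (r : ℤ) < r := Int.emod_lt_of_pos _ (by omega)
      have h3 : (0 : ℤ) ≤ (-y) % (r : ℤ) := Int.emod_nonneg _ (by omega)
      omega
  have ht0c : Nat.Coprime r t0 := by
    rw [← Nat.isCoprime_iff_coprime]
    obtain ⟨k, hk⟩ := ht0
    have h2 : (t0 : ℤ) = -y + r * k := by linarith
    rw [h2]
    exact (hy.symm.neg_right).add_mul_left_right k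
  have hp0 : (⟨r, t0⟩ : Σ _ : ℕ, ℕ) ∈ ma_P R q := by
    rw [ma_mem_P]
    exact ⟨hr, hrR, hrq, ht0r, ht0c⟩
  have hG0 : G (ma_f ⟨r, t0⟩ + (y / r + β)) = G β := by
    obtain ⟨k, hk⟩ := ht0
    have h2 : ma_f ⟨r, t0⟩ + (y / r + β) = β + k := by
      unfold ma_f
      have h3 : (t0 : ℝ) + y = r * k := by exact_mod_cast hk
      have h4 : (t0 : ℝ) / r + y / r = k := by
        rw [← add_div, h3]
        field_simp
      change (t0 : ℝ) / r + (y / r + β) = β + k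
      linarith
    rw [h2, hG]
    refine Finset.sum_congr rfl fun n _ => ?_
    have h3 : (n : ℝ) * (β + k) = (n : ℝ) * β + (((n : ℤ) * k : ℤ) : ℝ) := by
      push_cast
      ring
    rw [h3, ee_add_int]
  -- the others
  have hoff : ∀ p ∈ ma_P R q, p ≠ ⟨r, t0⟩ →
      ‖G (ma_f p + (y / r + β))‖ ≤ (r : ℝ) * R := by
    intro p hp hne
    rw [ma_mem_P] at hp
    rw [hG]
    refine (ma_mn X q b _).trans ?_
    have hp1 : (0 : ℝ) < p.1 := by exact_mod_cast hp.1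
    have hp1' : (p.1 : ℝ) ≤ R := by exact_mod_cast hp.2.1
    have hsp := ma_spacing q p.1 r hp.1 hr hp.2.2.1 hrq (p.2 : ℤ) y
      ((Nat.isCoprime_iff_coprime.mpr hp.2.2.2.2).symm) hy (by
        rintro ⟨h3, h4⟩
        apply hne
        have h5 : ((p.2 : ℤ) - (t0 : ℤ)) = 0 := by
          refine Int.eq_zero_of_abs_lt_dvd (m := (r : ℤ)) ?_ ?_
          · have e : (p.2 : ℤ) - t0 = (p.2 + y) - (t0 + y) := by ring
            rw [e]
            refine dvd_sub ?_ ht0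
            rw [← h3]
            exact h4
          · rw [abs_lt]
            have h6 := hp.2.2.2.1
            rw [h3] at h6
            constructor <;> omega
        have h6 : p.2 = t0 := by omega
        exact Sigma.ext h3 (heq_of_eq h6))
    have e : (q : ℝ) * (ma_f p + (y / r + β)) =
        (q : ℝ) * ((((p.2 : ℕ) : ℤ) : ℝ) / p.1 + (y : ℝ) / r) + q * β := by
      unfold ma_f
      push_cast
      ring
    have h3 : 1 / (2 * ((p.1 : ℝ) * r)) ≤ nrm (q * (ma_f p + (y / r + β))) := by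
      rw [e]
      have h4 := ma_nrm_add ((q : ℝ) * ((((p.2 : ℕ) : ℤ) : ℝ) / p.1 + (y : ℝ) / r)) (q * β)
      have h5 : |(q : ℝ) * β| ≤ 1 / (2 * ((p.1 : ℝ) * r)) := by
        rw [abs_mul, abs_of_pos hq0, le_div_iff₀ (by positivity)]
        refine le_trans ?_ hβ
        have h6 : 2 * ((p.1 : ℝ) * r) ≤ 2 * (r * R) := by nlinarith
        calc (q : ℝ) * |β| * (2 * ((p.1 : ℝ) * r)) ≤ (q : ℝ) * |β| * (2 * (r * R)) :=
              mul_le_mul_of_nonneg_left h6 (by positivity)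
          _ = 2 * (r * R) * (q * |β|) := by ring
      have h6 : 1 / ((p.1 : ℝ) * r) = 1 / (2 * ((p.1 : ℝ) * r)) + 1 / (2 * ((p.1 : ℝ) * r)) := by
        field_simp
        norm_num
      linarith
    refine (ma_mn_inv _ _ _ (by positivity) h3).trans ?_
    have h6 : 1 / (2 * (1 / (2 * ((p.1 : ℝ) * r)))) = (p.1 : ℝ) * r := by
      field_simp
    rw [h6, mul_comm]
    exact mul_le_mul_of_nonneg_left hp1' hr0.le
  have hsplit : ∑ p ∈ ma_P R q, (ma_w p : ℂ) * G (ma_f p + (y / r + β)) =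
      (ma_w ⟨r, t0⟩ : ℂ) * G β + ∑ p ∈ (ma_P R q).erase ⟨r, t0⟩,
        (ma_w p : ℂ) * G (ma_f p + (y / r + β)) := by
    rw [← Finset.add_sum_erase _ _ hp0, hG0]
  have hw0 : ma_w ⟨r, t0⟩ = ((ArithmeticFunction.moebius r : ℤ) : ℝ) / (Nat.totient r : ℝ) := rfl
  have hKI := ma_KI X q b β
  have hκq : κ / q = 1 / (Nat.totient q : ℝ) := by
    rw [hκ]
    field_simp
  have e3 : (κ : ℂ) * ((ma_w ⟨r, t0⟩ : ℂ) * G β + ∑ p ∈ (ma_P R q).erase ⟨r, t0⟩,
        (ma_w p : ℂ) * G (ma_f p + (y / r + β))) -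
      ((((ArithmeticFunction.moebius r : ℤ) : ℝ) / (Nat.totient r : ℝ) / (Nat.totient q : ℝ) : ℝ) : ℂ)
        * KI X β = (κ : ℂ) * ((ma_w ⟨r, t0⟩ : ℂ) * (((1 / q : ℝ) : ℂ) * ((q : ℂ) * G β - KI X β)) +
          ∑ p ∈ (ma_P R q).erase ⟨r, t0⟩, (ma_w p : ℂ) * G (ma_f p + (y / r + β))) := by
    have h5 : ((((ArithmeticFunction.moebius r : ℤ) : ℝ) / (Nat.totient r : ℝ) /
        (Nat.totient q : ℝ) : ℝ) : ℂ) = (κ : ℂ) * ((ma_w ⟨r, t0⟩ : ℂ) * ((1 / q : ℝ) : ℂ)) := by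
      rw [hw0, ← Complex.ofReal_mul, ← Complex.ofReal_mul]
      congr 1
      rw [hκ]
      field_simp
    have h6 : ((1 / q : ℝ) : ℂ) * (q : ℂ) = 1 := by
      have : (q : ℂ) ≠ 0 := by exact_mod_cast hq1.ne'
      push_cast
      field_simp
    rw [h5]
    linear_combination (-(κ : ℂ) * (ma_w ⟨r, t0⟩ : ℂ) * G β) * h6
  rw [h1, hsplit, e3, norm_mul, Complex.norm_real, Real.norm_eq_abs, abs_of_nonneg hκ0]
  refine mul_le_mul_of_nonneg_left ?_ hκ0
  refine (norm_add_le _ _).trans (add_le_add ?_ ?_)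
  · rw [norm_mul, norm_mul, Complex.norm_real, Complex.norm_real, Real.norm_eq_abs,
      Real.norm_eq_abs, abs_of_nonneg (by positivity : (0 : ℝ) ≤ 1 / q)]
    have hw1 : |ma_w ⟨r, t0⟩| ≤ 1 := by
      have h3 := ma_mu_le r hr
      have h4 : (1 : ℝ) ≤ Nat.totient r := by exact_mod_cast Nat.totient_pos.mpr hr
      rw [← hw0] at h3
      have h6 := abs_nonneg (ma_w ⟨r, t0⟩)
      nlinarith
    have h2 : (1 / q : ℝ) * ‖(q : ℂ) * G β - KI X β‖ ≤ 3 + 7 * (|β| * X) := by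
      rw [one_div, inv_mul_eq_div, div_le_iff₀ hq0, mul_comm (3 + 7 * (|β| * (X : ℝ))) (q : ℝ), hG]
      exact hKI
    calc |ma_w ⟨r, t0⟩| * ((1 / q : ℝ) * ‖(q : ℂ) * G β - KI X β‖)
        ≤ 1 * (3 + 7 * (|β| * X)) :=
          mul_le_mul hw1 h2 (by positivity) (by norm_num)
      _ = _ := one_mul _
  · refine (norm_sum_le _ _).trans ?_
    have h3 : ∀ p ∈ (ma_P R q).erase ⟨r, t0⟩, ‖(ma_w p : ℂ) * G (ma_f p + (y / r + β))‖ ≤
        |ma_w p| * ((r : ℝ) * R) := by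
      intro p hp
      rw [mem_erase] at hp
      rw [norm_mul, Complex.norm_real, Real.norm_eq_abs]
      exact mul_le_mul_of_nonneg_left (hoff p hp.2 hp.1) (abs_nonneg _)
    refine (Finset.sum_le_sum h3).trans ?_
    rw [← Finset.sum_mul]
    have h4 : ∑ p ∈ (ma_P R q).erase ⟨r, t0⟩, |ma_w p| ≤ R :=
      le_trans (Finset.sum_le_sum_of_subset_of_nonneg (Finset.erase_subset _ _)
        fun _ _ _ => abs_nonneg _) (ma_sum_w R q)
    calc (∑ p ∈ (ma_P R q).erase ⟨r, t0⟩, |ma_w p|) * ((r : ℝ) * R) ≤ R * ((r : ℝ) * R) :=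
          mul_le_mul_of_nonneg_right h4 (by positivity)
      _ = (r : ℝ) * R ^ 2 := by ring

private theorem SupNu_filter (X : ℕ) (b : ZMod 1) :
    (Icc 1 X).filter (fun n : ℕ => (n : ZMod 1) = b) = Icc 1 X := by
  ext n
  rw [mem_filter]
  exact ⟨fun h => h.1, fun h => ⟨h, Subsingleton.elim _ _⟩⟩

private theorem SupNu_VA (X : ℕ) (f : ℕ → ℝ) (θ : ℝ) : VA X 1 f θ = ‖Se X f θ‖ ^ 2 := by
  unfold VA
  rw [Fintype.sum_eq_single (0 : ZMod 1) (fun b hb => absurd (Subsingleton.elim b 0) hb)]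
  unfold fz Se
  rw [SupNu_filter]

private theorem SupNu_ev (m : ℕ) (s c : ℝ) (hs : 0 < s) (hc : 0 < c) :
    ∀ᶠ X : ℕ in Filter.atTop, Real.log X ^ m ≤ c * (X : ℝ) ^ s := by
  have h1 := (isLittleO_log_rpow_rpow_atTop (m : ℝ) hs).bound hc
  have h2 : ∀ᶠ x : ℝ in Filter.atTop, Real.log x ^ m ≤ c * x ^ s := by
    filter_upwards [h1, Filter.eventually_ge_atTop (1 : ℝ)] with x hx hx1
    rw [Real.rpow_natCast, Real.norm_of_nonneg (pow_nonneg (Real.log_nonneg hx1) _),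
      Real.norm_of_nonneg (Real.rpow_nonneg (by linarith) _)] at hx
    exact hx
  exact tendsto_natCast_atTop_atTop.eventually h2

theorem sup_nu (A : ℕ) : ∃ X0 : ℕ, ∀ X : ℕ, X0 ≤ X → ∀ θ : ℝ,
    ‖Se X (la X) θ - Se X (nu X (Rm X) 1) θ‖ ≤ X / Real.log X ^ A := by
  obtain ⟨B, X1, hmin⟩ := minor_all (1 / 3) (by norm_num) (by norm_num) (2 * A + 2)
  obtain ⟨X2, hone⟩ := Tc_one (A + 1) B
  have hev : ∀ᶠ X : ℕ in Filter.atTop, 4 ≤ Real.log X :=
    (Real.tendsto_log_atTop.comp tendsto_natCast_atTop_atTop).eventually_ge_atTop _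
  have hev2 : ∀ᶠ X : ℕ in Filter.atTop, (2 : ℝ) ≤ (X : ℝ) ^ (1 / 50 : ℝ) :=
    ((tendsto_rpow_atTop (by norm_num : (0 : ℝ) < 1 / 50)).comp
      tendsto_natCast_atTop_atTop).eventually_ge_atTop 2
  have hev3 := SupNu_ev B (1 / 50) (1 / 2) (by norm_num) (by norm_num)
  have hev4 := SupNu_ev (A + 1) (1 / 50) (1 / 26) (by norm_num) (by norm_num)
  obtain ⟨X3, hX3⟩ := Filter.eventually_atTop.1 (hev.and (hev2.and (hev3.and hev4)))
  refine ⟨max (max X1 X2) (max X3 3), ?_⟩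
  intro X hX θ
  have hXa : X1 ≤ X := (le_max_left _ _).trans ((le_max_left _ _).trans hX)
  have hXb : X2 ≤ X := (le_max_right _ _).trans ((le_max_left _ _).trans hX)
  have hXc : X3 ≤ X := (le_max_left _ _).trans ((le_max_right _ _).trans hX)
  have hXd : 3 ≤ X := (le_max_right _ _).trans ((le_max_right _ _).trans hX)
  obtain ⟨hL4, hx2, hxB, hxA⟩ := hX3 X hXc
  set L : ℝ := Real.log X with hLdef
  have hL0 : 0 < L := by linarith
  have hX1 : (1 : ℝ) ≤ X := by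
    have : 1 ≤ X := by omega
    exact_mod_cast this
  have hX0 : (0 : ℝ) < X := by linarith
  have hLA : 0 < L ^ A := by positivity
  have hbound : 2 * (X / L ^ (A + 1)) ≤ X / L ^ A := by
    have : X / L ^ (A + 1) = X / L ^ A / L := by rw [pow_succ, div_div]
    rw [this]
    have h1 : (X : ℝ) / L ^ A / L ≤ X / L ^ A / 2 := by
      gcongr
      linarith
    linarith
  have hq1 : ((1 : ℕ) : ℝ) ≤ (X : ℝ) ^ (2 / 3 - 1 / 3 : ℝ) := by
    rw [Nat.cast_one]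
    exact Real.one_le_rpow hX1 (by norm_num)
  by_cases hθ : θ ∈ MajQ X 1 B
  · -- major arcs
    obtain ⟨t, r, c, y, β, ht1, hr1, htr, htp, hrc, hy, hβ, hθeq⟩ :=
      major_split X 1 B (by omega) le_rfl θ hθ
    have ht : t = 1 := by
      by_contra hcon
      obtain ⟨p, hp, hpt⟩ := Nat.exists_prime_and_dvd hcon
      exact hp.one_lt.ne' (Nat.dvd_one.1 (htp p hp hpt))
    subst ht
    have hrL : (r : ℝ) ≤ L ^ B := by
      rw [Nat.cast_one, one_mul] at htr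
      exact htr
    have hθ' : θ = (y / r + β) + (c : ℝ) := by
      rw [hθeq]
      push_cast
      ring
    rw [hθ', Se_add_int, Se_add_int]
    -- primes
    have h1 := hone X hXb 1 (by omega) r y β hr1 hrL (Nat.coprime_one_right r) hy hβ
    have e1 : Tc X 1 (la X) (y / r + β) 1 = Se X (la X) (y / r + β) := by
      unfold Tc Se
      refine sum_congr rfl fun n _ => ?_
      have : (1 : DirichletCharacter ℂ 1) (n : ZMod 1) = 1 := by
        rw [MulChar.one_apply (isUnit_of_subsingleton _)]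
      rw [this, mul_one]
    rw [e1] at h1
    -- the model
    have hRpos : (0 : ℝ) ≤ (X : ℝ) ^ (1 / 50 : ℝ) := by positivity
    have hRle : ((Rm X : ℕ) : ℝ) ≤ (X : ℝ) ^ (1 / 50 : ℝ) := Nat.floor_le hRpos
    have hrR : r ≤ Rm X := by
      refine Nat.le_floor ?_
      refine hrL.trans (hxB.trans ?_)
      linarith
    have hxpow : ∀ k : ℕ, ((X : ℝ) ^ (1 / 50 : ℝ)) ^ k = (X : ℝ) ^ ((k : ℝ) / 50) := by
      intro k
      rw [← Real.rpow_natCast, ← Real.rpow_mul hX0.le]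
      congr 1
      ring
    set x : ℝ := (X : ℝ) ^ (1 / 50 : ℝ) with hx
    have hx50 : x ^ 50 = X := by
      rw [hxpow 50]
      norm_num
    have hr0 : (0 : ℝ) ≤ r := Nat.cast_nonneg r
    have hrx : (r : ℝ) ≤ x := hrL.trans (by linarith)
    have hβX : |β| * X ≤ x := by
      have h2 : |β| * X ≤ L ^ B := by
        rw [le_div_iff₀ hX0] at hβ
        exact hβ
      linarith
    have hR0 : (0 : ℝ) ≤ (Rm X : ℕ) := Nat.cast_nonneg _
    have hββ : 2 * ((r : ℝ) * (Rm X : ℕ)) * (((1 : ℕ) : ℝ) * |β|) ≤ 1 := by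
      rw [Nat.cast_one, one_mul]
      have h2 : (r : ℝ) * (Rm X : ℕ) ≤ x * x := mul_le_mul hrx hRle hR0 (by linarith)
      have h3 : 2 * ((r : ℝ) * (Rm X : ℕ)) * |β| * X ≤ 2 * (x * x) * x := by
        calc 2 * ((r : ℝ) * (Rm X : ℕ)) * |β| * X = 2 * ((r : ℝ) * (Rm X : ℕ)) * (|β| * X) := by ring
          _ ≤ 2 * (x * x) * x := by gcongr
      have h4 : 2 * (x * x) * x ≤ X := by
        rw [← hx50]
        have h5 : (2 : ℝ) ≤ x ^ 47 := by
          calc (2 : ℝ) ≤ x := hx2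
            _ = x ^ 1 := (pow_one x).symm
            _ ≤ x ^ 47 := pow_le_pow_right₀ (by linarith) (by norm_num)
        calc 2 * (x * x) * x = 2 * x ^ 3 := by ring
          _ ≤ x ^ 47 * x ^ 3 := by gcongr
          _ = x ^ 50 := by ring
      have h5 := h3.trans h4
      by_contra hcon
      rw [not_le] at hcon
      have : (X : ℝ) < 2 * ((r : ℝ) * (Rm X : ℕ)) * |β| * X := by
        calc (X : ℝ) = 1 * X := (one_mul _).symm
          _ < _ := mul_lt_mul_of_pos_right hcon hX0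
      linarith
    have h2 := SupNu_class X (Rm X) 1 (1 : ZMod 1) isUnit_one r y β hr1 hrR
      (Nat.coprime_one_right r) hy hββ
    have e2 : fz X 1 (nu X (Rm X) 1) (y / r + β) 1 = Se X (nu X (Rm X) 1) (y / r + β) := by
      unfold fz Se
      rw [SupNu_filter]
    rw [e2] at h2
    simp only [Nat.totient_one, Nat.cast_one, div_one, one_mul] at h2
    -- conclusion
    have h3 : (3 + 7 * (|β| * X)) + (r : ℝ) * ((Rm X : ℕ) : ℝ) ^ 2 ≤ X / L ^ (A + 1) := by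
      have h4 : (r : ℝ) * ((Rm X : ℕ) : ℝ) ^ 2 ≤ x * x ^ 2 := by gcongr
      have h5 : (3 : ℝ) ≤ 3 * x ^ 3 := by
        have : (1 : ℝ) ≤ x ^ 3 := one_le_pow₀ (by linarith)
        linarith
      have h6 : 7 * (|β| * X) ≤ 7 * x ^ 3 := by
        have : x ≤ x ^ 3 := by
          calc x = x ^ 1 := (pow_one x).symm
            _ ≤ x ^ 3 := pow_le_pow_right₀ (by linarith) (by norm_num)
        linarith
      have h7 : x * x ^ 2 = x ^ 3 := by ring
      have h8 : (3 + 7 * (|β| * X)) + (r : ℝ) * ((Rm X : ℕ) : ℝ) ^ 2 ≤ 11 * x ^ 3 := by linarith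
      refine h8.trans ?_
      rw [le_div_iff₀ (by positivity), ← hx50]
      have h9 : (1 : ℝ) ≤ x ^ 46 := one_le_pow₀ (by linarith)
      have h10 : 0 < x ^ 3 := by positivity
      calc 11 * x ^ 3 * L ^ (A + 1) ≤ 11 * x ^ 3 * (1 / 26 * x) := by gcongr
        _ ≤ x ^ 3 * x * 1 := by nlinarith [mul_pos h10 (by linarith : (0 : ℝ) < x)]
        _ ≤ x ^ 3 * x * x ^ 46 := by
            have : 0 ≤ x ^ 3 * x := by positivity
            gcongr
        _ = x ^ 50 := by ring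
    have h4 : ‖Se X (la X) (y / r + β) - Se X (nu X (Rm X) 1) (y / r + β)‖ ≤
        X / L ^ (A + 1) + X / L ^ (A + 1) := by
      have e3 : Se X (la X) (y / r + β) - Se X (nu X (Rm X) 1) (y / r + β) =
          (Se X (la X) (y / r + β) -
            ((((ArithmeticFunction.moebius r : ℤ) : ℝ) / (Nat.totient r : ℝ) : ℝ) : ℂ) * KI X β) -
          (Se X (nu X (Rm X) 1) (y / r + β) -
            ((((ArithmeticFunction.moebius r : ℤ) : ℝ) / (Nat.totient r : ℝ) : ℝ) : ℂ) * KI X β) := by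
        ring
      rw [e3]
      exact (norm_sub_le _ _).trans (add_le_add h1 (h2.trans h3))
    linarith
  · -- minor arcs
    obtain ⟨h1, h2⟩ := hmin X hXa 1 hq1 θ hθ
    rw [SupNu_VA] at h1 h2
    have e1 : (X : ℝ) ^ 2 / (((1 : ℕ) : ℝ) * L ^ (2 * A + 2)) = (X / L ^ (A + 1)) ^ 2 := by
      rw [Nat.cast_one, one_mul, div_pow, ← pow_mul]
      congr 2
      ring
    rw [e1] at h1 h2
    have hpos : 0 ≤ X / L ^ (A + 1) := by positivity
    have h3 := abs_le_of_sq_le_sq' h1 hpos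
    have h4 := abs_le_of_sq_le_sq' h2 hpos
    calc ‖Se X (la X) θ - Se X (nu X (Rm X) 1) θ‖
        ≤ ‖Se X (la X) θ‖ + ‖Se X (nu X (Rm X) 1) θ‖ := norm_sub_le _ _
      _ ≤ X / L ^ (A + 1) + X / L ^ (A + 1) := add_le_add h3.2 h4.2
      _ ≤ X / L ^ A := by linarith

end Pool.MP_dd84fd_nt.L2G
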