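import Pool.Agent.Lib.MP_dd84fd_nt.L2G.Decay
import Pool.Agent.Lib.MP_dd84fd_nt.L2G.MajorPNT
import Pool.Agent.Lib.MP_dd84fd_nt.L2G.ModelF
import Pool.Agent.Lib.MP_dd84fd_nt.L2G.ModelL2
import Pool.Agent.Lib.MP_dd84fd_nt.DivBound

set_option autoImplicit false

namespace Pool.MP_dd84fd_nt.L2G

open Finset Pool.MP_67663b_nt.Odd

/-- `M log^n X ≤ X` for large `X`. -/
private theorem supU_log (M : ℝ) (n : ℕ) : ∃ X0 : ℕ, ∀ X : ℕ, X0 ≤ X →
    M * Real.log X ^ n ≤ X := by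
  have h := (Real.isLittleO_pow_log_id_atTop (n := n)).comp_tendsto
    (tendsto_natCast_atTop_atTop (R := ℝ))
  have h2 := h.def (show (0 : ℝ) < 1 / (|M| + 1) by positivity)
  obtain ⟨X0, hX0⟩ := Filter.eventually_atTop.1 h2
  refine ⟨X0, fun X hX => ?_⟩
  have h3 := hX0 X hX
  simp only [Function.comp, id, Real.norm_eq_abs, Nat.abs_cast] at h3
  have h4 : M * Real.log X ^ n ≤ (|M| + 1) * |Real.log X ^ n| := by
    calc M * Real.log X ^ n ≤ |M * Real.log X ^ n| := le_abs_self _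
      _ = |M| * |Real.log X ^ n| := abs_mul _ _
      _ ≤ _ := mul_le_mul_of_nonneg_right (by linarith) (abs_nonneg _)
  refine h4.trans ?_
  have h5 : (0 : ℝ) < |M| + 1 := by positivity
  calc (|M| + 1) * |Real.log X ^ n| ≤ (|M| + 1) * (1 / (|M| + 1) * X) :=
        mul_le_mul_of_nonneg_left h3 h5.le
    _ = X := by field_simp

private theorem supU_totient : ∃ C : ℝ, 0 < C ∧ ∀ r : ℕ, 1 ≤ r →
    1 / (Nat.totient r : ℝ) ≤ C * (r : ℝ) ^ (-(1 / 3 : ℝ)) := by
  obtain ⟨C, hC1, hC⟩ := Pool.Agent.Lib.MP_dd84fd_nt.DivBound.div_bound 3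
  refine ⟨C, by exact_mod_cast hC1, fun r hr => ?_⟩
  have hr0 : (0 : ℝ) < r := by exact_mod_cast hr
  have hφ : (0 : ℝ) < Nat.totient r := by exact_mod_cast Nat.totient_pos.2 hr
  have hCr : (1 : ℝ) ≤ C := by exact_mod_cast hC1
  -- r ≤ φ(r) τ(r)
  have h1 : (r : ℝ) ≤ Nat.totient r * r.divisors.card := by
    have h : r ≤ r.divisors.card * Nat.totient r := by
      calc r = ∑ m ∈ r.divisors, Nat.totient m := (Nat.sum_totient r).symm
        _ ≤ ∑ m ∈ r.divisors, Nat.totient r := Finset.sum_le_sum fun m hm =>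
            Nat.le_of_dvd (Nat.totient_pos.2 hr)
              (Nat.totient_dvd_of_dvd (Nat.dvd_of_mem_divisors hm))
        _ = _ := by rw [Finset.sum_const, smul_eq_mul]
    have h' : (r : ℝ) ≤ r.divisors.card * Nat.totient r := by exact_mod_cast h
    linarith [mul_comm (r.divisors.card : ℝ) (Nat.totient r : ℝ)]
  have h2 : ((r.divisors.card : ℝ)) ^ 3 ≤ C * r := by exact_mod_cast hC r (by omega)
  have h3 : (r.divisors.card : ℝ) ≤ C * (r : ℝ) ^ (2 / 3 : ℝ) := by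
    refine le_of_pow_le_pow_left₀ (show (3 : ℕ) ≠ 0 by norm_num) (by positivity) ?_
    refine h2.trans ?_
    rw [mul_pow, ← Real.rpow_natCast ((r : ℝ) ^ (2 / 3 : ℝ)), ← Real.rpow_mul hr0.le]
    have e : (2 / 3 : ℝ) * ((3 : ℕ) : ℝ) = (2 : ℕ) := by push_cast; norm_num
    rw [e, Real.rpow_natCast]
    have hr1 : (1 : ℝ) ≤ r := by exact_mod_cast hr
    have h6 : (C : ℝ) ≤ C ^ 3 := by nlinarith [sq_nonneg ((C : ℝ) - 1), sq_nonneg (C : ℝ)]
    have h7 : (r : ℝ) ≤ r ^ 2 := by nlinarith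
    exact mul_le_mul h6 h7 hr0.le (by positivity)
  have h4 : (r : ℝ) ≤ Nat.totient r * (C * (r : ℝ) ^ (2 / 3 : ℝ)) :=
    h1.trans (mul_le_mul_of_nonneg_left h3 hφ.le)
  rw [div_le_iff₀ hφ]
  have h5 : (r : ℝ) ^ (-(1 / 3 : ℝ)) * r ^ (1 / 3 : ℝ) = 1 := by
    rw [← Real.rpow_add hr0]; norm_num
  have h6 : (r : ℝ) ^ (2 / 3 : ℝ) * r ^ (1 / 3 : ℝ) = r := by
    rw [← Real.rpow_add hr0]; norm_num
  have h7 : (0 : ℝ) < (r : ℝ) ^ (1 / 3 : ℝ) := Real.rpow_pos_of_pos hr0 _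
  have h8 : (0 : ℝ) < (r : ℝ) ^ (2 / 3 : ℝ) := Real.rpow_pos_of_pos hr0 _
  -- r^{1/3} ≤ φ C
  have h9 : (r : ℝ) ^ (1 / 3 : ℝ) ≤ Nat.totient r * C := by
    have : (r : ℝ) ^ (2 / 3 : ℝ) * r ^ (1 / 3 : ℝ) ≤ r ^ (2 / 3 : ℝ) * (Nat.totient r * C) := by
      rw [h6]; linarith [mul_comm (C : ℝ) ((r : ℝ) ^ (2 / 3 : ℝ)),
        show (Nat.totient r : ℝ) * (C * (r : ℝ) ^ (2 / 3 : ℝ)) =
          (r : ℝ) ^ (2 / 3 : ℝ) * (Nat.totient r * C) by ring]
    exact le_of_mul_le_mul_left this h8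
  calc (1 : ℝ) = (r : ℝ) ^ (-(1 / 3 : ℝ)) * r ^ (1 / 3 : ℝ) := h5.symm
    _ ≤ (r : ℝ) ^ (-(1 / 3 : ℝ)) * (Nat.totient r * C) :=
        mul_le_mul_of_nonneg_left h9 (Real.rpow_pos_of_pos hr0 _).le
    _ = _ := by ring

/-- the model off the multiples -/
private theorem supU_nrm (W r : ℕ) (hr : 1 ≤ r) (y : ℤ) (hy : IsCoprime y (r : ℤ)) (hd : ¬ r ∣ W)
    (β : ℝ) (hβ : 2 * r * (W * |β|) ≤ 1) : 1 / (2 * (r : ℝ)) ≤ nrm (W * (y / r + β)) := by
  have hr0 : (0 : ℝ) < r := by exact_mod_cast hr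
  unfold nrm
  set n := round ((W : ℝ) * (y / r + β)) with hn
  have h1 : (W : ℤ) * y - n * r ≠ 0 := by
    intro h
    apply hd
    have h2 : (r : ℤ) ∣ (W : ℤ) * y := ⟨n, by linarith [mul_comm n (r : ℤ)]⟩
    exact Int.natCast_dvd_natCast.1 (hy.symm.dvd_of_dvd_mul_right h2)
  have h2 : (1 : ℝ) ≤ |((W : ℤ) * y - n * r : ℤ)| := by
    exact_mod_cast Int.one_le_abs h1
  have h3 : (1 : ℝ) / r ≤ |(W : ℝ) * (y / r) - n| := by
    have e : (W : ℝ) * (y / r) - n = (((W : ℤ) * y - n * r : ℤ) : ℝ) / r := by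
      push_cast
      field_simp
    rw [e, abs_div, abs_of_pos hr0]
    have h2' : (1 : ℝ) ≤ |(((W : ℤ) * y - n * r : ℤ) : ℝ)| := by
      rw [← Int.cast_abs]; exact_mod_cast h2
    exact div_le_div_of_nonneg_right h2' hr0.le
  have h4 : |(W : ℝ) * (y / r) - n| ≤ |(W : ℝ) * (y / r + β) - n| + W * |β| := by
    have e : (W : ℝ) * (y / r) - n = ((W : ℝ) * (y / r + β) - n) - W * β := by ring
    rw [e]
    refine (abs_sub _ _).trans ?_
    rw [abs_mul, Nat.abs_cast]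
  have h5 : W * |β| ≤ 1 / (2 * (r : ℝ)) := by
    rw [le_div_iff₀ (by positivity)]
    linarith
  have h6 : (1 : ℝ) / r = 1 / (2 * (r : ℝ)) + 1 / (2 * (r : ℝ)) := by field_simp; norm_num
  linarith

private theorem supU_WH (W X : ℕ) (θ : ℝ) (hW : 1 ≤ W) :
    WH W X θ = WH (∏ p ∈ W.primeFactors, p) X θ := by
  unfold WH Se
  refine Finset.sum_congr rfl fun n _ => ?_
  rw [lw_rad W X n hW]

theorem sup_U : ∃ C : ℝ, 0 < C ∧ ∀ w : ℕ, 2 ≤ w → ∀ B0 : ℕ, ∃ X0 : ℕ, ∀ X : ℕ, X0 ≤ X →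
    ∀ (r : ℕ) (y : ℤ) (β : ℝ), 1 ≤ r → (r : ℝ) ≤ Real.log X ^ B0 →
    IsCoprime y (r : ℤ) → |β| ≤ Real.log X ^ B0 / X →
    ‖UH w.factorial X (y / r + β)‖ ≤ C * X * (max (r : ℝ) w) ^ (-(1 / 3 : ℝ)) +
      C * X * Real.log (Real.log X) ^ 4 / Real.log X ∧
    ‖VH w.factorial X (y / r + β)‖ ≤ C * X * (r : ℝ) ^ (-(1 / 3 : ℝ)) +
      C * X * Real.log (Real.log X) ^ 4 / Real.log X := by
  obtain ⟨CD, hCD, hdecay⟩ := decay
  obtain ⟨CT, hCT, htot⟩ := supU_totient
  refine ⟨CD + CT + 3, by positivity, fun w hw B0 => ?_⟩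
  set W := w.factorial with hWdef
  have hW1 : 1 ≤ W := Nat.one_le_iff_ne_zero.2 (Nat.factorial_ne_zero w)
  set W0 := ∏ p ∈ W.primeFactors, p with hW0def
  have hW01 : 1 ≤ W0 := Nat.one_le_iff_ne_zero.2 (Finset.prod_ne_zero_iff.2 fun p hp =>
    (Nat.prime_of_mem_primeFactors hp).ne_zero)
  have hW0W : W0 ≤ W := Nat.le_of_dvd hW1 (Nat.prod_primeFactors_dvd W)
  obtain ⟨X1, hX1⟩ := hdecay B0
  have hw0 : (0 : ℝ) < w := by exact_mod_cast (by omega : 0 < w)
  have hw1 : (1 : ℝ) ≤ w := by exact_mod_cast (by omega : 1 ≤ w)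
  obtain ⟨X2, hX2⟩ := major_pnt w (1 / w) (by positivity)
  obtain ⟨X3, hX3⟩ := supU_log (W * (10 + 7 * w) * w) (2 * B0 + 1)
  obtain ⟨X4, hX4⟩ : ∃ X4 : ℕ, ∀ X : ℕ, X4 ≤ X → 1 ≤ Real.log (Real.log X) ∧ 1 ≤ Real.log X := by
    have h1 := ((Real.tendsto_log_atTop.comp Real.tendsto_log_atTop).comp
      (tendsto_natCast_atTop_atTop (R := ℝ))).eventually_ge_atTop 1
    have h2 := (Real.tendsto_log_atTop.comp
      (tendsto_natCast_atTop_atTop (R := ℝ))).eventually_ge_atTop 1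
    obtain ⟨X4, hX4⟩ := Filter.eventually_atTop.1 (h1.and h2)
    exact ⟨X4, fun X hX => hX4 X hX⟩
  refine ⟨X1 + X2 + X3 + X4 + 1, fun X hX r y β hr hrL hy hβ => ?_⟩
  have hXpos : (0 : ℝ) < X := by exact_mod_cast (by omega : 0 < X)
  obtain ⟨hLL, hL⟩ := hX4 X (by omega)
  have hbig := hX3 X (by omega)
  have hD := hX1 X (by omega) r y β hr hrL hy hβ
  have hM := hX2 X (by omega) r y β hr
  set L := Real.log X with hLdef
  set LL := Real.log L with hLLdef
  have hr0 : (0 : ℝ) < r := by exact_mod_cast hr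
  have hr1 : (1 : ℝ) ≤ r := by exact_mod_cast hr
  have hL0 : (0 : ℝ) < L := by linarith
  have hWr : (1 : ℝ) ≤ W := by exact_mod_cast hW1
  have hW0r : (1 : ℝ) ≤ W0 := by exact_mod_cast hW01
  have hW0W' : (W0 : ℝ) ≤ W := by exact_mod_cast hW0W
  have hPB : (1 : ℝ) ≤ L ^ B0 := one_le_pow₀ hL
  have hP2 : L ^ (2 * B0 + 1) = L ^ B0 * L ^ B0 * L := by rw [pow_succ, two_mul, pow_add]
  set P := L ^ B0 with hP
  have hT : |β| * X ≤ P := by rwa [le_div_iff₀ hXpos] at hβ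
  set T := |β| * X with hTdef
  have hT0 : 0 ≤ T := by positivity
  -- consequences of the largeness of X
  have hbig' : W * (10 + 7 * w) * w * (P * P * L) ≤ X := by rw [← hP2]; exact hbig
  have hPPL : 0 < P * P * L := by positivity
  have hWPPL : W * (P * P * L) * 17 ≤ X := by
    have h1 : (17 : ℝ) ≤ (10 + 7 * w) * w := by nlinarith
    have h2 : (W : ℝ) * (P * P * L) * 17 ≤ W * (P * P * L) * ((10 + 7 * w) * w) :=
      mul_le_mul_of_nonneg_left h1 (by positivity)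
    nlinarith
  have hPP : P ≤ P * P := by nlinarith
  -- the quantity X / L
  have hE : (X : ℝ) / L ≤ X * LL ^ 4 / L := by
    have : (1 : ℝ) ≤ LL ^ 4 := one_le_pow₀ hLL
    exact div_le_div_of_nonneg_right (by nlinarith) hL0.le
  have hWerr : W * (3 + 7 * T) ≤ X / L := by
    rw [le_div_iff₀ hL0]
    have h1 : 3 + 7 * T ≤ 17 * (P * P) := by nlinarith
    calc W * (3 + 7 * T) * L ≤ W * (17 * (P * P)) * L := by
          refine mul_le_mul_of_nonneg_right (mul_le_mul_of_nonneg_left h1 (by linarith)) hL0.le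
      _ = W * (P * P * L) * 17 := by ring
      _ ≤ X := hWPPL
  have hW0err : W0 * (3 + 7 * T) ≤ X / L :=
    (mul_le_mul_of_nonneg_right hW0W' (by positivity)).trans hWerr
  -- bound for the model
  have hWH : ‖WH W X (y / r + β)‖ ≤ CT * X * (r : ℝ) ^ (-(1 / 3 : ℝ)) + X / L := by
    rw [supU_WH W X _ hW1]
    by_cases hd : r ∣ W0
    · have h1 := WH_main W0 X hW01 r hd y β
      have h2 := KI_le X β
      have h3 := cr_norm_le r hr y hy
      have h4 : ‖cr r y / (Nat.totient r : ℂ) * KI X β‖ ≤ CT * X * (r : ℝ) ^ (-(1 / 3 : ℝ)) := by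
        rw [norm_mul, norm_div, Complex.norm_natCast]
        have h5 : ‖cr r y‖ / (Nat.totient r : ℝ) ≤ CT * (r : ℝ) ^ (-(1 / 3 : ℝ)) := by
          refine (div_le_div_of_nonneg_right h3 (Nat.cast_nonneg _)).trans (htot r hr)
        calc ‖cr r y‖ / (Nat.totient r : ℝ) * ‖KI X β‖
            ≤ (CT * (r : ℝ) ^ (-(1 / 3 : ℝ))) * X :=
              mul_le_mul h5 h2.1 (norm_nonneg _) (by positivity)
          _ = _ := by ring
      have h5 : ‖WH W0 X (y / r + β)‖ ≤ ‖WH W0 X (y / r + β) -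
          cr r y / (Nat.totient r : ℂ) * KI X β‖ + ‖cr r y / (Nat.totient r : ℂ) * KI X β‖ := by
        have := norm_add_le (WH W0 X (y / r + β) -
          cr r y / (Nat.totient r : ℂ) * KI X β) (cr r y / (Nat.totient r : ℂ) * KI X β)
        rwa [sub_add_cancel] at this
      linarith
    · have hβ2 : 2 * (r : ℝ) * (W0 * |β|) ≤ 1 := by
        have h1 : |β| ≤ P / X := hβ
        have h2 : 2 * (r : ℝ) * (W0 * |β|) ≤ 2 * P * (W * (P / X)) := by
          refine mul_le_mul (by linarith) ?_ (by positivity) (by positivity)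
          exact mul_le_mul hW0W' h1 (abs_nonneg _) (by linarith)
        refine h2.trans ?_
        rw [show 2 * P * (W * (P / X)) = (2 * W * (P * P)) / X by ring, div_le_one hXpos]
        have h3 : 2 * W * (P * P) ≤ W * (P * P * L) * 17 := by
          have h4 : (0 : ℝ) < W * (P * P) := by positivity
          nlinarith
        linarith
      have h1 := supU_nrm W0 r hr y hy hd β hβ2
      have h2 : 0 < nrm (W0 * (y / r + β)) := lt_of_lt_of_le (by positivity) h1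
      have h3 := WH_nrm W0 X hW01 (y / r + β) h2
      have h4 : W0 / nrm (W0 * (y / r + β)) ≤ W0 * (2 * r) := by
        rw [div_le_iff₀ h2]
        have : 1 ≤ (2 * r) * nrm (W0 * (y / r + β)) := by
          rw [div_le_iff₀ (by positivity)] at h1
          linarith
        calc (W0 : ℝ) = W0 * 1 := (mul_one _).symm
          _ ≤ W0 * ((2 * r) * nrm (W0 * (y / r + β))) :=
              mul_le_mul_of_nonneg_left this (by linarith)
          _ = _ := by ring
      have h5 : W0 * (2 * (r : ℝ)) ≤ X / L := by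
        rw [le_div_iff₀ hL0]
        calc W0 * (2 * (r : ℝ)) * L ≤ W * (2 * (P * P)) * L := by
              refine mul_le_mul_of_nonneg_right ?_ hL0.le
              exact mul_le_mul hW0W' (by linarith) (by positivity) (by linarith)
          _ ≤ W * (P * P * L) * 17 := by nlinarith
          _ ≤ X := hWPPL
      have h6 : 0 ≤ CT * X * (r : ℝ) ^ (-(1 / 3 : ℝ)) := by positivity
      linarith
  have hT1 : ((r : ℝ) * (1 + T)) ^ (-(1 / 3 : ℝ)) ≤ (r : ℝ) ^ (-(1 / 3 : ℝ)) :=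
    Real.rpow_le_rpow_of_nonpos hr0 (by nlinarith) (by norm_num)
  have hLH : ‖LH X (y / r + β)‖ ≤ CD * X * (r : ℝ) ^ (-(1 / 3 : ℝ)) + CD * X * LL ^ 4 / L := by
    have := mul_le_mul_of_nonneg_left hT1 (show 0 ≤ CD * X by positivity)
    linarith
  have hE0 : 0 ≤ X * LL ^ 4 / L := by positivity
  have hsplit : ∀ a : ℝ, a * X * LL ^ 4 / L = a * (X * LL ^ 4 / L) := fun a => by ring
  have hρ : 0 < (r : ℝ) ^ (-(1 / 3 : ℝ)) := Real.rpow_pos_of_pos hr0 _
  have hV : ‖LH X (y / r + β)‖ + ‖WH W X (y / r + β)‖ ≤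
      (CD + CT) * X * (r : ℝ) ^ (-(1 / 3 : ℝ)) + (CD + 1) * X * LL ^ 4 / L := by
    rw [hsplit] at *
    nlinarith
  have hV2 : ‖LH X (y / r + β)‖ + ‖WH W X (y / r + β)‖ ≤
      (CD + CT + 3) * X * (r : ℝ) ^ (-(1 / 3 : ℝ)) + (CD + CT + 3) * X * LL ^ 4 / L := by
    rw [hsplit] at hV ⊢
    have h1 : 0 ≤ X * (r : ℝ) ^ (-(1 / 3 : ℝ)) := by positivity
    nlinarith
  constructor
  · rcases le_or_gt r w with hrw | hrw
    · -- small denominators
      have hrw' : (r : ℝ) ≤ w := by exact_mod_cast hrw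
      rw [max_eq_right hrw']
      have hdvd : r ∣ W := Nat.dvd_factorial (by omega) hrw
      have hwm : (1 : ℝ) / w ≤ (w : ℝ) ^ (-(1 / 3 : ℝ)) := by
        rw [one_div, ← Real.rpow_neg_one]
        exact Real.rpow_le_rpow_of_exponent_le hw1 (by norm_num)
      have hWm := WH_main W X hW1 r hdvd y β
      have hω : 0 < (w : ℝ) ^ (-(1 / 3 : ℝ)) := Real.rpow_pos_of_pos hw0 _
      rcases le_or_gt T w with hTw | hTw
      · have hβw : |β| ≤ w / X := by rw [le_div_iff₀ hXpos]; exact hTw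
        have h1 := hM hrw hβw
        have h2 : ‖UH W X (y / r + β)‖ ≤
            ‖LH X (y / r + β) - cr r y / (Nat.totient r : ℂ) * KI X β‖ +
            ‖WH W X (y / r + β) - cr r y / (Nat.totient r : ℂ) * KI X β‖ := by
          unfold UH
          have := norm_sub_le (LH X (y / r + β) - cr r y / (Nat.totient r : ℂ) * KI X β)
            (WH W X (y / r + β) - cr r y / (Nat.totient r : ℂ) * KI X β)
          rwa [sub_sub_sub_cancel_right] at this
        have h3 : (1 : ℝ) / w * X ≤ X * (w : ℝ) ^ (-(1 / 3 : ℝ)) := by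
          have := mul_le_mul_of_nonneg_right hwm hXpos.le
          linarith
        rw [hsplit]
        have h4 : 0 ≤ X * (w : ℝ) ^ (-(1 / 3 : ℝ)) := by positivity
        nlinarith
      · have h1 := KI_le X β
        have h3 := cr_norm_le r hr y hy
        have hφ1 : (1 : ℝ) ≤ Nat.totient r := by exact_mod_cast Nat.totient_pos.2 hr
        have hβ0 : 0 < |β| := by
          rcases (abs_nonneg β).eq_or_lt with h | h
          · exfalso
            have : T = 0 := by rw [hTdef, ← h, zero_mul]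
            linarith
          · exact h
        have h4 : ‖KI X β‖ ≤ 1 / w * X := by
          have h5 : ‖KI X β‖ ≤ 1 / |β| := by rw [le_div_iff₀ hβ0]; exact h1.2
          refine h5.trans ?_
          rw [div_mul_eq_mul_div, one_mul, div_le_div_iff₀ hβ0 hw0]
          rw [hTdef] at hTw
          linarith
        have h5 : ‖cr r y / (Nat.totient r : ℂ) * KI X β‖ ≤ 1 / w * X := by
          rw [norm_mul, norm_div, Complex.norm_natCast]
          have h6 : ‖cr r y‖ / (Nat.totient r : ℝ) ≤ 1 := by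
            rw [div_le_one (by linarith)]
            linarith
          calc ‖cr r y‖ / (Nat.totient r : ℝ) * ‖KI X β‖ ≤ 1 * (1 / w * X) :=
                mul_le_mul h6 h4 (norm_nonneg _) zero_le_one
            _ = _ := one_mul _
        have h7 : ‖WH W X (y / r + β)‖ ≤ ‖WH W X (y / r + β) -
          cr r y / (Nat.totient r : ℂ) * KI X β‖ + ‖cr r y / (Nat.totient r : ℂ) * KI X β‖ := by
          have := norm_add_le (WH W X (y / r + β) -
            cr r y / (Nat.totient r : ℂ) * KI X β) (cr r y / (Nat.totient r : ℂ) * KI X β)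
          rwa [sub_add_cancel] at this
        have h8 : ‖UH W X (y / r + β)‖ ≤ ‖LH X (y / r + β)‖ + ‖WH W X (y / r + β)‖ := by
          unfold UH; exact norm_sub_le _ _
        have h9 : ((r : ℝ) * (1 + T)) ^ (-(1 / 3 : ℝ)) ≤ (w : ℝ) ^ (-(1 / 3 : ℝ)) :=
          Real.rpow_le_rpow_of_nonpos hw0 (by nlinarith) (by norm_num)
        have h10 := mul_le_mul_of_nonneg_left h9 (show 0 ≤ CD * X by positivity)
        have h3 : (1 : ℝ) / w * X ≤ X * (w : ℝ) ^ (-(1 / 3 : ℝ)) := by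
          have := mul_le_mul_of_nonneg_right hwm hXpos.le
          linarith
        rw [hsplit] at hD ⊢
        have h4 : 0 ≤ X * (w : ℝ) ^ (-(1 / 3 : ℝ)) := by positivity
        nlinarith
    · have hrw' : (w : ℝ) ≤ r := by exact_mod_cast hrw.le
      rw [max_eq_left hrw']
      have h8 : ‖UH W X (y / r + β)‖ ≤ ‖LH X (y / r + β)‖ + ‖WH W X (y / r + β)‖ := by
        unfold UH; exact norm_sub_le _ _
      linarith
  · have h8 : ‖VH W X (y / r + β)‖ ≤ ‖LH X (y / r + β)‖ + ‖WH W X (y / r + β)‖ := by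
      unfold VH; exact norm_add_le _ _
    linarith

end Pool.MP_dd84fd_nt.L2G
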