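import Pool.Agent.Lib.MP_dd84fd_nt.L2G.Avg

/-! Auxiliary facts for the modules T1Big, T1Small, T1Mid, T1Total: periodicity and dyadic sums. -/

set_option autoImplicit false

namespace Pool.MP_dd84fd_nt.L2G

open Finset Pool.MP_67663b_nt.Odd

theorem t1x_UH_int (W X : ℕ) (θ : ℝ) (z : ℤ) : UH W X (θ + z) = UH W X θ := by
  unfold UH LH WH
  rw [Se_add_int, Se_add_int]

theorem t1x_VH_int (W X : ℕ) (θ : ℝ) (z : ℤ) : VH W X (θ + z) = VH W X θ := by
  unfold VH LH WH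
  rw [Se_add_int, Se_add_int]

theorem t1x_UH_one (W X : ℕ) (θ : ℝ) : UH W X (θ + 1) = UH W X θ := by
  have := t1x_UH_int W X θ 1
  push_cast at this
  exact this

theorem t1x_VH_one (W X : ℕ) (θ : ℝ) : VH W X (θ + 1) = VH W X θ := by
  have := t1x_VH_int W X θ 1
  push_cast at this
  exact this

theorem t1x_Vst_nonneg (F : ℝ → ℂ) (d : ℕ) (θ : ℝ) : 0 ≤ Vst F d θ :=
  Finset.sum_nonneg fun _ _ => by positivity

theorem t1x_frac_shift {r : ℕ} (hr : 1 ≤ r) {y : ℤ} (hy : IsCoprime y (r : ℤ)) (z : ℤ) (θ δ : ℝ)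
    (h : |θ - y / r| ≤ δ) : ∃ y' : ℤ, IsCoprime y' (r : ℤ) ∧ |(θ + z) - y' / r| ≤ δ := by
  refine ⟨y + z * r, ?_, ?_⟩
  · exact (IsCoprime.add_mul_right_left_iff).2 hy
  · have hr0 : (r : ℝ) ≠ 0 := by
      have : (0 : ℝ) < r := by exact_mod_cast hr
      exact this.ne'
    have h1 : (θ + z) - ((y + z * r : ℤ) : ℝ) / r = θ - y / r := by
      push_cast
      field_simp
      ring
    rw [h1]
    exact h

theorem t1x_Arc_one (R : ℕ) (δ θ : ℝ) : θ + 1 ∈ Arc R δ ↔ θ ∈ Arc R δ := by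
  constructor
  · rintro ⟨r, hr, h1, h2, y, hy, h⟩
    obtain ⟨y', hy', h'⟩ := t1x_frac_shift hr hy (-1) (θ + 1) δ h
    refine ⟨r, hr, h1, h2, y', hy', ?_⟩
    push_cast at h'
    rwa [add_neg_cancel_right] at h'
  · rintro ⟨r, hr, h1, h2, y, hy, h⟩
    obtain ⟨y', hy', h'⟩ := t1x_frac_shift hr hy 1 θ δ h
    push_cast at h'
    exact ⟨r, hr, h1, h2, y', hy', h'⟩

theorem t1x_Maj_one (P δ θ : ℝ) : θ + 1 ∈ Maj P δ ↔ θ ∈ Maj P δ := by
  constructor
  · rintro ⟨r, hr, h1, y, hy, h⟩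
    obtain ⟨y', hy', h'⟩ := t1x_frac_shift hr hy (-1) (θ + 1) δ h
    refine ⟨r, hr, h1, y', hy', ?_⟩
    push_cast at h'
    rwa [add_neg_cancel_right] at h'
  · rintro ⟨r, hr, h1, y, hy, h⟩
    obtain ⟨y', hy', h'⟩ := t1x_frac_shift hr hy 1 θ δ h
    push_cast at h'
    exact ⟨r, hr, h1, y', hy', h'⟩

/-- shift invariance of the average of `1_S G` -/
theorem t1x_shift (X : ℕ) (S : Set ℝ) (hS : ∀ θ, θ + 1 ∈ S ↔ θ ∈ S) (G : ℝ → ℝ)
    (hG : ∀ θ, G (θ + 1) = G θ) {d : ℕ} (hd : 0 < d) (hdN : d ∣ gr X) (b : ℕ) :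
    av (gr X) (fun θ => S.indicator G (θ + (b : ℝ) / d)) = av (gr X) (S.indicator G) := by
  classical
  have h1 : ∀ θ, S.indicator G (θ + 1) = S.indicator G θ := by
    intro θ
    by_cases h : θ ∈ S
    · rw [Set.indicator_of_mem h, Set.indicator_of_mem ((hS θ).2 h), hG]
    · rw [Set.indicator_of_notMem h, Set.indicator_of_notMem fun h' => h ((hS θ).1 h')]
  have hN : 0 < gr X := Nat.factorial_pos _
  have h2 := av_shift hN h1 hd hdN (b : ℤ)
  simpa using h2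

/-- the average of `Vst` -/
theorem t1x_av_Vst (W X d : ℕ) (hd : 1 ≤ d) (hd2 : d ≤ 4 * X) :
    av (gr X) (fun θ => Vst (VH W X) d θ) ≤ d * av (gr X) (fun θ => ‖VH W X θ‖ ^ 2) := by
  have hdN : d ∣ gr X := dvd_gr hd (by omega)
  have hN : 0 < gr X := Nat.factorial_pos _
  have h0 : 0 ≤ av (gr X) (fun θ => ‖VH W X θ‖ ^ 2) := av_nonneg fun θ => by positivity
  unfold Vst
  rw [av_sum]
  have h1 : ∀ b ∈ (range d).filter (Nat.Coprime d),
      av (gr X) (fun θ => ‖VH W X (θ + (b : ℝ) / d)‖ ^ 2) =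
        av (gr X) (fun θ => ‖VH W X θ‖ ^ 2) := by
    intro b _
    have h2 := av_shift hN (f := fun θ => ‖VH W X θ‖ ^ 2)
      (fun θ => by rw [t1x_VH_one]) hd hdN (b : ℤ)
    simpa using h2
  rw [Finset.sum_congr rfl h1, Finset.sum_const, nsmul_eq_mul]
  refine mul_le_mul_of_nonneg_right ?_ h0
  have h3 : ((range d).filter (Nat.Coprime d)).card ≤ d := by
    refine (Finset.card_filter_le _ _).trans ?_
    rw [Finset.card_range]
  exact_mod_cast h3

theorem t1x_sum_biUnion_le {ι α : Type*} [DecidableEq ι] [DecidableEq α] (s : Finset ι)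
    (t : ι → Finset α) (f : α → ℝ) (hf : ∀ a, 0 ≤ f a) :
    ∑ a ∈ s.biUnion t, f a ≤ ∑ i ∈ s, ∑ a ∈ t i, f a := by
  induction s using Finset.induction_on with
  | empty => simp
  | insert j s hj ih =>
    rw [Finset.biUnion_insert, Finset.sum_insert hj]
    have h1 := Finset.sum_union_inter (s₁ := t j) (s₂ := s.biUnion t) (f := f)
    have h2 : 0 ≤ ∑ a ∈ t j ∩ s.biUnion t, f a := Finset.sum_nonneg fun a _ => hf a
    linarith

/-- dyadic decomposition -/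
theorem t1x_dyadic (f g : ℕ → ℝ) (hf : ∀ d, 0 ≤ f d) (D Q : ℕ) (hD : 1 ≤ D) (hDQ : D ≤ Q)
    (hb : ∀ R : ℕ, D ≤ R → R ≤ Q → ∑ d ∈ Ico R (2 * R), f d ≤ g R) :
    ∑ d ∈ Icc D Q, f d / d ≤
      ∑ i ∈ range (Nat.log 2 (Q / D) + 1), g (2 ^ i * D) / ((2 ^ i * D : ℕ) : ℝ) := by
  classical
  have hQD : 1 ≤ Q / D := (Nat.one_le_div_iff hD).2 hDQ
  set K := Nat.log 2 (Q / D) with hK
  have h1 : Icc D Q ⊆ (range (K + 1)).biUnion fun i => Ico (2 ^ i * D) (2 * (2 ^ i * D)) := by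
    intro d hd
    rw [Finset.mem_Icc] at hd
    have hd1 : 1 ≤ d / D := (Nat.one_le_div_iff hD).2 hd.1
    have h2 : d / D ≤ Q / D := Nat.div_le_div_right hd.2
    rw [Finset.mem_biUnion]
    refine ⟨Nat.log 2 (d / D), ?_, ?_⟩
    · rw [Finset.mem_range, hK]
      have := Nat.log_mono_right (b := 2) h2
      omega
    · rw [Finset.mem_Ico]
      have h3 : 2 ^ Nat.log 2 (d / D) ≤ d / D := Nat.pow_log_le_self 2 (by omega)
      have h4 : d / D < 2 ^ (Nat.log 2 (d / D) + 1) := Nat.lt_pow_succ_log_self (by norm_num) _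
      constructor
      · exact (Nat.le_div_iff_mul_le hD).1 h3
      · have h5 := (Nat.div_lt_iff_lt_mul hD).1 h4
        rw [pow_succ] at h5
        linarith
  have h2 : ∑ d ∈ Icc D Q, f d / d ≤
      ∑ i ∈ range (K + 1), ∑ d ∈ Ico (2 ^ i * D) (2 * (2 ^ i * D)), f d / d := by
    refine (Finset.sum_le_sum_of_subset_of_nonneg h1 fun d _ _ => by
      have := hf d
      positivity).trans ?_
    exact t1x_sum_biUnion_le _ _ _ fun d => by
      have := hf d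
      positivity
  refine h2.trans (Finset.sum_le_sum fun i hi => ?_)
  rw [Finset.mem_range] at hi
  set R := 2 ^ i * D with hR
  have hR0 : 0 < R := Nat.mul_pos (pow_pos (by norm_num) i) hD
  have hRr : (0 : ℝ) < R := by exact_mod_cast hR0
  have hDR : D ≤ R := Nat.le_mul_of_pos_left D (pow_pos (by norm_num) i)
  have hRQ : R ≤ Q := by
    have h3 : 2 ^ i ≤ 2 ^ K := Nat.pow_le_pow_right (by norm_num) (by omega)
    have h4 : 2 ^ K ≤ Q / D := Nat.pow_log_le_self 2 (by omega)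
    exact (Nat.le_div_iff_mul_le hD).1 (h3.trans h4)
  calc ∑ d ∈ Ico R (2 * R), f d / d ≤ ∑ d ∈ Ico R (2 * R), f d / R := by
        refine Finset.sum_le_sum fun d hd => ?_
        rw [Finset.mem_Ico] at hd
        have hdR : (R : ℝ) ≤ d := by exact_mod_cast hd.1
        exact div_le_div_of_nonneg_left (hf d) hRr hdR
    _ = (∑ d ∈ Ico R (2 * R), f d) / R := by rw [Finset.sum_div]
    _ ≤ g R / R := div_le_div_of_nonneg_right (hb R hDR hRQ) hRr.le

end Pool.MP_dd84fd_nt.L2G
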