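import Pool.Agent.Lib.MP_dd84fd_nt.L2G.UVsums
import Pool.Agent.Lib.MP_dd84fd_nt.L2G.MinorU
import Pool.Agent.Lib.MP_dd84fd_nt.L2G.Avg
import Pool.Agent.Lib.MP_dd84fd_nt.L2G.T1Aux

set_option autoImplicit false

namespace Pool.MP_dd84fd_nt.L2G

open Finset Pool.MP_67663b_nt.Odd

private theorem t1b_geom (K D : ℕ) (hD : 1 ≤ D) :
    ∑ i ∈ range (K + 1), ((2 ^ i * D : ℕ) : ℝ) ≤ 2 * ((2 ^ K * D : ℕ) : ℝ) ∧
    ∑ i ∈ range (K + 1), 1 / ((2 ^ i * D : ℕ) : ℝ) ≤ 2 / D := by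
  have hD0 : (0 : ℝ) < D := by exact_mod_cast hD
  constructor
  · push_cast
    rw [← Finset.sum_mul]
    have h1 : ∑ i ∈ range (K + 1), (2 : ℝ) ^ i ≤ 2 * 2 ^ K := by
      rw [geom_sum_eq (by norm_num), pow_succ]
      have : (0 : ℝ) < 2 ^ K := by positivity
      linarith
    have := mul_le_mul_of_nonneg_right h1 hD0.le
    linarith
  · have h2 : ∀ i ∈ range (K + 1), 1 / ((2 ^ i * D : ℕ) : ℝ) = (1 / D) * (1 / 2 : ℝ) ^ i := by
      intro i _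
      push_cast
      rw [one_div_pow]
      field_simp
    rw [Finset.sum_congr rfl h2, ← Finset.mul_sum]
    have h3 : ∑ i ∈ range (K + 1), (1 / 2 : ℝ) ^ i ≤ 2 := by
      rw [geom_sum_eq (by norm_num)]
      have : (0 : ℝ) < (1 / 2) ^ (K + 1) := by positivity
      rw [div_le_iff_of_neg (by norm_num)]
      linarith
    calc (1 / (D : ℝ)) * ∑ i ∈ range (K + 1), (1 / 2 : ℝ) ^ i ≤ (1 / D) * 2 :=
          mul_le_mul_of_nonneg_left h3 (by positivity)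
      _ = 2 / D := by ring

theorem t1_big : ∃ C : ℝ, 0 < C ∧ ∀ w : ℕ, 2 ≤ w → ∃ X0 : ℕ, ∀ X : ℕ, X0 ≤ X →
    ∀ D Q : ℕ, 1 ≤ D → Q ≤ X →
    ∑ d ∈ Icc D Q, Jd w.factorial X d / d ≤
      C * (X * Real.log X) ^ 2 * (Q + X / D) := by
  obtain ⟨C1, hC1, h1⟩ := uv_L2
  obtain ⟨C2, hC2, h2⟩ := v_far_big
  refine ⟨2 * (C1 * C2), by positivity, fun w hw => ?_⟩
  obtain ⟨X1, h1⟩ := h1 w hw
  obtain ⟨X2, h2⟩ := h2 w hw
  refine ⟨max X1 X2, fun X hX D Q hD hQ => ?_⟩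
  have hX1 : X1 ≤ X := (le_max_left _ _).trans hX
  have hX2 : X2 ≤ X := (le_max_right _ _).trans hX
  obtain ⟨hU, -⟩ := h1 X hX1
  have hV := h2 X hX2
  have hD0 : (0 : ℝ) < D := by exact_mod_cast hD
  have hXr : (0 : ℝ) ≤ X := Nat.cast_nonneg X
  have hL : 0 ≤ Real.log X := Real.log_natCast_nonneg X
  have hQr : (0 : ℝ) ≤ Q := Nat.cast_nonneg Q
  by_cases hDQ : D ≤ Q
  swap
  · rw [Finset.Icc_eq_empty (by omega), Finset.sum_empty]
    positivity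
  have hJ0 : ∀ d, 0 ≤ Jd w.factorial X d := fun d =>
    av_nonneg fun θ => mul_nonneg (by positivity) (t1x_Vst_nonneg _ _ _)
  have hblock : ∀ R : ℕ, D ≤ R → R ≤ Q → ∑ d ∈ Ico R (2 * R), Jd w.factorial X d ≤
      (C2 * (R ^ 2 + X) * (X * Real.log X)) * (C1 * X * Real.log X) := by
    intro R hR _
    have h3 : ∑ d ∈ Ico R (2 * R), Jd w.factorial X d ≤
        av (gr X) (fun θ => (C2 * (R ^ 2 + X) * (X * Real.log X)) * ‖UH w.factorial X θ‖ ^ 2) := by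
      unfold Jd
      rw [← av_sum]
      refine av_mono fun θ => ?_
      rw [← Finset.mul_sum, mul_comm]
      exact mul_le_mul_of_nonneg_right (hV R (hD.trans hR) θ) (by positivity)
    rw [av_mul_left] at h3
    exact h3.trans (mul_le_mul_of_nonneg_left hU (by positivity))
  refine (t1x_dyadic _ _ hJ0 D Q hD hDQ hblock).trans ?_
  set K := Nat.log 2 (Q / D) with hK
  have hKQ : 2 ^ K * D ≤ Q := by
    have hQD : 1 ≤ Q / D := (Nat.one_le_div_iff hD).2 hDQ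
    exact (Nat.le_div_iff_mul_le hD).1 (Nat.pow_log_le_self 2 (by omega))
  have h4 : ∀ i ∈ range (K + 1),
      (C2 * (((2 ^ i * D : ℕ) : ℝ) ^ 2 + X) * (X * Real.log X)) * (C1 * X * Real.log X) /
        ((2 ^ i * D : ℕ) : ℝ) =
      C1 * C2 * (X * Real.log X) ^ 2 *
        (((2 ^ i * D : ℕ) : ℝ) + X * (1 / ((2 ^ i * D : ℕ) : ℝ))) := by
    intro i _
    have h5 : (0 : ℝ) < ((2 ^ i * D : ℕ) : ℝ) := by
      have : 0 < 2 ^ i * D := Nat.mul_pos (pow_pos (by norm_num) i) hD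
      exact_mod_cast this
    field_simp
  rw [Finset.sum_congr rfl h4, ← Finset.mul_sum, Finset.sum_add_distrib, ← Finset.mul_sum]
  obtain ⟨g1, g2⟩ := t1b_geom K D hD
  have hKQ' : ((2 ^ K * D : ℕ) : ℝ) ≤ Q := by exact_mod_cast hKQ
  have h6 : ∑ i ∈ range (K + 1), ((2 ^ i * D : ℕ) : ℝ) +
      X * ∑ i ∈ range (K + 1), 1 / ((2 ^ i * D : ℕ) : ℝ) ≤ 2 * (Q + X / D) := by
    have h7 : (X : ℝ) * ∑ i ∈ range (K + 1), 1 / ((2 ^ i * D : ℕ) : ℝ) ≤ X * (2 / D) :=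
      mul_le_mul_of_nonneg_left g2 hXr
    have h8 : (X : ℝ) * (2 / D) = 2 * (X / D) := by ring
    linarith
  calc C1 * C2 * (X * Real.log X) ^ 2 * (∑ i ∈ range (K + 1), ((2 ^ i * D : ℕ) : ℝ) +
      X * ∑ i ∈ range (K + 1), 1 / ((2 ^ i * D : ℕ) : ℝ)) ≤
      C1 * C2 * (X * Real.log X) ^ 2 * (2 * (Q + X / D)) :=
        mul_le_mul_of_nonneg_left h6 (by positivity)
    _ = 2 * (C1 * C2) * (X * Real.log X) ^ 2 * (Q + X / D) := by ring

theorem t1_minor (hL : MinorL) : ∃ B : ℕ, ∀ w : ℕ, 2 ≤ w → ∃ X0 : ℕ, ∀ X : ℕ, X0 ≤ X →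
    ∀ d : ℕ, 1 ≤ d → d ≤ 4 * X → Jd w.factorial X d ≤ JM w.factorial X B d +
      d * X ^ 3 / Real.log X ^ 10 := by
  obtain ⟨B, hB⟩ := minor_U hL 6
  obtain ⟨C1, hC1, h1⟩ := uv_L2
  refine ⟨B, fun w hw => ?_⟩
  obtain ⟨X1, h1⟩ := h1 w hw
  obtain ⟨X2, h2⟩ := hB B le_rfl w.factorial (Nat.factorial_pos w)
  obtain ⟨X3, h3⟩ : ∃ X3 : ℕ, ∀ X : ℕ, X3 ≤ X → max 1 C1 ≤ Real.log X := by
    have h4 : Filter.Tendsto (fun X : ℕ => Real.log X) Filter.atTop Filter.atTop :=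
      Real.tendsto_log_atTop.comp tendsto_natCast_atTop_atTop
    exact Filter.eventually_atTop.1 (h4.eventually_ge_atTop _)
  refine ⟨max X1 (max X2 X3), fun X hX d hd hd4 => ?_⟩
  have hX1 : X1 ≤ X := (le_max_left _ _).trans hX
  have hX2 : X2 ≤ X := (le_max_left _ _).trans ((le_max_right _ _).trans hX)
  have hX3 : X3 ≤ X := (le_max_right _ _).trans ((le_max_right _ _).trans hX)
  obtain ⟨-, hV⟩ := h1 X hX1
  have hU := h2 X hX2
  have hlog := h3 X hX3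
  have hLC : C1 ≤ Real.log X := (le_max_right _ _).trans hlog
  have hL1 : 1 ≤ Real.log X := (le_max_left _ _).trans hlog
  set L := Real.log X with hLdef
  have hL0 : 0 < L := by linarith
  set S := Maj (L ^ B) (L ^ B / X) with hS
  have hmaj := t1x_av_Vst w.factorial X d hd hd4
  have hpt : ∀ θ, ‖UH w.factorial X θ‖ ^ 2 * Vst (VH w.factorial X) d θ ≤
      S.indicator (fun θ => ‖UH w.factorial X θ‖ ^ 2 * Vst (VH w.factorial X) d θ) θ +
        (X / L ^ 6) ^ 2 * Vst (VH w.factorial X) d θ := by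
    intro θ
    have hv := t1x_Vst_nonneg (VH w.factorial X) d θ
    by_cases hθ : θ ∈ S
    · rw [Set.indicator_of_mem hθ]
      have : 0 ≤ (X / L ^ 6) ^ 2 * Vst (VH w.factorial X) d θ := by positivity
      linarith
    · rw [Set.indicator_of_notMem hθ, zero_add]
      have h5 := (hU θ hθ).1
      have h6 : ‖UH w.factorial X θ‖ ^ 2 ≤ (X / L ^ 6) ^ 2 :=
        pow_le_pow_left₀ (norm_nonneg _) h5 2
      exact mul_le_mul_of_nonneg_right h6 hv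
  have h7 : Jd w.factorial X d ≤ JM w.factorial X B d +
      (X / L ^ 6) ^ 2 * av (gr X) (fun θ => Vst (VH w.factorial X) d θ) := by
    unfold Jd JM
    rw [← hLdef, ← hS, ← av_mul_left, ← av_add]
    exact av_mono hpt
  refine h7.trans ?_
  have hd0 : (0 : ℝ) ≤ d := Nat.cast_nonneg d
  have hX0 : (0 : ℝ) ≤ X := Nat.cast_nonneg X
  have h8 : (X / L ^ 6) ^ 2 * av (gr X) (fun θ => Vst (VH w.factorial X) d θ) ≤
      (X / L ^ 6) ^ 2 * (d * (C1 * X * L)) := by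
    refine mul_le_mul_of_nonneg_left (hmaj.trans ?_) (by positivity)
    exact mul_le_mul_of_nonneg_left hV hd0
  have h9 : (X / L ^ 6) ^ 2 * (d * (C1 * X * L)) ≤ d * X ^ 3 / L ^ 10 := by
    have h10 : (X / L ^ 6) ^ 2 * (d * (C1 * X * L)) = (d * X ^ 3 / L ^ 10) * (C1 / L) := by
      field_simp
    rw [h10]
    refine mul_le_of_le_one_right (by positivity) ?_
    rw [div_le_one hL0]
    exact hLC
  linarith

end Pool.MP_dd84fd_nt.L2G
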