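import Pool.Agent.Lib.MP_dd84fd_nt.L2G.T1Total
import Pool.Agent.Lib.MP_dd84fd_nt.L2G.ClassIneq
import Pool.Agent.Lib.MP_dd84fd_nt.L2G.GWLower
import Pool.Agent.Lib.MP_dd84fd_nt.L2G.CvBasic

set_option autoImplicit false

namespace Pool.MP_dd84fd_nt.L2G

open Finset Pool.MP_67663b_nt.Odd

private theorem t1Final_card_class (M q a : ℕ) (hq : 1 ≤ q) :
    ((range (M + 1)).filter (fun n : ℕ => n ≡ a [MOD q])).card ≤ M / q + 1 := by
  have h : ((range (M + 1)).filter (fun n : ℕ => n ≡ a [MOD q])).card ≤ (range (M / q + 1)).card := by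
    apply card_le_card_of_injOn (fun n : ℕ => n / q)
    · intro n hn
      have hn' := (mem_filter.mp hn).1
      rw [mem_range] at hn'
      have : n / q ≤ M / q := Nat.div_le_div_right (by omega)
      simpa using Nat.lt_succ_of_le this
    · intro m hm n hn hmn
      have hm' := (mem_filter.mp hm).2
      have hn' := (mem_filter.mp hn).2
      have h1 : m % q = n % q := hm'.trans hn'.symm
      have h2 : m / q = n / q := hmn
      calc m = q * (m / q) + m % q := (Nat.div_add_mod m q).symm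
        _ = q * (n / q) + n % q := by rw [h1, h2]
        _ = n := Nat.div_add_mod n q
  simpa using h

private theorem t1Final_Bq_nonneg (W X q : ℕ) : 0 ≤ Bq W X q := by
  unfold Bq
  exact av_nonneg (fun θ => mul_nonneg (by positivity) (sum_nonneg fun k _ => by positivity))

/-- the bad values `n > ε' X` of a class -/
private theorem t1Final_large (w X q a : ℕ) (ε' Cw : ℝ) (hε' : 0 < ε')
    (hCw : ∀ X n : ℕ, n ≤ X → Even n →
      (6 / 5 : ℝ) * n - Cw ≤ cv X (lw w.factorial X) (lw w.factorial X) n)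
    (hX : 10 * Cw ≤ ε' * X) (hq : 1 ≤ q) (hqX : q ≤ 4 * X + 4) :
    ((((range (X + 1)).filter (fun n : ℕ => Even n ∧ n ≡ a [MOD q] ∧
        ¬ ((n : ℝ) / Real.log n ^ 2 ≤ gg n))).filter (fun n : ℕ => ε' * X < (n : ℝ))).card : ℝ) *
      ((1 / 10 * (ε' * X)) ^ 2) ≤ (1 / (q : ℝ)) * Bq w.factorial X q := by
  set S := ((range (X + 1)).filter (fun n : ℕ => Even n ∧ n ≡ a [MOD q] ∧
        ¬ ((n : ℝ) / Real.log n ^ 2 ≤ gg n))).filter (fun n : ℕ => ε' * X < (n : ℝ)) with hS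
  have hclass := class_ineq X q a hq hqX (fun m => la X m - lw w.factorial X m)
    (fun m => la X m + lw w.factorial X m)
  have hBq : Bq w.factorial X q = av (gr X) (fun θ =>
      ‖Se X (fun m => la X m - lw w.factorial X m) θ‖ ^ 2 *
        ∑ k ∈ range q, ‖Se X (fun m => la X m + lw w.factorial X m) (θ + (k : ℝ) / q)‖ ^ 2) := by
    unfold Bq
    congr 1
    funext θ
    rw [UH_eq]
    congr 1
    apply sum_congr rfl
    intro k _
    rw [VH_eq]
  rw [hBq]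
  refine le_trans ?_ hclass
  have hsub : S ⊆ (range (2 * X + 1)).filter (fun n : ℕ => n % q = a % q) := by
    intro n hn
    rw [hS, mem_filter, mem_filter, mem_range] at hn
    rw [mem_filter, mem_range]
    exact ⟨by omega, hn.1.2.2.1⟩
  refine le_trans ?_ (sum_le_sum_of_subset_of_nonneg hsub (fun i _ _ => sq_nonneg _))
  rw [← nsmul_eq_mul]
  apply card_nsmul_le_sum
  intro n hn
  rw [hS, mem_filter, mem_filter, mem_range] at hn
  obtain ⟨⟨hnX, heven, -, hbad⟩, hbig⟩ := hn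
  have hnX' : n ≤ X := by omega
  rw [cv_sub_add]
  have h1 := cv_la_le X n
  have h2 := hCw X n hnX' heven
  push Not at hbad
  have hlog : 0 < Real.log n ^ 2 := by
    rcases (sq_nonneg (Real.log n)).lt_or_eq with h | h
    · exact h
    · rw [← h, div_zero] at hbad
      exact absurd hbad (not_lt.mpr (Nat.cast_nonneg _))
  rw [lt_div_iff₀ hlog] at hbad
  have h3 : cv X (la X) (la X) n - cv X (lw w.factorial X) (lw w.factorial X) n ≤
      -(1 / 10 * (ε' * X)) := by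
    have : (gg n : ℝ) * Real.log n ^ 2 = Real.log n ^ 2 * gg n := mul_comm _ _
    nlinarith
  have h4 : 0 ≤ 1 / 10 * (ε' * (X : ℝ)) := by positivity
  nlinarith

theorem t1 (hL : MinorL) (ε : ℝ) (hε : 0 < ε) : ∃ C : ℝ, 0 < C ∧ ∃ X0 : ℕ, ∀ X : ℕ, X0 ≤ X →
    ∀ Q : ℕ, (Q : ℝ) ≤ X / (C * Real.log X ^ 2) →
    (({q ∈ ((Icc 1 Q : Finset ℕ) : Set ℕ) | ∃ a : ℕ, ε * X / q <
      (({n ∈ ((range (X + 1) : Finset ℕ) : Set ℕ) | Even n ∧ n ≡ a [MOD q] ∧
        ¬ ((n : ℝ) / Real.log n ^ 2 ≤ gg n)} : Set ℕ).ncard : ℝ)} : Set ℕ).ncard : ℝ) ≤ ε * Q := by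
  classical
  obtain ⟨w, hw, C, hC, X0, hT⟩ := t1_total hL (ε ^ 3 / 3200 * ε) (by positivity)
  obtain ⟨Cw, hCw⟩ := gw_lower w hw
  refine ⟨C, hC, ?_⟩
  -- choose `X1` with `C log² X ≥ max 1 (4 / ε)` and `10 Cw ≤ (ε / 4) X`
  have hlog : ∀ᶠ X : ℕ in Filter.atTop, max 1 (max 1 (4 / ε) / C) ≤ Real.log X :=
    (Real.tendsto_log_atTop.comp tendsto_natCast_atTop_atTop).eventually_ge_atTop _
  have hlin : ∀ᶠ X : ℕ in Filter.atTop, 10 * Cw / (ε / 4) ≤ (X : ℝ) :=
    tendsto_natCast_atTop_atTop.eventually_ge_atTop _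
  obtain ⟨X1, hX1⟩ := Filter.eventually_atTop.mp (hlog.and hlin)
  refine ⟨max (max X0 X1) 1, fun X hX Q hQ => ?_⟩
  have hXX0 : X0 ≤ X := le_trans (le_trans (le_max_left _ _) (le_max_left _ _)) hX
  have hXX1 : X1 ≤ X := le_trans (le_trans (le_max_right _ _) (le_max_left _ _)) hX
  have hXpos : (0 : ℝ) < X := by
    have : 1 ≤ X := le_trans (le_max_right _ _) hX
    exact_mod_cast this
  obtain ⟨hl, hlin'⟩ := hX1 X hXX1
  have hl1 : 1 ≤ Real.log X := le_trans (le_max_left _ _) hl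
  have hl2 : max 1 (4 / ε) / C ≤ Real.log X := le_trans (le_max_right _ _) hl
  have hCL : max 1 (4 / ε) ≤ C * Real.log X ^ 2 := by
    rw [div_le_iff₀ hC] at hl2
    have : Real.log X * C ≤ C * Real.log X ^ 2 := by nlinarith [mul_pos hC (by linarith : (0:ℝ) < Real.log X)]
    linarith
  have hCLpos : 0 < C * Real.log X ^ 2 := lt_of_lt_of_le one_pos (le_trans (le_max_left _ _) hCL)
  have hQX : (Q : ℝ) * max 1 (4 / ε) ≤ X := by
    rw [le_div_iff₀ hCLpos] at hQ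
    exact le_trans (mul_le_mul_of_nonneg_left hCL (Nat.cast_nonneg _)) hQ
  have hX10 : 10 * Cw ≤ ε / 4 * X := by
    rw [div_le_iff₀ (by positivity)] at hlin'
    linarith
  have hBsum := hT X hXX0 Q hQ
  set E := (Icc 1 Q).filter (fun q => ε ^ 3 / 3200 * X ^ 3 ≤ Bq w.factorial X q) with hE
  have hsubE : {q ∈ ((Icc 1 Q : Finset ℕ) : Set ℕ) | ∃ a : ℕ, ε * X / q <
      (({n ∈ ((range (X + 1) : Finset ℕ) : Set ℕ) | Even n ∧ n ≡ a [MOD q] ∧
        ¬ ((n : ℝ) / Real.log n ^ 2 ≤ gg n)} : Set ℕ).ncard : ℝ)} ⊆ (E : Set ℕ) := by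
    rintro q ⟨hq, a, ha⟩
    have hq' := mem_Icc.mp (mem_coe.mp hq)
    have hqpos : (0 : ℝ) < q := by exact_mod_cast (by omega : 0 < q)
    have hqQ : (q : ℝ) ≤ Q := by exact_mod_cast hq'.2
    have hqX1 : (q : ℝ) * max 1 (4 / ε) ≤ X :=
      le_trans (mul_le_mul_of_nonneg_right hqQ (le_trans zero_le_one (le_max_left _ _))) hQX
    have hqX2 : (q : ℝ) ≤ X := by
      have := mul_le_mul_of_nonneg_left (le_max_left 1 (4 / ε)) hqpos.le
      linarith
    have hqX3 : (1 : ℝ) ≤ ε / 4 * X / q := by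
      have := mul_le_mul_of_nonneg_left (le_max_right 1 (4 / ε)) hqpos.le
      rw [le_div_iff₀ hqpos]
      have h5 : (q : ℝ) * (4 / ε) ≤ X := by linarith
      have h6 : (q : ℝ) = ε / 4 * (q * (4 / ε)) := by field_simp
      calc 1 * (q : ℝ) = ε / 4 * (q * (4 / ε)) := by rw [one_mul]; exact h6
        _ ≤ ε / 4 * X := mul_le_mul_of_nonneg_left h5 (by positivity)
    have hqX4 : q ≤ 4 * X + 4 := by
      have : q ≤ X := by exact_mod_cast hqX2
      omega
    set S := (range (X + 1)).filter (fun n : ℕ => Even n ∧ n ≡ a [MOD q] ∧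
        ¬ ((n : ℝ) / Real.log n ^ 2 ≤ gg n)) with hS
    have hSc : ({n ∈ ((range (X + 1) : Finset ℕ) : Set ℕ) | Even n ∧ n ≡ a [MOD q] ∧
        ¬ ((n : ℝ) / Real.log n ^ 2 ≤ gg n)} : Set ℕ).ncard = S.card := by
      rw [← Set.ncard_coe_finset]
      congr 1
      ext n
      simp [hS]
    rw [hSc] at ha
    have hsplit : (S.card : ℝ) = ((S.filter (fun n : ℕ => ε / 4 * X < (n : ℝ))).card : ℝ) +
        ((S.filter (fun n : ℕ => ¬ (ε / 4 * X < (n : ℝ)))).card : ℝ) := by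
      rw [← Nat.cast_add, card_filter_add_card_filter_not]
    have hlarge := t1Final_large w X q a (ε / 4) Cw (by positivity) hCw hX10 hq'.1 hqX4
    rw [← hS] at hlarge
    have hsmall : ((S.filter (fun n : ℕ => ¬ (ε / 4 * X < (n : ℝ)))).card : ℝ) ≤
        ε / 4 * X / q + 1 := by
      have hsub2 : S.filter (fun n : ℕ => ¬ (ε / 4 * X < (n : ℝ))) ⊆
          (range (⌊ε / 4 * X⌋₊ + 1)).filter (fun n : ℕ => n ≡ a [MOD q]) := by
        intro n hn
        rw [mem_filter, hS, mem_filter] at hn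
        obtain ⟨⟨-, -, hmod, -⟩, hle⟩ := hn
        rw [not_lt] at hle
        rw [mem_filter, mem_range]
        exact ⟨Nat.lt_succ_of_le (Nat.le_floor hle), hmod⟩
      have h7 := (card_le_card hsub2).trans (t1Final_card_class _ q a hq'.1)
      have h8 : ((S.filter (fun n : ℕ => ¬ (ε / 4 * X < (n : ℝ)))).card : ℝ) ≤
          ((⌊ε / 4 * X⌋₊ / q : ℕ) : ℝ) + 1 := by exact_mod_cast h7
      have h9 : ((⌊ε / 4 * X⌋₊ / q : ℕ) : ℝ) ≤ (⌊ε / 4 * X⌋₊ : ℝ) / q := Nat.cast_div_le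
      have h10 : (⌊ε / 4 * X⌋₊ : ℝ) / q ≤ ε / 4 * X / q :=
        div_le_div_of_nonneg_right (Nat.floor_le (by positivity)) hqpos.le
      linarith
    -- conclude
    set K := ((S.filter (fun n : ℕ => ε / 4 * X < (n : ℝ))).card : ℝ) with hK
    have hKlow : ε / 2 * X / q < K := by
      have e1 : ε * X / q = ε / 2 * X / q + ε / 4 * X / q + ε / 4 * X / q := by ring
      rw [e1] at ha
      linarith
    rw [mem_coe, hE, mem_filter]
    refine ⟨mem_coe.mp hq, ?_⟩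
    have h11 : ε / 2 * X / q * (1 / 10 * (ε / 4 * X)) ^ 2 ≤ K * (1 / 10 * (ε / 4 * X)) ^ 2 :=
      mul_le_mul_of_nonneg_right hKlow.le (sq_nonneg _)
    have h12 := h11.trans hlarge
    have h13 : ε / 2 * X / q * (1 / 10 * (ε / 4 * X)) ^ 2 = (1 / (q : ℝ)) * (ε ^ 3 / 3200 * X ^ 3) := by
      field_simp
      ring
    rw [h13] at h12
    exact le_of_mul_le_mul_left h12 (by positivity)
  have hcard : (({q ∈ ((Icc 1 Q : Finset ℕ) : Set ℕ) | ∃ a : ℕ, ε * X / q <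
      (({n ∈ ((range (X + 1) : Finset ℕ) : Set ℕ) | Even n ∧ n ≡ a [MOD q] ∧
        ¬ ((n : ℝ) / Real.log n ^ 2 ≤ gg n)} : Set ℕ).ncard : ℝ)} : Set ℕ).ncard : ℝ) ≤ E.card := by
    have := Set.ncard_le_ncard hsubE (Finset.finite_toSet _)
    rw [Set.ncard_coe_finset] at this
    exact_mod_cast this
  refine hcard.trans ?_
  have h14 : (E.card : ℝ) * (ε ^ 3 / 3200 * X ^ 3) ≤ ∑ q ∈ Icc 1 Q, Bq w.factorial X q := by
    rw [← nsmul_eq_mul]
    refine le_trans (card_nsmul_le_sum E _ _ (fun q hq => ?_))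
      (sum_le_sum_of_subset_of_nonneg (filter_subset _ _) (fun q _ _ => t1Final_Bq_nonneg _ _ _))
    exact (mem_filter.mp hq).2
  have h15 := h14.trans hBsum
  have h16 : (0 : ℝ) < ε ^ 3 / 3200 * X ^ 3 := by positivity
  have h17 : ε ^ 3 / 3200 * ε * Q * X ^ 3 = (ε * Q) * (ε ^ 3 / 3200 * X ^ 3) := by ring
  rw [h17] at h15
  exact le_of_mul_le_mul_right h15 h16

end Pool.MP_dd84fd_nt.L2G
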