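import Pool.Agent.Lib.MP_dd84fd_nt.L2G.Fourth
import Pool.Agent.Lib.MP_dd84fd_nt.L2G.T1Aux

set_option autoImplicit false

namespace Pool.MP_dd84fd_nt.L2G

open Finset Pool.MP_67663b_nt.Odd

theorem t1m_logs (n : ℕ) (c : ℝ) : ∃ X0 : ℕ, ∀ X : ℕ, X0 ≤ X →
    c * Real.log (Real.log X) ^ n ≤ Real.log X ∧ c ≤ Real.log (Real.log X) ∧
      1 ≤ Real.log (Real.log X) ∧ 1 ≤ Real.log X := by
  have h1 : Filter.Tendsto (fun X : ℕ => Real.log X) Filter.atTop Filter.atTop :=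
    Real.tendsto_log_atTop.comp tendsto_natCast_atTop_atTop
  have h2 : Filter.Tendsto (fun X : ℕ => Real.log (Real.log X)) Filter.atTop Filter.atTop :=
    Real.tendsto_log_atTop.comp h1
  have h3 := ((Real.tendsto_pow_mul_exp_neg_atTop_nhds_zero n).comp h2).const_mul c
  rw [mul_zero] at h3
  have h4 : ∀ᶠ X : ℕ in Filter.atTop, c * Real.log (Real.log X) ^ n ≤ Real.log X ∧
      c ≤ Real.log (Real.log X) ∧ 1 ≤ Real.log (Real.log X) ∧ 1 ≤ Real.log X := by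
    filter_upwards [h3.eventually (gt_mem_nhds one_pos), h1.eventually_ge_atTop 1,
      h2.eventually_ge_atTop 1, h2.eventually_ge_atTop c] with X h5 h6 h7 h8
    refine ⟨?_, h8, h7, h6⟩
    have h9 : 0 < Real.log X := by linarith
    simp only [Function.comp_apply] at h5
    rw [Real.exp_neg, Real.exp_log h9] at h5
    have h10 : c * (Real.log (Real.log X) ^ n * (Real.log X)⁻¹) =
        c * Real.log (Real.log X) ^ n / Real.log X := by
      rw [div_eq_mul_inv]; ring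
    rw [h10, div_lt_one h9] at h5
    exact h5.le
  exact Filter.eventually_atTop.1 h4

/-- exponents of the dyadic arcs up to `P` -/
noncomputable def t1I (P : ℝ) : Finset ℕ := (range (⌊P⌋₊ + 1)).filter (fun i => (2 : ℝ) ^ i ≤ P)

theorem t1I_mem (P : ℝ) (i : ℕ) : i ∈ t1I P ↔ (2 : ℝ) ^ i ≤ P := by
  unfold t1I
  rw [Finset.mem_filter, Finset.mem_range]
  constructor
  · exact fun h => h.2
  · intro h
    refine ⟨?_, h⟩
    have h1 : (i : ℝ) < 2 ^ i := by exact_mod_cast Nat.lt_two_pow_self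
    have h2 : (i : ℝ) ≤ P := by linarith
    have h3 : i ≤ ⌊P⌋₊ := Nat.le_floor h2
    omega

theorem t1I_le (P : ℝ) (i : ℕ) (h : (2 : ℝ) ^ i ≤ P) : (i : ℝ) ≤ 2 * Real.log P := by
  have h1 : Real.log ((2 : ℝ) ^ i) ≤ Real.log P := Real.log_le_log (by positivity) h
  rw [Real.log_pow] at h1
  have h2 := Real.log_two_gt_d9
  have h3 : (0 : ℝ) ≤ i := Nat.cast_nonneg i
  nlinarith

theorem t1I_card (P : ℝ) (hP : 1 ≤ P) : ((t1I P).card : ℝ) ≤ 1 + 2 * Real.log P := by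
  have h0 : 0 ≤ 2 * Real.log P := by
    have := Real.log_nonneg hP
    positivity
  have h1 : t1I P ⊆ range (⌊2 * Real.log P⌋₊ + 1) := by
    intro i hi
    rw [t1I_mem] at hi
    rw [Finset.mem_range]
    have := Nat.le_floor (t1I_le P i hi)
    omega
  have h2 : ((t1I P).card : ℝ) ≤ ((⌊2 * Real.log P⌋₊ + 1 : ℕ) : ℝ) := by
    have := Finset.card_le_card h1
    rw [Finset.card_range] at this
    exact_mod_cast this
  have h3 := Nat.floor_le h0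
  push_cast at h2
  linarith

/-- the part of the arc `2^i` -/
private noncomputable def t1T (W X R : ℕ) (δ : ℝ) (i : ℕ) : ℝ :=
  av (gr X) ((Arc (2 ^ i) δ).indicator (fun θ => ‖UH W X θ‖ ^ 2 *
    ∑ d ∈ Ico R (2 * R), Vst (VH W X) d θ))

private theorem t1m_cover (W X B R : ℕ) : ∑ d ∈ Ico R (2 * R), JM W X B d ≤
    ∑ i ∈ t1I (Real.log X ^ B), t1T W X R (Real.log X ^ B / X) i := by
  classical
  unfold JM t1T
  rw [← av_sum, ← av_sum]
  refine av_mono fun θ => ?_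
  have hG : 0 ≤ ‖UH W X θ‖ ^ 2 * ∑ d ∈ Ico R (2 * R), Vst (VH W X) d θ :=
    mul_nonneg (by positivity) (Finset.sum_nonneg fun d _ => t1x_Vst_nonneg _ _ _)
  have hnn : ∀ i ∈ t1I (Real.log X ^ B), 0 ≤ (Arc (2 ^ i) (Real.log X ^ B / X)).indicator
      (fun θ => ‖UH W X θ‖ ^ 2 * ∑ d ∈ Ico R (2 * R), Vst (VH W X) d θ) θ := by
    intro i _
    by_cases h : θ ∈ Arc (2 ^ i) (Real.log X ^ B / X)
    · rw [Set.indicator_of_mem h]; exact hG
    · rw [Set.indicator_of_notMem h]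
  by_cases hθ : θ ∈ Maj (Real.log X ^ B) (Real.log X ^ B / X)
  · obtain ⟨i, hi, hiA⟩ := Maj_cover _ _ θ hθ
    have h1 : ∑ d ∈ Ico R (2 * R), (Maj (Real.log X ^ B) (Real.log X ^ B / X)).indicator
        (fun θ => ‖UH W X θ‖ ^ 2 * Vst (VH W X) d θ) θ =
        (Arc (2 ^ i) (Real.log X ^ B / X)).indicator
      (fun θ => ‖UH W X θ‖ ^ 2 * ∑ d ∈ Ico R (2 * R), Vst (VH W X) d θ) θ := by
      rw [Set.indicator_of_mem hiA, Finset.mul_sum]
      exact Finset.sum_congr rfl fun d _ => by rw [Set.indicator_of_mem hθ]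
    rw [h1]
    exact Finset.single_le_sum hnn ((t1I_mem _ _).2 hi)
  · have h1 : ∑ d ∈ Ico R (2 * R), (Maj (Real.log X ^ B) (Real.log X ^ B / X)).indicator
        (fun θ => ‖UH W X θ‖ ^ 2 * Vst (VH W X) d θ) θ = 0 :=
      Finset.sum_eq_zero fun d _ => by rw [Set.indicator_of_notMem hθ]
    rw [h1]
    exact Finset.sum_nonneg hnn

private theorem t1m_bound1 (W X R : ℕ) (δ : ℝ) (i : ℕ) (v a : ℝ)
    (hv : ∀ θ, ∑ d ∈ Ico R (2 * R), Vst (VH W X) d θ ≤ v) (hv0 : 0 ≤ v)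
    (ha : av (gr X) ((Arc (2 ^ i) δ).indicator (fun θ => ‖UH W X θ‖ ^ 2)) ≤ a) :
    t1T W X R δ i ≤ v * a := by
  unfold t1T
  have h1 : av (gr X) ((Arc (2 ^ i) δ).indicator (fun θ => ‖UH W X θ‖ ^ 2 *
      ∑ d ∈ Ico R (2 * R), Vst (VH W X) d θ)) ≤
      av (gr X) (fun θ => v * (Arc (2 ^ i) δ).indicator (fun θ => ‖UH W X θ‖ ^ 2) θ) := by
    refine av_mono fun θ => ?_
    by_cases h : θ ∈ Arc (2 ^ i) δ
    · rw [Set.indicator_of_mem h, Set.indicator_of_mem h, mul_comm]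
      exact mul_le_mul_of_nonneg_right (hv θ) (by positivity)
    · rw [Set.indicator_of_notMem h, Set.indicator_of_notMem h, mul_zero]
  refine h1.trans ?_
  rw [av_mul_left]
  exact mul_le_mul_of_nonneg_left ha hv0

private theorem t1m_bound2 (W X R : ℕ) (δ : ℝ) (i : ℕ) (M A : ℝ) (hR : 1 ≤ R) (hRi : R ≤ 2 ^ i)
    (hRX : R ≤ X) (hM : 0 ≤ M) (hA : 0 ≤ A) (hsup : ∀ θ ∈ Arc (2 ^ i) δ, ‖UH W X θ‖ ^ 2 ≤ M)
    (harc : ∀ k : ℕ, k < 2 * i + 3 → 2 ^ k ≤ 4 * 2 ^ i * R →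
      av (gr X) ((Arc (2 ^ k) δ).indicator (fun θ => ‖VH W X θ‖ ^ 2)) ≤ A) :
    t1T W X R δ i ≤ M * (2 * (R : ℝ) ^ 2 * ((2 * i + 3) * A)) := by
  classical
  set KK : Finset ℕ := (range (2 * i + 3)).filter (fun k => 2 ^ k ≤ 4 * 2 ^ i * R) with hKK
  set G : ℕ → ℝ → ℝ := fun k => (Arc (2 ^ k) δ).indicator (fun θ => ‖VH W X θ‖ ^ 2) with hG
  have hG0 : ∀ k θ, 0 ≤ G k θ := fun k θ => Set.indicator_nonneg (fun _ _ => by positivity) θ
  have h1 : t1T W X R δ i ≤ av (gr X) (fun θ => M * ∑ d ∈ Ico R (2 * R),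
      ∑ b ∈ (range d).filter (Nat.Coprime d), ∑ k ∈ KK, G k (θ + (b : ℝ) / d)) := by
    unfold t1T
    refine av_mono fun θ => ?_
    have h0 : 0 ≤ ∑ d ∈ Ico R (2 * R),
        ∑ b ∈ (range d).filter (Nat.Coprime d), ∑ k ∈ KK, G k (θ + (b : ℝ) / d) :=
      Finset.sum_nonneg fun d _ => Finset.sum_nonneg fun b _ => Finset.sum_nonneg fun k _ =>
        hG0 k _
    by_cases h : θ ∈ Arc (2 ^ i) δ
    · rw [Set.indicator_of_mem h]
      have h2 : ∑ d ∈ Ico R (2 * R), Vst (VH W X) d θ ≤ ∑ d ∈ Ico R (2 * R),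
          ∑ b ∈ (range d).filter (Nat.Coprime d), ∑ k ∈ KK, G k (θ + (b : ℝ) / d) := by
        unfold Vst
        refine Finset.sum_le_sum fun d hd => Finset.sum_le_sum fun b _ => ?_
        rw [Finset.mem_Ico] at hd
        obtain ⟨k, hk, hkA⟩ := Arc_shift (2 ^ i) δ θ d b (Nat.one_le_two_pow) (hR.trans hd.1) h
        have hk1 : 2 ^ k ≤ 4 * 2 ^ i * R := by
          refine hk.trans ?_
          calc 2 * 2 ^ i * d ≤ 2 * 2 ^ i * (2 * R) := Nat.mul_le_mul_left _ hd.2.le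
            _ = 4 * 2 ^ i * R := by ring
        have hk2 : k < 2 * i + 3 := by
          have h3 : 2 ^ k ≤ 2 ^ (2 * i + 2) := by
            refine hk1.trans ?_
            calc 4 * 2 ^ i * R ≤ 4 * 2 ^ i * 2 ^ i := Nat.mul_le_mul_left _ hRi
              _ = 2 ^ (2 * i + 2) := by ring
          have := (Nat.pow_le_pow_iff_right (by norm_num : 1 < 2)).1 h3
          omega
        have hkK : k ∈ KK := by
          rw [hKK, Finset.mem_filter, Finset.mem_range]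
          exact ⟨hk2, hk1⟩
        have h4 : ‖VH W X (θ + (b : ℝ) / d)‖ ^ 2 = G k (θ + (b : ℝ) / d) := by
          rw [hG]
          simp only
          rw [Set.indicator_of_mem hkA]
        rw [h4]
        exact Finset.single_le_sum (f := fun k => G k (θ + (b : ℝ) / d)) (fun k _ => hG0 k _) hkK
      have h5 : 0 ≤ ∑ d ∈ Ico R (2 * R), Vst (VH W X) d θ :=
        Finset.sum_nonneg fun d _ => t1x_Vst_nonneg _ _ _
      exact mul_le_mul (hsup θ h) h2 h5 hM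
    · rw [Set.indicator_of_notMem h]
      exact mul_nonneg hM h0
  refine h1.trans ?_
  rw [av_mul_left]
  refine mul_le_mul_of_nonneg_left ?_ hM
  rw [av_sum]
  have h6 : ∀ d ∈ Ico R (2 * R), av (gr X) (fun θ => ∑ b ∈ (range d).filter (Nat.Coprime d),
      ∑ k ∈ KK, G k (θ + (b : ℝ) / d)) ≤ 2 * R * ((2 * i + 3) * A) := by
    intro d hd
    rw [Finset.mem_Ico] at hd
    have hdN : d ∣ gr X := dvd_gr (hR.trans hd.1) (by omega)
    rw [av_sum]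
    have h7 : ∀ b ∈ (range d).filter (Nat.Coprime d), av (gr X) (fun θ =>
        ∑ k ∈ KK, G k (θ + (b : ℝ) / d)) ≤ (2 * i + 3) * A := by
      intro b _
      rw [av_sum]
      have h8 : ∀ k ∈ KK, av (gr X) (fun θ => G k (θ + (b : ℝ) / d)) ≤ A := by
        intro k hk
        rw [hKK, Finset.mem_filter, Finset.mem_range] at hk
        have h9 := t1x_shift X (Arc (2 ^ k) δ) (fun θ => t1x_Arc_one _ _ θ)
          (fun θ => ‖VH W X θ‖ ^ 2) (fun θ => by rw [t1x_VH_one]) (lt_of_lt_of_le hR hd.1) hdN b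
        rw [hG]
        simp only
        rw [h9]
        exact harc k hk.1 hk.2
      refine (Finset.sum_le_sum h8).trans ?_
      rw [Finset.sum_const, nsmul_eq_mul]
      refine mul_le_mul_of_nonneg_right ?_ hA
      have h10 : KK.card ≤ 2 * i + 3 := by
        refine (Finset.card_filter_le _ _).trans ?_
        rw [Finset.card_range]
      exact_mod_cast h10
    refine (Finset.sum_le_sum h7).trans ?_
    rw [Finset.sum_const, nsmul_eq_mul]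
    refine mul_le_mul_of_nonneg_right ?_ (by positivity)
    have h11 : ((range d).filter (Nat.Coprime d)).card ≤ 2 * R := by
      refine (Finset.card_filter_le _ _).trans ?_
      rw [Finset.card_range]
      exact hd.2.le
    exact_mod_cast h11
  refine (Finset.sum_le_sum h6).trans ?_
  rw [Finset.sum_const, nsmul_eq_mul, Nat.card_Ico]
  have h12 : 2 * R - R = R := by omega
  rw [h12]
  exact le_of_eq (by ring)

private theorem t1m_geom : ∃ C : ℝ, 0 < C ∧ ∀ s : Finset ℕ,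
    ∑ i ∈ s, (2 * (i : ℝ) + 3) ^ 3 * ((2 : ℝ) ^ i) ^ (-(1 / 6 : ℝ)) ≤ C := by
  set q : ℝ := (2 : ℝ) ^ (-(1 / 6 : ℝ)) with hq
  have hq0 : 0 < q := by positivity
  have hq1 : q < 1 := Real.rpow_lt_one_of_one_lt_of_neg (by norm_num) (by norm_num)
  have hpow : ∀ i : ℕ, ((2 : ℝ) ^ i) ^ (-(1 / 6 : ℝ)) = q ^ i := by
    intro i
    rw [hq, ← Real.rpow_natCast, ← Real.rpow_mul (by norm_num), ← Real.rpow_natCast,
      ← Real.rpow_mul (by norm_num), mul_comm]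
  have hs : Summable fun i : ℕ => (2 * (i : ℝ) + 3) ^ 3 * q ^ i := by
    have h1 := summable_pow_mul_geometric_of_norm_lt_one (R := ℝ) 3
      (r := q) (by rw [Real.norm_of_nonneg hq0.le]; exact hq1)
    have h2 := summable_pow_mul_geometric_of_norm_lt_one (R := ℝ) 0
      (r := q) (by rw [Real.norm_of_nonneg hq0.le]; exact hq1)
    refine Summable.of_nonneg_of_le (fun i => by positivity) (fun i => ?_)
      ((h1.mul_left 125).add (h2.mul_left 125))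
    have hi : (0 : ℝ) ≤ i := Nat.cast_nonneg i
    have hqi : 0 ≤ q ^ i := by positivity
    have h3 : (2 * (i : ℝ) + 3) ^ 3 ≤ 125 * i ^ 3 + 125 := by
      nlinarith [sq_nonneg ((i : ℝ) - 1), mul_nonneg hi (sq_nonneg ((i : ℝ) - 1)),
        mul_nonneg hi hi]
    calc (2 * (i : ℝ) + 3) ^ 3 * q ^ i ≤ (125 * i ^ 3 + 125) * q ^ i :=
          mul_le_mul_of_nonneg_right h3 hqi
      _ = 125 * ((i : ℝ) ^ 3 * q ^ i) + 125 * ((i : ℝ) ^ 0 * q ^ i) := by ring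
  refine ⟨∑' i : ℕ, (2 * (i : ℝ) + 3) ^ 3 * q ^ i + 1, ?_, fun s => ?_⟩
  · have : 0 ≤ ∑' i : ℕ, (2 * (i : ℝ) + 3) ^ 3 * q ^ i := tsum_nonneg fun i => by positivity
    linarith
  · have h1 := hs.sum_le_tsum s (fun i _ => by positivity)
    have h2 : ∑ i ∈ s, (2 * (i : ℝ) + 3) ^ 3 * ((2 : ℝ) ^ i) ^ (-(1 / 6 : ℝ)) =
        ∑ i ∈ s, (2 * (i : ℝ) + 3) ^ 3 * q ^ i :=
      Finset.sum_congr rfl fun i _ => by rw [hpow]
    rw [h2]
    linarith

/-- properties of an arc with index in `t1I` -/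
private theorem t1m_sup (Cs L LL X : ℝ) (hCs : 0 < Cs) (hX : 0 ≤ X) (i : ℕ) (u r w : ℝ)
    (hr : (2 : ℝ) ^ i ≤ r)
    (hu0 : 0 ≤ u)
    (hu : u ≤ Cs * X * (max r w) ^ (-(1 / 3 : ℝ)) + Cs * X * LL ^ 4 / L) :
    u ^ 2 ≤ 2 * Cs ^ 2 * X ^ 2 * ((2 : ℝ) ^ i) ^ (-(2 / 3 : ℝ)) +
      2 * Cs ^ 2 * X ^ 2 * (LL ^ 4 / L) ^ 2 := by
  have h2 : (0 : ℝ) < 2 ^ i := by positivity
  have h1 : (max r w) ^ (-(1 / 3 : ℝ)) ≤ ((2 : ℝ) ^ i) ^ (-(1 / 3 : ℝ)) :=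
    Real.rpow_le_rpow_of_nonpos h2 (hr.trans (le_max_left _ _)) (by norm_num)
  have h3 : u ≤ Cs * X * ((2 : ℝ) ^ i) ^ (-(1 / 3 : ℝ)) + Cs * X * (LL ^ 4 / L) := by
    have h4 : Cs * X * (max r w) ^ (-(1 / 3 : ℝ)) ≤ Cs * X * ((2 : ℝ) ^ i) ^ (-(1 / 3 : ℝ)) :=
      mul_le_mul_of_nonneg_left h1 (by positivity)
    have h5 : Cs * X * LL ^ 4 / L = Cs * X * (LL ^ 4 / L) := by ring
    linarith
  have h6 : ((2 : ℝ) ^ i) ^ (-(2 / 3 : ℝ)) = (((2 : ℝ) ^ i) ^ (-(1 / 3 : ℝ))) ^ 2 := by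
    rw [← Real.rpow_natCast (((2 : ℝ) ^ i) ^ (-(1 / 3 : ℝ))) 2, ← Real.rpow_mul h2.le]
    congr 1
    norm_num
  rw [h6]
  have h7 : u ^ 2 ≤ (Cs * X * ((2 : ℝ) ^ i) ^ (-(1 / 3 : ℝ)) + Cs * X * (LL ^ 4 / L)) ^ 2 :=
    pow_le_pow_left₀ hu0 h3 2
  refine h7.trans ?_
  nlinarith [sq_nonneg (Cs * X * ((2 : ℝ) ^ i) ^ (-(1 / 3 : ℝ)) - Cs * X * (LL ^ 4 / L))]

/-- the arcs that are far from the centre -/
private theorem t1m_far (Cs Ca : ℝ) (hCs : 0 < Cs) (hCa : 0 < Ca) (w X R : ℕ) (δ L LL : ℝ) (B : ℕ)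
    (hw : 2 ≤ w) (hR : 1 ≤ R) (hRX : R ≤ X) (hL : 4 ≤ L) (hLL : 1 ≤ LL) (hRL : (R : ℝ) ≤ L)
    (hsup : ∀ (r : ℕ) (y : ℤ) (β : ℝ), 1 ≤ r → (r : ℝ) ≤ L ^ (B + 2) →
      IsCoprime y (r : ℤ) → |β| ≤ δ →
      ‖UH w.factorial X (y / r + β)‖ ≤ Cs * X * (max (r : ℝ) w) ^ (-(1 / 3 : ℝ)) +
        Cs * X * LL ^ 4 / L)
    (harc : ∀ k : ℕ, (2 : ℝ) ^ k ≤ L ^ (B + 2) →
      av (gr X) ((Arc (2 ^ k) δ).indicator (fun θ => ‖VH w.factorial X θ‖ ^ 2)) ≤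
        Ca * X * (1 + Real.log ((2 ^ k : ℕ) : ℝ) + Real.log w))
    (i : ℕ) (hi : (2 : ℝ) ^ i ≤ L ^ B) (hiR : (R : ℝ) ^ 4 < 2 ^ i) :
    t1T w.factorial X R δ i ≤ 4 * Cs ^ 2 * Ca * X ^ 3 * (1 + Real.log w) *
      ((2 * (i : ℝ) + 3) ^ 3 * ((2 : ℝ) ^ i) ^ (-(1 / 6 : ℝ)) +
        (R : ℝ) ^ 2 * (2 * (i : ℝ) + 3) ^ 2 * (LL ^ 4 / L) ^ 2) := by
  have hL0 : 0 < L := by linarith
  have hLL0 : 0 ≤ LL ^ 4 / L := by positivity
  have hR1 : (1 : ℝ) ≤ R := by exact_mod_cast hR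
  have hX0 : (0 : ℝ) ≤ X := Nat.cast_nonneg X
  have hi0 : (0 : ℝ) ≤ i := Nat.cast_nonneg i
  have hw1 : (1 : ℝ) ≤ w := by
    have : 1 ≤ w := by omega
    exact_mod_cast this
  have hlw : 0 ≤ Real.log w := Real.log_nonneg hw1
  have h2i : (0 : ℝ) < 2 ^ i := by positivity
  have hRle : (R : ℝ) ≤ 2 ^ i := by
    have h1 : (R : ℝ) ≤ (R : ℝ) ^ 4 := le_self_pow₀ hR1 (by norm_num)
    linarith
  have hRi : R ≤ 2 ^ i := by exact_mod_cast hRle
  set M : ℝ := 2 * Cs ^ 2 * X ^ 2 * ((2 : ℝ) ^ i) ^ (-(2 / 3 : ℝ)) +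
      2 * Cs ^ 2 * X ^ 2 * (LL ^ 4 / L) ^ 2 with hM
  have hM0 : 0 ≤ M := by positivity
  set A : ℝ := Ca * X * ((2 * (i : ℝ) + 3) * (1 + Real.log w)) with hA
  have hA0 : 0 ≤ A := by positivity
  have h1 : t1T w.factorial X R δ i ≤ M * (2 * (R : ℝ) ^ 2 * ((2 * i + 3) * A)) := by
    refine t1m_bound2 w.factorial X R δ i M A hR hRi hRX hM0 hA0 ?_ ?_
    · rintro θ ⟨r, hr1, hr2, hr3, y, hy, hθ⟩
      have hr2' : (2 : ℝ) ^ i ≤ r := by exact_mod_cast hr2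
      have hr3' : (r : ℝ) ≤ L ^ (B + 2) := by
        have h3 : (r : ℝ) < 2 * 2 ^ i := by exact_mod_cast hr3
        have h4 : 2 * (2 : ℝ) ^ i ≤ L ^ 2 * L ^ B := by
          have h5 : (2 : ℝ) ≤ L ^ 2 := by nlinarith
          exact mul_le_mul h5 hi h2i.le (by positivity)
        rw [pow_add, mul_comm (L ^ B)]
        linarith
      have h6 := hsup r y (θ - y / r) hr1 hr3' hy hθ
      have h7 : (y : ℝ) / r + (θ - y / r) = θ := by ring
      rw [h7] at h6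
      exact t1m_sup Cs L LL X hCs hX0 i _ r w hr2' (norm_nonneg _) h6
    · intro k hk hk2
      have hk3 : (2 : ℝ) ^ k ≤ L ^ (B + 2) := by
        have h3 : (2 : ℝ) ^ k ≤ 4 * 2 ^ i * R := by exact_mod_cast hk2
        have h4 : (4 : ℝ) * R ≤ L ^ 2 := by nlinarith
        calc (2 : ℝ) ^ k ≤ 4 * 2 ^ i * R := h3
          _ = 2 ^ i * (4 * R) := by ring
          _ ≤ L ^ B * L ^ 2 := mul_le_mul hi h4 (by positivity) (by positivity)
          _ = L ^ (B + 2) := by rw [pow_add]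
      refine (harc k hk3).trans ?_
      rw [hA]
      refine mul_le_mul_of_nonneg_left ?_ (by positivity)
      have h5 : Real.log ((2 ^ k : ℕ) : ℝ) ≤ k := by
        push_cast
        rw [Real.log_pow]
        have h6 : Real.log 2 ≤ 1 := by
          have := Real.log_two_lt_d9
          linarith
        have h7 : (0 : ℝ) ≤ k := Nat.cast_nonneg k
        nlinarith
      have h8 : (k : ℝ) ≤ 2 * i + 2 := by
        have : k ≤ 2 * i + 2 := by omega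
        exact_mod_cast this
      have h9 : (1 : ℝ) ≤ 2 * i + 3 := by linarith
      nlinarith [mul_nonneg hi0 hlw]
  refine h1.trans ?_
  have h10 : (R : ℝ) ^ 2 * ((2 : ℝ) ^ i) ^ (-(2 / 3 : ℝ)) ≤ ((2 : ℝ) ^ i) ^ (-(1 / 6 : ℝ)) := by
    have h11 : (R : ℝ) ^ 2 ≤ ((2 : ℝ) ^ i) ^ (1 / 2 : ℝ) := by
      have h12 : ((R : ℝ) ^ 4) ^ (1 / 2 : ℝ) ≤ ((2 : ℝ) ^ i) ^ (1 / 2 : ℝ) :=
        Real.rpow_le_rpow (by positivity) hiR.le (by norm_num)
      have h13 : ((R : ℝ) ^ 4) ^ (1 / 2 : ℝ) = (R : ℝ) ^ 2 := by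
        rw [← Real.rpow_natCast, ← Real.rpow_mul (by positivity), ← Real.rpow_natCast]
        congr 1
        norm_num
      rw [h13] at h12
      exact h12
    calc (R : ℝ) ^ 2 * ((2 : ℝ) ^ i) ^ (-(2 / 3 : ℝ)) ≤
        ((2 : ℝ) ^ i) ^ (1 / 2 : ℝ) * ((2 : ℝ) ^ i) ^ (-(2 / 3 : ℝ)) :=
          mul_le_mul_of_nonneg_right h11 (by positivity)
      _ = ((2 : ℝ) ^ i) ^ (-(1 / 6 : ℝ)) := by
          rw [← Real.rpow_add h2i]
          congr 1
          norm_num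
  have h14 : M * (2 * (R : ℝ) ^ 2 * ((2 * i + 3) * A)) =
      4 * Cs ^ 2 * Ca * X ^ 3 * (1 + Real.log w) * (2 * (i : ℝ) + 3) ^ 2 *
        ((R : ℝ) ^ 2 * ((2 : ℝ) ^ i) ^ (-(2 / 3 : ℝ)) + (R : ℝ) ^ 2 * (LL ^ 4 / L) ^ 2) := by
    rw [hM, hA]
    ring
  rw [h14]
  have h15 : (2 * (i : ℝ) + 3) ^ 2 * ((2 : ℝ) ^ i) ^ (-(1 / 6 : ℝ)) ≤
      (2 * (i : ℝ) + 3) ^ 3 * ((2 : ℝ) ^ i) ^ (-(1 / 6 : ℝ)) := by
    refine mul_le_mul_of_nonneg_right ?_ (by positivity)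
    exact pow_le_pow_right₀ (by linarith) (by norm_num)
  have h16 : (2 * (i : ℝ) + 3) ^ 2 * ((R : ℝ) ^ 2 * ((2 : ℝ) ^ i) ^ (-(2 / 3 : ℝ))) ≤
      (2 * (i : ℝ) + 3) ^ 2 * ((2 : ℝ) ^ i) ^ (-(1 / 6 : ℝ)) :=
    mul_le_mul_of_nonneg_left h10 (by positivity)
  have h17 : (2 * (i : ℝ) + 3) ^ 2 * ((R : ℝ) ^ 2 * ((2 : ℝ) ^ i) ^ (-(2 / 3 : ℝ)) +
      (R : ℝ) ^ 2 * (LL ^ 4 / L) ^ 2) ≤
      (2 * (i : ℝ) + 3) ^ 3 * ((2 : ℝ) ^ i) ^ (-(1 / 6 : ℝ)) +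
        (R : ℝ) ^ 2 * (2 * (i : ℝ) + 3) ^ 2 * (LL ^ 4 / L) ^ 2 := by
    have h18 : (2 * (i : ℝ) + 3) ^ 2 * ((R : ℝ) ^ 2 * ((2 : ℝ) ^ i) ^ (-(2 / 3 : ℝ)) +
      (R : ℝ) ^ 2 * (LL ^ 4 / L) ^ 2) =
      (2 * (i : ℝ) + 3) ^ 2 * ((R : ℝ) ^ 2 * ((2 : ℝ) ^ i) ^ (-(2 / 3 : ℝ))) +
        (R : ℝ) ^ 2 * (2 * (i : ℝ) + 3) ^ 2 * (LL ^ 4 / L) ^ 2 := by ring
    rw [h18]
    linarith
  calc 4 * Cs ^ 2 * Ca * X ^ 3 * (1 + Real.log w) * (2 * (i : ℝ) + 3) ^ 2 *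
        ((R : ℝ) ^ 2 * ((2 : ℝ) ^ i) ^ (-(2 / 3 : ℝ)) + (R : ℝ) ^ 2 * (LL ^ 4 / L) ^ 2) =
      4 * Cs ^ 2 * Ca * X ^ 3 * (1 + Real.log w) * ((2 * (i : ℝ) + 3) ^ 2 *
        ((R : ℝ) ^ 2 * ((2 : ℝ) ^ i) ^ (-(2 / 3 : ℝ)) + (R : ℝ) ^ 2 * (LL ^ 4 / L) ^ 2)) := by ring
    _ ≤ _ := mul_le_mul_of_nonneg_left h17 (by positivity)

theorem t1_midA : ∃ C : ℝ, 0 < C ∧ ∀ w : ℕ, 2 ≤ w → ∀ B : ℕ, ∃ X0 : ℕ, ∀ X : ℕ, X0 ≤ X →
    ∀ R : ℕ, 1 ≤ R → (R : ℝ) ≤ Real.log (Real.log X) ^ 20 →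
    ∑ d ∈ Ico R (2 * R), JM w.factorial X B d ≤
      C * (1 + Real.log w) ^ 2 * (1 + Real.log R) ^ 4 * X ^ 3 := by
  classical
  obtain ⟨Cs, hCs, hsup⟩ := sup_U
  obtain ⟨Ca, hCa, harc⟩ := uv_arc
  obtain ⟨Cv, hCv, hvf⟩ := v_far
  obtain ⟨Cg, hCg, hgeo⟩ := t1m_geom
  refine ⟨200 * Cv * Ca + 4 * Cs ^ 2 * Ca * (Cg + 1), by positivity, fun w hw B => ?_⟩
  obtain ⟨X1, h1⟩ := hsup w hw (B + 2)
  obtain ⟨X2, h2⟩ := harc w hw (B + 2)
  obtain ⟨X3, h3⟩ := hvf w hw 1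
  obtain ⟨X4, h4⟩ := t1m_logs 51 (max 4 ((4 * (B : ℝ) + 3) ^ 3))
  refine ⟨max 1 (max X1 (max X2 (max X3 X4))), fun X hX R hR hRL => ?_⟩
  have hX0' : 1 ≤ X := (le_max_left _ _).trans hX
  have hX1 : X1 ≤ X := (le_max_left _ _).trans ((le_max_right _ _).trans hX)
  have hX2 : X2 ≤ X :=
    (le_max_left _ _).trans ((le_max_right _ _).trans ((le_max_right _ _).trans hX))
  have hX3 : X3 ≤ X := (le_max_left _ _).trans ((le_max_right _ _).trans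
    ((le_max_right _ _).trans ((le_max_right _ _).trans hX)))
  have hX4 : X4 ≤ X := (le_max_right _ _).trans ((le_max_right _ _).trans
    ((le_max_right _ _).trans ((le_max_right _ _).trans hX)))
  have h1 := h1 X hX1
  have h2 := h2 X hX2
  have h3 := h3 X hX3 R hR
  obtain ⟨h41, -, h43, h44⟩ := h4 X hX4
  set L := Real.log X with hL
  set LL := Real.log L with hLL
  have hXr : (1 : ℝ) ≤ X := by exact_mod_cast hX0'
  have hX0 : (0 : ℝ) < X := by linarith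
  have hLL0 : 0 < LL := by linarith
  have hL0 : 0 < L := by linarith
  have hLX : L ≤ X := by
    rw [hL]
    exact (Real.log_le_sub_one_of_pos hX0).trans (by linarith)
  have hpow : (1 : ℝ) ≤ LL ^ 51 := one_le_pow₀ h43
  have hL4 : 4 ≤ L := by
    have h5 : 4 * LL ^ 51 ≤ max 4 ((4 * (B : ℝ) + 3) ^ 3) * LL ^ 51 :=
      mul_le_mul_of_nonneg_right (le_max_left _ _) (by positivity)
    linarith
  have hLB : (4 * (B : ℝ) + 3) ^ 3 * LL ^ 51 ≤ L := by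
    have h5 : (4 * (B : ℝ) + 3) ^ 3 * LL ^ 51 ≤ max 4 ((4 * (B : ℝ) + 3) ^ 3) * LL ^ 51 :=
      mul_le_mul_of_nonneg_right (le_max_right _ _) (by positivity)
    linarith
  have hRL' : (R : ℝ) ≤ L := by
    have h5 : LL ^ 20 ≤ LL ^ 51 := pow_le_pow_right₀ h43 (by norm_num)
    have h6 : 4 * LL ^ 51 ≤ max 4 ((4 * (B : ℝ) + 3) ^ 3) * LL ^ 51 :=
      mul_le_mul_of_nonneg_right (le_max_left _ _) (by positivity)
    linarith
  have hRX : R ≤ X := by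
    have h5 : (R : ℝ) ≤ X := hRL'.trans hLX
    exact_mod_cast h5
  have hR1 : (1 : ℝ) ≤ R := by exact_mod_cast hR
  have hw1 : (1 : ℝ) ≤ w := by
    have : 1 ≤ w := by omega
    exact_mod_cast this
  have hlw : 0 ≤ Real.log w := Real.log_nonneg hw1
  have hlR : 0 ≤ Real.log R := Real.log_nonneg hR1
  have hL1 : 1 ≤ L := h44
  have hB2 : L ^ B ≤ L ^ (B + 2) := pow_le_pow_right₀ hL1 (by omega)
  set δ := L ^ B / X with hδ
  have hδ0 : 0 ≤ δ := by positivity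
  have hδ2 : δ ≤ L ^ (B + 2) / X := div_le_div_of_nonneg_right hB2 hX0.le
  have hPB : 1 ≤ L ^ B := one_le_pow₀ hL1
  -- the two kinds of arcs
  set I1 := (t1I (L ^ B)).filter (fun i => (2 : ℝ) ^ i ≤ (R : ℝ) ^ 4) with hI1
  set I2 := (t1I (L ^ B)).filter (fun i => ¬ (2 : ℝ) ^ i ≤ (R : ℝ) ^ 4) with hI2
  have hsplit : ∑ i ∈ t1I (L ^ B), t1T w.factorial X R δ i =
      ∑ i ∈ I1, t1T w.factorial X R δ i + ∑ i ∈ I2, t1T w.factorial X R δ i :=
    (Finset.sum_filter_add_sum_filter_not _ _ _).symm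
  have hv : ∀ θ, ∑ d ∈ Ico R (2 * R), Vst (VH w.factorial X) d θ ≤
      Cv * X ^ 2 * (1 + Real.log R + Real.log w) := h3 (by rw [pow_one]; exact hRL')
  -- near arcs
  have hnear : ∑ i ∈ I1, t1T w.factorial X R δ i ≤
      200 * Cv * Ca * (1 + Real.log w) ^ 2 * (1 + Real.log R) ^ 4 * X ^ 3 := by
    have hterm : ∀ i ∈ I1, t1T w.factorial X R δ i ≤
        25 * Cv * Ca * (1 + Real.log w) ^ 2 * (1 + Real.log R) ^ 2 * X ^ 3 := by
      intro i hi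
      rw [hI1, Finset.mem_filter, t1I_mem] at hi
      have h5 : ((2 ^ i : ℕ) : ℝ) ≤ L ^ (B + 2) := by
        push_cast
        exact hi.1.trans hB2
      have h6 := (h2 (2 ^ i) δ Nat.one_le_two_pow h5 hδ0 hδ2).1
      have h7 := t1m_bound1 w.factorial X R δ i _ _ hv (by positivity) h6
      refine h7.trans ?_
      have h8 : Real.log ((2 ^ i : ℕ) : ℝ) ≤ 4 * Real.log R := by
        push_cast
        calc Real.log ((2 : ℝ) ^ i) ≤ Real.log ((R : ℝ) ^ 4) :=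
              Real.log_le_log (by positivity) hi.2
          _ = 4 * Real.log R := by rw [Real.log_pow]; push_cast; ring
      have h9 : 1 + Real.log R + Real.log w ≤ (1 + Real.log R) * (1 + Real.log w) := by
        nlinarith [mul_nonneg hlR hlw]
      have h10 : 1 + Real.log ((2 ^ i : ℕ) : ℝ) + Real.log w ≤
          4 * ((1 + Real.log R) * (1 + Real.log w)) := by
        nlinarith [mul_nonneg hlR hlw]
      have h11 : 0 ≤ 1 + Real.log ((2 ^ i : ℕ) : ℝ) + Real.log w := by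
        have := Real.log_natCast_nonneg (2 ^ i)
        linarith
      calc Cv * X ^ 2 * (1 + Real.log R + Real.log w) *
            (Ca * X * (1 + Real.log ((2 ^ i : ℕ) : ℝ) + Real.log w)) =
          Cv * Ca * X ^ 3 * ((1 + Real.log R + Real.log w) *
            (1 + Real.log ((2 ^ i : ℕ) : ℝ) + Real.log w)) := by ring
        _ ≤ Cv * Ca * X ^ 3 * (((1 + Real.log R) * (1 + Real.log w)) *
            (4 * ((1 + Real.log R) * (1 + Real.log w)))) := by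
            refine mul_le_mul_of_nonneg_left ?_ (by positivity)
            exact mul_le_mul h9 h10 h11 (by positivity)
        _ = 4 * Cv * Ca * (1 + Real.log w) ^ 2 * (1 + Real.log R) ^ 2 * X ^ 3 := by ring
        _ ≤ 25 * Cv * Ca * (1 + Real.log w) ^ 2 * (1 + Real.log R) ^ 2 * X ^ 3 := by
            gcongr
            norm_num
    refine (Finset.sum_le_sum hterm).trans ?_
    rw [Finset.sum_const, nsmul_eq_mul]
    have hc : (I1.card : ℝ) ≤ 8 * (1 + Real.log R) := by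
      have h5 : I1 ⊆ t1I ((R : ℝ) ^ 4) := by
        intro i hi
        rw [hI1, Finset.mem_filter] at hi
        rw [t1I_mem]
        exact hi.2
      have h6 : (I1.card : ℝ) ≤ ((t1I ((R : ℝ) ^ 4)).card : ℝ) := by
        exact_mod_cast Finset.card_le_card h5
      have h7 := t1I_card ((R : ℝ) ^ 4) (one_le_pow₀ hR1)
      rw [Real.log_pow] at h7
      push_cast at h7
      linarith
    have h12 : (1 + Real.log R) ^ 3 ≤ (1 + Real.log R) ^ 4 :=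
      pow_le_pow_right₀ (by linarith) (by norm_num)
    calc (I1.card : ℝ) * (25 * Cv * Ca * (1 + Real.log w) ^ 2 * (1 + Real.log R) ^ 2 * X ^ 3) ≤
        (8 * (1 + Real.log R)) *
          (25 * Cv * Ca * (1 + Real.log w) ^ 2 * (1 + Real.log R) ^ 2 * X ^ 3) :=
          mul_le_mul_of_nonneg_right hc (by positivity)
      _ = 200 * Cv * Ca * (1 + Real.log w) ^ 2 * (1 + Real.log R) ^ 3 * X ^ 3 := by ring
      _ ≤ 200 * Cv * Ca * (1 + Real.log w) ^ 2 * (1 + Real.log R) ^ 4 * X ^ 3 :=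
          mul_le_mul_of_nonneg_right (mul_le_mul_of_nonneg_left h12 (by positivity))
            (by positivity)
  -- far arcs
  have hfar : ∑ i ∈ I2, t1T w.factorial X R δ i ≤
      4 * Cs ^ 2 * Ca * (Cg + 1) * (1 + Real.log w) ^ 2 * (1 + Real.log R) ^ 4 * X ^ 3 := by
    have hterm : ∀ i ∈ I2, t1T w.factorial X R δ i ≤
        4 * Cs ^ 2 * Ca * X ^ 3 * (1 + Real.log w) *
      ((2 * (i : ℝ) + 3) ^ 3 * ((2 : ℝ) ^ i) ^ (-(1 / 6 : ℝ)) +
        (R : ℝ) ^ 2 * (2 * (i : ℝ) + 3) ^ 2 * (LL ^ 4 / L) ^ 2) := by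
      intro i hi
      rw [hI2, Finset.mem_filter, t1I_mem, not_le] at hi
      refine t1m_far Cs Ca hCs hCa w X R δ L LL B hw hR hRX hL4 h43 hRL' ?_ ?_ i hi.1 hi.2
      · intro r y β hr1 hr2 hy hβ
        exact (h1 r y β hr1 hr2 hy (hβ.trans hδ2)).1
      · intro k hk
        have h5 : ((2 ^ k : ℕ) : ℝ) ≤ L ^ (B + 2) := by
          push_cast
          exact hk
        exact (h2 (2 ^ k) δ Nat.one_le_two_pow h5 hδ0 hδ2).2
    refine (Finset.sum_le_sum hterm).trans ?_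
    rw [← Finset.mul_sum, Finset.sum_add_distrib]
    have htiny : ∑ i ∈ I2, (R : ℝ) ^ 2 * (2 * (i : ℝ) + 3) ^ 2 * (LL ^ 4 / L) ^ 2 ≤ 1 := by
      have hLLB : Real.log (L ^ B) = B * LL := by rw [Real.log_pow]
      have h5 : ∀ i ∈ I2, (R : ℝ) ^ 2 * (2 * (i : ℝ) + 3) ^ 2 * (LL ^ 4 / L) ^ 2 ≤
          (LL ^ 20) ^ 2 * ((4 * B + 3) * LL) ^ 2 * (LL ^ 4 / L) ^ 2 := by
        intro i hi
        rw [hI2, Finset.mem_filter, t1I_mem] at hi
        have h6 := t1I_le _ i hi.1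
        rw [hLLB] at h6
        have h7 : 2 * (i : ℝ) + 3 ≤ (4 * B + 3) * LL := by nlinarith
        gcongr
      refine (Finset.sum_le_sum h5).trans ?_
      rw [Finset.sum_const, nsmul_eq_mul]
      have h8 : (I2.card : ℝ) ≤ (4 * B + 3) * LL := by
        have h9 : (I2.card : ℝ) ≤ ((t1I (L ^ B)).card : ℝ) := by
          exact_mod_cast Finset.card_filter_le _ _
        have h10 := t1I_card _ hPB
        rw [hLLB] at h10
        have hB0 : (0 : ℝ) ≤ B := Nat.cast_nonneg B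
        nlinarith [mul_nonneg hB0 hLL0.le]
      calc (I2.card : ℝ) * ((LL ^ 20) ^ 2 * ((4 * B + 3) * LL) ^ 2 * (LL ^ 4 / L) ^ 2) ≤
          ((4 * B + 3) * LL) * ((LL ^ 20) ^ 2 * ((4 * B + 3) * LL) ^ 2 * (LL ^ 4 / L) ^ 2) :=
            mul_le_mul_of_nonneg_right h8 (by positivity)
        _ = ((4 * (B : ℝ) + 3) ^ 3 * LL ^ 51) / L ^ 2 := by
            field_simp
        _ ≤ L / L ^ 2 := div_le_div_of_nonneg_right hLB (by positivity)
        _ = 1 / L := by field_simp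
        _ ≤ 1 := by
            rw [div_le_one hL0]
            exact hL1
    have h13 := hgeo I2
    have h14 : (1 : ℝ) ≤ (1 + Real.log R) ^ 4 := one_le_pow₀ (by linarith)
    have h15 : (1 + Real.log w) ≤ (1 + Real.log w) ^ 2 := le_self_pow₀ (by linarith) (by norm_num)
    calc 4 * Cs ^ 2 * Ca * X ^ 3 * (1 + Real.log w) *
        (∑ i ∈ I2, (2 * (i : ℝ) + 3) ^ 3 * ((2 : ℝ) ^ i) ^ (-(1 / 6 : ℝ)) +
          ∑ i ∈ I2, (R : ℝ) ^ 2 * (2 * (i : ℝ) + 3) ^ 2 * (LL ^ 4 / L) ^ 2) ≤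
        4 * Cs ^ 2 * Ca * X ^ 3 * (1 + Real.log w) * (Cg + 1) :=
          mul_le_mul_of_nonneg_left (add_le_add h13 htiny) (by positivity)
      _ ≤ 4 * Cs ^ 2 * Ca * X ^ 3 * (1 + Real.log w) ^ 2 * (Cg + 1) := by gcongr
      _ = 4 * Cs ^ 2 * Ca * (Cg + 1) * (1 + Real.log w) ^ 2 * 1 * X ^ 3 := by ring
      _ ≤ 4 * Cs ^ 2 * Ca * (Cg + 1) * (1 + Real.log w) ^ 2 * (1 + Real.log R) ^ 4 * X ^ 3 := by
          gcongr
  refine (t1m_cover w.factorial X B R).trans ?_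
  rw [← hL, ← hδ, hsplit]
  calc _ ≤ 200 * Cv * Ca * (1 + Real.log w) ^ 2 * (1 + Real.log R) ^ 4 * X ^ 3 +
      4 * Cs ^ 2 * Ca * (Cg + 1) * (1 + Real.log w) ^ 2 * (1 + Real.log R) ^ 4 * X ^ 3 :=
        add_le_add hnear hfar
    _ = _ := by ring

theorem t1_midB : ∃ C : ℝ, 0 < C ∧ ∀ w : ℕ, 2 ≤ w → ∀ B : ℕ, ∃ X0 : ℕ, ∀ X : ℕ, X0 ≤ X →
    ∀ R : ℕ, 1 ≤ R → (R : ℝ) ≤ Real.log X ^ 3 →
    ∑ d ∈ Ico R (2 * R), JM w.factorial X B d ≤
      C * (1 + Real.log w) ^ 2 * Real.log (Real.log X) ^ 4 * X ^ 3 := by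
  classical
  obtain ⟨Ca, hCa, harc⟩ := uv_arc
  obtain ⟨Cv, hCv, hvf⟩ := v_far
  refine ⟨Cv * Ca, by positivity, fun w hw B => ?_⟩
  obtain ⟨X2, h2⟩ := harc w hw (B + 2)
  obtain ⟨X3, h3⟩ := hvf w hw 3
  obtain ⟨X4, h4⟩ := t1m_logs 1 (4 * (B + 1) * (2 * (B : ℝ) + 1))
  refine ⟨max 1 (max X2 (max X3 X4)), fun X hX R hR hRL => ?_⟩
  have hX0' : 1 ≤ X := (le_max_left _ _).trans hX
  have hX2 : X2 ≤ X := (le_max_left _ _).trans ((le_max_right _ _).trans hX)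
  have hX3 : X3 ≤ X :=
    (le_max_left _ _).trans ((le_max_right _ _).trans ((le_max_right _ _).trans hX))
  have hX4 : X4 ≤ X :=
    (le_max_right _ _).trans ((le_max_right _ _).trans ((le_max_right _ _).trans hX))
  have h2 := h2 X hX2
  have h3 := h3 X hX3 R hR hRL
  obtain ⟨-, h42, h43, h44⟩ := h4 X hX4
  set L := Real.log X with hL
  set LL := Real.log L with hLL
  have hXr : (1 : ℝ) ≤ X := by exact_mod_cast hX0'
  have hX0 : (0 : ℝ) < X := by linarith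
  have hLL0 : 0 < LL := by linarith
  have hL1 : 1 ≤ L := h44
  have hL0 : 0 < L := by linarith
  have hR1 : (1 : ℝ) ≤ R := by exact_mod_cast hR
  have hR0 : (0 : ℝ) < R := by linarith
  have hw1 : (1 : ℝ) ≤ w := by
    have : 1 ≤ w := by omega
    exact_mod_cast this
  have hlw : 0 ≤ Real.log w := Real.log_nonneg hw1
  have hlR : 0 ≤ Real.log R := Real.log_nonneg hR1
  have hlR2 : Real.log R ≤ 3 * LL := by
    calc Real.log R ≤ Real.log (L ^ 3) := Real.log_le_log hR0 hRL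
      _ = 3 * LL := by rw [Real.log_pow]; push_cast; rfl
  have hB0 : (0 : ℝ) ≤ B := Nat.cast_nonneg B
  have hB2 : L ^ B ≤ L ^ (B + 2) := pow_le_pow_right₀ hL1 (by omega)
  set δ := L ^ B / X with hδ
  have hδ0 : 0 ≤ δ := by positivity
  have hδ2 : δ ≤ L ^ (B + 2) / X := div_le_div_of_nonneg_right hB2 hX0.le
  have hPB : 1 ≤ L ^ B := one_le_pow₀ hL1
  have hLLB : Real.log (L ^ B) = B * LL := by rw [Real.log_pow]
  have hterm : ∀ i ∈ t1I (L ^ B), t1T w.factorial X R δ i ≤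
      Cv * Ca * X ^ 3 * (1 + Real.log w) ^ 2 * (4 * LL * ((B + 1) * LL)) := by
    intro i hi
    rw [t1I_mem] at hi
    have h5 : ((2 ^ i : ℕ) : ℝ) ≤ L ^ (B + 2) := by
      push_cast
      exact hi.trans hB2
    have h6 := (h2 (2 ^ i) δ Nat.one_le_two_pow h5 hδ0 hδ2).1
    have h7 := t1m_bound1 w.factorial X R δ i _ _ h3 (by positivity) h6
    refine h7.trans ?_
    have h8 : Real.log ((2 ^ i : ℕ) : ℝ) ≤ B * LL := by
      push_cast
      rw [← hLLB]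
      exact Real.log_le_log (by positivity) hi
    have h9 : 1 + Real.log R + Real.log w ≤ (1 + Real.log w) * (4 * LL) := by
      nlinarith [mul_nonneg hlw hLL0.le]
    have h10 : 1 + Real.log ((2 ^ i : ℕ) : ℝ) + Real.log w ≤
        (1 + Real.log w) * ((B + 1) * LL) := by
      have h12 : 1 + B * LL ≤ (B + 1) * LL := by nlinarith
      have h13 : (1 : ℝ) ≤ (B + 1) * LL := by nlinarith [mul_nonneg hB0 hLL0.le]
      nlinarith [mul_nonneg hlw (sub_nonneg.2 h13)]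
    have h11 : 0 ≤ 1 + Real.log ((2 ^ i : ℕ) : ℝ) + Real.log w := by
      have := Real.log_natCast_nonneg (2 ^ i)
      linarith
    calc Cv * X ^ 2 * (1 + Real.log R + Real.log w) *
          (Ca * X * (1 + Real.log ((2 ^ i : ℕ) : ℝ) + Real.log w)) =
        Cv * Ca * X ^ 3 * ((1 + Real.log R + Real.log w) *
          (1 + Real.log ((2 ^ i : ℕ) : ℝ) + Real.log w)) := by ring
      _ ≤ Cv * Ca * X ^ 3 * (((1 + Real.log w) * (4 * LL)) *
          ((1 + Real.log w) * ((B + 1) * LL))) := by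
          refine mul_le_mul_of_nonneg_left ?_ (by positivity)
          exact mul_le_mul h9 h10 h11 (by positivity)
      _ = _ := by ring
  refine (t1m_cover w.factorial X B R).trans ?_
  rw [← hL, ← hδ]
  refine (Finset.sum_le_sum hterm).trans ?_
  rw [Finset.sum_const, nsmul_eq_mul]
  have hc : ((t1I (L ^ B)).card : ℝ) ≤ (2 * B + 1) * LL := by
    have h10 := t1I_card _ hPB
    rw [hLLB] at h10
    nlinarith [mul_nonneg hB0 hLL0.le]
  calc ((t1I (L ^ B)).card : ℝ) *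
        (Cv * Ca * X ^ 3 * (1 + Real.log w) ^ 2 * (4 * LL * ((B + 1) * LL))) ≤
      ((2 * B + 1) * LL) *
        (Cv * Ca * X ^ 3 * (1 + Real.log w) ^ 2 * (4 * LL * ((B + 1) * LL))) :=
        mul_le_mul_of_nonneg_right hc (by positivity)
    _ = Cv * Ca * (1 + Real.log w) ^ 2 * X ^ 3 * LL ^ 3 * (4 * (B + 1) * (2 * (B : ℝ) + 1)) := by
        ring
    _ ≤ Cv * Ca * (1 + Real.log w) ^ 2 * X ^ 3 * LL ^ 3 * LL :=
        mul_le_mul_of_nonneg_left h42 (by positivity)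
    _ = Cv * Ca * (1 + Real.log w) ^ 2 * LL ^ 4 * X ^ 3 := by ring

end Pool.MP_dd84fd_nt.L2G
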