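import Pool.Agent.Lib.MP_dd84fd_nt.L2G.ChDefs
import Pool.Agent.Lib.MP_dd84fd_nt.L2G.CvBasic
import Pool.Agent.Lib.MP_dd84fd_nt.E2.SupClose
import Pool.Agent.Lib.MP_dd84fd_nt.E2.ConvMain
import Pool.Agent.Lib.MP_dd84fd_nt.E2.SingRate
import Pool.Agent.Lib.MP_dd84fd_nt.E2.FBound

set_option autoImplicit false

namespace Pool.MP_dd84fd_nt.L2G

open Finset Pool.MP_67663b_nt.Odd

/-- the indicator function of the primes -/
noncomputable def ip (n : ℕ) : ℝ := if n.Prime then 1 else 0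

private theorem Unw_ip_nonneg (n : ℕ) : 0 ≤ ip n := by
  unfold ip
  split_ifs <;> norm_num

private theorem Unw_f2_nonneg (w n : ℕ) : 0 ≤ Pool.MP_dd84fd_nt.E2.f2 w n := by
  unfold Pool.MP_dd84fd_nt.E2.f2
  exact div_nonneg (Pool.MP_dd84fd_nt.E2.f1_nonneg w n) (Real.log_natCast_nonneg n)

/-- eventual inequalities in `X` from eventual inequalities in `log X` -/
private theorem Unw_ev (p : ℝ → Prop) (h : ∀ᶠ L : ℝ in Filter.atTop, p L) :
    ∃ X0 : ℕ, ∀ X : ℕ, X0 ≤ X → p (Real.log X) := by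
  have := (Real.tendsto_log_atTop.comp tendsto_natCast_atTop_atTop).eventually h
  exact Filter.eventually_atTop.1 this

private theorem Unw_small (X : ℕ) :
    ∑ n ∈ Icc 1 X, (if n ^ 2 ≤ X then (1 : ℝ) else 0) ≤ √(X : ℝ) := by
  rw [Finset.sum_ite, Finset.sum_const_zero, add_zero, Finset.sum_const, nsmul_eq_mul, mul_one]
  have h1 : (Icc 1 X).filter (fun n => n ^ 2 ≤ X) ⊆ Icc 1 (Nat.sqrt X) := by
    intro n hn
    rw [Finset.mem_filter, Finset.mem_Icc] at hn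
    rw [Finset.mem_Icc]
    exact ⟨hn.1.1, Nat.le_sqrt'.2 hn.2⟩
  have h2 := Finset.card_le_card h1
  rw [Nat.card_Icc, Nat.add_sub_cancel] at h2
  refine le_trans (b := ((Nat.sqrt X : ℕ) : ℝ)) (by exact_mod_cast h2) ?_
  exact Real.nat_sqrt_le_real_sqrt

private theorem Unw_log_big (X n : ℕ) (hX : 1 ≤ X) (hn : ¬ n ^ 2 ≤ X) :
    Real.log X / 2 ≤ Real.log n := by
  rw [not_le] at hn
  have h1 : (X : ℝ) ≤ (n : ℝ) ^ 2 := by exact_mod_cast hn.le
  have h2 := Real.log_le_log (by exact_mod_cast hX) h1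
  rw [Real.log_pow] at h2
  push_cast at h2
  linarith

private theorem Unw_ip_sum (X : ℕ) (hX : 1 ≤ X) (hL : 0 < Real.log X) :
    ∑ n ∈ Icc 1 X, ip n ^ 2 ≤ √(X : ℝ) + 4 * X / Real.log X := by
  have h1 : ∀ n ∈ Icc 1 X, ip n ^ 2 ≤ (if n ^ 2 ≤ X then (1 : ℝ) else 0) +
      2 / Real.log X * la X n := by
    intro n hn
    rw [Finset.mem_Icc] at hn
    unfold ip la
    by_cases hp : n.Prime
    · by_cases hs : n ^ 2 ≤ X
      · rw [if_pos hp, if_pos hs, if_pos (⟨hp, hn.2⟩ : n.Prime ∧ n ≤ X)]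
        have : 0 ≤ 2 / Real.log X * Real.log n :=
          mul_nonneg (by positivity) (Real.log_natCast_nonneg n)
        linarith
      · rw [if_pos hp, if_neg hs, if_pos (⟨hp, hn.2⟩ : n.Prime ∧ n ≤ X)]
        have h2 := Unw_log_big X n hX hs
        have h3 : 1 ≤ 2 / Real.log X * Real.log n := by
          rw [div_mul_eq_mul_div, le_div_iff₀ hL]
          linarith
        linarith
    · have hnp : ¬ (n.Prime ∧ n ≤ X) := fun h => hp h.1
      rw [if_neg hp, if_neg hnp]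
      split_ifs <;> norm_num
  calc ∑ n ∈ Icc 1 X, ip n ^ 2 ≤ ∑ n ∈ Icc 1 X, ((if n ^ 2 ≤ X then (1 : ℝ) else 0) +
        2 / Real.log X * la X n) := Finset.sum_le_sum h1
    _ = ∑ n ∈ Icc 1 X, (if n ^ 2 ≤ X then (1 : ℝ) else 0) +
        2 / Real.log X * ∑ n ∈ Icc 1 X, la X n := by
        rw [Finset.sum_add_distrib, Finset.mul_sum]
    _ ≤ √(X : ℝ) + 2 / Real.log X * (2 * X) := by
        refine add_le_add (Unw_small X) ?_
        exact mul_le_mul_of_nonneg_left (sum_la_le X) (by positivity)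
    _ = √(X : ℝ) + 4 * X / Real.log X := by ring

private theorem Unw_f2_sum (D : ℕ) : ∃ X0 : ℕ, ∀ X : ℕ, X0 ≤ X →
    ∑ n ∈ Icc 1 X, Pool.MP_dd84fd_nt.E2.f2 (Pool.MP_dd84fd_nt.E2.wX D X) n ^ 2 ≤
      Real.log X * √(X : ℝ) + X / (2 * Real.log X) := by
  obtain ⟨C, hC, h⟩ := Pool.MP_dd84fd_nt.E2.primorial_ratio
  have hlit : (fun L : ℝ => C * (Real.log 2 + D * Real.log L)) =o[Filter.atTop]
      (fun L : ℝ => L ^ (1 / 2 : ℝ)) := by
    refine Asymptotics.IsLittleO.const_mul_left ?_ C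
    refine Asymptotics.IsLittleO.add ?_ ?_
    · exact Asymptotics.isLittleO_const_left.2 (Or.inr (by
        simpa using (tendsto_norm_atTop_atTop.comp (tendsto_rpow_atTop (by norm_num : (0 : ℝ) < 1 / 2)))))
    · exact Asymptotics.IsLittleO.const_mul_left (isLittleO_log_rpow_atTop (by norm_num)) (D : ℝ)
  have hev : ∀ᶠ L : ℝ in Filter.atTop, 1 ≤ L ∧ (C * (Real.log 2 + D * Real.log L)) ^ 2 ≤ L / 9 := by
    have h1 := hlit.bound (by norm_num : (0 : ℝ) < 1 / 3)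
    filter_upwards [h1, Filter.eventually_ge_atTop (1 : ℝ)] with L hL hL1
    refine ⟨hL1, ?_⟩
    have hL0 : 0 ≤ L := by linarith
    rw [Real.norm_eq_abs, Real.norm_of_nonneg (Real.rpow_nonneg hL0 _)] at hL
    have h2 : |C * (Real.log 2 + D * Real.log L)| ^ 2 ≤ (1 / 3 * L ^ (1 / 2 : ℝ)) ^ 2 := by
      gcongr
    rw [sq_abs, mul_pow (1 / 3 : ℝ), ← Real.rpow_natCast (L ^ (1 / 2 : ℝ)),
      ← Real.rpow_mul hL0] at h2
    norm_num at h2
    linarith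
  obtain ⟨X0, hX0⟩ := Unw_ev _ hev
  refine ⟨max X0 1, fun X hX => ?_⟩
  obtain ⟨hL1, hL2⟩ := hX0 X ((le_max_left _ _).trans hX)
  have hX1 : 1 ≤ X := (le_max_right _ _).trans hX
  obtain ⟨L, hL⟩ : ∃ L : ℝ, L = Real.log X := ⟨_, rfl⟩
  rw [← hL] at hL1 hL2 ⊢
  have hL0 : 0 < L := by linarith
  obtain ⟨w, hw⟩ : ∃ w : ℕ, w = Pool.MP_dd84fd_nt.E2.wX D X := ⟨_, rfl⟩
  rw [← hw]
  have hwL : (w : ℝ) ≤ L ^ D := by
    rw [hw, hL]
    exact Nat.floor_le (by rw [← hL]; positivity)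
  have hw1 : 1 ≤ w := by
    rw [hw]
    unfold Pool.MP_dd84fd_nt.E2.wX
    rw [← hL]
    exact Nat.le_floor (by simpa using one_le_pow₀ hL1)
  have hf1 : ∀ n, Pool.MP_dd84fd_nt.En.f1 w n ^ 2 ≤ L / 9 := by
    intro n
    unfold Pool.MP_dd84fd_nt.En.f1
    split_ifs
    · refine le_trans ?_ hL2
      refine pow_le_pow_left₀ (by positivity) ?_ 2
      refine (h w hw1).trans ?_
      refine mul_le_mul_of_nonneg_left ?_ hC.le
      have h1 : (w : ℝ) + 1 ≤ 2 * L ^ D := by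
        have : (1 : ℝ) ≤ L ^ D := one_le_pow₀ hL1
        linarith
      have h2 : Real.log (w + 1) ≤ Real.log (2 * L ^ D) := Real.log_le_log (by positivity) h1
      rw [Real.log_mul (by norm_num) (by positivity), Real.log_pow] at h2
      exact h2
    · norm_num
      positivity
  have hpt : ∀ n ∈ Icc 1 X, Pool.MP_dd84fd_nt.E2.f2 w n ^ 2 ≤
      L * (if n ^ 2 ≤ X then (1 : ℝ) else 0) + 1 / (2 * L) := by
    intro n hn
    rw [Finset.mem_Icc] at hn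
    have hlog0 : 0 ≤ Real.log n := Real.log_natCast_nonneg n
    unfold Pool.MP_dd84fd_nt.E2.f2
    rw [div_pow]
    by_cases hs : n ^ 2 ≤ X
    · rw [if_pos hs]
      rcases Nat.lt_or_ge n 2 with h2 | h2
      · have : n = 1 := by omega
        subst this
        simp
        positivity
      · have hl2 : Real.log 2 ≤ Real.log n := Real.log_le_log (by norm_num) (by exact_mod_cast h2)
        have hl3 := Real.log_two_gt_d9
        have h4 : (1 : ℝ) / 3 ≤ Real.log n ^ 2 := by nlinarith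
        have h5 : Pool.MP_dd84fd_nt.En.f1 w n ^ 2 / Real.log n ^ 2 ≤ L := by
          rw [div_le_iff₀ (by linarith)]
          have := hf1 n
          nlinarith
        have : 0 < 1 / (2 * L) := by positivity
        linarith
    · rw [if_neg hs, mul_zero, zero_add]
      have h2 := Unw_log_big X n hX1 hs
      rw [← hL] at h2
      have h3 : L ^ 2 / 4 ≤ Real.log n ^ 2 := by nlinarith
      have h4 : 0 < Real.log n ^ 2 := lt_of_lt_of_le (by positivity) h3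
      rw [div_le_div_iff₀ h4 (by positivity)]
      have := hf1 n
      nlinarith
  calc ∑ n ∈ Icc 1 X, Pool.MP_dd84fd_nt.E2.f2 w n ^ 2
      ≤ ∑ n ∈ Icc 1 X, (L * (if n ^ 2 ≤ X then (1 : ℝ) else 0) + 1 / (2 * L)) :=
        Finset.sum_le_sum hpt
    _ = L * ∑ n ∈ Icc 1 X, (if n ^ 2 ≤ X then (1 : ℝ) else 0) + X * (1 / (2 * L)) := by
        rw [Finset.sum_add_distrib, ← Finset.mul_sum, Finset.sum_const, Nat.card_Icc,
          nsmul_eq_mul, Nat.add_sub_cancel]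
    _ ≤ L * √(X : ℝ) + X / (2 * L) := by
        refine add_le_add (mul_le_mul_of_nonneg_left (Unw_small X) hL0.le) (le_of_eq ?_)
        ring

theorem un_L2 : ∃ C : ℝ, 0 < C ∧ ∀ D : ℕ, ∃ X0 : ℕ, ∀ X : ℕ, X0 ≤ X →
    ∑ n ∈ Icc 1 X, (ip n - Pool.MP_dd84fd_nt.E2.f2 (Pool.MP_dd84fd_nt.E2.wX D X) n) ^ 2 ≤
      C * X / Real.log X ∧
    ∑ n ∈ Icc 1 X, (ip n + Pool.MP_dd84fd_nt.E2.f2 (Pool.MP_dd84fd_nt.E2.wX D X) n) ^ 2 ≤
      C * X / Real.log X := by
  refine ⟨13, by norm_num, fun D => ?_⟩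
  obtain ⟨X1, hX1⟩ := Unw_f2_sum D
  have hev : ∀ᶠ X : ℕ in Filter.atTop, 1 ≤ Real.log X ∧ Real.log X ^ 2 * √(X : ℝ) ≤ X := by
    have h1 : (fun x : ℝ => Real.log x ^ (2 : ℝ)) =o[Filter.atTop] fun x : ℝ => x ^ (1 / 2 : ℝ) :=
      isLittleO_log_rpow_rpow_atTop 2 (by norm_num)
    have h2 := (h1.bound one_pos).and ((Filter.eventually_ge_atTop (1 : ℝ)).and
      (Real.tendsto_log_atTop.eventually_ge_atTop 1))
    have h3 := tendsto_natCast_atTop_atTop.eventually h2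
    filter_upwards [h3] with X hX
    obtain ⟨h4, h5, h6⟩ := hX
    refine ⟨h6, ?_⟩
    have hX0 : (0 : ℝ) ≤ X := by linarith
    rw [one_mul, Real.norm_of_nonneg (by positivity), Real.norm_of_nonneg (by positivity)] at h4
    rw [← Real.sqrt_eq_rpow] at h4
    have h7 : Real.log X ^ 2 ≤ √(X : ℝ) := by exact_mod_cast h4
    calc Real.log X ^ 2 * √(X : ℝ) ≤ √(X : ℝ) * √(X : ℝ) := by gcongr
      _ = X := Real.mul_self_sqrt hX0
  obtain ⟨X2, hX2⟩ := Filter.eventually_atTop.1 hev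
  refine ⟨max (max X1 X2) 1, fun X hX => ?_⟩
  have hf := hX1 X (((le_max_left _ _).trans (le_max_left _ _)).trans hX)
  obtain ⟨hL1, hL2⟩ := hX2 X (((le_max_right _ _).trans (le_max_left _ _)).trans hX)
  have hX0 : 1 ≤ X := (le_max_right _ _).trans hX
  have hL0 : 0 < Real.log X := by linarith
  have hi := Unw_ip_sum X hX0 hL0
  obtain ⟨w, hw⟩ : ∃ w : ℕ, w = Pool.MP_dd84fd_nt.E2.wX D X := ⟨_, rfl⟩
  rw [← hw] at hf ⊢
  obtain ⟨L, hL⟩ : ∃ L : ℝ, L = Real.log X := ⟨_, rfl⟩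
  rw [← hL] at hf hi hL1 hL2 hL0 ⊢
  have hsX : 0 ≤ √(X : ℝ) := Real.sqrt_nonneg _
  have e1 : √(X : ℝ) ≤ X / L := by
    rw [le_div_iff₀ hL0]
    nlinarith
  have e2 : L * √(X : ℝ) ≤ X / L := by
    rw [le_div_iff₀ hL0]
    nlinarith
  have e3 : (X : ℝ) / (2 * L) = 1 / 2 * (X / L) := by
    field_simp
  have e4 : 4 * (X : ℝ) / L = 4 * (X / L) := by ring
  have e5 : 13 * (X : ℝ) / L = 13 * (X / L) := by ring
  rw [e3] at hf
  rw [e4] at hi
  rw [e5]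
  have htot : 2 * ∑ n ∈ Icc 1 X, ip n ^ 2 + 2 * ∑ n ∈ Icc 1 X, Pool.MP_dd84fd_nt.E2.f2 w n ^ 2 ≤
      13 * (X / L) := by linarith
  constructor
  · refine le_trans ?_ htot
    rw [Finset.mul_sum, Finset.mul_sum, ← Finset.sum_add_distrib]
    refine Finset.sum_le_sum fun n _ => ?_
    nlinarith [sq_nonneg (ip n + Pool.MP_dd84fd_nt.E2.f2 w n)]
  · refine le_trans ?_ htot
    rw [Finset.mul_sum, Finset.mul_sum, ← Finset.sum_add_distrib]
    refine Finset.sum_le_sum fun n _ => ?_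
    nlinarith [sq_nonneg (ip n - Pool.MP_dd84fd_nt.E2.f2 w n)]

theorem un_sup (A : ℕ) : ∃ D0 : ℕ, ∀ D : ℕ, D0 ≤ D → ∃ X0 : ℕ, ∀ X : ℕ, X0 ≤ X → ∀ θ : ℝ,
    ‖Se X (fun n => ip n - Pool.MP_dd84fd_nt.E2.f2 (Pool.MP_dd84fd_nt.E2.wX D X) n) θ‖ ≤
      X / Real.log X ^ A := by
  obtain ⟨D0, h⟩ := Pool.MP_dd84fd_nt.E2.sup_close A
  refine ⟨D0, fun D hD => ?_⟩
  obtain ⟨X0, hX0⟩ := h D hD
  refine ⟨X0, fun X hX θ => ?_⟩
  have h1 := hX0 X hX θ
  have h2 : Se X (fun n => ip n - Pool.MP_dd84fd_nt.E2.f2 (Pool.MP_dd84fd_nt.E2.wX D X) n) θ =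
      Pool.MP_dd84fd_nt.E2.P1 X θ -
        Pool.MP_dd84fd_nt.E2.F2 (Pool.MP_dd84fd_nt.E2.wX D X) X θ := by
    unfold Se Pool.MP_dd84fd_nt.E2.P1 Pool.MP_dd84fd_nt.E2.F2
    rw [Finset.sum_filter, ← Finset.sum_sub_distrib]
    refine Finset.sum_congr rfl fun n _ => ?_
    unfold ip
    by_cases hp : n.Prime
    · simp only [if_pos hp]; push_cast; ring
    · simp only [if_neg hp]; push_cast; ring
  rw [h2]
  exact h1

private theorem Unw_cv (X : ℕ) (f h : ℕ → ℝ) (n : ℕ) (hn : n ≤ X) :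
    cv X f h n = ∑ m ∈ Icc 1 (n - 1), f m * h (n - m) := by
  unfold cv
  have h1 : ∀ m ∈ Icc 1 X, (∑ k ∈ Icc 1 X, if m + k = n then f m * h k else 0) =
      if m ∈ Icc 1 (n - 1) then f m * h (n - m) else 0 := by
    intro m hm
    rw [Finset.mem_Icc] at hm
    by_cases h2 : m ∈ Icc 1 (n - 1)
    · rw [if_pos h2]
      rw [Finset.mem_Icc] at h2
      rw [Finset.sum_eq_single (n - m)]
      · rw [if_pos (by omega)]
      · intro k _ hk
        rw [if_neg (by omega)]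
      · intro hk
        exact absurd (Finset.mem_Icc.2 (by omega)) hk
    · rw [if_neg h2]
      rw [Finset.mem_Icc] at h2
      refine Finset.sum_eq_zero fun k hk => ?_
      rw [Finset.mem_Icc] at hk
      rw [if_neg (by omega)]
  rw [Finset.sum_congr rfl h1, ← Finset.sum_filter]
  refine Finset.sum_congr ?_ fun _ _ => rfl
  ext m
  simp only [Finset.mem_filter, Finset.mem_Icc]
  omega

private theorem Unw_g (X n : ℕ) (hn : n ≤ X) :
    cv X ip ip n = (Pool.MP_dd84fd_nt.En.g n : ℝ) := by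
  rw [Unw_cv X ip ip n hn]
  have h1 : ∀ m ∈ Icc 1 (n - 1), ip m * ip (n - m) =
      if Nat.Prime m ∧ Nat.Prime (n - m) then (1 : ℝ) else 0 := by
    intro m _
    unfold ip
    by_cases h2 : Nat.Prime m <;> by_cases h3 : Nat.Prime (n - m) <;> simp [h2, h3]
  rw [Finset.sum_congr rfl h1, Finset.sum_boole]
  unfold Pool.MP_dd84fd_nt.En.g
  congr 2
  ext m
  simp only [Finset.mem_filter, Finset.mem_Icc, Finset.mem_range]
  constructor
  · rintro ⟨⟨h2, h3⟩, h4, h5⟩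
    exact ⟨by omega, h4, h5⟩
  · rintro ⟨h2, h4, h5⟩
    have := h4.one_lt
    have := h5.one_lt
    exact ⟨by omega, h4, h5⟩

theorem un_conv (A : ℕ) : ∃ D0 : ℕ, ∀ D : ℕ, D0 ≤ D → ∃ X0 : ℕ, ∀ X : ℕ, X0 ≤ X → ∀ n : ℕ,
    n ≤ X → Even n →
    |((Pool.MP_dd84fd_nt.En.g n : ℝ) - Pool.MP_dd84fd_nt.En.SS n * Pool.MP_dd84fd_nt.E2.JJ n) -
      cv X (fun m => ip m - Pool.MP_dd84fd_nt.E2.f2 (Pool.MP_dd84fd_nt.E2.wX D X) m)
        (fun m => ip m + Pool.MP_dd84fd_nt.E2.f2 (Pool.MP_dd84fd_nt.E2.wX D X) m) n| ≤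
      X / Real.log X ^ A := by
  refine ⟨A + 4, fun D hD => ?_⟩
  obtain ⟨η, hη0, hη1, X1, h1⟩ := Pool.MP_dd84fd_nt.E2.conv2_main D (by omega)
  obtain ⟨C, hC, h2⟩ := Pool.MP_dd84fd_nt.E2.sing_rate
  -- the eventual inequalities
  have hev : ∀ᶠ X : ℕ in Filter.atTop, 1 ≤ Real.log X ∧ 96 * C ≤ Real.log X ^ 2 ∧
      16 * (1 + Real.log X) ≤ Real.log X ^ 4 ∧
      (X : ℝ) ^ (1 - η) ≤ X / (2 * Real.log X ^ A) := by
    have e1 : (fun x : ℝ => Real.log x ^ ((A : ℕ) : ℝ)) =o[Filter.atTop] fun x : ℝ => x ^ η :=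
      isLittleO_log_rpow_rpow_atTop _ hη0
    have e2 : ∀ᶠ L : ℝ in Filter.atTop, 1 ≤ L ∧ 96 * C ≤ L ∧ 32 ≤ L := by
      filter_upwards [Filter.eventually_ge_atTop 1, Filter.eventually_ge_atTop (96 * C),
        Filter.eventually_ge_atTop (32 : ℝ)] with L a b c using ⟨a, b, c⟩
    have e3 := (e1.bound (by norm_num : (0 : ℝ) < 1 / 2)).and
      ((Filter.eventually_ge_atTop (1 : ℝ)).and (Real.tendsto_log_atTop.eventually e2))
    filter_upwards [tendsto_natCast_atTop_atTop.eventually e3] with X hX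
    obtain ⟨a1, a2, a3, a4, a5⟩ := hX
    have hX0 : (0 : ℝ) < X := by linarith
    refine ⟨a3, by nlinarith, ?_, ?_⟩
    · have b1 : (1 : ℝ) ≤ Real.log X ^ 3 := one_le_pow₀ a3
      have b2 : Real.log X ^ 4 = Real.log X ^ 3 * Real.log X := by ring
      have b3 : Real.log X ^ 3 = Real.log X ^ 2 * Real.log X := by ring
      have b4 : 1 ≤ Real.log X ^ 2 := one_le_pow₀ a3
      nlinarith
    · rw [Real.norm_of_nonneg (by positivity), Real.norm_of_nonneg (by positivity),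
        Real.rpow_natCast] at a1
      rw [le_div_iff₀ (by positivity)]
      calc (X : ℝ) ^ (1 - η) * (2 * Real.log X ^ A)
          ≤ (X : ℝ) ^ (1 - η) * (2 * (1 / 2 * (X : ℝ) ^ η)) := by gcongr
        _ = (X : ℝ) ^ (1 - η) * (X : ℝ) ^ η := by ring
        _ = X := by rw [← Real.rpow_add hX0]; norm_num
  obtain ⟨X2, hX2⟩ := Filter.eventually_atTop.1 hev
  refine ⟨max X1 X2, fun X hX n hn hne => ?_⟩
  obtain ⟨hL1, hL2, hL3, hL4⟩ := hX2 X ((le_max_right _ _).trans hX)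
  have h1' := h1 X ((le_max_left _ _).trans hX)
  obtain ⟨w, hw⟩ : ∃ w : ℕ, w = Pool.MP_dd84fd_nt.E2.wX D X := ⟨_, rfl⟩
  rw [← hw]
  have hwdef : w = ⌊Real.log X ^ D⌋₊ := hw
  obtain ⟨L, hL⟩ : ∃ L : ℝ, L = Real.log X := ⟨_, rfl⟩
  rw [← hL] at hL1 hL2 hL3 hL4 hwdef h1' ⊢
  have hL0 : 0 < L := by linarith
  have hLD4 : L ^ (A + 4) ≤ L ^ D := pow_le_pow_right₀ hL1 hD
  have hLA1 : 1 ≤ L ^ A := one_le_pow₀ hL1
  have hL4D : L ^ 4 ≤ L ^ D := pow_le_pow_right₀ hL1 (by omega)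
  have hwL : (w : ℝ) ≤ L ^ D := by
    rw [hwdef]
    exact Nat.floor_le (by positivity)
  have hwL2 : L ^ D - 1 < w := by
    rw [hwdef]
    exact Nat.sub_one_lt_floor _
  have hL32 : 32 ≤ L ^ 4 := by linarith
  have hwhalf : L ^ D / 2 ≤ w := by linarith
  have hw2 : 2 ≤ w := by
    have : (2 : ℝ) ≤ w := by linarith
    exact_mod_cast this
  rcases Nat.eq_zero_or_pos n with h0 | hpos
  · subst h0
    have e1 : Pool.MP_dd84fd_nt.En.g 0 = 0 := by
      unfold Pool.MP_dd84fd_nt.En.g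
      rw [Finset.card_eq_zero, Finset.filter_eq_empty_iff]
      intro p hp h
      rw [Finset.mem_range] at hp
      have : p = 0 := by omega
      subst this
      exact Nat.not_prime_zero h.1
    have e2 : Pool.MP_dd84fd_nt.E2.JJ 0 = 0 := by
      unfold Pool.MP_dd84fd_nt.E2.JJ
      simp
    rw [e1, e2, Unw_cv X _ _ 0 (Nat.zero_le X)]
    simp
    positivity
  · rw [cv_sub_add, Unw_g X n hn]
    have e1 : cv X (fun m => Pool.MP_dd84fd_nt.E2.f2 w m) (fun m => Pool.MP_dd84fd_nt.E2.f2 w m) n =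
        Pool.MP_dd84fd_nt.E2.conv2 w n := by
      rw [Unw_cv X _ _ n hn]
      rfl
    have e1' : cv X (Pool.MP_dd84fd_nt.E2.f2 w) (Pool.MP_dd84fd_nt.E2.f2 w) n =
        Pool.MP_dd84fd_nt.E2.conv2 w n := e1
    rw [e1']
    have hnX : (n : ℝ) ≤ X := by exact_mod_cast hn
    have hn1 : (1 : ℝ) ≤ n := by exact_mod_cast hpos
    have hlogn : Real.log n ≤ L := by
      rw [hL]
      exact Real.log_le_log (by linarith) hnX
    have hlogn0 : 0 ≤ Real.log n := Real.log_natCast_nonneg n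
    have e2 := h1' w hw2 hwL n hn hne hpos
    have e3 := h2 n hpos w (by linarith)
    have e4 := Pool.MP_dd84fd_nt.E2.JJ_nonneg n
    have e5 := Pool.MP_dd84fd_nt.E2.JJ_le n
    obtain ⟨J, hJ⟩ : ∃ J : ℝ, J = Pool.MP_dd84fd_nt.E2.JJ n := ⟨_, rfl⟩
    rw [← hJ] at e2 e4 e5 ⊢
    have e6 : (Pool.MP_dd84fd_nt.En.g n : ℝ) - Pool.MP_dd84fd_nt.En.SS n * J -
        ((Pool.MP_dd84fd_nt.En.g n : ℝ) - Pool.MP_dd84fd_nt.E2.conv2 w n) =
        (Pool.MP_dd84fd_nt.E2.conv2 w n - Pool.MP_dd84fd_nt.En.SW w n * J) -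
        (Pool.MP_dd84fd_nt.En.SS n - Pool.MP_dd84fd_nt.En.SW w n) * J := by ring
    rw [e6]
    refine (abs_sub _ _).trans ?_
    rw [abs_mul, abs_of_nonneg e4]
    have hw0 : (0 : ℝ) < w := by linarith
    have e7 : |Pool.MP_dd84fd_nt.En.SS n - Pool.MP_dd84fd_nt.En.SW w n| ≤
        8 * C * L ^ 2 / L ^ D := by
      refine e3.trans ?_
      rw [div_le_div_iff₀ hw0 (by positivity)]
      have f1 : (1 + Real.log n) ^ 2 ≤ (2 * L) ^ 2 := by
        gcongr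
        linarith
      have f2 : L ^ D ≤ 2 * w := by linarith
      calc C * (1 + Real.log n) ^ 2 * L ^ D ≤ C * (2 * L) ^ 2 * (2 * w) := by gcongr
        _ = 8 * C * L ^ 2 * w := by ring
    have e8 : 8 * C * L ^ 2 / L ^ D * J ≤ X / (2 * L ^ A) := by
      have f1 : 8 * C * L ^ 2 / L ^ D ≤ 8 * C * L ^ 2 / L ^ (A + 4) := by gcongr
      have f2 : 8 * C * L ^ 2 / L ^ (A + 4) = 8 * C / L ^ 2 / L ^ A := by
        rw [pow_add]
        field_simp
      have f3 : 8 * C / L ^ 2 ≤ 1 / 12 := by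
        rw [div_le_iff₀ (by positivity)]
        linarith
      have f4 : 8 * C * L ^ 2 / L ^ D ≤ 1 / 12 / L ^ A := by
        rw [f2] at f1
        exact f1.trans (by gcongr)
      calc 8 * C * L ^ 2 / L ^ D * J ≤ 1 / 12 / L ^ A * (3 * X) := by
            refine mul_le_mul f4 (e5.trans (by linarith)) e4 (by positivity)
        _ = X / (4 * L ^ A) := by field_simp; ring
        _ ≤ X / (2 * L ^ A) := by
            gcongr
            norm_num
    calc |Pool.MP_dd84fd_nt.E2.conv2 w n - Pool.MP_dd84fd_nt.En.SW w n * J| +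
          |Pool.MP_dd84fd_nt.En.SS n - Pool.MP_dd84fd_nt.En.SW w n| * J
        ≤ X / (2 * L ^ A) + 8 * C * L ^ 2 / L ^ D * J := by
          refine add_le_add (e2.trans hL4) (mul_le_mul_of_nonneg_right e7 e4)
      _ ≤ X / (2 * L ^ A) + X / (2 * L ^ A) := by gcongr
      _ = X / L ^ A := by field_simp; norm_num

end Pool.MP_dd84fd_nt.L2G
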