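import Pool.Agent.Lib.MP_dd84fd_nt.L2G.BgSums
import Pool.Agent.Lib.MP_dd84fd_nt.L2G.Unw
import Pool.Agent.Lib.MP_dd84fd_nt.L2G.Avg
import Pool.Agent.Lib.MP_dd84fd_nt.L2G.ClassIneq
import Pool.Agent.Lib.MP_dd84fd_nt.L2G.CvBasic

set_option autoImplicit false

namespace Pool.MP_dd84fd_nt.L2G

open Finset Pool.MP_67663b_nt.Odd

/-- one bad modulus -/
private theorem T1Plus_one (X q a : ℕ) (hX : 1 ≤ X) (hq : 1 ≤ q) (hqX : q ≤ X) (u v G : ℕ → ℝ)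
    (δ κ E M : ℝ) (hM : 0 ≤ M) (hE : E + M ≤ κ)
    (hconv : ∀ n : ℕ, n ≤ X → Even n → |G n - cv X u v n| ≤ E)
    (hbad : δ * X / q < (({n : ℕ | n ≤ X ∧ Even n ∧ n ≡ a [MOD q] ∧ κ < |G n|}).ncard : ℝ)) :
    δ * X * M ^ 2 ≤ av (gr X) (fun θ => ‖Se X u θ‖ ^ 2 *
      ∑ k ∈ range q, ‖Se X v (θ + (k : ℝ) / q)‖ ^ 2) := by
  classical
  have hq0 : (0 : ℝ) < q := by exact_mod_cast hq
  obtain ⟨N, hN⟩ : ∃ N : Finset ℕ, N = (range (X + 1)).filter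
    (fun n => Even n ∧ n ≡ a [MOD q] ∧ κ < |G n|) := ⟨_, rfl⟩
  have hset : {n : ℕ | n ≤ X ∧ Even n ∧ n ≡ a [MOD q] ∧ κ < |G n|} = (N : Set ℕ) := by
    ext n
    rw [hN, Finset.coe_filter]
    simp only [Set.mem_ofPred_eq, Finset.mem_range, Nat.lt_succ_iff]
  rw [hset, Set.ncard_coe_finset] at hbad
  have hN2 : ∀ n ∈ N, n ≤ X ∧ Even n ∧ n ≡ a [MOD q] ∧ κ < |G n| := by
    intro n hn
    rw [hN, Finset.mem_filter, Finset.mem_range] at hn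
    exact ⟨by omega, hn.2⟩
  have hcv : ∀ n ∈ N, M ^ 2 ≤ cv X u v n ^ 2 := by
    intro n hn
    obtain ⟨h1, h2, -, h4⟩ := hN2 n hn
    have h5 := hconv n h1 h2
    have h6 : |G n| ≤ |G n - cv X u v n| + |cv X u v n| := by
      have := abs_add_le (G n - cv X u v n) (cv X u v n)
      simpa using this
    have h7 : M ≤ |cv X u v n| := by linarith
    rw [← sq_abs (cv X u v n)]
    exact pow_le_pow_left₀ hM h7 2
  have hsub : N ⊆ (range (2 * X + 1)).filter (fun n => n % q = a % q) := by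
    intro n hn
    obtain ⟨h1, -, h3, -⟩ := hN2 n hn
    rw [Finset.mem_filter, Finset.mem_range]
    exact ⟨by omega, h3⟩
  have h1 : (#N : ℝ) * M ^ 2 ≤
      ∑ n ∈ (range (2 * X + 1)).filter (fun n => n % q = a % q), cv X u v n ^ 2 := by
    calc (#N : ℝ) * M ^ 2 = ∑ _n ∈ N, M ^ 2 := by rw [Finset.sum_const, nsmul_eq_mul]
      _ ≤ ∑ n ∈ N, cv X u v n ^ 2 := Finset.sum_le_sum hcv
      _ ≤ _ := Finset.sum_le_sum_of_subset_of_nonneg hsub fun n _ _ => sq_nonneg _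
  have h2 := class_ineq X q a hq (by omega) u v
  obtain ⟨B, hB⟩ : ∃ B : ℝ, B = av (gr X) (fun θ => ‖Se X u θ‖ ^ 2 *
      ∑ k ∈ range q, ‖Se X v (θ + (k : ℝ) / q)‖ ^ 2) := ⟨_, rfl⟩
  rw [← hB] at h2 ⊢
  have h3 : (#N : ℝ) * M ^ 2 ≤ 1 / q * B := h1.trans h2
  have h4 : δ * X / q * M ^ 2 ≤ 1 / q * B :=
    (mul_le_mul_of_nonneg_right hbad.le (sq_nonneg M)).trans h3
  have h5 : δ * X / q * M ^ 2 = 1 / q * (δ * X * M ^ 2) := by ring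
  rw [h5] at h4
  exact le_of_mul_le_mul_left h4 (by positivity)

/-- the average over all moduli -/
private theorem T1Plus_sum (X Q D1 : ℕ) (hX : 1 ≤ X) (hQX : Q ≤ X) (hD1 : 1 ≤ D1) (u v : ℕ → ℝ)
    (S V C : ℝ) (hV : 0 ≤ V) (hC : 0 ≤ C) (hS : ∀ θ : ℝ, ‖Se X u θ‖ ≤ S)
    (hu : ∑ n ∈ Icc 1 X, u n ^ 2 ≤ V) (hv : ∑ n ∈ Icc 1 X, v n ^ 2 ≤ V)
    (hbig : ∑ d ∈ Icc D1 Q, av (gr X) (fun θ => ‖Se X u θ‖ ^ 2 * Vst (Se X v) d θ) / d ≤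
      C * (Q + X / D1) * ((∑ n ∈ Icc 1 X, u n ^ 2) * ∑ n ∈ Icc 1 X, v n ^ 2)) :
    ∑ q ∈ Icc 1 Q, av (gr X) (fun θ => ‖Se X u θ‖ ^ 2 *
      ∑ k ∈ range q, ‖Se X v (θ + (k : ℝ) / q)‖ ^ 2) ≤
    Q * (((D1 : ℝ) - 1) * (S ^ 2 * V) + C * (Q + X / D1) * V ^ 2) := by
  refine (sum_Bg X Q u v).trans ?_
  refine mul_le_mul_of_nonneg_left ?_ (Nat.cast_nonneg Q)
  obtain ⟨J, hJ⟩ : ∃ J : ℕ → ℝ, J = fun d =>
    av (gr X) (fun θ => ‖Se X u θ‖ ^ 2 * Vst (Se X v) d θ) / d := ⟨_, rfl⟩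
  have hJd : ∀ d, av (gr X) (fun θ => ‖Se X u θ‖ ^ 2 * Vst (Se X v) d θ) / d = J d := by
    intro d
    rw [hJ]
  simp only [hJd] at hbig ⊢
  have hJ0 : ∀ d, 0 ≤ J d := by
    intro d
    rw [hJ]
    refine div_nonneg (av_nonneg fun θ => mul_nonneg (sq_nonneg _) ?_) (Nat.cast_nonneg d)
    unfold Vst
    exact Finset.sum_nonneg fun b _ => sq_nonneg _
  have hv0 : 0 ≤ ∑ n ∈ Icc 1 X, v n ^ 2 := Finset.sum_nonneg fun n _ => sq_nonneg _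
  have hu0 : 0 ≤ ∑ n ∈ Icc 1 X, u n ^ 2 := Finset.sum_nonneg fun n _ => sq_nonneg _
  have hsplit : ∑ d ∈ Icc 1 Q, J d ≤ ∑ d ∈ (Icc 1 (D1 - 1)).filter (fun d => d ≤ Q), J d +
      ∑ d ∈ Icc D1 Q, J d := by
    rw [← Finset.sum_union]
    · refine Finset.sum_le_sum_of_subset_of_nonneg ?_ fun d _ _ => hJ0 d
      intro d hd
      rw [Finset.mem_Icc] at hd
      rw [Finset.mem_union, Finset.mem_filter, Finset.mem_Icc, Finset.mem_Icc]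
      omega
    · rw [Finset.disjoint_left]
      intro d hd hd'
      rw [Finset.mem_filter, Finset.mem_Icc] at hd
      rw [Finset.mem_Icc] at hd'
      omega
  have hsmall : ∀ d ∈ (Icc 1 (D1 - 1)).filter (fun d => d ≤ Q), J d ≤ S ^ 2 * V := by
    intro d hd
    rw [Finset.mem_filter, Finset.mem_Icc] at hd
    have hd0 : (0 : ℝ) < d := by exact_mod_cast hd.1.1
    have h1 := small_Bg X d u v S hd.1.1 (by omega) hS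
    rw [← hJd, div_le_iff₀ hd0]
    refine h1.trans ?_
    have : (d : ℝ) * S ^ 2 * ∑ n ∈ Icc 1 X, v n ^ 2 ≤ d * S ^ 2 * V :=
      mul_le_mul_of_nonneg_left hv (by positivity)
    linarith
  have hcard : (#((Icc 1 (D1 - 1)).filter (fun d => d ≤ Q)) : ℝ) ≤ (D1 : ℝ) - 1 := by
    have h1 : #((Icc 1 (D1 - 1)).filter (fun d => d ≤ Q)) ≤ D1 - 1 := by
      refine (Finset.card_filter_le _ _).trans ?_
      rw [Nat.card_Icc]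
      omega
    have h2 : (#((Icc 1 (D1 - 1)).filter (fun d => d ≤ Q)) : ℝ) ≤ ((D1 - 1 : ℕ) : ℝ) := by
      exact_mod_cast h1
    rw [Nat.cast_sub hD1] at h2
    simpa using h2
  refine hsplit.trans (add_le_add ?_ ?_)
  · calc ∑ d ∈ (Icc 1 (D1 - 1)).filter (fun d => d ≤ Q), J d
        ≤ ∑ _d ∈ (Icc 1 (D1 - 1)).filter (fun d => d ≤ Q), S ^ 2 * V :=
          Finset.sum_le_sum hsmall
      _ = #((Icc 1 (D1 - 1)).filter (fun d => d ≤ Q)) * (S ^ 2 * V) := by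
          rw [Finset.sum_const, nsmul_eq_mul]
      _ ≤ ((D1 : ℝ) - 1) * (S ^ 2 * V) := by gcongr
  · refine hbig.trans ?_
    rw [sq]
    gcongr

theorem t1_plus : ∃ C : ℝ, 0 < C ∧ ∀ A : ℕ, ∃ X0 : ℕ,
    ∀ X : ℕ, X0 ≤ X → ∀ Q : ℕ, Q ≤ X → ∀ δ κ : ℝ, 0 < δ → 1 / Real.log X ^ A ≤ κ →
    (({q : ℕ | 1 ≤ q ∧ q ≤ Q ∧ ∃ a : ℕ, δ * X / q < (({n : ℕ | n ≤ X ∧ Even n ∧ n ≡ a [MOD q] ∧
        κ * (X / Real.log X ^ 2) < |(Pool.MP_dd84fd_nt.En.g n : ℝ) -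
          Pool.MP_dd84fd_nt.En.SS n * Pool.MP_dd84fd_nt.E2.JJ n|}).ncard : ℝ)}).ncard : ℝ) ≤
      C * Q * (Q * Real.log X ^ 2 / X + 1 / Real.log X ^ A) / (δ * κ ^ 2) := by
  classical
  obtain ⟨C1, hC1, h1⟩ := un_L2
  obtain ⟨C2, hC2, h2⟩ := big_Bg
  refine ⟨4 * (C1 + C2 * C1 ^ 2), by positivity, fun A => ?_⟩
  obtain ⟨D2, h3⟩ := un_sup (A + 3)
  obtain ⟨D3, h4⟩ := un_conv (A + 3)
  obtain ⟨X1, h1⟩ := h1 (max D2 D3)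
  obtain ⟨X2, h3⟩ := h3 (max D2 D3) (le_max_left _ _)
  obtain ⟨X3, h4⟩ := h4 (max D2 D3) (le_max_right _ _)
  have hev : ∀ᶠ X : ℕ in Filter.atTop, 2 ≤ Real.log X :=
    (Real.tendsto_log_atTop.comp tendsto_natCast_atTop_atTop).eventually_ge_atTop 2
  obtain ⟨X4, h5⟩ := Filter.eventually_atTop.1 hev
  refine ⟨max (max X1 X2) (max (max X3 X4) 1), fun X hX Q hQ δ κ hδ hκ => ?_⟩
  simp only [max_le_iff] at hX
  obtain ⟨⟨hx1, hx2⟩, ⟨hx3, hx4⟩, hx5⟩ := hX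
  have hL2 := h5 X hx4
  obtain ⟨hu, hv⟩ := h1 X hx1
  have hS := h3 X hx2
  have hconv := h4 X hx3
  obtain ⟨w, hw⟩ : ∃ w : ℕ, w = Pool.MP_dd84fd_nt.E2.wX (max D2 D3) X := ⟨_, rfl⟩
  rw [← hw] at hu hv hS hconv
  obtain ⟨L, hL⟩ : ∃ L : ℝ, L = Real.log X := ⟨_, rfl⟩
  rw [← hL] at hL2 hu hv hS hconv hκ ⊢
  have hL0 : 0 < L := by linarith
  have hL1 : 1 ≤ L := by linarith
  have hX0 : (0 : ℝ) < X := by exact_mod_cast hx5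
  obtain ⟨u, hu'⟩ : ∃ u : ℕ → ℝ, u = fun n => ip n - Pool.MP_dd84fd_nt.E2.f2 w n := ⟨_, rfl⟩
  obtain ⟨v, hv'⟩ : ∃ v : ℕ → ℝ, v = fun n => ip n + Pool.MP_dd84fd_nt.E2.f2 w n := ⟨_, rfl⟩
  have hun : ∀ n, ip n - Pool.MP_dd84fd_nt.E2.f2 w n = u n := fun n => by rw [hu']
  have hvn : ∀ n, ip n + Pool.MP_dd84fd_nt.E2.f2 w n = v n := fun n => by rw [hv']
  rw [← hu'] at hS
  rw [← hu', ← hv'] at hconv
  simp only [hun] at hu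
  simp only [hvn] at hv
  obtain ⟨G, hG⟩ : ∃ G : ℕ → ℝ, G = fun n => (Pool.MP_dd84fd_nt.En.g n : ℝ) -
    Pool.MP_dd84fd_nt.En.SS n * Pool.MP_dd84fd_nt.E2.JJ n := ⟨_, rfl⟩
  have hGn : ∀ n, (Pool.MP_dd84fd_nt.En.g n : ℝ) -
    Pool.MP_dd84fd_nt.En.SS n * Pool.MP_dd84fd_nt.E2.JJ n = G n := fun n => by rw [hG]
  simp only [hGn] at hconv ⊢
  have hLA : 0 < L ^ A := by positivity
  have hκ0 : 0 < κ := lt_of_lt_of_le (by positivity) hκ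
  obtain ⟨M, hM⟩ : ∃ M : ℝ, M = κ * X / (2 * L ^ 2) := ⟨_, rfl⟩
  have hM0 : 0 < M := by rw [hM]; positivity
  have hE : X / L ^ (A + 3) + M ≤ κ * (X / L ^ 2) := by
    have e1 : X / L ^ (A + 3) ≤ M := by
      rw [hM]
      have e2 : X / L ^ (A + 3) = 1 / L ^ A * (X / L ^ 3) := by
        rw [pow_add]; field_simp
      have e3 : κ * X / (2 * L ^ 2) = κ * (X / (2 * L ^ 2)) := by ring
      rw [e2, e3]
      refine mul_le_mul hκ ?_ (by positivity) hκ0.le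
      refine div_le_div_of_nonneg_left hX0.le (by positivity) ?_
      nlinarith [sq_nonneg L]
    have e4 : κ * (X / L ^ 2) = M + M := by
      rw [hM]; field_simp; ring
    linarith
  obtain ⟨Bad, hBad⟩ : ∃ Bad : Finset ℕ, Bad = (Icc 1 Q).filter (fun q => ∃ a : ℕ,
    δ * X / q < (({n : ℕ | n ≤ X ∧ Even n ∧ n ≡ a [MOD q] ∧
        κ * (X / L ^ 2) < |G n|}).ncard : ℝ)) := ⟨_, rfl⟩
  have hset : {q : ℕ | 1 ≤ q ∧ q ≤ Q ∧ ∃ a : ℕ, δ * X / q < (({n : ℕ | n ≤ X ∧ Even n ∧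
      n ≡ a [MOD q] ∧ κ * (X / L ^ 2) < |G n|}).ncard : ℝ)} = (Bad : Set ℕ) := by
    ext q
    rw [hBad, Finset.coe_filter]
    simp only [Set.mem_ofPred_eq, Finset.mem_Icc, and_assoc]
  rw [hset, Set.ncard_coe_finset]
  have hone : ∀ q ∈ Bad, δ * X * M ^ 2 ≤ av (gr X) (fun θ => ‖Se X u θ‖ ^ 2 *
      ∑ k ∈ range q, ‖Se X v (θ + (k : ℝ) / q)‖ ^ 2) := by
    intro q hq
    rw [hBad, Finset.mem_filter, Finset.mem_Icc] at hq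
    obtain ⟨⟨hq1, hq2⟩, a, ha⟩ := hq
    exact T1Plus_one X q a hx5 hq1 (hq2.trans hQ) u v G δ _ (X / L ^ (A + 3)) M hM0.le hE hconv ha
  have hBq0 : ∀ q, 0 ≤ av (gr X) (fun θ => ‖Se X u θ‖ ^ 2 *
      ∑ k ∈ range q, ‖Se X v (θ + (k : ℝ) / q)‖ ^ 2) := fun q =>
    av_nonneg fun θ => mul_nonneg (sq_nonneg _) (Finset.sum_nonneg fun k _ => sq_nonneg _)
  have hbadsum : (#Bad : ℝ) * (δ * X * M ^ 2) ≤ ∑ q ∈ Icc 1 Q, av (gr X) (fun θ =>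
      ‖Se X u θ‖ ^ 2 * ∑ k ∈ range q, ‖Se X v (θ + (k : ℝ) / q)‖ ^ 2) := by
    calc (#Bad : ℝ) * (δ * X * M ^ 2) = ∑ _q ∈ Bad, δ * X * M ^ 2 := by
          rw [Finset.sum_const, nsmul_eq_mul]
      _ ≤ ∑ q ∈ Bad, av (gr X) (fun θ =>
          ‖Se X u θ‖ ^ 2 * ∑ k ∈ range q, ‖Se X v (θ + (k : ℝ) / q)‖ ^ 2) :=
        Finset.sum_le_sum hone
      _ ≤ _ := Finset.sum_le_sum_of_subset_of_nonneg
        (by rw [hBad]; exact Finset.filter_subset _ _) fun q _ _ => hBq0 q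
  obtain ⟨D1, hD1⟩ : ∃ D1 : ℕ, D1 = ⌈L ^ (A + 2)⌉₊ := ⟨_, rfl⟩
  have hLA2 : 1 ≤ L ^ (A + 2) := one_le_pow₀ hL1
  have hD1a : L ^ (A + 2) ≤ D1 := by rw [hD1]; exact Nat.le_ceil _
  have hD1b : (D1 : ℝ) - 1 ≤ L ^ (A + 2) := by
    rw [hD1]
    have := Nat.ceil_lt_add_one (a := L ^ (A + 2)) (by positivity)
    linarith
  have hD1c : 1 ≤ D1 := by
    have : (1 : ℝ) ≤ D1 := hLA2.trans hD1a
    exact_mod_cast this
  have hD10 : (0 : ℝ) < D1 := by exact_mod_cast hD1c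
  have hsum := T1Plus_sum X Q D1 hx5 hQ hD1c u v (X / L ^ (A + 3)) (C1 * X / L) C2
    (by positivity) hC2.le hS hu hv (h2 X Q D1 u v hx5 hD1c)
  have hQ0 : (0 : ℝ) ≤ Q := Nat.cast_nonneg Q
  have hfin : (Q : ℝ) * (((D1 : ℝ) - 1) * ((X / L ^ (A + 3)) ^ 2 * (C1 * X / L)) +
      C2 * (Q + X / D1) * (C1 * X / L) ^ 2) ≤
      Q * (X ^ 3 / L ^ 4 * ((C1 + C2 * C1 ^ 2) * (Q * L ^ 2 / X + 1 / L ^ A))) := by
    refine mul_le_mul_of_nonneg_left ?_ hQ0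
    have e1 : ((D1 : ℝ) - 1) * ((X / L ^ (A + 3)) ^ 2 * (C1 * X / L)) ≤
        X ^ 3 / L ^ 4 * (C1 * (1 / L ^ A)) := by
      calc ((D1 : ℝ) - 1) * ((X / L ^ (A + 3)) ^ 2 * (C1 * X / L))
          ≤ L ^ (A + 2) * ((X / L ^ (A + 3)) ^ 2 * (C1 * X / L)) := by gcongr
        _ = X ^ 3 / L ^ 4 * (C1 * (1 / L ^ A)) * (1 / L) := by
            rw [pow_add, pow_add]; field_simp
        _ ≤ X ^ 3 / L ^ 4 * (C1 * (1 / L ^ A)) * 1 := by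
            refine mul_le_mul_of_nonneg_left ?_ (by positivity)
            rw [div_le_one hL0]
            exact hL1
        _ = X ^ 3 / L ^ 4 * (C1 * (1 / L ^ A)) := by ring
    have e2 : C2 * (Q + X / D1) * (C1 * X / L) ^ 2 ≤
        X ^ 3 / L ^ 4 * (C2 * C1 ^ 2 * (Q * L ^ 2 / X + 1 / L ^ A)) := by
      calc C2 * (Q + X / D1) * (C1 * X / L) ^ 2
          ≤ C2 * (Q + X / L ^ (A + 2)) * (C1 * X / L) ^ 2 := by gcongr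
        _ = X ^ 3 / L ^ 4 * (C2 * C1 ^ 2 * (Q * L ^ 2 / X + 1 / L ^ A)) := by
            rw [pow_add]; field_simp
    have e3 : 0 ≤ X ^ 3 / L ^ 4 * (C1 * (Q * L ^ 2 / X)) := by positivity
    calc _ ≤ X ^ 3 / L ^ 4 * (C1 * (1 / L ^ A)) +
          X ^ 3 / L ^ 4 * (C2 * C1 ^ 2 * (Q * L ^ 2 / X + 1 / L ^ A)) := add_le_add e1 e2
      _ ≤ X ^ 3 / L ^ 4 * (C1 * (1 / L ^ A)) +
          X ^ 3 / L ^ 4 * (C2 * C1 ^ 2 * (Q * L ^ 2 / X + 1 / L ^ A)) +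
          X ^ 3 / L ^ 4 * (C1 * (Q * L ^ 2 / X)) := le_add_of_nonneg_right e3
      _ = _ := by ring
  have hall := (hbadsum.trans hsum).trans hfin
  rw [le_div_iff₀ (by positivity)]
  have e5 : δ * X * M ^ 2 = δ * κ ^ 2 * (X ^ 3 / L ^ 4) / 4 := by
    rw [hM]; field_simp; ring
  rw [e5] at hall
  have hpos : 0 < (X : ℝ) ^ 3 / L ^ 4 := by positivity
  have e6 : (#Bad : ℝ) * (δ * κ ^ 2) * (X ^ 3 / L ^ 4) ≤
      4 * (C1 + C2 * C1 ^ 2) * Q * (Q * L ^ 2 / X + 1 / L ^ A) * (X ^ 3 / L ^ 4) := by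
    have e7 : (#Bad : ℝ) * (δ * κ ^ 2) * (X ^ 3 / L ^ 4) =
      4 * ((#Bad : ℝ) * (δ * κ ^ 2 * (X ^ 3 / L ^ 4) / 4)) := by ring
    rw [e7]
    calc 4 * ((#Bad : ℝ) * (δ * κ ^ 2 * (X ^ 3 / L ^ 4) / 4))
        ≤ 4 * (Q * (X ^ 3 / L ^ 4 * ((C1 + C2 * C1 ^ 2) * (Q * L ^ 2 / X + 1 / L ^ A)))) := by
          gcongr
      _ = _ := by ring
  exact le_of_mul_le_mul_right e6 hpos

end Pool.MP_dd84fd_nt.L2G
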