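import Pool.Agent.Lib.MP_dd84fd_nt.L2G.Fourth
import Pool.Agent.Lib.MP_dd84fd_nt.L2G.T1Aux

set_option autoImplicit false

namespace Pool.MP_dd84fd_nt.L2G

open Finset Pool.MP_67663b_nt.Odd

/-- a shift by `b / d` maps `Maj P δ` into `Maj (P d) δ` -/
private theorem t1s_Maj_shift (P δ θ : ℝ) (d b : ℕ) (hd : 1 ≤ d) (h : θ ∈ Maj P δ) :
    θ + (b : ℝ) / d ∈ Maj (P * d) δ := by
  obtain ⟨r, hr, hrP, y, hy, hθ⟩ := h
  have hd0 : (0 : ℝ) < d := by exact_mod_cast hd
  have hr0 : (0 : ℝ) < r := by exact_mod_cast hr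
  -- the fraction y / r + b / d = z / (r d)
  set z : ℤ := y * d + b * r with hz
  set g : ℕ := Int.gcd z ((r * d : ℕ) : ℤ) with hg
  have hrd : 0 < r * d := Nat.mul_pos hr hd
  have hg0 : 0 < g := Int.gcd_pos_of_ne_zero_right _ (by exact_mod_cast hrd.ne')
  obtain ⟨z', hz'⟩ : (g : ℤ) ∣ z := Int.gcd_dvd_left _ _
  obtain ⟨m', hm'⟩ : (g : ℤ) ∣ ((r * d : ℕ) : ℤ) := Int.gcd_dvd_right _ _
  have hm0 : 0 < m' := by
    have h1 : (0 : ℤ) < g * m' := by
      rw [← hm']
      exact_mod_cast hrd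
    exact pos_of_mul_pos_right h1 (by positivity)
  obtain ⟨m, rfl⟩ := Int.eq_ofNat_of_zero_le hm0.le
  have hm1 : 1 ≤ m := by omega
  have hmle : m ≤ r * d := by
    have h1 : r * d = g * m := by exact_mod_cast hm'
    rw [h1]
    exact Nat.le_mul_of_pos_left m hg0
  have hcop : IsCoprime z' (m : ℤ) := by
    rw [Int.isCoprime_iff_gcd_eq_one]
    have h1 : Int.gcd z ((r * d : ℕ) : ℤ) = g * Int.gcd z' m := by
      rw [hz', hm', Int.gcd_mul_left, Int.natAbs_natCast]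
    rw [← hg] at h1
    have h2 : g * Int.gcd z' m = g * 1 := by rw [← h1, mul_one]
    exact Nat.eq_of_mul_eq_mul_left hg0 h2
  refine ⟨m, hm1, ?_, z', hcop, ?_⟩
  · have h1 : (m : ℝ) ≤ (r * d : ℕ) := by exact_mod_cast hmle
    push_cast at h1
    exact h1.trans (mul_le_mul_of_nonneg_right hrP hd0.le)
  · have hm0' : (0 : ℝ) < m := by exact_mod_cast hm1
    have hgr : (0 : ℝ) < g := by exact_mod_cast hg0
    have e1 : (z' : ℝ) / m = (y : ℝ) / r + (b : ℝ) / d := by
      have h1 : (g : ℝ) * z' = y * d + b * r := by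
        have : (g : ℤ) * z' = y * d + b * r := by rw [← hz', hz]
        exact_mod_cast this
      have h2 : (r : ℝ) * d = g * m := by
        have : ((r * d : ℕ) : ℤ) = g * m := hm'
        exact_mod_cast this
      rw [div_add_div _ _ hr0.ne' hd0.ne', div_eq_div_iff hm0'.ne' (by positivity), h2]
      have h3 : (y : ℝ) * d + r * b = g * z' := by rw [h1]; ring
      rw [h3]
      ring
    rw [e1]
    have : θ + (b : ℝ) / d - ((y : ℝ) / r + (b : ℝ) / d) = θ - y / r := by ring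
    rw [this]
    exact hθ

theorem t1_small : ∃ C : ℝ, 0 < C ∧ ∀ w : ℕ, 2 ≤ w → ∀ B : ℕ, ∃ X0 : ℕ, ∀ X : ℕ, X0 ≤ X →
    ∀ d : ℕ, 1 ≤ d → d ≤ w → JM w.factorial X B d ≤
      C * d * (1 + Real.log w) ^ 2 * (w : ℝ) ^ (-(1 / 3 : ℝ)) * X ^ 3 := by
  classical
  obtain ⟨C, hC, hF⟩ := fourth_UV
  refine ⟨C, hC, fun w hw B => ?_⟩
  obtain ⟨X1, h1⟩ := hF w hw (B + 1)
  obtain ⟨X3, h3⟩ : ∃ X3 : ℕ, ∀ X : ℕ, X3 ≤ X → max 1 (w : ℝ) ≤ Real.log X := by
    have h4 : Filter.Tendsto (fun X : ℕ => Real.log X) Filter.atTop Filter.atTop :=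
      Real.tendsto_log_atTop.comp tendsto_natCast_atTop_atTop
    exact Filter.eventually_atTop.1 (h4.eventually_ge_atTop _)
  refine ⟨max X1 (max X3 w), fun X hX d hd hdw => ?_⟩
  have hX1 : X1 ≤ X := (le_max_left _ _).trans hX
  have hX3 : X3 ≤ X := (le_max_left _ _).trans ((le_max_right _ _).trans hX)
  have hXw : w ≤ X := (le_max_right _ _).trans ((le_max_right _ _).trans hX)
  have hlog := h3 X hX3
  have hLw : (w : ℝ) ≤ Real.log X := (le_max_right _ _).trans hlog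
  have hL1 : 1 ≤ Real.log X := (le_max_left _ _).trans hlog
  obtain ⟨hU, -⟩ := h1 X hX1 B (Nat.le_succ B)
  obtain ⟨-, hV⟩ := h1 X hX1 (B + 1) le_rfl
  set L := Real.log X with hLdef
  have hL0 : 0 < L := by linarith
  set S := Maj (L ^ B) (L ^ B / X) with hS
  set S' := Maj (L ^ (B + 1)) (L ^ (B + 1) / X) with hS'
  have hd0 : (0 : ℝ) < d := by exact_mod_cast hd
  have hdL : (d : ℝ) ≤ L := by
    have : (d : ℝ) ≤ w := by exact_mod_cast hdw
    linarith
  have hX0 : (0 : ℝ) ≤ X := Nat.cast_nonneg X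
  have hdN : d ∣ gr X := dvd_gr hd (by omega)
  have hw0 : (0 : ℝ) < w := by
    have : 0 < w := by omega
    exact_mod_cast this
  have hw1 : (1 : ℝ) ≤ w := by
    have : 1 ≤ w := by omega
    exact_mod_cast this
  have hlw : 0 ≤ Real.log w := Real.log_nonneg hw1
  have hsub : ∀ (θ : ℝ) (b : ℕ), θ ∈ S → θ + (b : ℝ) / d ∈ S' := by
    intro θ b hθ
    obtain ⟨r, hr, hrP, y, hy, h⟩ := t1s_Maj_shift _ _ θ d b hd hθ
    refine ⟨r, hr, hrP.trans ?_, y, hy, h.trans ?_⟩
    · rw [pow_succ]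
      exact mul_le_mul_of_nonneg_left hdL (by positivity)
    · refine div_le_div_of_nonneg_right ?_ hX0
      exact pow_le_pow_right₀ hL1 (Nat.le_succ B)
  have hterm : ∀ b : ℕ, av (gr X) (S.indicator (fun θ => ‖UH w.factorial X θ‖ ^ 2 *
      ‖VH w.factorial X (θ + (b : ℝ) / d)‖ ^ 2)) ≤
      C * (1 + Real.log w) ^ 2 * (w : ℝ) ^ (-(1 / 3 : ℝ)) * X ^ 3 := by
    intro b
    set f : ℝ → ℝ := S.indicator (fun θ => ‖UH w.factorial X θ‖ ^ 2) with hf
    set g : ℝ → ℝ := fun θ => S'.indicator (fun θ => ‖VH w.factorial X θ‖ ^ 2) (θ + (b : ℝ) / d)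
      with hg
    have e1 : av (gr X) (S.indicator (fun θ => ‖UH w.factorial X θ‖ ^ 2 *
        ‖VH w.factorial X (θ + (b : ℝ) / d)‖ ^ 2)) ≤ av (gr X) (fun θ => f θ * g θ) := by
      refine av_mono fun θ => ?_
      by_cases hθ : θ ∈ S
      · rw [Set.indicator_of_mem hθ, hf, hg]
        simp only [Set.indicator_of_mem hθ, Set.indicator_of_mem (hsub θ b hθ)]
        exact le_rfl
      · rw [Set.indicator_of_notMem hθ, hf, Set.indicator_of_notMem hθ, zero_mul]
    have e2 : av (gr X) (fun θ => f θ ^ 2) =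
        av (gr X) (S.indicator (fun θ => ‖UH w.factorial X θ‖ ^ 4)) := by
      congr 1
      funext θ
      by_cases hθ : θ ∈ S
      · rw [hf, Set.indicator_of_mem hθ, Set.indicator_of_mem hθ]
        ring
      · rw [hf, Set.indicator_of_notMem hθ, Set.indicator_of_notMem hθ]
        norm_num
    have e3 : av (gr X) (fun θ => g θ ^ 2) =
        av (gr X) (S'.indicator (fun θ => ‖VH w.factorial X θ‖ ^ 4)) := by
      have h5 := t1x_shift X S' (fun θ => t1x_Maj_one _ _ θ) (fun θ => ‖VH w.factorial X θ‖ ^ 4)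
        (fun θ => by rw [t1x_VH_one]) hd hdN b
      rw [← h5]
      congr 1
      funext θ
      by_cases hθ : θ + (b : ℝ) / d ∈ S'
      · rw [hg]
        simp only
        rw [Set.indicator_of_mem hθ, Set.indicator_of_mem hθ]
        ring
      · rw [hg]
        simp only
        rw [Set.indicator_of_notMem hθ, Set.indicator_of_notMem hθ]
        norm_num
    have e4 := av_cs (gr X) f g
    rw [e2, e3] at e4
    refine e1.trans ?_
    refine le_of_sq_le_sq ?_ (by positivity)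
    refine e4.trans ?_
    have hU0 : 0 ≤ av (gr X) (S.indicator (fun θ => ‖UH w.factorial X θ‖ ^ 4)) :=
      av_nonneg fun θ => Set.indicator_nonneg (fun _ _ => by positivity) θ
    calc _ ≤ (C * (1 + Real.log w) ^ 2 * (w : ℝ) ^ (-(2 / 3 : ℝ)) * X ^ 3) *
          (C * (1 + Real.log w) * X ^ 3) :=
          mul_le_mul hU hV (av_nonneg fun θ => Set.indicator_nonneg (fun _ _ => by positivity) θ)
            (by positivity)
      _ = C ^ 2 * (1 + Real.log w) ^ 3 * (w : ℝ) ^ (-(2 / 3 : ℝ)) * (X ^ 3) ^ 2 := by ring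
      _ ≤ C ^ 2 * (1 + Real.log w) ^ 4 * (w : ℝ) ^ (-(2 / 3 : ℝ)) * (X ^ 3) ^ 2 := by
          have h6 : (1 + Real.log w) ^ 3 ≤ (1 + Real.log w) ^ 4 :=
            pow_le_pow_right₀ (by linarith) (by norm_num)
          gcongr
      _ = (C * (1 + Real.log w) ^ 2 * (w : ℝ) ^ (-(1 / 3 : ℝ)) * X ^ 3) ^ 2 := by
          have h7 : (w : ℝ) ^ (-(2 / 3 : ℝ)) = ((w : ℝ) ^ (-(1 / 3 : ℝ))) ^ 2 := by
            rw [← Real.rpow_natCast, ← Real.rpow_mul hw0.le]
            congr 1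
            norm_num
          rw [h7]
          ring
  have h8 : JM w.factorial X B d ≤ ∑ b ∈ (range d).filter (Nat.Coprime d),
      av (gr X) (S.indicator (fun θ => ‖UH w.factorial X θ‖ ^ 2 *
      ‖VH w.factorial X (θ + (b : ℝ) / d)‖ ^ 2)) := by
    unfold JM
    rw [← hLdef, ← hS, ← av_sum]
    refine av_mono fun θ => ?_
    by_cases hθ : θ ∈ S
    · rw [Set.indicator_of_mem hθ]
      unfold Vst
      rw [Finset.mul_sum]
      refine Finset.sum_le_sum fun b _ => ?_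
      rw [Set.indicator_of_mem hθ]
    · rw [Set.indicator_of_notMem hθ]
      exact Finset.sum_nonneg fun b _ => Set.indicator_nonneg (fun _ _ => by positivity) θ
  refine h8.trans ((Finset.sum_le_sum fun b _ => hterm b).trans ?_)
  rw [Finset.sum_const, nsmul_eq_mul]
  have h9 : (((range d).filter (Nat.Coprime d)).card : ℝ) ≤ d := by
    have : ((range d).filter (Nat.Coprime d)).card ≤ d := by
      refine (Finset.card_filter_le _ _).trans ?_
      rw [Finset.card_range]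
    exact_mod_cast this
  calc _ ≤ (d : ℝ) * (C * (1 + Real.log w) ^ 2 * (w : ℝ) ^ (-(1 / 3 : ℝ)) * X ^ 3) :=
        mul_le_mul_of_nonneg_right h9 (by positivity)
    _ = C * d * (1 + Real.log w) ^ 2 * (w : ℝ) ^ (-(1 / 3 : ℝ)) * X ^ 3 := by ring

end Pool.MP_dd84fd_nt.L2G
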