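import Pool.Agent.Lib.MP_dd84fd_nt.L2G.T1Big
import Pool.Agent.Lib.MP_dd84fd_nt.L2G.T1Small
import Pool.Agent.Lib.MP_dd84fd_nt.L2G.T1Mid
import Pool.Agent.Lib.MP_dd84fd_nt.L2G.SumBq
import Pool.Agent.Lib.MP_dd84fd_nt.L2G.T1Aux

set_option autoImplicit false

namespace Pool.MP_dd84fd_nt.L2G

open Finset Pool.MP_67663b_nt.Odd

private theorem t1t_sum4 : ∃ S : ℝ, 0 < S ∧ ∀ n : ℕ,
    ∑ i ∈ range n, (1 + (i : ℝ)) ^ 4 * (1 / 2 : ℝ) ^ i ≤ S := by
  have hs : Summable fun i : ℕ => (1 + (i : ℝ)) ^ 4 * (1 / 2 : ℝ) ^ i := by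
    have h1 := summable_pow_mul_geometric_of_norm_lt_one (R := ℝ) 4
      (r := (1 / 2 : ℝ)) (by rw [Real.norm_of_nonneg] <;> norm_num)
    have h2 := summable_pow_mul_geometric_of_norm_lt_one (R := ℝ) 0
      (r := (1 / 2 : ℝ)) (by rw [Real.norm_of_nonneg] <;> norm_num)
    refine Summable.of_nonneg_of_le (fun i => by positivity) (fun i => ?_)
      ((h1.mul_left 16).add (h2.mul_left 16))
    have hi : (0 : ℝ) ≤ i := Nat.cast_nonneg i
    have hqi : (0 : ℝ) ≤ (1 / 2) ^ i := by positivity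
    have h3 : (1 + (i : ℝ)) ^ 4 ≤ 16 * i ^ 4 + 16 := by
      have h4 : (1 + (i : ℝ)) ^ 2 ≤ 2 * i ^ 2 + 2 := by nlinarith [sq_nonneg ((i : ℝ) - 1)]
      have h5 : ((1 + (i : ℝ)) ^ 2) ^ 2 ≤ (2 * (i : ℝ) ^ 2 + 2) ^ 2 :=
        pow_le_pow_left₀ (by positivity) h4 2
      nlinarith [sq_nonneg ((i : ℝ) ^ 2 - 1)]
    calc (1 + (i : ℝ)) ^ 4 * (1 / 2 : ℝ) ^ i ≤ (16 * i ^ 4 + 16) * (1 / 2 : ℝ) ^ i :=
          mul_le_mul_of_nonneg_right h3 hqi
      _ = 16 * ((i : ℝ) ^ 4 * (1 / 2 : ℝ) ^ i) + 16 * ((i : ℝ) ^ 0 * (1 / 2 : ℝ) ^ i) := by ring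
  refine ⟨∑' i : ℕ, (1 + (i : ℝ)) ^ 4 * (1 / 2 : ℝ) ^ i + 1, ?_, fun n => ?_⟩
  · have : 0 ≤ ∑' i : ℕ, (1 + (i : ℝ)) ^ 4 * (1 / 2 : ℝ) ^ i := tsum_nonneg fun i => by positivity
    linarith
  · have h1 := hs.sum_le_tsum (range n) (fun i _ => by positivity)
    linarith

private theorem t1t_sumq (n : ℕ) : ∑ i ∈ range n, (3 / 4 : ℝ) ^ i ≤ 4 := by
  rw [geom_sum_eq (by norm_num)]
  have : (0 : ℝ) < (3 / 4) ^ n := by positivity
  rw [div_le_iff_of_neg (by norm_num)]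
  linarith

/-- the choice of `m`, `w = m ^ 4` -/
private theorem t1t_m (K η : ℝ) (hK : 0 < K) (hη : 0 < η) : ∃ m : ℕ, 2 ≤ m ∧
    K * (1 + Real.log ((m ^ 4 : ℕ) : ℝ)) ^ 6 * (m : ℝ) ^ (-(1 / 3 : ℝ)) ≤ η / 8 := by
  obtain ⟨m0, hm0⟩ := exists_nat_ge ((8 * K * 145 ^ 6 / η) ^ 6)
  refine ⟨m0 + 2, by omega, ?_⟩
  set m : ℕ := m0 + 2 with hm
  have hm1 : (1 : ℝ) ≤ m := by
    have : 1 ≤ m := by omega
    exact_mod_cast this
  have hm00 : (0 : ℝ) < m := by linarith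
  have hmK : (8 * K * 145 ^ 6 / η) ^ 6 ≤ m := by
    have : (m0 : ℝ) ≤ m := by exact_mod_cast (by omega : m0 ≤ m)
    linarith
  have h1 : 1 + Real.log ((m ^ 4 : ℕ) : ℝ) ≤ 145 * (m : ℝ) ^ (1 / 36 : ℝ) := by
    push_cast
    rw [Real.log_pow]
    have h2 : Real.log m ≤ (m : ℝ) ^ (1 / 36 : ℝ) / (1 / 36) :=
      Real.log_le_rpow_div hm00.le (by norm_num)
    have h3 : 1 ≤ (m : ℝ) ^ (1 / 36 : ℝ) := Real.one_le_rpow hm1 (by norm_num)
    push_cast
    linarith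
  have h0 : 0 ≤ 1 + Real.log ((m ^ 4 : ℕ) : ℝ) := by
    have := Real.log_natCast_nonneg (m ^ 4)
    linarith
  have h4 : (1 + Real.log ((m ^ 4 : ℕ) : ℝ)) ^ 6 ≤ 145 ^ 6 * (m : ℝ) ^ (1 / 6 : ℝ) := by
    calc (1 + Real.log ((m ^ 4 : ℕ) : ℝ)) ^ 6 ≤ (145 * (m : ℝ) ^ (1 / 36 : ℝ)) ^ 6 :=
          pow_le_pow_left₀ h0 h1 6
      _ = 145 ^ 6 * (m : ℝ) ^ (1 / 6 : ℝ) := by
          rw [mul_pow, ← Real.rpow_natCast ((m : ℝ) ^ (1 / 36 : ℝ)) 6, ← Real.rpow_mul hm00.le]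
          congr 2
          norm_num
  have h5 : 8 * K * 145 ^ 6 / η ≤ (m : ℝ) ^ (1 / 6 : ℝ) := by
    have h6 : ((8 * K * 145 ^ 6 / η) ^ 6) ^ (1 / 6 : ℝ) ≤ (m : ℝ) ^ (1 / 6 : ℝ) :=
      Real.rpow_le_rpow (by positivity) hmK (by norm_num)
    have h7 : ((8 * K * 145 ^ 6 / η) ^ 6) ^ (1 / 6 : ℝ) = 8 * K * 145 ^ 6 / η := by
      rw [← Real.rpow_natCast, ← Real.rpow_mul (by positivity)]
      norm_num
    rw [h7] at h6
    exact h6
  have h9 : (0 : ℝ) < (m : ℝ) ^ (1 / 6 : ℝ) := by positivity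
  have h8 : (m : ℝ) ^ (1 / 6 : ℝ) * (m : ℝ) ^ (-(1 / 3 : ℝ)) = 1 / (m : ℝ) ^ (1 / 6 : ℝ) := by
    rw [eq_div_iff h9.ne', ← Real.rpow_add hm00, ← Real.rpow_add hm00]
    have h10 : (1 / 6 : ℝ) + -(1 / 3) + 1 / 6 = 0 := by norm_num
    rw [h10, Real.rpow_zero]
  calc K * (1 + Real.log ((m ^ 4 : ℕ) : ℝ)) ^ 6 * (m : ℝ) ^ (-(1 / 3 : ℝ)) ≤
      K * (145 ^ 6 * (m : ℝ) ^ (1 / 6 : ℝ)) * (m : ℝ) ^ (-(1 / 3 : ℝ)) := by gcongr
    _ = K * 145 ^ 6 * ((m : ℝ) ^ (1 / 6 : ℝ) * (m : ℝ) ^ (-(1 / 3 : ℝ))) := by ring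
    _ = K * 145 ^ 6 / (m : ℝ) ^ (1 / 6 : ℝ) := by rw [h8]; ring
    _ ≤ η / 8 := by
        rw [div_le_iff₀ h9]
        rw [div_le_iff₀ hη] at h5
        linarith

theorem t1_total (hL : MinorL) (η : ℝ) (hη : 0 < η) : ∃ w : ℕ, 2 ≤ w ∧ ∃ C : ℝ, 0 < C ∧ ∃ X0 : ℕ,
    ∀ X : ℕ, X0 ≤ X → ∀ Q : ℕ, (Q : ℝ) ≤ X / (C * Real.log X ^ 2) →
    ∑ q ∈ Icc 1 Q, Bq w.factorial X q ≤ η * Q * X ^ 3 := by
  classical
  obtain ⟨Cb, hCb, hbig⟩ := t1_big
  obtain ⟨B, hmin⟩ := t1_minor hL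
  obtain ⟨Cs, hCs, hsmall⟩ := t1_small
  obtain ⟨Ca, hCa, hA⟩ := t1_midA
  obtain ⟨Cm, hCm, hB⟩ := t1_midB
  obtain ⟨S4, hS4, hsum4⟩ := t1t_sum4
  obtain ⟨m, hm2, hmK⟩ := t1t_m (Cs + Ca * S4) η (by positivity) hη
  set w : ℕ := m ^ 4 with hw
  have hmw : m ≤ w := by
    rw [hw]
    exact Nat.le_self_pow (by norm_num) m
  have hw2 : 2 ≤ w := hm2.trans hmw
  have hm0 : (0 : ℝ) < m := by
    have : 0 < m := by omega
    exact_mod_cast this
  have hm1 : (1 : ℝ) ≤ m := by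
    have : 1 ≤ m := by omega
    exact_mod_cast this
  have hw1 : (1 : ℝ) ≤ w := by
    have : 1 ≤ w := by omega
    exact_mod_cast this
  have hlw : 0 ≤ Real.log w := Real.log_nonneg hw1
  have hlm : Real.log m ≤ Real.log w := by
    refine Real.log_le_log hm0 ?_
    exact_mod_cast hmw
  refine ⟨w, hw2, 8 * Cb / η + 1, by positivity, ?_⟩
  obtain ⟨X1, h1⟩ := hbig w hw2
  obtain ⟨X2, h2⟩ := hmin w hw2
  obtain ⟨X3, h3⟩ := hsmall w hw2 B
  obtain ⟨X4, h4⟩ := hA w hw2 B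
  obtain ⟨X5, h5⟩ := hB w hw2 B
  obtain ⟨X6, h6⟩ := t1m_logs 1 (max (8 * Cb / η + 2 + m) (max (8 / η)
    (32 * Cm * (1 + Real.log w) ^ 2 / η)))
  obtain ⟨X7, h7⟩ : ∃ X7 : ℕ, ∀ X : ℕ, X7 ≤ X → Real.log X ^ 3 ≤ X := by
    have h8 := (Real.isLittleO_pow_log_id_atTop (n := 3)).bound one_pos
    have h9 := tendsto_natCast_atTop_atTop.eventually h8
    obtain ⟨X7, h10⟩ := Filter.eventually_atTop.1 h9
    refine ⟨X7, fun X hX => ?_⟩
    have h11 := h10 X hX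
    rw [one_mul, id, Real.norm_of_nonneg (Nat.cast_nonneg X)] at h11
    exact (le_abs_self _).trans h11
  refine ⟨max 1 (max X1 (max X2 (max X3 (max X4 (max X5 (max X6 X7)))))), fun X hX Q hQ => ?_⟩
  have hX0' : 1 ≤ X := (le_max_left _ _).trans hX
  have hXa := (le_max_right _ _).trans hX
  have hX1 : X1 ≤ X := (le_max_left _ _).trans hXa
  have hXb := (le_max_right _ _).trans hXa
  have hX2 : X2 ≤ X := (le_max_left _ _).trans hXb
  have hXc := (le_max_right _ _).trans hXb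
  have hX3 : X3 ≤ X := (le_max_left _ _).trans hXc
  have hXd := (le_max_right _ _).trans hXc
  have hX4 : X4 ≤ X := (le_max_left _ _).trans hXd
  have hXe := (le_max_right _ _).trans hXd
  have hX5 : X5 ≤ X := (le_max_left _ _).trans hXe
  have hXf := (le_max_right _ _).trans hXe
  have hX6 : X6 ≤ X := (le_max_left _ _).trans hXf
  have hX7 : X7 ≤ X := (le_max_right _ _).trans hXf
  have h1 := h1 X hX1
  have h2 := h2 X hX2
  have h3 := h3 X hX3
  have h4 := h4 X hX4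
  have h5 := h5 X hX5
  obtain ⟨h61, h62, h63, h64⟩ := h6 X hX6
  have h7 := h7 X hX7
  set L := Real.log X with hLdef
  set LL := Real.log L with hLLdef
  have hXr : (1 : ℝ) ≤ X := by exact_mod_cast hX0'
  have hX0 : (0 : ℝ) < X := by linarith
  have hLL0 : 0 < LL := by linarith
  have hL1 : 1 ≤ L := h64
  have hL0 : 0 < L := by linarith
  have hX3' : (0 : ℝ) < X ^ 3 := by positivity
  rw [pow_one] at h61
  have hmaxL : max (8 * Cb / η + 2 + m) (max (8 / η)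
    (32 * Cm * (1 + Real.log w) ^ 2 / η)) ≤ L := by
    refine le_trans ?_ h61
    refine le_mul_of_one_le_right ?_ h63
    exact le_trans (by positivity) (le_max_left _ _)
  have hL8 : 8 * Cb / η + 2 + m ≤ L := (le_max_left _ _).trans hmaxL
  have hL9 : 8 / η ≤ L := (le_max_left _ _).trans ((le_max_right _ _).trans hmaxL)
  have hLL9 : 32 * Cm * (1 + Real.log w) ^ 2 / η ≤ LL :=
    (le_max_right _ _).trans ((le_max_right _ _).trans h62)
  -- Q ≤ X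
  have hQ' : (Q : ℝ) * ((8 * Cb / η + 1) * L ^ 2) ≤ X := by
    rwa [le_div_iff₀ (by positivity)] at hQ
  have hQ0 : (0 : ℝ) ≤ Q := Nat.cast_nonneg Q
  have hQX : Q ≤ X := by
    have h8 : (1 : ℝ) ≤ (8 * Cb / η + 1) * L ^ 2 := by
      have h9 : (1 : ℝ) ≤ L ^ 2 := one_le_pow₀ hL1
      have h10 : (1 : ℝ) ≤ 8 * Cb / η + 1 := by
        have : 0 ≤ 8 * Cb / η := by positivity
        linarith
      nlinarith
    have h9 : (Q : ℝ) ≤ X := (le_mul_of_one_le_right hQ0 h8).trans hQ'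
    exact_mod_cast h9
  -- D
  set D0 : ℕ := ⌈8 * Cb * L ^ 2 / η⌉₊ with hD0
  set D : ℕ := D0 + m with hD
  have hD01 : 1 ≤ D0 := Nat.one_le_ceil_iff.2 (by positivity)
  have hDm : m ≤ D - 1 := by omega
  have hD1 : 1 ≤ D := by omega
  have hDge : 8 * Cb * L ^ 2 / η ≤ D := by
    have h8 : 8 * Cb * L ^ 2 / η ≤ D0 := Nat.le_ceil _
    have h9 : (D0 : ℝ) ≤ D := by exact_mod_cast (by omega : D0 ≤ D)
    linarith
  have hDle : (D : ℝ) ≤ L ^ 3 := by
    have h8 : (D0 : ℝ) < 8 * Cb * L ^ 2 / η + 1 := Nat.ceil_lt_add_one (by positivity)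
    have h9 : (D : ℝ) = D0 + m := by rw [hD]; push_cast; rfl
    have hLsq : (1 : ℝ) ≤ L ^ 2 := one_le_pow₀ hL1
    have h10 : 8 * Cb * L ^ 2 / η + 1 + m ≤ (8 * Cb / η + 2 + m) * L ^ 2 := by
      have h11 : 8 * Cb * L ^ 2 / η = 8 * Cb / η * L ^ 2 := by ring
      rw [h11]
      nlinarith
    have h12 : (8 * Cb / η + 2 + m) * L ^ 2 ≤ L * L ^ 2 :=
      mul_le_mul_of_nonneg_right hL8 (by positivity)
    have h13 : L * L ^ 2 = L ^ 3 := by ring
    linarith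
  have hDX : (D : ℝ) ≤ X := hDle.trans h7
  have hD0r : (0 : ℝ) < D := by exact_mod_cast hD1
  have hJ0 : ∀ d, 0 ≤ Jd w.factorial X d := fun d =>
    av_nonneg fun θ => mul_nonneg (by positivity) (t1x_Vst_nonneg _ _ _)
  have hJM0 : ∀ d, 0 ≤ JM w.factorial X B d := fun d =>
    av_nonneg fun θ => Set.indicator_nonneg
      (fun _ _ => mul_nonneg (by positivity) (t1x_Vst_nonneg _ _ _)) θ
  -- large d
  have hlarge : ∑ d ∈ Icc D Q, Jd w.factorial X d / d ≤ η / 4 * X ^ 3 := by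
    refine (h1 D Q hD1 hQX).trans ?_
    have h8 : Cb * (X * L) ^ 2 * Q ≤ η / 8 * X ^ 3 := by
      have h9 : (8 * Cb / η) * L ^ 2 * Q ≤ X := by
        have h10 : (8 * Cb / η) * L ^ 2 * Q ≤ (Q : ℝ) * ((8 * Cb / η + 1) * L ^ 2) := by
          have : 0 ≤ (Q : ℝ) * L ^ 2 := by positivity
          nlinarith
        linarith
      have h11 : Cb * (X * L) ^ 2 * Q = η / 8 * X ^ 2 * ((8 * Cb / η) * L ^ 2 * Q) := by
        field_simp
      rw [h11]
      calc η / 8 * X ^ 2 * ((8 * Cb / η) * L ^ 2 * Q) ≤ η / 8 * X ^ 2 * X :=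
            mul_le_mul_of_nonneg_left h9 (by positivity)
        _ = η / 8 * X ^ 3 := by ring
    have h12 : Cb * (X * L) ^ 2 * (X / D) ≤ η / 8 * X ^ 3 := by
      rw [mul_div_assoc', div_le_iff₀ hD0r]
      rw [div_le_iff₀ hη] at hDge
      have h13 : 0 ≤ (X : ℝ) ^ 3 := by positivity
      nlinarith
    calc Cb * (X * L) ^ 2 * (Q + X / D) = Cb * (X * L) ^ 2 * Q + Cb * (X * L) ^ 2 * (X / D) := by
          ring
      _ ≤ η / 8 * X ^ 3 + η / 8 * X ^ 3 := add_le_add h8 h12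
      _ = η / 4 * X ^ 3 := by ring
  -- small d
  have hsm : ∑ d ∈ Icc 1 m, JM w.factorial X B d / d ≤ η / 8 * X ^ 3 := by
    have h8 : ∀ d ∈ Icc 1 m, JM w.factorial X B d / d ≤
        Cs * (1 + Real.log w) ^ 2 * (w : ℝ) ^ (-(1 / 3 : ℝ)) * X ^ 3 := by
      intro d hd
      rw [Finset.mem_Icc] at hd
      have hd0 : (0 : ℝ) < d := by exact_mod_cast hd.1
      rw [div_le_iff₀ hd0]
      refine (h3 d hd.1 (hd.2.trans hmw)).trans (le_of_eq (by ring))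
    refine (Finset.sum_le_sum h8).trans ?_
    rw [Finset.sum_const, nsmul_eq_mul, Nat.card_Icc, Nat.add_sub_cancel]
    have h9 : (m : ℝ) * (w : ℝ) ^ (-(1 / 3 : ℝ)) = (m : ℝ) ^ (-(1 / 3 : ℝ)) := by
      have h10 : (w : ℝ) = (m : ℝ) ^ (4 : ℝ) := by
        rw [hw]
        push_cast
        rw [← Real.rpow_natCast]
        norm_num
      rw [h10, ← Real.rpow_mul hm0.le]
      nth_rewrite 1 [← Real.rpow_one (m : ℝ)]
      rw [← Real.rpow_add hm0]
      congr 1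
      norm_num
    have h11 : (1 + Real.log w) ^ 2 ≤ (1 + Real.log w) ^ 6 :=
      pow_le_pow_right₀ (by linarith) (by norm_num)
    have h12 : Cs * (1 + Real.log w) ^ 6 * (m : ℝ) ^ (-(1 / 3 : ℝ)) ≤ η / 8 := by
      refine le_trans ?_ hmK
      have h13 : Cs ≤ Cs + Ca * S4 := by
        have : 0 ≤ Ca * S4 := by positivity
        linarith
      gcongr
    calc (m : ℝ) * (Cs * (1 + Real.log w) ^ 2 * (w : ℝ) ^ (-(1 / 3 : ℝ)) * X ^ 3) =
        Cs * (1 + Real.log w) ^ 2 * ((m : ℝ) * (w : ℝ) ^ (-(1 / 3 : ℝ))) * X ^ 3 := by ring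
      _ = Cs * (1 + Real.log w) ^ 2 * (m : ℝ) ^ (-(1 / 3 : ℝ)) * X ^ 3 := by rw [h9]
      _ ≤ Cs * (1 + Real.log w) ^ 6 * (m : ℝ) ^ (-(1 / 3 : ℝ)) * X ^ 3 := by gcongr
      _ ≤ η / 8 * X ^ 3 := mul_le_mul_of_nonneg_right h12 hX3'.le
  -- middle d
  have hmid : ∑ d ∈ Icc m (D - 1), JM w.factorial X B d / d ≤ η / 4 * X ^ 3 := by
    set g : ℕ → ℝ := fun R => Ca * (1 + Real.log w) ^ 2 * (1 + Real.log R) ^ 4 * X ^ 3 +
      Cm * (1 + Real.log w) ^ 2 * LL ^ 4 * X ^ 3 * (Real.sqrt R / LL ^ 10) with hg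
    have hb : ∀ R : ℕ, m ≤ R → R ≤ D - 1 → ∑ d ∈ Ico R (2 * R), JM w.factorial X B d ≤ g R := by
      intro R hR1 hR2
      have hR : 1 ≤ R := by omega
      have hlR : 0 ≤ Real.log R := Real.log_natCast_nonneg R
      rw [hg]
      simp only
      by_cases hc : (R : ℝ) ≤ LL ^ 20
      · have h8 := h4 R hR hc
        have h9 : 0 ≤ Cm * (1 + Real.log w) ^ 2 * LL ^ 4 * X ^ 3 * (Real.sqrt R / LL ^ 10) := by
          positivity
        linarith
      · push Not at hc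
        have hRL : (R : ℝ) ≤ L ^ 3 := by
          have h8 : (R : ℝ) ≤ D := by exact_mod_cast (by omega : R ≤ D)
          linarith
        have h8 := h5 R hR hRL
        have h9 : 1 ≤ Real.sqrt R / LL ^ 10 := by
          rw [one_le_div (by positivity)]
          refine Real.le_sqrt_of_sq_le ?_
          rw [← pow_mul]
          exact hc.le
        have h10 : Cm * (1 + Real.log w) ^ 2 * LL ^ 4 * X ^ 3 ≤
            Cm * (1 + Real.log w) ^ 2 * LL ^ 4 * X ^ 3 * (Real.sqrt R / LL ^ 10) :=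
          le_mul_of_one_le_right (by positivity) h9
        have h11 : 0 ≤ Ca * (1 + Real.log w) ^ 2 * (1 + Real.log R) ^ 4 * X ^ 3 := by positivity
        linarith
    refine (t1x_dyadic _ _ hJM0 m (D - 1) (by omega) hDm hb).trans ?_
    set N := Nat.log 2 ((D - 1) / m) + 1 with hN
    have hterm : ∀ i ∈ range N, g (2 ^ i * m) / ((2 ^ i * m : ℕ) : ℝ) ≤
        Ca * (1 + Real.log w) ^ 6 / m * X ^ 3 * ((1 + (i : ℝ)) ^ 4 * (1 / 2 : ℝ) ^ i) +
        Cm * (1 + Real.log w) ^ 2 / LL * X ^ 3 * (3 / 4 : ℝ) ^ i := by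
      intro i _
      have hi0 : (0 : ℝ) ≤ i := Nat.cast_nonneg i
      have hRr : ((2 ^ i * m : ℕ) : ℝ) = 2 ^ i * m := by push_cast; rfl
      have h2i : (0 : ℝ) < 2 ^ i := by positivity
      rw [hg]
      simp only
      rw [hRr, add_div]
      refine add_le_add ?_ ?_
      · have h8 : 1 + Real.log (2 ^ i * m) ≤ (1 + i) * (1 + Real.log w) := by
          rw [Real.log_mul h2i.ne' hm0.ne', Real.log_pow]
          have h9 : Real.log 2 ≤ 1 := by
            have := Real.log_two_lt_d9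
            linarith
          have h10 : (i : ℝ) * Real.log 2 ≤ i := by nlinarith
          nlinarith [mul_nonneg hi0 hlw]
        have h0 : 0 ≤ 1 + Real.log (2 ^ i * m) := by
          have h9 : (1 : ℝ) ≤ 2 ^ i * m := by
            have : (1 : ℝ) ≤ 2 ^ i := one_le_pow₀ (by norm_num)
            nlinarith
          have := Real.log_nonneg h9
          linarith
        have h11 : (1 + Real.log (2 ^ i * m)) ^ 4 ≤ ((1 + i) * (1 + Real.log w)) ^ 4 :=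
          pow_le_pow_left₀ h0 h8 4
        calc Ca * (1 + Real.log w) ^ 2 * (1 + Real.log (2 ^ i * m)) ^ 4 * X ^ 3 / (2 ^ i * m) ≤
            Ca * (1 + Real.log w) ^ 2 * ((1 + i) * (1 + Real.log w)) ^ 4 * X ^ 3 / (2 ^ i * m) := by
              gcongr
          _ = Ca * (1 + Real.log w) ^ 6 / m * X ^ 3 * ((1 + (i : ℝ)) ^ 4 * (1 / 2 : ℝ) ^ i) := by
              rw [one_div_pow]
              field_simp
      · have h8 : (4 / 3 : ℝ) ^ i ≤ Real.sqrt (2 ^ i * m) := by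
          refine Real.le_sqrt_of_sq_le ?_
          have h9 : ((4 / 3 : ℝ) ^ i) ^ 2 = (16 / 9 : ℝ) ^ i := by
            rw [← pow_mul, mul_comm, pow_mul]
            norm_num
          rw [h9]
          have h10 : (16 / 9 : ℝ) ^ i ≤ 2 ^ i := pow_le_pow_left₀ (by norm_num) (by norm_num) i
          nlinarith
        have hsq : Real.sqrt (2 ^ i * m) * Real.sqrt (2 ^ i * m) = 2 ^ i * m :=
          Real.mul_self_sqrt (by positivity)
        have hs0 : 0 < Real.sqrt (2 ^ i * m) := Real.sqrt_pos.2 (by positivity)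
        have h11 : Real.sqrt (2 ^ i * m) / (2 ^ i * m) = 1 / Real.sqrt (2 ^ i * m) := by
          rw [div_eq_div_iff (by positivity) hs0.ne', hsq, one_mul]
        have h12 : 1 / Real.sqrt (2 ^ i * m) ≤ (3 / 4 : ℝ) ^ i := by
          have h13 : (3 / 4 : ℝ) ^ i = 1 / (4 / 3 : ℝ) ^ i := by
            rw [← one_div_pow]
            norm_num
          rw [h13]
          exact one_div_le_one_div_of_le (by positivity) h8
        have h14 : LL ^ 4 / LL ^ 10 ≤ 1 / LL := by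
          rw [div_le_div_iff₀ (by positivity) hLL0, one_mul, ← pow_succ]
          exact pow_le_pow_right₀ h63 (by norm_num)
        calc Cm * (1 + Real.log w) ^ 2 * LL ^ 4 * X ^ 3 * (Real.sqrt (2 ^ i * m) / LL ^ 10) /
              (2 ^ i * m) =
            Cm * (1 + Real.log w) ^ 2 * X ^ 3 * (LL ^ 4 / LL ^ 10) *
              (Real.sqrt (2 ^ i * m) / (2 ^ i * m)) := by ring
          _ ≤ Cm * (1 + Real.log w) ^ 2 * X ^ 3 * (1 / LL) * (3 / 4 : ℝ) ^ i := by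
              rw [h11]
              gcongr
          _ = Cm * (1 + Real.log w) ^ 2 / LL * X ^ 3 * (3 / 4 : ℝ) ^ i := by ring
    refine (Finset.sum_le_sum hterm).trans ?_
    rw [Finset.sum_add_distrib, ← Finset.mul_sum, ← Finset.mul_sum]
    have e1 : Ca * (1 + Real.log w) ^ 6 / m * X ^ 3 *
        ∑ i ∈ range N, ((1 + (i : ℝ)) ^ 4 * (1 / 2 : ℝ) ^ i) ≤ η / 8 * X ^ 3 := by
      have h8 : (1 : ℝ) / m ≤ (m : ℝ) ^ (-(1 / 3 : ℝ)) := by
        have h9 : (1 : ℝ) / m = (m : ℝ) ^ (-1 : ℝ) := by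
          rw [Real.rpow_neg hm0.le, Real.rpow_one, one_div]
        rw [h9]
        exact Real.rpow_le_rpow_of_exponent_le hm1 (by norm_num)
      have h10 : Ca * S4 * (1 + Real.log w) ^ 6 * (m : ℝ) ^ (-(1 / 3 : ℝ)) ≤ η / 8 := by
        refine le_trans ?_ hmK
        have h13 : Ca * S4 ≤ Cs + Ca * S4 := by linarith
        gcongr
      calc Ca * (1 + Real.log w) ^ 6 / m * X ^ 3 *
          ∑ i ∈ range N, ((1 + (i : ℝ)) ^ 4 * (1 / 2 : ℝ) ^ i) ≤
          Ca * (1 + Real.log w) ^ 6 / m * X ^ 3 * S4 :=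
            mul_le_mul_of_nonneg_left (hsum4 N) (by positivity)
        _ = Ca * S4 * (1 + Real.log w) ^ 6 * (1 / m) * X ^ 3 := by ring
        _ ≤ Ca * S4 * (1 + Real.log w) ^ 6 * (m : ℝ) ^ (-(1 / 3 : ℝ)) * X ^ 3 := by gcongr
        _ ≤ η / 8 * X ^ 3 := mul_le_mul_of_nonneg_right h10 hX3'.le
    have e2 : Cm * (1 + Real.log w) ^ 2 / LL * X ^ 3 * ∑ i ∈ range N, (3 / 4 : ℝ) ^ i ≤
        η / 8 * X ^ 3 := by
      have h8 : Cm * (1 + Real.log w) ^ 2 / LL * 4 ≤ η / 8 := by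
        rw [div_mul_eq_mul_div, div_le_iff₀ hLL0]
        rw [div_le_iff₀ hη] at hLL9
        linarith
      calc Cm * (1 + Real.log w) ^ 2 / LL * X ^ 3 * ∑ i ∈ range N, (3 / 4 : ℝ) ^ i ≤
          Cm * (1 + Real.log w) ^ 2 / LL * X ^ 3 * 4 :=
            mul_le_mul_of_nonneg_left (t1t_sumq N) (by positivity)
        _ = (Cm * (1 + Real.log w) ^ 2 / LL * 4) * X ^ 3 := by ring
        _ ≤ η / 8 * X ^ 3 := mul_le_mul_of_nonneg_right h8 hX3'.le
    calc _ ≤ η / 8 * X ^ 3 + η / 8 * X ^ 3 := add_le_add e1 e2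
      _ = η / 4 * X ^ 3 := by ring
  -- d < D
  have hlow : ∑ d ∈ Icc 1 (D - 1), Jd w.factorial X d / d ≤ η / 2 * X ^ 3 := by
    have h8 : ∀ d ∈ Icc 1 (D - 1), Jd w.factorial X d / d ≤
        JM w.factorial X B d / d + X ^ 3 / L ^ 10 := by
      intro d hd
      rw [Finset.mem_Icc] at hd
      have hd0 : (0 : ℝ) < d := by exact_mod_cast hd.1
      have hdX : d ≤ 4 * X := by
        have h9 : (d : ℝ) ≤ X := by
          have : (d : ℝ) ≤ D := by exact_mod_cast (by omega : d ≤ D)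
          linarith
        have h10 : d ≤ X := by exact_mod_cast h9
        omega
      have h9 := h2 d hd.1 hdX
      have h10 : (JM w.factorial X B d + d * X ^ 3 / L ^ 10) / d =
          JM w.factorial X B d / d + X ^ 3 / L ^ 10 := by
        field_simp
      rw [← h10]
      exact div_le_div_of_nonneg_right h9 hd0.le
    refine (Finset.sum_le_sum h8).trans ?_
    rw [Finset.sum_add_distrib, Finset.sum_const, nsmul_eq_mul, Nat.card_Icc]
    have h11 : (((D - 1 + 1 - 1 : ℕ)) : ℝ) * (X ^ 3 / L ^ 10) ≤ η / 8 * X ^ 3 := by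
      have h12 : (((D - 1 + 1 - 1 : ℕ)) : ℝ) ≤ L ^ 3 := by
        have h13 : D - 1 + 1 - 1 ≤ D := by omega
        have h14 : (((D - 1 + 1 - 1 : ℕ)) : ℝ) ≤ D := by exact_mod_cast h13
        linarith
      calc (((D - 1 + 1 - 1 : ℕ)) : ℝ) * (X ^ 3 / L ^ 10) ≤ L ^ 3 * (X ^ 3 / L ^ 10) :=
            mul_le_mul_of_nonneg_right h12 (by positivity)
        _ = (1 / L ^ 7) * X ^ 3 := by field_simp
        _ ≤ (1 / L) * X ^ 3 := by
            refine mul_le_mul_of_nonneg_right ?_ hX3'.le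
            refine one_div_le_one_div_of_le hL0 ?_
            exact le_self_pow₀ hL1 (by norm_num)
        _ ≤ η / 8 * X ^ 3 := by
            refine mul_le_mul_of_nonneg_right ?_ hX3'.le
            rw [div_le_iff₀ hη] at hL9
            rw [div_le_iff₀ hL0]
            linarith
    have h15 : ∑ d ∈ Icc 1 (D - 1), JM w.factorial X B d / d ≤
        ∑ d ∈ Icc 1 m, JM w.factorial X B d / d + ∑ d ∈ Icc m (D - 1), JM w.factorial X B d / d := by
      have hsub : Icc 1 (D - 1) ⊆ Icc 1 m ∪ Icc m (D - 1) := by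
        intro d hd
        rw [Finset.mem_Icc] at hd
        rw [Finset.mem_union, Finset.mem_Icc, Finset.mem_Icc]
        omega
      have hnn : ∀ d : ℕ, 0 ≤ JM w.factorial X B d / d := fun d => by
        have := hJM0 d
        positivity
      refine (Finset.sum_le_sum_of_subset_of_nonneg hsub fun d _ _ => hnn d).trans ?_
      have h16 := Finset.sum_union_inter (s₁ := Icc 1 m) (s₂ := Icc m (D - 1))
        (f := fun d => JM w.factorial X B d / d)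
      have h17 : 0 ≤ ∑ d ∈ Icc 1 m ∩ Icc m (D - 1), JM w.factorial X B d / d :=
        Finset.sum_nonneg fun d _ => hnn d
      linarith
    linarith
  -- conclusion
  have htot : ∑ d ∈ Icc 1 Q, Jd w.factorial X d / d ≤ η * X ^ 3 := by
    have hsub : Icc 1 Q ⊆ Icc 1 (D - 1) ∪ Icc D Q := by
      intro d hd
      rw [Finset.mem_Icc] at hd
      rw [Finset.mem_union, Finset.mem_Icc, Finset.mem_Icc]
      omega
    have hnn : ∀ d : ℕ, 0 ≤ Jd w.factorial X d / d := fun d => by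
      have := hJ0 d
      positivity
    have h8 := Finset.sum_le_sum_of_subset_of_nonneg hsub fun d _ _ => hnn d
    have h16 := Finset.sum_union_inter (s₁ := Icc 1 (D - 1)) (s₂ := Icc D Q)
      (f := fun d => Jd w.factorial X d / d)
    have h17 : 0 ≤ ∑ d ∈ Icc 1 (D - 1) ∩ Icc D Q, Jd w.factorial X d / d :=
      Finset.sum_nonneg fun d _ => hnn d
    nlinarith [mul_pos hη hX3']
  calc ∑ q ∈ Icc 1 Q, Bq w.factorial X q ≤ Q * ∑ d ∈ Icc 1 Q, Jd w.factorial X d / d :=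
        sum_Bq _ _ _
    _ ≤ Q * (η * X ^ 3) := mul_le_mul_of_nonneg_left htot hQ0
    _ = η * Q * X ^ 3 := by ring

end Pool.MP_dd84fd_nt.L2G
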