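import Pool.Agent.Lib.MP_dd84fd_nt.L2G.Block
import Pool.Agent.Lib.MP_dd84fd_nt.L2G.CvBasic
import Pool.Agent.Lib.MP_67663b_nt.OddB.Mert

set_option autoImplicit false

namespace Pool.MP_dd84fd_nt.L2G

open Finset Pool.MP_67663b_nt.Odd

private theorem tt_psi (N : ℕ) :
    Chebyshev.psi N = ∑ a ∈ Ioc 0 N, ArithmeticFunction.vonMangoldt a := by
  unfold Chebyshev.psi
  rw [Nat.floor_natCast]

private theorem tt_theta (N : ℕ) :
    Chebyshev.theta N = ∑ a ∈ Ioc 0 N, if a.Prime then Real.log (a : ℝ) else 0 := by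
  unfold Chebyshev.theta
  rw [Nat.floor_natCast, sum_filter]

private theorem tt_prime_le (a : ℕ) :
    (if a.Prime then Real.log (a : ℝ) else 0) ≤ ArithmeticFunction.vonMangoldt a := by
  split_ifs with h
  · rw [ArithmeticFunction.vonMangoldt_apply_prime h]
  · exact ArithmeticFunction.vonMangoldt_nonneg

/-- prime powers contribute a bounded amount to `∑ Λ(a)/a` -/
private theorem tt_pp_sum : ∃ C : ℝ, 0 ≤ C ∧ ∀ N : ℕ,
    ∑ a ∈ Ioc 0 N, (ArithmeticFunction.vonMangoldt a -
      (if a.Prime then Real.log (a : ℝ) else 0)) / a ≤ C := by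
  obtain ⟨C0, hC0⟩ := Chebyshev.psi_sub_theta_le_mul_sqrt
  set C : ℝ := max C0 0 with hC
  have hCnn : 0 ≤ C := le_max_right _ _
  set e : ℕ → ℝ := fun a => ArithmeticFunction.vonMangoldt a -
      (if a.Prime then Real.log (a : ℝ) else 0) with he
  have hE : ∀ N : ℕ, ∑ a ∈ Ioc 0 N, e a ≤ C * Real.sqrt N := by
    intro N
    have h1 : ∑ a ∈ Ioc 0 N, e a = Chebyshev.psi N - Chebyshev.theta N := by
      rw [tt_psi, tt_theta, ← sum_sub_distrib]
    rw [h1]
    exact (hC0 N).trans (mul_le_mul_of_nonneg_right (le_max_left _ _) (Real.sqrt_nonneg _))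
  have key : ∀ N : ℕ, 1 ≤ N → ∑ a ∈ Ioc 0 N, e a / a ≤
      (∑ a ∈ Ioc 0 N, e a) / N + 2 * C * (1 - 1 / Real.sqrt N) := by
    intro N hN
    induction N, hN using Nat.le_induction with
    | base => simp
    | succ N hN ih =>
      have hN0 : (0 : ℝ) < N := by exact_mod_cast hN
      have hI : Ioc 0 (N + 1) = insert (N + 1) (Ioc 0 N) := by
        ext a
        simp only [mem_Ioc, mem_insert]
        omega
      have hni : N + 1 ∉ Ioc 0 N := by simp
      rw [hI, sum_insert hni, sum_insert hni]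
      set E := ∑ a ∈ Ioc 0 N, e a with hEdef
      have hEN := hE N
      rw [← hEdef] at hEN
      push_cast
      set s := Real.sqrt (N : ℝ) with hs
      set t := Real.sqrt ((N : ℝ) + 1) with ht
      have hs2 : s ^ 2 = N := Real.sq_sqrt hN0.le
      have ht2 : t ^ 2 = (N : ℝ) + 1 := Real.sq_sqrt (by positivity)
      have hs0 : 0 < s := Real.sqrt_pos.2 hN0
      have ht0 : 0 < t := Real.sqrt_pos.2 (by positivity)
      have h1 : E / N - E / (N + 1) ≤ 2 * C * (1 / s - 1 / t) := by
        have h2 : E / N - E / (N + 1) = E * (1 / (s ^ 2 * t ^ 2)) := by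
          rw [hs2, ht2]
          field_simp
          ring
        have h3 : 1 / (s * t ^ 2) ≤ 2 * (1 / s - 1 / t) := by
          rw [div_sub_div _ _ hs0.ne' ht0.ne', mul_div_assoc', div_le_div_iff₀ (by positivity)
            (by positivity)]
          have h4 : 1 ≤ 2 * t * (t - s) := by
            nlinarith [sq_nonneg (t - s)]
          have h5 : 0 < s * t := by positivity
          nlinarith [mul_le_mul_of_nonneg_left h4 h5.le]
        rw [h2]
        calc E * (1 / (s ^ 2 * t ^ 2)) ≤ (C * s) * (1 / (s ^ 2 * t ^ 2)) :=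
              mul_le_mul_of_nonneg_right hEN (by positivity)
          _ = C * (1 / (s * t ^ 2)) := by
              field_simp
          _ ≤ C * (2 * (1 / s - 1 / t)) := mul_le_mul_of_nonneg_left h3 hCnn
          _ = _ := by ring
      have h6 : (e (N + 1) + E) / ((N : ℝ) + 1) = e (N + 1) / ((N : ℝ) + 1) + E / (N + 1) := by
        ring
      rw [h6]
      have h7 : 2 * C * (1 - 1 / s) + 2 * C * (1 / s - 1 / t) = 2 * C * (1 - 1 / t) := by ring
      linarith
  refine ⟨3 * C, by positivity, ?_⟩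
  intro N
  rcases Nat.eq_zero_or_pos N with rfl | hN
  · simp
    exact hCnn
  · have hN1 : (1 : ℝ) ≤ N := by exact_mod_cast hN
    have h1 := key N hN
    have h2 : (∑ a ∈ Ioc 0 N, e a) / N ≤ C := by
      rw [div_le_iff₀ (by linarith)]
      refine (hE N).trans (mul_le_mul_of_nonneg_left ?_ hCnn)
      rw [Real.sqrt_le_left (by linarith)]
      nlinarith
    have h3 : 2 * C * (1 - 1 / Real.sqrt N) ≤ 2 * C := by
      have : 0 ≤ 1 / Real.sqrt N := by positivity
      nlinarith
    linarith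

/-- logarithm of the large primes -/
private noncomputable def ttL (N0 a : ℕ) : ℝ := if a.Prime ∧ N0 ≤ a then Real.log (a : ℝ) else 0

private theorem ttL_nonneg (N0 a : ℕ) : 0 ≤ ttL N0 a := by
  unfold ttL
  split_ifs with h
  · exact Real.log_natCast_nonneg a
  · exact le_rfl

private theorem ttL_le (N0 a : ℕ) : ttL N0 a ≤ ArithmeticFunction.vonMangoldt a := by
  refine le_trans ?_ (tt_prime_le a)
  unfold ttL
  by_cases h : a.Prime
  · rw [if_pos h]
    split_ifs
    · exact le_rfl
    · exact Real.log_natCast_nonneg a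
  · rw [if_neg h, if_neg (fun h' => h h'.1)]

private theorem tt_kappa : ∃ C : ℝ, 0 ≤ C ∧ ∀ N0 N : ℕ, 1 ≤ N0 →
    ∑ a ∈ Ioc 0 N, (ArithmeticFunction.vonMangoldt a - ttL N0 a) / a ≤
      C + Real.log N0 + Real.log 4 := by
  obtain ⟨C, hC, h⟩ := tt_pp_sum
  refine ⟨C, hC, ?_⟩
  intro N0 N hN0
  have h1 : ∑ a ∈ Ioc 0 N, (ArithmeticFunction.vonMangoldt a - ttL N0 a) / (a : ℝ) =
      ∑ a ∈ Ioc 0 N, (ArithmeticFunction.vonMangoldt a -
        (if a.Prime then Real.log (a : ℝ) else 0)) / (a : ℝ) +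
      ∑ a ∈ Ioc 0 N, (if a.Prime ∧ a < N0 then Real.log (a : ℝ) / a else 0) := by
    rw [← sum_add_distrib]
    apply sum_congr rfl
    intro a _
    unfold ttL
    by_cases hp : a.Prime
    · by_cases hN : N0 ≤ a
      · have : ¬ a < N0 := by omega
        simp [hp, hN, this]
      · have : a < N0 := by omega
        simp [hp, hN, this]
        ring
    · simp [hp]
  have h2 : ∑ a ∈ Ioc 0 N, (if a.Prime ∧ a < N0 then Real.log (a : ℝ) / a else 0) ≤
      Real.log N0 + Real.log 4 := by
    refine le_trans ?_ (Pool.MP_67663b_nt.Mert.log_sum_le N0 hN0)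
    rw [← sum_filter]
    apply sum_le_sum_of_subset_of_nonneg
    · intro p hp
      rw [mem_filter] at hp
      rw [Nat.mem_primesLE]
      exact ⟨hp.2.2.le, hp.2.1⟩
    · intro p _ _
      exact div_nonneg (Real.log_natCast_nonneg p) (Nat.cast_nonneg p)
  rw [h1]
  have := h N
  linarith

/-- bilinear sums over `ab ≤ X`. -/
private noncomputable def ttS (X M : ℕ) (θ : ℝ) (u v : ℕ → ℝ) : ℂ :=
  ∑ a ∈ Ico 1 M, ∑ b ∈ Ico 1 M,
    if a * b ≤ X then ((u a * v b : ℝ) : ℂ) * ee (((a * b : ℕ) : ℝ) * θ) else 0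

private theorem tt_pair (X M : ℕ) (hM : X < M) (θ : ℝ) :
    ∑ n ∈ Icc 1 X, (((ArithmeticFunction.vonMangoldt * ArithmeticFunction.vonMangoldt) n : ℝ) : ℂ) *
      ee (n * θ) = ttS X M θ (fun a => ArithmeticFunction.vonMangoldt a)
        (fun a => ArithmeticFunction.vonMangoldt a) := by
  set P := ((Ico 1 M) ×ˢ (Ico 1 M)).filter (fun x => x.1 * x.2 ≤ X) with hP
  set G : ℕ × ℕ → ℂ := fun x => ((ArithmeticFunction.vonMangoldt x.1 *
    ArithmeticFunction.vonMangoldt x.2 : ℝ) : ℂ) * ee (((x.1 * x.2 : ℕ) : ℝ) * θ) with hG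
  have h1 : ttS X M θ (fun a => ArithmeticFunction.vonMangoldt a)
        (fun a => ArithmeticFunction.vonMangoldt a) = ∑ x ∈ P, G x := by
    unfold ttS
    rw [hP, sum_filter, sum_product]
  have h2 : ∑ x ∈ P, G x = ∑ n ∈ Icc 1 X, ∑ x ∈ P.filter (fun x => x.1 * x.2 = n), G x := by
    rw [sum_fiberwise_of_maps_to]
    intro x hx
    rw [hP, mem_filter, mem_product, mem_Ico, mem_Ico] at hx
    rw [mem_Icc]
    exact ⟨Nat.mul_pos hx.1.1.1 hx.1.2.1, hx.2⟩
  rw [h1, h2]
  apply sum_congr rfl
  intro n hn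
  rw [mem_Icc] at hn
  have h3 : P.filter (fun x => x.1 * x.2 = n) = n.divisorsAntidiagonal := by
    ext ⟨a, b⟩
    rw [mem_filter, hP, mem_filter, mem_product, mem_Ico, mem_Ico,
      Nat.mem_divisorsAntidiagonal]
    simp only
    constructor
    · rintro ⟨_, h⟩
      exact ⟨h, by omega⟩
    · rintro ⟨h, _⟩
      have ha : 1 ≤ a := Nat.pos_of_ne_zero (by rintro rfl; simp at h; omega)
      have hb : 1 ≤ b := Nat.pos_of_ne_zero (by rintro rfl; simp at h; omega)
      have ha2 : a ≤ n := by rw [← h]; exact Nat.le_mul_of_pos_right a hb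
      have hb2 : b ≤ n := by rw [← h]; exact Nat.le_mul_of_pos_left b ha
      exact ⟨⟨⟨⟨ha, by omega⟩, hb, by omega⟩, by omega⟩, h⟩
  rw [h3, ArithmeticFunction.mul_apply]
  push_cast
  rw [sum_mul]
  apply sum_congr rfl
  intro x hx
  rw [Nat.mem_divisorsAntidiagonal] at hx
  rw [hG]
  simp only
  rw [hx.1]
  push_cast
  ring

private theorem tt_diff (X M N0 : ℕ) (θ : ℝ) :
    ‖ttS X M θ (fun a => ArithmeticFunction.vonMangoldt a)
        (fun a => ArithmeticFunction.vonMangoldt a) - ttS X M θ (ttL N0) (ttL N0)‖ ≤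
      2 * ((Real.log 4 + 4) * X * ∑ a ∈ Ico 1 M,
        (ArithmeticFunction.vonMangoldt a - ttL N0 a) / a) := by
  have hsum : ∀ a ∈ Ico 1 M, ∑ b ∈ Ico 1 M, (if a * b ≤ X then
      ArithmeticFunction.vonMangoldt b else 0) ≤ (Real.log 4 + 4) * (X / a) := by
    intro a ha
    rw [mem_Ico] at ha
    have ha0 : (0 : ℝ) < a := by exact_mod_cast ha.1
    rw [← sum_filter]
    refine le_trans ?_ (Chebyshev.psi_le_const_mul_self (x := (X : ℝ) / a) (by positivity))
    unfold Chebyshev.psi
    apply sum_le_sum_of_subset_of_nonneg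
    · intro b hb
      rw [mem_filter, mem_Ico] at hb
      rw [mem_Ioc]
      refine ⟨hb.1.1, Nat.le_floor ?_⟩
      rw [le_div_iff₀ ha0]
      have := hb.2
      rw [mul_comm] at this
      exact_mod_cast this
    · intro b _ _
      exact ArithmeticFunction.vonMangoldt_nonneg
  have h1 : ‖ttS X M θ (fun a => ArithmeticFunction.vonMangoldt a)
        (fun a => ArithmeticFunction.vonMangoldt a) - ttS X M θ (ttL N0) (ttL N0)‖ ≤
      ∑ a ∈ Ico 1 M, ∑ b ∈ Ico 1 M, ((if a * b ≤ X then
        (ArithmeticFunction.vonMangoldt a - ttL N0 a) * ArithmeticFunction.vonMangoldt b else 0) +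
        (if a * b ≤ X then
        (ArithmeticFunction.vonMangoldt b - ttL N0 b) * ArithmeticFunction.vonMangoldt a
          else 0)) := by
    unfold ttS
    rw [← sum_sub_distrib]
    refine (norm_sum_le _ _).trans (sum_le_sum (fun a _ => ?_))
    rw [← sum_sub_distrib]
    refine (norm_sum_le _ _).trans (sum_le_sum (fun b _ => ?_))
    split_ifs with h
    · rw [← sub_mul, norm_mul, norm_ee, mul_one, ← Complex.ofReal_sub, Complex.norm_real,
        Real.norm_eq_abs]
      have ha := ttL_le N0 a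
      have hb := ttL_le N0 b
      have ha0 := ttL_nonneg N0 a
      have hb0 := ttL_nonneg N0 b
      rw [abs_of_nonneg (sub_nonneg.2 (mul_le_mul ha hb hb0 (ha0.trans ha)))]
      nlinarith [mul_nonneg (sub_nonneg.2 ha) (sub_nonneg.2 hb)]
    · simp
  refine h1.trans ?_
  have h2 : ∑ a ∈ Ico 1 M, ∑ b ∈ Ico 1 M, ((if a * b ≤ X then
        (ArithmeticFunction.vonMangoldt a - ttL N0 a) * ArithmeticFunction.vonMangoldt b else 0) +
        (if a * b ≤ X then
        (ArithmeticFunction.vonMangoldt b - ttL N0 b) * ArithmeticFunction.vonMangoldt a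
          else 0)) =
      2 * ∑ a ∈ Ico 1 M, ∑ b ∈ Ico 1 M, (if a * b ≤ X then
        (ArithmeticFunction.vonMangoldt a - ttL N0 a) * ArithmeticFunction.vonMangoldt b
          else 0) := by
    simp only [sum_add_distrib]
    rw [two_mul]
    congr 1
    rw [sum_comm]
    apply sum_congr rfl
    intro b _
    apply sum_congr rfl
    intro a _
    rw [mul_comm a b]
  rw [h2]
  apply mul_le_mul_of_nonneg_left _ (by norm_num)
  rw [mul_sum]
  apply sum_le_sum
  intro a ha
  have h3 : ∑ b ∈ Ico 1 M, (if a * b ≤ X then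
        (ArithmeticFunction.vonMangoldt a - ttL N0 a) * ArithmeticFunction.vonMangoldt b else 0) =
      (ArithmeticFunction.vonMangoldt a - ttL N0 a) * ∑ b ∈ Ico 1 M, (if a * b ≤ X then
        ArithmeticFunction.vonMangoldt b else 0) := by
    rw [mul_sum]
    apply sum_congr rfl
    intro b _
    split_ifs
    · rfl
    · rw [mul_zero]
  rw [h3]
  calc (ArithmeticFunction.vonMangoldt a - ttL N0 a) * ∑ b ∈ Ico 1 M, (if a * b ≤ X then
        ArithmeticFunction.vonMangoldt b else 0) ≤
      (ArithmeticFunction.vonMangoldt a - ttL N0 a) * ((Real.log 4 + 4) * (X / a)) :=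
        mul_le_mul_of_nonneg_left (hsum a ha) (sub_nonneg.2 (ttL_le N0 a))
    _ = _ := by ring

private theorem tt_dyadic {E : Type*} [AddCommMonoid E] (f : ℕ → E) (n : ℕ) :
    ∑ a ∈ Ico 1 (2 ^ n), f a = ∑ i ∈ range n, ∑ a ∈ Ico (2 ^ i) (2 * 2 ^ i), f a := by
  induction n with
  | zero => simp
  | succ n ih =>
    rw [sum_range_succ, ← ih, pow_succ', sum_Ico_consecutive f Nat.one_le_two_pow (by omega)]

private theorem tt_S_dyadic (X n : ℕ) (θ : ℝ) (u v : ℕ → ℝ) :
    ttS X (2 ^ n) θ u v = ∑ i ∈ range n, ∑ j ∈ range n,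
      ∑ a ∈ Ico (2 ^ i) (2 * 2 ^ i), ∑ b ∈ Ico (2 ^ j) (2 * 2 ^ j),
        if a * b ≤ X then ((u a * v b : ℝ) : ℂ) * ee (((a * b : ℕ) : ℝ) * θ) else 0 := by
  unfold ttS
  rw [tt_dyadic]
  apply sum_congr rfl
  intro i _
  rw [sum_comm]
  rw [tt_dyadic]
  apply sum_congr rfl
  intro j _
  rw [sum_comm]

private theorem tt_mono {x X b : ℝ} (hx : 0 < x) (hxX : x ≤ X) (hb : 0 ≤ b) :
    x * Real.sqrt ((1 + Real.log (1 + x * b)) / (1 + x * b)) ≤
      Real.sqrt x * (Real.sqrt X * Real.sqrt ((1 + Real.log (1 + b * X)) / (1 + b * X))) := by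
  have hX : 0 < X := lt_of_lt_of_le hx hxX
  have hl1 : 0 ≤ Real.log (1 + x * b) := Real.log_nonneg (by nlinarith)
  have hl2 : Real.log (1 + x * b) ≤ Real.log (1 + b * X) := by
    apply Real.log_le_log (by positivity)
    nlinarith
  have h1 : x * ((1 + Real.log (1 + x * b)) / (1 + x * b)) ≤
      X * ((1 + Real.log (1 + b * X)) / (1 + b * X)) := by
    have h2 : x / (1 + x * b) ≤ X / (1 + b * X) := by
      rw [div_le_div_iff₀ (by positivity) (by positivity)]
      nlinarith
    calc x * ((1 + Real.log (1 + x * b)) / (1 + x * b)) =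
        x / (1 + x * b) * (1 + Real.log (1 + x * b)) := by ring
      _ ≤ X / (1 + b * X) * (1 + Real.log (1 + b * X)) :=
          mul_le_mul h2 (by linarith) (by linarith) (by positivity)
      _ = _ := by ring
  have h3 := Real.sqrt_le_sqrt h1
  rw [Real.sqrt_mul hx.le, Real.sqrt_mul hX.le] at h3
  calc x * Real.sqrt ((1 + Real.log (1 + x * b)) / (1 + x * b)) =
      Real.sqrt x * (Real.sqrt x * Real.sqrt ((1 + Real.log (1 + x * b)) / (1 + x * b))) := by
        rw [← mul_assoc, Real.mul_self_sqrt hx.le]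
    _ ≤ _ := mul_le_mul_of_nonneg_left h3 (Real.sqrt_nonneg _)

private theorem tt_geom (n : ℕ) :
    ∑ k ∈ range (n + 1), Real.sqrt ((2 : ℝ) ^ k) ≤ 4 * Real.sqrt ((2 : ℝ) ^ n) := by
  induction n with
  | zero => simp
  | succ n ih =>
    rw [sum_range_succ, pow_succ (2 : ℝ) n, Real.sqrt_mul (by positivity)]
    have h1 : 4 / 3 ≤ Real.sqrt 2 := by
      apply Real.le_sqrt_of_sq_le
      norm_num
    have h2 : 0 ≤ Real.sqrt ((2 : ℝ) ^ n) := Real.sqrt_nonneg _
    nlinarith

private theorem tt_geom2 (n : ℕ) : ∑ k ∈ range (n + 1), (2 : ℝ) ^ k ≤ 2 * 2 ^ n := by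
  induction n with
  | zero => simp
  | succ n ih =>
    rw [sum_range_succ, pow_succ (2 : ℝ) n]
    linarith

theorem t_two : ∃ C : ℝ, 0 < C ∧ ∀ B0 : ℕ, ∃ X0 : ℕ, ∀ X : ℕ, X0 ≤ X →
    ∀ (r : ℕ) (y : ℤ) (β : ℝ), 1 ≤ r → (r : ℝ) ≤ Real.log X ^ B0 →
    IsCoprime y (r : ℤ) → |β| ≤ Real.log X ^ B0 / X →
    ‖∑ n ∈ Icc 1 X, (((ArithmeticFunction.vonMangoldt * ArithmeticFunction.vonMangoldt) n : ℝ) : ℂ) *
      ee (n * (y / r + β))‖ ≤
      C * X * Real.log X * ((1 + Real.log (1 + Real.log r)) ^ 2 / Real.sqrt r *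
        Real.sqrt ((1 + Real.log (1 + |β| * X)) / (1 + |β| * X))) +
      C * X * Real.log (Real.log X) ^ 2 := by
  obtain ⟨C, hC, hblock⟩ := block
  obtain ⟨Ck, hCk, hkappa⟩ := tt_kappa
  have hlog4 : 0 ≤ Real.log 4 := Real.log_nonneg (by norm_num)
  refine ⟨8 * C + 4 * C + 2 * (Real.log 4 + 4) * (Ck + Real.log 2 + 1 + Real.log 4),
    by positivity, ?_⟩
  intro B0
  obtain ⟨C1, X1, hX1⟩ := hblock B0
  -- `log log X ≥ max 1 C1`, `log X ≥ 2`
  have hev : ∀ᶠ X : ℕ in Filter.atTop, (max 1 (C1 : ℝ)) ≤ Real.log (Real.log X) :=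
    (Real.tendsto_log_atTop.comp (Real.tendsto_log_atTop.comp
      tendsto_natCast_atTop_atTop)).eventually_ge_atTop _
  have hev2 : ∀ᶠ X : ℕ in Filter.atTop, 2 ≤ Real.log X :=
    (Real.tendsto_log_atTop.comp tendsto_natCast_atTop_atTop).eventually_ge_atTop _
  obtain ⟨X2, hX2⟩ := Filter.eventually_atTop.1 (hev.and hev2)
  refine ⟨max (max X1 X2) 1, ?_⟩
  intro X hX r y β hr hrL hyr hβ
  have hXX1 : X1 ≤ X := ((le_max_left _ _).trans (le_max_left _ _)).trans hX
  have hXX2 : X2 ≤ X := ((le_max_right _ _).trans (le_max_left _ _)).trans hX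
  have hXone : 1 ≤ X := (le_max_right _ _).trans hX
  obtain ⟨hLL, hL2⟩ := hX2 X hXX2
  have hX0 : (0 : ℝ) < X := by exact_mod_cast hXone
  set L := Real.log X with hL
  have hL0 : 0 < L := by linarith
  have hLL1 : 1 ≤ Real.log L := (le_max_left _ _).trans hLL
  have hLLC : (C1 : ℝ) ≤ Real.log L := (le_max_right _ _).trans hLL
  set θ : ℝ := y / r + β with hθ
  set b := |β| with hb
  have hb0 : 0 ≤ b := abs_nonneg β
  -- the parameter `N0 = 2 ^ i0`
  obtain ⟨i1, hi1a, hi1b⟩ := exists_nat_pow_near (x := L ^ C1) (y := 2)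
    (one_le_pow₀ (by linarith)) (by norm_num)
  set i0 := i1 + 1 with hi0
  set K := Nat.log 2 X with hK
  have hK1 : 2 ^ K ≤ X := Nat.pow_log_le_self 2 (by omega)
  have hK2 : X < 2 ^ (K + 1) := Nat.lt_pow_succ_log_self (by norm_num) X
  rw [tt_pair X (2 ^ (K + 1)) hK2 θ]
  have hdiff := tt_diff X (2 ^ (K + 1)) (2 ^ i0) θ
  have hIco : Ico 1 (2 ^ (K + 1)) = Ioc 0 (2 ^ (K + 1) - 1) := by
    ext a
    simp only [mem_Ico, mem_Ioc]
    have : 1 ≤ 2 ^ (K + 1) := Nat.one_le_two_pow
    omega
  rw [hIco] at hdiff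
  have hkap := hkappa (2 ^ i0) (2 ^ (K + 1) - 1) Nat.one_le_two_pow
  have hlogN0 : Real.log ((2 ^ i0 : ℕ) : ℝ) ≤ Real.log 2 + C1 * Real.log L := by
    have h1 : ((2 ^ i0 : ℕ) : ℝ) ≤ 2 * L ^ C1 := by
      push_cast
      rw [hi0, pow_succ]
      linarith
    have h2 := Real.log_le_log (by positivity) h1
    rw [Real.log_mul (by norm_num) (by positivity), Real.log_pow] at h2
    exact h2
  -- the main part
  set M0 := (1 + Real.log (1 + Real.log r)) ^ 2 / Real.sqrt r with hM0
  have hM00 : 0 ≤ M0 := by positivity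
  set h : ℝ → ℝ := fun x => Real.sqrt ((1 + Real.log (1 + x * b)) / (1 + x * b)) with hh
  set HX := Real.sqrt ((1 + Real.log (1 + b * X)) / (1 + b * X)) with hHX
  have hHX0 : 0 ≤ HX := Real.sqrt_nonneg _
  have hmain : ‖ttS X (2 ^ (K + 1)) θ (ttL (2 ^ i0)) (ttL (2 ^ i0))‖ ≤
      8 * C * X * L * (M0 * HX) + 4 * C * X := by
    rw [tt_S_dyadic]
    set φ : ℕ → ℝ := fun k => C * 2 ^ k * (M0 * h (2 ^ k)) + C * 2 ^ k / L ^ 2 with hφ
    have hφ0 : ∀ k, 0 ≤ φ k := by
      intro k
      simp only [hφ, hh]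
      positivity
    have hbl : ∀ i ∈ range (K + 1), ∀ j ∈ range (K + 1),
        ‖∑ a ∈ Ico (2 ^ i) (2 * 2 ^ i), ∑ b ∈ Ico (2 ^ j) (2 * 2 ^ j),
          if a * b ≤ X then ((ttL (2 ^ i0) a * ttL (2 ^ i0) b : ℝ) : ℂ) *
            ee (((a * b : ℕ) : ℝ) * θ) else 0‖ ≤ if i + j ≤ K then φ (i + j) else 0 := by
      intro i _ j _
      by_cases hij : i + j ≤ K
      · rw [if_pos hij]
        by_cases hi : i < i0
        · have : ∑ a ∈ Ico (2 ^ i) (2 * 2 ^ i), ∑ b ∈ Ico (2 ^ j) (2 * 2 ^ j),
              (if a * b ≤ X then ((ttL (2 ^ i0) a * ttL (2 ^ i0) b : ℝ) : ℂ) *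
                ee (((a * b : ℕ) : ℝ) * θ) else 0) = 0 := by
            apply sum_eq_zero
            intro a ha
            apply sum_eq_zero
            intro b _
            rw [mem_Ico] at ha
            have h1 : 2 * 2 ^ i ≤ 2 ^ i0 := by
              rw [← pow_succ']
              exact Nat.pow_le_pow_right (by norm_num) hi
            have h2 : ttL (2 ^ i0) a = 0 := by
              unfold ttL
              rw [if_neg]
              rintro ⟨_, h3⟩
              omega
            rw [h2]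
            simp
          rw [this, norm_zero]
          exact hφ0 _
        · by_cases hj : j < i0
          · have : ∑ a ∈ Ico (2 ^ i) (2 * 2 ^ i), ∑ b ∈ Ico (2 ^ j) (2 * 2 ^ j),
                (if a * b ≤ X then ((ttL (2 ^ i0) a * ttL (2 ^ i0) b : ℝ) : ℂ) *
                  ee (((a * b : ℕ) : ℝ) * θ) else 0) = 0 := by
              apply sum_eq_zero
              intro a _
              apply sum_eq_zero
              intro b hb'
              rw [mem_Ico] at hb'
              have h1 : 2 * 2 ^ j ≤ 2 ^ i0 := by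
                rw [← pow_succ']
                exact Nat.pow_le_pow_right (by norm_num) hj
              have h2 : ttL (2 ^ i0) b = 0 := by
                unfold ttL
                rw [if_neg]
                rintro ⟨_, h3⟩
                omega
              rw [h2]
              simp
            rw [this, norm_zero]
            exact hφ0 _
          · push Not at hi hj
            have hA : ∀ k : ℕ, i0 ≤ k → L ^ C1 ≤ ((2 ^ k : ℕ) : ℝ) := by
              intro k hk
              push_cast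
              exact hi1b.le.trans (pow_le_pow_right₀ (by norm_num) hk)
            have h2ij : (2 ^ i : ℕ) * 2 ^ j ≤ X := by
              rw [← pow_add]
              exact (Nat.pow_le_pow_right (by norm_num) hij).trans hK1
            have hbk := hX1 X hXX1 r y β (2 ^ i) (2 ^ j) hr hrL hyr hβ (hA i hi) (hA j hj) h2ij
            have hEq : ∑ a ∈ Ico (2 ^ i) (2 * 2 ^ i), ∑ b ∈ Ico (2 ^ j) (2 * 2 ^ j),
                (if a * b ≤ X then ((ttL (2 ^ i0) a * ttL (2 ^ i0) b : ℝ) : ℂ) *
                  ee (((a * b : ℕ) : ℝ) * θ) else 0) =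
                ∑ a ∈ (Ico (2 ^ i) (2 * 2 ^ i)).filter Nat.Prime,
                  ∑ b ∈ (Ico (2 ^ j) (2 * 2 ^ j)).filter Nat.Prime,
                  if a * b ≤ X then ((Real.log a * Real.log b : ℝ) : ℂ) *
                    ee (((a * b : ℕ) : ℝ) * θ) else 0 := by
              rw [sum_filter]
              apply sum_congr rfl
              intro a ha
              rw [mem_Ico] at ha
              have h1 : 2 ^ i0 ≤ a :=
                (Nat.pow_le_pow_right (by norm_num) hi).trans ha.1
              split_ifs with hap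
              · rw [sum_filter]
                apply sum_congr rfl
                intro b hb'
                rw [mem_Ico] at hb'
                have h2 : 2 ^ i0 ≤ b :=
                  (Nat.pow_le_pow_right (by norm_num) hj).trans hb'.1
                by_cases hbp : b.Prime
                · have e1 : ttL (2 ^ i0) a = Real.log a := if_pos ⟨hap, h1⟩
                  have e2 : ttL (2 ^ i0) b = Real.log b := if_pos ⟨hbp, h2⟩
                  rw [e1, e2, if_pos hbp]
                · have e2 : ttL (2 ^ i0) b = 0 :=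
                    if_neg (fun h' : b.Prime ∧ 2 ^ i0 ≤ b => hbp h'.1)
                  rw [e2, if_neg hbp]
                  simp
              · apply sum_eq_zero
                intro b _
                have h2 : ttL (2 ^ i0) a = 0 := by
                  unfold ttL
                  rw [if_neg (fun h' : a.Prime ∧ 2 ^ i0 ≤ a => hap h'.1)]
                rw [h2]
                simp
            rw [hEq]
            refine hbk.trans (le_of_eq ?_)
            simp only [hφ, hh]
            push_cast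
            rw [pow_add]
      · rw [if_neg hij]
        have : ∑ a ∈ Ico (2 ^ i) (2 * 2 ^ i), ∑ b ∈ Ico (2 ^ j) (2 * 2 ^ j),
            (if a * b ≤ X then ((ttL (2 ^ i0) a * ttL (2 ^ i0) b : ℝ) : ℂ) *
              ee (((a * b : ℕ) : ℝ) * θ) else 0) = 0 := by
          apply sum_eq_zero
          intro a ha
          apply sum_eq_zero
          intro b hb'
          rw [mem_Ico] at ha hb'
          rw [if_neg]
          intro hab
          have h1 : 2 ^ (K + 1) ≤ a * b := by
            calc 2 ^ (K + 1) ≤ 2 ^ (i + j) := Nat.pow_le_pow_right (by norm_num) (by omega)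
              _ = 2 ^ i * 2 ^ j := pow_add _ _ _
              _ ≤ a * b := Nat.mul_le_mul ha.1 hb'.1
          omega
        rw [this, norm_zero]
    have hsum1 : ‖∑ i ∈ range (K + 1), ∑ j ∈ range (K + 1),
        ∑ a ∈ Ico (2 ^ i) (2 * 2 ^ i), ∑ b ∈ Ico (2 ^ j) (2 * 2 ^ j),
          (if a * b ≤ X then ((ttL (2 ^ i0) a * ttL (2 ^ i0) b : ℝ) : ℂ) *
            ee (((a * b : ℕ) : ℝ) * θ) else 0)‖ ≤
        ((K : ℝ) + 1) * ∑ k ∈ range (K + 1), φ k := by
      calc _ ≤ ∑ i ∈ range (K + 1), ∑ j ∈ range (K + 1), (if i + j ≤ K then φ (i + j) else 0) := by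
            refine (norm_sum_le _ _).trans (sum_le_sum (fun i hi => ?_))
            exact (norm_sum_le _ _).trans (sum_le_sum (fun j hj => hbl i hi j hj))
        _ ≤ ∑ _i ∈ range (K + 1), ∑ k ∈ range (K + 1), φ k := by
            apply sum_le_sum
            intro i _
            rw [← sum_filter]
            have hinj : Set.InjOn (fun j => i + j)
                (((range (K + 1)).filter (fun j => i + j ≤ K) : Finset ℕ) : Set ℕ) := by
              intro a _ b _ hab
              simp only at hab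
              omega
            rw [← sum_image (f := φ) (g := fun j => i + j) hinj]
            apply sum_le_sum_of_subset_of_nonneg
            · intro k hk
              rw [mem_image] at hk
              obtain ⟨j, hj, rfl⟩ := hk
              rw [mem_filter] at hj
              rw [mem_range]
              omega
            · intro k _ _
              exact hφ0 k
        _ = _ := by
            rw [sum_const, card_range, nsmul_eq_mul]
            push_cast
            ring
    refine hsum1.trans ?_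
    have hKX : (2 : ℝ) ^ K ≤ X := by exact_mod_cast hK1
    have hsum2 : ∑ k ∈ range (K + 1), φ k ≤ 4 * C * X * (M0 * HX) + 2 * C * X / L ^ 2 := by
      simp only [hφ]
      rw [sum_add_distrib]
      apply add_le_add
      · calc ∑ k ∈ range (K + 1), C * 2 ^ k * (M0 * h (2 ^ k)) =
            C * M0 * ∑ k ∈ range (K + 1), (2 : ℝ) ^ k * h (2 ^ k) := by
              rw [mul_sum]
              apply sum_congr rfl
              intro k _
              ring
          _ ≤ C * M0 * ∑ k ∈ range (K + 1), Real.sqrt ((2 : ℝ) ^ k) * (Real.sqrt X * HX) := by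
              apply mul_le_mul_of_nonneg_left _ (by positivity)
              apply sum_le_sum
              intro k hk
              rw [mem_range] at hk
              apply tt_mono (by positivity) _ hb0
              exact (pow_le_pow_right₀ (by norm_num) (by omega)).trans hKX
          _ = C * M0 * (Real.sqrt X * HX) * ∑ k ∈ range (K + 1), Real.sqrt ((2 : ℝ) ^ k) := by
              rw [← sum_mul]
              ring
          _ ≤ C * M0 * (Real.sqrt X * HX) * (4 * Real.sqrt X) := by
              apply mul_le_mul_of_nonneg_left _ (by positivity)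
              exact (tt_geom K).trans
                (mul_le_mul_of_nonneg_left (Real.sqrt_le_sqrt hKX) (by norm_num))
          _ = 4 * C * (Real.sqrt X * Real.sqrt X) * (M0 * HX) := by ring
          _ = _ := by rw [Real.mul_self_sqrt hX0.le]
      · calc ∑ k ∈ range (K + 1), C * 2 ^ k / L ^ 2 =
            C / L ^ 2 * ∑ k ∈ range (K + 1), (2 : ℝ) ^ k := by
              rw [mul_sum]
              apply sum_congr rfl
              intro k _
              ring
          _ ≤ C / L ^ 2 * (2 * X) := by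
              apply mul_le_mul_of_nonneg_left _ (by positivity)
              exact (tt_geom2 K).trans (mul_le_mul_of_nonneg_left hKX (by norm_num))
          _ = _ := by ring
    have hKL : (K : ℝ) + 1 ≤ 2 * L := by
      have h1 := Real.log_le_log (by positivity) hKX
      rw [Real.log_pow] at h1
      have h2 := Real.log_two_gt_d9
      have h3 : (0 : ℝ) ≤ K := Nat.cast_nonneg K
      nlinarith
    calc ((K : ℝ) + 1) * ∑ k ∈ range (K + 1), φ k ≤
        2 * L * (4 * C * X * (M0 * HX) + 2 * C * X / L ^ 2) := by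
          apply mul_le_mul hKL hsum2 (sum_nonneg (fun k _ => hφ0 k)) (by positivity)
      _ = 8 * C * X * L * (M0 * HX) + 4 * C * X / L := by
          field_simp
          ring
      _ ≤ _ := by
          have : 4 * C * X / L ≤ 4 * C * X := div_le_self (by positivity) (by linarith)
          linarith
  -- conclusion
  have hkap0 : 0 ≤ Ck + (Real.log 2 + C1 * Real.log L) + Real.log 4 := by positivity
  have hdiff2 : ‖ttS X (2 ^ (K + 1)) θ (fun a => ArithmeticFunction.vonMangoldt a)
        (fun a => ArithmeticFunction.vonMangoldt a) -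
        ttS X (2 ^ (K + 1)) θ (ttL (2 ^ i0)) (ttL (2 ^ i0))‖ ≤
      2 * ((Real.log 4 + 4) * X * (Ck + (Real.log 2 + C1 * Real.log L) + Real.log 4)) := by
    refine hdiff.trans ?_
    apply mul_le_mul_of_nonneg_left _ (by norm_num)
    apply mul_le_mul_of_nonneg_left _ (by positivity)
    linarith
  have htri : ‖ttS X (2 ^ (K + 1)) θ (fun a => ArithmeticFunction.vonMangoldt a)
        (fun a => ArithmeticFunction.vonMangoldt a)‖ ≤
      ‖ttS X (2 ^ (K + 1)) θ (fun a => ArithmeticFunction.vonMangoldt a)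
        (fun a => ArithmeticFunction.vonMangoldt a) -
        ttS X (2 ^ (K + 1)) θ (ttL (2 ^ i0)) (ttL (2 ^ i0))‖ +
      ‖ttS X (2 ^ (K + 1)) θ (ttL (2 ^ i0)) (ttL (2 ^ i0))‖ := by
    have := norm_add_le (ttS X (2 ^ (K + 1)) θ (fun a => ArithmeticFunction.vonMangoldt a)
        (fun a => ArithmeticFunction.vonMangoldt a) -
        ttS X (2 ^ (K + 1)) θ (ttL (2 ^ i0)) (ttL (2 ^ i0)))
        (ttS X (2 ^ (K + 1)) θ (ttL (2 ^ i0)) (ttL (2 ^ i0)))
    rwa [sub_add_cancel] at this
  refine htri.trans ((add_le_add hdiff2 hmain).trans ?_)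
  have hlog2 : 0 ≤ Real.log 2 := Real.log_nonneg (by norm_num)
  set LL := Real.log L with hLLdef
  have hLLsq : 1 ≤ LL ^ 2 := one_le_pow₀ hLL1
  have hC1LL : (C1 : ℝ) * LL ≤ LL ^ 2 := by
    rw [pow_two]
    exact mul_le_mul_of_nonneg_right hLLC (by linarith)
  have h1 : Ck + (Real.log 2 + C1 * LL) + Real.log 4 ≤
      (Ck + Real.log 2 + 1 + Real.log 4) * LL ^ 2 := by
    nlinarith [mul_nonneg hCk (sub_nonneg.2 hLLsq), mul_nonneg hlog2 (sub_nonneg.2 hLLsq),
      mul_nonneg hlog4 (sub_nonneg.2 hLLsq)]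
  have h2 : 2 * ((Real.log 4 + 4) * X * (Ck + (Real.log 2 + C1 * LL) + Real.log 4)) ≤
      2 * (Real.log 4 + 4) * (Ck + Real.log 2 + 1 + Real.log 4) * X * LL ^ 2 := by
    have h3 : 0 ≤ 2 * (Real.log 4 + 4) * X := by positivity
    have := mul_le_mul_of_nonneg_left h1 h3
    linarith
  have h4 : 4 * C * X ≤ 4 * C * X * LL ^ 2 := le_mul_of_one_le_right (by positivity) hLLsq
  have h5 : 0 ≤ 8 * C * X * LL ^ 2 := by positivity
  have h6 : 0 ≤ (4 * C + 2 * (Real.log 4 + 4) * (Ck + Real.log 2 + 1 + Real.log 4)) * X * L *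
      (M0 * HX) := by positivity
  have e1 : (8 * C + 4 * C + 2 * (Real.log 4 + 4) * (Ck + Real.log 2 + 1 + Real.log 4)) * X * L *
      (M0 * HX) = 8 * C * X * L * (M0 * HX) +
      (4 * C + 2 * (Real.log 4 + 4) * (Ck + Real.log 2 + 1 + Real.log 4)) * X * L *
      (M0 * HX) := by ring
  have e2 : (8 * C + 4 * C + 2 * (Real.log 4 + 4) * (Ck + Real.log 2 + 1 + Real.log 4)) * X *
      LL ^ 2 = 8 * C * X * LL ^ 2 + 4 * C * X * LL ^ 2 +
      2 * (Real.log 4 + 4) * (Ck + Real.log 2 + 1 + Real.log 4) * X * LL ^ 2 := by ring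
  rw [e1, e2]
  linarith

end Pool.MP_dd84fd_nt.L2G
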