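import Pool.Agent.Lib.MP_dd84fd_nt.L2G.T2L2
import Pool.Agent.Lib.MP_dd84fd_nt.L2G.GHL
import Pool.Agent.Lib.MP_dd84fd_nt.L2G.NuNN

set_option autoImplicit false

namespace Pool.MP_dd84fd_nt.L2G

open Finset Pool.MP_67663b_nt.Odd

private theorem TwoFinal_ev (m : ℕ) (s c : ℝ) (hs : 0 < s) (hc : 0 < c) :
    ∀ᶠ X : ℕ in Filter.atTop, Real.log X ^ m ≤ c * (X : ℝ) ^ s := by
  have h1 := (isLittleO_log_rpow_rpow_atTop (m : ℝ) hs).bound hc
  have h2 : ∀ᶠ x : ℝ in Filter.atTop, Real.log x ^ m ≤ c * x ^ s := by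
    filter_upwards [h1, Filter.eventually_ge_atTop (1 : ℝ)] with x hx hx1
    rw [Real.rpow_natCast, Real.norm_of_nonneg (pow_nonneg (Real.log_nonneg hx1) _),
      Real.norm_of_nonneg (Real.rpow_nonneg (by linarith) _)] at hx
    exact hx
  exact tendsto_natCast_atTop_atTop.eventually h2

private theorem TwoFinal_count (q a : ℕ) (hq : 1 ≤ q) (Z : ℝ) (hZ : 0 ≤ Z) :
    (((range (⌊Z⌋₊ + 1)).filter (fun n => n ≡ a [MOD q])).card : ℝ) ≤ Z / q + 2 := by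
  have hq0 : (0 : ℝ) < q := by exact_mod_cast hq
  have h1 : ((range (⌊Z⌋₊ + 1)).filter (fun n => n ≡ a [MOD q])).card =
      (⌊Z⌋₊ + 1).count (· ≡ a [MOD q]) := (Nat.count_eq_card_filter_range _ _).symm
  rw [h1, Nat.count_modEq_card _ (by omega)]
  have h2 : (((⌊Z⌋₊ + 1) / q : ℕ) : ℝ) ≤ (Z + 1) / q := by
    refine Nat.cast_div_le.trans ?_
    have := Nat.floor_le hZ
    push_cast
    gcongr
  have h3 : (((if a % q < (⌊Z⌋₊ + 1) % q then 1 else 0 : ℕ)) : ℝ) ≤ 1 := by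
    split_ifs <;> norm_num
  have h4 : (Z + 1) / q ≤ Z / q + 1 := by
    rw [add_div]
    have : 1 / (q : ℝ) ≤ 1 := by
      rw [div_le_one hq0]
      exact_mod_cast hq
    linarith
  push_cast at h2 h3 ⊢
  linarith

theorem t2 (ε₀ : ℝ) (hε₀ : 0 < ε₀) (ε : ℝ) (hε : 0 < ε) (A K : ℕ) : ∃ X0 : ℕ, ∀ X : ℕ, X0 ≤ X →
    ∀ q : ℕ, 1 ≤ q → (q : ℝ) ≤ (X : ℝ) ^ (2 / 3 - ε₀) → ∀ a : ℕ,
    (Nat.gcd a q : ℝ) ≤ Real.log X ^ K →
    (((range (X + 1)).filter (fun n => Even n ∧ n ≡ a [MOD q] ∧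
      ε * Pool.MP_dd84fd_nt.En.HL n < |(Pool.MP_dd84fd_nt.En.g n : ℝ) -
        Pool.MP_dd84fd_nt.En.HL n|)).card : ℝ) ≤ X / (q * Real.log X ^ A) := by
  obtain ⟨η, hη, n0, hg⟩ := g_HL ε hε
  set ε₁ : ℝ := min ε₀ (1 / 2) with hε₁
  have hε₁0 : 0 < ε₁ := lt_min hε₀ (by norm_num)
  have hε₁1 : ε₁ < 1 := lt_of_le_of_lt (min_le_right _ _) (by norm_num)
  obtain ⟨X1, h1⟩ := t2_L2 ε₁ hε₁0 hε₁1 (3 * A + 5) K
  obtain ⟨X2, h2⟩ := nu_nn
  have hev : ∀ᶠ X : ℕ in Filter.atTop, max 4 (8 / η ^ 2) ≤ Real.log X :=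
    (Real.tendsto_log_atTop.comp tendsto_natCast_atTop_atTop).eventually_ge_atTop _
  have hev2 := TwoFinal_ev (A + 2) 1 (1 / ((n0 : ℝ) + 1)) one_pos (by positivity)
  have hev3 := TwoFinal_ev (A + 2) (1 / 300) (η / 2) (by norm_num) (by positivity)
  have hev4 := TwoFinal_ev A (1 / 3) (1 / 8) (by norm_num) (by norm_num)
  obtain ⟨X3, hX3⟩ := Filter.eventually_atTop.1 (hev.and (hev2.and (hev3.and hev4)))
  refine ⟨max (max X1 X2) (max X3 2), ?_⟩
  intro X hX q hq1 hq a ha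
  have hXa : X1 ≤ X := (le_max_left _ _).trans ((le_max_left _ _).trans hX)
  have hXb : X2 ≤ X := (le_max_right _ _).trans ((le_max_left _ _).trans hX)
  have hXc : X3 ≤ X := (le_max_left _ _).trans ((le_max_right _ _).trans hX)
  have hXd : 2 ≤ X := (le_max_right _ _).trans ((le_max_right _ _).trans hX)
  obtain ⟨hL, hc2, hc3, hc4⟩ := hX3 X hXc
  haveI : NeZero q := ⟨by omega⟩
  set L : ℝ := Real.log X with hLdef
  have hL4 : 4 ≤ L := (le_max_left _ _).trans hL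
  have hLη : 8 / η ^ 2 ≤ L := (le_max_right _ _).trans hL
  have hL0 : 0 < L := by linarith
  have hX1 : (1 : ℝ) ≤ X := by
    have : 1 ≤ X := by omega
    exact_mod_cast this
  have hX0 : (0 : ℝ) < X := by linarith
  have hq0 : (0 : ℝ) < q := by exact_mod_cast hq1
  have hq' : (q : ℝ) ≤ (X : ℝ) ^ (2 / 3 - ε₁) := by
    refine hq.trans (Real.rpow_le_rpow_of_exponent_le hX1 ?_)
    have : ε₁ ≤ ε₀ := min_le_left _ _
    linarith
  have hq23 : (q : ℝ) ≤ (X : ℝ) ^ (2 / 3 : ℝ) :=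
    hq.trans (Real.rpow_le_rpow_of_exponent_le hX1 (by linarith))
  -- the class
  have hgcd : (Nat.gcd (a : ZMod q).val q : ℝ) ≤ L ^ K := by
    rw [ZMod.val_natCast, ← Nat.gcd_rec, Nat.gcd_comm]
    exact ha
  have hT2 := h1 X hXa q hq' (a : ZMod q) hgcd
  -- the threshold
  set Z : ℝ := X / L ^ (A + 2) with hZ
  have hLA2 : 0 < L ^ (A + 2) := by positivity
  have hZ0 : 0 < Z := by positivity
  have hZn : (n0 : ℝ) + 1 ≤ Z := by
    rw [hZ, le_div_iff₀ hLA2]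
    rw [Real.rpow_one, one_div, ← div_eq_inv_mul] at hc2
    rw [le_div_iff₀ (by positivity)] at hc2
    linarith
  have hpow : (X : ℝ) ^ (1 - 1 / 300 : ℝ) ≤ η / 2 * Z := by
    have e1 : (X : ℝ) ^ (1 - 1 / 300 : ℝ) * (X : ℝ) ^ (1 / 300 : ℝ) = X := by
      rw [← Real.rpow_add hX0]
      norm_num
    have e2 : 0 < (X : ℝ) ^ (1 - 1 / 300 : ℝ) := Real.rpow_pos_of_pos hX0 _
    have e3 : (X : ℝ) ^ (1 - 1 / 300 : ℝ) * L ^ (A + 2) ≤
        (X : ℝ) ^ (1 - 1 / 300 : ℝ) * (η / 2 * (X : ℝ) ^ (1 / 300 : ℝ)) :=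
      mul_le_mul_of_nonneg_left hc3 e2.le
    have e4 : (X : ℝ) ^ (1 - 1 / 300 : ℝ) * (η / 2 * (X : ℝ) ^ (1 / 300 : ℝ)) = η / 2 * X := by
      calc (X : ℝ) ^ (1 - 1 / 300 : ℝ) * (η / 2 * (X : ℝ) ^ (1 / 300 : ℝ))
          = η / 2 * ((X : ℝ) ^ (1 - 1 / 300 : ℝ) * (X : ℝ) ^ (1 / 300 : ℝ)) := by ring
        _ = η / 2 * X := by rw [e1]
    rw [e4] at e3
    rw [hZ, ← mul_div_assoc, le_div_iff₀ hLA2]
    exact e3
  -- the two parts
  set D : ℕ → ℝ := fun n => (cv X (la X) (la X) n -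
    cv X (nu X (Rm X) q) (nu X (Rm X) q) n) ^ 2 with hD
  set S1 : Finset ℕ := ((range (2 * X + 1)).filter (fun n : ℕ => (n : ZMod q) = (a : ZMod q))).filter
    (fun n => (η * Z / 2) ^ 2 ≤ D n) with hS1
  set S2 : Finset ℕ := (range (⌊Z⌋₊ + 1)).filter (fun n => n ≡ a [MOD q]) with hS2
  have hsub : (range (X + 1)).filter (fun n => Even n ∧ n ≡ a [MOD q] ∧
      ε * Pool.MP_dd84fd_nt.En.HL n < |(Pool.MP_dd84fd_nt.En.g n : ℝ) -
        Pool.MP_dd84fd_nt.En.HL n|) ⊆ S1 ∪ S2 := by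
    intro n hn
    rw [mem_filter, mem_range] at hn
    obtain ⟨hnX, heven, hmod, hbad⟩ := hn
    rw [mem_union]
    by_cases hnZ : (n : ℝ) ≤ Z
    · right
      rw [hS2, mem_filter, mem_range]
      exact ⟨Nat.lt_succ_of_le (Nat.le_floor hnZ), hmod⟩
    · left
      rw [not_le] at hnZ
      have hnn0 : n0 ≤ n := by
        have : (n0 : ℝ) < n := by linarith
        exact_mod_cast this.le
      have hn1 : 1 ≤ n := by
        have : (0 : ℝ) < n := by linarith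
        exact_mod_cast this
      have hnX' : n ≤ X := by omega
      have hr : η * n < |Pool.MP_dd84fd_nt.En.rG n - Pool.MP_dd84fd_nt.En.SS n * n| := by
        by_contra hcon
        rw [not_lt] at hcon
        exact absurd (hg n hnn0 heven hcon) (not_le.2 hbad)
      have hnn := h2 X hXb q hq23 n hn1 hnX' heven
      rw [hS1, mem_filter, mem_filter, mem_range]
      refine ⟨⟨by omega, ?_⟩, ?_⟩
      · exact (ZMod.natCast_eq_natCast_iff n a q).2 hmod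
      · rw [hD]
        simp only
        rw [cv_la_rG X n hnX']
        have h5 : η * Z / 2 ≤ |Pool.MP_dd84fd_nt.En.rG n -
            cv X (nu X (Rm X) q) (nu X (Rm X) q) n| := by
          have h6 : |Pool.MP_dd84fd_nt.En.rG n - Pool.MP_dd84fd_nt.En.SS n * n| ≤
              |Pool.MP_dd84fd_nt.En.rG n - cv X (nu X (Rm X) q) (nu X (Rm X) q) n| +
              |cv X (nu X (Rm X) q) (nu X (Rm X) q) n - Pool.MP_dd84fd_nt.En.SS n * n| := by
            have := abs_add_le (Pool.MP_dd84fd_nt.En.rG n -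
              cv X (nu X (Rm X) q) (nu X (Rm X) q) n)
              (cv X (nu X (Rm X) q) (nu X (Rm X) q) n - Pool.MP_dd84fd_nt.En.SS n * n)
            rwa [sub_add_sub_cancel] at this
          have h7 : η * Z ≤ η * n := mul_le_mul_of_nonneg_left hnZ.le hη.le
          linarith
        calc (η * Z / 2) ^ 2 ≤ |Pool.MP_dd84fd_nt.En.rG n -
            cv X (nu X (Rm X) q) (nu X (Rm X) q) n| ^ 2 :=
              pow_le_pow_left₀ (by positivity) h5 2
          _ = _ := sq_abs _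
  have hc1 : (((range (X + 1)).filter (fun n => Even n ∧ n ≡ a [MOD q] ∧
      ε * Pool.MP_dd84fd_nt.En.HL n < |(Pool.MP_dd84fd_nt.En.g n : ℝ) -
        Pool.MP_dd84fd_nt.En.HL n|)).card : ℝ) ≤ S1.card + S2.card := by
    have := (card_le_card hsub).trans (card_union_le S1 S2)
    exact_mod_cast this
  -- the first part
  have hS1c : (S1.card : ℝ) ≤ X / (2 * (q * L ^ A)) := by
    have e1 : (S1.card : ℝ) * (η * Z / 2) ^ 2 ≤ X ^ 3 / (q * L ^ (3 * A + 5)) := by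
      have e2 : S1.card • (η * Z / 2) ^ 2 ≤ ∑ n ∈ S1, D n :=
        card_nsmul_le_sum S1 D _ fun n hn => (mem_filter.1 hn).2
      rw [nsmul_eq_mul] at e2
      refine e2.trans (le_trans ?_ hT2)
      refine sum_le_sum_of_subset_of_nonneg (filter_subset _ _) fun n _ _ => ?_
      exact sq_nonneg _
    have e3 : (η * Z / 2) ^ 2 = η ^ 2 * X ^ 2 / (4 * (L ^ (A + 2)) ^ 2) := by
      rw [hZ]
      field_simp
      ring
    have e4 : 0 < (η * Z / 2) ^ 2 := by positivity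
    rw [← le_div_iff₀ e4] at e1
    refine e1.trans ?_
    rw [e3]
    have e5 : (X : ℝ) ^ 3 / (q * L ^ (3 * A + 5)) / (η ^ 2 * X ^ 2 / (4 * (L ^ (A + 2)) ^ 2)) =
        X / (2 * (q * L ^ A)) * (8 / η ^ 2 / L) := by
      have e6 : L ^ (3 * A + 5) = L ^ A * (L ^ (A + 2)) ^ 2 * L := by
        rw [← pow_mul, ← pow_add, ← pow_succ]
        congr 1
        ring
      rw [e6]
      field_simp
      ring
    rw [e5]
    have e7 : 8 / η ^ 2 / L ≤ 1 := by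
      rw [div_le_one hL0]
      exact hLη
    calc (X : ℝ) / (2 * (q * L ^ A)) * (8 / η ^ 2 / L) ≤ X / (2 * (q * L ^ A)) * 1 := by
          gcongr
      _ = _ := mul_one _
  -- the second part
  have hS2c : (S2.card : ℝ) ≤ X / (2 * (q * L ^ A)) := by
    refine (TwoFinal_count q a hq1 Z hZ0.le).trans ?_
    have e1 : Z / q ≤ X / (4 * (q * L ^ A)) := by
      have e2 : Z / q = X / (q * L ^ A * L ^ 2) := by
        rw [hZ, pow_add]
        field_simp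
      rw [e2]
      have e3 : 4 * (q * L ^ A) ≤ q * L ^ A * L ^ 2 := by
        have : 4 ≤ L ^ 2 := by nlinarith
        have h0 : 0 < (q : ℝ) * L ^ A := by positivity
        nlinarith
      gcongr
    have e2 : (2 : ℝ) ≤ X / (4 * (q * L ^ A)) := by
      rw [le_div_iff₀ (by positivity)]
      have e3 : (q : ℝ) * L ^ A ≤ (X : ℝ) ^ (2 / 3 : ℝ) * (1 / 8 * (X : ℝ) ^ (1 / 3 : ℝ)) :=
        mul_le_mul hq23 hc4 (by positivity) (by positivity)
      have e4 : (X : ℝ) ^ (2 / 3 : ℝ) * (1 / 8 * (X : ℝ) ^ (1 / 3 : ℝ)) = X / 8 := by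
        have e5 : (X : ℝ) ^ (2 / 3 : ℝ) * (X : ℝ) ^ (1 / 3 : ℝ) = X := by
          rw [← Real.rpow_add hX0]
          norm_num
        calc (X : ℝ) ^ (2 / 3 : ℝ) * (1 / 8 * (X : ℝ) ^ (1 / 3 : ℝ))
            = 1 / 8 * ((X : ℝ) ^ (2 / 3 : ℝ) * (X : ℝ) ^ (1 / 3 : ℝ)) := by ring
          _ = X / 8 := by rw [e5]; ring
      rw [e4] at e3
      linarith
    have e3 : (X : ℝ) / (4 * (q * L ^ A)) + X / (4 * (q * L ^ A)) = X / (2 * (q * L ^ A)) := by
      field_simp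
      ring
    linarith
  have hfin : (X : ℝ) / (2 * (q * L ^ A)) + X / (2 * (q * L ^ A)) = X / (q * L ^ A) := by
    field_simp
    ring
  linarith

end Pool.MP_dd84fd_nt.L2G
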